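import Pool.Agent.LibQ9.BDefs

/-!
[Q9 B0] Laurent tails: elementary facts on `pr` and `dq`.

`Λ = Σ_j l_j t^(-1-j)`; `pr l (X^a f)` is the coefficient of `t^(-1-a)` of `f Λ`, `dq l f` the polynomial part of `f Λ`.
-/

set_option autoImplicit false

namespace Q9

open Polynomial

variable {κ : Type} [Field κ]

theorem pr_add (l : ℕ → κ) (f g : κ[X]) : pr l (f + g) = pr l f + pr l g := by
  unfold pr
  exact Polynomial.sum_add_index f g _ (fun i => by simp) (fun a b c => by ring)

private theorem B0_pr_mon (l : ℕ → κ) (n : ℕ) (a : κ) : pr l (monomial n a) = a * l n := by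
  unfold pr
  exact Polynomial.sum_monomial_index a (fun j c => c * l j) (zero_mul _)

theorem pr_C_mul (l : ℕ → κ) (c : κ) (f : κ[X]) : pr l (C c * f) = c * pr l f := by
  induction f using Polynomial.induction_on' with
  | add p q hp hq => rw [mul_add, pr_add, pr_add, hp, hq, mul_add]
  | monomial n a => rw [C_mul_monomial, B0_pr_mon, B0_pr_mon, mul_assoc]

theorem pr_X_pow (l : ℕ → κ) (j : ℕ) : pr l (X ^ j) = l j := by
  rw [X_pow_eq_monomial, B0_pr_mon, one_mul]

theorem dq_add (l : ℕ → κ) (f g : κ[X]) : dq l (f + g) = dq l f + dq l g := by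
  unfold dq
  refine Polynomial.sum_add_index f g _ (fun i => by simp) (fun a b c => ?_)
  rw [← Finset.sum_add_distrib]
  refine Finset.sum_congr rfl fun j _ => ?_
  rw [add_mul, map_add]

private theorem B0_dq_zero (l : ℕ → κ) : dq l 0 = 0 := by
  unfold dq
  exact Polynomial.sum_zero_index _

private theorem B0_pr_zero (l : ℕ → κ) : pr l 0 = 0 := by
  unfold pr
  exact Polynomial.sum_zero_index _

theorem dq_sum {ι : Type} (l : ℕ → κ) (s : Finset ι) (f : ι → κ[X]) :
    dq l (∑ i ∈ s, f i) = ∑ i ∈ s, dq l (f i) := by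
  classical
  induction s using Finset.induction_on with
  | empty => rw [Finset.sum_empty, Finset.sum_empty, B0_dq_zero]
  | insert a s ha ih => rw [Finset.sum_insert ha, Finset.sum_insert ha, dq_add, ih]

private theorem B0_dq_mon (l : ℕ → κ) (n : ℕ) (a : κ) :
    dq l (monomial n a) = ∑ j ∈ Finset.range n, monomial (n - 1 - j) (a * l j) := by
  unfold dq
  exact Polynomial.sum_monomial_index a
    (fun r c => ∑ j ∈ Finset.range r, monomial (r - 1 - j) (c * l j)) (by simp)

private theorem B0_dq_C_mul (l : ℕ → κ) (c : κ) (f : κ[X]) : dq l (C c * f) = C c * dq l f := by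
  induction f using Polynomial.induction_on' with
  | add p q hp hq => rw [mul_add, dq_add, dq_add, hp, hq, mul_add]
  | monomial n a =>
    rw [C_mul_monomial, B0_dq_mon, B0_dq_mon, Finset.mul_sum]
    refine Finset.sum_congr rfl fun j _ => ?_
    rw [C_mul_monomial, mul_assoc]

theorem dq_degree (l : ℕ → κ) (f : κ[X]) (N : ℕ) (h : f.natDegree ≤ N) :
    (dq l f).degree < (N : ℕ) := by
  rw [Polynomial.degree_lt_iff_coeff_zero]
  intro m hm
  unfold dq Polynomial.sum
  rw [Polynomial.finsetSum_coeff]
  refine Finset.sum_eq_zero fun r hr => ?_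
  rw [Polynomial.finsetSum_coeff]
  refine Finset.sum_eq_zero fun j hj => ?_
  rw [Finset.mem_range] at hj
  have hr' : r ≤ f.natDegree := Polynomial.le_natDegree_of_mem_supp r hr
  rw [Polynomial.coeff_monomial, if_neg]
  omega

private theorem B0_step (l : ℕ → κ) (f : κ[X]) : dq l (f * X) = dq l f * X + C (pr l f) := by
  induction f using Polynomial.induction_on' with
  | add p q hp hq => rw [add_mul, dq_add, dq_add, pr_add, hp, hq, C_add]; ring
  | monomial n a =>
    rw [monomial_mul_X, B0_dq_mon, B0_dq_mon, B0_pr_mon, Finset.sum_range_succ, Finset.sum_mul]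
    congr 1
    · refine Finset.sum_congr rfl fun j hj => ?_
      rw [Finset.mem_range] at hj
      rw [monomial_mul_X, show n + 1 - 1 - j = n - 1 - j + 1 by omega]
    · have : n + 1 - 1 - n = 0 := by omega
      rw [this, monomial_zero_left]

private theorem B0_pow (l : ℕ → κ) (f : κ[X]) (b : ℕ) (h : ∀ a < b, pr l (X ^ a * f) = 0) :
    dq l (f * X ^ b) = dq l f * X ^ b := by
  induction b with
  | zero => rw [pow_zero, mul_one, mul_one]
  | succ b ih =>
    rw [pow_succ, ← mul_assoc, B0_step, ih fun a ha => h a (by omega), mul_comm f (X ^ b),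
      h b (by omega), C_0, add_zero, mul_assoc]

theorem dq_mul (l : ℕ → κ) (f g : κ[X]) (h : ∀ a < g.natDegree, pr l (X ^ a * f) = 0) :
    dq l (f * g) = dq l f * g := by
  have h1 : g = ∑ b ∈ Finset.range (g.natDegree + 1), C (g.coeff b) * X ^ b :=
    g.as_sum_range_C_mul_X_pow
  have h2 : f * g = ∑ b ∈ Finset.range (g.natDegree + 1), C (g.coeff b) * (f * X ^ b) := by
    conv_lhs => rw [h1, Finset.mul_sum]
    refine Finset.sum_congr rfl fun b _ => ?_
    ring
  rw [h2, dq_sum]
  conv_rhs => rw [h1, Finset.mul_sum]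
  refine Finset.sum_congr rfl fun b hb => ?_
  rw [Finset.mem_range] at hb
  rw [B0_dq_C_mul, B0_pow l f b fun a ha => h a (by omega)]
  ring

private theorem B0_dq_C (l : ℕ → κ) (c : κ) : dq l (C c) = 0 := by
  rw [← monomial_zero_left, B0_dq_mon, Finset.sum_range_zero]

theorem dq_eval (l : ℕ → κ) (f : κ[X]) (t : κ) :
    (dq l f).eval t = pr l (f /ₘ (X - C t)) := by
  have h1 : f = (f /ₘ (X - C t)) * X + (C (-t) * (f /ₘ (X - C t)) + C (f.eval t)) := by
    have := Polynomial.modByMonic_add_div f (X - C t)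
    rw [Polynomial.modByMonic_X_sub_C_eq_C_eval] at this
    rw [C_neg]
    linear_combination -this
  conv_lhs => rw [h1, dq_add, dq_add, B0_step, B0_dq_C_mul, B0_dq_C]
  rw [eval_add, eval_add, eval_add, eval_mul, eval_mul, eval_X, eval_C, eval_C, eval_zero]
  ring

private theorem B0_divX (l : ℕ → κ) (f : κ[X]) (h : dq l f = 0) :
    pr l (divX f) = 0 ∧ dq l (divX f) = 0 := by
  have h1 : dq l f = dq l (divX f) * X + C (pr l (divX f)) := by
    conv_lhs => rw [← divX_mul_X_add f, dq_add, B0_dq_C, add_zero, B0_step]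
  rw [h] at h1
  have h2 : pr l (divX f) = 0 := by
    have := congrArg (fun p => coeff p 0) h1
    simpa using this.symm
  refine ⟨h2, ?_⟩
  rw [h2, C_0, add_zero] at h1
  rcases mul_eq_zero.1 h1.symm with h3 | h3
  · exact h3
  · exact absurd h3 X_ne_zero

private theorem B0_iter (l : ℕ → κ) (f : κ[X]) (h : dq l f = 0) (k : ℕ) :
    dq l (divX^[k] f) = 0 ∧ pr l (divX^[k + 1] f) = 0 := by
  induction k with
  | zero => exact ⟨h, (B0_divX l f h).1⟩
  | succ k ih =>
    have h1 := B0_divX l _ ih.1
    rw [← Function.iterate_succ_apply' divX k f] at h1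
    refine ⟨h1.2, ?_⟩
    rw [Function.iterate_succ_apply' divX (k + 1) f]
    exact (B0_divX l _ h1.2).1

private theorem B0_coeff (f : κ[X]) (k n : ℕ) : (divX^[k] f).coeff n = f.coeff (n + k) := by
  induction k generalizing n with
  | zero => rfl
  | succ k ih =>
    rw [Function.iterate_succ_apply', coeff_divX, ih]
    congr 1
    omega

private theorem B0_top (l : ℕ → κ) (g : κ[X]) (j : ℕ) (hg : ∀ i, j < i → g.coeff i = 0)
    (hl : ∀ i < j, l i = 0) : pr l g = g.coeff j * l j := by
  have hd : g.natDegree < j + 1 := by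
    rw [Nat.lt_succ_iff]
    exact Polynomial.natDegree_le_iff_coeff_eq_zero.2 fun i hi => hg i hi
  unfold pr
  rw [Polynomial.sum_over_range' g (fun n => by simp) (j + 1) hd, Finset.sum_range_succ]
  rw [Finset.sum_eq_zero, zero_add]
  intro i hi
  rw [Finset.mem_range] at hi
  rw [hl i hi, mul_zero]

theorem l_zero {ι : Type} (l : ℕ → κ) (f : ι → κ[X]) (N e : ℕ) (hN : ∀ i, (f i).natDegree ≤ N)
    (hN' : ∃ i, (f i).coeff N ≠ 0) (h1 : ∀ i, ∀ a < e, pr l (X ^ a * f i) = 0)
    (h2 : ∀ i, dq l (f i) = 0) (j : ℕ) (hj : j < N + e) : l j = 0 := by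
  obtain ⟨i, hi⟩ := hN'
  induction j using Nat.strong_induction_on with
  | _ j ih =>
    have hl : ∀ k < j, l k = 0 := fun k hk => ih k hk (by omega)
    by_cases hjN : j < N
    · have h3 := (B0_iter l (f i) (h2 i) (N - j - 1)).2
      have h4 : N - j - 1 + 1 = N - j := by omega
      rw [h4] at h3
      rw [B0_top l _ j (fun k hk => ?_) hl] at h3
      · rw [B0_coeff, show j + (N - j) = N by omega] at h3
        exact (mul_eq_zero.1 h3).resolve_left hi
      · rw [B0_coeff]
        exact Polynomial.coeff_eq_zero_of_natDegree_lt (by have := hN i; omega)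
    · have h3 := h1 i (j - N) (by omega)
      rw [B0_top l _ j (fun k hk => ?_) hl] at h3
      · have h4 : (X ^ (j - N) * f i).coeff j = (f i).coeff N := by
          have : j = N + (j - N) := by omega
          conv_lhs => rw [this]
          rw [show N + (j - N) - N = j - N by omega, mul_comm, coeff_mul_X_pow]
        rw [h4] at h3
        exact (mul_eq_zero.1 h3).resolve_left hi
      · have : k = (k - (j - N)) + (j - N) := by omega
        rw [this, mul_comm, coeff_mul_X_pow]
        exact Polynomial.coeff_eq_zero_of_natDegree_lt (by have := hN i; omega)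

end Q9
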