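import Pool.Agent.LibQ9.B0

/-!
[Q9 B1] (MEDIUM/STRONG; may cite B0 as stated) Globally generated at one point implies free (Serre duality on `P^1` by hand).

PLAN. Write `G_i = aeval γ (pderiv i F) ∈ κ[X]`, `natDegree ≤ (n-1) d` (form of degree `n - 1` in polynomials of degree `≤ d`). (i) `Ideal.span (range G) = ⊤`: from `hSm`, `γ_j^M ∈ span (range G)`, and the `γ_j^M` generate the unit ideal
(`hprim`; `Ideal.span_pow_eq_top`). (ii) some `G_j` has coefficient `≠ 0` at `(n-1) d`: that coefficient is the value of the form `pderiv j F` at the vector of the coefficients of `X^d` of `γ`, which is `≠ 0` (`Sm.zero`).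
(iii) Suppose `a ↦ ∑ G_i a_i` from `{deg < d}^(n+1)` to `{deg < n d}` is not onto: there is a functional `l ≠ 0` on `{deg < nd}` (`l j = 0` for `j ≥ nd`) killing the image; in particular `pr l (X^a G_i) = 0` for `a < d`.
Put `A_i = dq l G_i`, `deg A_i < (n-1) d` (`dq_degree`). For every `δ` with `grad F γ δ = 0`, `natDegree ≤ d`: `Σ A_i δ_i = Σ dq l (G_i δ_i) = dq l 0 = 0` (`dq_mul`, `dq_sum`).
(iv) `∇F(γ(0)) ≠ 0`, so `ker` has dimension `n`; take `δ^1..δ^n` with `δ^m(0)` a basis of it (`hgg`): the `n × (n+1)` matrix of the `δ^m` has an `n`-minor with nonzero value at `0`, so over `κ(t)` the orthogonal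
complement of its rows is a line, containing `A` and `G`: `A_i G_j = A_j G_i` for all `i, j` (one can also expand: the vector of signed `n`-minors `Δ` satisfies `Δ_j A_i = Δ_i A_j`, same for `G`, some `Δ_j ≠ 0`).
(v) `1 = Σ b_i G_i`, `c = Σ b_i A_i`: `A_j = c G_j`; by the degrees `c = 0`. So `A = 0` and `l_zero` (with `N = (n-1) d`, `e = d`, `N + e = nd`) gives `l = 0`, contradiction.
-/

set_option autoImplicit false

namespace Q9

open Polynomial

private theorem B1_coeff_mul {κ : Type} [Field κ] {f g : κ[X]} {D E : ℕ} (hf : f.natDegree ≤ D)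
    (hg : g.natDegree ≤ E) : (f * g).natDegree ≤ D + E ∧
      (f * g).coeff (D + E) = f.coeff D * g.coeff E :=
  ⟨natDegree_mul_le_of_le hf hg, coeff_mul_add_eq_of_natDegree_le hf hg⟩

private theorem B1_coeff_pow {κ : Type} [Field κ] {f : κ[X]} {D : ℕ} (hf : f.natDegree ≤ D)
    (m : ℕ) : (f ^ m).natDegree ≤ m * D ∧ (f ^ m).coeff (m * D) = f.coeff D ^ m := by
  induction m with
  | zero => simp
  | succ m ih =>
    rw [pow_succ, pow_succ, add_mul, one_mul]
    have h1 := B1_coeff_mul ih.1 hf
    rw [ih.2] at h1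
    exact h1

private theorem B1_coeff_prod {κ ι : Type} [Field κ] {γ : ι → κ[X]} {d : ℕ}
    (hγ : ∀ i, (γ i).natDegree ≤ d) (m : ι → ℕ) (s : Finset ι) :
    (∏ i ∈ s, γ i ^ m i).natDegree ≤ (∑ i ∈ s, m i) * d ∧
      (∏ i ∈ s, γ i ^ m i).coeff ((∑ i ∈ s, m i) * d) = ∏ i ∈ s, (γ i).coeff d ^ m i := by
  classical
  induction s using Finset.induction_on with
  | empty => simp
  | insert a s ha ih =>
    rw [Finset.prod_insert ha, Finset.sum_insert ha, Finset.prod_insert ha, add_mul]
    have h1 := B1_coeff_pow (hγ a) (m a)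
    have h2 := B1_coeff_mul h1.1 ih.1
    rw [h1.2, ih.2] at h2
    exact h2

private theorem B1_coeff_aeval {k κ : Type} [Field k] [Field κ] [Algebra k κ] {m e d : ℕ}
    (G : MvPolynomial (Fin m) k) (hG : G.IsHomogeneous e) {γ : Fin m → κ[X]}
    (hγ : ∀ i, (γ i).natDegree ≤ d) : (MvPolynomial.aeval γ G).natDegree ≤ e * d ∧
      (MvPolynomial.aeval γ G).coeff (e * d) =
        MvPolynomial.aeval (fun i => (γ i).coeff d) G := by
  rw [MvPolynomial.aeval_def, MvPolynomial.aeval_def, MvPolynomial.eval₂_eq',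
    MvPolynomial.eval₂_eq']
  have hterm : ∀ s ∈ G.support, (algebraMap k κ[X] (MvPolynomial.coeff s G) *
      ∏ i, γ i ^ s i).natDegree ≤ e * d ∧ (algebraMap k κ[X] (MvPolynomial.coeff s G) *
      ∏ i, γ i ^ s i).coeff (e * d) = algebraMap k κ (MvPolynomial.coeff s G) *
        ∏ i, (γ i).coeff d ^ s i := by
    intro s hs
    have h1 : ∑ i, s i = e := by
      have h2 := hG (MvPolynomial.mem_support_iff.1 hs)
      rw [← h2, Finsupp.weight_apply, Finsupp.sum_fintype _ _ (fun i => by simp)]
      simp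
    have h2 := B1_coeff_prod hγ s Finset.univ
    rw [h1] at h2
    have h3 : algebraMap k κ[X] (MvPolynomial.coeff s G) =
        C (algebraMap k κ (MvPolynomial.coeff s G)) := rfl
    rw [h3, coeff_C_mul, h2.2]
    exact ⟨(natDegree_C_mul_le _ _).trans h2.1, rfl⟩
  constructor
  · exact natDegree_sum_le_of_forall_le _ _ fun s hs => (hterm s hs).1
  · rw [finsetSum_coeff]
    exact Finset.sum_congr rfl fun s hs => (hterm s hs).2

/-- the image of the vectors of polynomials of degree less than `d` -/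
private noncomputable def B1_img {κ : Type} [Field κ] {m : ℕ} (G : Fin m → κ[X]) (d : ℕ) :
    Submodule κ κ[X] where
  carrier := {f | ∃ a : Fin m → κ[X], (∀ i, (a i).degree < (d : ℕ)) ∧ ∑ i, G i * a i = f}
  add_mem' := by
    rintro _ _ ⟨a, ha, rfl⟩ ⟨b, hb, rfl⟩
    refine ⟨fun i => a i + b i, fun i => lt_of_le_of_lt (degree_add_le _ _) (max_lt (ha i) (hb i)),
      ?_⟩
    simp only [mul_add, Finset.sum_add_distrib]
  zero_mem' := by
    refine ⟨fun _ => 0, fun i => ?_, by simp⟩
    rw [degree_zero]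
    exact WithBot.bot_lt_coe _
  smul_mem' := by
    rintro c _ ⟨a, ha, rfl⟩
    refine ⟨fun i => c • a i, fun i => lt_of_le_of_lt (degree_smul_le _ _) (ha i), ?_⟩
    rw [Finset.smul_sum]
    exact Finset.sum_congr rfl fun i _ => mul_smul_comm _ _ _

/-- two vectors orthogonal to `n` independent vectors are proportional -/
private theorem B1_prop {κ : Type} [Field κ] {m : ℕ} (A G : Fin m → κ[X]) (j₀ : Fin m)
    (δ : Fin m → Fin m → κ[X]) (c : Fin m → κ)
    (hδ0 : ∀ i, i ≠ j₀ → ∀ l, (δ i l).coeff 0 = if l = i then 1 else if l = j₀ then c i else 0)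
    (hA : ∀ i, i ≠ j₀ → ∑ l, A l * δ i l = 0) (hG : ∀ i, i ≠ j₀ → ∑ l, G l * δ i l = 0) (l : Fin m) :
    G j₀ * A l = A j₀ * G l := by
  classical
  set M : Matrix (Fin m) (Fin m) κ[X] := fun i l =>
    if i = j₀ then (if l = j₀ then 1 else 0) else δ i l with hM
  have hdet : M.det ≠ 0 := by
    intro h
    have h1 : (M.map (eval 0)).det = 0 := by
      have h2 := RingHom.map_det (evalRingHom (0 : κ)) M
      rw [h, map_zero] at h2
      exact h2.symm
    obtain ⟨w, hw, hw0⟩ := Matrix.exists_mulVec_eq_zero_iff.2 h1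
    apply hw
    have h3 : w j₀ = 0 := by
      have h4 := congrFun hw0 j₀
      have h5 : ∀ l, (M.map (eval 0)) j₀ l * w l = if l = j₀ then w j₀ else 0 := by
        intro l
        rw [Matrix.map_apply, hM]
        dsimp only
        rw [if_pos rfl]
        by_cases h6 : l = j₀
        · rw [if_pos h6, if_pos h6, eval_one, one_mul, h6]
        · rw [if_neg h6, if_neg h6, eval_zero, zero_mul]
      have h6 : ∑ l, (M.map (eval 0)) j₀ l * w l = 0 := h4
      rw [Finset.sum_congr rfl fun l _ => h5 l, Finset.sum_ite_eq' Finset.univ j₀,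
        if_pos (Finset.mem_univ _)] at h6
      exact h6
    funext i
    by_cases hi : i = j₀
    · rw [hi]
      exact h3
    · have h4 := congrFun hw0 i
      have h5 : ∑ l, (if l = i then (1 : κ) else if l = j₀ then c i else 0) * w l = 0 := by
        have h7 : ∑ l, (M.map (eval 0)) i l * w l = 0 := h4
        refine Eq.trans (Finset.sum_congr rfl fun l _ => ?_) h7
        rw [Matrix.map_apply, hM]
        dsimp only
        rw [if_neg hi, ← coeff_zero_eq_eval_zero, hδ0 i hi l]
      have h6 : ∀ l, (if l = i then (1 : κ) else if l = j₀ then c i else 0) * w l =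
          if l = i then w i else 0 := by
        intro l
        by_cases h7 : l = i
        · rw [if_pos h7, if_pos h7, one_mul, h7]
        · rw [if_neg h7, if_neg h7]
          by_cases h8 : l = j₀
          · rw [if_pos h8, h8, h3, mul_zero]
          · rw [if_neg h8, zero_mul]
      rw [Finset.sum_congr rfl fun l _ => h6 l, Finset.sum_ite_eq' Finset.univ i,
        if_pos (Finset.mem_univ _)] at h5
      exact h5
  have hv : M.mulVec (fun l => G j₀ * A l - A j₀ * G l) = 0 := by
    funext i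
    by_cases hi : i = j₀
    · simp only [Matrix.mulVec, dotProduct, hM, if_pos hi]
      rw [Finset.sum_eq_single j₀]
      · rw [if_pos rfl, one_mul]
        simp only [Pi.zero_apply]
        ring
      · intro l _ hl
        rw [if_neg hl, zero_mul]
      · intro h
        exact absurd (Finset.mem_univ _) h
    · simp only [Matrix.mulVec, dotProduct, hM, if_neg hi]
      have h1 : ∀ l, δ i l * (G j₀ * A l - A j₀ * G l) =
          G j₀ * (A l * δ i l) - A j₀ * (G l * δ i l) := fun l => by ring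
      rw [Finset.sum_congr rfl fun l _ => h1 l, Finset.sum_sub_distrib, ← Finset.mul_sum,
        ← Finset.mul_sum, hA i hi, hG i hi, mul_zero, mul_zero, sub_zero]
      rfl
  have h := congrFun (Matrix.eq_zero_of_mulVec_eq_zero hdet hv) l
  simpa [sub_eq_zero] using h

theorem free_of_gg {k : Type} [Field k] {n : ℕ} (hn : 2 ≤ n) (F : MvPolynomial (Fin (n + 1)) k)
    (hF : F.IsHomogeneous n) (hSm : Sm F) {κ : Type} [Field κ] [Algebra k κ] (d : ℕ) (hd : 1 ≤ d)
    (γ : Fin (n + 1) → κ[X]) (hOn : On F d γ) (hprim : Ideal.span (Set.range γ) = ⊤)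
    (hlead : ∃ i, (γ i).coeff d ≠ 0)
    (hgg : ∀ w : Fin (n + 1) → κ, grad F (vc γ 0) w = 0 → ∃ δ : Fin (n + 1) → κ[X],
      (∀ i, (δ i).natDegree ≤ d) ∧ vc δ 0 = w ∧ grad F γ δ = 0) : Free F d γ := by
  classical
  set G : Fin (n + 1) → κ[X] := fun i => MvPolynomial.aeval γ (MvPolynomial.pderiv i F) with hG
  have hdeg : ∀ i, (G i).natDegree ≤ (n - 1) * d ∧ (G i).coeff ((n - 1) * d) =
      MvPolynomial.aeval (vc γ d) (MvPolynomial.pderiv i F) := fun i =>
    B1_coeff_aeval _ hF.pderiv hOn.1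
  have hnd : (n - 1) * d + d = n * d := by
    obtain ⟨n', rfl⟩ : ∃ n', n = n' + 1 := ⟨n - 1, by omega⟩
    rw [Nat.add_sub_cancel, add_mul, one_mul]
  -- (i)
  have hspan : (1 : κ[X]) ∈ Ideal.span (Set.range G) := by
    obtain ⟨M, hM⟩ := hSm
    have h1 : ∀ j, γ j ^ M ∈ Ideal.span (Set.range G) := by
      intro j
      have h2 : Ideal.span (Set.range fun i => MvPolynomial.pderiv i F) ≤
          (Ideal.span (Set.range G)).comap
            (MvPolynomial.aeval γ : MvPolynomial (Fin (n + 1)) k →ₐ[k] κ[X]) := by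
        rw [Ideal.span_le]
        rintro _ ⟨i, rfl⟩
        exact Ideal.subset_span ⟨i, rfl⟩
      have h3 := h2 (hM j)
      rw [Ideal.mem_comap, map_pow, MvPolynomial.aeval_X] at h3
      exact h3
    have h4 := Ideal.span_pow_eq_top _ hprim M
    have h5 : Ideal.span ((fun x : κ[X] => x ^ M) '' Set.range γ) ≤ Ideal.span (Set.range G) := by
      rw [Ideal.span_le]
      rintro _ ⟨_, ⟨j, rfl⟩, rfl⟩
      exact h1 j
    rw [h4] at h5
    exact h5 trivial
  obtain ⟨b, hb⟩ := (Ideal.mem_span_range_iff_exists_fun).1 hspan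
  -- (ii)
  obtain ⟨j₁, hj₁⟩ : ∃ j, (G j).coeff ((n - 1) * d) ≠ 0 := by
    by_contra hcon
    push Not at hcon
    obtain ⟨i, hi⟩ := hlead
    apply hi
    have h1 := hSm.zero (vc γ d) fun j => by rw [← (hdeg j).2, hcon j]
    exact congrFun h1 i
  -- (iv), first part
  have h0 : ∀ i, (G i).coeff 0 = MvPolynomial.aeval (vc γ 0) (MvPolynomial.pderiv i F) := by
    intro i
    rw [coeff_zero_eq_eval_zero]
    have h1 := MvPolynomial.map_aeval (σ := Fin (n + 1)) (R := k) γ (evalRingHom (0 : κ))
      (MvPolynomial.pderiv i F)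
    simp only [coe_evalRingHom] at h1
    rw [hG]
    dsimp only
    rw [h1, MvPolynomial.aeval_def]
    have h2 : (evalRingHom (0 : κ)).comp (algebraMap k κ[X]) = algebraMap k κ := by
      ext x
      exact eval_C
    rw [h2, MvPolynomial.coe_eval₂Hom]
    congr 1
    funext i
    simp only [vc]
    rw [coeff_zero_eq_eval_zero]
  obtain ⟨j₀, hj₀⟩ : ∃ j, (G j).coeff 0 ≠ 0 := by
    by_contra hcon
    push Not at hcon
    have h1 := hSm.zero (vc γ 0) fun j => by rw [← h0 j, hcon j]
    have h2 : Ideal.span (Set.range γ) ≤ RingHom.ker (evalRingHom (0 : κ)) := by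
      rw [Ideal.span_le]
      rintro _ ⟨i, rfl⟩
      have h3 := congrFun h1 i
      simp only [vc, Pi.zero_apply] at h3
      rw [coeff_zero_eq_eval_zero] at h3
      exact h3
    rw [hprim] at h2
    have h3 : (1 : κ[X]) ∈ RingHom.ker (evalRingHom (0 : κ)) := h2 trivial
    rw [RingHom.mem_ker, map_one] at h3
    exact one_ne_zero h3
  refine ⟨hd, hOn, fun f hf => ?_⟩
  by_contra hcon
  have hfU : f ∉ B1_img G d := by
    rintro ⟨a, ha, hfa⟩
    exact hcon ⟨a, ha, hfa⟩
  obtain ⟨φ, hφf, hφU⟩ := Submodule.exists_le_ker_of_notMem hfU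
  set l : ℕ → κ := fun j => φ (X ^ j) with hl
  have hpr : ∀ g : κ[X], pr l g = φ g := by
    intro g
    unfold pr
    conv_rhs => rw [g.as_sum_support_C_mul_X_pow, map_sum]
    rw [Polynomial.sum_def]
    refine Finset.sum_congr rfl fun j _ => ?_
    rw [← smul_eq_C_mul, map_smul, smul_eq_mul]
  have hkill : ∀ i, ∀ a < d, pr l (X ^ a * G i) = 0 := by
    intro i a ha
    rw [hpr]
    apply hφU
    refine ⟨Pi.single i (X ^ a), fun i' => ?_, ?_⟩
    · by_cases h : i' = i
      · rw [h, Pi.single_eq_same, degree_X_pow]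
        exact_mod_cast ha
      · rw [Pi.single_eq_of_ne h, degree_zero]
        exact WithBot.bot_lt_coe _
    · rw [Finset.sum_eq_single i]
      · rw [Pi.single_eq_same, mul_comm]
      · intro i' _ hi'
        rw [Pi.single_eq_of_ne hi', mul_zero]
      · intro h
        exact absurd (Finset.mem_univ _) h
  set A : Fin (n + 1) → κ[X] := fun i => dq l (G i) with hA
  have hdq0 : dq l (0 : κ[X]) = 0 := by
    unfold dq
    exact Polynomial.sum_zero_index _
  have horth : ∀ δ : Fin (n + 1) → κ[X], (∀ i, (δ i).natDegree ≤ d) → ∑ i, G i * δ i = 0 →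
      ∑ i, A i * δ i = 0 := by
    intro δ hδ h
    have h1 : ∀ i, A i * δ i = dq l (G i * δ i) := fun i =>
      (dq_mul l (G i) (δ i) fun a ha => hkill i a (lt_of_lt_of_le ha (hδ i))).symm
    rw [Finset.sum_congr rfl fun i _ => h1 i, ← dq_sum, h, hdq0]
  -- the vectors of the kernel at 0
  have hδex : ∀ i, ∃ δ : Fin (n + 1) → κ[X], i ≠ j₀ → (∀ l, (δ l).natDegree ≤ d) ∧
      (∀ l, (δ l).coeff 0 = if l = i then 1 else if l = j₀ then
        -((G i).coeff 0 * ((G j₀).coeff 0)⁻¹) else 0) ∧ ∑ l, G l * δ l = 0 := by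
    intro i
    by_cases hi : i = j₀
    · exact ⟨0, fun h => absurd hi h⟩
    · obtain ⟨δ, h1, h2, h3⟩ := hgg (fun l => if l = i then 1 else if l = j₀ then
        -((G i).coeff 0 * ((G j₀).coeff 0)⁻¹) else 0) (by
          unfold grad
          rw [Finset.sum_congr rfl fun l _ => by rw [← h0 l]]
          have h4 : ∀ l, (G l).coeff 0 * (if l = i then 1 else if l = j₀ then
              -((G i).coeff 0 * ((G j₀).coeff 0)⁻¹) else 0) =
              (if l = i then (G i).coeff 0 else 0) + (if l = j₀ then - (G i).coeff 0 else 0) := by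
            intro l
            by_cases h5 : l = i
            · rw [if_pos h5, if_pos h5, if_neg (by rw [h5]; exact hi), h5]
              ring
            · rw [if_neg h5, if_neg h5]
              by_cases h6 : l = j₀
              · rw [if_pos h6, if_pos h6, h6]
                field_simp
                ring
              · rw [if_neg h6, if_neg h6]
                ring
          rw [Finset.sum_congr rfl fun l _ => h4 l, Finset.sum_add_distrib,
            Finset.sum_ite_eq' Finset.univ i, Finset.sum_ite_eq' Finset.univ j₀,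
            if_pos (Finset.mem_univ _), if_pos (Finset.mem_univ _)]
          ring)
      exact ⟨δ, fun _ => ⟨h1, fun l => congrFun h2 l, h3⟩⟩
  choose δ hδ using hδex
  have hprop : ∀ l, G j₀ * A l = A j₀ * G l :=
    B1_prop A G j₀ δ (fun i => -((G i).coeff 0 * ((G j₀).coeff 0)⁻¹))
      (fun i hi => (hδ i hi).2.1)
      (fun i hi => horth (δ i) (hδ i hi).1 (hδ i hi).2.2) (fun i hi => (hδ i hi).2.2)
  -- (v)
  set c : κ[X] := ∑ i, b i * A i with hc
  have hGj₀ : G j₀ ≠ 0 := by
    intro h
    rw [h, coeff_zero] at hj₀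
    exact hj₀ rfl
  have hAj₀ : A j₀ = c * G j₀ := by
    calc A j₀ = A j₀ * ∑ i, b i * G i := by rw [hb, mul_one]
      _ = ∑ i, b i * (A j₀ * G i) := by
          rw [Finset.mul_sum]
          exact Finset.sum_congr rfl fun i _ => by ring
      _ = ∑ i, b i * (G j₀ * A i) := Finset.sum_congr rfl fun i _ => by rw [hprop i]
      _ = c * G j₀ := by
          rw [hc, Finset.sum_mul]
          exact Finset.sum_congr rfl fun i _ => by ring
  have hAc : ∀ i, A i = c * G i := by
    intro i
    apply mul_left_cancel₀ hGj₀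
    rw [hprop i, hAj₀]
    ring
  have hc0 : c = 0 := by
    by_contra hc0
    have h1 : (A j₁).degree < ((n - 1) * d : ℕ) := dq_degree l (G j₁) _ (hdeg j₁).1
    have h2 : G j₁ ≠ 0 := by
      intro h
      rw [h, coeff_zero] at hj₁
      exact hj₁ rfl
    have h3 : ((n - 1) * d : ℕ) ≤ (G j₁).degree := le_degree_of_ne_zero hj₁
    rw [hAc j₁, degree_mul] at h1
    have h4 : (0 : WithBot ℕ) ≤ c.degree := zero_le_degree_iff.2 hc0
    have h5 : (((n - 1) * d : ℕ) : WithBot ℕ) ≤ c.degree + (G j₁).degree := by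
      calc (((n - 1) * d : ℕ) : WithBot ℕ) = 0 + (((n - 1) * d : ℕ) : WithBot ℕ) := (zero_add _).symm
        _ ≤ c.degree + (G j₁).degree := add_le_add h4 h3
    exact absurd h1 (not_lt.2 h5)
  have hl0 := l_zero l G ((n - 1) * d) d (fun i => (hdeg i).1) ⟨j₁, hj₁⟩ hkill (fun i => by
    have h1 := hAc i
    rw [hc0, zero_mul] at h1
    exact h1)
  apply hφf
  rw [← hpr f]
  unfold pr
  rw [Polynomial.sum_def]
  refine Finset.sum_eq_zero fun j hj => ?_
  have h1 : (j : WithBot ℕ) < (n * d : ℕ) := lt_of_le_of_lt (le_degree_of_mem_supp j hj) hf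
  rw [hl0 j (by rw [hnd]; exact_mod_cast h1), mul_zero]

end Q9
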