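import Pool.Agent.LibQ9.PDefs

/-!
[Q9 P8] (SHORT/MEDIUM) Specialisation of finitely generated algebras to the algebraically closed base field.

PLAN. `spec`: `B = Algebra.adjoin k (range z ∪ {(z i)⁻¹})` is a finitely generated `k`-algebra, nontrivial (subring of a field); a maximal ideal `m`; `B/m` is a finite extension of `k` (Zariski's lemma:
`finite_of_finite_type_of_isJacobsonRing` or `Ideal.Quotient` version), so equal to `k` (`IsAlgClosed.algebraMap_bijective_of_isIntegral` or similar); this gives `B →ₐ[k] k`, compose with the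
inclusion of `Algebra.adjoin k (range z)`. If `z i ≠ 0` then `z i * (z i)⁻¹ = 1` in `B`, so the value is not `0`.
`spec_all`: `Ω` contains `β` transcendental over `κ`, all `z i` algebraic over `κ(β)`. There is `0 ≠ h ∈ κ[β]` such that every `z i` (and `(z i)⁻¹` if `z i ≠ 0`) is integral over `κ[β][1/h]` (clear
the leading coefficients of the polynomials over `κ[β]`). The finitely many roots of `h` are `T`. For `b ∉ T` the homomorphism `κ[β][1/h] → κ`, `β ↦ b` extends to the integral extension generated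
by the `z i` and the inverses (lying over: a prime over the kernel; the residue field is algebraic over `κ`, so `= κ`; or `IsAlgClosed.lift`-type lemmas for integral extensions).
-/

set_option autoImplicit false

namespace Q9

open MvPolynomial

private theorem P8_hom {k : Type} [Field k] [IsAlgClosed k] {B : Type} [CommRing B] [Algebra k B]
    [Algebra.FiniteType k B] (I : Ideal B) (hI : I ≠ ⊤) :
    ∃ φ : B →ₐ[k] k, ∀ x ∈ I, φ x = 0 := by
  obtain ⟨M, hM, hIM⟩ := Ideal.exists_le_maximal I hI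
  letI : Field (B ⧸ M) := Ideal.Quotient.field M
  haveI : Algebra.FiniteType k (B ⧸ M) :=
    Algebra.FiniteType.of_surjective (Ideal.Quotient.mkₐ k M) (Ideal.Quotient.mkₐ_surjective k M)
  haveI : Module.Finite k (B ⧸ M) := finite_of_finite_type_of_isJacobsonRing k (B ⧸ M)
  haveI : Algebra.IsIntegral k (B ⧸ M) := Algebra.IsIntegral.of_finite k (B ⧸ M)
  let e : k ≃ₐ[k] (B ⧸ M) := AlgEquiv.ofBijective (Algebra.ofId k (B ⧸ M))
    (IsAlgClosed.algebraMap_bijective_of_isIntegral)
  refine ⟨e.symm.toAlgHom.comp (Ideal.Quotient.mkₐ k M), fun x hx => ?_⟩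
  have h1 : Ideal.Quotient.mkₐ k M x = 0 := Ideal.Quotient.eq_zero_iff_mem.2 (hIM hx)
  rw [AlgHom.comp_apply, h1, map_zero]

private theorem P8_core {k : Type} [Field k] [IsAlgClosed k] {Ω : Type} [Field Ω] [Algebra k Ω]
    (S : Set Ω) (hS : S.Finite)
    (I : Ideal (Algebra.adjoin k (S ∪ (fun s => s⁻¹) '' S))) (hI : I ≠ ⊤) :
    ∃ φ : Algebra.adjoin k S →ₐ[k] k,
      (∀ (s : Ω) (hs : s ∈ S), s ≠ 0 → φ ⟨s, Algebra.subset_adjoin hs⟩ ≠ 0) ∧
      ∀ (x : Ω) (hx : x ∈ Algebra.adjoin k S),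
        (⟨x, Algebra.adjoin_mono Set.subset_union_left hx⟩ :
          Algebra.adjoin k (S ∪ (fun s => s⁻¹) '' S)) ∈ I → φ ⟨x, hx⟩ = 0 := by
  haveI : Algebra.FiniteType k (Algebra.adjoin k (S ∪ (fun s => s⁻¹) '' S)) :=
    (Subalgebra.fg_iff_finiteType _).1
      (Subalgebra.fg_def.2 ⟨_, hS.union (hS.image _), rfl⟩)
  obtain ⟨ψ, hψ⟩ := P8_hom (k := k) I hI
  refine ⟨ψ.comp (Subalgebra.inclusion (Algebra.adjoin_mono Set.subset_union_left)), ?_, ?_⟩
  · intro s hs h0 hc
    have h1 : (⟨s, Algebra.subset_adjoin (Or.inl hs)⟩ :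
        Algebra.adjoin k (S ∪ (fun s => s⁻¹) '' S)) *
        ⟨s⁻¹, Algebra.subset_adjoin (Or.inr ⟨s, hs, rfl⟩)⟩ = 1 :=
      Subtype.ext (mul_inv_cancel₀ h0)
    have h2 := congrArg ψ h1
    rw [map_mul, map_one] at h2
    have h3 : ψ ⟨s, Algebra.subset_adjoin (Or.inl hs)⟩ = 0 := hc
    rw [h3, zero_mul] at h2
    exact zero_ne_one h2
  · intro x hx hxI
    exact hψ _ hxI

private theorem P8_pow {k : Type} [Field k] {Ω : Type} [Field Ω] [Algebra k Ω] {β : Ω}
    (T0 : Set Ω) (h : Algebra.adjoin k {β})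
    (hT : ∀ s ∈ T0, IsIntegral (Algebra.adjoin k {β}) ((h : Ω) * s)) (u : Ω)
    (hu : u ∈ Algebra.adjoin k T0) :
    ∃ N : ℕ, IsIntegral (Algebra.adjoin k {β}) ((h : Ω) ^ N * u) := by
  have hh : IsIntegral (Algebra.adjoin k {β}) (h : Ω) :=
    isIntegral_algebraMap (R := Algebra.adjoin k {β}) (A := Ω) (x := h)
  induction hu using Algebra.adjoin_induction with
  | mem x hx => exact ⟨1, by rw [pow_one]; exact hT x hx⟩
  | algebraMap r =>
    refine ⟨0, ?_⟩
    rw [pow_zero, one_mul]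
    have h1 : IsIntegral (Algebra.adjoin k {β})
        (algebraMap (Algebra.adjoin k {β}) Ω (algebraMap k (Algebra.adjoin k {β}) r)) :=
      isIntegral_algebraMap
    exact h1
  | add x y _ _ ihx ihy =>
    obtain ⟨N, hN⟩ := ihx
    obtain ⟨M, hM⟩ := ihy
    refine ⟨N + M, ?_⟩
    have e : (h : Ω) ^ (N + M) * (x + y) = (h : Ω) ^ M * ((h : Ω) ^ N * x) +
        (h : Ω) ^ N * ((h : Ω) ^ M * y) := by ring
    rw [e]
    exact ((hh.pow M).mul hN).add ((hh.pow N).mul hM)
  | mul x y _ _ ihx ihy =>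
    obtain ⟨N, hN⟩ := ihx
    obtain ⟨M, hM⟩ := ihy
    refine ⟨N + M, ?_⟩
    have e : (h : Ω) ^ (N + M) * (x * y) = ((h : Ω) ^ N * x) * ((h : Ω) ^ M * y) := by ring
    rw [e]
    exact hN.mul hM

open IntermediateField.algebraAdjoinAdjoin in
private theorem P8_mult {k : Type} [Field k] {Ω : Type} [Field Ω] [Algebra k Ω] {β : Ω}
    (T0 : Set Ω) (hf : T0.Finite)
    (hT : ∀ s ∈ T0, IsAlgebraic (IntermediateField.adjoin k {β}) s) :
    ∃ h : Algebra.adjoin k {β}, h ≠ 0 ∧
      ∀ s ∈ T0, IsIntegral (Algebra.adjoin k {β}) ((h : Ω) * s) := by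
  induction T0, hf using Set.Finite.induction_on with
  | empty => exact ⟨1, one_ne_zero, fun s hs => absurd hs (Set.notMem_empty s)⟩
  | @insert a T hna hfin ih =>
    obtain ⟨h, h0, hh⟩ := ih (fun s hs => hT s (Set.mem_insert_of_mem a hs))
    have h1 : IsAlgebraic (Algebra.adjoin k {β}) a :=
      (IsFractionRing.isAlgebraic_iff (Algebra.adjoin k {β}) (IntermediateField.adjoin k {β}) Ω).2
        (hT a (Set.mem_insert a T))
    obtain ⟨y, hy0, hy⟩ := h1.exists_integral_multiple
    refine ⟨h * y, mul_ne_zero h0 hy0, ?_⟩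
    have ih1 : IsIntegral (Algebra.adjoin k {β}) (h : Ω) :=
      isIntegral_algebraMap (R := Algebra.adjoin k {β}) (A := Ω) (x := h)
    have iy1 : IsIntegral (Algebra.adjoin k {β}) (y : Ω) :=
      isIntegral_algebraMap (R := Algebra.adjoin k {β}) (A := Ω) (x := y)
    intro s hs
    rcases Set.mem_insert_iff.1 hs with rfl | hs
    · have e : ((h * y : Algebra.adjoin k {β}) : Ω) * s = (h : Ω) * (y • s) := by
        rw [Algebra.smul_def]
        have e2 : algebraMap (Algebra.adjoin k {β}) Ω y = (y : Ω) := rfl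
        rw [e2]
        push_cast
        ring
      rw [e]
      exact ih1.mul hy
    · have e : ((h * y : Algebra.adjoin k {β}) : Ω) * s = (y : Ω) * ((h : Ω) * s) := by
        push_cast
        ring
      rw [e]
      exact iy1.mul (hh s hs)

theorem spec {k : Type} [Field k] [IsAlgClosed k] {I Ω : Type} [Finite I] [Field Ω] [Algebra k Ω]
    (z : I → Ω) : ∃ φ : Algebra.adjoin k (Set.range z) →ₐ[k] k,
      ∀ i, z i ≠ 0 → φ ⟨z i, Algebra.subset_adjoin (Set.mem_range_self i)⟩ ≠ 0 := by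
  obtain ⟨φ, h1, -⟩ := P8_core (k := k) (Set.range z) (Set.finite_range z) ⊥ bot_ne_top
  exact ⟨φ, fun i hi => h1 (z i) (Set.mem_range_self i) hi⟩

theorem spec_all {k : Type} [Field k] [IsAlgClosed k] {I Ω : Type} [Finite I] [Field Ω] [Algebra k Ω]
    (β : Ω) (hβ : Transcendental k β) (z : I → Ω)
    (hz : ∀ i, IsAlgebraic (IntermediateField.adjoin k {β}) (z i)) :
    ∃ T : Finset k, ∀ b ∉ T, ∃ φ : Algebra.adjoin k (Set.range z ∪ {β}) →ₐ[k] k,
      φ ⟨β, Algebra.subset_adjoin (Or.inr rfl)⟩ = b ∧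
      ∀ i, z i ≠ 0 → φ ⟨z i, Algebra.subset_adjoin (Or.inl (Set.mem_range_self i))⟩ ≠ 0 := by
  classical
  set S : Set Ω := Set.range z ∪ {β} with hS
  have hSf : S.Finite := (Set.finite_range z).union (Set.finite_singleton β)
  have hβK : IsAlgebraic (IntermediateField.adjoin k {β}) β := by
    have h1 : IsAlgebraic (IntermediateField.adjoin k {β})
        (algebraMap (IntermediateField.adjoin k {β}) Ω
          ⟨β, IntermediateField.mem_adjoin_simple_self k β⟩) := isAlgebraic_algebraMap _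
    exact h1
  have hSa : ∀ s ∈ S, IsAlgebraic (IntermediateField.adjoin k {β}) s := by
    rintro s (⟨i, rfl⟩ | hs)
    · exact hz i
    · rw [Set.mem_singleton_iff.1 hs]; exact hβK
  have hTa : ∀ s ∈ S ∪ (fun s => s⁻¹) '' S, IsAlgebraic (IntermediateField.adjoin k {β}) s := by
    rintro s (hs | ⟨t, ht, rfl⟩)
    · exact hSa s hs
    · exact (hSa t ht).inv
  obtain ⟨h, h0, hh⟩ := P8_mult (k := k) (β := β) (S ∪ (fun s => s⁻¹) '' S)
    (hSf.union (hSf.image _)) hTa
  set e := Polynomial.algEquivOfTranscendental k β hβ with he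
  set H : Polynomial k := e.symm h with hH
  have hH0 : H ≠ 0 := by
    intro hc
    apply h0
    have : e H = h := by rw [hH, AlgEquiv.apply_symm_apply]
    rw [← this, hc, map_zero]
  refine ⟨H.roots.toFinset, fun b hb => ?_⟩
  have hb1 : Polynomial.eval b H ≠ 0 := by
    intro hc
    apply hb
    rw [Multiset.mem_toFinset, Polynomial.mem_roots hH0]
    exact hc
  set ev : Algebra.adjoin k {β} →ₐ[k] k := (Polynomial.aeval b).comp e.symm.toAlgHom with hev
  have hevh : ev h = Polynomial.eval b H := by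
    show Polynomial.aeval b (e.symm h) = _
    rw [← hH, Polynomial.coe_aeval_eq_eval]
  have hevβ : ev ⟨β, Algebra.self_mem_adjoin_singleton k β⟩ = b := by
    show Polynomial.aeval b (e.symm ⟨β, Algebra.self_mem_adjoin_singleton k β⟩) = b
    rw [he, Polynomial.algEquivOfTranscendental_symm_gen, Polynomial.aeval_X]
  set βB : Algebra.adjoin k (S ∪ (fun s => s⁻¹) '' S) :=
    ⟨β, Algebra.subset_adjoin (Or.inl (Or.inr rfl))⟩ with hβB
  have hI : Ideal.span {βB - algebraMap k _ b} ≠ ⊤ := by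
    intro htop
    have h1 : (1 : Algebra.adjoin k (S ∪ (fun s => s⁻¹) '' S)) ∈
        Ideal.span {βB - algebraMap k _ b} := by rw [htop]; trivial
    obtain ⟨t, ht⟩ := Ideal.mem_span_singleton'.1 h1
    have ht' : (t : Ω) * (β - algebraMap k Ω b) = 1 := congrArg Subtype.val ht
    obtain ⟨N, hN⟩ := P8_pow (S ∪ (fun s => s⁻¹) '' S) h hh (t : Ω) t.2
    have hker : RingHom.ker (algebraMap (Algebra.adjoin k {β})
        (integralClosure (Algebra.adjoin k {β}) Ω)) ≤ RingHom.ker ev := by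
      intro x hx
      have hx1 : algebraMap (Algebra.adjoin k {β})
        (integralClosure (Algebra.adjoin k {β}) Ω) x = 0 := hx
      have hx2 : (x : Ω) = 0 := congrArg Subtype.val hx1
      have hx3 : x = 0 := Subtype.ext hx2
      rw [hx3]
      exact Ideal.zero_mem _
    haveI : (RingHom.ker ev).IsPrime := RingHom.ker_isPrime ev
    obtain ⟨Q, -, hQp, hQ⟩ := Ideal.exists_ideal_over_prime_of_isIntegral
      (S := integralClosure (Algebra.adjoin k {β}) Ω) (RingHom.ker ev) ⊥ hker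
    have hβ' : (⟨β, Algebra.self_mem_adjoin_singleton k β⟩ -
        algebraMap k (Algebra.adjoin k {β}) b) ∈ RingHom.ker ev := by
      rw [RingHom.mem_ker, map_sub, hevβ, AlgHom.commutes]
      exact sub_self b
    rw [← hQ, Ideal.mem_comap] at hβ'
    have hprod : algebraMap (Algebra.adjoin k {β}) (integralClosure (Algebra.adjoin k {β}) Ω)
        (⟨β, Algebra.self_mem_adjoin_singleton k β⟩ - algebraMap k (Algebra.adjoin k {β}) b) *
        ⟨(h : Ω) ^ N * (t : Ω), hN⟩ = algebraMap (Algebra.adjoin k {β})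
          (integralClosure (Algebra.adjoin k {β}) Ω) (h ^ N) := by
      apply Subtype.ext
      show (β - algebraMap k Ω b) * ((h : Ω) ^ N * (t : Ω)) = (h : Ω) ^ N
      calc (β - algebraMap k Ω b) * ((h : Ω) ^ N * (t : Ω)) =
          (h : Ω) ^ N * ((t : Ω) * (β - algebraMap k Ω b)) := by ring
        _ = (h : Ω) ^ N := by rw [ht', mul_one]
    have h2 : h ^ N ∈ RingHom.ker ev := by
      rw [← hQ, Ideal.mem_comap, ← hprod]
      exact Ideal.mul_mem_right _ Q hβ'
    rw [RingHom.mem_ker, map_pow, hevh] at h2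
    exact hb1 (eq_zero_of_pow_eq_zero h2)
  obtain ⟨φ, hφ1, hφ2⟩ := P8_core (k := k) S hSf _ hI
  refine ⟨φ, ?_, fun i hi => hφ1 (z i) (Or.inl (Set.mem_range_self i)) hi⟩
  have hβS : β ∈ Algebra.adjoin k S := Algebra.subset_adjoin (Or.inr rfl)
  have h3 := hφ2 (β - algebraMap k Ω b) (sub_mem hβS (Subalgebra.algebraMap_mem _ b))
    (Ideal.subset_span rfl)
  have h4 : (⟨β - algebraMap k Ω b, sub_mem hβS (Subalgebra.algebraMap_mem _ b)⟩ :
      Algebra.adjoin k S) = ⟨β, hβS⟩ - algebraMap k _ b := rfl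
  rw [h4, map_sub, AlgHom.commutes] at h3
  exact sub_eq_zero.1 h3

end Q9
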