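import Pool.Agent.LibQ9.BDefs
import Pool.Agent.LibQ9.P8

/-!
[Q9 B4] (MEDIUM; may cite P8 `spec` as stated) Curves with given corank over an extension give such curves over the algebraically closed base field.

PLAN. Being on the hypersurface, `Free` and `Cor c` are positive existential: choose for each monomial `X^j`, `j < nd`, a vector `a_j` of polynomials over `κ` with `grad F γ a_j = X^j`, and for `Cor` the elements `θ`, and for every `X^j`, `j < nd-1`, vectors
`b_j` and coefficients `μ_j`. Let `z` be the finite family of all coefficients (of `γ`, `a_j`, `θ`, `b_j`, and the `μ_j`). P8 gives `φ : Algebra.adjoin k (range z) →ₐ[k] k`; apply `φ` to all coefficients (polynomials over the subalgebra `B`: lift `γ`, ... to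
`B[X]`, identities hold in `B[X]` because `B[X] → κ[X]` is injective, then map by `φ`). Coefficients of `γ` that come from `k` are preserved since `φ` is a `k`-algebra map. The monomials `X^j` generate, so the surjectivity over `k` follows.
`free_transfer` without `Cor`: same proof (or apply with `c = n d`: `Cor` always holds for `c ≥ nd - 1` with `θ` = monomials).
-/

set_option autoImplicit false

namespace Q9

open Polynomial

private theorem B4_lift {k : Type} [Field k] [IsAlgClosed k] {κ : Type} [Field κ] [Algebra k κ]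
    {J : Type} [Finite J] (P : J → κ[X]) :
    ∃ (B : Subalgebra k κ) (_ : B →ₐ[k] k) (P' : J → B[X]), ∀ j, mapAlgHom B.val (P' j) = P j := by
  classical
  obtain ⟨N, hN⟩ : ∃ N : ℕ, ∀ j, (P j).natDegree < N := by
    obtain ⟨N, hN⟩ := (Set.finite_range (fun j => (P j).natDegree)).bddAbove
    exact ⟨N + 1, fun j => Nat.lt_succ_of_le (hN ⟨j, rfl⟩)⟩
  let z : J × Fin N → κ := fun a => (P a.1).coeff a.2
  obtain ⟨φ, -⟩ := spec (k := k) z
  have h : ∀ j m, (P j).coeff m ∈ Algebra.adjoin k (Set.range z) := by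
    intro j m
    by_cases hm : m < N
    · exact Algebra.subset_adjoin ⟨(j, ⟨m, hm⟩), rfl⟩
    · rw [coeff_eq_zero_of_natDegree_lt (lt_of_lt_of_le (hN j) (not_lt.1 hm))]
      exact Subalgebra.zero_mem _
  have h2 : ∀ j, ∃ p : (Algebra.adjoin k (Set.range z))[X],
      mapAlgHom (Algebra.adjoin k (Set.range z)).val p = P j := by
    intro j
    have h3 : P j ∈ Polynomial.lifts ((Algebra.adjoin k (Set.range z)).val :
        (Algebra.adjoin k (Set.range z)) →+* κ) := by
      rw [Polynomial.lifts_iff_coeff_lifts]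
      intro m
      exact ⟨⟨_, h j m⟩, rfl⟩
    obtain ⟨p, hp⟩ := (Polynomial.mem_lifts _).1 h3
    exact ⟨p, hp⟩
  choose P' hP' using h2
  exact ⟨_, φ, P', hP'⟩

private theorem B4_grad {k : Type} [Field k] {m : ℕ} (F : MvPolynomial (Fin m) k) {S S' : Type}
    [CommRing S] [Algebra k S] [CommRing S'] [Algebra k S'] (σ : S →ₐ[k] S') (x w : Fin m → S) :
    σ (grad F x w) = grad F (fun i => σ (x i)) (fun i => σ (w i)) := by
  unfold grad
  rw [map_sum]
  refine Finset.sum_congr rfl fun i _ => ?_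
  rw [map_mul, MvPolynomial.comp_aeval_apply]

private theorem B4_grad_sum {k : Type} [Field k] {m : ℕ} (F : MvPolynomial (Fin m) k) {S : Type}
    [CommRing S] [Algebra k S] (x : Fin m → S) {J : Type} [Fintype J] (c : J → S)
    (a : J → Fin m → S) :
    grad F x (fun i => ∑ j, c j * a j i) = ∑ j, c j * grad F x (a j) := by
  unfold grad
  simp only [Finset.mul_sum]
  rw [Finset.sum_comm]
  refine Finset.sum_congr rfl fun j _ => Finset.sum_congr rfl fun i _ => ?_
  ring

private theorem B4_sum {k : Type} [Field k] (N : ℕ) (f : k[X]) (hf : f.degree < (N : ℕ)) :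
    f = ∑ j : Fin N, C (f.coeff j) * X ^ (j : ℕ) := by
  ext m
  rw [Polynomial.finsetSum_coeff]
  simp only [coeff_C_mul, coeff_X_pow]
  by_cases hm : m < N
  · rw [Finset.sum_eq_single (⟨m, hm⟩ : Fin N)]
    · simp
    · intro b _ hb
      rw [if_neg, mul_zero]
      intro h
      exact hb (Fin.ext h.symm)
    · intro h
      exact absurd (Finset.mem_univ _) h
  · rw [coeff_eq_zero_of_degree_lt (lt_of_lt_of_le hf (by exact_mod_cast not_lt.1 hm))]
    refine (Finset.sum_eq_zero fun b _ => ?_).symm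
    rw [if_neg, mul_zero]
    intro h
    exact hm (h ▸ b.2)

private theorem B4_deg {k : Type} [Field k] (N : ℕ) {J : Type} [Fintype J] (c : J → k)
    (a : J → k[X]) (ha : ∀ j, (a j).degree < (N : ℕ)) : (∑ j, C (c j) * a j).degree < (N : ℕ) := by
  rw [← mem_degreeLT]
  refine Submodule.sum_mem _ fun j _ => ?_
  rw [← smul_eq_C_mul]
  exact Submodule.smul_mem _ _ (mem_degreeLT.2 (ha j))

theorem transfer {k : Type} [Field k] [IsAlgClosed k] {n : ℕ} (F : MvPolynomial (Fin (n + 1)) k)
    {κ : Type} [Field κ] [Algebra k κ] (d c : ℕ) (γ : Fin (n + 1) → κ[X]) (h : Free F d γ)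
    (hc : Cor F d γ c) : ∃ γ' : Fin (n + 1) → k[X], Free F d γ' ∧ Cor F d γ' c ∧
      ∀ i j (v : k), (γ i).coeff j = algebraMap k κ v → (γ' i).coeff j = v := by
  classical
  obtain ⟨hd, ⟨hγd, hγF⟩, hfree⟩ := h
  obtain ⟨θ, hθ, hcor⟩ := hc
  have hXdeg : ∀ (N : ℕ) (j : Fin N), (X ^ (j : ℕ) : κ[X]).degree < (N : ℕ) := by
    intro N j
    rw [degree_X_pow]
    exact_mod_cast j.2
  choose a ha haX using fun j : Fin (n * d) => hfree (X ^ (j : ℕ)) (hXdeg (n * d) j)
  choose b μ hb hbX using fun j : Fin (n * d - 1) => hcor (X ^ (j : ℕ)) (hXdeg (n * d - 1) j)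
  -- the family
  let J : Type := Fin (n + 1) ⊕ ((Fin (n * d) × Fin (n + 1)) ⊕ (Fin c ⊕
    ((Fin (n * d - 1) × Fin (n + 1)) ⊕ (Fin (n * d - 1) × Fin c))))
  let P : J → κ[X] := Sum.elim γ (Sum.elim (fun x => a x.1 x.2) (Sum.elim θ
    (Sum.elim (fun x => b x.1 x.2) (fun x => C (μ x.1 x.2)))))
  obtain ⟨B, φ, P', hP'⟩ := B4_lift (k := k) P
  have hval : Function.Injective (B.val : B →+* κ) := Subtype.val_injective
  have hinj : Function.Injective (mapAlgHom B.val : B[X] →ₐ[k] κ[X]) :=
    Polynomial.map_injective _ hval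
  let Q : J → k[X] := fun j => mapAlgHom φ (P' j)
  have hdegP : ∀ j, (P' j).degree = (P j).degree := by
    intro j
    rw [← hP' j]
    exact (Polynomial.degree_map_eq_of_injective hval _).symm
  have hdeg : ∀ j, (Q j).degree ≤ (P j).degree := by
    intro j
    rw [← hdegP j]
    exact Polynomial.degree_map_le
  have hcoeff : ∀ j m (v : k), (P j).coeff m = algebraMap k κ v → (Q j).coeff m = v := by
    intro j m v hv
    have h1 : B.val ((P' j).coeff m) = B.val (algebraMap k B v) := by
      rw [← hP' j] at hv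
      have h2 : (mapAlgHom B.val (P' j)).coeff m = B.val ((P' j).coeff m) :=
        Polynomial.coeff_map _ _
      rw [h2] at hv
      rw [hv]
      rfl
    have h3 : (P' j).coeff m = algebraMap k B v := Subtype.val_injective h1
    have h4 : (Q j).coeff m = φ ((P' j).coeff m) := Polynomial.coeff_map _ _
    rw [h4, h3, AlgHom.commutes]
    rfl
  have hψX : ∀ m : ℕ, mapAlgHom B.val (X ^ m : B[X]) = X ^ m := by
    intro m
    rw [map_pow]
    congr 1
    exact Polynomial.map_X _
  have hχX : ∀ m : ℕ, mapAlgHom φ (X ^ m : B[X]) = X ^ m := by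
    intro m
    rw [map_pow]
    congr 1
    exact Polynomial.map_X _
  let iγ : Fin (n + 1) → J := fun i => Sum.inl i
  let ia : Fin (n * d) → Fin (n + 1) → J := fun j i => Sum.inr (Sum.inl (j, i))
  let iθ : Fin c → J := fun i => Sum.inr (Sum.inr (Sum.inl i))
  let ib : Fin (n * d - 1) → Fin (n + 1) → J :=
    fun j i => Sum.inr (Sum.inr (Sum.inr (Sum.inl (j, i))))
  let iμ : Fin (n * d - 1) → Fin c → J :=
    fun j i => Sum.inr (Sum.inr (Sum.inr (Sum.inr (j, i))))
  -- the identities
  have e0 : MvPolynomial.aeval (fun i => P' (iγ i)) F = 0 := by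
    apply hinj
    rw [MvPolynomial.comp_aeval_apply, map_zero]
    have h1 : (fun i => mapAlgHom B.val (P' (iγ i))) = γ := funext fun i => hP' (iγ i)
    rw [h1, hγF]
  have e1 : ∀ j : Fin (n * d), grad F (fun i => P' (iγ i)) (fun i => P' (ia j i)) = X ^ (j : ℕ) := by
    intro j
    apply hinj
    rw [B4_grad, hψX]
    have h1 : (fun i => mapAlgHom B.val (P' (iγ i))) = γ := funext fun i => hP' (iγ i)
    have h2 : (fun i => mapAlgHom B.val (P' (ia j i))) = a j := funext fun i => hP' (ia j i)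
    rw [h1, h2, haX]
  have e2 : ∀ j : Fin (n * d - 1), (X ^ (j : ℕ) : B[X]) =
      grad F (fun i => P' (iγ i)) (fun i => P' (ib j i)) + ∑ i, P' (iμ j i) * P' (iθ i) := by
    intro j
    apply hinj
    rw [map_add, B4_grad, hψX, map_sum]
    have h1 : (fun i => mapAlgHom B.val (P' (iγ i))) = γ := funext fun i => hP' (iγ i)
    have h2 : (fun i => mapAlgHom B.val (P' (ib j i))) = b j := funext fun i => hP' (ib j i)
    rw [h1, h2]
    rw [hbX j]
    congr 1
    refine Finset.sum_congr rfl fun i _ => ?_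
    rw [map_mul, hP', hP']
    rfl
  have f1 : ∀ j : Fin (n * d), grad F (fun i => Q (iγ i)) (fun i => Q (ia j i)) = X ^ (j : ℕ) := by
    intro j
    have h1 := congrArg (mapAlgHom φ) (e1 j)
    rwa [B4_grad, hχX] at h1
  have f2 : ∀ j : Fin (n * d - 1), (X ^ (j : ℕ) : k[X]) =
      grad F (fun i => Q (iγ i)) (fun i => Q (ib j i)) + ∑ i, Q (iμ j i) * Q (iθ i) := by
    intro j
    have h1 := congrArg (mapAlgHom φ) (e2 j)
    rw [map_add, B4_grad, hχX, map_sum] at h1
    rw [h1]
    congr 1
    refine Finset.sum_congr rfl fun i _ => ?_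
    rw [map_mul]
  have hμC : ∀ j i, Q (iμ j i) = C ((Q (iμ j i)).coeff 0) := by
    intro j i
    refine Polynomial.eq_C_of_degree_le_zero ?_
    refine (hdeg (iμ j i)).trans ?_
    exact Polynomial.degree_C_le
  refine ⟨fun i => Q (iγ i), ⟨hd, ⟨fun i => ?_, ?_⟩, fun f hf => ?_⟩,
    ⟨fun i => Q (iθ i), fun i => lt_of_le_of_lt (hdeg (iθ i)) (hθ i), fun f hf => ?_⟩,
    fun i j v hv => hcoeff (iγ i) j v hv⟩
  · refine Polynomial.natDegree_le_iff_degree_le.2 ?_
    exact (hdeg (iγ i)).trans (Polynomial.natDegree_le_iff_degree_le.1 (hγd i))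
  · have h1 := congrArg (mapAlgHom φ) e0
    rwa [MvPolynomial.comp_aeval_apply, map_zero] at h1
  · refine ⟨fun i => ∑ j : Fin (n * d), C (f.coeff j) * Q (ia j i), fun i => ?_, ?_⟩
    · exact B4_deg d (fun j : Fin (n * d) => f.coeff j) (fun j => Q (ia j i))
        (fun j => lt_of_le_of_lt (hdeg (ia j i)) (ha j i))
    · rw [B4_grad_sum]
      conv_rhs => rw [B4_sum (n * d) f hf]
      refine Finset.sum_congr rfl fun j _ => ?_
      rw [f1]
  · refine ⟨fun i => ∑ j : Fin (n * d - 1), C (f.coeff j) * Q (ib j i),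
      fun i => ∑ j : Fin (n * d - 1), f.coeff j * (Q (iμ j i)).coeff 0, fun i => ?_, ?_⟩
    · exact B4_deg (d - 1) (fun j : Fin (n * d - 1) => f.coeff j) (fun j => Q (ib j i))
        (fun j => lt_of_le_of_lt (hdeg (ib j i)) (hb j i))
    · rw [B4_grad_sum]
      conv_lhs => rw [B4_sum (n * d - 1) f hf]
      have h1 : ∀ i : Fin c, C (∑ j : Fin (n * d - 1), f.coeff j * (Q (iμ j i)).coeff 0) * Q (iθ i) =
          ∑ j : Fin (n * d - 1), C (f.coeff j) * (Q (iμ j i) * Q (iθ i)) := by
        intro i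
        rw [map_sum, Finset.sum_mul]
        refine Finset.sum_congr rfl fun j _ => ?_
        rw [map_mul, ← hμC, mul_assoc]
      simp only [h1]
      rw [Finset.sum_comm, ← Finset.sum_add_distrib]
      refine Finset.sum_congr rfl fun j _ => ?_
      rw [← Finset.mul_sum, ← mul_add, ← f2]

theorem free_transfer {k : Type} [Field k] [IsAlgClosed k] {n : ℕ}
    (F : MvPolynomial (Fin (n + 1)) k) {κ : Type} [Field κ] [Algebra k κ] (d : ℕ)
    (γ : Fin (n + 1) → κ[X]) (h : Free F d γ) : ∃ γ' : Fin (n + 1) → k[X], Free F d γ' ∧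
      ∀ i j (v : k), (γ i).coeff j = algebraMap k κ v → (γ' i).coeff j = v := by
  have hc : Cor F d γ (n * d - 1) := by
    refine ⟨fun j => X ^ (j : ℕ), fun j => ?_, fun f hf => ⟨fun _ => 0, fun j => f.coeff j,
      fun i => ?_, ?_⟩⟩
    · rw [degree_X_pow]
      exact_mod_cast j.2
    · rw [degree_zero]
      exact WithBot.bot_lt_coe _
    · have h1 : grad F γ (fun _ => 0) = 0 := by
        unfold grad
        simp
      rw [h1, zero_add]
      exact B4_sum (n * d - 1) f hf
  obtain ⟨γ', h1, _, h3⟩ := transfer F d (n * d - 1) γ h hc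
  exact ⟨γ', h1, h3⟩

end Q9
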