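import Pool.Agent.LibQ9.PDefs

/-!
[Q9 P6] (SHORT/MEDIUM) Nullstellensatz for the partial derivatives: smooth over the algebraically closed field `k` implies that powers of the variables are in the ideal of the partial derivatives.

PLAN. `MvPolynomial.vanishingIdeal_zeroLocus_eq_radical` (Mathlib `RingTheory/Nullstellensatz`; the index type is finite): every `X j` vanishes on the common zeros of the partial derivatives (only
the origin), so some power of `X j` is in the ideal; take the maximum of the exponents.
-/

set_option autoImplicit false

namespace Q9

open MvPolynomial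

theorem sm_of_smooth {k : Type} [Field k] [IsAlgClosed k] {m : ℕ} (F : MvPolynomial (Fin m) k)
    (hs : Smooth F) : Sm F := by
  have h1 : ∀ j : Fin m, ∃ M : ℕ,
      (X j : MvPolynomial (Fin m) k) ^ M ∈ Ideal.span (Set.range fun i => pderiv i F) := by
    intro j
    have h2 : (X j : MvPolynomial (Fin m) k) ∈
        (Ideal.span (Set.range fun i => pderiv i F)).radical := by
      rw [← vanishingIdeal_zeroLocus_eq_radical (K := k), mem_vanishingIdeal_iff]
      intro x hx
      rw [mem_zeroLocus_iff] at hx
      have h3 : x = 0 := by
        apply hs
        intro i
        have h4 := hx (pderiv i F) (Ideal.subset_span (Set.mem_range_self i))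
        rw [aeval_eq_eval] at h4
        exact h4
      rw [h3, aeval_X]
      rfl
    exact h2
  choose M hM using h1
  refine ⟨∑ j, M j, fun j => ?_⟩
  have h5 : M j ≤ ∑ i, M i := Finset.single_le_sum (fun _ _ => Nat.zero_le _) (Finset.mem_univ j)
  exact Ideal.pow_mem_of_pow_mem _ (hM j) h5

end Q9
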