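import Pool.Agent.LibQ9.P1

/-!
[Q9 P7] (MEDIUM; may cite P1 as stated) A smooth form in at least three variables generates a prime ideal.

PLAN. `F ≠ 0` (else all partials vanish everywhere, so `Smooth` fails at `x = (1,...,1)`). Show `F` irreducible; then prime (`MvPolynomial` over a field is a UFD: `Irreducible.prime`) and `Ideal.span_singleton_prime`.
`F` is not a unit: if `F` is a nonzero constant its partials vanish everywhere. Let `F = G H`, neither a unit. The factors of a form are forms (`MvPolynomial.IsHomogeneous` of factors: compare lowest and highest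
homogeneous components; domain), of positive degree. The ideal `(G, H)` has a common zero `x ≠ 0`: otherwise by the Nullstellensatz (`MvPolynomial.vanishingIdeal_zeroLocus_eq_radical`) the radical of
`(G, H)` is the ideal `m₀ = ker (eval 0)` (forms of positive degree vanish at `0`), `m₀` is a minimal prime over `(G, H)`, so its height is `≤ 2` by Krull's height theorem (`Ideal.height_le_spanFinrank`
or `Ideal.height_le_spanRank_toENat_of_mem_minimal_primes`), but P1 gives height `≥ n + 1 ≥ 3`. At `x` all partials `∂(GH) = G ∂H + H ∂G` vanish, contradiction with `Smooth`.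
-/

set_option autoImplicit false

namespace Q9

open MvPolynomial

private theorem P7_hc_mul {Ω σ : Type} [Field Ω] (a g : MvPolynomial σ Ω) (d D : ℕ)
    (hg : g.IsHomogeneous d) :
    homogeneousComponent D (a * g) =
      if d ≤ D then homogeneousComponent (D - d) a * g else 0 := by
  classical
  conv_lhs => rw [← sum_homogeneousComponent a, Finset.sum_mul, map_sum]
  have h : ∀ n, homogeneousComponent D (homogeneousComponent n a * g) =
      if D = n + d then homogeneousComponent n a * g else 0 := fun n =>
    homogeneousComponent_of_mem ((homogeneousComponent_isHomogeneous n a).mul hg)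
  simp only [h]
  split_ifs with hd
  · by_cases hn : D - d ∈ Finset.range (a.totalDegree + 1)
    · rw [Finset.sum_eq_single (D - d)]
      · rw [if_pos (by omega)]
      · intro b _ hb
        rw [if_neg (by omega)]
      · intro h'
        exact absurd hn h'
    · have h1 : homogeneousComponent (D - d) a = 0 := by
        apply homogeneousComponent_eq_zero
        rw [Finset.mem_range] at hn
        omega
      rw [h1, zero_mul]
      refine Finset.sum_eq_zero fun n hn' => ?_
      rw [if_neg]
      intro h'
      apply hn
      rw [h', Nat.add_sub_cancel]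
      exact hn'
  · refine Finset.sum_eq_zero fun n _ => ?_
    rw [if_neg (by omega)]

private theorem P7_top {Ω σ : Type} [Field Ω] (a q : MvPolynomial σ Ω) :
    homogeneousComponent (a.totalDegree + q.totalDegree) (a * q) =
      homogeneousComponent a.totalDegree a * homogeneousComponent q.totalDegree q := by
  classical
  conv_lhs => rw [← sum_homogeneousComponent q, Finset.mul_sum, map_sum]
  rw [sum_homogeneousComponent q]
  have h : ∀ n, homogeneousComponent (a.totalDegree + q.totalDegree)
      (a * homogeneousComponent n q) =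
      if n ≤ a.totalDegree + q.totalDegree then
        homogeneousComponent (a.totalDegree + q.totalDegree - n) a * homogeneousComponent n q
      else 0 := fun n =>
    P7_hc_mul a _ n _ (homogeneousComponent_isHomogeneous n q)
  rw [Finset.sum_congr rfl fun n _ => h n, Finset.sum_eq_single q.totalDegree]
  · rw [if_pos (by omega), Nat.add_sub_cancel]
  · intro n hn hne
    rw [Finset.mem_range] at hn
    rw [if_pos (by omega), homogeneousComponent_eq_zero, zero_mul]
    omega
  · intro hn
    exact absurd (Finset.mem_range.2 (Nat.lt_succ_self _)) hn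

private theorem P7_split {Ω σ : Type} [Field Ω] (F G H : MvPolynomial σ Ω) (N : ℕ)
    (hF : F.IsHomogeneous N) (hF0 : F ≠ 0) (h : F = G * H) :
    F = homogeneousComponent G.totalDegree G * homogeneousComponent H.totalDegree H := by
  have hG0 : G ≠ 0 := by
    rintro rfl
    exact hF0 (by rw [h, zero_mul])
  have hH0 : H ≠ 0 := by
    rintro rfl
    exact hF0 (by rw [h, mul_zero])
  have h1 : N = G.totalDegree + H.totalDegree := by
    rw [← totalDegree_mul_of_isDomain hG0 hH0, ← h, hF.totalDegree hF0]
  rw [← P7_top, ← h1, ← h, homogeneousComponent_of_mem hF, if_pos rfl]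

private theorem P7_deg {Ω σ : Type} [Field Ω] (G : MvPolynomial σ Ω) (hG : ¬ IsUnit G)
    (hG0 : G ≠ 0) : 0 < G.totalDegree := by
  rw [Nat.pos_iff_ne_zero]
  intro h0
  apply hG
  rw [totalDegree_eq_zero_iff_eq_C] at h0
  rw [h0]
  refine IsUnit.map C (isUnit_iff_ne_zero.2 fun hc => hG0 ?_)
  rw [h0, hc, C_0]

private theorem P7_eval_zero {Ω σ : Type} [Field Ω] (G : MvPolynomial σ Ω) (d : ℕ) (hd : 0 < d)
    (hG : G.IsHomogeneous d) : eval (0 : σ → Ω) G = 0 := by
  have h0 : coeff 0 G = 0 := hG.coeff_eq_zero (by simpa using hd.ne)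
  have h1 : eval (0 : σ → Ω) G = constantCoeff G := by
    rw [← MvPolynomial.eval_zero]
  rw [h1, constantCoeff_eq, h0]

/-- two forms of positive degree in at least three variables have a common zero -/
private theorem P7_zero {k : Type} [Field k] [IsAlgClosed k] {n : ℕ} (hn : 2 ≤ n)
    (G H : MvPolynomial (Fin (n + 1)) k) (hG : eval (0 : Fin (n + 1) → k) G = 0)
    (hH : eval (0 : Fin (n + 1) → k) H = 0) :
    ∃ x : Fin (n + 1) → k, x ≠ 0 ∧ eval x G = 0 ∧ eval x H = 0 := by
  classical
  by_contra hcon
  push Not at hcon
  set I : Ideal (MvPolynomial (Fin (n + 1)) k) := Ideal.span {G, H} with hI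
  have hz : zeroLocus k I = {(0 : Fin (n + 1) → k)} := by
    ext x
    rw [hI, zeroLocus_span]
    simp only [Set.mem_ofPred_eq, Set.mem_insert_iff, Set.mem_singleton_iff, forall_eq_or_imp,
      forall_eq]
    constructor
    · rintro ⟨h1, h2⟩
      by_contra hx
      exact hcon x hx (by simpa using h1) (by simpa using h2)
    · rintro rfl
      exact ⟨by simpa using hG, by simpa using hH⟩
  have hr : I.radical = RingHom.ker (eval (0 : Fin (n + 1) → k) : MvPolynomial (Fin (n + 1)) k →+* k) := by
    rw [← vanishingIdeal_zeroLocus_eq_radical (K := k) I, hz]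
    ext f
    rw [mem_vanishingIdeal_singleton_iff, RingHom.mem_ker]
    rfl
  have hmin : RingHom.ker (eval (0 : Fin (n + 1) → k) : MvPolynomial (Fin (n + 1)) k →+* k) ∈
      I.minimalPrimes := by
    rw [← Ideal.radical_minimalPrimes, hr]
    have : (RingHom.ker (eval (0 : Fin (n + 1) → k) : MvPolynomial (Fin (n + 1)) k →+* k)).IsPrime :=
      RingHom.ker_isPrime _
    rw [Ideal.minimalPrimes_eq_subsingleton_self]
    rfl
  have h1 := height_ker_eval (k := k) (I := Fin (n + 1)) 0
  have h2 := Ideal.height_le_card_of_mem_minimalPrimes_span (s := {G, H}) (Set.toFinite _) hmin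
  have h3 : (({G, H} : Set (MvPolynomial (Fin (n + 1)) k)).ncard) ≤ 2 := by
    have := Set.ncard_insert_le G ({H} : Set (MvPolynomial (Fin (n + 1)) k))
    rw [Set.ncard_singleton] at this
    exact this
  rw [Fintype.card_fin] at h1
  have h4 := h1.trans h2
  have h5 : n + 1 ≤ ({G, H} : Set (MvPolynomial (Fin (n + 1)) k)).ncard := by exact_mod_cast h4
  omega

theorem prime_of_smooth {k : Type} [Field k] [IsAlgClosed k] {n : ℕ} (hn : 2 ≤ n) {N : ℕ}
    (F : MvPolynomial (Fin (n + 1)) k) (hF : F.IsHomogeneous N) (hs : Smooth F) :
    (Ideal.span {F}).IsPrime := by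
  classical
  have hone : (fun _ => 1 : Fin (n + 1) → k) ≠ 0 := by
    intro h
    have := congrFun h 0
    simp at this
  have hF0 : F ≠ 0 := by
    rintro rfl
    exact hone (hs _ fun i => by simp)
  have hFu : ¬ IsUnit F := by
    intro hu
    rw [MvPolynomial.isUnit_iff_eq_C_of_isReduced] at hu
    obtain ⟨r, _, hr⟩ := hu
    rw [hr] at hs
    exact hone (hs _ fun i => by simp)
  have hirr : Irreducible F := by
    refine ⟨hFu, ?_⟩
    intro G H hGH
    by_contra hcon
    push Not at hcon
    obtain ⟨hGu, hHu⟩ := hcon
    have hG0 : G ≠ 0 := by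
      rintro rfl
      exact hF0 (by rw [hGH, zero_mul])
    have hH0 : H ≠ 0 := by
      rintro rfl
      exact hF0 (by rw [hGH, mul_zero])
    obtain ⟨x, hx, h1, h2⟩ := P7_zero hn (homogeneousComponent G.totalDegree G)
      (homogeneousComponent H.totalDegree H)
      (P7_eval_zero _ _ (P7_deg G hGu hG0) (homogeneousComponent_isHomogeneous _ _))
      (P7_eval_zero _ _ (P7_deg H hHu hH0) (homogeneousComponent_isHomogeneous _ _))
    apply hx
    apply hs
    intro i
    rw [P7_split F G H N hF hF0 hGH, Derivation.leibniz, map_add, smul_eq_mul, smul_eq_mul, map_mul,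
      map_mul, h1, h2, zero_mul, zero_mul, add_zero]
  rw [Ideal.span_singleton_prime hF0]
  exact hirr.prime

end Q9
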