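import Pool.Agent.LibSU9.E4
import Pool.Agent.LibQ9.B1
import Pool.Agent.LibQ9.B4
import Pool.Agent.LibQ9.P6
import Pool.Agent.LibQ9.P7

/-!
[Q9 B10] (MEDIUM; may cite `Pool.Agent.LibSU9.generic_free`, `free_lift` (LibSU9/D7), B1, B4, P6, P7 as stated) A smooth hypersurface of degree `n` in `P^n`, `p > n`, has a free curve.

PLAN. `(span {F})` is prime (P7), `Sm F` (P6). `LibSU9.generic_free` (with `K = k`): a field `κ`, finite over `Ω = FractionRing (k[x]/(F))`, `ι : k →+* κ`, the generic point `y`, and `γ` with `γ(0) = y`, `F(γ) = 0`, not of the form `l y`. Make `κ` a `k`-algebra by `ι.toAlgebra`. Let `g` be the gcd of the `γ_i`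
(`κ[X]` is a PID: `Ideal.span (range γ) = span {g}`), `γ_i = g γ¹_i`; `y ≠ 0` so `g(0) ≠ 0`; scale `g` so that `g(0) = 1`; then `γ¹(0) = y`, `Ideal.span (range γ¹) = ⊤`, `F(γ¹) = 0` (`g^n F(γ¹) = 0`). `d` = maximum of the degrees of the `γ¹_i`; `d ≥ 1`, otherwise
`γ¹ = C y` and `γ = g y`. `free_lift` applied to `γ¹` with `e = d` is the hypothesis `hgg` of B1 `free_of_gg`. So `γ¹` is free; `free_transfer` (B4) brings it to `k`. (`aeval γ F` for the algebra structure `ι.toAlgebra` is `eval₂ (C.comp ι) γ F`.)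
-/

set_option autoImplicit false

namespace Q9

open Polynomial

private theorem B10_hom {k S : Type} [Field k] [CommRing S] (f : k →+* S) {m n : ℕ}
    (F : MvPolynomial (Fin m) k) (hF : F.IsHomogeneous n) (g : S) (x : Fin m → S) :
    MvPolynomial.eval₂ f (fun i => g * x i) F = g ^ n * MvPolynomial.eval₂ f x F := by
  rw [MvPolynomial.eval₂_eq', MvPolynomial.eval₂_eq', Finset.mul_sum]
  refine Finset.sum_congr rfl fun d hd => ?_
  have h1 : ∑ i, d i = n := by
    have h2 := hF (MvPolynomial.mem_support_iff.1 hd)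
    rw [← h2, Finsupp.weight_apply, Finsupp.sum_fintype]
    · simp
    · simp
  rw [← h1]
  have h3 : ∏ i, (g * x i) ^ d i = g ^ (∑ i, d i) * ∏ i, x i ^ d i := by
    rw [← Finset.prod_pow_eq_pow_sum, ← Finset.prod_mul_distrib]
    exact Finset.prod_congr rfl fun i _ => mul_pow _ _ _
  rw [h3]
  ring

theorem exists_free (p : ℕ) [Fact p.Prime] {n : ℕ} (hn : 2 ≤ n) (hp : n < p) {k : Type} [Field k]
    [IsAlgClosed k] [CharP k p] (F : MvPolynomial (Fin (n + 1)) k) (hF : F.IsHomogeneous n)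
    (hs : Smooth F) : ∃ (d : ℕ) (γ : Fin (n + 1) → k[X]), Free F d γ := by
  classical
  have hP : (Ideal.span {F}).IsPrime := prime_of_smooth hn F hF hs
  have hSm : Sm F := sm_of_smooth F hs
  obtain ⟨κ, instF, instA, hfin, hpκ, ι, y, γ, hι, hy, hdeg, hγ0, hγ, hnt, -⟩ :=
    Pool.Agent.LibSU9.generic_free (K := k) p hn hp F hF
  letI : Algebra k κ := ι.toAlgebra
  have hae : ∀ (δ : Fin (n + 1) → κ[X]) (G : MvPolynomial (Fin (n + 1)) k),
      MvPolynomial.aeval δ G = MvPolynomial.eval₂ (Polynomial.C.comp ι) δ G := fun δ G => rfl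
  have hae0 : ∀ (x : Fin (n + 1) → κ) (G : MvPolynomial (Fin (n + 1)) k),
      MvPolynomial.aeval x G = MvPolynomial.eval₂ ι x G := fun x G => rfl
  -- the generic point is not zero
  have hy0 : y 0 ≠ 0 := by
    intro h
    rw [hy 0, map_eq_zero_iff _ (RingHom.injective _), map_eq_zero_iff _ (IsFractionRing.injective
      (MvPolynomial (Fin (n + 1)) k ⧸ Ideal.span {F}) _), Ideal.Quotient.eq_zero_iff_mem] at h
    exact Pool.Agent.LibSU9.X_notMem F hn hF 0 h
  -- the gcd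
  obtain ⟨g, hg⟩ := (IsPrincipalIdealRing.principal (Ideal.span (Set.range γ))).principal
  have hg' : Ideal.span (Set.range γ) = Ideal.span {g} := hg
  have hdvd : ∀ i, ∃ t, γ i = g * t := by
    intro i
    have h1 : γ i ∈ Ideal.span (Set.range γ) := Ideal.subset_span ⟨i, rfl⟩
    rw [hg', Ideal.mem_span_singleton] at h1
    exact h1
  choose γ₁ hγ₁ using hdvd
  have hc : g.coeff 0 ≠ 0 := by
    intro h0
    have h1 := hγ0 0
    rw [hγ₁ 0, mul_coeff_zero, h0, zero_mul] at h1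
    exact hy0 h1.symm
  have hg0 : g ≠ 0 := by
    rintro rfl
    exact hc (coeff_zero 0)
  obtain ⟨c, hcdef⟩ : ∃ c, c = g.coeff 0 := ⟨_, rfl⟩
  rw [← hcdef] at hc
  obtain ⟨γ', hγ'⟩ : ∃ γ' : Fin (n + 1) → κ[X], γ' = fun i => C c * γ₁ i := ⟨_, rfl⟩
  have hγg : ∀ i, γ i = (C c⁻¹ * g) * γ' i := by
    intro i
    rw [hγ₁ i, hγ']
    have h1 : (C c⁻¹ * C c : κ[X]) = 1 := by rw [← C_mul, inv_mul_cancel₀ hc, C_1]
    linear_combination (-(g * γ₁ i)) * h1
  have hγ'0 : ∀ i, (γ' i).coeff 0 = y i := by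
    intro i
    have h1 := hγ0 i
    rw [hγg i, mul_coeff_zero, mul_coeff_zero, coeff_C_zero, ← hcdef, inv_mul_cancel₀ hc,
      one_mul] at h1
    exact h1
  have hgg0 : (C c⁻¹ * g : κ[X]) ≠ 0 := mul_ne_zero (C_ne_zero.2 (inv_ne_zero hc)) hg0
  have hprim : Ideal.span (Set.range γ') = ⊤ := by
    rw [Ideal.eq_top_iff_one, Ideal.mem_span_range_iff_exists_fun]
    have h1 : g ∈ Ideal.span (Set.range γ) := by
      rw [hg']
      exact Ideal.mem_span_singleton_self g
    rw [Ideal.mem_span_range_iff_exists_fun] at h1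
    obtain ⟨a, ha⟩ := h1
    refine ⟨fun i => C c⁻¹ * a i, ?_⟩
    apply mul_left_cancel₀ hg0
    rw [mul_one, Finset.mul_sum]
    conv_rhs => rw [← ha]
    refine Finset.sum_congr rfl fun i _ => ?_
    rw [hγg i]
    ring
  have hFγ' : MvPolynomial.aeval γ' F = 0 := by
    rw [hae]
    have h1 : γ = fun i => (C c⁻¹ * g) * γ' i := funext hγg
    rw [h1, B10_hom _ F hF] at hγ
    rcases mul_eq_zero.1 hγ with h2 | h2
    · exact absurd h2 (pow_ne_zero _ hgg0)
    · exact h2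
  -- the degree
  obtain ⟨d, hd⟩ : ∃ d, d = Finset.univ.sup fun i => (γ' i).natDegree := ⟨_, rfl⟩
  have hdle : ∀ i, (γ' i).natDegree ≤ d := by
    intro i
    rw [hd]
    exact Finset.le_sup (f := fun i => (γ' i).natDegree) (Finset.mem_univ i)
  obtain ⟨i₀, -, hi₀⟩ := Finset.exists_mem_eq_sup Finset.univ Finset.univ_nonempty
    fun i => (γ' i).natDegree
  have hd1 : 1 ≤ d := by
    by_contra hlt
    have hd0 : d = 0 := by omega
    apply hnt
    refine ⟨C c⁻¹ * g, fun i => ?_⟩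
    rw [hγg i]
    congr 1
    have h1 := eq_C_of_natDegree_le_zero (p := γ' i) (by rw [← hd0]; exact hdle i)
    rw [hγ'0] at h1
    exact h1
  have hlead : ∃ i, (γ' i).coeff d ≠ 0 := by
    refine ⟨i₀, ?_⟩
    have h1 : (γ' i₀).natDegree = d := by rw [hd, hi₀]
    rw [← h1]
    intro h2
    have h3 : γ' i₀ = 0 := leadingCoeff_eq_zero.1 h2
    rw [h3, natDegree_zero] at h1
    omega
  have hfree : Free F d γ' := by
    refine free_of_gg hn F hF hSm d hd1 γ' ⟨hdle, hFγ'⟩ hprim hlead ?_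
    intro w hw
    have hvc : vc γ' 0 = y := funext hγ'0
    rw [hvc] at hw
    obtain ⟨δ, h1, h2, h3⟩ := Pool.Agent.LibSU9.free_lift p F hpκ y hy ι hι γ' hdle hγ'0
      hFγ' w hw
    exact ⟨δ, h1, funext h2, h3⟩
  obtain ⟨γ'', h1, -⟩ := free_transfer F d γ' hfree
  exact ⟨d, γ'', h1⟩

end Q9
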