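import Pool.Agent.LibQ9.BDefs

/-!
[Q9 B9] (MEDIUM) Linear algebra of Plücker vectors.

PLAN. `plu_unique`: two `c × m` matrices `N, N'` with the same kernel, both of rank `c` (some maximal minor `≠ 0`), have the same row space (the row space is the annihilator of the kernel), so `N' = A N` with `A` invertible `c × c`, and all minors are multiplied by
`det A`. `plu_map`: apply the field homomorphism to the matrix; the kernel of the mapped matrix is spanned by the image of the kernel (rank is preserved; a basis of the kernel over `κ` stays a basis), so if it is contained in `W'` of the same dimension then equal.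
`plu_wedge`: if `W` is in the kernel of the linear form `g ≠ ...` then `g` is in the row space of `N`, so the `(c+1) × m` matrix with first row `g` and then `N` has all `(c+1)`-minors zero; expand along the first row (`Matrix.det_succ_row_zero`).
-/

set_option autoImplicit false

namespace Q9

open Polynomial

private theorem B9_row {κ : Type} [Field κ] {m c : ℕ} (N : Matrix (Fin c) (Fin m) κ)
    (g : Fin m → κ) (h : ∀ v, N.mulVec v = 0 → ∑ i, g i * v i = 0) :
    ∃ a : Fin c → κ, ∀ i, g i = ∑ l, a l * N l i := by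
  classical
  let G : Module.Dual κ (Fin m → κ) := ∑ i, g i • LinearMap.proj i
  have hG : ∀ v, G v = ∑ i, g i * v i := by
    intro v
    simp [G, LinearMap.sum_apply]
  have h1 : G ∈ (LinearMap.ker N.mulVecLin).dualAnnihilator := by
    rw [Submodule.mem_dualAnnihilator]
    intro w hw
    rw [hG]
    apply h
    simpa using hw
  rw [← LinearMap.range_dualMap_eq_dualAnnihilator_ker] at h1
  obtain ⟨φ, hφ⟩ := h1
  refine ⟨fun l => φ (Pi.single l 1), fun i => ?_⟩
  have h2 := LinearMap.congr_fun hφ (Pi.single i 1)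
  rw [hG] at h2
  have h3 : ∑ j, g j * (Pi.single i 1 : Fin m → κ) j = g i := by
    rw [Finset.sum_eq_single i]
    · simp
    · intro j _ hj
      simp [Pi.single_eq_of_ne hj]
    · simp
  rw [h3] at h2
  rw [← h2]
  show φ (N.mulVec (Pi.single i 1)) = _
  rw [LinearMap.pi_apply_eq_sum_univ φ]
  apply Finset.sum_congr rfl
  intro l _
  have h4 : (N.mulVec (Pi.single i 1)) l = N l i := by simp
  have h5 : (fun j => if l = j then (1 : κ) else 0) = (Pi.single l 1 : Fin c → κ) := by
    funext j
    by_cases hj : l = j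
    · subst hj
      simp
    · rw [if_neg hj, Pi.single_eq_of_ne (Ne.symm hj)]
  rw [h4, h5, smul_eq_mul, mul_comm]

private theorem B9_sub {κ : Type} [Field κ] {m c : ℕ} (N : Matrix (Fin c) (Fin m) κ)
    (J : Fin c → Fin m) (z : Fin c → κ) :
    N.mulVec (((1 : Matrix (Fin m) (Fin m) κ).submatrix id J).mulVec z)
      = (N.submatrix id J).mulVec z := by
  rw [Matrix.mulVec_mulVec]
  have h := Matrix.mul_submatrix_one (Equiv.refl (Fin m)) J N
  have h' : N * (1 : Matrix (Fin m) (Fin m) κ).submatrix id J = N.submatrix id J := h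
  rw [h']

private theorem B9_fin {κ : Type} [Field κ] {m c : ℕ} (N : Matrix (Fin c) (Fin m) κ)
    (J : Fin c → Fin m) (hJ : (N.submatrix id J).det ≠ 0) :
    c + Module.finrank κ (LinearMap.ker N.mulVecLin) = m := by
  have hu : IsUnit (N.submatrix id J).det := isUnit_iff_ne_zero.2 hJ
  have hs : LinearMap.range N.mulVecLin = ⊤ := by
    rw [LinearMap.range_eq_top]
    intro y
    refine ⟨((1 : Matrix (Fin m) (Fin m) κ).submatrix id J).mulVec
      ((N.submatrix id J)⁻¹.mulVec y), ?_⟩
    rw [Matrix.mulVecLin_apply, B9_sub, Matrix.mulVec_mulVec, Matrix.mul_nonsing_inv _ hu,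
      Matrix.one_mulVec]
  have h := LinearMap.finrank_range_add_finrank_ker N.mulVecLin
  rw [hs, finrank_top, Module.finrank_fin_fun, Module.finrank_fin_fun] at h
  exact h

theorem plu_unique {κ : Type} [Field κ] {m c : ℕ} (W : Submodule κ (Fin m → κ))
    (r r' : (Fin c → Fin m) → κ) (h : Plu W r) (h' : Plu W r') :
    ∃ a : κ, a ≠ 0 ∧ ∀ J, r' J = a * r J := by
  obtain ⟨N, h1, h2, -⟩ := h
  obtain ⟨N', h1', h2', J', hJ'⟩ := h'
  have h3 : ∀ l, ∃ a : Fin c → κ, ∀ i, N' l i = ∑ k, a k * N k i := by
    intro l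
    apply B9_row
    intro v hv
    have h4 := (h1' v).1 ((h1 v).2 hv)
    exact congrFun h4 l
  choose A hA using h3
  have h5 : N' = (Matrix.of A) * N := by
    ext l i
    rw [Matrix.mul_apply]
    exact hA l i
  have h6 : ∀ J, r' J = (Matrix.of A).det * r J := by
    intro J
    rw [h2', h2, ← Matrix.det_mul, h5]
    congr 1
  refine ⟨(Matrix.of A).det, ?_, h6⟩
  intro h7
  apply hJ'
  rw [h6, h7, zero_mul]

theorem plu_map {κ κ' : Type} [Field κ] [Field κ'] (σ : κ →+* κ') {m c : ℕ}
    (W : Submodule κ (Fin m → κ)) (W' : Submodule κ' (Fin m → κ')) (r : (Fin c → Fin m) → κ)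
    (h : Plu W r) (hW : ∀ v ∈ W, (fun i => σ (v i)) ∈ W')
    (hd : Module.finrank κ' W' = Module.finrank κ W) : Plu W' (fun J => σ (r J)) := by
  obtain ⟨N, h1, h2, J, hJ⟩ := h
  have hm : ∀ K : Fin c → Fin m, ((N.map σ).submatrix id K).det = σ (r K) := by
    intro K
    rw [h2, RingHom.map_det]
    rfl
  have hJ1 : (N.submatrix id J).det ≠ 0 := by
    rw [← h2]
    exact hJ
  have hJ' : ((N.map σ).submatrix id J).det ≠ 0 := by
    rw [hm]
    exact fun h0 => hJ ((map_eq_zero σ).1 h0)
  have hu : IsUnit (N.submatrix id J).det := isUnit_iff_ne_zero.2 hJ1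
  have hW1 : W = LinearMap.ker N.mulVecLin := by
    ext v
    rw [h1]
    simp
  have f1 := B9_fin N J hJ1
  have f2 := B9_fin (N.map σ) J hJ'
  have hle : LinearMap.ker (N.map σ).mulVecLin ≤ W' := by
    intro v hv
    have hv' : (N.map σ).mulVec v = 0 := by simpa using hv
    let B : Matrix (Fin m) (Fin m) κ :=
      1 - (1 : Matrix (Fin m) (Fin m) κ).submatrix id J * ((N.submatrix id J)⁻¹ * N)
    have hB : ∀ i, B.mulVec (Pi.single i 1) ∈ W := by
      intro i
      rw [h1]
      have e : N * B = 0 := by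
        have h := Matrix.mul_submatrix_one (Equiv.refl (Fin m)) J N
        have h' : N * (1 : Matrix (Fin m) (Fin m) κ).submatrix id J = N.submatrix id J := h
        show N * (1 - (1 : Matrix (Fin m) (Fin m) κ).submatrix id J *
          ((N.submatrix id J)⁻¹ * N)) = 0
        rw [Matrix.mul_sub, Matrix.mul_one, ← Matrix.mul_assoc, h', ← Matrix.mul_assoc,
          Matrix.mul_nonsing_inv _ hu, Matrix.one_mul, sub_self]
      rw [Matrix.mulVec_mulVec, e, Matrix.zero_mulVec]
    have hBm : B.map σ = 1 - (1 : Matrix (Fin m) (Fin m) κ').submatrix id J *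
        (((N.submatrix id J)⁻¹).map σ * N.map σ) := by
      show (1 - (1 : Matrix (Fin m) (Fin m) κ).submatrix id J *
          ((N.submatrix id J)⁻¹ * N)).map σ = _
      rw [Matrix.map_sub σ (fun a b => map_sub σ a b), Matrix.map_mul, Matrix.map_mul,
        Matrix.map_one σ (map_zero σ) (map_one σ), ← Matrix.submatrix_map,
        Matrix.map_one σ (map_zero σ) (map_one σ)]
    have hfix : (B.map σ).mulVec v = v := by
      rw [hBm, Matrix.sub_mulVec, Matrix.one_mulVec, ← Matrix.mulVec_mulVec,
        ← Matrix.mulVec_mulVec, hv', Matrix.mulVec_zero, Matrix.mulVec_zero, sub_zero]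
    have hsum : (B.map σ).mulVec v =
        ∑ i, v i • (fun k => σ ((B.mulVec (Pi.single i 1)) k)) := by
      funext k
      rw [Finset.sum_apply]
      show ∑ i, (B.map σ) k i * v i = _
      apply Finset.sum_congr rfl
      intro i _
      simp [mul_comm]
    rw [← hfix, hsum]
    exact Submodule.sum_mem _ fun i _ => W'.smul_mem _ (hW _ (hB i))
  have hdim : Module.finrank κ' (LinearMap.ker (N.map σ).mulVecLin) = Module.finrank κ' W' := by
    rw [hd, hW1]
    omega
  have heq := Submodule.eq_of_le_of_finrank_eq hle hdim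
  refine ⟨N.map σ, ?_, fun K => (hm K).symm, J, fun h0 => hJ ((map_eq_zero σ).1 h0)⟩
  intro v
  rw [← heq]
  simp

theorem plu_wedge {κ : Type} [Field κ] {m c : ℕ} (W : Submodule κ (Fin m → κ))
    (r : (Fin c → Fin m) → κ) (h : Plu W r) (g : Fin m → κ) (hg : ∀ v ∈ W, ∑ i, g i * v i = 0)
    (J : Fin (c + 1) → Fin m) :
    ∑ l : Fin (c + 1), (-1) ^ (l : ℕ) * g (J l) * r (fun a => J (l.succAbove a)) = 0 := by
  obtain ⟨N, h1, h2, -⟩ := h
  obtain ⟨a, ha⟩ := B9_row N g (fun v hv => hg v ((h1 v).2 hv))
  let M : Matrix (Fin (c + 1)) (Fin (c + 1)) κ :=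
    Matrix.of (Fin.cons (fun i => g (J i)) (fun l i => N l (J i)))
  have h3 : M.det = 0 := by
    rw [← Matrix.exists_vecMul_eq_zero_iff]
    refine ⟨Fin.cons 1 (fun l => - a l), ?_, ?_⟩
    · intro h0
      have := congrFun h0 0
      simp at this
    · funext i
      rw [Matrix.vecMul, dotProduct, Fin.sum_univ_succ]
      show (1 : κ) * g (J i) + ∑ l : Fin c, (- a l) * N l (J i) = 0
      rw [ha (J i)]
      simp
  rw [Matrix.det_succ_row_zero] at h3
  rw [← h3]
  apply Finset.sum_congr rfl
  intro l _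
  rw [h2]
  rfl

end Q9
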