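import Pool.Agent.LibQ9.B3
import Pool.Agent.LibQ9.B9

/-!
[Q9 B12] (MEDIUM; may cite B3, B9 as stated) `Pos` and Plücker vectors are defined over the field of the coefficients of the curve.

PLAN. `L` an intermediate field containing all coefficients of `γ`; `γ_L` the curve over `L`, `γ = mp γ_L`. `Pos F d γ_L` is the image under `a ↦ a(0)` of the kernel `K_L` of the `L`-linear map `a ↦ grad F γ_L a` on the finite-dimensional space of vectors of polynomials of degree `< d`; over `Ω` the kernel is spanned by `K_L` (kernels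
commute with the field extension `L → Ω`: a basis of `L`-solutions of a linear system over `L` is a basis of the `Ω`-solutions; e.g. expand the coefficients of an `Ω`-solution in an `L`-basis of `Ω`). So `Pos F d γ` is the `Ω`-span of the image of `Pos F d γ_L` and the dimensions agree. `exists_plu`: a subspace `W` of `κ^m` of dimension `m - c` is the kernel
of a `c × m` matrix of rank `c` (dual basis of `κ^m / W`), which has a nonzero `c`-minor. `plu_field`: take a Plücker vector `r_L` of `Pos F d γ_L` over `L`, B9 `plu_map` (with `pos_map`, equal dimensions) gives a Plücker vector of `Pos F d γ`; any other one is proportional (B9 `plu_unique`), so the quotients `r J / r J₀` are in `L`.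
-/

set_option autoImplicit false

namespace Q9

open Polynomial

private theorem B12_sub {κ : Type} [Field κ] {m c : ℕ} (N : Matrix (Fin c) (Fin m) κ)
    (J : Fin c → Fin m) (z : Fin c → κ) :
    N.mulVec (((1 : Matrix (Fin m) (Fin m) κ).submatrix id J).mulVec z)
      = (N.submatrix id J).mulVec z := by
  rw [Matrix.mulVec_mulVec]
  have h := Matrix.mul_submatrix_one (Equiv.refl (Fin m)) J N
  have h' : N * (1 : Matrix (Fin m) (Fin m) κ).submatrix id J = N.submatrix id J := h
  rw [h']

private theorem B12_fin {κ : Type} [Field κ] {m c : ℕ} (N : Matrix (Fin c) (Fin m) κ)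
    (J : Fin c → Fin m) (hJ : (N.submatrix id J).det ≠ 0) :
    c + Module.finrank κ (LinearMap.ker N.mulVecLin) = m := by
  have hu : IsUnit (N.submatrix id J).det := isUnit_iff_ne_zero.2 hJ
  have hs : LinearMap.range N.mulVecLin = ⊤ := by
    rw [LinearMap.range_eq_top]
    intro y
    refine ⟨((1 : Matrix (Fin m) (Fin m) κ).submatrix id J).mulVec
      ((N.submatrix id J)⁻¹.mulVec y), ?_⟩
    rw [Matrix.mulVecLin_apply, B12_sub, Matrix.mulVec_mulVec, Matrix.mul_nonsing_inv _ hu,
      Matrix.one_mulVec]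
  have h := LinearMap.finrank_range_add_finrank_ker N.mulVecLin
  rw [hs, finrank_top, Module.finrank_fin_fun, Module.finrank_fin_fun] at h
  exact h

/-- a product with identity has a nonzero minor -/
private theorem B12_minor {κ : Type} [Field κ] {m c : ℕ} (N : Matrix (Fin c) (Fin m) κ)
    (G : Matrix (Fin m) (Fin c) κ) (h : N * G = 1) :
    ∃ J : Fin c → Fin m, (N.submatrix id J).det ≠ 0 := by
  classical
  by_contra hcon
  push Not at hcon
  have h1 : (N * G).transpose.det = 0 := by
    have h2 : (N * G).transpose = fun l => ∑ i : Fin m, G i l • N.transpose i := by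
      funext l a
      rw [Matrix.transpose_apply, Matrix.mul_apply, Finset.sum_apply]
      refine Finset.sum_congr rfl fun i _ => ?_
      rw [Pi.smul_apply, smul_eq_mul, Matrix.transpose_apply, mul_comm]
    have h3 : (N * G).transpose.det =
        (Matrix.detRowAlternating (R := κ) (n := Fin c)) (fun l => ∑ i : Fin m, G i l • N.transpose i) := by
      rw [← h2]
      rfl
    rw [h3]
    have h4 := (Matrix.detRowAlternating (R := κ) (n := Fin c)).toMultilinearMap.map_sum
      (fun (l : Fin c) (i : Fin m) => G i l • N.transpose i)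
    rw [AlternatingMap.coe_multilinearMap] at h4
    rw [h4]
    refine Finset.sum_eq_zero fun J _ => ?_
    have h5 := (Matrix.detRowAlternating (R := κ) (n := Fin c)).toMultilinearMap.map_smul_univ
      (fun l => G (J l) l) (fun l => N.transpose (J l))
    rw [AlternatingMap.coe_multilinearMap] at h5
    rw [h5]
    have h6 : (Matrix.detRowAlternating (R := κ) (n := Fin c)) (fun l => N.transpose (J l)) = 0 := by
      have h7 : (N.submatrix id J).transpose.det = 0 := by rw [Matrix.det_transpose, hcon J]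
      exact h7
    rw [h6, smul_zero]
  rw [h, Matrix.transpose_one, Matrix.det_one] at h1
  exact one_ne_zero h1

private theorem B12_plu_fin {κ : Type} [Field κ] {m c : ℕ} {W : Submodule κ (Fin m → κ)}
    {r : (Fin c → Fin m) → κ} (h : Plu W r) : c + Module.finrank κ W = m := by
  obtain ⟨N, h1, h2, J, hJ⟩ := h
  have hW : W = LinearMap.ker N.mulVecLin := by
    ext v
    rw [h1]
    simp
  rw [hW]
  exact B12_fin N J (by rw [← h2]; exact hJ)

theorem exists_plu {κ : Type} [Field κ] {m c : ℕ} (W : Submodule κ (Fin m → κ))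
    (h : Module.finrank κ W + c = m) : ∃ r : (Fin c → Fin m) → κ, Plu W r := by
  classical
  have h1 : Module.finrank κ ((Fin m → κ) ⧸ W) = Module.finrank κ (Fin c → κ) := by
    have h2 := W.finrank_quotient_add_finrank
    rw [Module.finrank_fin_fun] at h2
    rw [Module.finrank_fin_fun]
    omega
  let e : ((Fin m → κ) ⧸ W) ≃ₗ[κ] (Fin c → κ) := LinearEquiv.ofFinrankEq _ _ h1
  let f : (Fin m → κ) →ₗ[κ] (Fin c → κ) := e.toLinearMap ∘ₗ W.mkQ
  have hf : ∀ v, v ∈ W ↔ f v = 0 := by
    intro v
    show v ∈ W ↔ e (W.mkQ v) = 0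
    rw [LinearEquiv.map_eq_zero_iff, Submodule.mkQ_apply, Submodule.Quotient.mk_eq_zero]
  have hs : Function.Surjective f := e.surjective.comp W.mkQ_surjective
  obtain ⟨g, hg⟩ := f.exists_rightInverse_of_surjective (LinearMap.range_eq_top.2 hs)
  have hNG : LinearMap.toMatrix' f * LinearMap.toMatrix' g = 1 := by
    rw [← LinearMap.toMatrix'_comp, hg, LinearMap.toMatrix'_id]
  obtain ⟨J, hJ⟩ := B12_minor _ _ hNG
  refine ⟨fun J => ((LinearMap.toMatrix' f).submatrix id J).det, LinearMap.toMatrix' f, ?_,
    fun _ => rfl, J, hJ⟩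
  intro v
  rw [hf, ← Matrix.toLin'_apply, Matrix.toLin'_toMatrix']

/-- apply a linear functional to the coefficients -/
private noncomputable def B12_ap {L Ω : Type} [Field L] [Field Ω] [Algebra L Ω] (d : ℕ)
    (φ : Ω →ₗ[L] L) (a : Polynomial Ω) : L[X] :=
  ∑ j ∈ Finset.range d, monomial j (φ (a.coeff j))

private theorem B12_ap_coeff {L Ω : Type} [Field L] [Field Ω] [Algebra L Ω] (d : ℕ)
    (φ : Ω →ₗ[L] L) (a : Polynomial Ω) (ha : a.degree < (d : ℕ)) (j : ℕ) :
    (B12_ap d φ a).coeff j = φ (a.coeff j) := by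
  unfold B12_ap
  rw [finsetSum_coeff]
  by_cases hj : j < d
  · rw [Finset.sum_eq_single j]
    · rw [coeff_monomial, if_pos rfl]
    · intro i _ hi
      rw [coeff_monomial, if_neg hi]
    · intro h
      exact absurd (Finset.mem_range.2 hj) h
  · have h1 : a.coeff j = 0 :=
      (degree_lt_iff_coeff_zero a d).1 ha j (not_lt.1 hj)
    rw [h1, map_zero]
    refine Finset.sum_eq_zero fun i hi => ?_
    rw [coeff_monomial, if_neg]
    rintro rfl
    exact hj (Finset.mem_range.1 hi)

private theorem B12_aeval {k : Type} [Field k] {n : ℕ} {Ω : Type} [Field Ω] [Algebra k Ω]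
    (L : IntermediateField k Ω) (γL : Fin (n + 1) → Polynomial L)
    (G : MvPolynomial (Fin (n + 1)) k) :
    MvPolynomial.aeval (mp (L.val : L →+* Ω) γL) G = (MvPolynomial.aeval γL G).map (algebraMap L Ω) := by
  have h := MvPolynomial.comp_aeval_apply (f := γL) (φ := Polynomial.mapAlgHom L.val) G
  rw [Polynomial.coe_mapAlgHom] at h
  exact h.symm

private theorem B12_A {k : Type} [Field k] {n : ℕ} (F : MvPolynomial (Fin (n + 1)) k) {Ω : Type}
    [Field Ω] [Algebra k Ω] (L : IntermediateField k Ω) (d : ℕ)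
    (γL : Fin (n + 1) → Polynomial L) (φ : Ω →ₗ[L] L) (v : Fin (n + 1) → Ω)
    (hv : v ∈ Pos F d (mp (L.val : L →+* Ω) γL)) : (fun i => φ (v i)) ∈ Pos F d γL := by
  obtain ⟨a, ha, ha0, hav⟩ := hv
  refine ⟨fun i => B12_ap d φ (a i), fun i => ?_, ?_, fun i => ?_⟩
  · rw [degree_lt_iff_coeff_zero]
    intro j hj
    rw [B12_ap_coeff d φ _ (ha i), (degree_lt_iff_coeff_zero (a i) d).1 (ha i) j hj, map_zero]
  · ext j
    have h1 : (grad F (mp (L.val : L →+* Ω) γL) a).coeff j = 0 := by rw [ha0, coeff_zero]
    have h2 : φ ((grad F (mp (L.val : L →+* Ω) γL) a).coeff j) = 0 := by rw [h1, map_zero]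
    rw [coeff_zero]
    suffices h3 : (((grad F γL fun i => B12_ap d φ (a i)).coeff j : L)) =
        φ ((grad F (mp (L.val : L →+* Ω) γL) a).coeff j) by
      rw [h3, h2]
    unfold grad
    rw [finsetSum_coeff, finsetSum_coeff, map_sum]
    refine Finset.sum_congr rfl fun i _ => ?_
    rw [coeff_mul, coeff_mul, map_sum]
    refine Finset.sum_congr rfl fun x _ => ?_
    rw [B12_ap_coeff d φ _ (ha i), B12_aeval, coeff_map]
    have h4 := φ.map_smul ((MvPolynomial.aeval γL (MvPolynomial.pderiv i F)).coeff x.1)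
      ((a i).coeff x.2)
    rw [Algebra.smul_def, smul_eq_mul] at h4
    exact h4.symm
  · show (B12_ap d φ (a i)).coeff 0 = φ (v i)
    rw [B12_ap_coeff d φ _ (ha i), hav i]

private theorem B12_B {k : Type} [Field k] {n : ℕ} (F : MvPolynomial (Fin (n + 1)) k) {Ω : Type}
    [Field Ω] [Algebra k Ω] (L : IntermediateField k Ω) (d : ℕ)
    (γL : Fin (n + 1) → Polynomial L) {ι : Type} (b : Module.Basis ι L Ω) (v : Fin (n + 1) → Ω)
    (hv : ∀ t, (fun i => b.coord t (v i)) ∈ Pos F d γL) :
    v ∈ Pos F d (mp (L.val : L →+* Ω) γL) := by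
  classical
  let T : Finset ι := Finset.univ.biUnion fun i => (b.repr (v i)).support
  have h1 : v = ∑ t ∈ T, b t • (fun i => (L.val (b.coord t (v i)) : Ω)) := by
    funext i
    rw [Finset.sum_apply]
    have h2 := b.linearCombination_repr (v i)
    rw [Finsupp.linearCombination_apply] at h2
    conv_lhs => rw [← h2]
    rw [Finsupp.sum_of_support_subset (b.repr (v i)) (s := T)]
    · refine Finset.sum_congr rfl fun t _ => ?_
      rw [Pi.smul_apply, smul_eq_mul, Algebra.smul_def, mul_comm]
      rfl
    · exact Finset.subset_biUnion_of_mem (fun i => (b.repr (v i)).support) (Finset.mem_univ i)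
    · intro t _
      rw [zero_smul]
  rw [h1]
  refine Submodule.sum_mem _ fun t _ => Submodule.smul_mem _ _ ?_
  exact pos_map F L.val (fun i => b.coord t (v i)) (hv t)

theorem plu_field {k : Type} [Field k] {n : ℕ} (F : MvPolynomial (Fin (n + 1)) k) {Ω : Type}
    [Field Ω] [Algebra k Ω] (L : IntermediateField k Ω) (d c : ℕ) (γ : Fin (n + 1) → Polynomial Ω)
    (hL : ∀ i j, (γ i).coeff j ∈ L) (hdim : Module.finrank Ω (Pos F d γ) + c = n + 1)
    (r : (Fin c → Fin (n + 1)) → Ω) (hr : Plu (Pos F d γ) r) (J J₀ : Fin c → Fin (n + 1))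
    (h0 : r J₀ ≠ 0) : r J / r J₀ ∈ L := by
  classical
  have hlift : ∀ i, ∃ q : Polynomial L, q.map (algebraMap L Ω) = γ i := by
    intro i
    have h1 : γ i ∈ Polynomial.lifts (algebraMap L Ω) := by
      rw [Polynomial.lifts_iff_coeff_lifts]
      intro j
      exact ⟨⟨_, hL i j⟩, rfl⟩
    exact (Polynomial.mem_lifts _).1 h1
  choose γL hγL using hlift
  have hγ : γ = mp (L.val : L →+* Ω) γL := by
    funext i
    exact (hγL i).symm
  have hle : Module.finrank L (Pos F d γL) ≤ n + 1 := by
    have h1 := Submodule.finrank_le (Pos F d γL)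
    rwa [Module.finrank_fin_fun] at h1
  obtain ⟨c', hc'⟩ := Nat.exists_eq_add_of_le hle
  obtain ⟨rL, hrL⟩ := exists_plu (Pos F d γL) hc'.symm
  obtain ⟨N, h1, h2, J1, hJ1⟩ := hrL
  have hcoord : ∀ (φ : Ω →ₗ[L] L) (v : Fin (n + 1) → Ω) (l : Fin c'),
      φ (((N.map (algebraMap L Ω)).mulVec v) l) = (N.mulVec fun i => φ (v i)) l := by
    intro φ v l
    show φ (∑ i, algebraMap L Ω (N l i) * v i) = ∑ i, N l i * φ (v i)
    rw [map_sum]
    refine Finset.sum_congr rfl fun i _ => ?_
    rw [← Algebra.smul_def, φ.map_smul, smul_eq_mul]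
  let b := Module.Basis.ofVectorSpace L Ω
  have hker : ∀ v, v ∈ Pos F d γ ↔ (N.map (algebraMap L Ω)).mulVec v = 0 := by
    intro v
    rw [hγ]
    constructor
    · intro hv
      funext l
      apply b.ext_elem
      intro t
      have h3 := hcoord (b.coord t) v l
      have h4 := (h1 _).1 (B12_A F L d γL (b.coord t) v hv)
      rw [h4] at h3
      rw [Pi.zero_apply, map_zero]
      exact h3
    · intro hv
      refine B12_B F L d γL b v fun t => (h1 _).2 ?_
      funext l
      rw [← hcoord (b.coord t) v l, hv, Pi.zero_apply, map_zero]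
      rfl
  have hplu : Plu (Pos F d γ) (fun J => algebraMap L Ω (rL J)) := by
    refine ⟨N.map (algebraMap L Ω), hker, fun J => ?_, J1, ?_⟩
    · show algebraMap L Ω (rL J) = _
      rw [h2, RingHom.map_det]
      rfl
    · exact fun h3 => hJ1 ((map_eq_zero _).1 h3)
  have e1 := B12_plu_fin hplu
  have e2 : c' = c := by omega
  subst e2
  obtain ⟨a, ha, har⟩ := plu_unique _ _ _ hplu hr
  have h3 : r J / r J₀ = algebraMap L Ω (rL J / rL J₀) := by
    rw [har, har, map_div₀, mul_div_mul_left _ _ ha]
  rw [h3]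
  exact (rL J / rL J₀).2

end Q9
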