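import Pool.Agent.LibQ9.BDefs

/-!
[Q9 B2] (SHORT/MEDIUM) First properties of free curves.

PLAN. `Free.span_grad`: `f = 1` (degree `0 < n d`) is `∇F(γ)·a`. `Free.span`: each `aeval γ (pderiv i F)` is a form of positive degree `n - 1 ≥ 1` in the `γ_j`, so in the ideal generated by the `γ_j`. `Free.lead`: `f = X^(nd-1)` is `∇F(γ)·a`,
`deg a < d`, so some `aeval γ (pderiv i F)` has degree `≥ (n-1) d`, and if all `γ_j` had degree `< d` this form of degree `n - 1 ≥ 1` would have smaller degree. `Free.span_le`: subtract a multiple `a X^d`: `∇F(γ_∞)·a` can be any value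
as `∇F(γ_∞) ≠ 0` (same argument: the coefficient at `(n-1) d` of `aeval γ (pderiv i F)` is the value at `γ_∞`). `Free.of_cor_zero` (very free implies free): `Cor 0`: everything of degree `< nd - 1` is hit by degree `< d - 1`; multiply by `X`:
`X^(nd-1) = X * X^(nd-2)` is hit by degree `< d`. (`d ≥ 1`; if `nd - 1 = 0`, i.e. impossible as `n ≥ 2`.) `pos_sub`: evaluate `grad F γ a = 0` at `0`. `pos_deriv`: `a = derivative of γ` has degree `< d`, `grad F γ (γ') = (F(γ))' = 0`.
-/

set_option autoImplicit false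

namespace Q9

open Polynomial

variable {k : Type} [Field k] {n : ℕ} (F : MvPolynomial (Fin (n + 1)) k) {κ : Type} [Field κ]
  [Algebra k κ]

private theorem B2_prod {d : ℕ} {γ : Fin (n + 1) → κ[X]} (h : ∀ i, (γ i).natDegree ≤ d)
    (s : Fin (n + 1) →₀ ℕ) (T : Finset (Fin (n + 1))) :
    (∏ i ∈ T, γ i ^ s i).natDegree ≤ (∑ i ∈ T, s i) * d ∧
      (∏ i ∈ T, γ i ^ s i).coeff ((∑ i ∈ T, s i) * d) = ∏ i ∈ T, (γ i).coeff d ^ s i := by
  classical
  induction T using Finset.induction_on with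
  | empty => simp
  | insert j T hj ih =>
    rw [Finset.prod_insert hj, Finset.sum_insert hj, Finset.prod_insert hj, add_mul]
    have h1 : (γ j ^ s j).natDegree ≤ s j * d :=
      natDegree_pow_le.trans (Nat.mul_le_mul_left _ (h j))
    refine ⟨natDegree_mul_le.trans (Nat.add_le_add h1 ih.1), ?_⟩
    rw [coeff_mul_add_eq_of_natDegree_le h1 ih.1, ih.2, coeff_pow_of_natDegree_le (h j)]

private theorem B2_sum {m : ℕ} {P : MvPolynomial (Fin (n + 1)) k} (hP : P.IsHomogeneous m)
    {s : Fin (n + 1) →₀ ℕ} (hs : s ∈ P.support) : ∑ i, s i = m := by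
  have h := hP (MvPolynomial.mem_support_iff.1 hs)
  rw [← h, Finsupp.weight_apply, Finsupp.sum_fintype _ _ (fun i => by simp)]
  simp

private theorem B2_form {d m : ℕ} {P : MvPolynomial (Fin (n + 1)) k} (hP : P.IsHomogeneous m)
    {γ : Fin (n + 1) → κ[X]} (h : ∀ i, (γ i).natDegree ≤ d) :
    (MvPolynomial.aeval γ P).natDegree ≤ m * d ∧
      (MvPolynomial.aeval γ P).coeff (m * d) = MvPolynomial.aeval (vc γ d) P := by
  rw [MvPolynomial.aeval_def, MvPolynomial.aeval_def, MvPolynomial.eval₂_eq',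
    MvPolynomial.eval₂_eq']
  constructor
  · refine natDegree_sum_le_of_forall_le _ _ fun s hs => ?_
    have h1 := (B2_prod h s Finset.univ).1
    rw [B2_sum hP hs] at h1
    refine natDegree_mul_le.trans ?_
    rw [IsScalarTower.algebraMap_apply k κ κ[X], algebraMap_eq, natDegree_C, zero_add]
    exact h1
  · rw [finsetSum_coeff]
    refine Finset.sum_congr rfl fun s hs => ?_
    have h1 := (B2_prod h s Finset.univ).2
    rw [B2_sum hP hs] at h1
    rw [IsScalarTower.algebraMap_apply k κ κ[X], algebraMap_eq, coeff_C_mul, h1]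
    rfl

private theorem B2_mem {m : ℕ} (hm : m ≠ 0) {P : MvPolynomial (Fin (n + 1)) k}
    (hP : P.IsHomogeneous m) {S : Type} [CommRing S] [Algebra k S] (γ : Fin (n + 1) → S) :
    MvPolynomial.aeval γ P ∈ Ideal.span (Set.range γ) := by
  classical
  rw [MvPolynomial.aeval_def, MvPolynomial.eval₂_eq']
  refine Ideal.sum_mem _ fun s hs => Ideal.mul_mem_left _ _ ?_
  have h1 := B2_sum hP hs
  obtain ⟨i, hi⟩ : ∃ i, s i ≠ 0 := by
    by_contra hc
    push Not at hc
    exact hm (by rw [← h1]; simp [hc])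
  rw [← Finset.mul_prod_erase Finset.univ _ (Finset.mem_univ i)]
  refine Ideal.mul_mem_right _ _ ?_
  exact Ideal.pow_mem_of_mem _ (Ideal.subset_span (Set.mem_range_self i)) _
    (Nat.pos_of_ne_zero hi)

private theorem B2_zero {m : ℕ} (hm : m ≠ 0) {P : MvPolynomial (Fin (n + 1)) k}
    (hP : P.IsHomogeneous m) : MvPolynomial.aeval (0 : Fin (n + 1) → κ) P = 0 := by
  have h := B2_mem hm hP (0 : Fin (n + 1) → κ)
  have h2 : Ideal.span (Set.range (0 : Fin (n + 1) → κ)) = ⊥ := by
    rw [Ideal.span_eq_bot]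
    rintro _ ⟨i, rfl⟩
    rfl
  rw [h2] at h
  exact h

private theorem B2_coeff_zero (γ : Fin (n + 1) → κ[X]) (P : MvPolynomial (Fin (n + 1)) k) :
    (MvPolynomial.aeval γ P).coeff 0 = MvPolynomial.aeval (vc γ 0) P := by
  induction P using MvPolynomial.induction_on with
  | C c =>
    rw [MvPolynomial.algHom_C, MvPolynomial.algHom_C, IsScalarTower.algebraMap_apply k κ κ[X],
      algebraMap_eq, coeff_C_zero]
  | add P Q hP hQ => rw [map_add, map_add, coeff_add, hP, hQ]
  | mul_X P i hP =>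
    rw [map_mul, map_mul, mul_coeff_zero, hP, MvPolynomial.aeval_X, MvPolynomial.aeval_X]
    rfl

private theorem B2_grad_add {S : Type} [CommRing S] [Algebra k S] (x a b : Fin (n + 1) → S) :
    grad F x (fun i => a i + b i) = grad F x a + grad F x b := by
  unfold grad
  rw [← Finset.sum_add_distrib]
  exact Finset.sum_congr rfl fun i _ => mul_add _ _ _

private theorem B2_grad_mul {S : Type} [CommRing S] [Algebra k S] (x a : Fin (n + 1) → S) (c : S) :
    grad F x (fun i => c * a i) = c * grad F x a := by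
  unfold grad
  rw [Finset.mul_sum]
  exact Finset.sum_congr rfl fun i _ => by ring

private theorem B2_inf {d : ℕ} (hn : 2 ≤ n) (hF : F.IsHomogeneous n) {γ : Fin (n + 1) → κ[X]}
    (h : Free F d γ) : ∃ i, MvPolynomial.aeval (vc γ d) (MvPolynomial.pderiv i F) ≠ 0 := by
  by_contra hc
  push Not at hc
  obtain ⟨hd, hOn, hf⟩ := h
  have e1 : n * d - 1 = (n - 1) * d + (d - 1) := by
    obtain ⟨m, rfl⟩ : ∃ m, n = m + 1 := ⟨n - 1, by omega⟩
    obtain ⟨e, rfl⟩ : ∃ e, d = e + 1 := ⟨d - 1, by omega⟩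
    simp only [Nat.add_sub_cancel]
    have : (m + 1) * (e + 1) = m * (e + 1) + e + 1 := by ring
    omega
  have e2 : n * d - 1 < n * d := Nat.sub_lt (Nat.mul_pos (by omega) (by omega)) one_pos
  obtain ⟨a, ha, hg⟩ := hf (X ^ (n * d - 1)) (by
    rw [degree_X_pow]
    exact_mod_cast e2)
  have h1 : (grad F γ a).coeff (n * d - 1) = 1 := by rw [hg, coeff_X_pow_self]
  unfold grad at h1
  rw [finsetSum_coeff] at h1
  have h2 : ∀ i ∈ Finset.univ, (MvPolynomial.aeval γ (MvPolynomial.pderiv i F) * a i).coeff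
      (n * d - 1) = 0 := by
    intro i _
    have h3 := B2_form (hF.pderiv (i := i)) hOn.1
    have h4 : (a i).natDegree ≤ d - 1 := by
      rw [natDegree_le_iff_coeff_eq_zero]
      intro N hN
      exact (degree_lt_iff_coeff_zero _ _).1 (ha i) N (by omega)
    rw [e1, coeff_mul_add_eq_of_natDegree_le h3.1 h4, h3.2, hc i, zero_mul]
  rw [Finset.sum_eq_zero h2] at h1
  exact zero_ne_one h1

private theorem B2_deriv (γ : Fin (n + 1) → κ[X]) (P : MvPolynomial (Fin (n + 1)) k) :
    derivative (MvPolynomial.aeval γ P) =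
      ∑ i, MvPolynomial.aeval γ (MvPolynomial.pderiv i P) * derivative (γ i) := by
  classical
  induction P using MvPolynomial.induction_on with
  | C c =>
    rw [MvPolynomial.algHom_C, IsScalarTower.algebraMap_apply k κ κ[X], algebraMap_eq,
      derivative_C]
    simp
  | add P Q hP hQ =>
    rw [map_add, derivative_add, hP, hQ, ← Finset.sum_add_distrib]
    refine Finset.sum_congr rfl fun i _ => ?_
    rw [map_add, map_add, add_mul]
  | mul_X P j hP =>
    rw [map_mul, derivative_mul, hP, MvPolynomial.aeval_X, Finset.sum_mul]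
    have h1 : ∀ i, MvPolynomial.aeval γ (MvPolynomial.pderiv i (P * MvPolynomial.X j)) *
        derivative (γ i) = MvPolynomial.aeval γ (MvPolynomial.pderiv i P) * derivative (γ i) *
          γ j + (if i = j then MvPolynomial.aeval γ P * derivative (γ j) else 0) := by
      intro i
      rw [MvPolynomial.pderiv_mul, map_add, map_mul, map_mul, MvPolynomial.aeval_X,
        MvPolynomial.pderiv_X]
      by_cases hij : i = j
      · subst hij
        simp only [Pi.single_eq_same, map_one, if_true]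
        ring
      · rw [Pi.single_eq_of_ne (Ne.symm hij), map_zero, if_neg hij]
        ring
    rw [Finset.sum_congr rfl fun i _ => h1 i, Finset.sum_add_distrib]
    simp

theorem Free.span_grad {d : ℕ} (hn : 2 ≤ n) {γ : Fin (n + 1) → κ[X]} (h : Free F d γ) :
    Ideal.span (Set.range fun i => MvPolynomial.aeval γ (MvPolynomial.pderiv i F)) = ⊤ := by
  rw [Ideal.eq_top_iff_one]
  have e2 : 0 < n * d := Nat.mul_pos (by omega) (by have := h.1; omega)
  obtain ⟨a, -, hg⟩ := h.2.2 1 (by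
    rw [degree_one]
    exact_mod_cast e2)
  rw [← hg]
  exact Ideal.sum_mem _ fun i _ => Ideal.mul_mem_right _ _ (Ideal.subset_span ⟨i, rfl⟩)

theorem Free.span {d : ℕ} (hn : 2 ≤ n) (hF : F.IsHomogeneous n) {γ : Fin (n + 1) → κ[X]}
    (h : Free F d γ) : Ideal.span (Set.range γ) = ⊤ := by
  rw [eq_top_iff, ← h.span_grad F hn, Ideal.span_le]
  rintro _ ⟨i, rfl⟩
  exact B2_mem (by omega) (hF.pderiv (i := i)) γ

theorem Free.lead {d : ℕ} (hn : 2 ≤ n) (hF : F.IsHomogeneous n) {γ : Fin (n + 1) → κ[X]}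
    (h : Free F d γ) : vc γ d ≠ 0 := by
  intro h0
  obtain ⟨i, hi⟩ := B2_inf F hn hF h
  rw [h0] at hi
  exact hi (B2_zero (by omega) (hF.pderiv (i := i)))

theorem Free.zero_ne {d : ℕ} (hn : 2 ≤ n) (hF : F.IsHomogeneous n) {γ : Fin (n + 1) → κ[X]}
    (h : Free F d γ) : vc γ 0 ≠ 0 := by
  intro h0
  have e2 : 0 < n * d := Nat.mul_pos (by omega) (by have := h.1; omega)
  obtain ⟨a, -, hg⟩ := h.2.2 1 (by
    rw [degree_one]
    exact_mod_cast e2)
  have h1 : (grad F γ a).coeff 0 = 1 := by rw [hg, coeff_one_zero]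
  unfold grad at h1
  rw [finsetSum_coeff, Finset.sum_eq_zero] at h1
  · exact zero_ne_one h1
  · intro i _
    rw [mul_coeff_zero, B2_coeff_zero, h0, B2_zero (by omega) (hF.pderiv (i := i)), zero_mul]

theorem Free.span_le {d : ℕ} (hn : 2 ≤ n) (hF : F.IsHomogeneous n) {γ : Fin (n + 1) → κ[X]}
    (h : Free F d γ) (f : κ[X]) (hf : f.natDegree ≤ n * d) :
    ∃ a : Fin (n + 1) → κ[X], (∀ i, (a i).natDegree ≤ d) ∧ grad F γ a = f := by
  classical
  obtain ⟨i, hi⟩ := B2_inf F hn hF h
  have h3 := B2_form (hF.pderiv (i := i)) h.2.1.1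
  have e1 : n * d = (n - 1) * d + d := by
    obtain ⟨m, rfl⟩ : ∃ m, n = m + 1 := ⟨n - 1, by omega⟩
    simp only [Nat.add_sub_cancel]
    ring
  obtain ⟨g, hg⟩ : ∃ g, g = MvPolynomial.aeval (vc γ d) (MvPolynomial.pderiv i F) := ⟨_, rfl⟩
  obtain ⟨G, hG⟩ : ∃ G, G = MvPolynomial.aeval γ (MvPolynomial.pderiv i F) := ⟨_, rfl⟩
  rw [← hg] at hi
  rw [← hg, ← hG] at h3
  obtain ⟨q, hq⟩ : ∃ q : κ[X], q = C (f.coeff (n * d) / g) * X ^ d := ⟨_, rfl⟩
  have hqd : q.natDegree ≤ d := by
    rw [hq]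
    exact natDegree_C_mul_X_pow_le _ _
  have hqc : q.coeff d = f.coeff (n * d) / g := by
    rw [hq, coeff_C_mul, coeff_X_pow_self, mul_one]
  have h5 : (f - G * q).degree < (n * d : ℕ) := by
    rw [degree_lt_iff_coeff_zero]
    intro N hN
    rcases hN.eq_or_lt with rfl | hlt
    · rw [coeff_sub]
      nth_rewrite 2 [e1]
      rw [coeff_mul_add_eq_of_natDegree_le h3.1 hqd, h3.2, hqc, mul_div_cancel₀ _ hi, sub_self]
    · rw [coeff_sub, coeff_eq_zero_of_natDegree_lt (lt_of_le_of_lt hf hlt),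
        coeff_eq_zero_of_natDegree_lt, sub_self]
      refine lt_of_le_of_lt (natDegree_mul_le.trans (Nat.add_le_add h3.1 hqd)) ?_
      rw [← e1]
      exact hlt
  obtain ⟨a, ha, hga⟩ := h.2.2 _ h5
  refine ⟨fun j => a j + (if j = i then q else 0), fun j => ?_, ?_⟩
  · refine natDegree_add_le_of_degree_le ?_ ?_
    · rw [natDegree_le_iff_coeff_eq_zero]
      intro N hN
      exact (degree_lt_iff_coeff_zero _ _).1 (ha j) N hN.le
    · split_ifs
      · exact hqd
      · rw [natDegree_zero]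
        exact Nat.zero_le _
  · rw [B2_grad_add F γ a (fun j => if j = i then q else 0), hga]
    have h6 : grad F γ (fun j => if j = i then q else 0) = G * q := by
      unfold grad
      simp only [mul_ite, mul_zero, Finset.sum_ite_eq', Finset.mem_univ, if_true]
      rw [hG]
    rw [h6]
    ring

theorem Free.of_cor_zero {d : ℕ} (hn : 2 ≤ n) (hd : 1 ≤ d) {γ : Fin (n + 1) → κ[X]} (h : On F d γ)
    (h0 : Cor F d γ 0) : Free F d γ := by
  refine ⟨hd, h, fun f hf => ?_⟩
  obtain ⟨θ, -, hc⟩ := h0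
  have e2 : 2 ≤ n * d := by
    calc 2 = 2 * 1 := rfl
      _ ≤ n * d := Nat.mul_le_mul hn hd
  obtain ⟨a, μ, ha, hfa⟩ := hc (divX f) (by
    rw [degree_lt_iff_coeff_zero]
    intro N hN
    rw [coeff_divX]
    exact (degree_lt_iff_coeff_zero _ _).1 hf (N + 1) (by omega))
  obtain ⟨b, ν, hb, hfb⟩ := hc (C (f.coeff 0)) (by
    rw [degree_lt_iff_coeff_zero]
    intro N hN
    rw [coeff_C, if_neg (by omega)])
  rw [Finset.univ_eq_empty, Finset.sum_empty, add_zero] at hfa hfb
  refine ⟨fun i => X * a i + b i, fun i => ?_, ?_⟩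
  · rw [degree_lt_iff_coeff_zero]
    intro N hN
    obtain ⟨M, rfl⟩ : ∃ M, N = M + 1 := ⟨N - 1, by omega⟩
    rw [coeff_add, coeff_X_mul, (degree_lt_iff_coeff_zero _ _).1 (ha i) M (by omega),
      (degree_lt_iff_coeff_zero _ _).1 (hb i) (M + 1) (by omega), add_zero]
  · rw [B2_grad_add F γ (fun i => X * a i) b, B2_grad_mul, ← hfa, ← hfb]
    have := divX_mul_X_add f
    rw [mul_comm] at this
    exact this

theorem pos_sub {d : ℕ} {γ : Fin (n + 1) → κ[X]} (v : Fin (n + 1) → κ) (hv : v ∈ Pos F d γ) :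
    grad F (vc γ 0) v = 0 := by
  obtain ⟨a, -, ha, hav⟩ := hv
  have h1 : (grad F γ a).coeff 0 = 0 := by rw [ha, coeff_zero]
  unfold grad at h1 ⊢
  rw [finsetSum_coeff] at h1
  rw [← h1]
  refine Finset.sum_congr rfl fun i _ => ?_
  rw [mul_coeff_zero, B2_coeff_zero, hav i]

theorem pos_deriv {d : ℕ} (hd : 1 ≤ d) {γ : Fin (n + 1) → κ[X]} (h : On F d γ) :
    vc γ 1 ∈ Pos F d γ := by
  have _ := hd
  refine ⟨fun i => derivative (γ i), fun i => ?_, ?_, fun i => ?_⟩
  · rw [degree_lt_iff_coeff_zero]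
    intro N hN
    rw [coeff_derivative, coeff_eq_zero_of_natDegree_lt (lt_of_le_of_lt (h.1 i) (by omega)),
      zero_mul]
  · unfold grad
    rw [← B2_deriv, h.2, derivative_zero]
  · rw [coeff_derivative]
    simp [vc]

end Q9
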