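import Pool.Agent.LibQ9.BDefs

/-!
[Q9 B3] (MEDIUM) Free curves under change of the field, scaling, translation and reversal of the parameter.

PLAN. `F` has coefficients in `k`, `aeval (mp σ γ) G = (aeval γ G).map σ` for a `k`-algebra map `σ`. Surjectivity onto `{deg < nd}` over `κ'` follows from the monomials `X^j`, which are images over `κ`
(take `κ'`-linear combinations). For `Cor` the same with the elements `θ_j` mapped. `pos_map`: only the inclusion. Scaling: `grad F (c γ) a = c^(n-1) grad F γ a` (`hF`). Translation: compose everything with `X + C c` (degrees do not change,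
`Polynomial.natDegree_comp`, `degree_comp`; inverse translation `X - C c`). Reversal: `F(γ^*)(t) = t^(nd) F(γ)(1/t)`, `∇F(γ^*)·a^* = (∇F(γ)·a)^*` with `a^* = reflect (d-1) a`, `f^* = reflect (nd-1) f` (forms of degree `n - 1`;
`Polynomial.reflect_mul`, `natDegree` bounds), for `Cor` with `reflect (d-2)`, `reflect (nd-2)`. Use that `reflect N` is an involution on degree `≤ N`.
-/

set_option autoImplicit false

namespace Q9

open Polynomial

variable {k : Type} [Field k] {n : ℕ} (F : MvPolynomial (Fin (n + 1)) k) {κ : Type} [Field κ]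
  [Algebra k κ]

/-! ### auxiliary lemmas -/

private theorem B3_grad_add {m : ℕ} {G : MvPolynomial (Fin m) k} {S : Type} [CommRing S]
    [Algebra k S] (x a b : Fin m → S) :
    grad G x (fun i => a i + b i) = grad G x a + grad G x b := by
  unfold grad
  simp only [mul_add, Finset.sum_add_distrib]

private theorem B3_grad_mul {m : ℕ} {G : MvPolynomial (Fin m) k} {S : Type} [CommRing S]
    [Algebra k S] (x a : Fin m → S) (c : S) :
    grad G x (fun i => c * a i) = c * grad G x a := by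
  unfold grad
  rw [Finset.mul_sum]
  exact Finset.sum_congr rfl fun i _ => by ring

private theorem B3_grad_hom {m : ℕ} {G : MvPolynomial (Fin m) k} {S S' : Type} [CommRing S]
    [Algebra k S] [CommRing S'] [Algebra k S'] (τ : S →ₐ[k] S') (x a : Fin m → S) :
    grad G (fun i => τ (x i)) (fun i => τ (a i)) = τ (grad G x a) := by
  unfold grad
  rw [map_sum]
  refine Finset.sum_congr rfl fun i _ => ?_
  rw [map_mul, MvPolynomial.comp_aeval_apply]

/-- the map is onto the polynomials of degree less than `N`, up to the combinations of the `θ j` -/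
private def B3_Sur (γ : Fin (n + 1) → κ[X]) (e N : ℕ) {c : ℕ} (θ : Fin c → κ[X]) : Prop :=
  ∀ f : κ[X], f.degree < (N : ℕ) → ∃ (a : Fin (n + 1) → κ[X]) (μ : Fin c → κ),
    (∀ i, (a i).degree < (e : ℕ)) ∧ f = grad F γ a + ∑ j, C (μ j) * θ j

private theorem B3_free_iff {d : ℕ} {γ : Fin (n + 1) → κ[X]} : Free F d γ ↔
    1 ≤ d ∧ On F d γ ∧ B3_Sur F γ d (n * d) (fun _ : Fin 0 => (0 : κ[X])) := by
  unfold Free B3_Sur
  refine and_congr_right fun _ => and_congr_right fun _ => forall_congr' fun f =>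
    forall_congr' fun _ => ⟨?_, ?_⟩
  · rintro ⟨a, ha, h⟩
    exact ⟨a, fun _ => 0, ha, by simp [h]⟩
  · rintro ⟨a, μ, ha, h⟩
    exact ⟨a, ha, by simpa using h.symm⟩

private theorem B3_sur_map {κ' : Type} [Field κ'] [Algebra k κ'] (σ : κ →ₐ[k] κ')
    {γ : Fin (n + 1) → κ[X]} {e N c : ℕ} {θ : Fin c → κ[X]} (h : B3_Sur F γ e N θ) :
    B3_Sur F (mp (σ : κ →+* κ') γ) e N (fun j => (θ j).map (σ : κ →+* κ')) := by
  classical
  let I : Submodule κ' κ'[X] :=
    { carrier := {f | ∃ (a : Fin (n + 1) → κ'[X]) (μ : Fin c → κ'),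
        (∀ i, (a i).degree < (e : ℕ)) ∧
        f = grad F (mp (σ : κ →+* κ') γ) a + ∑ j, C (μ j) * (θ j).map (σ : κ →+* κ')}
      add_mem' := by
        rintro f g ⟨a, μ, ha, rfl⟩ ⟨b, ν, hb, rfl⟩
        refine ⟨fun i => a i + b i, fun j => μ j + ν j,
          fun i => lt_of_le_of_lt (degree_add_le _ _) (max_lt (ha i) (hb i)), ?_⟩
        rw [B3_grad_add]
        simp only [C_add, add_mul, Finset.sum_add_distrib]
        ring
      zero_mem' := by
        refine ⟨fun _ => 0, fun _ => 0, fun i => ?_, ?_⟩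
        · rw [degree_zero]
          exact WithBot.bot_lt_coe _
        · simp [grad]
      smul_mem' := by
        rintro r f ⟨a, μ, ha, rfl⟩
        refine ⟨fun i => C r * a i, fun j => r * μ j, fun i => ?_, ?_⟩
        · change (C r * a i).degree < _
          rw [← smul_eq_C_mul]
          exact lt_of_le_of_lt (degree_smul_le _ _) (ha i)
        · rw [B3_grad_mul, smul_eq_C_mul, mul_add, Finset.mul_sum]
          congr 1
          refine Finset.sum_congr rfl fun j _ => ?_
          rw [C_mul, mul_assoc] }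
  have hI : degreeLT κ' N ≤ I := by
    rw [degreeLT_eq_span_X_pow, Submodule.span_le]
    intro f hf
    simp only [Finset.coe_image, Finset.coe_range, Set.mem_image, Set.mem_Iio] at hf
    obtain ⟨j, hj, rfl⟩ := hf
    obtain ⟨a, μ, ha, hX⟩ := h (X ^ j) (by rw [degree_X_pow]; exact_mod_cast hj)
    refine ⟨fun i => (a i).map (σ : κ →+* κ'), fun j => σ (μ j),
      fun i => lt_of_le_of_lt degree_map_le (ha i), ?_⟩
    have h1 := congrArg (mapAlgHom σ) hX
    have h2 := B3_grad_hom (G := F) (mapAlgHom σ) γ a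
    rw [map_add, ← h2, map_sum] at h1
    simp only [coe_mapAlgHom] at h1
    simp only [Polynomial.map_pow, Polynomial.map_X, Polynomial.map_mul, Polynomial.map_C] at h1
    exact h1
  intro f hf
  exact hI (mem_degreeLT.2 hf)

private theorem B3_on_map {κ' : Type} [Field κ'] [Algebra k κ'] (σ : κ →ₐ[k] κ') {d : ℕ}
    {γ : Fin (n + 1) → κ[X]} (h : On F d γ) : On F d (mp (σ : κ →+* κ') γ) := by
  refine ⟨fun i => natDegree_map_le.trans (h.1 i), ?_⟩
  have h1 := MvPolynomial.comp_aeval_apply (f := γ) (mapAlgHom σ) F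
  rw [h.2, map_zero] at h1
  exact h1.symm

private theorem B3_aeval_sum {m : ℕ} {G : MvPolynomial (Fin m) k} {S : Type} [CommRing S]
    [Algebra k S] (x : Fin m → S) : MvPolynomial.aeval x G =
      ∑ s ∈ G.support, algebraMap k S (G.coeff s) * ∏ i, x i ^ s i := by
  rw [MvPolynomial.aeval_def, MvPolynomial.eval₂_eq']

private theorem B3_hom_sum {m N : ℕ} {G : MvPolynomial (Fin m) k} (hG : G.IsHomogeneous N)
    {s : Fin m →₀ ℕ} (hs : s ∈ G.support) : ∑ i, s i = N := by
  have h := hG (MvPolynomial.mem_support_iff.1 hs)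
  have h2 := DFunLike.congr_fun (Finsupp.degree_eq_weight_one (R := ℕ) (σ := Fin m)) s
  rw [Finsupp.degree_eq_sum] at h2
  exact h2.trans h

private theorem B3_aeval_sc {m N : ℕ} {G : MvPolynomial (Fin m) k} (hG : G.IsHomogeneous N)
    {S : Type} [CommRing S] [Algebra k S] (x : Fin m → S) (c : S) :
    MvPolynomial.aeval (fun i => c * x i) G = c ^ N * MvPolynomial.aeval x G := by
  rw [B3_aeval_sum, B3_aeval_sum, Finset.mul_sum]
  refine Finset.sum_congr rfl fun s hs => ?_
  have h1 : ∏ i, (c * x i) ^ s i = c ^ N * ∏ i, x i ^ s i := by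
    simp only [mul_pow, Finset.prod_mul_distrib]
    rw [Finset.prod_pow_eq_pow_sum, B3_hom_sum hG hs]
  rw [h1]
  ring

private theorem B3_grad_sc (hF : F.IsHomogeneous n) (γ a : Fin (n + 1) → κ[X]) (c : κ) :
    grad F (sc c γ) a = C (c ^ (n - 1)) * grad F γ a := by
  unfold grad
  rw [Finset.mul_sum]
  refine Finset.sum_congr rfl fun i _ => ?_
  unfold sc
  rw [B3_aeval_sc hF.pderiv, C_pow]
  ring

private theorem B3_on_sc (hF : F.IsHomogeneous n) {d : ℕ} {γ : Fin (n + 1) → κ[X]}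
    (h : On F d γ) (c : κ) : On F d (Q9.sc c γ) := by
  refine ⟨fun i => (natDegree_C_mul_le _ _).trans (h.1 i), ?_⟩
  unfold Q9.sc
  rw [B3_aeval_sc hF, h.2, mul_zero]

private theorem B3_sur_sc (hF : F.IsHomogeneous n) {γ : Fin (n + 1) → κ[X]} {e N s : ℕ}
    {θ : Fin s → κ[X]} (h : B3_Sur F γ e N θ) (c : κ) (hc : c ≠ 0) :
    B3_Sur F (Q9.sc c γ) e N θ := by
  intro f hf
  obtain ⟨a, μ, ha, rfl⟩ := h f hf
  refine ⟨fun i => C (c ^ (n - 1))⁻¹ * a i, μ, fun i => ?_, ?_⟩
  · change (C (c ^ (n - 1))⁻¹ * a i).degree < _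
    rw [← smul_eq_C_mul]
    exact lt_of_le_of_lt (degree_smul_le _ _) (ha i)
  · rw [B3_grad_mul, B3_grad_sc F hF, ← mul_assoc, ← C_mul, inv_mul_cancel₀ (pow_ne_zero _ hc),
      C_1, one_mul]

/-- translation, as a map of algebras -/
private noncomputable def B3_th (k : Type) [Field k] {κ : Type} [Field κ] [Algebra k κ] (c : κ) :
    κ[X] →ₐ[k] κ[X] :=
  (Polynomial.aeval (R := κ) (X + C c : κ[X])).restrictScalars k

private theorem B3_th_apply (c : κ) (f : κ[X]) : B3_th k c f = f.comp (X + C c) := rfl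

private theorem B3_th_inv (c : κ) (f : κ[X]) : (f.comp (X + C (-c))).comp (X + C c) = f := by
  rw [comp_assoc]
  simp

private theorem B3_deg_comp {e : ℕ} (c : κ) {f : κ[X]} (hf : f.degree < (e : ℕ)) :
    (f.comp (X + C c)).degree < (e : ℕ) := by
  by_cases h0 : f = 0
  · subst h0
    simpa using hf
  · have h1 : f.comp (X + C c) ≠ 0 := by
      intro h
      apply h0
      have h2 := B3_th_inv (-c) f
      rw [neg_neg, h, zero_comp] at h2
      exact h2.symm
    rw [degree_eq_natDegree h1, natDegree_comp, natDegree_X_add_C, mul_one,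
      ← degree_eq_natDegree h0]
    exact hf

private theorem B3_sur_tr {γ : Fin (n + 1) → κ[X]} {e N s : ℕ} {θ : Fin s → κ[X]}
    (h : B3_Sur F γ e N θ) (c : κ) :
    B3_Sur F (Q9.tr c γ) e N (fun j => (θ j).comp (X + C c)) := by
  intro f hf
  obtain ⟨a, μ, ha, hX⟩ := h (f.comp (X + C (-c))) (B3_deg_comp _ hf)
  refine ⟨fun i => (a i).comp (X + C c), μ, fun i => B3_deg_comp _ (ha i), ?_⟩
  have h1 := congrArg (B3_th k c) hX
  have h2 := B3_grad_hom (G := F) (B3_th k c) γ a
  rw [map_add, ← h2, map_sum] at h1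
  simp only [B3_th_apply] at h1
  simp only [mul_comp, C_comp] at h1
  rw [B3_th_inv] at h1
  exact h1

private theorem B3_on_tr {d : ℕ} {γ : Fin (n + 1) → κ[X]} (h : On F d γ) (c : κ) :
    On F d (Q9.tr c γ) := by
  refine ⟨fun i => ?_, ?_⟩
  · unfold Q9.tr
    rw [natDegree_comp, natDegree_X_add_C, mul_one]
    exact h.1 i
  · have h1 := MvPolynomial.comp_aeval_apply (f := γ) (B3_th k c) F
    rw [h.2, map_zero] at h1
    exact h1.symm

private theorem B3_natDegree_pow {f : κ[X]} {d : ℕ} (hf : f.natDegree ≤ d) (m : ℕ) :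
    (f ^ m).natDegree ≤ m * d :=
  natDegree_pow_le.trans (Nat.mul_le_mul_left m hf)

private theorem B3_reflect_pow {f : κ[X]} {d : ℕ} (hf : f.natDegree ≤ d) (m : ℕ) :
    (f ^ m).reflect (m * d) = f.reflect d ^ m := by
  induction m with
  | zero =>
    rw [Nat.zero_mul, pow_zero, pow_zero]
    have h := reflect_C (1 : κ) 0
    simpa using h
  | succ m ih =>
    rw [Nat.succ_mul, pow_succ, reflect_mul _ _ (B3_natDegree_pow hf m) hf, ih, pow_succ]

private theorem B3_prod {m : ℕ} {x : Fin m → κ[X]} {d : ℕ} (hx : ∀ i, (x i).natDegree ≤ d)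
    (s : Fin m →₀ ℕ) (A : Finset (Fin m)) :
    (∏ i ∈ A, x i ^ s i).natDegree ≤ (∑ i ∈ A, s i) * d ∧
      (∏ i ∈ A, x i ^ s i).reflect ((∑ i ∈ A, s i) * d) = ∏ i ∈ A, (x i).reflect d ^ s i := by
  classical
  induction A using Finset.induction_on with
  | empty =>
    constructor
    · simp
    · rw [Finset.sum_empty, Nat.zero_mul, Finset.prod_empty, Finset.prod_empty]
      have h := reflect_C (1 : κ) 0
      simpa using h
  | insert i A hi ih =>
    rw [Finset.prod_insert hi, Finset.sum_insert hi, Finset.prod_insert hi, Nat.add_mul]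
    constructor
    · exact natDegree_mul_le.trans (Nat.add_le_add (B3_natDegree_pow (hx i) _) ih.1)
    · rw [reflect_mul _ _ (B3_natDegree_pow (hx i) _) ih.1, B3_reflect_pow (hx i), ih.2]

private theorem B3_algebraMap (c : k) : algebraMap k κ[X] c = C (algebraMap k κ c) := rfl

private theorem B3_reflect_sum {ι : Type} (A : Finset ι) (f : ι → κ[X]) (N : ℕ) :
    (∑ i ∈ A, f i).reflect N = ∑ i ∈ A, (f i).reflect N := by
  classical
  induction A using Finset.induction_on with
  | empty => rw [Finset.sum_empty, Finset.sum_empty, reflect_zero]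
  | insert i A hi ih => rw [Finset.sum_insert hi, Finset.sum_insert hi, reflect_add, ih]

private theorem B3_reflect_aeval {m N d : ℕ} {G : MvPolynomial (Fin m) k}
    (hG : G.IsHomogeneous N) {x : Fin m → κ[X]} (hx : ∀ i, (x i).natDegree ≤ d) :
    (MvPolynomial.aeval x G).natDegree ≤ N * d ∧ (MvPolynomial.aeval x G).reflect (N * d) =
      MvPolynomial.aeval (fun i => (x i).reflect d) G := by
  rw [B3_aeval_sum, B3_aeval_sum]
  constructor
  · refine natDegree_sum_le_of_forall_le _ _ fun s hs => ?_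
    rw [B3_algebraMap]
    refine (natDegree_C_mul_le _ _).trans ?_
    have h := (B3_prod hx s Finset.univ).1
    rwa [B3_hom_sum hG hs] at h
  · rw [B3_reflect_sum]
    refine Finset.sum_congr rfl fun s hs => ?_
    have h := (B3_prod hx s Finset.univ).2
    rw [B3_hom_sum hG hs] at h
    rw [B3_algebraMap, reflect_C_mul, h]

private theorem B3_grad_rv (hF : F.IsHomogeneous n) {d e : ℕ} {γ a : Fin (n + 1) → κ[X]}
    (hγ : ∀ i, (γ i).natDegree ≤ d) (ha : ∀ i, (a i).natDegree ≤ e) :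
    (grad F γ a).reflect ((n - 1) * d + e) = grad F (Q9.rv d γ) (fun i => (a i).reflect e) := by
  unfold grad
  rw [B3_reflect_sum]
  refine Finset.sum_congr rfl fun i _ => ?_
  have h := B3_reflect_aeval (hF.pderiv (i := i)) hγ
  rw [reflect_mul _ _ h.1 (ha i), h.2]
  rfl

private theorem B3_natDegree_le {e : ℕ} {f : κ[X]} (h : f.degree < (e + 1 : ℕ)) :
    f.natDegree ≤ e := by
  rw [natDegree_le_iff_coeff_eq_zero]
  intro N hN
  exact (degree_lt_iff_coeff_zero f (e + 1)).1 h N hN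

private theorem B3_deg_reflect {e : ℕ} {f : κ[X]} (h : f.degree < (e + 1 : ℕ)) :
    (f.reflect e).degree < (e + 1 : ℕ) := by
  rw [degree_lt_iff_coeff_zero] at h ⊢
  intro N hN
  rw [coeff_reflect, revAt_eq_self_of_lt hN]
  exact h N hN

private theorem B3_natDegree_reflect {e : ℕ} {f : κ[X]} (h : f.natDegree ≤ e) :
    (f.reflect e).natDegree ≤ e := by
  apply B3_natDegree_le
  apply B3_deg_reflect
  exact lt_of_le_of_lt degree_le_natDegree (by exact_mod_cast Nat.lt_succ_of_le h)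

private theorem B3_on_rv (hF : F.IsHomogeneous n) {d : ℕ} {γ : Fin (n + 1) → κ[X]}
    (h : On F d γ) : On F d (Q9.rv d γ) := by
  refine ⟨fun i => B3_natDegree_reflect (h.1 i), ?_⟩
  have h1 := (B3_reflect_aeval hF h.1).2
  rw [h.2, reflect_zero] at h1
  exact h1.symm

private theorem B3_sur_rv (hF : F.IsHomogeneous n) {γ : Fin (n + 1) → κ[X]} {d e N s : ℕ}
    {θ : Fin s → κ[X]} (hγ : ∀ i, (γ i).natDegree ≤ d) (hN : N = (n - 1) * d + e)
    (h : B3_Sur F γ (e + 1) (N + 1) θ) :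
    B3_Sur F (Q9.rv d γ) (e + 1) (N + 1) (fun j => (θ j).reflect N) := by
  intro f hf
  obtain ⟨a, μ, ha, hX⟩ := h (f.reflect N) (B3_deg_reflect hf)
  refine ⟨fun i => (a i).reflect e, μ, fun i => B3_deg_reflect (ha i), ?_⟩
  have h1 := congrArg (reflect N) hX
  rw [reflect_reflect, reflect_add, B3_reflect_sum] at h1
  simp only [reflect_C_mul] at h1
  rw [h1, ← B3_grad_rv F hF hγ (fun i => B3_natDegree_le (ha i)), ← hN]

/-! ### the statements -/

theorem Free.map {κ' : Type} [Field κ'] [Algebra k κ'] (σ : κ →ₐ[k] κ') {d : ℕ}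
    {γ : Fin (n + 1) → κ[X]} (h : Free F d γ) : Free F d (mp (σ : κ →+* κ') γ) := by
  rw [B3_free_iff] at h ⊢
  refine ⟨h.1, B3_on_map F σ h.2.1, ?_⟩
  have h1 := B3_sur_map F σ h.2.2
  have h2 : (fun j : Fin 0 => (0 : κ[X]).map (σ : κ →+* κ')) = fun _ => (0 : κ'[X]) := by
    funext j
    exact j.elim0
  rwa [h2] at h1

theorem Cor.map {κ' : Type} [Field κ'] [Algebra k κ'] (σ : κ →ₐ[k] κ') {d c : ℕ}
    {γ : Fin (n + 1) → κ[X]} (h : Cor F d γ c) : Cor F d (mp (σ : κ →+* κ') γ) c := by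
  obtain ⟨θ, hθ, h⟩ := h
  exact ⟨fun j => (θ j).map (σ : κ →+* κ'), fun j => lt_of_le_of_lt degree_map_le (hθ j),
    B3_sur_map F σ h⟩

theorem pos_map {κ' : Type} [Field κ'] [Algebra k κ'] (σ : κ →ₐ[k] κ') {d : ℕ}
    {γ : Fin (n + 1) → κ[X]} (v : Fin (n + 1) → κ) (hv : v ∈ Pos F d γ) :
    (fun i => σ (v i)) ∈ Pos F d (mp (σ : κ →+* κ') γ) := by
  obtain ⟨a, ha, h0, hv⟩ := hv
  refine ⟨fun i => (a i).map (σ : κ →+* κ'), fun i => lt_of_le_of_lt degree_map_le (ha i), ?_,
    fun i => ?_⟩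
  · have h2 := B3_grad_hom (G := F) (mapAlgHom σ) γ a
    rw [h0, map_zero] at h2
    exact h2
  · rw [coeff_map, hv i]
    rfl

theorem Free.sc (hF : F.IsHomogeneous n) {d : ℕ} {γ : Fin (n + 1) → κ[X]} (h : Free F d γ) (c : κ)
    (hc : c ≠ 0) : Free F d (sc c γ) := by
  rw [B3_free_iff] at h ⊢
  exact ⟨h.1, B3_on_sc F hF h.2.1 c, B3_sur_sc F hF h.2.2 c hc⟩

theorem Cor.sc (hF : F.IsHomogeneous n) {d s : ℕ} {γ : Fin (n + 1) → κ[X]} (h : Cor F d γ s) (c : κ)
    (hc : c ≠ 0) : Cor F d (Q9.sc c γ) s := by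
  obtain ⟨θ, hθ, h⟩ := h
  exact ⟨θ, hθ, B3_sur_sc F hF h c hc⟩

theorem pos_sc (hF : F.IsHomogeneous n) {d : ℕ} {γ : Fin (n + 1) → κ[X]} (c : κ) (hc : c ≠ 0) :
    Pos F d (sc c γ) = Pos F d γ := by
  ext v
  constructor
  · rintro ⟨a, ha, h0, hv⟩
    refine ⟨a, ha, ?_, hv⟩
    rw [B3_grad_sc F hF] at h0
    rcases mul_eq_zero.1 h0 with h | h
    · exact absurd (C_eq_zero.1 h) (pow_ne_zero _ hc)
    · exact h
  · rintro ⟨a, ha, h0, hv⟩
    refine ⟨a, ha, ?_, hv⟩
    rw [B3_grad_sc F hF, h0, mul_zero]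

theorem Free.tr {d : ℕ} {γ : Fin (n + 1) → κ[X]} (h : Free F d γ) (c : κ) :
    Free F d (tr c γ) := by
  rw [B3_free_iff] at h ⊢
  refine ⟨h.1, B3_on_tr F h.2.1 c, ?_⟩
  have h1 := B3_sur_tr F h.2.2 c
  have h2 : (fun j : Fin 0 => (0 : κ[X]).comp (X + C c)) = fun _ => (0 : κ[X]) := by
    funext j
    exact j.elim0
  rwa [h2] at h1

theorem Cor.tr {d s : ℕ} {γ : Fin (n + 1) → κ[X]} (h : Cor F d γ s) (c : κ) :
    Cor F d (Q9.tr c γ) s := by
  obtain ⟨θ, hθ, h⟩ := h
  exact ⟨fun j => (θ j).comp (X + C c), fun j => B3_deg_comp c (hθ j), B3_sur_tr F h c⟩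

theorem Free.rv (hn : 2 ≤ n) (hF : F.IsHomogeneous n) {d : ℕ} {γ : Fin (n + 1) → κ[X]}
    (h : Free F d γ) : Free F d (rv d γ) := by
  rw [B3_free_iff] at h ⊢
  refine ⟨h.1, B3_on_rv F hF h.2.1, ?_⟩
  obtain ⟨e, rfl⟩ : ∃ e, d = e + 1 := ⟨d - 1, by have := h.1; omega⟩
  obtain ⟨m, rfl⟩ : ∃ m, n = m + 1 := ⟨n - 1, by omega⟩
  have hN : (m + 1) * (e + 1) = (m * (e + 1) + e) + 1 := by ring
  have h3 := h.2.2
  rw [hN] at h3 ⊢
  have h1 := B3_sur_rv F hF h.2.1.1 (N := m * (e + 1) + e) (e := e) rfl h3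
  have h2 : (fun j : Fin 0 => (0 : κ[X]).reflect (m * (e + 1) + e)) = fun _ => (0 : κ[X]) := by
    funext j
    exact j.elim0
  rwa [h2] at h1

theorem Cor.rv (hn : 2 ≤ n) (hF : F.IsHomogeneous n) {d s : ℕ} (hd : 1 ≤ d)
    {γ : Fin (n + 1) → κ[X]} (ho : On F d γ) (h : Cor F d γ s) : Cor F d (Q9.rv d γ) s := by
  obtain ⟨θ, hθ, h⟩ := h
  obtain ⟨m, rfl⟩ : ∃ m, n = m + 2 := ⟨n - 2, by omega⟩
  rcases Nat.lt_or_ge d 2 with hd2 | hd2
  · obtain rfl : d = 1 := by omega
    -- all vectors of polynomials of degree less than `0` are zero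
    refine ⟨fun j => (θ j).reflect m, fun j => ?_, ?_⟩
    · have h1 : (θ j).degree < (m + 1 : ℕ) := by
        have h2 := hθ j
        rwa [show (m + 2) * 1 - 1 = m + 1 by omega] at h2
      have h3 := B3_deg_reflect h1
      rwa [show (m + 2) * 1 - 1 = m + 1 by omega]
    · intro f hf
      have hf' : f.degree < (m + 1 : ℕ) := by
        rwa [show (m + 2) * 1 - 1 = m + 1 by omega] at hf
      have h3 : (f.reflect m).degree < ((m + 2) * 1 - 1 : ℕ) := by
        rw [show (m + 2) * 1 - 1 = m + 1 by omega]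
        exact B3_deg_reflect hf'
      obtain ⟨a, μ, ha, hX⟩ := h (f.reflect m) h3
      have ha0 : ∀ i, a i = 0 := by
        intro i
        have := ha i
        rw [show 1 - 1 = 0 from rfl] at this
        ext N
        exact (degree_lt_iff_coeff_zero (a i) 0).1 this N (Nat.zero_le _)
      refine ⟨fun _ => 0, μ, fun i => ?_, ?_⟩
      · have := ha i
        rwa [ha0 i] at this
      · have h4 : grad F γ a = 0 := by
          unfold grad
          simp [ha0]
        have h5 : grad F (Q9.rv 1 γ) (fun _ => (0 : κ[X])) = 0 := by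
          unfold grad
          simp
        rw [h4, zero_add] at hX
        have h6 := congrArg (reflect m) hX
        rw [reflect_reflect, B3_reflect_sum] at h6
        simp only [reflect_C_mul] at h6
        rw [h5, zero_add]
        exact h6
  · obtain ⟨e, rfl⟩ : ∃ e, d = e + 2 := ⟨d - 2, by omega⟩
    have hN : (m + 2) * (e + 2) - 1 = ((m + 1) * (e + 2) + e) + 1 := by
      have : (m + 2) * (e + 2) = ((m + 1) * (e + 2) + e) + 2 := by ring
      omega
    have hE : e + 2 - 1 = e + 1 := rfl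
    have h3 : B3_Sur F γ (e + 1) ((m + 1) * (e + 2) + e + 1) θ := by
      have h4 : B3_Sur F γ (e + 2 - 1) ((m + 2) * (e + 2) - 1) θ := h
      rwa [hN, hE] at h4
    have h1 := B3_sur_rv F hF ho.1 (N := (m + 1) * (e + 2) + e) (e := e) rfl h3
    refine ⟨fun j => (θ j).reflect ((m + 1) * (e + 2) + e), fun j => ?_, ?_⟩
    · rw [hN]
      apply B3_deg_reflect
      have h5 := hθ j
      rwa [hN] at h5
    · have h4 : B3_Sur F (Q9.rv (e + 2) γ) (e + 2 - 1) ((m + 2) * (e + 2) - 1)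
          (fun j => (θ j).reflect ((m + 1) * (e + 2) + e)) := by
        rw [hN, hE]
        exact h1
      exact h4

end Q9
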