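import Pool.Agent.LibQ9.PDefs

/-!
[Q9 P5] (SHORT) A derivation applied to a polynomial relation; `semicontinuity` of ranks.

PLAN. `der_rel`: in `L = fld k z` the relation `aeval (fz z) Ψ = 0` holds (injectivity of `L → Ω`); the Leibniz rule for `aeval` (`MvPolynomial` induction, or `Derivation` extensionality
`MvPolynomial.mkDerivation`): `D (aeval (fz z) Ψ) = Σ aeval z (pderiv i Ψ) * D (fz z i)`. `surj_of_spz`: the reduced matrix has a maximal minor (`card α` columns) with nonzero determinant
(surjective: rank = `card α`; `Matrix` rank lemmas); the determinant of the same submatrix of `M` is a polynomial not vanishing at `z₀`, so not vanishing at `z` by `Spz`, so the matrix at `z` is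
surjective. `inj_of_spz`: the same with rows.
-/

set_option autoImplicit false

namespace Q9

open MvPolynomial

private theorem P5_leib {k : Type} [Field k] {I Ω : Type} [Fintype I] [Field Ω] [Algebra k Ω]
    (z : I → Ω) (D : Derivation k (fld k z) Ω) (Ψ : MvPolynomial I k) :
    D (aeval (fz k z) Ψ) = ∑ i, aeval z (pderiv i Ψ) * D (fz k z i) := by
  classical
  have hval : ∀ P : MvPolynomial I k, ((aeval (fz k z) P : fld k z) : Ω) = aeval z P := by
    intro P
    have h1 := MvPolynomial.comp_aeval_apply (f := fz k z) (φ := (fld k z).val) P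
    exact h1
  induction Ψ using MvPolynomial.induction_on with
  | C a =>
    rw [aeval_C, Derivation.map_algebraMap]
    symm
    apply Finset.sum_eq_zero
    intro i _
    rw [pderiv_C, map_zero, zero_mul]
  | add p q hp hq =>
    rw [map_add, map_add, hp, hq, ← Finset.sum_add_distrib]
    apply Finset.sum_congr rfl
    intro i _
    rw [map_add, map_add, add_mul]
  | mul_X p j hp =>
    rw [map_mul, aeval_X, Derivation.leibniz, hp]
    have h2 : ∀ i, aeval z (pderiv i (p * X j)) * D (fz k z i) =
        (if i = j then aeval z p * D (fz k z i) else 0) +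
          z j * (aeval z (pderiv i p) * D (fz k z i)) := by
      intro i
      rw [Derivation.leibniz, pderiv_X, map_add, smul_eq_mul, smul_eq_mul, map_mul, map_mul,
        aeval_X]
      by_cases hij : i = j
      · subst hij
        rw [if_pos rfl, Pi.single_eq_same, map_one]
        ring
      · rw [if_neg hij, Pi.single_eq_of_ne (Ne.symm hij), map_zero]
        ring
    rw [Finset.sum_congr rfl fun i _ => h2 i, Finset.sum_add_distrib, Finset.sum_ite_eq']
    rw [if_pos (Finset.mem_univ j), ← Finset.mul_sum]
    have h3 : ∀ (a : fld k z) (b : Ω), a • b = (a : Ω) * b := fun a b => rfl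
    rw [h3, h3, hval]
    rfl

private theorem P5_det {k : Type} [Field k] {I Ω : Type} [Field Ω] [Algebra k Ω] (z : I → Ω)
    (z₀ : I → k) (hz : Spz z z₀) {α : Type} [Fintype α] [DecidableEq α]
    (P : Matrix α α (MvPolynomial I k)) (h : P.map (eval z₀) = 1) :
    (P.map (aeval z)).det ≠ 0 := by
  intro h0
  have h1 : aeval z P.det = 0 := by
    have h2 : (aeval z : MvPolynomial I k →ₐ[k] Ω) P.det = (P.map (aeval z)).det :=
      RingHom.map_det (aeval z : MvPolynomial I k →ₐ[k] Ω).toRingHom P
    rw [h2, h0]
  have h3 := hz _ h1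
  rw [RingHom.map_det] at h3
  have h4 : ((eval z₀).mapMatrix P) = 1 := h
  rw [h4, Matrix.det_one] at h3
  exact one_ne_zero h3

theorem der_rel {k : Type} [Field k] {I Ω : Type} [Fintype I] [Field Ω] [Algebra k Ω] (z : I → Ω)
    (D : Derivation k (fld k z) Ω) (Ψ : MvPolynomial I k) (h : aeval z Ψ = 0) :
    ∑ i, aeval z (pderiv i Ψ) * D (fz k z i) = 0 := by
  rw [← P5_leib]
  have h1 : ((aeval (fz k z) Ψ : fld k z) : Ω) = aeval z Ψ :=
    MvPolynomial.comp_aeval_apply (f := fz k z) (φ := (fld k z).val) Ψ
  have h2 : (aeval (fz k z) Ψ : fld k z) = 0 := by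
    apply Subtype.ext
    rw [h1, h]
    rfl
  rw [h2, map_zero]

theorem surj_of_spz {k : Type} [Field k] {I Ω : Type} [Field Ω] [Algebra k Ω] (z : I → Ω)
    (z₀ : I → k) (hz : Spz z z₀) {α β : Type} [Fintype α] [Fintype β]
    (M : Matrix α β (MvPolynomial I k)) (h : Function.Surjective (M.map (eval z₀)).mulVec) :
    Function.Surjective (M.map (aeval z)).mulVec := by
  classical
  obtain ⟨N, hN⟩ := Matrix.mulVec_surjective_iff_exists_right_inverse.1 h
  let P : Matrix α α (MvPolynomial I k) := M * N.map C
  have h1 : P.map (eval z₀) = 1 := by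
    have h2 : P.map (eval z₀) = M.map (eval z₀) * (N.map C).map (eval z₀) :=
      Matrix.map_mul
    have h3 : (N.map C).map (eval z₀) = N := by
      ext a b
      simp
    rw [h2, h3]
    exact hN
  have h4 := P5_det z z₀ hz P h1
  have h5 : P.map (aeval z) = M.map (aeval z) * (N.map C).map (aeval z) :=
    Matrix.map_mul
  rw [h5] at h4
  have h6 : IsUnit (M.map (aeval z) * (N.map C).map (aeval z)) :=
    (Matrix.isUnit_iff_isUnit_det _).2 (isUnit_iff_ne_zero.2 h4)
  obtain ⟨B, hB⟩ := h6.exists_right_inv
  rw [Matrix.mulVec_surjective_iff_exists_right_inverse]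
  exact ⟨(N.map C).map (aeval z) * B, by rw [← Matrix.mul_assoc, hB]⟩

theorem inj_of_spz {k : Type} [Field k] {I Ω : Type} [Field Ω] [Algebra k Ω] (z : I → Ω)
    (z₀ : I → k) (hz : Spz z z₀) {α β : Type} [Fintype α] [Fintype β]
    (M : Matrix α β (MvPolynomial I k)) (h : Function.Injective (M.map (eval z₀)).mulVec) :
    Function.Injective (M.map (aeval z)).mulVec := by
  classical
  obtain ⟨g, hg⟩ := LinearMap.exists_leftInverse_of_injective (M.map (eval z₀)).mulVecLin
    (LinearMap.ker_eq_bot.2 h)
  set N : Matrix β α k := LinearMap.toMatrix' g with hNdef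
  have hN : N * M.map (eval z₀) = 1 := by
    have h0 := congrArg LinearMap.toMatrix' hg
    rw [LinearMap.toMatrix'_comp, LinearMap.toMatrix'_id, ← Matrix.toLin'_apply',
      LinearMap.toMatrix'_toLin'] at h0
    exact h0
  let P : Matrix β β (MvPolynomial I k) := N.map C * M
  have h1 : P.map (eval z₀) = 1 := by
    have h2 : P.map (eval z₀) = (N.map C).map (eval z₀) * M.map (eval z₀) :=
      Matrix.map_mul
    have h3 : (N.map C).map (eval z₀) = N := by
      ext a b
      simp
    rw [h2, h3]
    exact hN
  have h4 := P5_det z z₀ hz P h1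
  have h5 : P.map (aeval z) = (N.map C).map (aeval z) * M.map (aeval z) :=
    Matrix.map_mul
  rw [h5] at h4
  have h6 : IsUnit ((N.map C).map (aeval z) * M.map (aeval z)) :=
    (Matrix.isUnit_iff_isUnit_det _).2 (isUnit_iff_ne_zero.2 h4)
  obtain ⟨B, hB⟩ := h6.exists_left_inv
  intro v w hvw
  have h7 : ∀ u, (B * ((N.map C).map (aeval z) * M.map (aeval z))).mulVec u = u := by
    intro u
    rw [hB, Matrix.one_mulVec]
  have h8 : (M.map (aeval z)).mulVec v = (M.map (aeval z)).mulVec w := hvw
  rw [← h7 v, ← h7 w, ← Matrix.mulVec_mulVec, ← Matrix.mulVec_mulVec, ← Matrix.mulVec_mulVec,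
    ← Matrix.mulVec_mulVec, h8]

end Q9
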