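import Pool.Agent.LibQ9.BDefs
import Pool.Agent.LibQ9.P5

/-!
[Q9 B5] (MEDIUM; may cite P5 `surj_of_spz` as stated) Freeness and corank are open conditions.

PLAN. The matrix of `a ↦ grad F γ a`, from vectors of polynomials of degree `< e` (coordinates: coefficients) to the coefficients `< L` of the result, has entries which are polynomials over `k` in the coefficients `cf d γ` of `γ`: the coefficient of
`X^b` of `aeval Γ (pderiv i F)`, where `Γ` is the generic vector `Σ_j X_(i,j) t^j` over `MvPolynomial (Fin (n+1) × Fin (d+1)) k` (`L = nd`, `e = d`: all products `∇F(γ)·a` have degree `< nd` automatically as `F` is homogeneous of degree `n`). At `z₀ = cf d γ₀` this matrix is surjective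
(`Free`), so it is surjective at `z = cf d γ` (P5). For `Cor`: enlarge the matrix by the columns `θ_j` (constants in `k`, the `θ_j` of `γ₀`). `e = d - 1`, `L = nd - 1`.
-/

set_option autoImplicit false

namespace Q9

open Polynomial

/-- the generic vector -/
private noncomputable def B5_G (k : Type) [Field k] (n d : ℕ) :
    Fin (n + 1) → Polynomial (MvPolynomial (Fin (n + 1) × Fin (d + 1)) k) :=
  fun i => ∑ j : Fin (d + 1), C (MvPolynomial.X (i, j)) * X ^ (j : ℕ)

/-- the vector of polynomials with coordinates `v` -/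
private noncomputable def B5_pa {S : Type} [Field S] {n e c : ℕ}
    (v : (Fin (n + 1) × Fin e) ⊕ Fin c → S) : Fin (n + 1) → S[X] :=
  fun i => ∑ j : Fin e, C (v (Sum.inl (i, j))) * X ^ (j : ℕ)

private theorem B5_poly {S : Type} [Field S] (p : S[X]) (e : ℕ) (hp : p.degree < (e : ℕ)) :
    ∑ j : Fin e, C (p.coeff j) * X ^ (j : ℕ) = p := by
  ext b
  rw [finsetSum_coeff]
  simp only [coeff_C_mul, coeff_X_pow]
  by_cases hb : b < e
  · rw [Finset.sum_eq_single (⟨b, hb⟩ : Fin e)]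
    · simp
    · intro j _ hj
      have : b ≠ (j : ℕ) := fun h => hj (Fin.ext h.symm)
      simp [this]
    · intro h
      exact absurd (Finset.mem_univ _) h
  · rw [Finset.sum_eq_zero]
    · rw [coeff_eq_zero_of_degree_lt]
      exact lt_of_lt_of_le hp (by exact_mod_cast (not_lt.mp hb))
    · intro j _
      have : b ≠ (j : ℕ) := fun h => hb (h ▸ j.2)
      simp [this]

private theorem B5_map {k : Type} [Field k] {S : Type} [Field S] [Algebra k S] {n : ℕ} (d : ℕ)
    (γ : Fin (n + 1) → S[X]) (hγ : ∀ i, (γ i).natDegree ≤ d) (i : Fin (n + 1)) :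
    Polynomial.mapAlgHom (MvPolynomial.aeval (cf d γ) :
      MvPolynomial (Fin (n + 1) × Fin (d + 1)) k →ₐ[k] S) (B5_G k n d i) = γ i := by
  have h1 : (γ i).degree < ((d + 1 : ℕ) : ℕ) := by
    refine lt_of_le_of_lt degree_le_natDegree ?_
    exact_mod_cast Nat.lt_succ_of_le (hγ i)
  conv_rhs => rw [← B5_poly (γ i) (d + 1) h1]
  unfold B5_G
  rw [map_sum]
  refine Finset.sum_congr rfl fun j _ => ?_
  simp [cf]

private theorem B5_aeval {k : Type} [Field k] {S : Type} [Field S] [Algebra k S] {n : ℕ} (d : ℕ)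
    (γ : Fin (n + 1) → S[X]) (hγ : ∀ i, (γ i).natDegree ≤ d)
    (P : MvPolynomial (Fin (n + 1)) k) :
    Polynomial.mapAlgHom (MvPolynomial.aeval (cf d γ) :
      MvPolynomial (Fin (n + 1) × Fin (d + 1)) k →ₐ[k] S) (MvPolynomial.aeval (B5_G k n d) P) =
      MvPolynomial.aeval γ P := by
  have h : (Polynomial.mapAlgHom (MvPolynomial.aeval (cf d γ) :
      MvPolynomial (Fin (n + 1) × Fin (d + 1)) k →ₐ[k] S)).comp
        (MvPolynomial.aeval (B5_G k n d)) = MvPolynomial.aeval γ := by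
    apply MvPolynomial.algHom_ext
    intro i
    rw [AlgHom.comp_apply, MvPolynomial.aeval_X, MvPolynomial.aeval_X]
    exact B5_map d γ hγ i
  rw [← h]
  rfl

/-- the matrix -/
private noncomputable def B5_M {k : Type} [Field k] {n : ℕ} (F : MvPolynomial (Fin (n + 1)) k)
    (d e L c : ℕ) (θ : Fin c → k[X]) :
    Matrix (Fin L) ((Fin (n + 1) × Fin e) ⊕ Fin c)
      (MvPolynomial (Fin (n + 1) × Fin (d + 1)) k) := fun b x =>
  match x with
  | Sum.inl a => (MvPolynomial.aeval (B5_G k n d) (MvPolynomial.pderiv a.1 F) *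
      X ^ (a.2 : ℕ)).coeff b
  | Sum.inr t => MvPolynomial.C ((θ t).coeff b)

private theorem B5_mulVec {k : Type} [Field k] {S : Type} [Field S] [Algebra k S] {n : ℕ}
    (F : MvPolynomial (Fin (n + 1)) k) (d e L c : ℕ) (θ : Fin c → k[X])
    (γ : Fin (n + 1) → S[X]) (hγ : ∀ i, (γ i).natDegree ≤ d)
    (v : (Fin (n + 1) × Fin e) ⊕ Fin c → S) (b : Fin L) :
    ((B5_M F d e L c θ).map (MvPolynomial.aeval (cf d γ))).mulVec v b =
      (grad F γ (B5_pa v) + ∑ t, C (v (Sum.inr t)) * (θ t).map (algebraMap k S)).coeff b := by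
  unfold Matrix.mulVec dotProduct
  rw [Fintype.sum_sum_type, Fintype.sum_prod_type, coeff_add]
  congr 1
  · unfold grad
    rw [finsetSum_coeff]
    refine Finset.sum_congr rfl fun i _ => ?_
    unfold B5_pa
    rw [Finset.mul_sum, finsetSum_coeff]
    refine Finset.sum_congr rfl fun j _ => ?_
    have h1 : MvPolynomial.aeval (cf d γ) ((MvPolynomial.aeval (B5_G k n d)
        (MvPolynomial.pderiv i F) * X ^ (j : ℕ)).coeff b) =
        (MvPolynomial.aeval γ (MvPolynomial.pderiv i F) * X ^ (j : ℕ)).coeff b := by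
      have h2 : (Polynomial.mapAlgHom (MvPolynomial.aeval (cf d γ) :
          MvPolynomial (Fin (n + 1) × Fin (d + 1)) k →ₐ[k] S)
            (MvPolynomial.aeval (B5_G k n d) (MvPolynomial.pderiv i F) * X ^ (j : ℕ))) =
          MvPolynomial.aeval γ (MvPolynomial.pderiv i F) * X ^ (j : ℕ) := by
        rw [map_mul, B5_aeval d γ hγ]
        simp
      rw [← h2]
      simp only [Polynomial.coe_mapAlgHom, Polynomial.coeff_map]
      rfl
    change MvPolynomial.aeval (cf d γ) ((MvPolynomial.aeval (B5_G k n d)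
        (MvPolynomial.pderiv i F) * X ^ (j : ℕ)).coeff b) * v (Sum.inl (i, j)) = _
    rw [h1, mul_left_comm, coeff_C_mul, mul_comm]
  · rw [finsetSum_coeff]
    refine Finset.sum_congr rfl fun t _ => ?_
    change MvPolynomial.aeval (cf d γ) (MvPolynomial.C ((θ t).coeff b)) * v (Sum.inr t) = _
    rw [MvPolynomial.aeval_C, coeff_C_mul, coeff_map, mul_comm]

private theorem B5_coord {S : Type} [Field S] {n e c : ℕ} (a : Fin (n + 1) → S[X])
    (ha : ∀ i, (a i).degree < (e : ℕ)) (μ : Fin c → S) :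
    ∃ v : (Fin (n + 1) × Fin e) ⊕ Fin c → S, B5_pa v = a ∧ ∀ t, v (Sum.inr t) = μ t := by
  refine ⟨Sum.elim (fun x => (a x.1).coeff x.2) μ, ?_, fun t => rfl⟩
  funext i
  exact B5_poly (a i) e (ha i)

private theorem B5_pa_deg {S : Type} [Field S] {n e c : ℕ}
    (v : (Fin (n + 1) × Fin e) ⊕ Fin c → S) (i : Fin (n + 1)) : (B5_pa v i).degree < (e : ℕ) := by
  unfold B5_pa
  refine (degree_sum_le _ _).trans_lt ?_
  rw [Finset.sup_lt_iff (WithBot.bot_lt_coe _)]
  intro j _
  refine (degree_C_mul_X_pow_le _ _).trans_lt ?_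
  exact_mod_cast j.2

/-- degree of an evaluation of a form -/
private theorem B5_deg_aeval {k : Type} [Field k] {S : Type} [Field S] [Algebra k S] {n m : ℕ}
    (P : MvPolynomial (Fin (n + 1)) k) (hP : P.IsHomogeneous m) (d : ℕ)
    (γ : Fin (n + 1) → S[X]) (hγ : ∀ i, (γ i).natDegree ≤ d) :
    (MvPolynomial.aeval γ P).natDegree ≤ m * d := by
  rw [MvPolynomial.aeval_def, MvPolynomial.eval₂_eq]
  refine natDegree_sum_le_of_forall_le _ _ fun u hu => ?_
  have h1 : ∑ i ∈ u.support, u i = m := by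
    have := hP (MvPolynomial.mem_support_iff.mp hu)
    rw [Finsupp.weight_apply] at this
    simpa [Finsupp.sum] using this
  refine natDegree_mul_le.trans ?_
  have h2 : ((algebraMap k S[X]) (MvPolynomial.coeff u P)).natDegree = 0 := by
    rw [Polynomial.algebraMap_apply]
    exact natDegree_C _
  rw [h2, zero_add]
  refine (natDegree_prod_le _ _).trans ?_
  calc ∑ i ∈ u.support, (γ i ^ u i).natDegree ≤ ∑ i ∈ u.support, u i * d := by
        refine Finset.sum_le_sum fun i _ => ?_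
        exact natDegree_pow_le.trans (Nat.mul_le_mul_left _ (hγ i))
    _ = m * d := by rw [← Finset.sum_mul, h1]

/-- degree of `grad` -/
private theorem B5_deg_grad {k : Type} [Field k] {S : Type} [Field S] [Algebra k S] {n : ℕ}
    (F : MvPolynomial (Fin (n + 1)) k) (hF : F.IsHomogeneous n) (d e L : ℕ)
    (hL : n = 0 ∨ e = 0 ∨ (n - 1) * d + e ≤ L) (γ a : Fin (n + 1) → S[X])
    (hγ : ∀ i, (γ i).natDegree ≤ d) (ha : ∀ i, (a i).degree < (e : ℕ)) :
    (grad F γ a).degree < (L : ℕ) := by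
  unfold grad
  refine (degree_sum_le _ _).trans_lt ?_
  rw [Finset.sup_lt_iff (WithBot.bot_lt_coe _)]
  intro i _
  have hder : (MvPolynomial.pderiv i F).IsHomogeneous (n - 1) := hF.pderiv
  rcases hL with h | h | h
  · have hz : MvPolynomial.pderiv i F = 0 := by
      subst h
      obtain ⟨r, hr⟩ : ∃ r, F = MvPolynomial.C r :=
        ⟨_, MvPolynomial.totalDegree_eq_zero_iff_eq_C.mp (Nat.le_zero.mp hF.totalDegree_le)⟩
      rw [hr]
      simp
    rw [hz, map_zero, zero_mul, degree_zero]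
    exact WithBot.bot_lt_coe _
  · have hz : a i = 0 := by
      have := ha i
      rw [h] at this
      rw [← degree_eq_bot]
      by_contra hne
      have h2 : (0 : WithBot ℕ) ≤ (a i).degree := by
        rw [zero_le_degree_iff]
        exact fun h3 => hne (by rw [h3, degree_zero])
      exact absurd (lt_of_le_of_lt h2 this) (lt_irrefl _)
    rw [hz, mul_zero, degree_zero]
    exact WithBot.bot_lt_coe _
  · by_cases hz : a i = 0
    · rw [hz, mul_zero, degree_zero]
      exact WithBot.bot_lt_coe _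
    · by_cases hz2 : MvPolynomial.aeval γ (MvPolynomial.pderiv i F) = 0
      · rw [hz2, zero_mul, degree_zero]
        exact WithBot.bot_lt_coe _
      · have h1 := B5_deg_aeval _ hder d γ hγ
        have h2 : (a i).natDegree < e := by
          rw [natDegree_lt_iff_degree_lt hz]
          exact ha i
        have h3 : (MvPolynomial.aeval γ (MvPolynomial.pderiv i F) * a i) ≠ 0 := mul_ne_zero hz2 hz
        rw [degree_eq_natDegree h3, natDegree_mul hz2 hz]
        exact_mod_cast (by omega : (MvPolynomial.aeval γ (MvPolynomial.pderiv i F)).natDegree +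
          (a i).natDegree < L)

private theorem B5_key {k : Type} [Field k] {n : ℕ} (F : MvPolynomial (Fin (n + 1)) k)
    {Ω : Type} [Field Ω] [Algebra k Ω] (d e L c : ℕ) (θ : Fin c → k[X])
    (γ : Fin (n + 1) → Polynomial Ω) (γ₀ : Fin (n + 1) → k[X]) (hγ : ∀ i, (γ i).natDegree ≤ d)
    (hγ₀ : ∀ i, (γ₀ i).natDegree ≤ d) (hs : Spz (cf d γ) (cf d γ₀))
    (h : ∀ g : Fin L → k, ∃ v : (Fin (n + 1) × Fin e) ⊕ Fin c → k, ∀ b : Fin L,
      (grad F γ₀ (B5_pa v) + ∑ t, C (v (Sum.inr t)) * θ t).coeff b = g b) (g : Fin L → Ω) :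
    ∃ v : (Fin (n + 1) × Fin e) ⊕ Fin c → Ω, ∀ b : Fin L,
      (grad F γ (B5_pa v) + ∑ t, C (v (Sum.inr t)) * (θ t).map (algebraMap k Ω)).coeff b =
        g b := by
  have h1 : Function.Surjective
      (((B5_M F d e L c θ).map (MvPolynomial.eval (cf d γ₀))).mulVec) := by
    intro g₀
    obtain ⟨v, hv⟩ := h g₀
    refine ⟨v, ?_⟩
    funext b
    have h2 := B5_mulVec (k := k) (S := k) F d e L c θ γ₀ hγ₀ v b
    have h4 : (⇑(MvPolynomial.aeval (cf d γ₀) :
        MvPolynomial (Fin (n + 1) × Fin (d + 1)) k →ₐ[k] k) :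
          MvPolynomial (Fin (n + 1) × Fin (d + 1)) k → k) = ⇑(MvPolynomial.eval (cf d γ₀)) := by
      funext p
      rw [← MvPolynomial.coe_aeval_eq_eval]
      rfl
    rw [h4] at h2
    rw [h2, ← hv b]
    have h5 : ∀ t, (θ t).map (algebraMap k k) = θ t := fun t => by
      rw [Algebra.algebraMap_self]
      exact Polynomial.map_id
    simp only [h5]
  have h3 := surj_of_spz (cf d γ) (cf d γ₀) hs _ h1
  obtain ⟨v, hv⟩ := h3 g
  refine ⟨v, fun b => ?_⟩
  rw [← hv, B5_mulVec F d e L c θ γ hγ v b]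

private theorem B5_ext {S : Type} [Field S] {p q : S[X]} {L : ℕ} (hp : p.degree < (L : ℕ))
    (hq : q.degree < (L : ℕ)) (h : ∀ b : Fin L, p.coeff b = q.coeff b) : p = q := by
  ext b
  by_cases hb : b < L
  · exact h ⟨b, hb⟩
  · have hb' : ((L : ℕ) : WithBot ℕ) ≤ (b : ℕ) := by exact_mod_cast (not_lt.mp hb)
    rw [coeff_eq_zero_of_degree_lt (lt_of_lt_of_le hp hb'),
      coeff_eq_zero_of_degree_lt (lt_of_lt_of_le hq hb')]

/-- a polynomial with given coefficients -/
private theorem B5_exists {S : Type} [Field S] {L : ℕ} (g : Fin L → S) :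
    ∃ f : S[X], f.degree < (L : ℕ) ∧ ∀ b : Fin L, f.coeff b = g b := by
  refine ⟨∑ j : Fin L, C (g j) * X ^ (j : ℕ), ?_, fun b => ?_⟩
  · refine (degree_sum_le _ _).trans_lt ?_
    rw [Finset.sup_lt_iff (WithBot.bot_lt_coe _)]
    intro j _
    refine (degree_C_mul_X_pow_le _ _).trans_lt ?_
    exact_mod_cast j.2
  · rw [finsetSum_coeff]
    simp only [coeff_C_mul, coeff_X_pow]
    rw [Finset.sum_eq_single b]
    · simp
    · intro j _ hj
      have : (b : ℕ) ≠ (j : ℕ) := fun h => hj (Fin.ext h.symm)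
      simp [this]
    · intro h
      exact absurd (Finset.mem_univ _) h

theorem Free.of_spz {k : Type} [Field k] {n : ℕ} (F : MvPolynomial (Fin (n + 1)) k)
    (hF : F.IsHomogeneous n) {Ω : Type} [Field Ω] [Algebra k Ω] (d : ℕ) (γ : Fin (n + 1) → Polynomial Ω)
    (γ₀ : Fin (n + 1) → k[X]) (hγ : On F d γ) (h : Free F d γ₀) (hs : Spz (cf d γ) (cf d γ₀)) :
    Free F d γ := by
  obtain ⟨hd, hγ₀, hsur⟩ := h
  have hL : n = 0 ∨ d = 0 ∨ (n - 1) * d + d ≤ n * d := by
    rcases Nat.eq_zero_or_pos n with h | h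
    · exact Or.inl h
    · right; right
      obtain ⟨m, rfl⟩ : ∃ m, n = m + 1 := ⟨n - 1, by omega⟩
      simp only [Nat.add_sub_cancel]
      rw [Nat.succ_mul]
  refine ⟨hd, hγ, fun f hf => ?_⟩
  obtain ⟨v, hv⟩ := B5_key F d d (n * d) 0 Fin.elim0 γ γ₀ hγ.1 hγ₀.1 hs (by
    intro g
    obtain ⟨f₀, hf₀, hg⟩ := B5_exists g
    obtain ⟨a, ha, haf⟩ := hsur f₀ hf₀
    obtain ⟨v, hv, -⟩ := B5_coord (c := 0) a ha Fin.elim0
    refine ⟨v, fun b => ?_⟩
    rw [hv, haf]
    simp [hg]) (fun b => f.coeff b)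
  refine ⟨B5_pa v, B5_pa_deg v, ?_⟩
  refine B5_ext (B5_deg_grad F hF d d (n * d) hL γ (B5_pa v) hγ.1 (B5_pa_deg v)) hf fun b => ?_
  have := hv b
  simpa using this

theorem Cor.of_spz {k : Type} [Field k] {n : ℕ} (F : MvPolynomial (Fin (n + 1)) k)
    (hF : F.IsHomogeneous n) {Ω : Type} [Field Ω] [Algebra k Ω] (d c : ℕ) (hd : 1 ≤ d)
    (γ : Fin (n + 1) → Polynomial Ω) (γ₀ : Fin (n + 1) → k[X]) (hγ : On F d γ) (hγ₀ : On F d γ₀)
    (h : Cor F d γ₀ c) (hs : Spz (cf d γ) (cf d γ₀)) : Cor F d γ c := by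
  obtain ⟨θ, hθ, hsur⟩ := h
  have hL : n = 0 ∨ d - 1 = 0 ∨ (n - 1) * d + (d - 1) ≤ n * d - 1 := by
    rcases Nat.eq_zero_or_pos n with h | h
    · exact Or.inl h
    · right; right
      obtain ⟨m, rfl⟩ : ∃ m, n = m + 1 := ⟨n - 1, by omega⟩
      simp only [Nat.add_sub_cancel]
      rw [Nat.succ_mul]
      omega
  have hθ' : ∀ (S : Type) [Field S] [Algebra k S] (μ : Fin c → S),
      (∑ t, C (μ t) * (θ t).map (algebraMap k S)).degree < (n * d - 1 : ℕ) := by
    intro S _ _ μ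
    refine (degree_sum_le _ _).trans_lt ?_
    rw [Finset.sup_lt_iff (WithBot.bot_lt_coe _)]
    intro t _
    rw [← smul_eq_C_mul]
    refine (degree_smul_le _ _).trans_lt ?_
    exact degree_map_le.trans_lt (hθ t)
  refine ⟨fun t => (θ t).map (algebraMap k Ω), fun t => degree_map_le.trans_lt (hθ t),
    fun f hf => ?_⟩
  obtain ⟨v, hv⟩ := B5_key F d (d - 1) (n * d - 1) c θ γ γ₀ hγ.1 hγ₀.1 hs (by
    intro g
    obtain ⟨f₀, hf₀, hg⟩ := B5_exists g
    obtain ⟨a, μ, ha, haf⟩ := hsur f₀ hf₀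
    obtain ⟨v, hv, hμ⟩ := B5_coord (c := c) a ha μ
    refine ⟨v, fun b => ?_⟩
    rw [hv, ← hg b, haf]
    simp only [hμ]) (fun b => f.coeff b)
  refine ⟨B5_pa v, fun t => v (Sum.inr t), B5_pa_deg v, ?_⟩
  refine B5_ext hf ?_ fun b => (hv b).symm
  refine (degree_add_le _ _).trans_lt (max_lt ?_ (hθ' Ω _))
  exact B5_deg_grad F hF d (d - 1) (n * d - 1) hL γ (B5_pa v) hγ.1 (B5_pa_deg v)

end Q9
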