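import Pool.Agent.LibQ9.B0
import Pool.Agent.LibQ9.B2

set_option autoImplicit false

/-!
[Q9 B6] (MEDIUM/STRONG; may cite B0, B2 as stated) Functionals of the cokernel and the subspace `Pos`.

Let `γ` be free of degree `d`, corank exactly `s` (`Cor s`, not `Cor c` for `c < s`).
PLAN. The cokernel `H` of `a ↦ grad F γ a` from `{deg < d-1}^(n+1)` to `{deg < nd-1}` has dimension `s`; let `l_1..l_s` be a basis of the functionals killing the image, as sequences `l : ℕ → κ` with `l j = 0` for `j ≥ nd - 1`. Put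
`Φ_j(t) = (dq (l_j) G_i)_i`, `G_i = aeval γ (pderiv i F)`. For `t ∈ κ` and `v` with `grad F (γ(t)) v = 0`: `Σ_i Φ_j(t)_i v_i = pr (l_j) ((Σ_i G_i v_i) /ₘ (X - C t))` (`dq_eval`, linearity), and `(Σ G_i v_i)/(X - t)` is a polynomial `h_v` of degree
`< nd - 1` (`(n-1)d - 1 < nd - 1`). (a) [`pos_iff`] `v ∈ Pos (tr t γ)` iff there is `a`, `deg a < d`, `grad F γ a = 0`, `a(t) = v` (translate) iff `v + (X - t) a'`, `deg a' < d - 1`, is in the kernel for some `a'`, iff `h_v` is in the image, iff all `l_j` kill `h_v`.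
(b) the map `v ↦ class of h_v` from `ker grad F (γ(t))` to `H` is onto: for `h` of degree `< nd - 1`, `(X - t) h` has degree `< nd`, so `= grad F γ a`, `deg a < d` (free), `a = a(t) + (X - t) a'`, `h = h_{a(t)} + grad F γ a'`. So the rows `∇F(γ(t))`, `Φ_1(t), ..., Φ_s(t)`
are linearly independent for every `t` (`∇F(γ(t)) ≠ 0` by B2 `span_grad`). This is the statement `rows` (matrix `N` over `κ[X]`, row `0` is `G`, row `j + 1` is `Φ_j`).
-/

namespace Q9

open Polynomial

private noncomputable def B6_pr {κ : Type} [Field κ] (l : ℕ → κ) : κ[X] →ₗ[κ] κ where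
  toFun := pr l
  map_add' := pr_add l
  map_smul' c f := by
    rw [smul_eq_C_mul, pr_C_mul]
    rfl

private theorem B6_pr_apply {κ : Type} [Field κ] (l : ℕ → κ) (f : κ[X]) : B6_pr l f = pr l f := rfl

section

variable {k : Type} [Field k] {n : ℕ} (F : MvPolynomial (Fin (n + 1)) k) {κ : Type} [Field κ]
  [Algebra k κ]

private noncomputable def B6_L (γ : Fin (n + 1) → κ[X]) : (Fin (n + 1) → κ[X]) →ₗ[κ] κ[X] where
  toFun a := grad F γ a
  map_add' a b := by
    simp only [grad, Pi.add_apply, mul_add, Finset.sum_add_distrib]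
  map_smul' c a := by
    simp only [grad, Pi.smul_apply, mul_smul_comm, RingHom.id_apply, Finset.smul_sum]

private theorem B6_L_apply (γ a : Fin (n + 1) → κ[X]) : B6_L F γ a = grad F γ a := rfl

private theorem B6_deg (hF : F.IsHomogeneous n) {d : ℕ} {γ : Fin (n + 1) → κ[X]}
    (hγ : ∀ i, (γ i).natDegree ≤ d) (i : Fin (n + 1)) :
    (MvPolynomial.aeval γ (MvPolynomial.pderiv i F)).natDegree ≤ (n - 1) * d := by
  have hP : (MvPolynomial.pderiv i F).IsHomogeneous (n - 1) := hF.pderiv
  generalize MvPolynomial.pderiv i F = P at hP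
  rw [MvPolynomial.aeval_def, MvPolynomial.eval₂_eq']
  refine natDegree_sum_le_of_forall_le _ _ fun m hm => ?_
  have hm' : ∑ i, m i = n - 1 := by
    have h1 := hP (MvPolynomial.mem_support_iff.1 hm)
    rw [← Finsupp.degree_eq_sum, Finsupp.degree_eq_weight_one]
    exact h1
  refine natDegree_mul_le.trans ?_
  have h2 : ((algebraMap k κ[X]) (MvPolynomial.coeff m P)).natDegree = 0 := by
    rw [IsScalarTower.algebraMap_apply k κ κ[X]]
    exact natDegree_C _
  rw [h2, zero_add]
  refine (natDegree_prod_le _ _).trans ?_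
  calc ∑ i, (γ i ^ m i).natDegree ≤ ∑ i, m i * d := Finset.sum_le_sum fun i _ =>
        natDegree_pow_le.trans (Nat.mul_le_mul_left _ (hγ i))
    _ = (n - 1) * d := by rw [← Finset.sum_mul, hm']

private theorem B6_nd (hn : 2 ≤ n) (d : ℕ) : n * d = (n - 1) * d + d ∧ d ≤ (n - 1) * d := by
  obtain ⟨m, rfl⟩ : ∃ m, n = m + 2 := ⟨n - 2, by omega⟩
  constructor
  · have : m + 2 - 1 = m + 1 := by omega
    rw [this]
    ring
  · have : m + 2 - 1 = m + 1 := by omega
    rw [this]
    nlinarith

private theorem B6_img (hn : 2 ≤ n) (hF : F.IsHomogeneous n) {d : ℕ} (hd : 1 ≤ d)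
    {γ : Fin (n + 1) → κ[X]} (hγ : ∀ i, (γ i).natDegree ≤ d) (a : Fin (n + 1) → κ[X])
    (ha : ∀ i, (a i).degree < (d - 1 : ℕ)) : (grad F γ a).degree < (n * d - 1 : ℕ) := by
  obtain ⟨e1, e2⟩ := B6_nd hn d
  unfold grad
  refine (degree_sum_le _ _).trans_lt ?_
  rw [Finset.sup_lt_iff (WithBot.bot_lt_coe _)]
  intro i _
  by_cases h0 : a i = 0
  · rw [h0, mul_zero, degree_zero]
    exact WithBot.bot_lt_coe _
  · have h1 : (a i).natDegree < d - 1 := (natDegree_lt_iff_degree_lt h0).2 (ha i)
    refine degree_le_natDegree.trans_lt ?_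
    have h2 := natDegree_mul_le (p := MvPolynomial.aeval γ (MvPolynomial.pderiv i F)) (q := a i)
    have h3 := B6_deg F hF hγ i
    have h4 : (MvPolynomial.aeval γ (MvPolynomial.pderiv i F) * a i).natDegree < n * d - 1 := by
      omega
    exact_mod_cast h4

/-- the polynomial `h_v` -/
private noncomputable def B6_h (γ : Fin (n + 1) → κ[X]) (t : κ) (v : Fin (n + 1) → κ) : κ[X] :=
  ∑ i, C (v i) * (MvPolynomial.aeval γ (MvPolynomial.pderiv i F) /ₘ (X - C t))

private theorem B6_h_deg (hn : 2 ≤ n) (hF : F.IsHomogeneous n) {d : ℕ} (hd : 1 ≤ d)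
    {γ : Fin (n + 1) → κ[X]} (hγ : ∀ i, (γ i).natDegree ≤ d) (t : κ) (v : Fin (n + 1) → κ) :
    (B6_h F γ t v).degree < (n * d - 1 : ℕ) := by
  obtain ⟨e1, e2⟩ := B6_nd hn d
  unfold B6_h
  refine (degree_sum_le _ _).trans_lt ?_
  rw [Finset.sup_lt_iff (WithBot.bot_lt_coe _)]
  intro i _
  refine degree_le_natDegree.trans_lt ?_
  have h1 := natDegree_C_mul_le (v i)
    (MvPolynomial.aeval γ (MvPolynomial.pderiv i F) /ₘ (X - C t))
  have h2 := natDegree_divByMonic (MvPolynomial.aeval γ (MvPolynomial.pderiv i F))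
    (monic_X_sub_C t)
  rw [natDegree_X_sub_C] at h2
  have h3 := B6_deg F hF hγ i
  have h4 : (C (v i) * (MvPolynomial.aeval γ (MvPolynomial.pderiv i F) /ₘ (X - C t))).natDegree <
      n * d - 1 := by omega
  exact_mod_cast h4

private theorem B6_h_eq (γ : Fin (n + 1) → κ[X]) (t : κ) (v : Fin (n + 1) → κ) :
    ∑ i, MvPolynomial.aeval γ (MvPolynomial.pderiv i F) * C (v i) =
      C (∑ i, (MvPolynomial.aeval γ (MvPolynomial.pderiv i F)).eval t * v i) +
        (X - C t) * B6_h F γ t v := by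
  unfold B6_h
  rw [map_sum, Finset.mul_sum, ← Finset.sum_add_distrib]
  refine Finset.sum_congr rfl fun i _ => ?_
  have h := modByMonic_add_div (MvPolynomial.aeval γ (MvPolynomial.pderiv i F)) (X - C t)
  rw [modByMonic_X_sub_C_eq_C_eval] at h
  rw [C_mul]
  linear_combination -(C (v i)) * h

private theorem B6_h_pr (l : ℕ → κ) (γ : Fin (n + 1) → κ[X]) (t : κ) (v : Fin (n + 1) → κ) :
    pr l (B6_h F γ t v) =
      ∑ i, (dq l (MvPolynomial.aeval γ (MvPolynomial.pderiv i F))).eval t * v i := by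
  rw [← B6_pr_apply]
  unfold B6_h
  rw [map_sum]
  refine Finset.sum_congr rfl fun i _ => ?_
  rw [B6_pr_apply, pr_C_mul, dq_eval, mul_comm]

/-- division by `X - C t` lowers the degree -/
private theorem B6_div_deg (a : κ[X]) (m : ℕ) (t : κ) (h : a.degree < (m : ℕ)) :
    (a /ₘ (X - C t)).degree < (m - 1 : ℕ) := by
  by_cases h0 : a /ₘ (X - C t) = 0
  · rw [h0, degree_zero]
    exact WithBot.bot_lt_coe _
  · rw [← natDegree_lt_iff_degree_lt h0]
    have h1 := natDegree_divByMonic a (monic_X_sub_C t)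
    rw [natDegree_X_sub_C] at h1
    have ha : a ≠ 0 := by
      rintro rfl
      exact h0 (zero_divByMonic _)
    have h2 : a.natDegree < m := (natDegree_lt_iff_degree_lt ha).2 h
    have h3 : 1 ≤ a.natDegree := by
      by_contra hc
      apply h0
      rw [divByMonic_eq_zero_iff (monic_X_sub_C t), degree_X_sub_C]
      refine degree_le_natDegree.trans_lt ?_
      have : a.natDegree = 0 := by omega
      rw [this]
      exact_mod_cast Nat.one_pos
    omega

/-- translation -/
private theorem B6_grad_tr (t : κ) (γ a : Fin (n + 1) → κ[X]) :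
    grad F (tr t γ) (fun i => taylor t (a i)) = taylor t (grad F γ a) := by
  unfold grad
  rw [map_sum]
  refine Finset.sum_congr rfl fun i _ => ?_
  rw [taylor_mul]
  congr 1
  have h := MvPolynomial.comp_aeval_apply (R := k) (f := γ)
    ((taylorAlgHom t).restrictScalars k) (MvPolynomial.pderiv i F)
  exact h.symm

private theorem B6_pos_tr (d : ℕ) (t : κ) (γ : Fin (n + 1) → κ[X]) (v : Fin (n + 1) → κ) :
    v ∈ Pos F d (tr t γ) ↔ ∃ a : Fin (n + 1) → κ[X], (∀ i, (a i).degree < (d : ℕ)) ∧
      grad F γ a = 0 ∧ ∀ i, (a i).eval t = v i := by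
  constructor
  · rintro ⟨a, h1, h2, h3⟩
    have e : ∀ i, taylor t (taylor (-t) (a i)) = a i := fun i => by
      rw [taylor_taylor, add_neg_cancel, taylor_zero]
    refine ⟨fun i => taylor (-t) (a i), fun i => ?_, ?_, fun i => ?_⟩
    · rw [degree_taylor]
      exact h1 i
    · apply taylor_injective t
      rw [← B6_grad_tr, map_zero]
      simp only [e]
      exact h2
    · rw [← taylor_coeff_zero, e, h3]
  · rintro ⟨a, h1, h2, h3⟩
    refine ⟨fun i => taylor t (a i), fun i => ?_, ?_, fun i => ?_⟩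
    · rw [degree_taylor]
      exact h1 i
    · rw [B6_grad_tr, h2, map_zero]
    · rw [taylor_coeff_zero, h3]

/-- splitting off the value at `t` -/
private theorem B6_split (t : κ) (γ a : Fin (n + 1) → κ[X]) :
    grad F γ a = C (∑ i, (MvPolynomial.aeval γ (MvPolynomial.pderiv i F)).eval t * (a i).eval t) +
      (X - C t) * (B6_h F γ t (fun i => (a i).eval t) +
        grad F γ (fun i => a i /ₘ (X - C t))) := by
  have h := B6_h_eq F γ t (fun i => (a i).eval t)
  have h2 : grad F γ a = ∑ i, MvPolynomial.aeval γ (MvPolynomial.pderiv i F) * C ((a i).eval t) +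
      (X - C t) * grad F γ (fun i => a i /ₘ (X - C t)) := by
    unfold grad
    rw [Finset.mul_sum, ← Finset.sum_add_distrib]
    refine Finset.sum_congr rfl fun i _ => ?_
    have h := modByMonic_add_div (a i) (X - C t)
    rw [modByMonic_X_sub_C_eq_C_eval] at h
    linear_combination -(MvPolynomial.aeval γ (MvPolynomial.pderiv i F)) * h
  rw [h2, h]
  ring

private theorem B6_pos_iff {d : ℕ} (hd : 1 ≤ d) (t : κ) (γ : Fin (n + 1) → κ[X])
    (v : Fin (n + 1) → κ) :
    v ∈ Pos F d (tr t γ) ↔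
      ∑ i, (MvPolynomial.aeval γ (MvPolynomial.pderiv i F)).eval t * v i = 0 ∧
      ∃ b : Fin (n + 1) → κ[X], (∀ i, (b i).degree < (d - 1 : ℕ)) ∧ grad F γ b = B6_h F γ t v := by
  rw [B6_pos_tr]
  constructor
  · rintro ⟨a, h1, h2, h3⟩
    have h4 := B6_split F t γ a
    obtain rfl : (fun i => (a i).eval t) = v := funext h3
    rw [h2] at h4
    have h5 : ∑ i, (MvPolynomial.aeval γ (MvPolynomial.pderiv i F)).eval t * (a i).eval t = 0 := by
      have := congrArg (eval t) h4
      rw [eval_add, eval_C, eval_mul, eval_sub, eval_X, eval_C, sub_self, zero_mul, add_zero,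
        eval_zero] at this
      exact this.symm
    rw [h5, C_0, zero_add] at h4
    refine ⟨h5, fun i => - (a i /ₘ (X - C t)), fun i => ?_, ?_⟩
    · rw [degree_neg]
      exact B6_div_deg _ _ _ (h1 i)
    · have h6 := (mul_eq_zero.1 h4.symm).resolve_left (X_sub_C_ne_zero t)
      have h7 : grad F γ (fun i => - (a i /ₘ (X - C t))) = - grad F γ (fun i => a i /ₘ (X - C t)) := by
        rw [← B6_L_apply, ← B6_L_apply, ← map_neg]
        rfl
      rw [h7]
      linear_combination -h6
  · rintro ⟨h1, b, h2, h3⟩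
    refine ⟨fun i => C (v i) - (X - C t) * b i, fun i => ?_, ?_, fun i => ?_⟩
    · refine (degree_sub_le _ _).trans_lt (max_lt ?_ ?_)
      · exact degree_C_le.trans_lt (by exact_mod_cast hd)
      · by_cases h0 : b i = 0
        · rw [h0, mul_zero, degree_zero]
          exact WithBot.bot_lt_coe _
        · have h4 : (b i).natDegree < d - 1 := (natDegree_lt_iff_degree_lt h0).2 (h2 i)
          refine degree_le_natDegree.trans_lt ?_
          have h5 := natDegree_mul_le (p := X - C t) (q := b i)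
          rw [natDegree_X_sub_C] at h5
          have h6 : ((X - C t) * b i).natDegree < d := by omega
          exact_mod_cast h6
    · have h4 := B6_h_eq F γ t v
      rw [h1, C_0, zero_add, ← h3] at h4
      unfold grad at h4 ⊢
      simp only [mul_sub, Finset.sum_sub_distrib]
      rw [h4, Finset.mul_sum, ← Finset.sum_sub_distrib]
      exact Finset.sum_eq_zero fun i _ => by ring
    · simp

/-- the image of `∇F(γ)·` -/
private noncomputable def B6_I (d : ℕ) (γ : Fin (n + 1) → κ[X]) : Submodule κ κ[X] :=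
  (Submodule.pi Set.univ fun _ => degreeLT κ (d - 1)).map (B6_L F γ)

private theorem B6_mem_I (d : ℕ) (γ : Fin (n + 1) → κ[X]) (f : κ[X]) :
    f ∈ B6_I F d γ ↔
      ∃ a : Fin (n + 1) → κ[X], (∀ i, (a i).degree < (d - 1 : ℕ)) ∧ grad F γ a = f := by
  unfold B6_I
  rw [Submodule.mem_map]
  constructor
  · rintro ⟨a, ha, rfl⟩
    exact ⟨a, fun i => mem_degreeLT.1 ((Submodule.mem_pi.1 ha) i (Set.mem_univ i)), rfl⟩
  · rintro ⟨a, ha, rfl⟩
    exact ⟨a, Submodule.mem_pi.2 fun i _ => mem_degreeLT.2 (ha i), rfl⟩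

private noncomputable abbrev B6_J (d : ℕ) (γ : Fin (n + 1) → κ[X]) :
    Submodule κ (degreeLT κ (n * d - 1)) :=
  (B6_I F d γ).comap (degreeLT κ (n * d - 1)).subtype

private theorem B6_finite (N : ℕ) : Module.Finite κ (degreeLT κ N) :=
  Module.Finite.equiv (degreeLTEquiv κ N).symm

private theorem B6_finrank {d s : ℕ} (γ : Fin (n + 1) → κ[X]) (hs : Cor F d γ s)
    (hmin : ∀ c < s, ¬ Cor F d γ c) :
    Module.finrank κ (degreeLT κ (n * d - 1) ⧸ B6_J F d γ) = s := by
  have := B6_finite (κ := κ) (n * d - 1)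
  apply le_antisymm
  · obtain ⟨θ, h1, h2⟩ := hs
    have h3 : ⊤ ≤ Submodule.span κ (Set.range fun j : Fin s =>
        (B6_J F d γ).mkQ ⟨θ j, mem_degreeLT.2 (h1 j)⟩) := by
      rintro x -
      obtain ⟨⟨f, hf⟩, rfl⟩ := (B6_J F d γ).mkQ_surjective x
      obtain ⟨a, μ, ha, he⟩ := h2 f (mem_degreeLT.1 hf)
      have h4 : (B6_J F d γ).mkQ ⟨f, hf⟩ =
          ∑ j, μ j • (B6_J F d γ).mkQ ⟨θ j, mem_degreeLT.2 (h1 j)⟩ := by
        rw [← sub_eq_zero]
        simp only [← map_smul, ← map_sum, ← map_sub]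
        rw [Submodule.mkQ_apply, Submodule.Quotient.mk_eq_zero, Submodule.mem_comap, B6_mem_I]
        refine ⟨a, ha, ?_⟩
        simp only [Submodule.subtype_apply, AddSubgroupClass.coe_sub, Submodule.coe_sum,
          Submodule.coe_smul, smul_eq_C_mul]
        rw [he]
        ring
      rw [h4]
      exact Submodule.sum_mem _ fun j _ => Submodule.smul_mem _ _
        (Submodule.subset_span ⟨j, rfl⟩)
    have h5 := finrank_le_of_span_eq_top (top_le_iff.1 h3)
    simpa using h5
  · by_contra hc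
    push Not at hc
    refine hmin _ hc ?_
    let b := Module.finBasisOfFinrankEq κ (degreeLT κ (n * d - 1) ⧸ B6_J F d γ) rfl
    choose θ hθ using fun j => (B6_J F d γ).mkQ_surjective (b j)
    refine ⟨fun j => (θ j).1, fun j => mem_degreeLT.1 (θ j).2, fun f hf => ?_⟩
    have h1 := b.sum_repr ((B6_J F d γ).mkQ ⟨f, mem_degreeLT.2 hf⟩)
    simp only [← hθ] at h1
    rw [eq_comm, ← sub_eq_zero] at h1
    simp only [← map_smul, ← map_sum, ← map_sub] at h1
    rw [Submodule.mkQ_apply, Submodule.Quotient.mk_eq_zero, Submodule.mem_comap, B6_mem_I] at h1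
    obtain ⟨a, ha, he⟩ := h1
    refine ⟨a, fun j => b.repr ((B6_J F d γ).mkQ ⟨f, mem_degreeLT.2 hf⟩) j, ha, ?_⟩
    simp only [Submodule.subtype_apply, AddSubgroupClass.coe_sub, Submodule.coe_sum,
      Submodule.coe_smul, smul_eq_C_mul] at he
    rw [he]
    ring

private theorem B6_func {d s : ℕ} (γ : Fin (n + 1) → κ[X]) (hs : Cor F d γ s)
    (hmin : ∀ c < s, ¬ Cor F d γ c) :
    ∃ l : Fin s → ℕ → κ, (∀ j i, n * d - 1 ≤ i → l j i = 0) ∧
      (∀ f : κ[X], f.degree < (n * d - 1 : ℕ) → ((∀ j, pr (l j) f = 0) ↔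
        ∃ a : Fin (n + 1) → κ[X], (∀ i, (a i).degree < (d - 1 : ℕ)) ∧ grad F γ a = f)) ∧
      ∀ c : Fin s → κ, (∀ f : κ[X], f.degree < (n * d - 1 : ℕ) → ∑ j, c j * pr (l j) f = 0) →
        ∀ j, c j = 0 := by
  classical
  have := B6_finite (κ := κ) (n * d - 1)
  let b := Module.finBasisOfFinrankEq κ (degreeLT κ (n * d - 1) ⧸ B6_J F d γ)
    (B6_finrank F γ hs hmin)
  choose g hg using fun j => LinearMap.exists_extend ((b.coord j) ∘ₗ (B6_J F d γ).mkQ)
  have hl : ∀ j (f : κ[X]) (hf : f ∈ degreeLT κ (n * d - 1)),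
      pr (fun i => if i < n * d - 1 then g j (X ^ i) else 0) f =
        b.coord j ((B6_J F d γ).mkQ ⟨f, hf⟩) := by
    intro j f hf
    have h1 : b.coord j ((B6_J F d γ).mkQ ⟨f, hf⟩) = g j f := by
      have := congrArg (fun φ => φ (⟨f, hf⟩ : degreeLT κ (n * d - 1))) (hg j)
      exact this.symm
    rw [h1, ← B6_pr_apply]
    rw [degreeLT_eq_span_X_pow] at hf
    refine LinearMap.eqOn_span (R := κ) ?_ hf
    intro x hx
    obtain ⟨i, hi, rfl⟩ := Finset.mem_image.1 (Finset.mem_coe.1 hx)
    rw [B6_pr_apply, pr_X_pow, if_pos (Finset.mem_range.1 hi)]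
  refine ⟨fun j i => if i < n * d - 1 then g j (X ^ i) else 0, fun j i hi => ?_, fun f hf => ?_,
    fun c hc j => ?_⟩
  · exact if_neg (not_lt.2 hi)
  · have hf' := mem_degreeLT.2 hf
    simp only [hl _ f hf']
    rw [← B6_mem_I]
    have h2 : (∀ j, b.coord j ((B6_J F d γ).mkQ ⟨f, hf'⟩) = 0) ↔
        (B6_J F d γ).mkQ ⟨f, hf'⟩ = 0 := by
      rw [← b.forall_coord_eq_zero_iff]
    rw [h2, Submodule.mkQ_apply, Submodule.Quotient.mk_eq_zero, Submodule.mem_comap]
    rfl
  · obtain ⟨⟨f, hf⟩, hbf⟩ := (B6_J F d γ).mkQ_surjective (b j)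
    have h3 := hc f (mem_degreeLT.1 hf)
    simp only [hl _ f hf, hbf] at h3
    simpa [Finsupp.single_apply] using h3

end

theorem rows {k : Type} [Field k] {n : ℕ} (hn : 2 ≤ n) (F : MvPolynomial (Fin (n + 1)) k)
    (hF : F.IsHomogeneous n) {κ : Type} [Field κ] [Algebra k κ] (d s : ℕ) (γ : Fin (n + 1) → κ[X])
    (h : Free F d γ) (hs : Cor F d γ s) (hmin : ∀ c < s, ¬ Cor F d γ c) :
    ∃ l : Fin s → ℕ → κ, (∀ j i, n * d - 1 ≤ i → l j i = 0) ∧
      (∀ (j : Fin s) (a : Fin (n + 1) → κ[X]), (∀ i, (a i).degree < (d - 1 : ℕ)) →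
        pr (l j) (grad F γ a) = 0) ∧
      ∀ t : κ, (∀ v : Fin (n + 1) → κ, v ∈ Pos F d (tr t γ) ↔
          (∑ i, (MvPolynomial.aeval γ (MvPolynomial.pderiv i F)).eval t * v i = 0 ∧
            ∀ j, ∑ i, (dq (l j) (MvPolynomial.aeval γ (MvPolynomial.pderiv i F))).eval t * v i = 0)) ∧
        LinearIndependent κ (fun (j : Option (Fin s)) (i : Fin (n + 1)) =>
          (j.elim (MvPolynomial.aeval γ (MvPolynomial.pderiv i F))
            (fun j => dq (l j) (MvPolynomial.aeval γ (MvPolynomial.pderiv i F)))).eval t) := by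
  have hd : 1 ≤ d := h.1
  have hγ : ∀ i, (γ i).natDegree ≤ d := h.2.1.1
  obtain ⟨l, h1, h2, h3⟩ := B6_func F γ hs hmin
  refine ⟨l, h1, fun j a ha => ?_, fun t => ⟨fun v => ?_, ?_⟩⟩
  · exact (h2 _ (B6_img F hn hF hd hγ a ha)).2 ⟨a, ha, rfl⟩ j
  · rw [B6_pos_iff F hd, ← h2 _ (B6_h_deg F hn hF hd hγ t v)]
    simp only [B6_h_pr]
  · rw [Fintype.linearIndependent_iff]
    intro c hc
    have hc' : ∀ i, c none * (MvPolynomial.aeval γ (MvPolynomial.pderiv i F)).eval t +
        ∑ j, c (some j) *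
          (dq (l j) (MvPolynomial.aeval γ (MvPolynomial.pderiv i F))).eval t = 0 := by
      intro i
      have := congrFun hc i
      rw [Fintype.sum_option] at this
      simpa [Finset.sum_apply] using this
    have h4 : ∀ j, c (some j) = 0 := by
      refine h3 (fun j => c (some j)) fun f hf => ?_
      -- the functional vanishes on `f`
      obtain ⟨a, ha, hag⟩ := h.2.2 ((X - C t) * f) (by
        by_cases h0 : f = 0
        · rw [h0, mul_zero, degree_zero]
          exact WithBot.bot_lt_coe _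
        · have h4 : f.natDegree < n * d - 1 := (natDegree_lt_iff_degree_lt h0).2 hf
          refine degree_le_natDegree.trans_lt ?_
          have h5 := natDegree_mul_le (p := X - C t) (q := f)
          rw [natDegree_X_sub_C] at h5
          have h6 : ((X - C t) * f).natDegree < n * d := by omega
          exact_mod_cast h6)
      have h5 := B6_split F t γ a
      rw [hag] at h5
      have h6 : ∑ i, (MvPolynomial.aeval γ (MvPolynomial.pderiv i F)).eval t * (a i).eval t =
          0 := by
        have := congrArg (eval t) h5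
        rw [eval_add, eval_C, eval_mul, eval_mul, eval_sub, eval_X, eval_C, sub_self, zero_mul,
          zero_mul, add_zero] at this
        exact this.symm
      rw [h6, C_0, zero_add] at h5
      have h7 := mul_left_cancel₀ (X_sub_C_ne_zero t) h5
      have h8 : ∀ j, pr (l j) f = pr (l j) (B6_h F γ t fun i => (a i).eval t) := by
        intro j
        rw [h7, pr_add]
        have h9 := (h2 _ (B6_img F hn hF hd hγ (fun i => a i /ₘ (X - C t))
          fun i => B6_div_deg _ _ _ (ha i))).2 ⟨_, fun i => B6_div_deg _ _ _ (ha i), rfl⟩ j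
        rw [h9, add_zero]
      simp only [h8, B6_h_pr]
      calc ∑ j, c (some j) * ∑ i, (dq (l j) (MvPolynomial.aeval γ
              (MvPolynomial.pderiv i F))).eval t * (a i).eval t
          = ∑ i, (∑ j, c (some j) * (dq (l j) (MvPolynomial.aeval γ
              (MvPolynomial.pderiv i F))).eval t) * (a i).eval t := by
            simp only [Finset.mul_sum, Finset.sum_mul]
            rw [Finset.sum_comm]
            exact Finset.sum_congr rfl fun i _ => Finset.sum_congr rfl fun j _ => by ring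
        _ = ∑ i, -(c none * ((MvPolynomial.aeval γ (MvPolynomial.pderiv i F)).eval t *
              (a i).eval t)) := by
            refine Finset.sum_congr rfl fun i _ => ?_
            linear_combination ((a i).eval t) * hc' i
        _ = 0 := by rw [Finset.sum_neg_distrib, ← Finset.mul_sum, h6, mul_zero, neg_zero]
    have h5 : c none = 0 := by
      by_contra h0
      have h6 : ∀ i, (MvPolynomial.aeval γ (MvPolynomial.pderiv i F)).eval t = 0 := by
        intro i
        have := hc' i
        simp only [h4, zero_mul, Finset.sum_const_zero, add_zero] at this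
        exact (mul_eq_zero.1 this).resolve_left h0
      have h7 : Ideal.span (Set.range fun i => MvPolynomial.aeval γ (MvPolynomial.pderiv i F)) ≤
          RingHom.ker (evalRingHom t) := by
        rw [Ideal.span_le]
        rintro _ ⟨i, rfl⟩
        exact h6 i
      rw [h.span_grad F hn] at h7
      have h8 : (1 : κ[X]) ∈ RingHom.ker (evalRingHom t) := h7 Submodule.mem_top
      rw [RingHom.mem_ker, map_one] at h8
      exact one_ne_zero h8
    intro j
    cases j with
    | none => exact h5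
    | some j => exact h4 j

theorem finrank_pos {k : Type} [Field k] {n : ℕ} (hn : 2 ≤ n) (F : MvPolynomial (Fin (n + 1)) k)
    (hF : F.IsHomogeneous n) {κ : Type} [Field κ] [Algebra k κ] (d s : ℕ) (γ : Fin (n + 1) → κ[X])
    (h : Free F d γ) (hs : Cor F d γ s) (hmin : ∀ c < s, ¬ Cor F d γ c) :
    Module.finrank κ (Pos F d γ) + s = n := by
  obtain ⟨l, h1, h2, h3⟩ := rows hn F hF d s γ h hs hmin
  obtain ⟨h4, h5⟩ := h3 0
  have e : tr 0 γ = γ := by
    funext i
    unfold tr
    rw [C_0, add_zero, comp_X]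
  rw [e] at h4
  let M : Matrix (Option (Fin s)) (Fin (n + 1)) κ := fun j i =>
    (j.elim (MvPolynomial.aeval γ (MvPolynomial.pderiv i F))
      (fun j => dq (l j) (MvPolynomial.aeval γ (MvPolynomial.pderiv i F)))).eval 0
  have h6 : Pos F d γ = LinearMap.ker M.mulVecLin := by
    ext v
    rw [h4, LinearMap.mem_ker, Matrix.mulVecLin_apply, funext_iff]
    constructor
    · rintro ⟨h7, h8⟩ j
      cases j with
      | none => exact h7
      | some j => exact h8 j
    · intro h7
      exact ⟨h7 none, fun j => h7 (some j)⟩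
  have h7 : M.rank = s + 1 := by
    have : LinearIndependent κ M.row := h5
    rw [this.rank_matrix]
    simp
  have h8 := LinearMap.finrank_range_add_finrank_ker M.mulVecLin
  rw [← h6] at h8
  have h9 : Module.finrank κ (LinearMap.range M.mulVecLin) = s + 1 := h7
  rw [h9] at h8
  simp only [Module.finrank_fintype_fun_eq_card, Fintype.card_fin] at h8
  omega

end Q9
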