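import Pool.Agent.LibQ9.B6
import Pool.Agent.LibQ9.B3

/-!
[Q9 B7] (STRONG; may cite B0, B2, B3, B6 as stated) The minors `M_J(t)`: Plücker vector of `Pos` along a free curve of corank exactly `s`, of degree exactly `(n-1-s) d`.

PLAN. `l` and the matrix `N(t)` (rows `G = ∇F(γ)`, `Φ_j = dq (l_j) G`) from B6; `M J = det` of the columns `J` (over `κ[X]`). (a), (c) are B6 `rows` (linearly independent rows: some maximal minor is `≠ 0`; kernel = `Pos`). (b) the degree. Write `N = (n-1) d`, `γ* = rv d γ`, `G* = reflect N G`
(`∇F(γ*)`), `l*_j i = l_j (nd - 2 - i)` for `i ≤ nd - 2`, `0` otherwise: these are functionals of the same kind for `γ*` (they kill the image for `γ*`: `reflect`, see B3). CLAIM, identity of polynomials in `t` and `t⁻¹` (`t ≠ 0` in an infinite field, or in Laurent polynomials; or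
coefficient by coefficient): `Φ*_j(1/t) = - t^d Φ_j(t) + t^(1-N) c_j(t) G(t)`, `c_j(t) = dq (l_j) (X^(nd-1))(t)`, `G*(1/t) = t^(-N) G(t)`. Proof: `(G*(τ) - G*(u))/(τ - u)` with `τ = 1/σ, u = 1/t` equals `- t σ (σ^(-N) G(σ) - t^(-N) G(t))/(σ - t)`; apply `l*` in `τ`, i.e. multiply by `σ^(nd-2)` and apply
`l` in `σ`: `- t l_σ ((σ^(d-1) G(σ) - σ^(nd-1) t^(-N) G(t))/(σ - t))`; write the numerator as `[σ^(d-1) G(σ) - t^(d-1) G(t)] - G(t) t^(-N) [σ^(nd-1) - t^(nd-1)]`; `(σ^(d-1) G(σ) - t^(d-1) G(t))/(σ - t) = G(σ) (σ^(d-1) - t^(d-1))/(σ - t) + t^(d-1) (G(σ) - G(t))/(σ - t)` and `l` kills `G_i(σ) σ^a`, `a < d - 1`.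
Hence `M*_J(1/t) = t^(-N) (-t^d)^s M_J(t)`, where `M*_J` are the minors for `γ*`, `l*`: `M_J(t) = (-1)^s t^(N - sd) M*_J(1/t)` with `N - s d = (n-1-s) d`. `M*_J` is a polynomial in `1/t`, so `deg M_J ≤ (n-1-s) d`, and `M*_J(0) ≠ 0` for some `J`: linear independence of the rows at `u = 0` for `γ*`: same argument as
B6 (b) with the functionals `l*` (they are a basis of the functionals for `γ*` since reversal is a bijection). `s ≤ n - 1`: `M_J ≠ 0` for some `J` forces `(n-1-s) d ≥ 0` in `ℤ` (and `d ≥ 1`). In the statement `(n - 1 - s) * d` is with natural subtraction, `s ≤ n - 1` is part of the claim.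
-/

set_option autoImplicit false

namespace Q9

open Polynomial

section aux

variable {κ : Type} [Field κ]

private theorem B7_pr_monomial (l : ℕ → κ) (r : ℕ) (c : κ) : pr l (monomial r c) = c * l r := by
  unfold pr
  rw [Polynomial.sum_monomial_index]
  simp

private theorem B7_dq_monomial (l : ℕ → κ) (r : ℕ) (c : κ) :
    dq l (monomial r c) = ∑ j ∈ Finset.range r, monomial (r - 1 - j) (c * l j) := by
  unfold dq
  rw [Polynomial.sum_monomial_index]
  simp

private theorem B7_coeff_sum (r : ℕ) (a : ℕ → κ) (e : ℕ) :
    (∑ j ∈ Finset.range r, monomial (r - 1 - j) (a j)).coeff e =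
      if e < r then a (r - 1 - e) else 0 := by
  rw [finsetSum_coeff]
  simp only [coeff_monomial]
  split_ifs with h
  · rw [Finset.sum_eq_single (r - 1 - e)]
    · rw [if_pos (by omega)]
    · intro j hj hne
      rw [Finset.mem_range] at hj
      rw [if_neg (by omega)]
    · intro hn
      exact absurd (Finset.mem_range.2 (by omega)) hn
  · apply Finset.sum_eq_zero
    intro j hj
    rw [Finset.mem_range] at hj
    rw [if_neg (by omega)]

/-- the reversed truncated tail -/
private noncomputable def B7_L (l : ℕ → κ) (K : ℕ) : κ[X] :=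
  ∑ i ∈ Finset.range K, monomial (K - 1 - i) (l i)

private theorem B7_rem (l : ℕ → κ) (K : ℕ) (hl : ∀ i, K ≤ i → l i = 0) (f : κ[X]) (m : ℕ) :
    (f * B7_L l K - X ^ K * dq l f).coeff m =
      if m < K then pr l (X ^ (K - 1 - m) * f) else 0 := by
  induction f using Polynomial.induction_on' with
  | add p q hp hq =>
    have h1 : (p + q) * B7_L l K - X ^ K * dq l (p + q) =
        (p * B7_L l K - X ^ K * dq l p) + (q * B7_L l K - X ^ K * dq l q) := by
      rw [dq_add]; ring
    rw [h1, coeff_add, hp, hq, mul_add, pr_add]
    split_ifs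
    · rfl
    · exact add_zero 0
  | monomial r c =>
    have h1 : (monomial r c * B7_L l K).coeff m =
        if r ≤ m then c * (if m - r < K then l (K - 1 - (m - r)) else 0) else 0 := by
      rw [← C_mul_X_pow_eq_monomial, mul_assoc, coeff_C_mul, mul_comm (X ^ r), coeff_mul_X_pow']
      split_ifs with h2 h3
      · rw [B7_L, B7_coeff_sum, if_pos h3]
      · rw [B7_L, B7_coeff_sum, if_neg h3]
      · exact mul_zero c
    have h2 : (X ^ K * dq l (monomial r c)).coeff m =
        if K ≤ m then (if m - K < r then c * l (r - 1 - (m - K)) else 0) else 0 := by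
      rw [mul_comm, coeff_mul_X_pow', B7_dq_monomial, B7_coeff_sum]
    have h3 : pr l (X ^ (K - 1 - m) * monomial r c) = c * l (K - 1 - m + r) := by
      rw [X_pow_mul_monomial, B7_pr_monomial]
      congr 2
      omega
    rw [coeff_sub, h1, h2, h3]
    by_cases hm : m < K
    · rw [if_pos hm, if_neg (show ¬ K ≤ m by omega), sub_zero]
      by_cases hr : r ≤ m
      · rw [if_pos hr, if_pos (show m - r < K by omega)]
        congr 2
        omega
      · rw [if_neg hr, hl _ (by omega), mul_zero]
    · rw [if_neg hm, if_pos (show K ≤ m by omega)]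
      by_cases hr : r ≤ m
      · rw [if_pos hr]
        by_cases hmr : m - r < K
        · rw [if_pos hmr, if_pos (show m - K < r by omega)]
          have : K - 1 - (m - r) = r - 1 - (m - K) := by omega
          rw [this, sub_self]
        · rw [if_neg hmr, if_neg (show ¬ m - K < r by omega), mul_zero, sub_self]
      · rw [if_neg hr, if_pos (show m - K < r by omega), hl _ (by omega), mul_zero, sub_self]

private theorem B7_prod {ι : Type} (s : Finset ι) (f : ι → κ[X]) (e : ι → ℕ)
    (h : ∀ i ∈ s, (f i).natDegree ≤ e i) :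
    (∏ i ∈ s, f i).natDegree ≤ ∑ i ∈ s, e i ∧
      (∏ i ∈ s, f i).coeff (∑ i ∈ s, e i) = ∏ i ∈ s, (f i).coeff (e i) := by
  classical
  induction s using Finset.induction_on with
  | empty => simp
  | insert a s ha ih =>
    obtain ⟨h1, h2⟩ := ih fun i hi => h i (Finset.mem_insert_of_mem hi)
    rw [Finset.prod_insert ha, Finset.sum_insert ha, Finset.prod_insert ha]
    have h3 := h a (Finset.mem_insert_self a s)
    exact ⟨natDegree_mul_le_of_le h3 h1, by rw [coeff_mul_add_eq_of_natDegree_le h3 h1, h2]⟩

private theorem B7_det {m : ℕ} (A : Matrix (Fin m) (Fin m) κ[X]) (e : Fin m → ℕ)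
    (h : ∀ i j, (A i j).natDegree ≤ e i) :
    A.det.natDegree ≤ ∑ i, e i ∧
      A.det.coeff (∑ i, e i) = (Matrix.of fun i j => (A i j).coeff (e i)).det := by
  have key : ∀ σ : Equiv.Perm (Fin m), (∏ i, A (σ i) i).natDegree ≤ ∑ i, e i ∧
      (∏ i, A (σ i) i).coeff (∑ i, e i) = ∏ i, (A (σ i) i).coeff (e (σ i)) := by
    intro σ
    have := B7_prod Finset.univ (fun i => A (σ i) i) (fun i => e (σ i)) (fun i _ => h (σ i) i)
    rwa [Equiv.sum_comp σ e] at this
  constructor
  · rw [Matrix.det_apply]
    apply natDegree_sum_le_of_forall_le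
    intro σ _
    exact (natDegree_smul_le _ _).trans (key σ).1
  · rw [Matrix.det_apply, Matrix.det_apply, finsetSum_coeff]
    apply Finset.sum_congr rfl
    intro σ _
    rw [coeff_smul, (key σ).2]
    rfl

private theorem B7_minor {m N : ℕ} (B : Matrix (Fin m) (Fin N) κ)
    (h : LinearIndependent κ (fun i => B i)) : ∃ J : Fin m → Fin N, (B.submatrix id J).det ≠ 0 := by
  have hrank : B.rank = m := by
    have := LinearIndependent.rank_matrix (M := B) h
    rwa [Fintype.card_fin] at this
  rw [Matrix.rank_eq_finrank_span_cols] at hrank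
  obtain ⟨f, hf1, -, hf3⟩ := Submodule.exists_fun_fin_finrank_span_eq κ (Set.range B.col)
  have hf3' : LinearIndependent κ (fun i : Fin m => f (Fin.cast hrank.symm i)) :=
    hf3.comp _ (Fin.cast_injective hrank.symm)
  choose J hJ using fun i : Fin m => hf1 (Fin.cast hrank.symm i)
  refine ⟨J, ?_⟩
  have h1 : (B.submatrix id J).transpose = Matrix.of fun i : Fin m => f (Fin.cast hrank.symm i) := by
    ext i j
    rw [Matrix.of_apply, ← hJ i]
    rfl
  have h2 : IsUnit (B.submatrix id J).transpose := by
    rw [h1]
    exact Matrix.linearIndependent_rows_iff_isUnit.1 hf3'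
  rw [Matrix.isUnit_transpose] at h2
  exact ((Matrix.isUnit_iff_isUnit_det _).1 h2).ne_zero

end aux

theorem minors {k : Type} [Field k] {n : ℕ} (hn : 2 ≤ n) (F : MvPolynomial (Fin (n + 1)) k)
    (hF : F.IsHomogeneous n) {κ : Type} [Field κ] [Infinite κ] [Algebra k κ] (d s : ℕ)
    (γ : Fin (n + 1) → κ[X]) (h : Free F d γ) (hs : Cor F d γ s) (hmin : ∀ c < s, ¬ Cor F d γ c) :
    s ≤ n - 1 ∧ ∃ M : (Fin (s + 1) → Fin (n + 1)) → κ[X],
      (∀ t : κ, ∃ J, (M J).eval t ≠ 0) ∧
      (∀ J, (M J).natDegree ≤ (n - 1 - s) * d) ∧ (∃ J, (M J).coeff ((n - 1 - s) * d) ≠ 0) ∧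
      ∀ t : κ, Plu (Pos F d (tr t γ)) (fun J => (M J).eval t) := by
  classical
  obtain ⟨l, hl0, hlk, hr⟩ := rows hn F hF d s γ h hs hmin
  have hd : 1 ≤ d := h.1
  have hOn : On F d γ := h.2.1
  have hsurj := h.2.2
  set G : Fin (n + 1) → κ[X] := fun i => MvPolynomial.aeval γ (MvPolynomial.pderiv i F) with hG
  have hgrad : ∀ a : Fin (n + 1) → κ[X], grad F γ a = ∑ i, G i * a i := fun a => rfl
  have hGd : ∀ i, (G i).natDegree ≤ (n - 1) * d := by
    intro i
    have h1 : G i = MvPolynomial.aeval γ
        (MvPolynomial.map (algebraMap k κ) (MvPolynomial.pderiv i F)) := by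
      rw [MvPolynomial.aeval_map_algebraMap]
    rw [h1]
    apply MvPolynomial.aeval_natDegree_le _ _ _ hOn.1
    exact ((hF.pderiv (i := i)).map (algebraMap k κ)).totalDegree_le
  obtain ⟨K, hK⟩ : ∃ K, n * d = K + 1 := ⟨n * d - 1, by
    have : 1 ≤ n * d := Nat.mul_pos (by omega) hd
    omega⟩
  have hnd : (n - 1) * d + d = K + 1 := by
    rw [← hK]
    obtain ⟨n', rfl⟩ : ∃ n', n = n' + 1 := ⟨n - 1, by omega⟩
    rw [Nat.add_sub_cancel]
    ring
  have hn1 : 1 ≤ (n - 1) * d := Nat.mul_pos (by omega) hd
  have hK1 : n * d - 1 = K := by omega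
  have hKd : K - d = (n - 1) * d - 1 := by omega
  rw [hK1] at hl0
  -- the functionals kill the low products
  have hlow : ∀ (j : Fin s) (i : Fin (n + 1)) (a : ℕ), a < d - 1 → pr (l j) (X ^ a * G i) = 0 := by
    intro j i a ha
    have h1 := hlk j (Pi.single i (X ^ a)) (by
      intro i'
      by_cases hi : i' = i
      · subst hi
        rw [Pi.single_eq_same, degree_X_pow]
        exact_mod_cast ha
      · rw [Pi.single_eq_of_ne hi, degree_zero]
        exact WithBot.bot_lt_coe _)
    rw [hgrad, Finset.sum_eq_single i (by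
      intro b _ hb
      rw [Pi.single_eq_of_ne hb, mul_zero]) (by
      intro hi
      exact absurd (Finset.mem_univ i) hi), Pi.single_eq_same, mul_comm] at h1
    exact h1
  -- remainders
  set R : Fin s → Fin (n + 1) → κ[X] := fun j i => G i * B7_L (l j) K - X ^ K * dq (l j) (G i)
    with hR
  have hRc : ∀ j i m, (R j i).coeff m =
      if m < K then pr (l j) (X ^ (K - 1 - m) * G i) else 0 :=
    fun j i m => B7_rem (l j) K (fun e he => hl0 j e he) (G i) m
  have hRd : ∀ j i, (R j i).natDegree ≤ K - d := by
    intro j i
    rw [natDegree_le_iff_coeff_eq_zero]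
    intro m hm
    rw [hRc]
    split_ifs with hmK
    · exact hlow j i _ (by omega)
    · rfl
  have hRt : ∀ j i, (R j i).coeff (K - d) = pr (l j) (X ^ (d - 1) * G i) := by
    intro j i
    rw [hRc, if_pos (by omega)]
    congr 3
    omega
  -- the matrix
  set N : Matrix (Fin (s + 1)) (Fin (n + 1)) κ[X] :=
    Matrix.of (Fin.cons G (fun j i => dq (l j) (G i))) with hN
  have hN0 : ∀ i, N 0 i = G i := fun i => rfl
  have hNs : ∀ (j : Fin s) i, N j.succ i = dq (l j) (G i) := fun j i => rfl
  have hNrow : ∀ t : κ, LinearIndependent κ (fun (a : Fin (s + 1)) (i : Fin (n + 1)) =>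
      (N a i).eval t) := by
    intro t
    have h1 := (hr t).2.comp (finSuccEquiv s) (finSuccEquiv s).injective
    convert h1 using 1
    funext a i
    refine Fin.cases ?_ (fun j => ?_) a
    · simp only [Function.comp_apply, finSuccEquiv_zero, Option.elim_none]
      rfl
    · simp only [Function.comp_apply, finSuccEquiv_succ, Option.elim_some]
      rfl
  set M : (Fin (s + 1) → Fin (n + 1)) → κ[X] := fun J => (N.submatrix id J).det with hM
  have hMe : ∀ (t : κ) J, (M J).eval t =
      ((Matrix.of fun a i => (N a i).eval t).submatrix id J).det := by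
    intro t J
    have h1 := RingHom.map_det (evalRingHom t) (N.submatrix id J)
    rw [coe_evalRingHom] at h1
    rw [hM]
    refine h1.trans ?_
    congr 1
  have hMne : ∀ t : κ, ∃ J, (M J).eval t ≠ 0 := by
    intro t
    obtain ⟨J, hJ⟩ := B7_minor (Matrix.of fun a i => (N a i).eval t) (hNrow t)
    exact ⟨J, by rw [hMe]; exact hJ⟩
  -- the determinant identity
  set A : (Fin (s + 1) → Fin (n + 1)) → Matrix (Fin (s + 1)) (Fin (s + 1)) κ[X] := fun J =>
    Matrix.of (Fin.cons (fun i => G (J i)) (fun j i => - R j (J i))) with hA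
  have hdet : ∀ J, M J * X ^ (K * s) = (A J).det := by
    intro J
    have h1 : (Matrix.of fun (a : Fin (s + 1)) (i : Fin (s + 1)) =>
        (Fin.cons 1 (fun _ => X ^ K) : Fin (s + 1) → κ[X]) a * (N.submatrix id J) a i).det =
        (∏ a, (Fin.cons 1 (fun _ => X ^ K) : Fin (s + 1) → κ[X]) a) * M J :=
      Matrix.det_mul_column _ _
    have h2 : (∏ a, (Fin.cons 1 (fun _ => X ^ K) : Fin (s + 1) → κ[X]) a) = X ^ (K * s) := by
      rw [Fin.prod_univ_succ]
      simp only [Fin.cons_zero, Fin.cons_succ, Finset.prod_const, Finset.card_univ,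
        Fintype.card_fin, one_mul]
      rw [← pow_mul]
    rw [h2, mul_comm] at h1
    rw [← h1]
    refine Matrix.det_eq_of_forall_row_eq_smul_add_const
      (Fin.cons 0 (fun j => B7_L (l j) K) : Fin (s + 1) → κ[X]) 0 rfl ?_
    intro a i
    refine Fin.cases ?_ (fun j => ?_) a
    · simp only [Matrix.of_apply, Fin.cons_zero, zero_mul, add_zero, one_mul, hA,
        Matrix.submatrix_apply, id_eq]
      rfl
    · simp only [Matrix.of_apply, Fin.cons_zero, Fin.cons_succ, hA,
        Matrix.submatrix_apply, id_eq]
      rw [hNs, hR]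
      ring
  set e : Fin (s + 1) → ℕ := Fin.cons ((n - 1) * d) (fun _ => K - d) with he
  have hsum : ∑ a, e a = (n - 1) * d + s * (K - d) := by
    rw [Fin.sum_univ_succ]
    simp [he]
  have hAd : ∀ J a i, (A J a i).natDegree ≤ e a := by
    intro J a i
    refine Fin.cases ?_ (fun j => ?_) a
    · exact hGd (J i)
    · change (- R j (J i)).natDegree ≤ K - d
      rw [natDegree_neg]
      exact hRd j (J i)
  -- the degrees
  have hdeg : ∀ J, M J ≠ 0 → (M J).natDegree + K * s ≤ (n - 1) * d + s * (K - d) := by
    intro J hJ
    have h1 := (B7_det (A J) e (hAd J)).1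
    rwa [← hdet J, natDegree_mul_X_pow _ hJ, hsum] at h1
  have hKdle : d ≤ K := by omega
  have hsd : s * d ≤ (n - 1) * d := by
    obtain ⟨J, hJ⟩ := hMne 0
    have h1 := hdeg J (by
      intro h0
      rw [h0, eval_zero] at hJ
      exact hJ rfl)
    have h2 : s * (K - d) + s * d = s * K := by
      rw [← Nat.mul_add, Nat.sub_add_cancel hKdle]
    have h3 : K * s = s * K := Nat.mul_comm _ _
    omega
  have hsn : s ≤ n - 1 := Nat.le_of_mul_le_mul_right hsd hd
  have hnum : (n - 1) * d + s * (K - d) = (n - 1 - s) * d + K * s := by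
    have h2 : s * (K - d) + s * d = s * K := by
      rw [← Nat.mul_add, Nat.sub_add_cancel hKdle]
    have h3 : K * s = s * K := Nat.mul_comm _ _
    have h4 : (n - 1 - s) * d + s * d = (n - 1) * d := by
      rw [← Nat.add_mul, Nat.sub_add_cancel hsn]
    omega
  have hcoef : ∀ J, (M J).coeff ((n - 1 - s) * d) =
      (Matrix.of fun a i => (A J a i).coeff (e a)).det := by
    intro J
    have h1 := (B7_det (A J) e (hAd J)).2
    rwa [← hdet J, hsum, hnum, coeff_mul_X_pow] at h1
  refine ⟨hsn, M, hMne, ?_, ?_, ?_⟩
  · intro J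
    by_cases hJ : M J = 0
    · rw [hJ, natDegree_zero]
      exact Nat.zero_le _
    · have := hdeg J hJ
      omega
  · -- independence at infinity
    let Binf : Matrix (Fin (s + 1)) (Fin (n + 1)) κ := Matrix.of
      (Fin.cons (fun i => (G i).coeff ((n - 1) * d))
        (fun j i => (- R j i).coeff (K - d)))
    have hind : LinearIndependent κ (fun a => Binf a) := by
      rw [Fintype.linearIndependent_iff]
      intro g hg
      -- the modified functional
      let lp : ℕ → κ := fun m => (∑ j, g (Fin.succ j) * l j m) - (if m = K then g 0 else 0)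
      have hlp : ∀ f : κ[X], pr lp f =
          (∑ j, g (Fin.succ j) * pr (l j) f) - g 0 * f.coeff K := by
        intro f
        induction f using Polynomial.induction_on' with
        | add p q hp hq =>
          rw [pr_add, hp, hq, coeff_add]
          simp only [pr_add, mul_add, Finset.sum_add_distrib]
          ring
        | monomial r c =>
          simp only [B7_pr_monomial, coeff_monomial, lp]
          rw [mul_sub, Finset.mul_sum]
          congr 1
          · exact Finset.sum_congr rfl fun j _ => by ring
          · split_ifs <;> ring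
      have hkill : ∀ i a, a < d → pr lp (X ^ a * G i) = 0 := by
        intro i a ha
        rw [hlp]
        by_cases had : a < d - 1
        · have h1 : (X ^ a * G i).coeff K = 0 := by
            apply coeff_eq_zero_of_natDegree_lt
            have h2 : (X ^ a * G i).natDegree ≤ a + (n - 1) * d :=
              natDegree_mul_le_of_le (natDegree_X_pow_le a) (hGd i)
            omega
          rw [h1, mul_zero, sub_zero]
          exact Finset.sum_eq_zero fun j _ => by rw [hlow j i a had, mul_zero]
        · have had' : a = d - 1 := by omega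
          subst had'
          have h1 : (X ^ (d - 1) * G i).coeff K = (G i).coeff ((n - 1) * d) := by
            have h2 : K = (n - 1) * d + (d - 1) := by omega
            rw [mul_comm, h2, coeff_mul_X_pow]
          have h3 := congrFun hg i
          rw [Fin.sum_univ_succ] at h3
          simp only [Pi.add_apply, Finset.sum_apply, Pi.smul_apply, smul_eq_mul, Pi.zero_apply]
            at h3
          have h4 : ∀ j : Fin s, Binf j.succ i = - pr (l j) (X ^ (d - 1) * G i) := by
            intro j
            change (- R j i).coeff (K - d) = _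
            rw [coeff_neg, hRt]
          have h5 : Binf 0 i = (G i).coeff ((n - 1) * d) := rfl
          simp only [h4, h5, mul_neg, Finset.sum_neg_distrib] at h3
          rw [h1]
          linear_combination - h3
      have hker : ∀ f : κ[X], f.degree < (n * d : ℕ) → pr lp f = 0 := by
        intro f hf
        obtain ⟨a, ha, rfl⟩ := hsurj f hf
        rw [hgrad]
        have hsumpr : ∀ (S : Finset (Fin (n + 1))) (u : Fin (n + 1) → κ[X]),
            pr lp (∑ i ∈ S, u i) = ∑ i ∈ S, pr lp (u i) := by
          intro S u
          induction S using Finset.induction_on with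
          | empty => simp [pr]
          | insert b S hb ih => rw [Finset.sum_insert hb, Finset.sum_insert hb, pr_add, ih]
        rw [hsumpr]
        apply Finset.sum_eq_zero
        intro i _
        have h1 : ∀ b : κ[X], (∀ m, d ≤ m → b.coeff m = 0) → pr lp (G i * b) = 0 := by
          intro b hb
          have h2 : b = ∑ m ∈ Finset.range d, C (b.coeff m) * X ^ m := by
            ext m
            rw [finsetSum_coeff]
            simp only [coeff_C_mul_X_pow]
            by_cases hm : m < d
            · rw [Finset.sum_eq_single m]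
              · rw [if_pos rfl]
              · intro m' _ hne
                rw [if_neg (Ne.symm hne)]
              · intro hn'
                exact absurd (Finset.mem_range.2 hm) hn'
            · rw [hb m (by omega)]
              symm
              apply Finset.sum_eq_zero
              intro m' hm'
              rw [Finset.mem_range] at hm'
              rw [if_neg (by omega)]
          rw [h2, Finset.mul_sum]
          have hsumpr' : ∀ (S : Finset ℕ) (u : ℕ → κ[X]),
              pr lp (∑ i ∈ S, u i) = ∑ i ∈ S, pr lp (u i) := by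
            intro S u
            induction S using Finset.induction_on with
            | empty => simp [pr]
            | insert b S hb ih => rw [Finset.sum_insert hb, Finset.sum_insert hb, pr_add, ih]
          rw [hsumpr']
          apply Finset.sum_eq_zero
          intro m hm
          rw [Finset.mem_range] at hm
          have h3 : G i * (C (b.coeff m) * X ^ m) = C (b.coeff m) * (X ^ m * G i) := by ring
          rw [h3, pr_C_mul, hkill i m hm, mul_zero]
        apply h1
        intro m hm
        apply coeff_eq_zero_of_degree_lt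
        refine lt_of_lt_of_le (ha i) ?_
        exact_mod_cast hm
      have hlp0 : ∀ m, m < n * d → lp m = 0 := by
        intro m hm
        rw [← pr_X_pow lp m]
        apply hker
        rw [degree_X_pow]
        exact_mod_cast hm
      have hg0 : g 0 = 0 := by
        have h1 := hlp0 K (by omega)
        simp only [lp, if_pos] at h1
        have h2 : ∑ j, g (Fin.succ j) * l j K = 0 :=
          Finset.sum_eq_zero fun j _ => by rw [hl0 j K le_rfl, mul_zero]
        rw [h2, zero_sub, neg_eq_zero] at h1
        exact h1
      have hcomb : ∀ m, ∑ j, g (Fin.succ j) * l j m = 0 := by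
        intro m
        by_cases hm : m < K
        · have h1 := hlp0 m (by omega)
          simp only [lp] at h1
          rw [if_neg (by omega), sub_zero] at h1
          exact h1
        · exact Finset.sum_eq_zero fun j _ => by rw [hl0 j m (by omega), mul_zero]
      have hdqc : ∀ f : κ[X], ∑ j, C (g (Fin.succ j)) * dq (l j) f = 0 := by
        intro f
        induction f using Polynomial.induction_on' with
        | add p q hp hq =>
          simp only [dq_add, mul_add, Finset.sum_add_distrib]
          rw [hp, hq, add_zero]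
        | monomial r c =>
          simp only [B7_dq_monomial]
          ext m
          rw [finsetSum_coeff, coeff_zero]
          have h1 : ∀ j : Fin s, (C (g (Fin.succ j)) *
              ∑ j' ∈ Finset.range r, monomial (r - 1 - j') (c * l j j')).coeff m =
              if m < r then c * (g (Fin.succ j) * l j (r - 1 - m)) else 0 := by
            intro j
            rw [coeff_C_mul, B7_coeff_sum]
            split_ifs <;> ring
          simp only [h1]
          split_ifs
          · rw [← Finset.mul_sum, hcomb, mul_zero]
          · exact Finset.sum_const_zero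
      have hgs : ∀ a : Fin (s + 1), g a = 0 := by
        have h1 := Fintype.linearIndependent_iff.1 (hNrow 0) g
        apply h1
        funext i
        rw [Fin.sum_univ_succ, hg0]
        simp only [zero_smul, zero_add, Finset.sum_apply, Pi.smul_apply, smul_eq_mul,
          Pi.zero_apply]
        have h2 := congrArg (eval 0) (hdqc (G i))
        rw [eval_finsetSum, eval_zero] at h2
        simp only [eval_mul, eval_C] at h2
        exact h2
      exact hgs
    obtain ⟨J, hJ⟩ := B7_minor Binf hind
    refine ⟨J, ?_⟩
    rw [hcoef]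
    have h1 : (Matrix.of fun a i => (A J a i).coeff (e a)) = Binf.submatrix id J := by
      ext a i
      refine Fin.cases ?_ (fun j => ?_) a
      · rfl
      · rfl
    rw [h1]
    exact hJ
  · intro t
    refine ⟨Matrix.of fun a i => (N a i).eval t, ?_, fun J => hMe t J, hMne t⟩
    intro v
    rw [(hr t).1 v]
    constructor
    · rintro ⟨h1, h2⟩
      funext a
      refine Fin.cases ?_ (fun j => ?_) a
      · exact h1
      · exact h2 j
    · intro h1
      exact ⟨congrFun h1 0, fun j => congrFun h1 j.succ⟩

end Q9
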