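import Pool.Agent.LibQ9.B2
import Pool.Agent.LibQ9.B3

/-!
[Q9 B8] (MEDIUM; may cite B2, B3 as stated) Reparametrisation such that the point at infinity avoids finitely many given points.

PLAN. `κ` infinite. For `c ≠ 0` put `γ'(σ) = Σ_j γ_j c^j σ^j (1 + σ)^(d-j)` (`= (1+σ)^d γ(c σ/(1+σ))`); it is obtained from `γ` by: reversal `rv d`, scaling of the parameter, translation, reversal: `γ(t) → γ(c t) → t^d γ(c/t) → (t+1)^d γ(c/(t+1)) → reversed: (1+t)^d γ(c t/(1+t))`; so it is free by B3 (`Free.rv`, `Free.tr`) and a lemma for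
`t ↦ c t` (substitute `C c * X`; same proof as `Free.tr`). `γ'(0) = γ(0)`, and the vector of coefficients of `σ^d` is `γ(c)`. It remains to choose `c ≠ 0` with `γ(c)` not proportional to any of the finitely many `P ∈ S`: for `P ≠ 0` the polynomials `P_i γ_j - P_j γ_i` are not all zero, otherwise
`γ = l P` with a polynomial `l`; `γ` primitive (B2 `Free.span`) makes `l` a nonzero constant, so `γ` is constant, but `vc γ d ≠ 0` with `d ≥ 1` (B2 `Free.lead`). So only finitely many `c` are bad.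
-/

set_option autoImplicit false

namespace Q9

open Polynomial

private theorem B8_coeff {κ : Type} [Field κ] {d : ℕ} (p : κ[X]) (hp : p.natDegree ≤ d) (s : κ) :
    (p.comp (X + C s)).coeff d = p.coeff d := by
  rcases hp.lt_or_eq with h | h
  · rw [coeff_eq_zero_of_natDegree_lt h, coeff_eq_zero_of_natDegree_lt]
    refine lt_of_le_of_lt natDegree_comp_le ?_
    rw [natDegree_X_add_C, mul_one]
    exact h
  · have h1 := coeff_comp_degree_mul_degree (p := p) (q := X + C s) (by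
      rw [natDegree_X_add_C]
      exact one_ne_zero)
    rw [natDegree_X_add_C, mul_one, leadingCoeff_X_add_C, one_pow, mul_one, leadingCoeff, h] at h1
    exact h1

private theorem B8_ne {k : Type} [Field k] {n : ℕ} (hn : 2 ≤ n) (F : MvPolynomial (Fin (n + 1)) k)
    (hF : F.IsHomogeneous n) {κ : Type} [Field κ] [Algebra k κ] (d : ℕ)
    (δ : Fin (n + 1) → κ[X]) (h : Free F d δ) (P : Fin (n + 1) → κ) (hP : P ≠ 0) :
    ∃ i j, C (P i) * δ j - C (P j) * δ i ≠ 0 := by
  by_contra hc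
  push Not at hc
  obtain ⟨i, hi⟩ := Function.ne_iff.1 hP
  have hi' : P i ≠ 0 := hi
  have h1 : ∀ j, δ j = C (P j * (P i)⁻¹) * δ i := by
    intro j
    have h2 := sub_eq_zero.1 (hc i j)
    have h3 : C (P i)⁻¹ * (C (P i) * δ j) = C (P i)⁻¹ * (C (P j) * δ i) := by rw [h2]
    rw [← mul_assoc, ← C_mul, inv_mul_cancel₀ hi', C_1, one_mul] at h3
    rw [h3, ← mul_assoc, ← C_mul, mul_comm (P i)⁻¹]
  have h2 : Ideal.span (Set.range δ) ≤ Ideal.span {δ i} := by
    rw [Ideal.span_le]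
    rintro _ ⟨j, rfl⟩
    rw [SetLike.mem_coe, Ideal.mem_span_singleton, h1 j]
    exact dvd_mul_left _ _
  rw [Free.span F hn hF h, top_le_iff, Ideal.span_singleton_eq_top] at h2
  have h3 : (δ i).natDegree = 0 := natDegree_eq_zero_of_isUnit h2
  apply Free.lead F hn hF h
  funext j
  show (δ j).coeff d = 0
  apply coeff_eq_zero_of_natDegree_lt
  have hd := h.1
  rw [h1 j]
  refine lt_of_le_of_lt natDegree_mul_le ?_
  rw [natDegree_C, h3]
  omega

theorem mobius {k : Type} [Field k] {n : ℕ} (hn : 2 ≤ n) (F : MvPolynomial (Fin (n + 1)) k)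
    (hF : F.IsHomogeneous n) {κ : Type} [Field κ] [Infinite κ] [Algebra k κ] (d : ℕ)
    (γ : Fin (n + 1) → κ[X]) (h : Free F d γ) (S : Finset (Fin (n + 1) → κ)) (hS : ∀ P ∈ S, P ≠ 0) :
    ∃ γ' : Fin (n + 1) → κ[X], Free F d γ' ∧ vc γ' 0 = vc γ 0 ∧
      ∀ P ∈ S, ∃ i j, P i * vc γ' d j ≠ P j * vc γ' d i := by
  classical
  have hδ : Free F d (rv d γ) := Free.rv F hn hF h
  have h1 : ∀ P : Fin (n + 1) → κ, ∃ q : Fin (n + 1) × Fin (n + 1), P ∈ S →
      C (P q.1) * (rv d γ) q.2 - C (P q.2) * (rv d γ) q.1 ≠ 0 := by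
    intro P
    by_cases hP : P ∈ S
    · obtain ⟨i, j, hij⟩ := B8_ne hn F hF d _ hδ P (hS P hP)
      exact ⟨(i, j), fun _ => hij⟩
    · exact ⟨(0, 0), fun h => absurd h hP⟩
  choose q hq using h1
  have h2 : ∏ P ∈ S, (C (P (q P).1) * (rv d γ) (q P).2 - C (P (q P).2) * (rv d γ) (q P).1) ≠ 0 :=
    Finset.prod_ne_zero_iff.2 fun P hP => hq P hP
  obtain ⟨s, hs⟩ : ∃ s, (∏ P ∈ S, (C (P (q P).1) * (rv d γ) (q P).2 -
      C (P (q P).2) * (rv d γ) (q P).1)).eval s ≠ 0 := by
    by_contra hc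
    push Not at hc
    exact h2 (Polynomial.funext fun r => by rw [hc r, eval_zero])
  rw [eval_prod] at hs
  have hs' := Finset.prod_ne_zero_iff.1 hs
  have hlead : ∀ i, vc (rv d (tr s (rv d γ))) d i = (rv d γ i).eval s := by
    intro i
    show (((rv d γ i).comp (X + C s)).reflect d).coeff d = _
    rw [coeff_reflect, revAt_le le_rfl, Nat.sub_self, coeff_zero_eq_eval_zero, eval_comp]
    simp
  refine ⟨rv d (tr s (rv d γ)), Free.rv F hn hF (Free.tr F hδ s), ?_, ?_⟩
  · funext i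
    show (((rv d γ i).comp (X + C s)).reflect d).coeff 0 = (γ i).coeff 0
    rw [coeff_reflect, revAt_le (Nat.zero_le d), Nat.sub_zero, B8_coeff _ (hδ.2.1.1 i)]
    show ((γ i).reflect d).coeff d = (γ i).coeff 0
    rw [coeff_reflect, revAt_le le_rfl, Nat.sub_self]
  · intro P hP
    refine ⟨(q P).1, (q P).2, ?_⟩
    rw [hlead, hlead]
    intro h3
    apply hs' P hP
    rw [eval_sub, eval_mul, eval_mul, eval_C, eval_C, h3, sub_self]

end Q9
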