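import Pool.Agent.LibQ9.PDefs

/-!
# LibQ9, block B: functionals on polynomials (Laurent tails), Plücker vectors
-/

set_option autoImplicit false

namespace Q9

open Polynomial

/-- the functional on `κ[X]` with value `l j` at `X ^ j` -/
noncomputable def pr {κ : Type} [Field κ] (l : ℕ → κ) (f : κ[X]) : κ := f.sum fun j c => c * l j

/-- the polynomial part of `f * Σ_j l_j t^(-1-j)` -/
noncomputable def dq {κ : Type} [Field κ] (l : ℕ → κ) (f : κ[X]) : κ[X] :=
  f.sum fun r c => ∑ j ∈ Finset.range r, monomial (r - 1 - j) (c * l j)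

/-- `r` is the vector of the maximal minors of a matrix `N` of rank `c` whose kernel is `W` -/
def Plu {κ : Type} [Field κ] {m c : ℕ} (W : Submodule κ (Fin m → κ)) (r : (Fin c → Fin m) → κ) :
    Prop :=
  ∃ N : Matrix (Fin c) (Fin m) κ, (∀ v, v ∈ W ↔ N.mulVec v = 0) ∧
    (∀ J, r J = (N.submatrix id J).det) ∧ ∃ J, r J ≠ 0

section

variable {κ : Type} [Field κ] {n : ℕ}

/-- translation of the parameter -/
noncomputable def tr (c : κ) (γ : Fin (n + 1) → κ[X]) : Fin (n + 1) → κ[X] :=
  fun i => (γ i).comp (X + C c)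

/-- scaling -/
noncomputable def sc (c : κ) (γ : Fin (n + 1) → κ[X]) : Fin (n + 1) → κ[X] := fun i => C c * γ i

/-- reversal of the parameter of a curve of degree at most `d` -/
noncomputable def rv (d : ℕ) (γ : Fin (n + 1) → κ[X]) : Fin (n + 1) → κ[X] :=
  fun i => (γ i).reflect d

/-- the coefficients of a vector of polynomials of degree at most `d` -/
def cf (d : ℕ) (γ : Fin (n + 1) → κ[X]) : Fin (n + 1) × Fin (d + 1) → κ :=
  fun a => (γ a.1).coeff a.2

/-- the vector of the coefficients of `X ^ j` -/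
def vc (γ : Fin (n + 1) → κ[X]) (j : ℕ) : Fin (n + 1) → κ := fun i => (γ i).coeff j

/-- change of the field -/
noncomputable def mp {κ' : Type} [Field κ'] (σ : κ →+* κ') (γ : Fin (n + 1) → κ[X]) :
    Fin (n + 1) → κ'[X] := fun i => (γ i).map σ

end

end Q9
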