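import Pool.Agent.LibQ9.CDefs

/-!
[Q9 C1] (MEDIUM/STRONG) The decomposition `F(x) = u + Σ_i c_i(e_i π_i)` with polynomial coefficients, and its reduction modulo `(e)`.

Write `w_i = C (π i) * inc (e i) ∈ MvPolynomial I KK`, `E = span (range e)`. Call a pair `(f, (σ_i)_i)`, `f ∈ MvPolynomial I KK`, `σ_i ∈ (MvPolynomial I k)[w]`, of degree `≤ J` (`J : Fin m → ℕ`) GOOD if there are `u ∈ MvPolynomial I O` and `c_i ∈ (MvPolynomial I k)[w]`, `coeff 0 = 0`,
`natDegree ≤ J i`, with `f = map O.subtype u + Σ_i c_i(w_i)` and `C (map (ev i) u) + c_i ≡ σ_i` modulo `E`, coefficientwise.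
PLAN. Good pairs are closed under addition (same `J`, or maximum) and under multiplication (`J + J'`): by additivity it is enough to multiply `a, a' ∈ {p f (p ∈ MvPolynomial I k, f ∈ O), p w_i^j}`:
* `f * w_i^j` (`f ∈ O`, `j ≥ 1`): with `∂_i f = (f - ev_i f) π_i ∈ O` (h1): `f π_i = ev_i(f) π_i + ∂_i f`, so `f w_i = ev_i(f) w_i + e_i ∂_i f`, and by induction `f w_i^j = ev_i(f) w_i^j + e_i * (combination of w_i^l, l < j, and of elements of O)`: good with symbol `ev_i(f) w^j` at `i` and `0` at the other points.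
* `w_i^j w_i'^j'` with `i ≠ i'`, `j, j' ≥ 1`: `w_i w_i' = e_i' a w_i + e_i b w_i' + e_i e_i' (element of O)` (h2), so by induction on `j + j'` it is good with all symbols `0` (note that `(element of E) * good` is good with symbol `0`, and degrees in `w_i` do not exceed `j`, in `w_i'` not `j'`).
Then `F`: a form of degree `N` with coefficients in `O` is a sum of monomials; the pair (`fam a`, `C (map (ev i) (x a)) + t a i`) is good of degree `d` for every `a`, so the pair (`F(fam)`, `F_i(...)`) is good of degree `N d` (`F_i`: coefficients mapped by `ev i`).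
Suggested: define the set of good pairs as a predicate `C1_Good J f σ` and prove `C1_good_add`, `C1_good_mul`, `C1_good_const` (`f ∈ O`), `C1_good_var`; then `MvPolynomial.induction`/sum over the support of `F`.
-/

set_option autoImplicit false

namespace Q9

open Polynomial

section C1_abs

variable {A O R : Type} [CommRing A] [CommRing O] [CommRing R] {m : ℕ}

/-- combinations of `κ g ι a` and `ι a ω_i^j`, `1 ≤ j ≤ J i` -/
private def C1_S (ι : A →+* R) (κ : O →+* R) (ω : Fin m → R) (J : Fin m → ℕ) : AddSubgroup R :=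
  AddSubgroup.closure ({r | ∃ g a, r = κ g * ι a} ∪ {r | ∃ i j a, 1 ≤ j ∧ j ≤ J i ∧ r = ι a * ω i ^ j})

private theorem C1_mem0 {ι : A →+* R} {κ : O →+* R} {ω : Fin m → R} {J : Fin m → ℕ} (g : O) (a : A) :
    κ g * ι a ∈ C1_S ι κ ω J := AddSubgroup.subset_closure (Or.inl ⟨g, a, rfl⟩)

private theorem C1_mem1 {ι : A →+* R} {κ : O →+* R} {ω : Fin m → R} {J : Fin m → ℕ} (i : Fin m) (j : ℕ) (a : A)
    (h1 : 1 ≤ j) (h2 : j ≤ J i) : ι a * ω i ^ j ∈ C1_S ι κ ω J :=
  AddSubgroup.subset_closure (Or.inr ⟨i, j, a, h1, h2, rfl⟩)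

private theorem C1_mono {ι : A →+* R} {κ : O →+* R} {ω : Fin m → R} {J J' : Fin m → ℕ} (h : J ≤ J') :
    C1_S ι κ ω J ≤ C1_S ι κ ω J' := by
  unfold C1_S
  rw [AddSubgroup.closure_le]
  rintro r (⟨g, a, rfl⟩ | ⟨i, j, a, h1, h2, rfl⟩)
  · exact C1_mem0 g a
  · exact C1_mem1 i j a h1 (h2.trans (h i))

private theorem C1_one {ι : A →+* R} {κ : O →+* R} {ω : Fin m → R} {J : Fin m → ℕ} (i : Fin m)
    (F1 : ∀ i g, ∃ a b g', κ g * ω i = ι a * ω i + ι b * κ g') (j : ℕ) (hj : j ≤ J i) :
    ∀ g a, κ g * ι a * ω i ^ j ∈ C1_S ι κ ω J := by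
  induction j with
  | zero =>
    intro g a
    rw [pow_zero, mul_one]
    exact C1_mem0 g a
  | succ j ih =>
    intro g a
    obtain ⟨a', b, g', h⟩ := F1 i g
    have h1 : κ g * ι a * ω i ^ (j + 1) = ι (a * a') * ω i ^ (j + 1) + κ g' * ι (a * b) * ω i ^ j := by
      rw [map_mul, map_mul, pow_succ]
      linear_combination (ι a * ω i ^ j) * h
    rw [h1]
    exact add_mem (C1_mem1 i (j + 1) _ (by omega) hj) (ih (by omega) _ _)

private theorem C1_two {ι : A →+* R} {κ : O →+* R} {ω : Fin m → R} {J : Fin m → ℕ} {i i' : Fin m}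
    (F1 : ∀ i g, ∃ a b g', κ g * ω i = ι a * ω i + ι b * κ g')
    (F2 : ∃ a b c g, ω i * ω i' = ι a * ω i + ι b * ω i' + ι c * κ g) (n : ℕ) :
    ∀ j j' : ℕ, j + j' ≤ n → j ≤ J i → j' ≤ J i' → ∀ g a, κ g * ι a * (ω i ^ j * ω i' ^ j') ∈ C1_S ι κ ω J := by
  induction n with
  | zero =>
    intro j j' h h1 h2 g a
    have e1 : j = 0 := by omega
    have e2 : j' = 0 := by omega
    rw [e1, e2, pow_zero, pow_zero, mul_one, mul_one]
    exact C1_mem0 g a
  | succ n ih =>
    intro j j' h h1 h2 g a
    obtain rfl | ⟨j, rfl⟩ : j = 0 ∨ ∃ j0, j = j0 + 1 := by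
      cases j
      · exact Or.inl rfl
      · exact Or.inr ⟨_, rfl⟩
    · rw [pow_zero, one_mul]
      exact C1_one i' F1 j' h2 g a
    obtain rfl | ⟨j', rfl⟩ : j' = 0 ∨ ∃ j0, j' = j0 + 1 := by
      cases j'
      · exact Or.inl rfl
      · exact Or.inr ⟨_, rfl⟩
    · rw [pow_zero, mul_one]
      exact C1_one i F1 (j + 1) h1 g a
    obtain ⟨a', b', c', g', h3⟩ := F2
    have h4 : κ g * ι a * (ω i ^ (j + 1) * ω i' ^ (j' + 1)) =
        κ g * ι (a * a') * (ω i ^ (j + 1) * ω i' ^ j') + κ g * ι (a * b') * (ω i ^ j * ω i' ^ (j' + 1)) +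
          κ (g * g') * ι (a * c') * (ω i ^ j * ω i' ^ j') := by
      rw [map_mul, map_mul, map_mul, map_mul, pow_succ, pow_succ]
      linear_combination (κ g * ι a * ω i ^ j * ω i' ^ j') * h3
    rw [h4]
    exact add_mem (add_mem (ih _ _ (by omega) h1 (by omega) _ _) (ih _ _ (by omega) (by omega) h2 _ _))
      (ih _ _ (by omega) (by omega) (by omega) _ _)

private theorem C1_mul {ι : A →+* R} {κ : O →+* R} {ω : Fin m → R} {J J' : Fin m → ℕ}
    (F1 : ∀ i g, ∃ a b g', κ g * ω i = ι a * ω i + ι b * κ g')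
    (F2 : ∀ i i', i ≠ i' → ∃ a b c g, ω i * ω i' = ι a * ω i + ι b * ω i' + ι c * κ g)
    {x y : R} (hx : x ∈ C1_S ι κ ω J) (hy : y ∈ C1_S ι κ ω J') : x * y ∈ C1_S ι κ ω (J + J') := by
  induction hx using AddSubgroup.closure_induction with
  | mem x hx =>
    induction hy using AddSubgroup.closure_induction with
    | mem y hy =>
      rcases hx with ⟨g, a, rfl⟩ | ⟨i, j, a, h1, h2, rfl⟩
      · rcases hy with ⟨g', a', rfl⟩ | ⟨i', j', a', h1', h2', rfl⟩
        · have h3 : κ g * ι a * (κ g' * ι a') = κ (g * g') * ι (a * a') := by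
            rw [map_mul, map_mul]
            ring
          rw [h3]
          exact C1_mem0 _ _
        · have h3 : κ g * ι a * (ι a' * ω i' ^ j') = κ g * ι (a * a') * ω i' ^ j' := by
            rw [map_mul]
            ring
          rw [h3]
          exact C1_one i' F1 j' (h2'.trans (Nat.le_add_left _ _)) _ _
      · rcases hy with ⟨g', a', rfl⟩ | ⟨i', j', a', h1', h2', rfl⟩
        · have h3 : ι a * ω i ^ j * (κ g' * ι a') = κ g' * ι (a * a') * ω i ^ j := by
            rw [map_mul]
            ring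
          rw [h3]
          exact C1_one i F1 j (h2.trans (Nat.le_add_right _ _)) _ _
        · by_cases hi : i = i'
          · subst hi
            have h3 : ι a * ω i ^ j * (ι a' * ω i ^ j') = ι (a * a') * ω i ^ (j + j') := by
              rw [map_mul, pow_add]
              ring
            rw [h3]
            exact C1_mem1 i (j + j') _ (by omega) (add_le_add h2 h2')
          · have h3 : ι a * ω i ^ j * (ι a' * ω i' ^ j') = κ 1 * ι (a * a') * (ω i ^ j * ω i' ^ j') := by
              rw [map_mul, map_one]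
              ring
            rw [h3]
            exact C1_two F1 (F2 i i' hi) (j + j') j j' le_rfl (h2.trans (Nat.le_add_right _ _))
              (h2'.trans (Nat.le_add_left _ _)) _ _
    | zero =>
      rw [mul_zero]
      exact zero_mem _
    | add y y' _ _ h1 h2 =>
      rw [mul_add]
      exact add_mem h1 h2
    | neg y _ h1 =>
      rw [mul_neg]
      exact neg_mem h1
  | zero =>
    rw [zero_mul]
    exact zero_mem _
  | add x x' _ _ h1 h2 =>
    rw [add_mul]
    exact add_mem h1 h2
  | neg x _ h1 =>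
    rw [neg_mul]
    exact neg_mem h1

private theorem C1_pow {ι : A →+* R} {κ : O →+* R} {ω : Fin m → R} {J : Fin m → ℕ}
    (F1 : ∀ i g, ∃ a b g', κ g * ω i = ι a * ω i + ι b * κ g')
    (F2 : ∀ i i', i ≠ i' → ∃ a b c g, ω i * ω i' = ι a * ω i + ι b * ω i' + ι c * κ g)
    {x : R} (hx : x ∈ C1_S ι κ ω J) (n : ℕ) : x ^ n ∈ C1_S ι κ ω (n • J) := by
  induction n with
  | zero =>
    rw [pow_zero]
    have h := C1_mem0 (ι := ι) (κ := κ) (ω := ω) (J := 0 • J) 1 1
    rwa [map_one, map_one, one_mul] at h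
  | succ n ih =>
    rw [pow_succ, succ_nsmul]
    exact C1_mul F1 F2 ih hx

private theorem C1_prod {ι : A →+* R} {κ : O →+* R} {ω : Fin m → R} {J : Fin m → ℕ}
    (F1 : ∀ i g, ∃ a b g', κ g * ω i = ι a * ω i + ι b * κ g')
    (F2 : ∀ i i', i ≠ i' → ∃ a b c g, ω i * ω i' = ι a * ω i + ι b * ω i' + ι c * κ g)
    {T : Type} [DecidableEq T] (y : T → R) (hy : ∀ t, y t ∈ C1_S ι κ ω J) (s : T → ℕ) (U : Finset T) :
    ∏ t ∈ U, y t ^ s t ∈ C1_S ι κ ω ((∑ t ∈ U, s t) • J) := by
  induction U using Finset.induction_on with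
  | empty =>
    rw [Finset.prod_empty, Finset.sum_empty]
    have h := C1_mem0 (ι := ι) (κ := κ) (ω := ω) (J := 0 • J) 1 1
    rwa [map_one, map_one, one_mul] at h
  | insert t U ht ih =>
    rw [Finset.prod_insert ht, Finset.sum_insert ht, add_nsmul]
    exact C1_mul F1 F2 (C1_pow F1 F2 (hy t) (s t)) ih

private theorem C1_eval {ι : A →+* R} {κ : O →+* R} {ω : Fin m → R} {J : Fin m → ℕ}
    (F1 : ∀ i g, ∃ a b g', κ g * ω i = ι a * ω i + ι b * κ g')
    (F2 : ∀ i i', i ≠ i' → ∃ a b c g, ω i * ω i' = ι a * ω i + ι b * ω i' + ι c * κ g)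
    {l N : ℕ} (y : Fin l → R) (hy : ∀ t, y t ∈ C1_S ι κ ω J) (F : MvPolynomial (Fin l) O)
    (hF : F.IsHomogeneous N) : MvPolynomial.eval₂ κ y F ∈ C1_S ι κ ω (N • J) := by
  rw [MvPolynomial.eval₂_eq']
  refine sum_mem fun s hs => ?_
  have h1 : ∑ t, s t = N := by
    have h2 := hF (MvPolynomial.mem_support_iff.1 hs)
    rw [← h2, Finsupp.weight_apply, Finsupp.sum_fintype]
    · simp
    · simp
  have h3 := C1_prod F1 F2 y hy s Finset.univ
  rw [h1] at h3
  have h4 := C1_mul F1 F2 (C1_mem0 (ι := ι) (κ := κ) (ω := ω) (J := 0) (F.coeff s) 1) h3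
  rwa [map_one, mul_one, zero_add] at h4

private theorem C1_smul {ι : A →+* R} {κ : O →+* R} {ω : Fin m → R} {J : Fin m → ℕ} {x : R}
    (hx : x ∈ C1_S ι κ ω J) (a : A) : x * ι a ∈ C1_S ι κ ω J := by
  induction hx using AddSubgroup.closure_induction with
  | mem x hx =>
    rcases hx with ⟨g, b, rfl⟩ | ⟨i, j, b, h1, h2, rfl⟩
    · rw [mul_assoc, ← map_mul]
      exact C1_mem0 _ _
    · have h3 : ι b * ω i ^ j * ι a = ι (b * a) * ω i ^ j := by
        rw [map_mul]
        ring
      rw [h3]
      exact C1_mem1 _ _ _ h1 h2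
  | zero =>
    rw [zero_mul]
    exact zero_mem _
  | add x x' _ _ h1 h2 =>
    rw [add_mul]
    exact add_mem h1 h2
  | neg x _ h1 =>
    rw [neg_mul]
    exact neg_mem h1

private theorem C1_hom {S : Type} [CommRing S] {κ : O →+* R} {l : ℕ} {y : Fin l → R}
    {F : MvPolynomial (Fin l) O} {r : R} (h : MvPolynomial.eval₂ κ y F = r) (φ : R →+* S) :
    MvPolynomial.eval₂ (φ.comp κ) (fun a => φ (y a)) F = φ r := by
  rw [← h]
  exact (MvPolynomial.eval₂_comp_left φ κ y F).symm

end C1_abs

section C1_conc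

variable {k KK : Type} [Field k] [Field KK] [Algebra k KK] {O : Subalgebra k KK} {m : ℕ}
  (P : Poles k KK O m) {I : Type} (e : Fin m → MvPolynomial I k)

/-- polynomials over `KK` together with the symbols at the poles -/
private abbrev C1_R (KK : Type) [Field KK] (e : Fin m → MvPolynomial I k) : Type :=
  MvPolynomial I KK × (Fin m → Polynomial (MvPolynomial I k ⧸ Ideal.span (Set.range e)))

private noncomputable def C1_io : MvPolynomial I k →+* C1_R KK e :=
  RingHom.prod (inc k KK I) (Pi.ringHom fun _ => C.comp (Ideal.Quotient.mk (Ideal.span (Set.range e))))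

private noncomputable def C1_nu : MvPolynomial I O →+* C1_R KK e :=
  RingHom.prod (MvPolynomial.map (O.subtype : O →+* KK))
    (Pi.ringHom fun i => (C.comp (Ideal.Quotient.mk (Ideal.span (Set.range e)))).comp
      (MvPolynomial.map (P.ev i : O →+* k)))

private noncomputable def C1_ka : O →+* C1_R KK e := (C1_nu P e).comp MvPolynomial.C

private noncomputable def C1_om (i : Fin m) : C1_R KK e :=
  (MvPolynomial.C (P.π i) * inc k KK I (e i), Pi.single i X)

/-- `c(w_i)` with its symbol -/
private noncomputable def C1_th (i : Fin m) : Polynomial (MvPolynomial I k) →+ C1_R KK e :=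
  AddMonoidHom.prod (eval₂RingHom (inc k KK I) (MvPolynomial.C (P.π i) * inc k KK I (e i)) :
      Polynomial (MvPolynomial I k) →+ MvPolynomial I KK)
    ((AddMonoidHom.single (fun _ : Fin m => Polynomial (MvPolynomial I k ⧸ Ideal.span (Set.range e))) i).comp
      (mapRingHom (Ideal.Quotient.mk (Ideal.span (Set.range e))) :
        Polynomial (MvPolynomial I k) →+ Polynomial (MvPolynomial I k ⧸ Ideal.span (Set.range e))))

private theorem C1_mk_e (i : Fin m) : Ideal.Quotient.mk (Ideal.span (Set.range e)) (e i) = 0 :=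
  Ideal.Quotient.eq_zero_iff_mem.2 (Ideal.subset_span ⟨i, rfl⟩)

private theorem C1_F1 (i : Fin m) (g : O) : ∃ a b g', C1_ka P e g * C1_om P e i =
    C1_io e a * C1_om P e i + C1_io e b * C1_ka P e g' := by
  refine ⟨MvPolynomial.C (P.ev i g), e i, ⟨_, P.h1 i g⟩, ?_⟩
  refine Prod.ext ?_ (funext fun i' => ?_)
  · change MvPolynomial.map (O.subtype : O →+* KK) (MvPolynomial.C g) *
        (MvPolynomial.C (P.π i) * inc k KK I (e i)) =
      inc k KK I (MvPolynomial.C (P.ev i g)) * (MvPolynomial.C (P.π i) * inc k KK I (e i)) +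
        inc k KK I (e i) * MvPolynomial.map (O.subtype : O →+* KK)
          (MvPolynomial.C (⟨((g : KK) - algebraMap k KK (P.ev i g)) * P.π i, P.h1 i g⟩ : O))
    unfold inc
    rw [MvPolynomial.map_C, MvPolynomial.map_C, MvPolynomial.map_C]
    change MvPolynomial.C (g : KK) * _ = _ + _ * MvPolynomial.C (((g : KK) - algebraMap k KK (P.ev i g)) * P.π i)
    rw [MvPolynomial.C_mul, MvPolynomial.C_sub]
    ring
  · change C (Ideal.Quotient.mk _ (MvPolynomial.map (P.ev i' : O →+* k) (MvPolynomial.C g))) *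
        (Pi.single i X : Fin m → Polynomial (MvPolynomial I k ⧸ Ideal.span (Set.range e))) i' =
      C (Ideal.Quotient.mk _ (MvPolynomial.C (P.ev i g))) *
        (Pi.single i X : Fin m → Polynomial (MvPolynomial I k ⧸ Ideal.span (Set.range e))) i' +
        C (Ideal.Quotient.mk _ (e i)) * _
    rw [C1_mk_e, C_0, zero_mul, add_zero]
    by_cases h : i' = i
    · subst h
      rw [MvPolynomial.map_C]
      rfl
    · rw [Pi.single_eq_of_ne h, mul_zero, mul_zero]

private theorem C1_F2 (i i' : Fin m) (h : i ≠ i') : ∃ a b c g, C1_om P e i * C1_om P e i' =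
    C1_io e a * C1_om P e i + C1_io e b * C1_om P e i' + C1_io e c * C1_ka P e g := by
  obtain ⟨a, b, hab⟩ := P.h2 i i' h
  refine ⟨MvPolynomial.C a * e i', MvPolynomial.C b * e i, e i * e i', ⟨_, hab⟩, ?_⟩
  refine Prod.ext ?_ (funext fun l => ?_)
  · change (MvPolynomial.C (P.π i) * inc k KK I (e i)) * (MvPolynomial.C (P.π i') * inc k KK I (e i')) =
      inc k KK I (MvPolynomial.C a * e i') * (MvPolynomial.C (P.π i) * inc k KK I (e i)) +
      inc k KK I (MvPolynomial.C b * e i) * (MvPolynomial.C (P.π i') * inc k KK I (e i')) +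
        inc k KK I (e i * e i') * MvPolynomial.map (O.subtype : O →+* KK)
          (MvPolynomial.C (⟨P.π i * P.π i' - algebraMap k KK a * P.π i - algebraMap k KK b * P.π i', hab⟩ : O))
    unfold inc
    rw [MvPolynomial.map_C, map_mul, map_mul, map_mul, MvPolynomial.map_C, MvPolynomial.map_C]
    change _ = _ + _ + _ * MvPolynomial.C (P.π i * P.π i' - algebraMap k KK a * P.π i - algebraMap k KK b * P.π i')
    rw [MvPolynomial.C_sub, MvPolynomial.C_sub, MvPolynomial.C_mul, MvPolynomial.C_mul, MvPolynomial.C_mul]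
    ring
  · change (Pi.single i X : Fin m → Polynomial (MvPolynomial I k ⧸ Ideal.span (Set.range e))) l *
        (Pi.single i' X : Fin m → Polynomial (MvPolynomial I k ⧸ Ideal.span (Set.range e))) l =
      C (Ideal.Quotient.mk _ (MvPolynomial.C a * e i')) * _ + C (Ideal.Quotient.mk _ (MvPolynomial.C b * e i)) * _ +
        C (Ideal.Quotient.mk _ (e i * e i')) * _
    have m1 : Ideal.Quotient.mk (Ideal.span (Set.range e)) (MvPolynomial.C a * e i') = 0 := by
      rw [map_mul, C1_mk_e, mul_zero]
    have m2 : Ideal.Quotient.mk (Ideal.span (Set.range e)) (MvPolynomial.C b * e i) = 0 := by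
      rw [map_mul, C1_mk_e, mul_zero]
    have m3 : Ideal.Quotient.mk (Ideal.span (Set.range e)) (e i * e i') = 0 := by
      rw [map_mul, C1_mk_e, zero_mul]
    rw [m1, m2, m3, C_0, zero_mul, zero_mul, zero_mul, add_zero, add_zero]
    by_cases hl : l = i
    · rw [hl, Pi.single_eq_of_ne h, mul_zero]
    · rw [Pi.single_eq_of_ne hl, zero_mul]

private theorem C1_io_X (s : I) : C1_nu P e (MvPolynomial.X s) = C1_io e (MvPolynomial.X s) := by
  refine Prod.ext ?_ (funext fun l => ?_)
  · change MvPolynomial.map (O.subtype : O →+* KK) (MvPolynomial.X s) = inc k KK I (MvPolynomial.X s)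
    unfold inc
    rw [MvPolynomial.map_X, MvPolynomial.map_X]
  · change C (Ideal.Quotient.mk _ (MvPolynomial.map (P.ev l : O →+* k) (MvPolynomial.X s))) =
      C (Ideal.Quotient.mk _ (MvPolynomial.X s))
    rw [MvPolynomial.map_X]

private theorem C1_io_nu (a : MvPolynomial I k) :
    C1_nu P e (MvPolynomial.map (algebraMap k O) a) = C1_io e a := by
  have h : (C1_nu P e).comp (MvPolynomial.map (algebraMap k O)) = C1_io e := by
    apply MvPolynomial.ringHom_ext
    · intro c
      rw [RingHom.comp_apply, MvPolynomial.map_C]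
      refine Prod.ext ?_ (funext fun l => ?_)
      · change MvPolynomial.map (O.subtype : O →+* KK) (MvPolynomial.C (algebraMap k O c)) =
          inc k KK I (MvPolynomial.C c)
        unfold inc
        rw [MvPolynomial.map_C, MvPolynomial.map_C]
        rfl
      · change C (Ideal.Quotient.mk _ (MvPolynomial.map (P.ev l : O →+* k) (MvPolynomial.C (algebraMap k O c)))) =
          C (Ideal.Quotient.mk _ (MvPolynomial.C c))
        rw [MvPolynomial.map_C]
        have h1 : (P.ev l : O →+* k) (algebraMap k O c) = c := (P.ev l).commutes c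
        rw [h1]
    · intro s
      rw [RingHom.comp_apply, MvPolynomial.map_X]
      exact C1_io_X P e s
  exact congrArg (fun f => f a) h

private theorem C1_nu_mem (J : Fin m → ℕ) (u : MvPolynomial I O) :
    C1_nu P e u ∈ C1_S (C1_io (KK := KK) e) (C1_ka P e) (C1_om P e) J := by
  induction u using MvPolynomial.induction_on with
  | C g =>
    have h := C1_mem0 (ι := C1_io (KK := KK) e) (κ := C1_ka P e) (ω := C1_om P e) (J := J) g 1
    rw [map_one, mul_one] at h
    exact h
  | add p q h1 h2 =>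
    rw [map_add]
    exact add_mem h1 h2
  | mul_X p s h =>
    rw [map_mul, C1_io_X]
    exact C1_smul h _

private theorem C1_th_mono (i : Fin m) (j : ℕ) (hj : 1 ≤ j) (a : MvPolynomial I k) :
    C1_th P e i (monomial j a) = C1_io e a * C1_om P e i ^ j := by
  refine Prod.ext ?_ ?_
  · change eval₂ (inc k KK I) (MvPolynomial.C (P.π i) * inc k KK I (e i)) (monomial j a) =
      inc k KK I a * (MvPolynomial.C (P.π i) * inc k KK I (e i)) ^ j
    rw [eval₂_monomial]
  · funext l
    change (Pi.single i (map (Ideal.Quotient.mk (Ideal.span (Set.range e))) (monomial j a)) :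
        Fin m → Polynomial (MvPolynomial I k ⧸ Ideal.span (Set.range e))) l =
      C (Ideal.Quotient.mk (Ideal.span (Set.range e)) a) *
        ((Pi.single i X : Fin m → Polynomial (MvPolynomial I k ⧸ Ideal.span (Set.range e))) l) ^ j
    by_cases hl : l = i
    · rw [hl, Pi.single_eq_same, Pi.single_eq_same, map_monomial, C_mul_X_pow_eq_monomial]
    · rw [Pi.single_eq_of_ne hl, Pi.single_eq_of_ne hl, zero_pow (by omega), mul_zero]

private theorem C1_th_mem (J : Fin m → ℕ) (i : Fin m) (c : Polynomial (MvPolynomial I k))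
    (h0 : c.coeff 0 = 0) (hd : c.natDegree ≤ J i) :
    C1_th P e i c ∈ C1_S (C1_io (KK := KK) e) (C1_ka P e) (C1_om P e) J := by
  rw [c.as_sum_support, map_sum]
  refine sum_mem fun j hj => ?_
  have h1 : 1 ≤ j := by
    rw [Nat.one_le_iff_ne_zero]
    rintro rfl
    exact (mem_support_iff.1 hj) h0
  rw [C1_th_mono P e i j h1]
  exact C1_mem1 i j _ h1 ((le_natDegree_of_mem_supp j hj).trans hd)

/-- elements of the filtration, explicitly -/
private theorem C1_expl (J : Fin m → ℕ) (x : C1_R KK e)
    (hx : x ∈ C1_S (C1_io (KK := KK) e) (C1_ka P e) (C1_om P e) J) :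
    ∃ (u : MvPolynomial I O) (c : Fin m → Polynomial (MvPolynomial I k)),
      (∀ i, (c i).coeff 0 = 0 ∧ (c i).natDegree ≤ J i) ∧ x = C1_nu P e u + ∑ i, C1_th P e i (c i) := by
  induction hx using AddSubgroup.closure_induction with
  | mem x hx =>
    rcases hx with ⟨g, a, rfl⟩ | ⟨i, j, a, h1, h2, rfl⟩
    · refine ⟨MvPolynomial.C g * MvPolynomial.map (algebraMap k O) a, 0, fun i => ⟨rfl, ?_⟩, ?_⟩
      · change natDegree (0 : Polynomial (MvPolynomial I k)) ≤ J i
        rw [natDegree_zero]
        exact Nat.zero_le _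
      · rw [map_mul, C1_io_nu]
        have h3 : ∑ i, C1_th P e i ((0 : Fin m → Polynomial (MvPolynomial I k)) i) = 0 :=
          Finset.sum_eq_zero fun i _ => map_zero _
        rw [h3, add_zero]
        rfl
    · refine ⟨0, Pi.single i (monomial j a), fun l => ?_, ?_⟩
      · by_cases hl : l = i
        · rw [hl, Pi.single_eq_same]
          refine ⟨?_, (natDegree_monomial_le a).trans h2⟩
          rw [coeff_monomial, if_neg (by omega)]
        · rw [Pi.single_eq_of_ne hl]
          refine ⟨rfl, ?_⟩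
          rw [natDegree_zero]
          exact Nat.zero_le _
      · rw [map_zero, zero_add, Finset.sum_eq_single i]
        · rw [Pi.single_eq_same, C1_th_mono P e i j h1]
        · intro l _ hl
          rw [Pi.single_eq_of_ne hl, map_zero]
        · intro h
          exact absurd (Finset.mem_univ i) h
  | zero =>
    refine ⟨0, 0, fun i => ⟨rfl, ?_⟩, ?_⟩
    · change natDegree (0 : Polynomial (MvPolynomial I k)) ≤ J i
      rw [natDegree_zero]
      exact Nat.zero_le _
    · have h3 : ∑ i, C1_th P e i ((0 : Fin m → Polynomial (MvPolynomial I k)) i) = 0 :=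
        Finset.sum_eq_zero fun i _ => map_zero _
      rw [h3, map_zero, add_zero]
  | add x x' _ _ h1 h2 =>
    obtain ⟨u, c, hc, rfl⟩ := h1
    obtain ⟨u', c', hc', rfl⟩ := h2
    refine ⟨u + u', c + c', fun i => ⟨?_, ?_⟩, ?_⟩
    · rw [Pi.add_apply, coeff_add, (hc i).1, (hc' i).1, add_zero]
    · exact (natDegree_add_le _ _).trans (max_le (hc i).2 (hc' i).2)
    · have h3 : ∑ i, C1_th P e i ((c + c') i) = ∑ i, C1_th P e i (c i) + ∑ i, C1_th P e i (c' i) := by
        rw [← Finset.sum_add_distrib]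
        exact Finset.sum_congr rfl fun i _ => map_add _ _ _
      rw [h3, map_add]
      abel
  | neg x _ h1 =>
    obtain ⟨u, c, hc, rfl⟩ := h1
    refine ⟨-u, -c, fun i => ⟨?_, ?_⟩, ?_⟩
    · rw [Pi.neg_apply, coeff_neg, (hc i).1, neg_zero]
    · rw [Pi.neg_apply, natDegree_neg]
      exact (hc i).2
    · have h3 : ∑ i, C1_th P e i ((-c) i) = -∑ i, C1_th P e i (c i) := by
        rw [← Finset.sum_neg_distrib]
        exact Finset.sum_congr rfl fun i _ => map_neg _ _
      rw [h3, map_neg]
      abel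

private theorem C1_sum_fst (c : Fin m → Polynomial (MvPolynomial I k)) :
    (∑ i, C1_th P e i (c i)).1 = pol P e c := by
  rw [Prod.fst_sum]
  rfl

private theorem C1_sum_snd (c : Fin m → Polynomial (MvPolynomial I k)) (l : Fin m) :
    (∑ i, C1_th P e i (c i)).2 l = (c l).map (Ideal.Quotient.mk (Ideal.span (Set.range e))) := by
  rw [Prod.snd_sum, Finset.sum_apply, Finset.sum_eq_single l]
  · change (Pi.single l (map (Ideal.Quotient.mk (Ideal.span (Set.range e))) (c l)) :
        Fin m → Polynomial (MvPolynomial I k ⧸ Ideal.span (Set.range e))) l = _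
    rw [Pi.single_eq_same]
  · intro i _ hi
    change (Pi.single i (map (Ideal.Quotient.mk (Ideal.span (Set.range e))) (c i)) :
        Fin m → Polynomial (MvPolynomial I k ⧸ Ideal.span (Set.range e))) l = _
    rw [Pi.single_eq_of_ne hi.symm]
  · intro h
    exact absurd (Finset.mem_univ l) h

end C1_conc

theorem decomp {k KK : Type} [Field k] [Field KK] [Algebra k KK] {O : Subalgebra k KK} {m : ℕ}
    (P : Poles k KK O m) {I : Type} (e : Fin m → MvPolynomial I k) {n N : ℕ}
    (F : MvPolynomial (Fin (n + 1)) O) (hF : F.IsHomogeneous N)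
    (x : Fin (n + 1) → MvPolynomial I O) (t : Fin (n + 1) → Fin m → Polynomial (MvPolynomial I k))
    (ht0 : ∀ a i, (t a i).coeff 0 = 0) (d : Fin m → ℕ) (htd : ∀ a i, (t a i).natDegree ≤ d i) :
    ∃ (u : MvPolynomial I O) (c : Fin m → Polynomial (MvPolynomial I k)),
      (∀ i, (c i).coeff 0 = 0 ∧ (c i).natDegree ≤ N * d i) ∧
      MvPolynomial.eval₂ ((MvPolynomial.C (R := KK) (σ := I)).comp (O.subtype : O →+* KK))
        (fun a => MvPolynomial.map (O.subtype : O →+* KK) (x a) + pol P e (t a)) F =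
          MvPolynomial.map (O.subtype : O →+* KK) u + pol P e c ∧
      ∀ (i : Fin m) (j : ℕ),
        (C (MvPolynomial.map (P.ev i : O →+* k) u) + c i -
          MvPolynomial.eval₂
            ((C (R := MvPolynomial I k)).comp ((MvPolynomial.C (R := k) (σ := I)).comp
              (P.ev i : O →+* k)))
            (fun a => C (MvPolynomial.map (P.ev i : O →+* k) (x a)) + t a i) F).coeff j ∈
          Ideal.span (Set.range e) := by
  let y : Fin (n + 1) → C1_R KK e := fun a => C1_nu P e (x a) + ∑ i, C1_th P e i (t a i)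
  have hy : ∀ a, y a ∈ C1_S (C1_io (KK := KK) e) (C1_ka P e) (C1_om P e) d := fun a =>
    add_mem (C1_nu_mem P e d (x a)) (sum_mem fun i _ => C1_th_mem P e d i _ (ht0 a i) (htd a i))
  obtain ⟨u, c, hc, huc⟩ := C1_expl P e _ _ (C1_eval (C1_F1 P e) (C1_F2 P e) y hy F hF)
  refine ⟨u, c, fun i => ⟨(hc i).1, ?_⟩, ?_, ?_⟩
  · have h1 := (hc i).2
    rwa [Pi.smul_apply, smul_eq_mul] at h1
  · have h1 := C1_hom huc (RingHom.fst (MvPolynomial I KK)
      (Fin m → Polynomial (MvPolynomial I k ⧸ Ideal.span (Set.range e))))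
    rw [map_add] at h1
    have h2 : (RingHom.fst (MvPolynomial I KK)
        (Fin m → Polynomial (MvPolynomial I k ⧸ Ideal.span (Set.range e)))) (∑ i, C1_th P e i (c i)) =
        pol P e c := C1_sum_fst P e c
    rw [h2] at h1
    have h3 : (RingHom.fst (MvPolynomial I KK)
        (Fin m → Polynomial (MvPolynomial I k ⧸ Ideal.span (Set.range e)))).comp (C1_ka P e) =
        (MvPolynomial.C (R := KK) (σ := I)).comp (O.subtype : O →+* KK) := by
      ext g : 1
      change MvPolynomial.map (O.subtype : O →+* KK) (MvPolynomial.C g) = _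
      rw [MvPolynomial.map_C]
      rfl
    have h4 : (fun a => (RingHom.fst (MvPolynomial I KK)
        (Fin m → Polynomial (MvPolynomial I k ⧸ Ideal.span (Set.range e)))) (y a)) =
        fun a => MvPolynomial.map (O.subtype : O →+* KK) (x a) + pol P e (t a) := by
      funext a
      change (C1_nu P e (x a)).1 + (∑ i, C1_th P e i (t a i)).1 = _
      rw [C1_sum_fst]
      rfl
    rw [h3, h4] at h1
    exact h1
  · intro i j
    let φ : C1_R KK e →+* Polynomial (MvPolynomial I k ⧸ Ideal.span (Set.range e)) :=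
      (Pi.evalRingHom (fun _ : Fin m => Polynomial (MvPolynomial I k ⧸ Ideal.span (Set.range e))) i).comp
        (RingHom.snd (MvPolynomial I KK)
          (Fin m → Polynomial (MvPolynomial I k ⧸ Ideal.span (Set.range e))))
    have h1 := C1_hom (S := Polynomial (MvPolynomial I k ⧸ Ideal.span (Set.range e))) huc φ
    rw [map_add] at h1
    have h2 : φ (∑ i, C1_th P e i (c i)) = (c i).map (Ideal.Quotient.mk (Ideal.span (Set.range e))) :=
      C1_sum_snd P e c i
    rw [h2] at h1
    have h5 : φ (C1_nu P e u) = (C (MvPolynomial.map (P.ev i : O →+* k) u)).map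
        (Ideal.Quotient.mk (Ideal.span (Set.range e))) := by
      rw [map_C]
      rfl
    rw [h5] at h1
    have h6 : (mapRingHom (Ideal.Quotient.mk (Ideal.span (Set.range e))))
        (MvPolynomial.eval₂ ((C (R := MvPolynomial I k)).comp ((MvPolynomial.C (R := k) (σ := I)).comp
              (P.ev i : O →+* k)))
            (fun a => C (MvPolynomial.map (P.ev i : O →+* k) (x a)) + t a i) F) =
        MvPolynomial.eval₂ (φ.comp (C1_ka P e)) (fun a => φ (y a)) F := by
      refine (C1_hom (R := Polynomial (MvPolynomial I k)) (O := O)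
        (S := Polynomial (MvPolynomial I k ⧸ Ideal.span (Set.range e))) rfl
        (mapRingHom (Ideal.Quotient.mk (Ideal.span (Set.range e))))).symm.trans ?_
      congr 1
      · ext g : 1
        change (C (MvPolynomial.C (P.ev i g))).map (Ideal.Quotient.mk (Ideal.span (Set.range e))) =
          C (Ideal.Quotient.mk (Ideal.span (Set.range e))
            (MvPolynomial.map (P.ev i : O →+* k) (MvPolynomial.C g)))
        rw [map_C, MvPolynomial.map_C]
        rfl
      · funext a
        change (C (MvPolynomial.map (P.ev i : O →+* k) (x a)) + t a i).map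
            (Ideal.Quotient.mk (Ideal.span (Set.range e))) =
          (C1_nu P e (x a)).2 i + (∑ i, C1_th P e i (t a i)).2 i
        rw [C1_sum_snd, Polynomial.map_add, map_C]
        rfl
    rw [← h6] at h1
    rw [← Ideal.Quotient.eq_zero_iff_mem, ← coeff_map, Polynomial.map_sub, Polynomial.map_add]
    have h7 : (MvPolynomial.eval₂ ((C (R := MvPolynomial I k)).comp ((MvPolynomial.C (R := k) (σ := I)).comp
              (P.ev i : O →+* k)))
            (fun a => C (MvPolynomial.map (P.ev i : O →+* k) (x a)) + t a i) F).map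
              (Ideal.Quotient.mk (Ideal.span (Set.range e))) = _ := h1
    rw [h7, sub_self, coeff_zero]

end Q9
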