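import Pool.Agent.LibQ9.C2Defs
import Pool.Agent.LibQ9.C1

/-!
[Q9 C2] The equations of the comb on `P^1`.
-/

set_option autoImplicit false

namespace Q9

open Polynomial

/-! ### Naturality -/

section nat

variable {R S : Type} [CommRing R] [CommRing S] {m : ℕ} (f : R →+* S)

private theorem C2_Wp_map (b : Fin m → R) (e : Fin m → ℕ) :
    (Wp b e).map f = Wp (fun i => f (b i)) e := by
  unfold Wp
  rw [Polynomial.map_prod]
  refine Finset.prod_congr rfl fun l _ => ?_
  rw [Polynomial.map_pow, Polynomial.map_sub, map_X, map_C]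

private theorem C2_Wq_map (b : Fin m → R) (e : Fin m → ℕ) (i : Fin m) (j : ℕ) :
    (Wq b e i j).map f = Wq (fun i => f (b i)) e i j := by
  unfold Wq
  rw [Polynomial.map_mul, Polynomial.map_prod, Polynomial.map_pow, Polynomial.map_sub, map_X, map_C]
  congr 1
  refine Finset.prod_congr rfl fun l _ => ?_
  rw [Polynomial.map_pow, Polynomial.map_sub, map_X, map_C]

variable {n D c0 : ℕ} {d : Fin m → ℕ}

private theorem C2_hdl_map (g : Fin (n + 1) → R[X]) (z : CI n D c0 d → R) (a : Fin (n + 1)) :
    (hdl g z a).map f = hdl (fun a => (g a).map f) (fun w => f (z w)) a := by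
  unfold hdl
  rw [Polynomial.map_add, Polynomial.map_sum]
  congr 1
  refine Finset.sum_congr rfl fun l _ => ?_
  rw [Polynomial.map_mul, Polynomial.map_pow, map_C, map_X]

private theorem C2_xh_map (b : Fin m → R) (g : Fin (n + 1) → R[X]) (z : CI n D c0 d → R)
    (a : Fin (n + 1)) :
    (xh b g z a).map f = xh (fun i => f (b i)) (fun a => (g a).map f) (fun w => f (z w)) a := by
  unfold xh
  rw [Polynomial.map_add, Polynomial.map_mul, C2_Wp_map, C2_hdl_map, Polynomial.map_sum]
  congr 1
  refine Finset.sum_congr rfl fun i _ => ?_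
  rw [Polynomial.map_sum]
  refine Finset.sum_congr rfl fun j _ => ?_
  rw [Polynomial.map_mul, map_C, C2_Wq_map, map_mul, map_pow]

private theorem C2_tth_map (b : Fin m → R) (g : Fin (n + 1) → R[X]) (z : CI n D c0 d → R)
    (i : Fin m) (a : Fin (n + 1)) :
    (tth b g z i a).map f = tth (fun i => f (b i)) (fun a => (g a).map f) (fun w => f (z w)) i a := by
  unfold tth
  rw [Polynomial.map_add, map_C, Polynomial.map_sum, ← C2_hdl_map, Polynomial.eval_map_apply]
  congr 1
  refine Finset.sum_congr rfl fun j _ => ?_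
  rw [Polynomial.map_mul, Polynomial.map_pow, map_C, map_X]

private theorem C2_yh_map (b : Fin m → R) (e : Fin m → R) (y : CJ n D c0 d → R) :
    (yh b e y).map f = yh (fun i => f (b i)) (fun i => f (e i)) (fun j => f (y j)) := by
  unfold yh
  rw [Polynomial.map_add, Polynomial.map_mul, C2_Wp_map, Polynomial.map_sum, Polynomial.map_sum]
  congr 1
  · congr 1
    refine Finset.sum_congr rfl fun l _ => ?_
    rw [Polynomial.map_mul, Polynomial.map_pow, map_C, map_X]
  · refine Finset.sum_congr rfl fun i _ => ?_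
    rw [Polynomial.map_sum]
    refine Finset.sum_congr rfl fun j _ => ?_
    rw [Polynomial.map_mul, map_C, C2_Wq_map, map_mul, map_pow]

end nat

/-! ### Facts on `Wp`, `Wq` -/

section W

variable {R : Type} [CommRing R] {m : ℕ}

private theorem C2_W_mul (b : Fin m → R) (e : Fin m → ℕ) (i : Fin m) (j : ℕ) (hj : j ≤ e i) :
    Wp b e = Wq b e i j * (X - C (b i)) ^ j := by
  unfold Wp Wq
  rw [mul_assoc, ← pow_add, Nat.sub_add_cancel hj, Finset.prod_erase_mul _ _ (Finset.mem_univ i)]

private theorem C2_Wp_pow (b : Fin m → R) (d : Fin m → ℕ) (n : ℕ) :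
    Wp b (fun l => n * d l) = Wp b d ^ n := by
  unfold Wp
  rw [← Finset.prod_pow]
  refine Finset.prod_congr rfl fun l _ => ?_
  rw [← pow_mul, mul_comm]

variable [Nontrivial R]

omit [Nontrivial R] in
private theorem C2_Wp_monic (b : Fin m → R) (e : Fin m → ℕ) : (Wp b e).Monic :=
  monic_prod_of_monic _ _ fun _ _ => (monic_X_sub_C _).pow _

private theorem C2_Wp_natDegree (b : Fin m → R) (e : Fin m → ℕ) :
    (Wp b e).natDegree = ∑ i, e i := by
  unfold Wp
  rw [natDegree_prod_of_monic _ _ fun _ _ => (monic_X_sub_C _).pow _]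
  refine Finset.sum_congr rfl fun l _ => ?_
  rw [(monic_X_sub_C _).natDegree_pow, natDegree_X_sub_C, mul_one]

private theorem C2_Wq_coeff (b : Fin m → R) (e : Fin m → ℕ) (i : Fin m) (j : ℕ) (hj : 1 ≤ j)
    (hj' : j ≤ e i) (r : ℕ) (hr : ∑ i, e i ≤ r) : (Wq b e i j).coeff r = 0 := by
  have hq : (Wq b e i j).Monic := by
    unfold Wq
    exact (monic_prod_of_monic _ _ fun _ _ => (monic_X_sub_C _).pow _).mul
      ((monic_X_sub_C _).pow _)
  have h1 := congrArg natDegree (C2_W_mul b e i j hj')
  rw [hq.natDegree_mul ((monic_X_sub_C _).pow _), (monic_X_sub_C _).natDegree_pow,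
    natDegree_X_sub_C, mul_one, C2_Wp_natDegree] at h1
  exact coeff_eq_zero_of_natDegree_lt (by omega)

end W

/-! ### The degree at infinity -/

section deg

variable {A : Type} [CommRing A]

/-- `P`, `Q` of degree at most `p M`, the difference of degree `< p M + 1 - c` -/
private def C2_Q (M c p : ℕ) (P Q : A[X]) : Prop :=
  (∀ r, p * M < r → P.coeff r = 0) ∧ (∀ r, p * M < r → Q.coeff r = 0) ∧
    ∀ r, p * M + 1 ≤ r + c → P.coeff r = Q.coeff r

private theorem C2_Q_one (M c : ℕ) : C2_Q M c 0 (1 : A[X]) 1 := by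
  have h : ∀ r, 0 * M < r → (1 : A[X]).coeff r = 0 := by
    intro r hr
    rw [coeff_one, if_neg (by omega)]
  exact ⟨h, h, fun r _ => rfl⟩

private theorem C2_Q_mul {M c p p' : ℕ} {P Q P' Q' : A[X]} (h : C2_Q M c p P Q)
    (h' : C2_Q M c p' P' Q') : C2_Q M c (p + p') (P * P') (Q * Q') := by
  have hd : ∀ (p p' : ℕ) (S T : A[X]), (∀ r, p * M < r → S.coeff r = 0) →
      (∀ r, p' * M < r → T.coeff r = 0) → ∀ r, (p + p') * M < r → (S * T).coeff r = 0 := by
    intro p p' S T hS hT r hr
    rw [coeff_mul]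
    refine Finset.sum_eq_zero fun x hx => ?_
    have hx := Finset.HasAntidiagonal.mem_antidiagonal.1 hx
    rw [add_mul] at hr
    by_cases h1 : p * M < x.1
    · rw [hS _ h1, zero_mul]
    · rw [hT _ (by omega), mul_zero]
  refine ⟨hd _ _ _ _ h.1 h'.1, hd _ _ _ _ h.2.1 h'.2.1, fun r hr => ?_⟩
  rw [coeff_mul, coeff_mul]
  refine Finset.sum_congr rfl fun x hx => ?_
  have hx := Finset.HasAntidiagonal.mem_antidiagonal.1 hx
  rw [add_mul] at hr
  by_cases h1 : p * M < x.1
  · rw [h.1 _ h1, h.2.1 _ h1, zero_mul, zero_mul]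
  · by_cases h2 : p' * M < x.2
    · rw [h'.1 _ h2, h'.2.1 _ h2, mul_zero, mul_zero]
    · by_cases h3 : p * M + 1 ≤ x.1 + c
      · by_cases h4 : p' * M + 1 ≤ x.2 + c
        · rw [h.2.2 _ h3, h'.2.2 _ h4]
        · exfalso
          omega
      · exfalso
        omega

private theorem C2_Q_pow {M c p : ℕ} {P Q : A[X]} (h : C2_Q M c p P Q) (e : ℕ) :
    C2_Q M c (e * p) (P ^ e) (Q ^ e) := by
  induction e with
  | zero =>
    rw [pow_zero, pow_zero, zero_mul]
    exact C2_Q_one M c
  | succ e ih =>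
    rw [pow_succ, pow_succ, add_mul, one_mul]
    exact C2_Q_mul ih h

private theorem C2_Q_prod {M c : ℕ} {ι : Type} (s : Finset ι) (p : ι → ℕ) (P Q : ι → A[X])
    (h : ∀ i, C2_Q M c (p i) (P i) (Q i)) :
    C2_Q M c (∑ i ∈ s, p i) (∏ i ∈ s, P i) (∏ i ∈ s, Q i) := by
  classical
  induction s using Finset.induction_on with
  | empty =>
    rw [Finset.sum_empty, Finset.prod_empty, Finset.prod_empty]
    exact C2_Q_one M c
  | insert a s ha ih =>
    rw [Finset.sum_insert ha, Finset.prod_insert ha, Finset.prod_insert ha]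
    exact C2_Q_mul (h a) ih

/-- the values of a form of degree `p` at two vectors of polynomials which agree near infinity -/
private theorem C2_form {k : Type} [Field k] [Algebra k A] {n p M c : ℕ}
    (F : MvPolynomial (Fin (n + 1)) k) (hF : F.IsHomogeneous p) (x y : Fin (n + 1) → A[X])
    (h : ∀ i, C2_Q M c 1 (x i) (y i)) (r : ℕ) (hr : p * M + 1 ≤ r + c) :
    (MvPolynomial.aeval x F).coeff r = (MvPolynomial.aeval y F).coeff r := by
  rw [MvPolynomial.aeval_def, MvPolynomial.aeval_def, MvPolynomial.eval₂_eq', MvPolynomial.eval₂_eq',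
    finsetSum_coeff, finsetSum_coeff]
  refine Finset.sum_congr rfl fun s hs => ?_
  have h1 : ∀ (w : k) (P : A[X]), (algebraMap k A[X] w * P).coeff r = algebraMap k A w * P.coeff r := by
    intro w P
    rw [Polynomial.algebraMap_apply, coeff_C_mul]
  rw [h1, h1]
  congr 1
  have h2 : ∑ i, s i * 1 = p := by
    have h3 := hF (MvPolynomial.mem_support_iff.1 hs)
    rw [← h3]
    simp [Finsupp.weight_apply, Finsupp.sum_fintype]
  have h4 := C2_Q_prod Finset.univ (fun i => s i * 1) (fun i => x i ^ s i) (fun i => y i ^ s i)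
    fun i => C2_Q_pow (h i) (s i)
  rw [h2] at h4
  exact h4.2.2 r hr

end deg


/-! ### The map to the polynomials over `KK` -/

section Th

variable {k KK : Type} [Field k] [Field KK] [Algebra k KK] (φ : k[X] →ₐ[k] KK) (I : Type)

private noncomputable def C2_ThO : (MvPolynomial I k)[X] →+* MvPolynomial I φ.range :=
  Polynomial.eval₂RingHom (MvPolynomial.map (algebraMap k φ.range))
    (MvPolynomial.C (φ.rangeRestrict X))

private noncomputable def C2_Th : (MvPolynomial I k)[X] →+* MvPolynomial I KK :=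
  Polynomial.eval₂RingHom (inc k KK I) (MvPolynomial.C (φ X))

private theorem C2_ThO_C (a : MvPolynomial I k) :
    C2_ThO φ I (C a) = MvPolynomial.map (algebraMap k φ.range) a := by
  unfold C2_ThO
  rw [Polynomial.coe_eval₂RingHom, Polynomial.eval₂_C]

private theorem C2_ThO_X : C2_ThO φ I X = MvPolynomial.C (φ.rangeRestrict X) := by
  unfold C2_ThO
  rw [Polynomial.coe_eval₂RingHom, Polynomial.eval₂_X]

private theorem C2_Th_C (a : MvPolynomial I k) : C2_Th φ I (C a) = inc k KK I a := by
  unfold C2_Th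
  rw [Polynomial.coe_eval₂RingHom, Polynomial.eval₂_C]

private theorem C2_Th_X : C2_Th φ I X = MvPolynomial.C (φ X) := by
  unfold C2_Th
  rw [Polynomial.coe_eval₂RingHom, Polynomial.eval₂_X]

private theorem C2_Th_eq (p : (MvPolynomial I k)[X]) :
    C2_Th φ I p = MvPolynomial.map (φ.range.subtype : φ.range →+* KK) (C2_ThO φ I p) := by
  have h : C2_Th φ I = (MvPolynomial.map (φ.range.subtype : φ.range →+* KK)).comp (C2_ThO φ I) := by
    refine Polynomial.ringHom_ext' ?_ ?_
    · refine RingHom.ext fun a => ?_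
      rw [RingHom.comp_apply, RingHom.comp_apply, RingHom.comp_apply, C2_Th_C, C2_ThO_C,
        MvPolynomial.map_map]
      rfl
    · rw [RingHom.comp_apply, C2_Th_X, C2_ThO_X, MvPolynomial.map_C]
      rfl
  rw [h]
  rfl

private theorem C2_Th_map (p : k[X]) :
    C2_Th φ I (p.map (algebraMap k (MvPolynomial I k))) = MvPolynomial.C (φ p) := by
  have h : (C2_Th φ I).comp (Polynomial.mapRingHom (algebraMap k (MvPolynomial I k))) =
      (MvPolynomial.C (R := KK) (σ := I)).comp (φ : k[X] →+* KK) := by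
    refine Polynomial.ringHom_ext' ?_ ?_
    · refine RingHom.ext fun a => ?_
      rw [RingHom.comp_apply, RingHom.comp_apply, Polynomial.coe_mapRingHom, map_C, C2_Th_C]
      change inc k KK I (MvPolynomial.C a) = MvPolynomial.C (φ (C a))
      unfold inc
      rw [MvPolynomial.map_C]
      congr 1
      exact (φ.commutes a).symm
    · rw [RingHom.comp_apply, Polynomial.coe_mapRingHom, map_X, C2_Th_X]
      rfl
  exact congrArg (fun f : k[X] →+* MvPolynomial I KK => f p) h

private noncomputable def C2_cf (s : I →₀ ℕ) (p : (MvPolynomial I k)[X]) : k[X] :=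
  ∑ l ∈ p.support, monomial l (MvPolynomial.coeff s (p.coeff l))

private theorem C2_cf_coeff (s : I →₀ ℕ) (p : (MvPolynomial I k)[X]) (l : ℕ) :
    (C2_cf I s p).coeff l = MvPolynomial.coeff s (p.coeff l) := by
  unfold C2_cf
  rw [finsetSum_coeff]
  simp only [coeff_monomial]
  rw [Finset.sum_ite_eq' p.support l fun j => MvPolynomial.coeff s (p.coeff j)]
  by_cases h : l ∈ p.support
  · rw [if_pos h]
  · rw [if_neg h, notMem_support_iff.1 h, MvPolynomial.coeff_zero]

private theorem C2_Th_coeff (s : I →₀ ℕ) (p : (MvPolynomial I k)[X]) :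
    MvPolynomial.coeff s (C2_Th φ I p) = φ (C2_cf I s p) := by
  induction p using Polynomial.induction_on' with
  | add p q hp hq =>
    rw [map_add, MvPolynomial.coeff_add, hp, hq, ← map_add]
    congr 1
    ext l
    rw [coeff_add, C2_cf_coeff, C2_cf_coeff, C2_cf_coeff, coeff_add, MvPolynomial.coeff_add]
  | monomial l a =>
    have h1 : C2_cf I s (monomial l a) = C (MvPolynomial.coeff s a) * X ^ l := by
      ext r
      rw [C2_cf_coeff, coeff_monomial, coeff_C_mul, coeff_X_pow]
      by_cases h : l = r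
      · rw [if_pos h, if_pos h.symm, mul_one]
      · rw [if_neg h, if_neg (fun h' => h h'.symm), mul_zero, MvPolynomial.coeff_zero]
    rw [h1, ← C_mul_X_pow_eq_monomial, map_mul, map_pow, C2_Th_C, C2_Th_X, map_mul, map_pow,
      ← MvPolynomial.C_pow, mul_comm, MvPolynomial.coeff_C_mul, mul_comm]
    congr 1
    unfold inc
    rw [MvPolynomial.coeff_map]
    exact (φ.commutes _).symm

private theorem C2_Th_inj (hφ : Function.Injective φ) : Function.Injective (C2_Th φ I) := by
  rw [injective_iff_map_eq_zero]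
  intro p hp
  ext l s
  have h1 := C2_Th_coeff φ I s p
  rw [hp, MvPolynomial.coeff_zero] at h1
  have h2 : C2_cf I s p = 0 := hφ (by rw [← h1, map_zero])
  rw [← C2_cf_coeff, h2, coeff_zero, coeff_zero, MvPolynomial.coeff_zero]

private theorem C2_ThO_surj (u : MvPolynomial I φ.range) : ∃ U, C2_ThO φ I U = u := by
  induction u using MvPolynomial.induction_on with
  | C o =>
    obtain ⟨p, hp⟩ := o.2
    refine ⟨p.map (algebraMap k (MvPolynomial I k)), ?_⟩
    apply MvPolynomial.map_injective (φ.range.subtype : φ.range →+* KK) Subtype.val_injective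
    rw [← C2_Th_eq, C2_Th_map, MvPolynomial.map_C]
    congr 1
  | add p q hp hq =>
    obtain ⟨U, hU⟩ := hp
    obtain ⟨V, hV⟩ := hq
    exact ⟨U + V, by rw [map_add, hU, hV]⟩
  | mul_X p i hp =>
    obtain ⟨U, hU⟩ := hp
    refine ⟨U * C (MvPolynomial.X i), ?_⟩
    rw [map_mul, hU, C2_ThO_C, MvPolynomial.map_X]

variable {φ} {m : ℕ}

/-- the points `b i` -/
private noncomputable def C2_poles (hφ : Function.Injective φ) (b : Fin m → k)
    (hb : Function.Injective b) : Poles k KK φ.range m where
  ev i := (Polynomial.aeval (b i)).comp ((AlgEquiv.ofInjective φ hφ).symm : φ.range →ₐ[k] k[X])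
  π i := (φ (X - C (b i)))⁻¹
  h1 := by
    intro i f
    obtain ⟨p, rfl⟩ := (AlgEquiv.ofInjective φ hφ).surjective f
    have h1 : ((Polynomial.aeval (b i)).comp
        ((AlgEquiv.ofInjective φ hφ).symm : φ.range →ₐ[k] k[X])) (AlgEquiv.ofInjective φ hφ p) =
        p.eval (b i) := by
      rw [AlgHom.comp_apply]
      change Polynomial.aeval (b i) ((AlgEquiv.ofInjective φ hφ).symm (AlgEquiv.ofInjective φ hφ p)) = _
      rw [AlgEquiv.symm_apply_apply, Polynomial.coe_aeval_eq_eval]
    rw [h1]
    have h2 : ((AlgEquiv.ofInjective φ hφ p : φ.range) : KK) = φ p := rfl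
    rw [h2]
    obtain ⟨q, hq⟩ := Polynomial.dvd_iff_isRoot.2
      (show (p - C (p.eval (b i))).IsRoot (b i) by simp)
    have h3 : φ (X - C (b i)) ≠ 0 := by
      rw [Ne, map_eq_zero_iff φ hφ]
      exact X_sub_C_ne_zero _
    have h4 : (φ p - algebraMap k KK (p.eval (b i))) * (φ (X - C (b i)))⁻¹ = φ q := by
      have h5 : φ (C (p.eval (b i))) = algebraMap k KK (p.eval (b i)) := φ.commutes _
      rw [← h5, ← map_sub, hq, map_mul, mul_comm (φ (X - C (b i))), mul_assoc, mul_inv_cancel₀ h3,
        mul_one]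
    rw [h4]
    exact ⟨q, rfl⟩
  h2 := by
    intro i j hij
    have hne : b i - b j ≠ 0 := sub_ne_zero.2 fun h => hij (hb h)
    refine ⟨(b i - b j)⁻¹, -(b i - b j)⁻¹, ?_⟩
    have h3 : ∀ i, φ (X - C (b i)) ≠ 0 := by
      intro i
      rw [Ne, map_eq_zero_iff φ hφ]
      exact X_sub_C_ne_zero _
    have h4 : algebraMap k KK (b i - b j) = φ (X - C (b j)) - φ (X - C (b i)) := by
      rw [← map_sub, show (X - C (b j)) - (X - C (b i)) = C (b i - b j) by rw [C_sub]; ring]
      exact (φ.commutes _).symm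
    have h5 : algebraMap k KK (b i - b j) ≠ 0 := by
      rw [Ne, map_eq_zero_iff (algebraMap k KK) (algebraMap k KK).injective]
      exact hne
    have h6 : (φ (X - C (b i)))⁻¹ * (φ (X - C (b j)))⁻¹ -
        algebraMap k KK (b i - b j)⁻¹ * (φ (X - C (b i)))⁻¹ -
        algebraMap k KK (-(b i - b j)⁻¹) * (φ (X - C (b j)))⁻¹ = 0 := by
      rw [map_neg, map_inv₀]
      have h7 := h3 i
      have h8 := h3 j
      rw [h4] at h5 ⊢
      field_simp
      ring
    rw [h6]
    exact zero_mem _

private theorem C2_ev (hφ : Function.Injective φ) (b : Fin m → k) (hb : Function.Injective b)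
    (i : Fin m) (p : k[X]) : (C2_poles hφ b hb).ev i (φ.rangeRestrict p) = p.eval (b i) := by
  have h1 : φ.rangeRestrict p = AlgEquiv.ofInjective φ hφ p := rfl
  rw [h1]
  change Polynomial.aeval (b i) ((AlgEquiv.ofInjective φ hφ).symm (AlgEquiv.ofInjective φ hφ p)) = _
  rw [AlgEquiv.symm_apply_apply, Polynomial.coe_aeval_eq_eval]

private theorem C2_ThO_ev (hφ : Function.Injective φ) (b : Fin m → k) (hb : Function.Injective b)
    (i : Fin m) (p : (MvPolynomial I k)[X]) :
    MvPolynomial.map ((C2_poles hφ b hb).ev i : φ.range →+* k) (C2_ThO φ I p) =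
      p.eval (algebraMap k (MvPolynomial I k) (b i)) := by
  have h : (MvPolynomial.map ((C2_poles hφ b hb).ev i : φ.range →+* k)).comp (C2_ThO φ I) =
      Polynomial.evalRingHom (algebraMap k (MvPolynomial I k) (b i)) := by
    refine Polynomial.ringHom_ext' ?_ ?_
    · refine RingHom.ext fun a => ?_
      rw [RingHom.comp_apply, RingHom.comp_apply, RingHom.comp_apply, C2_ThO_C,
        MvPolynomial.map_map, Polynomial.coe_evalRingHom, Polynomial.eval_C]
      have h2 : ((C2_poles hφ b hb).ev i : φ.range →+* k).comp (algebraMap k φ.range) =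
          RingHom.id k := by
        refine RingHom.ext fun c => ?_
        exact ((C2_poles hφ b hb).ev i).commutes c
      rw [h2, MvPolynomial.map_id]
    · rw [RingHom.comp_apply, C2_ThO_X, MvPolynomial.map_C, Polynomial.coe_evalRingHom,
        Polynomial.eval_X]
      have h2 : ((C2_poles hφ b hb).ev i : φ.range →+* k) (φ.rangeRestrict X) = b i := by
        have h3 := C2_ev hφ b hb i X
        rw [eval_X] at h3
        exact h3
      rw [h2]
      rfl
  exact congrArg (fun f : (MvPolynomial I k)[X] →+* MvPolynomial I k => f p) h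

end Th


/-! ### The universal identity -/

private theorem C2_hom {k S : Type} [Field k] [CommRing S] (ρ : k →+* S) {n p : ℕ}
    (F : MvPolynomial (Fin (n + 1)) k) (hF : F.IsHomogeneous p) (w : S) (x : Fin (n + 1) → S) :
    MvPolynomial.eval₂ ρ (fun a => w * x a) F = w ^ p * MvPolynomial.eval₂ ρ x F := by
  rw [MvPolynomial.eval₂_eq', MvPolynomial.eval₂_eq', Finset.mul_sum]
  refine Finset.sum_congr rfl fun s hs => ?_
  have h2 : ∑ i, s i = p := by
    have h3 := hF (MvPolynomial.mem_support_iff.1 hs)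
    rw [← h3]
    simp [Finsupp.weight_apply, Finsupp.sum_fintype]
  have h3 : ∏ i, (w * x i) ^ s i = w ^ p * ∏ i, x i ^ s i := by
    rw [← h2, ← Finset.prod_pow_eq_pow_sum, ← Finset.prod_mul_distrib]
    refine Finset.prod_congr rfl fun i _ => ?_
    rw [mul_pow]
  rw [h3]
  ring

section main

variable {k KK : Type} [Field k] [Field KK] [Algebra k KK] {φ : k[X] →ₐ[k] KK} {I : Type} {m : ℕ}

private theorem C2_pi (hφ : Function.Injective φ) (b : Fin m → k) (hb : Function.Injective b)
    (E : Fin m → ℕ) (i : Fin m) (j : ℕ) (hj : j ≤ E i) :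
    φ (Wp b E) * (C2_poles hφ b hb).π i ^ j = φ (Wq b E i j) := by
  have h3 : φ (X - C (b i)) ≠ 0 := by
    rw [Ne, map_eq_zero_iff φ hφ]
    exact X_sub_C_ne_zero _
  change φ (Wp b E) * ((φ (X - C (b i)))⁻¹) ^ j = φ (Wq b E i j)
  rw [C2_W_mul b E i j hj, map_mul, map_pow, mul_assoc, ← mul_pow, mul_inv_cancel₀ h3, one_pow,
    mul_one]

private theorem C2_tail (hφ : Function.Injective φ) (b : Fin m → k) (hb : Function.Injective b)
    (E : Fin m → ℕ) (e : Fin m → MvPolynomial I k) (y : (i : Fin m) → Fin (E i) → MvPolynomial I k) :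
    MvPolynomial.C (φ (Wp b E)) *
        pol (C2_poles hφ b hb) e (fun i => ∑ j : Fin (E i), C (y i j) * X ^ ((j : ℕ) + 1)) =
      C2_Th φ I (∑ i : Fin m, ∑ j : Fin (E i), C (y i j * e i ^ ((j : ℕ) + 1)) *
        Wq (fun i => algebraMap k (MvPolynomial I k) (b i)) E i ((j : ℕ) + 1)) := by
  unfold pol
  rw [Finset.mul_sum, map_sum]
  refine Finset.sum_congr rfl fun i _ => ?_
  rw [Polynomial.eval₂_finsetSum, Finset.mul_sum, map_sum]
  refine Finset.sum_congr rfl fun j _ => ?_
  rw [Polynomial.eval₂_mul, Polynomial.eval₂_C, Polynomial.eval₂_pow, Polynomial.eval₂_X,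
    map_mul, C2_Th_C, ← C2_Wq_map (algebraMap k (MvPolynomial I k)), C2_Th_map,
    ← C2_pi hφ b hb E i ((j : ℕ) + 1) (by have := j.2; omega), map_mul, map_pow,
    MvPolynomial.C_mul, MvPolynomial.C_pow]
  ring

end main

section univ

variable {k : Type} [Field k] {n D c0 m : ℕ} {d : Fin m → ℕ}

private theorem C2_univ (F : MvPolynomial (Fin (n + 1)) k) (hF : F.IsHomogeneous n)
    (b : Fin m → k) (hb : Function.Injective b) (g : Fin (n + 1) → k[X]) :
    ∃ (U : (MvPolynomial (CI n D c0 d) k)[X])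
      (c : (i : Fin m) → Fin (n * d i) → MvPolynomial (CI n D c0 d) k),
      MvPolynomial.aeval (xh (fun i => algebraMap k (MvPolynomial (CI n D c0 d) k) (b i))
        (fun a => (g a).map (algebraMap k (MvPolynomial (CI n D c0 d) k))) MvPolynomial.X) F =
        Wp (fun i => algebraMap k (MvPolynomial (CI n D c0 d) k) (b i)) (fun l => n * d l) * U +
        ∑ i : Fin m, ∑ j : Fin (n * d i),
          C (c i j * MvPolynomial.X (Sum.inl i) ^ ((j : ℕ) + 1)) *
          Wq (fun i => algebraMap k (MvPolynomial (CI n D c0 d) k) (b i)) (fun l => n * d l) i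
            ((j : ℕ) + 1) ∧
      ∀ i (j : Fin (n * d i)), c i j -
        (MvPolynomial.aeval (tth (fun i => algebraMap k (MvPolynomial (CI n D c0 d) k) (b i))
          (fun a => (g a).map (algebraMap k (MvPolynomial (CI n D c0 d) k))) MvPolynomial.X i)
            F).coeff ((j : ℕ) + 1) ∈
        Ideal.span (Set.range fun i : Fin m =>
          (MvPolynomial.X (Sum.inl i) : MvPolynomial (CI n D c0 d) k)) := by
  classical
  set A : Type := MvPolynomial (CI n D c0 d) k with hA
  set φ : k[X] →ₐ[k] RatFunc k := IsScalarTower.toAlgHom k k[X] (RatFunc k) with hφd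
  have hφ : Function.Injective φ := RatFunc.algebraMap_injective k
  set bA : Fin m → A := fun i => algebraMap k A (b i) with hbA
  set gA : Fin (n + 1) → A[X] := fun a => (g a).map (algebraMap k A) with hgA
  set e : Fin m → A := fun i => MvPolynomial.X (Sum.inl i) with he
  set y : (a : Fin (n + 1)) → (i : Fin m) → Fin (d i) → A :=
    fun a i j => MvPolynomial.X (Sum.inr (Sum.inr ⟨i, (a, j)⟩)) with hy
  set t : Fin (n + 1) → Fin m → A[X] :=
    fun a i => ∑ j : Fin (d i), C (y a i j) * X ^ ((j : ℕ) + 1) with ht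
  set P := C2_poles hφ b hb with hP
  have ht0 : ∀ a i, (t a i).coeff 0 = 0 := by
    intro a i
    rw [ht]
    change (∑ j : Fin (d i), C (y a i j) * X ^ ((j : ℕ) + 1)).coeff 0 = 0
    rw [finsetSum_coeff]
    refine Finset.sum_eq_zero fun j _ => ?_
    rw [coeff_C_mul, coeff_X_pow, if_neg (by omega), mul_zero]
  have htd : ∀ a i, (t a i).natDegree ≤ d i := by
    intro a i
    refine natDegree_sum_le_of_forall_le _ _ fun j _ => ?_
    refine (natDegree_C_mul_X_pow_le _ _).trans ?_
    have := j.2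
    omega
  obtain ⟨u, c, hc, hid, hcong⟩ := decomp P e (MvPolynomial.map (algebraMap k φ.range) F)
    (hF.map _) (fun a => C2_ThO φ (CI n D c0 d) (hdl gA MvPolynomial.X a)) t ht0 d htd
  obtain ⟨U, hU⟩ := C2_ThO_surj φ (CI n D c0 d) u
  have hcs : ∀ i, c i = ∑ j : Fin (n * d i), C ((c i).coeff ((j : ℕ) + 1)) * X ^ ((j : ℕ) + 1) := by
    intro i
    ext1 r
    rw [finsetSum_coeff]
    simp only [coeff_C_mul, coeff_X_pow]
    rcases r with _ | r
    · rw [(hc i).1]
      refine (Finset.sum_eq_zero fun j _ => ?_).symm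
      rw [if_neg (by omega), mul_zero]
    · by_cases hr : r < n * d i
      · rw [Finset.sum_eq_single ⟨r, hr⟩]
        · rw [if_pos rfl, mul_one]
        · intro j _ hj
          rw [if_neg (fun h => hj (Fin.ext (by
            have : (j : ℕ) = r := by omega
            exact this))), mul_zero]
        · intro h
          exact absurd (Finset.mem_univ _) h
      · rw [coeff_eq_zero_of_natDegree_lt (by have := (hc i).2; omega)]
        refine (Finset.sum_eq_zero fun j _ => ?_).symm
        rw [if_neg (by have := j.2; omega), mul_zero]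
  refine ⟨U, fun i j => (c i).coeff ((j : ℕ) + 1), ?_, ?_⟩
  · apply C2_Th_inj φ (CI n D c0 d) hφ
    have h1 : ∀ a, C2_Th φ (CI n D c0 d) (xh bA gA MvPolynomial.X a) =
        MvPolynomial.C (φ (Wp b d)) * (MvPolynomial.map (φ.range.subtype : φ.range →+* RatFunc k)
          (C2_ThO φ (CI n D c0 d) (hdl gA MvPolynomial.X a)) + pol P e (t a)) := by
      intro a
      rw [mul_add, ht, hP, C2_tail hφ b hb d e (y a), ← C2_Th_eq]
      unfold xh
      rw [map_add, map_mul, ← C2_Wp_map (algebraMap k A), C2_Th_map]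
    have h2 := MvPolynomial.eval₂_comp_left (C2_Th φ (CI n D c0 d)) (algebraMap k A[X])
      (xh bA gA MvPolynomial.X) F
    set ρ : k →+* MvPolynomial (CI n D c0 d) (RatFunc k) :=
      (MvPolynomial.C (R := RatFunc k) (σ := CI n D c0 d)).comp (algebraMap k (RatFunc k)) with hρ
    have h3 : (C2_Th φ (CI n D c0 d)).comp (algebraMap k A[X]) = ρ := by
      refine RingHom.ext fun a => ?_
      rw [RingHom.comp_apply, Polynomial.algebraMap_apply, C2_Th_C]
      change inc k (RatFunc k) (CI n D c0 d) (MvPolynomial.C a) = _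
      unfold inc
      rw [MvPolynomial.map_C]
      rfl
    have h4 : (C2_Th φ (CI n D c0 d)) ∘ (xh bA gA MvPolynomial.X) = fun a =>
        MvPolynomial.C (φ (Wp b d)) * (MvPolynomial.map (φ.range.subtype : φ.range →+* RatFunc k)
          (C2_ThO φ (CI n D c0 d) (hdl gA MvPolynomial.X a)) + pol P e (t a)) := funext h1
    rw [h3, h4, C2_hom ρ F hF] at h2
    rw [MvPolynomial.eval₂_map] at hid
    have h5 : ((MvPolynomial.C (R := RatFunc k) (σ := CI n D c0 d)).comp
        (φ.range.subtype : φ.range →+* RatFunc k)).comp (algebraMap k φ.range) = ρ :=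
      RingHom.ext fun _ => rfl
    rw [h5] at hid
    rw [hid] at h2
    rw [MvPolynomial.aeval_def, h2, map_add, map_mul, ← C2_Wp_map (algebraMap k A), C2_Th_map,
      C2_Th_eq φ _ U, hU, ← C2_tail hφ b hb (fun l => n * d l) e
        (fun i j => (c i).coeff ((j : ℕ) + 1)), ← mul_add, C2_Wp_pow, map_pow, MvPolynomial.C_pow]
    congr 2
    congr 1
    exact funext hcs
  · intro i j
    have h1 := hcong i ((j : ℕ) + 1)
    rw [MvPolynomial.eval₂_map] at h1
    have h2 : ((C (R := MvPolynomial (CI n D c0 d) k)).comp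
        ((MvPolynomial.C (R := k) (σ := CI n D c0 d)).comp (P.ev i : φ.range →+* k))).comp
          (algebraMap k φ.range) = algebraMap k A[X] := by
      refine RingHom.ext fun a => ?_
      rw [Polynomial.algebraMap_apply]
      change C (MvPolynomial.C (P.ev i (algebraMap k φ.range a))) = C (MvPolynomial.C a)
      rw [(P.ev i).commutes]
      rfl
    have h3 : (fun a => C (MvPolynomial.map (P.ev i : φ.range →+* k)
        (C2_ThO φ (CI n D c0 d) (hdl gA MvPolynomial.X a))) + t a i) =
          tth bA gA MvPolynomial.X i := by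
      funext a
      rw [hP, C2_ThO_ev]
      rfl
    rw [h2, h3, coeff_sub, coeff_add, coeff_C_succ, zero_add] at h1
    exact h1


private theorem C2_mul_coeff {A : Type} [CommRing A] (P Q : A[X]) (p q : ℕ)
    (hP : P.natDegree ≤ p) (hQ : ∀ r, q ≤ r → Q.coeff r = 0) (r : ℕ) (hr : p + q ≤ r) :
    (P * Q).coeff r = 0 := by
  rw [coeff_mul]
  refine Finset.sum_eq_zero fun x hx => ?_
  have hx := Finset.HasAntidiagonal.mem_antidiagonal.1 hx
  by_cases h : p < x.1
  · rw [coeff_eq_zero_of_natDegree_lt (by omega), zero_mul]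
  · rw [hQ x.2 (by omega), mul_zero]

private theorem C2_xh_Q {A : Type} [CommRing A] [Nontrivial A] (hD : 1 ≤ D)
    (hc0 : c0 = 1 ∨ c0 = 2) (b : Fin m → A) (g : Fin (n + 1) → A[X])
    (hg : ∀ a, (g a).natDegree ≤ D) (z : CI n D c0 d → A) (a : Fin (n + 1)) :
    C2_Q (D + ∑ i, d i) c0 1 (xh b g z a) (Wp b d * g a) := by
  have h2 : ∀ r, 1 * (D + ∑ i, d i) < r → (Wp b d * g a).coeff r = 0 := by
    intro r hr
    refine C2_mul_coeff _ _ (∑ i, d i) (D + 1) (C2_Wp_natDegree b d).le (fun r hr => ?_) r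
      (by omega)
    exact coeff_eq_zero_of_natDegree_lt (by have := hg a; omega)
  have h3 : ∀ r, 1 * (D + ∑ i, d i) + 1 ≤ r + c0 →
      (xh b g z a).coeff r = (Wp b d * g a).coeff r := by
    intro r hr
    unfold xh hdl
    rw [mul_add, coeff_add, coeff_add]
    have e1 : (Wp b d * ∑ l : Fin (D + 1 - c0), C (z (Sum.inr (Sum.inl (a, l)))) * X ^ (l : ℕ)).coeff
        r = 0 := by
      refine C2_mul_coeff _ _ (∑ i, d i) (D + 1 - c0) (C2_Wp_natDegree b d).le (fun r hr => ?_) r
        (by omega)
      rw [finsetSum_coeff]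
      refine Finset.sum_eq_zero fun l _ => ?_
      rw [coeff_C_mul, coeff_X_pow, if_neg (by have := l.2; omega), mul_zero]
    have e2 : (∑ i : Fin m, ∑ j : Fin (d i),
        C (z (Sum.inr (Sum.inr ⟨i, (a, j)⟩)) * z (Sum.inl i) ^ ((j : ℕ) + 1)) *
          Wq b d i ((j : ℕ) + 1)).coeff r = 0 := by
      rw [finsetSum_coeff]
      refine Finset.sum_eq_zero fun i _ => ?_
      rw [finsetSum_coeff]
      refine Finset.sum_eq_zero fun j _ => ?_
      rw [coeff_C_mul, C2_Wq_coeff b d i ((j : ℕ) + 1) (by omega) (by have := j.2; omega) r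
        (by omega), mul_zero]
    rw [e1, e2, add_zero, add_zero]
  exact ⟨fun r hr => by rw [h3 r (by omega), h2 r hr], h2, h3⟩

end univ

theorem exists_ceq {k : Type} [Field k] {n D c0 m : ℕ} (hn : 2 ≤ n)
    (F : MvPolynomial (Fin (n + 1)) k) (hF : F.IsHomogeneous n) (hD : 1 ≤ D)
    (hc0 : c0 = 1 ∨ c0 = 2) (b : Fin m → k) (hb : Function.Injective b) (d : Fin m → ℕ)
    (g : Fin (n + 1) → k[X]) (hg : On F D g) :
    ∃ Φ : CJ n D c0 d → MvPolynomial (CI n D c0 d) k, CEq F b g Φ := by
  obtain ⟨U, c, hid, hcong⟩ := C2_univ (D := D) (c0 := c0) (d := d) F hF b hb g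
  -- the degree of `U`
  have hdeg : ∀ l, n * D + 1 - c0 ≤ l → U.coeff l = 0 := by
    by_contra hcon
    push Not at hcon
    obtain ⟨l, hl, hUl⟩ := hcon
    have hl' : l ≤ U.natDegree := le_natDegree_of_ne_zero hUl
    have hU0 : U ≠ 0 := by
      rintro rfl
      exact hUl (coeff_zero l)
    have h1 := congrArg (fun p => coeff p ((∑ i, n * d i) + U.natDegree)) hid
    simp only [coeff_add] at h1
    have h2 : (MvPolynomial.aeval (xh (fun i => algebraMap k (MvPolynomial (CI n D c0 d) k) (b i))
        (fun a => (g a).map (algebraMap k (MvPolynomial (CI n D c0 d) k))) MvPolynomial.X) F).coeff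
          ((∑ i, n * d i) + U.natDegree) = 0 := by
      rw [C2_form F hF _ (fun a => Wp (fun i => algebraMap k (MvPolynomial (CI n D c0 d) k) (b i)) d *
        (g a).map (algebraMap k (MvPolynomial (CI n D c0 d) k)))
        (fun a => C2_xh_Q hD hc0 _ _ (fun a => (natDegree_map_le).trans (hg.1 a)) _ a)
        ((∑ i, n * d i) + U.natDegree) (by rw [mul_add, Finset.mul_sum]; omega)]
      rw [MvPolynomial.aeval_def, C2_hom _ F hF]
      have h3 := MvPolynomial.comp_aeval_apply g
        (Polynomial.mapAlgHom (Algebra.ofId k (MvPolynomial (CI n D c0 d) k))) F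
      rw [hg.2, map_zero] at h3
      have h4 : MvPolynomial.eval₂ (algebraMap k (MvPolynomial (CI n D c0 d) k)[X])
          (fun a => (g a).map (algebraMap k (MvPolynomial (CI n D c0 d) k))) F = 0 := h3.symm
      rw [h4, mul_zero, coeff_zero]
    have h3 : (∑ i : Fin m, ∑ j : Fin (n * d i),
          C (c i j * MvPolynomial.X (Sum.inl i) ^ ((j : ℕ) + 1)) *
          Wq (fun i => algebraMap k (MvPolynomial (CI n D c0 d) k) (b i)) (fun l => n * d l) i
            ((j : ℕ) + 1)).coeff ((∑ i, n * d i) + U.natDegree) = 0 := by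
      rw [finsetSum_coeff]
      refine Finset.sum_eq_zero fun i _ => ?_
      rw [finsetSum_coeff]
      refine Finset.sum_eq_zero fun j _ => ?_
      rw [coeff_C_mul, C2_Wq_coeff _ (fun l => n * d l) i ((j : ℕ) + 1) (by omega)
        (by have := j.2; omega) _ (by omega), mul_zero]
    have h4 := coeff_mul_degree_add_degree
      (Wp (fun i => algebraMap k (MvPolynomial (CI n D c0 d) k) (b i)) (fun l => n * d l)) U
    rw [C2_Wp_natDegree, (C2_Wp_monic _ _).leadingCoeff, one_mul] at h4
    rw [h2, h3, h4, add_zero] at h1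
    exact hU0 (leadingCoeff_eq_zero.1 h1.symm)
  have hUs : U = ∑ l : Fin (n * D + 1 - c0), C (U.coeff l) * X ^ (l : ℕ) := by
    ext1 r
    rw [finsetSum_coeff]
    simp only [coeff_C_mul, coeff_X_pow]
    by_cases hr : r < n * D + 1 - c0
    · rw [Finset.sum_eq_single ⟨r, hr⟩]
      · rw [if_pos rfl, mul_one]
      · intro j _ hj
        rw [if_neg (fun h => hj (Fin.ext h.symm)), mul_zero]
      · intro h
        exact absurd (Finset.mem_univ _) h
    · rw [hdeg r (by omega)]
      refine (Finset.sum_eq_zero fun j _ => ?_).symm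
      rw [if_neg (by have := j.2; omega), mul_zero]
  set Φ : CJ n D c0 d → MvPolynomial (CI n D c0 d) k :=
    Sum.elim (fun l => U.coeff l) (fun w => c w.1 w.2) with hΦ
  have huniv : MvPolynomial.aeval (xh (fun i => algebraMap k (MvPolynomial (CI n D c0 d) k) (b i))
      (fun a => (g a).map (algebraMap k (MvPolynomial (CI n D c0 d) k))) MvPolynomial.X) F =
      yh (fun i => algebraMap k (MvPolynomial (CI n D c0 d) k) (b i))
        (fun i => MvPolynomial.X (Sum.inl i)) Φ := by
    rw [hid]
    unfold yh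
    congr 1
    exact congrArg (fun V => Wp (fun i => algebraMap k (MvPolynomial (CI n D c0 d) k) (b i))
      (fun l => n * d l) * V) hUs
  refine ⟨Φ, fun R _ _ z => ?_⟩
  set f : MvPolynomial (CI n D c0 d) k →ₐ[k] R := MvPolynomial.aeval z with hf
  have hb' : ∀ i, (f : MvPolynomial (CI n D c0 d) k →+* R)
      (algebraMap k (MvPolynomial (CI n D c0 d) k) (b i)) = algebraMap k R (b i) :=
    fun i => f.commutes _
  have hg' : ∀ a, ((g a).map (algebraMap k (MvPolynomial (CI n D c0 d) k))).map
      (f : MvPolynomial (CI n D c0 d) k →+* R) = (g a).map (algebraMap k R) := by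
    intro a
    rw [Polynomial.map_map, AlgHom.comp_algebraMap]
  have hz' : ∀ w, (f : MvPolynomial (CI n D c0 d) k →+* R) (MvPolynomial.X w) = z w :=
    fun w => MvPolynomial.aeval_X z w
  have hnat : ∀ x : Fin (n + 1) → (MvPolynomial (CI n D c0 d) k)[X],
      (MvPolynomial.aeval x F).map (f : MvPolynomial (CI n D c0 d) k →+* R) =
        MvPolynomial.aeval (fun a => (x a).map (f : MvPolynomial (CI n D c0 d) k →+* R)) F :=
    fun x => MvPolynomial.comp_aeval_apply x (Polynomial.mapAlgHom f) F
  constructor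
  · have h1 := congrArg (Polynomial.map (f : MvPolynomial (CI n D c0 d) k →+* R)) huniv
    rw [hnat, C2_yh_map] at h1
    simp only [C2_xh_map, hb', hg', hz'] at h1
    exact h1
  · intro hz i j
    have h1 := hcong i j
    have h2 : Ideal.span (Set.range fun i : Fin m =>
        (MvPolynomial.X (Sum.inl i) : MvPolynomial (CI n D c0 d) k)) ≤
          RingHom.ker (f : MvPolynomial (CI n D c0 d) k →+* R) := by
      rw [Ideal.span_le]
      rintro _ ⟨i, rfl⟩
      change (f : MvPolynomial (CI n D c0 d) k →+* R) (MvPolynomial.X (Sum.inl i)) = 0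
      rw [hz', hz]
    have h3 : (f : MvPolynomial (CI n D c0 d) k →+* R) _ = 0 := h2 h1
    rw [map_sub, sub_eq_zero, ← Polynomial.coeff_map, hnat] at h3
    simp only [C2_tth_map, hb', hg', hz'] at h3
    exact h3

end Q9
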