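import Pool.Agent.LibQ9.PDefs

/-!
[Q9 P4] (MEDIUM/STRONG) Derivations bound the transcendence degree; no derivations: separable algebraic.

PLAN. `L = fld k z`, `K = fld k q` (a subfield of `L` by `hq`: work with `K' = IntermediateField.adjoin k (range (q as elements of L))` inside `L`, or the tower `K → L`). `L` is finitely generated as a
field over `K`, `Ω[L⁄K]` (Kaehler differentials) is spanned over `L` by the `D (z i)`. Derivations of `L` over `k` with values in `Ω` killing the `q j` are the `K`-derivations
`= Hom_L(Ω[L⁄K], Ω)`.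
(a) `sep_of_der`: if every such derivation kills all `z i` then `Hom_L(Ω[L⁄K], Ω) = 0`, so `Ω[L⁄K] = 0` (a nonzero `L`-vector space has a nonzero map to `Ω ⊇ L`), `L/K` is formally unramified, and
essentially of finite type, so finite separable: `Algebra.FormallyUnramified.iff_isSeparable` or the related lemmas in `Mathlib/RingTheory/Unramified/Field.lean`.
(b) `td_le_of_der`: the map `D ↦ (D z_i)_i` is injective and `Ω`-linear into `M`, so `dim_L Ω[L⁄K] ≤ r` (dual space; `L`-dimension of `Hom_L(V, Ω)` over `Ω`). Choose `i_1..i_s`, `s ≤ r`, such that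
`D z_{i_1}, ..., D z_{i_s}` span `Ω[L⁄K]`; for the family `q' = q ∪ (z_{i_1}, ..., z_{i_s})` case (a) applies: `L` is algebraic over `fld k q'`, so `td z = td q' ≤ td q + s`.
(`td` of a finite family = transcendence degree of the field it generates.)
-/

set_option autoImplicit false

namespace Q9

open MvPolynomial

/-- a derivation which kills the generators is zero -/
private theorem P4_zero {k : Type} [Field k] {I Ω : Type} [Field Ω] [Algebra k Ω] (z : I → Ω)
    (D : Derivation k (fld k z) Ω) (h : ∀ i, D (fz k z i) = 0) (x : fld k z) : D x = 0 := by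
  obtain ⟨x, hx⟩ := x
  induction hx using IntermediateField.adjoin_induction with
  | mem x hx =>
    obtain ⟨i, rfl⟩ := hx
    exact h i
  | algebraMap x =>
    exact D.map_algebraMap x
  | add x y hx hy h1 h2 =>
    have h3 : (⟨x + y, add_mem hx hy⟩ : fld k z) = ⟨x, hx⟩ + ⟨y, hy⟩ := rfl
    rw [h3, map_add, h1, h2, add_zero]
  | mul x y hx hy h1 h2 =>
    have h3 : (⟨x * y, mul_mem hx hy⟩ : fld k z) = ⟨x, hx⟩ * ⟨y, hy⟩ := rfl
    rw [h3, D.leibniz, h1, h2, smul_zero, smul_zero, add_zero]
  | inv x hx h1 =>
    have h3 : (⟨x⁻¹, inv_mem hx⟩ : fld k z) = (⟨x, hx⟩)⁻¹ := rfl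
    rw [h3]
    by_cases h0 : (⟨x, hx⟩ : fld k z) = 0
    · rw [h0, inv_zero, map_zero]
    · have h4 : D ((⟨x, hx⟩ : fld k z) * (⟨x, hx⟩ : fld k z)⁻¹) = 0 := by
        rw [mul_inv_cancel₀ h0, D.map_one_eq_zero]
      rw [D.leibniz, h1, smul_zero, add_zero] at h4
      exact (smul_eq_zero.1 h4).resolve_left h0

/-- a derivation over a subfield `K` with values in the field is a derivation over `k` with values in `Ω` -/
private noncomputable def P4_der {k : Type} [Field k] {Ω : Type} [Field Ω] [Algebra k Ω]
    {K L : IntermediateField k Ω} (hle : K ≤ L)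
    (D : Derivation K (IntermediateField.extendScalars hle) (IntermediateField.extendScalars hle)) :
    Derivation k L Ω :=
  Derivation.mk'
    { toFun := fun x => ((D ⟨x.1, (IntermediateField.mem_extendScalars hle).2 x.2⟩ : IntermediateField.extendScalars hle) : Ω)
      map_add' := fun x y => by
        have h3 : (⟨(x + y).1, (x + y).2⟩ : IntermediateField.extendScalars hle) = ⟨x.1, x.2⟩ + ⟨y.1, y.2⟩ := rfl
        rw [h3, map_add]
        rfl
      map_smul' := fun c x => by
        have h3 : (⟨(c • x).1, (c • x).2⟩ : IntermediateField.extendScalars hle) =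
            (algebraMap k K c) • (⟨x.1, x.2⟩ : IntermediateField.extendScalars hle) := by
          apply Subtype.ext
          change c • (x.1 : Ω) = (algebraMap k Ω c) * x.1
          rw [Algebra.smul_def]
        rw [h3, D.map_smul]
        change (algebraMap k Ω c) * _ = c • _
        rw [Algebra.smul_def] }
    (fun x y => by
      have h3 : (⟨(x * y).1, (x * y).2⟩ : IntermediateField.extendScalars hle) = ⟨x.1, x.2⟩ * ⟨y.1, y.2⟩ := rfl
      change ((D ⟨(x * y).1, (x * y).2⟩ : IntermediateField.extendScalars hle) : Ω) = _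
      rw [h3, D.leibniz]
      rfl)

private theorem P4_der_apply {k : Type} [Field k] {Ω : Type} [Field Ω] [Algebra k Ω]
    {K L : IntermediateField k Ω} (hle : K ≤ L)
    (D : Derivation K (IntermediateField.extendScalars hle) (IntermediateField.extendScalars hle)) (x : L) :
    P4_der hle D x = ((D ⟨x.1, (IntermediateField.mem_extendScalars hle).2 x.2⟩ : IntermediateField.extendScalars hle) : Ω) := rfl

private theorem P4_le {k : Type} [Field k] {I J Ω : Type} [Field Ω] [Algebra k Ω]
    (z : I → Ω) (q : J → Ω) (hq : ∀ j, q j ∈ fld k z) : fld k q ≤ fld k z := by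
  rw [IntermediateField.adjoin_le_iff]
  rintro _ ⟨j, rfl⟩
  exact hq j

private theorem P4_fg {k : Type} [Field k] {I Ω : Type} [Finite I] [Field Ω] [Algebra k Ω]
    (z : I → Ω) {K : IntermediateField k Ω} (hle : K ≤ fld k z) :
    Algebra.EssFiniteType K (IntermediateField.extendScalars hle) := by
  rw [IntermediateField.essFiniteType_iff]
  refine ⟨(Set.finite_range z).toFinset, ?_⟩
  rw [Set.Finite.coe_toFinset]
  exact (IntermediateField.extendScalars_adjoin hle).symm

private theorem P4_der_zero {k : Type} [Field k] {Ω : Type} [Field Ω] [Algebra k Ω]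
    {K L : IntermediateField k Ω} (hle : K ≤ L)
    (D : Derivation K (IntermediateField.extendScalars hle) (IntermediateField.extendScalars hle)) (x : Ω)
    (hx : x ∈ K) (hx' : x ∈ L) : P4_der hle D ⟨x, hx'⟩ = 0 := by
  rw [P4_der_apply]
  have h1 : D ⟨x, (IntermediateField.mem_extendScalars hle).2 hx'⟩ = 0 := D.map_algebraMap ⟨x, hx⟩
  rw [h1]
  rfl

private theorem P4_der_eq {k : Type} [Field k] {Ω : Type} [Field Ω] [Algebra k Ω]
    {K L : IntermediateField k Ω} (hle : K ≤ L)
    (D : Derivation K (IntermediateField.extendScalars hle) (IntermediateField.extendScalars hle))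
    (x : IntermediateField.extendScalars hle)
    (h : P4_der hle D ⟨x.1, (IntermediateField.mem_extendScalars hle).1 x.2⟩ = 0) : D x = 0 :=
  Subtype.ext h

private theorem P4_mem {k : Type} [Field k] {I Ω : Type} [Field Ω] [Algebra k Ω]
    (z : I → Ω) (i : I) : z i ∈ fld k z := IntermediateField.subset_adjoin k _ (Set.mem_range_self i)

private theorem P4_fin {k : Type} [Field k] {Ω : Type} [Field Ω] [Algebra k Ω]
    {K L : IntermediateField k Ω} (hle : K ≤ L) (x : Ω) (hx : x ∈ L)
    (h : Algebra.IsSeparable K (IntermediateField.extendScalars hle)) : IsSeparable K x := by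
  have h1 := Algebra.IsSeparable.isSeparable K
    (⟨x, (IntermediateField.mem_extendScalars hle).2 hx⟩ : IntermediateField.extendScalars hle)
  unfold IsSeparable at h1 ⊢
  rw [IntermediateField.minpoly_eq] at h1
  exact h1

private theorem P4_sep (K L : Type) [Field K] [Field L] [Algebra K L] [Algebra.EssFiniteType K L]
    (h : ∀ (D : Derivation K L L) (x : L), D x = 0) : Algebra.IsSeparable K L := by
  have hd : ∀ x : L, KaehlerDifferential.D K L x = 0 := by
    intro x
    rw [← Module.forall_dual_apply_eq_zero_iff L]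
    exact fun φ => h (φ.compDer (KaehlerDifferential.D K L)) x
  have hsub : Subsingleton (KaehlerDifferential K L) := by
    rw [← Submodule.subsingleton_iff L, ← subsingleton_iff_bot_eq_top, ← KaehlerDifferential.span_range_derivation,
      eq_comm, Submodule.span_eq_bot]
    rintro _ ⟨x, rfl⟩
    exact hd x
  have hun : Algebra.FormallyUnramified K L := ⟨hsub⟩
  exact Algebra.FormallyUnramified.isSeparable K L

theorem sep_of_der {k : Type} [Field k] {I J Ω : Type} [Finite I] [Finite J] [Field Ω] [Algebra k Ω]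
    (z : I → Ω) (q : J → Ω) (hq : ∀ j, q j ∈ fld k z)
    (hD : ∀ D : Derivation k (fld k z) Ω, (∀ j, D ⟨q j, hq j⟩ = 0) → ∀ i, D (fz k z i) = 0) (i : I) :
    IsSeparable (fld k q) (z i) := by
  have hle := P4_le z q hq
  have hfg := P4_fg z hle
  have hsep := P4_sep (fld k q) (IntermediateField.extendScalars hle) fun D x => by
    have h1 : ∀ y : fld k z, P4_der hle D y = 0 :=
      P4_zero z _ (hD _ fun j => P4_der_zero hle D (q j) (P4_mem q j) (hq j))
    have h3 := h1 ⟨x.1, (IntermediateField.mem_extendScalars hle).1 x.2⟩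
    exact P4_der_eq hle D x h3
  exact P4_fin hle (z i) (P4_mem z i) hsep

private theorem P4_alg {k : Type} [Field k] {Ω : Type} [Field Ω] [Algebra k Ω] {s : Set Ω} {x : Ω}
    (h : IsAlgebraic (IntermediateField.adjoin k s) x) : x ∈ (AlgebraicIndependent.matroid k Ω).closure s := by
  rw [AlgebraicIndependent.matroid_closure_eq, SetLike.mem_coe, Subalgebra.mem_algebraicClosure]
  open IntermediateField.algebraAdjoinAdjoin in
  exact (IsFractionRing.isAlgebraic_iff (Algebra.adjoin k s) (IntermediateField.adjoin k s) Ω).2 h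

private theorem P4_up {k : Type} [Field k] {I Ω : Type} [Field Ω] [Algebra k Ω] (z : I → Ω) :
    (td k z : ℕ∞) ≤ (AlgebraicIndependent.matroid k Ω).eRk (Set.range z) := by
  obtain ⟨s, hs⟩ := exists_isTranscendenceBasis k (Algebra.adjoin k (Set.range z))
  have h1 := hs.cardinalMk_eq_trdeg
  have h2 : AlgebraicIndependent k (fun x : s => ((x : Algebra.adjoin k (Set.range z)) : Ω)) :=
    hs.1.map' (f := (Algebra.adjoin k (Set.range z)).val) Subtype.val_injective
  have h3 : (AlgebraicIndependent.matroid k Ω).Indep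
      (Set.range fun x : s => ((x : Algebra.adjoin k (Set.range z)) : Ω)) := by
    rw [AlgebraicIndependent.matroid_indep_iff]
    exact h2.to_subtype_range
  have h4 : Set.range (fun x : s => ((x : Algebra.adjoin k (Set.range z)) : Ω)) ⊆
      (AlgebraicIndependent.matroid k Ω).closure (Set.range z) := by
    rintro _ ⟨x, rfl⟩
    rw [AlgebraicIndependent.matroid_closure_eq, SetLike.mem_coe, Subalgebra.mem_algebraicClosure]
    exact isAlgebraic_algebraMap (x : Algebra.adjoin k (Set.range z))
  have h5 : Function.Injective (fun x : s => ((x : Algebra.adjoin k (Set.range z)) : Ω)) :=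
    Subtype.val_injective.comp Subtype.val_injective
  have h6 : (Set.range fun x : s => ((x : Algebra.adjoin k (Set.range z)) : Ω)).encard = ENat.card s := by
    exact ENat.card_congr (Equiv.ofInjective _ h5).symm
  have h7 := (AlgebraicIndependent.matroid k Ω).eRk_mono h4
  rw [Matroid.eRk_closure_eq, h3.eRk_eq_encard, h6] at h7
  refine le_trans ?_ h7
  unfold td
  rw [← h1]
  exact ENat.coe_toNat_le_self _

private theorem P4_low {k : Type} [Field k] {J Ω : Type} [Finite J] [Field Ω] [Algebra k Ω] (q : J → Ω) :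
    (AlgebraicIndependent.matroid k Ω).eRk (Set.range q) ≤ (td k q : ℕ∞) := by
  obtain ⟨t, ht⟩ := (AlgebraicIndependent.matroid k Ω).exists_isBasis (Set.range q)
  rw [← ht.encard_eq_eRk]
  have hsub : t ⊆ Set.range q := ht.subset
  have hfin : t.Finite := (Set.finite_range q).subset hsub
  have hind : AlgebraicIndependent k (fun x : t => (x : Ω)) := ht.indep
  have h1 : AlgebraicIndependent k
      (fun x : t => (⟨(x : Ω), Algebra.subset_adjoin (hsub x.2)⟩ : Algebra.adjoin k (Set.range q))) := by
    apply AlgebraicIndependent.of_comp (Algebra.adjoin k (Set.range q)).val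
    exact hind
  have h2 := h1.cardinalMk_le_trdeg
  have hft : Algebra.FiniteType k (Algebra.adjoin k (Set.range q)) := .adjoin_of_finite (Set.finite_range q)
  have h3 : Algebra.trdeg k (Algebra.adjoin k (Set.range q)) < Cardinal.aleph0 :=
    trdeg_lt_aleph0_of_finiteType
  have h4 := Cardinal.toNat_le_toNat h2 h3
  have h5 : t.encard = ((Cardinal.toNat (Cardinal.mk t) : ℕ) : ℕ∞) := by
    rw [← hfin.cast_ncard_eq]
    rfl
  rw [h5]
  exact_mod_cast h4

/-- few coordinates determine the elements of a subspace of small dimension -/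
private theorem P4_coord {I Ω : Type} [Finite I] [Field Ω] (W : Submodule Ω (I → Ω)) (r : ℕ)
    (hW : Module.finrank Ω W ≤ r) : ∃ (κ : Type) (_ : Fintype κ) (a : κ → I), Fintype.card κ ≤ r ∧
      ∀ w ∈ W, (∀ t, w (a t) = 0) → w = 0 := by
  let f : I → Module.Dual Ω W := fun i => (LinearMap.proj i).comp W.subtype
  obtain ⟨κ, a, ha, hsp, hli⟩ := exists_linearIndependent' Ω f
  have hκ : Finite κ := Finite.of_injective a ha
  let hκ' : Fintype κ := Fintype.ofFinite κ
  refine ⟨κ, hκ', a, ?_, ?_⟩
  · have h1 := hli.fintype_card_le_finrank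
    rw [Subspace.dual_finrank_eq] at h1
    exact h1.trans hW
  · intro w hw h0
    funext i
    have h1 : f i ∈ Submodule.span Ω (Set.range (f ∘ a)) := by
      rw [hsp]
      exact Submodule.subset_span ⟨i, rfl⟩
    have h2 : ∀ g ∈ Submodule.span Ω (Set.range (f ∘ a)), g ⟨w, hw⟩ = 0 := by
      intro g hg
      induction hg using Submodule.span_induction with
      | mem g hg =>
        obtain ⟨t, rfl⟩ := hg
        exact h0 t
      | zero => rfl
      | add g g' _ _ h3 h4 => rw [LinearMap.add_apply, h3, h4, add_zero]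
      | smul c g _ h3 => rw [LinearMap.smul_apply, h3, smul_zero]
    exact h2 _ h1

theorem td_le_of_der {k : Type} [Field k] {I J Ω : Type} [Finite I] [Finite J] [Field Ω]
    [Algebra k Ω] (z : I → Ω) (q : J → Ω) (hq : ∀ j, q j ∈ fld k z) (M : Submodule Ω (I → Ω)) (r : ℕ)
    (hM : Module.finrank Ω M ≤ r)
    (hD : ∀ D : Derivation k (fld k z) Ω, (∀ j, D ⟨q j, hq j⟩ = 0) → (fun i => D (fz k z i)) ∈ M) :
    td k z ≤ td k q + r := by
  let W : Submodule Ω (I → Ω) :=
    { carrier := {w | ∃ D : Derivation k (fld k z) Ω, (∀ j, D ⟨q j, hq j⟩ = 0) ∧ ∀ i, w i = D (fz k z i)}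
      add_mem' := by
        rintro w w' ⟨D, h1, h2⟩ ⟨D', h1', h2'⟩
        refine ⟨D + D', fun j => ?_, fun i => ?_⟩
        · rw [Derivation.add_apply, h1, h1', add_zero]
        · rw [Derivation.add_apply, Pi.add_apply, h2, h2']
      zero_mem' := ⟨0, fun j => rfl, fun i => rfl⟩
      smul_mem' := by
        rintro c w ⟨D, h1, h2⟩
        refine ⟨c • D, fun j => ?_, fun i => ?_⟩
        · rw [Derivation.smul_apply, h1, smul_zero]
        · rw [Derivation.smul_apply, Pi.smul_apply, h2] }
  have hWM : W ≤ M := by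
    rintro w ⟨D, h1, h2⟩
    have h3 := hD D h1
    have h4 : w = fun i => D (fz k z i) := funext h2
    rw [h4]
    exact h3
  have hWr : Module.finrank Ω W ≤ r := (Submodule.finrank_mono hWM).trans hM
  obtain ⟨κ, _, a, hκ, hcoord⟩ := P4_coord W r hWr
  let q' : J ⊕ κ → Ω := Sum.elim q fun t => z (a t)
  have hq' : ∀ x, q' x ∈ fld k z := by
    rintro (j | t)
    · exact hq j
    · exact (fz k z (a t)).2
  have hsep : ∀ i, IsSeparable (fld k q') (z i) := by
    intro i
    refine sep_of_der z q' hq' (fun D h1 => ?_) i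
    have h2 : (fun i => D (fz k z i)) ∈ W := ⟨D, fun j => h1 (Sum.inl j), fun i => rfl⟩
    have h3 := hcoord _ h2 fun t => h1 (Sum.inr t)
    exact fun i => congrFun h3 i
  have hcl : Set.range z ⊆ (AlgebraicIndependent.matroid k Ω).closure (Set.range q') := by
    rintro _ ⟨i, rfl⟩
    exact P4_alg (hsep i).isIntegral.isAlgebraic
  have h1 := (AlgebraicIndependent.matroid k Ω).eRk_mono hcl
  rw [Matroid.eRk_closure_eq, Set.Sum.elim_range] at h1
  have h2 := (AlgebraicIndependent.matroid k Ω).eRk_union_le_eRk_add_encard (Set.range q)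
    (Set.range fun t => z (a t))
  have h3 : (Set.range fun t => z (a t)).encard ≤ (Fintype.card κ : ℕ∞) := by
    rw [← Set.image_univ]
    refine (Set.encard_image_le _ _).trans ?_
    rw [Set.encard_univ, ENat.card_eq_coe_fintype_card]
  have h4 : (td k z : ℕ∞) ≤ (td k q : ℕ∞) + (r : ℕ∞) := by
    calc (td k z : ℕ∞) ≤ (AlgebraicIndependent.matroid k Ω).eRk (Set.range z) := P4_up z
      _ ≤ (AlgebraicIndependent.matroid k Ω).eRk (Set.range q ∪ Set.range fun t => z (a t)) := h1
      _ ≤ (AlgebraicIndependent.matroid k Ω).eRk (Set.range q) + (Set.range fun t => z (a t)).encard := h2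
      _ ≤ (td k q : ℕ∞) + (r : ℕ∞) := by
        refine add_le_add (P4_low q) (h3.trans ?_)
        exact_mod_cast hκ
  exact_mod_cast h4

end Q9
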