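import Pool.Agent.LibQ9.P3
import Pool.Agent.LibQ9.P4
import Pool.Agent.LibQ9.P5

/-!
[Q9 P9] (MEDIUM; may cite P3, P4, P5 as stated) Curves in solution varieties through a smooth point.

`Jac Φ z₀` is the Jacobian matrix at `z₀`.
PLAN. `smooth_curve`: linear algebra: `J₀ = (Jac Φ z₀).mulVec` is surjective from `k^I` to `k^J`, kernel of dimension `card I - card J =: s + 1` (`v ≠ 0` in it; if `E` is empty the statement follows from P3 with `r = 0`; so let
`E` be nonempty, then `v ≠ 0`). Choose `s` linear forms `λ_1..λ_s` on `k^I` with `ker J₀ ∩ ⋂ ker λ_l = k v`. P3 with the equations `Φ` and `λ_l(X) - λ_l(z₀)`, `r = 1`: `Ω`, `z`, `td z ≥ 1`. Let `i ∈ E` and suppose `z i = 0`.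
Every derivation `D : fld k z → Ω` satisfies (P5 `der_rel`) the linear equations with matrix (Jacobian of `Φ`, `λ_l`, `X_i`) at `z`; this matrix of polynomials is injective at `z₀` (kernel of the first parts is
`k v`, `v i ≠ 0`), so injective at `z` (P5 `inj_of_spz`), so `D z = 0` and P4 `td_le_of_der` with `J = Empty` (or `Fin 0`) and `M = ⊥`, `r = 0` gives `td z ≤ td (empty family) = 0` (the transcendence
degree of `k` over `k`). Contradiction. `tangent`: suppose `∂_v Ψ(z₀) ≠ 0` for some `v` in the kernel. Then the Jacobian of `(Φ, Ψ)` at `z₀` is surjective, so also at `z` (P5 `surj_of_spz`), where `z` is from P3 with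
`r = card I - card J`; `Ψ(z) = 0` by hypothesis. By P5 `der_rel` the vectors `D z` are in the kernel `M` of this matrix, of dimension `card I - card J - 1`, and P4 gives `td z ≤ r - 1`, contradiction
(`card J ≤ card I` as `J₀` is surjective).
-/

set_option autoImplicit false

namespace Q9

open MvPolynomial

/-- the Jacobian matrix of a family of polynomials at a point -/
noncomputable def Jac {k : Type} [Field k] {I J : Type} {Ω : Type} [Field Ω] [Algebra k Ω]
    (Φ : J → MvPolynomial I k) (z : I → Ω) : Matrix J I Ω :=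
  Matrix.of fun j i => aeval z (pderiv i (Φ j))

private theorem P9_td_empty {k : Type} [Field k] {Ω : Type} [Field Ω] [Algebra k Ω]
    (q : Fin 0 → Ω) : td k q = 0 := by
  have h := td_le_card (k := k) q
  simpa using h

private theorem P9_card_le {k : Type} [Field k] {I J : Type} [Fintype I] [Fintype J]
    (A : Matrix J I k) (h : Function.Surjective A.mulVec) : Fintype.card J ≤ Fintype.card I := by
  have h1 := LinearMap.finrank_le_finrank_of_surjective (f := A.mulVecLin) h
  simpa [Module.finrank_fintype_fun_eq_card] using h1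

private theorem P9_ker {k : Type} [Field k] {I J : Type} [Fintype I] [Fintype J]
    (A : Matrix J I k) (h : Function.Surjective A.mulVec) :
    Module.finrank k (LinearMap.ker A.mulVecLin) + Fintype.card J = Fintype.card I := by
  have h1 := LinearMap.finrank_range_add_finrank_ker A.mulVecLin
  have h2 : LinearMap.range A.mulVecLin = ⊤ := LinearMap.range_eq_top.2 h
  rw [h2, finrank_top, Module.finrank_fintype_fun_eq_card, Module.finrank_fintype_fun_eq_card] at h1
  omega

theorem smooth_curve {k : Type} [Field k] {I J : Type} [Fintype I] [Fintype J]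
    (Φ : J → MvPolynomial I k) (z₀ : I → k) (h0 : ∀ j, eval z₀ (Φ j) = 0)
    (hJ : Function.Surjective (Jac Φ z₀).mulVec) (E : Finset I) (v : I → k)
    (hv : (Jac Φ z₀).mulVec v = 0) (hvE : ∀ i ∈ E, v i ≠ 0) :
    ∃ (Ω : Type) (_ : Field Ω) (_ : Algebra k Ω) (z : I → Ω), IsAlgClosed Ω ∧
      (∀ j, aeval z (Φ j) = 0) ∧ Spz z z₀ ∧ ∀ i ∈ E, z i ≠ 0 := by
  classical
  have hc := P9_card_le _ hJ
  rcases E.eq_empty_or_nonempty with rfl | ⟨i₀, hi₀⟩
  · obtain ⟨Ω, _, _, z, ha, hz, hs, -, -⟩ := exists_gen Φ z₀ h0 0 (by simpa using hc)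
    exact ⟨Ω, inferInstance, inferInstance, z, ha, hz, hs, by simp⟩
  have hv0 : v ≠ 0 := by
    rintro rfl
    exact hvE i₀ hi₀ rfl
  set A := Jac Φ z₀ with hA
  set K := LinearMap.ker A.mulVecLin with hK
  have hvK : v ∈ K := by
    rw [hK, LinearMap.mem_ker, Matrix.mulVecLin_apply]
    exact hv
  have hdim : Module.finrank k K + Fintype.card J = Fintype.card I := P9_ker A hJ
  set v' : K := ⟨v, hvK⟩ with hv'
  have hv'0 : v' ≠ 0 := by
    intro h
    exact hv0 (congrArg Subtype.val h)
  set S : Submodule k K := Submodule.span k {v'} with hS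
  have hS1 : Module.finrank k S = 1 := finrank_span_singleton hv'0
  have hq := Submodule.finrank_quotient_add_finrank S
  set s := Module.finrank k (K ⧸ S) with hs
  let e : (K ⧸ S) ≃ₗ[k] (Fin s → k) := (Module.finBasis k (K ⧸ S)).equivFun
  obtain ⟨L, hL⟩ := LinearMap.exists_extend (p := K) (e.toLinearMap ∘ₗ S.mkQ)
  have hLK : ∀ x ∈ K, L x = 0 → ∃ c : k, x = c • v := by
    intro x hx hx0
    have h1 : e (S.mkQ ⟨x, hx⟩) = 0 := by
      have h2 := LinearMap.congr_fun hL ⟨x, hx⟩
      simp only [LinearMap.comp_apply, Submodule.subtype_apply, LinearEquiv.coe_coe] at h2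
      rw [← h2]
      exact hx0
    have h3 : S.mkQ ⟨x, hx⟩ = 0 := by simpa using h1
    have h4 : (⟨x, hx⟩ : K) ∈ S := by simpa using h3
    rw [hS, Submodule.mem_span_singleton] at h4
    obtain ⟨c, hc⟩ := h4
    exact ⟨c, (congrArg Subtype.val hc).symm⟩
  let Λ : Fin s → MvPolynomial I k := fun l =>
    ∑ i, C (L (Pi.single i 1) l) * (X i - C (z₀ i))
  have hΛ : ∀ l i, pderiv i (Λ l) = C (L (Pi.single i 1) l) := by
    intro l i
    simp only [Λ, map_sum, Derivation.leibniz, map_sub, pderiv_C, pderiv_X, smul_eq_mul, sub_zero,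
      mul_zero, add_zero]
    rw [Finset.sum_eq_single i]
    · simp
    · intro j _ hj
      simp [hj]
    · simp
  let Φ' : J ⊕ Fin s → MvPolynomial I k := Sum.elim Φ Λ
  have h0' : ∀ j, eval z₀ (Φ' j) = 0 := by
    rintro (j | l)
    · exact h0 j
    · simp [Φ', Λ]
  obtain ⟨Ω, _, _, z, ha, hz, hsp, htd, -⟩ := exists_gen Φ' z₀ h0' 1 (by
    rw [Fintype.card_sum, Fintype.card_fin]
    omega)
  refine ⟨Ω, inferInstance, inferInstance, z, ha, fun j => hz (Sum.inl j), hsp, fun i hi hzi => ?_⟩
  let Φ'' : (J ⊕ Fin s) ⊕ Unit → MvPolynomial I k := Sum.elim Φ' (fun _ => X i)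
  have hz'' : ∀ j, aeval z (Φ'' j) = 0 := by
    rintro (j | u)
    · exact hz j
    · simp [Φ'', hzi]
  let M : Matrix ((J ⊕ Fin s) ⊕ Unit) I (MvPolynomial I k) := Matrix.of fun j i => pderiv i (Φ'' j)
  have hMinj : Function.Injective (M.map (eval z₀)).mulVec := by
    have h1 : Function.Injective (M.map (eval z₀)).mulVecLin := by
      rw [← LinearMap.ker_eq_bot, LinearMap.ker_eq_bot']
      intro x hx
      have hxK : x ∈ K := by
        rw [hK, LinearMap.mem_ker, Matrix.mulVecLin_apply]
        funext j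
        have h2 := congrFun hx (Sum.inl (Sum.inl j))
        simp only [Matrix.mulVecLin_apply, Matrix.mulVec, dotProduct, Matrix.map_apply, M,
          Matrix.of_apply, Φ'', Φ', Sum.elim_inl, Pi.zero_apply] at h2
        simp only [Matrix.mulVec, dotProduct, hA, Jac, Matrix.of_apply, Pi.zero_apply]
        rw [← h2]
        rfl
      have hxL : L x = 0 := by
        funext l
        have h2 := congrFun hx (Sum.inl (Sum.inr l))
        simp only [Matrix.mulVecLin_apply, Matrix.mulVec, dotProduct, Matrix.map_apply, M,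
          Matrix.of_apply, Φ'', Φ', Sum.elim_inl, Sum.elim_inr, Pi.zero_apply, hΛ, eval_C] at h2
        have h3 : x = ∑ i, x i • (Pi.single i (1 : k) : I → k) := by
          funext j
          simp [Finset.sum_apply, Pi.single_apply]
        rw [h3, map_sum, Finset.sum_apply, Pi.zero_apply, ← h2]
        refine Finset.sum_congr rfl fun i _ => ?_
        rw [map_smul, Pi.smul_apply, smul_eq_mul, mul_comm]
      obtain ⟨c, hc⟩ := hLK x hxK hxL
      have h2 := congrFun hx (Sum.inr ())
      simp only [Matrix.mulVecLin_apply, Matrix.mulVec, dotProduct, Matrix.map_apply, M,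
        Matrix.of_apply, Φ'', Sum.elim_inr, Pi.zero_apply] at h2
      rw [Finset.sum_eq_single i] at h2
      · simp only [pderiv_X_self, map_one, one_mul] at h2
        rw [hc, Pi.smul_apply, smul_eq_mul] at h2
        rcases mul_eq_zero.1 h2 with h3 | h3
        · rw [hc, h3, zero_smul]
        · exact absurd h3 (hvE i hi)
      · intro j _ hj
        rw [pderiv_X_of_ne hj.symm]
        simp
      · simp
    exact h1
  have hMz := inj_of_spz z z₀ hsp M hMinj
  have hbot : td k z ≤ td k (Fin.elim0 : Fin 0 → Ω) + 0 := by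
    refine td_le_of_der z (Fin.elim0 : Fin 0 → Ω) (fun j => j.elim0) ⊥ 0 (by simp) ?_
    intro D _
    rw [Submodule.mem_bot]
    apply hMz
    funext j
    rw [Matrix.mulVec_zero]
    have h1 := der_rel z D (Φ'' j) (hz'' j)
    simpa [Matrix.mulVec, dotProduct, M] using h1
  rw [P9_td_empty] at hbot
  omega

theorem tangent {k : Type} [Field k] {I J : Type} [Fintype I] [Fintype J]
    (Φ : J → MvPolynomial I k) (z₀ : I → k) (h0 : ∀ j, eval z₀ (Φ j) = 0)
    (hJ : Function.Surjective (Jac Φ z₀).mulVec) (Ψ : MvPolynomial I k)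
    (hΨ : ∀ (Ω : Type) [Field Ω] [Algebra k Ω] [IsAlgClosed Ω] (z : I → Ω),
      (∀ j, aeval z (Φ j) = 0) → Spz z z₀ → aeval z Ψ = 0)
    (v : I → k) (hv : (Jac Φ z₀).mulVec v = 0) : ∑ i, eval z₀ (pderiv i Ψ) * v i = 0 := by
  classical
  by_contra hne
  have hc := P9_card_le _ hJ
  let Φ' : Option J → MvPolynomial I k := fun o => o.elim Ψ Φ
  let M : Matrix (Option J) I (MvPolynomial I k) := Matrix.of fun j i => pderiv i (Φ' j)
  have hM : Function.Surjective (M.map (eval z₀)).mulVec := by
    intro w
    obtain ⟨x, hx⟩ := hJ (fun j => w (some j))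
    set S := ∑ i, eval z₀ (pderiv i Ψ) * v i with hS
    set T := ∑ i, eval z₀ (pderiv i Ψ) * x i with hT
    refine ⟨x + ((w none - T) / S) • v, ?_⟩
    funext o
    cases o with
    | none =>
      have h1 : ((M.map (eval z₀)).mulVec (x + ((w none - T) / S) • v)) none
          = T + (w none - T) / S * S := by
        simp only [Matrix.mulVec, dotProduct, Matrix.map_apply, M, Matrix.of_apply, Φ',
          Option.elim_none, Pi.add_apply, Pi.smul_apply, smul_eq_mul]
        rw [hT, hS, Finset.mul_sum, ← Finset.sum_add_distrib]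
        exact Finset.sum_congr rfl fun i _ => by ring
      rw [h1, div_mul_cancel₀ _ hne]
      ring
    | some j =>
      have h1 := congrFun hx j
      have h2 := congrFun hv j
      simp only [Matrix.mulVec, dotProduct, Jac, Matrix.of_apply, Pi.zero_apply] at h1 h2
      have h3 : ((M.map (eval z₀)).mulVec (x + ((w none - T) / S) • v)) (some j)
          = (∑ i, aeval z₀ (pderiv i (Φ j)) * x i)
            + (w none - T) / S * ∑ i, aeval z₀ (pderiv i (Φ j)) * v i := by
        simp only [Matrix.mulVec, dotProduct, Matrix.map_apply, M, Matrix.of_apply, Φ',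
          Option.elim_some, Pi.add_apply, Pi.smul_apply, smul_eq_mul]
        rw [Finset.mul_sum, ← Finset.sum_add_distrib]
        refine Finset.sum_congr rfl fun i _ => ?_
        change eval z₀ (pderiv i (Φ j)) * _ = eval z₀ (pderiv i (Φ j)) * _
          + _ * (eval z₀ (pderiv i (Φ j)) * _)
        ring
      rw [h3, h1, h2, mul_zero, add_zero]
  obtain ⟨Ω, _, _, z, ha, hz, hsp, htd, -⟩ := exists_gen Φ z₀ h0
    (Fintype.card I - Fintype.card J) (by omega)
  have hz' : ∀ j, aeval z (Φ' j) = 0 := by
    intro o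
    cases o with
    | none => exact hΨ Ω z hz hsp
    | some j => exact hz j
  have hMz := surj_of_spz z z₀ hsp M hM
  have hker := P9_ker _ hMz
  rw [Fintype.card_option] at hker
  have hle : td k z ≤ td k (Fin.elim0 : Fin 0 → Ω) + (Fintype.card I - (Fintype.card J + 1)) := by
    refine td_le_of_der z (Fin.elim0 : Fin 0 → Ω) (fun j => j.elim0)
      (LinearMap.ker (M.map (aeval z)).mulVecLin) _ (by omega) ?_
    intro D _
    rw [LinearMap.mem_ker, Matrix.mulVecLin_apply]
    funext j
    have h1 := der_rel z D (Φ' j) (hz' j)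
    simpa [Matrix.mulVec, dotProduct, M] using h1
  rw [P9_td_empty] at hle
  omega

end Q9
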