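import Pool.Agent.LibQ9.BDefs
import Pool.Agent.LibQ9.P9

/-!
# LibQ9, block C: combs on `P^1`, definitions

Handle `g` of degree at most `D`, teeth at `b i` of degree `d i`. Unknowns `CI`: `e_i` (`inl i`), the coefficients `ξ_(a,l)`, `l < D + 1 - c0`, of the change of the handle (`inr (inl (a, l))`), the coefficients
`τ_(i,a,j)` of `w^(j+1)` of the teeth (`inr (inr ⟨i, (a, j)⟩)`). Equations `CJ`: coefficients of `X^l`, `l < n D + 1 - c0` (`inl l`) and of `w_i^(j+1)`, `j < n d_i` (`inr ⟨i, j⟩`).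
-/

set_option autoImplicit false

namespace Q9

open Polynomial

/-- the unknowns -/
abbrev CI (n D c0 : ℕ) {m : ℕ} (d : Fin m → ℕ) : Type :=
  Fin m ⊕ ((Fin (n + 1) × Fin (D + 1 - c0)) ⊕ (Σ i : Fin m, Fin (n + 1) × Fin (d i)))

/-- the equations -/
abbrev CJ (n D c0 : ℕ) {m : ℕ} (d : Fin m → ℕ) : Type :=
  Fin (n * D + 1 - c0) ⊕ (Σ i : Fin m, Fin (n * d i))

section

variable {R : Type} [CommRing R] {m : ℕ}

/-- `∏_l (X - b_l)^(e_l)` -/
noncomputable def Wp (b : Fin m → R) (e : Fin m → ℕ) : R[X] := ∏ l, (X - C (b l)) ^ e l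

/-- `∏_l (X - b_l)^(e_l) / (X - b_i)^j` for `j ≤ e_i` -/
noncomputable def Wq (b : Fin m → R) (e : Fin m → ℕ) (i : Fin m) (j : ℕ) : R[X] :=
  (∏ l ∈ Finset.univ.erase i, (X - C (b l)) ^ e l) * (X - C (b i)) ^ (e i - j)

variable {n D c0 : ℕ} {d : Fin m → ℕ}

/-- `g + ξ` -/
noncomputable def hdl (g : Fin (n + 1) → R[X]) (z : CI n D c0 d → R) : Fin (n + 1) → R[X] :=
  fun a => g a + ∑ l : Fin (D + 1 - c0), C (z (Sum.inr (Sum.inl (a, l)))) * X ^ (l : ℕ)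

/-- `∏ (X - b_i)^(d_i)` times `g + ξ + Σ τ_(ij) (e_i / (X - b_i))^j` -/
noncomputable def xh (b : Fin m → R) (g : Fin (n + 1) → R[X]) (z : CI n D c0 d → R) :
    Fin (n + 1) → R[X] :=
  fun a => Wp b d * hdl g z a + ∑ i : Fin m, ∑ j : Fin (d i),
    C (z (Sum.inr (Sum.inr ⟨i, (a, j)⟩)) * z (Sum.inl i) ^ ((j : ℕ) + 1)) * Wq b d i ((j : ℕ) + 1)

/-- the tooth `i`: `(g + ξ)(b_i) + Σ_j τ_(ij) w^j` -/
noncomputable def tth (b : Fin m → R) (g : Fin (n + 1) → R[X]) (z : CI n D c0 d → R) (i : Fin m) :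
    Fin (n + 1) → R[X] :=
  fun a => C ((hdl g z a).eval (b i)) + ∑ j : Fin (d i),
    C (z (Sum.inr (Sum.inr ⟨i, (a, j)⟩))) * X ^ ((j : ℕ) + 1)

/-- the derivative of `xh` in the direction `δ` -/
noncomputable def dxh (b : Fin m → R) (z δ : CI n D c0 d → R) : Fin (n + 1) → R[X] :=
  fun a => Wp b d * (∑ l : Fin (D + 1 - c0), C (δ (Sum.inr (Sum.inl (a, l)))) * X ^ (l : ℕ)) +
    ∑ i : Fin m, ∑ j : Fin (d i),
      C (δ (Sum.inr (Sum.inr ⟨i, (a, j)⟩)) * z (Sum.inl i) ^ ((j : ℕ) + 1) +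
        ((j : ℕ) + 1 : ℕ) * z (Sum.inr (Sum.inr ⟨i, (a, j)⟩)) * z (Sum.inl i) ^ (j : ℕ) *
          δ (Sum.inl i)) * Wq b d i ((j : ℕ) + 1)

/-- `∏ (X - b_i)^(n d_i)` times `Σ y_l X^l + Σ y_(ij) (e_i / (X - b_i))^j` -/
noncomputable def yh (b : Fin m → R) (e : Fin m → R) (y : CJ n D c0 d → R) : R[X] :=
  Wp b (fun l => n * d l) * (∑ l : Fin (n * D + 1 - c0), C (y (Sum.inl l)) * X ^ (l : ℕ)) +
    ∑ i : Fin m, ∑ j : Fin (n * d i),
      C (y (Sum.inr ⟨i, j⟩) * e i ^ ((j : ℕ) + 1)) * Wq b (fun l => n * d l) i ((j : ℕ) + 1)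

end

section

variable {k : Type} [Field k] {n D c0 m : ℕ} {d : Fin m → ℕ}

/-- the point of the system given by the handle `g` and the teeth `τ` -/
noncomputable def zc (τ : Fin m → Fin (n + 1) → k[X]) : CI n D c0 d → k
  | Sum.inl _ => 0
  | Sum.inr (Sum.inl _) => 0
  | Sum.inr (Sum.inr ⟨i, (a, j)⟩) => (τ i a).coeff ((j : ℕ) + 1)

/-- the two identities characterising the equations `Φ` of the comb (valid in every commutative
`k`-algebra) -/
def CEq (F : MvPolynomial (Fin (n + 1)) k) (b : Fin m → k) (g : Fin (n + 1) → k[X])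
    (Φ : CJ n D c0 d → MvPolynomial (CI n D c0 d) k) : Prop :=
  ∀ (R : Type) [CommRing R] [Algebra k R] (z : CI n D c0 d → R),
    MvPolynomial.aeval (xh (fun i => algebraMap k R (b i)) (fun a => (g a).map (algebraMap k R)) z) F =
      yh (fun i => algebraMap k R (b i)) (fun i => z (Sum.inl i))
        (fun j => MvPolynomial.aeval z (Φ j)) ∧
    ((∀ i, z (Sum.inl i) = 0) → ∀ (i : Fin m) (j : Fin (n * d i)),
      MvPolynomial.aeval z (Φ (Sum.inr ⟨i, j⟩)) =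
        (MvPolynomial.aeval (tth (fun i => algebraMap k R (b i))
          (fun a => (g a).map (algebraMap k R)) z i) F).coeff ((j : ℕ) + 1))

end

end Q9
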