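import Pool.Agent.LibQ9.C2Defs

/-!
[Q9 C3] (MEDIUM) The Jacobian of the equations of the comb.

PLAN. Use the identities `CEq` in the ring of dual numbers `R = DualNumber Ω = TrivSqZeroExt Ω Ω` (or `Ω[ε]/(ε²)`, or `Polynomial Ω` modulo `X^2`) at `z + ε δ`: for a polynomial `Ψ` over `k`: `Ψ(z + ε δ) = Ψ(z) + ε Σ_i ∂_iΨ(z) δ_i`. (Alternatively differentiate: apply the derivation `Σ δ_i ∂_i` to the universal identity.)
(a) `zero`: at `zc τ`: `xh = W g`, `F(W g) = W^n F(g) = 0`, so `yh = 0` with `e = 0`: `Wp * Σ Φ_l(z₀) X^l = 0`, `Wp ≠ 0`, so `Φ (inl l) (z₀) = 0`; `tth i = τ i` (`hτ0`, degree `≤ d i`), so `Φ (inr ..) (z₀) = 0`.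
(b) `jac_inl`: the `ε`-part of the first identity at `zc τ + ε δ`: `∇F(W g)·dxh = W^(n-1) ∇F(g)·(W δξ + Σ_i δe_i τ_(i1) W/(X - b_i))` (in `dxh` only `j = 0` survives as `z (inl i) = 0`; if `d i = 0` .. `d i ≥ 1` by `Free`), `= W^n (∇F(g)·δξ + Σ δe_i h_i)` (as `(X - b_i) h_i = ∇F(g)·τ_(i1)`); the right side is `W^n Σ_l dΦ_l X^l` plus the `ε`-part of
`Φ_(ij)(..) e_i^(j+1)`, which is `Φ_(i0)(z₀) δe_i = 0` for `j = 0` and `0` for `j ≥ 1`. Cancel `W^n` (`Wp b (n d) = (Wp b d)^n`).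
(c) `jac_inr`: second identity at `zc τ + ε δ` with `δ (inl i) = 0`: the `ε`-part of `F(tth)` is `∇F(τ_i)·(X lin(δ_i))` (`δξ = 0`), coefficient `j + 1`. (d) `jac_gen`: `ε`-part of the first identity at `z + ε δ` when all `Φ(z) = 0`.
-/

set_option autoImplicit false

namespace Q9

open Polynomial

section aux

private theorem C3_taylor {k I S : Type} [Field k] [Fintype I] [CommRing S] [Algebra k S] (ε : S)
    (hε : ε * ε = 0) (u v : I → S) (Ψ : MvPolynomial I k) :
    MvPolynomial.aeval (fun i => u i + ε * v i) Ψ =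
      MvPolynomial.aeval u Ψ + ε * ∑ i, MvPolynomial.aeval u (MvPolynomial.pderiv i Ψ) * v i := by
  classical
  induction Ψ using MvPolynomial.induction_on with
  | C a => simp
  | add p q hp hq =>
    simp only [map_add, hp, hq, add_mul, Finset.sum_add_distrib]
    ring
  | mul_X p i hp =>
    have h1 : ∑ j, MvPolynomial.aeval u (MvPolynomial.pderiv j (p * MvPolynomial.X i)) * v j =
        (∑ j, MvPolynomial.aeval u (MvPolynomial.pderiv j p) * v j) * u i +
          MvPolynomial.aeval u p * v i := by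
      have h2 : ∀ j, MvPolynomial.aeval u (MvPolynomial.pderiv j (p * MvPolynomial.X i)) * v j =
          MvPolynomial.aeval u (MvPolynomial.pderiv j p) * v j * u i +
            (if j = i then MvPolynomial.aeval u p * v j else 0) := by
        intro j
        rw [MvPolynomial.pderiv_mul, MvPolynomial.pderiv_X, map_add, map_mul, map_mul,
          MvPolynomial.aeval_X]
        by_cases h : j = i
        · subst h
          simp
          ring
        · rw [Pi.single_apply, if_neg (fun h' => h h'.symm), if_neg h]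
          simp
          ring
      rw [Finset.sum_congr rfl fun j _ => h2 j, Finset.sum_add_distrib, Finset.sum_mul]
      simp
    rw [map_mul, map_mul, hp, h1, MvPolynomial.aeval_X, MvPolynomial.aeval_X]
    linear_combination (∑ j, MvPolynomial.aeval u (MvPolynomial.pderiv j p) * v j) * v i * hε

private theorem C3_hom {k I A B : Type} [Field k] [CommRing A] [CommRing B] [Algebra k A]
    [Algebra k B] (f : A →+* B) (hf : ∀ c : k, f (algebraMap k A c) = algebraMap k B c) (u : I → A)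
    (Ψ : MvPolynomial I k) :
    MvPolynomial.aeval (fun i => f (u i)) Ψ = f (MvPolynomial.aeval u Ψ) := by
  induction Ψ using MvPolynomial.induction_on with
  | C a => simp [hf]
  | add p q hp hq => simp only [map_add, hp, hq]
  | mul_X p i hp => simp only [map_mul, hp, MvPolynomial.aeval_X]

private theorem C3_pow {S : Type} [CommRing S] (ε : S) (hε : ε * ε = 0) (a b : S) (j : ℕ) :
    (a + ε * b) ^ (j + 1) = a ^ (j + 1) + ε * (((j : ℕ) + 1 : ℕ) * a ^ j * b) := by
  induction j with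
  | zero => simp
  | succ j ih =>
    rw [pow_succ, ih]
    push_cast
    linear_combination ((j : S) + 1) * a ^ j * b * b * hε

private theorem C3_Wp {Ω R : Type} [CommRing Ω] [CommRing R] (ι : Ω →+* R) {m : ℕ}
    (b : Fin m → Ω) (e : Fin m → ℕ) : Wp (fun i => ι (b i)) e = (Wp b e).map ι := by
  simp [Wp, Polynomial.map_prod]

private theorem C3_Wq {Ω R : Type} [CommRing Ω] [CommRing R] (ι : Ω →+* R) {m : ℕ}
    (b : Fin m → Ω) (e : Fin m → ℕ) (i : Fin m) (j : ℕ) :
    Wq (fun i => ι (b i)) e i j = (Wq b e i j).map ι := by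
  simp [Wq, Polynomial.map_prod]

variable {Ω R : Type} [CommRing Ω] [CommRing R] (ι : Ω →+* R) (ε : R) (hε : ε * ε = 0)
  {n D c0 m : ℕ} {d : Fin m → ℕ}

include hε in
private theorem C3_xh (b : Fin m → Ω) (g : Fin (n + 1) → Polynomial Ω) (z δ : CI n D c0 d → Ω)
    (a : Fin (n + 1)) :
    xh (fun i => ι (b i)) (fun a => (g a).map ι) (fun x => ι (z x) + ε * ι (δ x)) a =
      (xh b g z a).map ι + C ε * (dxh b z δ a).map ι := by
  have h1 : ∀ (i : Fin m) (j : Fin (d i)),
      C ((ι (z (Sum.inr (Sum.inr ⟨i, (a, j)⟩))) + ε * ι (δ (Sum.inr (Sum.inr ⟨i, (a, j)⟩)))) *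
        (ι (z (Sum.inl i)) + ε * ι (δ (Sum.inl i))) ^ ((j : ℕ) + 1)) *
          Wq (fun i => ι (b i)) d i ((j : ℕ) + 1) =
      (C (z (Sum.inr (Sum.inr ⟨i, (a, j)⟩)) * z (Sum.inl i) ^ ((j : ℕ) + 1)) *
          Wq b d i ((j : ℕ) + 1)).map ι +
        C ε * (C (δ (Sum.inr (Sum.inr ⟨i, (a, j)⟩)) * z (Sum.inl i) ^ ((j : ℕ) + 1) +
        ((j : ℕ) + 1 : ℕ) * z (Sum.inr (Sum.inr ⟨i, (a, j)⟩)) * z (Sum.inl i) ^ (j : ℕ) *
          δ (Sum.inl i)) * Wq b d i ((j : ℕ) + 1)).map ι := by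
    intro i j
    rw [C3_Wq, Polynomial.map_mul, Polynomial.map_mul, Polynomial.map_C, Polynomial.map_C,
      ← mul_assoc, ← C_mul, ← add_mul, ← C_add]
    congr 2
    rw [C3_pow ε hε]
    simp only [map_mul, map_pow, map_add, map_natCast]
    linear_combination (ι (δ (Sum.inr (Sum.inr ⟨i, (a, j)⟩))) * (((j : ℕ) + 1 : ℕ) : R) *
      ι (z (Sum.inl i)) ^ (j : ℕ) * ι (δ (Sum.inl i))) * hε
  have h2 : ∀ l : Fin (D + 1 - c0),
      C (ι (z (Sum.inr (Sum.inl (a, l)))) + ε * ι (δ (Sum.inr (Sum.inl (a, l))))) * X ^ (l : ℕ) =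
      (C (z (Sum.inr (Sum.inl (a, l)))) * X ^ (l : ℕ)).map ι +
        C ε * (C (δ (Sum.inr (Sum.inl (a, l)))) * X ^ (l : ℕ)).map ι := by
    intro l
    simp only [Polynomial.map_mul, Polynomial.map_C, Polynomial.map_pow, Polynomial.map_X, C_add,
      C_mul]
    ring
  unfold xh dxh hdl
  simp only [h1, h2, Finset.sum_add_distrib, Polynomial.map_add, Polynomial.map_mul,
    Polynomial.map_sum, ← Finset.mul_sum, C3_Wp]
  ring

include hε in
private theorem C3_yh (b e f : Fin m → Ω) (y : CJ n D c0 d → Ω) :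
    yh (fun i => ι (b i)) (fun i => ι (e i) + ε * ι (f i)) (fun j => ε * ι (y j)) =
      C ε * (yh b e y).map ι := by
  have h1 : ∀ (i : Fin m) (j : Fin (n * d i)),
      C ((ε * ι (y (Sum.inr ⟨i, j⟩))) * (ι (e i) + ε * ι (f i)) ^ ((j : ℕ) + 1)) *
          Wq (fun i => ι (b i)) (fun l => n * d l) i ((j : ℕ) + 1) =
      C ε * (C (y (Sum.inr ⟨i, j⟩) * e i ^ ((j : ℕ) + 1)) *
        Wq b (fun l => n * d l) i ((j : ℕ) + 1)).map ι := by
    intro i j
    rw [C3_Wq, Polynomial.map_mul, Polynomial.map_C, ← mul_assoc, ← C_mul]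
    congr 2
    rw [C3_pow ε hε]
    simp only [map_mul, map_pow]
    linear_combination (ι (y (Sum.inr ⟨i, j⟩)) * (((j : ℕ) + 1 : ℕ) : R) *
      ι (e i) ^ (j : ℕ) * ι (f i)) * hε
  have h2 : ∀ l : Fin (n * D + 1 - c0),
      C (ε * ι (y (Sum.inl l))) * X ^ (l : ℕ) =
      C ε * (C (y (Sum.inl l)) * X ^ (l : ℕ)).map ι := by
    intro l
    simp only [Polynomial.map_mul, Polynomial.map_C, Polynomial.map_pow, Polynomial.map_X, C_mul]
    ring
  unfold yh
  simp only [h1, h2, Polynomial.map_add, Polynomial.map_mul,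
    Polynomial.map_sum, ← Finset.mul_sum, C3_Wp]
  ring

end aux

section dual

variable {Ω R : Type} [CommRing Ω] [CommRing R] (ι : Ω →+* R) (ε : R)
  (hinj : ∀ x y x' y' : Ω, ι x + ε * ι y = ι x' + ε * ι y' → x = x' ∧ y = y')

include hinj in
private theorem C3_inj (p q p' q' : Polynomial Ω)
    (h : p.map ι + C ε * q.map ι = p'.map ι + C ε * q'.map ι) : p = p' ∧ q = q' := by
  have h1 : ∀ l, p.coeff l = p'.coeff l ∧ q.coeff l = q'.coeff l := by
    intro l
    have h2 := congrArg (fun r => Polynomial.coeff r l) h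
    simp only [coeff_add, coeff_map, coeff_C_mul] at h2
    exact hinj _ _ _ _ h2
  exact ⟨Polynomial.ext fun l => (h1 l).1, Polynomial.ext fun l => (h1 l).2⟩

private theorem C3_dinj {Ω : Type} [Field Ω] (x y x' y' : Ω)
    (h : TrivSqZeroExt.inlHom Ω Ω x + (DualNumber.eps : DualNumber Ω) * TrivSqZeroExt.inlHom Ω Ω y =
      TrivSqZeroExt.inlHom Ω Ω x' +
        (DualNumber.eps : DualNumber Ω) * TrivSqZeroExt.inlHom Ω Ω y') : x = x' ∧ y = y' := by
  have h3 := congrArg TrivSqZeroExt.fst h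
  have h4 := congrArg TrivSqZeroExt.snd h
  simp at h3 h4
  exact ⟨h3, h4⟩

end dual

section

variable {k : Type} [Field k] {n D c0 m : ℕ} {d : Fin m → ℕ} (F : MvPolynomial (Fin (n + 1)) k)
  (hF : F.IsHomogeneous n) (b : Fin m → k) (g : Fin (n + 1) → k[X]) (hg : On F D g)
  (τ : Fin m → Fin (n + 1) → k[X]) (hτ : ∀ i, Free F (d i) (τ i))
  (hτ0 : ∀ i a, (τ i a).coeff 0 = (g a).eval (b i))
  (Φ : CJ n D c0 d → MvPolynomial (CI n D c0 d) k) (hΦ : CEq F b g Φ)

private theorem C3_scale {S : Type} [CommRing S] [Algebra k S] {I : Type} (Ψ : MvPolynomial I k)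
    {r : ℕ} (hΨ : Ψ.IsHomogeneous r) (W : S) (u : I → S) :
    MvPolynomial.aeval (fun i => W * u i) Ψ = W ^ r * MvPolynomial.aeval u Ψ := by
  rw [MvPolynomial.aeval_def, MvPolynomial.aeval_def, MvPolynomial.eval₂_eq, MvPolynomial.eval₂_eq,
    Finset.mul_sum]
  refine Finset.sum_congr rfl fun s hs => ?_
  have h1 : ∏ i ∈ s.support, (W * u i) ^ s i = W ^ r * ∏ i ∈ s.support, u i ^ s i := by
    have h2 : ∑ i ∈ s.support, s i = r := by
      have h3 := hΨ (MvPolynomial.mem_support_iff.1 hs)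
      rw [← h3]
      simp [Finsupp.weight_apply, Finsupp.sum]
    rw [← h2, ← Finset.prod_pow_eq_pow_sum, ← Finset.prod_mul_distrib]
    exact Finset.prod_congr rfl fun i _ => mul_pow _ _ _
  rw [h1]
  ring

private theorem C3_eps : (DualNumber.eps : DualNumber k) * DualNumber.eps = 0 :=
  DualNumber.eps_mul_eps

private theorem C3_mon {l : ℕ} (y : Fin l → k)
    (h : ∑ i : Fin l, C (y i) * X ^ (i : ℕ) = (0 : k[X])) (i : Fin l) : y i = 0 := by
  classical
  have h1 := congrArg (fun r => Polynomial.coeff r (i : ℕ)) h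
  simp only [finsetSum_coeff, coeff_C_mul, coeff_X_pow, coeff_zero] at h1
  rw [Finset.sum_eq_single i] at h1
  · simpa using h1
  · intro j _ hj
    rw [if_neg, mul_zero]
    exact fun h2 => hj (Fin.ext h2.symm)
  · intro h2
    exact absurd (Finset.mem_univ i) h2

include hg hΦ hF hτ hτ0 in
private theorem C3_zero_aux (j : CJ n D c0 d) :
    MvPolynomial.aeval (zc τ : CI n D c0 d → k) (Φ j) = 0 := by
  obtain ⟨h1, h2⟩ := hΦ k (zc τ)
  simp only [Algebra.algebraMap_self, RingHom.id_apply, Polynomial.map_id] at h1 h2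
  have hz1 : ∀ i : Fin m, (zc τ : CI n D c0 d → k) (Sum.inl i) = 0 := fun i => rfl
  have hz2 : ∀ x, (zc τ : CI n D c0 d → k) (Sum.inr (Sum.inl x)) = 0 := fun x => rfl
  have hh : ∀ a, hdl g (zc τ : CI n D c0 d → k) a = g a := by
    intro a
    simp [hdl, hz2]
  rcases j with l | ⟨i, j⟩
  · have hx : xh b g (zc τ : CI n D c0 d → k) = fun a => Wp b d * g a := by
      funext a
      simp [xh, hh, hz1]
    have hW : Wp b (fun l => n * d l) ≠ 0 := by
      unfold Wp
      exact Finset.prod_ne_zero_iff.2 fun i _ => pow_ne_zero _ (X_sub_C_ne_zero _)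
    rw [hx, C3_scale F hF, hg.2, mul_zero] at h1
    have h3 : yh b (fun i => (zc τ : CI n D c0 d → k) (Sum.inl i))
        (fun j => MvPolynomial.aeval (zc τ : CI n D c0 d → k) (Φ j)) =
        Wp b (fun l => n * d l) * ∑ l : Fin (n * D + 1 - c0),
          C (MvPolynomial.aeval (zc τ : CI n D c0 d → k) (Φ (Sum.inl l))) * X ^ (l : ℕ) := by
      simp [yh, hz1]
    rw [h3] at h1
    exact C3_mon _ ((mul_eq_zero.1 h1.symm).resolve_left hW) l
  · have h3 := h2 (fun i => rfl) i j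
    have ht : tth b g (zc τ : CI n D c0 d → k) i = τ i := by
      funext a
      have hd : (τ i a).natDegree < d i + 1 := Nat.lt_succ_of_le ((hτ i).2.1.1 a)
      have h4 := (τ i a).as_sum_range_C_mul_X_pow' hd
      rw [Finset.sum_range_succ'] at h4
      rw [h4]
      have h5 : ∑ j : Fin (d i), C ((zc τ : CI n D c0 d → k) (Sum.inr (Sum.inr ⟨i, (a, j)⟩))) *
          X ^ ((j : ℕ) + 1) = ∑ j ∈ Finset.range (d i), C ((τ i a).coeff (j + 1)) * X ^ (j + 1) := by
        rw [Finset.sum_range]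
        rfl
      unfold tth
      rw [h5, hh, hτ0]
      simp [add_comm]
    rw [ht, (hτ i).2.1.2, coeff_zero] at h3
    exact h3

include hF hg hτ hτ0 hΦ in
theorem ceq_zero (j : CJ n D c0 d) : MvPolynomial.eval (zc τ) (Φ j) = 0 := by
  have h1 := C3_zero_aux F hF b g hg τ hτ hτ0 Φ hΦ j
  rwa [MvPolynomial.aeval_eq_eval] at h1

section core

variable {Ω R : Type} [Field Ω] [Algebra k Ω] [CommRing R] [Algebra k R] (ι : Ω →+* R)
  (hι : ∀ c, ι (algebraMap k Ω c) = algebraMap k R c) (ε : R) (hε : ε * ε = 0)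
  (hinj : ∀ x y x' y' : Ω, ι x + ε * ι y = ι x' + ε * ι y' → x = x' ∧ y = y')

include hι hε in
private theorem C3_phi (z δ : CI n D c0 d → Ω)
    (hz : ∀ j, MvPolynomial.aeval z (Φ j) = 0) (j : CJ n D c0 d) :
    MvPolynomial.aeval (fun x => ι (z x) + ε * ι (δ x)) (Φ j) =
      ε * ι ((Jac Φ z).mulVec δ j) := by
  have hm : ∀ Ψ : MvPolynomial (CI n D c0 d) k,
      MvPolynomial.aeval (fun x => ι (z x)) Ψ = ι (MvPolynomial.aeval z Ψ) := C3_hom _ hι z
  rw [C3_taylor _ hε, hm, hz, map_zero, zero_add]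
  simp only [hm, Jac, Matrix.mulVec, dotProduct, Matrix.of_apply, map_sum, map_mul]

include hι hε in
private theorem C3_F (Ψ : MvPolynomial (Fin (n + 1)) k) (u v : Fin (n + 1) → Polynomial Ω) :
    MvPolynomial.aeval (fun a => (u a).map ι + C ε * (v a).map ι) Ψ =
      (MvPolynomial.aeval u Ψ).map ι + C ε * (grad Ψ u v).map ι := by
  have hhom : ∀ c : k, Polynomial.mapRingHom ι
      (algebraMap k (Polynomial Ω) c) = algebraMap k (Polynomial R) c := by
    intro c
    rw [Polynomial.algebraMap_apply, Polynomial.algebraMap_apply, coe_mapRingHom,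
      Polynomial.map_C, hι]
  have hm : ∀ Ψ : MvPolynomial (Fin (n + 1)) k,
      MvPolynomial.aeval (fun x => (u x).map ι) Ψ = (MvPolynomial.aeval u Ψ).map ι :=
    fun Ψ => C3_hom (Polynomial.mapRingHom ι) hhom u Ψ
  have hC : C ε * C ε = 0 := by
    rw [← C_mul, hε, C_0]
  rw [C3_taylor _ hC, hm]
  simp only [hm, grad, Polynomial.map_sum, Polynomial.map_mul]

include hΦ hι hε hinj in
private theorem C3_gen (z : CI n D c0 d → Ω)
    (hz : ∀ j, MvPolynomial.aeval z (Φ j) = 0) (δ : CI n D c0 d → Ω) :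
    grad F (xh (fun i => algebraMap k Ω (b i)) (fun a => (g a).map (algebraMap k Ω)) z)
        (dxh (fun i => algebraMap k Ω (b i)) z δ) =
      yh (fun i => algebraMap k Ω (b i)) (fun i => z (Sum.inl i)) ((Jac Φ z).mulVec δ) := by
  have h1 := (hΦ R (fun x => ι (z x) + ε * ι (δ x))).1
  have hb : (fun i => algebraMap k R (b i)) =
      fun i => ι (algebraMap k Ω (b i)) := funext fun i => (hι _).symm
  have hgm : (fun a => (g a).map (algebraMap k R)) =
      fun a => ((g a).map (algebraMap k Ω)).map ι := by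
    funext a
    rw [Polynomial.map_map]
    congr 1
    exact RingHom.ext fun c => (hι c).symm
  have hx : xh (fun i => ι (algebraMap k Ω (b i)))
      (fun a => ((g a).map (algebraMap k Ω)).map ι) (fun x => ι (z x) + ε * ι (δ x)) =
      fun a => (xh (fun i => algebraMap k Ω (b i)) (fun a => (g a).map (algebraMap k Ω)) z a).map ι
        + C ε * (dxh (fun i => algebraMap k Ω (b i)) z δ a).map ι := by
    funext a
    exact C3_xh ι ε hε _ _ z δ a
  have hy : (fun j => MvPolynomial.aeval (fun x => ι (z x) + ε * ι (δ x)) (Φ j)) =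
      fun j => ε * ι ((Jac Φ z).mulVec δ j) := funext fun j => C3_phi Φ ι hι ε hε z δ hz j
  rw [hb, hgm, hy, hx, C3_F ι hι ε hε,
    C3_yh ι ε hε (fun i => algebraMap k Ω (b i)) (fun i => z (Sum.inl i))
      (fun i => δ (Sum.inl i)) ((Jac Φ z).mulVec δ)] at h1
  refine (C3_inj ι ε hinj (MvPolynomial.aeval (xh (fun i => algebraMap k Ω (b i))
      (fun a => (g a).map (algebraMap k Ω)) z) F) _ 0 _ ?_).2
  rw [Polynomial.map_zero, zero_add]
  exact h1

end core

include hF hg hτ hτ0 hΦ in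
private theorem C3_inr {R : Type} [CommRing R] [Algebra k R] (ι : k →+* R)
    (hι : ∀ c, ι c = algebraMap k R c) (ε : R) (hε : ε * ε = 0)
    (hinj : ∀ x y x' y' : k, ι x + ε * ι y = ι x' + ε * ι y' → x = x' ∧ y = y')
    (δ : CI n D c0 d → k) (h1 : ∀ i, δ (Sum.inl i) = 0)
    (h2 : ∀ x, δ (Sum.inr (Sum.inl x)) = 0) (i : Fin m) (j : Fin (n * d i)) :
    (Jac Φ (zc τ : CI n D c0 d → k)).mulVec δ (Sum.inr ⟨i, j⟩) =
      (grad F (τ i) (fun a => ∑ l : Fin (d i), C (δ (Sum.inr (Sum.inr ⟨i, (a, l)⟩))) *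
        X ^ (l : ℕ))).coeff j := by
  have h3 := (hΦ R (fun x => ι ((zc τ : CI n D c0 d → k) x) + ε * ι (δ x))).2
    (fun i => by rw [h1]; simp [zc]) i j
  have hb : (fun i => algebraMap k R (b i)) = fun i => ι (b i) := funext fun i => (hι _).symm
  have hgm : (fun a => (g a).map (algebraMap k R)) = fun a => (g a).map ι := by
    funext a
    congr 1
    exact RingHom.ext fun c => (hι c).symm
  have ht : tth (fun i => ι (b i)) (fun a => (g a).map ι)
      (fun x => ι ((zc τ : CI n D c0 d → k) x) + ε * ι (δ x)) i =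
      fun a => (τ i a).map ι + C ε * ((fun a => X * ∑ l : Fin (d i),
        C (δ (Sum.inr (Sum.inr ⟨i, (a, l)⟩))) * X ^ (l : ℕ)) a : k[X]).map ι := by
    funext a
    have hd : (τ i a).natDegree < d i + 1 := Nat.lt_succ_of_le ((hτ i).2.1.1 a)
    have h4 := (τ i a).as_sum_range_C_mul_X_pow' hd
    rw [Finset.sum_range_succ', Finset.sum_range] at h4
    have h5 : ∀ l : Fin (d i), C (ι ((zc τ : CI n D c0 d → k) (Sum.inr (Sum.inr ⟨i, (a, l)⟩))) +
        ε * ι (δ (Sum.inr (Sum.inr ⟨i, (a, l)⟩)))) * X ^ ((l : ℕ) + 1) =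
        (C ((τ i a).coeff ((l : ℕ) + 1)) * X ^ ((l : ℕ) + 1)).map ι +
        C ε * (X * (C (δ (Sum.inr (Sum.inr ⟨i, (a, l)⟩))) * X ^ (l : ℕ))).map ι := by
      intro l
      simp only [zc, Polynomial.map_mul, Polynomial.map_C, Polynomial.map_pow, Polynomial.map_X,
        C_add, C_mul]
      ring
    have h6 : hdl (fun a => (g a).map ι)
        (fun x => ι ((zc τ : CI n D c0 d → k) x) + ε * ι (δ x)) a = (g a).map ι := by
      unfold hdl
      simp [h2, zc]
    unfold tth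
    rw [h6]
    simp only [h5]
    rw [Finset.sum_add_distrib, ← Finset.mul_sum, ← Polynomial.map_sum, ← Polynomial.map_sum,
      ← Finset.mul_sum, ← add_assoc]
    congr 1
    conv_rhs => rw [h4]
    rw [Polynomial.map_add, add_comm, hτ0]
    simp [Polynomial.eval_map, Polynomial.eval₂_at_apply]
  rw [hb, hgm, ht, C3_F ι hι ε hε,
    C3_phi Φ ι hι ε hε _ δ (C3_zero_aux F hF b g hg τ hτ hτ0 Φ hΦ)] at h3
  have h7 : grad F (τ i) (fun a => X * ∑ l : Fin (d i),
        C (δ (Sum.inr (Sum.inr ⟨i, (a, l)⟩))) * X ^ (l : ℕ)) =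
      X * grad F (τ i) (fun a => ∑ l : Fin (d i), C (δ (Sum.inr (Sum.inr ⟨i, (a, l)⟩))) *
        X ^ (l : ℕ)) := by
    unfold grad
    rw [Finset.mul_sum]
    exact Finset.sum_congr rfl fun a _ => by ring
  rw [h7, (hτ i).2.1.2, Polynomial.map_zero, zero_add, coeff_C_mul, coeff_map,
    coeff_X_mul] at h3
  refine (hinj 0 _ 0 _ ?_).2
  rw [map_zero, zero_add, zero_add]
  exact h3

include hΦ in
theorem jac_gen {Ω : Type} [Field Ω] [Algebra k Ω] (z : CI n D c0 d → Ω)
    (hz : ∀ j, MvPolynomial.aeval z (Φ j) = 0) (δ : CI n D c0 d → Ω) :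
    grad F (xh (fun i => algebraMap k Ω (b i)) (fun a => (g a).map (algebraMap k Ω)) z)
        (dxh (fun i => algebraMap k Ω (b i)) z δ) =
      yh (fun i => algebraMap k Ω (b i)) (fun i => z (Sum.inl i)) ((Jac Φ z).mulVec δ) :=
  C3_gen (R := DualNumber Ω) F b g Φ hΦ (TrivSqZeroExt.inlHom Ω Ω)
    (fun c => (TrivSqZeroExt.algebraMap_eq_inl' k Ω Ω c).symm) DualNumber.eps
    DualNumber.eps_mul_eps C3_dinj z hz δ

private theorem C3_lin {S : Type} [CommRing S] [Algebra k S] (x : Fin (n + 1) → S) (W : S)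
    (u : Fin (n + 1) → S) (c : Fin m → S) (t : Fin m → Fin (n + 1) → S) :
    grad F x (fun a => W * u a + ∑ i, c i * t i a) =
      W * grad F x u + ∑ i, c i * grad F x (t i) := by
  unfold grad
  simp only [mul_add, Finset.sum_add_distrib, Finset.mul_sum]
  congr 1
  · exact Finset.sum_congr rfl fun a _ => by ring
  · rw [Finset.sum_comm]
    exact Finset.sum_congr rfl fun i _ => Finset.sum_congr rfl fun a _ => by ring

include hF hg hτ hτ0 hΦ in
theorem jac_inl (h : Fin m → k[X])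
    (hh : ∀ i, (X - C (b i)) * h i = grad F g (fun a => C ((τ i a).coeff 1)))
    (δ : CI n D c0 d → k) :
    ∑ l : Fin (n * D + 1 - c0), C ((Jac Φ (zc τ : CI n D c0 d → k)).mulVec δ (Sum.inl l)) *
        X ^ (l : ℕ) =
      grad F g (fun a => ∑ l : Fin (D + 1 - c0), C (δ (Sum.inr (Sum.inl (a, l)))) * X ^ (l : ℕ)) +
        ∑ i, C (δ (Sum.inl i)) * h i := by
  have h1 := jac_gen F b g Φ hΦ (zc τ : CI n D c0 d → k)
    (C3_zero_aux F hF b g hg τ hτ hτ0 Φ hΦ) δ
  simp only [Algebra.algebraMap_self, RingHom.id_apply, Polynomial.map_id] at h1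
  have hz1 : ∀ i : Fin m, (zc τ : CI n D c0 d → k) (Sum.inl i) = 0 := fun i => rfl
  have hz2 : ∀ x, (zc τ : CI n D c0 d → k) (Sum.inr (Sum.inl x)) = 0 := fun x => rfl
  have hx : xh b g (zc τ : CI n D c0 d → k) = fun a => Wp b d * g a := by
    funext a
    simp [xh, hdl, hz1, hz2]
  have hdx : dxh b (zc τ : CI n D c0 d → k) δ = fun a => Wp b d * (∑ l : Fin (D + 1 - c0),
      C (δ (Sum.inr (Sum.inl (a, l)))) * X ^ (l : ℕ)) + ∑ i : Fin m,
        C (δ (Sum.inl i)) * Wq b d i 1 * C ((τ i a).coeff 1) := by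
    funext a
    unfold dxh
    congr 1
    refine Finset.sum_congr rfl fun i _ => ?_
    have h0 : 0 < d i := (hτ i).1
    rw [Finset.sum_eq_single (⟨0, h0⟩ : Fin (d i))]
    · simp only [zc]
      simp only [zero_add, pow_one, mul_zero, pow_zero, mul_one, Nat.cast_one, one_mul, C_mul]
      ring
    · intro j _ hj
      have hj' : (j : ℕ) ≠ 0 := fun h => hj (Fin.ext h)
      rw [hz1, zero_pow hj', zero_pow (Nat.succ_ne_zero _)]
      simp
    · intro h2
      exact absurd (Finset.mem_univ _) h2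
  have hy : yh b (fun i => (zc τ : CI n D c0 d → k) (Sum.inl i))
      ((Jac Φ (zc τ : CI n D c0 d → k)).mulVec δ) =
      Wp b (fun l => n * d l) * ∑ l : Fin (n * D + 1 - c0),
        C ((Jac Φ (zc τ : CI n D c0 d → k)).mulVec δ (Sum.inl l)) * X ^ (l : ℕ) := by
    simp [yh, hz1]
  rw [hx, hdx, hy] at h1
  have hW : Wp b (fun l => n * d l) = Wp b d ^ n := by
    unfold Wp
    rw [← Finset.prod_pow]
    refine Finset.prod_congr rfl fun i _ => ?_
    rw [← pow_mul, mul_comm]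
  have hW0 : Wp b d ≠ 0 := by
    unfold Wp
    exact Finset.prod_ne_zero_iff.2 fun i _ => pow_ne_zero _ (X_sub_C_ne_zero _)
  have hWq : ∀ i, Wq b d i 1 * (X - C (b i)) = Wp b d := by
    intro i
    unfold Wq Wp
    rw [← Finset.mul_prod_erase Finset.univ _ (Finset.mem_univ i), mul_assoc, ← pow_succ,
      Nat.sub_add_cancel (hτ i).1, mul_comm]
  have hsc : ∀ a, Wp b d * MvPolynomial.aeval (fun a => Wp b d * g a) (MvPolynomial.pderiv a F) =
      Wp b d ^ n * MvPolynomial.aeval g (MvPolynomial.pderiv a F) := by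
    intro a
    rw [C3_scale _ hF.pderiv]
    rcases Nat.eq_zero_or_pos n with hn | hn
    · have h2 : MvPolynomial.pderiv a F = 0 := by
        have h3 : F.totalDegree = 0 := Nat.le_zero.1 (by
          have := hF.totalDegree_le
          omega)
        rw [(MvPolynomial.totalDegree_eq_zero_iff_eq_C).1 h3, MvPolynomial.pderiv_C]
      rw [h2, map_zero, mul_zero, mul_zero, mul_zero]
    · rw [← mul_assoc, ← pow_succ', Nat.sub_add_cancel hn]
  have hgr : Wp b d * grad F (fun a => Wp b d * g a) (fun a => Wp b d * (∑ l : Fin (D + 1 - c0),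
      C (δ (Sum.inr (Sum.inl (a, l)))) * X ^ (l : ℕ)) + ∑ i : Fin m,
        C (δ (Sum.inl i)) * Wq b d i 1 * C ((τ i a).coeff 1)) = Wp b d ^ n * (Wp b d *
      (grad F g (fun a => ∑ l : Fin (D + 1 - c0), C (δ (Sum.inr (Sum.inl (a, l)))) * X ^ (l : ℕ)) +
        ∑ i, C (δ (Sum.inl i)) * h i)) := by
    have h5 : ∀ w : Fin (n + 1) → k[X], Wp b d * grad F (fun a => Wp b d * g a) w =
        Wp b d ^ n * grad F g w := by
      intro w
      unfold grad
      rw [Finset.mul_sum, Finset.mul_sum]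
      refine Finset.sum_congr rfl fun a _ => ?_
      rw [← mul_assoc, hsc, mul_assoc]
    rw [h5]
    congr 1
    have h6 : ∀ i, C (δ (Sum.inl i)) * Wq b d i 1 * grad F g (fun a => C ((τ i a).coeff 1)) =
        Wp b d * (C (δ (Sum.inl i)) * h i) := by
      intro i
      rw [← hh, ← hWq i]
      ring
    rw [mul_add, Finset.mul_sum, ← Finset.sum_congr rfl fun i _ => h6 i]
    exact C3_lin F g (Wp b d) (fun a => ∑ l : Fin (D + 1 - c0),
      C (δ (Sum.inr (Sum.inl (a, l)))) * X ^ (l : ℕ)) (fun i => C (δ (Sum.inl i)) * Wq b d i 1)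
      (fun i a => C ((τ i a).coeff 1))
  rw [h1, hW] at hgr
  have h7 : Wp b d ^ n * (Wp b d * ∑ l : Fin (n * D + 1 - c0),
        C ((Jac Φ (zc τ : CI n D c0 d → k)).mulVec δ (Sum.inl l)) * X ^ (l : ℕ)) =
      Wp b d ^ n * (Wp b d *
      (grad F g (fun a => ∑ l : Fin (D + 1 - c0), C (δ (Sum.inr (Sum.inl (a, l)))) * X ^ (l : ℕ)) +
        ∑ i, C (δ (Sum.inl i)) * h i)) := by
    rw [← hgr, mul_left_comm]
  exact mul_left_cancel₀ hW0 (mul_left_cancel₀ (pow_ne_zero n hW0) h7)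

include hF hg hτ hτ0 hΦ in
theorem jac_inr (δ : CI n D c0 d → k) (h1 : ∀ i, δ (Sum.inl i) = 0)
    (h2 : ∀ x, δ (Sum.inr (Sum.inl x)) = 0) (i : Fin m) (j : Fin (n * d i)) :
    (Jac Φ (zc τ : CI n D c0 d → k)).mulVec δ (Sum.inr ⟨i, j⟩) =
      (grad F (τ i) (fun a => ∑ l : Fin (d i), C (δ (Sum.inr (Sum.inr ⟨i, (a, l)⟩))) *
        X ^ (l : ℕ))).coeff j :=
  C3_inr (R := DualNumber k) F hF b g hg τ hτ hτ0 Φ hΦ (TrivSqZeroExt.inlHom k k)
    (fun c => (TrivSqZeroExt.algebraMap_eq_inl' k k k c).symm) DualNumber.eps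
    DualNumber.eps_mul_eps C3_dinj δ h1 h2 i j

end

end Q9
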