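import Pool.Agent.LibQ9.C2Defs

/-!
[Q9 C4] (MEDIUM) Partial fractions and degrees.

PLAN. `yh_surj`: for `e_i ≠ 0`, every `f` of degree `< n D + 1 - c + n Σ d_i` is of the form `Wp b (n d) * u + Σ y_(ij) e_i^(j+1) Wq b (n d) i (j+1)` with `deg u < n D + 1 - c` (partial fractions: divide by the monic polynomial `Wp b (n d)` of degree `n Σ d_i`: quotient `u`, remainder of degree `< n Σ d_i`; the polynomials `Wq b e i j`, `1 ≤ j ≤ e_i`, are `Σ e_i` linearly
independent polynomials of degree `< Σ e_i` (`b` injective), so a basis; divide the coefficient by `e_i^(j+1)`). Here `c ∈ {1, 2}`; the last claim bounds the index `l` of the nonzero `y (inl l)` by `l < n D + 1 - c` for `c0 ≤ c`. `xh_degree`, `dxh_degree`: `Wp b d` is monic of degree `Σ d_i`, `Wq b d i (j+1)` has degree `Σ d_i - (j+1)`. `xh_lead`: coefficient of `X^(D + Σ d)`.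
-/

set_option autoImplicit false

namespace Q9

open Polynomial

section

variable {Ω : Type} [Field Ω] {n D c0 m : ℕ} {d : Fin m → ℕ}

private theorem C4_mem {N : ℕ} {p : Polynomial Ω} : p ∈ degreeLT Ω N ↔ p.degree < (N : ℕ) := mem_degreeLT

private theorem C4_Wp_monic (b : Fin m → Ω) (e : Fin m → ℕ) : (Wp b e).Monic :=
  monic_prod_of_monic _ _ fun _ _ => (monic_X_sub_C _).pow _

private theorem C4_Wp_nat (b : Fin m → Ω) (e : Fin m → ℕ) : (Wp b e).natDegree = ∑ i, e i := by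
  unfold Wp
  rw [natDegree_prod_of_monic _ _ fun _ _ => (monic_X_sub_C _).pow _]
  refine Finset.sum_congr rfl fun i _ => ?_
  rw [(monic_X_sub_C (b i)).natDegree_pow, natDegree_X_sub_C, mul_one]

private theorem C4_Wp_degree (b : Fin m → Ω) (e : Fin m → ℕ) : (Wp b e).degree = ((∑ i, e i : ℕ) : WithBot ℕ) := by
  rw [degree_eq_natDegree (C4_Wp_monic b e).ne_zero, C4_Wp_nat]

private theorem C4_Wq_nat (b : Fin m → Ω) (e : Fin m → ℕ) (i : Fin m) (j : ℕ) :
    (Wq b e i j).natDegree = (∑ l ∈ Finset.univ.erase i, e l) + (e i - j) := by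
  unfold Wq
  rw [Monic.natDegree_mul (monic_prod_of_monic _ _ fun _ _ => (monic_X_sub_C _).pow _)
    ((monic_X_sub_C _).pow _), natDegree_prod_of_monic _ _ fun _ _ => (monic_X_sub_C _).pow _,
    (monic_X_sub_C (b i)).natDegree_pow, natDegree_X_sub_C, mul_one]
  congr 1
  refine Finset.sum_congr rfl fun l _ => ?_
  rw [(monic_X_sub_C (b l)).natDegree_pow, natDegree_X_sub_C, mul_one]

private theorem C4_Wq_lt (b : Fin m → Ω) (e : Fin m → ℕ) (i : Fin m) (j : Fin (e i)) :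
    (Wq b e i ((j : ℕ) + 1)).natDegree < ∑ l, e l := by
  rw [C4_Wq_nat, ← Finset.add_sum_erase Finset.univ e (Finset.mem_univ i)]
  have := j.2
  omega

private theorem C4_term (b : Fin m → Ω) (e : Fin m → ℕ) (i : Fin m) (j : Fin (e i)) (x : Ω) {N : ℕ}
    (hN : ∑ l, e l ≤ N) : C x * Wq b e i ((j : ℕ) + 1) ∈ degreeLT Ω N := by
  rw [C4_mem]
  refine lt_of_le_of_lt degree_le_natDegree ?_
  have h1 : (C x * Wq b e i ((j : ℕ) + 1)).natDegree ≤ (Wq b e i ((j : ℕ) + 1)).natDegree :=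
    natDegree_C_mul_le _ _
  have h2 := C4_Wq_lt b e i j
  exact_mod_cast (by omega : (C x * Wq b e i ((j : ℕ) + 1)).natDegree < N)

private theorem C4_sum (b : Fin m → Ω) (e : Fin m → ℕ) (x : (i : Fin m) → Fin (e i) → Ω) {N : ℕ}
    (hN : ∑ l, e l ≤ N) :
    ∑ i : Fin m, ∑ j : Fin (e i), C (x i j) * Wq b e i ((j : ℕ) + 1) ∈ degreeLT Ω N :=
  Submodule.sum_mem _ fun i _ => Submodule.sum_mem _ fun j _ => C4_term b e i j (x i j) hN

private theorem C4_pf (b : Fin m → Ω) (hb : Function.Injective b) (e : Fin m → ℕ) (f : Polynomial Ω) :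
    ∃ (q : Polynomial Ω) (x : (i : Fin m) → Fin (e i) → Ω),
      f = q * Wp b e + ∑ i : Fin m, ∑ j : Fin (e i), C (x i j) * Wq b e i ((j : ℕ) + 1) := by
  obtain ⟨q, r, hr, hf⟩ := eq_quo_mul_prod_pow_add_sum_rem_mul_prod_pow (s := Finset.univ) f
    (g := fun i : Fin m => X - C (b i)) (fun i _ => monic_X_sub_C (b i))
    (fun i _ j _ hij => pairwise_coprime_X_sub_C hb hij) e
  refine ⟨q, fun i j => (r i (Fin.rev j)).coeff 0, ?_⟩
  have hW : Wp b e = ∏ i, (X - C (b i)) ^ e i := rfl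
  rw [hf, hW]
  refine congrArg (fun t => q * ∏ i, (X - C (b i)) ^ e i + t) ?_
  refine Finset.sum_congr rfl fun i _ => ?_
  rw [← Equiv.sum_comp Fin.revPerm]
  refine Finset.sum_congr rfl fun j _ => ?_
  have h1 : r i (Fin.rev j) = C ((r i (Fin.rev j)).coeff 0) := by
    apply eq_C_of_degree_le_zero
    have h2 := hr i (Finset.mem_univ i) (Fin.rev j)
    rw [degree_X_sub_C] at h2
    by_cases h0 : r i (Fin.rev j) = 0
    · rw [h0, degree_zero]
      exact bot_le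
    · rw [degree_eq_natDegree h0] at h2 ⊢
      have h4 : (r i (Fin.rev j)).natDegree < 1 := by exact_mod_cast h2
      have h5 : (r i (Fin.rev j)).natDegree = 0 := by omega
      rw [h5]
      exact le_rfl
  rw [Fin.revPerm_apply, Fin.val_rev]
  unfold Wq
  conv_lhs => rw [h1]
  ring

theorem yh_surj (hn : 2 ≤ n) (hD : 1 ≤ D) (hc0 : c0 = 1 ∨ c0 = 2) (c : ℕ) (hc : c0 ≤ c) (hc2 : c ≤ 2)
    (b : Fin m → Ω) (hb : Function.Injective b) (e : Fin m → Ω) (he : ∀ i, e i ≠ 0) (f : Polynomial Ω)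
    (hf : f.degree < (n * (D + ∑ i, d i) + 1 - c : ℕ)) :
    ∃ y : CJ n D c0 d → Ω, f = yh b e y ∧
      ∀ l : Fin (n * D + 1 - c0), n * D + 1 - c ≤ (l : ℕ) → y (Sum.inl l) = 0 := by
  obtain ⟨q, x, hqx⟩ := C4_pf b hb (fun l => n * d l) f
  have hnD : 2 ≤ n * D := by nlinarith
  have hS : ∑ i, n * d i = n * ∑ i, d i := by rw [Finset.mul_sum]
  have hr := C4_sum b (fun l => n * d l) x le_rfl
  rw [C4_mem] at hr
  -- the degree of the quotient
  have hq : q.degree < ((n * D + 1 - c : ℕ) : WithBot ℕ) := by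
    by_contra hcon
    rw [not_lt] at hcon
    have h1 : (q * Wp b (fun l => n * d l)).degree = q.degree + ((∑ i, n * d i : ℕ) : WithBot ℕ) := by
      rw [degree_mul, C4_Wp_degree]
    have h2 : q * Wp b (fun l => n * d l) = f -
        ∑ i : Fin m, ∑ j : Fin (n * d i), C (x i j) * Wq b (fun l => n * d l) i ((j : ℕ) + 1) := by
      rw [hqx]
      ring
    have h3 : ((n * D + 1 - c : ℕ) : WithBot ℕ) + ((∑ i, n * d i : ℕ) : WithBot ℕ) ≤
        (q * Wp b (fun l => n * d l)).degree := by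
      rw [h1]
      gcongr
    have h4 : (n * D + 1 - c) + ∑ i, n * d i = n * (D + ∑ i, d i) + 1 - c := by
      rw [hS, mul_add]
      omega
    rw [← WithBot.coe_natCast, ← WithBot.coe_natCast, ← WithBot.coe_add] at h3
    have h5 : f.degree < ((n * D + 1 - c + ∑ i, n * d i : ℕ) : WithBot ℕ) := by
      rw [h4]
      exact hf
    have h6 : (∑ i : Fin m, ∑ j : Fin (n * d i),
        C (x i j) * Wq b (fun l => n * d l) i ((j : ℕ) + 1)).degree <
        ((n * D + 1 - c + ∑ i, n * d i : ℕ) : WithBot ℕ) := by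
      refine lt_of_lt_of_le hr ?_
      exact_mod_cast Nat.le_add_left _ _
    have h7 := lt_of_le_of_lt (degree_sub_le f _) (max_lt h5 h6)
    rw [← h2] at h7
    exact absurd h7 (not_lt.2 (by exact_mod_cast h3))
  have hqc : ∀ l, n * D + 1 - c ≤ l → q.coeff l = 0 := by
    intro l hl
    apply coeff_eq_zero_of_degree_lt
    refine lt_of_lt_of_le hq ?_
    exact_mod_cast hl
  have hqs : q = ∑ l : Fin (n * D + 1 - c0), C (q.coeff l) * X ^ (l : ℕ) := by
    ext l
    rw [finsetSum_coeff]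
    by_cases hl : l < n * D + 1 - c0
    · rw [Finset.sum_eq_single ⟨l, hl⟩]
      · rw [coeff_C_mul, coeff_X_pow, if_pos rfl, mul_one]
      · intro l' _ hne
        rw [coeff_C_mul, coeff_X_pow, if_neg, mul_zero]
        intro h
        exact hne (Fin.ext h.symm)
      · intro h
        exact absurd (Finset.mem_univ _) h
    · rw [hqc l (by omega)]
      symm
      apply Finset.sum_eq_zero
      intro l' _
      rw [coeff_C_mul, coeff_X_pow, if_neg, mul_zero]
      have := l'.2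
      omega
  have hxs : ∑ i : Fin m, ∑ j : Fin (n * d i), C (x i j) * Wq b (fun l => n * d l) i ((j : ℕ) + 1) =
      ∑ i : Fin m, ∑ j : Fin (n * d i), C (x i j / e i ^ ((j : ℕ) + 1) * e i ^ ((j : ℕ) + 1)) *
        Wq b (fun l => n * d l) i ((j : ℕ) + 1) := by
    refine Finset.sum_congr rfl fun i _ => Finset.sum_congr rfl fun j _ => ?_
    rw [div_mul_cancel₀ _ (pow_ne_zero _ (he i))]
  refine ⟨Sum.elim (fun l => q.coeff l) (fun s => x s.1 s.2 / e s.1 ^ ((s.2 : ℕ) + 1)), ?_, ?_⟩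
  · calc f = q * Wp b (fun l => n * d l) +
        ∑ i : Fin m, ∑ j : Fin (n * d i), C (x i j) * Wq b (fun l => n * d l) i ((j : ℕ) + 1) := hqx
      _ = Wp b (fun l => n * d l) * (∑ l : Fin (n * D + 1 - c0), C (q.coeff l) * X ^ (l : ℕ)) +
        ∑ i : Fin m, ∑ j : Fin (n * d i), C (x i j / e i ^ ((j : ℕ) + 1) * e i ^ ((j : ℕ) + 1)) *
          Wq b (fun l => n * d l) i ((j : ℕ) + 1) := by
        rw [← hxs, ← hqs, mul_comm]
      _ = _ := rfl
  · intro l hl
    exact hqc l hl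

private theorem C4_lin {N : ℕ} (x : Fin N → Ω) : ∑ l : Fin N, C (x l) * X ^ (l : ℕ) ∈ degreeLT Ω N := by
  refine Submodule.sum_mem _ fun l _ => ?_
  rw [C4_mem]
  refine lt_of_le_of_lt (degree_C_mul_X_pow_le _ _) ?_
  exact_mod_cast l.2

private theorem C4_hdl (hc0 : c0 = 1 ∨ c0 = 2) (g : Fin (n + 1) → Polynomial Ω)
    (hg : ∀ a, (g a).natDegree ≤ D) (z : CI n D c0 d → Ω) (a : Fin (n + 1)) :
    (hdl g z a).natDegree ≤ D ∧ (hdl g z a).coeff D = (g a).coeff D := by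
  have h1 := C4_lin (Ω := Ω) (fun l : Fin (D + 1 - c0) => z (Sum.inr (Sum.inl (a, l))))
  rw [C4_mem] at h1
  unfold hdl
  constructor
  · apply natDegree_add_le_of_degree_le (hg a)
    rw [natDegree_le_iff_degree_le]
    refine le_trans h1.le ?_
    have h2 : D + 1 - c0 ≤ D := by omega
    exact_mod_cast h2
  · rw [coeff_add]
    have h3 : (∑ l : Fin (D + 1 - c0), C (z (Sum.inr (Sum.inl (a, l)))) * X ^ (l : ℕ)).coeff D = 0 := by
      apply coeff_eq_zero_of_degree_lt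
      refine lt_of_lt_of_le h1 ?_
      have h2 : D + 1 - c0 ≤ D := by omega
      exact_mod_cast h2
    rw [h3, add_zero]

theorem xh_degree (hc0 : c0 = 1 ∨ c0 = 2) (b : Fin m → Ω) (g : Fin (n + 1) → Polynomial Ω)
    (hg : ∀ a, (g a).natDegree ≤ D) (z : CI n D c0 d → Ω) (a : Fin (n + 1)) :
    (xh b g z a).natDegree ≤ D + ∑ i, d i := by
  unfold xh
  apply natDegree_add_le_of_degree_le
  · refine le_trans natDegree_mul_le ?_
    rw [C4_Wp_nat]
    have := (C4_hdl hc0 g hg z a).1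
    omega
  · have h1 := C4_sum b d (fun i j => z (Sum.inr (Sum.inr ⟨i, (a, j)⟩)) * z (Sum.inl i) ^ ((j : ℕ) + 1))
      (N := D + ∑ i, d i) (Nat.le_add_left _ _)
    rw [C4_mem] at h1
    rw [natDegree_le_iff_degree_le]
    exact h1.le

theorem xh_lead (hD : 1 ≤ D) (hc0 : c0 = 1 ∨ c0 = 2) (b : Fin m → Ω) (g : Fin (n + 1) → Polynomial Ω)
    (hg : ∀ a, (g a).natDegree ≤ D) (z : CI n D c0 d → Ω) (a : Fin (n + 1)) :
    (xh b g z a).coeff (D + ∑ i, d i) = (g a).coeff D := by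
  unfold xh
  have h1 := C4_sum b d (fun i j => z (Sum.inr (Sum.inr ⟨i, (a, j)⟩)) * z (Sum.inl i) ^ ((j : ℕ) + 1))
    (N := D + ∑ i, d i) (Nat.le_add_left _ _)
  rw [C4_mem] at h1
  rw [coeff_add, coeff_eq_zero_of_degree_lt h1, add_zero, add_comm D,
    coeff_mul_add_eq_of_natDegree_le (C4_Wp_nat b d).le (C4_hdl hc0 g hg z a).1, (C4_hdl hc0 g hg z a).2]
  have h2 : (Wp b d).coeff (∑ i, d i) = 1 := by
    have h3 := (C4_Wp_monic b d).coeff_natDegree
    rwa [C4_Wp_nat] at h3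
  rw [h2, one_mul]

theorem dxh_degree (hD : 1 ≤ D) (hc0 : c0 = 1 ∨ c0 = 2) (c : ℕ) (hc : c0 ≤ c) (hc2 : c ≤ 2)
    (b : Fin m → Ω) (z δ : CI n D c0 d → Ω)
    (hδ : ∀ a (l : Fin (D + 1 - c0)), D + 1 - c ≤ (l : ℕ) → δ (Sum.inr (Sum.inl (a, l))) = 0)
    (a : Fin (n + 1)) : (dxh b z δ a).degree < (D + ∑ i, d i + 1 - c : ℕ) := by
  rw [← C4_mem]
  unfold dxh
  refine Submodule.add_mem _ ?_ ?_
  · rw [C4_mem]
    have h1 : ∑ l : Fin (D + 1 - c0), C (δ (Sum.inr (Sum.inl (a, l)))) * X ^ (l : ℕ) ∈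
        degreeLT Ω (D + 1 - c) := by
      refine Submodule.sum_mem _ fun l _ => ?_
      by_cases hl : D + 1 - c ≤ (l : ℕ)
      · rw [hδ a l hl, C_0, zero_mul]
        exact Submodule.zero_mem _
      · rw [C4_mem]
        refine lt_of_le_of_lt (degree_C_mul_X_pow_le _ _) ?_
        exact_mod_cast (not_le.1 hl)
    rw [C4_mem] at h1
    rw [degree_mul, C4_Wp_degree]
    have h2 : D + ∑ i, d i + 1 - c = (∑ i, d i) + (D + 1 - c) := by omega
    rw [h2]
    have h3 := WithBot.add_lt_add_left (x := ((∑ i, d i : ℕ) : WithBot ℕ)) (WithBot.natCast_ne_bot _) h1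
    exact_mod_cast h3
  · exact C4_sum b d (fun i j => δ (Sum.inr (Sum.inr ⟨i, (a, j)⟩)) * z (Sum.inl i) ^ ((j : ℕ) + 1) +
        ((j : ℕ) + 1 : ℕ) * z (Sum.inr (Sum.inr ⟨i, (a, j)⟩)) * z (Sum.inl i) ^ (j : ℕ) *
          δ (Sum.inl i)) (by omega)

end

end Q9
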