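import Pool.Agent.LibQ9.C3
import Pool.Agent.LibQ9.C4

/-!
[Q9 C5] (MEDIUM; may cite C3, C4 as stated) From the surjectivity of the Jacobian at a solution `z` with all `e_i ≠ 0` to the freeness and corank of the curve `xh`.

PLAN. `γ = xh b g z` (with `b`, `g` mapped to `Ω`), `D' = D + Σ d_i`. `On F D' γ`: C4 `xh_degree`, and the first identity of `CEq` with `Φ(z) = 0`. `Free` (the case `c = 1` if `c0 = 1`, obtained from `hsurj`): given `f` of degree `< n D'`, C4 `yh_surj` with `c = c0`; if `c0 = 1`: `f = yh y`, `y = Jac Φ z δ` (`hsurj`), `a = dxh z δ` has degree `< D'` (C4 `dxh_degree`) and `grad F γ a = yh (Jac Φ z δ) = f` (C3 `jac_gen`).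
If `c0 = 2` this shows that everything of degree `< n D' - 1` is hit by degree `< D' - 1`, i.e. `Cor F D' γ 0`, hence `Free` (B2 `Free.of_cor_zero` or multiply by `X`). `Cor r`: `f` of degree `< n D' - 1`: C4 `yh_surj` with `c = 2`: `f = yh y` with `y (inl l) = 0` for `l ≥ n D - 1`. `hcor`: `δ` with `δ (inr (inl (a, l))) = 0` for `l ≥ D - 1` and `ν` with
`(Jac Φ z δ) j + Σ_s ν_s θ_s(j) = y j` for all `j` except possibly `j = inl l` with `l ≥ n D - 1` (only `l = n D - 1`, `c0 = 1`). By C4 `dxh_degree` (`c = 2`) `grad F γ (dxh z δ)` has degree `< n D' - 1`, it equals `yh (Jac Φ z δ)`, whose coefficient at `n D' - 1` is `(Jac Φ z δ)(inl (nD-1))`, so this is `0`. Hence `f = grad F γ (dxh z δ) + Σ ν_s (Wp b (n d) * θ_s)`.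
-/

set_option autoImplicit false

namespace Q9

open Polynomial

private theorem C5_aeval_sum {k : Type} [Field k] {m : ℕ} {G : MvPolynomial (Fin m) k} {S : Type}
    [CommRing S] [Algebra k S] (x : Fin m → S) : MvPolynomial.aeval x G =
      ∑ s ∈ G.support, algebraMap k S (G.coeff s) * ∏ i, x i ^ s i := by
  rw [MvPolynomial.aeval_def, MvPolynomial.eval₂_eq']

private theorem C5_hom_sum {k : Type} [Field k] {m N : ℕ} {G : MvPolynomial (Fin m) k}
    (hG : G.IsHomogeneous N) {s : Fin m →₀ ℕ} (hs : s ∈ G.support) : ∑ i, s i = N := by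
  have h := hG (MvPolynomial.mem_support_iff.1 hs)
  have h2 := DFunLike.congr_fun (Finsupp.degree_eq_weight_one (R := ℕ) (σ := Fin m)) s
  rw [Finsupp.degree_eq_sum] at h2
  exact h2.trans h

private theorem C5_natDegree_aeval {k : Type} [Field k] {Ω : Type} [Field Ω] [Algebra k Ω]
    {m N d : ℕ} {G : MvPolynomial (Fin m) k} (hG : G.IsHomogeneous N) {x : Fin m → (Polynomial Ω)}
    (hx : ∀ i, (x i).natDegree ≤ d) : (MvPolynomial.aeval x G).natDegree ≤ N * d := by
  rw [C5_aeval_sum]
  refine natDegree_sum_le_of_forall_le _ _ fun s hs => ?_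
  have e1 : algebraMap k (Polynomial Ω) (G.coeff s) = C (algebraMap k Ω (G.coeff s)) := rfl
  rw [e1]
  refine (natDegree_C_mul_le _ _).trans ?_
  refine (natDegree_prod_le _ _).trans ?_
  calc ∑ i, (x i ^ s i).natDegree ≤ ∑ i, s i * d :=
        Finset.sum_le_sum fun i _ => natDegree_pow_le.trans (Nat.mul_le_mul_left _ (hx i))
    _ = N * d := by rw [← Finset.sum_mul, C5_hom_sum hG hs]

private theorem C5_deg_mul {Ω : Type} [Field Ω] {p q : (Polynomial Ω)} {A M : ℕ} (hp : p.natDegree ≤ A)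
    (hq : q.degree < (M : ℕ)) : (p * q).degree < (A + M : ℕ) := by
  by_cases h0 : q = 0
  · subst h0
    rw [mul_zero, degree_zero]
    exact WithBot.bot_lt_coe _
  · rw [degree_eq_natDegree h0] at hq
    have hq' : q.natDegree < M := by exact_mod_cast hq
    refine lt_of_le_of_lt (degree_le_natDegree) ?_
    have h1 := natDegree_mul_le (p := p) (q := q)
    have h2 : (p * q).natDegree < A + M := by omega
    exact_mod_cast h2

private theorem C5_deg_grad {k : Type} [Field k] {Ω : Type} [Field Ω] [Algebra k Ω] {n D M : ℕ}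
    {F : MvPolynomial (Fin (n + 1)) k} (hF : F.IsHomogeneous n) {γ a : Fin (n + 1) → (Polynomial Ω)}
    (hγ : ∀ i, (γ i).natDegree ≤ D) (ha : ∀ i, (a i).degree < (M : ℕ)) :
    (grad F γ a).degree < ((n - 1) * D + M : ℕ) := by
  unfold grad
  rw [← mem_degreeLT]
  refine Submodule.sum_mem _ fun i _ => ?_
  rw [mem_degreeLT]
  exact C5_deg_mul (C5_natDegree_aeval hF.pderiv hγ) (ha i)

private theorem C5_coeff_sum {Ω : Type} [Field Ω] {N : ℕ} (u : Fin N → Ω) (m : ℕ) :
    (∑ l : Fin N, C (u l) * X ^ (l : ℕ)).coeff m = if h : m < N then u ⟨m, h⟩ else 0 := by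
  rw [finsetSum_coeff]
  simp only [coeff_C_mul, coeff_X_pow]
  split_ifs with h
  · rw [Finset.sum_eq_single ⟨m, h⟩]
    · simp
    · intro l _ hl
      rw [if_neg, mul_zero]
      rintro rfl
      exact hl rfl
    · intro h'
      exact absurd (Finset.mem_univ _) h'
  · refine Finset.sum_eq_zero fun l _ => ?_
    rw [if_neg, mul_zero]
    rintro rfl
    exact h l.2

private theorem C5_Wp_monic {Ω : Type} [Field Ω] {m : ℕ} (b : Fin m → Ω) (e : Fin m → ℕ) :
    (Wp b e).Monic := by
  unfold Wp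
  exact monic_prod_of_monic _ _ fun i _ => (monic_X_sub_C _).pow _

private theorem C5_Wp_deg {Ω : Type} [Field Ω] {m : ℕ} (b : Fin m → Ω) (e : Fin m → ℕ) :
    (Wp b e).natDegree = ∑ l, e l := by
  unfold Wp
  rw [natDegree_prod_of_monic _ _ fun i _ => (monic_X_sub_C _).pow _]
  refine Finset.sum_congr rfl fun i _ => ?_
  rw [(monic_X_sub_C (b i)).natDegree_pow, natDegree_X_sub_C, mul_one]

private theorem C5_grad_add {k : Type} [Field k] {m : ℕ} {G : MvPolynomial (Fin m) k} {S : Type}
    [CommRing S] [Algebra k S] (x a b : Fin m → S) :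
    grad G x (fun i => a i + b i) = grad G x a + grad G x b := by
  unfold grad
  simp only [mul_add, Finset.sum_add_distrib]

private theorem C5_grad_mul {k : Type} [Field k] {m : ℕ} {G : MvPolynomial (Fin m) k} {S : Type}
    [CommRing S] [Algebra k S] (x a : Fin m → S) (c : S) :
    grad G x (fun i => c * a i) = c * grad G x a := by
  unfold grad
  rw [Finset.mul_sum]
  exact Finset.sum_congr rfl fun i _ => by ring

/-- everything of degree less than `n D - 1` is hit by degree less than `D - 1`: the curve is free -/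
private theorem C5_free {k : Type} [Field k] {Ω : Type} [Field Ω] [Algebra k Ω] {n D : ℕ}
    (hn : 2 ≤ n) (hD : 1 ≤ D) {F : MvPolynomial (Fin (n + 1)) k} {γ : Fin (n + 1) → (Polynomial Ω)}
    (h : ∀ f : (Polynomial Ω), f.degree < (n * D - 1 : ℕ) →
      ∃ a : Fin (n + 1) → (Polynomial Ω), (∀ i, (a i).degree < (D - 1 : ℕ)) ∧ grad F γ a = f)
    (f : (Polynomial Ω)) (hf : f.degree < (n * D : ℕ)) :
    ∃ a : Fin (n + 1) → (Polynomial Ω), (∀ i, (a i).degree < (D : ℕ)) ∧ grad F γ a = f := by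
  have hnD : 2 ≤ n * D := by nlinarith
  obtain ⟨a1, ha1, h1⟩ := h f.divX (by
    rw [degree_lt_iff_coeff_zero] at hf ⊢
    intro m hm
    rw [coeff_divX]
    exact hf _ (by omega))
  obtain ⟨a2, ha2, h2⟩ := h (C (f.coeff 0)) (by
    refine lt_of_le_of_lt degree_C_le ?_
    have : 0 < n * D - 1 := by omega
    exact_mod_cast this)
  refine ⟨fun i => X * a1 i + a2 i, fun i => ?_, ?_⟩
  · have h3 : (X * a1 i).degree < ((1 + (D - 1) : ℕ) : WithBot ℕ) :=
      C5_deg_mul natDegree_X_le (ha1 i)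
    have h4 : 1 + (D - 1) = D := by omega
    rw [h4] at h3
    refine lt_of_le_of_lt (degree_add_le _ _) (max_lt h3 ((ha2 i).trans_le ?_))
    exact_mod_cast Nat.sub_le D 1
  · rw [C5_grad_add, C5_grad_mul, h1, h2, mul_comm, divX_mul_X_add]

theorem comb_at {k : Type} [Field k] {n D c0 m : ℕ} {d : Fin m → ℕ} (hn : 2 ≤ n)
    (F : MvPolynomial (Fin (n + 1)) k) (hF : F.IsHomogeneous n) (hD : 1 ≤ D)
    (hc0 : c0 = 1 ∨ c0 = 2) (b : Fin m → k) (hb : Function.Injective b) (g : Fin (n + 1) → k[X])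
    (hg : On F D g) (Φ : CJ n D c0 d → MvPolynomial (CI n D c0 d) k) (hΦ : CEq F b g Φ)
    (r : ℕ) (θ : Fin r → k[X]) (hθ : ∀ j, (θ j).degree < (n * D - 1 : ℕ))
    {Ω : Type} [Field Ω] [Algebra k Ω] (z : CI n D c0 d → Ω)
    (hz : ∀ j, MvPolynomial.aeval z (Φ j) = 0) (he : ∀ i, z (Sum.inl i) ≠ 0)
    (hsurj : Function.Surjective (Jac Φ z).mulVec)
    (hcor : ∀ y : CJ n D c0 d → Ω, ∃ (δ : CI n D c0 d → Ω) (ν : Fin r → Ω),
      (∀ a (l : Fin (D + 1 - c0)), D - 1 ≤ (l : ℕ) → δ (Sum.inr (Sum.inl (a, l))) = 0) ∧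
      (∀ l : Fin (n * D + 1 - c0), (l : ℕ) < n * D - 1 →
        y (Sum.inl l) = (Jac Φ z).mulVec δ (Sum.inl l) +
          ∑ s, ν s * algebraMap k Ω ((θ s).coeff l)) ∧
      ∀ x, y (Sum.inr x) = (Jac Φ z).mulVec δ (Sum.inr x)) :
    Free F (D + ∑ i, d i)
        (xh (fun i => algebraMap k Ω (b i)) (fun a => (g a).map (algebraMap k Ω)) z) ∧
      Cor F (D + ∑ i, d i)
        (xh (fun i => algebraMap k Ω (b i)) (fun a => (g a).map (algebraMap k Ω)) z) r := by
  set b' : Fin m → Ω := fun i => algebraMap k Ω (b i) with hb'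
  set g' : Fin (n + 1) → (Polynomial Ω) := fun a => (g a).map (algebraMap k Ω) with hg'
  set D' := D + ∑ i, d i with hD'
  have hD1 : 1 ≤ D' := by omega
  have hbi : Function.Injective b' := fun i j h => hb ((algebraMap k Ω).injective h)
  have hgd : ∀ a, (g' a).natDegree ≤ D := fun a => natDegree_map_le.trans (hg.1 a)
  have hγd : ∀ a, (xh b' g' z a).natDegree ≤ D' := xh_degree hc0 b' g' hgd z
  have hOn : On F D' (xh b' g' z) := by
    refine ⟨hγd, ?_⟩
    have h1 := (hΦ Ω z).1
    rw [h1]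
    simp only [hz]
    unfold yh
    simp
  have hjac : ∀ δ, grad F (xh b' g' z) (dxh b' z δ) =
      yh b' (fun i => z (Sum.inl i)) ((Jac Φ z).mulVec δ) := fun δ => jac_gen F b g Φ hΦ z hz δ
  have hsur : ∀ f : (Polynomial Ω), f.degree < (n * D' + 1 - c0 : ℕ) →
      ∃ a : Fin (n + 1) → (Polynomial Ω), (∀ i, (a i).degree < (D' + 1 - c0 : ℕ)) ∧
        grad F (xh b' g' z) a = f := by
    intro f hf
    obtain ⟨y, hy, -⟩ := yh_surj (D := D) (d := d) hn hD hc0 c0 le_rfl (by omega) b' hbi
      (fun i => z (Sum.inl i)) he f hf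
    obtain ⟨δ, hδ⟩ := hsurj y
    refine ⟨dxh b' z δ, fun i => ?_, ?_⟩
    · exact dxh_degree hD hc0 c0 le_rfl (by omega) b' z δ
        (fun a l hl => absurd l.2 (by omega)) i
    · rw [hjac, hδ, hy]
  refine ⟨⟨hD1, hOn, ?_⟩, ?_⟩
  · rcases hc0 with rfl | rfl
    · exact hsur
    · intro f hf
      refine C5_free hn hD1 (fun f hf => ?_) f hf
      have e1 : n * D' + 1 - 2 = n * D' - 1 := by omega
      have e2 : D' + 1 - 2 = D' - 1 := by omega
      have h1 := hsur f
      rw [e1, e2] at h1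
      exact h1 hf
  · have hWd : (Wp b' (fun l => n * d l)).natDegree = n * ∑ i, d i := by
      rw [C5_Wp_deg, Finset.mul_sum]
    have hWm := C5_Wp_monic b' (fun l => n * d l)
    have hnD : 2 ≤ n * D := by nlinarith
    have hnD' : n * D' = n * D + n * ∑ i, d i := by rw [hD', Nat.mul_add]
    refine ⟨fun s => Wp b' (fun l => n * d l) * (θ s).map (algebraMap k Ω), fun s => ?_, ?_⟩
    · have h1 := C5_deg_mul (p := Wp b' (fun l => n * d l)) hWd.le
        (lt_of_le_of_lt (degree_map_le (f := algebraMap k Ω)) (hθ s))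
      have e1 : n * ∑ i, d i + (n * D - 1) = n * D' - 1 := by omega
      rwa [e1] at h1
    · intro f hf
      have e1 : n * D' + 1 - 2 = n * D' - 1 := by omega
      have e2 : D' + 1 - 2 = D' - 1 := by omega
      have e3 : n * D + 1 - 2 = n * D - 1 := by omega
      obtain ⟨y, hy, -⟩ := yh_surj (D := D) (d := d) hn hD hc0 2 (by omega) le_rfl b' hbi
        (fun i => z (Sum.inl i)) he f (by rw [e1]; exact hf)
      obtain ⟨δ, ν, hδ, hl, hr⟩ := hcor y
      have ha : ∀ a, (dxh b' z δ a).degree < (D' - 1 : ℕ) := by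
        intro a
        have h1 := dxh_degree hD hc0 2 (by omega) le_rfl b' z δ
          (fun a l hl => hδ a l (by omega)) a
        rwa [← hD', e2] at h1
      refine ⟨dxh b' z δ, ν, ha, ?_⟩
      -- the difference
      set y' := (Jac Φ z).mulVec δ with hy'
      set u : (Polynomial Ω) := (∑ l : Fin (n * D + 1 - c0), C (y (Sum.inl l)) * X ^ (l : ℕ)) -
        ∑ l : Fin (n * D + 1 - c0), C (y' (Sum.inl l)) * X ^ (l : ℕ) with hu
      have hdiff : f - grad F (xh b' g' z) (dxh b' z δ) = Wp b' (fun l => n * d l) * u := by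
        rw [hjac, hy]
        unfold yh
        simp only [hr]
        rw [hu]
        ring
      have hgd' : (grad F (xh b' g' z) (dxh b' z δ)).degree < (n * D' - 1 : ℕ) := by
        have h1 := C5_deg_grad hF hγd ha
        have e4 : (n - 1) * D' + (D' - 1) = n * D' - 1 := by
          obtain ⟨n', rfl⟩ : ∃ n', n = n' + 1 := ⟨n - 1, by omega⟩
          rw [Nat.add_sub_cancel, Nat.succ_mul]
          omega
        rwa [e4] at h1
      have hdd : (Wp b' (fun l => n * d l) * u).degree < (n * D' - 1 : ℕ) := by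
        rw [← hdiff]
        exact lt_of_le_of_lt (degree_sub_le _ _) (max_lt hf hgd')
      have hucoeff : ∀ m, n * D - 1 ≤ m → u.coeff m = 0 := by
        intro m hm
        by_cases hu0 : u = 0
        · rw [hu0, coeff_zero]
        · have hW0 : Wp b' (fun l => n * d l) ≠ 0 := hWm.ne_zero
          rw [degree_eq_natDegree (mul_ne_zero hW0 hu0), natDegree_mul hW0 hu0, hWd] at hdd
          have h1 : n * ∑ i, d i + u.natDegree < n * D' - 1 := by exact_mod_cast hdd
          exact coeff_eq_zero_of_natDegree_lt (by omega)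
      have hueq : u = ∑ s, C (ν s) * (θ s).map (algebraMap k Ω) := by
        ext m
        rw [finsetSum_coeff]
        simp only [coeff_C_mul, coeff_map]
        by_cases hm : m < n * D - 1
        · rw [hu, coeff_sub, C5_coeff_sum, C5_coeff_sum]
          have hm' : m < n * D + 1 - c0 := by omega
          rw [dif_pos hm', dif_pos hm', hl ⟨m, hm'⟩ hm]
          ring
        · rw [hucoeff m (by omega)]
          symm
          refine Finset.sum_eq_zero fun s _ => ?_
          have h1 := (degree_lt_iff_coeff_zero (θ s) (n * D - 1)).1 (hθ s) m (by omega)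
          rw [h1, map_zero, mul_zero]
      have h2 : f = grad F (xh b' g' z) (dxh b' z δ) + Wp b' (fun l => n * d l) * u := by
        rw [← hdiff]
        ring
      rw [hueq, Finset.mul_sum] at h2
      refine h2.trans (congrArg (fun x => grad F (xh b' g' z) (dxh b' z δ) + x) ?_)
      exact Finset.sum_congr rfl fun s _ => by ring

end Q9
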