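import Pool.Agent.LibQ9.C3

/-!
[Q9 C6] (MEDIUM; may cite C3 as stated) Linear algebra at the comb: surjectivity, kernel vector, corank.

PLAN. Write `δ = (δe, δξ, δτ)`, `A = Jac Φ (zc τ)`. By C3: the `inl`-part of `A δ` is (the coefficient vector of) `∇F(g)·δξ + Σ δe_i h_i` (degree `< n D + 1 - c0`), independent of `δτ`; the `inr`-part of `A (0, 0, δτ)` is `(∇F(τ_i)·lin δτ_i)_i`, and this map is onto since the teeth are free. So (i) `surj`: given `y`, choose `δe, δξ` with the right `inl`-part (`hspan`), then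
`δτ` correcting the `inr`-part (linearity). (ii) `ker`: `hrel` gives `δe = μ` with all entries `≠ 0` and `δξ` with `inl`-part `0`; then `δτ` with `inr`-part `0`. (iii) `cor`: the same with `hcor`, `δξ` supported on `l < D - 1`. Translate between polynomials of degree `< N` and coefficient vectors `Fin N → k`.
-/

set_option autoImplicit false

namespace Q9

open Polynomial

private theorem C6_coeff {k : Type} [Field k] {N : ℕ} (c : Fin N → k) (j : Fin N) :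
    (∑ l : Fin N, C (c l) * X ^ (l : ℕ)).coeff (j : ℕ) = c j := by
  rw [finsetSum_coeff]
  rw [Finset.sum_eq_single j]
  · simp
  · intro b _ hb
    rw [coeff_C_mul, coeff_X_pow, if_neg, mul_zero]
    intro h
    exact hb (Fin.ext h.symm)
  · intro h
    exact absurd (Finset.mem_univ j) h

private theorem C6_sum {k : Type} [Field k] {N : ℕ} (p : k[X]) (hp : p.degree < (N : ℕ)) :
    (∑ l : Fin N, C (p.coeff l) * X ^ (l : ℕ)) = p := by
  ext j
  by_cases hj : j < N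
  · exact C6_coeff (fun l : Fin N => p.coeff l) ⟨j, hj⟩
  · rw [finsetSum_coeff, coeff_eq_zero_of_degree_lt (lt_of_lt_of_le hp (by exact_mod_cast not_lt.mp hj))]
    apply Finset.sum_eq_zero
    intro l _
    rw [coeff_C_mul, coeff_X_pow, if_neg, mul_zero]
    intro h
    exact hj (h ▸ l.2)

private theorem C6_deg {k : Type} [Field k] {N : ℕ} (c : Fin N → k) :
    (∑ l : Fin N, C (c l) * X ^ (l : ℕ)).degree < ((N : ℕ) : WithBot ℕ) := by
  rw [degree_lt_iff_coeff_zero]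
  intro m hm
  rw [finsetSum_coeff]
  apply Finset.sum_eq_zero
  intro l _
  rw [coeff_C_mul, coeff_X_pow, if_neg, mul_zero]
  intro h
  exact absurd l.2 (by omega)

private theorem C6_grad0 {k : Type} [Field k] {m : ℕ} (F : MvPolynomial (Fin m) k)
    (x : Fin m → k[X]) : grad F x (fun _ => 0) = 0 := by
  simp [grad]

section

variable {k : Type} [Field k] {n D c0 m : ℕ} {d : Fin m → ℕ} (F : MvPolynomial (Fin (n + 1)) k)
  (hF : F.IsHomogeneous n) (hD : 1 ≤ D) (hc0 : c0 = 1 ∨ c0 = 2) (b : Fin m → k)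
  (g : Fin (n + 1) → k[X]) (hg : On F D g)
  (τ : Fin m → Fin (n + 1) → k[X]) (hτ : ∀ i, Free F (d i) (τ i))
  (hτ0 : ∀ i a, (τ i a).coeff 0 = (g a).eval (b i))
  (Φ : CJ n D c0 d → MvPolynomial (CI n D c0 d) k) (hΦ : CEq F b g Φ) (h : Fin m → k[X])
  (hh : ∀ i, (X - C (b i)) * h i = grad F g (fun a => C ((τ i a).coeff 1)))

include hF hg hτ hτ0 hΦ hh

private theorem C6_tooth (t : (Σ i : Fin m, Fin (n * d i)) → k) :
    ∃ δ : CI n D c0 d → k, (∀ i, δ (Sum.inl i) = 0) ∧ (∀ x, δ (Sum.inr (Sum.inl x)) = 0) ∧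
      (∀ l, (Jac Φ (zc τ : CI n D c0 d → k)).mulVec δ (Sum.inl l) = 0) ∧
      ∀ x, (Jac Φ (zc τ : CI n D c0 d → k)).mulVec δ (Sum.inr x) = t x := by
  choose a ha ha2 using fun i => (hτ i).2.2 (∑ j : Fin (n * d i), C (t ⟨i, j⟩) * X ^ (j : ℕ))
    (C6_deg _)
  let δ : CI n D c0 d → k := fun x => match x with
    | Sum.inl _ => 0
    | Sum.inr (Sum.inl _) => 0
    | Sum.inr (Sum.inr ⟨i, (c, l)⟩) => (a i c).coeff (l : ℕ)
  have h1 : ∀ i, δ (Sum.inl i) = 0 := fun i => rfl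
  have h2 : ∀ x, δ (Sum.inr (Sum.inl x)) = 0 := fun x => rfl
  refine ⟨δ, h1, h2, ?_, ?_⟩
  · intro l
    have e := jac_inl F hF b g hg τ hτ hτ0 Φ hΦ h hh δ
    have e2 : (∑ l : Fin (n * D + 1 - c0),
        C ((Jac Φ (zc τ : CI n D c0 d → k)).mulVec δ (Sum.inl l)) * X ^ (l : ℕ)) = 0 := by
      rw [e]
      have e3 : (fun c : Fin (n + 1) => ∑ l : Fin (D + 1 - c0),
          C (δ (Sum.inr (Sum.inl (c, l)))) * X ^ (l : ℕ)) = fun _ => (0 : k[X]) := by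
        funext c
        apply Finset.sum_eq_zero
        intro l _
        rw [h2 (c, l), C_0, zero_mul]
      rw [e3, C6_grad0, zero_add]
      apply Finset.sum_eq_zero
      intro i _
      rw [h1 i, C_0, zero_mul]
    have e4 := C6_coeff (fun l : Fin (n * D + 1 - c0) =>
      (Jac Φ (zc τ : CI n D c0 d → k)).mulVec δ (Sum.inl l)) l
    rw [e2, coeff_zero] at e4
    exact e4.symm
  · rintro ⟨i, j⟩
    rw [jac_inr F hF b g hg τ hτ hτ0 Φ hΦ δ h1 h2 i j]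
    have e3 : (fun c : Fin (n + 1) => ∑ l : Fin (d i),
        C (δ (Sum.inr (Sum.inr ⟨i, (c, l)⟩))) * X ^ (l : ℕ)) = a i := by
      funext c
      exact C6_sum (a i c) (ha i c)
    rw [e3, ha2 i]
    exact C6_coeff (fun j : Fin (n * d i) => t ⟨i, j⟩) j

private theorem C6_key (a : Fin (n + 1) → k[X]) (μ : Fin m → k)
    (ha : ∀ i, (a i).degree < (D + 1 - c0 : ℕ)) (t : (Σ i : Fin m, Fin (n * d i)) → k) :
    ∃ δ : CI n D c0 d → k, (∀ i, δ (Sum.inl i) = μ i) ∧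
      (∀ c (l : Fin (D + 1 - c0)), δ (Sum.inr (Sum.inl (c, l))) = (a c).coeff l) ∧
      (∀ l : Fin (n * D + 1 - c0), (Jac Φ (zc τ : CI n D c0 d → k)).mulVec δ (Sum.inl l) =
        (grad F g a + ∑ i, C (μ i) * h i).coeff l) ∧
      ∀ x, (Jac Φ (zc τ : CI n D c0 d → k)).mulVec δ (Sum.inr x) = t x := by
  let δ1 : CI n D c0 d → k := fun x => match x with
    | Sum.inl i => μ i
    | Sum.inr (Sum.inl (c, l)) => (a c).coeff (l : ℕ)
    | Sum.inr (Sum.inr _) => 0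
  obtain ⟨δ2, h1, h2, h3, h4⟩ := C6_tooth F hF b g hg τ hτ hτ0 Φ hΦ h hh
    (fun x => t x - (Jac Φ (zc τ : CI n D c0 d → k)).mulVec δ1 (Sum.inr x))
  refine ⟨δ1 + δ2, ?_, ?_, ?_, ?_⟩
  · intro i
    rw [Pi.add_apply, h1, add_zero]
  · intro c l
    rw [Pi.add_apply, h2, add_zero]
  · intro l
    rw [Matrix.mulVec_add, Pi.add_apply, h3, add_zero]
    have e := jac_inl F hF b g hg τ hτ hτ0 Φ hΦ h hh δ1
    have e3 : (fun c : Fin (n + 1) => ∑ l : Fin (D + 1 - c0),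
        C (δ1 (Sum.inr (Sum.inl (c, l)))) * X ^ (l : ℕ)) = a := by
      funext c
      exact C6_sum (a c) (ha c)
    rw [e3] at e
    have e4 := C6_coeff (fun l : Fin (n * D + 1 - c0) =>
      (Jac Φ (zc τ : CI n D c0 d → k)).mulVec δ1 (Sum.inl l)) l
    rw [e] at e4
    exact e4.symm
  · intro x
    rw [Matrix.mulVec_add, Pi.add_apply, h4]
    ring

end

section

variable {k : Type} [Field k] {n D c0 m : ℕ} {d : Fin m → ℕ} (F : MvPolynomial (Fin (n + 1)) k)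
  (hF : F.IsHomogeneous n) (hD : 1 ≤ D) (hc0 : c0 = 1 ∨ c0 = 2) (b : Fin m → k)
  (g : Fin (n + 1) → k[X]) (hg : On F D g)
  (τ : Fin m → Fin (n + 1) → k[X]) (hτ : ∀ i, Free F (d i) (τ i))
  (hτ0 : ∀ i a, (τ i a).coeff 0 = (g a).eval (b i))
  (Φ : CJ n D c0 d → MvPolynomial (CI n D c0 d) k) (hΦ : CEq F b g Φ) (h : Fin m → k[X])
  (hh : ∀ i, (X - C (b i)) * h i = grad F g (fun a => C ((τ i a).coeff 1)))

include hF hD hc0 hg hτ hτ0 hΦ hh

theorem comb_surj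
    (hspan : ∀ f : k[X], f.degree < (n * D + 1 - c0 : ℕ) → ∃ (a : Fin (n + 1) → k[X]) (μ : Fin m → k),
      (∀ i, (a i).degree < (D + 1 - c0 : ℕ)) ∧ f = grad F g a + ∑ i, C (μ i) * h i) :
    Function.Surjective (Jac Φ (zc τ : CI n D c0 d → k)).mulVec := by
  intro y
  obtain ⟨a, μ, ha, hf⟩ := hspan (∑ l : Fin (n * D + 1 - c0), C (y (Sum.inl l)) * X ^ (l : ℕ))
    (C6_deg _)
  obtain ⟨δ, _, _, h3, h4⟩ := C6_key F hF b g hg τ hτ hτ0 Φ hΦ h hh a μ ha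
    (fun x => y (Sum.inr x))
  refine ⟨δ, ?_⟩
  funext x
  rcases x with l | x
  · rw [h3, ← hf]
    exact C6_coeff (fun l : Fin (n * D + 1 - c0) => y (Sum.inl l)) l
  · exact h4 x

theorem comb_ker
    (hrel : ∃ (a : Fin (n + 1) → k[X]) (μ : Fin m → k), (∀ i, (a i).degree < (D + 1 - c0 : ℕ)) ∧
      grad F g a + ∑ i, C (μ i) * h i = 0 ∧ ∀ i, μ i ≠ 0) :
    ∃ v : CI n D c0 d → k, (Jac Φ (zc τ : CI n D c0 d → k)).mulVec v = 0 ∧
      ∀ i, v (Sum.inl i) ≠ 0 := by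
  obtain ⟨a, μ, ha, hf, hμ⟩ := hrel
  obtain ⟨δ, h1, _, h3, h4⟩ := C6_key F hF b g hg τ hτ hτ0 Φ hΦ h hh a μ ha (fun _ => 0)
  refine ⟨δ, ?_, fun i => by rw [h1]; exact hμ i⟩
  funext x
  rcases x with l | x
  · rw [h3, hf, coeff_zero]
    rfl
  · exact h4 x

theorem comb_cor (r : ℕ) (θ : Fin r → k[X]) (hθ : ∀ j, (θ j).degree < (n * D - 1 : ℕ))
    (hcor : ∀ f : k[X], f.degree < (n * D - 1 : ℕ) → ∃ (a : Fin (n + 1) → k[X]) (μ : Fin m → k)
      (ν : Fin r → k), (∀ i, (a i).degree < (D - 1 : ℕ)) ∧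
        f = grad F g a + ∑ i, C (μ i) * h i + ∑ j, C (ν j) * θ j)
    (y : CJ n D c0 d → k) : ∃ (δ : CI n D c0 d → k) (ν : Fin r → k),
      (∀ a (l : Fin (D + 1 - c0)), D - 1 ≤ (l : ℕ) → δ (Sum.inr (Sum.inl (a, l))) = 0) ∧
      (∀ l : Fin (n * D + 1 - c0), (l : ℕ) < n * D - 1 →
        y (Sum.inl l) = (Jac Φ (zc τ : CI n D c0 d → k)).mulVec δ (Sum.inl l) +
          ∑ s, ν s * (θ s).coeff l) ∧
      ∀ x, y (Sum.inr x) = (Jac Φ (zc τ : CI n D c0 d → k)).mulVec δ (Sum.inr x) := by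
  have hle : n * D - 1 ≤ n * D + 1 - c0 := by rcases hc0 with rfl | rfl <;> omega
  have hle2 : D - 1 ≤ D + 1 - c0 := by rcases hc0 with rfl | rfl <;> omega
  obtain ⟨a, μ, ν, ha, hf⟩ := hcor (∑ l : Fin (n * D - 1),
    C (y (Sum.inl (Fin.castLE hle l))) * X ^ (l : ℕ)) (C6_deg _)
  obtain ⟨δ, _, h2, h3, h4⟩ := C6_key F hF b g hg τ hτ hτ0 Φ hΦ h hh a μ
    (fun i => lt_of_lt_of_le (ha i) (by exact_mod_cast hle2)) (fun x => y (Sum.inr x))
  refine ⟨δ, ν, ?_, ?_, fun x => (h4 x).symm⟩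
  · intro c l hl
    rw [h2]
    exact coeff_eq_zero_of_degree_lt (lt_of_lt_of_le (ha c) (by exact_mod_cast hl))
  · intro l hl
    have e := C6_coeff (fun l : Fin (n * D - 1) => y (Sum.inl (Fin.castLE hle l))) ⟨l, hl⟩
    rw [hf] at e
    rw [h3]
    have e2 : y (Sum.inl l) = y (Sum.inl (Fin.castLE hle ⟨l, hl⟩)) := rfl
    rw [e2, ← e, coeff_add]
    congr 1
    rw [finsetSum_coeff]
    exact Finset.sum_congr rfl fun s _ => by rw [coeff_C_mul]

end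

end Q9
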