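import Pool.Agent.LibQ9.C2
import Pool.Agent.LibQ9.C5
import Pool.Agent.LibQ9.C6
import Pool.Agent.LibQ9.B4

/-!
[Q9 C7] (MEDIUM; assembly of block C; may cite C2, C5, C6, C4, P5, P9 `smooth_curve`, B4 `transfer` as stated) Combs on `P^1`: a handle `g` and free teeth `τ i` at the points `g(b i)`.

PLAN. `Φ` from C2 `exists_ceq`; `z₀ = zc τ`; C3 `ceq_zero`, C6 `comb_surj`, `comb_ker`. P9 `smooth_curve` with `E = ` the indices `inl i` (`Finset.univ.image Sum.inl` or map): `Ω`, `z` with `Φ(z) = 0`, `Spz z z₀`, `z (inl i) ≠ 0`. The Jacobian `Matrix.of fun j i => pderiv i (Φ j)` (polynomial entries) is surjective at `z₀`, so at `z` (P5 `surj_of_spz`). For `hcor` of C5: the matrix with rows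
`{inl l, l < n D - 1} ∪ {inr x}` and columns `{inl i} ∪ {inr (inl (a, l)), l < D - 1} ∪ {inr (inr _)} ∪ Fin r` (the last ones the constants `(θ s).coeff l`) is surjective at `z₀` by C6 `comb_cor`, so at `z` by P5. C5 `comb_at`: `xh` is `Free` and `Cor r` over `Ω`. B4 `transfer` to `k`; the coefficients at `D + Σ d_i` are those of `g` at `D` (C4 `xh_lead`), elements of `k`, hence preserved.
-/

set_option autoImplicit false

namespace Q9

open Polynomial

/-- the unknowns `ξ_(a,l)` with `l ≥ D - 1` -/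
private def C7_bad {n D c0 m : ℕ} {d : Fin m → ℕ} : CI n D c0 d → Prop
  | Sum.inl _ => False
  | Sum.inr (Sum.inl x) => D - 1 ≤ (x.2 : ℕ)
  | Sum.inr (Sum.inr _) => False

open Classical in
/-- the Jacobian with the columns `C7_bad` replaced by `0`, extended by the constants `(θ s).coeff l` and by
unit columns for the rows `inl l`, `l ≥ n D - 1` -/
private noncomputable def C7_M {k : Type} [Field k] {n D c0 m : ℕ} {d : Fin m → ℕ}
    (Φ : CJ n D c0 d → MvPolynomial (CI n D c0 d) k) {r : ℕ} (θ : Fin r → k[X]) :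
    Matrix (CJ n D c0 d) (CI n D c0 d ⊕ (Fin r ⊕ Fin (n * D + 1 - c0))) (MvPolynomial (CI n D c0 d) k) :=
  Matrix.of fun j c => match j, c with
    | j, Sum.inl i => if C7_bad i then 0 else MvPolynomial.pderiv i (Φ j)
    | Sum.inl l, Sum.inr (Sum.inl s) => MvPolynomial.C ((θ s).coeff l)
    | Sum.inr _, Sum.inr (Sum.inl _) => 0
    | Sum.inl l, Sum.inr (Sum.inr l') => if l = l' ∧ n * D - 1 ≤ (l : ℕ) then 1 else 0
    | Sum.inr _, Sum.inr (Sum.inr _) => 0

open Classical in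
private theorem C7_part {k : Type} [Field k] {n D c0 m : ℕ} {d : Fin m → ℕ}
    (Φ : CJ n D c0 d → MvPolynomial (CI n D c0 d) k) {r : ℕ} (θ : Fin r → k[X])
    {Ω : Type} [Field Ω] [Algebra k Ω] (z : CI n D c0 d → Ω)
    (V : CI n D c0 d ⊕ (Fin r ⊕ Fin (n * D + 1 - c0)) → Ω) (j : CJ n D c0 d) :
    ∑ i, MvPolynomial.aeval z (C7_M Φ θ j (Sum.inl i)) * V (Sum.inl i) =
      (Jac Φ z).mulVec (fun i => if C7_bad i then 0 else V (Sum.inl i)) j := by
  unfold Matrix.mulVec dotProduct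
  refine Finset.sum_congr rfl fun i _ => ?_
  have h1 : C7_M Φ θ j (Sum.inl i) = if C7_bad i then 0 else MvPolynomial.pderiv i (Φ j) := by
    rcases j with l | x <;> rfl
  change MvPolynomial.aeval z (C7_M Φ θ j (Sum.inl i)) * V (Sum.inl i) =
    MvPolynomial.aeval z (MvPolynomial.pderiv i (Φ j)) * (if C7_bad i then 0 else V (Sum.inl i))
  rw [h1]
  by_cases h : C7_bad i
  · rw [if_pos h, if_pos h, map_zero, zero_mul, mul_zero]
  · rw [if_neg h, if_neg h]

open Classical in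
private theorem C7_inl {k : Type} [Field k] {n D c0 m : ℕ} {d : Fin m → ℕ}
    (Φ : CJ n D c0 d → MvPolynomial (CI n D c0 d) k) {r : ℕ} (θ : Fin r → k[X])
    {Ω : Type} [Field Ω] [Algebra k Ω] (z : CI n D c0 d → Ω)
    (V : CI n D c0 d ⊕ (Fin r ⊕ Fin (n * D + 1 - c0)) → Ω) (l : Fin (n * D + 1 - c0)) :
    ((C7_M Φ θ).map (MvPolynomial.aeval z)).mulVec V (Sum.inl l) =
      (Jac Φ z).mulVec (fun i => if C7_bad i then 0 else V (Sum.inl i)) (Sum.inl l) +
        (∑ s, V (Sum.inr (Sum.inl s)) * algebraMap k Ω ((θ s).coeff l) +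
          if n * D - 1 ≤ (l : ℕ) then V (Sum.inr (Sum.inr l)) else 0) := by
  rw [← C7_part Φ θ z V (Sum.inl l)]
  have h0 : ((C7_M Φ θ).map (MvPolynomial.aeval z)).mulVec V (Sum.inl l) =
      ∑ c, MvPolynomial.aeval z (C7_M Φ θ (Sum.inl l) c) * V c := rfl
  rw [h0, Fintype.sum_sum_type, Fintype.sum_sum_type (fun c : Fin r ⊕ Fin (n * D + 1 - c0) =>
    MvPolynomial.aeval z (C7_M Φ θ (Sum.inl l) (Sum.inr c)) * V (Sum.inr c))]
  congr 2
  · refine Finset.sum_congr rfl fun s _ => ?_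
    have h1 : C7_M Φ θ (Sum.inl l) (Sum.inr (Sum.inl s)) = MvPolynomial.C ((θ s).coeff l) := rfl
    rw [h1, MvPolynomial.aeval_C, mul_comm]
  · have h1 : ∀ l', MvPolynomial.aeval z (C7_M Φ θ (Sum.inl l) (Sum.inr (Sum.inr l'))) *
        V (Sum.inr (Sum.inr l')) = if l = l' then (if n * D - 1 ≤ (l : ℕ) then V (Sum.inr (Sum.inr l')) else 0) else 0 := by
      intro l'
      have h2 : C7_M Φ θ (Sum.inl l) (Sum.inr (Sum.inr l')) =
        if l = l' ∧ n * D - 1 ≤ (l : ℕ) then 1 else 0 := rfl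
      rw [h2]
      by_cases h3 : l = l'
      · by_cases h4 : n * D - 1 ≤ (l : ℕ)
        · rw [if_pos ⟨h3, h4⟩, if_pos h3, if_pos h4, map_one, one_mul]
        · rw [if_neg (fun h => h4 h.2), if_pos h3, if_neg h4, map_zero, zero_mul]
      · rw [if_neg (fun h => h3 h.1), if_neg h3, map_zero, zero_mul]
    rw [Finset.sum_congr rfl fun l' _ => h1 l', Finset.sum_ite_eq Finset.univ l, if_pos (Finset.mem_univ l)]

open Classical in
private theorem C7_inr {k : Type} [Field k] {n D c0 m : ℕ} {d : Fin m → ℕ}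
    (Φ : CJ n D c0 d → MvPolynomial (CI n D c0 d) k) {r : ℕ} (θ : Fin r → k[X])
    {Ω : Type} [Field Ω] [Algebra k Ω] (z : CI n D c0 d → Ω)
    (V : CI n D c0 d ⊕ (Fin r ⊕ Fin (n * D + 1 - c0)) → Ω) (x : Σ i : Fin m, Fin (n * d i)) :
    ((C7_M Φ θ).map (MvPolynomial.aeval z)).mulVec V (Sum.inr x) =
      (Jac Φ z).mulVec (fun i => if C7_bad i then 0 else V (Sum.inl i)) (Sum.inr x) := by
  rw [← C7_part Φ θ z V (Sum.inr x)]
  have h0 : ((C7_M Φ θ).map (MvPolynomial.aeval z)).mulVec V (Sum.inr x) =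
      ∑ c, MvPolynomial.aeval z (C7_M Φ θ (Sum.inr x) c) * V c := rfl
  rw [h0, Fintype.sum_sum_type, Fintype.sum_sum_type (fun c : Fin r ⊕ Fin (n * D + 1 - c0) =>
    MvPolynomial.aeval z (C7_M Φ θ (Sum.inr x) (Sum.inr c)) * V (Sum.inr c))]
  have h1 : ∀ s, MvPolynomial.aeval z (C7_M Φ θ (Sum.inr x) (Sum.inr (Sum.inl s))) *
      V (Sum.inr (Sum.inl s)) = 0 := by
    intro s
    have h2 : C7_M Φ θ (Sum.inr x) (Sum.inr (Sum.inl s)) = 0 := rfl
    rw [h2, map_zero, zero_mul]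
  have h3 : ∀ l, MvPolynomial.aeval z (C7_M Φ θ (Sum.inr x) (Sum.inr (Sum.inr l))) *
      V (Sum.inr (Sum.inr l)) = 0 := by
    intro l
    have h2 : C7_M Φ θ (Sum.inr x) (Sum.inr (Sum.inr l)) = 0 := rfl
    rw [h2, map_zero, zero_mul]
  rw [Finset.sum_congr rfl fun s _ => h1 s, Finset.sum_congr rfl fun l _ => h3 l]
  simp

private theorem C7_eval {k : Type} [Field k] {I : Type} (z : I → k) (f : MvPolynomial I k) :
    MvPolynomial.eval z f = MvPolynomial.aeval z f := by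
  rw [← MvPolynomial.coe_aeval_eq_eval]
  rfl

/-- smoothing of combs. `c0 = 1` or `2`: the curve `γ` has the same value at infinity as the handle;
the classes `h i = ∇F(g)·(τ i)'(0) / (X - b i)` together with the image of the handle span, and there is a
relation with all coefficients of the `h i` nonzero. -/
theorem comb {k : Type} [Field k] [IsAlgClosed k] {n : ℕ} (hn : 2 ≤ n)
    (F : MvPolynomial (Fin (n + 1)) k) (hF : F.IsHomogeneous n) (D c0 : ℕ) (hD : 1 ≤ D)
    (hc0 : c0 = 1 ∨ c0 = 2) (g : Fin (n + 1) → k[X]) (hg : On F D g) {m : ℕ} (b : Fin m → k)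
    (hb : Function.Injective b) (d : Fin m → ℕ) (τ : Fin m → Fin (n + 1) → k[X])
    (hτ : ∀ i, Free F (d i) (τ i)) (hτ0 : ∀ i a, (τ i a).coeff 0 = (g a).eval (b i))
    (h : Fin m → k[X])
    (hh : ∀ i, (X - C (b i)) * h i = grad F g (fun a => C ((τ i a).coeff 1)))
    (hspan : ∀ f : k[X], f.degree < (n * D + 1 - c0 : ℕ) → ∃ (a : Fin (n + 1) → k[X]) (μ : Fin m → k),
      (∀ i, (a i).degree < (D + 1 - c0 : ℕ)) ∧ f = grad F g a + ∑ i, C (μ i) * h i)
    (hrel : ∃ (a : Fin (n + 1) → k[X]) (μ : Fin m → k), (∀ i, (a i).degree < (D + 1 - c0 : ℕ)) ∧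
      grad F g a + ∑ i, C (μ i) * h i = 0 ∧ ∀ i, μ i ≠ 0)
    (r : ℕ) (θ : Fin r → k[X]) (hθ : ∀ j, (θ j).degree < (n * D - 1 : ℕ))
    (hcor : ∀ f : k[X], f.degree < (n * D - 1 : ℕ) → ∃ (a : Fin (n + 1) → k[X]) (μ : Fin m → k)
      (ν : Fin r → k), (∀ i, (a i).degree < (D - 1 : ℕ)) ∧
        f = grad F g a + ∑ i, C (μ i) * h i + ∑ j, C (ν j) * θ j) :
    ∃ γ : Fin (n + 1) → k[X], Free F (D + ∑ i, d i) γ ∧ Cor F (D + ∑ i, d i) γ r ∧
      vc γ (D + ∑ i, d i) = vc g D := by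
  classical
  obtain ⟨Φ, hΦ⟩ := exists_ceq hn F hF hD hc0 b hb d g hg
  have h0 : ∀ j, MvPolynomial.eval (zc τ : CI n D c0 d → k) (Φ j) = 0 :=
    ceq_zero F hF b g hg τ hτ hτ0 Φ hΦ
  have hJ := comb_surj F hF hD hc0 b g hg τ hτ hτ0 Φ hΦ h hh hspan
  obtain ⟨v, hv, hvE⟩ := comb_ker F hF hD hc0 b g hg τ hτ hτ0 Φ hΦ h hh hrel
  have hco := comb_cor F hF hD hc0 b g hg τ hτ hτ0 Φ hΦ h hh r θ hθ hcor
  obtain ⟨Ω, iF, iA, z, hΩ, hz, hspz, hzE⟩ := smooth_curve Φ (zc τ) h0 hJ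
    (Finset.univ.image (Sum.inl : Fin m → CI n D c0 d)) v hv (by
      intro i hi
      obtain ⟨a, -, rfl⟩ := Finset.mem_image.1 hi
      exact hvE a)
  have he : ∀ i, z (Sum.inl i) ≠ 0 := fun i => hzE _ (Finset.mem_image_of_mem _ (Finset.mem_univ i))
  have hsurj : Function.Surjective (Jac Φ z).mulVec := by
    have h1 := surj_of_spz z (zc τ) hspz
      (Matrix.of fun (j : CJ n D c0 d) (i : CI n D c0 d) => MvPolynomial.pderiv i (Φ j)) (by
        have h2 : (Matrix.of fun (j : CJ n D c0 d) (i : CI n D c0 d) =>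
            MvPolynomial.pderiv i (Φ j)).map (MvPolynomial.eval (zc τ : CI n D c0 d → k)) =
              Jac Φ (zc τ : CI n D c0 d → k) := by
          ext j i
          exact C7_eval _ _
        rw [h2]
        exact hJ)
    exact h1
  have hM0 : Function.Surjective ((C7_M Φ θ).map (MvPolynomial.eval (zc τ : CI n D c0 d → k))).mulVec := by
    have h2 : (C7_M Φ θ).map (MvPolynomial.eval (zc τ : CI n D c0 d → k)) =
        (C7_M Φ θ).map (MvPolynomial.aeval (zc τ : CI n D c0 d → k)) := by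
      ext j i
      exact C7_eval _ _
    rw [h2]
    intro y
    obtain ⟨δ, ν, hδ, hy1, hy2⟩ := hco y
    have hbad : (fun i => if C7_bad i then 0 else δ i) = δ := by
      funext i
      by_cases hi : C7_bad i
      · rw [if_pos hi]
        rcases i with i | ⟨a, l⟩ | i
        · exact hi.elim
        · exact (hδ a l hi).symm
        · exact hi.elim
      · rw [if_neg hi]
    refine ⟨Sum.elim δ (Sum.elim ν fun l => y (Sum.inl l) -
      (Jac Φ (zc τ : CI n D c0 d → k)).mulVec δ (Sum.inl l) - ∑ s, ν s * (θ s).coeff l), ?_⟩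
    funext j
    rcases j with l | x
    · rw [C7_inl]
      have e1 : (fun i => if C7_bad i then 0 else Sum.elim δ (Sum.elim ν fun l => y (Sum.inl l) -
        (Jac Φ (zc τ : CI n D c0 d → k)).mulVec δ (Sum.inl l) - ∑ s, ν s * (θ s).coeff l)
          (Sum.inl i)) = δ := hbad
      rw [e1]
      by_cases hl : n * D - 1 ≤ (l : ℕ)
      · rw [if_pos hl]
        simp only [Sum.elim_inr, Sum.elim_inl, Algebra.algebraMap_self, RingHom.id_apply]
        ring
      · rw [if_neg hl, hy1 l (by omega)]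
        simp only [Sum.elim_inr, Sum.elim_inl, Algebra.algebraMap_self, RingHom.id_apply]
        ring
    · rw [C7_inr]
      have e1 : (fun i => if C7_bad i then 0 else Sum.elim δ (Sum.elim ν fun l => y (Sum.inl l) -
        (Jac Φ (zc τ : CI n D c0 d → k)).mulVec δ (Sum.inl l) - ∑ s, ν s * (θ s).coeff l)
          (Sum.inl i)) = δ := hbad
      rw [e1, hy2 x]
  have hM := surj_of_spz z (zc τ) hspz (C7_M Φ θ) hM0
  have hcat := comb_at hn F hF hD hc0 b hb g hg Φ hΦ r θ hθ z hz he hsurj (by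
    intro y
    obtain ⟨V, hV⟩ := hM y
    refine ⟨fun i => if C7_bad i then 0 else V (Sum.inl i), fun s => V (Sum.inr (Sum.inl s)), ?_, ?_, ?_⟩
    · intro a l hl
      have hb1 : C7_bad (Sum.inr (Sum.inl (a, l)) : CI n D c0 d) := hl
      exact if_pos hb1
    · intro l hl
      rw [← hV, C7_inl, if_neg (by omega), add_zero]
    · intro x
      rw [← hV, C7_inr])
  obtain ⟨γ, hγ1, hγ2, hγ3⟩ := transfer F (D + ∑ i, d i) r _ hcat.1 hcat.2
  refine ⟨γ, hγ1, hγ2, ?_⟩
  funext a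
  change (γ a).coeff (D + ∑ i, d i) = (g a).coeff D
  apply hγ3
  rw [xh_lead hD hc0 _ _ (fun a => (Polynomial.natDegree_map_le).trans (hg.1 a)), Polynomial.coeff_map]

end Q9
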