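import Pool.Agent.LibQ9.BDefs

/-!
# LibQ9, block C: combs (decomposition of `F(x)` into a regular part and polar parts)

`O` is a `k`-algebra of functions inside the field `KK`, `ev i` are `k`-points of `O`, `π i` functions with a simple pole at the point `ev i`:
`(f - ev i f) π i ∈ O` for all `f ∈ O`, `π i π j ∈ O + k π i + k π j`.
-/

set_option autoImplicit false

namespace Q9

open Polynomial

/-- the points `ev i` and the functions `π i` with a simple pole there -/
structure Poles (k KK : Type) [Field k] [Field KK] [Algebra k KK] (O : Subalgebra k KK) (m : ℕ)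
    where
  ev : Fin m → (O →ₐ[k] k)
  π : Fin m → KK
  h1 : ∀ i (f : O), ((f : KK) - algebraMap k KK (ev i f)) * π i ∈ O
  h2 : ∀ i j, i ≠ j → ∃ a b : k,
    π i * π j - algebraMap k KK a * π i - algebraMap k KK b * π j ∈ O

/-- the inclusion of the polynomials over `k` in the polynomials over `KK` -/
noncomputable def inc (k KK : Type) [Field k] [Field KK] [Algebra k KK] (I : Type) :
    MvPolynomial I k →+* MvPolynomial I KK := MvPolynomial.map (algebraMap k KK)

/-- `Σ_i c_i(e_i π_i)` in the polynomials over `KK` -/
noncomputable def pol {k KK : Type} [Field k] [Field KK] [Algebra k KK] {O : Subalgebra k KK} {m : ℕ}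
    (P : Poles k KK O m) {I : Type} (e : Fin m → MvPolynomial I k)
    (c : Fin m → Polynomial (MvPolynomial I k)) : MvPolynomial I KK :=
  ∑ i, (c i).eval₂ (inc k KK I) (MvPolynomial.C (P.π i) * inc k KK I (e i))

end Q9
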