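import Mathlib

/-!
# LibQ9: sections of families of hypersurfaces of degree `n` in `P^n` (MP_407a6b_ag), definitions

`k` is the base field, `F` a form of degree `n` in `n + 1` variables over `k`. Curves are vectors
`γ : Fin (n + 1) → κ[X]` of polynomials over an extension `κ` of `k`.
-/

set_option autoImplicit false

namespace Q9

open Polynomial

/-- the pairing `∇F(x)·w` in a commutative `k`-algebra `S` -/
noncomputable def grad {k : Type} [Field k] {m : ℕ} (F : MvPolynomial (Fin m) k) {S : Type}
    [CommRing S] [Algebra k S] (x w : Fin m → S) : S :=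
  ∑ i, MvPolynomial.aeval x (MvPolynomial.pderiv i F) * w i

/-- the partial derivatives have no common zero over `k` except the origin (`k` algebraically
closed: the hypersurface is smooth) -/
def Smooth {k : Type} [Field k] {m : ℕ} (F : MvPolynomial (Fin m) k) : Prop :=
  ∀ x : Fin m → k, (∀ i, MvPolynomial.eval x (MvPolynomial.pderiv i F) = 0) → x = 0

/-- every homogeneous prime ideal strictly larger than `(F)` contains a form `G`, not divisible by
`F`, such that `(F, G)` is a prime ideal (homogeneous primes of height one of the cone are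
principal) -/
def HU {k : Type} [Field k] {m : ℕ} (F : MvPolynomial (Fin m) k) : Prop :=
  ∀ Q : Ideal (MvPolynomial (Fin m) k), Q.IsPrime →
    (∀ f ∈ Q, ∀ i, MvPolynomial.homogeneousComponent i f ∈ Q) → F ∈ Q → Q ≠ Ideal.span {F} →
    ∃ (e : ℕ) (G : MvPolynomial (Fin m) k), G.IsHomogeneous e ∧ G ∈ Q ∧ G ∉ Ideal.span {F} ∧
      (Ideal.span {F, G}).IsPrime

section curves

variable {k : Type} [Field k] {n : ℕ} (F : MvPolynomial (Fin (n + 1)) k) {κ : Type} [Field κ]
  [Algebra k κ]

/-- a vector of polynomials of degree at most `d` with `F(γ) = 0` -/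
def On (d : ℕ) (γ : Fin (n + 1) → κ[X]) : Prop :=
  (∀ i, (γ i).natDegree ≤ d) ∧ MvPolynomial.aeval γ F = 0

/-- `γ` is a free curve of degree `d`: `∇F(γ)·` maps the vectors of polynomials of degree `< d`
onto the polynomials of degree `< nd` -/
def Free (d : ℕ) (γ : Fin (n + 1) → κ[X]) : Prop :=
  1 ≤ d ∧ On F d γ ∧ ∀ f : κ[X], f.degree < (n * d : ℕ) →
    ∃ a : Fin (n + 1) → κ[X], (∀ i, (a i).degree < (d : ℕ)) ∧ grad F γ a = f

/-- the corank of `∇F(γ)·` from the vectors of polynomials of degree `< d - 1` to the polynomials of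
degree `< nd - 1` is at most `c` (`c = 0`: the curve is very free) -/
def Cor (d : ℕ) (γ : Fin (n + 1) → κ[X]) (c : ℕ) : Prop :=
  ∃ θ : Fin c → κ[X], (∀ j, (θ j).degree < (n * d - 1 : ℕ)) ∧
    ∀ f : κ[X], f.degree < (n * d - 1 : ℕ) →
      ∃ (a : Fin (n + 1) → κ[X]) (μ : Fin c → κ), (∀ i, (a i).degree < (d - 1 : ℕ)) ∧
        f = grad F γ a + ∑ j, C (μ j) * θ j

/-- the values at `0` of the vectors of polynomials of degree `< d` in the kernel of `∇F(γ)·` -/
def Pos (d : ℕ) (γ : Fin (n + 1) → κ[X]) : Submodule κ (Fin (n + 1) → κ) where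
  carrier := {v | ∃ a : Fin (n + 1) → κ[X], (∀ i, (a i).degree < (d : ℕ)) ∧ grad F γ a = 0 ∧
    ∀ i, (a i).coeff 0 = v i}
  add_mem' := by
    rintro v w ⟨a, ha, ha0, hav⟩ ⟨b, hb, hb0, hbw⟩
    refine ⟨fun i => a i + b i, fun i => lt_of_le_of_lt (degree_add_le _ _) (max_lt (ha i) (hb i)),
      ?_, fun i => ?_⟩
    · unfold grad at *
      simp only [mul_add, Finset.sum_add_distrib]
      rw [ha0, hb0, add_zero]
    · simp [hav i, hbw i]
  zero_mem' := by
    refine ⟨fun _ => 0, fun i => ?_, ?_, fun i => ?_⟩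
    · rw [degree_zero]
      exact WithBot.bot_lt_coe _
    · simp [grad]
    · simp
  smul_mem' := by
    rintro c v ⟨a, ha, ha0, hav⟩
    refine ⟨fun i => C c * a i, fun i => ?_, ?_, fun i => ?_⟩
    · change (C c * a i).degree < _
      rw [← smul_eq_C_mul]
      exact lt_of_le_of_lt (degree_smul_le _ _) (ha i)
    · unfold grad at *
      calc ∑ i, MvPolynomial.aeval γ (MvPolynomial.pderiv i F) * (C c * a i)
          = C c * ∑ i, MvPolynomial.aeval γ (MvPolynomial.pderiv i F) * a i := by
            rw [Finset.mul_sum]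
            exact Finset.sum_congr rfl fun i _ => by ring
        _ = 0 := by rw [ha0, mul_zero]
    · simp [hav i]

/-- `q` is a generic point of the cone over `F = 0` over `k` -/
def Gen (q : Fin (n + 1) → κ) : Prop :=
  ∀ G : MvPolynomial (Fin (n + 1)) k, MvPolynomial.aeval q G = 0 ↔ F ∣ G

end curves

end Q9
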