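import Pool.Agent.LibQ9.HDefs

/-!
[Q9 H0a] (MEDIUM, many short lemmas; only definitions) Calculus of regular elements and congruences at a place.

`Pole O ev π`: `f ∈ O`, `ev f = 0` gives `f π ∈ O`; and `v = h π` with `h, v ∈ O`, `ev h = 0`, `ev v ≠ 0`. `Rg O ev f`: `h f ∈ O` for some `h ∈ O` with `ev h ≠ 0`.
PLAN. `ev` is a ring homomorphism, `ev h ≠ 0` implies `(h : K) ≠ 0`. `Rg` is closed under sums and products (multiply the two denominators). `π ≠ 0` as `ev v ≠ 0`. `rg_inv_pole`: `v * π⁻¹ = h`. `rg_inv`: `h * h⁻¹ = 1`. `hcg_iff`: `r = w / h`. `hcg_trans`, `hcg_add`, .. from `hcg_iff`. `hcg_mono`: `π^(-N) = π^(-N') * π^(-(N-N'))` and `π⁻¹` regular. `hcg_one_iff`: if `h (f - g) = w π⁻¹` with `ev (h (f-g)) ≠ 0`, put `x = h (f - g) ∈ O`, `x π = w ∈ O`; `x v = h' (x π)` (`v = h' π` the second part of `Pole`): `ev x * ev v = ev h' * ev w = 0`, contradiction; conversely `ev (f - g) = 0` gives `(f - g) π ∈ O`.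
`exists_val_rg`: `f = x / h`, `c = ev x / ev h`: `h (f - c) = x - c h`, value `0`. `hcg_eval`: induction on the polynomial (`MvPolynomial.induction_on`), using `hcg_mul`, `hcg_add`; `rg_eval` the same. `rg_other`: `ev ≠ ev'` gives `f ∈ O` with `ev f = 0`, `ev' f ≠ 0` (`f₀` with `ev f₀ ≠ ev' f₀`, `f = f₀ - algebraMap (ev f₀)`), then `f π ∈ O`.
-/

set_option autoImplicit false

namespace Q9

open Polynomial

section

variable {k K : Type} [Field k] [Field K] [Algebra k K] {O : Subalgebra k K} {ev : O →ₐ[k] k} {π : K}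

theorem pole_mul (hπ : Pole O ev π) (f : O) (hf : ev f = 0) : (f : K) * π ∈ O := by
  have h := hπ.1 f
  rw [hf, map_zero, sub_zero] at h
  exact h

theorem hpole_ne (hπ : Pole O ev π) : π ≠ 0 := by
  rintro rfl
  obtain ⟨h, v, _, hv, hv0⟩ := hπ.2
  rw [mul_zero] at hv
  have : v = 0 := Subtype.ext hv
  exact hv0 (by rw [this, map_zero])

theorem rg_of_mem (f : O) : Rg O ev (f : K) := by
  exact ⟨1, by rw [map_one]; exact one_ne_zero, by
    rw [OneMemClass.coe_one, one_mul]; exact f.2⟩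

theorem rg_algebraMap (c : k) : Rg O ev (algebraMap k K c) := by
  exact ⟨1, by rw [map_one]; exact one_ne_zero, by
    rw [OneMemClass.coe_one, one_mul]; exact O.algebraMap_mem c⟩

theorem rg_add {f g : K} (hf : Rg O ev f) (hg : Rg O ev g) : Rg O ev (f + g) := by
  obtain ⟨h, hh, h1⟩ := hf
  obtain ⟨h', hh', h1'⟩ := hg
  refine ⟨h * h', by rw [map_mul]; exact mul_ne_zero hh hh', ?_⟩
  have e : ((h * h' : O) : K) * (f + g) = (h' : K) * (h * f) + (h : K) * (h' * g) := by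
    rw [MulMemClass.coe_mul]; ring
  rw [e]
  exact add_mem (mul_mem h'.2 h1) (mul_mem h.2 h1')

theorem rg_sub {f g : K} (hf : Rg O ev f) (hg : Rg O ev g) : Rg O ev (f - g) := by
  obtain ⟨h, hh, h1⟩ := hf
  obtain ⟨h', hh', h1'⟩ := hg
  refine ⟨h * h', by rw [map_mul]; exact mul_ne_zero hh hh', ?_⟩
  have e : ((h * h' : O) : K) * (f - g) = (h' : K) * (h * f) - (h : K) * (h' * g) := by
    rw [MulMemClass.coe_mul]; ring
  rw [e]
  exact sub_mem (mul_mem h'.2 h1) (mul_mem h.2 h1')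

theorem rg_mul {f g : K} (hf : Rg O ev f) (hg : Rg O ev g) : Rg O ev (f * g) := by
  obtain ⟨h, hh, h1⟩ := hf
  obtain ⟨h', hh', h1'⟩ := hg
  refine ⟨h * h', by rw [map_mul]; exact mul_ne_zero hh hh', ?_⟩
  have e : ((h * h' : O) : K) * (f * g) = ((h : K) * f) * ((h' : K) * g) := by
    rw [MulMemClass.coe_mul]; ring
  rw [e]
  exact mul_mem h1 h1'

theorem rg_pow {f : K} (hf : Rg O ev f) (m : ℕ) : Rg O ev (f ^ m) := by
  induction m with
  | zero =>
    rw [pow_zero]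
    have h := rg_of_mem (O := O) (ev := ev) (1 : O)
    rw [OneMemClass.coe_one] at h
    exact h
  | succ m ih =>
    rw [pow_succ]
    exact rg_mul ih hf

theorem rg_sum {ι : Type} (s : Finset ι) (f : ι → K) (hf : ∀ i ∈ s, Rg O ev (f i)) :
    Rg O ev (∑ i ∈ s, f i) := by
  classical
  induction s using Finset.induction_on with
  | empty =>
    rw [Finset.sum_empty]
    have h := rg_of_mem (O := O) (ev := ev) (0 : O)
    rw [ZeroMemClass.coe_zero] at h
    exact h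
  | insert a s ha ih =>
    rw [Finset.sum_insert ha]
    exact rg_add (hf a (Finset.mem_insert_self a s))
      (ih fun i hi => hf i (Finset.mem_insert_of_mem hi))

theorem rg_inv (h : O) (hh : ev h ≠ 0) : Rg O ev ((h : K)⁻¹) := by
  have h0 : (h : K) ≠ 0 := fun e => hh (by
    have : h = 0 := Subtype.ext e
    rw [this, map_zero])
  exact ⟨h, hh, by rw [mul_inv_cancel₀ h0]; exact one_mem _⟩

theorem rg_inv_pole (hπ : Pole O ev π) : Rg O ev π⁻¹ := by
  have hπ0 := hpole_ne hπ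
  obtain ⟨h, v, _, hv, hv0⟩ := hπ.2
  exact ⟨v, hv0, by rw [hv, mul_assoc, mul_inv_cancel₀ hπ0, mul_one]; exact h.2⟩

theorem hcg_iff (N : ℕ) (f g : K) :
    Cg O ev π N f g ↔ ∃ r : K, Rg O ev r ∧ f - g = r * π⁻¹ ^ N := by
  constructor
  · rintro ⟨h, w, hh, e⟩
    have h0 : (h : K) ≠ 0 := fun e => hh (by
      have : h = 0 := Subtype.ext e
      rw [this, map_zero])
    refine ⟨(w : K) / h, ⟨h, hh, by rw [mul_div_cancel₀ _ h0]; exact w.2⟩, ?_⟩
    rw [div_mul_eq_mul_div, eq_div_iff h0, mul_comm, e]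
  · rintro ⟨r, ⟨h, hh, hr⟩, e⟩
    exact ⟨h, ⟨(h : K) * r, hr⟩, hh, by
      show (h : K) * (f - g) = ((h : K) * r) * π⁻¹ ^ N
      rw [e]; ring⟩

theorem hcg_refl (N : ℕ) (f : K) : Cg O ev π N f f := by
  exact ⟨1, 0, by rw [map_one]; exact one_ne_zero, by
    rw [sub_self, mul_zero, ZeroMemClass.coe_zero, zero_mul]⟩

theorem hcg_symm {N : ℕ} {f g : K} (h : Cg O ev π N f g) : Cg O ev π N g f := by
  obtain ⟨h, w, hh, e⟩ := h
  refine ⟨h, -w, hh, ?_⟩
  rw [NegMemClass.coe_neg, neg_mul, ← e]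
  ring

theorem hcg_trans {N : ℕ} {f g h : K} (h₁ : Cg O ev π N f g) (h₂ : Cg O ev π N g h) :
    Cg O ev π N f h := by
  rw [hcg_iff] at h₁ h₂ ⊢
  obtain ⟨r, hr, e⟩ := h₁
  obtain ⟨r', hr', e'⟩ := h₂
  exact ⟨r + r', rg_add hr hr', by
    rw [add_mul, ← e, ← e']; ring⟩

theorem hcg_add {N : ℕ} {f g f' g' : K} (h₁ : Cg O ev π N f g) (h₂ : Cg O ev π N f' g') :
    Cg O ev π N (f + f') (g + g') := by
  rw [hcg_iff] at h₁ h₂ ⊢
  obtain ⟨r, hr, e⟩ := h₁
  obtain ⟨r', hr', e'⟩ := h₂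
  exact ⟨r + r', rg_add hr hr', by
    rw [add_mul, ← e, ← e']; ring⟩

theorem hcg_mul_left {N : ℕ} {f g c : K} (hc : Rg O ev c) (h : Cg O ev π N f g) :
    Cg O ev π N (c * f) (c * g) := by
  rw [hcg_iff] at h ⊢
  obtain ⟨r, hr, e⟩ := h
  exact ⟨c * r, rg_mul hc hr, by
    rw [mul_assoc, ← e]; ring⟩

theorem hcg_mono (hπ : Pole O ev π) {N N' : ℕ} (hN : N' ≤ N) {f g : K} (h : Cg O ev π N f g) :
    Cg O ev π N' f g := by
  rw [hcg_iff] at h ⊢
  obtain ⟨r, hr, e⟩ := h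
  refine ⟨r * π⁻¹ ^ (N - N'), rg_mul hr (rg_pow (rg_inv_pole hπ) _), ?_⟩
  rw [e, mul_assoc, ← pow_add, Nat.sub_add_cancel hN]

theorem hcg_rg (hπ : Pole O ev π) {N : ℕ} {f g : K} (h : Cg O ev π N f g) (hg : Rg O ev g) :
    Rg O ev f := by
  rw [hcg_iff] at h
  obtain ⟨r, hr, e⟩ := h
  have e' : f = r * π⁻¹ ^ N + g := by rw [← e]; ring
  rw [e']
  exact rg_add (rg_mul hr (rg_pow (rg_inv_pole hπ) _)) hg

theorem hcg_mul (hπ : Pole O ev π) {N : ℕ} {f g f' g' : K} (hg : Rg O ev g) (hg' : Rg O ev g')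
    (h₁ : Cg O ev π N f g) (h₂ : Cg O ev π N f' g') : Cg O ev π N (f * f') (g * g') := by
  have hf' : Rg O ev f' := hcg_rg hπ h₂ hg'
  have h1 : Cg O ev π N (f' * f) (f' * g) := hcg_mul_left hf' h₁
  have h2 : Cg O ev π N (g * f') (g * g') := hcg_mul_left hg h₂
  rw [mul_comm f' f, mul_comm f' g] at h1
  exact hcg_trans h1 h2

theorem hcg_one_iff (hπ : Pole O ev π) (f g : O) : Cg O ev π 1 (f : K) (g : K) ↔ ev f = ev g := by
  have hπ0 := hpole_ne hπ
  constructor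
  · rintro ⟨h, w, hh, e⟩
    by_contra hne
    obtain ⟨h', v, h0', hv, hv0⟩ := hπ.2
    rw [pow_one] at e
    have e1 : (h * (f - g)) * v = h' * w := by
      apply Subtype.ext
      show ((h : K) * ((f : K) - g)) * v = (h' : K) * w
      rw [e, hv]
      field_simp
    have e2 := congrArg ev e1
    rw [map_mul, map_mul, map_mul, h0', zero_mul, map_sub] at e2
    exact mul_ne_zero (mul_ne_zero hh (sub_ne_zero.2 hne)) hv0 e2
  · intro he
    have h1 := pole_mul hπ (f - g) (by rw [map_sub, he, sub_self])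
    refine ⟨1, ⟨_, h1⟩, by rw [map_one]; exact one_ne_zero, ?_⟩
    show ((1 : O) : K) * ((f : K) - g) = (((f - g : O) : K) * π) * π⁻¹ ^ 1
    rw [OneMemClass.coe_one, one_mul, pow_one, mul_assoc, mul_inv_cancel₀ hπ0, mul_one,
      AddSubgroupClass.coe_sub]

/-- the value of a regular element -/
theorem exists_val_rg (hπ : Pole O ev π) {f : K} (hf : Rg O ev f) :
    ∃ c : k, Cg O ev π 1 f (algebraMap k K c) := by
  have hπ0 := hpole_ne hπ
  obtain ⟨h, hh, hx⟩ := hf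
  refine ⟨ev ⟨_, hx⟩ / ev h, ?_⟩
  have h1 := pole_mul hπ ((⟨_, hx⟩ : O) - (algebraMap k O (ev ⟨_, hx⟩ / ev h)) * h) (by
    rw [map_sub, map_mul, AlgHom.commutes]
    show ev ⟨_, hx⟩ - ev ⟨_, hx⟩ / ev h * ev h = 0
    rw [div_mul_cancel₀ _ hh, sub_self])
  refine ⟨h, ⟨_, h1⟩, hh, ?_⟩
  show (h : K) * (f - algebraMap k K (ev ⟨_, hx⟩ / ev h)) =
    (((h : K) * f - algebraMap k K (ev ⟨_, hx⟩ / ev h) * h) * π) * π⁻¹ ^ 1
  rw [pow_one, mul_assoc _ π, mul_inv_cancel₀ hπ0, mul_one]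
  ring

theorem rg_eval {n : ℕ} (G : MvPolynomial (Fin n) O) (x : Fin n → K) (hx : ∀ a, Rg O ev (x a)) :
    Rg O ev (MvPolynomial.eval x (MvPolynomial.map (O.subtype : O →+* K) G)) := by
  induction G using MvPolynomial.induction_on with
  | C a =>
    rw [MvPolynomial.map_C, MvPolynomial.eval_C]
    exact rg_of_mem a
  | add p q hp hq =>
    rw [map_add, map_add]
    exact rg_add hp hq
  | mul_X p i hp =>
    rw [map_mul, map_mul, MvPolynomial.map_X, MvPolynomial.eval_X]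
    exact rg_mul hp (hx i)

theorem hcg_eval (hπ : Pole O ev π) {n : ℕ} (G : MvPolynomial (Fin n) O) (N : ℕ) (x y : Fin n → K)
    (hy : ∀ a, Rg O ev (y a)) (h : ∀ a, Cg O ev π N (x a) (y a)) :
    Cg O ev π N (MvPolynomial.eval x (MvPolynomial.map (O.subtype : O →+* K) G))
      (MvPolynomial.eval y (MvPolynomial.map (O.subtype : O →+* K) G)) := by
  induction G using MvPolynomial.induction_on with
  | C a =>
    rw [MvPolynomial.map_C, MvPolynomial.eval_C, MvPolynomial.eval_C]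
    exact hcg_refl _ _
  | add p q hp hq =>
    rw [map_add, map_add, map_add]
    exact hcg_add hp hq
  | mul_X p i hp =>
    rw [map_mul, map_mul, map_mul, MvPolynomial.map_X, MvPolynomial.eval_X, MvPolynomial.eval_X]
    exact hcg_mul hπ (rg_eval p y hy) (hy i) hp (h i)

theorem rg_other (hπ : Pole O ev π) {ev' : O →ₐ[k] k} (h : ev' ≠ ev) : Rg O ev' π := by
  have hne : ∃ f : O, ev' f ≠ ev f := by
    by_contra hc
    push Not at hc
    exact h (AlgHom.ext hc)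
  obtain ⟨f, hf⟩ := hne
  refine ⟨f - algebraMap k O (ev f), ?_, ?_⟩
  · rw [map_sub, AlgHom.commutes]
    exact sub_ne_zero.2 hf
  · exact hπ.1 f

end

end Q9
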