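import Pool.Agent.LibQ9.H0a

/-!
[Q9 H0b] (MEDIUM; may cite H0a as stated) Chinese remainders and clearing denominators.

PLAN. `mi j = RingHom.ker (ev j)` are maximal ideals of `O` (`ev j` is onto `k`), distinct for distinct `ev j` (an algebra homomorphism to `k` is determined by its kernel), so the `(mi j)^N` are pairwise coprime, and `f ∈ (mi j)^N` implies `f π^N ∈ O` (products of `N` elements of `mi j`, `pole_mul`; `Submodule.pow_induction_on_left` or induction on `N`), so `Cg O (ev j) (π j) N f 0` (with `h = 1`, `w = f π^N`).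
`crt`: `Ideal.exists_forall_sub_mem_ideal` (or `Ideal.quotientInfRingEquivPiQuotient`). `clear`: the ideal `𝔡 = {c ∈ O : c f_i ∈ O for all i}` is not contained in any `mi j` (product of the denominators `h_i`, `Rg`), so it is coprime to every `(mi j)^N` (`mi j` maximal: `Ideal.isCoprime_of_..`, `IsCoprime.pow_right`, product over `j`: `Ideal.IsCoprime` and `Ideal.prod`/`iInf`: `Ideal.exists_..`): `c ∈ 𝔡`, `c - 1 ∈ ∏ (mi j)^N`.
-/

set_option autoImplicit false

namespace Q9

open Polynomial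

section

variable {k K : Type} [Field k] [Field K] [Algebra k K] {O : Subalgebra k K}

private lemma H0b_max (ev : O →ₐ[k] k) : (RingHom.ker (ev : O →+* k)).IsMaximal :=
  RingHom.ker_isMaximal_of_surjective _ fun c => ⟨algebraMap k O c, ev.commutes c⟩

private lemma H0b_ne {ev ev' : O →ₐ[k] k}
    (h : RingHom.ker (ev : O →+* k) = RingHom.ker (ev' : O →+* k)) : ev = ev' := by
  refine AlgHom.ext fun f => ?_
  have h1 : f - algebraMap k O (ev f) ∈ RingHom.ker (ev : O →+* k) := by
    rw [RingHom.mem_ker]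
    show ev (f - algebraMap k O (ev f)) = 0
    rw [map_sub, ev.commutes]
    exact sub_self _
  rw [h, RingHom.mem_ker] at h1
  have h2 : ev' (f - algebraMap k O (ev f)) = 0 := h1
  rw [map_sub, ev'.commutes, sub_eq_zero] at h2
  exact h2.symm

private lemma H0b_cop {r : ℕ} (ev : Fin r → (O →ₐ[k] k)) (hev : Function.Injective ev) (N : ℕ) :
    Pairwise (Function.onFun IsCoprime fun j => (RingHom.ker (ev j : O →+* k)) ^ N) := by
  intro i j hij
  have h1 := H0b_max (ev i)
  have h2 := H0b_max (ev j)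
  exact (Ideal.isCoprime_of_isMaximal fun h => hij (hev (H0b_ne h))).pow

private lemma H0b_pow {ev : O →ₐ[k] k} {π : K} (hπ : Pole O ev π) (N : ℕ) (f : O)
    (hf : f ∈ (RingHom.ker (ev : O →+* k)) ^ N) : (f : K) * π ^ N ∈ O := by
  induction N generalizing f with
  | zero => simp
  | succ N ih =>
    rw [pow_succ] at hf
    refine Submodule.mul_induction_on hf (fun a ha b hb => ?_) (fun a b ha hb => ?_)
    · have h1 := ih a ha
      have h2 := pole_mul hπ b (RingHom.mem_ker.1 hb)
      have h3 := O.mul_mem h1 h2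
      have h4 : ((a * b : O) : K) * π ^ (N + 1) = (a * π ^ N) * (b * π) := by
        push_cast
        ring
      rw [h4]
      exact h3
    · have h4 : ((a + b : O) : K) * π ^ (N + 1) = a * π ^ (N + 1) + b * π ^ (N + 1) := by
        push_cast
        ring
      rw [h4]
      exact O.add_mem ha hb

private lemma H0b_cg {ev : O →ₐ[k] k} {π : K} (hπ : Pole O ev π) (N : ℕ) (f g : O)
    (hf : f - g ∈ (RingHom.ker (ev : O →+* k)) ^ N) : Cg O ev π N (f : K) (g : K) := by
  refine ⟨1, ⟨_, H0b_pow hπ N _ hf⟩, by simp, ?_⟩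
  have h2 : π ^ N * π⁻¹ ^ N = 1 := by
    rw [← mul_pow, mul_inv_cancel₀ (hpole_ne hπ), one_pow]
  push_cast
  linear_combination (-((f : K) - g)) * h2

theorem crt {r : ℕ} (ev : Fin r → (O →ₐ[k] k)) (hev : Function.Injective ev) (π : Fin r → K)
    (hπ : ∀ j, Pole O (ev j) (π j)) (N : ℕ) (u : Fin r → O) :
    ∃ c : O, ∀ j, Cg O (ev j) (π j) N (c : K) (u j : K) := by
  obtain ⟨q, hq⟩ := Ideal.quotientInfToPiQuotient_surj (H0b_cop ev hev N)
    (fun j => Ideal.Quotient.mk _ (u j))
  obtain ⟨c, rfl⟩ := Ideal.Quotient.mk_surjective q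
  refine ⟨c, fun j => H0b_cg (hπ j) N c (u j) ?_⟩
  exact Ideal.Quotient.eq.1 (congrFun hq j)

theorem clear {r : ℕ} (ev : Fin r → (O →ₐ[k] k)) (hev : Function.Injective ev) (π : Fin r → K)
    (hπ : ∀ j, Pole O (ev j) (π j)) (N : ℕ) {m : ℕ} (f : Fin m → K)
    (hf : ∀ j i, Rg O (ev j) (f i)) (hfr : ∀ i, ∃ b : O, b ≠ 0 ∧ f i * b ∈ O) :
    ∃ c : O, c ≠ 0 ∧ (∀ j, Cg O (ev j) (π j) N (c : K) 1) ∧ ∀ i, (c : K) * f i ∈ O := by
  classical
  rcases Nat.eq_zero_or_pos r with hr | hr
  · subst hr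
    choose b hb0 hb using hfr
    refine ⟨∏ i, b i, Finset.prod_ne_zero_iff.2 fun i _ => hb0 i, fun j => j.elim0, fun i => ?_⟩
    rw [← Finset.mul_prod_erase _ _ (Finset.mem_univ i)]
    have h1 : ((b i * ∏ l ∈ Finset.univ.erase i, b l : O) : K) * f i =
        (f i * b i) * ((∏ l ∈ Finset.univ.erase i, b l : O) : K) := by
      rw [MulMemClass.coe_mul]
      ring
    rw [h1]
    exact O.mul_mem (hb i) (Subtype.mem _)
  choose h hh0 hh using hf
  let D : Ideal O :=
    { carrier := {c | ∀ i, (c : K) * f i ∈ O}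
      add_mem' := by
        intro a b ha hb i
        have h1 : ((a + b : O) : K) * f i = a * f i + b * f i := by
          push_cast
          ring
        rw [h1]
        exact O.add_mem (ha i) (hb i)
      zero_mem' := by
        intro i
        simp
      smul_mem' := by
        intro a b hb i
        have h1 : ((a • b : O) : K) * f i = a * (b * f i) := by
          rw [smul_eq_mul]
          push_cast
          ring
        rw [h1]
        exact O.mul_mem a.2 (hb i) }
  have hcop : ∀ j, IsCoprime D ((RingHom.ker (ev j : O →+* k)) ^ (N + 1)) := by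
    intro j
    refine IsCoprime.pow_right ?_
    rw [Ideal.isCoprime_iff_sup_eq]
    refine (H0b_max (ev j)).out.2 _ (lt_of_le_of_ne le_sup_right fun heq => ?_)
    have hHD : (∏ i, h j i) ∈ D := by
      intro i
      rw [← Finset.mul_prod_erase _ _ (Finset.mem_univ i)]
      have h1 : ((h j i * ∏ l ∈ Finset.univ.erase i, h j l : O) : K) * f i =
          (h j i * f i) * ((∏ l ∈ Finset.univ.erase i, h j l : O) : K) := by
        rw [MulMemClass.coe_mul]
        ring
      rw [h1]
      exact O.mul_mem (hh j i) (Subtype.mem _)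
    have h2 : (∏ i, h j i) ∈ RingHom.ker (ev j : O →+* k) := by
      rw [heq]
      exact Ideal.mem_sup_left hHD
    rw [RingHom.mem_ker] at h2
    have h3 : ev j (∏ i, h j i) = 0 := h2
    rw [map_prod, Finset.prod_eq_zero_iff] at h3
    obtain ⟨i, _, hi⟩ := h3
    exact hh0 j i hi
  have hcop' : IsCoprime D (∏ j, (RingHom.ker (ev j : O →+* k)) ^ (N + 1)) :=
    IsCoprime.prod_right fun j _ => hcop j
  obtain ⟨c, hc, d, hd, hcd⟩ := Ideal.isCoprime_iff_exists.1 hcop'
  have hd' : ∀ j, c - 1 ∈ (RingHom.ker (ev j : O →+* k)) ^ (N + 1) := by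
    intro j
    have h1 : d ∈ (RingHom.ker (ev j : O →+* k)) ^ (N + 1) :=
      Ideal.le_of_dvd (Finset.dvd_prod_of_mem _ (Finset.mem_univ j)) hd
    have h2 : c - 1 = -d := by
      rw [← hcd]
      ring
    rw [h2]
    exact neg_mem h1
  refine ⟨c, ?_, fun j => ?_, fun i => hc i⟩
  · rintro rfl
    have h1 := Ideal.pow_le_self (Nat.succ_ne_zero N) (hd' ⟨0, hr⟩)
    rw [RingHom.mem_ker] at h1
    simp at h1
  · have h1 := H0b_cg (hπ j) N c 1 (Ideal.pow_le_pow_right (Nat.le_succ N) (hd' j))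
    rwa [OneMemClass.coe_one] at h1

/-- expansion of a regular element -/
theorem expand_rg {ev : O →ₐ[k] k} {π : K} (hπ : Pole O ev π) (N : ℕ) {f : K} (hf : Rg O ev f) :
    ∃ y : ℕ → k, Cg O ev π N f (∑ l ∈ Finset.range N, algebraMap k K (y l) * π⁻¹ ^ l) := by
  induction N with
  | zero =>
    refine ⟨fun _ => 0, (hcg_iff 0 _ _).2 ⟨f, hf, ?_⟩⟩
    simp
  | succ N ih =>
    obtain ⟨y, hy⟩ := ih
    obtain ⟨r, hr, hfr⟩ := (hcg_iff N _ _).1 hy
    obtain ⟨c, hc⟩ := exists_val_rg hπ hr
    obtain ⟨r', hr', hrc⟩ := (hcg_iff 1 _ _).1 hc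
    refine ⟨Function.update y N c, (hcg_iff (N + 1) _ _).2 ⟨r', hr', ?_⟩⟩
    have h1 : ∑ l ∈ Finset.range N, algebraMap k K (Function.update y N c l) * π⁻¹ ^ l =
        ∑ l ∈ Finset.range N, algebraMap k K (y l) * π⁻¹ ^ l := by
      refine Finset.sum_congr rfl fun l hl => ?_
      rw [Function.update_of_ne (Finset.mem_range.1 hl).ne]
    rw [Finset.sum_range_succ, h1, Function.update_self]
    linear_combination hfr + π⁻¹ ^ N * hrc

end

end Q9
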