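import Pool.Agent.LibQ9.HDefs

/-!
[Q9 H1] (MEDIUM; only definitions) Vectors orthogonal to the gradient: a part over `O` and a part with bounded poles at infinity; finiteness.

PLAN. `s = (M.t)⁻¹ ∈ R`, `V_C = {f : f s^C ∈ R}` increasing in `C`. `TK = {w : Σ Fd_a w_a = 0}` is a `K`-subspace of `K^(n+1)`; basis `w_1 .. w_q`, multiplied by elements of `O` so that it lies in `O^(n+1)` (`M.frac`). `w = Σ f_j w_j`, `f_j = a_j + r_j` with `a_j ∈ O`, `r_j s^(C₀) ∈ R` (`M.cover`); every entry of `w_j` is in some `V_(C')` (`M.exh`): `α = Σ a_j w_j`, `r = Σ r_j w_j`, `r_a s^(C₀ + C') ∈ R`.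
`ts_fin`: by `M.finR C B` there is a finite dimensional `U₀` with `V_C ⊆ U₀ + s^B R`. The `k`-space `TC = {r ∈ TS : r_a s^C ∈ R for all a}` maps to `(K / s^B R)^(n+1)` with image in the finite dimensional image of `U₀^(n+1)` and kernel in `{r ∈ TS : r_a ∈ s^B R} ≤ TN`; choose a finite dimensional `U ≤ TC` mapping onto the image of `TC`: `TC ≤ TN ⊔ U`, `TS ≤ TN ⊔ U` (the part `α` is in `TN` with `r = 0`).
-/

set_option autoImplicit false

namespace Q9

open Polynomial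

section

variable {k K : Type} [Field k] [Field K] [Algebra k K]

private theorem H1_frac (M : Mdl k K) {ι : Type} [Fintype ι] [DecidableEq ι] (f : ι → K) :
    ∃ b : M.O, b ≠ 0 ∧ ∀ i, f i * b ∈ M.O := by
  choose b hb hf using fun i => M.frac (f i)
  refine ⟨∏ i, b i, Finset.prod_ne_zero_iff.2 fun i _ => hb i, fun i => ?_⟩
  rw [← Finset.mul_prod_erase _ _ (Finset.mem_univ i)]
  have h := M.O.mul_mem (hf i) (∏ j ∈ Finset.univ.erase i, b j).2
  rw [mul_assoc] at h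
  exact h

private theorem H1_exh (M : Mdl k K) {ι : Type} [Fintype ι] (f : ι → K) :
    ∃ C : ℕ, ∀ i, f i * (M.t : K)⁻¹ ^ C ∈ M.R := by
  choose c hc using fun i => M.exh (f i)
  refine ⟨∑ i, c i, fun i => ?_⟩
  have h : c i ≤ ∑ i, c i := Finset.single_le_sum (f := c) (fun _ _ => Nat.zero_le _) (Finset.mem_univ i)
  obtain ⟨r, hr⟩ := Nat.exists_eq_add_of_le h
  rw [hr, pow_add, ← mul_assoc]
  exact M.R.mul_mem (hc i) (M.R.pow_mem M.s_mem r)

/-- the vectors over `O` orthogonal to the gradient span all the vectors over `K` orthogonal to it -/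
private theorem H1_span (M : Mdl k K) {n : ℕ} (Fd : Fin (n + 1) → M.O) :
    ∃ (q : ℕ) (v : Fin q → Fin (n + 1) → M.O), (∀ j, ∑ a, (Fd a : K) * (v j a : K) = 0) ∧
      ∀ w : Fin (n + 1) → K, ∑ a, (Fd a : K) * w a = 0 →
        ∃ g : Fin q → K, ∀ a, w a = ∑ j, g j * (v j a : K) := by
  obtain ⟨TK, hTK⟩ : ∃ TK : Submodule K (Fin (n + 1) → K), ∀ w, w ∈ TK ↔ ∑ a, (Fd a : K) * w a = 0 := by
    refine ⟨LinearMap.ker (∑ a, (Fd a : K) • (LinearMap.proj a : (Fin (n + 1) → K) →ₗ[K] K)), fun w => ?_⟩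
    rw [LinearMap.mem_ker, LinearMap.sum_apply]
    exact Iff.rfl
  obtain ⟨q, b⟩ : ∃ q : ℕ, Nonempty (Module.Basis (Fin q) K TK) := ⟨_, ⟨Module.finBasis K TK⟩⟩
  obtain ⟨b⟩ := b
  choose c hc0 hc using fun j => H1_frac M ((b j : TK) : Fin (n + 1) → K)
  refine ⟨q, fun j a => ⟨_, hc j a⟩, fun j => ?_, fun w hw => ?_⟩
  · have h := (hTK _).1 (b j).2
    have h1 : ∑ a, (Fd a : K) * (((b j : TK) : Fin (n + 1) → K) a * (c j : K)) =
        (∑ a, (Fd a : K) * ((b j : TK) : Fin (n + 1) → K) a) * (c j : K) := by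
      rw [Finset.sum_mul]
      refine Finset.sum_congr rfl fun a _ => ?_
      ring
    rw [h, zero_mul] at h1
    exact h1
  · have h := b.sum_repr ⟨w, (hTK w).2 hw⟩
    refine ⟨fun j => b.repr ⟨w, (hTK w).2 hw⟩ j * (c j : K)⁻¹, fun a => ?_⟩
    have h1 := congrFun (congrArg Subtype.val h) a
    have h2 : w a = ∑ j, b.repr ⟨w, (hTK w).2 hw⟩ j * ((b j : TK) : Fin (n + 1) → K) a := by
      refine h1.symm.trans ?_
      rw [Submodule.coe_sum, Finset.sum_apply]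
      rfl
    rw [h2]
    refine Finset.sum_congr rfl fun j _ => ?_
    have h3 : (c j : K) ≠ 0 := by
      intro h
      exact hc0 j (Subtype.ext h)
    change _ = b.repr ⟨w, (hTK w).2 hw⟩ j * (c j : K)⁻¹ * (((b j : TK) : Fin (n + 1) → K) a * (c j : K))
    field_simp

end

theorem ts_split {k K : Type} [Field k] [Field K] [Algebra k K] (M : Mdl k K) {n : ℕ}
    (Fd : Fin (n + 1) → M.O) : ∃ C : ℕ, ∀ w : Fin (n + 1) → K, w ∈ TS Fd →
      ∃ (α : Fin (n + 1) → M.O) (r : Fin (n + 1) → K), ∑ a, (Fd a : K) * (α a : K) = 0 ∧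
        ∑ a, (Fd a : K) * r a = 0 ∧ (∀ a, r a * (M.t : K)⁻¹ ^ C ∈ M.R) ∧ ∀ a, w a = α a + r a := by
  obtain ⟨q, v, hv0, hv⟩ := H1_span M Fd
  obtain ⟨C0, hC0⟩ := M.cover
  obtain ⟨C1, hC1⟩ := H1_exh M (fun x : Fin q × Fin (n + 1) => (v x.1 x.2 : K))
  refine ⟨C0 + C1, fun w hw => ?_⟩
  obtain ⟨g, hg⟩ := hv w hw
  choose e he hr using fun j => hC0 (g j)
  have hsum : ∀ f : Fin q → K, ∑ a, (Fd a : K) * ∑ j, f j * (v j a : K) = 0 := by
    intro f
    have h : ∑ a, (Fd a : K) * ∑ j, f j * (v j a : K) = ∑ j, f j * ∑ a, (Fd a : K) * (v j a : K) := by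
      simp only [Finset.mul_sum]
      rw [Finset.sum_comm]
      refine Finset.sum_congr rfl fun j _ => Finset.sum_congr rfl fun a _ => ?_
      ring
    rw [h]
    apply Finset.sum_eq_zero
    intro j _
    rw [hv0, mul_zero]
  have hα : ∀ a, ∑ j, e j * (v j a : K) ∈ M.O := fun a =>
    M.O.sum_mem fun j _ => M.O.mul_mem (he j) (v j a).2
  refine ⟨fun a => ⟨_, hα a⟩, fun a => ∑ j, (g j - e j) * (v j a : K), hsum e, hsum _, fun a => ?_,
    fun a => ?_⟩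
  · rw [Finset.sum_mul]
    refine M.R.sum_mem fun j _ => ?_
    have h : (g j - e j) * (v j a : K) * (M.t : K)⁻¹ ^ (C0 + C1) =
        ((g j - e j) * (M.t : K)⁻¹ ^ C0) * ((v j a : K) * (M.t : K)⁻¹ ^ C1) := by
      rw [pow_add]
      ring
    rw [h]
    exact M.R.mul_mem (hr j) (hC1 (j, a))
  · rw [hg]
    change _ = ∑ j, e j * (v j a : K) + ∑ j, (g j - e j) * (v j a : K)
    rw [← Finset.sum_add_distrib]
    refine Finset.sum_congr rfl fun j _ => ?_
    ring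

theorem ts_fin {k K : Type} [Field k] [Field K] [Algebra k K] (M : Mdl k K) {n : ℕ}
    (Fd : Fin (n + 1) → M.O) (B : ℕ) : ∃ U : Submodule k (Fin (n + 1) → K),
      FiniteDimensional k U ∧ TS Fd ≤ TN M Fd B ⊔ U := by
  obtain ⟨C, hC⟩ := ts_split M Fd
  obtain ⟨U₀, hU₀, hU⟩ := M.finR C B
  obtain ⟨SB, hSB⟩ : ∃ SB : Submodule k K, ∀ f, f ∈ SB ↔ Inf M B f := by
    refine ⟨Submodule.map (LinearMap.mulRight k ((M.t : K)⁻¹ ^ B)) (Subalgebra.toSubmodule M.R), fun f => ?_⟩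
    rw [Submodule.mem_map]
    constructor
    · rintro ⟨r, hr, rfl⟩
      exact ⟨r, hr, rfl⟩
    · rintro ⟨r, hr, rfl⟩
      exact ⟨r, hr, rfl⟩
  obtain ⟨TC, hTC⟩ : ∃ TC : Submodule k (Fin (n + 1) → K), ∀ r, r ∈ TC ↔
      r ∈ TS Fd ∧ ∀ a, r a * (M.t : K)⁻¹ ^ C ∈ M.R := by
    refine ⟨{ carrier := {r | r ∈ TS Fd ∧ ∀ a, r a * (M.t : K)⁻¹ ^ C ∈ M.R}
              add_mem' := ?_
              zero_mem' := ?_
              smul_mem' := ?_ }, fun r => Iff.rfl⟩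
    · rintro r r' ⟨h1, h2⟩ ⟨h1', h2'⟩
      refine ⟨Submodule.add_mem _ h1 h1', fun a => ?_⟩
      rw [Pi.add_apply, add_mul]
      exact M.R.add_mem (h2 a) (h2' a)
    · refine ⟨Submodule.zero_mem _, fun a => ?_⟩
      rw [Pi.zero_apply, zero_mul]
      exact M.R.zero_mem
    · rintro c r ⟨h1, h2⟩
      refine ⟨Submodule.smul_mem _ c h1, fun a => ?_⟩
      rw [Pi.smul_apply, smul_mul_assoc]
      exact M.R.smul_mem (h2 a) c
  obtain ⟨φ, hφ⟩ : ∃ φ : (Fin (n + 1) → K) →ₗ[k] (Fin (n + 1) → K ⧸ SB), ∀ r a, φ r a = SB.mkQ (r a) :=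
    ⟨LinearMap.pi fun a => SB.mkQ ∘ₗ LinearMap.proj a, fun r a => rfl⟩
  obtain ⟨ψ, hψ⟩ : ∃ ψ : (Fin (n + 1) → U₀) →ₗ[k] (Fin (n + 1) → K ⧸ SB), ∀ r a,
      ψ r a = SB.mkQ ((r a : U₀) : K) :=
    ⟨LinearMap.pi fun a => SB.mkQ ∘ₗ U₀.subtype ∘ₗ LinearMap.proj a, fun r a => rfl⟩
  have hle : Submodule.map φ TC ≤ LinearMap.range ψ := by
    rintro _ ⟨r, hr, rfl⟩
    choose u hu x hx hux using fun a => hU (r a) (((hTC r).1 hr).2 a)
    refine ⟨fun a => ⟨u a, hu a⟩, ?_⟩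
    ext a
    rw [hφ, hψ, Submodule.mkQ_apply, Submodule.mkQ_apply, eq_comm, Submodule.Quotient.eq, hSB]
    exact ⟨x a, hx a, hux a⟩
  have hfd : FiniteDimensional k (Submodule.map φ TC) := Submodule.finiteDimensional_of_le hle
  have hfg : (Submodule.map φ TC).FG := Module.Finite.iff_fg.1 hfd
  obtain ⟨S, hSf, hS⟩ := Submodule.fg_def.1 hfg
  have hSim : S ⊆ φ '' (TC : Set (Fin (n + 1) → K)) := by
    intro x hx
    have : x ∈ Submodule.map φ TC := by
      rw [← hS]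
      exact Submodule.subset_span hx
    exact this
  obtain ⟨t, ht, htf, htS⟩ := (Set.exists_subset_image_finite_and
    (p := fun S => Submodule.span k S = Submodule.map φ TC)).1 ⟨S, hSim, hSf, hS⟩
  refine ⟨Submodule.span k t, FiniteDimensional.span_of_finite k htf, fun w hw => ?_⟩
  obtain ⟨α, r, h1, h2, h3, h4⟩ := hC w hw
  have hr : r ∈ TC := (hTC r).2 ⟨h2, h3⟩
  have hφr : φ r ∈ Submodule.map φ (Submodule.span k t) := by
    rw [Submodule.map_span, htS]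
    exact Submodule.mem_map_of_mem hr
  obtain ⟨u, hu, huφ⟩ := hφr
  have huTC : u ∈ TC := (Submodule.span_le.2 ht) hu
  have hdiff : ∀ a, Inf M B (r a - u a) := by
    intro a
    have h := congrFun huφ a
    rw [hφ, hφ, Submodule.mkQ_apply, Submodule.mkQ_apply, eq_comm, Submodule.Quotient.eq, hSB] at h
    exact h
  have hwu : w = (w - u) + u := by rw [sub_add_cancel]
  rw [hwu]
  refine Submodule.add_mem_sup ⟨α, fun a => r a - u a, h1, ?_, hdiff, fun a => ?_⟩ hu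
  · have h5 : ∑ a, (Fd a : K) * u a = 0 := ((hTC u).1 huTC).1
    simp only [mul_sub, Finset.sum_sub_distrib]
    rw [h2, h5, sub_zero]
  · rw [Pi.sub_apply, h4, add_sub_assoc]

end Q9
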