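import Pool.Agent.LibQ9.WDefs

/-!
[Q9 W2] (SHORT/MEDIUM; only definitions) The substitution `w → w^N` in a very free curve.

PLAN. `τ a = (δ a).expand N` (`Polynomial.expand κ N`, a ring homomorphism, `= comp (X^N)`). Degrees `≤ N d₀`, coefficient at `N d₀` is `(δ a).coeff d₀`, coefficients at non-multiples of `N` are `0` (`Polynomial.coeff_expand`). `F(τ) = (F(δ)).expand N = 0`, `grad F τ (expand N ∘ a) = expand N (grad F δ a)`. Every `f` is `Σ_{ρ<N} X^ρ * expand N (f_ρ)`, `f_ρ = Σ_j (f.coeff (N j + ρ)) X^j`; if `deg f < N M` then `deg f_ρ < M`. So if every polynomial of degree `< M` is `grad F δ a`, `deg a < M'`, then every `f` of degree `< N M` is `grad F τ a`, with `a = Σ_ρ X^ρ * expand N (a_ρ)`, degree `< N M'`.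
Apply with `M = n d₀`, `M' = d₀` (`Free`) and `M = n d₀ - 1`, `M' = d₀ - 1` (`Cor 0`; `N (n d₀ - 1) = n (N d₀) - N`, `N (d₀ - 1) = N d₀ - N`).
-/

set_option autoImplicit false

namespace Q9

open Polynomial

private theorem W2_grad_expand {k : Type} [Field k] {n : ℕ} (F : MvPolynomial (Fin (n + 1)) k) {κ : Type} [Field κ]
    [Algebra k κ] (N : ℕ) (δ a : Fin (n + 1) → κ[X]) :
    grad F (fun i => expand κ N (δ i)) (fun i => expand κ N (a i)) = expand κ N (grad F δ a) := by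
  have h : ∀ G : MvPolynomial (Fin (n + 1)) k,
      MvPolynomial.aeval (fun i => expand κ N (δ i)) G = expand κ N (MvPolynomial.aeval δ G) := by
    intro G
    have h1 := MvPolynomial.comp_aeval_apply (R := k) δ ((expand κ N).restrictScalars k) G
    exact h1.symm
  unfold grad
  rw [map_sum]
  refine Finset.sum_congr rfl fun i _ => ?_
  rw [map_mul, h]

private theorem W2_aeval_expand {k : Type} [Field k] {n : ℕ} {κ : Type} [Field κ]
    [Algebra k κ] (N : ℕ) (δ : Fin (n + 1) → κ[X]) (G : MvPolynomial (Fin (n + 1)) k) :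
    MvPolynomial.aeval (fun i => expand κ N (δ i)) G = expand κ N (MvPolynomial.aeval δ G) := by
  have h1 := MvPolynomial.comp_aeval_apply (R := k) δ ((expand κ N).restrictScalars k) G
  exact h1.symm

private theorem W2_coeff {κ : Type} [Field κ] {N : ℕ} (hN : 1 ≤ N) (p : κ[X]) (ρ m : ℕ) :
    ((X : κ[X]) ^ ρ * expand κ N p).coeff m = if ρ ≤ m then (if N ∣ m - ρ then p.coeff ((m - ρ) / N) else 0) else 0 := by
  rw [coeff_X_pow_mul']
  split_ifs with h1 h2
  · rw [coeff_expand hN, if_pos h2]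
  · rw [coeff_expand hN, if_neg h2]
  · rfl

private theorem W2_deg {κ : Type} [Field κ] {N : ℕ} (hN : 1 ≤ N) (p : κ[X]) (ρ M : ℕ) (hρ : ρ < N)
    (hp : p.degree < (M : ℕ)) : ((X : κ[X]) ^ ρ * expand κ N p).degree < (N * M : ℕ) := by
  rw [degree_lt_iff_coeff_zero]
  intro m hm
  rw [W2_coeff hN]
  split_ifs with h1 h2
  · obtain ⟨t, ht⟩ := h2
    rw [ht, Nat.mul_div_cancel_left _ (by omega)]
    refine (degree_lt_iff_coeff_zero p M).1 hp t ?_
    by_contra hlt
    have h3 : N * (t + 1) ≤ N * M := Nat.mul_le_mul_left _ (by omega)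
    have h4 : N * (t + 1) = N * t + N := by ring
    omega
  · rfl
  · rfl

private theorem W2_dec {κ : Type} [Field κ] {N : ℕ} (hN : 1 ≤ N) (f : κ[X]) (M : ℕ)
    (hf : f.degree < (N * M : ℕ)) :
    f = ∑ ρ ∈ Finset.range N, (X : κ[X]) ^ ρ *
      expand κ N (∑ j ∈ Finset.range M, monomial j (f.coeff (N * j + ρ))) := by
  ext m
  rw [finsetSum_coeff]
  have hmN : m % N < N := Nat.mod_lt _ (by omega)
  have hdm := Nat.div_add_mod m N
  rw [Finset.sum_eq_single (m % N)]
  · rw [W2_coeff hN, if_pos (Nat.mod_le _ _)]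
    have h1 : m - m % N = N * (m / N) := by omega
    rw [h1, if_pos (Dvd.intro _ rfl), Nat.mul_div_cancel_left _ (by omega), finsetSum_coeff]
    by_cases h2 : m / N < M
    · rw [Finset.sum_eq_single (m / N)]
      · rw [coeff_monomial, if_pos rfl, hdm]
      · intro j _ hj
        rw [coeff_monomial, if_neg hj]
      · intro h3
        exact absurd (Finset.mem_range.2 h2) h3
    · rw [Finset.sum_eq_zero]
      · refine (degree_lt_iff_coeff_zero f (N * M)).1 hf m ?_
        have h3 : N * M ≤ N * (m / N) := Nat.mul_le_mul_left _ (by omega)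
        omega
      · intro j hj
        rw [coeff_monomial, if_neg]
        have := Finset.mem_range.1 hj
        omega
  · intro ρ hρ hne
    rw [W2_coeff hN]
    split_ifs with h1 h2
    · exfalso
      obtain ⟨t, ht⟩ := h2
      have h3 : m = ρ + N * t := by omega
      apply hne
      rw [h3, Nat.add_mul_mod_self_left, Nat.mod_eq_of_lt (Finset.mem_range.1 hρ)]
    · rfl
    · rfl
  · intro h
    exact absurd (Finset.mem_range.2 hmN) h

private theorem W2_main {k : Type} [Field k] {n : ℕ} (F : MvPolynomial (Fin (n + 1)) k) {κ : Type} [Field κ]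
    [Algebra k κ] {N : ℕ} (hN : 1 ≤ N) (δ : Fin (n + 1) → κ[X]) (M M' : ℕ)
    (h : ∀ f : κ[X], f.degree < (M : ℕ) → ∃ a : Fin (n + 1) → κ[X], (∀ i, (a i).degree < (M' : ℕ)) ∧ grad F δ a = f)
    (f : κ[X]) (hf : f.degree < (N * M : ℕ)) :
    ∃ a : Fin (n + 1) → κ[X], (∀ i, (a i).degree < (N * M' : ℕ)) ∧ grad F (fun i => expand κ N (δ i)) a = f := by
  have hdeg : ∀ ρ : ℕ, (∑ j ∈ Finset.range M, monomial j (f.coeff (N * j + ρ)) : κ[X]).degree < (M : ℕ) := by
    intro ρ
    rw [degree_lt_iff_coeff_zero]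
    intro m hm
    rw [finsetSum_coeff]
    refine Finset.sum_eq_zero fun j hj => ?_
    rw [coeff_monomial, if_neg]
    have := Finset.mem_range.1 hj
    omega
  choose A hA1 hA2 using fun ρ : ℕ => h _ (hdeg ρ)
  refine ⟨fun i => ∑ ρ ∈ Finset.range N, (X : κ[X]) ^ ρ * expand κ N (A ρ i), fun i => ?_, ?_⟩
  · rw [degree_lt_iff_coeff_zero]
    intro m hm
    rw [finsetSum_coeff]
    refine Finset.sum_eq_zero fun ρ hρ => ?_
    exact (degree_lt_iff_coeff_zero _ _).1 (W2_deg hN (A ρ i) ρ M' (Finset.mem_range.1 hρ) (hA1 ρ i)) m hm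
  · have h1 : grad F (fun i => expand κ N (δ i)) (fun i => ∑ ρ ∈ Finset.range N, (X : κ[X]) ^ ρ * expand κ N (A ρ i)) =
        ∑ ρ ∈ Finset.range N, (X : κ[X]) ^ ρ *
          grad F (fun i => expand κ N (δ i)) (fun i => expand κ N (A ρ i)) := by
      unfold grad
      simp only [Finset.mul_sum]
      rw [Finset.sum_comm]
      refine Finset.sum_congr rfl fun ρ _ => Finset.sum_congr rfl fun i _ => ?_
      ring
    rw [h1]
    conv_rhs => rw [W2_dec hN f M hf]
    refine Finset.sum_congr rfl fun ρ _ => ?_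
    rw [W2_grad_expand, hA2]

theorem pow_tooth {k : Type} [Field k] {n : ℕ} (F : MvPolynomial (Fin (n + 1)) k) {κ : Type} [Field κ]
    [Algebra k κ] (d₀ N : ℕ) (hN : 1 ≤ N) (δ : Fin (n + 1) → κ[X]) (h : Free F d₀ δ)
    (hc : Cor F d₀ δ 0) :
    ∃ τ : Fin (n + 1) → κ[X], Free F (N * d₀) τ ∧
      (∀ f : κ[X], f.degree < (n * (N * d₀) - N : ℕ) → ∃ a : Fin (n + 1) → κ[X],
        (∀ j, (a j).degree < (N * d₀ - N : ℕ)) ∧ grad F τ a = f) ∧
      (∀ a, (τ a).coeff 0 = (δ a).coeff 0) ∧ (∀ a, (τ a).coeff (N * d₀) = (δ a).coeff d₀) ∧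
      ∀ a l, 1 ≤ l → l < N → (τ a).coeff (N * d₀ - l) = 0 := by
  obtain ⟨hd, hOn, hfree⟩ := h
  have hd1 : N ≤ N * d₀ := Nat.le_mul_of_pos_right _ hd
  refine ⟨fun i => expand κ N (δ i), ⟨by omega, ⟨fun i => ?_, ?_⟩, ?_⟩, ?_, fun a => ?_, fun a => ?_, ?_⟩
  · rw [natDegree_expand, Nat.mul_comm]
    exact Nat.mul_le_mul_left _ (hOn.1 i)
  · rw [W2_aeval_expand, hOn.2, map_zero]
  · intro f hf
    refine W2_main F hN δ (n * d₀) d₀ hfree f ?_
    have e : N * (n * d₀) = n * (N * d₀) := by ring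
    rw [e]
    exact hf
  · intro f hf
    obtain ⟨θ, -, hθ⟩ := hc
    have h0 : ∀ f : κ[X], f.degree < (n * d₀ - 1 : ℕ) →
        ∃ a : Fin (n + 1) → κ[X], (∀ i, (a i).degree < (d₀ - 1 : ℕ)) ∧ grad F δ a = f := by
      intro f hf
      obtain ⟨a, μ, ha, haf⟩ := hθ f hf
      refine ⟨a, ha, ?_⟩
      rw [haf]
      simp
    have e1 : N * (n * d₀ - 1) = n * (N * d₀) - N := by
      rw [Nat.mul_sub, Nat.mul_one]
      congr 1
      ring
    have e2 : N * (d₀ - 1) = N * d₀ - N := by rw [Nat.mul_sub, Nat.mul_one]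
    have h1 := W2_main F hN δ (n * d₀ - 1) (d₀ - 1) h0 f (by rw [e1]; exact hf)
    rw [e2] at h1
    exact h1
  · show (expand κ N (δ a)).coeff 0 = _
    rw [coeff_expand hN, if_pos (dvd_zero _), Nat.zero_div]
  · show (expand κ N (δ a)).coeff (N * d₀) = _
    rw [coeff_expand hN, if_pos (Dvd.intro _ rfl), Nat.mul_div_cancel_left _ (by omega)]
  · intro a l hl1 hl2
    show (expand κ N (δ a)).coeff (N * d₀ - l) = 0
    rw [coeff_expand hN, if_neg]
    rintro ⟨t, ht⟩
    have h3 : N ∣ l := by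
      have h4 : l = N * d₀ - N * t := by omega
      rw [h4]
      exact Nat.dvd_sub (Dvd.intro _ rfl) (Dvd.intro _ rfl)
    exact absurd (Nat.le_of_dvd (by omega) h3) (by omega)

end Q9
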