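import Pool.Agent.LibQ9.H0b
import Pool.Agent.LibQ9.W2

/-!
[Q9 H10] (MEDIUM; may cite H0a, H0b, W2 `pow_tooth` as stated) Special teeth and free teeth.

PLAN. `special_tooth`: `ρ⁻¹ x_a` is regular at `ev` (`rg_inv`, `rg_mul`): H0b `expand_rg` gives `y a : ℕ → k` with `ρ⁻¹ x_a ≡ Σ_{l<N} y_(a,l) π^(-l)`; multiply by `ρ`: `Cg N (x_a) (jt π ρ N y a)` (`hcg_mul_left`). W2 `pow_tooth` for `δ` with exponent `N`: `τ` of degree at most `N d` (`d ≥ 1` by `Free`), `Free`, surjectivity, `(τ a).coeff 0 = (δ a).coeff 0 = ev (P a)`, top coefficient `(τ a).coeff (N d) = (δ a).coeff d = ev (x a)`, intermediate `0`. `top`: `ev (x a) = ev ρ * y a 0`: from `Cg 1 (x_a) (jt ..)` (`hcg_mono`, `N ≥ 1`) and `jt ≡ ρ y_0 mod π⁻¹`: `hcg_one_iff` with `f = x a`, `g = ρ * algebraMap (y a 0) ∈ O`.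
`jet`: `hcg_eval` (`x ≡ jt`) and `hx`. `surj`: `k = κ`, `n * (N d) - N`. `free_tooth`: `N = 0`, `y = 0`: `surj` is `Free` (`n d - 0`, `d - 0`), `top`, `mid` vacuous, `jet`: `Cg .. 0 _ _`: `eval (jt π ρ 0 y) = eval 0` is `0`?: by `hcg_iff` it is enough that `F(0)` is regular: `jt π ρ 0 y = 0`, `rg_eval`.
-/

set_option autoImplicit false

namespace Q9

open Polynomial

section

variable {k K : Type} [Field k] [Field K] [Algebra k K] {O : Subalgebra k K} {n : ℕ}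
  (F : MvPolynomial (Fin (n + 1)) O) (P : Fin (n + 1) → O) (ρ : O)

private theorem H10_rg_jt {ev : O →ₐ[k] k} {π : K} (hπ : Pole O ev π) (N : ℕ) (y : ℕ → k) :
    Rg O ev (∑ l ∈ Finset.range N, algebraMap k K (y l) * π⁻¹ ^ l) :=
  rg_sum _ _ fun _ _ => rg_mul (rg_algebraMap _) (rg_pow (rg_inv_pole hπ) _)

private theorem H10_top {ev : O →ₐ[k] k} {π : K} (hπ : Pole O ev π) (N : ℕ) (hN : 1 ≤ N)
    (x ρ : O) (y : ℕ → k)
    (h : Cg O ev π N (x : K) ((ρ : K) * ∑ l ∈ Finset.range N, algebraMap k K (y l) * π⁻¹ ^ l)) :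
    ev x = ev ρ * y 0 := by
  obtain ⟨N', rfl⟩ := Nat.exists_eq_add_of_le hN
  have h1 := hcg_mono hπ hN h
  have h2 : Cg O ev π 1
      ((ρ : K) * ∑ l ∈ Finset.range (1 + N'), algebraMap k K (y l) * π⁻¹ ^ l)
      ((ρ * algebraMap k O (y 0) : O) : K) := by
    rw [hcg_iff]
    refine ⟨(ρ : K) * ∑ l ∈ Finset.range N', algebraMap k K (y (l + 1)) * π⁻¹ ^ l,
      rg_mul (rg_of_mem ρ) (H10_rg_jt hπ N' fun l => y (l + 1)), ?_⟩
    have h3 : ((ρ * algebraMap k O (y 0) : O) : K) = (ρ : K) * algebraMap k K (y 0) := rfl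
    have h4 : ∑ l ∈ Finset.range (1 + N'), algebraMap k K (y l) * π⁻¹ ^ l =
        (∑ l ∈ Finset.range N', algebraMap k K (y (l + 1)) * π⁻¹ ^ l) * π⁻¹ +
          algebraMap k K (y 0) := by
      rw [Nat.add_comm 1 N', Finset.sum_range_succ', Finset.sum_mul, pow_zero, mul_one]
      congr 1
      refine Finset.sum_congr rfl fun l _ => ?_
      rw [pow_succ]
      ring
    rw [h3, h4]
    ring
  have h5 := (hcg_one_iff hπ x (ρ * algebraMap k O (y 0))).1 (hcg_trans h1 h2)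
  rw [h5, map_mul, AlgHom.commutes]
  rfl

private theorem H10_eval (x : Fin (n + 1) → O) :
    MvPolynomial.eval (fun a => (x a : K)) (MvPolynomial.map (O.subtype : O →+* K) F) =
      ((MvPolynomial.eval x F : O) : K) := by
  rw [MvPolynomial.eval_map]
  have h := MvPolynomial.eval₂_comp_left (O.subtype : O →+* K) (RingHom.id O) x F
  rw [RingHom.comp_id] at h
  exact h.symm

theorem special_tooth (ev : O →ₐ[k] k) (π : K) (hπ : Pole O ev π) (hρ : ev ρ ≠ 0) (N : ℕ)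
    (hN : 1 ≤ N) (x : Fin (n + 1) → O)
    (hx : Cg O ev π N ((MvPolynomial.eval x F : O) : K) 0) (d : ℕ) (δ : Fin (n + 1) → k[X])
    (hδ : Free (MvPolynomial.map (ev : O →+* k) F) d δ)
    (hc : Cor (MvPolynomial.map (ev : O →+* k) F) d δ 0) (h0 : ∀ a, (δ a).coeff 0 = ev (P a))
    (hd : ∀ a, (δ a).coeff d = ev (x a)) :
    ∃ T : Tth O F P ρ, T.ev = ev ∧ T.π = π ∧ T.N = N ∧
      ∀ a, Cg O ev π N (jt π (ρ : K) N T.y a) (x a : K) := by
  have hρ0 : (ρ : K) ≠ 0 := by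
    intro h
    apply hρ
    have h1 : ρ = 0 := Subtype.ext h
    rw [h1, map_zero]
  have hex : ∀ a, ∃ y : ℕ → k, Cg O ev π N ((ρ : K)⁻¹ * (x a : K))
      (∑ l ∈ Finset.range N, algebraMap k K (y l) * π⁻¹ ^ l) := fun a =>
    expand_rg hπ N (rg_mul (rg_inv ρ hρ) (rg_of_mem (x a)))
  choose y hy using hex
  have hxy : ∀ a, Cg O ev π N (x a : K) (jt π (ρ : K) N y a) := by
    intro a
    have h1 := hcg_mul_left (rg_of_mem (ev := ev) ρ) (hy a)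
    rw [mul_inv_cancel_left₀ hρ0] at h1
    exact h1
  obtain ⟨τ, hfree, hsurj, hτ0, hτt, hτm⟩ := pow_tooth _ d N hN δ hδ hc
  refine ⟨⟨ev, π, hπ, hρ, N * d, N, Nat.le_mul_of_pos_right N hδ.1, hfree.1, τ, hfree.2.1,
    fun a => (hτ0 a).trans (h0 a), hsurj, y, fun a _ => ?_, hτm, ?_⟩, rfl, rfl, rfl,
    fun a => hcg_symm (hxy a)⟩
  · rw [hτt, hd]
    exact H10_top hπ N hN (x a) ρ (y a) (hxy a)
  · have h1 := hcg_eval hπ F N (jt π (ρ : K) N y) (fun a => (x a : K))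
      (fun a => rg_of_mem (x a)) (fun a => hcg_symm (hxy a))
    rw [H10_eval] at h1
    exact hcg_trans h1 hx

theorem free_tooth (ev : O →ₐ[k] k) (π : K) (hπ : Pole O ev π) (hρ : ev ρ ≠ 0) (d : ℕ)
    (γ : Fin (n + 1) → k[X]) (hγ : Free (MvPolynomial.map (ev : O →+* k) F) d γ)
    (h0 : ∀ a, (γ a).coeff 0 = ev (P a)) :
    ∃ T : Tth O F P ρ, T.ev = ev ∧ T.π = π ∧ T.N = 0 ∧ ∀ a, T.dir a = (ev ρ)⁻¹ * (γ a).coeff 1 := by
  refine ⟨⟨ev, π, hπ, hρ, d, 0, Nat.zero_le d, hγ.1, γ, hγ.2.1, h0, ?_, fun _ _ => (0 : k),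
    fun a h => ?_, fun a l _ h => ?_, ?_⟩, rfl, rfl, rfl, fun a => rfl⟩
  · intro f hf
    rw [Nat.sub_zero] at hf
    rw [Nat.sub_zero]
    exact hγ.2.2 f hf
  · exact absurd h (by omega)
  · exact absurd h (by omega)
  · rw [hcg_iff]
    refine ⟨_, rg_eval F (jt π (ρ : K) 0 fun (_ : Fin (n + 1)) (_ : ℕ) => (0 : k)) fun a => ?_, ?_⟩
    · exact rg_mul (rg_of_mem ρ) (H10_rg_jt hπ 0 fun _ => 0)
    · rw [pow_zero, mul_one, sub_zero]

end

end Q9
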