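import Pool.Agent.LibQ9.HDefs

/-!
[Q9 H6] (SHORT/MEDIUM; only definitions) Good reduction almost everywhere; a multiplier in the ideal of the gradient.

PLAN. `smooth_almost`: `hs`: `X_j^E ∈ (∂_i F)` over `K` for all `j`: `X_j^E = Σ_i c_ij ∂_i F`, `c_ij ∈ K[X]`; common denominator `D ∈ O`, `D ≠ 0`, of the finitely many coefficients (`M.frac`): `D X_j^E = Σ_i c'_ij ∂_i F` over `O` (the map `O[X] → K[X]` is injective: `MvPolynomial.map_injective`). `Z` from `M.nz D`. For `ev t ∉ Z`: apply `MvPolynomial.map ev`, `ev D ≠ 0`; if all `∂_i (map ev F)` vanish at `x`, then `x_j^E = 0`, `x_j = 0` (`pderiv` commutes with `map`: `MvPolynomial.pderiv_map`).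
`rho_exists`: the linear forms `c ↦ Σ_a c_a ev j (Fd a)`, `j < r`, are `≠ 0` on `k^(n+1)`, `k` infinite: a common nonzero point `c` (`Subspace.biUnion_ne_univ_of_top_notMem`, or the product of the linear polynomials is `≠ 0`: `MvPolynomial.funext`); also a nonzero entry `Fd a₁ ≠ 0` over `K` gives one more form (`c ↦ Σ c_a Fd a`, values in `K`: its kernel is a proper `k`-subspace of `k^(n+1)`). `ρ = Σ_a algebraMap c_a * Fd a`.
-/

set_option autoImplicit false

namespace Q9

open Polynomial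

/-- one polynomial: clear the denominators -/
private theorem H6_clear {k K : Type} [Field k] [Field K] [Algebra k K] (M : Mdl k K) {σ : Type}
    (p : MvPolynomial σ K) : ∃ D : M.O, D ≠ 0 ∧ ∃ p' : MvPolynomial σ M.O,
      MvPolynomial.map (M.O.subtype : M.O →+* K) p' = MvPolynomial.C (D : K) * p := by
  induction p using MvPolynomial.induction_on with
  | C a =>
    obtain ⟨b, hb, hab⟩ := M.frac a
    refine ⟨b, hb, MvPolynomial.C ⟨a * b, hab⟩, ?_⟩
    rw [MvPolynomial.map_C, ← MvPolynomial.C_mul]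
    congr 1
    show a * (b : K) = b * a
    exact mul_comm _ _
  | add p q hp hq =>
    obtain ⟨D, hD, p', hp'⟩ := hp
    obtain ⟨D', hD', q', hq'⟩ := hq
    refine ⟨D * D', mul_ne_zero hD hD',
      MvPolynomial.C D' * p' + MvPolynomial.C D * q', ?_⟩
    rw [map_add, map_mul, map_mul, hp', hq', MvPolynomial.map_C, MvPolynomial.map_C]
    show MvPolynomial.C (D' : K) * (MvPolynomial.C (D : K) * p) +
      MvPolynomial.C (D : K) * (MvPolynomial.C (D' : K) * q) =
      MvPolynomial.C ((D : K) * (D' : K)) * (p + q)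
    rw [MvPolynomial.C_mul]
    ring
  | mul_X p i hp =>
    obtain ⟨D, hD, p', hp'⟩ := hp
    refine ⟨D, hD, p' * MvPolynomial.X i, ?_⟩
    rw [map_mul, hp', MvPolynomial.map_X, mul_assoc]

/-- finitely many polynomials: clear the denominators -/
private theorem H6_clears {k K : Type} [Field k] [Field K] [Algebra k K] (M : Mdl k K) {σ ι : Type}
    [Fintype ι] (p : ι → MvPolynomial σ K) : ∃ D : M.O, D ≠ 0 ∧ ∃ p' : ι → MvPolynomial σ M.O,
      ∀ i, MvPolynomial.map (M.O.subtype : M.O →+* K) (p' i) = MvPolynomial.C (D : K) * p i := by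
  classical
  have h := fun i => H6_clear M (p i)
  choose D hD p' hp' using h
  refine ⟨∏ i, D i, Finset.prod_ne_zero_iff.2 fun i _ => hD i,
    fun i => MvPolynomial.C (∏ j ∈ Finset.univ.erase i, D j) * p' i, fun i => ?_⟩
  rw [map_mul, hp', MvPolynomial.map_C, ← mul_assoc, ← MvPolynomial.C_mul]
  congr 2
  have h1 : (∏ j ∈ Finset.univ.erase i, D j) * D i = ∏ j, D j := by
    rw [mul_comm]
    exact Finset.mul_prod_erase Finset.univ D (Finset.mem_univ i)
  rw [← h1]
  rfl

theorem smooth_almost {k K : Type} [Field k] [Field K] [Algebra k K] (M : Mdl k K) {n : ℕ}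
    (F : MvPolynomial (Fin (n + 1)) M.O)
    (hs : Sm (MvPolynomial.map (M.O.subtype : M.O →+* K) F)) :
    ∃ Z : Finset k, ∀ ev : M.O →ₐ[k] k, ev M.t ∉ Z →
      Smooth (MvPolynomial.map (ev : M.O →+* k) F) := by
  obtain ⟨E, hE⟩ := hs
  have h1 : ∀ j : Fin (n + 1), ∃ c : Fin (n + 1) → MvPolynomial (Fin (n + 1)) K,
      ∑ i, c i * MvPolynomial.pderiv i (MvPolynomial.map (M.O.subtype : M.O →+* K) F) =
        (MvPolynomial.X j : MvPolynomial (Fin (n + 1)) K) ^ E := by
    intro j
    exact (Ideal.mem_span_range_iff_exists_fun).1 (hE j)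
  choose c hc using h1
  obtain ⟨D, hD, c', hc'⟩ := H6_clears M (fun ji : Fin (n + 1) × Fin (n + 1) => c ji.1 ji.2)
  have h2 : ∀ j : Fin (n + 1), MvPolynomial.C D * (MvPolynomial.X j : MvPolynomial (Fin (n + 1)) M.O) ^ E =
      ∑ i, c' (j, i) * MvPolynomial.pderiv i F := by
    intro j
    apply MvPolynomial.map_injective (M.O.subtype : M.O →+* K) Subtype.val_injective
    rw [map_mul, map_pow, MvPolynomial.map_X, MvPolynomial.map_C, map_sum]
    have h3 : ∀ i, MvPolynomial.map (M.O.subtype : M.O →+* K) (c' (j, i) * MvPolynomial.pderiv i F) =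
        MvPolynomial.C (D : K) * (c j i *
          MvPolynomial.pderiv i (MvPolynomial.map (M.O.subtype : M.O →+* K) F)) := by
      intro i
      rw [map_mul, hc', MvPolynomial.pderiv_map, mul_assoc]
    rw [Finset.sum_congr rfl fun i _ => h3 i, ← Finset.mul_sum, hc j]
    rfl
  obtain ⟨Z, hZ⟩ := M.nz D hD
  refine ⟨Z, fun ev hev x hx => ?_⟩
  have hD' := hZ ev hev
  funext j
  have h4 := congrArg (fun q => MvPolynomial.eval x (MvPolynomial.map (ev : M.O →+* k) q)) (h2 j)
  simp only [map_mul, map_pow, MvPolynomial.map_X, MvPolynomial.map_C, MvPolynomial.eval_X,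
    MvPolynomial.eval_C, map_sum] at h4
  have h5 : ∀ i, MvPolynomial.eval x (MvPolynomial.map (ev : M.O →+* k) (MvPolynomial.pderiv i F)) = 0 := by
    intro i
    rw [← MvPolynomial.pderiv_map]
    exact hx i
  have h6 : ∑ i, MvPolynomial.eval x (MvPolynomial.map (ev : M.O →+* k) (c' (j, i))) *
      MvPolynomial.eval x (MvPolynomial.map (ev : M.O →+* k) (MvPolynomial.pderiv i F)) = 0 :=
    Finset.sum_eq_zero fun i _ => by rw [h5 i, mul_zero]
  rw [h6] at h4
  rcases mul_eq_zero.1 h4 with h7 | h7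
  · exact absurd h7 hD'
  · exact eq_zero_of_pow_eq_zero h7

theorem rho_exists {k K : Type} [Field k] [Infinite k] [Field K] [Algebra k K]
    {O : Subalgebra k K} {n r : ℕ} (Fd : Fin (n + 1) → O) (h0 : ∃ a, Fd a ≠ 0)
    (ev : Fin r → (O →ₐ[k] k)) (hev : ∀ j, ∃ a, ev j (Fd a) ≠ 0) :
    ∃ ρ : O, IN Fd (ρ : K) ∧ ρ ≠ 0 ∧ ∀ j, ev j ρ ≠ 0 := by
  classical
  let L : Fin r → ((Fin (n + 1) → k) →ₗ[k] k) := fun j =>
    ∑ a, (ev j (Fd a)) • (LinearMap.proj a : (Fin (n + 1) → k) →ₗ[k] k)
  let L0 : (Fin (n + 1) → k) →ₗ[k] O :=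
    ∑ a, (LinearMap.toSpanSingleton k O (Fd a)).comp (LinearMap.proj a : (Fin (n + 1) → k) →ₗ[k] k)
  have hL : ∀ j c, L j c = ∑ a, ev j (Fd a) * c a := by
    intro j c
    show (∑ a, (ev j (Fd a)) • (LinearMap.proj a : (Fin (n + 1) → k) →ₗ[k] k)) c = _
    rw [LinearMap.sum_apply]
    rfl
  have hL0 : ∀ c, L0 c = ∑ a, c a • Fd a := by
    intro c
    show (∑ a, (LinearMap.toSpanSingleton k O (Fd a)).comp
      (LinearMap.proj a : (Fin (n + 1) → k) →ₗ[k] k)) c = _
    rw [LinearMap.sum_apply]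
    rfl
  let s : Finset (Subspace k (Fin (n + 1) → k)) :=
    insert (LinearMap.ker L0) (Finset.univ.image fun j => LinearMap.ker (L j))
  have hs : (⊤ : Subspace k (Fin (n + 1) → k)) ∉ s := by
    intro h
    rcases Finset.mem_insert.1 h with h1 | h1
    · obtain ⟨a, ha⟩ := h0
      apply ha
      have h2 : (Pi.single a (1 : k) : Fin (n + 1) → k) ∈ LinearMap.ker L0 := by
        rw [← h1]
        exact Submodule.mem_top
      rw [LinearMap.mem_ker, hL0, Finset.sum_eq_single a] at h2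
      · rw [Pi.single_eq_same, one_smul] at h2
        exact h2
      · intro b _ hb
        rw [Pi.single_eq_of_ne hb, zero_smul]
      · intro hb
        exact absurd (Finset.mem_univ a) hb
    · obtain ⟨j, -, h3⟩ := Finset.mem_image.1 h1
      obtain ⟨a, ha⟩ := hev j
      apply ha
      have h2 : (Pi.single a (1 : k) : Fin (n + 1) → k) ∈ LinearMap.ker (L j) := by
        rw [h3]
        exact Submodule.mem_top
      rw [LinearMap.mem_ker, hL, Finset.sum_eq_single a] at h2
      · rw [Pi.single_eq_same, mul_one] at h2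
        exact h2
      · intro b _ hb
        rw [Pi.single_eq_of_ne hb, mul_zero]
      · intro hb
        exact absurd (Finset.mem_univ a) hb
  have hcov := Subspace.biUnion_ne_univ_of_top_notMem hs
  obtain ⟨c, hc⟩ := (Set.ne_univ_iff_exists_notMem _).1 hcov
  have hc0 : L0 c ≠ 0 := by
    intro h
    apply hc
    rw [Set.mem_iUnion₂]
    exact ⟨LinearMap.ker L0, Finset.mem_insert_self _ _, h⟩
  have hcj : ∀ j, L j c ≠ 0 := by
    intro j h
    apply hc
    rw [Set.mem_iUnion₂]
    exact ⟨LinearMap.ker (L j), Finset.mem_insert_of_mem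
      (Finset.mem_image.2 ⟨j, Finset.mem_univ _, rfl⟩), h⟩
  refine ⟨L0 c, ⟨fun a => algebraMap k O (c a), ?_⟩, hc0, fun j => ?_⟩
  · rw [hL0]
    have h1 : ((∑ a, c a • Fd a : O) : K) = ∑ a, ((c a • Fd a : O) : K) := by
      rw [← Subalgebra.coe_val, map_sum]
    rw [h1]
    refine Finset.sum_congr rfl fun a _ => ?_
    rw [Algebra.smul_def, mul_comm]
    rfl
  · have h1 : ev j (L0 c) = L j c := by
      rw [hL0, hL, map_sum]
      refine Finset.sum_congr rfl fun a _ => ?_
      rw [map_smul, smul_eq_mul, mul_comm]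
    rw [h1]
    exact hcj j

end Q9
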