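import Pool.Agent.LibQ9.SDefs
import Pool.Agent.LibQ9.B2
import Pool.Agent.LibQ9.B3
import Pool.Agent.LibQ9.B5
import Pool.Agent.LibQ9.P8

/-!
[Q9 S0] (SHORT/MEDIUM; may cite P8 `spec`, B2, B3 as stated) First properties of `VF`; specialisation of a free curve with a nonvanishing condition.

PLAN. `dir_sub`: the coefficient of `X` in `F(γ) = 0` is `grad F (vc γ 0) (vc γ 1)` (B2 `pos_sub` and `pos_deriv`: `vc γ 1 ∈ Pos F d γ`). `vf_smul`: `grad F (c q) v = c^(n-1) grad F q v` (the partial derivatives are forms of degree `n - 1`; for `n = 0` they are `0`), so `v` is in the span of the `vc γ 1`, `γ` free through `q`; the curves `sc c γ` are free (B3 `Free.sc`),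
pass through `c q` and have directions `c • vc γ 1`, which span the same subspace. `vf_exists_free`: the kernel of the linear form `grad F q ·` on `k^(n+1)` contains some `v ≠ 0` (`n ≥ 1`), so the span of `Dir F q` is not `0`, so `Dir F q` is not empty. `spec_free`: choose for each monomial `X^j`, `j < nd`, a vector `a_j` of polynomials over `κ` of degree `< d`
with `grad F γ a_j = X^j`. Let `z` be the finite family of all coefficients of `γ` and of the `a_j` and of the element `aeval (cf d γ) Ψ`. P8 `spec` gives `φ : Algebra.adjoin k (range z) →ₐ[k] k` with `φ (aeval (cf d γ) Ψ) ≠ 0`; apply `φ` to all coefficients (same proof as B4 `free_transfer`, see Q9_B4.lean in the store if it is there). `Spz`: `φ` is a `k`-algebra map, so a polynomial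
vanishing at `cf d γ` vanishes at its image; in particular coefficients in `k` do not change.
-/

set_option autoImplicit false

namespace Q9

open Polynomial

private theorem S0_grad {k : Type} [Field k] {m : ℕ} (F : MvPolynomial (Fin m) k) {S S' : Type}
    [CommRing S] [Algebra k S] [CommRing S'] [Algebra k S'] (σ : S →ₐ[k] S') (x w : Fin m → S) :
    σ (grad F x w) = grad F (fun i => σ (x i)) (fun i => σ (w i)) := by
  unfold grad
  rw [map_sum]
  refine Finset.sum_congr rfl fun i _ => ?_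
  rw [map_mul, MvPolynomial.comp_aeval_apply]

private theorem S0_grad_sum {k : Type} [Field k] {m : ℕ} (F : MvPolynomial (Fin m) k) {S : Type}
    [CommRing S] [Algebra k S] (x : Fin m → S) {J : Type} [Fintype J] (c : J → S)
    (a : J → Fin m → S) :
    grad F x (fun i => ∑ j, c j * a j i) = ∑ j, c j * grad F x (a j) := by
  unfold grad
  simp only [Finset.mul_sum]
  rw [Finset.sum_comm]
  refine Finset.sum_congr rfl fun j _ => Finset.sum_congr rfl fun i _ => ?_
  ring

private theorem S0_sum {k : Type} [Field k] (N : ℕ) (f : k[X]) (hf : f.degree < (N : ℕ)) :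
    f = ∑ j : Fin N, C (f.coeff j) * X ^ (j : ℕ) := by
  ext m
  rw [Polynomial.finsetSum_coeff]
  simp only [coeff_C_mul, coeff_X_pow]
  by_cases hm : m < N
  · rw [Finset.sum_eq_single (⟨m, hm⟩ : Fin N)]
    · simp
    · intro b _ hb
      rw [if_neg, mul_zero]
      intro h
      exact hb (Fin.ext h.symm)
    · intro h
      exact absurd (Finset.mem_univ _) h
  · rw [coeff_eq_zero_of_degree_lt (lt_of_lt_of_le hf (by exact_mod_cast not_lt.1 hm))]
    refine (Finset.sum_eq_zero fun b _ => ?_).symm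
    rw [if_neg, mul_zero]
    intro h
    exact hm (h ▸ b.2)

private theorem S0_deg {k : Type} [Field k] (N : ℕ) {J : Type} [Fintype J] (c : J → k)
    (a : J → k[X]) (ha : ∀ j, (a j).degree < (N : ℕ)) : (∑ j, C (c j) * a j).degree < (N : ℕ) := by
  rw [← mem_degreeLT]
  refine Submodule.sum_mem _ fun j _ => ?_
  rw [← smul_eq_C_mul]
  exact Submodule.smul_mem _ _ (mem_degreeLT.2 (ha j))

private theorem S0_aeval_sum {k : Type} [Field k] {m : ℕ} {G : MvPolynomial (Fin m) k} {S : Type} [CommRing S]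
    [Algebra k S] (x : Fin m → S) : MvPolynomial.aeval x G =
      ∑ s ∈ G.support, algebraMap k S (G.coeff s) * ∏ i, x i ^ s i := by
  rw [MvPolynomial.aeval_def, MvPolynomial.eval₂_eq']

private theorem S0_hom_sum {k : Type} [Field k] {m N : ℕ} {G : MvPolynomial (Fin m) k} (hG : G.IsHomogeneous N)
    {s : Fin m →₀ ℕ} (hs : s ∈ G.support) : ∑ i, s i = N := by
  have h := hG (MvPolynomial.mem_support_iff.1 hs)
  have h2 := DFunLike.congr_fun (Finsupp.degree_eq_weight_one (R := ℕ) (σ := Fin m)) s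
  rw [Finsupp.degree_eq_sum] at h2
  exact h2.trans h

private theorem S0_aeval_sc {k : Type} [Field k] {m N : ℕ} {G : MvPolynomial (Fin m) k} (hG : G.IsHomogeneous N)
    {S : Type} [CommRing S] [Algebra k S] (x : Fin m → S) (c : S) :
    MvPolynomial.aeval (fun i => c * x i) G = c ^ N * MvPolynomial.aeval x G := by
  rw [S0_aeval_sum, S0_aeval_sum, Finset.mul_sum]
  refine Finset.sum_congr rfl fun s hs => ?_
  have h1 : ∏ i, (c * x i) ^ s i = c ^ N * ∏ i, x i ^ s i := by
    simp only [mul_pow, Finset.prod_mul_distrib]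
    rw [Finset.prod_pow_eq_pow_sum, S0_hom_sum hG hs]
  rw [h1]
  ring

private theorem S0_lift {k : Type} [Field k] [IsAlgClosed k] {κ : Type} [Field κ] [Algebra k κ]
    {J : Type} [Finite J] (P : J → κ[X]) (e : κ) (he : e ≠ 0) :
    ∃ (B : Subalgebra k κ) (φ : B →ₐ[k] k) (P' : J → B[X]),
      (∀ j, mapAlgHom B.val (P' j) = P j) ∧ ∀ e' : B, B.val e' = e → φ e' ≠ 0 := by
  classical
  obtain ⟨N, hN⟩ : ∃ N : ℕ, ∀ j, (P j).natDegree < N := by
    obtain ⟨N, hN⟩ := (Set.finite_range (fun j => (P j).natDegree)).bddAbove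
    exact ⟨N + 1, fun j => Nat.lt_succ_of_le (hN ⟨j, rfl⟩)⟩
  let z : (J × Fin N) ⊕ Unit → κ := Sum.elim (fun a => (P a.1).coeff a.2) (fun _ => e)
  obtain ⟨φ, hφ⟩ := spec (k := k) z
  have h : ∀ j m, (P j).coeff m ∈ Algebra.adjoin k (Set.range z) := by
    intro j m
    by_cases hm : m < N
    · exact Algebra.subset_adjoin ⟨Sum.inl (j, ⟨m, hm⟩), rfl⟩
    · rw [coeff_eq_zero_of_natDegree_lt (lt_of_lt_of_le (hN j) (not_lt.1 hm))]
      exact Subalgebra.zero_mem _
  have h2 : ∀ j, ∃ p : (Algebra.adjoin k (Set.range z))[X],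
      mapAlgHom (Algebra.adjoin k (Set.range z)).val p = P j := by
    intro j
    have h3 : P j ∈ Polynomial.lifts ((Algebra.adjoin k (Set.range z)).val :
        (Algebra.adjoin k (Set.range z)) →+* κ) := by
      rw [Polynomial.lifts_iff_coeff_lifts]
      intro m
      exact ⟨⟨_, h j m⟩, rfl⟩
    obtain ⟨p, hp⟩ := (Polynomial.mem_lifts _).1 h3
    exact ⟨p, hp⟩
  choose P' hP' using h2
  refine ⟨_, φ, P', hP', fun e' he' => ?_⟩
  have h4 := hφ (Sum.inr ()) he
  have h5 : e' = ⟨z (Sum.inr ()), Algebra.subset_adjoin (Set.mem_range_self (Sum.inr ()))⟩ :=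
    Subtype.ext he'
  rw [h5]
  exact h4

theorem dir_sub {k : Type} [Field k] {n : ℕ} (F : MvPolynomial (Fin (n + 1)) k)
    (q w : Fin (n + 1) → k) (h : w ∈ Dir F q) : grad F q w = 0 := by
  obtain ⟨d, γ, hγ, rfl, rfl⟩ := h
  exact pos_sub F _ (pos_deriv F hγ.1 hγ.2.1)

theorem vf_smul {k : Type} [Field k] {n : ℕ} (F : MvPolynomial (Fin (n + 1)) k)
    (hF : F.IsHomogeneous n) (q : Fin (n + 1) → k) (h : VF F q) (c : k) (hc : c ≠ 0) :
    VF F (c • q) := by
  intro v hv
  have h1 : grad F (c • q) v = c ^ (n - 1) * grad F q v := by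
    unfold grad
    rw [Finset.mul_sum]
    refine Finset.sum_congr rfl fun i _ => ?_
    have h2 := S0_aeval_sc (hF.pderiv (i := i)) q c
    have h3 : (c • q : Fin (n + 1) → k) = fun i => c * q i := rfl
    rw [h3, h2, mul_assoc]
  rw [h1] at hv
  have hv2 : grad F q v = 0 := by
    rcases mul_eq_zero.1 hv with h2 | h2
    · exact absurd h2 (pow_ne_zero _ hc)
    · exact h2
  have h4 : Submodule.span k (Dir F q) ≤ Submodule.span k (Dir F (c • q)) := by
    rw [Submodule.span_le]
    rintro w ⟨d, γ, hγ, h0, hw⟩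
    have h5 : c • w ∈ Dir F (c • q) := by
      refine ⟨d, sc c γ, hγ.sc F hF c hc, ?_, ?_⟩
      · funext i
        rw [← h0]
        simp [sc, vc]
      · funext i
        rw [← hw]
        simp [sc, vc]
    have h6 : w = c⁻¹ • (c • w) := by
      rw [smul_smul, inv_mul_cancel₀ hc, one_smul]
    rw [h6]
    exact Submodule.smul_mem _ _ (Submodule.subset_span h5)
  exact h4 (h v hv2)

theorem vf_exists_free {k : Type} [Field k] {n : ℕ} (hn : 2 ≤ n) (F : MvPolynomial (Fin (n + 1)) k)
    (q : Fin (n + 1) → k) (h : VF F q) :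
    ∃ (d : ℕ) (γ : Fin (n + 1) → k[X]), Free F d γ ∧ vc γ 0 = q := by
  let L : (Fin (n + 1) → k) →ₗ[k] k :=
    ∑ i, (MvPolynomial.aeval q (MvPolynomial.pderiv i F)) • LinearMap.proj i
  have hL : ∀ v, L v = grad F q v := by
    intro v
    simp [L, grad, LinearMap.sum_apply]
  have h1 : LinearMap.ker L ≠ ⊥ := by
    refine LinearMap.ker_ne_bot_of_finrank_lt ?_
    rw [Module.finrank_self, Module.finrank_fintype_fun_eq_card, Fintype.card_fin]
    omega
  obtain ⟨v, hv, hv0⟩ := (Submodule.ne_bot_iff _).1 h1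
  have h2 : grad F q v = 0 := by
    rw [← hL]
    exact hv
  have h3 := h v h2
  by_contra h4
  have h5 : Dir F q = ∅ := by
    rw [Set.eq_empty_iff_forall_notMem]
    rintro w ⟨d, γ, hγ, h0, -⟩
    exact h4 ⟨d, γ, hγ, h0⟩
  rw [h5, Submodule.span_empty] at h3
  exact hv0 ((Submodule.mem_bot k).1 h3)

theorem spec_free {k : Type} [Field k] [IsAlgClosed k] {n : ℕ} (F : MvPolynomial (Fin (n + 1)) k)
    {κ : Type} [Field κ] [Algebra k κ] (d : ℕ) (γ : Fin (n + 1) → κ[X]) (h : Free F d γ)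
    (Ψ : MvPolynomial (Fin (n + 1) × Fin (d + 1)) k) (hΨ : MvPolynomial.aeval (cf d γ) Ψ ≠ 0) :
    ∃ γ' : Fin (n + 1) → k[X], Free F d γ' ∧ Spz (cf d γ) (cf d γ') ∧
      MvPolynomial.eval (cf d γ') Ψ ≠ 0 := by
  classical
  obtain ⟨hd, ⟨hγd, hγF⟩, hfree⟩ := h
  have hXdeg : ∀ (N : ℕ) (j : Fin N), (X ^ (j : ℕ) : κ[X]).degree < (N : ℕ) := by
    intro N j
    rw [degree_X_pow]
    exact_mod_cast j.2
  choose a ha haX using fun j : Fin (n * d) => hfree (X ^ (j : ℕ)) (hXdeg (n * d) j)
  let J : Type := Fin (n + 1) ⊕ (Fin (n * d) × Fin (n + 1))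
  let P : J → κ[X] := Sum.elim γ (fun x => a x.1 x.2)
  obtain ⟨B, φ, P', hP', hφ⟩ := S0_lift (k := k) P _ hΨ
  have hval : Function.Injective (B.val : B →+* κ) := Subtype.val_injective
  have hinj : Function.Injective (mapAlgHom B.val : B[X] →ₐ[k] κ[X]) :=
    Polynomial.map_injective _ hval
  let Q : J → k[X] := fun j => mapAlgHom φ (P' j)
  have hdegP : ∀ j, (P' j).degree = (P j).degree := by
    intro j
    rw [← hP' j]
    exact (Polynomial.degree_map_eq_of_injective hval _).symm
  have hdeg : ∀ j, (Q j).degree ≤ (P j).degree := by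
    intro j
    rw [← hdegP j]
    exact Polynomial.degree_map_le
  have hψX : ∀ m : ℕ, mapAlgHom B.val (X ^ m : B[X]) = X ^ m := by
    intro m
    rw [map_pow]
    congr 1
    exact Polynomial.map_X _
  have hχX : ∀ m : ℕ, mapAlgHom φ (X ^ m : B[X]) = X ^ m := by
    intro m
    rw [map_pow]
    congr 1
    exact Polynomial.map_X _
  let iγ : Fin (n + 1) → J := fun i => Sum.inl i
  let ia : Fin (n * d) → Fin (n + 1) → J := fun j i => Sum.inr (j, i)
  have e0 : MvPolynomial.aeval (fun i => P' (iγ i)) F = 0 := by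
    apply hinj
    rw [MvPolynomial.comp_aeval_apply, map_zero]
    have h1 : (fun i => mapAlgHom B.val (P' (iγ i))) = γ := funext fun i => hP' (iγ i)
    rw [h1, hγF]
  have e1 : ∀ j : Fin (n * d), grad F (fun i => P' (iγ i)) (fun i => P' (ia j i)) = X ^ (j : ℕ) := by
    intro j
    apply hinj
    rw [S0_grad, hψX]
    have h1 : (fun i => mapAlgHom B.val (P' (iγ i))) = γ := funext fun i => hP' (iγ i)
    have h2 : (fun i => mapAlgHom B.val (P' (ia j i))) = a j := funext fun i => hP' (ia j i)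
    rw [h1, h2, haX]
  have f1 : ∀ j : Fin (n * d), grad F (fun i => Q (iγ i)) (fun i => Q (ia j i)) = X ^ (j : ℕ) := by
    intro j
    have h1 := congrArg (mapAlgHom φ) (e1 j)
    rwa [S0_grad, hχX] at h1
  let zB : Fin (n + 1) × Fin (d + 1) → B := fun x => (P' (iγ x.1)).coeff x.2
  have hz1 : (fun x => B.val (zB x)) = cf d γ := by
    funext x
    have h2 : (mapAlgHom B.val (P' (iγ x.1))).coeff x.2 = B.val ((P' (iγ x.1)).coeff x.2) :=
      Polynomial.coeff_map _ _
    rw [hP' (iγ x.1)] at h2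
    exact h2.symm
  have hz2 : (fun x => φ (zB x)) = cf d (fun i => Q (iγ i)) := by
    funext x
    have h2 : (Q (iγ x.1)).coeff x.2 = φ ((P' (iγ x.1)).coeff x.2) := Polynomial.coeff_map _ _
    exact h2.symm
  have hB : ∀ Θ : MvPolynomial (Fin (n + 1) × Fin (d + 1)) k,
      B.val (MvPolynomial.aeval zB Θ) = MvPolynomial.aeval (cf d γ) Θ ∧
      φ (MvPolynomial.aeval zB Θ) = MvPolynomial.eval (cf d (fun i => Q (iγ i))) Θ := by
    intro Θ
    constructor
    · rw [MvPolynomial.comp_aeval_apply, hz1]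
    · rw [MvPolynomial.comp_aeval_apply, hz2, MvPolynomial.aeval_eq_eval]
  refine ⟨fun i => Q (iγ i), ⟨hd, ⟨fun i => ?_, ?_⟩, fun f hf => ?_⟩, fun Θ hΘ => ?_, ?_⟩
  · refine Polynomial.natDegree_le_iff_degree_le.2 ?_
    exact (hdeg (iγ i)).trans (Polynomial.natDegree_le_iff_degree_le.1 (hγd i))
  · have h1 := congrArg (mapAlgHom φ) e0
    rwa [MvPolynomial.comp_aeval_apply, map_zero] at h1
  · refine ⟨fun i => ∑ j : Fin (n * d), C (f.coeff j) * Q (ia j i), fun i => ?_, ?_⟩
    · exact S0_deg d (fun j : Fin (n * d) => f.coeff j) (fun j => Q (ia j i))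
        (fun j => lt_of_le_of_lt (hdeg (ia j i)) (ha j i))
    · rw [S0_grad_sum]
      conv_rhs => rw [S0_sum (n * d) f hf]
      refine Finset.sum_congr rfl fun j _ => ?_
      rw [f1]
  · obtain ⟨h1, h2⟩ := hB Θ
    rw [hΘ] at h1
    have h3 : MvPolynomial.aeval zB Θ = 0 := Subtype.val_injective (by simpa using h1)
    rw [← h2, h3, map_zero]
  · obtain ⟨h1, h2⟩ := hB Ψ
    rw [← h2]
    exact hφ _ h1

end Q9
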