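import Pool.Agent.LibQ9.TDefs
import Pool.Agent.LibUniqPt67.Defs

/-!
# LibQ9, block S: definitions
-/

set_option autoImplicit false

namespace Q9

open Polynomial

section

variable {k : Type} [Field k] {n : ℕ} (F : MvPolynomial (Fin (n + 1)) k)

/-- the directions at `0` of the free curves over `k` with value `q` at `0` -/
def Dir (q : Fin (n + 1) → k) : Set (Fin (n + 1) → k) :=
  {w | ∃ (d : ℕ) (γ : Fin (n + 1) → k[X]), Free F d γ ∧ vc γ 0 = q ∧ vc γ 1 = w}

/-- every tangent vector at `q` of the cone over `F = 0` is a combination of directions at `0` of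
free curves with value `q` at `0` -/
def VF (q : Fin (n + 1) → k) : Prop :=
  ∀ v : Fin (n + 1) → k, grad F q v = 0 → v ∈ Submodule.span k (Dir F q)

end

/-- the value of a vector of polynomials -/
noncomputable def ve {n : ℕ} {κ : Type} [Field κ] (γ : Fin (n + 1) → κ[X]) (b : κ) :
    Fin (n + 1) → κ := fun i => (γ i).eval b

/-- the family of all coefficients of finitely many curves -/
def jc {n m : ℕ} (d : Fin m → ℕ) {κ : Type} [Field κ] (γ : Fin m → Fin (n + 1) → κ[X])
    (a : Σ i : Fin m, Fin (n + 1) × Fin (d i + 1)) : κ := (γ a.1 a.2.1).coeff a.2.2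

end Q9
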