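import Pool.Agent.LibQ9.H5
import Pool.Agent.LibQ9.H6
import Pool.Agent.LibQ9.H10
import Pool.Agent.LibQ9.SDefs
import Pool.Agent.LibQ9.S0

/-!
[Q9 H10c] (SHORT/MEDIUM; may cite H5, H6, H10 as stated) A batch of free teeth with `Spn`, outside a given finite set.

PLAN. Enlarge `Z` so that for `ev t ∉ Z` also `ev ρ ≠ 0` (`M.nz ρ`) and `hVF` applies. `D ev = {σ | ∃ w ∈ Dir (map ev F) (ev ∘ P), σ = (ev ρ)⁻¹ • w}`. `hD`: tangent vectors `v` with `Σ ev (gd F P a) v a = 0`: `ev (gd F P a) = eval (ev ∘ P) (pderiv a (map ev F))` (`MvPolynomial.pderiv_map`, `eval_map`, `eval₂_comp`), so this is `grad (map ev F) (ev ∘ P) v = 0` and `VF` gives `v ∈ span (Dir ..)`, and the span of `(ev ρ)⁻¹ • Dir` is the same. H5 `batch_spn`; every `σ i` comes from a free curve `γ i` with `vc (γ i) 0 = ev i ∘ P`: H10 `free_tooth`.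
-/

set_option autoImplicit false

namespace Q9

open Polynomial

private theorem H10c_ev {k K : Type} [Field k] [Field K] [Algebra k K] {O : Subalgebra k K} {n : ℕ}
    (ev : O →ₐ[k] k) (P : Fin (n + 1) → O) (g : MvPolynomial (Fin (n + 1)) O) :
    MvPolynomial.aeval (fun a => ev (P a)) (MvPolynomial.map (ev : O →+* k) g) =
      ev (MvPolynomial.eval P g) := by
  induction g using MvPolynomial.induction_on with
  | C a => simp
  | add f g hf hg => simp only [map_add, hf, hg]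
  | mul_X f i hf => simp only [map_mul, hf, MvPolynomial.map_X, MvPolynomial.aeval_X,
      MvPolynomial.eval_X]

theorem batch_teeth {k K : Type} [Field k] [Infinite k] [Field K] [Algebra k K] (M : Mdl k K)
    {n : ℕ} (F : MvPolynomial (Fin (n + 1)) M.O) (P : Fin (n + 1) → M.O) (ρ : M.O)
    (hρ : IN (gd F P) (ρ : K)) (hρ0 : ρ ≠ 0) (B : ℕ) (Z₀ : Finset k)
    (hVF : ∀ ev : M.O →ₐ[k] k, ev M.t ∉ Z₀ →
      VF (MvPolynomial.map (ev : M.O →+* k) F) (fun a => ev (P a))) (Z : Finset k) :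
    ∃ (m : ℕ) (T : Fin m → Tth M.O F P ρ), Function.Injective (fun i => (T i).ev) ∧
      (∀ i, (T i).ev M.t ∉ Z) ∧ (∀ i, (T i).N = 0) ∧
      Spn M (gd F P) B (fun i => (T i).π) (fun i => (T i).dir) Finset.univ := by
  classical
  obtain ⟨Z₁, hZ₁⟩ := M.nz ρ hρ0
  have hD : ∀ ev : M.O →ₐ[k] k, ev M.t ∉ Z ∪ Z₀ ∪ Z₁ → ∀ v : Fin (n + 1) → k,
      ∑ a, ev (gd F P a) * v a = 0 → v ∈ Submodule.span k {σ : Fin (n + 1) → k |
        ∃ w ∈ Dir (MvPolynomial.map (ev : M.O →+* k) F) (fun a => ev (P a)),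
          σ = (ev ρ)⁻¹ • w} := by
    intro ev hev v hv
    simp only [Finset.mem_union, not_or] at hev
    have hρ1 := hZ₁ ev hev.2
    have hg : grad (MvPolynomial.map (ev : M.O →+* k) F) (fun a => ev (P a)) v = 0 := by
      rw [← hv]
      unfold grad
      refine Finset.sum_congr rfl fun a _ => ?_
      rw [MvPolynomial.pderiv_map, H10c_ev]
      rfl
    have h1 := hVF ev hev.1.2 v hg
    refine Submodule.span_le.mpr ?_ h1
    intro w hw
    have h2 : w = ev ρ • ((ev ρ)⁻¹ • w) := by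
      rw [smul_smul, mul_inv_cancel₀ hρ1, one_smul]
    rw [h2]
    exact Submodule.smul_mem _ _ (Submodule.subset_span ⟨w, hw, rfl⟩)
  have hDT : ∀ ev : M.O →ₐ[k] k, ev M.t ∉ Z ∪ Z₀ ∪ Z₁ → ∀ v ∈ {σ : Fin (n + 1) → k |
        ∃ w ∈ Dir (MvPolynomial.map (ev : M.O →+* k) F) (fun a => ev (P a)),
          σ = (ev ρ)⁻¹ • w}, ∑ a, ev (gd F P a) * v a = 0 := by
    rintro ev - v ⟨w, hw, rfl⟩
    have h1 := dir_sub _ _ w hw
    unfold grad at h1
    have h2 : ∑ a, ev (gd F P a) * ((ev ρ)⁻¹ • w) a = (ev ρ)⁻¹ * ∑ a,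
        MvPolynomial.aeval (fun a => ev (P a)) (MvPolynomial.pderiv a
          (MvPolynomial.map (ev : M.O →+* k) F)) * w a := by
      rw [Finset.mul_sum]
      refine Finset.sum_congr rfl fun a _ => ?_
      rw [MvPolynomial.pderiv_map, H10c_ev, Pi.smul_apply, smul_eq_mul]
      change ev (gd F P a) * ((ev ρ)⁻¹ * w a) = (ev ρ)⁻¹ * (ev (gd F P a) * w a)
      ring
    rw [h2, h1, mul_zero]
  obtain ⟨m, ev, π, σ, h1, h2, h3, h4, h5⟩ := batch_spn M (gd F P) ρ hρ hρ0 B (Z ∪ Z₀ ∪ Z₁)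
    (fun ev => {σ : Fin (n + 1) → k |
        ∃ w ∈ Dir (MvPolynomial.map (ev : M.O →+* k) F) (fun a => ev (P a)),
          σ = (ev ρ)⁻¹ • w}) hD hDT
  have h6 : ∀ i, ∃ T : Tth M.O F P ρ, T.ev = ev i ∧ T.π = π i ∧ T.N = 0 ∧ T.dir = σ i := by
    intro i
    obtain ⟨w, ⟨d, γ, hγ, hγ0, hγ1⟩, hw⟩ := h4 i
    have hi := h2 i
    simp only [Finset.mem_union, not_or] at hi
    obtain ⟨T, hT1, hT2, hT3, hT4⟩ := free_tooth F P ρ (ev i) (π i) (h3 i) (hZ₁ (ev i) hi.2) d γ hγ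
      (fun a => congrFun hγ0 a)
    refine ⟨T, hT1, hT2, hT3, ?_⟩
    funext a
    rw [hT4, hw, Pi.smul_apply, smul_eq_mul, ← hγ1]
    rfl
  choose T hT1 hT2 hT3 hT4 using h6
  refine ⟨m, T, ?_, fun i => ?_, hT3, ?_⟩
  · have : (fun i => (T i).ev) = ev := funext hT1
    rw [this]
    exact h1
  · rw [hT1]
    have hi := h2 i
    simp only [Finset.mem_union, not_or] at hi
    exact hi.1.1
  · have e1 : (fun i => (T i).π) = π := funext hT2
    have e2 : (fun i => (T i).dir) = σ := funext hT4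
    rw [e1, e2]
    exact h5

end Q9
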