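import Pool.Agent.LibQ9.H0b

/-!
[Q9 H12] (MEDIUM; may cite H0a, H0b as stated) A common multiplier; normalisation of a point.

PLAN. `multiplier`. By `M.frac` there is `D ∈ O`, `D ≠ 0`, with `g j = u j / D`, `u j ∈ O`, `u j ≠ 0` (product of the denominators of the `g j`). `M.val` for `u j` at `ev j`: `u j * π^i * b = a * π^l` with `ev a ≠ 0 ≠ ev b`: so `u j = (a/b) π^(l - i)` and `(u j)⁻¹ = (b/a) π^(i) π^(-l)`; with `E ≥ i` for all `j`: if `c ≡ u j mod m_j^(N + E)` (H0b `crt`), then `c / u j - 1 = (c - u j)/u j = r π^(-(N+E)) (b/a) π^i π^(-l)` is `r' π^(-N)` with `r'` regular (`rg_inv_pole`): `Cg N (c / u j) 1`; `c ≠ 0`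
(if `r ≥ 1`; `Cg N (0 / u) 1` is impossible for `N ≥ 1`: take `N + 1` instead of `N`; if `r = 0` take `c = 1`). `G = c / D`: `G x_a = (c / u j) (g j x_a)`, `Cg N (G x_a) (y j a)` (`hcg_mul`). The `G x_a` are regular at all `ev j` (`hcg_rg`): H0b `clear` gives `c'` with `c' ≡ 1 mod m_j^N` and `c' G x_a ∈ O`; the multiplier is `c' G`.
`normalize`: for each `j` let `a₀` be an index with `P a₀ ≠ 0` of minimal order: by `M.val` every `P a ≠ 0` is `(unit) π^(z_a)`, `z_a ∈ ℤ`; choose the largest `z_a` (order `-z_a` minimal). `g j = (P a₀)⁻¹`: `g j P a` is regular, `g j P a₀ = 1`. By `exists_val_rg` there is `v : Fin (n+1) → k`, `Cg 1 (g j P a) (v a)`, `v a₀ ≠ 0` (as `Cg 1 1 (v a₀)` gives `v a₀ = 1`, `hcg_one_iff`). `multiplier` with `N = 1`, `y j a = algebraMap (v a)`: `x' a = c P a ∈ O`, `ev j (x' a) = v a` (`hcg_one_iff`, `ev j (algebraMap ..) = ..`).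
-/

set_option autoImplicit false

namespace Q9

open Polynomial

/-- approximation of the inverse -/
private theorem H12_inv {k K : Type} [Field k] [Field K] [Algebra k K] (M : Mdl k K) (ev : M.O →ₐ[k] k)
    (π : K) (hπ : Pole M.O ev π) (u : M.O) (hu : (u : K) ≠ 0) :
    ∃ E₀ : ℕ, ∀ (N E : ℕ), E₀ ≤ E → ∀ c : K, Cg M.O ev π (N + E) c (u : K) →
      Cg M.O ev π N (c * (u : K)⁻¹) 1 := by
  obtain ⟨a, b, i, l, ha, hb, hab⟩ := M.val ev π hπ u hu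
  have hπ0 := hpole_ne hπ
  have ha0 : (a : K) ≠ 0 := fun h => ha (by rw [show a = 0 from Subtype.ext h, map_zero])
  have hb0 : (b : K) ≠ 0 := fun h => hb (by rw [show b = 0 from Subtype.ext h, map_zero])
  refine ⟨i, fun N E hE c hc => ?_⟩
  rw [hcg_iff] at hc ⊢
  obtain ⟨r, hr, hcr⟩ := hc
  refine ⟨r * (b * (a : K)⁻¹) * π⁻¹ ^ (l + (E - i)), ?_, ?_⟩
  · exact rg_mul (rg_mul hr (rg_mul (rg_of_mem b) (rg_inv a ha))) (rg_pow (rg_inv_pole hπ) _)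
  · obtain ⟨e, rfl⟩ : ∃ e, E = i + e := ⟨E - i, by omega⟩
    rw [Nat.add_sub_cancel_left]
    have hui : (u : K)⁻¹ = π ^ i * b * (a : K)⁻¹ * π⁻¹ ^ l := by
      symm
      apply eq_inv_of_mul_eq_one_left
      have h1 : π ^ i * ↑b * (↑a : K)⁻¹ * π⁻¹ ^ l * ↑u = (↑u * π ^ i * ↑b) * (↑a : K)⁻¹ * π⁻¹ ^ l := by ring
      rw [h1, hab, inv_pow]
      field_simp
    have h2 : c * (u : K)⁻¹ - 1 = (c - u) * (u : K)⁻¹ := by
      rw [sub_mul, mul_inv_cancel₀ hu]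
    rw [h2, hcr, hui]
    have h3 : π⁻¹ ^ (N + (i + e)) * π ^ i = π⁻¹ ^ N * π⁻¹ ^ e := by
      rw [pow_add, pow_add, inv_pow π i]
      field_simp
    calc r * π⁻¹ ^ (N + (i + e)) * (π ^ i * ↑b * (↑a : K)⁻¹ * π⁻¹ ^ l)
        = r * (b * (a : K)⁻¹) * π⁻¹ ^ l * (π⁻¹ ^ (N + (i + e)) * π ^ i) := by ring
      _ = r * (b * (a : K)⁻¹) * π⁻¹ ^ (l + e) * π⁻¹ ^ N := by rw [h3, pow_add]; ring

theorem multiplier {k K : Type} [Field k] [Field K] [Algebra k K] (M : Mdl k K) {n r : ℕ}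
    (ev : Fin r → (M.O →ₐ[k] k)) (hev : Function.Injective ev) (π : Fin r → K)
    (hπ : ∀ j, Pole M.O (ev j) (π j)) (N : ℕ) (g : Fin r → K) (hg : ∀ j, g j ≠ 0)
    (x : Fin (n + 1) → K) (y : Fin r → Fin (n + 1) → K) (hy : ∀ j a, Rg M.O (ev j) (y j a))
    (h : ∀ j a, Cg M.O (ev j) (π j) N (g j * x a) (y j a)) :
    ∃ (c : K) (x' : Fin (n + 1) → M.O), c ≠ 0 ∧ (∀ a, (x' a : K) = c * x a) ∧
      ∀ j a, Cg M.O (ev j) (π j) N (x' a : K) (y j a) := by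
  classical
  -- common denominator
  have hfr : ∀ j, ∃ b : M.O, b ≠ 0 ∧ g j * b ∈ M.O := fun j => M.frac (g j)
  choose b hb0 hb using hfr
  let D : M.O := ∏ j, b j
  have hcoe : ∀ s : Finset (Fin r), ((∏ j ∈ s, b j : M.O) : K) = ∏ j ∈ s, (b j : K) := fun s =>
    map_prod M.O.subtype _ _
  have hD0 : (D : K) ≠ 0 := by
    rw [hcoe]
    exact Finset.prod_ne_zero_iff.2 fun j _ h => hb0 j (Subtype.ext h)
  have huO : ∀ j, g j * (D : K) ∈ M.O := by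
    intro j
    have h1 : (D : K) = (b j : K) * ((∏ i ∈ Finset.univ.erase j, b i : M.O) : K) := by
      rw [hcoe, hcoe, Finset.mul_prod_erase _ (fun i => (b i : K)) (Finset.mem_univ j)]
    rw [h1, ← mul_assoc]
    exact mul_mem (hb j) (Subtype.property _)
  let u : Fin r → M.O := fun j => ⟨g j * (D : K), huO j⟩
  have hu0 : ∀ j, (u j : K) ≠ 0 := fun j => mul_ne_zero (hg j) hD0
  -- approximation
  have hE : ∀ j, ∃ E₀ : ℕ, ∀ (N E : ℕ), E₀ ≤ E → ∀ c : K, Cg M.O (ev j) (π j) (N + E) c (u j : K) →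
      Cg M.O (ev j) (π j) N (c * (u j : K)⁻¹) 1 := fun j => H12_inv M (ev j) (π j) (hπ j) (u j) (hu0 j)
  choose E₀ hE₀ using hE
  have key : ∃ c : K, c ≠ 0 ∧ ∀ j, Cg M.O (ev j) (π j) N (c * (u j : K)⁻¹) 1 := by
    obtain ⟨c, hc⟩ := crt ev hev π hπ (N + 1 + Finset.univ.sup E₀) u
    have hc1 : ∀ j, Cg M.O (ev j) (π j) (N + 1) (c * (u j : K)⁻¹) 1 := fun j =>
      hE₀ j (N + 1) _ (Finset.le_sup (Finset.mem_univ j)) c (hc j)
    by_cases hc0 : (c : K) = 0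
    · have hr : IsEmpty (Fin r) := by
        constructor
        intro j
        have h1 := hcg_mono (hπ j) (show 1 ≤ N + 1 by omega) (hc1 j)
        rw [hc0, zero_mul] at h1
        have h2 := (hcg_one_iff (hπ j) (0 : M.O) (1 : M.O)).1 h1
        rw [map_zero, map_one] at h2
        exact zero_ne_one h2
      exact ⟨1, one_ne_zero, fun j => hr.elim j⟩
    · exact ⟨c, hc0, fun j => hcg_mono (hπ j) (by omega) (hc1 j)⟩
  obtain ⟨c, hc0, hc⟩ := key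
  have hG : ∀ j a, Cg M.O (ev j) (π j) N (c * (D : K)⁻¹ * x a) (y j a) := by
    intro j a
    have h1 := hcg_mul (hπ j) (by simpa using rg_of_mem (ev := ev j) (1 : M.O)) (hy j a) (hc j) (h j a)
    rw [one_mul] at h1
    have h2 : c * (u j : K)⁻¹ * (g j * x a) = c * (D : K)⁻¹ * x a := by
      show c * (g j * (D : K))⁻¹ * (g j * x a) = _
      rw [mul_inv]
      have := hg j
      field_simp
    rwa [h2] at h1
  obtain ⟨c', hc'0, hc'1, hc'2⟩ := clear ev hev π hπ N (fun a => c * (D : K)⁻¹ * x a)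
    (fun j a => hcg_rg (hπ j) (hG j a) (hy j a)) (fun a => M.frac _)
  refine ⟨c' * (c * (D : K)⁻¹), fun a => ⟨(c' : K) * (c * (D : K)⁻¹ * x a), hc'2 a⟩, ?_, fun a => ?_,
    fun j a => ?_⟩
  · refine mul_ne_zero (fun h => hc'0 (Subtype.ext h)) (mul_ne_zero hc0 (inv_ne_zero hD0))
  · show (c' : K) * (c * (D : K)⁻¹ * x a) = _
    ring
  · have h1 := hcg_mul (hπ j) (by simpa using rg_of_mem (ev := ev j) (1 : M.O)) (hy j a) (hc'1 j) (hG j a)
    rwa [one_mul] at h1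

/-- multiplication by a function which makes the coordinates regular with one of them `1` -/
private theorem H12_norm {k K : Type} [Field k] [Field K] [Algebra k K] (M : Mdl k K) {n : ℕ}
    (ev : M.O →ₐ[k] k) (π : K) (hπ : Pole M.O ev π) (P : Fin (n + 1) → M.O) (hP : P ≠ 0) :
    ∃ (g : K) (a₀ : Fin (n + 1)), g ≠ 0 ∧ (∀ a, Rg M.O ev (g * P a)) ∧ g * P a₀ = 1 := by
  classical
  have hπ0 := hpole_ne hπ
  have hval : ∀ a, ∃ (A B : M.O) (i l : ℕ), ev A ≠ 0 ∧ ev B ≠ 0 ∧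
      ((P a : K) ≠ 0 → (P a : K) * π ^ i * B = A * π ^ l) := by
    intro a
    by_cases h : (P a : K) = 0
    · exact ⟨1, 1, 0, 0, by rw [map_one]; exact one_ne_zero, by rw [map_one]; exact one_ne_zero,
        fun h' => absurd h h'⟩
    · obtain ⟨A, B, i, l, h1, h2, h3⟩ := M.val ev π hπ (P a) h
      exact ⟨A, B, i, l, h1, h2, fun _ => h3⟩
  choose A B i l hA hB hAB using hval
  have hA0 : ∀ a, (A a : K) ≠ 0 := fun a h => hA a (by rw [show A a = 0 from Subtype.ext h, map_zero])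
  have hB0 : ∀ a, (B a : K) ≠ 0 := fun a h => hB a (by rw [show B a = 0 from Subtype.ext h, map_zero])
  obtain ⟨a₁, ha₁⟩ : ∃ a, P a ≠ 0 := Function.ne_iff.1 hP
  obtain ⟨a₀, ha₀, hmax⟩ := Finset.exists_max_image (Finset.univ.filter fun a => (P a : K) ≠ 0)
    (fun a => (l a : ℤ) - i a)
    ⟨a₁, Finset.mem_filter.2 ⟨Finset.mem_univ _, fun h => ha₁ (Subtype.ext h)⟩⟩
  have hP0 : (P a₀ : K) ≠ 0 := (Finset.mem_filter.1 ha₀).2
  refine ⟨(P a₀ : K)⁻¹, a₀, inv_ne_zero hP0, fun a => ?_, inv_mul_cancel₀ hP0⟩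
  by_cases hPa : (P a : K) = 0
  · rw [hPa, mul_zero]
    simpa using rg_of_mem (ev := ev) (0 : M.O)
  · have hle : l a + i a₀ ≤ i a + l a₀ := by
      have := hmax a (Finset.mem_filter.2 ⟨Finset.mem_univ _, hPa⟩)
      omega
    obtain ⟨m, hm⟩ := Nat.exists_eq_add_of_le hle
    have e1 := hAB a hPa
    have e2 := hAB a₀ hP0
    have e3 : (P a₀ : K)⁻¹ * P a = (A a : K) * (B a : K)⁻¹ * (B a₀ * (A a₀ : K)⁻¹) * π⁻¹ ^ m := by
      have q1 : (P a : K) = A a * π ^ l a * (B a : K)⁻¹ * (π ^ i a)⁻¹ := by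
        rw [← e1]
        have := hB0 a
        field_simp
      have q2 : (P a₀ : K)⁻¹ = π ^ i a₀ * B a₀ * (A a₀ : K)⁻¹ * (π ^ l a₀)⁻¹ := by
        symm
        apply eq_inv_of_mul_eq_one_left
        have h1 : π ^ i a₀ * ↑(B a₀) * (↑(A a₀) : K)⁻¹ * (π ^ l a₀)⁻¹ * ↑(P a₀) =
          (↑(P a₀) * π ^ i a₀ * ↑(B a₀)) * (↑(A a₀) : K)⁻¹ * (π ^ l a₀)⁻¹ := by ring
        rw [h1, e2]
        have := hA0 a₀
        field_simp
      rw [q1, q2]
      have q3 : π ^ i a₀ * (π ^ l a₀)⁻¹ * (π ^ l a * (π ^ i a)⁻¹) = π⁻¹ ^ m := by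
        have q4 : π ^ (i a + l a₀) = π ^ (l a + i a₀) * π ^ m := by rw [hm, pow_add]
        rw [pow_add, pow_add] at q4
        rw [inv_pow, eq_comm, ← one_div, div_eq_iff (pow_ne_zero _ hπ0)]
        field_simp
        linear_combination q4
      rw [← q3]
      ring
    rw [e3]
    exact rg_mul (rg_mul (rg_mul (rg_of_mem _) (rg_inv _ (hB a))) (rg_mul (rg_of_mem _) (rg_inv _ (hA a₀))))
      (rg_pow (rg_inv_pole hπ) _)

theorem normalize {k K : Type} [Field k] [Field K] [Algebra k K] (M : Mdl k K) {n r : ℕ}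
    (ev : Fin r → (M.O →ₐ[k] k)) (hev : Function.Injective ev) (π : Fin r → K)
    (hπ : ∀ j, Pole M.O (ev j) (π j)) (P : Fin (n + 1) → M.O) (hP : P ≠ 0) :
    ∃ (c : K) (P' : Fin (n + 1) → M.O), c ≠ 0 ∧ (∀ a, (P' a : K) = c * P a) ∧
      ∀ j, ∃ a, ev j (P' a) ≠ 0 := by
  have h1 : ∀ j, ∃ (g : K) (a₀ : Fin (n + 1)), g ≠ 0 ∧ (∀ a, Rg M.O (ev j) (g * P a)) ∧ g * P a₀ = 1 :=
    fun j => H12_norm M (ev j) (π j) (hπ j) P hP
  choose g a₀ hg hrg hg1 using h1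
  have h2 : ∀ j a, ∃ c : k, Cg M.O (ev j) (π j) 1 (g j * P a) (algebraMap k K c) := fun j a =>
    exists_val_rg (hπ j) (hrg j a)
  choose v hv using h2
  obtain ⟨c, x', hc, hx', hcg⟩ := multiplier M ev hev π hπ 1 g hg (fun a => (P a : K))
    (fun j a => algebraMap k K (v j a)) (fun j a => rg_algebraMap _) hv
  refine ⟨c, x', hc, hx', fun j => ⟨a₀ j, ?_⟩⟩
  have h3 := (hcg_one_iff (hπ j) (x' (a₀ j)) (algebraMap k M.O (v j (a₀ j)))).1 (hcg j (a₀ j))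
  have h4 := hv j (a₀ j)
  rw [hg1] at h4
  have h5 := (hcg_one_iff (hπ j) (1 : M.O) (algebraMap k M.O (v j (a₀ j)))).1 h4
  rw [h3, ← h5, map_one]
  exact one_ne_zero

end Q9
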