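import Pool.Agent.LibQ9.X2Defs

/-!
[Q9 X8] (SHORT/MEDIUM; only X2Defs) Calculus of `lm`: a linear functional applied to the coefficients.

PLAN. `coeff_lm` first (`coeff ν` of the sum; for `ν` outside the support the coefficient is `0`). All other statements by comparison of the coefficients or by `MvPolynomial.induction_on` (`lm` is additive). `lm_mul_inc`: additivity in both factors reduces to `monomial`s. `eval_lm`: sum over the support. `pderiv_lm`: `pderiv` of a monomial; `λ (n • c) = n • λ c`.
-/

set_option autoImplicit false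

namespace Q9

section

variable {k K I : Type} [Field k] [Field K] [Algebra k K] (lam : K →ₗ[k] k)

theorem coeff_lm (f : MvPolynomial I K) (ν : I →₀ ℕ) :
    MvPolynomial.coeff ν (lm lam f) = lam (MvPolynomial.coeff ν f) := by
  classical
  unfold lm
  rw [MvPolynomial.coeff_sum]
  simp only [MvPolynomial.coeff_monomial]
  rw [Finset.sum_ite_eq']
  split_ifs with h
  · rfl
  · rw [MvPolynomial.notMem_support_iff.mp h, map_zero]

theorem lm_add (f g : MvPolynomial I K) : lm lam (f + g) = lm lam f + lm lam g := by
  ext ν
  simp only [coeff_lm, MvPolynomial.coeff_add, map_add]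

theorem lm_sub (f g : MvPolynomial I K) : lm lam (f - g) = lm lam f - lm lam g := by
  ext ν
  simp only [coeff_lm, MvPolynomial.coeff_sub, map_sub]

theorem lm_sum {ι : Type} (s : Finset ι) (f : ι → MvPolynomial I K) :
    lm lam (∑ i ∈ s, f i) = ∑ i ∈ s, lm lam (f i) := by
  ext ν
  simp only [coeff_lm, MvPolynomial.coeff_sum, map_sum]

theorem lm_add_left (lam' : K →ₗ[k] k) (f : MvPolynomial I K) :
    lm (lam + lam') f = lm lam f + lm lam' f := by
  ext ν
  simp only [coeff_lm, MvPolynomial.coeff_add, LinearMap.add_apply]

theorem lm_smul_left (c : k) (f : MvPolynomial I K) :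
    lm (c • lam) f = MvPolynomial.C c * lm lam f := by
  ext ν
  simp only [coeff_lm, MvPolynomial.coeff_C_mul, LinearMap.smul_apply, smul_eq_mul]

private theorem X8_mono (ν : I →₀ ℕ) (x : K) :
    lm lam (MvPolynomial.monomial ν x) = MvPolynomial.monomial ν (lam x) := by
  classical
  ext μ
  rw [coeff_lm, MvPolynomial.coeff_monomial, MvPolynomial.coeff_monomial]
  split_ifs
  · rfl
  · exact map_zero _

private theorem X8_mul_mono (f : MvPolynomial I K) (ν : I →₀ ℕ) (c : k) :
    lm lam (f * inc k K I (MvPolynomial.monomial ν c)) = lm lam f * MvPolynomial.monomial ν c := by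
  classical
  ext μ
  rw [coeff_lm, inc, MvPolynomial.map_monomial, MvPolynomial.coeff_mul_monomial',
    MvPolynomial.coeff_mul_monomial']
  split_ifs
  · rw [mul_comm, ← Algebra.smul_def, map_smul, coeff_lm, smul_eq_mul, mul_comm]
  · exact map_zero _

theorem lm_mul_inc (f : MvPolynomial I K) (g : MvPolynomial I k) :
    lm lam (f * inc k K I g) = lm lam f * g := by
  induction g using MvPolynomial.induction_on' with
  | monomial u a => exact X8_mul_mono lam f u a
  | add p q hp hq => rw [map_add, mul_add, lm_add, hp, hq, mul_add]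

theorem lm_C (x : K) : lm lam (MvPolynomial.C x : MvPolynomial I K) = MvPolynomial.C (lam x) :=
  X8_mono lam 0 x

theorem eval_lm (z : I → k) (f : MvPolynomial I K) :
    MvPolynomial.eval z (lm lam f) =
      lam (MvPolynomial.eval (fun i => algebraMap k K (z i)) f) := by
  induction f using MvPolynomial.induction_on' with
  | monomial u a =>
    rw [X8_mono, MvPolynomial.eval_monomial, MvPolynomial.eval_monomial]
    have : (u.prod fun n e => algebraMap k K (z n) ^ e) = algebraMap k K (u.prod fun n e => z n ^ e) := by
      rw [Finsupp.prod, Finsupp.prod, map_prod]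
      simp only [map_pow]
    rw [this, mul_comm a, ← Algebra.smul_def, map_smul, smul_eq_mul, mul_comm]
  | add p q hp hq => rw [lm_add, map_add, hp, hq, map_add, map_add]

theorem pderiv_lm (i : I) (f : MvPolynomial I K) :
    MvPolynomial.pderiv i (lm lam f) = lm lam (MvPolynomial.pderiv i f) := by
  induction f using MvPolynomial.induction_on' with
  | monomial u a =>
    rw [X8_mono, MvPolynomial.pderiv_monomial, MvPolynomial.pderiv_monomial, X8_mono]
    congr 1
    rw [mul_comm a, ← nsmul_eq_mul, map_nsmul, nsmul_eq_mul, mul_comm]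
  | add p q hp hq => rw [lm_add, map_add, hp, hq, map_add, lm_add]

theorem lm_zero_of (f : MvPolynomial I K) (h : ∀ ν, lam (MvPolynomial.coeff ν f) = 0) :
    lm lam f = 0 := by
  ext ν
  rw [coeff_lm, h, MvPolynomial.coeff_zero]

end

end Q9
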