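import Pool.Agent.LibQ9.X1
import Pool.Agent.LibQ9.X8
import Pool.Agent.LibQ9.P8

/-!
[Q9 X17] (SHORT/MEDIUM; may cite X1, X8, P8 as stated) Specialisation of a solution to the base field.

PLAN. P8 `spec` for `z`: `φ : Algebra.adjoin k (range z) →ₐ[k] k`, `z' i = φ ⟨z i, _⟩`, `z' (inl i) ≠ 0`. If `aeval z G = 0` then `aeval z' G = 0` (`aeval z G` is the image of the value of `G` in the subalgebra, injectivity of the inclusion; compose with `φ`). So all `(c i).coeff j` vanish at `z'`, and for every functional `lam`: `lam (eval (algebraMap ∘ z') (map u)) = eval z' (lm lam (map u)) = 0` (X8 `eval_lm`), so `eval (algebraMap ∘ z') (map u) = 0` (functionals separate: `Module.forall_dual_apply_eq_zero_iff` or a complement).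
Evaluate the second clause of `UC` at `algebraMap ∘ z'` (`MvPolynomial.eval` is a ring homomorphism `MvPolynomial (XI ..) K → K`; `(eval z').comp φ = O.subtype` on constants): `pv O.subtype psi (yy(z')) = 0 + Σ_i (value of c i) = 0`. X1 `rho_pv` with `φ = O.subtype`: `0 = eval₂ O.subtype (P_a + ρ yy_a(z')) F`.
-/

set_option autoImplicit false

namespace Q9

private theorem X17_key {k : Type} [Field k] {I Ω : Type} [Field Ω] [Algebra k Ω] (z : I → Ω)
    (φ : Algebra.adjoin k (Set.range z) →ₐ[k] k) (G : MvPolynomial I k)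
    (h : MvPolynomial.aeval z G = 0) :
    MvPolynomial.aeval
      (fun i => φ ⟨z i, Algebra.subset_adjoin (Set.mem_range_self i)⟩) G = 0 := by
  set zs : I → Algebra.adjoin k (Set.range z) :=
    fun i => ⟨z i, Algebra.subset_adjoin (Set.mem_range_self i)⟩ with hzs
  have h1 : (Algebra.adjoin k (Set.range z)).val.comp (MvPolynomial.aeval zs) =
      MvPolynomial.aeval z := by
    apply MvPolynomial.algHom_ext
    intro i
    simp [hzs]
  have h2 : φ.comp (MvPolynomial.aeval zs) = MvPolynomial.aeval (fun i => φ (zs i)) := by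
    apply MvPolynomial.algHom_ext
    intro i
    simp
  have h3 : MvPolynomial.aeval zs G = 0 := by
    apply Subtype.ext
    have := DFunLike.congr_fun h1 G
    rw [h] at this
    exact this
  have h4 := DFunLike.congr_fun h2 G
  rw [← h4]
  show φ (MvPolynomial.aeval zs G) = 0
  rw [h3, map_zero]

private theorem X17_inc {k K I : Type} [Field k] [Field K] [Algebra k K] (z' : I → k)
    (G : MvPolynomial I k) :
    MvPolynomial.eval (fun v => algebraMap k K (z' v)) (inc k K I G) =
      algebraMap k K (MvPolynomial.aeval z' G) := by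
  have h1 : (MvPolynomial.eval (fun v => algebraMap k K (z' v))).comp (inc k K I) =
      (algebraMap k K).comp (MvPolynomial.aeval z' : MvPolynomial I k →ₐ[k] k).toRingHom := by
    apply MvPolynomial.ringHom_ext
    · intro r
      simp [inc]
    · intro i
      simp [inc]
  exact DFunLike.congr_fun h1 G

private theorem X17_pv {A S S' : Type} [CommRing A] [CommRing S] [CommRing S'] {n : ℕ} (φ : A →+* S)
    (Ψ : MvPolynomial (Fin (n + 2)) A) (v : Fin (n + 1) → S) (e : S →+* S') :
    e (pv φ Ψ v) = pv (e.comp φ) Ψ (fun a => e (v a)) := by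
  unfold pv
  rw [MvPolynomial.eval₂_comp_left]
  congr 1
  funext a
  refine Fin.cases ?_ (fun b => ?_) a
  · simp
  · simp

theorem sol_k {k K : Type} [Field k] [IsAlgClosed k] [Field K] [Algebra k K] {O : Subalgebra k K}
    {n m q : ℕ} {F : MvPolynomial (Fin (n + 1)) O} {P : Fin (n + 1) → O} {ρ : O}
    (T : Cmb O F P ρ m) (x : Fin q → O)
    (Λ : Fin (n + 1) → Fin (n + 1) → MvPolynomial (Fin (n + 2)) O) (hΛ : PsiEq F P ρ Λ)
    (u : MvPolynomial (XI n q T.d T.N) O)
    (c : Fin m → Polynomial (MvPolynomial (XI n q T.d T.N) k)) (h : UC T x (psi F P ρ Λ) u c)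
    {Ω : Type} [Field Ω] [Algebra k Ω] (z : XI n q T.d T.N → Ω) (hz : ∀ i, z (Sum.inl i) ≠ 0)
    (hc : ∀ i j, MvPolynomial.aeval z ((c i).coeff j) = 0)
    (hu : ∀ lam : K →ₗ[k] k,
      MvPolynomial.aeval z (lm lam (MvPolynomial.map (O.subtype : O →+* K) u)) = 0) :
    ∃ z' : XI n q T.d T.N → k, (∀ i, z' (Sum.inl i) ≠ 0) ∧
      MvPolynomial.eval (fun a => (P a : K) + (ρ : K) *
        MvPolynomial.eval (fun v => algebraMap k K (z' v)) (yy (d := T.d) (N := T.N) T.π x T.y a))
        (MvPolynomial.map (O.subtype : O →+* K) F) = 0 := by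
  obtain ⟨φ, hφ⟩ := spec (k := k) z
  refine ⟨fun i => φ ⟨z i, Algebra.subset_adjoin (Set.mem_range_self i)⟩,
    fun i => hφ _ (hz i), ?_⟩
  set z' : XI n q T.d T.N → k := fun i => φ ⟨z i, Algebra.subset_adjoin (Set.mem_range_self i)⟩
    with hz'
  have hc' : ∀ i j, MvPolynomial.aeval z' ((c i).coeff j) = 0 := fun i j =>
    X17_key z φ _ (hc i j)
  have hu' : MvPolynomial.eval (fun v => algebraMap k K (z' v))
      (MvPolynomial.map (O.subtype : O →+* K) u) = 0 := by
    rw [← Module.forall_dual_apply_eq_zero_iff k]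
    intro lam
    have h1 := X17_key z φ _ (hu lam)
    rw [← eval_lm lam z' (MvPolynomial.map (O.subtype : O →+* K) u)]
    exact (DFunLike.congr_fun (MvPolynomial.coe_aeval_eq_eval z')
      (lm lam (MvPolynomial.map (O.subtype : O →+* K) u))).symm.trans h1
  have h1 := congrArg (MvPolynomial.eval (fun v => algebraMap k K (z' v))) h.2.1
  rw [X17_pv, map_add, hu', zero_add, map_sum] at h1
  have h2 : ∑ i, MvPolynomial.eval (fun v => algebraMap k K (z' v))
      ((c i).eval₂ (inc k K (XI n q T.d T.N))
        (MvPolynomial.C (T.π i) * MvPolynomial.X (Sum.inl i))) = 0 := by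
    apply Finset.sum_eq_zero
    intro i _
    rw [Polynomial.eval₂_eq_sum_range, map_sum]
    apply Finset.sum_eq_zero
    intro j _
    rw [map_mul, X17_inc, hc', map_zero, zero_mul]
  rw [h2] at h1
  have h3 : (MvPolynomial.eval (fun v => algebraMap k K (z' v))).comp
      ((MvPolynomial.C (R := K) (σ := XI n q T.d T.N)).comp (O.subtype : O →+* K)) =
      (O.subtype : O →+* K) := by
    apply RingHom.ext
    intro r
    simp
  rw [h3] at h1
  have h4 := rho_pv F P ρ Λ hΛ (O.subtype : O →+* K)
    (fun a => MvPolynomial.eval (fun v => algebraMap k K (z' v)) (yy (d := T.d) (N := T.N) T.π x T.y a))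
  rw [h1, mul_zero] at h4
  rw [MvPolynomial.eval_map]
  exact h4.symm

end Q9
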