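import Pool.Agent.LibQ9.XDefs
import Pool.Agent.LibQ9.P9

/-!
# LibQ9, block X: the system of the comb over the affine curve, definitions
-/

set_option autoImplicit false

namespace Q9

open Polynomial

/-- the unknowns: `e_i`, the coordinates `(a, b)` of `ξ`, the coefficients `(a, l)` of `w^(l+1)` of the teeth -/
abbrev XI {m : ℕ} (n q : ℕ) (d N : Fin m → ℕ) : Type :=
  Fin m ⊕ ((Fin (n + 1) × Fin q) ⊕ (Σ i : Fin m, Fin (n + 1) × Fin (d i - N i)))

section

variable {k : Type} [Field k] {m n q : ℕ} {d N : Fin m → ℕ}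

/-- the tooth `i` in the unknowns, without its constant term: the last `N i` coefficients are `y_l e_i^l` -/
noncomputable def tp (y : Fin m → Fin (n + 1) → ℕ → k) (a : Fin (n + 1)) (i : Fin m) :
    Polynomial (MvPolynomial (XI n q d N) k) :=
  ∑ l : Fin (d i - N i), monomial ((l : ℕ) + 1) (MvPolynomial.X (Sum.inr (Sum.inr ⟨i, (a, l)⟩))) +
    ∑ l ∈ Finset.range (N i),
      monomial (d i - l) (MvPolynomial.C (y i a l) * MvPolynomial.X (Sum.inl i) ^ l)

variable {K : Type} [Field K] [Algebra k K] {O : Subalgebra k K}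

/-- `ξ + Σ t_i(e_i π_i)` -/
noncomputable def yy (π : Fin m → K) (x : Fin q → O) (y : Fin m → Fin (n + 1) → ℕ → k)
    (a : Fin (n + 1)) : MvPolynomial (XI n q d N) K :=
  ∑ b, MvPolynomial.C (x b : K) * MvPolynomial.X (Sum.inr (Sum.inl (a, b))) +
    ∑ i, (tp y a i).eval₂ (inc k K (XI n q d N))
      (MvPolynomial.C (π i) * MvPolynomial.X (Sum.inl i))

/-- `λ` applied to the coefficients -/
noncomputable def lm {I : Type} (lam : K →ₗ[k] k) (f : MvPolynomial I K) : MvPolynomial I k :=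
  ∑ ν ∈ f.support, MvPolynomial.monomial ν (lam (MvPolynomial.coeff ν f))

/-- the value at `(1, v)` of a polynomial in `n + 2` variables -/
noncomputable def pv {A S : Type} [CommRing A] [CommRing S] {n : ℕ} (φ : A →+* S)
    (Ψ : MvPolynomial (Fin (n + 2)) A) (v : Fin (n + 1) → S) : S :=
  MvPolynomial.eval₂ φ (Fin.cons 1 v : Fin (n + 2) → S) Ψ

/-- `Ψ`, with `F(P Y_0 + ρ Y) = ρ Ψ(Y_0, Y)` -/
noncomputable def psi {A : Type} [CommRing A] {n : ℕ} (F : MvPolynomial (Fin (n + 1)) A)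
    (P : Fin (n + 1) → A) (ρ : A) (Λ : Fin (n + 1) → Fin (n + 1) → MvPolynomial (Fin (n + 2)) A) :
    MvPolynomial (Fin (n + 2)) A :=
  MvPolynomial.X 0 ^ (n - 1) * ∑ a, MvPolynomial.C (gd F P a) * MvPolynomial.X a.succ +
    MvPolynomial.C ρ * ∑ a, ∑ b, MvPolynomial.X a.succ * MvPolynomial.X b.succ * Λ a b

/-- the property of `Λ` -/
def PsiEq {A : Type} [CommRing A] {n : ℕ} (F : MvPolynomial (Fin (n + 1)) A)
    (P : Fin (n + 1) → A) (ρ : A) (Λ : Fin (n + 1) → Fin (n + 1) → MvPolynomial (Fin (n + 2)) A) :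
    Prop :=
  (∀ a b, (Λ a b).IsHomogeneous (n - 2)) ∧
    MvPolynomial.aeval (fun a : Fin (n + 1) => MvPolynomial.C (P a) * MvPolynomial.X 0 +
      MvPolynomial.C ρ * MvPolynomial.X a.succ) F = MvPolynomial.C ρ * psi F P ρ Λ

variable {F : MvPolynomial (Fin (n + 1)) O} {P : Fin (n + 1) → O} {ρ : O}

/-- the base point: `e = 0`, `ξ = 0`, the given teeth -/
noncomputable def xz (q : ℕ) (T : Cmb O F P ρ m) : XI n q T.d T.N → k
  | Sum.inl _ => 0
  | Sum.inr (Sum.inl _) => 0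
  | Sum.inr (Sum.inr ⟨i, (a, l)⟩) => (T.ev i ρ)⁻¹ * (T.τ i a).coeff ((l : ℕ) + 1)

/-- the curve `F_(b_i)`-tooth `i` at a point `z` with `e = 0` -/
noncomputable def tz (T : Cmb O F P ρ m) (x : Fin q → O) {R : Type} [CommRing R] [Algebra k R]
    (z : XI n q T.d T.N → R) (i : Fin m) (a : Fin (n + 1)) : R[X] :=
  C (algebraMap k R (T.ev i (P a))) + C (algebraMap k R (T.ev i ρ)) *
    (C (∑ b, algebraMap k R (T.ev i (x b)) * z (Sum.inr (Sum.inl (a, b)))) +
      ∑ l : Fin (T.d i - T.N i), C (z (Sum.inr (Sum.inr ⟨i, (a, l)⟩))) * X ^ ((l : ℕ) + 1) +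
      if 1 ≤ T.N i then C (algebraMap k R (T.y i a 0)) * X ^ T.d i else 0)

/-- the decomposition `Ψ(1, yy) = u + Σ c_i(e_i π_i)` and its reduction modulo `(e)` -/
def UC (T : Cmb O F P ρ m) (x : Fin q → O) (Ψ : MvPolynomial (Fin (n + 2)) O)
    (u : MvPolynomial (XI n q T.d T.N) O)
    (c : Fin m → Polynomial (MvPolynomial (XI n q T.d T.N) k)) : Prop :=
  (∀ i, (c i).coeff 0 = 0 ∧ (c i).natDegree ≤ n * T.d i) ∧
    pv ((MvPolynomial.C (R := K) (σ := XI n q T.d T.N)).comp (O.subtype : O →+* K)) Ψ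
      (yy T.π x T.y) = MvPolynomial.map (O.subtype : O →+* K) u +
        ∑ i, (c i).eval₂ (inc k K (XI n q T.d T.N))
          (MvPolynomial.C (T.π i) * MvPolynomial.X (Sum.inl i)) ∧
    ∀ (R : Type) [CommRing R] [Algebra k R] (z : XI n q T.d T.N → R), (∀ i, z (Sum.inl i) = 0) →
      ∀ i j, 1 ≤ j → algebraMap k R (T.ev i ρ) * MvPolynomial.aeval z ((c i).coeff j) =
        (MvPolynomial.aeval (tz T x z i) (MvPolynomial.map (T.ev i : O →+* k) F)).coeff j

/-- the equations at infinity -/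
noncomputable def eA (T : Cmb O F P ρ m) (x : Fin q → O) {q₁ : ℕ} (κ : Fin q₁ → K →ₗ[k] k)
    (j : Fin (n + 1) × Fin q₁) : MvPolynomial (XI n q T.d T.N) k :=
  lm (κ j.2) (yy T.π x T.y j.1)

/-- the other equations -/
noncomputable def eB (T : Cmb O F P ρ m) (u : MvPolynomial (XI n q T.d T.N) O)
    (c : Fin m → Polynomial (MvPolynomial (XI n q T.d T.N) k)) {s₀ : ℕ} (μ : Fin s₀ → K →ₗ[k] k) :
    ((Σ i : Fin m, Fin (n * T.d i - T.N i)) ⊕ Fin s₀) → MvPolynomial (XI n q T.d T.N) k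
  | Sum.inl ⟨i, j⟩ => (c i).coeff ((j : ℕ) + 1)
  | Sum.inr r => lm (μ r) (MvPolynomial.map (O.subtype : O →+* K) u)

/-- the derivative of `yy` in the direction `δ` at the base point -/
noncomputable def dy (T : Cmb O F P ρ m) (x : Fin q → O) (δ : XI n q T.d T.N → k)
    (a : Fin (n + 1)) : K :=
  ∑ b, algebraMap k K (δ (Sum.inr (Sum.inl (a, b)))) * x b +
    ∑ i, algebraMap k K (δ (Sum.inl i) * ((T.ev i ρ)⁻¹ * (T.τ i a).coeff 1)) * T.π i

end

end Q9
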