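import Pool.Agent.LibQ9.X3
import Pool.Agent.LibQ9.X2Defs

/-!
[Q9 X18] (MEDIUM; may cite X3 as stated) The jet of the solution at the place of a tooth.

PLAN. `W = (e π)⁻¹ = C(e⁻¹) π⁻¹`, `e = z (inl i)`, `π = T.π i`, `d = T.d i`, `N = T.N i`. `yy_a(z) = Σ_b z(a,b) x_b + Σ_i' t_i'(e_i' π_i')`, `t_i' = (tp y a i').map (eval z)`. The part `G_a = P_a + ρ (Σ_b .. + Σ_(i' ≠ i) ..)` is local at `ev i` (`Cg .. 0 .. 0`): `π_i'` is local at `ev i` for `i' ≠ i` (`T.inj`: choose `f₀ : O` with `ev_i' f₀ ≠ ev_i f₀`; `(f₀ - ev_i' f₀) π_i' ∈ O` and `ev_i (f₀ - ev_i' f₀) ≠ 0`), X3 `loc_O`, `cg_add`, `cg_mul`. `W^d G_a ≡ 0` modulo `N ≤ d` (X3 `cg_pow`).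
`W^d ρ t_i(e π) = ρ Σ_j (t_i)_j W^(d-j)` (`j ≤ d`, `W (e π) = 1`); the terms with `d - j ≥ N` are `≡ 0`; for `l < N` the coefficient `d - l` of `t_i` is `y_l e^l` (the first sum of `tp` has exponents `≤ d - N`), and `e^l W^l = π^(-l)`: together `≡ ρ Σ_(l<N) y_l π^(-l) = jt`.
-/

set_option autoImplicit false

namespace Q9

private theorem X18_ne {k K : Type} [Field k] [Field K] [Algebra k K] {O : Subalgebra k K}
    {ev : O →ₐ[k] k} {π : K} (hp : Pole O ev π) : π ≠ 0 := by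
  obtain ⟨_, h, v, _, hv, hv0⟩ := hp
  intro hπ
  apply hv0
  have h1 : v = 0 := by
    apply Subtype.ext
    rw [hv, hπ, mul_zero]
    rfl
  rw [h1, map_zero]

private theorem X18_tp {k K : Type} [Field k] [Field K] [Algebra k K] {n m q : ℕ} {d N : Fin m → ℕ}
    (y : Fin m → Fin (n + 1) → ℕ → k) (a : Fin (n + 1)) (i : Fin m) (p : K)
    (z : XI n q d N → k) :
    MvPolynomial.eval (fun v => algebraMap k K (z v)) ((tp (q := q) (d := d) (N := N) y a i).eval₂
      (inc k K (XI n q d N)) (MvPolynomial.C p * MvPolynomial.X (Sum.inl i))) =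
    ∑ l : Fin (d i - N i), algebraMap k K (z (Sum.inr (Sum.inr ⟨i, (a, l)⟩))) *
      (p * algebraMap k K (z (Sum.inl i))) ^ ((l : ℕ) + 1) +
    ∑ l ∈ Finset.range (N i), algebraMap k K (y i a l) * algebraMap k K (z (Sum.inl i)) ^ l *
      (p * algebraMap k K (z (Sum.inl i))) ^ (d i - l) := by
  unfold tp inc
  rw [Polynomial.eval₂_add, Polynomial.eval₂_finsetSum, Polynomial.eval₂_finsetSum, map_add, map_sum,
    map_sum]
  congr 1
  · refine Finset.sum_congr rfl fun l _ => ?_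
    rw [Polynomial.eval₂_monomial, MvPolynomial.map_X, map_mul, map_pow, map_mul, MvPolynomial.eval_X,
      MvPolynomial.eval_X, MvPolynomial.eval_C]
  · refine Finset.sum_congr rfl fun l _ => ?_
    rw [Polynomial.eval₂_monomial, map_mul (MvPolynomial.map _), map_pow (MvPolynomial.map _),
      MvPolynomial.map_X, MvPolynomial.map_C, map_mul, map_mul, map_pow, map_pow, map_mul,
      MvPolynomial.eval_X, MvPolynomial.eval_C, MvPolynomial.eval_C]

private theorem X18_yy {k K : Type} [Field k] [Field K] [Algebra k K] {O : Subalgebra k K}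
    {n m q : ℕ} {d N : Fin m → ℕ} (π : Fin m → K) (x : Fin q → O)
    (y : Fin m → Fin (n + 1) → ℕ → k) (a : Fin (n + 1)) (z : XI n q d N → k) :
    MvPolynomial.eval (fun v => algebraMap k K (z v)) (yy (d := d) (N := N) π x y a) =
    ∑ b, (x b : K) * algebraMap k K (z (Sum.inr (Sum.inl (a, b)))) +
    ∑ i, (∑ l : Fin (d i - N i), algebraMap k K (z (Sum.inr (Sum.inr ⟨i, (a, l)⟩))) *
      (π i * algebraMap k K (z (Sum.inl i))) ^ ((l : ℕ) + 1) +
    ∑ l ∈ Finset.range (N i), algebraMap k K (y i a l) * algebraMap k K (z (Sum.inl i)) ^ l *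
      (π i * algebraMap k K (z (Sum.inl i))) ^ (d i - l)) := by
  unfold yy
  rw [map_add, map_sum, map_sum]
  congr 1
  · refine Finset.sum_congr rfl fun b _ => ?_
    rw [map_mul, MvPolynomial.eval_X, MvPolynomial.eval_C]
  · refine Finset.sum_congr rfl fun i _ => ?_
    exact X18_tp y a i (π i) z

section

variable {k K : Type} [Field k] [Field K] [Algebra k K] {O : Subalgebra k K} {ev : O →ₐ[k] k} {π : K}

private theorem X18_ladd {f g : K} (hf : Cg O ev π 0 f 0) (hg : Cg O ev π 0 g 0) :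
    Cg O ev π 0 (f + g) 0 := by
  have h := cg_add hf hg
  rwa [add_zero] at h

private theorem X18_l0 : Cg O ev π 0 0 0 := cg_refl 0 0

private theorem X18_lmul {f g : K} (hf : Cg O ev π 0 f 0) (hg : Cg O ev π 0 g 0) :
    Cg O ev π 0 (f * g) 0 := by
  have h := cg_mul hf hg hg X18_l0
  rwa [mul_zero] at h

private theorem X18_lpow {f : K} (hf : Cg O ev π 0 f 0) (l : ℕ) : Cg O ev π 0 (f ^ l) 0 := by
  induction l with
  | zero =>
    rw [pow_zero]
    exact loc_O (1 : O)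
  | succ l ih =>
    rw [pow_succ]
    exact X18_lmul ih hf

private theorem X18_lsum {ι : Type} (s : Finset ι) {f : ι → K} (h : ∀ i ∈ s, Cg O ev π 0 (f i) 0) :
    Cg O ev π 0 (∑ i ∈ s, f i) 0 := by
  have h1 := cg_sum (g := fun _ => 0) s h
  rwa [Finset.sum_const_zero] at h1

private theorem X18_lk (c : k) : Cg O ev π 0 (algebraMap k K c) 0 := loc_O (algebraMap k O c)

private theorem X18_lpole {e' : O →ₐ[k] k} {p' : K} (hp : ∀ f : O, ((f : K) - algebraMap k K (e' f)) * p' ∈ O)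
    (hne : ev ≠ e') : Cg O ev π 0 p' 0 := by
  obtain ⟨f, hf⟩ := DFunLike.ne_iff.1 hne
  refine ⟨f - algebraMap k O (e' f), ⟨_, hp f⟩, ?_, ?_⟩
  · rw [map_sub, AlgHom.commutes]
    exact sub_ne_zero.2 hf
  · rw [sub_zero, pow_zero, mul_one]
    rfl

end

theorem yy_jet {k K : Type} [Field k] [Field K] [Algebra k K] {O : Subalgebra k K}
    {n m q : ℕ} {F : MvPolynomial (Fin (n + 1)) O} {P : Fin (n + 1) → O} {ρ : O}
    (T : Cmb O F P ρ m) (x : Fin q → O) (z : XI n q T.d T.N → k) (i : Fin m)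
    (hz : z (Sum.inl i) ≠ 0) (a : Fin (n + 1)) :
    Cg O (T.ev i) (T.π i) (T.N i)
      ((algebraMap k K (z (Sum.inl i)) * T.π i)⁻¹ ^ T.d i * ((P a : K) + (ρ : K) *
        MvPolynomial.eval (fun v => algebraMap k K (z v)) (yy (d := T.d) (N := T.N) T.π x T.y a)))
      (jt (T.π i) (ρ : K) (T.N i) (T.y i) a) := by
  have hp := T.pole i
  have hp0 := X18_ne hp
  have hE0 : algebraMap k K (z (Sum.inl i)) ≠ 0 := by
    rw [Ne, map_eq_zero]
    exact hz
  have hEinv : (algebraMap k K (z (Sum.inl i)))⁻¹ = algebraMap k K (z (Sum.inl i))⁻¹ := by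
    rw [map_inv₀]
  obtain ⟨G, hG⟩ : ∃ G : K, G = (P a : K) + (ρ : K) *
      (∑ b, (x b : K) * algebraMap k K (z (Sum.inr (Sum.inl (a, b)))) +
      ∑ i' ∈ Finset.univ.erase i, (∑ l : Fin (T.d i' - T.N i'),
        algebraMap k K (z (Sum.inr (Sum.inr ⟨i', (a, l)⟩))) *
          (T.π i' * algebraMap k K (z (Sum.inl i'))) ^ ((l : ℕ) + 1) +
      ∑ l ∈ Finset.range (T.N i'), algebraMap k K (T.y i' a l) * algebraMap k K (z (Sum.inl i')) ^ l *
        (T.π i' * algebraMap k K (z (Sum.inl i'))) ^ (T.d i' - l))) := ⟨_, rfl⟩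
  have hGl : Cg O (T.ev i) (T.π i) 0 G 0 := by
    rw [hG]
    refine X18_ladd (loc_O _) (X18_lmul (loc_O _) (X18_ladd (X18_lsum _ fun b _ =>
      X18_lmul (loc_O _) (X18_lk _)) (X18_lsum _ fun i' hi' => ?_)))
    have hne : T.ev i ≠ T.ev i' := T.inj.ne (Ne.symm (Finset.ne_of_mem_erase hi'))
    have hl : Cg O (T.ev i) (T.π i) 0 (T.π i' * algebraMap k K (z (Sum.inl i'))) 0 :=
      X18_lmul (X18_lpole (T.pole i').1 hne) (X18_lk _)
    exact X18_ladd (X18_lsum _ fun l _ => X18_lmul (X18_lk _) (X18_lpow hl _))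
      (X18_lsum _ fun l _ => X18_lmul (X18_lmul (X18_lk _) (X18_lpow (X18_lk _) _)) (X18_lpow hl _))
  have hpw : ∀ s t : ℕ, s ≤ t → (algebraMap k K (z (Sum.inl i)) * T.π i)⁻¹ ^ t *
      (T.π i * algebraMap k K (z (Sum.inl i))) ^ s =
      (algebraMap k K (z (Sum.inl i)))⁻¹ ^ (t - s) * (T.π i)⁻¹ ^ (t - s) := by
    intro s t hst
    obtain ⟨r, rfl⟩ := Nat.exists_eq_add_of_le hst
    rw [Nat.add_sub_cancel_left, pow_add, mul_comm (T.π i), mul_right_comm, ← mul_pow,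
      inv_mul_cancel₀ (mul_ne_zero hE0 hp0), one_pow, one_mul, mul_inv, mul_pow]
  have key : (algebraMap k K (z (Sum.inl i)) * T.π i)⁻¹ ^ T.d i * ((P a : K) + (ρ : K) *
        MvPolynomial.eval (fun v => algebraMap k K (z v)) (yy (d := T.d) (N := T.N) T.π x T.y a)) =
      ((algebraMap k K (z (Sum.inl i)))⁻¹ ^ T.d i * G) * (T.π i)⁻¹ ^ T.d i +
      (∑ l : Fin (T.d i - T.N i), ((ρ : K) * algebraMap k K (z (Sum.inr (Sum.inr ⟨i, (a, l)⟩))) *
        (algebraMap k K (z (Sum.inl i)))⁻¹ ^ (T.d i - ((l : ℕ) + 1))) *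
          (T.π i)⁻¹ ^ (T.d i - ((l : ℕ) + 1))) +
      jt (T.π i) (ρ : K) (T.N i) (T.y i) a := by
    rw [X18_yy, ← Finset.add_sum_erase _ _ (Finset.mem_univ i)]
    have h1 : (algebraMap k K (z (Sum.inl i)) * T.π i)⁻¹ ^ T.d i * ((ρ : K) *
        ∑ l : Fin (T.d i - T.N i), algebraMap k K (z (Sum.inr (Sum.inr ⟨i, (a, l)⟩))) *
          (T.π i * algebraMap k K (z (Sum.inl i))) ^ ((l : ℕ) + 1)) =
        ∑ l : Fin (T.d i - T.N i), ((ρ : K) * algebraMap k K (z (Sum.inr (Sum.inr ⟨i, (a, l)⟩))) *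
        (algebraMap k K (z (Sum.inl i)))⁻¹ ^ (T.d i - ((l : ℕ) + 1))) *
          (T.π i)⁻¹ ^ (T.d i - ((l : ℕ) + 1)) := by
      rw [Finset.mul_sum, Finset.mul_sum]
      refine Finset.sum_congr rfl fun l _ => ?_
      have h := hpw ((l : ℕ) + 1) (T.d i) (by omega)
      linear_combination (ρ : K) * algebraMap k K (z (Sum.inr (Sum.inr ⟨i, (a, l)⟩))) * h
    have h2 : (algebraMap k K (z (Sum.inl i)) * T.π i)⁻¹ ^ T.d i * ((ρ : K) *
        ∑ l ∈ Finset.range (T.N i), algebraMap k K (T.y i a l) * algebraMap k K (z (Sum.inl i)) ^ l *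
        (T.π i * algebraMap k K (z (Sum.inl i))) ^ (T.d i - l)) = jt (T.π i) (ρ : K) (T.N i) (T.y i) a := by
      unfold jt
      rw [Finset.mul_sum, Finset.mul_sum, Finset.mul_sum]
      refine Finset.sum_congr rfl fun l hl => ?_
      rw [Finset.mem_range] at hl
      have hd := T.hN i
      have h := hpw (T.d i - l) (T.d i) (by omega)
      have h3 : T.d i - (T.d i - l) = l := by omega
      rw [h3] at h
      have h4 : algebraMap k K (z (Sum.inl i)) ^ l * (algebraMap k K (z (Sum.inl i)))⁻¹ ^ l = 1 := by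
        rw [← mul_pow, mul_inv_cancel₀ hE0, one_pow]
      linear_combination (ρ : K) * algebraMap k K (T.y i a l) * algebraMap k K (z (Sum.inl i)) ^ l * h +
        (ρ : K) * algebraMap k K (T.y i a l) * (T.π i)⁻¹ ^ l * h4
    have h5 := hpw 0 (T.d i) (Nat.zero_le _)
    rw [pow_zero, mul_one, Nat.sub_zero] at h5
    rw [← h1, ← h2, hG]
    linear_combination ((P a : K) + (ρ : K) *
      (∑ b, (x b : K) * algebraMap k K (z (Sum.inr (Sum.inl (a, b)))) +
      ∑ i' ∈ Finset.univ.erase i, (∑ l : Fin (T.d i' - T.N i'),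
        algebraMap k K (z (Sum.inr (Sum.inr ⟨i', (a, l)⟩))) *
          (T.π i' * algebraMap k K (z (Sum.inl i'))) ^ ((l : ℕ) + 1) +
      ∑ l ∈ Finset.range (T.N i'), algebraMap k K (T.y i' a l) * algebraMap k K (z (Sum.inl i')) ^ l *
        (T.π i' * algebraMap k K (z (Sum.inl i'))) ^ (T.d i' - l)))) * h5
  rw [key]
  have hA : Cg O (T.ev i) (T.π i) (T.N i)
      (((algebraMap k K (z (Sum.inl i)))⁻¹ ^ T.d i * G) * (T.π i)⁻¹ ^ T.d i) 0 := by
    refine cg_pow hp (T.hN i) (X18_lmul ?_ hGl)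
    rw [hEinv]
    exact X18_lpow (X18_lk _) _
  have hB : Cg O (T.ev i) (T.π i) (T.N i)
      (∑ l : Fin (T.d i - T.N i), ((ρ : K) * algebraMap k K (z (Sum.inr (Sum.inr ⟨i, (a, l)⟩))) *
        (algebraMap k K (z (Sum.inl i)))⁻¹ ^ (T.d i - ((l : ℕ) + 1))) *
          (T.π i)⁻¹ ^ (T.d i - ((l : ℕ) + 1))) 0 := by
    have h := cg_sum (O := O) (ev := T.ev i) (π := T.π i) (N := T.N i) (g := fun _ => 0)
      (f := fun l : Fin (T.d i - T.N i) => ((ρ : K) * algebraMap k K (z (Sum.inr (Sum.inr ⟨i, (a, l)⟩))) *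
        (algebraMap k K (z (Sum.inl i)))⁻¹ ^ (T.d i - ((l : ℕ) + 1))) *
          (T.π i)⁻¹ ^ (T.d i - ((l : ℕ) + 1))) Finset.univ (fun l _ => by
        refine cg_pow hp ?_ (X18_lmul (X18_lmul (loc_O _) (X18_lk _)) ?_)
        · have := l.2
          omega
        · rw [hEinv]
          exact X18_lpow (X18_lk _) _)
    rwa [Finset.sum_const_zero] at h
  have h := cg_add (cg_add hA hB) (cg_refl (O := O) (ev := T.ev i) (π := T.π i) (T.N i)
    (jt (T.π i) (ρ : K) (T.N i) (T.y i) a))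
  rwa [add_zero, zero_add] at h

end Q9
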