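import Pool.Agent.LibQ9.X16
import Pool.Agent.LibQ9.X17
import Pool.Agent.LibQ9.X18

/-!
[Q9 XFin] (SHORT, assembly; may cite X16, X17, X18, X2 as stated; final statement of block X) Combs over an affine curve with prescribed jets.

PLAN. `B` from X16 `sol_gen`; for `T`, `S₁`, `S₂`: `sol_gen`, X17 `sol_k`: `z'`. `x a = P a + ρ yy_a(z')`, `g i = (z'(inl i) π_i)⁻¹ ^ d_i ≠ 0` (X2 `pole_ne`), X18 `yy_jet`.
-/

set_option autoImplicit false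

namespace Q9

open Polynomial

theorem comb_points {k K : Type} [Field k] [IsAlgClosed k] [Field K] [Algebra k K] (M : Mdl k K)
    {n : ℕ} (hn : 2 ≤ n) (F : MvPolynomial (Fin (n + 1)) M.O) (hF : F.IsHomogeneous n)
    (P : Fin (n + 1) → M.O) (hP : MvPolynomial.eval P F = 0) (ρ : M.O) (hρ : IN (gd F P) (ρ : K))
    (hρ0 : ρ ≠ 0) :
    ∃ B : ℕ, ∀ (m : ℕ) (T : Cmb M.O F P ρ m) (S₁ S₂ : Finset (Fin m)), Disjoint S₁ S₂ →
      Spn M (gd F P) B T.π (fun i a => (T.ev i ρ)⁻¹ * (T.τ i a).coeff 1) S₁ →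
      Spn M (gd F P) B T.π (fun i a => (T.ev i ρ)⁻¹ * (T.τ i a).coeff 1) S₂ →
      ∃ (g : Fin m → K) (x : Fin (n + 1) → K), (∀ i, g i ≠ 0) ∧
        MvPolynomial.eval x (MvPolynomial.map (M.O.subtype : M.O →+* K) F) = 0 ∧
        ∀ i a, Cg M.O (T.ev i) (T.π i) (T.N i) (g i * x a) (jt (T.π i) ρ (T.N i) (T.y i) a) := by
  obtain ⟨B, hB⟩ := sol_gen M hn F hF P hP ρ hρ hρ0
  refine ⟨B, fun m T S₁ S₂ hd hS₁ hS₂ => ?_⟩
  obtain ⟨q, x, Λ, u, c, hΛ, h, Ω, _, _, z, hz, hc, hu⟩ := hB m T S₁ S₂ hd hS₁ hS₂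
  obtain ⟨z', hz', h0⟩ := sol_k T x Λ hΛ u c h z hz hc hu
  refine ⟨fun i => (algebraMap k K (z' (Sum.inl i)) * T.π i)⁻¹ ^ T.d i, _, fun i => ?_, h0,
    fun i a => yy_jet T x z' i (hz' i) a⟩
  exact pow_ne_zero _ (inv_ne_zero (mul_ne_zero ((map_ne_zero (algebraMap k K)).2 (hz' i))
    (pole_ne (T.pole i))))

end Q9
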