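import Pool.Agent.LibQ9.H10c
import Pool.Agent.LibQ9.H12
import Pool.Agent.LibQ9.XFin

set_option autoImplicit false

namespace Q9

open Polynomial

private theorem h11_hom {K : Type} [Field K] {n m : ℕ} (G : MvPolynomial (Fin n) K)
    (hG : G.IsHomogeneous m) (c : K) (x : Fin n → K) :
    MvPolynomial.eval (fun a => c * x a) G = c ^ m * MvPolynomial.eval x G := by
  rw [MvPolynomial.eval_eq', MvPolynomial.eval_eq', Finset.mul_sum]
  refine Finset.sum_congr rfl fun d hd => ?_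
  have h1 : ∑ i, d i = m := by
    have h2 := hG (MvPolynomial.mem_support_iff.mp hd)
    rw [← h2, Finsupp.weight_apply, Finsupp.sum_fintype _ _ (by simp)]
    simp
  have h3 : ∏ i, (c * x i) ^ d i = c ^ m * ∏ i, x i ^ d i := by
    rw [← h1, ← Finset.prod_pow_eq_pow_sum, ← Finset.prod_mul_distrib]
    refine Finset.prod_congr rfl fun i _ => mul_pow _ _ _
  rw [h3]; ring

private theorem h11_spn {k K : Type} [Field k] [Field K] [Algebra k K] (M : Mdl k K) {n : ℕ}
    (Fd : Fin (n + 1) → M.O) (B : ℕ) {m m₁ : ℕ} (φ : Fin m₁ → Fin m) (hφ : Function.Injective φ)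
    (π : Fin m → K) (σ : Fin m → Fin (n + 1) → k)
    (h : Spn M Fd B (fun i => π (φ i)) (fun i => σ (φ i)) Finset.univ) :
    Spn M Fd B π σ (Finset.univ.image φ) := by
  intro w hw
  obtain ⟨μ, α, r, -, h2, h3, h4⟩ := h w hw
  refine ⟨Function.extend φ μ 0, α, r, fun i hi => ?_, h2, h3, fun a => ?_⟩
  · rw [Function.extend_apply']
    · rfl
    · rintro ⟨i', rfl⟩
      exact hi (Finset.mem_image_of_mem _ (Finset.mem_univ _))
  · rw [h4 a]
    congr 1
    have e1 : ∑ i, algebraMap k K (Function.extend φ μ 0 i * σ i a) * π i =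
        ∑ i ∈ Finset.univ.image φ, algebraMap k K (Function.extend φ μ 0 i * σ i a) * π i := by
      symm
      refine Finset.sum_subset (Finset.subset_univ _) fun i _ hi => ?_
      rw [Function.extend_apply']
      · simp
      · rintro ⟨i', rfl⟩
        exact hi (Finset.mem_image_of_mem _ (Finset.mem_univ _))
    rw [e1, Finset.sum_image fun i _ j _ hij => hφ hij]
    refine Finset.sum_congr rfl fun i _ => ?_
    rw [hφ.extend_apply]

theorem one_step {k K : Type} [Field k] [IsAlgClosed k] [Field K] [Algebra k K] (M : Mdl k K)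
    {n : ℕ} (hn : 2 ≤ n) (F : MvPolynomial (Fin (n + 1)) M.O) (hF : F.IsHomogeneous n)
    (P : Fin (n + 1) → M.O) (hP : MvPolynomial.eval P F = 0) (Z₀ : Finset k)
    (hVF : ∀ ev : M.O →ₐ[k] k, ev M.t ∉ Z₀ →
      VF (MvPolynomial.map (ev : M.O →+* k) F) (fun a => ev (P a))) {r : ℕ}
    (ev : Fin r → (M.O →ₐ[k] k)) (hev : Function.Injective ev) (π : Fin r → K)
    (hπ : ∀ j, Pole M.O (ev j) (π j)) (hPe : ∀ j, ∃ a, ev j (gd F P a) ≠ 0) (N : ℕ) (hN : 1 ≤ N)
    (x : Fin r → Fin (n + 1) → M.O)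
    (hx : ∀ j, Cg M.O (ev j) (π j) N ((MvPolynomial.eval (x j) F : M.O) : K) 0)
    (hδ : ∀ j, ∃ (d : ℕ) (δ : Fin (n + 1) → k[X]),
      Free (MvPolynomial.map (ev j : M.O →+* k) F) d δ ∧
      Cor (MvPolynomial.map (ev j : M.O →+* k) F) d δ 0 ∧ (∀ a, (δ a).coeff 0 = ev j (P a)) ∧
      ∀ a, (δ a).coeff d = ev j (x j a)) :
    ∃ x' : Fin (n + 1) → M.O, MvPolynomial.eval x' F = 0 ∧
      ∀ j a, Cg M.O (ev j) (π j) N (x' a : K) (x j a : K) := by
  classical
  have : Infinite k := IsAlgClosed.instInfinite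
  rcases isEmpty_or_nonempty (Fin r) with hr | ⟨⟨j₀⟩⟩
  · exact ⟨P, hP, fun j => (hr.false j).elim⟩
  have h0 : ∃ a, gd F P a ≠ 0 := by
    obtain ⟨a, ha⟩ := hPe j₀
    exact ⟨a, fun h => ha (by rw [h, map_zero])⟩
  obtain ⟨ρ, hρ, hρ0, hρe⟩ := rho_exists (gd F P) h0 ev hPe
  obtain ⟨B, hB⟩ := comb_points M hn F hF P hP ρ hρ hρ0
  have hSp : ∀ j, ∃ T : Tth M.O F P ρ, T.ev = ev j ∧ T.π = π j ∧ T.N = N ∧
      ∀ a, Cg M.O (ev j) (π j) N (jt (π j) (ρ : K) N T.y a) (x j a : K) := fun j => by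
    obtain ⟨d, δ, h1, h2, h3, h4⟩ := hδ j
    exact special_tooth F P ρ (ev j) (π j) (hπ j) (hρe j) N hN (x j) (hx j) d δ h1 h2 h3 h4
  choose Sp hSe hSπ hSN hSj using hSp
  obtain ⟨m₁, T₁, hi₁, hz₁, hN₁, hs₁⟩ := batch_teeth M F P ρ hρ hρ0 B Z₀ hVF
    (Finset.univ.image fun j => ev j M.t)
  obtain ⟨m₂, T₂, hi₂, hz₂, hN₂, hs₂⟩ := batch_teeth M F P ρ hρ hρ0 B Z₀ hVF
    ((Finset.univ.image fun j => ev j M.t) ∪ Finset.univ.image fun i => (T₁ i).ev M.t)
  let ι := Fin r ⊕ (Fin m₁ ⊕ Fin m₂)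
  let e : ι ≃ Fin (Fintype.card ι) := Fintype.equivFin ι
  let T' : ι → Tth M.O F P ρ := Sum.elim Sp (Sum.elim T₁ T₂)
  let T : Fin (Fintype.card ι) → Tth M.O F P ρ := fun i => T' (e.symm i)
  have hT' : Function.Injective fun s => (T' s).ev := by
    have h01 : ∀ (j : Fin r) (i : Fin m₁), (Sp j).ev ≠ (T₁ i).ev := fun j i h => by
      refine hz₁ i ?_
      rw [← h, hSe]
      exact Finset.mem_image_of_mem _ (Finset.mem_univ _)
    have h02 : ∀ (j : Fin r) (i : Fin m₂), (Sp j).ev ≠ (T₂ i).ev := fun j i h => by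
      refine hz₂ i (Finset.mem_union_left _ ?_)
      rw [← h, hSe]
      exact Finset.mem_image_of_mem _ (Finset.mem_univ _)
    have h12 : ∀ (j : Fin m₁) (i : Fin m₂), (T₁ j).ev ≠ (T₂ i).ev := fun j i h => by
      refine hz₂ i (Finset.mem_union_right _ ?_)
      rw [← h]
      exact Finset.mem_image_of_mem (fun i => (T₁ i).ev M.t) (Finset.mem_univ _)
    rintro (j | i | i) (j' | i' | i') h
    · have h' : (Sp j).ev = (Sp j').ev := h
      rw [hSe, hSe] at h'
      rw [hev h']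
    · exact (h01 j i' h).elim
    · exact (h02 j i' h).elim
    · exact (h01 j' i h.symm).elim
    · rw [hi₁ h]
    · exact (h12 i i' h).elim
    · exact (h02 j' i h.symm).elim
    · exact (h12 i' i h.symm).elim
    · rw [hi₂ h]
  have hT : Function.Injective fun i => (T i).ev := fun i i' h => e.symm.injective (hT' h)
  let φ₁ : Fin m₁ → Fin (Fintype.card ι) := fun i => e (Sum.inr (Sum.inl i))
  let φ₂ : Fin m₂ → Fin (Fintype.card ι) := fun i => e (Sum.inr (Sum.inr i))
  have hφ₁ : Function.Injective φ₁ := fun i i' h =>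
    Sum.inl_injective (Sum.inr_injective (e.injective h))
  have hφ₂ : Function.Injective φ₂ := fun i i' h =>
    Sum.inr_injective (Sum.inr_injective (e.injective h))
  have hTe : ∀ s, T (e s) = T' s := fun s => by
    show T' (e.symm (e s)) = T' s
    rw [e.symm_apply_apply]
  have hd : Disjoint (Finset.univ.image φ₁) (Finset.univ.image φ₂) := by
    rw [Finset.disjoint_left]
    intro i h1 h2
    obtain ⟨i₁, -, rfl⟩ := Finset.mem_image.mp h1
    obtain ⟨i₂, -, h⟩ := Finset.mem_image.mp h2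
    have h3 : (Sum.inr (Sum.inr i₂) : Fin r ⊕ (Fin m₁ ⊕ Fin m₂)) = Sum.inr (Sum.inl i₁) :=
      e.injective h
    simp at h3
  have hsp₁ : Spn M (gd F P) B (fun i => (T i).π) (fun i => (T i).dir)
      (Finset.univ.image φ₁) := by
    refine h11_spn M (gd F P) B φ₁ hφ₁ _ _ ?_
    have e1 : (fun i => (T (φ₁ i)).π) = fun i => (T₁ i).π := funext fun i => by
      show (T (e _)).π = _
      rw [hTe]; rfl
    have e2 : (fun i => (T (φ₁ i)).dir) = fun i => (T₁ i).dir := funext fun i => by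
      show (T (e _)).dir = _
      rw [hTe]; rfl
    show Spn M (gd F P) B (fun i => (T (φ₁ i)).π) (fun i => (T (φ₁ i)).dir) Finset.univ
    rw [e1, e2]
    exact hs₁
  have hsp₂ : Spn M (gd F P) B (fun i => (T i).π) (fun i => (T i).dir)
      (Finset.univ.image φ₂) := by
    refine h11_spn M (gd F P) B φ₂ hφ₂ _ _ ?_
    have e1 : (fun i => (T (φ₂ i)).π) = fun i => (T₂ i).π := funext fun i => by
      show (T (e _)).π = _
      rw [hTe]; rfl
    have e2 : (fun i => (T (φ₂ i)).dir) = fun i => (T₂ i).dir := funext fun i => by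
      show (T (e _)).dir = _
      rw [hTe]; rfl
    show Spn M (gd F P) B (fun i => (T (φ₂ i)).π) (fun i => (T (φ₂ i)).dir) Finset.univ
    rw [e1, e2]
    exact hs₂
  obtain ⟨g, x₀, hg, hx₀, hc⟩ := hB (Fintype.card ι) (Tth.cmb T hT) (Finset.univ.image φ₁)
    (Finset.univ.image φ₂) hd hsp₁ hsp₂
  obtain ⟨c, x', hc0, hx', hcg⟩ := multiplier M ev hev π hπ N (fun j => g (e (Sum.inl j)))
    (fun j => hg _) x₀ (fun j a => (x j a : K)) (fun j a => rg_of_mem (x j a)) (fun j a => by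
      have h1 : Cg M.O (T (e (Sum.inl j))).ev (T (e (Sum.inl j))).π (T (e (Sum.inl j))).N
          (g (e (Sum.inl j)) * x₀ a)
          (jt (T (e (Sum.inl j))).π ρ (T (e (Sum.inl j))).N (T (e (Sum.inl j))).y a) :=
        hc (e (Sum.inl j)) a
      rw [hTe] at h1
      have h2 : Cg M.O (Sp j).ev (Sp j).π (Sp j).N (g (e (Sum.inl j)) * x₀ a)
        (jt (Sp j).π ρ (Sp j).N (Sp j).y a) := h1
      rw [hSe, hSπ, hSN] at h2
      exact hcg_trans h2 (hSj j a))
  refine ⟨x', ?_, hcg⟩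
  have h1 : ((MvPolynomial.eval x' F : M.O) : K) = 0 := by
    have h2 : ((MvPolynomial.eval x' F : M.O) : K) = MvPolynomial.eval (fun a => (x' a : K))
        (MvPolynomial.map (M.O.subtype : M.O →+* K) F) := by
      rw [MvPolynomial.eval_map]
      have := MvPolynomial.eval₂_comp (M.O.subtype : M.O →+* K) x' F
      exact this
    rw [h2]
    have h3 : (fun a => (x' a : K)) = fun a => c * x₀ a := funext hx'
    rw [h3, h11_hom _ (hF.map _), hx₀, mul_zero]
  exact_mod_cast h1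

end Q9
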