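import Pool.Agent.LibQ9.Defs

/-! # LibQ9, block P: transcendence degree of finite families, specialisations -/

set_option autoImplicit false

namespace Q9

open MvPolynomial

variable (k : Type) [Field k] {I Ω : Type} [Field Ω] [Algebra k Ω]

/-- the transcendence degree over `k` of the field (or ring) generated by a finite family -/
noncomputable def td (z : I → Ω) : ℕ :=
  Cardinal.toNat (Algebra.trdeg k (Algebra.adjoin k (Set.range z)))

/-- the field generated by the family `z` -/
abbrev fld (z : I → Ω) : IntermediateField k Ω := IntermediateField.adjoin k (Set.range z)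

/-- the element `z i` of the field generated by `z` -/
def fz (z : I → Ω) (i : I) : fld k z :=
  ⟨z i, IntermediateField.subset_adjoin k _ (Set.mem_range_self i)⟩

variable {k}

/-- `z` specialises to `z₀`: every polynomial over `k` vanishing at `z` vanishes at `z₀` -/
def Spz (z : I → Ω) (z₀ : I → k) : Prop :=
  ∀ Ψ : MvPolynomial I k, aeval z Ψ = 0 → eval z₀ Ψ = 0

/-- some power of every variable is in the ideal of the partial derivatives -/
def Sm {m : ℕ} (F : MvPolynomial (Fin m) k) : Prop :=
  ∃ M : ℕ, ∀ j, (X j : MvPolynomial (Fin m) k) ^ M ∈ Ideal.span (Set.range fun i => pderiv i F)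

theorem Sm.zero {m : ℕ} {F : MvPolynomial (Fin m) k} (h : Sm F) (x : Fin m → Ω)
    (hx : ∀ i, aeval x (pderiv i F) = 0) : x = 0 := by
  obtain ⟨M, hM⟩ := h
  funext j
  have h1 : aeval x ((X j : MvPolynomial (Fin m) k) ^ M) = 0 := by
    have h2 : Ideal.span (Set.range fun i => pderiv i F) ≤
        RingHom.ker (aeval x : MvPolynomial (Fin m) k →ₐ[k] Ω) := by
      rw [Ideal.span_le]
      rintro _ ⟨i, rfl⟩
      exact hx i
    exact h2 (hM j)
  rw [map_pow, aeval_X] at h1
  exact eq_zero_of_pow_eq_zero h1

end Q9
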