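import Pool.Agent.LibQ9.P6
import Pool.Agent.LibQ9.PDefs

/-!
[Q9 H15] Smooth over the algebraic closure implies `Sm` over the field.
-/

set_option autoImplicit false

namespace Q9

open Polynomial

private noncomputable def h15L {K L : Type} [Field K] [Field L] [Algebra K L] (l : L →ₗ[K] K)
    {n : ℕ} (H : MvPolynomial (Fin n) L) : MvPolynomial (Fin n) K :=
  ∑ m ∈ H.support, MvPolynomial.monomial m (l (H.coeff m))

private theorem h15L_coeff {K L : Type} [Field K] [Field L] [Algebra K L] (l : L →ₗ[K] K)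
    {n : ℕ} (H : MvPolynomial (Fin n) L) (m : Fin n →₀ ℕ) :
    (h15L l H).coeff m = l (H.coeff m) := by
  classical
  unfold h15L
  rw [MvPolynomial.coeff_sum]
  simp only [MvPolynomial.coeff_monomial]
  rw [Finset.sum_ite_eq' H.support m (fun m => l (H.coeff m))]
  by_cases h : m ∈ H.support
  · rw [if_pos h]
  · rw [if_neg h, MvPolynomial.notMem_support_iff.mp h, map_zero]

private theorem h15L_sum {K L : Type} [Field K] [Field L] [Algebra K L] (l : L →ₗ[K] K)
    {n : ℕ} {ι : Type} (s : Finset ι) (H : ι → MvPolynomial (Fin n) L) :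
    h15L l (∑ i ∈ s, H i) = ∑ i ∈ s, h15L l (H i) := by
  ext m
  rw [h15L_coeff, MvPolynomial.coeff_sum, map_sum, MvPolynomial.coeff_sum]
  exact Finset.sum_congr rfl fun i _ => (h15L_coeff l (H i) m).symm

private theorem h15L_mul {K L : Type} [Field K] [Field L] [Algebra K L] (l : L →ₗ[K] K)
    {n : ℕ} (G : MvPolynomial (Fin n) K) (H : MvPolynomial (Fin n) L) :
    h15L l (H * MvPolynomial.map (algebraMap K L) G) = h15L l H * G := by
  classical
  ext m
  rw [h15L_coeff, MvPolynomial.coeff_mul, MvPolynomial.coeff_mul, map_sum]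
  refine Finset.sum_congr rfl fun x _ => ?_
  rw [MvPolynomial.coeff_map, h15L_coeff, mul_comm (MvPolynomial.coeff x.1 H), ← Algebra.smul_def,
    map_smul, smul_eq_mul, mul_comm]

theorem sm_of_closure {K : Type} [Field K] {n : ℕ} (F : MvPolynomial (Fin n) K)
    (hs : ∀ x : Fin n → AlgebraicClosure K,
      (∀ i, MvPolynomial.aeval x (MvPolynomial.pderiv i F) = 0) → x = 0) : Sm F := by
  classical
  obtain ⟨M, hM⟩ := sm_of_smooth (MvPolynomial.map (algebraMap K (AlgebraicClosure K)) F) (by
    intro x hx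
    apply hs
    intro i
    rw [MvPolynomial.aeval_def, ← MvPolynomial.eval_map, ← MvPolynomial.pderiv_map]
    exact hx i)
  obtain ⟨l, hl⟩ := LinearMap.exists_leftInverse_of_injective
    (Algebra.linearMap K (AlgebraicClosure K))
    (LinearMap.ker_eq_bot.mpr (FaithfulSMul.algebraMap_injective K (AlgebraicClosure K)))
  have hl1 : ∀ a : K, l (algebraMap K (AlgebraicClosure K) a) = a := fun a =>
    LinearMap.congr_fun hl a
  refine ⟨M, fun j => ?_⟩
  obtain ⟨c, hc⟩ := (Ideal.mem_span_range_iff_exists_fun).mp (hM j)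
  rw [Ideal.mem_span_range_iff_exists_fun]
  refine ⟨fun i => h15L l (c i), ?_⟩
  have h1 : h15L l (∑ i, c i * MvPolynomial.pderiv i
      (MvPolynomial.map (algebraMap K (AlgebraicClosure K)) F)) =
      ∑ i, h15L l (c i) * MvPolynomial.pderiv i F := by
    rw [h15L_sum]
    refine Finset.sum_congr rfl fun i _ => ?_
    rw [MvPolynomial.pderiv_map, h15L_mul]
  rw [← h1, hc]
  ext m
  rw [h15L_coeff, MvPolynomial.coeff_X_pow, MvPolynomial.coeff_X_pow]
  split_ifs
  · rw [← map_one (algebraMap K (AlgebraicClosure K)), hl1]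
  · rw [map_zero]

end Q9
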