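import Pool.Agent.LibQ9.H1

/-!
[Q9 H2] (MEDIUM; may cite H1 as stated) Partial fractions.

PLAN. `C` from H1 `ts_split`. `k` is infinite: choose distinct `c_1 .. c_q ∉ Z`, `q = C + B`. If `q = 0`: `w = α + r` with `r a ∈ R = s^0 R` (`C = B = 0`), take `m = 0`. Otherwise `f = ∏ (t - c_i) ∈ O`, `f ≠ 0` (`M.inv`). `f w ∈ TS`, `f w = α + r`, so `w = α / f + r / f`; `1 / f = ∏ (t - c_i)⁻¹ = s^q ∏ (t (t - c_i)⁻¹)`, hence `r_a / f = (r_a s^C) s^B (element of R)`: `Inf M B`. `1 / f = Σ γ_i (t - c_i)⁻¹` with `γ_i = ∏_{l ≠ i} (c_i - c_l)⁻¹ ∈ k` (partial fractions, Lagrange: `Lagrange.sum_nodalWeight_mul_inv_sub_ne_zero` or `Lagrange` basis sum `= 1`, `eval` at `t`): `β i a = γ_i α a`.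
-/

set_option autoImplicit false

namespace Q9

open Polynomial

private theorem H2_frac {k K : Type} [Field k] [Field K] [Algebra k K] (t : K) (q : ℕ) (hq : 0 < q)
    (c : ℕ → k) (hc : Function.Injective c) (ht : ∀ x : k, t ≠ algebraMap k K x) :
    ∃ γ : Fin q → k, (∏ i : Fin q, (t - algebraMap k K (c i)))⁻¹ =
      ∑ i : Fin q, algebraMap k K (γ i) * (t - algebraMap k K (c i))⁻¹ := by
  classical
  set v : Fin q → K := fun i => algebraMap k K (c i) with hv
  have hinj : Set.InjOn v (Finset.univ : Finset (Fin q)) := by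
    intro i _ j _ h
    exact Fin.ext (hc ((algebraMap k K).injective h))
  have hne : (Finset.univ : Finset (Fin q)).Nonempty := ⟨⟨0, hq⟩, Finset.mem_univ _⟩
  have h1 := congrArg (Polynomial.eval t) (Lagrange.sum_basis hinj hne)
  rw [Polynomial.eval_finsetSum, Polynomial.eval_one] at h1
  have h2 : ∀ i ∈ (Finset.univ : Finset (Fin q)), Polynomial.eval t (Lagrange.basis Finset.univ v i) =
      Polynomial.eval t (Lagrange.nodal Finset.univ v) *
        (Lagrange.nodalWeight Finset.univ v i * (t - v i)⁻¹) := fun i hi =>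
    Lagrange.eval_basis_not_at_node hi (ht _)
  rw [Finset.sum_congr rfl h2, ← Finset.mul_sum, Lagrange.eval_nodal] at h1
  refine ⟨fun i => ∏ j ∈ (Finset.univ : Finset (Fin q)).erase i, (c i - c j)⁻¹, ?_⟩
  have h3 : ∀ i : Fin q, algebraMap k K (∏ j ∈ (Finset.univ : Finset (Fin q)).erase i, (c i - c j)⁻¹) =
      Lagrange.nodalWeight Finset.univ v i := by
    intro i
    unfold Lagrange.nodalWeight
    rw [map_prod]
    refine Finset.prod_congr rfl fun j _ => ?_
    rw [map_inv₀, map_sub]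
  simp only [h3]
  exact (eq_inv_of_mul_eq_one_right h1).symm

theorem ts_frac {k K : Type} [Field k] [Infinite k] [Field K] [Algebra k K] (M : Mdl k K) {n : ℕ}
    (Fd : Fin (n + 1) → M.O) (B : ℕ) (Z : Finset k) : ∃ (m : ℕ) (c : Fin m → k), (∀ i, c i ∉ Z) ∧
      ∀ w : Fin (n + 1) → K, w ∈ TS Fd → ∃ (α : Fin (n + 1) → M.O) (r : Fin (n + 1) → K)
        (β : Fin m → Fin (n + 1) → M.O), ∑ a, (Fd a : K) * (α a : K) = 0 ∧
        ∑ a, (Fd a : K) * r a = 0 ∧ (∀ a, Inf M B (r a)) ∧
        (∀ i, ∑ a, (Fd a : K) * (β i a : K) = 0) ∧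
        ∀ a, w a = α a + r a + ∑ i, (β i a : K) * ((M.t : K) - algebraMap k K (c i))⁻¹ := by
  classical
  obtain ⟨C, hC⟩ := ts_split M Fd
  rcases Nat.eq_zero_or_pos (C + B) with hq | hq
  · have hC0 : C = 0 := by omega
    have hB0 : B = 0 := by omega
    subst hC0
    subst hB0
    refine ⟨0, Fin.elim0, fun i => i.elim0, fun w hw => ?_⟩
    obtain ⟨α, r, h1, h2, h3, h4⟩ := hC w hw
    refine ⟨α, r, Fin.elim0, h1, h2, fun a => ⟨r a, ?_, ?_⟩, fun i => i.elim0, fun a => ?_⟩
    · have := h3 a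
      rwa [pow_zero, mul_one] at this
    · rw [pow_zero, mul_one]
    · rw [h4 a, Fin.sum_univ_zero, add_zero]
  · have hinf : (Z : Set k)ᶜ.Infinite := Z.finite_toSet.infinite_compl
    set c : ℕ → k := fun i => (hinf.natEmbedding _ i : k) with hcdef
    have hcinj : Function.Injective c := fun i j h =>
      (hinf.natEmbedding _).injective (Subtype.ext h)
    have hcZ : ∀ i, c i ∉ Z := fun i => by
      have h0 := (hinf.natEmbedding _ i).2
      exact fun h => h0 (Finset.mem_coe.2 h)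
    have htne : ∀ x : k, (M.t : K) ≠ algebraMap k K x := fun x => (M.inv x).1
    have ht0 : (M.t : K) ≠ 0 := by
      have := htne 0
      rwa [map_zero] at this
    obtain ⟨γ, hγ⟩ := H2_frac (M.t : K) (C + B) hq c hcinj htne
    refine ⟨C + B, fun i => c i, fun i => hcZ i, fun w hw => ?_⟩
    set f : M.O := ∏ i : Fin (C + B), (M.t - algebraMap k M.O (c i)) with hf
    have hfK : (f : K) = ∏ i : Fin (C + B), ((M.t : K) - algebraMap k K (c i)) := by
      rw [hf]
      have := map_prod (M.O.subtype) (fun i : Fin (C + B) => M.t - algebraMap k M.O (c i)) Finset.univ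
      exact this
    have hf0 : (f : K) ≠ 0 := by
      rw [hfK]
      exact Finset.prod_ne_zero_iff.2 fun i _ => sub_ne_zero.2 (htne _)
    have hfw : (fun a => (f : K) * w a) ∈ TS Fd := by
      show ∑ a, (Fd a : K) * ((f : K) * w a) = 0
      have hw' : ∑ a, (Fd a : K) * w a = 0 := hw
      have h1 : ∀ a, (Fd a : K) * ((f : K) * w a) = (f : K) * ((Fd a : K) * w a) := fun a => by ring
      rw [Finset.sum_congr rfl fun a _ => h1 a, ← Finset.mul_sum, hw', mul_zero]
    obtain ⟨α, r, h1, h2, h3, h4⟩ := hC _ hfw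
    refine ⟨fun _ => 0, fun a => r a * (f : K)⁻¹, fun i a => algebraMap k M.O (γ i) * α a,
      by simp, ?_, fun a => ?_, fun i => ?_, fun a => ?_⟩
    · have h5 : ∀ a, (Fd a : K) * (r a * (f : K)⁻¹) = ((Fd a : K) * r a) * (f : K)⁻¹ := fun a => by ring
      rw [Finset.sum_congr rfl fun a _ => h5 a, ← Finset.sum_mul, h2, zero_mul]
    · refine ⟨r a * (M.t : K)⁻¹ ^ C *
        ∏ i : Fin (C + B), ((M.t : K) * ((M.t : K) - algebraMap k K (c i))⁻¹), ?_, ?_⟩
      · exact M.R.mul_mem (h3 a) (prod_mem fun i _ => (M.inv _).2)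
      · show r a * (f : K)⁻¹ = _
        rw [hfK, Finset.prod_mul_distrib, Finset.prod_const, Finset.card_univ, Fintype.card_fin,
          Finset.prod_inv_distrib, inv_pow, inv_pow, pow_add]
        field_simp
    · have h5 : ∀ a, (Fd a : K) * ((algebraMap k M.O (γ i) * α a : M.O) : K) =
          algebraMap k K (γ i) * ((Fd a : K) * (α a : K)) := fun a => by
        rw [Subalgebra.coe_mul, Subalgebra.coe_algebraMap]
        ring
      rw [Finset.sum_congr rfl fun a _ => h5 a, ← Finset.mul_sum, h1, mul_zero]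
    · have h5 : w a = (α a : K) * (f : K)⁻¹ + r a * (f : K)⁻¹ := by
        have h6 := h4 a
        rw [← add_mul, ← h6]
        field_simp
      rw [h5]
      have h6 : (α a : K) * (f : K)⁻¹ = ∑ i : Fin (C + B), ((algebraMap k M.O (γ i) * α a : M.O) : K) *
          ((M.t : K) - algebraMap k K (c i))⁻¹ := by
        rw [hfK, hγ, Finset.mul_sum]
        refine Finset.sum_congr rfl fun i _ => ?_
        rw [Subalgebra.coe_mul, Subalgebra.coe_algebraMap]
        ring
      rw [h6]
      show _ = ((0 : M.O) : K) + r a * (f : K)⁻¹ + _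
      rw [Subalgebra.coe_zero, zero_add, add_comm]

end Q9
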