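import Pool.Agent.LibQ9.H0a

/-!
[Q9 H3] (SHORT/MEDIUM; may cite H0a as stated) Lifts of tangent directions; residues.

PLAN. `lift_dir`: `f = Σ Fd_a v_a ∈ O`, `ev f = 0`, so `f π ∈ O`. `ρ = Σ Fd_a β_a` (`IN`), `ρ₀ = ev ρ ≠ 0`. `h = 1 - ρ₀⁻¹ ρ ∈ O`, `ev h = 0`, `h π ∈ O`. `f π = f (h π) + ρ₀⁻¹ ρ (f π)`: `= Σ Fd_a (v_a (h π) + ρ₀⁻¹ β_a (f π))`, so `α_a = v_a (h π) + ρ₀⁻¹ β_a (f π)`.
`dir_of_pole`: (residue) the poles `π i` are regular at `ev j` for `i ≠ j` (`rg_other`), so from `Σ_i f_i π_i + g = 0` with `f_i, g ∈ O` one gets: `f_j π_j` regular at `ev j`, hence `ev j f_j = 0`: if `ev j f_j ≠ 0`, then `π_j` is regular (`rg_inv`, `rg_mul`), `h π_j ∈ O`, `ev h ≠ 0`; but `v = h' π_j`, `ev h' = 0`, `ev v ≠ 0`: `h v = h' (h π_j)`, values `ev h * ev v ≠ 0 = ev h' * ..`. Apply with `f_i = Σ_a Fd_a v_(i,a)`.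
-/

set_option autoImplicit false

namespace Q9

open Polynomial

theorem lift_dir {k K : Type} [Field k] [Field K] [Algebra k K] {O : Subalgebra k K} {n : ℕ}
    (Fd : Fin (n + 1) → O) (ρ : O) (hρ : IN Fd (ρ : K)) {ev : O →ₐ[k] k} {π : K}
    (hπ : Pole O ev π) (hρ0 : ev ρ ≠ 0) (v : Fin (n + 1) → k) (hv : ∑ a, ev (Fd a) * v a = 0) :
    ∃ α : Fin (n + 1) → O, ∑ a, (Fd a : K) * (algebraMap k K (v a) * π - α a) = 0 := by
  obtain ⟨β, hβ⟩ := hρ
  obtain ⟨c, hc⟩ : ∃ c : k, c = (ev ρ)⁻¹ := ⟨_, rfl⟩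
  obtain ⟨f, hfdef⟩ : ∃ f : O, f = ∑ a, Fd a * algebraMap k O (v a) := ⟨_, rfl⟩
  obtain ⟨h, hhdef⟩ : ∃ h : O, h = 1 - algebraMap k O c * ρ := ⟨_, rfl⟩
  have hf : ev f = 0 := by
    rw [hfdef, map_sum, ← hv]
    refine Finset.sum_congr rfl fun a _ => ?_
    rw [map_mul, AlgHom.commutes]
    rfl
  have hh : ev h = 0 := by
    rw [hhdef, map_sub, map_one, map_mul, AlgHom.commutes, hc]
    show 1 - (ev ρ)⁻¹ * ev ρ = 0
    rw [inv_mul_cancel₀ hρ0, sub_self]
  have e1 := pole_mul hπ f hf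
  have e2 := pole_mul hπ h hh
  have hfK : (f : K) = ∑ a, (Fd a : K) * algebraMap k K (v a) := by
    rw [hfdef]
    push_cast
    rfl
  have hhK : (h : K) = 1 - algebraMap k K c * (ρ : K) := by
    rw [hhdef]
    push_cast
    rfl
  refine ⟨fun a => algebraMap k O (v a) * ⟨_, e2⟩ + algebraMap k O c * β a * ⟨_, e1⟩, ?_⟩
  have hs : ∀ a, (Fd a : K) * (algebraMap k K (v a) * π -
      ((algebraMap k O (v a) * ⟨_, e2⟩ + algebraMap k O c * β a * ⟨_, e1⟩ : O) : K)) =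
      ((Fd a : K) * algebraMap k K (v a)) * (π - (h : K) * π) -
        ((Fd a : K) * β a) * (algebraMap k K c * ((f : K) * π)) := by
    intro a
    have h1 : ((algebraMap k O (v a) * ⟨_, e2⟩ + algebraMap k O c * β a * ⟨_, e1⟩ : O) : K) =
        algebraMap k K (v a) * ((h : K) * π) + algebraMap k K c * β a * ((f : K) * π) := rfl
    rw [h1]
    ring
  rw [Finset.sum_congr rfl fun a _ => hs a, Finset.sum_sub_distrib, ← Finset.sum_mul,
    ← Finset.sum_mul, ← hfK, ← hβ, hhK]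
  ring

theorem dir_of_pole {k K : Type} [Field k] [Field K] [Algebra k K] {O : Subalgebra k K} {n q : ℕ}
    (Fd : Fin (n + 1) → O) (ev : Fin q → (O →ₐ[k] k)) (hev : Function.Injective ev)
    (π : Fin q → K) (hπ : ∀ i, Pole O (ev i) (π i)) (v : Fin q → Fin (n + 1) → k)
    (β : Fin (n + 1) → O)
    (h : ∑ a, (Fd a : K) * (β a + ∑ i, algebraMap k K (v i a) * π i) = 0) (j : Fin q) :
    ∑ a, ev j (Fd a) * v j a = 0 := by
  by_contra hne
  obtain ⟨f, hf⟩ : ∃ f : Fin q → O, f = fun i => ∑ a, Fd a * algebraMap k O (v i a) := ⟨_, rfl⟩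
  have hfj : ev j (f j) ≠ 0 := by
    intro h0
    apply hne
    rw [← h0, hf]
    show _ = ev j (∑ a, Fd a * algebraMap k O (v j a))
    rw [map_sum]
    refine Finset.sum_congr rfl fun a _ => ?_
    rw [map_mul, AlgHom.commutes]
    rfl
  have hfK : ∀ i, (f i : K) = ∑ a, (Fd a : K) * algebraMap k K (v i a) := by
    intro i
    rw [hf]
    push_cast
    rfl
  have hg : ((∑ a, Fd a * β a : O) : K) = ∑ a, (Fd a : K) * β a := by
    push_cast
    rfl
  have hsum : ((∑ a, Fd a * β a : O) : K) + ∑ i, (f i : K) * π i = 0 := by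
    rw [← h, hg]
    have h1 : ∀ i, (f i : K) * π i = ∑ a, (Fd a : K) * (algebraMap k K (v i a) * π i) := by
      intro i
      rw [hfK, Finset.sum_mul]
      exact Finset.sum_congr rfl fun a _ => mul_assoc _ _ _
    rw [Finset.sum_congr rfl fun i _ => h1 i, Finset.sum_comm, ← Finset.sum_add_distrib]
    refine Finset.sum_congr rfl fun a _ => ?_
    rw [mul_add, Finset.mul_sum]
  have hsplit : (f j : K) * π j =
      -(((∑ a, Fd a * β a : O) : K) + ∑ i ∈ Finset.univ.erase j, (f i : K) * π i) := by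
    rw [← Finset.add_sum_erase Finset.univ (fun i => (f i : K) * π i) (Finset.mem_univ j)] at hsum
    linear_combination hsum
  have hrg1 : Rg O (ev j) ((f j : K) * π j) := by
    rw [hsplit]
    have h0 : Rg O (ev j) (((∑ a, Fd a * β a : O) : K) +
        ∑ i ∈ Finset.univ.erase j, (f i : K) * π i) := by
      refine rg_add (rg_of_mem _) (rg_sum _ _ fun i hi => rg_mul (rg_of_mem _) ?_)
      refine rg_other (hπ i) fun hij => ?_
      exact (Finset.ne_of_mem_erase hi) (hev hij).symm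
    have h2 := rg_sub (rg_of_mem (ev := ev j) (0 : O)) h0
    simpa using h2
  have hfjK : (f j : K) ≠ 0 := by
    intro h0
    apply hfj
    have : f j = 0 := Subtype.ext h0
    rw [this, map_zero]
  have hrg2 : Rg O (ev j) (π j) := by
    have h0 := rg_mul (rg_inv (f j) hfj) hrg1
    rwa [← mul_assoc, inv_mul_cancel₀ hfjK, one_mul] at h0
  obtain ⟨d, hd, hdm⟩ := hrg2
  obtain ⟨h', u, hh', hu, hu0⟩ := (hπ j).2
  have hk : d * u = h' * ⟨_, hdm⟩ := by
    apply Subtype.ext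
    show (d : K) * u = h' * ((d : K) * π j)
    rw [hu]
    ring
  have hk2 := congrArg (ev j) hk
  rw [map_mul, map_mul, hh', zero_mul] at hk2
  exact (mul_ne_zero hd hu0) hk2

end Q9
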