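import Pool.Agent.LibQ9.H2
import Pool.Agent.LibQ9.H3

/-!
[Q9 H4] The lifts of tangent directions at places outside a finite set generate `TS` modulo `TN`.
-/

set_option autoImplicit false

namespace Q9

open Polynomial

/-- two poles at the same place -/
theorem pole_cmp {k K : Type} [Field k] [Field K] [Algebra k K] {O : Subalgebra k K}
    {ev : O →ₐ[k] k} {π π' : K} (hπ : Pole O ev π) (hπ' : Pole O ev π') :
    ∃ (c : k) (f : O), π' = algebraMap k K c * π + f := by
  obtain ⟨h1, h, v, hh, hv, hv0⟩ := hπ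
  obtain ⟨h1', h', v', hh', hv', hv0'⟩ := hπ'
  have hg : (h : K) * π' ∈ O := by
    have := h1' h
    rwa [hh, map_zero, sub_zero] at this
  obtain ⟨g, hg'⟩ : ∃ g : O, (g : K) = h * π' := ⟨⟨_, hg⟩, rfl⟩
  have e1 : ((g : K) - algebraMap k K (ev g)) * π ∈ O := h1 g
  have e2 : ((v : K) - algebraMap k K (ev v)) * π' ∈ O := h1' v
  refine ⟨(ev v)⁻¹ * ev g, ⟨algebraMap k K (ev v)⁻¹ * (((g : K) - algebraMap k K (ev g)) * π -
    ((v : K) - algebraMap k K (ev v)) * π'), O.mul_mem (O.algebraMap_mem _) (O.sub_mem e1 e2)⟩, ?_⟩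
  have h2 : algebraMap k K (ev v)⁻¹ * algebraMap k K (ev v) = 1 := by
    rw [← map_mul, inv_mul_cancel₀ hv0, map_one]
  have h3 : (g : K) * π = v * π' := by
    rw [hg', hv]
    ring
  change π' = algebraMap k K ((ev v)⁻¹ * ev g) * π + algebraMap k K (ev v)⁻¹ *
    (((g : K) - algebraMap k K (ev g)) * π - ((v : K) - algebraMap k K (ev v)) * π')
  rw [map_mul]
  calc π' = (algebraMap k K (ev v)⁻¹ * algebraMap k K (ev v)) * π' := by rw [h2, one_mul]
    _ = algebraMap k K (ev v)⁻¹ * algebraMap k K (ev g) * π + algebraMap k K (ev v)⁻¹ *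
        ((g : K) * π - algebraMap k K (ev g) * π -
          ((v : K) - algebraMap k K (ev v)) * π') := by
        rw [h3]
        ring
    _ = _ := by ring

private theorem H4_gen {k K : Type} [Field k] [Field K] [Algebra k K] {O : Subalgebra k K} {q : ℕ}
    (ev : Fin q → (O →ₐ[k] k)) (π : Fin q → K) (hp : ∀ i, Pole O (ev i) (π i)) :
    ∃ (q' : ℕ) (ev' : Fin q' → (O →ₐ[k] k)) (π' : Fin q' → K), Function.Injective ev' ∧
      (∀ j, ∃ i, ev' j = ev i ∧ π' j = π i) ∧
      ∀ μ : Fin q → k, ∃ μ' : Fin q' → k,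
        ∑ i, algebraMap k K (μ i) * π i - ∑ j, algebraMap k K (μ' j) * π' j ∈ O := by
  classical
  let E : Finset (O →ₐ[k] k) := Finset.univ.image ev
  let e : Fin E.card ≃ E := E.equivFin.symm
  have hs : ∀ p : E, ∃ i, ev i = p := by
    intro p
    obtain ⟨i, _, hi⟩ := Finset.mem_image.1 p.2
    exact ⟨i, hi⟩
  choose s hs using hs
  have hmem : ∀ i, ev i ∈ E := fun i => Finset.mem_image_of_mem ev (Finset.mem_univ i)
  let idx : Fin q → Fin E.card := fun i => e.symm ⟨ev i, hmem i⟩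
  have hidx : ∀ i, ((e (idx i) : E) : O →ₐ[k] k) = ev i := by
    intro i
    simp only [idx, Equiv.apply_symm_apply]
  have hcmp : ∀ i, ∃ (c : k) (f : O), π i = algebraMap k K c * π (s (e (idx i))) + f := by
    intro i
    have h1 := hp (s (e (idx i)))
    rw [hs, hidx] at h1
    exact pole_cmp h1 (hp i)
  choose c f hcf using hcmp
  refine ⟨E.card, fun j => (e j : O →ₐ[k] k), fun j => π (s (e j)), ?_, ?_, ?_⟩
  · intro j j' hjj
    exact e.injective (Subtype.ext hjj)
  · intro j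
    exact ⟨s (e j), (hs (e j)).symm, rfl⟩
  · intro μ
    refine ⟨fun j => ∑ i ∈ Finset.univ.filter (fun i => idx i = j), μ i * c i, ?_⟩
    have h1 : ∑ j, algebraMap k K (∑ i ∈ Finset.univ.filter (fun i => idx i = j), μ i * c i) *
        π (s (e j)) = ∑ i, algebraMap k K (μ i * c i) * π (s (e (idx i))) := by
      rw [← Finset.sum_fiberwise Finset.univ idx
        (fun i => algebraMap k K (μ i * c i) * π (s (e (idx i))))]
      refine Finset.sum_congr rfl fun j _ => ?_
      rw [map_sum, Finset.sum_mul]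
      refine Finset.sum_congr rfl fun i hi => ?_
      rw [(Finset.mem_filter.1 hi).2]
    rw [h1, ← Finset.sum_sub_distrib]
    refine O.sum_mem fun i _ => ?_
    have h2 : algebraMap k K (μ i) * π i - algebraMap k K (μ i * c i) * π (s (e (idx i))) =
        algebraMap k K (μ i) * f i := by
      conv_lhs => rw [hcf i, map_mul]
      ring
    rw [h2]
    exact O.mul_mem (O.algebraMap_mem _) (f i).2

private theorem H4_lift {k K : Type} [Field k] [Field K] [Algebra k K] (M : Mdl k K) {n : ℕ}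
    (Fd : Fin (n + 1) → M.O) (ρ : M.O) (hρ : IN Fd (ρ : K)) (Z : Finset k)
    (D : (M.O →ₐ[k] k) → Set (Fin (n + 1) → k))
    (hDT : ∀ ev : M.O →ₐ[k] k, ev M.t ∉ Z → ∀ v ∈ D ev, ∑ a, ev (Fd a) * v a = 0)
    {ev : M.O →ₐ[k] k} {π : K} (hπ : Pole M.O ev π) (hρ0 : ev ρ ≠ 0) (hZ : ev M.t ∉ Z)
    {v : Fin (n + 1) → k} (hv : v ∈ Submodule.span k (D ev)) :
    ∃ α : Fin (n + 1) → M.O, (fun a => algebraMap k K (v a) * π - α a) ∈
      Submodule.span k (TL M Fd Z D) := by
  induction hv using Submodule.span_induction with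
  | mem v hv =>
    obtain ⟨α, hα⟩ := lift_dir Fd ρ hρ hπ hρ0 v (hDT ev hZ v hv)
    exact ⟨α, Submodule.subset_span ⟨hα, ev, π, v, α, hZ, hπ, hv, fun _ => rfl⟩⟩
  | zero =>
    refine ⟨fun _ => 0, ?_⟩
    have : (fun a : Fin (n + 1) => algebraMap k K ((0 : Fin (n + 1) → k) a) * π -
        ((0 : M.O) : K)) = 0 := by
      funext a
      simp
    rw [this]
    exact Submodule.zero_mem _
  | add v v' _ _ h h' =>
    obtain ⟨α, hα⟩ := h
    obtain ⟨α', hα'⟩ := h'
    refine ⟨fun a => α a + α' a, ?_⟩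
    have : (fun a : Fin (n + 1) => algebraMap k K ((v + v') a) * π - ((α a + α' a : M.O) : K)) =
        (fun a => algebraMap k K (v a) * π - (α a : K)) +
          (fun a => algebraMap k K (v' a) * π - (α' a : K)) := by
      funext a
      rw [Pi.add_apply, Pi.add_apply, map_add, Subalgebra.coe_add]
      ring
    rw [this]
    exact Submodule.add_mem _ hα hα'
  | smul c v _ h =>
    obtain ⟨α, hα⟩ := h
    refine ⟨fun a => c • α a, ?_⟩
    have : (fun a : Fin (n + 1) => algebraMap k K ((c • v) a) * π - ((c • α a : M.O) : K)) =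
        c • (fun a => algebraMap k K (v a) * π - (α a : K)) := by
      funext a
      rw [Pi.smul_apply, Pi.smul_apply, smul_eq_mul, map_mul, Subalgebra.coe_smul,
        Algebra.smul_def, Algebra.smul_def]
      ring
    rw [this]
    exact Submodule.smul_mem _ c hα

theorem ts_gen {k K : Type} [Field k] [Infinite k] [Field K] [Algebra k K] (M : Mdl k K) {n : ℕ}
    (Fd : Fin (n + 1) → M.O) (ρ : M.O) (hρ : IN Fd (ρ : K)) (hρ0 : ρ ≠ 0) (B : ℕ) (Z : Finset k)
    (D : (M.O →ₐ[k] k) → Set (Fin (n + 1) → k))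
    (hD : ∀ ev : M.O →ₐ[k] k, ev M.t ∉ Z → ∀ v : Fin (n + 1) → k, ∑ a, ev (Fd a) * v a = 0 →
      v ∈ Submodule.span k (D ev))
    (hDT : ∀ ev : M.O →ₐ[k] k, ev M.t ∉ Z → ∀ v ∈ D ev, ∑ a, ev (Fd a) * v a = 0) :
    TS Fd ≤ TN M Fd B ⊔ Submodule.span k (TL M Fd Z D) := by
  classical
  obtain ⟨Z₁, hZ₁⟩ := M.nz ρ hρ0
  obtain ⟨Z₂, hZ₂⟩ := M.gen
  obtain ⟨m, c, hc, hfrac⟩ := ts_frac M Fd B (Z ∪ Z₁ ∪ Z₂)
  intro w hw
  obtain ⟨α, r, β, h1, h2, h3, h4, h5⟩ := hfrac w hw
  have hcZ : ∀ i, c i ∉ Z ∧ c i ∉ Z₁ ∧ c i ∉ Z₂ := by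
    intro i
    have := hc i
    simp only [Finset.mem_union, not_or] at this
    exact ⟨this.1.1, this.1.2, this.2⟩
  have hTLTS : Submodule.span k (TL M Fd Z D) ≤ TS Fd :=
    Submodule.span_le.2 fun u hu => hu.1
  have key : ∀ i, (fun a => (β i a : K) * ((M.t : K) - algebraMap k K (c i))⁻¹) ∈
      TN M Fd B ⊔ Submodule.span k (TL M Fd Z D) := by
    intro i
    obtain ⟨hi0, hi1, hi2⟩ := hcZ i
    obtain ⟨q, ev, π, hev, hf⟩ := hZ₂ (c i) hi2
    obtain ⟨q', ev', π', hinj, hev', hμ⟩ := H4_gen ev π (fun l => (hev l).2)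
    have hf' : ∀ f : M.O, ∃ μ : Fin q' → k, (f : K) * ((M.t : K) - algebraMap k K (c i))⁻¹ -
        ∑ l, algebraMap k K (μ l) * π' l ∈ M.O := by
      intro f
      obtain ⟨μ, hμf⟩ := hf f
      obtain ⟨μ', hμ'⟩ := hμ μ
      refine ⟨μ', ?_⟩
      have := M.O.add_mem hμf hμ'
      rwa [sub_add_sub_cancel] at this
    choose v hv using fun a => hf' (β i a)
    have hpole : ∀ l, Pole M.O (ev' l) (π' l) ∧ ev' l M.t = c i := by
      intro l
      obtain ⟨j, e1, e2⟩ := hev' l
      rw [e1, e2]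
      exact ⟨(hev j).2, (hev j).1⟩
    let b : Fin (n + 1) → M.O := fun a => ⟨_, hv a⟩
    have hb : ∀ a, (β i a : K) * ((M.t : K) - algebraMap k K (c i))⁻¹ =
        b a + ∑ l, algebraMap k K (v a l) * π' l := by
      intro a
      change _ = ((β i a : K) * ((M.t : K) - algebraMap k K (c i))⁻¹ -
        ∑ l, algebraMap k K (v a l) * π' l) + ∑ l, algebraMap k K (v a l) * π' l
      ring
    have hwi : (fun a => (β i a : K) * ((M.t : K) - algebraMap k K (c i))⁻¹) ∈ TS Fd := by
      change ∑ a, (Fd a : K) * ((β i a : K) * ((M.t : K) - algebraMap k K (c i))⁻¹) = 0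
      have : ∑ a, (Fd a : K) * ((β i a : K) * ((M.t : K) - algebraMap k K (c i))⁻¹) =
          (∑ a, (Fd a : K) * (β i a : K)) * ((M.t : K) - algebraMap k K (c i))⁻¹ := by
        rw [Finset.sum_mul]
        exact Finset.sum_congr rfl fun a _ => by ring
      rw [this, h4 i, zero_mul]
    have htan : ∀ l, ∑ a, ev' l (Fd a) * v a l = 0 := by
      intro l
      refine dir_of_pole Fd ev' hinj π' (fun l => (hpole l).1) (fun l a => v a l) b ?_ l
      have h6 : ∑ a, (Fd a : K) * ((β i a : K) * ((M.t : K) - algebraMap k K (c i))⁻¹) = 0 := hwi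
      rw [← h6]
      exact Finset.sum_congr rfl fun a _ => by rw [hb a]
    have hlift : ∀ l, ∃ α' : Fin (n + 1) → M.O, (fun a => algebraMap k K (v a l) * π' l - α' a) ∈
        Submodule.span k (TL M Fd Z D) := by
      intro l
      have e1 : ev' l M.t ∉ Z := by rw [(hpole l).2]; exact hi0
      have e2 : ev' l ρ ≠ 0 := hZ₁ (ev' l) (by rw [(hpole l).2]; exact hi1)
      exact H4_lift M Fd ρ hρ Z D hDT (hpole l).1 e2 e1
        (v := fun a => v a l) (hD (ev' l) e1 (fun a => v a l) (htan l))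
    choose α' hα' using hlift
    have hsum : (∑ l, fun a => algebraMap k K (v a l) * π' l - (α' l a : K)) ∈
        Submodule.span k (TL M Fd Z D) := Submodule.sum_mem _ fun l _ => hα' l
    have heq : (fun a => (β i a : K) * ((M.t : K) - algebraMap k K (c i))⁻¹) =
        (fun a => ((b a + ∑ l, α' l a : M.O) : K)) +
          ∑ l, fun a => algebraMap k K (v a l) * π' l - (α' l a : K) := by
      funext a
      rw [Pi.add_apply, Finset.sum_apply, hb a, Subalgebra.coe_add, AddSubmonoidClass.coe_finsetSum,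
        Finset.sum_sub_distrib]
      ring
    have hO : (fun a => ((b a + ∑ l, α' l a : M.O) : K)) ∈ TS Fd := by
      have h7 := Submodule.sub_mem _ hwi (hTLTS hsum)
      rw [heq, add_sub_cancel_right] at h7
      exact h7
    rw [heq]
    refine Submodule.add_mem _ (Submodule.mem_sup_left ?_) (Submodule.mem_sup_right hsum)
    exact ⟨fun a => b a + ∑ l, α' l a, fun _ => 0, hO, by simp,
      fun _ => ⟨0, M.R.zero_mem, by simp⟩, fun a => (add_zero _).symm⟩
  have hw' : w = (fun a => (α a : K) + r a) +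
      ∑ i, fun a => (β i a : K) * ((M.t : K) - algebraMap k K (c i))⁻¹ := by
    funext a
    rw [Pi.add_apply, Finset.sum_apply, h5 a]
  rw [hw']
  refine Submodule.add_mem _ (Submodule.mem_sup_left ?_) (Submodule.sum_mem _ fun i _ => key i)
  exact ⟨α, r, h1, h2, h3, fun _ => rfl⟩

end Q9
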