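import Mathlib

/-!
[Q9 H5a] (SHORT/MEDIUM, pure linear algebra) A greedy choice of generators with distinct labels.

PLAN. Induction on `d = finrank (T / V)` for submodules `N ≤ V ≤ T`: claim: for every `V` with `N ≤ V ≤ T`, `T / V` of finite dimension at most `d` and every finite `Z` there are `m`, `x`, `v` as in the statement with `T ≤ V ⊔ span (range v)`. If `V = T` take `m = 0`. Otherwise by `hgen Z` some `(x, v) ∈ G`, `x ∉ Z`, has `v ∉ V` (else `T ≤ N ⊔ span ≤ V`); apply the induction hypothesis to `V ⊔ span {v}` and `insert x Z`; append (`Fin.cons`). Finite dimension of `T / N`: `T ≤ N ⊔ U`; measure: `finrank` of the image of `V` in the quotient, or of `(N ⊔ U) ⧸ ..`; e.g. use the map `U → (ambient) / V` and `finrank` of its range, which drops.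
-/

set_option autoImplicit false

namespace Q9

theorem greedy {k V X : Type} [Field k] [AddCommGroup V] [Module k V] [DecidableEq X]
    (T N : Submodule k V) (hNT : N ≤ T) (U : Submodule k V) [FiniteDimensional k U]
    (hU : T ≤ N ⊔ U) (G : Set (X × V)) (hG : ∀ g ∈ G, g.2 ∈ T)
    (hgen : ∀ Z : Finset X, T ≤ N ⊔ Submodule.span k {v | ∃ x, x ∉ Z ∧ (x, v) ∈ G}) (Z : Finset X) :
    ∃ (m : ℕ) (x : Fin m → X) (v : Fin m → V), Function.Injective x ∧ (∀ i, x i ∉ Z) ∧
      (∀ i, (x i, v i) ∈ G) ∧ T ≤ N ⊔ Submodule.span k (Set.range v) := by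
  classical
  have key : ∀ d : ℕ, ∀ W : Submodule k V, N ≤ W → W ≤ T → Module.finrank k (T.map W.mkQ) ≤ d →
      ∀ Z : Finset X, ∃ (m : ℕ) (x : Fin m → X) (v : Fin m → V), Function.Injective x ∧ (∀ i, x i ∉ Z) ∧
        (∀ i, (x i, v i) ∈ G) ∧ T ≤ W ⊔ Submodule.span k (Set.range v) := by
    have hfd : ∀ W : Submodule k V, N ≤ W → FiniteDimensional k (T.map W.mkQ) := by
      intro W hNW
      have h1 : T.map W.mkQ ≤ U.map W.mkQ := by
        refine le_trans (Submodule.map_mono hU) ?_
        rw [Submodule.map_sup]
        have h2 : N.map W.mkQ = ⊥ := by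
          rw [eq_bot_iff]
          rintro _ ⟨n, hn, rfl⟩
          rw [Submodule.mem_bot]
          exact (Submodule.Quotient.mk_eq_zero W).2 (hNW hn)
        rw [h2, bot_sup_eq]
      exact Submodule.finiteDimensional_of_le h1
    intro d
    induction d with
    | zero =>
      intro W hNW _ hd Z
      have := hfd W hNW
      have h0 : T.map W.mkQ = ⊥ := Submodule.finrank_eq_zero.1 (Nat.le_zero.1 hd)
      refine ⟨0, Fin.elim0, Fin.elim0, fun i => i.elim0, fun i => i.elim0, fun i => i.elim0, ?_⟩
      refine le_trans ?_ le_sup_left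
      intro t ht
      have h1 : W.mkQ t ∈ T.map W.mkQ := Submodule.mem_map_of_mem ht
      rw [h0, Submodule.mem_bot] at h1
      exact (Submodule.Quotient.mk_eq_zero W).1 h1
    | succ d ih =>
      intro W hNW hWT hd Z
      by_cases hTW : T ≤ W
      · exact ⟨0, Fin.elim0, Fin.elim0, fun i => i.elim0, fun i => i.elim0, fun i => i.elim0,
          le_trans hTW le_sup_left⟩
      · obtain ⟨x, v, hx, hxv, hv⟩ : ∃ x v, x ∉ Z ∧ (x, v) ∈ G ∧ v ∉ W := by
          by_contra hcon
          apply hTW
          refine le_trans (hgen Z) (sup_le hNW (Submodule.span_le.2 ?_))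
          rintro v ⟨x, hx, hxv⟩
          by_contra hvW
          exact hcon ⟨x, v, hx, hxv, hvW⟩
        have hvT : v ∈ T := hG _ hxv
        obtain ⟨W', hW'⟩ : ∃ W' : Submodule k V, W' = W ⊔ Submodule.span k {v} := ⟨_, rfl⟩
        have hWW' : W ≤ W' := by rw [hW']; exact le_sup_left
        have hvW' : v ∈ W' := by
          rw [hW']
          exact Submodule.mem_sup_right (Submodule.mem_span_singleton_self v)
        have hW'T : W' ≤ T := by
          rw [hW']
          refine sup_le hWT (Submodule.span_le.2 ?_)
          rintro _ rfl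
          exact hvT
        have := hfd W hNW
        have hlt : Module.finrank k (T.map W'.mkQ) < Module.finrank k (T.map W.mkQ) := by
          obtain ⟨q, hq⟩ : ∃ q : (V ⧸ W) →ₗ[k] (V ⧸ W'), ∀ y, q (W.mkQ y) = W'.mkQ y :=
            ⟨Submodule.mapQ W W' LinearMap.id hWW', fun y => rfl⟩
          obtain ⟨f, hf⟩ : ∃ f : (T.map W.mkQ) →ₗ[k] (V ⧸ W'), f = q ∘ₗ (T.map W.mkQ).subtype := ⟨_, rfl⟩
          have hr : LinearMap.range f = T.map W'.mkQ := by
            rw [hf]
            ext y
            constructor
            · rintro ⟨⟨_, t, ht, rfl⟩, rfl⟩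
              exact ⟨t, ht, (hq t).symm⟩
            · rintro ⟨t, ht, rfl⟩
              exact ⟨⟨W.mkQ t, Submodule.mem_map_of_mem ht⟩, hq t⟩
          have hk : 0 < Module.finrank k (LinearMap.ker f) := by
            rw [Nat.pos_iff_ne_zero]
            intro h0
            have hbot : LinearMap.ker f = ⊥ := Submodule.finrank_eq_zero.1 h0
            have hmem : (⟨W.mkQ v, Submodule.mem_map_of_mem hvT⟩ : T.map W.mkQ) ∈ LinearMap.ker f := by
              rw [LinearMap.mem_ker, hf]
              show q (W.mkQ v) = 0
              rw [hq]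
              exact (Submodule.Quotient.mk_eq_zero W').2 hvW'
            rw [hbot, Submodule.mem_bot] at hmem
            apply hv
            exact (Submodule.Quotient.mk_eq_zero W).1 (congrArg Subtype.val hmem)
          have hsum := LinearMap.finrank_range_add_finrank_ker f
          rw [hr] at hsum
          omega
        obtain ⟨m, xs, vs, h1, h2, h3, h4⟩ := ih W' (le_trans hNW hWW') hW'T (by omega) (insert x Z)
        refine ⟨m + 1, Fin.cons x xs, Fin.cons v vs, ?_, ?_, ?_, ?_⟩
        · rw [Fin.cons_injective_iff]
          refine ⟨?_, h1⟩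
          rintro ⟨i, hi⟩
          apply h2 i
          rw [hi]
          exact Finset.mem_insert_self x Z
        · intro i
          refine Fin.cases ?_ (fun j => ?_) i
          · simpa using hx
          · have := h2 j
            rw [Finset.mem_insert, not_or] at this
            simpa using this.2
        · intro i
          refine Fin.cases ?_ (fun j => ?_) i
          · simpa using hxv
          · simpa using h3 j
        · rw [Fin.range_cons, Submodule.span_insert, ← sup_assoc, ← hW']
          exact h4
  exact key _ N le_rfl hNT le_rfl Z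

end Q9
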