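import Pool.Agent.LibQ9.H4
import Pool.Agent.LibQ9.H5a

/-!
[Q9 H5] (SHORT/MEDIUM; may cite H1, H4, H5a as stated) A batch of places and directions with `Spn`.

PLAN. H5a `greedy` with `T = TS Fd`, `N = TN M Fd B` (`TN ≤ TS`: clear), `U` from H1 `ts_fin`, labels `X = k`, `G = {(ev M.t, w) : w ∈ TS, w = v π - α, Pole, v ∈ D ev, ev M.t ∉ Z}`; `hgen Z'` is H4 `ts_gen` for `Z ∪ Z'`. So `m` places with distinct `ev i t ∉ Z` (hence distinct `ev i`), directions `σ i ∈ D (ev i)`, `w_i = σ_i π_i - α_i`. `Spn`: `w ∈ TS` is `α + r + Σ μ_i w_i`: `= (α - Σ μ_i α_i) + r + Σ μ_i σ_i π_i`.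
-/

set_option autoImplicit false

namespace Q9

open Polynomial

theorem batch_spn {k K : Type} [Field k] [Infinite k] [Field K] [Algebra k K] (M : Mdl k K) {n : ℕ}
    (Fd : Fin (n + 1) → M.O) (ρ : M.O) (hρ : IN Fd (ρ : K)) (hρ0 : ρ ≠ 0) (B : ℕ) (Z : Finset k)
    (D : (M.O →ₐ[k] k) → Set (Fin (n + 1) → k))
    (hD : ∀ ev : M.O →ₐ[k] k, ev M.t ∉ Z → ∀ v : Fin (n + 1) → k, ∑ a, ev (Fd a) * v a = 0 →
      v ∈ Submodule.span k (D ev))
    (hDT : ∀ ev : M.O →ₐ[k] k, ev M.t ∉ Z → ∀ v ∈ D ev, ∑ a, ev (Fd a) * v a = 0) :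
    ∃ (m : ℕ) (ev : Fin m → (M.O →ₐ[k] k)) (π : Fin m → K) (σ : Fin m → Fin (n + 1) → k),
      Function.Injective ev ∧ (∀ i, ev i M.t ∉ Z) ∧ (∀ i, Pole M.O (ev i) (π i)) ∧
      (∀ i, σ i ∈ D (ev i)) ∧ Spn M Fd B π σ Finset.univ := by
  classical
  obtain ⟨U, hUf, hU⟩ := ts_fin M Fd B
  have hNT : TN M Fd B ≤ TS Fd := by
    rintro w ⟨α, r, h1, h2, _, h4⟩
    change ∑ a, (Fd a : K) * w a = 0
    have h : ∀ a, (Fd a : K) * w a = (Fd a : K) * (α a : K) + (Fd a : K) * r a := fun a => by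
      rw [h4, mul_add]
    rw [Finset.sum_congr rfl fun a _ => h a, Finset.sum_add_distrib, h1, h2, add_zero]
  let G : Set (k × (Fin (n + 1) → K)) := {g | g.2 ∈ TS Fd ∧ g.1 ∉ Z ∧
    ∃ (ev : M.O →ₐ[k] k) (π : K) (v : Fin (n + 1) → k) (α : Fin (n + 1) → M.O),
      ev M.t = g.1 ∧ Pole M.O ev π ∧ v ∈ D ev ∧ ∀ a, g.2 a = algebraMap k K (v a) * π - α a}
  have hG : ∀ g ∈ G, g.2 ∈ TS Fd := fun g hg => hg.1
  have hgen : ∀ Z' : Finset k, TS Fd ≤ TN M Fd B ⊔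
      Submodule.span k {v | ∃ x, x ∉ Z' ∧ (x, v) ∈ G} := by
    intro Z'
    refine (ts_gen M Fd ρ hρ hρ0 B (Z ∪ Z') D ?_
      (fun ev hev v hv => hDT ev (fun h => hev (Finset.mem_union_left _ h)) v hv)).trans ?_
    · intro ev hev v hv
      exact hD ev (fun h => hev (Finset.mem_union_left _ h)) v hv
    · refine sup_le_sup le_rfl (Submodule.span_mono ?_)
      rintro w ⟨hw, ev, π, v, α, hev, hp, hv, hα⟩
      refine ⟨ev M.t, fun h => hev (Finset.mem_union_right _ h), ?_⟩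
      exact ⟨hw, fun h => hev (Finset.mem_union_left _ h), ev, π, v, α, rfl, hp, hv, hα⟩
  obtain ⟨m, x, v, hinj, hxZ, hvG, hT⟩ := greedy (TS Fd) (TN M Fd B) hNT U hU G hG hgen Z
  have hvG' : ∀ i, ∃ (ev : M.O →ₐ[k] k) (π : K) (w : Fin (n + 1) → k) (α : Fin (n + 1) → M.O),
      ev M.t = x i ∧ Pole M.O ev π ∧ w ∈ D ev ∧ ∀ a, v i a = algebraMap k K (w a) * π - α a :=
    fun i => (hvG i).2.2
  choose ev π σ α hev hp hσ hα using hvG'
  refine ⟨m, ev, π, σ, ?_, ?_, hp, hσ, ?_⟩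
  · intro i j hij
    apply hinj
    rw [← hev i, ← hev j, hij]
  · intro i
    rw [hev i]
    exact hxZ i
  · intro w hw
    have hwT : w ∈ TS Fd := hw
    obtain ⟨y, ⟨α₀, r, h1, h2, h3, h4⟩, z, hz, hyz⟩ := Submodule.mem_sup.1 (hT hwT)
    obtain ⟨c, hc⟩ := (Submodule.mem_span_range_iff_exists_fun k).1 hz
    refine ⟨c, fun a => α₀ a - ∑ i, c i • α i a, r, fun i hi => absurd (Finset.mem_univ i) hi,
      h3, h2, fun a => ?_⟩
    have hza : z a = ∑ i, algebraMap k K (c i) * (algebraMap k K (σ i a) * π i - α i a) := by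
      rw [← hc, Finset.sum_apply]
      refine Finset.sum_congr rfl fun i _ => ?_
      rw [Pi.smul_apply, hα, Algebra.smul_def]
    have hco : ((α₀ a - ∑ i, c i • α i a : M.O) : K) =
        (α₀ a : K) - ∑ i, algebraMap k K (c i) * (α i a : K) := by
      push_cast
      congr 1
      refine Finset.sum_congr rfl fun i _ => ?_
      rw [Algebra.smul_def]
    rw [← hyz, Pi.add_apply, hza, h4, hco]
    have hs : ∀ i, algebraMap k K (c i) * (algebraMap k K (σ i a) * π i - α i a) =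
        algebraMap k K (c i * σ i a) * π i - algebraMap k K (c i) * (α i a : K) := fun i => by
      rw [map_mul]; ring
    rw [Finset.sum_congr rfl fun i _ => hs i, Finset.sum_sub_distrib]
    ring

end Q9
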