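import Pool.Agent.LibQ9.PDefs

/-!
[Q9 P2] (MEDIUM) The transcendence degree drops strictly along strict inclusions of primes; basic facts on `td`.

PLAN. `td k z` is the transcendence degree (finite, `≤ card I`: `Algebra.adjoin k (range z)` is generated by finitely many elements) of the domain `B = k[z]`; it is also that of its fraction
field (`Algebra.trdeg_...`, `IsFractionRing`), i.e. of `fld k z`. `td_chain`: `B' = k[z']` is the quotient of `B` by a nonzero prime `P` (both are quotients of `MvPolynomial I k`). Choose a subset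
`S` of `I`, `#S = td k z'`, with `z'_i`, `i ∈ S`, algebraically independent (a transcendence basis inside a generating set: `exists_isTranscendenceBasis_subset` or similar). Then `z_i`,
`i ∈ S`, are algebraically independent (a relation would map to one for `z'`). If `td k z ≤ #S` then they are a transcendence basis, so a nonzero element `f` of `P` is algebraic over
`k(z_S)`; take a nonzero polynomial `A(T) = Σ a_j T^j` over `k[z_S]` of MINIMAL degree with `A(f) = 0`; `a_0 ≠ 0` (else divide by `T`, domain); mapping to `B'`: `a_0(z'_S) = 0`, a nontrivial relation.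
`td_mono`: `fld k q ≤ fld k z`. `td_pos`: if `td k z = 0` every element of `fld k z` is algebraic over `k`.
-/

set_option autoImplicit false

namespace Q9

open MvPolynomial

private theorem P2_surj {k : Type} [Field k] {I Ω : Type} [Field Ω] [Algebra k Ω] (z : I → Ω) :
    ∃ f : MvPolynomial I k →ₐ[k] Algebra.adjoin k (Set.range z), Function.Surjective f := by
  have h : (aeval z : MvPolynomial I k →ₐ[k] Ω).range = Algebra.adjoin k (Set.range z) :=
    (Algebra.adjoin_range_eq_range_aeval k z).symm
  rw [← h]
  exact ⟨(aeval z : MvPolynomial I k →ₐ[k] Ω).rangeRestrict, AlgHom.rangeRestrict_surjective _⟩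

private theorem P2_le {k : Type} [Field k] {I Ω : Type} [Field Ω] [Algebra k Ω] (z : I → Ω) :
    Algebra.trdeg k (Algebra.adjoin k (Set.range z)) ≤ Cardinal.mk I := by
  obtain ⟨f, hf⟩ := P2_surj (k := k) z
  have h1 := trdeg_le_of_surjective f hf
  rw [MvPolynomial.trdeg_of_isDomain, Cardinal.lift_id] at h1
  exact h1

private theorem P2_lt {k : Type} [Field k] {I Ω : Type} [Finite I] [Field Ω] [Algebra k Ω]
    (z : I → Ω) : Algebra.trdeg k (Algebra.adjoin k (Set.range z)) < Cardinal.aleph0 :=
  lt_of_le_of_lt (P2_le z) (Cardinal.mk_lt_aleph0)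

open scoped IntermediateField.algebraAdjoinAdjoin in
/-- the ring and the field have the same transcendence degree -/
private theorem P2_fld {k : Type} [Field k] {I Ω : Type} [Field Ω] [Algebra k Ω] (z : I → Ω) :
    Algebra.trdeg k (fld k z) = Algebra.trdeg k (Algebra.adjoin k (Set.range z)) := by
  obtain ⟨ι, x, hx⟩ := exists_isTranscendenceBasis' k (Algebra.adjoin k (Set.range z))
  have h2 := hx.algebraMap_comp (A := fld k z)
  rw [← hx.cardinalMk_eq_trdeg, ← h2.cardinalMk_eq_trdeg]

theorem td_chain {k : Type} [Field k] {I Ω Ω' : Type} [Finite I] [Field Ω] [Algebra k Ω] [Field Ω']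
    [Algebra k Ω'] (z : I → Ω) (z' : I → Ω')
    (h : RingHom.ker (aeval z : MvPolynomial I k →ₐ[k] Ω) <
      RingHom.ker (aeval z' : MvPolynomial I k →ₐ[k] Ω')) : td k z' + 1 ≤ td k z := by
  classical
  obtain ⟨hle, hnot⟩ := h
  -- a transcendence basis of `k[z']` among the `z' i`
  let A' := Algebra.adjoin k (Set.range z')
  let w : I → A' := fun i => ⟨z' i, Algebra.subset_adjoin ⟨i, rfl⟩⟩
  have htop : Algebra.adjoin k (Set.range w) = ⊤ := by
    have h1 : Set.range w = (Subtype.val : A' → Ω') ⁻¹' (Set.range z') := by
      ext ⟨y, hy⟩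
      constructor
      · rintro ⟨i, hi⟩
        exact ⟨i, congrArg Subtype.val hi⟩
      · rintro ⟨i, hi⟩
        exact ⟨i, Subtype.ext hi⟩
    rw [h1]
    exact Algebra.adjoin_adjoin_coe_preimage
  have hal : Algebra.IsAlgebraic (Algebra.adjoin k (Set.range w)) A' := by
    constructor
    intro a
    have ha : a ∈ Algebra.adjoin k (Set.range w) := by
      rw [htop]
      exact Algebra.mem_top
    exact isAlgebraic_algebraMap (⟨a, ha⟩ : Algebra.adjoin k (Set.range w))
  obtain ⟨t, ht, hb⟩ := exists_isTranscendenceBasis_subset (R := k) (Set.range w)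
  have hch : ∀ x : t, ∃ i, w i = x := fun x => ht x.2
  choose g hg using hch
  -- independence transfers to `z`
  have hindep' : AlgebraicIndependent k (fun x : t => z' (g x)) := by
    have h1 := hb.1.map' (f := A'.val) Subtype.val_injective
    have h2 : (⇑A'.val ∘ fun x : t => (x : A')) = fun x : t => z' (g x) := by
      funext x
      exact congrArg Subtype.val (hg x).symm
    rwa [h2] at h1
  have hz' : ∀ p : MvPolynomial t k, aeval z' (rename g p) = 0 → p = 0 := by
    intro p hp
    rw [aeval_rename] at hp
    exact (algebraicIndependent_iff.1 hindep') p hp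
  have hindep : AlgebraicIndependent k (fun x : t => z (g x)) := by
    rw [algebraicIndependent_iff]
    intro p hp
    refine hz' p ?_
    have h1 : rename g p ∈ RingHom.ker (aeval z : MvPolynomial I k →ₐ[k] Ω) := by
      rw [RingHom.mem_ker, aeval_rename]
      exact hp
    exact hle h1
  -- the element of the prime
  obtain ⟨F, hF', hF⟩ := Set.not_subset.1 hnot
  have hF'0 : aeval z' F = 0 := hF'
  have hF0 : aeval z F ≠ 0 := fun e => hF e
  have htr : Transcendental (Algebra.adjoin k (Set.range fun x : t => z (g x))) (aeval z F) := by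
    intro hal
    obtain ⟨q, hq0, hq⟩ := hal.exists_nonzero_coeff_and_aeval_eq_zero
      (mem_nonZeroDivisors_of_ne_zero hF0)
    have hlift : ∀ b : Algebra.adjoin k (Set.range fun x : t => z (g x)),
        ∃ p : MvPolynomial t k, aeval (fun x : t => z (g x)) p = (b : Ω) := by
      rintro ⟨b, hb⟩
      rw [Algebra.adjoin_range_eq_range_aeval] at hb
      exact hb
    choose P hP using hlift
    have hP0 : ∀ b : Algebra.adjoin k (Set.range fun x : t => z (g x)),
        aeval z (rename g (P b)) = (b : Ω) := by
      intro b
      rw [aeval_rename]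
      exact hP b
    let G : MvPolynomial I k := ∑ i ∈ Finset.range (q.natDegree + 1),
      rename g (P (q.coeff i)) * F ^ i
    have hG : aeval z G = 0 := by
      rw [map_sum, ← hq, Polynomial.aeval_eq_sum_range]
      refine Finset.sum_congr rfl fun i _ => ?_
      rw [map_mul, map_pow, hP0, Algebra.smul_def]
      rfl
    have hG' : aeval z' G = 0 := hle hG
    have h1 : aeval z' (rename g (P (q.coeff 0))) = 0 := by
      rw [← hG', map_sum, Finset.sum_range_succ']
      rw [Finset.sum_eq_zero, zero_add, pow_zero, mul_one]
      intro i _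
      rw [map_mul, map_pow, hF'0, pow_succ, mul_zero, mul_zero]
    have h2 := hz' _ h1
    apply hq0
    have h3 := hP (q.coeff 0)
    rw [h2, map_zero] at h3
    exact Subtype.ext h3.symm
  have hopt := (hindep.option_iff_transcendental (aeval z F)).2 htr
  -- the independent family in `k[z]`
  let A := Algebra.adjoin k (Set.range z)
  have hmem : ∀ o : Option t, (o.elim (aeval z F) fun x : t => z (g x)) ∈ A := by
    intro o
    cases o with
    | none =>
      show aeval z F ∈ A
      have h1 : aeval z F ∈ (aeval z : MvPolynomial I k →ₐ[k] Ω).range := ⟨F, rfl⟩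
      rw [← Algebra.adjoin_range_eq_range_aeval] at h1
      exact h1
    | some x => exact Algebra.subset_adjoin ⟨g x, rfl⟩
  have hA : AlgebraicIndependent k (fun o : Option t =>
      (⟨o.elim (aeval z F) fun x : t => z (g x), hmem o⟩ : A)) :=
    AlgebraicIndependent.of_comp A.val hopt
  have h1 := hA.cardinalMk_le_trdeg
  have h2 := Cardinal.toNat_le_toNat h1 (P2_lt (k := k) z)
  have hfin : Finite t := by
    have : Function.Injective g := by
      intro x y e
      have h3 := hg x
      rw [e, hg y] at h3
      exact (Subtype.ext h3).symm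
    exact Finite.of_injective g this
  have := Fintype.ofFinite t
  have h3 : td k z' = Fintype.card t := by
    have h4 := hb.cardinalMk_eq_trdeg
    rw [td, ← h4, Cardinal.mk_fintype, Cardinal.toNat_natCast]
  rw [h3]
  rw [Cardinal.mk_fintype, Cardinal.toNat_natCast, Fintype.card_option] at h2
  exact h2

theorem td_mono {k : Type} [Field k] {I J Ω : Type} [Finite I] [Finite J] [Field Ω] [Algebra k Ω]
    (z : I → Ω) (q : J → Ω) (h : ∀ j, q j ∈ fld k z) : td k q ≤ td k z := by
  have hle : fld k q ≤ fld k z := by
    rw [fld, IntermediateField.adjoin_le_iff]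
    rintro _ ⟨j, rfl⟩
    exact h j
  rw [td, td, ← P2_fld z, ← P2_fld q]
  have h1 := trdeg_le_of_injective (IntermediateField.inclusion hle)
    (IntermediateField.inclusion_injective hle)
  have h2 := P2_lt (k := k) z
  rw [← P2_fld z] at h2
  exact Cardinal.toNat_le_toNat h1 h2

theorem td_le_card {k : Type} [Field k] {I Ω : Type} [Fintype I] [Field Ω] [Algebra k Ω]
    (z : I → Ω) : td k z ≤ Fintype.card I := by
  have h1 := Cardinal.toNat_le_toNat (P2_le (k := k) z) Cardinal.mk_lt_aleph0
  rw [Cardinal.mk_fintype, Cardinal.toNat_natCast] at h1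
  exact h1

theorem td_zero {k : Type} [Field k] {I Ω : Type} [Finite I] [Field Ω] [Algebra k Ω]
    (z : I → Ω) (h : td k z = 0) (i : I) : IsAlgebraic k (z i) := by
  have h1 : Algebra.trdeg k (Algebra.adjoin k (Set.range z)) = 0 := by
    rcases Cardinal.toNat_eq_zero.1 h with h1 | h1
    · exact h1
    · exact absurd (P2_lt (k := k) z) (not_lt.2 h1)
  have h2 : Algebra.IsAlgebraic k (Algebra.adjoin k (Set.range z)) := trdeg_eq_zero_iff.1 h1
  have h3 := h2.isAlgebraic (⟨z i, Algebra.subset_adjoin ⟨i, rfl⟩⟩ : Algebra.adjoin k (Set.range z))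
  exact (isAlgebraic_algHom_iff (Algebra.adjoin k (Set.range z)).val Subtype.val_injective).2 h3

end Q9
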