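import Pool.Agent.LibQ9.P1
import Pool.Agent.LibQ9.P2

/-!
[Q9 P3] (MEDIUM; may cite P1, P2 as stated) Generic points of solution varieties: `M` equations in `N ≥ M + r` unknowns with a rational solution `z₀` have a solution of transcendence degree
at least `r` which specialises to `z₀`.

PLAN. `R = MvPolynomial I k`, `m₀ = ker (eval z₀)`, `height m₀ ≥ card I` (P1). `Ideal.height_le_height_add_encard_of_subset` (Mathlib, KrullsHeightTheorem) with `s = range Φ`: the image of `m₀` in
`R/(Φ)` has height `≥ r`; so there is a chain of primes `Q_0 < Q_1 < ... < Q_r ≤ m₀` of `R` containing all `Φ j` (`Ideal.height` is a supremum of lengths of `LTSeries`,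
`Order.le_height_iff` or similar; comap along the quotient map). Put `A_i = R/Q_i`, `Ω_i = FractionRing A_i`, `z^i` the classes of the variables: `ker (aeval z^i) = Q_i`, so P2 `td_chain` gives
`td z^0 ≥ td z^r + r ≥ r`. `Ω` = `AlgebraicClosure (FractionRing (R/Q_0))` (in `Type`), `z` the images of the variables; `td` does not change under the injective map (`td` of the image
family: `Algebra.adjoin` maps isomorphically). `Spz`: `ker (aeval z) = Q_0 ≤ m₀`. Algebraic: `fld k z` contains the image of `FractionRing A_0` (it is generated by the classes of the variables).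
-/

set_option autoImplicit false

namespace Q9

open MvPolynomial

private theorem P3_ker {k : Type} [Field k] {I : Type} (Q : Ideal (MvPolynomial I k)) {K : Type}
    [Field K] [Algebra k K] (φ : (MvPolynomial I k ⧸ Q) →ₐ[k] K) (hφ : Function.Injective φ) :
    RingHom.ker (aeval (fun i => φ (Ideal.Quotient.mk Q (X i))) : MvPolynomial I k →ₐ[k] K) = Q := by
  have h : (aeval (fun i => φ (Ideal.Quotient.mk Q (X i))) : MvPolynomial I k →ₐ[k] K) =
      φ.comp (Ideal.Quotient.mkₐ k Q) := by
    apply MvPolynomial.algHom_ext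
    intro i
    simp
  ext P
  rw [RingHom.mem_ker, h, AlgHom.comp_apply, map_eq_zero_iff φ hφ, Ideal.Quotient.mkₐ_eq_mk,
    Ideal.Quotient.eq_zero_iff_mem]

private theorem P3_aeval {k : Type} [Field k] {I : Type} (Q : Ideal (MvPolynomial I k)) {K : Type}
    [Field K] [Algebra k K] (φ : (MvPolynomial I k ⧸ Q) →ₐ[k] K) (P : MvPolynomial I k) :
    aeval (fun i => φ (Ideal.Quotient.mk Q (X i))) P = φ (Ideal.Quotient.mk Q P) := by
  have h : (aeval (fun i => φ (Ideal.Quotient.mk Q (X i))) : MvPolynomial I k →ₐ[k] K) =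
      φ.comp (Ideal.Quotient.mkₐ k Q) := by
    apply MvPolynomial.algHom_ext
    intro i
    simp
  rw [h]
  rfl

private theorem P3_chain {k : Type} [Field k] {I : Type} [Finite I] (n : ℕ)
    (Q : ℕ → Ideal (MvPolynomial I k)) (hp : ∀ i ≤ n, (Q i).IsPrime)
    (hlt : ∀ i < n, Q i < Q (i + 1)) : ∀ m i, i + m = n → ∀ (Ω : Type) [Field Ω] [Algebra k Ω]
    (z : I → Ω), RingHom.ker (aeval z : MvPolynomial I k →ₐ[k] Ω) = Q i → m ≤ td k z := by
  intro m
  induction m with
  | zero =>
    intro i _ Ω _ _ z _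
    exact Nat.zero_le _
  | succ m ih =>
    intro i hi Ω _ _ z hz
    have := hp (i + 1) (by omega)
    have hinj : Function.Injective (IsScalarTower.toAlgHom k (MvPolynomial I k ⧸ Q (i + 1))
        (FractionRing (MvPolynomial I k ⧸ Q (i + 1)))) :=
      IsFractionRing.injective (MvPolynomial I k ⧸ Q (i + 1))
        (FractionRing (MvPolynomial I k ⧸ Q (i + 1)))
    have hk := P3_ker (Q (i + 1)) _ hinj
    obtain ⟨z', hz'⟩ : ∃ z' : I → FractionRing (MvPolynomial I k ⧸ Q (i + 1)),
        RingHom.ker (aeval z' : MvPolynomial I k →ₐ[k] _) = Q (i + 1) := ⟨_, hk⟩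
    have h1 := ih (i + 1) (by omega) _ z' hz'
    have h2 := td_chain z z' (by rw [hz, hz']; exact hlt i (by omega))
    omega

theorem exists_gen {k : Type} [Field k] {I J : Type} [Fintype I] [Fintype J]
    (Φ : J → MvPolynomial I k) (z₀ : I → k) (h0 : ∀ j, eval z₀ (Φ j) = 0) (r : ℕ)
    (hr : Fintype.card J + r ≤ Fintype.card I) :
    ∃ (Ω : Type) (_ : Field Ω) (_ : Algebra k Ω) (z : I → Ω), IsAlgClosed Ω ∧
      (∀ j, aeval z (Φ j) = 0) ∧ Spz z z₀ ∧ r ≤ td k z ∧ ∀ x : Ω, IsAlgebraic (fld k z) x := by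
  classical
  set s : Set (MvPolynomial I k) := Set.range Φ with hs
  set m₀ : Ideal (MvPolynomial I k) := RingHom.ker (eval z₀ : MvPolynomial I k →+* k) with hm₀
  have hm₀p : m₀.IsPrime := RingHom.ker_isPrime _
  have hsub : s ⊆ m₀ := by
    rintro _ ⟨j, rfl⟩
    exact h0 j
  have hh := height_ker_eval z₀
  have hle := Ideal.height_le_height_add_encard_of_subset s (p := m₀) hsub
  have hcard : s.encard ≤ (Fintype.card J : ℕ∞) := by
    have h1 : s.encard ≤ (Set.univ : Set J).encard := by
      rw [hs, ← Set.image_univ]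
      exact Set.encard_image_le _ _
    rw [Set.encard_univ, ENat.card_eq_coe_fintype_card] at h1
    exact h1
  have hspan : Ideal.span s ≤ m₀ := Ideal.span_le.mpr hsub
  have hpb : (m₀.map (Ideal.Quotient.mk (Ideal.span s))).IsPrime :=
    Ideal.isPrime_map_quotientMk_of_isPrime hspan
  obtain ⟨l, hlast, hlen⟩ := Ideal.exists_ltSeries_length_eq_height
    (m₀.map (Ideal.Quotient.mk (Ideal.span s)))
  have hr' : r ≤ l.length := by
    rw [← hlen] at hle
    have h1 : (Fintype.card I : ℕ∞) ≤ (l.length : ℕ∞) + (Fintype.card J : ℕ∞) :=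
      (hh.trans hle).trans (add_le_add le_rfl hcard)
    have h2 : Fintype.card I ≤ l.length + Fintype.card J := by exact_mod_cast h1
    omega
  have hsurj : Function.Surjective (Ideal.Quotient.mk (Ideal.span s)) :=
    Ideal.Quotient.mk_surjective
  obtain ⟨Q, hQ⟩ : ∃ Q : ℕ → Ideal (MvPolynomial I k), ∀ i (hi : i < l.length + 1),
      Q i = (l ⟨i, hi⟩).asIdeal.comap (Ideal.Quotient.mk (Ideal.span s)) :=
    ⟨fun i => if hi : i < l.length + 1 then
      (l ⟨i, hi⟩).asIdeal.comap (Ideal.Quotient.mk (Ideal.span s)) else ⊤, fun i hi => by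
      simp [hi]⟩
  have hp : ∀ i ≤ l.length, (Q i).IsPrime := by
    intro i hi
    rw [hQ i (by omega)]
    exact Ideal.IsPrime.comap _
  have hlt : ∀ i < l.length, Q i < Q (i + 1) := by
    intro i hi
    rw [hQ i (by omega), hQ (i + 1) (by omega)]
    have h1 : l ⟨i, by omega⟩ < l ⟨i + 1, by omega⟩ := l.strictMono (by simp [Fin.lt_def])
    have h2 : (l ⟨i, by omega⟩).asIdeal < (l ⟨i + 1, by omega⟩).asIdeal := h1
    refine lt_of_le_of_ne (Ideal.comap_mono h2.le) ?_
    intro h3
    exact h2.ne (Ideal.comap_injective_of_surjective _ hsurj h3)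
  have hQ0 : Q 0 ≤ m₀ := by
    have h1 : Q 0 ≤ Q l.length := by
      have : ∀ i, i ≤ l.length → Q 0 ≤ Q i := by
        intro i
        induction i with
        | zero => intro _; exact le_rfl
        | succ i ih => intro hi; exact (ih (by omega)).trans (hlt i (by omega)).le
      exact this _ le_rfl
    have h2 : Q l.length = m₀ := by
      rw [hQ l.length (by omega)]
      have h3 : l ⟨l.length, by omega⟩ = RelSeries.last l := rfl
      rw [h3, hlast]
      rw [Ideal.comap_map_of_surjective _ hsurj, ← RingHom.ker_eq_comap_bot, Ideal.mk_ker]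
      exact sup_eq_left.mpr hspan
    rw [← h2]
    exact h1
  have hΦ : ∀ j, Φ j ∈ Q 0 := by
    intro j
    rw [hQ 0 (by omega), Ideal.mem_comap, Ideal.Quotient.eq_zero_iff_mem.mpr]
    · exact Ideal.zero_mem _
    · exact Ideal.subset_span ⟨j, rfl⟩
  have := hp 0 (by omega)
  set A := MvPolynomial I k ⧸ Q 0 with hA
  set K := FractionRing A with hK
  let φ : A →ₐ[k] AlgebraicClosure K := (IsScalarTower.toAlgHom k K (AlgebraicClosure K)).comp
    (IsScalarTower.toAlgHom k A K)
  have hφ : Function.Injective φ := by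
    have h1 : Function.Injective (algebraMap K (AlgebraicClosure K)) :=
      (algebraMap K (AlgebraicClosure K)).injective
    have h2 : Function.Injective (algebraMap A K) := IsFractionRing.injective A K
    exact h1.comp h2
  have hker := P3_ker (Q 0) φ hφ
  refine ⟨AlgebraicClosure K, inferInstance, inferInstance,
    fun i => φ (Ideal.Quotient.mk (Q 0) (X i)), inferInstance, ?_, ?_, ?_, ?_⟩
  · intro j
    have h1 : Φ j ∈ RingHom.ker (aeval (fun i => φ (Ideal.Quotient.mk (Q 0) (X i))) :
      MvPolynomial I k →ₐ[k] AlgebraicClosure K) := by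
      rw [hker]
      exact hΦ j
    exact h1
  · intro Ψ hΨ
    have h1 : Ψ ∈ RingHom.ker (aeval (fun i => φ (Ideal.Quotient.mk (Q 0) (X i))) :
      MvPolynomial I k →ₐ[k] AlgebraicClosure K) := hΨ
    rw [hker] at h1
    exact hQ0 h1
  · exact hr'.trans (P3_chain l.length Q hp hlt l.length 0 (by omega) _ _ hker)
  · intro x
    set z : I → AlgebraicClosure K := fun i => φ (Ideal.Quotient.mk (Q 0) (X i)) with hz
    have hmemA : ∀ a : A, φ a ∈ fld k z := by
      intro a
      obtain ⟨P, rfl⟩ := Ideal.Quotient.mk_surjective a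
      rw [← P3_aeval (Q 0) φ P]
      have h1 : (aeval z P : AlgebraicClosure K) ∈ Algebra.adjoin k (Set.range z) := by
        rw [Algebra.adjoin_range_eq_range_aeval]
        exact ⟨P, rfl⟩
      exact IntermediateField.algebra_adjoin_le_adjoin k _ h1
    have hmemK : ∀ y : K, algebraMap K (AlgebraicClosure K) y ∈ fld k z := by
      intro y
      obtain ⟨a, b, _, rfl⟩ := IsFractionRing.div_surjective (A := A) y
      rw [map_div₀]
      exact div_mem (hmemA a) (hmemA b)
    have hx : IsAlgebraic K x := Algebra.IsAlgebraic.isAlgebraic x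
    obtain ⟨f, hf, hfx⟩ := hx
    let ψ : K →+* fld k z := (algebraMap K (AlgebraicClosure K)).codRestrict (fld k z) hmemK
    refine ⟨f.map ψ, ?_, ?_⟩
    · exact (Polynomial.map_ne_zero_iff ψ.injective).mpr hf
    · rw [Polynomial.aeval_def, Polynomial.eval₂_map]
      rw [Polynomial.aeval_def] at hfx
      exact hfx

end Q9
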