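import Pool.Agent.LibQ9.TDefs

/-!
[Q9 SR] Dimension of the kernel of `∇F(γ)·` and linear conditions which make it trivial.
-/

set_option autoImplicit false

namespace Q9

open Polynomial

private theorem sr_deg {k : Type} [Field k] {n : ℕ} (G : MvPolynomial (Fin (n + 1)) k) {m : ℕ}
    (hG : G.IsHomogeneous m) {κ : Type} [Field κ] [Algebra k κ] (d : ℕ)
    (γ : Fin (n + 1) → κ[X]) (hγ : ∀ i, (γ i).natDegree ≤ d) :
    (MvPolynomial.aeval γ G).natDegree ≤ m * d := by
  have h1 : MvPolynomial.aeval γ G = MvPolynomial.aeval γ (MvPolynomial.map (algebraMap k κ) G) := by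
    rw [MvPolynomial.aeval_map_algebraMap]
  rw [h1]
  refine MvPolynomial.aeval_natDegree_le _ ?_ γ hγ
  exact (hG.map (algebraMap k κ)).totalDegree_le

private theorem sr_lin_deg {κ : Type} [Field κ] {n : ℕ} (e : ℕ) (δ : Fin (n + 1) × Fin e → κ)
    (i : Fin (n + 1)) : (lin e δ i).degree < (e : ℕ) := by
  unfold lin
  rw [← mem_degreeLT]
  refine Submodule.sum_mem _ fun j _ => ?_
  rw [mem_degreeLT]
  refine lt_of_le_of_lt (degree_C_mul_X_pow_le _ _) ?_
  exact_mod_cast j.2

private theorem sr_lin_coeff {κ : Type} [Field κ] {n : ℕ} (e : ℕ) (a : Fin (n + 1) → κ[X])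
    (ha : ∀ i, (a i).degree < (e : ℕ)) :
    lin e (fun p : Fin (n + 1) × Fin e => (a p.1).coeff p.2) = a := by
  funext i
  unfold lin
  change ∑ j : Fin e, C ((a i).coeff (j : ℕ)) * X ^ (j : ℕ) = a i
  rw [Fin.sum_univ_eq_sum_range (fun j => C ((a i).coeff j) * X ^ j) e]
  ext m
  simp only [finsetSum_coeff, coeff_C_mul_X_pow]
  by_cases hm : m < e
  · rw [Finset.sum_eq_single m]
    · simp
    · intro b _ hb
      rw [if_neg (Ne.symm hb)]
    · intro h
      exact absurd (Finset.mem_range.2 hm) h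
  · rw [Finset.sum_eq_zero]
    · exact (coeff_eq_zero_of_degree_lt (lt_of_lt_of_le (ha i) (by exact_mod_cast not_lt.1 hm))).symm
    · intro b hb
      rw [if_neg]
      have := Finset.mem_range.1 hb
      omega

private theorem sr_main {k : Type} [Field k] {n : ℕ}
    (F : MvPolynomial (Fin (n + 1)) k) (hF : F.IsHomogeneous n) {κ : Type} [Field κ] [Algebra k κ]
    (d e N : ℕ) (hN : (n - 1) * d + e ≤ N) (γ : Fin (n + 1) → κ[X])
    (hγ : ∀ i, (γ i).natDegree ≤ d)
    (hs : ∀ f : κ[X], f.degree < (N : ℕ) →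
      ∃ a : Fin (n + 1) → κ[X], (∀ i, (a i).degree < (e : ℕ)) ∧ grad F γ a = f)
    (M : Submodule κ (Fin (n + 1) × Fin e → κ)) (hM : ∀ δ, δ ∈ M ↔ grad F γ (lin e δ) = 0) :
    (n + 1) * e = N + Module.finrank κ M := by
  have hadd : ∀ (x y : Fin (n + 1) × Fin e → κ), lin e (x + y) = lin e x + lin e y := by
    intro x y
    funext i
    simp only [lin, Pi.add_apply, map_add, add_mul, Finset.sum_add_distrib]
  have hsmul : ∀ (c : κ) (x : Fin (n + 1) × Fin e → κ) (i : Fin (n + 1)),
      lin e (c • x) i = C c * lin e x i := by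
    intro c x i
    simp only [lin, Pi.smul_apply, smul_eq_mul, map_mul, Finset.mul_sum, mul_assoc]
  let A0 : (Fin (n + 1) × Fin e → κ) →ₗ[κ] κ[X] :=
    { toFun := fun δ => grad F γ (lin e δ)
      map_add' := by
        intro x y
        change grad F γ (lin e (x + y)) = _
        rw [hadd]
        simp only [grad, Pi.add_apply, mul_add, Finset.sum_add_distrib]
      map_smul' := by
        intro c x
        simp only [grad, RingHom.id_apply, smul_eq_C_mul, Finset.mul_sum]
        refine Finset.sum_congr rfl fun i _ => ?_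
        rw [hsmul]
        ring }
  have hdeg : ∀ δ, A0 δ ∈ degreeLT κ N := by
    intro δ
    change (∑ i, MvPolynomial.aeval γ (MvPolynomial.pderiv i F) * lin e δ i) ∈ degreeLT κ N
    refine Submodule.sum_mem _ fun i _ => ?_
    rw [mem_degreeLT]
    by_cases h0 : MvPolynomial.aeval γ (MvPolynomial.pderiv i F) * lin e δ i = 0
    · rw [h0, degree_zero]
      exact WithBot.bot_lt_coe N
    · rw [degree_eq_natDegree h0]
      have h1 := sr_deg (MvPolynomial.pderiv i F) hF.pderiv d γ hγ
      have h2 : lin e δ i ≠ 0 := right_ne_zero_of_mul h0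
      have h3 : MvPolynomial.aeval γ (MvPolynomial.pderiv i F) ≠ 0 := left_ne_zero_of_mul h0
      have h4 : (lin e δ i).natDegree < e := by
        have := sr_lin_deg e δ i
        rw [degree_eq_natDegree h2] at this
        exact_mod_cast this
      rw [natDegree_mul h3 h2]
      have : (MvPolynomial.aeval γ (MvPolynomial.pderiv i F)).natDegree + (lin e δ i).natDegree < N := by
        omega
      exact_mod_cast this
  let A : (Fin (n + 1) × Fin e → κ) →ₗ[κ] degreeLT κ N := LinearMap.codRestrict _ A0 hdeg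
  have hker : LinearMap.ker A = M := by
    ext δ
    rw [LinearMap.mem_ker, hM]
    constructor
    · intro h
      exact congrArg Subtype.val h
    · intro h
      exact Subtype.ext h
  have hrange : LinearMap.range A = ⊤ := by
    rw [LinearMap.range_eq_top]
    rintro ⟨f, hf⟩
    obtain ⟨a, ha, hfa⟩ := hs f (mem_degreeLT.1 hf)
    refine ⟨fun p => (a p.1).coeff p.2, ?_⟩
    apply Subtype.ext
    change grad F γ (lin e (fun p : Fin (n + 1) × Fin e => (a p.1).coeff p.2)) = f
    rw [sr_lin_coeff e a ha, hfa]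
  have h5 := LinearMap.finrank_range_add_finrank_ker A
  rw [hker, hrange, finrank_top, (degreeLTEquiv κ N).finrank_eq, Module.finrank_fin_fun,
    Module.finrank_fintype_fun_eq_card, Fintype.card_prod, Fintype.card_fin, Fintype.card_fin] at h5
  exact h5.symm

theorem finrank_ker_free {k : Type} [Field k] {n : ℕ} (hn : 2 ≤ n)
    (F : MvPolynomial (Fin (n + 1)) k) (hF : F.IsHomogeneous n) {κ : Type} [Field κ] [Algebra k κ]
    (d : ℕ) (γ : Fin (n + 1) → κ[X]) (h : Free F d γ)
    (M : Submodule κ (Fin (n + 1) × Fin d → κ)) (hM : ∀ δ, δ ∈ M ↔ grad F γ (lin d δ) = 0) :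
    Module.finrank κ M = d := by
  obtain ⟨m, rfl⟩ : ∃ m, n = m + 1 := ⟨n - 1, by omega⟩
  have h1 := sr_main F hF d d ((m + 1) * d) (by
    rw [Nat.add_sub_cancel]
    exact le_of_eq (by ring)) γ h.2.1.1 h.2.2 M hM
  have h2 : (m + 1 + 1) * d = (m + 1) * d + d := by ring
  omega

theorem finrank_ker_cor {k : Type} [Field k] {n : ℕ} (hn : 2 ≤ n)
    (F : MvPolynomial (Fin (n + 1)) k) (hF : F.IsHomogeneous n) {κ : Type} [Field κ] [Algebra k κ]
    (d : ℕ) (hd : 1 ≤ d) (γ : Fin (n + 1) → κ[X]) (ho : On F d γ) (h : Cor F d γ 0)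
    (M : Submodule κ (Fin (n + 1) × Fin (d - 1) → κ))
    (hM : ∀ δ, δ ∈ M ↔ grad F γ (lin (d - 1) δ) = 0) :
    Module.finrank κ M + n = d := by
  obtain ⟨m, rfl⟩ : ∃ m, n = m + 1 := ⟨n - 1, by omega⟩
  obtain ⟨e, rfl⟩ : ∃ e, d = e + 1 := ⟨d - 1, by omega⟩
  obtain ⟨θ, _, hθ⟩ := h
  have h0 : m * (e + 1) + (e + 1) = (m + 1) * (e + 1) := by ring
  have h1 := sr_main F hF (e + 1) (e + 1 - 1) ((m + 1) * (e + 1) - 1) (by
    rw [Nat.add_sub_cancel]
    omega) γ ho.1 (fun f hf => by
      obtain ⟨a, μ, ha, hfa⟩ := hθ f hf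
      refine ⟨a, ha, ?_⟩
      rw [hfa]
      simp) M hM
  have h2 : (m + 1 + 1) * (e + 1 - 1) = m * e + e + e := by
    rw [Nat.add_sub_cancel]
    ring
  have h3 : (m + 1) * (e + 1) = m * e + e + m + 1 := by ring
  omega

theorem exists_forms {κ I : Type} [Field κ] [Fintype I] (M : Submodule κ (I → κ)) (r : ℕ)
    (hM : Module.finrank κ M ≤ r) :
    ∃ lam : Fin r → I → κ, ∀ δ ∈ M, (∀ l, ∑ a, lam l a * δ a = 0) → δ = 0 := by
  classical
  let b := Module.finBasis κ M
  have hext : ∀ l : Fin (Module.finrank κ M), ∃ φ : (I → κ) →ₗ[κ] κ,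
      ∀ x : M, φ x = b.coord l x := by
    intro l
    obtain ⟨φ, hφ⟩ := LinearMap.exists_extend (b.coord l)
    refine ⟨φ, fun x => ?_⟩
    have := LinearMap.congr_fun hφ x
    simpa using this
  choose φ hφ using hext
  refine ⟨fun l a => if h : (l : ℕ) < Module.finrank κ M then φ ⟨l, h⟩ (Pi.single a 1) else 0,
    fun δ hδ hl => ?_⟩
  have hz : (⟨δ, hδ⟩ : M) = 0 := by
    apply b.ext_elem
    intro l
    have h1 := hl ⟨l, lt_of_lt_of_le l.2 hM⟩
    simp only [Fin.is_lt, dite_true, Fin.eta] at h1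
    have h2 : φ l δ = ∑ a, φ l (Pi.single a 1) * δ a := by
      conv_lhs => rw [← Finset.univ_sum_single δ]
      rw [map_sum]
      refine Finset.sum_congr rfl fun a _ => ?_
      have : (Pi.single a (δ a) : I → κ) = δ a • Pi.single a 1 := by
        rw [← Pi.single_smul, smul_eq_mul, mul_one]
      rw [this, map_smul, smul_eq_mul, mul_comm]
    have h3 := hφ l ⟨δ, hδ⟩
    rw [map_zero, Finsupp.zero_apply]
    change b.coord l ⟨δ, hδ⟩ = 0
    rw [← h3]
    change φ l δ = 0
    rw [h2, h1]
  exact congrArg Subtype.val hz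

theorem rigid {k : Type} [Field k] {n : ℕ} (hn : 2 ≤ n) (F : MvPolynomial (Fin (n + 1)) k)
    (hF : F.IsHomogeneous n) (d : ℕ) (γ : Fin (n + 1) → k[X]) (h : Free F d γ) :
    ∃ lam : Fin d → Fin (n + 1) × Fin d → k, ∀ δ : Fin (n + 1) × Fin d → k,
      grad F γ (lin d δ) = 0 → (∀ l, ∑ a, lam l a * δ a = 0) → δ = 0 := by
  let M : Submodule k (Fin (n + 1) × Fin d → k) :=
    { carrier := {δ | grad F γ (lin d δ) = 0}
      add_mem' := by
        intro x y hx hy
        have hl : lin d (x + y) = lin d x + lin d y := by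
          funext i
          simp only [lin, Pi.add_apply, map_add, add_mul, Finset.sum_add_distrib]
        change grad F γ (lin d (x + y)) = 0
        rw [hl]
        change grad F γ (lin d x) = 0 at hx
        change grad F γ (lin d y) = 0 at hy
        simp only [grad] at hx hy ⊢
        simp only [Pi.add_apply, mul_add, Finset.sum_add_distrib]
        rw [hx, hy, add_zero]
      zero_mem' := by
        change grad F γ (lin d 0) = 0
        simp [grad, lin]
      smul_mem' := by
        intro c x hx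
        change grad F γ (lin d (c • x)) = 0
        change grad F γ (lin d x) = 0 at hx
        have hl : ∀ i, lin d (c • x) i = C c * lin d x i := by
          intro i
          simp only [lin, Pi.smul_apply, smul_eq_mul, map_mul, Finset.mul_sum, mul_assoc]
        simp only [grad] at hx ⊢
        calc ∑ i, MvPolynomial.aeval γ (MvPolynomial.pderiv i F) * lin d (c • x) i
            = C c * ∑ i, MvPolynomial.aeval γ (MvPolynomial.pderiv i F) * lin d x i := by
              rw [Finset.mul_sum]
              refine Finset.sum_congr rfl fun i _ => ?_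
              rw [hl]
              ring
          _ = 0 := by rw [hx, mul_zero] }
  have h1 : Module.finrank k M = d := finrank_ker_free hn F hF d γ h M (fun δ => Iff.rfl)
  obtain ⟨lam, hlam⟩ := exists_forms M d h1.le
  exact ⟨lam, fun δ hδ hl => hlam δ hδ hl⟩

end Q9
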