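import Pool.Agent.LibQ9.TDefs

/-!
[Q9 T0] (SHORT/MEDIUM) Base change of the equation; the systems `eqA`, `eqB` and their Jacobians.

PLAN. `F' = map (algebraMap k κ) F`: `aeval x F' = aeval x F` for `x` in a `κ`-algebra (`MvPolynomial.aeval_map_algebraMap`), `pderiv i F' = map (pderiv i F)` (`MvPolynomial.pderiv_map`), so `grad F' = grad F` and all notions agree. `eqA`: `aeval z` extends to
`(MvPolynomial ..)[X] → R[X]` (`Polynomial.mapAlgHom` / `Polynomial.map`), maps the generic vector to `lin (d+1) z`; coefficients commute with `map`. Derivative: `∑_i aeval z (pderiv i (eqA j)) δ_i` is the coefficient of `ε` of `eqA j` at `z + ε δ`; or: the derivation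
`∑ δ_i ∂_i` applied coefficientwise is a derivation of the polynomial ring killing `X` and the constants of `k`, chain rule for `aeval`. (`Polynomial` derivation: `Derivation` on `(MvPolynomial I k)[X]` acting on coefficients; it is easiest to prove by `MvPolynomial.induction_on` for `F`.)
-/

set_option autoImplicit false

namespace Q9

open Polynomial

private theorem T0_aeval {k : Type} [Field k] {m : ℕ} (F : MvPolynomial (Fin m) k) {κ : Type}
    [Field κ] [Algebra k κ] {Ω : Type} [Field Ω] [Algebra k Ω] [Algebra κ Ω] [IsScalarTower k κ Ω]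
    (γ : Fin m → Polynomial Ω) :
    MvPolynomial.aeval γ (MvPolynomial.map (algebraMap k κ) F) = MvPolynomial.aeval γ F :=
  MvPolynomial.aeval_map_algebraMap κ γ F

private theorem T0_grad {k : Type} [Field k] {m : ℕ} (F : MvPolynomial (Fin m) k) {κ : Type}
    [Field κ] [Algebra k κ] {Ω : Type} [Field Ω] [Algebra k Ω] [Algebra κ Ω] [IsScalarTower k κ Ω]
    (γ w : Fin m → Polynomial Ω) :
    grad (MvPolynomial.map (algebraMap k κ) F) γ w = grad F γ w := by
  unfold grad
  refine Finset.sum_congr rfl fun i _ => ?_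
  rw [MvPolynomial.pderiv_map, T0_aeval]

section bc

variable {k : Type} [Field k] {n : ℕ} (F : MvPolynomial (Fin (n + 1)) k) {κ : Type} [Field κ]
  [Algebra k κ] {Ω : Type} [Field Ω] [Algebra k Ω] [Algebra κ Ω] [IsScalarTower k κ Ω]

theorem free_bc (d : ℕ) (γ : Fin (n + 1) → Polynomial Ω) :
    Free (MvPolynomial.map (algebraMap k κ) F) d γ ↔ Free F d γ := by
  unfold Free On
  simp only [T0_aeval, T0_grad]

theorem on_bc (d : ℕ) (γ : Fin (n + 1) → Polynomial Ω) :
    On (MvPolynomial.map (algebraMap k κ) F) d γ ↔ On F d γ := by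
  unfold On
  simp only [T0_aeval]

theorem cor_bc (d c : ℕ) (γ : Fin (n + 1) → Polynomial Ω) :
    Cor (MvPolynomial.map (algebraMap k κ) F) d γ c ↔ Cor F d γ c := by
  unfold Cor
  simp only [T0_grad]

theorem pos_bc (d : ℕ) (γ : Fin (n + 1) → Polynomial Ω) :
    Pos (MvPolynomial.map (algebraMap k κ) F) d γ = Pos F d γ := by
  ext v
  change (∃ a : Fin (n + 1) → Polynomial Ω, (∀ i, (a i).degree < (d : ℕ)) ∧
    grad (MvPolynomial.map (algebraMap k κ) F) γ a = 0 ∧ ∀ i, (a i).coeff 0 = v i) ↔
    (∃ a : Fin (n + 1) → Polynomial Ω, (∀ i, (a i).degree < (d : ℕ)) ∧ grad F γ a = 0 ∧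
      ∀ i, (a i).coeff 0 = v i)
  simp only [T0_grad]

theorem sm_bc (h : Sm F) : Sm (MvPolynomial.map (algebraMap k κ) F) := by
  obtain ⟨M, hM⟩ := h
  refine ⟨M, fun j => ?_⟩
  have h1 := Ideal.mem_map_of_mem (MvPolynomial.map (algebraMap k κ)) (hM j)
  rw [map_pow, MvPolynomial.map_X, Ideal.map_span] at h1
  refine (Ideal.span_mono ?_) h1
  rintro _ ⟨_, ⟨i, rfl⟩, rfl⟩
  exact ⟨i, MvPolynomial.pderiv_map⟩

end bc

section T0aux

variable {k : Type} [Field k] {I : Type} [Fintype I] {R : Type} [CommRing R] [Algebra k R]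

/-- the derivative of `Ψ` at `z` in the direction `δ` -/
private noncomputable def T0_d (z δ : I → R) (Ψ : MvPolynomial I k) : R :=
  ∑ a, MvPolynomial.aeval z (MvPolynomial.pderiv a Ψ) * δ a

private theorem T0_d_add (z δ : I → R) (Ψ Φ : MvPolynomial I k) :
    T0_d z δ (Ψ + Φ) = T0_d z δ Ψ + T0_d z δ Φ := by
  unfold T0_d
  rw [← Finset.sum_add_distrib]
  refine Finset.sum_congr rfl fun a _ => ?_
  rw [map_add, map_add, add_mul]

private theorem T0_d_zero (z δ : I → R) : T0_d z δ (0 : MvPolynomial I k) = 0 := by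
  unfold T0_d
  refine Finset.sum_eq_zero fun a _ => ?_
  rw [map_zero, map_zero, zero_mul]

private theorem T0_d_sum (z δ : I → R) {J : Type} (s : Finset J) (f : J → MvPolynomial I k) :
    T0_d z δ (∑ j ∈ s, f j) = ∑ j ∈ s, T0_d z δ (f j) := by
  classical
  induction s using Finset.induction_on with
  | empty => rw [Finset.sum_empty, Finset.sum_empty, T0_d_zero]
  | insert a s ha ih => rw [Finset.sum_insert ha, Finset.sum_insert ha, T0_d_add, ih]

private theorem T0_d_mul (z δ : I → R) (Ψ Φ : MvPolynomial I k) :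
    T0_d z δ (Ψ * Φ) = T0_d z δ Ψ * MvPolynomial.aeval z Φ + MvPolynomial.aeval z Ψ * T0_d z δ Φ := by
  unfold T0_d
  rw [Finset.sum_mul, Finset.mul_sum, ← Finset.sum_add_distrib]
  refine Finset.sum_congr rfl fun a _ => ?_
  rw [Derivation.leibniz, map_add, smul_eq_mul, smul_eq_mul, map_mul, map_mul]
  ring

private theorem T0_d_C (z δ : I → R) (c : k) : T0_d z δ (MvPolynomial.C c) = 0 := by
  unfold T0_d
  refine Finset.sum_eq_zero fun a _ => ?_
  rw [MvPolynomial.pderiv_C, map_zero, zero_mul]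

private theorem T0_d_X (z δ : I → R) (a : I) : T0_d z δ (MvPolynomial.X a : MvPolynomial I k) = δ a := by
  classical
  unfold T0_d
  rw [Finset.sum_eq_single a]
  · rw [MvPolynomial.pderiv_X_self, map_one, one_mul]
  · intro b _ hb
    rw [MvPolynomial.pderiv_X_of_ne hb.symm, map_zero, zero_mul]
  · intro h
    exact absurd (Finset.mem_univ a) h

/-- `P` is the value of `p` at `z` and `P'` its derivative in the direction `δ` -/
private structure T0_Rel (z δ : I → R) (p : (MvPolynomial I k)[X]) (P P' : R[X]) : Prop where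
  val : ∀ l, MvPolynomial.aeval z (p.coeff l) = P.coeff l
  der : ∀ l, T0_d z δ (p.coeff l) = P'.coeff l

private theorem T0_rel_add {z δ : I → R} {p q : (MvPolynomial I k)[X]} {P P' Q Q' : R[X]}
    (hp : T0_Rel z δ p P P') (hq : T0_Rel z δ q Q Q') : T0_Rel z δ (p + q) (P + Q) (P' + Q') := by
  refine ⟨fun l => ?_, fun l => ?_⟩
  · rw [coeff_add, coeff_add, map_add, hp.val, hq.val]
  · rw [coeff_add, coeff_add, T0_d_add, hp.der, hq.der]

private theorem T0_rel_mul {z δ : I → R} {p q : (MvPolynomial I k)[X]} {P P' Q Q' : R[X]}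
    (hp : T0_Rel z δ p P P') (hq : T0_Rel z δ q Q Q') :
    T0_Rel z δ (p * q) (P * Q) (P' * Q + P * Q') := by
  refine ⟨fun l => ?_, fun l => ?_⟩
  · rw [coeff_mul, coeff_mul, map_sum]
    refine Finset.sum_congr rfl fun x _ => ?_
    rw [map_mul, hp.val, hq.val]
  · rw [coeff_mul, coeff_add, coeff_mul, coeff_mul, T0_d_sum, ← Finset.sum_add_distrib]
    refine Finset.sum_congr rfl fun x _ => ?_
    rw [T0_d_mul, hp.val, hq.val, hp.der, hq.der]

private theorem T0_rel_C {z δ : I → R} {p : MvPolynomial I k} {u u' : R}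
    (h : MvPolynomial.aeval z p = u) (h' : T0_d z δ p = u') :
    T0_Rel z δ (C p) (C u) (C u') := by
  refine ⟨fun l => ?_, fun l => ?_⟩
  · rw [coeff_C, coeff_C]
    split_ifs
    · exact h
    · rw [map_zero]
  · rw [coeff_C, coeff_C]
    split_ifs
    · exact h'
    · exact T0_d_zero z δ

private theorem T0_rel_X {z δ : I → R} : T0_Rel z δ (X : (MvPolynomial I k)[X]) X 0 := by
  refine ⟨fun l => ?_, fun l => ?_⟩
  · rw [coeff_X, coeff_X]
    split_ifs
    · rw [map_one]
    · rw [map_zero]
  · rw [coeff_X, coeff_zero]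
    split_ifs
    · have h := T0_d_C z δ (1 : k)
      rwa [map_one] at h
    · exact T0_d_zero z δ

private theorem T0_rel_X_pow {z δ : I → R} (m : ℕ) :
    T0_Rel z δ ((X : (MvPolynomial I k)[X]) ^ m) (X ^ m) 0 := by
  induction m with
  | zero =>
    rw [pow_zero, pow_zero]
    have h := T0_rel_C (z := z) (δ := δ) (p := (1 : MvPolynomial I k)) (u := 1) (u' := 0) (map_one _)
      (by
        have h := T0_d_C z δ (1 : k)
        rwa [map_one] at h)
    rwa [map_one, map_one, map_zero] at h
  | succ m ih =>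
    have h := T0_rel_mul ih (T0_rel_X (z := z) (δ := δ) (k := k))
    rw [zero_mul, mul_zero, add_zero] at h
    rwa [pow_succ, pow_succ]

private theorem T0_rel_sum {z δ : I → R} {J : Type} (s : Finset J) (p : J → (MvPolynomial I k)[X])
    (P P' : J → R[X]) (h : ∀ j ∈ s, T0_Rel z δ (p j) (P j) (P' j)) :
    T0_Rel z δ (∑ j ∈ s, p j) (∑ j ∈ s, P j) (∑ j ∈ s, P' j) := by
  classical
  induction s using Finset.induction_on with
  | empty =>
    refine ⟨fun l => ?_, fun l => ?_⟩
    · simp
    · rw [Finset.sum_empty, Finset.sum_empty, coeff_zero, coeff_zero]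
      exact T0_d_zero z δ
  | insert a s ha ih =>
    rw [Finset.sum_insert ha, Finset.sum_insert ha, Finset.sum_insert ha]
    exact T0_rel_add (h a (Finset.mem_insert_self a s))
      (ih fun j hj => h j (Finset.mem_insert_of_mem hj))

private theorem T0_rel_aeval {m : ℕ} {z δ : I → R} (G : Fin m → (MvPolynomial I k)[X])
    (Gz W : Fin m → R[X]) (h : ∀ i, T0_Rel z δ (G i) (Gz i) (W i)) (F : MvPolynomial (Fin m) k) :
    T0_Rel z δ (MvPolynomial.aeval G F) (MvPolynomial.aeval Gz F) (grad F Gz W) := by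
  induction F using MvPolynomial.induction_on with
  | C c =>
    have e1 : MvPolynomial.aeval G (MvPolynomial.C c) = C (MvPolynomial.C c) := by
      rw [MvPolynomial.aeval_C]
      rfl
    have e2 : MvPolynomial.aeval Gz (MvPolynomial.C c) = C (algebraMap k R c) := by
      rw [MvPolynomial.aeval_C]
      rfl
    have e3 : grad (MvPolynomial.C c) Gz W = C 0 := by
      unfold grad
      rw [map_zero]
      refine Finset.sum_eq_zero fun i _ => ?_
      rw [MvPolynomial.pderiv_C, map_zero, zero_mul]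
    rw [e1, e2, e3]
    exact T0_rel_C (by rw [MvPolynomial.aeval_C]) (T0_d_C z δ c)
  | add p q hp hq =>
    have e3 : grad (p + q) Gz W = grad p Gz W + grad q Gz W := by
      unfold grad
      rw [← Finset.sum_add_distrib]
      refine Finset.sum_congr rfl fun i _ => ?_
      rw [map_add, map_add, add_mul]
    rw [map_add, map_add, e3]
    exact T0_rel_add hp hq
  | mul_X p i hp =>
    have e3 : grad (p * MvPolynomial.X i) Gz W =
        grad p Gz W * Gz i + MvPolynomial.aeval Gz p * W i := by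
      classical
      unfold grad
      have e4 : MvPolynomial.aeval Gz p * W i =
          ∑ j, MvPolynomial.aeval Gz (p * MvPolynomial.pderiv j (MvPolynomial.X i)) * W j := by
        rw [Finset.sum_eq_single i]
        · rw [MvPolynomial.pderiv_X_self, mul_one]
        · intro j _ hj
          rw [MvPolynomial.pderiv_X_of_ne hj.symm, mul_zero, map_zero, zero_mul]
        · intro h
          exact absurd (Finset.mem_univ i) h
      rw [e4, Finset.sum_mul, ← Finset.sum_add_distrib]
      refine Finset.sum_congr rfl fun j _ => ?_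
      rw [Derivation.leibniz, smul_eq_mul, smul_eq_mul, map_add, map_mul, map_mul,
        MvPolynomial.aeval_X]
      ring
    rw [map_mul, map_mul, MvPolynomial.aeval_X, MvPolynomial.aeval_X, e3]
    exact T0_rel_mul hp (h i)

private theorem T0_rel_lin {n d : ℕ} (z δ : Fin (n + 1) × Fin d → R) (i : Fin (n + 1)) :
    T0_Rel z δ (lin d (MvPolynomial.X : _ → MvPolynomial (Fin (n + 1) × Fin d) k) i) (lin d z i)
      (lin d δ i) := by
  unfold lin
  refine T0_rel_sum _ _ _ _ fun j _ => ?_
  have h := T0_rel_mul (T0_rel_C (z := z) (δ := δ) (MvPolynomial.aeval_X z (i, j))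
    (T0_d_X (k := k) z δ (i, j))) (T0_rel_X_pow (z := z) (δ := δ) (k := k) (j : ℕ))
  rwa [mul_zero, add_zero] at h

end T0aux

private theorem T0_coeff_lin {R : Type} [CommRing R] {n : ℕ} (d : ℕ) (z : Fin (n + 1) × Fin d → R)
    (i : Fin (n + 1)) (l : ℕ) : (lin d z i).coeff l = if h : l < d then z (i, ⟨l, h⟩) else 0 := by
  unfold lin
  rw [finsetSum_coeff]
  by_cases h : l < d
  · rw [dif_pos h, Finset.sum_eq_single (⟨l, h⟩ : Fin d)]
    · rw [coeff_C_mul, coeff_X_pow, if_pos rfl, mul_one]
    · intro j _ hj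
      rw [coeff_C_mul, coeff_X_pow, if_neg, mul_zero]
      intro h2
      exact hj (Fin.ext h2.symm)
    · intro h2
      exact absurd (Finset.mem_univ _) h2
  · rw [dif_neg h]
    refine Finset.sum_eq_zero fun j _ => ?_
    rw [coeff_C_mul, coeff_X_pow, if_neg, mul_zero]
    intro h2
    exact h (h2 ▸ j.2)

private theorem T0_deg {k : Type} [Field k] {m n d : ℕ} {F : MvPolynomial (Fin m) k}
    (hF : F.IsHomogeneous n) {κ : Type} [Field κ] [Algebra k κ] (γ : Fin m → κ[X])
    (h : ∀ i, (γ i).natDegree ≤ d) : (MvPolynomial.aeval γ F).natDegree ≤ n * d := by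
  rw [MvPolynomial.aeval_def, MvPolynomial.eval₂_eq']
  refine natDegree_sum_le_of_forall_le _ _ fun u hu => ?_
  have hu' : MvPolynomial.coeff u F ≠ 0 := MvPolynomial.mem_support_iff.1 hu
  have hdeg : u.degree = n := by
    by_contra h2
    exact hu' (hF.coeff_eq_zero h2)
  have e : algebraMap k κ[X] (MvPolynomial.coeff u F) = C (algebraMap k κ (MvPolynomial.coeff u F)) := rfl
  rw [e]
  refine (natDegree_C_mul_le _ _).trans ?_
  refine (natDegree_prod_le _ _).trans ?_
  calc ∑ i, (γ i ^ u i).natDegree ≤ ∑ i, u i * d := by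
        refine Finset.sum_le_sum fun i _ => ?_
        exact natDegree_pow_le.trans (Nat.mul_le_mul_left _ (h i))
    _ = (∑ i, u i) * d := by rw [Finset.sum_mul]
    _ = n * d := by rw [← hdeg, Finsupp.degree_eq_sum]

section sys

variable {k : Type} [Field k] {n : ℕ} (F : MvPolynomial (Fin (n + 1)) k) {R : Type} [CommRing R]
  [Algebra k R]

theorem eqA_aeval (d : ℕ) (z : Fin (n + 1) × Fin (d + 1) → R) (j : Fin (n * d + 1)) :
    MvPolynomial.aeval z (eqA F d j) = (MvPolynomial.aeval (lin (d + 1) z) F).coeff j := by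
  exact (T0_rel_aeval _ _ _ (fun i => T0_rel_lin (k := k) z 0 i) F).val j

theorem eqA_deriv (d : ℕ) (z δ : Fin (n + 1) × Fin (d + 1) → R) (j : Fin (n * d + 1)) :
    ∑ a, MvPolynomial.aeval z (MvPolynomial.pderiv a (eqA F d j)) * δ a =
      (grad F (lin (d + 1) z) (lin (d + 1) δ)).coeff j := by
  exact (T0_rel_aeval _ _ _ (fun i => T0_rel_lin (k := k) z δ i) F).der j

theorem eqB_aeval (q : Fin (n + 1) → k) (d : ℕ) (z : Fin (n + 1) × Fin d → R) (j : Fin (n * d)) :
    MvPolynomial.aeval z (eqB F q d j) =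
      (MvPolynomial.aeval (fun i => C (algebraMap k R (q i)) + X * lin d z i) F).coeff (j + 1) := by
  have h1 : ∀ i, T0_Rel z (0 : Fin (n + 1) × Fin d → R) (C (MvPolynomial.C (q i)) +
      X * lin d (MvPolynomial.X : _ → MvPolynomial (Fin (n + 1) × Fin d) k) i)
      (C (algebraMap k R (q i)) + X * lin d z i)
      (C 0 + (0 * lin d z i + X * lin d 0 i)) := fun i =>
    T0_rel_add (T0_rel_C (by rw [MvPolynomial.aeval_C]) (T0_d_C z 0 (q i)))
      (T0_rel_mul T0_rel_X (T0_rel_lin (k := k) z 0 i))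
  exact (T0_rel_aeval _ _ _ h1 F).val (j + 1)

theorem eqB_deriv (q : Fin (n + 1) → k) (d : ℕ) (z δ : Fin (n + 1) × Fin d → R)
    (j : Fin (n * d)) :
    ∑ a, MvPolynomial.aeval z (MvPolynomial.pderiv a (eqB F q d j)) * δ a =
      (grad F (fun i => C (algebraMap k R (q i)) + X * lin d z i) (lin d δ)).coeff j := by
  have h1 : ∀ i, T0_Rel z δ (C (MvPolynomial.C (q i)) +
      X * lin d (MvPolynomial.X : _ → MvPolynomial (Fin (n + 1) × Fin d) k) i)
      (C (algebraMap k R (q i)) + X * lin d z i)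
      (X * lin d δ i) := by
    intro i
    have h := T0_rel_add (T0_rel_C (z := z) (δ := δ) (p := MvPolynomial.C (q i))
      (u := algebraMap k R (q i)) (u' := 0) (by rw [MvPolynomial.aeval_C]) (T0_d_C z δ (q i)))
      (T0_rel_mul T0_rel_X (T0_rel_lin (k := k) z δ i))
    rwa [map_zero, zero_mul, zero_add, zero_add] at h
  have h2 := (T0_rel_aeval _ _ _ h1 F).der (j + 1)
  have h3 : grad F (fun i => C (algebraMap k R (q i)) + X * lin d z i) (fun i => X * lin d δ i) =
      X * grad F (fun i => C (algebraMap k R (q i)) + X * lin d z i) (lin d δ) := by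
    unfold grad
    rw [Finset.mul_sum]
    refine Finset.sum_congr rfl fun i _ => ?_
    ring
  rw [h3, coeff_X_mul] at h2
  exact h2

/-- a vector of polynomials on `F = 0` of degree at most `d` is a zero of `eqA` and conversely -/
theorem eqA_zero (hF : F.IsHomogeneous n) {κ : Type} [Field κ] [Algebra k κ] (d : ℕ)
    (z : Fin (n + 1) × Fin (d + 1) → κ) :
    (∀ j, MvPolynomial.aeval z (eqA F d j) = 0) ↔ On F d (lin (d + 1) z) := by
  have hdeg : ∀ i, (lin (d + 1) z i).natDegree ≤ d := by
    intro i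
    rw [natDegree_le_iff_coeff_eq_zero]
    intro l hl
    rw [T0_coeff_lin, dif_neg (by omega)]
  constructor
  · intro h
    refine ⟨hdeg, ?_⟩
    ext l
    rw [coeff_zero]
    by_cases hl : l < n * d + 1
    · have h1 := h ⟨l, hl⟩
      rw [eqA_aeval] at h1
      exact h1
    · exact coeff_eq_zero_of_natDegree_lt (lt_of_le_of_lt (T0_deg hF _ hdeg) (by omega))
  · rintro ⟨_, h⟩ j
    rw [eqA_aeval, h, coeff_zero]

theorem lin_cf {κ : Type} [Field κ] (d : ℕ) (γ : Fin (n + 1) → κ[X])
    (h : ∀ i, (γ i).natDegree ≤ d) : lin (d + 1) (cf d γ) = γ := by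
  funext i
  ext l
  rw [T0_coeff_lin]
  split_ifs with hl
  · rfl
  · exact (coeff_eq_zero_of_natDegree_lt (lt_of_le_of_lt (h i) (by omega))).symm

theorem cf_lin {κ : Type} [Field κ] (d : ℕ) (z : Fin (n + 1) × Fin (d + 1) → κ) :
    cf d (lin (d + 1) z) = z := by
  funext a
  obtain ⟨i, j⟩ := a
  change (lin (d + 1) z i).coeff j = z (i, j)
  rw [T0_coeff_lin, dif_pos j.2]

end sys

end Q9
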