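import Pool.Agent.LibQ9.SDefs
import Pool.Agent.LibQ9.SR
import Pool.Agent.LibQ9.T0
import Pool.Agent.LibQ9.P3
import Pool.Agent.LibQ9.P4
import Pool.Agent.LibQ9.P5
import Pool.Agent.LibQ9.B5

/-!
[Q9 S2a] (MEDIUM/STRONG; may cite SR, T0, P2, P3, P4, P5, B5 as stated) Free curves through the point `g(b₀)` of a rational curve `g` deform to free curves through the generic point `g(β)`.

PLAN. Unknowns `I = Option (Σ i : Fin m, Fin (n+1) × Fin (d i))`, `none` is `β`. `z₀ none = b₀`, `z₀ (some (i, (a, j))) = (τ i a).coeff (j + 1)`. Equations: (1) for `i` and `j < n (d i)` the coefficient of `w^(j+1)` of `F(g(X_none) + w lin_i)` (as in `eqB`, with `q` replaced by the polynomials `aeval X_none (g a)`), (2) for `i` and `l < d i` the linear condition `Σ_a lam_i l a (X_(i,a) - z₀ (i,a))` with `lam_i` from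
SR `rigid` for `τ i`. There are `Σ (n d_i + d_i)` equations and `1 + Σ (n+1) d_i` unknowns: P3 `exists_gen` with `r = 1`: `Ω`, `z`, `β = z none`, `Spz z z₀`, `1 ≤ td k z`. Let `γ i = C (g(β)) + X lin z_i` (so `(γ i a).coeff 0 = aeval β (g a)`, `F(γ i) = 0`: coefficients `1..nd_i` are the equations, coefficient `0` is `F(g(β)) = (F(g))(β) = 0`). `Spz (jc d γ) (jc d τ)`: the elements of `jc d γ`
are the values at `z` of polynomials whose values at `z₀` are `jc d τ` (`MvPolynomial.aeval`/`bind₁`). For each `i`, `Spz (cf (d i) (γ i)) (cf (d i) (τ i))`, so `γ i` is free (B5). A derivation `D : fld k z → Ω` with `D β = 0`: P5 `der_rel` for all equations: the matrix of the derivatives of the equations with respect to the variables `(i, a, j)` (column `none` dropped) is injective at `z₀`: for each `i` the equations (1) give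
`grad F (τ i) (lin δ_i) = 0` (T0 `eqB_deriv` for `q = g(b₀)`, after specialising `X_none`), (2) and `rigid` give `δ_i = 0`; so it is injective at `z` (P5 `inj_of_spz`), so `D z = 0`. P4 `sep_of_der` with `q = (fun _ : Unit => β)`: all `z a` are algebraic over `fld k β`; with `∀ x, IsAlgebraic (fld k z) x` (P3) every `x : Ω` is algebraic over `k(β) = IntermediateField.adjoin k {β}`. P4 `td_le_of_der` with `M = ⊥`, `r = 0`:
`1 ≤ td k z ≤ td k (fun _ : Unit => β)`; if `β` were algebraic over the algebraically closed `k` it would be in `k`, so in `fld` of the empty family and P2 `td_mono`, `td_le_card` would give `td k β ≤ 0`.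
-/

set_option autoImplicit false

namespace Q9

open Polynomial

section S2aaux

variable {k : Type} [Field k] {I : Type} [Fintype I] {R : Type} [CommRing R] [Algebra k R]

/-- the derivative of `Ψ` at `z` in the direction `δ` -/
private noncomputable def S2a_d (z δ : I → R) (Ψ : MvPolynomial I k) : R :=
  ∑ a, MvPolynomial.aeval z (MvPolynomial.pderiv a Ψ) * δ a

private theorem S2a_d_add (z δ : I → R) (Ψ Φ : MvPolynomial I k) :
    S2a_d z δ (Ψ + Φ) = S2a_d z δ Ψ + S2a_d z δ Φ := by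
  unfold S2a_d
  rw [← Finset.sum_add_distrib]
  refine Finset.sum_congr rfl fun a _ => ?_
  rw [map_add, map_add, add_mul]

private theorem S2a_d_zero (z δ : I → R) : S2a_d z δ (0 : MvPolynomial I k) = 0 := by
  unfold S2a_d
  refine Finset.sum_eq_zero fun a _ => ?_
  rw [map_zero, map_zero, zero_mul]

private theorem S2a_d_sum (z δ : I → R) {J : Type} (s : Finset J) (f : J → MvPolynomial I k) :
    S2a_d z δ (∑ j ∈ s, f j) = ∑ j ∈ s, S2a_d z δ (f j) := by
  classical
  induction s using Finset.induction_on with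
  | empty => rw [Finset.sum_empty, Finset.sum_empty, S2a_d_zero]
  | insert a s ha ih => rw [Finset.sum_insert ha, Finset.sum_insert ha, S2a_d_add, ih]

private theorem S2a_d_mul (z δ : I → R) (Ψ Φ : MvPolynomial I k) :
    S2a_d z δ (Ψ * Φ) = S2a_d z δ Ψ * MvPolynomial.aeval z Φ + MvPolynomial.aeval z Ψ * S2a_d z δ Φ := by
  unfold S2a_d
  rw [Finset.sum_mul, Finset.mul_sum, ← Finset.sum_add_distrib]
  refine Finset.sum_congr rfl fun a _ => ?_
  rw [Derivation.leibniz, map_add, smul_eq_mul, smul_eq_mul, map_mul, map_mul]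
  ring

private theorem S2a_d_C (z δ : I → R) (c : k) : S2a_d z δ (MvPolynomial.C c) = 0 := by
  unfold S2a_d
  refine Finset.sum_eq_zero fun a _ => ?_
  rw [MvPolynomial.pderiv_C, map_zero, zero_mul]

private theorem S2a_d_X (z δ : I → R) (a : I) : S2a_d z δ (MvPolynomial.X a : MvPolynomial I k) = δ a := by
  classical
  unfold S2a_d
  rw [Finset.sum_eq_single a]
  · rw [MvPolynomial.pderiv_X_self, map_one, one_mul]
  · intro b _ hb
    rw [MvPolynomial.pderiv_X_of_ne hb.symm, map_zero, zero_mul]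
  · intro h
    exact absurd (Finset.mem_univ a) h

/-- `P` is the value of `p` at `z` and `P'` its derivative in the direction `δ` -/
private structure S2a_Rel (z δ : I → R) (p : (MvPolynomial I k)[X]) (P P' : R[X]) : Prop where
  val : ∀ l, MvPolynomial.aeval z (p.coeff l) = P.coeff l
  der : ∀ l, S2a_d z δ (p.coeff l) = P'.coeff l

private theorem S2a_rel_add {z δ : I → R} {p q : (MvPolynomial I k)[X]} {P P' Q Q' : R[X]}
    (hp : S2a_Rel z δ p P P') (hq : S2a_Rel z δ q Q Q') : S2a_Rel z δ (p + q) (P + Q) (P' + Q') := by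
  refine ⟨fun l => ?_, fun l => ?_⟩
  · rw [coeff_add, coeff_add, map_add, hp.val, hq.val]
  · rw [coeff_add, coeff_add, S2a_d_add, hp.der, hq.der]

private theorem S2a_rel_mul {z δ : I → R} {p q : (MvPolynomial I k)[X]} {P P' Q Q' : R[X]}
    (hp : S2a_Rel z δ p P P') (hq : S2a_Rel z δ q Q Q') :
    S2a_Rel z δ (p * q) (P * Q) (P' * Q + P * Q') := by
  refine ⟨fun l => ?_, fun l => ?_⟩
  · rw [coeff_mul, coeff_mul, map_sum]
    refine Finset.sum_congr rfl fun x _ => ?_
    rw [map_mul, hp.val, hq.val]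
  · rw [coeff_mul, coeff_add, coeff_mul, coeff_mul, S2a_d_sum, ← Finset.sum_add_distrib]
    refine Finset.sum_congr rfl fun x _ => ?_
    rw [S2a_d_mul, hp.val, hq.val, hp.der, hq.der]

private theorem S2a_rel_C {z δ : I → R} {p : MvPolynomial I k} {u u' : R}
    (h : MvPolynomial.aeval z p = u) (h' : S2a_d z δ p = u') :
    S2a_Rel z δ (C p) (C u) (C u') := by
  refine ⟨fun l => ?_, fun l => ?_⟩
  · rw [coeff_C, coeff_C]
    split_ifs
    · exact h
    · rw [map_zero]
  · rw [coeff_C, coeff_C]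
    split_ifs
    · exact h'
    · exact S2a_d_zero z δ

private theorem S2a_rel_X {z δ : I → R} : S2a_Rel z δ (X : (MvPolynomial I k)[X]) X 0 := by
  refine ⟨fun l => ?_, fun l => ?_⟩
  · rw [coeff_X, coeff_X]
    split_ifs
    · rw [map_one]
    · rw [map_zero]
  · rw [coeff_X, coeff_zero]
    split_ifs
    · have h := S2a_d_C z δ (1 : k)
      rwa [map_one] at h
    · exact S2a_d_zero z δ

private theorem S2a_rel_X_pow {z δ : I → R} (m : ℕ) :
    S2a_Rel z δ ((X : (MvPolynomial I k)[X]) ^ m) (X ^ m) 0 := by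
  induction m with
  | zero =>
    rw [pow_zero, pow_zero]
    have h := S2a_rel_C (z := z) (δ := δ) (p := (1 : MvPolynomial I k)) (u := 1) (u' := 0) (map_one _)
      (by
        have h := S2a_d_C z δ (1 : k)
        rwa [map_one] at h)
    rwa [map_one, map_one, map_zero] at h
  | succ m ih =>
    have h := S2a_rel_mul ih (S2a_rel_X (z := z) (δ := δ) (k := k))
    rw [zero_mul, mul_zero, add_zero] at h
    rwa [pow_succ, pow_succ]

private theorem S2a_rel_sum {z δ : I → R} {J : Type} (s : Finset J) (p : J → (MvPolynomial I k)[X])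
    (P P' : J → R[X]) (h : ∀ j ∈ s, S2a_Rel z δ (p j) (P j) (P' j)) :
    S2a_Rel z δ (∑ j ∈ s, p j) (∑ j ∈ s, P j) (∑ j ∈ s, P' j) := by
  classical
  induction s using Finset.induction_on with
  | empty =>
    refine ⟨fun l => ?_, fun l => ?_⟩
    · simp
    · rw [Finset.sum_empty, Finset.sum_empty, coeff_zero, coeff_zero]
      exact S2a_d_zero z δ
  | insert a s ha ih =>
    rw [Finset.sum_insert ha, Finset.sum_insert ha, Finset.sum_insert ha]
    exact S2a_rel_add (h a (Finset.mem_insert_self a s))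
      (ih fun j hj => h j (Finset.mem_insert_of_mem hj))

private theorem S2a_rel_aeval {m : ℕ} {z δ : I → R} (G : Fin m → (MvPolynomial I k)[X])
    (Gz W : Fin m → R[X]) (h : ∀ i, S2a_Rel z δ (G i) (Gz i) (W i)) (F : MvPolynomial (Fin m) k) :
    S2a_Rel z δ (MvPolynomial.aeval G F) (MvPolynomial.aeval Gz F) (grad F Gz W) := by
  induction F using MvPolynomial.induction_on with
  | C c =>
    have e1 : MvPolynomial.aeval G (MvPolynomial.C c) = C (MvPolynomial.C c) := by
      rw [MvPolynomial.aeval_C]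
      rfl
    have e2 : MvPolynomial.aeval Gz (MvPolynomial.C c) = C (algebraMap k R c) := by
      rw [MvPolynomial.aeval_C]
      rfl
    have e3 : grad (MvPolynomial.C c) Gz W = C 0 := by
      unfold grad
      rw [map_zero]
      refine Finset.sum_eq_zero fun i _ => ?_
      rw [MvPolynomial.pderiv_C, map_zero, zero_mul]
    rw [e1, e2, e3]
    exact S2a_rel_C (by rw [MvPolynomial.aeval_C]) (S2a_d_C z δ c)
  | add p q hp hq =>
    have e3 : grad (p + q) Gz W = grad p Gz W + grad q Gz W := by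
      unfold grad
      rw [← Finset.sum_add_distrib]
      refine Finset.sum_congr rfl fun i _ => ?_
      rw [map_add, map_add, add_mul]
    rw [map_add, map_add, e3]
    exact S2a_rel_add hp hq
  | mul_X p i hp =>
    have e3 : grad (p * MvPolynomial.X i) Gz W =
        grad p Gz W * Gz i + MvPolynomial.aeval Gz p * W i := by
      classical
      unfold grad
      have e4 : MvPolynomial.aeval Gz p * W i =
          ∑ j, MvPolynomial.aeval Gz (p * MvPolynomial.pderiv j (MvPolynomial.X i)) * W j := by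
        rw [Finset.sum_eq_single i]
        · rw [MvPolynomial.pderiv_X_self, mul_one]
        · intro j _ hj
          rw [MvPolynomial.pderiv_X_of_ne hj.symm, mul_zero, map_zero, zero_mul]
        · intro h
          exact absurd (Finset.mem_univ i) h
      rw [e4, Finset.sum_mul, ← Finset.sum_add_distrib]
      refine Finset.sum_congr rfl fun j _ => ?_
      rw [Derivation.leibniz, smul_eq_mul, smul_eq_mul, map_add, map_mul, map_mul,
        MvPolynomial.aeval_X]
      ring
    rw [map_mul, map_mul, MvPolynomial.aeval_X, MvPolynomial.aeval_X, e3]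
    exact S2a_rel_mul hp (h i)

private theorem S2a_rel_lin {n d : ℕ} (z δ : I → R) (e : Fin (n + 1) × Fin d → I)
    (i : Fin (n + 1)) :
    S2a_Rel z δ (lin d (fun c => (MvPolynomial.X (e c) : MvPolynomial I k)) i)
      (lin d (fun c => z (e c)) i) (lin d (fun c => δ (e c)) i) := by
  unfold lin
  refine S2a_rel_sum _ _ _ _ fun j _ => ?_
  have h := S2a_rel_mul (S2a_rel_C (z := z) (δ := δ) (MvPolynomial.aeval_X z (e (i, j)))
    (S2a_d_X (k := k) z δ (e (i, j)))) (S2a_rel_X_pow (z := z) (δ := δ) (k := k) (j : ℕ))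
  rwa [mul_zero, add_zero] at h

private theorem S2a_d_aeval (z δ : I → R) (e : I) (he : δ e = 0) (p : k[X]) :
    S2a_d z δ (Polynomial.aeval (MvPolynomial.X e : MvPolynomial I k) p) = 0 := by
  induction p using Polynomial.induction_on with
  | C c =>
    rw [Polynomial.aeval_C]
    exact S2a_d_C z δ c
  | add p q hp hq => rw [map_add, S2a_d_add, hp, hq, add_zero]
  | monomial n c h =>
    rw [pow_succ, ← mul_assoc, map_mul, Polynomial.aeval_X, S2a_d_mul, h, S2a_d_X, he, zero_mul,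
      mul_zero, add_zero]

end S2aaux

private theorem S2a_coeff_lin {R : Type} [CommRing R] {n : ℕ} (d : ℕ) (z : Fin (n + 1) × Fin d → R)
    (i : Fin (n + 1)) (l : ℕ) : (lin d z i).coeff l = if h : l < d then z (i, ⟨l, h⟩) else 0 := by
  unfold lin
  rw [finsetSum_coeff]
  by_cases h : l < d
  · rw [dif_pos h, Finset.sum_eq_single (⟨l, h⟩ : Fin d)]
    · rw [coeff_C_mul, coeff_X_pow, if_pos rfl, mul_one]
    · intro j _ hj
      rw [coeff_C_mul, coeff_X_pow, if_neg, mul_zero]
      intro h2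
      exact hj (Fin.ext h2.symm)
    · intro h2
      exact absurd (Finset.mem_univ _) h2
  · rw [dif_neg h]
    refine Finset.sum_eq_zero fun j _ => ?_
    rw [coeff_C_mul, coeff_X_pow, if_neg, mul_zero]
    intro h2
    exact h (h2 ▸ j.2)

private theorem S2a_deg {k : Type} [Field k] {m n d : ℕ} {F : MvPolynomial (Fin m) k}
    (hF : F.IsHomogeneous n) {κ : Type} [Field κ] [Algebra k κ] (γ : Fin m → κ[X])
    (h : ∀ i, (γ i).natDegree ≤ d) : (MvPolynomial.aeval γ F).natDegree ≤ n * d := by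
  rw [MvPolynomial.aeval_def, MvPolynomial.eval₂_eq']
  refine natDegree_sum_le_of_forall_le _ _ fun u hu => ?_
  have hu' : MvPolynomial.coeff u F ≠ 0 := MvPolynomial.mem_support_iff.1 hu
  have hdeg : u.degree = n := by
    by_contra h2
    exact hu' (hF.coeff_eq_zero h2)
  have e : algebraMap k κ[X] (MvPolynomial.coeff u F) = C (algebraMap k κ (MvPolynomial.coeff u F)) := rfl
  rw [e]
  refine (natDegree_C_mul_le _ _).trans ?_
  refine (natDegree_prod_le _ _).trans ?_
  calc ∑ i, (γ i ^ u i).natDegree ≤ ∑ i, u i * d := by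
        refine Finset.sum_le_sum fun i _ => ?_
        exact natDegree_pow_le.trans (Nat.mul_le_mul_left _ (h i))
    _ = (∑ i, u i) * d := by rw [Finset.sum_mul]
    _ = n * d := by rw [← hdeg, Finsupp.degree_eq_sum]

section S2acv

variable {k : Type} [Field k] {n m : ℕ} (g : Fin (n + 1) → k[X]) (d : Fin m → ℕ) {R : Type}
  [CommRing R] [Algebra k R]

/-- the curve `g(z_none) + X lin z_i` -/
private noncomputable def S2a_cv (z : Option (Σ i : Fin m, Fin (n + 1) × Fin (d i)) → R)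
    (i : Fin m) (a : Fin (n + 1)) : R[X] :=
  C (aeval (z none) (g a)) + X * lin (d i) (fun c => z (some ⟨i, c⟩)) a

private theorem S2a_rel_cv (z δ : Option (Σ i : Fin m, Fin (n + 1) × Fin (d i)) → R)
    (h0 : δ none = 0) (i : Fin m) (a : Fin (n + 1)) :
    S2a_Rel z δ (S2a_cv g d (MvPolynomial.X : _ → MvPolynomial _ k) i a) (S2a_cv g d z i a)
      (X * lin (d i) (fun c => δ (some ⟨i, c⟩)) a) := by
  unfold S2a_cv
  have h1 : MvPolynomial.aeval z (Polynomial.aeval (MvPolynomial.X none :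
      MvPolynomial (Option (Σ i : Fin m, Fin (n + 1) × Fin (d i))) k) (g a)) =
      aeval (z none) (g a) := by
    rw [← Polynomial.aeval_algHom_apply, MvPolynomial.aeval_X]
  have h := S2a_rel_add (S2a_rel_C (z := z) (δ := δ) h1 (S2a_d_aeval z δ none h0 (g a)))
    (S2a_rel_mul S2a_rel_X (S2a_rel_lin (k := k) z δ
      (fun c : Fin (n + 1) × Fin (d i) => some ⟨i, c⟩) a))
  rwa [map_zero, zero_mul, zero_add, zero_add] at h

private theorem S2a_cv_coeff_zero (z : Option (Σ i : Fin m, Fin (n + 1) × Fin (d i)) → R)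
    (i : Fin m) (a : Fin (n + 1)) : (S2a_cv g d z i a).coeff 0 = aeval (z none) (g a) := by
  unfold S2a_cv
  rw [coeff_add, coeff_C_zero, coeff_X_mul_zero, add_zero]

private theorem S2a_cv_coeff_succ (z : Option (Σ i : Fin m, Fin (n + 1) × Fin (d i)) → R)
    (i : Fin m) (a : Fin (n + 1)) (l : ℕ) :
    (S2a_cv g d z i a).coeff (l + 1) = if h : l < d i then z (some ⟨i, (a, ⟨l, h⟩)⟩) else 0 := by
  unfold S2a_cv
  rw [coeff_add, coeff_X_mul, coeff_C_succ, zero_add, S2a_coeff_lin]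

private theorem S2a_cv_deg (z : Option (Σ i : Fin m, Fin (n + 1) × Fin (d i)) → R)
    (i : Fin m) (a : Fin (n + 1)) : (S2a_cv g d z i a).natDegree ≤ d i := by
  rw [natDegree_le_iff_coeff_eq_zero]
  intro l hl
  obtain ⟨l, rfl⟩ : ∃ l', l = l' + 1 := ⟨l - 1, by omega⟩
  rw [S2a_cv_coeff_succ, dif_neg (by omega)]

variable (F : MvPolynomial (Fin (n + 1)) k)

/-- the coefficients of the generic curve -/
private noncomputable def S2a_P (i : Fin m) (a : Fin (n + 1)) (j : ℕ) :
    MvPolynomial (Option (Σ i : Fin m, Fin (n + 1) × Fin (d i))) k :=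
  (S2a_cv g d (MvPolynomial.X :
    _ → MvPolynomial (Option (Σ i : Fin m, Fin (n + 1) × Fin (d i))) k) i a).coeff j

private theorem S2a_P_val (z : Option (Σ i : Fin m, Fin (n + 1) × Fin (d i)) → R) (i : Fin m)
    (a : Fin (n + 1)) (j : ℕ) :
    MvPolynomial.aeval z (S2a_P g d i a j) = (S2a_cv g d z i a).coeff j :=
  (S2a_rel_cv g d z 0 rfl i a).val j

/-- the equations -/
private noncomputable def S2a_eq (lam : (i : Fin m) → Fin (d i) → Fin (n + 1) × Fin (d i) → k)
    (z₀ : Option (Σ i : Fin m, Fin (n + 1) × Fin (d i)) → k) :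
    (Σ i : Fin m, Fin (n * d i)) ⊕ (Σ i : Fin m, Fin (d i)) →
      MvPolynomial (Option (Σ i : Fin m, Fin (n + 1) × Fin (d i))) k
  | Sum.inl ⟨i, j⟩ => (MvPolynomial.aeval (S2a_cv g d
      (MvPolynomial.X : _ → MvPolynomial (Option (Σ i : Fin m, Fin (n + 1) × Fin (d i))) k) i)
        F).coeff (j + 1)
  | Sum.inr ⟨i, l⟩ => ∑ c, MvPolynomial.C (lam i l c) *
      (MvPolynomial.X (some ⟨i, c⟩) - MvPolynomial.C (z₀ (some ⟨i, c⟩)))

private theorem S2a_eq_inl (lam : (i : Fin m) → Fin (d i) → Fin (n + 1) × Fin (d i) → k)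
    (z₀ : Option (Σ i : Fin m, Fin (n + 1) × Fin (d i)) → k)
    (z : Option (Σ i : Fin m, Fin (n + 1) × Fin (d i)) → R) (i : Fin m) (j : Fin (n * d i)) :
    MvPolynomial.aeval z (S2a_eq g d F lam z₀ (Sum.inl ⟨i, j⟩)) =
      (MvPolynomial.aeval (S2a_cv g d z i) F).coeff (j + 1) :=
  (S2a_rel_aeval _ _ _ (fun a => S2a_rel_cv g d z 0 rfl i a) F).val (j + 1)

private theorem S2a_eq_inl_d (lam : (i : Fin m) → Fin (d i) → Fin (n + 1) × Fin (d i) → k)
    (z₀ : Option (Σ i : Fin m, Fin (n + 1) × Fin (d i)) → k)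
    (z δ : Option (Σ i : Fin m, Fin (n + 1) × Fin (d i)) → R) (h0 : δ none = 0) (i : Fin m)
    (j : Fin (n * d i)) :
    S2a_d z δ (S2a_eq g d F lam z₀ (Sum.inl ⟨i, j⟩)) =
      (grad F (S2a_cv g d z i) (lin (d i) (fun c => δ (some ⟨i, c⟩)))).coeff j := by
  have h := (S2a_rel_aeval _ _ _ (fun a => S2a_rel_cv g d z δ h0 i a) F).der (j + 1)
  have h3 : grad F (S2a_cv g d z i) (fun a => X * lin (d i) (fun c => δ (some ⟨i, c⟩)) a) =
      X * grad F (S2a_cv g d z i) (lin (d i) (fun c => δ (some ⟨i, c⟩))) := by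
    unfold grad
    rw [Finset.mul_sum]
    refine Finset.sum_congr rfl fun i _ => ?_
    ring
  rw [h3, coeff_X_mul] at h
  exact h

private theorem S2a_eq_inr_d (lam : (i : Fin m) → Fin (d i) → Fin (n + 1) × Fin (d i) → k)
    (z₀ : Option (Σ i : Fin m, Fin (n + 1) × Fin (d i)) → k)
    (z δ : Option (Σ i : Fin m, Fin (n + 1) × Fin (d i)) → R) (i : Fin m) (l : Fin (d i)) :
    S2a_d z δ (S2a_eq g d F lam z₀ (Sum.inr ⟨i, l⟩)) =
      ∑ c, algebraMap k R (lam i l c) * δ (some ⟨i, c⟩) := by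
  have e1 : S2a_eq g d F lam z₀ (Sum.inr ⟨i, l⟩) = ∑ c, MvPolynomial.C (lam i l c) *
      (MvPolynomial.X (some ⟨i, c⟩) - MvPolynomial.C (z₀ (some ⟨i, c⟩))) := rfl
  rw [e1, S2a_d_sum]
  refine Finset.sum_congr rfl fun c _ => ?_
  rw [sub_eq_add_neg, ← MvPolynomial.C_neg, S2a_d_mul, S2a_d_C, zero_mul, zero_add, S2a_d_add,
    S2a_d_C, add_zero, S2a_d_X, MvPolynomial.aeval_C]

end S2acv

private theorem S2a_grad_coeff {k : Type} [Field k] {m n d : ℕ} {F : MvPolynomial (Fin m) k}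
    (hF : F.IsHomogeneous n) (hn : 1 ≤ n) (hd : 1 ≤ d) {κ : Type} [Field κ] [Algebra k κ]
    (γ w : Fin m → κ[X]) (h : ∀ i, (γ i).natDegree ≤ d) (hw : ∀ i, (w i).natDegree ≤ d - 1) (l : ℕ)
    (hl : n * d ≤ l) : (grad F γ w).coeff l = 0 := by
  unfold grad
  rw [finsetSum_coeff]
  refine Finset.sum_eq_zero fun i _ => coeff_eq_zero_of_natDegree_lt ?_
  have h1 : (MvPolynomial.aeval γ (MvPolynomial.pderiv i F)).natDegree ≤ (n - 1) * d :=
    S2a_deg hF.pderiv γ h
  refine lt_of_le_of_lt (natDegree_mul_le.trans (Nat.add_le_add h1 (hw i))) ?_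
  obtain ⟨n, rfl⟩ : ∃ n', n = n' + 1 := ⟨n - 1, by omega⟩
  rw [Nat.add_sub_cancel]
  have : (n + 1) * d = n * d + d := by ring
  omega

private theorem S2a_spz_comp {k : Type} [Field k] {I Ω : Type} [Field Ω] [Algebra k Ω]
    {z : I → Ω} {z₀ : I → k} (h : Spz z z₀) {J : Type} (P : J → MvPolynomial I k) (w : J → Ω)
    (w₀ : J → k) (hw : ∀ s, MvPolynomial.aeval z (P s) = w s)
    (hw₀ : ∀ s, MvPolynomial.aeval z₀ (P s) = w₀ s) : Spz w w₀ := by
  intro Ψ hΨ
  have h1 : MvPolynomial.aeval z (MvPolynomial.bind₁ P Ψ) = 0 := by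
    rw [MvPolynomial.aeval_bind₁]
    simp_rw [hw]
    exact hΨ
  have h2 := h _ h1
  have h3 : MvPolynomial.aeval z₀ (MvPolynomial.bind₁ P Ψ) = MvPolynomial.aeval w₀ Ψ := by
    rw [MvPolynomial.aeval_bind₁]
    simp_rw [hw₀]
  rw [MvPolynomial.aeval_eq_eval, MvPolynomial.aeval_eq_eval, h2] at h3
  exact h3.symm

private theorem S2a_trans {k : Type} [Field k] [IsAlgClosed k] {Ω : Type} [Field Ω] [Algebra k Ω]
    (β : Ω) (h : 1 ≤ td k (fun _ : Unit => β)) : Transcendental k β := by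
  intro hβ
  have hint : IsIntegral k β := hβ.isIntegral
  obtain ⟨c, hc⟩ : ∃ c, algebraMap k Ω c = β := by
    have h1 := IsAlgClosed.degree_eq_one_of_irreducible k (minpoly.irreducible hint)
    exact minpoly.mem_range_of_degree_eq_one k β h1
  have h1 : td k (fun _ : Unit => β) ≤ td k (fun e : Empty => (e.elim : Ω)) :=
    td_mono _ _ (fun _ => by rw [← hc]; exact IntermediateField.algebraMap_mem _ _)
  have h2 := td_le_card (k := k) (fun e : Empty => (e.elim : Ω))
  rw [Fintype.card_empty] at h2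
  omega

private theorem S2a_alg {k : Type} [Field k] {I Ω : Type} [Field Ω] [Algebra k Ω] (z : I → Ω)
    (K : IntermediateField k Ω) (hz : ∀ a, IsAlgebraic K (z a))
    (hx : ∀ x : Ω, IsAlgebraic (fld k z) x) (x : Ω) : IsAlgebraic K x := by
  have hle : fld k z ≤ (algebraicClosure K Ω).restrictScalars k := by
    unfold fld
    rw [IntermediateField.adjoin_le_iff]
    rintro _ ⟨a, rfl⟩
    exact mem_algebraicClosure_iff.2 (hz a)
  obtain ⟨p, hp0, hp⟩ := hx x
  have h1 : IsAlgebraic (algebraicClosure K Ω) x := by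
    let ι : fld k z →+* (algebraicClosure K Ω) := (IntermediateField.inclusion hle).toRingHom
    refine ⟨p.map ι, ?_, ?_⟩
    · intro h
      exact hp0 ((Polynomial.map_eq_zero_iff ι.injective).1 h)
    · rw [Polynomial.aeval_def, Polynomial.eval₂_map]
      rw [Polynomial.aeval_def] at hp
      exact hp
  exact h1.restrictScalars K

/-- the base point -/
private noncomputable def S2a_z {k : Type} [Field k] {n m : ℕ} (d : Fin m → ℕ)
    (τ : Fin m → Fin (n + 1) → k[X]) (b₀ : k) :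
    Option (Σ i : Fin m, Fin (n + 1) × Fin (d i)) → k := fun o =>
  Option.elim o b₀ fun s => (τ s.1 s.2.1).coeff (s.2.2 + 1)

private theorem S2a_cv_base {k : Type} [Field k] {n m : ℕ}
    (F : MvPolynomial (Fin (n + 1)) k) (g : Fin (n + 1) → k[X]) (b₀ : k) (d : Fin m → ℕ)
    (τ : Fin m → Fin (n + 1) → k[X]) (hτ : ∀ i, Free F (d i) (τ i))
    (hτ0 : ∀ i, vc (τ i) 0 = ve g b₀) (i : Fin m) : S2a_cv g d (S2a_z d τ b₀) i = τ i := by
  funext a
  ext l
  rcases Nat.eq_zero_or_pos l with rfl | hl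
  · rw [S2a_cv_coeff_zero]
    have h := congrFun (hτ0 i) a
    change (τ i a).coeff 0 = (g a).eval b₀ at h
    rw [h]
    rfl
  · obtain ⟨l, rfl⟩ : ∃ l', l = l' + 1 := ⟨l - 1, by omega⟩
    rw [S2a_cv_coeff_succ]
    split_ifs with h
    · rfl
    · exact (coeff_eq_zero_of_natDegree_lt
        (lt_of_le_of_lt ((hτ i).2.1.1 a) (by omega))).symm

private theorem S2a_eq_base {k : Type} [Field k] {n m : ℕ}
    (F : MvPolynomial (Fin (n + 1)) k) (g : Fin (n + 1) → k[X]) (b₀ : k) (d : Fin m → ℕ)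
    (τ : Fin m → Fin (n + 1) → k[X]) (hτ : ∀ i, Free F (d i) (τ i))
    (hτ0 : ∀ i, vc (τ i) 0 = ve g b₀)
    (lam : (i : Fin m) → Fin (d i) → Fin (n + 1) × Fin (d i) → k)
    (j : (Σ i : Fin m, Fin (n * d i)) ⊕ (Σ i : Fin m, Fin (d i))) :
    MvPolynomial.eval (S2a_z d τ b₀) (S2a_eq g d F lam (S2a_z d τ b₀) j) = 0 := by
  rcases j with ⟨i, j⟩ | ⟨i, l⟩
  · rw [← MvPolynomial.aeval_eq_eval, S2a_eq_inl, S2a_cv_base F g b₀ d τ hτ hτ0, (hτ i).2.1.2,
      coeff_zero]
  · have e1 : S2a_eq g d F lam (S2a_z d τ b₀) (Sum.inr ⟨i, l⟩) = ∑ c, MvPolynomial.C (lam i l c) *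
      (MvPolynomial.X (some ⟨i, c⟩) - MvPolynomial.C (S2a_z d τ b₀ (some ⟨i, c⟩))) := rfl
    rw [e1, map_sum]
    refine Finset.sum_eq_zero fun c _ => ?_
    rw [map_mul, map_sub, MvPolynomial.eval_X, MvPolynomial.eval_C, MvPolynomial.eval_C, sub_self,
      mul_zero]

private theorem S2a_card (n m : ℕ) (d : Fin m → ℕ) :
    Fintype.card ((Σ i : Fin m, Fin (n * d i)) ⊕ (Σ i : Fin m, Fin (d i))) + 1 ≤
      Fintype.card (Option (Σ i : Fin m, Fin (n + 1) × Fin (d i))) := by
  rw [Fintype.card_option, Fintype.card_sum, Fintype.card_sigma, Fintype.card_sigma,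
    Fintype.card_sigma, ← Finset.sum_add_distrib]
  refine Nat.add_le_add_right (le_of_eq (Finset.sum_congr rfl fun i _ => ?_)) 1
  rw [Fintype.card_prod, Fintype.card_fin, Fintype.card_fin, Fintype.card_fin]
  ring

private theorem S2a_on {k : Type} [Field k] {n m : ℕ} (F : MvPolynomial (Fin (n + 1)) k)
    (hF : F.IsHomogeneous n) (g : Fin (n + 1) → k[X]) (hg : MvPolynomial.aeval g F = 0)
    (d : Fin m → ℕ) (lam : (i : Fin m) → Fin (d i) → Fin (n + 1) × Fin (d i) → k)
    (z₀ : Option (Σ i : Fin m, Fin (n + 1) × Fin (d i)) → k) {Ω : Type} [Field Ω] [Algebra k Ω]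
    (z : Option (Σ i : Fin m, Fin (n + 1) × Fin (d i)) → Ω)
    (hz : ∀ j, MvPolynomial.aeval z (S2a_eq g d F lam z₀ j) = 0) (i : Fin m) :
    On F (d i) (S2a_cv g d z i) := by
  refine ⟨fun a => S2a_cv_deg g d z i a, ?_⟩
  ext l
  rw [coeff_zero]
  rcases Nat.eq_zero_or_pos l with rfl | hl
  · rw [coeff_zero_eq_eval_zero]
    have h1 : (MvPolynomial.aeval (S2a_cv g d z i) F).eval 0 =
        MvPolynomial.aeval (fun a => aeval (z none) (g a)) F := by
      have h2 : (fun a => aeval (z none) (g a)) = fun a => aeval (0 : Ω) (S2a_cv g d z i a) := by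
        funext a
        rw [Polynomial.coe_aeval_eq_eval, ← coeff_zero_eq_eval_zero, S2a_cv_coeff_zero]
      rw [h2]
      exact MvPolynomial.comp_aeval_apply (S2a_cv g d z i)
        ((Polynomial.aeval (0 : Ω)).restrictScalars k) F
    rw [h1]
    have h3 : MvPolynomial.aeval (fun a => aeval (z none) (g a)) F =
        aeval (z none) (MvPolynomial.aeval g F) :=
      (MvPolynomial.comp_aeval_apply g (Polynomial.aeval (z none)) F).symm
    rw [h3, hg, map_zero]
  · obtain ⟨l, rfl⟩ : ∃ l', l = l' + 1 := ⟨l - 1, by omega⟩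
    by_cases h : l < n * d i
    · have h1 := hz (Sum.inl ⟨i, ⟨l, h⟩⟩)
      rw [S2a_eq_inl] at h1
      exact h1
    · exact coeff_eq_zero_of_natDegree_lt
        (lt_of_le_of_lt (S2a_deg hF _ (fun a => S2a_cv_deg g d z i a)) (by omega))

private theorem S2a_inj {k : Type} [Field k] {n m : ℕ} (hn : 2 ≤ n)
    (F : MvPolynomial (Fin (n + 1)) k) (hF : F.IsHomogeneous n)
    (g : Fin (n + 1) → k[X]) (b₀ : k) (d : Fin m → ℕ)
    (τ : Fin m → Fin (n + 1) → k[X]) (hτ : ∀ i, Free F (d i) (τ i))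
    (hτ0 : ∀ i, vc (τ i) 0 = ve g b₀)
    (lam : (i : Fin m) → Fin (d i) → Fin (n + 1) × Fin (d i) → k)
    (hlam : ∀ i (δ : Fin (n + 1) × Fin (d i) → k), grad F (τ i) (lin (d i) δ) = 0 →
      (∀ l, ∑ a, lam i l a * δ a = 0) → δ = 0)
    (δ : Option (Σ i : Fin m, Fin (n + 1) × Fin (d i)) → k) (hδ : δ none = 0)
    (h : ∀ j, S2a_d (S2a_z d τ b₀) δ (S2a_eq g d F lam (S2a_z d τ b₀) j) = 0) : δ = 0 := by
  have h1 : ∀ i, (fun c => δ (some ⟨i, c⟩)) = 0 := by
    intro i
    refine hlam i _ ?_ fun l => ?_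
    · ext l
      rw [coeff_zero]
      by_cases hl : l < n * d i
      · have h2 := h (Sum.inl ⟨i, ⟨l, hl⟩⟩)
        rw [S2a_eq_inl_d _ _ _ _ _ _ _ hδ, S2a_cv_base F g b₀ d τ hτ hτ0] at h2
        exact h2
      · refine S2a_grad_coeff hF (by omega) (hτ i).1 _ _ (hτ i).2.1.1 (fun a => ?_) l (by omega)
        rw [natDegree_le_iff_coeff_eq_zero]
        intro l' hl'
        rw [S2a_coeff_lin, dif_neg (by omega)]
    · have h2 := h (Sum.inr ⟨i, l⟩)
      rw [S2a_eq_inr_d] at h2
      exact h2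
  funext o
  rcases o with _ | ⟨i, c⟩
  · exact hδ
  · exact congrFun (h1 i) c

private theorem S2a_mulVec {k : Type} [Field k] {C J : Type} [Fintype C] {R : Type} [CommRing R]
    [Algebra k R] (E : J → MvPolynomial (Option C) k) (z : Option C → R) (v : C → R) (j : J) :
    ((Matrix.of fun j c => MvPolynomial.pderiv (some c) (E j)).map
      (MvPolynomial.aeval z)).mulVec v j = S2a_d z (fun o => o.elim 0 v) (E j) := by
  unfold S2a_d
  rw [Fintype.sum_option]
  change _ = MvPolynomial.aeval z (MvPolynomial.pderiv none (E j)) * 0 + _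
  rw [mul_zero, zero_add]
  rfl

private theorem S2a_inj0 {k : Type} [Field k] {C J : Type} [Fintype C]
    (E : J → MvPolynomial (Option C) k) (z : Option C → k)
    (h : ∀ δ : Option C → k, δ none = 0 → (∀ j, S2a_d z δ (E j) = 0) → δ = 0) :
    Function.Injective ((Matrix.of fun j c => MvPolynomial.pderiv (some c) (E j)).map
      (MvPolynomial.eval z)).mulVec := by
  intro v w hvw
  have h1 : ((Matrix.of fun j c => MvPolynomial.pderiv (some c) (E j)).map
      (MvPolynomial.eval z)).mulVec (v - w) = 0 := by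
    rw [Matrix.mulVec_sub]
    exact sub_eq_zero.2 hvw
  have h2 := h (fun o => o.elim 0 (v - w)) rfl (fun j => by
    rw [← S2a_mulVec E z (v - w) j]
    exact congrFun h1 j)
  funext c
  exact sub_eq_zero.1 (congrFun h2 (some c))

private theorem S2a_inj1 {k : Type} [Field k] {C J : Type} [Fintype C] [Fintype J] {Ω : Type}
    [Field Ω] [Algebra k Ω] (E : J → MvPolynomial (Option C) k) (z₀ : Option C → k)
    (h : ∀ δ : Option C → k, δ none = 0 → (∀ j, S2a_d z₀ δ (E j) = 0) → δ = 0)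
    (z : Option C → Ω) (hs : Spz z z₀) (δ : Option C → Ω) (h0 : δ none = 0)
    (hδ : ∀ j, S2a_d z δ (E j) = 0) : δ = 0 := by
  have h1 := inj_of_spz z z₀ hs _ (S2a_inj0 E z₀ h)
  have h2 : (fun o : Option C => o.elim 0 (fun c => δ (some c))) = δ := by
    funext o
    rcases o with _ | c
    · exact h0.symm
    · rfl
  have h3 : (fun c => δ (some c)) = (0 : C → Ω) := by
    apply h1
    rw [Matrix.mulVec_zero]
    funext j
    have h4 := S2a_mulVec E z (fun c => δ (some c)) j
    rw [h2, hδ j] at h4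
    exact h4
  funext o
  rcases o with _ | c
  · exact h0
  · exact congrFun h3 c

private theorem S2a_spz_cf {k : Type} [Field k] {n m : ℕ} (g : Fin (n + 1) → k[X])
    (d : Fin m → ℕ) {Ω : Type} [Field Ω] [Algebra k Ω]
    (z : Option (Σ i : Fin m, Fin (n + 1) × Fin (d i)) → Ω)
    (z₀ : Option (Σ i : Fin m, Fin (n + 1) × Fin (d i)) → k) (hs : Spz z z₀) (i : Fin m) :
    Spz (cf (d i) (S2a_cv g d z i)) (cf (d i) (S2a_cv g d z₀ i)) := by
  refine S2a_spz_comp hs (fun c : Fin (n + 1) × Fin (d i + 1) => S2a_P g d i c.1 c.2)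
    (cf (d i) (S2a_cv g d z i)) (cf (d i) (S2a_cv g d z₀ i)) (fun c => ?_) (fun c => ?_)
  · exact S2a_P_val g d z i c.1 c.2
  · exact S2a_P_val g d z₀ i c.1 c.2

private theorem S2a_spz_jc {k : Type} [Field k] {n m : ℕ} (g : Fin (n + 1) → k[X])
    (d : Fin m → ℕ) {Ω : Type} [Field Ω] [Algebra k Ω]
    (z : Option (Σ i : Fin m, Fin (n + 1) × Fin (d i)) → Ω)
    (z₀ : Option (Σ i : Fin m, Fin (n + 1) × Fin (d i)) → k) (hs : Spz z z₀) :
    Spz (jc d (S2a_cv g d z)) (jc d (S2a_cv g d z₀)) := by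
  refine S2a_spz_comp hs (fun c : (Σ i : Fin m, Fin (n + 1) × Fin (d i + 1)) =>
    S2a_P g d c.1 c.2.1 c.2.2) (jc d (S2a_cv g d z)) (jc d (S2a_cv g d z₀)) (fun c => ?_)
    (fun c => ?_)
  · exact S2a_P_val g d z c.1 c.2.1 c.2.2
  · exact S2a_P_val g d z₀ c.1 c.2.1 c.2.2

theorem teeth_family {k : Type} [Field k] [IsAlgClosed k] {n : ℕ} (hn : 2 ≤ n)
    (F : MvPolynomial (Fin (n + 1)) k) (hF : F.IsHomogeneous n) (D : ℕ) (g : Fin (n + 1) → k[X])
    (hg : On F D g) (b₀ : k) {m : ℕ} (d : Fin m → ℕ) (τ : Fin m → Fin (n + 1) → k[X])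
    (hτ : ∀ i, Free F (d i) (τ i)) (hτ0 : ∀ i, vc (τ i) 0 = ve g b₀) :
    ∃ (Ω : Type) (_ : Field Ω) (_ : Algebra k Ω) (β : Ω) (γ : Fin m → Fin (n + 1) → Polynomial Ω),
      IsAlgClosed Ω ∧ Transcendental k β ∧
      (∀ x : Ω, IsAlgebraic (IntermediateField.adjoin k {β}) x) ∧ (∀ i, Free F (d i) (γ i)) ∧
      (∀ i a, (γ i a).coeff 0 = aeval β (g a)) ∧ Spz (jc d γ) (jc d τ) := by
  choose lam hlam using fun i => rigid hn F hF (d i) (τ i) (hτ i)
  obtain ⟨Ω, fΩ, aΩ, z, hΩ, hz, hs, htd, halg⟩ :=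
    exists_gen (S2a_eq g d F lam (S2a_z d τ b₀)) (S2a_z d τ b₀)
      (S2a_eq_base F g b₀ d τ hτ hτ0 lam) 1 (S2a_card n m d)
  -- the curves at `z`
  have hon : ∀ i, On F (d i) (S2a_cv g d z i) := S2a_on F hF g hg.2 d lam _ z hz
  have hfree : ∀ i, Free F (d i) (S2a_cv g d z i) := by
    intro i
    refine Free.of_spz F hF (d i) _ (τ i) (hon i) (hτ i) ?_
    have h1 := S2a_spz_cf g d z _ hs i
    rwa [S2a_cv_base F g b₀ d τ hτ hτ0] at h1
  have hspz : Spz (jc d (S2a_cv g d z)) (jc d τ) := by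
    have h1 := S2a_spz_jc g d z _ hs
    have h2 : S2a_cv g d (S2a_z d τ b₀) = τ := funext (S2a_cv_base F g b₀ d τ hτ hτ0)
    rwa [h2] at h1
  -- derivations
  have hβ : ∀ _ : Unit, z none ∈ fld k z := fun _ => (fz k z none).2
  have hD : ∀ D : Derivation k (fld k z) Ω, (∀ j : Unit, D ⟨z none, hβ j⟩ = 0) →
      ∀ o, D (fz k z o) = 0 := by
    intro D hD0
    have hn0 : D (fz k z none) = 0 := hD0 ()
    have h1 := S2a_inj1 (S2a_eq g d F lam (S2a_z d τ b₀)) (S2a_z d τ b₀)
      (S2a_inj hn F hF g b₀ d τ hτ hτ0 lam hlam) z hs (fun o => D (fz k z o)) hn0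
      (fun j => der_rel z D _ (hz j))
    exact fun o => congrFun h1 o
  have hsep := sep_of_der z (fun _ : Unit => z none) hβ hD
  have htr : 1 ≤ td k (fun _ : Unit => z none) := by
    have h1 := td_le_of_der z (fun _ : Unit => z none) hβ (⊥ : Submodule Ω _) 0
      (by rw [finrank_bot]) (fun D hD0 => by
        rw [Submodule.mem_bot]
        funext o
        exact hD D hD0 o)
    omega
  refine ⟨Ω, fΩ, aΩ, z none, S2a_cv g d z, hΩ, S2a_trans _ htr, ?_, hfree,
    fun i a => S2a_cv_coeff_zero g d z i a, hspz⟩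
  refine S2a_alg z _ (fun a => ?_) halg
  have h1 := (hsep a).isIntegral.isAlgebraic
  have h2 : (Set.range fun _ : Unit => z none) = {z none} := Set.range_const
  unfold fld at h1
  rw [h2] at h1
  exact h1

end Q9
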