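import Pool.Agent.LibQ9.SDefs
import Pool.Agent.LibQ9.P8

/-!
[Q9 S2b] (MEDIUM; may cite P8 `spec_all` as stated) Free curves through `g(β)`, `β` transcendental, specialise to free curves through `g(b)` for almost all `b`.

PLAN. Choose for each `i` and each monomial `X^j`, `j < n (d i)`, a vector `a_ij` of polynomials over `Ω` of degree `< d i` with `grad F (γ i) a_ij = X^j`. Let `z` be the finite family of all coefficients of the `γ i`, of the `a_ij`, and of the one element `aeval (jc d γ) Ψ ≠ 0`. P8 `spec_all`: `T`, and for `b ∉ T` a `k`-algebra homomorphism `φ` on `Algebra.adjoin k (range z ∪ {β})` with `φ β = b`, `φ (aeval (jc d γ) Ψ) ≠ 0`.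
Apply `φ` to all coefficients: `τ i` (coefficients `φ` of the coefficients of `γ i`; degrees `≤ d i`). `F(τ i) = 0`, `grad F (τ i) (φ a_ij) = X^j`: identities in `B[X]`, `B` the adjoined algebra, which hold because `B[X] → Ω[X]` is injective, then mapped by `φ` (same technique as B4, see Q9_B4.lean in the store). Linear combinations give `Free F (d i) (τ i)`. `vc (τ i) 0 = ve g b`: `φ (aeval β (g a)) = (g a).eval b`. `eval (jc d τ) Ψ = φ (aeval (jc d γ) Ψ) ≠ 0`.
-/

set_option autoImplicit false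

namespace Q9

open Polynomial

private theorem S2b_lift {k : Type} [Field k] {κ : Type} [Field κ] [Algebra k κ]
    (B : Subalgebra k κ) {J : Type} (P : J → κ[X]) (h : ∀ j m, (P j).coeff m ∈ B) :
    ∃ P' : J → B[X], ∀ j, mapAlgHom B.val (P' j) = P j := by
  have h2 : ∀ j, ∃ p : B[X], mapAlgHom B.val p = P j := by
    intro j
    have h3 : P j ∈ Polynomial.lifts (B.val : B →+* κ) := by
      rw [Polynomial.lifts_iff_coeff_lifts]
      intro m
      exact ⟨⟨_, h j m⟩, rfl⟩
    obtain ⟨p, hp⟩ := (Polynomial.mem_lifts _).1 h3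
    exact ⟨p, hp⟩
  choose P' hP' using h2
  exact ⟨P', hP'⟩

private theorem S2b_grad {k : Type} [Field k] {m : ℕ} (F : MvPolynomial (Fin m) k) {S S' : Type}
    [CommRing S] [Algebra k S] [CommRing S'] [Algebra k S'] (σ : S →ₐ[k] S') (x w : Fin m → S) :
    σ (grad F x w) = grad F (fun i => σ (x i)) (fun i => σ (w i)) := by
  unfold grad
  rw [map_sum]
  refine Finset.sum_congr rfl fun i _ => ?_
  rw [map_mul, MvPolynomial.comp_aeval_apply]

private theorem S2b_grad_sum {k : Type} [Field k] {m : ℕ} (F : MvPolynomial (Fin m) k) {S : Type}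
    [CommRing S] [Algebra k S] (x : Fin m → S) {J : Type} [Fintype J] (c : J → S)
    (a : J → Fin m → S) :
    grad F x (fun i => ∑ j, c j * a j i) = ∑ j, c j * grad F x (a j) := by
  unfold grad
  simp only [Finset.mul_sum]
  rw [Finset.sum_comm]
  refine Finset.sum_congr rfl fun j _ => Finset.sum_congr rfl fun i _ => ?_
  ring

private theorem S2b_sum {k : Type} [Field k] (N : ℕ) (f : k[X]) (hf : f.degree < (N : ℕ)) :
    f = ∑ j : Fin N, C (f.coeff j) * X ^ (j : ℕ) := by
  ext m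
  rw [Polynomial.finsetSum_coeff]
  simp only [coeff_C_mul, coeff_X_pow]
  by_cases hm : m < N
  · rw [Finset.sum_eq_single (⟨m, hm⟩ : Fin N)]
    · simp
    · intro b _ hb
      rw [if_neg, mul_zero]
      intro h
      exact hb (Fin.ext h.symm)
    · intro h
      exact absurd (Finset.mem_univ _) h
  · rw [coeff_eq_zero_of_degree_lt (lt_of_lt_of_le hf (by exact_mod_cast not_lt.1 hm))]
    refine (Finset.sum_eq_zero fun b _ => ?_).symm
    rw [if_neg, mul_zero]
    intro h
    exact hm (h ▸ b.2)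

private theorem S2b_deg {k : Type} [Field k] (N : ℕ) {J : Type} [Fintype J] (c : J → k)
    (a : J → k[X]) (ha : ∀ j, (a j).degree < (N : ℕ)) : (∑ j, C (c j) * a j).degree < (N : ℕ) := by
  rw [← mem_degreeLT]
  refine Submodule.sum_mem _ fun j _ => ?_
  rw [← smul_eq_C_mul]
  exact Submodule.smul_mem _ _ (mem_degreeLT.2 (ha j))

private theorem S2b_free {k : Type} [Field k] {n : ℕ} (F : MvPolynomial (Fin (n + 1)) k)
    {κ : Type} [Field κ] [Algebra k κ] (d : ℕ) (γ : Fin (n + 1) → κ[X]) (h : Free F d γ)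
    (a : Fin (n * d) → Fin (n + 1) → κ[X]) (ha : ∀ j i, (a j i).degree < (d : ℕ))
    (haX : ∀ j : Fin (n * d), grad F γ (a j) = X ^ (j : ℕ)) (B : Subalgebra k κ) (φ : B →ₐ[k] k)
    (γ' : Fin (n + 1) → B[X]) (hγ' : ∀ i, mapAlgHom B.val (γ' i) = γ i)
    (a' : Fin (n * d) → Fin (n + 1) → B[X]) (ha' : ∀ j i, mapAlgHom B.val (a' j i) = a j i) :
    Free F d (fun i => mapAlgHom φ (γ' i)) := by
  obtain ⟨hd, ⟨hγd, hγF⟩, -⟩ := h
  have hval : Function.Injective (B.val : B →+* κ) := Subtype.val_injective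
  have hinj : Function.Injective (mapAlgHom B.val : B[X] →ₐ[k] κ[X]) :=
    Polynomial.map_injective _ hval
  have hdeg : ∀ (p : B[X]) (q : κ[X]), mapAlgHom B.val p = q →
      (mapAlgHom φ p).degree ≤ q.degree := by
    intro p q hpq
    rw [← hpq]
    have h1 : (mapAlgHom B.val p).degree = p.degree :=
      Polynomial.degree_map_eq_of_injective hval _
    rw [h1]
    exact Polynomial.degree_map_le
  have hψX : ∀ m : ℕ, mapAlgHom B.val (X ^ m : B[X]) = X ^ m := by
    intro m
    rw [map_pow]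
    congr 1
    exact Polynomial.map_X _
  have hχX : ∀ m : ℕ, mapAlgHom φ (X ^ m : B[X]) = X ^ m := by
    intro m
    rw [map_pow]
    congr 1
    exact Polynomial.map_X _
  have hγe : (fun i => mapAlgHom B.val (γ' i)) = γ := funext hγ'
  have e0 : MvPolynomial.aeval γ' F = 0 := by
    apply hinj
    rw [MvPolynomial.comp_aeval_apply, map_zero, hγe, hγF]
  have e1 : ∀ j : Fin (n * d), grad F γ' (a' j) = X ^ (j : ℕ) := by
    intro j
    apply hinj
    have h2 : (fun i => mapAlgHom B.val (a' j i)) = a j := funext (ha' j)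
    rw [S2b_grad, hψX, hγe, h2, haX]
  have f1 : ∀ j : Fin (n * d), grad F (fun i => mapAlgHom φ (γ' i))
      (fun i => mapAlgHom φ (a' j i)) = X ^ (j : ℕ) := by
    intro j
    have h1 := congrArg (mapAlgHom φ) (e1 j)
    rwa [S2b_grad, hχX] at h1
  refine ⟨hd, ⟨fun i => ?_, ?_⟩, fun f hf => ?_⟩
  · refine Polynomial.natDegree_le_iff_degree_le.2 ?_
    exact (hdeg _ _ (hγ' i)).trans (Polynomial.natDegree_le_iff_degree_le.1 (hγd i))
  · have h1 := congrArg (mapAlgHom φ) e0
    rwa [MvPolynomial.comp_aeval_apply, map_zero] at h1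
  · refine ⟨fun i => ∑ j : Fin (n * d), C (f.coeff j) * mapAlgHom φ (a' j i), fun i => ?_, ?_⟩
    · exact S2b_deg d (fun j : Fin (n * d) => f.coeff j) (fun j => mapAlgHom φ (a' j i))
        (fun j => lt_of_le_of_lt (hdeg _ _ (ha' j i)) (ha j i))
    · rw [S2b_grad_sum]
      conv_rhs => rw [S2b_sum (n * d) f hf]
      refine Finset.sum_congr rfl fun j _ => ?_
      rw [f1]

theorem teeth_spec {k : Type} [Field k] [IsAlgClosed k] {n : ℕ} (F : MvPolynomial (Fin (n + 1)) k)
    {Ω : Type} [Field Ω] [Algebra k Ω] (β : Ω) (hβ : Transcendental k β)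
    (halg : ∀ x : Ω, IsAlgebraic (IntermediateField.adjoin k {β}) x) {m : ℕ} (d : Fin m → ℕ)
    (γ : Fin m → Fin (n + 1) → Polynomial Ω) (hγ : ∀ i, Free F (d i) (γ i))
    (g : Fin (n + 1) → k[X]) (h0 : ∀ i a, (γ i a).coeff 0 = aeval β (g a))
    (Ψ : MvPolynomial (Σ i : Fin m, Fin (n + 1) × Fin (d i + 1)) k)
    (hΨ : MvPolynomial.aeval (jc d γ) Ψ ≠ 0) :
    ∃ T : Finset k, ∀ b ∉ T, ∃ τ : Fin m → Fin (n + 1) → k[X], (∀ i, Free F (d i) (τ i)) ∧
      (∀ i, vc (τ i) 0 = ve g b) ∧ MvPolynomial.eval (jc d τ) Ψ ≠ 0 := by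
  classical
  have hXdeg : ∀ (N : ℕ) (j : Fin N), (X ^ (j : ℕ) : Polynomial Ω).degree < (N : ℕ) := by
    intro N j
    rw [degree_X_pow]
    exact_mod_cast j.2
  choose a ha haX using fun (i : Fin m) (j : Fin (n * d i)) =>
    (hγ i).2.2 (X ^ (j : ℕ)) (hXdeg (n * d i) j)
  let J : Type := (Fin m × Fin (n + 1)) ⊕ (Σ i : Fin m, Fin (n * d i) × Fin (n + 1))
  let P : J → Polynomial Ω := Sum.elim (fun x => γ x.1 x.2) (fun x => a x.1 x.2.1 x.2.2)
  obtain ⟨N, hN⟩ : ∃ N : ℕ, ∀ j, (P j).natDegree < N := by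
    obtain ⟨N, hN⟩ := (Set.finite_range (fun j => (P j).natDegree)).bddAbove
    exact ⟨N + 1, fun j => Nat.lt_succ_of_le (hN ⟨j, rfl⟩)⟩
  let z : (J × Fin N) ⊕ Unit → Ω := Sum.elim (fun x => (P x.1).coeff x.2)
    (fun _ => MvPolynomial.aeval (jc d γ) Ψ)
  obtain ⟨T, hT⟩ := spec_all β hβ z (fun i => halg (z i))
  refine ⟨T, fun b hb => ?_⟩
  obtain ⟨φ, hφβ, hφz⟩ := hT b hb
  have hmem : ∀ j r, (P j).coeff r ∈ Algebra.adjoin k (Set.range z ∪ {β}) := by
    intro j r
    by_cases hr : r < N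
    · exact Algebra.subset_adjoin (Or.inl ⟨Sum.inl (j, ⟨r, hr⟩), rfl⟩)
    · rw [coeff_eq_zero_of_natDegree_lt (lt_of_lt_of_le (hN j) (not_lt.1 hr))]
      exact Subalgebra.zero_mem _
  obtain ⟨P', hP'⟩ := S2b_lift (Algebra.adjoin k (Set.range z ∪ {β})) P hmem
  have hval : Function.Injective (Algebra.adjoin k (Set.range z ∪ {β})).val :=
    Subtype.val_injective
  have hcv : ∀ j r, (Algebra.adjoin k (Set.range z ∪ {β})).val ((P' j).coeff r) =
      (P j).coeff r := by
    intro j r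
    rw [← hP' j]
    exact (Polynomial.coeff_map _ _).symm
  refine ⟨fun i c => mapAlgHom φ (P' (Sum.inl (i, c))), fun i => ?_, fun i => ?_, ?_⟩
  · exact S2b_free F (d i) (γ i) (hγ i) (a i) (ha i) (haX i) _ φ
      (fun c => P' (Sum.inl (i, c))) (fun c => hP' _)
      (fun j c => P' (Sum.inr ⟨i, (j, c)⟩)) (fun j c => hP' _)
  · funext c
    have h1 : (P' (Sum.inl (i, c))).coeff 0 =
        aeval (⟨β, Algebra.subset_adjoin (Or.inr rfl)⟩ :
          Algebra.adjoin k (Set.range z ∪ {β})) (g c) := by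
      apply hval
      rw [hcv, ← Polynomial.aeval_algHom_apply]
      exact h0 i c
    have h2 : (mapAlgHom φ (P' (Sum.inl (i, c)))).coeff 0 =
        φ ((P' (Sum.inl (i, c))).coeff 0) := Polynomial.coeff_map _ _
    change (mapAlgHom φ (P' (Sum.inl (i, c)))).coeff 0 = (g c).eval b
    rw [h2, h1, ← Polynomial.aeval_algHom_apply, hφβ]
    exact Polynomial.coe_aeval_eq_eval b ▸ rfl
  · have hE := hφz (Sum.inr ()) hΨ
    have h1 : (⟨z (Sum.inr ()), Algebra.subset_adjoin (Or.inl (Set.mem_range_self (Sum.inr ())))⟩ :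
        Algebra.adjoin k (Set.range z ∪ {β})) =
        MvPolynomial.aeval (fun x : (Σ i : Fin m, Fin (n + 1) × Fin (d i + 1)) =>
          (P' (Sum.inl (x.1, x.2.1))).coeff x.2.2) Ψ := by
      apply hval
      rw [MvPolynomial.comp_aeval_apply]
      have h3 : (fun x : (Σ i : Fin m, Fin (n + 1) × Fin (d i + 1)) =>
          (Algebra.adjoin k (Set.range z ∪ {β})).val
            ((P' (Sum.inl (x.1, x.2.1))).coeff x.2.2)) = jc d γ := funext fun x => hcv _ _
      rw [h3]
      rfl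
    rw [h1, MvPolynomial.comp_aeval_apply] at hE
    have h3 : (fun x : (Σ i : Fin m, Fin (n + 1) × Fin (d i + 1)) =>
        φ ((P' (Sum.inl (x.1, x.2.1))).coeff x.2.2)) =
        jc d (fun i c => mapAlgHom φ (P' (Sum.inl (i, c)))) :=
      funext fun x => (Polynomial.coeff_map _ _).symm
    rw [h3] at hE
    exact hE

end Q9
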