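import Pool.Agent.LibQ9.S0
import Pool.Agent.LibQ9.S2a
import Pool.Agent.LibQ9.S2b

/-!
[Q9 S2c] (MEDIUM; may cite S0, S2a, S2b, B2 as stated) `VF` at one point of a rational curve gives `VF` at almost all points.

PLAN. The gradient at `ve g b₀ ≠ 0` is nonzero (`Smooth`), so `K₀ = ker (grad F (ve g b₀) ·)` has dimension `n`; `Dir F (ve g b₀) ⊆ K₀` (S0 `dir_sub`) spans it (`VF`), so there are `n` linearly independent elements `v_i = vc (τ i) 1` of `Dir` (`exists_linearIndependent` or a basis inside the spanning set), `τ i` free of degree `d i ≥ 1`, `vc (τ i) 0 = ve g b₀`. S2a gives `Ω`, `β`, `γ`. `Ψ` = determinant of the `n × n` matrix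
`(X ⟨i, (J j, 1)⟩)_(i,j)` of variables (columns `J : Fin n → Fin (n+1)`, second index `1 : Fin (d i + 1)`) which is nonzero at `jc d τ` (linear independence), so nonzero at `jc d γ` (`Spz`: contraposition). S2b: for `b ∉ T` free curves `τ' i` through `ve g b` with `n` linearly independent directions, all in `ker (grad F (ve g b) ·)` (S0 `dir_sub`), which has dimension `n`: `ve g b = vc (τ' i) 0 ≠ 0` (B2 `Free.zero_ne`, `n ≥ 1`) and `Smooth`.
So their span is the kernel.
-/

set_option autoImplicit false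

namespace Q9

open Polynomial

private noncomputable def gl {k : Type} [Field k] {n : ℕ} (F : MvPolynomial (Fin (n + 1)) k)
    (q : Fin (n + 1) → k) : (Fin (n + 1) → k) →ₗ[k] k where
  toFun v := grad F q v
  map_add' := by
    intro v w
    simp only [grad, Pi.add_apply, mul_add, Finset.sum_add_distrib]
  map_smul' := by
    intro c v
    simp only [grad, Pi.smul_apply, smul_eq_mul, RingHom.id_apply, Finset.mul_sum]
    exact Finset.sum_congr rfl fun i _ => by ring

private theorem finrank_ker {k : Type} [Field k] {n : ℕ} (F : MvPolynomial (Fin (n + 1)) k)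
    (hs : Smooth F) (q : Fin (n + 1) → k) (hq : q ≠ 0) :
    Module.finrank k (LinearMap.ker (gl F q)) = n := by
  have h1 : ∃ i, MvPolynomial.eval q (MvPolynomial.pderiv i F) ≠ 0 := by
    by_contra hcon
    push Not at hcon
    exact hq (hs q hcon)
  obtain ⟨i, hi⟩ := h1
  have h2 : gl F q (Pi.single i 1) = MvPolynomial.eval q (MvPolynomial.pderiv i F) := by
    change grad F q (Pi.single i 1) = _
    unfold grad
    rw [Finset.sum_eq_single i]
    · simp [MvPolynomial.aeval_eq_eval]
    · intro j _ hj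
      simp [Pi.single_eq_of_ne hj]
    · intro h
      exact absurd (Finset.mem_univ i) h
  have h3 : LinearMap.range (gl F q) = ⊤ := by
    rw [LinearMap.range_eq_top]
    intro c
    refine ⟨(c / MvPolynomial.eval q (MvPolynomial.pderiv i F)) • Pi.single i 1, ?_⟩
    rw [map_smul, h2, smul_eq_mul, div_mul_cancel₀ _ hi]
  have h4 := LinearMap.finrank_range_add_finrank_ker (gl F q)
  rw [h3, finrank_top, Module.finrank_self, Module.finrank_fintype_fun_eq_card, Fintype.card_fin] at h4
  omega

private theorem fin_of_indep {k V : Type} [Field k] [AddCommGroup V] [Module k V]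
    [FiniteDimensional k V] (s : Set V) (n : ℕ)
    (hn : Module.finrank k (Submodule.span k s) = n) :
    ∃ w : Fin n → V, LinearIndependent k w ∧ ∀ i, w i ∈ s := by
  obtain ⟨b, hbs, hspan, hli⟩ := exists_linearIndependent k s
  have hfin : Finite b := hli.finite
  haveI : Fintype b := Fintype.ofFinite b
  have hcard : Fintype.card b = n := by
    have h1 := finrank_span_eq_card hli
    have h2 : Set.range (Subtype.val : b → V) = b := Subtype.range_coe
    rw [h2, hspan, hn] at h1
    exact h1.symm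
  let e : Fin n ≃ b := (Fintype.equivFinOfCardEq hcard).symm
  refine ⟨fun i => (e i : V), hli.comp e e.injective, fun i => hbs (e i).2⟩

private theorem exists_minor {k : Type} [Field k] {n m : ℕ} (w : Fin n → Fin m → k)
    (h : LinearIndependent k w) :
    ∃ J : Fin n → Fin m, (Matrix.of fun i j => w i (J j)).det ≠ 0 := by
  have h1 : (Matrix.of w).rank = n := by
    have h2 := LinearIndependent.rank_matrix (M := Matrix.of w) h
    rw [h2, Fintype.card_fin]
  rw [Matrix.rank_eq_finrank_span_cols] at h1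
  obtain ⟨u, hu, hus⟩ := fin_of_indep (Set.range (Matrix.of w).col) n h1
  choose J hJ using hus
  refine ⟨J, ?_⟩
  have h3 : LinearIndependent k (Matrix.of fun i j => w i (J j)).col := by
    have h4 : (Matrix.of fun i j => w i (J j)).col = u := by
      funext j
      rw [← hJ j]
      rfl
    rw [h4]
    exact hu
  rw [Matrix.linearIndependent_cols_iff_isUnit] at h3
  exact ((Matrix.isUnit_iff_isUnit_det _).1 h3).ne_zero

theorem vf_spread {k : Type} [Field k] [IsAlgClosed k] {n : ℕ} (hn : 2 ≤ n)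
    (F : MvPolynomial (Fin (n + 1)) k) (hF : F.IsHomogeneous n) (hs : Smooth F) (D : ℕ)
    (g : Fin (n + 1) → k[X]) (hg : On F D g) (b₀ : k) (hb : ve g b₀ ≠ 0) (h : VF F (ve g b₀)) :
    ∃ T : Finset k, ∀ b ∉ T, VF F (ve g b) := by
  classical
  have hspan : Submodule.span k (Dir F (ve g b₀)) = LinearMap.ker (gl F (ve g b₀)) := by
    apply le_antisymm
    · rw [Submodule.span_le]
      intro w hw
      exact LinearMap.mem_ker.2 (dir_sub F _ w hw)
    · intro v hv
      exact h v (LinearMap.mem_ker.1 hv)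
  have hfr : Module.finrank k (Submodule.span k (Dir F (ve g b₀))) = n := by
    rw [hspan]
    exact finrank_ker F hs _ hb
  obtain ⟨w, hw, hwD⟩ := fin_of_indep (Dir F (ve g b₀)) n hfr
  choose d τ hτ hτ0 hτ1 using hwD
  obtain ⟨J, hJ⟩ := exists_minor w hw
  obtain ⟨Ω, iF, iA, β, γ, hac, hβ, halg, hγ, hγ0, hspz⟩ :=
    teeth_family hn F hF D g hg b₀ d τ hτ hτ0
  let Ψ : MvPolynomial (Σ i : Fin n, Fin (n + 1) × Fin (d i + 1)) k :=
    (Matrix.of fun i j => (MvPolynomial.X ⟨i, (J j, ⟨1, by have := (hτ i).1; omega⟩)⟩ :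
      MvPolynomial (Σ i : Fin n, Fin (n + 1) × Fin (d i + 1)) k)).det
  have hev : ∀ ρ : Fin n → Fin (n + 1) → k[X],
      MvPolynomial.eval (jc d ρ) Ψ = (Matrix.of fun i j => vc (ρ i) 1 (J j)).det := by
    intro ρ
    change MvPolynomial.eval (jc d ρ) (Matrix.det _) = _
    rw [RingHom.map_det]
    congr 1
    ext i j
    simp [jc, vc]
  have hΨ : MvPolynomial.aeval (jc d γ) Ψ ≠ 0 := by
    intro h0
    have h1 := hspz Ψ h0
    rw [hev] at h1
    apply hJ
    rw [← h1]
    congr 1
    ext i j
    simp only [Matrix.of_apply]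
    rw [hτ1 i]
  obtain ⟨T, hT⟩ := teeth_spec F β hβ halg d γ hγ g hγ0 Ψ hΨ
  refine ⟨T, fun b hbT => ?_⟩
  obtain ⟨τ', hτ', hτ'0, hτ'Ψ⟩ := hT b hbT
  rw [hev] at hτ'Ψ
  have hne : ve g b ≠ 0 := by
    have i0 : Fin n := ⟨0, by omega⟩
    rw [← hτ'0 i0]
    exact (hτ' i0).zero_ne F hn hF
  have hli : LinearIndependent k (fun i => vc (τ' i) 1) := by
    have h1 : LinearIndependent k (Matrix.of fun i j => vc (τ' i) 1 (J j)).row := by
      rw [Matrix.linearIndependent_rows_iff_isUnit, Matrix.isUnit_iff_isUnit_det]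
      exact isUnit_iff_ne_zero.2 hτ'Ψ
    exact LinearIndependent.of_comp (LinearMap.funLeft k k J) h1
  have hsub : Submodule.span k (Set.range fun i => vc (τ' i) 1) ≤ LinearMap.ker (gl F (ve g b)) := by
    rw [Submodule.span_le]
    rintro _ ⟨i, rfl⟩
    exact LinearMap.mem_ker.2 (dir_sub F _ _ ⟨d i, τ' i, hτ' i, hτ'0 i, rfl⟩)
  have heq : Submodule.span k (Set.range fun i => vc (τ' i) 1) = LinearMap.ker (gl F (ve g b)) := by
    apply Submodule.eq_of_le_of_finrank_eq hsub
    rw [finrank_span_eq_card hli, finrank_ker F hs _ hne, Fintype.card_fin]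
  intro v hv
  have h2 : v ∈ Submodule.span k (Set.range fun i => vc (τ' i) 1) := by
    rw [heq]
    exact LinearMap.mem_ker.2 hv
  refine Submodule.span_mono ?_ h2
  rintro _ ⟨i, rfl⟩
  exact ⟨d i, τ' i, hτ' i, hτ'0 i, rfl⟩

end Q9
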