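import Pool.Agent.LibQ9.S4a
import Pool.Agent.LibQ9.C7

/-!
[Q9 S4b] (MEDIUM; may cite S4a, C7 `comb` as stated) Two batches of teeth: a very free curve with the same value at infinity.

PLAN. `rel_all_ne`: the relations `μ` (`Σ μ_j h_j ∈ W`) form a subspace `R` of `k^m`; for each `i` the subspace `{μ ∈ R : μ i = 0}` is proper in `R`; a vector space over an infinite field is not a finite union of proper subspaces (Mathlib: `Subspace.biUnion_ne_univ_of_top_notMem` or similar in `Mathlib/GroupTheory/CosetCover.lean`; or polynomial argument).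
`very_free_inf`: `batch` with `T' = ∅` gives `m₁, b₁, ..`, `batch` with `T' = image of b₁` gives `m₂, b₂, ..`; join them (`m = m₁ + m₂`, `Fin.append`; all data: `b`, `d`, `τ`, `h`). `b` is injective. Apply `comb` with `c0 = 2`, `r = 0` (`n D + 1 - 2 = n D - 1`, `D + 1 - 2 = D - 1`): `hspan`, `hcor` from the first batch (`μ = 0` on the second). `hrel`: for every index `i` of the first batch `h i` (degree `< nD - 1`, since `(X - C b) h i` has degree
`≤ (n-1) D`) is a combination of `grad F g a` and the second batch, so there is a relation with `μ i = 1`; the same for `i` in the second batch; `rel_all_ne` with `V = k[X]`, `W` = the subspace of the `grad F g a`, `deg a_i < D - 1`, gives a relation with all `μ i ≠ 0` (change the sign of `a`).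
-/

set_option autoImplicit false

namespace Q9

open Polynomial

private theorem S4b_hdeg {k : Type} [Field k] {n : ℕ} (hn : 2 ≤ n)
    (F : MvPolynomial (Fin (n + 1)) k) (hF : F.IsHomogeneous n) (D : ℕ) (hD : 1 ≤ D)
    (g : Fin (n + 1) → k[X]) (hg : On F D g) (b : k) (h : k[X]) (w : Fin (n + 1) → k)
    (hh : (X - C b) * h = grad F g (fun a => C (w a))) : h.degree < (n * D - 1 : ℕ) := by
  by_cases h0 : h = 0
  · rw [h0, degree_zero]
    exact WithBot.bot_lt_coe _
  have h1 : (grad F g (fun a => C (w a))).natDegree ≤ (n - 1) * D := by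
    unfold grad
    refine natDegree_sum_le_of_forall_le _ _ fun i _ => ?_
    refine natDegree_mul_le.trans ?_
    rw [natDegree_C, add_zero]
    exact MvPolynomial.aeval_natDegree_le _ (hF.pderiv.totalDegree_le) _ hg.1
  rw [← hh, natDegree_mul (X_sub_C_ne_zero b) h0, natDegree_X_sub_C] at h1
  have h2 : (n - 1) * D = n * D - D := by
    rw [Nat.sub_mul, one_mul]
  have h3 : 2 * D ≤ n * D := Nat.mul_le_mul_right D hn
  have h4 : h.natDegree < n * D - 1 := by omega
  exact (natDegree_lt_iff_degree_lt h0).1 h4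

private theorem S4b_grad_add {k : Type} [Field k] {n : ℕ} (F : MvPolynomial (Fin (n + 1)) k)
    (g a b : Fin (n + 1) → k[X]) : grad F g (fun i => a i + b i) = grad F g a + grad F g b := by
  unfold grad
  rw [← Finset.sum_add_distrib]
  exact Finset.sum_congr rfl fun i _ => by ring

private theorem S4b_grad_C_mul {k : Type} [Field k] {n : ℕ} (F : MvPolynomial (Fin (n + 1)) k)
    (g a : Fin (n + 1) → k[X]) (c : k) : grad F g (fun i => C c * a i) = C c * grad F g a := by
  unfold grad
  rw [Finset.mul_sum]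
  exact Finset.sum_congr rfl fun i _ => by ring

/-- the space of the `grad F g a`, `deg a < N` -/
private noncomputable def S4b_W {k : Type} [Field k] {n : ℕ} (F : MvPolynomial (Fin (n + 1)) k)
    (g : Fin (n + 1) → k[X]) (N : ℕ) : Submodule k k[X] where
  carrier := {f | ∃ a : Fin (n + 1) → k[X], (∀ i, (a i).degree < (N : ℕ)) ∧ f = grad F g a}
  add_mem' := by
    rintro _ _ ⟨a, ha, rfl⟩ ⟨b, hb, rfl⟩
    refine ⟨fun i => a i + b i, fun i => ?_, (S4b_grad_add F g a b).symm⟩
    exact lt_of_le_of_lt (degree_add_le _ _) (max_lt (ha i) (hb i))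
  zero_mem' := by
    refine ⟨fun _ => 0, fun i => ?_, ?_⟩
    · rw [degree_zero]
      exact WithBot.bot_lt_coe _
    · simp [grad]
  smul_mem' := by
    rintro c _ ⟨a, ha, rfl⟩
    refine ⟨fun i => C c * a i, fun i => ?_, ?_⟩
    · change (C c * a i).degree < _
      rw [← smul_eq_C_mul]
      exact lt_of_le_of_lt (degree_smul_le _ _) (ha i)
    · rw [S4b_grad_C_mul, smul_eq_C_mul]

theorem rel_all_ne {k V : Type} [Field k] [Infinite k] [AddCommGroup V] [Module k V] {m : ℕ}
    (h : Fin m → V) (W : Submodule k V)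
    (hh : ∀ i : Fin m, ∃ μ : Fin m → k, ∑ j, μ j • h j ∈ W ∧ μ i ≠ 0) :
    ∃ μ : Fin m → k, ∑ j, μ j • h j ∈ W ∧ ∀ i, μ i ≠ 0 := by
  classical
  let R : Submodule k (Fin m → k) := W.comap (Fintype.linearCombination k h)
  have hR : ∀ μ : Fin m → k, μ ∈ R ↔ ∑ j, μ j • h j ∈ W := fun μ => by
    show Fintype.linearCombination k h μ ∈ W ↔ _
    rw [Fintype.linearCombination_apply]
  let p : Fin m → Subspace k R := fun i =>
    LinearMap.ker ((LinearMap.proj i : (Fin m → k) →ₗ[k] k).comp R.subtype)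
  by_contra hcon
  push Not at hcon
  have hcov : ⋃ i, (p i : Set R) = Set.univ := by
    ext ⟨μ, hμ⟩
    simp only [Set.mem_iUnion, Set.mem_univ, iff_true]
    obtain ⟨i, hi⟩ := hcon μ ((hR μ).1 hμ)
    exact ⟨i, hi⟩
  obtain ⟨i, hi⟩ := Subspace.exists_eq_top_of_iUnion_eq_univ hcov
  obtain ⟨μ, hμ, hμi⟩ := hh i
  have h1 : (⟨μ, (hR μ).2 hμ⟩ : R) ∈ p i := by
    rw [hi]
    exact Submodule.mem_top
  exact hμi h1

theorem very_free_inf {k : Type} [Field k] [IsAlgClosed k] {n : ℕ} (hn : 2 ≤ n)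
    (F : MvPolynomial (Fin (n + 1)) k) (hF : F.IsHomogeneous n) (hSm : Sm F) (D : ℕ) (hD : 1 ≤ D)
    (g : Fin (n + 1) → k[X]) (hg : On F D g) (hprim : Ideal.span (Set.range g) = ⊤)
    (hlead : vc g D ≠ 0) (hV : ∃ T : Finset k, ∀ b ∉ T, VF F (ve g b)) :
    ∃ (e : ℕ) (γ : Fin (n + 1) → k[X]), Free F e γ ∧ Cor F e γ 0 ∧ vc γ e = vc g D := by
  classical
  have : Infinite k := IsAlgClosed.instInfinite
  obtain ⟨m₁, b₁, d₁, τ₁, h₁, hb₁, -, hf₁, hc₁, hx₁, hs₁⟩ :=
    batch hn F hF hSm D hD g hg hprim hlead hV ∅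
  obtain ⟨m₂, b₂, d₂, τ₂, h₂, hb₂, hT₂, hf₂, hc₂, hx₂, hs₂⟩ :=
    batch hn F hF hSm D hD g hg hprim hlead hV (Finset.univ.image b₁)
  have hne : ∀ i j, b₂ i ≠ b₁ j := fun i j e =>
    hT₂ i (Finset.mem_image.2 ⟨j, Finset.mem_univ j, e.symm⟩)
  let b : Fin (m₁ + m₂) → k := Fin.append b₁ b₂
  let d : Fin (m₁ + m₂) → ℕ := Fin.append d₁ d₂
  let τ : Fin (m₁ + m₂) → Fin (n + 1) → k[X] := Fin.append τ₁ τ₂
  let h : Fin (m₁ + m₂) → k[X] := Fin.append h₁ h₂
  have hbl : ∀ i, b (Fin.castAdd m₂ i) = b₁ i := fun i => Fin.append_left _ _ i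
  have hbr : ∀ i, b (Fin.natAdd m₁ i) = b₂ i := fun i => Fin.append_right _ _ i
  have hdl : ∀ i, d (Fin.castAdd m₂ i) = d₁ i := fun i => Fin.append_left _ _ i
  have hdr : ∀ i, d (Fin.natAdd m₁ i) = d₂ i := fun i => Fin.append_right _ _ i
  have hτl : ∀ i, τ (Fin.castAdd m₂ i) = τ₁ i := fun i => Fin.append_left _ _ i
  have hτr : ∀ i, τ (Fin.natAdd m₁ i) = τ₂ i := fun i => Fin.append_right _ _ i
  have hhl : ∀ i, h (Fin.castAdd m₂ i) = h₁ i := fun i => Fin.append_left _ _ i
  have hhr : ∀ i, h (Fin.natAdd m₁ i) = h₂ i := fun i => Fin.append_right _ _ i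
  have hbinj : Function.Injective b := by
    intro i j
    refine Fin.addCases (fun i' => ?_) (fun i' => ?_) i <;>
      refine Fin.addCases (fun j' => ?_) (fun j' => ?_) j
    · rw [hbl, hbl]
      intro e
      rw [hb₁ e]
    · rw [hbl, hbr]
      intro e
      exact absurd e.symm (hne j' i')
    · rw [hbr, hbl]
      intro e
      exact absurd e (hne i' j')
    · rw [hbr, hbr]
      intro e
      rw [hb₂ e]
  have hf : ∀ i, Free F (d i) (τ i) := by
    intro i
    refine Fin.addCases (fun i' => ?_) (fun i' => ?_) i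
    · rw [hdl, hτl]
      exact hf₁ i'
    · rw [hdr, hτr]
      exact hf₂ i'
  have hc : ∀ i a, (τ i a).coeff 0 = (g a).eval (b i) := by
    intro i a
    refine Fin.addCases (fun i' => ?_) (fun i' => ?_) i
    · rw [hbl, hτl]
      exact hc₁ i' a
    · rw [hbr, hτr]
      exact hc₂ i' a
  have hx : ∀ i, (X - C (b i)) * h i = grad F g (fun a => C ((τ i a).coeff 1)) := by
    intro i
    refine Fin.addCases (fun i' => ?_) (fun i' => ?_) i
    · rw [hbl, hτl, hhl]
      exact hx₁ i'
    · rw [hbr, hτr, hhr]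
      exact hx₂ i'
  have hdeg₁ : ∀ i, (h₁ i).degree < (n * D - 1 : ℕ) := fun i =>
    S4b_hdeg hn F hF D hD g hg (b₁ i) (h₁ i) _ (hx₁ i)
  have hdeg₂ : ∀ i, (h₂ i).degree < (n * D - 1 : ℕ) := fun i =>
    S4b_hdeg hn F hF D hD g hg (b₂ i) (h₂ i) _ (hx₂ i)
  -- everything is spanned
  have hspan : ∀ f : k[X], f.degree < (n * D - 1 : ℕ) → ∃ (a : Fin (n + 1) → k[X])
      (μ : Fin (m₁ + m₂) → k), (∀ i, (a i).degree < (D - 1 : ℕ)) ∧
        f = grad F g a + ∑ i, C (μ i) * h i := by
    intro f hf'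
    obtain ⟨a, μ, ha, e⟩ := hs₁ f hf'
    refine ⟨a, Fin.append μ (fun _ => 0), ha, ?_⟩
    rw [e, Fin.sum_univ_add]
    congr 1
    have z : ∑ i : Fin m₂, C (Fin.append μ (fun _ => (0 : k)) (Fin.natAdd m₁ i)) *
        h (Fin.natAdd m₁ i) = 0 := by
      refine Finset.sum_eq_zero fun i _ => ?_
      rw [Fin.append_right, C_0, zero_mul]
    rw [z, add_zero]
    refine Finset.sum_congr rfl fun i _ => ?_
    rw [Fin.append_left, hhl]
  -- the relation
  have hrel : ∃ (a : Fin (n + 1) → k[X]) (μ : Fin (m₁ + m₂) → k),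
      (∀ i, (a i).degree < (D - 1 : ℕ)) ∧ grad F g a + ∑ i, C (μ i) * h i = 0 ∧ ∀ i, μ i ≠ 0 := by
    have hR := rel_all_ne h (S4b_W F g (D - 1)) (by
      intro i
      refine Fin.addCases (fun i' => ?_) (fun i' => ?_) i
      · obtain ⟨a, μ, ha, e⟩ := hs₂ (h₁ i') (hdeg₁ i')
        refine ⟨Fin.append (Pi.single i' 1) (fun j => - μ j), ⟨a, ha, ?_⟩, ?_⟩
        · rw [Fin.sum_univ_add]
          have e1 : ∑ j : Fin m₁, Fin.append (Pi.single i' (1 : k)) (fun j => - μ j)
              (Fin.castAdd m₂ j) • h (Fin.castAdd m₂ j) = h₁ i' := by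
            rw [Finset.sum_eq_single i']
            · rw [Fin.append_left, Pi.single_eq_same, one_smul, hhl]
            · intro j _ hj
              rw [Fin.append_left, Pi.single_eq_of_ne hj, zero_smul]
            · intro hj
              exact absurd (Finset.mem_univ i') hj
          have e2 : ∑ j : Fin m₂, Fin.append (Pi.single i' (1 : k)) (fun j => - μ j)
              (Fin.natAdd m₁ j) • h (Fin.natAdd m₁ j) = - ∑ j, C (μ j) * h₂ j := by
            rw [← Finset.sum_neg_distrib]
            refine Finset.sum_congr rfl fun j _ => ?_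
            rw [Fin.append_right, hhr, neg_smul, smul_eq_C_mul]
          rw [e1, e2, e]
          ring
        · rw [Fin.append_left, Pi.single_eq_same]
          exact one_ne_zero
      · obtain ⟨a, μ, ha, e⟩ := hs₁ (h₂ i') (hdeg₂ i')
        refine ⟨Fin.append (fun j => - μ j) (Pi.single i' 1), ⟨a, ha, ?_⟩, ?_⟩
        · rw [Fin.sum_univ_add]
          have e1 : ∑ j : Fin m₂, Fin.append (fun j => - μ j) (Pi.single i' (1 : k))
              (Fin.natAdd m₁ j) • h (Fin.natAdd m₁ j) = h₂ i' := by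
            rw [Finset.sum_eq_single i']
            · rw [Fin.append_right, Pi.single_eq_same, one_smul, hhr]
            · intro j _ hj
              rw [Fin.append_right, Pi.single_eq_of_ne hj, zero_smul]
            · intro hj
              exact absurd (Finset.mem_univ i') hj
          have e2 : ∑ j : Fin m₁, Fin.append (fun j => - μ j) (Pi.single i' (1 : k))
              (Fin.castAdd m₂ j) • h (Fin.castAdd m₂ j) = - ∑ j, C (μ j) * h₁ j := by
            rw [← Finset.sum_neg_distrib]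
            refine Finset.sum_congr rfl fun j _ => ?_
            rw [Fin.append_left, hhl, neg_smul, smul_eq_C_mul]
          rw [e1, e2, e]
          ring
        · rw [Fin.append_right, Pi.single_eq_same]
          exact one_ne_zero)
    obtain ⟨μ, hμ, hμ0⟩ := hR
    obtain ⟨a, ha, e⟩ := hμ
    refine ⟨fun i => C (-1) * a i, μ, fun i => ?_, ?_, hμ0⟩
    · change (C (-1) * a i).degree < _
      rw [← smul_eq_C_mul]
      exact lt_of_le_of_lt (degree_smul_le _ _) (ha i)
    · rw [S4b_grad_C_mul, ← e]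
      have e3 : ∑ i, C (μ i) * h i = ∑ j, μ j • h j :=
        Finset.sum_congr rfl fun j _ => (smul_eq_C_mul _).symm
      rw [e3, C_neg, C_1]
      ring
  have en : n * D + 1 - 2 = n * D - 1 := by omega
  have eD : D + 1 - 2 = D - 1 := by omega
  obtain ⟨γ, hγ1, hγ2, hγ3⟩ := comb hn F hF D 2 hD (Or.inr rfl) g hg b hbinj d τ hf hc h hx
    (by rw [en, eD]; exact hspan) (by rw [eD]; exact hrel) 0 (fun j => j.elim0) (fun j => j.elim0)
    (by
      intro f hf'
      obtain ⟨a, μ, ha, e⟩ := hspan f hf'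
      refine ⟨a, μ, fun j => j.elim0, ha, ?_⟩
      rw [Finset.univ_eq_empty (α := Fin 0), Finset.sum_empty, add_zero]
      exact e)
  exact ⟨_, γ, hγ1, hγ2, hγ3⟩

end Q9
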