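import Pool.Agent.LibQ9.S1
import Pool.Agent.LibQ9.S2c
import Pool.Agent.LibQ9.S4b
import Pool.Agent.LibQ9.P6
import Pool.Agent.LibUniqPt67.Main

/-!
[Q9 S5] (MEDIUM; may cite S0, S1, S2c, S4b, B3, P6 as stated; `UniqPt.exists_primitive` of LibUniqPt67/Main.lean is proved) `VF` spreads along chains of rational curves.

PLAN. `span_top_iff`: in the principal ideal domain `k[X]` the ideal is generated by one polynomial; it is the unit ideal iff this polynomial has no root (`k` algebraically closed). `vf_end`: S2c (`ve g b₀ ≠ 0` by primitivity) and S4b (`Sm F` by P6) give `e`, `γ` very free with `vc γ e = vc g D`; the reversed curve `rv e γ` is free and `Cor 0` (B3 `Free.rv`, `Cor.rv`; `1 ≤ e` from `Free`), with value `vc γ e` at `0`: S1.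
`vf_start`: apply `vf_end` to `rv D g` (on `F`, primitive: its value at `b ≠ 0` is `b^D g(1/b)`, at `0` it is `vc g D ≠ 0`; `vc (rv D g) D = vc g 0 ≠ 0`) and `b₀ = 0` (`ve (rv D g) 0 = vc g D`). `curve_vf`: the curve is `γ i = l * P i` with `P` without common zeros (`UniqPt.exists_primitive`; `γ ≠ 0` as `p ≠ 0`), `F(P) = 0` (`l^n F(P) = F(γ) = 0`). Let `D` be the maximum of the `natDegree (P i)`; `natDegree l + D = m` because `p ≠ 0` is the
vector of coefficients of `X^m` of `γ` (all `natDegree ≤ m`), so `p = lc(l) • vc P D`, `q = l(0) • vc P 0`, with `lc(l) ≠ 0`, `l(0) ≠ 0` (`q ≠ 0`). If `D = 0` then `vc P 0 = vc P D` and S0 `vf_smul` gives the claim; if `D ≥ 1` use `vf_end` with `b₀ = 0` and `vf_start` and `vf_smul` (also with `c⁻¹`). `chain_vf`: induction on the chain (`refl`: `vf_smul`; `step`: `curve_vf`).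
-/

set_option autoImplicit false

namespace Q9

open Polynomial

private theorem S5_eval {k : Type} [Field k] {m : ℕ} (F : MvPolynomial (Fin m) k)
    (γ : Fin m → k[X]) (b : k) :
    (MvPolynomial.aeval γ F).eval b = MvPolynomial.eval (fun i => (γ i).eval b) F := by
  have h1 := congrArg (fun φ : MvPolynomial (Fin m) k →ₐ[k] k => φ F)
    (MvPolynomial.comp_aeval (R := k) γ (Polynomial.aeval b : k[X] →ₐ[k] k))
  simp only [AlgHom.comp_apply, Polynomial.coe_aeval_eq_eval] at h1
  rw [h1]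
  exact congrArg (fun φ : MvPolynomial (Fin m) k →+* k => φ F)
    (MvPolynomial.coe_aeval_eq_eval (fun i => (γ i).eval b))

private theorem S5_smul {k : Type} [Field k] {m n : ℕ} {F : MvPolynomial (Fin m) k}
    (hF : F.IsHomogeneous n) (x : Fin m → k) (c : k) :
    MvPolynomial.eval (fun i => c * x i) F = c ^ n * MvPolynomial.eval x F := by
  rw [MvPolynomial.eval_eq, MvPolynomial.eval_eq, Finset.mul_sum]
  refine Finset.sum_congr rfl fun e he => ?_
  have h1 : ∏ i ∈ e.support, (c * x i) ^ e i = c ^ n * ∏ i ∈ e.support, x i ^ e i := by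
    rw [hF.degree_eq_sum_deg_support he, ← Finset.prod_pow_eq_pow_sum, ← Finset.prod_mul_distrib]
    exact Finset.prod_congr rfl fun i _ => mul_pow _ _ _
  rw [h1]
  ring

private theorem S5_zero {k : Type} [Field k] [Infinite k] (f l : k[X]) (hl : l ≠ 0)
    (h : ∀ b, l.eval b ≠ 0 → f.eval b = 0) : f = 0 := by
  have h1 : l * f = 0 := by
    apply Polynomial.funext
    intro b
    rw [eval_mul, eval_zero]
    by_cases hb : l.eval b = 0
    · rw [hb, zero_mul]
    · rw [h b hb, mul_zero]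
  exact (mul_eq_zero.1 h1).resolve_left hl

private theorem S5_refl_eval {k : Type} [Field k] (N : ℕ) (f : k[X]) (hf : f.natDegree ≤ N) (b : k)
    (hb : b ≠ 0) : (f.reflect N).eval b = b ^ N * f.eval b⁻¹ := by
  let _ : Invertible (b⁻¹) := invertibleOfNonzero (inv_ne_zero hb)
  have h1 := eval₂_reflect_mul_pow (RingHom.id k) (b⁻¹) N f hf
  have h2 : (⅟(b⁻¹) : k) = b := by rw [invOf_eq_inv, inv_inv]
  rw [h2, ← eval, ← eval] at h1
  rw [← h1, mul_comm, mul_assoc, ← mul_pow, inv_mul_cancel₀ hb, one_pow, mul_one]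

private theorem S5_ve_zero {k : Type} [Field k] {n : ℕ} (g : Fin (n + 1) → k[X]) :
    ve g 0 = vc g 0 := by
  funext i
  exact (coeff_zero_eq_eval_zero (g i)).symm

private theorem S5_vc_rv {k : Type} [Field k] {n : ℕ} (g : Fin (n + 1) → k[X]) (D j : ℕ)
    (hj : j ≤ D) : vc (rv D g) j = vc g (D - j) := by
  funext i
  change ((g i).reflect D).coeff j = (g i).coeff (D - j)
  rw [coeff_reflect, revAt_le hj]

theorem span_top_iff {k : Type} [Field k] [IsAlgClosed k] {n : ℕ} (g : Fin (n + 1) → k[X]) :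
    Ideal.span (Set.range g) = ⊤ ↔ ∀ b, ve g b ≠ 0 := by
  constructor
  · intro h b hb
    have h1 : Ideal.span (Set.range g) ≤ RingHom.ker (evalRingHom b) := by
      rw [Ideal.span_le]
      rintro _ ⟨i, rfl⟩
      exact congrFun hb i
    rw [h, top_le_iff] at h1
    have h2 : (1 : k[X]) ∈ RingHom.ker (evalRingHom b) := by
      rw [h1]
      exact Submodule.mem_top
    rw [RingHom.mem_ker, map_one] at h2
    exact one_ne_zero h2
  · intro h
    obtain ⟨f, hf⟩ := (IsPrincipalIdealRing.principal (Ideal.span (Set.range g))).principal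
    have hg : ∀ i, f ∣ g i := by
      intro i
      have h1 : g i ∈ Ideal.span (Set.range g) := Ideal.subset_span ⟨i, rfl⟩
      rw [hf] at h1
      exact Ideal.mem_span_singleton.1 h1
    have hroot : ∀ b, f.eval b ≠ 0 := by
      intro b hb
      apply h b
      funext i
      obtain ⟨u, hu⟩ := hg i
      change (g i).eval b = 0
      rw [hu, eval_mul, hb, zero_mul]
    have hdeg : f.degree = 0 := by
      by_contra hne
      obtain ⟨b, hb⟩ := IsAlgClosed.exists_root f hne
      exact hroot b hb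
    rw [hf]
    exact Ideal.span_singleton_eq_top.2 (isUnit_iff_degree_eq_zero.2 hdeg)

theorem vf_end {k : Type} [Field k] [IsAlgClosed k] {n : ℕ} (hn : 2 ≤ n)
    (F : MvPolynomial (Fin (n + 1)) k) (hF : F.IsHomogeneous n) (hs : Smooth F) (D : ℕ) (hD : 1 ≤ D)
    (g : Fin (n + 1) → k[X]) (hg : On F D g) (hprim : ∀ b, ve g b ≠ 0) (hlead : vc g D ≠ 0) (b₀ : k)
    (h : VF F (ve g b₀)) : VF F (vc g D) := by
  have hV := vf_spread hn F hF hs D g hg b₀ (hprim b₀) h
  obtain ⟨e, γ, hγ, hγc, hγe⟩ := very_free_inf hn F hF (sm_of_smooth F hs) D hD g hg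
    ((span_top_iff g).2 hprim) hlead hV
  have h1 : Free F e (rv e γ) := Free.rv F hn hF hγ
  have h2 : Cor F e (rv e γ) 0 := Cor.rv F hn hF hγ.1 hγ.2.1 hγc
  have h3 := vf_of_very_free hn F hF e (rv e γ) h1 h2
  rw [S5_vc_rv γ e 0 (Nat.zero_le _), Nat.sub_zero, hγe] at h3
  exact h3

theorem vf_start {k : Type} [Field k] [IsAlgClosed k] {n : ℕ} (hn : 2 ≤ n)
    (F : MvPolynomial (Fin (n + 1)) k) (hF : F.IsHomogeneous n) (hs : Smooth F) (D : ℕ) (hD : 1 ≤ D)
    (g : Fin (n + 1) → k[X]) (hg : On F D g) (hprim : ∀ b, ve g b ≠ 0) (hlead : vc g D ≠ 0)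
    (h : VF F (vc g D)) : VF F (vc g 0) := by
  have : Infinite k := IsAlgClosed.instInfinite
  have hev : ∀ b : k, b ≠ 0 → ∀ i, (rv D g i).eval b = b ^ D * (g i).eval b⁻¹ := fun b hb i =>
    S5_refl_eval D (g i) (hg.1 i) b hb
  have hon : On F D (rv D g) := by
    refine ⟨fun i => natDegree_reflect_le.trans (max_le le_rfl (hg.1 i)), ?_⟩
    apply S5_zero _ (X : k[X]) X_ne_zero
    intro b hb
    rw [eval_X] at hb
    rw [S5_eval]
    have h1 : (fun i => (rv D g i).eval b) = fun i => b ^ D * (g i).eval b⁻¹ :=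
      funext fun i => hev b hb i
    rw [h1, S5_smul hF, ← S5_eval, hg.2, eval_zero, mul_zero]
  have hz : ve (rv D g) 0 = vc g D := by
    rw [S5_ve_zero, S5_vc_rv g D 0 (Nat.zero_le _), Nat.sub_zero]
  have hprim' : ∀ b, ve (rv D g) b ≠ 0 := by
    intro b hb
    by_cases hb0 : b = 0
    · rw [hb0, hz] at hb
      exact hlead hb
    · apply hprim b⁻¹
      funext i
      have h1 : (rv D g i).eval b = 0 := congrFun hb i
      rw [hev b hb0] at h1
      exact (mul_eq_zero.1 h1).resolve_left (pow_ne_zero _ hb0)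
  have hDD : vc (rv D g) D = vc g 0 := by rw [S5_vc_rv g D D le_rfl, Nat.sub_self]
  have hlead' : vc (rv D g) D ≠ 0 := by
    rw [hDD, ← S5_ve_zero]
    exact hprim 0
  have h1 := vf_end hn F hF hs D hD (rv D g) hon hprim' hlead' 0 (by rw [hz]; exact h)
  rwa [hDD] at h1

private theorem S5_smul_iff {k : Type} [Field k] {n : ℕ} (F : MvPolynomial (Fin (n + 1)) k)
    (hF : F.IsHomogeneous n) (q : Fin (n + 1) → k) (c : k) (hc : c ≠ 0) :
    VF F (c • q) ↔ VF F q := by
  constructor
  · intro h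
    have h1 := vf_smul F hF (c • q) h c⁻¹ (inv_ne_zero hc)
    rwa [smul_smul, inv_mul_cancel₀ hc, one_smul] at h1
  · intro h
    exact vf_smul F hF q h c hc

theorem curve_vf {k : Type} [Field k] [IsAlgClosed k] {n : ℕ} (hn : 2 ≤ n)
    (F : MvPolynomial (Fin (n + 1)) k) (hF : F.IsHomogeneous n) (hs : Smooth F) (m : ℕ)
    (p q : Fin (n + 1) → k) (hp : p ≠ 0) (hq : q ≠ 0) (h : UniqPt.Curve F m p q) :
    VF F p ↔ VF F q := by
  have : Infinite k := IsAlgClosed.instInfinite
  obtain ⟨γ, hdeg, hγ, hγp, hγq⟩ := h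
  obtain ⟨i0, hi0⟩ : ∃ i, p i ≠ 0 := by
    by_contra hcon
    apply hp
    funext i
    by_contra hi
    exact hcon ⟨i, hi⟩
  have hγ0 : γ ≠ 0 := by
    intro h0
    apply hi0
    rw [← hγp i0, h0]
    rfl
  obtain ⟨l, P, hl, hlP, hP⟩ := UniqPt.exists_primitive m γ hγ0 hdeg
  have hPF : MvPolynomial.aeval P F = 0 := by
    apply S5_zero _ l hl
    intro b hb
    have h1 : (MvPolynomial.aeval γ F).eval b = 0 := by rw [hγ, eval_zero]
    have h2 : (fun i => (γ i).eval b) = fun i => l.eval b * (P i).eval b :=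
      funext fun i => by rw [hlP i, eval_mul]
    rw [S5_eval, h2, S5_smul hF, ← S5_eval] at h1
    exact (mul_eq_zero.1 h1).resolve_left (pow_ne_zero _ hb)
  obtain ⟨D, hDdef⟩ : ∃ D, D = Finset.univ.sup fun i => (P i).natDegree := ⟨_, rfl⟩
  have hPD : ∀ i, (P i).natDegree ≤ D := by
    intro i
    rw [hDdef]
    exact Finset.le_sup (f := fun i => (P i).natDegree) (Finset.mem_univ i)
  have hprim : ∀ b, ve P b ≠ 0 := hP
  have hlm : l.natDegree + D = m := by
    apply le_antisymm
    · obtain ⟨i1, -, hi1⟩ := Finset.exists_mem_eq_sup (Finset.univ : Finset (Fin (n + 1)))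
        ⟨0, Finset.mem_univ _⟩ (fun i => (P i).natDegree)
      rw [← hDdef] at hi1
      by_cases hP1 : P i1 = 0
      · have hD0 : D = 0 := by rw [hi1, hP1, natDegree_zero]
        have hPi0 : P i0 ≠ 0 := by
          intro h0
          apply hi0
          rw [← hγp i0, hlP i0, h0, mul_zero, coeff_zero]
        have h2 := hdeg i0
        rw [hlP i0, natDegree_mul hl hPi0] at h2
        omega
      · have h2 := hdeg i1
        rw [hlP i1, natDegree_mul hl hP1, ← hi1] at h2
        exact h2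
    · have h1 : (γ i0).coeff m ≠ 0 := by rw [hγp]; exact hi0
      have h2 := le_natDegree_of_ne_zero h1
      rw [hlP i0] at h2
      exact h2.trans (natDegree_mul_le.trans (Nat.add_le_add_left (hPD i0) _))
  have hpP : p = l.coeff l.natDegree • vc P D := by
    funext i
    rw [← hγp i, hlP i, ← hlm]
    exact coeff_mul_add_eq_of_natDegree_le le_rfl (hPD i)
  have hqP : q = l.coeff 0 • vc P 0 := by
    funext i
    rw [← hγq i, hlP i, mul_coeff_zero]
    rfl
  have hlc : l.coeff l.natDegree ≠ 0 := by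
    rw [coeff_natDegree]
    exact leadingCoeff_ne_zero.2 hl
  have hl0 : l.coeff 0 ≠ 0 := by
    intro h0
    apply hq
    rw [hqP, h0, zero_smul]
  have hlead : vc P D ≠ 0 := by
    intro h0
    apply hp
    rw [hpP, h0, smul_zero]
  rw [hpP, hqP, S5_smul_iff F hF _ _ hlc, S5_smul_iff F hF _ _ hl0]
  rcases Nat.eq_zero_or_pos D with hD0 | hD1
  · rw [hD0]
  · have hon : On F D P := ⟨hPD, hPF⟩
    constructor
    · intro h1
      exact vf_start hn F hF hs D hD1 P hon hprim hlead h1
    · intro h1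
      exact vf_end hn F hF hs D hD1 P hon hprim hlead 0 (by rw [S5_ve_zero]; exact h1)

theorem chain_vf {k : Type} [Field k] [IsAlgClosed k] {n : ℕ} (hn : 2 ≤ n)
    (F : MvPolynomial (Fin (n + 1)) k) (hF : F.IsHomogeneous n) (hs : Smooth F) (m : ℕ)
    (p q : Fin (n + 1) → k) (h : UniqPt.Chain F m p q) : VF F p ↔ VF F q := by
  induction h with
  | refl p hp c hc => exact (S5_smul_iff F hF p c hc).symm
  | step hp hq h h' ih => exact (curve_vf hn F hF hs _ _ _ hp hq h).trans ih

end Q9
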