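import Pool.Agent.LibQ9.SR
import Pool.Agent.LibQ9.T0
import Pool.Agent.LibQ9.P3
import Pool.Agent.LibQ9.P4
import Pool.Agent.LibQ9.P5
import Pool.Agent.LibQ9.B5

/-!
[Q9 S6] Curves through a fixed point of a very free curve reach a point of transcendence degree `n` (typed by
helper32).
-/

set_option autoImplicit false

namespace Q9

open Polynomial

private theorem S6_lin_coeff {R : Type} [CommRing R] {n : ℕ} (d : ℕ) (z : Fin (n + 1) × Fin d → R)
    (i : Fin (n + 1)) (m : ℕ) : (lin d z i).coeff m = if h : m < d then z (i, ⟨m, h⟩) else 0 := by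
  unfold lin
  rw [finsetSum_coeff]
  simp only [coeff_C_mul, coeff_X_pow]
  split_ifs with h
  · rw [Finset.sum_eq_single (⟨m, h⟩ : Fin d)]
    · simp
    · intro b _ hb
      rw [if_neg, mul_zero]
      intro h1
      exact hb (Fin.ext h1.symm)
    · intro h1
      exact absurd (Finset.mem_univ _) h1
  · apply Finset.sum_eq_zero
    intro b _
    rw [if_neg, mul_zero]
    intro h1
    exact h (h1 ▸ b.2)

private theorem S6_natDegree_lin {R : Type} [CommRing R] {n : ℕ} (d : ℕ) (hd : 1 ≤ d)
    (z : Fin (n + 1) × Fin d → R) (i : Fin (n + 1)) : (lin d z i).natDegree ≤ d - 1 := by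
  rw [natDegree_le_iff_coeff_eq_zero]
  intro m hm
  rw [S6_lin_coeff, dif_neg (by omega)]

/-- degree of the value of a form -/
private theorem S6_deg {k : Type} [Field k] {m : ℕ} (G : MvPolynomial (Fin m) k) {e : ℕ}
    (hG : G.IsHomogeneous e) {κ : Type} [Field κ] [Algebra k κ] (d : ℕ) (γ : Fin m → κ[X])
    (hγ : ∀ i, (γ i).natDegree ≤ d) : (MvPolynomial.aeval γ G).natDegree ≤ e * d := by
  rw [MvPolynomial.aeval_def, MvPolynomial.eval₂_eq']
  apply natDegree_sum_le_of_forall_le
  intro s hs
  have h1 : ∑ i, s i = e := by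
    have h2 := hG (MvPolynomial.mem_support_iff.1 hs)
    rw [← h2]
    rw [Finsupp.weight_apply, Finsupp.sum_fintype _ _ (by simp)]
    simp
  have h0 : (algebraMap k κ[X] (MvPolynomial.coeff s G)).natDegree = 0 := by
    rw [IsScalarTower.algebraMap_apply k κ κ[X], ← C_eq_algebraMap]
    exact natDegree_C _
  calc (algebraMap k κ[X] (MvPolynomial.coeff s G) * ∏ i, γ i ^ s i).natDegree
      ≤ (algebraMap k κ[X] (MvPolynomial.coeff s G)).natDegree + (∏ i, γ i ^ s i).natDegree :=
        natDegree_mul_le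
    _ ≤ 0 + ∑ i, (γ i ^ s i).natDegree := by
        rw [h0]
        exact Nat.add_le_add_left (natDegree_prod_le _ _) _
    _ ≤ 0 + ∑ i, s i * d := by
        refine Nat.add_le_add_left (Finset.sum_le_sum fun i _ => ?_) _
        exact natDegree_pow_le.trans (Nat.mul_le_mul_left _ (hγ i))
    _ = e * d := by rw [zero_add, ← Finset.sum_mul, h1]

private theorem S6_lin_add {R : Type} [CommRing R] {n : ℕ} (d : ℕ)
    (z z' : Fin (n + 1) × Fin d → R) : lin d (z + z') = fun i => lin d z i + lin d z' i := by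
  funext i
  ext m
  simp only [coeff_add, S6_lin_coeff, Pi.add_apply]
  split_ifs
  · rfl
  · rw [add_zero]

private theorem S6_lin_smul {R : Type} [CommRing R] {n : ℕ} (d : ℕ) (c : R)
    (z : Fin (n + 1) × Fin d → R) : lin d (c • z) = fun i => C c * lin d z i := by
  funext i
  ext m
  simp only [coeff_C_mul, S6_lin_coeff, Pi.smul_apply, smul_eq_mul]
  split_ifs
  · rfl
  · rw [mul_zero]

private theorem S6_lin_zero {R : Type} [CommRing R] {n : ℕ} (d : ℕ) :
    lin d (0 : Fin (n + 1) × Fin d → R) = fun _ => 0 := by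
  funext i
  ext m
  rw [S6_lin_coeff]
  simp

section S6

variable {k : Type} [Field k] {n : ℕ} (F : MvPolynomial (Fin (n + 1)) k) {Ω : Type} [Field Ω]
  [Algebra k Ω]

private theorem S6_grad_add (γ a b : Fin (n + 1) → (Polynomial Ω)) :
    grad F γ (fun i => a i + b i) = grad F γ a + grad F γ b := by
  unfold grad
  simp only [mul_add, Finset.sum_add_distrib]

private theorem S6_grad_smul (γ a : Fin (n + 1) → (Polynomial Ω)) (c : Ω) :
    grad F γ (fun i => C c * a i) = C c * grad F γ a := by
  unfold grad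
  rw [Finset.mul_sum]
  exact Finset.sum_congr rfl fun i _ => by ring

/-- the kernel -/
private noncomputable def S6_M (e : ℕ) (γ : Fin (n + 1) → (Polynomial Ω)) :
    Submodule Ω (Fin (n + 1) × Fin e → Ω) where
  carrier := {δ | grad F γ (lin e δ) = 0}
  add_mem' := by
    intro a b ha hb
    show grad F γ (lin e (a + b)) = 0
    rw [S6_lin_add, S6_grad_add, show grad F γ (lin e a) = 0 from ha,
      show grad F γ (lin e b) = 0 from hb, add_zero]
  zero_mem' := by
    show grad F γ (lin e 0) = 0
    rw [S6_lin_zero]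
    simp [grad]
  smul_mem' := by
    intro c a ha
    show grad F γ (lin e (c • a)) = 0
    rw [S6_lin_smul, S6_grad_smul, show grad F γ (lin e a) = 0 from ha, mul_zero]

/-- extension by zero -/
private noncomputable def S6_ext (d : ℕ) :
    (Fin (n + 1) × Fin (d - 1) → Ω) →ₗ[Ω] (Fin (n + 1) × Fin d → Ω) where
  toFun δ a := if h : (a.2 : ℕ) < d - 1 then δ (a.1, ⟨a.2, h⟩) else 0
  map_add' δ δ' := by
    funext a
    simp only [Pi.add_apply]
    split_ifs
    · rfl
    · rw [add_zero]
  map_smul' c δ := by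
    funext a
    simp only [Pi.smul_apply, smul_eq_mul, RingHom.id_apply]
    split_ifs
    · rfl
    · rw [mul_zero]

end S6

theorem generic_far {k : Type} [Field k] {n : ℕ} (hn : 2 ≤ n) (F : MvPolynomial (Fin (n + 1)) k)
    (hF : F.IsHomogeneous n) (d : ℕ) (γ₀ : Fin (n + 1) → k[X]) (h₀ : Free F d γ₀)
    (hc₀ : Cor F d γ₀ 0) :
    ∃ (Ω : Type) (_ : Field Ω) (_ : Algebra k Ω) (γ : Fin (n + 1) → Polynomial Ω), IsAlgClosed Ω ∧
      On F d γ ∧ (∀ i, (γ i).coeff 0 = algebraMap k Ω ((γ₀ i).coeff 0)) ∧ n ≤ td k (vc γ d) := by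
  classical
  have hd : 1 ≤ d := h₀.1
  obtain ⟨hdeg₀, hF₀⟩ := h₀.2.1
  let q : Fin (n + 1) → k := fun i => (γ₀ i).coeff 0
  let z₀ : Fin (n + 1) × Fin d → k := fun a => (γ₀ a.1).coeff (a.2 + 1)
  have hγ₀ : (fun i => C (algebraMap k k (q i)) + X * lin d z₀ i) = γ₀ := by
    funext i
    ext m
    rcases m with _ | m
    · simp [q]
    · rw [coeff_add, coeff_C_succ, zero_add, coeff_X_mul, S6_lin_coeff]
      split_ifs with h
      · rfl
      · rw [coeff_eq_zero_of_natDegree_lt]
        have := hdeg₀ i
        omega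
  obtain ⟨Ω, iΩ, jΩ, z, hac, hz, hsp, htd, -⟩ := exists_gen (eqB F q d) z₀ (fun j => by
    have h1 := eqB_aeval F q d z₀ j
    rw [hγ₀, hF₀, coeff_zero] at h1
    rw [← MvPolynomial.coe_aeval_eq_eval]
    exact h1) d (by
    simp only [Fintype.card_prod, Fintype.card_fin]
    nlinarith)
  let γ : Fin (n + 1) → (Polynomial Ω) := fun i => C (algebraMap k Ω (q i)) + X * lin d z i
  have hγ : γ = fun i => C (algebraMap k Ω (q i)) + X * lin d z i := rfl
  have hc0 : ∀ i, (γ i).coeff 0 = algebraMap k Ω (q i) := by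
    intro i
    simp [hγ]
  have hcs : ∀ i m, (γ i).coeff (m + 1) = if h : m < d then z (i, ⟨m, h⟩) else 0 := by
    intro i m
    rw [hγ]
    simp only
    rw [coeff_add, coeff_C_succ, zero_add, coeff_X_mul, S6_lin_coeff]
  have hdeg : ∀ i, (γ i).natDegree ≤ d := by
    intro i
    rw [natDegree_le_iff_coeff_eq_zero]
    intro m hm
    obtain ⟨m, rfl⟩ : ∃ m', m = m' + 1 := ⟨m - 1, by omega⟩
    rw [hcs, dif_neg (by omega)]
  have hon : On F d γ := by
    refine ⟨hdeg, ?_⟩
    ext m
    rw [coeff_zero]
    rcases m with _ | m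
    · have h1 : (MvPolynomial.aeval γ F).coeff 0 = MvPolynomial.aeval (fun i => (γ i).coeff 0) F := by
        have h2 : (MvPolynomial.aeval γ F).coeff 0 =
            (Polynomial.constantCoeff : (Polynomial Ω) →+* Ω) (MvPolynomial.aeval γ F) := rfl
        rw [h2, MvPolynomial.aeval_def, MvPolynomial.aeval_def, MvPolynomial.hom_eval₂]
        congr 1
        ext x
        rw [RingHom.comp_apply, IsScalarTower.algebraMap_apply k Ω (Polynomial Ω), ← C_eq_algebraMap]
        simp
      have h3 : (MvPolynomial.aeval γ₀ F).coeff 0 = MvPolynomial.aeval q F := by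
        have h2 : (MvPolynomial.aeval γ₀ F).coeff 0 =
            (Polynomial.constantCoeff : k[X] →+* k) (MvPolynomial.aeval γ₀ F) := rfl
        rw [h2, MvPolynomial.aeval_def, MvPolynomial.aeval_def, MvPolynomial.hom_eval₂]
        congr 1
        ext x
        simp
      rw [h1]
      have h4 : (fun i => (γ i).coeff 0) = fun i => algebraMap k Ω (q i) := funext hc0
      rw [h4]
      have h5 : MvPolynomial.aeval (fun i => algebraMap k Ω (q i)) F =
          algebraMap k Ω (MvPolynomial.aeval q F) := by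
        rw [MvPolynomial.aeval_def, MvPolynomial.aeval_def, MvPolynomial.hom_eval₂]
        congr 1
      rw [h5, ← h3, hF₀, coeff_zero, map_zero]
    · by_cases hm : m < n * d
      · rw [← eqB_aeval F q d z ⟨m, hm⟩]
        exact hz _
      · exact coeff_eq_zero_of_natDegree_lt (lt_of_le_of_lt (S6_deg F hF d γ hdeg) (by omega))
  have hspz : Spz (cf d γ) (cf d γ₀) := by
    intro Ψ hΨ
    let s : Fin (n + 1) × Fin (d + 1) → MvPolynomial (Fin (n + 1) × Fin d) k := fun a =>
      if h : (a.2 : ℕ) = 0 then MvPolynomial.C (q a.1) else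
        MvPolynomial.X (a.1, ⟨a.2 - 1, by omega⟩)
    have h1 : (MvPolynomial.aeval z).comp (MvPolynomial.aeval s) = MvPolynomial.aeval (cf d γ) := by
      apply MvPolynomial.algHom_ext
      rintro ⟨i, j⟩
      rw [AlgHom.comp_apply, MvPolynomial.aeval_X, MvPolynomial.aeval_X]
      simp only [s, cf]
      split_ifs with h
      · rw [h, hc0]
        exact MvPolynomial.aeval_C z _
      · rw [MvPolynomial.aeval_X]
        obtain ⟨m, hm⟩ : ∃ m, (j : ℕ) = m + 1 := ⟨j - 1, by omega⟩
        have h5 : (γ i).coeff (j : ℕ) = z (i, ⟨m, by omega⟩) := by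
          rw [hm, hcs, dif_pos (by omega)]
        refine Eq.trans ?_ h5.symm
        congr 2
        apply Fin.ext
        show (j : ℕ) - 1 = m
        omega
    have h2 : (MvPolynomial.aeval z₀).comp (MvPolynomial.aeval s) =
        MvPolynomial.aeval (cf d γ₀) := by
      apply MvPolynomial.algHom_ext
      rintro ⟨i, j⟩
      rw [AlgHom.comp_apply, MvPolynomial.aeval_X, MvPolynomial.aeval_X]
      simp only [s, cf]
      split_ifs with h
      · rw [h]
        exact MvPolynomial.aeval_C z₀ _
      · rw [MvPolynomial.aeval_X]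
        simp only [z₀]
        congr 1
        omega
    have h3 := hsp (MvPolynomial.aeval s Ψ) (by
      rw [← AlgHom.comp_apply, h1]
      exact hΨ)
    rw [← MvPolynomial.coe_aeval_eq_eval] at h3 ⊢
    rw [← h2]
    exact h3
  have hfree : Free F d γ := Free.of_spz F hF d γ γ₀ hon h₀ hspz
  have hcor : Cor F d γ 0 := Cor.of_spz F hF d 0 hd γ γ₀ hon h₀.2.1 hc₀ hspz
  refine ⟨Ω, iΩ, jΩ, γ, hac, hon, hc0, ?_⟩
  have hfr := finrank_ker_cor hn F hF d hd γ hon hcor (S6_M F (d - 1) γ) (fun δ => Iff.rfl)
  have hy : ∀ i, vc γ d i = z (i, ⟨d - 1, by omega⟩) := by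
    intro i
    obtain ⟨e, rfl⟩ : ∃ e, d = e + 1 := ⟨d - 1, by omega⟩
    show (γ i).coeff (e + 1) = _
    rw [hcs, dif_pos (by omega)]
    rfl
  have hyf : ∀ i, vc γ d i ∈ fld k z := by
    intro i
    rw [hy]
    exact (fz k z (i, ⟨d - 1, by omega⟩)).2
  have hle := td_le_of_der z (vc γ d) hyf ((S6_M F (d - 1) γ).map (S6_ext d))
    (Module.finrank Ω (S6_M F (d - 1) γ)) (Submodule.finrank_map_le _ _) (by
      intro D hD
      set δ : Fin (n + 1) × Fin d → Ω := fun a => D (fz k z a) with hδ
      have hlast : ∀ i, δ (i, ⟨d - 1, by omega⟩) = 0 := by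
        intro i
        have h1 : fz k z (i, ⟨d - 1, by omega⟩) = ⟨vc γ d i, hyf i⟩ := Subtype.ext (hy i).symm
        rw [hδ]
        simp only
        rw [h1]
        exact hD i
      let δ' : Fin (n + 1) × Fin (d - 1) → Ω := fun a => δ (a.1, ⟨a.2, by omega⟩)
      have hlin : lin (d - 1) δ' = lin d δ := by
        funext i
        ext m
        rw [S6_lin_coeff, S6_lin_coeff]
        by_cases h1 : m < d - 1
        · rw [dif_pos h1, dif_pos (by omega)]
        · rw [dif_neg h1]
          by_cases h2 : m < d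
          · rw [dif_pos h2]
            obtain rfl : m = d - 1 := by omega
            exact (hlast i).symm
          · rw [dif_neg h2]
      refine ⟨δ', ?_, ?_⟩
      · show grad F γ (lin (d - 1) δ') = 0
        rw [hlin]
        ext m
        rw [coeff_zero]
        by_cases hm : m < n * d
        · have h1 := der_rel z D (eqB F q d ⟨m, hm⟩) (hz _)
          have h2 := eqB_deriv F q d z δ ⟨m, hm⟩
          rw [← hγ] at h2
          rw [← h2]
          exact h1
        · apply coeff_eq_zero_of_natDegree_lt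
          have h3 : (grad F γ (lin d δ)).natDegree ≤ (n - 1) * d + (d - 1) := by
            unfold grad
            apply natDegree_sum_le_of_forall_le
            intro i _
            refine natDegree_mul_le.trans (Nat.add_le_add ?_ (S6_natDegree_lin d hd δ i))
            exact S6_deg _ hF.pderiv d γ hdeg
          obtain ⟨c, rfl⟩ : ∃ c, n = c + 1 := ⟨n - 1, by omega⟩
          have h4 : (c + 1) * d = c * d + d := by ring
          rw [Nat.add_sub_cancel] at h3
          omega
      · funext a
        obtain ⟨i, j⟩ := a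
        show (if h : (j : ℕ) < d - 1 then δ' (i, ⟨j, h⟩) else 0) = δ (i, j)
        split_ifs with h
        · rfl
        · have h1 : j = ⟨d - 1, by omega⟩ := Fin.ext (by
            have := j.2
            simp only
            omega)
          rw [h1]
          exact (hlast i).symm)
  omega

end Q9
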