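import Pool.Agent.LibQ9.S7a
import Pool.Agent.LibUniqPt67.C

/-!
[Q9 S7b] (MEDIUM; may cite S7a as stated; `UniqPt.chain_lemma` of LibUniqPt67/C.lean is proved) Degeneration of the curve joining `q` to the generic point: a chain of rational curves joining `q` to `x`.

PLAN. S7a for `y = vc γ d`: `κ`, `B`, `red`. `G = map (algebraMap k κ) F`. The coefficients of `γ` are not all `0` (`q ≠ 0`); scale: there is a coefficient `μ ≠ 0` of `γ` with `c / μ ∈ B` for all coefficients `c` of `γ` (`Ω`-valuation; use `UniqPt.exists_dvd_coord` after multiplying by a common element, or the valuation `B.valuation` and a maximum). `γ' : Fin (n+1) → B[X]` with coefficients `c / μ`, degree `≤ d`; its reduction `γ̄ = γ'.map red : κ[X]` is not `0` (one coefficient is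
`1`), `F(γ') = 0` over `B` (`μ^n F(γ') = F(γ) = 0`), so `G(γ̄) = 0`. Let `ρ` be the smallest index with `vc γ̄ ρ ≠ 0` and `ρ'` the largest (`ρ' ≤ d`). `p₁ = vc γ̄ ρ`, `p₂ = vc γ̄ ρ'`; the curve `γ̄ / X^ρ` of degree `≤ m₂ = ρ' - ρ` is a `UniqPt.Curve G m₂ p₂ p₁`. Chain lemma at `0`: `F_B = map (constants k → B → B⟦X⟧) F`, `x = γ'` as power series, `ρ`, `w = p₁`, `coeff 0 = q / μ ≠ 0`: `q / μ = c * x'`, `c ≠ 0`, `red x' ≠ 0`, a chain from `p₁` to `red x'`.
Now `x' = u q` with `u = 1/(μ c) ∈ Ω`, `u ∈ B` because some `q i ∈ kˣ` and `x' i ∈ B`, so `red x' = red u • q`, `c₁ = red u ≠ 0`. At infinity: the same with the reversed vector (`reflect d`): smallest index `d - ρ'`, `w = p₂`, `coeff 0 = vc γ d / μ = y / μ` (`y ≠ 0` as `red (y i) = x i ≠ 0` for some `i`): `y / μ = c * y'`, chain from `p₂` to `red y'`; `y' = u y`, `u ∈ B` because some `y i` is a unit of `B` (`x i ≠ 0`), `red y' = red u • x`.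
-/

set_option autoImplicit false

namespace Q9

open Polynomial

/-- a finite family in a field with a valuation ring can be scaled -/
private theorem S7b_scale {Ω : Type} [Field Ω] (V : ValuationSubring Ω) {ι : Type} [Finite ι]
    (x : ι → Ω) (hx : ∃ i, x i ≠ 0) : ∃ i0, x i0 ≠ 0 ∧ ∀ i, x i / x i0 ∈ V := by
  classical
  obtain ⟨i1, h1⟩ := hx
  have : Nonempty ι := ⟨i1⟩
  have := Fintype.ofFinite ι
  obtain ⟨i0, -, h0⟩ := Finset.exists_max_image Finset.univ (fun i => V.valuation (x i))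
    ⟨i1, Finset.mem_univ _⟩
  have hne : x i0 ≠ 0 := by
    intro hz
    have := h0 i1 (Finset.mem_univ _)
    rw [hz, map_zero, le_zero_iff, map_eq_zero] at this
    exact h1 this
  refine ⟨i0, hne, fun i => ?_⟩
  rw [← V.valuation_le_one_iff, map_div₀]
  have hpos : 0 < V.valuation (x i0) := by
    rw [zero_lt_iff]
    simpa using hne
  exact div_le_one_of_le₀ (h0 i (Finset.mem_univ _)) hpos.le

/-- the equation for the reversed vector -/
private theorem S7b_rev {k Ω : Type} [Field k] [Field Ω] [Algebra k Ω] {n N : ℕ}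
    (F : MvPolynomial (Fin (n + 1)) k) (hF : F.IsHomogeneous N) (d : ℕ)
    (γ : Fin (n + 1) → Polynomial Ω) (hd : ∀ i, (γ i).natDegree ≤ d)
    (h : MvPolynomial.aeval γ F = 0) :
    MvPolynomial.aeval (fun i => (γ i).reflect d) F = 0 := by
  set K := RatFunc Ω with hK
  set A : Polynomial Ω →+* K := algebraMap (Polynomial Ω) K with hA
  set cK : Ω →+* K := A.comp Polynomial.C with hcK
  set t : K := A X with ht
  have hAinj : Function.Injective A := IsFractionRing.injective (Polynomial Ω) K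
  have ht0 : t ≠ 0 := by
    intro h0
    have h1 : A X = A 0 := by rw [map_zero]; exact h0
    exact X_ne_zero (hAinj h1)
  have hAe : ∀ f : Polynomial Ω, A f = Polynomial.eval₂ cK t f := by
    intro f
    have h1 : A = Polynomial.eval₂RingHom cK t := by
      apply Polynomial.ringHom_ext
      · intro a
        simp [hcK]
      · simp [ht]
    calc A f = (Polynomial.eval₂RingHom cK t) f := by rw [← h1]
      _ = Polynomial.eval₂ cK t f := rfl
  let φ : Polynomial Ω →+* K := Polynomial.eval₂RingHom cK t⁻¹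
  have hrefl : ∀ i, A ((γ i).reflect d) = t ^ d * φ (γ i) := by
    intro i
    let inv : Invertible (t⁻¹) := invertibleOfNonzero (inv_ne_zero ht0)
    have h1 := @Polynomial.eval₂_reflect_mul_pow Ω _ K _ cK (t⁻¹) inv d (γ i) (hd i)
    have h2 : @Invertible.invOf K _ _ (t⁻¹) inv = t := by
      rw [@invOf_eq_inv K _ (t⁻¹) inv, inv_inv]
    rw [h2, ← hAe] at h1
    have h3 : φ (γ i) = Polynomial.eval₂ cK t⁻¹ (γ i) := rfl
    rw [h3, ← h1, inv_pow, mul_left_comm, mul_inv_cancel₀ (pow_ne_zero d ht0), mul_one]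
  have e1 : MvPolynomial.eval₂ (φ.comp (algebraMap k (Polynomial Ω))) (fun i => φ (γ i)) F = 0 := by
    have h1 := congrArg φ h
    rw [MvPolynomial.aeval_def, MvPolynomial.hom_eval₂, map_zero] at h1
    exact h1
  apply hAinj
  rw [map_zero, MvPolynomial.aeval_def, MvPolynomial.hom_eval₂]
  have hcomp : A.comp (algebraMap k (Polynomial Ω)) = φ.comp (algebraMap k (Polynomial Ω)) := by
    ext c
    have h1 : algebraMap k (Polynomial Ω) c = Polynomial.C (algebraMap k Ω c) := rfl
    simp only [RingHom.comp_apply, h1]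
    have h2 : φ (Polynomial.C (algebraMap k Ω c)) = cK (algebraMap k Ω c) :=
      Polynomial.eval₂_C cK t⁻¹
    rw [h2]
    rfl
  have hfun : (fun i => A ((γ i).reflect d)) = fun i => t ^ d * φ (γ i) := funext hrefl
  rw [hcomp]
  change MvPolynomial.eval₂ _ (fun i => A ((γ i).reflect d)) F = 0
  rw [hfun, UniqPt.eval₂_mul_vec _ F hF, e1, mul_zero]

/-- lifting the equation to the valuation ring -/
private theorem S7b_lift {k Ω : Type} [Field k] [Field Ω] [Algebra k Ω] {n N : ℕ}
    (F : MvPolynomial (Fin (n + 1)) k) (hF : F.IsHomogeneous N) (B : ValuationSubring Ω)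
    (ι : k →+* B) (hιΩ : ∀ c, ((ι c : B) : Ω) = algebraMap k Ω c) (μ : Ω)
    (γ : Fin (n + 1) → Polynomial Ω) (h : MvPolynomial.aeval γ F = 0)
    (g : Fin (n + 1) → Polynomial B) (hg : ∀ i, (g i).map (algebraMap B Ω) = C μ⁻¹ * γ i) :
    MvPolynomial.eval₂ ((Polynomial.C : B →+* Polynomial B).comp ι) g F = 0 := by
  have hinj : Function.Injective (Polynomial.mapRingHom (algebraMap B Ω)) :=
    Polynomial.map_injective _ (fun a b hab => Subtype.ext hab)
  apply hinj
  rw [map_zero, MvPolynomial.hom_eval₂]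
  have hcomp : (Polynomial.mapRingHom (algebraMap B Ω)).comp ((Polynomial.C : B →+* Polynomial B).comp ι) =
      algebraMap k (Polynomial Ω) := by
    ext1 c
    have h1 : algebraMap k (Polynomial Ω) c = Polynomial.C (algebraMap k Ω c) := rfl
    rw [h1, ← hιΩ c]
    simp only [RingHom.comp_apply, Polynomial.coe_mapRingHom, Polynomial.map_C]
    rfl
  have hfun : (fun i => (Polynomial.mapRingHom (algebraMap B Ω)) (g i)) = fun i => C μ⁻¹ * γ i :=
    funext hg
  rw [hcomp]
  change MvPolynomial.eval₂ _ (fun i => (Polynomial.mapRingHom (algebraMap B Ω)) (g i)) F = 0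
  rw [hfun, UniqPt.eval₂_mul_vec _ F hF, ← MvPolynomial.aeval_def, h, mul_zero]

/-- the chain lemma at one end -/
private theorem S7b_end {k : Type} [Field k] {n N : ℕ} (F : MvPolynomial (Fin (n + 1)) k)
    (hF : F.IsHomogeneous N) {Ω κ : Type} [Field Ω] [Field κ] [Algebra k κ]
    (B : ValuationSubring Ω) (red : B →+* κ) (hred : ∀ a : B, IsUnit a ↔ red a ≠ 0)
    (hroot : ∀ (y : B) (N : ℕ), 0 < N → ∃ π : B, π ^ N = y) (ι : k →+* B)
    (hι : ∀ c, red (ι c) = algebraMap k κ c) (g : Fin (n + 1) → Polynomial B)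
    (hg : MvPolynomial.eval₂ ((Polynomial.C : B →+* Polynomial B).comp ι) g F = 0) (ρ : ℕ)
    (hlow : ∀ j < ρ, ∀ i, red ((g i).coeff j) = 0) (w : Fin (n + 1) → κ)
    (hw : ∀ i, red ((g i).coeff ρ) = w i) (hw0 : w ≠ 0) (μ : Ω) (hμ : μ ≠ 0)
    (z : Fin (n + 1) → B) (hz : ∀ i, (((g i).coeff 0 : B) : Ω) * μ = z i)
    (hz0 : ∃ i, red (z i) ≠ 0) :
    ∃ (m : ℕ) (c : κ), c ≠ 0 ∧ UniqPt.Chain (MvPolynomial.map (algebraMap k κ) F) m w
      (fun i => c * red (z i)) := by
  obtain ⟨i1, hi1⟩ := hz0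
  have hu : IsUnit (z i1) := (hred _).2 hi1
  let FF : MvPolynomial (Fin (n + 1)) (PowerSeries B) :=
    MvPolynomial.map ((Polynomial.coeToPowerSeries.ringHom (R := B)).comp
      ((Polynomial.C : B →+* Polynomial B).comp ι)) F
  have hFF : FF.IsHomogeneous N := hF.map _
  have hG : MvPolynomial.map (red.comp (PowerSeries.constantCoeff (R := B))) FF =
      MvPolynomial.map (algebraMap k κ) F := by
    change MvPolynomial.map _ (MvPolynomial.map _ F) = _
    have hr : (red.comp (PowerSeries.constantCoeff (R := B))).comp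
        ((Polynomial.coeToPowerSeries.ringHom (R := B)).comp
          ((Polynomial.C : B →+* Polynomial B).comp ι)) = algebraMap k κ := by
      ext1 c
      rw [← hι c]
      simp
    rw [MvPolynomial.map_map, hr]
  have hx : MvPolynomial.eval (fun i => ((g i : Polynomial B) : PowerSeries B)) FF = 0 := by
    change MvPolynomial.eval _ (MvPolynomial.map _ F) = 0
    rw [MvPolynomial.eval_map]
    have h1 := congrArg (Polynomial.coeToPowerSeries.ringHom (R := B)) hg
    rw [MvPolynomial.hom_eval₂, map_zero] at h1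
    exact h1
  have hg1 : (g i1).coeff 0 ≠ 0 := by
    intro h
    have h3 := hz i1
    rw [h] at h3
    have h4 : ((0 : B) : Ω) = 0 := rfl
    rw [h4, zero_mul] at h3
    have h5 : z i1 = 0 := Subtype.ext h3.symm
    rw [h5, map_zero] at hi1
    exact hi1 rfl
  obtain ⟨c, x', hc, hx', hne, m, -, hch⟩ := UniqPt.chain_lemma red hred hroot FF hFF _ hG ρ
    (fun i => ((g i : Polynomial B) : PowerSeries B)) hx
    (by intro j hj i; rw [Polynomial.coeff_coe]; exact hlow j hj i) w
    (by intro i; rw [Polynomial.coeff_coe]; exact hw i) hw0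
    ⟨i1, by rw [Polynomial.coeff_coe]; exact hg1⟩
  have hx2 : ∀ i, (g i).coeff 0 = c * x' i := by
    intro i
    have h1 := hx' i
    rwa [Polynomial.coeff_coe] at h1
  obtain ⟨v, hv⟩ := hu.exists_left_inv
  have hcross : ∀ j, x' j * z i1 = x' i1 * z j := by
    intro j
    apply Subtype.ext
    change ((x' j : B) : Ω) * ((z i1 : B) : Ω) = ((x' i1 : B) : Ω) * ((z j : B) : Ω)
    rw [← hz i1, ← hz j, hx2 i1, hx2 j]
    change ((x' j : B) : Ω) * (((c : B) : Ω) * ((x' i1 : B) : Ω) * μ) =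
      ((x' i1 : B) : Ω) * (((c : B) : Ω) * ((x' j : B) : Ω) * μ)
    ring
  have hxz : ∀ j, x' j = (x' i1 * v) * z j := by
    intro j
    calc x' j = x' j * (v * z i1) := by rw [hv, mul_one]
      _ = (x' j * z i1) * v := by ring
      _ = (x' i1 * v) * z j := by rw [hcross j]; ring
  refine ⟨m, red (x' i1 * v), ?_, ?_⟩
  · intro h0
    apply hne
    funext j
    change red (x' j) = 0
    rw [hxz j, map_mul, h0, zero_mul]
  · have hfun : (fun i => red (x' i)) = fun i => red (x' i1 * v) * red (z i) := by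
      funext j
      change red (x' j) = _
      conv_lhs => rw [hxz j, map_mul]
    rw [← hfun]
    exact hch

theorem chain_to {k : Type} [Field k] {n : ℕ} (F : MvPolynomial (Fin (n + 1)) k)
    (hF : F.IsHomogeneous n) {Ω : Type} [Field Ω] [Algebra k Ω] [IsAlgClosed Ω] (d : ℕ)
    (γ : Fin (n + 1) → Polynomial Ω) (hγ : On F d γ) (q x : Fin (n + 1) → k) (hq : q ≠ 0)
    (hx : x ≠ 0) (hx0 : MvPolynomial.aeval x F = 0)
    (h0 : ∀ i, (γ i).coeff 0 = algebraMap k Ω (q i)) (hg : Gen F (vc γ d)) :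
    ∃ (κ : Type) (_ : Field κ) (_ : Algebra k κ) (m₁ m₂ m₃ : ℕ) (p₁ p₂ : Fin (n + 1) → κ)
      (c₁ c₂ : κ), IsAlgClosed κ ∧ c₁ ≠ 0 ∧ c₂ ≠ 0 ∧ p₁ ≠ 0 ∧ p₂ ≠ 0 ∧
      UniqPt.Chain (MvPolynomial.map (algebraMap k κ) F) m₁ p₁
        (fun i => c₁ * algebraMap k κ (q i)) ∧
      UniqPt.Curve (MvPolynomial.map (algebraMap k κ) F) m₂ p₂ p₁ ∧
      UniqPt.Chain (MvPolynomial.map (algebraMap k κ) F) m₃ p₂
        (fun i => c₂ * algebraMap k κ (x i)) := by
  classical
  obtain ⟨κ, iκ, aκ, B, red, hκ, hred, hroot, hcon, hxy⟩ := exists_val F (vc γ d) hg x hx0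
  have hmem : ∀ c : k, algebraMap k Ω c ∈ B := by
    intro c
    obtain ⟨h, -⟩ := hcon c
    exact h
  let ι : k →+* B := (algebraMap k Ω).codRestrict B hmem
  have hιΩ : ∀ c, ((ι c : B) : Ω) = algebraMap k Ω c := fun c => rfl
  have hι : ∀ c, red (ι c) = algebraMap k κ c := by
    intro c
    obtain ⟨h, e⟩ := hcon c
    exact e
  obtain ⟨iq, hiq⟩ : ∃ i, q i ≠ 0 := by
    by_contra hcon'
    push Not at hcon'
    exact hq (funext hcon')
  obtain ⟨ix, hix⟩ : ∃ i, x i ≠ 0 := by
    by_contra hcon'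
    push Not at hcon'
    exact hx (funext hcon')
  have hinjk : Function.Injective (algebraMap k κ) := (algebraMap k κ).injective
  obtain ⟨a0, ha0, hdiv⟩ := S7b_scale B (fun a : Fin (n + 1) × Fin (d + 1) => (γ a.1).coeff (a.2 : ℕ))
    ⟨(iq, 0), by
      change (γ iq).coeff 0 ≠ 0
      rw [h0 iq]
      exact (map_ne_zero (algebraMap k Ω)).2 hiq⟩
  set μ : Ω := (γ a0.1).coeff (a0.2 : ℕ) with hμ
  have hμ0 : μ ≠ 0 := ha0
  have hzero : ∀ i j, d < j → (γ i).coeff j = 0 := fun i j hj =>
    Polynomial.coeff_eq_zero_of_natDegree_lt (lt_of_le_of_lt (hγ.1 i) hj)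
  have hB : ∀ i j, (γ i).coeff j / μ ∈ B := by
    intro i j
    by_cases hj : j ≤ d
    · exact hdiv (i, ⟨j, by omega⟩)
    · rw [hzero i j (by omega), zero_div]
      exact B.zero_mem
  let g : Fin (n + 1) → Polynomial B := fun i =>
    ∑ j ∈ Finset.range (d + 1), Polynomial.monomial j (⟨(γ i).coeff j / μ, hB i j⟩ : B)
  have hgc : ∀ i j, (g i).coeff j = (⟨(γ i).coeff j / μ, hB i j⟩ : B) := by
    intro i j
    change (∑ l ∈ Finset.range (d + 1),
      Polynomial.monomial l (⟨(γ i).coeff l / μ, hB i l⟩ : B)).coeff j = _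
    rw [Polynomial.finsetSum_coeff]
    simp only [Polynomial.coeff_monomial]
    rw [Finset.sum_ite_eq']
    by_cases hj : j ≤ d
    · rw [if_pos (Finset.mem_range.2 (by omega))]
    · rw [if_neg (fun h => hj (by have := Finset.mem_range.1 h; omega))]
      apply Subtype.ext
      change (0 : Ω) = (γ i).coeff j / μ
      rw [hzero i j (by omega), zero_div]
  have hgmap : ∀ i, (g i).map (algebraMap B Ω) = C μ⁻¹ * γ i := by
    intro i
    ext j
    rw [Polynomial.coeff_map, hgc, Polynomial.coeff_C_mul]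
    change (γ i).coeff j / μ = μ⁻¹ * (γ i).coeff j
    rw [div_eq_inv_mul]
  have hgF := S7b_lift F hF B ι hιΩ μ γ hγ.2 g hgmap
  have hgdeg : ∀ i, (g i).natDegree ≤ d := by
    intro i
    rw [Polynomial.natDegree_le_iff_coeff_eq_zero]
    intro j hj
    rw [hgc]
    apply Subtype.ext
    change (γ i).coeff j / μ = 0
    rw [hzero i j hj, zero_div]
  have hgF' : MvPolynomial.eval₂ ((Polynomial.C : B →+* Polynomial B).comp ι)
      (fun i => (g i).reflect d) F = 0 := by
    apply S7b_lift F hF B ι hιΩ μ (fun i => (γ i).reflect d) (S7b_rev F hF d γ hγ.1 hγ.2)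
    intro i
    rw [← Polynomial.reflect_C_mul, ← hgmap i, Polynomial.reflect_map]
  let P : ℕ → Prop := fun j => ∃ i, red ((g i).coeff j) ≠ 0
  have hP0 : P (a0.2 : ℕ) := by
    refine ⟨a0.1, ?_⟩
    have h1 : (g a0.1).coeff (a0.2 : ℕ) = 1 := by
      rw [hgc]
      apply Subtype.ext
      change μ / μ = 1
      exact div_self hμ0
    rw [h1, map_one]
    exact one_ne_zero
  have hPd : ∀ j, d < j → ∀ i, red ((g i).coeff j) = 0 := by
    intro j hj i
    rw [Polynomial.coeff_eq_zero_of_natDegree_lt (lt_of_le_of_lt (hgdeg i) hj), map_zero]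
  have hex : ∃ j, P j := ⟨_, hP0⟩
  set ρ := Nat.find hex with hρ
  have hPρ : P ρ := Nat.find_spec hex
  have hρmin : ∀ j < ρ, ∀ i, red ((g i).coeff j) = 0 := by
    intro j hj i
    by_contra hne
    exact Nat.find_min hex hj ⟨i, hne⟩
  set ρ' := Nat.findGreatest P d with hρ'
  have ha0d : (a0.2 : ℕ) ≤ d := by have := a0.2.2; omega
  have hPρ' : P ρ' := Nat.findGreatest_spec ha0d hP0
  have hρ'd : ρ' ≤ d := Nat.findGreatest_le d
  have hρ'max : ∀ j, ρ' < j → ∀ i, red ((g i).coeff j) = 0 := by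
    intro j hj i
    by_cases hjd : j ≤ d
    · by_contra hne
      exact Nat.findGreatest_is_greatest hj hjd ⟨i, hne⟩
    · exact hPd j (by omega) i
  have hρρ' : ρ ≤ ρ' := Nat.find_min' hex hPρ'
  have hp₁ : (fun i => red ((g i).coeff ρ)) ≠ 0 := by
    intro h
    obtain ⟨i, hi⟩ := hPρ
    exact hi (congrFun h i)
  have hp₂ : (fun i => red ((g i).coeff ρ')) ≠ 0 := by
    intro h
    obtain ⟨i, hi⟩ := hPρ'
    exact hi (congrFun h i)
  obtain ⟨m₁, c₁, hc₁, hch₁⟩ := S7b_end F hF B red hred hroot ι hι g hgF ρ hρmin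
    (fun i => red ((g i).coeff ρ)) (fun i => rfl) hp₁ μ hμ0 (fun i => ι (q i))
    (by
      intro i
      rw [hgc]
      change (γ i).coeff 0 / μ * μ = algebraMap k Ω (q i)
      rw [h0 i, div_mul_cancel₀ _ hμ0])
    ⟨iq, by
      rw [hι]
      exact (map_ne_zero (algebraMap k κ)).2 hiq⟩
  choose hym hyr using hxy
  obtain ⟨m₃, c₂, hc₂, hch₂⟩ := S7b_end F hF B red hred hroot ι hι (fun i => (g i).reflect d) hgF' (d - ρ')
    (by
      intro j hj i
      rw [Polynomial.coeff_reflect, Polynomial.revAt_le (by omega)]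
      exact hρ'max _ (by omega) i)
    (fun i => red ((g i).coeff ρ'))
    (by
      intro i
      rw [Polynomial.coeff_reflect, Polynomial.revAt_le (by omega)]
      congr 2
      omega)
    hp₂ μ hμ0 (fun i => ⟨vc γ d i, hym i⟩)
    (by
      intro i
      rw [Polynomial.coeff_reflect, Polynomial.revAt_le (Nat.zero_le d), Nat.sub_zero, hgc]
      change (γ i).coeff d / μ * μ = (γ i).coeff d
      rw [div_mul_cancel₀ _ hμ0])
    ⟨ix, by
      rw [hyr ix]
      exact (map_ne_zero (algebraMap k κ)).2 hix⟩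
  refine ⟨κ, iκ, aκ, m₁, ρ' - ρ, m₃, fun i => red ((g i).coeff ρ), fun i => red ((g i).coeff ρ'),
    c₁, c₂, hκ, hc₁, hc₂, hp₁, hp₂, ?_, ?_, ?_⟩
  · have hfun : (fun i => c₁ * red (ι (q i))) = fun i => c₁ * algebraMap k κ (q i) := by
      funext i
      rw [hι]
    rw [← hfun]
    exact hch₁
  · let δ : Fin (n + 1) → Polynomial κ := fun i =>
      ∑ j ∈ Finset.range (ρ' - ρ + 1), Polynomial.monomial j (red ((g i).coeff (j + ρ)))
    have hδc : ∀ i j, (δ i).coeff j = red ((g i).coeff (j + ρ)) := by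
      intro i j
      change (∑ l ∈ Finset.range (ρ' - ρ + 1),
        Polynomial.monomial l (red ((g i).coeff (l + ρ)))).coeff j = _
      rw [Polynomial.finsetSum_coeff]
      simp only [Polynomial.coeff_monomial]
      rw [Finset.sum_ite_eq']
      by_cases hj : j ≤ ρ' - ρ
      · rw [if_pos (Finset.mem_range.2 (by omega))]
      · rw [if_neg (fun h => hj (by have := Finset.mem_range.1 h; omega)), hρ'max _ (by omega) i]
    have hgX : ∀ i, (g i).map red = X ^ ρ * δ i := by
      intro i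
      ext j
      rw [Polynomial.coeff_map, Polynomial.coeff_X_pow_mul']
      by_cases hj : ρ ≤ j
      · rw [if_pos hj, hδc, Nat.sub_add_cancel hj]
      · rw [if_neg hj]
        exact hρmin j (by omega) i
    have hcomp : (Polynomial.mapRingHom red).comp ((Polynomial.C : B →+* Polynomial B).comp ι) =
        algebraMap k (Polynomial κ) := by
      ext1 c
      have h1 : algebraMap k (Polynomial κ) c = Polynomial.C (algebraMap k κ c) := rfl
      rw [h1, ← hι c]
      simp only [RingHom.comp_apply, Polynomial.coe_mapRingHom, Polynomial.map_C]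
    have e1 : MvPolynomial.eval₂ (algebraMap k (Polynomial κ)) (fun i => X ^ ρ * δ i) F = 0 := by
      have h1 := congrArg (Polynomial.mapRingHom red) hgF
      rw [MvPolynomial.hom_eval₂, map_zero, hcomp] at h1
      have hfun : (fun i => (Polynomial.mapRingHom red) (g i)) = fun i => X ^ ρ * δ i := funext hgX
      change MvPolynomial.eval₂ _ (fun i => (Polynomial.mapRingHom red) (g i)) F = 0 at h1
      rwa [hfun] at h1
    rw [UniqPt.eval₂_mul_vec _ F hF] at e1
    have e2 : MvPolynomial.eval₂ (algebraMap k (Polynomial κ)) δ F = 0 := by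
      rcases mul_eq_zero.1 e1 with h1 | h1
      · exact absurd h1 (pow_ne_zero _ (pow_ne_zero _ X_ne_zero))
      · exact h1
    refine ⟨δ, ?_, ?_, ?_, ?_⟩
    · intro i
      rw [Polynomial.natDegree_le_iff_coeff_eq_zero]
      intro j hj
      rw [hδc]
      exact hρ'max _ (by omega) i
    · rw [MvPolynomial.aeval_def, MvPolynomial.eval₂_map]
      exact e2
    · intro i
      rw [hδc, Nat.sub_add_cancel hρρ']
    · intro i
      rw [hδc, Nat.zero_add]
  · have hfun : (fun i => c₂ * red ⟨vc γ d i, hym i⟩) = fun i => c₂ * algebraMap k κ (x i) := by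
      funext i
      rw [hyr i]
    rw [← hfun]
    exact hch₂

end Q9
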