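import Pool.Agent.LibQ9.P2

/-!
[Q9 TG] (SHORT/MEDIUM; may cite P2 as stated) Points of transcendence degree `n` of the cone are generic; points near codimension two.

PLAN. Let `x : Fin (n+1) → FractionRing (MvPolynomial (Fin (n+1)) k)` be the variables (kernel of `aeval x` is `⊥`), `y` the classes of the variables in `FractionRing (MvPolynomial / span {F})` (kernel `span {F}`, nonzero as `F ≠ 0`). P2 `td_chain`: `td y + 1 ≤ td x ≤ n + 1`, so `td y ≤ n`. `gen_of_td`: `span {F} ≤ ker (aeval q)`;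
if not equal then `<` and `td q + 1 ≤ td y ≤ n`. `gen_td_lt`: two strict inclusions `span {F} < Q₁ < ker (aeval q)`: insert the generic point of `Q₁` (classes in `FractionRing (MvPolynomial / Q₁)`), `td q + 2 ≤ n`.
-/

set_option autoImplicit false

namespace Q9

open MvPolynomial

private theorem TG_pt {k : Type} [Field k] {n : ℕ}
    (Q : Ideal (MvPolynomial (Fin (n + 1)) k)) (hQ : Q.IsPrime) :
    ∃ (K : Type) (_ : Field K) (_ : Algebra k K) (x : Fin (n + 1) → K),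
      RingHom.ker (aeval x : MvPolynomial (Fin (n + 1)) k →ₐ[k] K) = Q := by
  have hdom : IsDomain (MvPolynomial (Fin (n + 1)) k ⧸ Q) := Ideal.Quotient.isDomain Q
  refine ⟨FractionRing (MvPolynomial (Fin (n + 1)) k ⧸ Q), inferInstance, inferInstance,
    fun i => algebraMap (MvPolynomial (Fin (n + 1)) k ⧸ Q)
      (FractionRing (MvPolynomial (Fin (n + 1)) k ⧸ Q)) (Ideal.Quotient.mk Q (X i)), ?_⟩
  have h1 : (aeval fun i => algebraMap (MvPolynomial (Fin (n + 1)) k ⧸ Q)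
      (FractionRing (MvPolynomial (Fin (n + 1)) k ⧸ Q)) (Ideal.Quotient.mk Q (X i)) :
        MvPolynomial (Fin (n + 1)) k →ₐ[k] FractionRing (MvPolynomial (Fin (n + 1)) k ⧸ Q)) =
      (IsScalarTower.toAlgHom k (MvPolynomial (Fin (n + 1)) k ⧸ Q)
        (FractionRing (MvPolynomial (Fin (n + 1)) k ⧸ Q))).comp (Ideal.Quotient.mkₐ k Q) := by
    refine MvPolynomial.algHom_ext fun i => ?_
    rw [aeval_X]
    rfl
  rw [h1]
  ext P
  rw [RingHom.mem_ker]
  constructor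
  · intro h
    have h2 : algebraMap (MvPolynomial (Fin (n + 1)) k ⧸ Q)
      (FractionRing (MvPolynomial (Fin (n + 1)) k ⧸ Q)) (Ideal.Quotient.mk Q P) = 0 := h
    rw [map_eq_zero_iff _ (IsFractionRing.injective _ _)] at h2
    exact Ideal.Quotient.eq_zero_iff_mem.1 h2
  · intro h
    change algebraMap (MvPolynomial (Fin (n + 1)) k ⧸ Q)
      (FractionRing (MvPolynomial (Fin (n + 1)) k ⧸ Q)) (Ideal.Quotient.mk Q P) = 0
    rw [Ideal.Quotient.eq_zero_iff_mem.2 h, map_zero]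

private theorem TG_le {k : Type} [Field k] {n : ℕ} (F : MvPolynomial (Fin (n + 1)) k)
    (hF0 : F ≠ 0) {Ω : Type} [Field Ω] [Algebra k Ω] (y : Fin (n + 1) → Ω)
    (hy : RingHom.ker (aeval y : MvPolynomial (Fin (n + 1)) k →ₐ[k] Ω) = Ideal.span {F}) :
    td k y ≤ n := by
  obtain ⟨K, _, _, x, hx⟩ := TG_pt (⊥ : Ideal (MvPolynomial (Fin (n + 1)) k)) Ideal.isPrime_bot
  have h1 : RingHom.ker (aeval x : MvPolynomial (Fin (n + 1)) k →ₐ[k] K) <
      RingHom.ker (aeval y : MvPolynomial (Fin (n + 1)) k →ₐ[k] Ω) := by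
    rw [hx, hy, bot_lt_iff_ne_bot]
    intro h
    exact hF0 (Ideal.span_singleton_eq_bot.1 h)
  have h2 := td_chain x y h1
  have h3 := td_le_card (k := k) x
  rw [Fintype.card_fin] at h3
  omega

private theorem TG_lt {k : Type} [Field k] {n : ℕ} (F : MvPolynomial (Fin (n + 1)) k)
    (hF0 : F ≠ 0) (hp : (Ideal.span {F}).IsPrime) {Ω : Type} [Field Ω] [Algebra k Ω]
    (q : Fin (n + 1) → Ω)
    (hq : Ideal.span {F} < RingHom.ker (aeval q : MvPolynomial (Fin (n + 1)) k →ₐ[k] Ω)) :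
    td k q + 1 ≤ n := by
  obtain ⟨K, _, _, y, hy⟩ := TG_pt (Ideal.span {F}) hp
  have h1 : RingHom.ker (aeval y : MvPolynomial (Fin (n + 1)) k →ₐ[k] K) <
      RingHom.ker (aeval q : MvPolynomial (Fin (n + 1)) k →ₐ[k] Ω) := by
    rw [hy]
    exact hq
  exact (td_chain y q h1).trans (TG_le F hF0 y hy)

theorem gen_of_td {k : Type} [Field k] {n : ℕ} (F : MvPolynomial (Fin (n + 1)) k) (hF0 : F ≠ 0)
    [hp : (Ideal.span {F}).IsPrime] {Ω : Type} [Field Ω] [Algebra k Ω] (q : Fin (n + 1) → Ω)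
    (hq : aeval q F = 0) (htd : n ≤ td k q) : Gen F q := by
  have h1 : Ideal.span {F} ≤ RingHom.ker (aeval q : MvPolynomial (Fin (n + 1)) k →ₐ[k] Ω) := by
    rw [Ideal.span_singleton_le_iff_mem]
    exact hq
  have h2 : Ideal.span {F} = RingHom.ker (aeval q : MvPolynomial (Fin (n + 1)) k →ₐ[k] Ω) := by
    by_contra hne
    have h3 := TG_lt F hF0 hp q (lt_of_le_of_ne h1 hne)
    omega
  intro G
  rw [← Ideal.mem_span_singleton, h2]
  exact Iff.rfl

theorem gen_td_lt {k : Type} [Field k] {n : ℕ} (F : MvPolynomial (Fin (n + 1)) k) (hF0 : F ≠ 0)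
    [hp : (Ideal.span {F}).IsPrime] {Ω : Type} [Field Ω] [Algebra k Ω] (q : Fin (n + 1) → Ω)
    (Q₁ Q₂ : Ideal (MvPolynomial (Fin (n + 1)) k)) (h₁ : Q₁.IsPrime) (h₂ : Q₂.IsPrime)
    (h01 : Ideal.span {F} < Q₁) (h12 : Q₁ < Q₂)
    (h2q : Q₂ ≤ RingHom.ker (aeval q : MvPolynomial (Fin (n + 1)) k →ₐ[k] Ω)) :
    td k q + 2 ≤ n := by
  obtain ⟨K, _, _, y, hy⟩ := TG_pt Q₁ h₁
  have h1 : td k y + 1 ≤ n := TG_lt F hF0 hp y (by rw [hy]; exact h01)
  have h2 : RingHom.ker (aeval y : MvPolynomial (Fin (n + 1)) k →ₐ[k] K) <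
      RingHom.ker (aeval q : MvPolynomial (Fin (n + 1)) k →ₐ[k] Ω) := by
    rw [hy]
    exact h12.trans_le h2q
  have h3 := td_chain y q h2
  omega

theorem gen_td_lt_one {k : Type} [Field k] {n : ℕ} (F : MvPolynomial (Fin (n + 1)) k) (hF0 : F ≠ 0)
    [hp : (Ideal.span {F}).IsPrime] {Ω : Type} [Field Ω] [Algebra k Ω] (q : Fin (n + 1) → Ω)
    (hq : aeval q F = 0) (G : MvPolynomial (Fin (n + 1)) k) (hG : ¬ F ∣ G) (hGq : aeval q G = 0) :
    td k q + 1 ≤ n := by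
  refine TG_lt F hF0 hp q (lt_of_le_of_ne ?_ ?_)
  · rw [Ideal.span_singleton_le_iff_mem]
    exact hq
  · intro h
    apply hG
    rw [← Ideal.mem_span_singleton, h]
    exact hGq

end Q9
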