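import Pool.Agent.LibQ9.S0

/-!
[Q9 W4a] (MEDIUM; may cite S0, P8 `spec` as stated) `VF` descends to the algebraically closed base field.

PLAN. `F' = map (algebraMap k κ) F`, `x' = x` over `κ`; `grad F' x' v = grad F x' v` (`aeval` of a mapped polynomial), `Free F' d γ ↔ Free F d γ` for curves over `κ` (T0 `free_bc`; or unfold). Let `N` be the dimension of `ker (grad F x ·)` in `k^(n+1)`: `n` or `n + 1` (gradient `≠ 0` or `= 0`), the same over `κ`. `VF F' x'`: `Dir F' x'` spans this kernel, so it contains `N` linearly independent elements `vc (γ i) 1`, `i : Fin N`, `γ i` free of degree `d i` over `κ` with value `x'` at `0`; some `N × N` minor (columns `J : Fin N → Fin (n+1)`) is `≠ 0`. Let `z` be the finite family of all coefficients of the `γ i`,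
of vectors `a_ij` with `grad F (γ i) a_ij = X^j`, `j < n d_i`, and of the minor. P8 `spec` gives `φ`; the images of the `γ i` are free curves over `k` through `x` (coefficients `x i ∈ k` are fixed) and their directions have a nonzero `N × N` minor, so they are linearly independent, in the kernel (S0 `dir_sub`) of dimension `N`: they span it. (Technique as in S0 `spec_free`, S2b `teeth_spec`; see Q9_S2b.lean in the store.)
-/

set_option autoImplicit false

namespace Q9

open Polynomial

private theorem W4a_lift {k : Type} [Field k] {κ : Type} [Field κ] [Algebra k κ]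
    (B : Subalgebra k κ) {J : Type} (P : J → κ[X]) (h : ∀ j m, (P j).coeff m ∈ B) :
    ∃ P' : J → B[X], ∀ j, mapAlgHom B.val (P' j) = P j := by
  have h2 : ∀ j, ∃ p : B[X], mapAlgHom B.val p = P j := by
    intro j
    have h3 : P j ∈ Polynomial.lifts (B.val : B →+* κ) := by
      rw [Polynomial.lifts_iff_coeff_lifts]
      intro m
      exact ⟨⟨_, h j m⟩, rfl⟩
    obtain ⟨p, hp⟩ := (Polynomial.mem_lifts _).1 h3
    exact ⟨p, hp⟩
  choose P' hP' using h2
  exact ⟨P', hP'⟩

private theorem W4a_grad {k : Type} [Field k] {m : ℕ} (F : MvPolynomial (Fin m) k) {S S' : Type}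
    [CommRing S] [Algebra k S] [CommRing S'] [Algebra k S'] (σ : S →ₐ[k] S') (x w : Fin m → S) :
    σ (grad F x w) = grad F (fun i => σ (x i)) (fun i => σ (w i)) := by
  unfold grad
  rw [map_sum]
  refine Finset.sum_congr rfl fun i _ => ?_
  rw [map_mul, MvPolynomial.comp_aeval_apply]

private theorem W4a_grad_sum {k : Type} [Field k] {m : ℕ} (F : MvPolynomial (Fin m) k) {S : Type}
    [CommRing S] [Algebra k S] (x : Fin m → S) {J : Type} [Fintype J] (c : J → S)
    (a : J → Fin m → S) :
    grad F x (fun i => ∑ j, c j * a j i) = ∑ j, c j * grad F x (a j) := by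
  unfold grad
  simp only [Finset.mul_sum]
  rw [Finset.sum_comm]
  refine Finset.sum_congr rfl fun j _ => Finset.sum_congr rfl fun i _ => ?_
  ring

private theorem W4a_sum {k : Type} [Field k] (N : ℕ) (f : k[X]) (hf : f.degree < (N : ℕ)) :
    f = ∑ j : Fin N, C (f.coeff j) * X ^ (j : ℕ) := by
  ext m
  rw [Polynomial.finsetSum_coeff]
  simp only [coeff_C_mul, coeff_X_pow]
  by_cases hm : m < N
  · rw [Finset.sum_eq_single (⟨m, hm⟩ : Fin N)]
    · simp
    · intro b _ hb
      rw [if_neg, mul_zero]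
      intro h
      exact hb (Fin.ext h.symm)
    · intro h
      exact absurd (Finset.mem_univ _) h
  · rw [coeff_eq_zero_of_degree_lt (lt_of_lt_of_le hf (by exact_mod_cast not_lt.1 hm))]
    refine (Finset.sum_eq_zero fun b _ => ?_).symm
    rw [if_neg, mul_zero]
    intro h
    exact hm (h ▸ b.2)

private theorem W4a_deg {k : Type} [Field k] (N : ℕ) {J : Type} [Fintype J] (c : J → k)
    (a : J → k[X]) (ha : ∀ j, (a j).degree < (N : ℕ)) : (∑ j, C (c j) * a j).degree < (N : ℕ) := by
  rw [← mem_degreeLT]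
  refine Submodule.sum_mem _ fun j _ => ?_
  rw [← smul_eq_C_mul]
  exact Submodule.smul_mem _ _ (mem_degreeLT.2 (ha j))

private theorem W4a_free {k : Type} [Field k] {n : ℕ} (F : MvPolynomial (Fin (n + 1)) k)
    {κ : Type} [Field κ] [Algebra k κ] (d : ℕ) (γ : Fin (n + 1) → κ[X]) (h : Free F d γ)
    (a : Fin (n * d) → Fin (n + 1) → κ[X]) (ha : ∀ j i, (a j i).degree < (d : ℕ))
    (haX : ∀ j : Fin (n * d), grad F γ (a j) = X ^ (j : ℕ)) (B : Subalgebra k κ) (φ : B →ₐ[k] k)
    (γ' : Fin (n + 1) → B[X]) (hγ' : ∀ i, mapAlgHom B.val (γ' i) = γ i)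
    (a' : Fin (n * d) → Fin (n + 1) → B[X]) (ha' : ∀ j i, mapAlgHom B.val (a' j i) = a j i) :
    Free F d (fun i => mapAlgHom φ (γ' i)) := by
  obtain ⟨hd, ⟨hγd, hγF⟩, -⟩ := h
  have hval : Function.Injective (B.val : B →+* κ) := Subtype.val_injective
  have hinj : Function.Injective (mapAlgHom B.val : B[X] →ₐ[k] κ[X]) :=
    Polynomial.map_injective _ hval
  have hdeg : ∀ (p : B[X]) (q : κ[X]), mapAlgHom B.val p = q →
      (mapAlgHom φ p).degree ≤ q.degree := by
    intro p q hpq
    rw [← hpq]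
    have h1 : (mapAlgHom B.val p).degree = p.degree :=
      Polynomial.degree_map_eq_of_injective hval _
    rw [h1]
    exact Polynomial.degree_map_le
  have hψX : ∀ m : ℕ, mapAlgHom B.val (X ^ m : B[X]) = X ^ m := by
    intro m
    rw [map_pow]
    congr 1
    exact Polynomial.map_X _
  have hχX : ∀ m : ℕ, mapAlgHom φ (X ^ m : B[X]) = X ^ m := by
    intro m
    rw [map_pow]
    congr 1
    exact Polynomial.map_X _
  have hγe : (fun i => mapAlgHom B.val (γ' i)) = γ := funext hγ'
  have e0 : MvPolynomial.aeval γ' F = 0 := by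
    apply hinj
    rw [MvPolynomial.comp_aeval_apply, map_zero, hγe, hγF]
  have e1 : ∀ j : Fin (n * d), grad F γ' (a' j) = X ^ (j : ℕ) := by
    intro j
    apply hinj
    have h2 : (fun i => mapAlgHom B.val (a' j i)) = a j := funext (ha' j)
    rw [W4a_grad, hψX, hγe, h2, haX]
  have f1 : ∀ j : Fin (n * d), grad F (fun i => mapAlgHom φ (γ' i))
      (fun i => mapAlgHom φ (a' j i)) = X ^ (j : ℕ) := by
    intro j
    have h1 := congrArg (mapAlgHom φ) (e1 j)
    rwa [W4a_grad, hχX] at h1
  refine ⟨hd, ⟨fun i => ?_, ?_⟩, fun f hf => ?_⟩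
  · refine Polynomial.natDegree_le_iff_degree_le.2 ?_
    exact (hdeg _ _ (hγ' i)).trans (Polynomial.natDegree_le_iff_degree_le.1 (hγd i))
  · have h1 := congrArg (mapAlgHom φ) e0
    rwa [MvPolynomial.comp_aeval_apply, map_zero] at h1
  · refine ⟨fun i => ∑ j : Fin (n * d), C (f.coeff j) * mapAlgHom φ (a' j i), fun i => ?_, ?_⟩
    · exact W4a_deg d (fun j : Fin (n * d) => f.coeff j) (fun j => mapAlgHom φ (a' j i))
        (fun j => lt_of_le_of_lt (hdeg _ _ (ha' j i)) (ha j i))
    · rw [W4a_grad_sum]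
      conv_rhs => rw [W4a_sum (n * d) f hf]
      refine Finset.sum_congr rfl fun j _ => ?_
      rw [f1]

private theorem W4a_aeval {k : Type} [Field k] {m : ℕ} (F : MvPolynomial (Fin m) k) {κ : Type}
    [Field κ] [Algebra k κ] {S : Type} [CommRing S] [Algebra k S] [Algebra κ S]
    [IsScalarTower k κ S] (x : Fin m → S) :
    MvPolynomial.aeval x (MvPolynomial.map (algebraMap k κ) F) = MvPolynomial.aeval x F :=
  MvPolynomial.aeval_map_algebraMap κ x F

private theorem W4a_bcgrad {k : Type} [Field k] {m : ℕ} (F : MvPolynomial (Fin m) k) {κ : Type}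
    [Field κ] [Algebra k κ] {S : Type} [CommRing S] [Algebra k S] [Algebra κ S]
    [IsScalarTower k κ S] (x w : Fin m → S) :
    grad (MvPolynomial.map (algebraMap k κ) F) x w = grad F x w := by
  unfold grad
  refine Finset.sum_congr rfl fun i _ => ?_
  rw [MvPolynomial.pderiv_map, W4a_aeval]

private theorem W4a_freebc {k : Type} [Field k] {n : ℕ} (F : MvPolynomial (Fin (n + 1)) k)
    {κ : Type} [Field κ] [Algebra k κ] (d : ℕ) (γ : Fin (n + 1) → κ[X])
    (h : Free (MvPolynomial.map (algebraMap k κ) F) d γ) : Free F d γ := by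
  obtain ⟨hd, ⟨h1, h2⟩, h3⟩ := h
  refine ⟨hd, ⟨h1, ?_⟩, fun f hf => ?_⟩
  · rwa [W4a_aeval] at h2
  · obtain ⟨a, ha, hg⟩ := h3 f hf
    exact ⟨a, ha, by rwa [W4a_bcgrad] at hg⟩

theorem vf_descend {k : Type} [Field k] [IsAlgClosed k] {n : ℕ} (hn : 2 ≤ n)
    (F : MvPolynomial (Fin (n + 1)) k) {κ : Type} [Field κ] [Algebra k κ] (x : Fin (n + 1) → k)
    (h : VF (MvPolynomial.map (algebraMap k κ) F) (fun i => algebraMap k κ (x i))) : VF F x := by
  classical
  intro v hv
  have hv' : grad (MvPolynomial.map (algebraMap k κ) F) (fun i => algebraMap k κ (x i))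
      (fun i => algebraMap k κ (v i)) = 0 := by
    rw [W4a_bcgrad]
    have h1 := W4a_grad F (Algebra.ofId k κ) x v
    rw [hv, map_zero] at h1
    exact h1.symm
  obtain ⟨m, c, w, hw⟩ := Submodule.mem_span_set'.1 (h _ hv')
  choose d γ hγ' h0 h1 using fun j => (w j).2
  have hγ : ∀ j, Free F (d j) (γ j) := fun j => W4a_freebc F _ _ (hγ' j)
  have hXdeg : ∀ (N : ℕ) (j : Fin N), (X ^ (j : ℕ) : Polynomial κ).degree < (N : ℕ) := by
    intro N j
    rw [degree_X_pow]
    exact_mod_cast j.2
  choose a ha haX using fun (i : Fin m) (j : Fin (n * d i)) =>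
    (hγ i).2.2 (X ^ (j : ℕ)) (hXdeg (n * d i) j)
  let J : Type := (Fin m × Fin (n + 1)) ⊕ (Σ i : Fin m, Fin (n * d i) × Fin (n + 1))
  let P : J → Polynomial κ := Sum.elim (fun x => γ x.1 x.2) (fun x => a x.1 x.2.1 x.2.2)
  obtain ⟨N, hN⟩ : ∃ N : ℕ, ∀ j, (P j).natDegree < N := by
    obtain ⟨N, hN⟩ := (Set.finite_range (fun j => (P j).natDegree)).bddAbove
    exact ⟨N + 1, fun j => Nat.lt_succ_of_le (hN ⟨j, rfl⟩)⟩
  let z : (J × Fin N) ⊕ Fin m → κ := Sum.elim (fun x => (P x.1).coeff x.2) c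
  obtain ⟨φ, -⟩ := spec (k := k) z
  have hmem : ∀ j r, (P j).coeff r ∈ Algebra.adjoin k (Set.range z) := by
    intro j r
    by_cases hr : r < N
    · exact Algebra.subset_adjoin ⟨Sum.inl (j, ⟨r, hr⟩), rfl⟩
    · rw [coeff_eq_zero_of_natDegree_lt (lt_of_lt_of_le (hN j) (not_lt.1 hr))]
      exact Subalgebra.zero_mem _
  obtain ⟨P', hP'⟩ := W4a_lift (Algebra.adjoin k (Set.range z)) P hmem
  have hval : Function.Injective (Algebra.adjoin k (Set.range z)).val :=
    Subtype.val_injective
  have hcv : ∀ j r, (Algebra.adjoin k (Set.range z)).val ((P' j).coeff r) =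
      (P j).coeff r := by
    intro j r
    rw [← hP' j]
    exact (Polynomial.coeff_map _ _).symm
  let c' : Fin m → Algebra.adjoin k (Set.range z) := fun i =>
    ⟨c i, Algebra.subset_adjoin ⟨Sum.inr i, rfl⟩⟩
  have hcφ : ∀ j r, (mapAlgHom φ (P' j)).coeff r = φ ((P' j).coeff r) :=
    fun j r => Polynomial.coeff_map _ _
  have hdir : ∀ i, vc (fun a => mapAlgHom φ (P' (Sum.inl (i, a)))) 1 ∈ Dir F x := by
    intro i
    refine ⟨d i, fun a => mapAlgHom φ (P' (Sum.inl (i, a))), ?_, ?_, rfl⟩
    · exact W4a_free F (d i) (γ i) (hγ i) (a i) (ha i) (haX i) _ φ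
        (fun c => P' (Sum.inl (i, c))) (fun c => hP' _)
        (fun j c => P' (Sum.inr ⟨i, (j, c)⟩)) (fun j c => hP' _)
    · funext b
      have h2 : (P' (Sum.inl (i, b))).coeff 0 =
          algebraMap k (Algebra.adjoin k (Set.range z)) (x b) := by
        apply hval
        rw [hcv]
        exact congrFun (h0 i) b
      change (mapAlgHom φ (P' (Sum.inl (i, b)))).coeff 0 = x b
      rw [hcφ, h2, AlgHom.commutes]
      rfl
  have hv2 : v = ∑ i, φ (c' i) • vc (fun a => mapAlgHom φ (P' (Sum.inl (i, a)))) 1 := by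
    funext b
    have h2 : (algebraMap k (Algebra.adjoin k (Set.range z)) (v b)) =
        ∑ i, c' i * (P' (Sum.inl (i, b))).coeff 1 := by
      apply hval
      rw [map_sum]
      have h3 := congrFun hw b
      rw [Finset.sum_apply] at h3
      change algebraMap k κ (v b) = _
      rw [← h3]
      refine Finset.sum_congr rfl fun i _ => ?_
      rw [map_mul, hcv]
      change c i * (w i : Fin (n + 1) → κ) b = c i * (γ i b).coeff 1
      rw [← h1 i]
      rfl
    have h4 := congrArg φ h2
    rw [AlgHom.commutes, map_sum] at h4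
    rw [Finset.sum_apply]
    refine Eq.trans h4 (Finset.sum_congr rfl fun i _ => ?_)
    rw [map_mul]
    change _ = φ (c' i) * (mapAlgHom φ (P' (Sum.inl (i, b)))).coeff 1
    rw [hcφ]
  rw [hv2]
  exact Submodule.sum_mem _ fun i _ => Submodule.smul_mem _ _ (Submodule.subset_span (hdir i))

end Q9
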