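import Pool.Agent.LibQ9.SFin
import Pool.Agent.LibQ9.S5
import Pool.Agent.LibQ9.S6
import Pool.Agent.LibQ9.S7b
import Pool.Agent.LibQ9.TG
import Pool.Agent.LibQ9.B4
import Pool.Agent.LibQ9.P7
import Pool.Agent.LibQ9.W4a

/-!
[Q9 W4b] (SHORT/MEDIUM; may cite SFin, W4a and everything cited in SFin as stated) `VF` at every point; a very free curve through every point.

PLAN. `vf_all`: the proof of SFin `free_through` (see Q9_SFin.lean in the store) up to the point where it shows `VF F' x` over `κ`; then W4a `vf_descend` instead of `free_transfer`. `very_free_through`: SFin `free_through` gives a free curve `g` of degree `d` with `vc g 0 = x`; `g' = rv d g` (B3 `Free.rv`) is free with `vc g' d = x`, primitive (B2 `Free.span`); for every `b` the point `ve g' b` is `≠ 0` (S5 `span_top_iff`) and on `F = 0`, so `VF F (ve g' b)` by `vf_all`. S4b `very_free_inf` (`T = ∅`): very free `γ` with `vc γ e = vc g' d = x`; reverse it (B3 `Free.rv`,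 `Cor.rv`).
-/

set_option autoImplicit false

namespace Q9

open Polynomial

private theorem W4b_prod {κ : Type} [Field κ] {n : ℕ} (d : ℕ) (γ : Fin (n + 1) → κ[X])
    (hγ : ∀ i, (γ i).natDegree ≤ d) (m : Fin (n + 1) → ℕ) (s : Finset (Fin (n + 1))) :
    (∏ i ∈ s, γ i ^ m i).natDegree ≤ (∑ i ∈ s, m i) * d ∧
      (∏ i ∈ s, γ i ^ m i).coeff ((∑ i ∈ s, m i) * d) = ∏ i ∈ s, (γ i).coeff d ^ m i := by
  classical
  induction s using Finset.induction_on with
  | empty => simp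
  | insert a s ha ih =>
    have h1 : (γ a ^ m a).natDegree ≤ m a * d :=
      natDegree_pow_le.trans (Nat.mul_le_mul_left _ (hγ a))
    rw [Finset.prod_insert ha, Finset.sum_insert ha, Finset.prod_insert ha, add_mul]
    refine ⟨natDegree_mul_le.trans (add_le_add h1 ih.1), ?_⟩
    rw [coeff_mul_add_eq_of_natDegree_le h1 ih.1, ih.2, coeff_pow_of_natDegree_le (hγ a)]

private theorem W4b_top {k : Type} [Field k] {n : ℕ} (F : MvPolynomial (Fin (n + 1)) k)
    (hF : F.IsHomogeneous n) {κ : Type} [Field κ] [Algebra k κ] (d : ℕ) (γ : Fin (n + 1) → κ[X])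
    (hγ : ∀ i, (γ i).natDegree ≤ d) :
    (MvPolynomial.aeval γ F).coeff (n * d) = MvPolynomial.aeval (vc γ d) F := by
  rw [MvPolynomial.aeval_def, MvPolynomial.aeval_def, MvPolynomial.eval₂_eq', MvPolynomial.eval₂_eq',
    finsetSum_coeff]
  refine Finset.sum_congr rfl fun m hm => ?_
  have hdeg : ∑ i, m i = n := by
    have h1 : Finsupp.weight (fun _ : Fin (n + 1) => 1) m = n := hF (MvPolynomial.mem_support_iff.1 hm)
    rw [← Finsupp.degree_eq_weight_one, Finsupp.degree_eq_sum] at h1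
    exact h1
  have h2 := (W4b_prod d γ hγ m Finset.univ).2
  rw [hdeg] at h2
  rw [show algebraMap k κ[X] (MvPolynomial.coeff m F) = C (algebraMap k κ (MvPolynomial.coeff m F)) from rfl,
    coeff_C_mul, h2]
  rfl

theorem vf_all {k : Type} [Field k] [IsAlgClosed k] {n : ℕ} (hn : 2 ≤ n)
    (F : MvPolynomial (Fin (n + 1)) k) (hF : F.IsHomogeneous n) (hs : Smooth F)
    (h : ∃ (d : ℕ) (γ : Fin (n + 1) → k[X]), Free F d γ ∧ Cor F d γ 0)
    (x : Fin (n + 1) → k) (hx : x ≠ 0) (hx0 : MvPolynomial.aeval x F = 0) : VF F x := by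
  have hF0 : F ≠ 0 := by
    rintro rfl
    have h1 : (fun _ : Fin (n + 1) => (1 : k)) = 0 := hs _ fun i => by simp
    exact one_ne_zero (congrFun h1 0)
  have hp : (Ideal.span {F}).IsPrime := prime_of_smooth hn F hF hs
  obtain ⟨d, γ₀, h₀, hc₀⟩ := h
  have hq : vc γ₀ 0 ≠ 0 := Free.zero_ne F hn hF h₀
  obtain ⟨Ω, _, _, γ, hcl, hγ, h0, htd⟩ := generic_far hn F hF d γ₀ h₀ hc₀
  have htop : MvPolynomial.aeval (vc γ d) F = 0 := by
    rw [← W4b_top F hF d γ hγ.1, hγ.2, coeff_zero]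
  have hgen : Gen F (vc γ d) := gen_of_td F hF0 _ htop htd
  obtain ⟨κ, _, _, m₁, m₂, m₃, p₁, p₂, c₁, c₂, hclκ, hc₁, hc₂, hp₁, hp₂, hch₁, hcur, hch₃⟩ :=
    chain_to F hF d γ hγ (vc γ₀ 0) x hq hx hx0 h0 hgen
  have hF' : (MvPolynomial.map (algebraMap k κ) F).IsHomogeneous n := hF.map _
  have hs' : Smooth (MvPolynomial.map (algebraMap k κ) F) := by
    intro y hy
    refine (sm_bc F (κ := κ) (sm_of_smooth F hs)).zero y fun i => ?_
    exact hy i
  have hf1 : Free F d (mp ((Algebra.ofId k κ : k →ₐ[k] κ) : k →+* κ) γ₀) := Free.map F _ h₀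
  have hc1 : Cor F d (mp ((Algebra.ofId k κ : k →ₐ[k] κ) : k →+* κ) γ₀) 0 := Cor.map F _ hc₀
  have hv0 := vf_of_very_free hn (MvPolynomial.map (algebraMap k κ) F) hF' d _
    ((free_bc F (κ := κ) (Ω := κ) d _).2 hf1) ((cor_bc F (κ := κ) (Ω := κ) d 0 _).2 hc1)
  have hvq : vc (mp ((Algebra.ofId k κ : k →ₐ[k] κ) : k →+* κ) γ₀) 0 =
      fun i => algebraMap k κ (vc γ₀ 0 i) := by
    funext i
    show ((γ₀ i).map _).coeff 0 = _
    rw [coeff_map]
    rfl
  rw [hvq] at hv0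
  have hv1 : VF (MvPolynomial.map (algebraMap k κ) F) (fun i => c₁ * algebraMap k κ (vc γ₀ 0 i)) :=
    vf_smul _ hF' _ hv0 c₁ hc₁
  have hv2 := (chain_vf hn _ hF' hs' m₁ p₁ _ hch₁).2 hv1
  have hv3 := (curve_vf hn _ hF' hs' m₂ p₂ p₁ hp₂ hp₁ hcur).2 hv2
  have hv4 := (chain_vf hn _ hF' hs' m₃ p₂ _ hch₃).1 hv3
  have hv5 := vf_smul _ hF' _ hv4 c₂⁻¹ (inv_ne_zero hc₂)
  have hxx : (c₂⁻¹ • fun i => c₂ * algebraMap k κ (x i)) = fun i => algebraMap k κ (x i) := by
    funext i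
    show c₂⁻¹ * (c₂ * algebraMap k κ (x i)) = _
    rw [← mul_assoc, inv_mul_cancel₀ hc₂, one_mul]
  rw [hxx] at hv5
  exact vf_descend hn F x hv5

theorem very_free_through {k : Type} [Field k] [IsAlgClosed k] {n : ℕ} (hn : 2 ≤ n)
    (F : MvPolynomial (Fin (n + 1)) k) (hF : F.IsHomogeneous n) (hs : Smooth F)
    (h : ∃ (d : ℕ) (γ : Fin (n + 1) → k[X]), Free F d γ ∧ Cor F d γ 0)
    (x : Fin (n + 1) → k) (hx : x ≠ 0) (hx0 : MvPolynomial.aeval x F = 0) :
    ∃ (d : ℕ) (γ : Fin (n + 1) → k[X]), Free F d γ ∧ Cor F d γ 0 ∧ vc γ 0 = x := by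
  obtain ⟨d, g, hg, hg0⟩ := free_through hn F hF hs h x hx hx0
  have hg' : Free F d (rv d g) := Free.rv F hn hF hg
  have hlead : vc (rv d g) d = x := by
    rw [← hg0]
    funext i
    show ((g i).reflect d).coeff d = (g i).coeff 0
    rw [coeff_reflect, revAt_le le_rfl, Nat.sub_self]
  have hprim : Ideal.span (Set.range (rv d g)) = ⊤ := Free.span F hn hF hg'
  have hV : ∀ b, VF F (ve (rv d g) b) := by
    intro b
    refine vf_all hn F hF hs h _ ((span_top_iff _).1 hprim b) ?_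
    have h1 : MvPolynomial.aeval (ve (rv d g) b) F =
        (MvPolynomial.aeval (rv d g) F).eval b := by
      have h2 := MvPolynomial.comp_aeval_apply (R := k) (rv d g) (Polynomial.aeval b) F
      rw [Polynomial.coe_aeval_eq_eval] at h2
      rw [h2]
      rfl
    rw [h1, hg'.2.1.2, eval_zero]
  obtain ⟨e, γ, hγ, hc, hγe⟩ := very_free_inf hn F hF (sm_of_smooth F hs) d hg'.1 (rv d g) hg'.2.1
    hprim (by rw [hlead]; exact hx) ⟨∅, fun b _ => hV b⟩
  refine ⟨e, rv e γ, Free.rv F hn hF hγ, Cor.rv F hn hF hγ.1 hγ.2.1 hc, ?_⟩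
  rw [← hlead, ← hγe]
  funext i
  show ((γ i).reflect e).coeff 0 = (γ i).coeff e
  rw [coeff_reflect, revAt_le (Nat.zero_le e), Nat.sub_zero]

end Q9
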