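import Pool.Agent.LibQ9.T0
import Pool.Agent.LibQ9.TG
import Pool.Agent.LibQ9.P3
import Pool.Agent.LibQ9.P4
import Pool.Agent.LibQ9.P5
import Pool.Agent.LibQ9.B2
import Pool.Agent.LibQ9.B5

/-!
[Q9 T5] (MEDIUM; may cite T0, TG, P2, P3, P4, P5, B2, B5 as stated) A generic free curve: all its points have transcendence degree `≥ n - 1`, the points with parameter in `k` and at infinity are generic.

PLAN. System `eqA F d`, `z₀ = cf d γ₀`, P3 with `r = n + d` (`(n+1)(d+1) = nd + 1 + n + d`): `Ω`, `z`, `td z ≥ n + d`, `γ = lin (d+1) z` on `F`, free, `Cor s` (T0, B5). For `t ∈ Ω` let `z' : Option (..) → Ω` be the family `z, t`; `td z' ≥ td z ≥ n + d` (P2 `td_mono`), `q = γ(t)` (`q i = (γ i).eval t ∈ fld k z'`). A derivation `D : fld k z' → Ω` killing the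
`q i` gives `δ = D z`, `c = D t` with `grad F γ (lin δ) = 0` (P5 `der_rel` for `eqA`, T0 `eqA_deriv`; all coefficients, degree `≤ nd`) and `lin δ (t) + c γ'(t) = 0`. The space `M` of such `(δ, c)` has dimension `≤ d + 1`: project to `c`; the kernel is `{δ : grad F γ (lin δ) = 0, lin δ (t) = 0}`; the evaluation of `E = {δ : grad F γ (lin δ) = 0}` (dimension `n + d`, B2 `span_le`)
at `t` is onto `ker grad F (γ(t))` (dimension `n`, as `∇F(γ(t)) ≠ 0` by B2 `span_grad`): given `w` there, `grad F γ (C w) = (X - C t) f`, `deg f < nd`, `f = grad F γ a`, `deg a < d` (free), take `C w - (X - C t) a`. So `td z' ≤ td q + d + 1` (P4), `td q ≥ n - 1`. For `t = algebraMap c`, `c ∈ k`: the family `z` itself, `D t = 0`: `M` of dimension `≤ d`, `td q ≥ n`, so `Gen` by TG (`F(γ(t)) = 0`).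
For infinity: `q = vc γ d`, derivations killing it: `δ ∈ E` with leading coefficients `0`, evaluation of `E` at infinity is onto as well (`grad F γ (C w X^d)` has degree `< nd` for `w` in the kernel of `grad F (vc γ d)`; `∇F(vc γ d) ≠ 0`), so `td (vc γ d) ≥ n`.
-/

set_option autoImplicit false

namespace Q9

open Polynomial

section aux

variable {k : Type} [Field k] {n : ℕ} (F : MvPolynomial (Fin (n + 1)) k) {κ : Type} [Field κ]
  [Algebra k κ]

private theorem T5_prod {d : ℕ} {γ : Fin (n + 1) → κ[X]} (h : ∀ i, (γ i).natDegree ≤ d)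
    (s : Fin (n + 1) →₀ ℕ) (T : Finset (Fin (n + 1))) :
    (∏ i ∈ T, γ i ^ s i).natDegree ≤ (∑ i ∈ T, s i) * d ∧
      (∏ i ∈ T, γ i ^ s i).coeff ((∑ i ∈ T, s i) * d) = ∏ i ∈ T, (γ i).coeff d ^ s i := by
  classical
  induction T using Finset.induction_on with
  | empty => simp
  | insert j T hj ih =>
    rw [Finset.prod_insert hj, Finset.sum_insert hj, Finset.prod_insert hj, add_mul]
    have h1 : (γ j ^ s j).natDegree ≤ s j * d :=
      natDegree_pow_le.trans (Nat.mul_le_mul_left _ (h j))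
    refine ⟨natDegree_mul_le.trans (Nat.add_le_add h1 ih.1), ?_⟩
    rw [coeff_mul_add_eq_of_natDegree_le h1 ih.1, ih.2, coeff_pow_of_natDegree_le (h j)]

private theorem T5_sum {m : ℕ} {P : MvPolynomial (Fin (n + 1)) k} (hP : P.IsHomogeneous m)
    {s : Fin (n + 1) →₀ ℕ} (hs : s ∈ P.support) : ∑ i, s i = m := by
  have h := hP (MvPolynomial.mem_support_iff.1 hs)
  rw [← h, Finsupp.weight_apply, Finsupp.sum_fintype _ _ (fun i => by simp)]
  simp

private theorem T5_form {d m : ℕ} {P : MvPolynomial (Fin (n + 1)) k} (hP : P.IsHomogeneous m)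
    {γ : Fin (n + 1) → κ[X]} (h : ∀ i, (γ i).natDegree ≤ d) :
    (MvPolynomial.aeval γ P).natDegree ≤ m * d ∧
      (MvPolynomial.aeval γ P).coeff (m * d) = MvPolynomial.aeval (vc γ d) P := by
  rw [MvPolynomial.aeval_def, MvPolynomial.aeval_def, MvPolynomial.eval₂_eq',
    MvPolynomial.eval₂_eq']
  constructor
  · refine natDegree_sum_le_of_forall_le _ _ fun s hs => ?_
    have h1 := (T5_prod h s Finset.univ).1
    rw [T5_sum hP hs] at h1
    refine natDegree_mul_le.trans ?_
    rw [IsScalarTower.algebraMap_apply k κ κ[X], algebraMap_eq, natDegree_C, zero_add]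
    exact h1
  · rw [finsetSum_coeff]
    refine Finset.sum_congr rfl fun s hs => ?_
    have h1 := (T5_prod h s Finset.univ).2
    rw [T5_sum hP hs] at h1
    rw [IsScalarTower.algebraMap_apply k κ κ[X], algebraMap_eq, coeff_C_mul, h1]
    rfl


private theorem T5_grad_add {S : Type} [CommRing S] [Algebra k S] (x a b : Fin (n + 1) → S) :
    grad F x (a + b) = grad F x a + grad F x b := by
  unfold grad
  rw [← Finset.sum_add_distrib]
  exact Finset.sum_congr rfl fun i _ => mul_add _ _ _

private theorem T5_grad_mul {S : Type} [CommRing S] [Algebra k S] (x a : Fin (n + 1) → S) (c : S) :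
    grad F x (fun i => c * a i) = c * grad F x a := by
  unfold grad
  rw [Finset.mul_sum]
  exact Finset.sum_congr rfl fun i _ => by ring

private theorem T5_grad_deg (hF : F.IsHomogeneous n) {d e : ℕ} {γ a : Fin (n + 1) → κ[X]}
    (hγ : ∀ i, (γ i).natDegree ≤ d) (ha : ∀ i, (a i).natDegree ≤ e) :
    (grad F γ a).natDegree ≤ (n - 1) * d + e := by
  unfold grad
  refine natDegree_sum_le_of_forall_le _ _ fun i _ => ?_
  exact natDegree_mul_le.trans (Nat.add_le_add (T5_form (hF.pderiv (i := i)) hγ).1 (ha i))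

private theorem T5_grad_top (hF : F.IsHomogeneous n) {d e : ℕ} {γ a : Fin (n + 1) → κ[X]}
    (hγ : ∀ i, (γ i).natDegree ≤ d) (ha : ∀ i, (a i).natDegree ≤ e) :
    (grad F γ a).coeff ((n - 1) * d + e) = grad F (vc γ d) (vc a e) := by
  unfold grad
  rw [finsetSum_coeff]
  refine Finset.sum_congr rfl fun i _ => ?_
  have h := T5_form (hF.pderiv (i := i)) hγ
  rw [coeff_mul_add_eq_of_natDegree_le h.1 (ha i), h.2]
  rfl

private theorem T5_grad_eval (γ a : Fin (n + 1) → κ[X]) (t : κ) :
    (grad F γ a).eval t = grad F (fun i => (γ i).eval t) (fun i => (a i).eval t) := by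
  unfold grad
  rw [eval_finsetSum]
  refine Finset.sum_congr rfl fun i _ => ?_
  rw [eval_mul]
  congr 1
  have h := MvPolynomial.comp_aeval_apply (R := k) γ (Polynomial.aeval t |>.restrictScalars k)
    (MvPolynomial.pderiv i F)
  simp only [AlgHom.coe_restrictScalars', coe_aeval_eq_eval] at h
  exact h

/-- linear algebra: two linear maps -/
private theorem T5_lin {V W U : Type} [AddCommGroup V] [Module κ V] [FiniteDimensional κ V]
    [AddCommGroup W] [Module κ W] [AddCommGroup U] [Module κ U]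
    [FiniteDimensional κ U] (A : V →ₗ[κ] W) (E : V →ₗ[κ] U) (R : Submodule κ W) (Q : Submodule κ U)
    (hR : R ≤ LinearMap.range A) (hQ : ∀ w ∈ Q, ∃ v, A v = 0 ∧ E v = w) (a b c : ℕ)
    (ha : a ≤ Module.finrank κ R) (hb : b ≤ Module.finrank κ Q)
    (hc : Module.finrank κ V ≤ a + b + c) :
    Module.finrank κ ↥(LinearMap.ker A ⊓ LinearMap.ker E) ≤ c := by
  have h1 : a ≤ Module.finrank κ (LinearMap.range A) := ha.trans (Submodule.finrank_mono hR)
  have h2 := A.finrank_range_add_finrank_ker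
  have h3 := (E.domRestrict (LinearMap.ker A)).finrank_range_add_finrank_ker
  have h4 : Q ≤ LinearMap.range (E.domRestrict (LinearMap.ker A)) := by
    intro w hw
    obtain ⟨v, hv, hvw⟩ := hQ w hw
    exact ⟨⟨v, hv⟩, hvw⟩
  have h5 : b ≤ Module.finrank κ (LinearMap.range (E.domRestrict (LinearMap.ker A))) :=
    hb.trans (Submodule.finrank_mono h4)
  have h6 : Module.finrank κ ↥(LinearMap.ker A ⊓ LinearMap.ker E) =
      Module.finrank κ (LinearMap.ker (E.domRestrict (LinearMap.ker A))) := by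
    have h7 : LinearMap.ker A ⊓ LinearMap.ker E =
        (LinearMap.ker (E.domRestrict (LinearMap.ker A))).map (LinearMap.ker A).subtype := by
      ext v
      constructor
      · rintro ⟨hv1, hv2⟩
        exact ⟨⟨v, hv1⟩, hv2, rfl⟩
      · rintro ⟨⟨v', hv1⟩, hv2, rfl⟩
        exact ⟨hv1, hv2⟩
    rw [h7, Submodule.finrank_map_subtype_eq]
  omega

/-- `δ ↦ ∇F(γ)·lin δ` -/
private noncomputable def T5_A (d : ℕ) (γ : Fin (n + 1) → κ[X]) :
    (Fin (n + 1) × Fin (d + 1) → κ) →ₗ[κ] κ[X] where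
  toFun δ := grad F γ (lin (d + 1) δ)
  map_add' δ ε := by
    have h : lin (d + 1) (δ + ε) = lin (d + 1) δ + lin (d + 1) ε := by
      funext i
      simp only [lin, Pi.add_apply, C_add, add_mul, Finset.sum_add_distrib]
    rw [h, T5_grad_add]
  map_smul' c δ := by
    have h : lin (d + 1) (c • δ) = fun i => C c * lin (d + 1) δ i := by
      funext i
      simp only [lin, Pi.smul_apply, smul_eq_mul, C_mul, Finset.mul_sum, mul_assoc]
    rw [h, T5_grad_mul, RingHom.id_apply, smul_eq_C_mul]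

/-- evaluation -/
private noncomputable def T5_E (n d : ℕ) (t : κ) :
    (Fin (n + 1) × Fin (d + 1) → κ) →ₗ[κ] (Fin (n + 1) → κ) where
  toFun δ := fun i => (lin (d + 1) δ i).eval t
  map_add' δ ε := by
    funext i
    simp only [lin, Pi.add_apply, C_add, add_mul, Finset.sum_add_distrib, eval_add]
  map_smul' c δ := by
    funext i
    simp only [lin, Pi.smul_apply, smul_eq_mul, C_mul, mul_assoc, RingHom.id_apply]
    rw [← Finset.mul_sum, eval_mul, eval_C]

/-- leading coefficients -/
private noncomputable def T5_L (n d : ℕ) :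
    (Fin (n + 1) × Fin (d + 1) → κ) →ₗ[κ] (Fin (n + 1) → κ) where
  toFun δ := fun i => δ (i, Fin.last d)
  map_add' _ _ := rfl
  map_smul' _ _ := rfl

private noncomputable def T5_N (q : Fin (n + 1) → κ) : (Fin (n + 1) → κ) →ₗ[κ] κ where
  toFun w := grad F q w
  map_add' δ ε := T5_grad_add F q δ ε
  map_smul' c δ := by
    have h : c • δ = fun i => c * δ i := rfl
    rw [h, T5_grad_mul, RingHom.id_apply, smul_eq_mul]

private theorem T5_N_ker (q : Fin (n + 1) → κ) :
    n ≤ Module.finrank κ (LinearMap.ker (T5_N F q)) := by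
  have h1 := (T5_N F q).finrank_range_add_finrank_ker
  have h2 : Module.finrank κ (LinearMap.range (T5_N F q)) ≤ 1 := by
    have := Submodule.finrank_le (LinearMap.range (T5_N F q))
    rwa [Module.finrank_self] at this
  rw [Module.finrank_fin_fun] at h1
  omega

private theorem T5_deg {N : ℕ} {f : κ[X]} (h : f.natDegree ≤ N) (hN : f.coeff N = 0) :
    f.degree < (N : ℕ) := by
  rw [degree_lt_iff_coeff_zero]
  intro m hm
  rcases Nat.lt_or_ge N m with h1 | h1
  · exact coeff_eq_zero_of_natDegree_lt (lt_of_le_of_lt h h1)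
  · have h2 : m = N := le_antisymm h1 hm
    rw [h2, hN]

variable {F}

private theorem T5_range (hn : 2 ≤ n) (hF : F.IsHomogeneous n) {d : ℕ} {γ : Fin (n + 1) → κ[X]}
    (h : Free F d γ) : degreeLT κ (n * d + 1) ≤ LinearMap.range (T5_A F d γ) := by
  intro f hf
  rw [mem_degreeLT] at hf
  have h1 : f.natDegree ≤ n * d := by
    rcases eq_or_ne f 0 with rfl | h0
    · simp
    · rw [degree_eq_natDegree h0] at hf
      have : f.natDegree < n * d + 1 := by exact_mod_cast hf
      omega
  obtain ⟨a, ha, hg⟩ := Free.span_le F hn hF h f h1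
  refine ⟨cf d a, ?_⟩
  change grad F γ (lin (d + 1) (cf d a)) = f
  rw [lin_cf d a ha, hg]

private theorem T5_range_rank (κ : Type) [Field κ] (N : ℕ) :
    N ≤ Module.finrank κ (degreeLT κ N) := by
  rw [(degreeLTEquiv κ N).finrank_eq, Module.finrank_fin_fun]

/-- evaluation at `t` is onto -/
private theorem T5_onto (hn : 2 ≤ n) (hF : F.IsHomogeneous n) {d : ℕ} {γ : Fin (n + 1) → κ[X]}
    (h : Free F d γ) (t : κ) (w : Fin (n + 1) → κ)
    (hw : w ∈ LinearMap.ker (T5_N F (fun i => (γ i).eval t))) :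
    ∃ δ, T5_A F d γ δ = 0 ∧ T5_E n d t δ = w := by
  have hd : 1 ≤ d := h.1
  obtain ⟨g, hg⟩ : ∃ g, g = grad F γ (fun i => C (w i)) := ⟨_, rfl⟩
  have h0 : g.eval t = 0 := by
    rw [hg, T5_grad_eval]
    simp only [eval_C]
    exact hw
  have hdeg : g.natDegree ≤ (n - 1) * d := by
    rw [hg]
    exact T5_grad_deg F hF h.2.1.1 (e := 0) (fun i => by simp)
  obtain ⟨f, hf⟩ := dvd_iff_isRoot.2 h0
  have hfd : f.degree < (n * d : ℕ) := by
    rcases eq_or_ne f 0 with rfl | hf0
    · rw [degree_zero]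
      exact WithBot.bot_lt_coe _
    · have h1 : g.natDegree = 1 + f.natDegree := by
        rw [hf, natDegree_mul (X_sub_C_ne_zero t) hf0, natDegree_X_sub_C]
      have h2 : (n - 1) * d ≤ n * d := Nat.mul_le_mul_right _ (Nat.sub_le _ _)
      rw [degree_eq_natDegree hf0]
      have h3 : f.natDegree < n * d := by omega
      exact_mod_cast h3
  obtain ⟨a, ha, hga⟩ := h.2.2 f hfd
  have ha' : ∀ i, (a i).natDegree + 1 ≤ d := by
    intro i
    rcases eq_or_ne (a i) 0 with h1 | h1
    · rw [h1, natDegree_zero]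
      omega
    · have h2 := ha i
      rw [degree_eq_natDegree h1] at h2
      have : (a i).natDegree < d := by exact_mod_cast h2
      omega
  obtain ⟨b, hb⟩ : ∃ b : Fin (n + 1) → κ[X], b = (fun i => C (w i)) + fun i => (C t - X) * a i :=
    ⟨_, rfl⟩
  have hbd : ∀ i, (b i).natDegree ≤ d := by
    intro i
    have h1 : (C t - X : κ[X]).natDegree ≤ 1 := by
      refine (natDegree_sub_le _ _).trans (max_le (by simp) (by simp))
    have h2 : ((C t - X) * a i).natDegree ≤ d := by
      refine natDegree_mul_le.trans ?_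
      have := ha' i
      omega
    rw [hb]
    exact (natDegree_add_le _ _).trans (max_le (by simp) h2)
  refine ⟨cf d b, ?_, ?_⟩
  · change grad F γ (lin (d + 1) (cf d b)) = 0
    rw [lin_cf d b hbd, hb, T5_grad_add, T5_grad_mul, hga, ← hg, hf]
    ring
  · funext i
    change (lin (d + 1) (cf d b) i).eval t = w i
    rw [lin_cf d b hbd, hb]
    simp

/-- the value at infinity is onto -/
private theorem T5_onto_inf (hn : 2 ≤ n) (hF : F.IsHomogeneous n) {d : ℕ} {γ : Fin (n + 1) → κ[X]}
    (h : Free F d γ) (w : Fin (n + 1) → κ) (hw : w ∈ LinearMap.ker (T5_N F (vc γ d))) :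
    ∃ δ, T5_A F d γ δ = 0 ∧ T5_L n d δ = w := by
  have hd : 1 ≤ d := h.1
  have hnd : (n - 1) * d + d = n * d := by
    obtain ⟨m, rfl⟩ : ∃ m, n = m + 1 := ⟨n - 1, by omega⟩
    simp only [Nat.add_sub_cancel]
    ring
  obtain ⟨m, hm⟩ : ∃ m : Fin (n + 1) → κ[X], m = fun i => C (w i) * X ^ d := ⟨_, rfl⟩
  have hmd : ∀ i, (m i).natDegree ≤ d := fun i => by
    rw [hm]
    exact natDegree_C_mul_X_pow_le _ _
  have hmv : vc m d = w := by
    funext i
    rw [hm]
    simp [vc]
  have h1 : (grad F γ m).natDegree ≤ n * d := by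
    rw [← hnd]
    exact T5_grad_deg F hF h.2.1.1 hmd
  have h2 : (grad F γ m).coeff (n * d) = 0 := by
    rw [← hnd, T5_grad_top F hF h.2.1.1 hmd, hmv]
    exact hw
  obtain ⟨a, ha, hga⟩ := h.2.2 _ (T5_deg h1 h2)
  have ha' : ∀ i, (a i).natDegree ≤ d ∧ (a i).coeff d = 0 := by
    intro i
    have h3 := (degree_lt_iff_coeff_zero _ _).1 (ha i)
    exact ⟨natDegree_le_iff_coeff_eq_zero.2 fun N hN => h3 N hN.le, h3 d le_rfl⟩
  obtain ⟨b, hb⟩ : ∃ b : Fin (n + 1) → κ[X], b = m + fun i => (-1) * a i := ⟨_, rfl⟩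
  have hbi : ∀ i, b i = m i - a i := by
    intro i
    rw [hb]
    change m i + (-1) * a i = m i - a i
    ring
  have hbd : ∀ i, (b i).natDegree ≤ d := by
    intro i
    rw [hbi]
    exact (natDegree_sub_le _ _).trans (max_le (hmd i) (ha' i).1)
  refine ⟨cf d b, ?_, ?_⟩
  · change grad F γ (lin (d + 1) (cf d b)) = 0
    rw [lin_cf d b hbd, hb, T5_grad_add, T5_grad_mul, hga]
    ring
  · funext i
    change (b i).coeff ((Fin.last d : Fin (d + 1)) : ℕ) = w i
    rw [Fin.val_last, hbi, coeff_sub, (ha' i).2, sub_zero]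
    exact congrFun hmv i

private theorem T5_card (n d : ℕ) :
    Module.finrank κ (Fin (n + 1) × Fin (d + 1) → κ) ≤ n * d + 1 + n + d := by
  rw [Module.finrank_fintype_fun_eq_card, Fintype.card_prod, Fintype.card_fin, Fintype.card_fin]
  apply le_of_eq
  ring

private theorem T5_rank (hn : 2 ≤ n) (hF : F.IsHomogeneous n) {d : ℕ} {γ : Fin (n + 1) → κ[X]}
    (h : Free F d γ) (t : κ) :
    Module.finrank κ ↥(LinearMap.ker (T5_A F d γ) ⊓ LinearMap.ker (T5_E n d t)) ≤ d :=
  T5_lin (T5_A F d γ) (T5_E n d t) _ _ (T5_range hn hF h) (T5_onto hn hF h t) (n * d + 1) n d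
    (T5_range_rank κ _) (T5_N_ker F _) (T5_card n d)

private theorem T5_rank_inf (hn : 2 ≤ n) (hF : F.IsHomogeneous n) {d : ℕ}
    {γ : Fin (n + 1) → κ[X]} (h : Free F d γ) :
    Module.finrank κ ↥(LinearMap.ker (T5_A F d γ) ⊓ LinearMap.ker (T5_L (κ := κ) n d)) ≤ d :=
  T5_lin (T5_A F d γ) (T5_L n d) _ _ (T5_range hn hF h) (T5_onto_inf hn hF h) (n * d + 1) n d
    (T5_range_rank κ _) (T5_N_ker F _) (T5_card n d)


private theorem T5_lin_deg (d : ℕ) (z : Fin (n + 1) × Fin (d + 1) → κ) (i : Fin (n + 1)) :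
    (lin (d + 1) z i).natDegree ≤ d := by
  unfold lin
  refine natDegree_sum_le_of_forall_le _ _ fun j _ => ?_
  exact (natDegree_C_mul_X_pow_le _ _).trans (Nat.lt_succ_iff.1 j.2)

private theorem T5_lin_eval (d : ℕ) (z : Fin (n + 1) × Fin (d + 1) → κ) (i : Fin (n + 1)) (t : κ) :
    (lin (d + 1) z i).eval t = ∑ j : Fin (d + 1), z (i, j) * t ^ (j : ℕ) := by
  unfold lin
  rw [eval_finsetSum]
  exact Finset.sum_congr rfl fun j _ => by rw [eval_mul, eval_C, eval_pow, eval_X]

private theorem T5_lin_deriv (d : ℕ) (z : Fin (n + 1) × Fin (d + 1) → κ) (i : Fin (n + 1)) (t : κ) :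
    (derivative (lin (d + 1) z i)).eval t =
      ∑ j : Fin (d + 1), z (i, j) * ((j : ℕ) * t ^ ((j : ℕ) - 1)) := by
  unfold lin
  rw [derivative_sum, eval_finsetSum]
  refine Finset.sum_congr rfl fun j _ => ?_
  rw [derivative_C_mul, derivative_X_pow, eval_mul, eval_C, eval_mul, eval_C, eval_pow, eval_X]

/-- the Jacobian relations -/
private theorem T5_jac (hF : F.IsHomogeneous n) {d : ℕ} (hn : 2 ≤ n)
    (z δ : Fin (n + 1) × Fin (d + 1) → κ)
    (h : ∀ j, ∑ a, MvPolynomial.aeval z (MvPolynomial.pderiv a (eqA F d j)) * δ a = 0) :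
    T5_A F d (lin (d + 1) z) δ = 0 := by
  ext m
  rw [coeff_zero]
  change (grad F (lin (d + 1) z) (lin (d + 1) δ)).coeff m = 0
  rcases Nat.lt_or_ge m (n * d + 1) with h1 | h1
  · have h2 := h ⟨m, h1⟩
    rw [eqA_deriv] at h2
    exact h2
  · refine coeff_eq_zero_of_natDegree_lt (lt_of_le_of_lt
      (T5_grad_deg F hF (T5_lin_deg d z) (T5_lin_deg d δ)) ?_)
    have h2 : (n - 1) * d + d = n * d := by
      obtain ⟨m, rfl⟩ : ∃ m, n = m + 1 := ⟨n - 1, by omega⟩
      simp only [Nat.add_sub_cancel]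
      ring
    omega

private theorem T5_point {d : ℕ} {γ : Fin (n + 1) → κ[X]} (h : On F d γ) (t : κ) :
    MvPolynomial.aeval (fun i => (γ i).eval t) F = 0 := by
  have h1 := MvPolynomial.comp_aeval_apply (R := k) γ (Polynomial.aeval t |>.restrictScalars k) F
  simp only [AlgHom.coe_restrictScalars', coe_aeval_eq_eval] at h1
  rw [← h1, h.2, eval_zero]

/-- points with parameter in `k` -/
private theorem T5_td_k (hn : 2 ≤ n) (hF : F.IsHomogeneous n) {d : ℕ}
    (z : Fin (n + 1) × Fin (d + 1) → κ) (hz : ∀ j, MvPolynomial.aeval z (eqA F d j) = 0)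
    (h : Free F d (lin (d + 1) z)) (htd : n + d ≤ td k z) (c : k) :
    n ≤ td k (fun i => (lin (d + 1) z i).eval (algebraMap k κ c)) := by
  have hq : ∀ i, (lin (d + 1) z i).eval (algebraMap k κ c) =
      ((∑ j : Fin (d + 1), (c ^ (j : ℕ)) • fz k z (i, j) : fld k z) : κ) := by
    intro i
    rw [T5_lin_eval, IntermediateField.coe_sum]
    refine Finset.sum_congr rfl fun j _ => ?_
    rw [IntermediateField.coe_smul, Algebra.smul_def, map_pow, mul_comm]
    rfl
  have hmem : ∀ i, (lin (d + 1) z i).eval (algebraMap k κ c) ∈ fld k z := by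
    intro i
    rw [hq i]
    exact SetLike.coe_mem _
  have h1 := td_le_of_der z (fun i => (lin (d + 1) z i).eval (algebraMap k κ c)) hmem _ d
    (T5_rank hn hF h (algebraMap k κ c)) (by
      intro D hD
      refine ⟨?_, ?_⟩
      · exact T5_jac hF hn z _ fun j => der_rel z D (eqA F d j) (hz j)
      · change T5_E n d (algebraMap k κ c) _ = 0
        funext i
        change (lin (d + 1) _ i).eval _ = 0
        rw [T5_lin_eval]
        have h2 : (⟨_, hmem i⟩ : fld k z) = ∑ j : Fin (d + 1), (c ^ (j : ℕ)) • fz k z (i, j) :=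
          Subtype.ext (hq i)
        have h3 := hD i
        rw [h2, map_sum] at h3
        rw [← h3]
        refine Finset.sum_congr rfl fun j _ => ?_
        rw [D.map_smul, Algebra.smul_def, map_pow, mul_comm])
  omega

/-- the point at infinity -/
private theorem T5_td_inf (hn : 2 ≤ n) (hF : F.IsHomogeneous n) {d : ℕ}
    (z : Fin (n + 1) × Fin (d + 1) → κ) (hz : ∀ j, MvPolynomial.aeval z (eqA F d j) = 0)
    (h : Free F d (lin (d + 1) z)) (htd : n + d ≤ td k z) :
    n ≤ td k (vc (lin (d + 1) z) d) := by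
  have hq : vc (lin (d + 1) z) d = fun i => z (i, Fin.last d) := by
    funext i
    have h1 := congrFun (cf_lin d z) (i, Fin.last d)
    exact h1
  rw [hq]
  have h1 := td_le_of_der z (fun i => z (i, Fin.last d))
    (fun i => (fz k z (i, Fin.last d)).2) _ d (T5_rank_inf hn hF h) (by
      intro D hD
      refine ⟨?_, ?_⟩
      · exact T5_jac hF hn z _ fun j => der_rel z D (eqA F d j) (hz j)
      · change T5_L n d _ = 0
        funext i
        exact hD i)
  omega

/-- restriction -/
private def T5_res (I κ : Type) [Field κ] : (Option I → κ) →ₗ[κ] (I → κ) where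
  toFun v := fun a => v (some a)
  map_add' _ _ := rfl
  map_smul' _ _ := rfl

private theorem T5_opt {I : Type} [Finite I] {W U : Type} [AddCommGroup W] [Module κ W]
    [AddCommGroup U] [Module κ U] (A : (I → κ) →ₗ[κ] W) (E : (I → κ) →ₗ[κ] U) (g : U) (d : ℕ)
    (h : Module.finrank κ ↥(LinearMap.ker A ⊓ LinearMap.ker E) ≤ d) :
    Module.finrank κ ↥(LinearMap.ker (A ∘ₗ T5_res I κ) ⊓
      LinearMap.ker (E ∘ₗ T5_res I κ + (LinearMap.proj none).smulRight g)) ≤ d + 1 := by
  set M := LinearMap.ker (A ∘ₗ T5_res I κ) ⊓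
      LinearMap.ker (E ∘ₗ T5_res I κ + (LinearMap.proj none).smulRight g) with hM
  let φ : M →ₗ[κ] κ := (LinearMap.proj none).domRestrict M
  have h1 := φ.finrank_range_add_finrank_ker
  have h2 : Module.finrank κ (LinearMap.range φ) ≤ 1 := by
    have := Submodule.finrank_le (LinearMap.range φ)
    rwa [Module.finrank_self] at this
  have hmem : ∀ v : LinearMap.ker φ, T5_res I κ (v : M) ∈ LinearMap.ker A ⊓ LinearMap.ker E := by
    rintro ⟨⟨v, hv1, hv2⟩, hv3⟩
    have hv3' : v none = 0 := hv3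
    refine ⟨hv1, ?_⟩
    have hv4 : E (T5_res I κ v) + v none • g = 0 := hv2
    rw [hv3', zero_smul, add_zero] at hv4
    exact hv4
  let ψ : LinearMap.ker φ →ₗ[κ] ↥(LinearMap.ker A ⊓ LinearMap.ker E) :=
    (T5_res I κ ∘ₗ M.subtype ∘ₗ (LinearMap.ker φ).subtype).codRestrict _ hmem
  have hψ : Function.Injective ψ := by
    rintro ⟨⟨v, hv1⟩, hv2⟩ ⟨⟨w, hw1⟩, hw2⟩ hvw
    have h3 : T5_res I κ v = T5_res I κ w := congrArg Subtype.val hvw
    have hv2' : v none = 0 := hv2
    have hw2' : w none = 0 := hw2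
    have h4 : v = w := by
      funext x
      cases x with
      | none => rw [hv2', hw2']
      | some a => exact congrFun h3 a
    subst h4
    rfl
  have h5 := LinearMap.finrank_le_finrank_of_injective hψ
  omega

/-- general points -/
private theorem T5_td (hn : 2 ≤ n) (hF : F.IsHomogeneous n) {d : ℕ}
    (z : Fin (n + 1) × Fin (d + 1) → κ) (hz : ∀ j, MvPolynomial.aeval z (eqA F d j) = 0)
    (h : Free F d (lin (d + 1) z)) (htd : n + d ≤ td k z) (t : κ) :
    n - 1 ≤ td k (fun i => (lin (d + 1) z i).eval t) := by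
  obtain ⟨z', hz'⟩ : ∃ z' : Option (Fin (n + 1) × Fin (d + 1)) → κ,
    z' = fun o => o.elim t z := ⟨_, rfl⟩
  have hzn : z' none = t := by rw [hz']; rfl
  have hzs : ∀ a, z' (some a) = z a := fun a => by rw [hz']; rfl
  have hmono : td k z ≤ td k z' := by
    refine td_mono z' z fun a => ?_
    rw [← hzs]
    exact (fz k z' (some a)).2
  have hq : ∀ i, (lin (d + 1) z i).eval t = ((∑ j : Fin (d + 1),
      fz k z' (some (i, j)) * fz k z' none ^ (j : ℕ) : fld k z') : κ) := by
    intro i
    rw [T5_lin_eval, IntermediateField.coe_sum]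
    refine Finset.sum_congr rfl fun j _ => ?_
    rw [IntermediateField.coe_mul, IntermediateField.coe_pow]
    change _ = z' (some (i, j)) * z' none ^ (j : ℕ)
    rw [hzs, hzn]
  have hmem : ∀ i, (lin (d + 1) z i).eval t ∈ fld k z' := by
    intro i
    rw [hq i]
    exact SetLike.coe_mem _
  have h1 := td_le_of_der z' (fun i => (lin (d + 1) z i).eval t) hmem _ (d + 1)
    (T5_opt (T5_A F d (lin (d + 1) z)) (T5_E n d t)
      (fun i => (derivative (lin (d + 1) z i)).eval t) d (T5_rank hn hF h t)) (by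
      intro D hD
      refine ⟨?_, ?_⟩
      · refine T5_jac hF hn z _ fun j => ?_
        have h2 := der_rel z' D (MvPolynomial.rename some (eqA F d j)) (by
          rw [MvPolynomial.aeval_rename]
          have h3 : z' ∘ some = z := funext hzs
          rw [h3]
          exact hz j)
        rw [Fintype.sum_option] at h2
        have h3 : MvPolynomial.pderiv (none : Option (Fin (n + 1) × Fin (d + 1)))
            (MvPolynomial.rename some (eqA F d j)) = 0 := by
          refine MvPolynomial.pderiv_eq_zero_of_notMem_vars ?_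
          intro h4
          have h5 := MvPolynomial.vars_rename some (eqA F d j) h4
          rw [Finset.mem_image] at h5
          obtain ⟨a, _, ha⟩ := h5
          exact Option.some_ne_none a ha
        rw [h3, map_zero, zero_mul, zero_add] at h2
        rw [← h2]
        refine Finset.sum_congr rfl fun a _ => ?_
        rw [MvPolynomial.pderiv_rename (Option.some_injective _), MvPolynomial.aeval_rename]
        have h3 : z' ∘ some = z := funext hzs
        rw [h3]
        rfl
      · change T5_E n d t _ + (D (fz k z' none)) • _ = 0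
        funext i
        change (lin (d + 1) _ i).eval t + D (fz k z' none) • (derivative (lin (d + 1) z i)).eval t
          = 0
        rw [T5_lin_eval, T5_lin_deriv]
        have h2 : (⟨_, hmem i⟩ : fld k z') = ∑ j : Fin (d + 1),
            fz k z' (some (i, j)) * fz k z' none ^ (j : ℕ) := Subtype.ext (hq i)
        have h3 := hD i
        rw [h2, map_sum] at h3
        rw [← h3, smul_eq_mul, Finset.mul_sum, ← Finset.sum_add_distrib]
        refine Finset.sum_congr rfl fun j _ => ?_
        rw [D.leibniz, D.leibniz_pow]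
        have h4 : ∀ (a : fld k z') (x : κ), a • x = (a : κ) * x := fun a x => rfl
        simp only [h4]
        rw [IntermediateField.coe_pow, IntermediateField.coe_pow, nsmul_eq_mul]
        change _ = z' (some (i, j)) * _ + z' none ^ (j : ℕ) * _
        have h5 : ((fz k z' none : fld k z') : κ) = t := hzn
        rw [hzs, hzn, h5]
        change D (fz k z' (some (i, j))) * t ^ (j : ℕ) + _ = _
        ring)
  omega

end aux

theorem exists_generic {k : Type} [Field k] {n : ℕ} (hn : 2 ≤ n) (F : MvPolynomial (Fin (n + 1)) k)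
    (hF : F.IsHomogeneous n) (hSm : Sm F) (hF0 : F ≠ 0) (hp : (Ideal.span {F}).IsPrime) (d s : ℕ)
    (γ₀ : Fin (n + 1) → k[X]) (h₀ : Free F d γ₀) (hc₀ : Cor F d γ₀ s) :
    ∃ (Ω : Type) (_ : Field Ω) (_ : Algebra k Ω) (γ : Fin (n + 1) → Polynomial Ω), IsAlgClosed Ω ∧
      Free F d γ ∧ Cor F d γ s ∧ n ≤ td k (vc γ d) ∧
      (∀ c : k, Gen F (fun i => (γ i).eval (algebraMap k Ω c))) ∧
      ∀ t : Ω, n - 1 ≤ td k (fun i => (γ i).eval t) := by
  obtain ⟨Ω, i1, i2, z, hac, hz, hs, htd, _⟩ := exists_gen (eqA F d) (cf d γ₀) (by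
      intro j
      have h1 := (eqA_zero F hF d (cf d γ₀)).2 (by
        rw [lin_cf d γ₀ h₀.2.1.1]
        exact h₀.2.1) j
      exact (RingHom.congr_fun (MvPolynomial.coe_aeval_eq_eval (cf d γ₀))
        (eqA F d j)).symm.trans h1) (n + d) (by
      rw [Fintype.card_prod, Fintype.card_fin, Fintype.card_fin, Fintype.card_fin]
      apply le_of_eq
      ring)
  have hOn : On F d (lin (d + 1) z) := (eqA_zero F hF d z).1 hz
  have hs' : Spz (cf d (lin (d + 1) z)) (cf d γ₀) := by
    rw [cf_lin]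
    exact hs
  have hfree : Free F d (lin (d + 1) z) := Free.of_spz F hF d _ γ₀ hOn h₀ hs'
  refine ⟨Ω, i1, i2, lin (d + 1) z, hac, hfree,
    Cor.of_spz F hF d s h₀.1 _ γ₀ hOn h₀.2.1 hc₀ hs', T5_td_inf hn hF z hz hfree htd,
    fun c => ?_, fun t => T5_td hn hF z hz hfree htd t⟩
  have := hp
  exact gen_of_td F hF0 _ (T5_point hOn _) (T5_td_k hn hF z hz hfree htd c)

end Q9
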