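import Pool.Agent.LibQ9.SDefs
import Pool.Agent.LibQ9.C2Defs

/-!
# LibQ9, block W (weak approximation): definitions

Combs on `P^1` (`c0 = 1`) with teeth whose `N` highest coefficients are prescribed.
-/

set_option autoImplicit false

namespace Q9

open Polynomial

/-- the coefficient of `(X - c)^l` of `y` -/
noncomputable def tc {R : Type} [CommRing R] (c : R) (y : R[X]) (l : ℕ) : R :=
  (y.comp (X + C c)).coeff l

/-- the substitution of the prescribed values `e_i^l Y_(i,a,l)` for the coefficients of `w^(d_i - l)`, `l < N`,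
of the teeth -/
noncomputable def sg {R : Type} [CommRing R] {n D m : ℕ} {d : Fin m → ℕ} (N : ℕ)
    (Y : Fin m → Fin (n + 1) → ℕ → R) (z : CI n D 1 (fun i => d i - N) → R) : CI n D 1 d → R
  | Sum.inl i => z (Sum.inl i)
  | Sum.inr (Sum.inl x) => z (Sum.inr (Sum.inl x))
  | Sum.inr (Sum.inr ⟨i, (a, j)⟩) =>
      if h : (j : ℕ) < d i - N then z (Sum.inr (Sum.inr ⟨i, (a, ⟨j, h⟩)⟩))
      else z (Sum.inl i) ^ (d i - 1 - j) * Y i a (d i - 1 - j)

/-- the remaining equations -/
abbrev CJ' (n D : ℕ) {m : ℕ} (d : Fin m → ℕ) (N : ℕ) : Type :=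
  Fin (n * D) ⊕ (Σ i : Fin m, Fin (n * d i - N))

end Q9
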