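import Pool.Agent.LibQ9.W3
import Pool.Agent.LibQ9.T5
import Pool.Agent.LibQ9.TG
import Pool.Agent.LibQ9.B3
import Pool.Agent.LibQ9.WDefs

/-!
[Q9 W5] (MEDIUM; may cite W3, T5 `exists_generic`, TG, B3 as stated) A free handle and very free teeth from its points to prescribed points, over one field.

PLAN. `lift_gen`: `Gen F y`, `Gen F y'`: `ker (aeval y) = ker (aeval y')` (multiples of `F`), so there is a `k`-isomorphism `Algebra.adjoin k (range y) ≅ Algebra.adjoin k (range y')`, extended to the fields `fld k y ≅ fld k y' ⊆ Ω'`; as `Ω₁` is algebraic over `fld k y` and `Ω'` algebraically closed, it extends to `ψ : Ω₁ →ₐ[k] Ω'` (`IsAlgClosed.lift`) with `ψ (y i) = y' i` (same construction as in T4b, see Q9_T4b.lean in the store). `exists_config`: the handle: T5 `exists_generic` applied to any free curve over `k` (`Cor F d γ (n d - 1)` always holds, `θ j = X^j`): `Ω`, `g` free of degree `D`, `Gen F (ve g (algebraMap c))` for all `c : k`.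
For each `i`: W3 for the very free curve through `q i` (`hq i`): `Ω_i`, `γ_i`, free, `Cor 0`, `vc γ_i 0 = q i`, `y_i = vc γ_i (d i)` of `td ≥ n`, so `Gen F y_i` (TG `gen_of_td`; `F(y_i) = 0` is the coefficient of `X^(nd)` in `F(γ_i) = 0`). `ψ_i : Ω_i →ₐ[k] Ω` with `y_i ↦ ve g (b i)`. `δ i = rv (d i) (mp ψ_i γ_i)`: free, `Cor 0` (B3 `Free.map`, `Cor.map`, `Free.rv`, `Cor.rv`), `vc (δ i) 0 = ψ_i (y_i) = ve g (b i)`, `vc (δ i) (d i) = q i`.
-/

set_option autoImplicit false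

namespace Q9

open Polynomial

private theorem W5_emb {k : Type} [Field k] {m : ℕ} {Ω₃ Ω : Type} [Field Ω₃] [Algebra k Ω₃]
    [Field Ω] [Algebra k Ω] [IsAlgClosed Ω] (q : Fin m → Ω₃) (q' : Fin m → Ω)
    (hker : ∀ G : MvPolynomial (Fin m) k, MvPolynomial.aeval q G = 0 ↔ MvPolynomial.aeval q' G = 0)
    (halg : ∀ x : Ω₃, IsAlgebraic (fld k q) x) :
    ∃ ψ : Ω₃ →ₐ[k] Ω, ∀ i, ψ (q i) = q' i := by
  have hmem : ∀ P : MvPolynomial (Fin m) k,
      MvPolynomial.aeval q P ∈ Algebra.adjoin k (Set.range q) := by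
    intro P
    rw [Algebra.adjoin_range_eq_range_aeval]
    exact ⟨P, rfl⟩
  let f : MvPolynomial (Fin m) k →ₐ[k] Algebra.adjoin k (Set.range q) :=
    (MvPolynomial.aeval q).codRestrict _ hmem
  have hf : Function.Surjective (f : MvPolynomial (Fin m) k →+* Algebra.adjoin k (Set.range q)) := by
    rintro ⟨y, hy⟩
    have h1 := hy
    rw [Algebra.adjoin_range_eq_range_aeval] at h1
    obtain ⟨P, hP⟩ := h1
    exact ⟨P, Subtype.ext hP⟩
  have hk : RingHom.ker (f : MvPolynomial (Fin m) k →+* Algebra.adjoin k (Set.range q)) ≤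
      RingHom.ker ((MvPolynomial.aeval q' : MvPolynomial (Fin m) k →ₐ[k] Ω) :
        MvPolynomial (Fin m) k →+* Ω) := by
    intro P hP
    have h1 : f P = 0 := hP
    have h2 : MvPolynomial.aeval q P = 0 := congrArg Subtype.val h1
    exact (hker P).1 h2
  let h : Algebra.adjoin k (Set.range q) →+* Ω := RingHom.liftOfSurjective _ hf ⟨_, hk⟩
  have hh : ∀ P, h (f P) = MvPolynomial.aeval q' P := fun P =>
    RingHom.liftOfRightInverse_comp_apply _ _ (Function.rightInverse_surjInv hf) ⟨_, hk⟩ P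
  have hinj : Function.Injective h := by
    rw [injective_iff_map_eq_zero]
    intro y hy
    obtain ⟨P, rfl⟩ := hf y
    have h1 : MvPolynomial.aeval q' P = 0 := by
      rw [← hh P]
      exact hy
    exact Subtype.ext ((hker P).2 h1)
  let _ : Algebra (Algebra.adjoin k (Set.range q)) Ω := h.toAlgebra
  have : FaithfulSMul (Algebra.adjoin k (Set.range q)) Ω :=
    (faithfulSMul_iff_algebraMap_injective _ _).2 hinj
  have : Algebra.IsAlgebraic (Algebra.adjoin k (Set.range q)) Ω₃ := by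
    refine ⟨fun x => ?_⟩
    open scoped IntermediateField.algebraAdjoinAdjoin in
    exact (IsFractionRing.isAlgebraic_iff (Algebra.adjoin k (Set.range q)) (fld k q) Ω₃).2 (halg x)
  let ψ : Ω₃ →ₐ[Algebra.adjoin k (Set.range q)] Ω := IsAlgClosed.lift
  have hψ : ∀ P : MvPolynomial (Fin m) k,
      ψ (MvPolynomial.aeval q P) = MvPolynomial.aeval q' P := by
    intro P
    rw [← hh P]
    exact ψ.commutes (f P)
  refine ⟨{ (ψ : Ω₃ →+* Ω) with commutes' := fun c => ?_ }, fun i => ?_⟩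
  · have h1 := hψ (MvPolynomial.C c)
    rw [MvPolynomial.aeval_C, MvPolynomial.aeval_C] at h1
    exact h1
  · have h1 := hψ (MvPolynomial.X i)
    rw [MvPolynomial.aeval_X, MvPolynomial.aeval_X] at h1
    exact h1

theorem lift_gen {k : Type} [Field k] {n : ℕ} (F : MvPolynomial (Fin (n + 1)) k) {Ω₁ Ω : Type}
    [Field Ω₁] [Algebra k Ω₁] [Field Ω] [Algebra k Ω] [IsAlgClosed Ω] (y : Fin (n + 1) → Ω₁)
    (y' : Fin (n + 1) → Ω) (hy : Gen F y) (hy' : Gen F y') (halg : ∀ x : Ω₁, IsAlgebraic (fld k y) x) :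
    ∃ ψ : Ω₁ →ₐ[k] Ω, ∀ i, ψ (y i) = y' i :=
  W5_emb y y' (fun G => (hy G).trans (hy' G).symm) halg

private theorem W5_cor {k : Type} [Field k] {n : ℕ} (F : MvPolynomial (Fin (n + 1)) k) (d : ℕ)
    (γ : Fin (n + 1) → k[X]) : Cor F d γ (n * d - 1) := by
  refine ⟨fun j => X ^ (j : ℕ), fun j => ?_, fun f hf => ⟨fun _ => 0, fun j => f.coeff j, fun i => ?_, ?_⟩⟩
  · rw [degree_X_pow]
    exact_mod_cast j.2
  · rw [degree_zero]
    exact WithBot.bot_lt_coe _
  · have h1 : grad F γ (fun _ => (0 : k[X])) = 0 := by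
      unfold grad
      simp
    rw [h1, zero_add]
    by_cases h0 : f = 0
    · subst h0
      simp
    · have h2 : f.natDegree < n * d - 1 := by
        rw [degree_eq_natDegree h0] at hf
        exact_mod_cast hf
      conv_lhs => rw [f.as_sum_range_C_mul_X_pow' h2]
      rw [Finset.sum_range]

theorem exists_config {k : Type} [Field k] {n : ℕ} (hn : 2 ≤ n) (F : MvPolynomial (Fin (n + 1)) k)
    (hF : F.IsHomogeneous n) (hSm : Sm F) (hF0 : F ≠ 0) (hp : (Ideal.span {F}).IsPrime)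
    (hfree : ∃ (d : ℕ) (γ : Fin (n + 1) → k[X]), Free F d γ) {m : ℕ} (b : Fin m → k)
    (q : Fin m → Fin (n + 1) → k)
    (hq : ∀ i, ∃ (d : ℕ) (γ : Fin (n + 1) → k[X]), Free F d γ ∧ Cor F d γ 0 ∧ vc γ 0 = q i) :
    ∃ (Ω : Type) (_ : Field Ω) (_ : Algebra k Ω) (D : ℕ) (g : Fin (n + 1) → Polynomial Ω)
      (d : Fin m → ℕ) (δ : Fin m → Fin (n + 1) → Polynomial Ω), IsAlgClosed Ω ∧ Free F D g ∧
      ∀ i, Free F (d i) (δ i) ∧ Cor F (d i) (δ i) 0 ∧ vc (δ i) 0 = ve g (algebraMap k Ω (b i)) ∧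
        vc (δ i) (d i) = fun a => algebraMap k Ω (q i a) := by
  obtain ⟨D, g₀, hg₀⟩ := hfree
  obtain ⟨Ω, iF, iA, g, hac, hg, _, _, hgen, _⟩ :=
    exists_generic hn F hF hSm hF0 hp D (n * D - 1) g₀ hg₀ (W5_cor F D g₀)
  have key : ∀ i, ∃ (e : ℕ) (δ : Fin (n + 1) → Polynomial Ω), Free F e δ ∧ Cor F e δ 0 ∧
      vc δ 0 = ve g (algebraMap k Ω (b i)) ∧ vc δ e = fun a => algebraMap k Ω (q i a) := by
    intro i
    obtain ⟨e, γ₀, hf₀, hc₀, hq₀⟩ := hq i
    obtain ⟨Ω₁, iF₁, iA₁, γ, hac₁, hf, hc, h0, htd, halg⟩ := generic_far_alg hn F hF e γ₀ hf₀ hc₀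
    have hy0 : MvPolynomial.aeval (vc γ e) F = 0 := by
      have h1 := (hf.rv F hn hF).2.1.2
      have h2 := congrArg (Polynomial.eval (0 : Ω₁)) h1
      have h3 : Polynomial.eval (0 : Ω₁) (MvPolynomial.aeval (rv e γ) F) =
          MvPolynomial.aeval (vc γ e) F := by
        have h4 := MvPolynomial.comp_aeval_apply (R := k) (rv e γ)
          ((Polynomial.aeval (0 : Ω₁)).restrictScalars k) F
        have h5 : (fun i => ((Polynomial.aeval (0 : Ω₁)).restrictScalars k) (rv e γ i)) = vc γ e := by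
          funext i
          show Polynomial.aeval (0 : Ω₁) ((γ i).reflect e) = (γ i).coeff e
          rw [Polynomial.coe_aeval_eq_eval, ← Polynomial.coeff_zero_eq_eval_zero, coeff_reflect,
            revAt_le (Nat.zero_le e), Nat.sub_zero]
        rw [h5] at h4
        rw [← h4]
        show _ = Polynomial.aeval (0 : Ω₁) _
        rw [Polynomial.coe_aeval_eq_eval]
      rw [h3, eval_zero] at h2
      exact h2
    have hy : Gen F (vc γ e) := gen_of_td F hF0 (vc γ e) hy0 htd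
    obtain ⟨ψ, hψ⟩ := lift_gen F (vc γ e) (ve g (algebraMap k Ω (b i))) hy (hgen (b i)) halg
    refine ⟨e, rv e (mp (ψ : Ω₁ →+* Ω) γ), ?_, ?_, ?_, ?_⟩
    · exact (hf.map F ψ).rv F hn hF
    · exact (hc.map F ψ).rv F hn hF hf.1 (hf.map F ψ).2.1
    · funext a
      show (((γ a).map (ψ : Ω₁ →+* Ω)).reflect e).coeff 0 = _
      rw [coeff_reflect, revAt_le (Nat.zero_le e), Nat.sub_zero, Polynomial.coeff_map]
      exact hψ a
    · funext a
      show (((γ a).map (ψ : Ω₁ →+* Ω)).reflect e).coeff e = _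
      rw [coeff_reflect, revAt_le (le_refl e), Nat.sub_self, Polynomial.coeff_map, h0 a, ← hq₀]
      exact ψ.commutes _
  choose d δ hδ using key
  exact ⟨Ω, iF, iA, D, g, d, δ, hac, hg, hδ⟩

end Q9
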