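import Pool.Agent.LibQ9.W3
import Pool.Agent.LibQ9.W5
import Pool.Agent.LibQ9.W4b

/-!
[Q9 H7] (MEDIUM; may cite W3 `generic_far_alg`, W5 `lift_gen`, TG `gen_of_td`, B3, P8 `spec`, W4b as stated) Two points are joined by two very free curves meeting in a third point.

PLAN. `very_free_through` for `q` and `q'`: very free curves from them. W3 `generic_far_alg` for both: `Ω₁`, `γ₁` with `vc γ₁ 0 = q`, `y₁ = vc γ₁ d₁` with `n ≤ td`, everything algebraic over `fld k y₁`; `Ω₂`, `γ₂`, `vc γ₂ 0 = q'`, `y₂ = vc γ₂ d₂`, `n ≤ td`. Both `Gen F` (TG `gen_of_td`; `F(y_i) = 0` is the coefficient of `X^(n d_i)` in `F(γ_i) = 0`). W5 `lift_gen`: `ψ : Ω₁ →ₐ[k] Ω₂`, `ψ(y₁) = y₂`. `δ = mp ψ γ₁` (B3 `Free.map`, `Cor.map`), `δ' = rv d₂ γ₂` (B3 `Free.rv`, `Cor.rv`): very free over `Ω₂` from `q` to `y₂` and from `y₂` to `q'`.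
Specialization: P8 `spec` for the finite family of all coefficients of `δ`, `δ'`, of vectors `a_j` with `grad F δ a_j = X^j` (`j < n d`, degree `< d`) and `grad F δ b_j = X^j` (`j < n d - 1`, degree `< d - 1`; `Cor .. 0` with the empty family `θ`), the same for `δ'` (technique: S0 `spec_free`, W4a, S2b `teeth_spec`). The images are very free over `k`, with the same constant coefficients `q`, `q'` (elements of `k`) and common point `z = φ(y₂)`, `z = vc δ d ≠ 0` by B2 `Free.lead`. `F(z) = 0` similarly.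
-/

set_option autoImplicit false

namespace Q9

open Polynomial

private theorem H7_lift {k : Type} [Field k] {κ : Type} [Field κ] [Algebra k κ]
    (B : Subalgebra k κ) {J : Type} (P : J → κ[X]) (h : ∀ j m, (P j).coeff m ∈ B) :
    ∃ P' : J → B[X], ∀ j, mapAlgHom B.val (P' j) = P j := by
  have h2 : ∀ j, ∃ p : B[X], mapAlgHom B.val p = P j := by
    intro j
    have h3 : P j ∈ Polynomial.lifts (B.val : B →+* κ) := by
      rw [Polynomial.lifts_iff_coeff_lifts]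
      intro m
      exact ⟨⟨_, h j m⟩, rfl⟩
    obtain ⟨p, hp⟩ := (Polynomial.mem_lifts _).1 h3
    exact ⟨p, hp⟩
  choose P' hP' using h2
  exact ⟨P', hP'⟩

private theorem H7_grad {k : Type} [Field k] {m : ℕ} (F : MvPolynomial (Fin m) k) {S S' : Type}
    [CommRing S] [Algebra k S] [CommRing S'] [Algebra k S'] (σ : S →ₐ[k] S') (x w : Fin m → S) :
    σ (grad F x w) = grad F (fun i => σ (x i)) (fun i => σ (w i)) := by
  unfold grad
  rw [map_sum]
  refine Finset.sum_congr rfl fun i _ => ?_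
  rw [map_mul, MvPolynomial.comp_aeval_apply]

private theorem H7_grad_sum {k : Type} [Field k] {m : ℕ} (F : MvPolynomial (Fin m) k) {S : Type}
    [CommRing S] [Algebra k S] (x : Fin m → S) {J : Type} [Fintype J] (c : J → S)
    (a : J → Fin m → S) :
    grad F x (fun i => ∑ j, c j * a j i) = ∑ j, c j * grad F x (a j) := by
  unfold grad
  simp only [Finset.mul_sum]
  rw [Finset.sum_comm]
  refine Finset.sum_congr rfl fun j _ => Finset.sum_congr rfl fun i _ => ?_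
  ring

private theorem H7_sum {k : Type} [Field k] (N : ℕ) (f : k[X]) (hf : f.degree < (N : ℕ)) :
    f = ∑ j : Fin N, C (f.coeff j) * X ^ (j : ℕ) := by
  ext m
  rw [Polynomial.finsetSum_coeff]
  simp only [coeff_C_mul, coeff_X_pow]
  by_cases hm : m < N
  · rw [Finset.sum_eq_single (⟨m, hm⟩ : Fin N)]
    · simp
    · intro b _ hb
      rw [if_neg, mul_zero]
      intro h
      exact hb (Fin.ext h.symm)
    · intro h
      exact absurd (Finset.mem_univ _) h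
  · rw [coeff_eq_zero_of_degree_lt (lt_of_lt_of_le hf (by exact_mod_cast not_lt.1 hm))]
    refine (Finset.sum_eq_zero fun b _ => ?_).symm
    rw [if_neg, mul_zero]
    intro h
    exact hm (h ▸ b.2)

private theorem H7_deg {k : Type} [Field k] (N : ℕ) {J : Type} [Fintype J] (c : J → k)
    (a : J → k[X]) (ha : ∀ j, (a j).degree < (N : ℕ)) : (∑ j, C (c j) * a j).degree < (N : ℕ) := by
  rw [← mem_degreeLT]
  refine Submodule.sum_mem _ fun j _ => ?_
  rw [← smul_eq_C_mul]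
  exact Submodule.smul_mem _ _ (mem_degreeLT.2 (ha j))

private theorem H7_free {k : Type} [Field k] {n : ℕ} (F : MvPolynomial (Fin (n + 1)) k)
    {κ : Type} [Field κ] [Algebra k κ] (d : ℕ) (γ : Fin (n + 1) → κ[X]) (h : Free F d γ)
    (a : Fin (n * d) → Fin (n + 1) → κ[X]) (ha : ∀ j i, (a j i).degree < (d : ℕ))
    (haX : ∀ j : Fin (n * d), grad F γ (a j) = X ^ (j : ℕ)) (B : Subalgebra k κ) (φ : B →ₐ[k] k)
    (γ' : Fin (n + 1) → B[X]) (hγ' : ∀ i, mapAlgHom B.val (γ' i) = γ i)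
    (a' : Fin (n * d) → Fin (n + 1) → B[X]) (ha' : ∀ j i, mapAlgHom B.val (a' j i) = a j i) :
    Free F d (fun i => mapAlgHom φ (γ' i)) := by
  obtain ⟨hd, ⟨hγd, hγF⟩, -⟩ := h
  have hval : Function.Injective (B.val : B →+* κ) := Subtype.val_injective
  have hinj : Function.Injective (mapAlgHom B.val : B[X] →ₐ[k] κ[X]) :=
    Polynomial.map_injective _ hval
  have hdeg : ∀ (p : B[X]) (q : κ[X]), mapAlgHom B.val p = q →
      (mapAlgHom φ p).degree ≤ q.degree := by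
    intro p q hpq
    rw [← hpq]
    have h1 : (mapAlgHom B.val p).degree = p.degree :=
      Polynomial.degree_map_eq_of_injective hval _
    rw [h1]
    exact Polynomial.degree_map_le
  have hψX : ∀ m : ℕ, mapAlgHom B.val (X ^ m : B[X]) = X ^ m := by
    intro m
    rw [map_pow]
    congr 1
    exact Polynomial.map_X _
  have hχX : ∀ m : ℕ, mapAlgHom φ (X ^ m : B[X]) = X ^ m := by
    intro m
    rw [map_pow]
    congr 1
    exact Polynomial.map_X _
  have hγe : (fun i => mapAlgHom B.val (γ' i)) = γ := funext hγ'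
  have e0 : MvPolynomial.aeval γ' F = 0 := by
    apply hinj
    rw [MvPolynomial.comp_aeval_apply, map_zero, hγe, hγF]
  have e1 : ∀ j : Fin (n * d), grad F γ' (a' j) = X ^ (j : ℕ) := by
    intro j
    apply hinj
    have h2 : (fun i => mapAlgHom B.val (a' j i)) = a j := funext (ha' j)
    rw [H7_grad, hψX, hγe, h2, haX]
  have f1 : ∀ j : Fin (n * d), grad F (fun i => mapAlgHom φ (γ' i))
      (fun i => mapAlgHom φ (a' j i)) = X ^ (j : ℕ) := by
    intro j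
    have h1 := congrArg (mapAlgHom φ) (e1 j)
    rwa [H7_grad, hχX] at h1
  refine ⟨hd, ⟨fun i => ?_, ?_⟩, fun f hf => ?_⟩
  · refine Polynomial.natDegree_le_iff_degree_le.2 ?_
    exact (hdeg _ _ (hγ' i)).trans (Polynomial.natDegree_le_iff_degree_le.1 (hγd i))
  · have h1 := congrArg (mapAlgHom φ) e0
    rwa [MvPolynomial.comp_aeval_apply, map_zero] at h1
  · refine ⟨fun i => ∑ j : Fin (n * d), C (f.coeff j) * mapAlgHom φ (a' j i), fun i => ?_, ?_⟩
    · exact H7_deg d (fun j : Fin (n * d) => f.coeff j) (fun j => mapAlgHom φ (a' j i))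
        (fun j => lt_of_le_of_lt (hdeg _ _ (ha' j i)) (ha j i))
    · rw [H7_grad_sum]
      conv_rhs => rw [H7_sum (n * d) f hf]
      refine Finset.sum_congr rfl fun j _ => ?_
      rw [f1]

private theorem H7_cor {k : Type} [Field k] {n : ℕ} (F : MvPolynomial (Fin (n + 1)) k)
    {κ : Type} [Field κ] [Algebra k κ] (d : ℕ) (γ : Fin (n + 1) → κ[X])
    (b : Fin (n * d - 1) → Fin (n + 1) → κ[X]) (hb : ∀ j i, (b j i).degree < (d - 1 : ℕ))
    (hbX : ∀ j : Fin (n * d - 1), grad F γ (b j) = X ^ (j : ℕ)) (B : Subalgebra k κ)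
    (φ : B →ₐ[k] k)
    (γ' : Fin (n + 1) → B[X]) (hγ' : ∀ i, mapAlgHom B.val (γ' i) = γ i)
    (b' : Fin (n * d - 1) → Fin (n + 1) → B[X]) (hb' : ∀ j i, mapAlgHom B.val (b' j i) = b j i) :
    Cor F d (fun i => mapAlgHom φ (γ' i)) 0 := by
  have hval : Function.Injective (B.val : B →+* κ) := Subtype.val_injective
  have hinj : Function.Injective (mapAlgHom B.val : B[X] →ₐ[k] κ[X]) :=
    Polynomial.map_injective _ hval
  have hdeg : ∀ (p : B[X]) (q : κ[X]), mapAlgHom B.val p = q →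
      (mapAlgHom φ p).degree ≤ q.degree := by
    intro p q hpq
    rw [← hpq]
    have h1 : (mapAlgHom B.val p).degree = p.degree :=
      Polynomial.degree_map_eq_of_injective hval _
    rw [h1]
    exact Polynomial.degree_map_le
  have hψX : ∀ m : ℕ, mapAlgHom B.val (X ^ m : B[X]) = X ^ m := by
    intro m
    rw [map_pow]
    congr 1
    exact Polynomial.map_X _
  have hχX : ∀ m : ℕ, mapAlgHom φ (X ^ m : B[X]) = X ^ m := by
    intro m
    rw [map_pow]
    congr 1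
    exact Polynomial.map_X _
  have hγe : (fun i => mapAlgHom B.val (γ' i)) = γ := funext hγ'
  have e1 : ∀ j : Fin (n * d - 1), grad F γ' (b' j) = X ^ (j : ℕ) := by
    intro j
    apply hinj
    have h2 : (fun i => mapAlgHom B.val (b' j i)) = b j := funext (hb' j)
    rw [H7_grad, hψX, hγe, h2, hbX]
  have f1 : ∀ j : Fin (n * d - 1), grad F (fun i => mapAlgHom φ (γ' i))
      (fun i => mapAlgHom φ (b' j i)) = X ^ (j : ℕ) := by
    intro j
    have h1 := congrArg (mapAlgHom φ) (e1 j)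
    rwa [H7_grad, hχX] at h1
  refine ⟨fun j => j.elim0, fun j => j.elim0, fun f hf => ?_⟩
  refine ⟨fun i => ∑ j : Fin (n * d - 1), C (f.coeff j) * mapAlgHom φ (b' j i),
    fun j => j.elim0, fun i => ?_, ?_⟩
  · exact H7_deg (d - 1) (fun j : Fin (n * d - 1) => f.coeff j) (fun j => mapAlgHom φ (b' j i))
      (fun j => lt_of_le_of_lt (hdeg _ _ (hb' j i)) (hb j i))
  · rw [H7_grad_sum, Fin.sum_univ_zero, add_zero]
    conv_lhs => rw [H7_sum (n * d - 1) f hf]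
    refine Finset.sum_congr rfl fun j _ => ?_
    rw [f1]

private theorem H7_mem {k : Type} [Field k] {κ : Type} [Field κ] [Algebra k κ]
    {J : Type} [Finite J] [IsAlgClosed k] (P : J → κ[X]) :
    ∃ (B : Subalgebra k κ) (_ : B →ₐ[k] k) (P' : J → B[X]),
      ∀ j, mapAlgHom B.val (P' j) = P j := by
  classical
  obtain ⟨N, hN⟩ : ∃ N : ℕ, ∀ j, (P j).natDegree < N := by
    obtain ⟨N, hN⟩ := (Set.finite_range (fun j => (P j).natDegree)).bddAbove
    exact ⟨N + 1, fun j => Nat.lt_succ_of_le (hN ⟨j, rfl⟩)⟩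
  let z : J × Fin N → κ := fun x => (P x.1).coeff x.2
  obtain ⟨φ, -⟩ := spec (k := k) z
  have hmem : ∀ j r, (P j).coeff r ∈ Algebra.adjoin k (Set.range z) := by
    intro j r
    by_cases hr : r < N
    · exact Algebra.subset_adjoin ⟨(j, ⟨r, hr⟩), rfl⟩
    · rw [coeff_eq_zero_of_natDegree_lt (lt_of_lt_of_le (hN j) (not_lt.1 hr))]
      exact Subalgebra.zero_mem _
  obtain ⟨P', hP'⟩ := H7_lift (Algebra.adjoin k (Set.range z)) P hmem
  exact ⟨_, φ, P', hP'⟩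

/-- specialization of two very free curves -/
private theorem H7_spec {k : Type} [Field k] [IsAlgClosed k] {n : ℕ}
    (F : MvPolynomial (Fin (n + 1)) k)
    {κ : Type} [Field κ] [Algebra k κ] (m : ℕ) (d : Fin m → ℕ) (γ : Fin m → Fin (n + 1) → κ[X])
    (hf : ∀ i, Free F (d i) (γ i)) (hc : ∀ i, Cor F (d i) (γ i) 0) :
    ∃ (B : Subalgebra k κ) (φ : B →ₐ[k] k) (γ' : Fin m → Fin (n + 1) → B[X]),
      (∀ i j, mapAlgHom B.val (γ' i j) = γ i j) ∧
      ∀ i, Free F (d i) (fun j => mapAlgHom φ (γ' i j)) ∧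
        Cor F (d i) (fun j => mapAlgHom φ (γ' i j)) 0 := by
  classical
  have hXdeg : ∀ (N : ℕ) (j : Fin N), (X ^ (j : ℕ) : Polynomial κ).degree < (N : ℕ) := by
    intro N j
    rw [degree_X_pow]
    exact_mod_cast j.2
  choose a ha haX using fun (i : Fin m) (j : Fin (n * d i)) =>
    (hf i).2.2 (X ^ (j : ℕ)) (hXdeg (n * d i) j)
  have hc' : ∀ (i : Fin m) (j : Fin (n * d i - 1)), ∃ b : Fin (n + 1) → κ[X],
      (∀ l, (b l).degree < (d i - 1 : ℕ)) ∧ grad F (γ i) b = X ^ (j : ℕ) := by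
    intro i j
    obtain ⟨θ, -, h⟩ := hc i
    obtain ⟨b, μ, hb, h1⟩ := h (X ^ (j : ℕ)) (hXdeg (n * d i - 1) j)
    refine ⟨b, hb, ?_⟩
    rw [Fin.sum_univ_zero, add_zero] at h1
    exact h1.symm
  choose b hb hbX using hc'
  let J : Type := (Fin m × Fin (n + 1)) ⊕ (Σ i : Fin m, Fin (n * d i) × Fin (n + 1)) ⊕
    (Σ i : Fin m, Fin (n * d i - 1) × Fin (n + 1))
  let P : J → Polynomial κ := Sum.elim (fun x => γ x.1 x.2) (Sum.elim (fun x => a x.1 x.2.1 x.2.2)
    (fun x => b x.1 x.2.1 x.2.2))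
  obtain ⟨B, φ, P', hP'⟩ := H7_mem (k := k) P
  refine ⟨B, φ, fun i j => P' (Sum.inl (i, j)), fun i j => hP' _, fun i => ⟨?_, ?_⟩⟩
  · exact H7_free F (d i) (γ i) (hf i) (a i) (ha i) (haX i) _ φ
      (fun c => P' (Sum.inl (i, c))) (fun c => hP' _)
      (fun j c => P' (Sum.inr (Sum.inl ⟨i, (j, c)⟩))) (fun j c => hP' _)
  · exact H7_cor F (d i) (γ i) (b i) (hb i) (hbX i) _ φ
      (fun c => P' (Sum.inl (i, c))) (fun c => hP' _)
      (fun j c => P' (Sum.inr (Sum.inr ⟨i, (j, c)⟩))) (fun j c => hP' _)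

private theorem H7_prod {κ : Type} [Field κ] {n : ℕ} (d : ℕ) (γ : Fin (n + 1) → κ[X])
    (hγ : ∀ i, (γ i).natDegree ≤ d) (m : Fin (n + 1) → ℕ) (s : Finset (Fin (n + 1))) :
    (∏ i ∈ s, γ i ^ m i).natDegree ≤ (∑ i ∈ s, m i) * d ∧
      (∏ i ∈ s, γ i ^ m i).coeff ((∑ i ∈ s, m i) * d) = ∏ i ∈ s, (γ i).coeff d ^ m i := by
  classical
  induction s using Finset.induction_on with
  | empty => simp
  | insert a s ha ih =>
    have h1 : (γ a ^ m a).natDegree ≤ m a * d :=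
      natDegree_pow_le.trans (Nat.mul_le_mul_left _ (hγ a))
    rw [Finset.prod_insert ha, Finset.sum_insert ha, Finset.prod_insert ha, add_mul]
    refine ⟨natDegree_mul_le.trans (add_le_add h1 ih.1), ?_⟩
    rw [coeff_mul_add_eq_of_natDegree_le h1 ih.1, ih.2, coeff_pow_of_natDegree_le (hγ a)]

private theorem H7_top {k : Type} [Field k] {n : ℕ} (F : MvPolynomial (Fin (n + 1)) k)
    (hF : F.IsHomogeneous n) {κ : Type} [Field κ] [Algebra k κ] (d : ℕ) (γ : Fin (n + 1) → κ[X])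
    (hγ : ∀ i, (γ i).natDegree ≤ d) :
    (MvPolynomial.aeval γ F).coeff (n * d) = MvPolynomial.aeval (vc γ d) F := by
  rw [MvPolynomial.aeval_def, MvPolynomial.aeval_def, MvPolynomial.eval₂_eq', MvPolynomial.eval₂_eq',
    finsetSum_coeff]
  refine Finset.sum_congr rfl fun m hm => ?_
  have hdeg : ∑ i, m i = n := by
    have h1 : Finsupp.weight (fun _ : Fin (n + 1) => 1) m = n := hF (MvPolynomial.mem_support_iff.1 hm)
    rw [← Finsupp.degree_eq_weight_one, Finsupp.degree_eq_sum] at h1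
    exact h1
  have h2 := (H7_prod d γ hγ m Finset.univ).2
  rw [hdeg] at h2
  rw [show algebraMap k κ[X] (MvPolynomial.coeff m F) = C (algebraMap k κ (MvPolynomial.coeff m F)) from rfl,
    coeff_C_mul, h2]
  rfl

theorem join_two {k : Type} [Field k] [IsAlgClosed k] {n : ℕ} (hn : 2 ≤ n)
    (F : MvPolynomial (Fin (n + 1)) k) (hF : F.IsHomogeneous n) (hs : Smooth F)
    (h : ∃ (d : ℕ) (γ : Fin (n + 1) → k[X]), Free F d γ ∧ Cor F d γ 0)
    (q q' : Fin (n + 1) → k) (hq : q ≠ 0) (hq0 : MvPolynomial.aeval q F = 0) (hq' : q' ≠ 0)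
    (hq0' : MvPolynomial.aeval q' F = 0) :
    ∃ z : Fin (n + 1) → k, z ≠ 0 ∧ MvPolynomial.aeval z F = 0 ∧
      (∃ (d : ℕ) (γ : Fin (n + 1) → k[X]), Free F d γ ∧ Cor F d γ 0 ∧ vc γ 0 = q ∧ vc γ d = z) ∧
      ∃ (d : ℕ) (γ : Fin (n + 1) → k[X]), Free F d γ ∧ Cor F d γ 0 ∧ vc γ 0 = z ∧ vc γ d = q' := by
  have hF0 : F ≠ 0 := by
    rintro rfl
    have h1 : (fun _ : Fin (n + 1) => (1 : k)) = 0 := hs _ fun i => by simp
    exact one_ne_zero (congrFun h1 0)
  have hp : (Ideal.span {F}).IsPrime := prime_of_smooth hn F hF hs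
  obtain ⟨d₁, g₁, hg₁, hc₁, hq₁⟩ := very_free_through hn F hF hs h q hq hq0
  obtain ⟨d₂, g₂, hg₂, hc₂, hq₂⟩ := very_free_through hn F hF hs h q' hq' hq0'
  obtain ⟨Ω₁, _, _, γ₁, hcl₁, hγ₁, hcγ₁, h0₁, htd₁, halg₁⟩ :=
    generic_far_alg hn F hF d₁ g₁ hg₁ hc₁
  obtain ⟨Ω₂, _, _, γ₂, hcl₂, hγ₂, hcγ₂, h0₂, htd₂, -⟩ := generic_far_alg hn F hF d₂ g₂ hg₂ hc₂
  have htop₁ : MvPolynomial.aeval (vc γ₁ d₁) F = 0 := by
    rw [← H7_top F hF d₁ γ₁ hγ₁.2.1.1, hγ₁.2.1.2, coeff_zero]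
  have htop₂ : MvPolynomial.aeval (vc γ₂ d₂) F = 0 := by
    rw [← H7_top F hF d₂ γ₂ hγ₂.2.1.1, hγ₂.2.1.2, coeff_zero]
  have hgen₁ : Gen F (vc γ₁ d₁) := gen_of_td F hF0 _ htop₁ htd₁
  have hgen₂ : Gen F (vc γ₂ d₂) := gen_of_td F hF0 _ htop₂ htd₂
  obtain ⟨ψ, hψ⟩ := lift_gen F (vc γ₁ d₁) (vc γ₂ d₂) hgen₁ hgen₂ halg₁
  have hf₁ : Free F d₁ (mp (ψ : Ω₁ →+* Ω₂) γ₁) := Free.map F ψ hγ₁
  have hfc₁ : Cor F d₁ (mp (ψ : Ω₁ →+* Ω₂) γ₁) 0 := Cor.map F ψ hcγ₁
  have hf₂ : Free F d₂ (rv d₂ γ₂) := Free.rv F hn hF hγ₂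
  have hfc₂ : Cor F d₂ (rv d₂ γ₂) 0 := Cor.rv F hn hF hγ₂.1 hγ₂.2.1 hcγ₂
  obtain ⟨B, φ, γ', hγ', hcur⟩ := H7_spec (k := k) F 2 ![d₁, d₂]
    ![mp (ψ : Ω₁ →+* Ω₂) γ₁, rv d₂ γ₂]
    (fun i => by fin_cases i; exacts [hf₁, hf₂]) (fun i => by fin_cases i; exacts [hfc₁, hfc₂])
  have hval : Function.Injective (B.val : B →+* Ω₂) := Subtype.val_injective
  have hcv : ∀ i j r, B.val ((γ' i j).coeff r) =
      ((![mp (ψ : Ω₁ →+* Ω₂) γ₁, rv d₂ γ₂] : Fin 2 → Fin (n + 1) → Polynomial Ω₂) i j).coeff r := by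
    intro i j r
    rw [← hγ' i j]
    exact (Polynomial.coeff_map _ _).symm
  have hcφ : ∀ i j r, (mapAlgHom φ (γ' i j)).coeff r = φ ((γ' i j).coeff r) :=
    fun i j r => Polynomial.coeff_map _ _
  have hF₀ := (hcur 0).1
  have hC₀ := (hcur 0).2
  have hF₁ := (hcur 1).1
  have hC₁ := (hcur 1).2
  change Free F d₁ _ at hF₀
  change Cor F d₁ _ 0 at hC₀
  change Free F d₂ _ at hF₁
  change Cor F d₂ _ 0 at hC₁
  have hzne := Free.lead F hn hF hF₀
  have hz0 : MvPolynomial.aeval (vc (fun j => mapAlgHom φ (γ' 0 j)) d₁) F = 0 := by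
    rw [← H7_top F hF d₁ _ hF₀.2.1.1, hF₀.2.1.2, coeff_zero]
  refine ⟨vc (fun j => mapAlgHom φ (γ' 0 j)) d₁, hzne, hz0,
    ⟨d₁, _, hF₀, hC₀, ?_, rfl⟩, ⟨d₂, _, hF₁, hC₁, ?_, ?_⟩⟩
  · funext j
    change (mapAlgHom φ (γ' 0 j)).coeff 0 = q j
    have h2 : (γ' 0 j).coeff 0 = algebraMap k B (q j) := by
      apply hval
      change B.val _ = _
      rw [hcv]
      change ((γ₁ j).map (ψ : Ω₁ →+* Ω₂)).coeff 0 = algebraMap k Ω₂ (q j)
      rw [coeff_map, h0₁ j]
      have h3 : (g₁ j).coeff 0 = q j := congrFun hq₁ j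
      rw [h3]
      exact ψ.commutes (q j)
    rw [hcφ, h2, AlgHom.commutes]
    rfl
  · funext j
    change (mapAlgHom φ (γ' 1 j)).coeff 0 = (mapAlgHom φ (γ' 0 j)).coeff d₁
    have h2 : (γ' 1 j).coeff 0 = (γ' 0 j).coeff d₁ := by
      apply hval
      change B.val _ = B.val _
      rw [hcv, hcv]
      change ((γ₂ j).reflect d₂).coeff 0 = ((γ₁ j).map (ψ : Ω₁ →+* Ω₂)).coeff d₁
      rw [coeff_map, coeff_reflect, revAt_le (Nat.zero_le _), Nat.sub_zero]
      exact (hψ j).symm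
    rw [hcφ, hcφ, h2]
  · funext j
    change (mapAlgHom φ (γ' 1 j)).coeff d₂ = q' j
    have h2 : (γ' 1 j).coeff d₂ = algebraMap k B (q' j) := by
      apply hval
      change B.val _ = _
      rw [hcv]
      change ((γ₂ j).reflect d₂).coeff d₂ = algebraMap k Ω₂ (q' j)
      rw [coeff_reflect, revAt_le le_rfl, Nat.sub_self, h0₂ j]
      have h3 : (g₂ j).coeff 0 = q' j := congrFun hq₂ j
      rw [h3]
    rw [hcφ, h2, AlgHom.commutes]
    rfl

end Q9
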