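import Pool.Agent.LibQ9.XDefs

/-!
# LibQ9, block H (batches and assembly of the general weak approximation): definitions
-/

set_option autoImplicit false

namespace Q9

open Polynomial

section

variable {k K : Type} [Field k] [Field K] [Algebra k K]

/-- `f` is regular at the place `ev` -/
def Rg (O : Subalgebra k K) (ev : O →ₐ[k] k) (f : K) : Prop := ∃ h : O, ev h ≠ 0 ∧ (h : K) * f ∈ O

/-- one tooth (the data of `Cmb` at one place) -/
structure Tth (O : Subalgebra k K) {n : ℕ} (F : MvPolynomial (Fin (n + 1)) O)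
    (P : Fin (n + 1) → O) (ρ : O) where
  ev : O →ₐ[k] k
  π : K
  pole : Pole O ev π
  ρ0 : ev ρ ≠ 0
  d : ℕ
  N : ℕ
  hN : N ≤ d
  hd : 1 ≤ d
  τ : Fin (n + 1) → k[X]
  on : On (MvPolynomial.map (ev : O →+* k) F) d τ
  τ0 : ∀ a, (τ a).coeff 0 = ev (P a)
  surj : ∀ f : k[X], f.degree < (n * d - N : ℕ) → ∃ a : Fin (n + 1) → k[X],
    (∀ j, (a j).degree < (d - N : ℕ)) ∧ grad (MvPolynomial.map (ev : O →+* k) F) τ a = f
  y : Fin (n + 1) → ℕ → k
  top : ∀ a, 1 ≤ N → (τ a).coeff d = ev ρ * y a 0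
  mid : ∀ a l, 1 ≤ l → l < N → (τ a).coeff (d - l) = 0
  jet : Cg O ev π N
    (MvPolynomial.eval (jt π ρ N y) (MvPolynomial.map (O.subtype : O →+* K) F)) 0

/-- a comb from teeth at distinct places -/
def Tth.cmb {O : Subalgebra k K} {n : ℕ} {F : MvPolynomial (Fin (n + 1)) O}
    {P : Fin (n + 1) → O} {ρ : O} {m : ℕ} (T : Fin m → Tth O F P ρ)
    (h : Function.Injective fun i => (T i).ev) : Cmb O F P ρ m where
  ev := fun i => (T i).ev
  inj := h
  π := fun i => (T i).π
  pole := fun i => (T i).pole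
  ρ0 := fun i => (T i).ρ0
  d := fun i => (T i).d
  N := fun i => (T i).N
  hN := fun i => (T i).hN
  hd := fun i => (T i).hd
  τ := fun i => (T i).τ
  on := fun i => (T i).on
  τ0 := fun i => (T i).τ0
  surj := fun i => (T i).surj
  y := fun i => (T i).y
  top := fun i => (T i).top
  mid := fun i => (T i).mid
  jet := fun i => (T i).jet

/-- the direction of a tooth in the coordinates `y`, `x = P + ρ y` -/
def Tth.dir {O : Subalgebra k K} {n : ℕ} {F : MvPolynomial (Fin (n + 1)) O}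
    {P : Fin (n + 1) → O} {ρ : O} (T : Tth O F P ρ) (a : Fin (n + 1)) : k :=
  (T.ev ρ)⁻¹ * (T.τ a).coeff 1

/-- the vectors over `K` orthogonal to the gradient -/
def TS {O : Subalgebra k K} {n : ℕ} (Fd : Fin (n + 1) → O) : Submodule k (Fin (n + 1) → K) where
  carrier := {w | ∑ a, (Fd a : K) * w a = 0}
  add_mem' := by
    intro v w hv hw
    simp only [Set.mem_ofPred_eq, Pi.add_apply, mul_add, Finset.sum_add_distrib] at *
    rw [hv, hw, add_zero]
  zero_mem' := by simp
  smul_mem' := by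
    intro c v hv
    simp only [Set.mem_ofPred_eq, Pi.smul_apply] at *
    have h : ∀ a, (Fd a : K) * c • v a = c • ((Fd a : K) * v a) := fun a => mul_smul_comm _ _ _
    rw [Finset.sum_congr rfl fun a _ => h a, ← Finset.smul_sum, hv, smul_zero]

/-- the vectors orthogonal to the gradient which are a sum of one over `O` and one over `s^B R` -/
def TN (M : Mdl k K) {n : ℕ} (Fd : Fin (n + 1) → M.O) (B : ℕ) : Submodule k (Fin (n + 1) → K) where
  carrier := {w | ∃ (α : Fin (n + 1) → M.O) (r : Fin (n + 1) → K), ∑ a, (Fd a : K) * (α a : K) = 0 ∧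
    ∑ a, (Fd a : K) * r a = 0 ∧ (∀ a, Inf M B (r a)) ∧ ∀ a, w a = α a + r a}
  add_mem' := by
    rintro v w ⟨α, r, h1, h2, h3, h4⟩ ⟨α', r', h1', h2', h3', h4'⟩
    refine ⟨fun a => α a + α' a, fun a => r a + r' a, ?_, ?_, fun a => ?_, fun a => ?_⟩
    · simp only [Subalgebra.coe_add, mul_add, Finset.sum_add_distrib, h1, h1', add_zero]
    · simp only [mul_add, Finset.sum_add_distrib, h2, h2', add_zero]
    · obtain ⟨u, hu, e⟩ := h3 a
      obtain ⟨u', hu', e'⟩ := h3' a
      exact ⟨u + u', add_mem hu hu', by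
        show r a + r' a = _
        rw [e, e']; ring⟩
    · rw [Pi.add_apply, h4, h4', Subalgebra.coe_add]; ring
  zero_mem' := ⟨fun _ => 0, fun _ => 0, by simp, by simp, fun _ => ⟨0, zero_mem _, by simp⟩, by simp⟩
  smul_mem' := by
    rintro c v ⟨α, r, h1, h2, h3, h4⟩
    refine ⟨fun a => c • α a, fun a => c • r a, ?_, ?_, fun a => ?_, fun a => ?_⟩
    · have h : ∀ a, (Fd a : K) * ((c • α a : M.O) : K) = c • ((Fd a : K) * (α a : K)) := fun a => by
        rw [Subalgebra.coe_smul, mul_smul_comm]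
      rw [Finset.sum_congr rfl fun a _ => h a, ← Finset.smul_sum, h1, smul_zero]
    · have h : ∀ a, (Fd a : K) * (c • r a) = c • ((Fd a : K) * r a) := fun a => mul_smul_comm _ _ _
      rw [Finset.sum_congr rfl fun a _ => h a, ← Finset.smul_sum, h2, smul_zero]
    · obtain ⟨u, hu, e⟩ := h3 a
      exact ⟨c • u, Subalgebra.smul_mem _ hu c, by
        show c • r a = _
        rw [e, smul_mul_assoc]⟩
    · rw [Pi.smul_apply, h4, smul_add, Subalgebra.coe_smul]

/-- the lifts to `TS` of polar parts at places outside `Z` with directions in `D` -/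
def TL (M : Mdl k K) {n : ℕ} (Fd : Fin (n + 1) → M.O) (Z : Finset k)
    (D : (M.O →ₐ[k] k) → Set (Fin (n + 1) → k)) : Set (Fin (n + 1) → K) :=
  {w | ∑ a, (Fd a : K) * w a = 0 ∧ ∃ (ev : M.O →ₐ[k] k) (π : K) (v : Fin (n + 1) → k)
    (α : Fin (n + 1) → M.O), ev M.t ∉ Z ∧ Pole M.O ev π ∧ v ∈ D ev ∧
      ∀ a, w a = algebraMap k K (v a) * π - α a}

end

end Q9
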