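import Pool.Agent.LibQ9.T4b

/-!
[Q9 T4c] (MEDIUM; may cite T3, T4b, B3, B6, B12 as stated) Homogeneous representation.

PLAN. `P` from T4b, `Ω`, `γ` from T3 (through a generic point `q = vc γ 0`), `r` a Plücker vector. For `c ∈ kˣ` the curve `sc c γ` (B3: free, `Cor s`, same `Pos`) passes through `c q`, which is generic (`F` homogeneous: `G(c q) = 0` iff `F ∣ G(c X)` iff `F ∣ G`). So `P J (c q) r J' = P J' (c q) r J` and the same for `q`; as some `r J ≠ 0` the vectors `(P J (c q))_J` and `(P J (q))_J` are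
both proportional to `r`, so `P J (c q) P J' (q) = P J' (c q) P J (q)`. Write `P J = Σ_a (P J)_a` (homogeneous components): `Σ_a c^a [(P J)_a P J' - (P J')_a P J](q) = 0` for all `c ∈ kˣ` (`k` infinite), so every bracket vanishes at `q`, i.e. `F ∣ (P J)_a P J' - (P J')_a P J` for all `a, J, J'`. Choose `J₀` with `¬ F ∣ P J₀` and `e` with
`¬ F ∣ (P J₀)_e` (`F` homogeneous prime: `F ∣ P J₀` iff `F` divides all components). `η J = homogeneousComponent e (P J)`. Universality: at generic `q'`: `η J (q') P J' (q') = η J' (q') P J (q')`, and some `P J (q') ≠ 0`, and `P J (q') r J' = P J' (q') r J`; hence the claim (all three vectors `η(q')`, `P(q')`, `r` with `P(q') ≠ 0`, `r ≠ 0` are proportional).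
-/

set_option autoImplicit false

namespace Q9

open Polynomial

/-- value of a form at a multiple of a point -/
private theorem T4c_smul {k : Type} [Field k] {m : ℕ} (G : MvPolynomial (Fin m) k) (a : ℕ)
    (hG : G.IsHomogeneous a) {Ω : Type} [Field Ω] [Algebra k Ω] (q : Fin m → Ω) (c : Ω) :
    MvPolynomial.aeval (fun i => c * q i) G = c ^ a * MvPolynomial.aeval q G := by
  rw [MvPolynomial.aeval_def, MvPolynomial.aeval_def, MvPolynomial.eval₂_eq, MvPolynomial.eval₂_eq,
    Finset.mul_sum]
  apply Finset.sum_congr rfl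
  intro d hd
  have h1 : ∑ i ∈ d.support, d i = a := (hG.degree_eq_sum_deg_support hd).symm
  simp only [mul_pow, Finset.prod_mul_distrib]
  rw [Finset.prod_pow_eq_pow_sum, h1]
  ring

private theorem T4c_exp {k : Type} [Field k] {m : ℕ} (G : MvPolynomial (Fin m) k) (N : ℕ)
    (hN : G.totalDegree < N) {Ω : Type} [Field Ω] [Algebra k Ω] (q : Fin m → Ω) (c : Ω) :
    MvPolynomial.aeval (fun i => c * q i) G =
      ∑ a ∈ Finset.range N, c ^ a * MvPolynomial.aeval q (MvPolynomial.homogeneousComponent a G) := by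
  have h0 : G = ∑ a ∈ Finset.range N, MvPolynomial.homogeneousComponent a G := by
    conv_lhs => rw [← MvPolynomial.sum_homogeneousComponent G]
    apply Finset.sum_subset
    · intro x hx
      rw [Finset.mem_range] at hx ⊢
      omega
    · intro x _ hx
      rw [Finset.mem_range] at hx
      exact MvPolynomial.homogeneousComponent_eq_zero _ _ (by omega)
  conv_lhs => rw [h0]
  rw [map_sum]
  apply Finset.sum_congr rfl
  intro a _
  exact T4c_smul _ a (MvPolynomial.homogeneousComponent_isHomogeneous a G) q c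

/-- multiples of a generic point are generic -/
private theorem T4c_gen {k : Type} [Field k] {n : ℕ} (F : MvPolynomial (Fin (n + 1)) k)
    (hF : F.IsHomogeneous n) {Ω : Type} [Field Ω] [Algebra k Ω] (q : Fin (n + 1) → Ω)
    (hq : Gen F q) (c : k) (hc : c ≠ 0) : Gen F (fun i => algebraMap k Ω c * q i) := by
  have key : ∀ (b : k) (x : Fin (n + 1) → Ω) (G : MvPolynomial (Fin (n + 1)) k),
      MvPolynomial.aeval (fun i => algebraMap k Ω b * x i) G = MvPolynomial.aeval x
        (MvPolynomial.aeval (fun i => MvPolynomial.C b * MvPolynomial.X i :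
          Fin (n + 1) → MvPolynomial (Fin (n + 1)) k) G) := by
    intro b x G
    have : (MvPolynomial.aeval (fun i => algebraMap k Ω b * x i) :
        MvPolynomial (Fin (n + 1)) k →ₐ[k] Ω) = (MvPolynomial.aeval x).comp
        (MvPolynomial.aeval (fun i => MvPolynomial.C b * MvPolynomial.X i :
          Fin (n + 1) → MvPolynomial (Fin (n + 1)) k)) := by
      apply MvPolynomial.algHom_ext
      intro i
      simp
    rw [this]
    rfl
  have hdiv : ∀ (b : k), b ≠ 0 → ∀ (x : Fin (n + 1) → Ω), Gen F x → ∀ G, F ∣ G →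
      MvPolynomial.aeval (fun i => algebraMap k Ω b * x i) G = 0 := by
    intro b _ x hx G hG
    obtain ⟨G', rfl⟩ := hG
    rw [map_mul, T4c_smul F n hF x, (hx F).2 dvd_rfl, mul_zero, zero_mul]
  have hF1 : ∀ b : k, MvPolynomial.aeval (fun i => MvPolynomial.C b * MvPolynomial.X i :
          Fin (n + 1) → MvPolynomial (Fin (n + 1)) k) F = MvPolynomial.C (b ^ n) * F := by
    intro b
    rw [MvPolynomial.aeval_def, MvPolynomial.eval₂_eq]
    conv_rhs => rw [F.as_sum, Finset.mul_sum]
    apply Finset.sum_congr rfl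
    intro d hd
    have h1 : ∑ i ∈ d.support, d i = n := (hF.degree_eq_sum_deg_support hd).symm
    simp only [mul_pow, Finset.prod_mul_distrib]
    rw [Finset.prod_pow_eq_pow_sum, h1, MvPolynomial.monomial_eq, Finsupp.prod]
    simp only [MvPolynomial.algebraMap_eq, map_pow]
    ring
  intro G
  refine ⟨fun h => ?_, hdiv c hc q hq G⟩
  rw [key, hq] at h
  obtain ⟨G', hG'⟩ := h
  have h2 : (MvPolynomial.aeval (fun i => MvPolynomial.C c⁻¹ * MvPolynomial.X i :
          Fin (n + 1) → MvPolynomial (Fin (n + 1)) k)) (MvPolynomial.aeval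
          (fun i => MvPolynomial.C c * MvPolynomial.X i :
          Fin (n + 1) → MvPolynomial (Fin (n + 1)) k) G) = G := by
    have : ((MvPolynomial.aeval (fun i => MvPolynomial.C c⁻¹ * MvPolynomial.X i :
          Fin (n + 1) → MvPolynomial (Fin (n + 1)) k)).comp (MvPolynomial.aeval
          (fun i => MvPolynomial.C c * MvPolynomial.X i :
          Fin (n + 1) → MvPolynomial (Fin (n + 1)) k))) = AlgHom.id k _ := by
      apply MvPolynomial.algHom_ext
      intro i
      simp only [AlgHom.comp_apply, MvPolynomial.aeval_X, map_mul, MvPolynomial.aeval_C,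
        MvPolynomial.algebraMap_eq, AlgHom.id_apply]
      rw [← mul_assoc, ← MvPolynomial.C_mul, mul_inv_cancel₀ hc, MvPolynomial.C_1, one_mul]
    exact congrArg (fun f : MvPolynomial (Fin (n + 1)) k →ₐ[k] MvPolynomial (Fin (n + 1)) k => f G) this
  rw [hG', map_mul, hF1] at h2
  refine ⟨MvPolynomial.C (c⁻¹ ^ n) * MvPolynomial.aeval (fun i => MvPolynomial.C c⁻¹ *
    MvPolynomial.X i : Fin (n + 1) → MvPolynomial (Fin (n + 1)) k) G', ?_⟩
  rw [mul_left_comm, ← mul_assoc]
  exact h2.symm

theorem exists_rep {k : Type} [Field k] [Infinite k] {n : ℕ} (hn : 2 ≤ n)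
    (F : MvPolynomial (Fin (n + 1)) k) (hF : F.IsHomogeneous n) (hF0 : F ≠ 0)
    (hp : (Ideal.span {F}).IsPrime) (s : ℕ) (hs : 1 ≤ s) (hmin : MinC F s) :
    ∃ (e : ℕ) (η : (Fin (s + 1) → Fin (n + 1)) → MvPolynomial (Fin (n + 1)) k), Rep F s e η := by
  obtain ⟨P, ⟨J₀, hJ₀⟩, hP⟩ := exists_rep0 hn F hF hF0 hp s hs hmin
  obtain ⟨⟨d, γ₀, hf₀, hc₀⟩, hm⟩ := id hmin
  obtain ⟨Ω, iF, iA, γ, iC, hf, hc, hg, -, -⟩ := exists_sep hn F hF hF0 hp d s γ₀ hf₀ hc₀
  have hdim := finrank_pos hn F hF d s γ hf hc (fun c hc' => hm Ω d γ hf c hc')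
  obtain ⟨r, hr⟩ := exists_plu (c := s + 1) (Pos F d γ) (by omega)
  obtain ⟨J₁, hJ₁⟩ : ∃ J, r J ≠ 0 := by
    obtain ⟨N, -, -, h⟩ := hr
    exact h
  -- all multiples
  have hmul : ∀ c : k, c ≠ 0 → ∀ J J',
      MvPolynomial.aeval (fun i => algebraMap k Ω c * vc γ 0 i) (P J) * r J' =
      MvPolynomial.aeval (fun i => algebraMap k Ω c * vc γ 0 i) (P J') * r J := by
    intro c hc0 J J'
    have hc1 : algebraMap k Ω c ≠ 0 := by
      rw [Ne, map_eq_zero]
      exact hc0
    have e : vc (sc (algebraMap k Ω c) γ) 0 = fun i => algebraMap k Ω c * vc γ 0 i := by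
      funext i
      simp [vc, sc]
    have h1 := hP Ω d (sc (algebraMap k Ω c) γ) (Free.sc F hF hf _ hc1) (Cor.sc F hF hc _ hc1)
      (by rw [e]; exact T4c_gen F hF _ hg c hc0) r (by rw [pos_sc F hF _ hc1]; exact hr) J J'
    rw [e] at h1
    exact h1
  have h1 : ∀ J J', MvPolynomial.aeval (vc γ 0) (P J) * r J' =
      MvPolynomial.aeval (vc γ 0) (P J') * r J := hP Ω d γ hf hc hg r hr
  have hprop : ∀ c : k, c ≠ 0 → ∀ J J',
      MvPolynomial.aeval (fun i => algebraMap k Ω c * vc γ 0 i) (P J) *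
        MvPolynomial.aeval (vc γ 0) (P J') =
      MvPolynomial.aeval (fun i => algebraMap k Ω c * vc γ 0 i) (P J') *
        MvPolynomial.aeval (vc γ 0) (P J) := by
    intro c hc0 J J'
    have a1 := hmul c hc0 J J₁
    have a2 := hmul c hc0 J' J₁
    have b1 := h1 J J₁
    have b2 := h1 J' J₁
    apply mul_right_cancel₀ (mul_ne_zero hJ₁ hJ₁)
    linear_combination (MvPolynomial.aeval (vc γ 0) (P J') * r J₁) * a1 -
      (MvPolynomial.aeval (vc γ 0) (P J) * r J₁) * a2 +
      (MvPolynomial.aeval (fun i => algebraMap k Ω c * vc γ 0 i) (P J₁) * r J) * b2 -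
      (MvPolynomial.aeval (fun i => algebraMap k Ω c * vc γ 0 i) (P J₁) * r J') * b1
  have hbr : ∀ a J J', MvPolynomial.aeval (vc γ 0) (MvPolynomial.homogeneousComponent a (P J)) *
        MvPolynomial.aeval (vc γ 0) (P J') =
      MvPolynomial.aeval (vc γ 0) (MvPolynomial.homogeneousComponent a (P J')) *
        MvPolynomial.aeval (vc γ 0) (P J) := by
    intro a J J'
    obtain ⟨N, hN1, hN2, hNa⟩ : ∃ N, (P J).totalDegree < N ∧ (P J').totalDegree < N ∧ a < N :=
      ⟨(P J).totalDegree + (P J').totalDegree + a + 1, by omega, by omega, by omega⟩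
    let T : Polynomial Ω := ∑ b ∈ Finset.range N, C
      (MvPolynomial.aeval (vc γ 0) (MvPolynomial.homogeneousComponent b (P J)) *
        MvPolynomial.aeval (vc γ 0) (P J') -
      MvPolynomial.aeval (vc γ 0) (MvPolynomial.homogeneousComponent b (P J')) *
        MvPolynomial.aeval (vc γ 0) (P J)) * X ^ b
    have hT : T = 0 := by
      apply Polynomial.eq_zero_of_infinite_isRoot
      have hinf : ((fun c : k => algebraMap k Ω c) '' {c : k | c ≠ 0}).Infinite := by
        apply Set.Infinite.image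
        · intro x _ y _ hxy
          exact (algebraMap k Ω).injective hxy
        · have : {c : k | c ≠ 0} = ({0} : Set k)ᶜ := by
            ext x
            simp
          rw [this]
          exact (Set.finite_singleton (0 : k)).infinite_compl
      refine hinf.mono ?_
      rintro _ ⟨c, hc0, rfl⟩
      have h2 := hprop c hc0 J J'
      rw [T4c_exp (P J) N hN1, T4c_exp (P J') N hN2, Finset.sum_mul, Finset.sum_mul,
        ← sub_eq_zero, ← Finset.sum_sub_distrib] at h2
      simp only [Polynomial.IsRoot.def, T, Polynomial.eval_finsetSum,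
        Polynomial.eval_mul, Polynomial.eval_C, Polynomial.eval_pow, Polynomial.eval_X]
      rw [← h2]
      apply Finset.sum_congr rfl
      intro b _
      ring
    have hco : T.coeff a = 0 := by rw [hT, coeff_zero]
    have hco2 : T.coeff a = MvPolynomial.aeval (vc γ 0) (MvPolynomial.homogeneousComponent a (P J)) *
        MvPolynomial.aeval (vc γ 0) (P J') -
      MvPolynomial.aeval (vc γ 0) (MvPolynomial.homogeneousComponent a (P J')) *
        MvPolynomial.aeval (vc γ 0) (P J) := by
      simp only [T, Polynomial.finsetSum_coeff, Polynomial.coeff_C_mul_X_pow]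
      rw [Finset.sum_ite_eq]
      rw [if_pos (Finset.mem_range.2 hNa)]
    rw [hco2] at hco
    exact sub_eq_zero.1 hco
  have hdv : ∀ a J J', F ∣ MvPolynomial.homogeneousComponent a (P J) * P J' -
      MvPolynomial.homogeneousComponent a (P J') * P J := by
    intro a J J'
    rw [← hg, map_sub, map_mul, map_mul, hbr a J J', sub_self]
  obtain ⟨e, he⟩ : ∃ e, ¬ F ∣ MvPolynomial.homogeneousComponent e (P J₀) := by
    by_contra hcon
    push Not at hcon
    apply hJ₀
    rw [← MvPolynomial.sum_homogeneousComponent (P J₀)]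
    exact Finset.dvd_sum fun a _ => hcon a
  refine ⟨e, fun J => MvPolynomial.homogeneousComponent e (P J), fun J =>
    MvPolynomial.homogeneousComponent_isHomogeneous e _, ⟨J₀, he⟩, ?_⟩
  intro Ω' _ _ _ d' γ' hf' hc' hg' r' hr' J J'
  have k1 := hP Ω' d' γ' hf' hc' hg' r' hr'
  have k2 : ∀ J J', MvPolynomial.aeval (vc γ' 0) (MvPolynomial.homogeneousComponent e (P J)) *
        MvPolynomial.aeval (vc γ' 0) (P J') =
      MvPolynomial.aeval (vc γ' 0) (MvPolynomial.homogeneousComponent e (P J')) *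
        MvPolynomial.aeval (vc γ' 0) (P J) := by
    intro J J'
    have := (hg' _).2 (hdv e J J')
    rw [map_sub, map_mul, map_mul] at this
    exact sub_eq_zero.1 this
  have k3 : MvPolynomial.aeval (vc γ' 0) (P J₀) ≠ 0 := fun h => hJ₀ ((hg' _).1 h)
  apply mul_right_cancel₀ k3
  have c1 := k1 J₀ J'
  have c2 := k1 J₀ J
  have c3 := k2 J J'
  linear_combination (MvPolynomial.aeval (vc γ' 0) (MvPolynomial.homogeneousComponent e (P J))) * c1 -
    (MvPolynomial.aeval (vc γ' 0) (MvPolynomial.homogeneousComponent e (P J'))) * c2 +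
    r' J₀ * c3

end Q9
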