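import Pool.Agent.LibQ9.TDefs

/-!
[Q9 T6] (MEDIUM) Removing common divisors with HU.

PLAN. Induction on `e`. If for every homogeneous prime `Q ≠ span {F}` containing `F` and all `η J` there is a homogeneous prime strictly between, take `η' = η`. Otherwise let `Q` be such a prime without one; HU gives a form `G ∈ Q`, `G ∉ span {F}`, with `span {F, G}` prime (it is homogeneous, `≠ span {F}`, `≤ Q`), so `Q = span {F, G}`. `G` has degree `g > 0`
(`G` of degree `0` would be a unit in `Q`; `G ≠ 0`). `η J ∈ span {F, G}`: `η J = F a + G b`; take components of degree `e`: `η J = F a' + G b'` with `b'` homogeneous of degree `e - g` (`b' = 0` if `e < g`; but for `J` with `¬ F ∣ η J` necessarily `g ≤ e`). `η'' J = b'`. Then `Rep F s (e - g) η''`: `¬ F ∣ b'` for such a `J`; universality: at a generic point `q`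
`η J (q) = G(q) b'_J (q)` with `G(q) ≠ 0` (`¬ F ∣ G`), cancel. `e - g < e`: induction.
-/

set_option autoImplicit false

namespace Q9

open MvPolynomial

private theorem T6_hc {k : Type} [Field k] {m n : ℕ} (a F : MvPolynomial (Fin m) k)
    (hF : F.IsHomogeneous n) (e : ℕ) :
    homogeneousComponent e (a * F) =
      (if n ≤ e then homogeneousComponent (e - n) a else 0) * F := by
  have h1 : ∀ i, homogeneousComponent e (homogeneousComponent i a * F) =
      if e = i + n then homogeneousComponent i a * F else 0 := by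
    intro i
    exact homogeneousComponent_of_mem ((homogeneousComponent_isHomogeneous i a).mul hF)
  have h2 : a * F = ∑ i ∈ Finset.range (a.totalDegree + 1), homogeneousComponent i a * F := by
    rw [← Finset.sum_mul, sum_homogeneousComponent]
  rw [h2, map_sum, Finset.sum_congr rfl fun i _ => h1 i]
  by_cases hne : n ≤ e
  · rw [if_pos hne]
    by_cases hr : e - n ∈ Finset.range (a.totalDegree + 1)
    · rw [Finset.sum_eq_single (e - n)]
      · rw [if_pos (by omega)]
      · intro b _ hb
        rw [if_neg (by omega)]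
      · intro h
        exact absurd hr h
    · rw [Finset.sum_eq_zero, homogeneousComponent_eq_zero, zero_mul]
      · rw [Finset.mem_range] at hr
        omega
      · intro i hi
        rw [if_neg]
        intro h
        apply hr
        have : e - n = i := by omega
        rw [this]
        exact hi
  · rw [if_neg hne, zero_mul]
    apply Finset.sum_eq_zero
    intro i _
    rw [if_neg (by omega)]

theorem exists_prim {k : Type} [Field k] {n : ℕ} (F : MvPolynomial (Fin (n + 1)) k)
    (hF : F.IsHomogeneous n) (hF0 : F ≠ 0) (hp : (Ideal.span {F}).IsPrime) (hU : HU F) (s e : ℕ)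
    (η : (Fin (s + 1) → Fin (n + 1)) → MvPolynomial (Fin (n + 1)) k) (h : Rep F s e η) :
    ∃ (e' : ℕ) (η' : (Fin (s + 1) → Fin (n + 1)) → MvPolynomial (Fin (n + 1)) k), Rep F s e' η' ∧
      ∀ Q : Ideal (MvPolynomial (Fin (n + 1)) k), Q.IsPrime →
        (∀ f ∈ Q, ∀ i, homogeneousComponent i f ∈ Q) → F ∈ Q → Q ≠ Ideal.span {F} →
        (∀ J, η' J ∈ Q) →
        ∃ Q₁ : Ideal (MvPolynomial (Fin (n + 1)) k), Q₁.IsPrime ∧ Ideal.span {F} < Q₁ ∧ Q₁ < Q := by
  induction e using Nat.strong_induction_on generalizing η with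
  | _ e ih =>
  by_cases hcase : ∀ Q : Ideal (MvPolynomial (Fin (n + 1)) k), Q.IsPrime →
        (∀ f ∈ Q, ∀ i, homogeneousComponent i f ∈ Q) → F ∈ Q → Q ≠ Ideal.span {F} →
        (∀ J, η J ∈ Q) →
        ∃ Q₁ : Ideal (MvPolynomial (Fin (n + 1)) k), Q₁.IsPrime ∧ Ideal.span {F} < Q₁ ∧ Q₁ < Q
  · exact ⟨e, η, h, hcase⟩
  push Not at hcase
  obtain ⟨Q, hQp, hQh, hFQ, hQF, hηQ, hno⟩ := hcase
  obtain ⟨g, G, hGh, hGQ, hGF, hGp⟩ := hU Q hQp hQh hFQ hQF
  have hle : Ideal.span {F, G} ≤ Q := by
    rw [Ideal.span_le]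
    intro x hx
    rcases hx with hx | hx
    · rw [hx]; exact hFQ
    · rw [Set.mem_singleton_iff.1 hx]; exact hGQ
  have hlt : Ideal.span {F} < Ideal.span {F, G} := by
    refine lt_of_le_of_ne (Ideal.span_mono (by intro x hx; exact Or.inl hx)) ?_
    intro heq
    apply hGF
    rw [heq]
    exact Ideal.subset_span (Or.inr rfl)
  have hQeq : Ideal.span {F, G} = Q := by
    by_contra hne
    exact hno _ hGp hlt (lt_of_le_of_ne hle hne)
  have hG0 : G ≠ 0 := by
    intro h0
    apply hGF
    rw [h0]
    exact Ideal.zero_mem _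
  have hg : 0 < g := by
    rcases Nat.eq_zero_or_pos g with h0 | h0
    · exfalso
      rw [h0] at hGh
      have hc : G = C (coeff 0 G) := by
        have := hGh
        rw [← mem_homogeneousSubmodule] at this
        have h1 := totalDegree_eq_zero_iff_eq_C.1 (Nat.le_zero.1 (hGh.totalDegree_le))
        exact h1
      have hc0 : coeff 0 G ≠ 0 := by
        intro h1
        rw [h1, map_zero] at hc
        exact hG0 hc
      apply hQp.ne_top
      rw [Ideal.eq_top_iff_one]
      have h2 : (C (coeff 0 G)⁻¹ : MvPolynomial (Fin (n + 1)) k) * G ∈ Q := Q.mul_mem_left _ hGQ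
      rw [hc, ← C_mul, coeff_C, if_pos rfl, inv_mul_cancel₀ hc0, C_1] at h2
      exact h2
    · exact h0
  have hab : ∀ J, ∃ a b : MvPolynomial (Fin (n + 1)) k, a * F + b * G = η J := by
    intro J
    have h1 := hηQ J
    rw [← hQeq] at h1
    exact Ideal.mem_span_pair.1 h1
  choose a b hab using hab
  obtain ⟨hr1, ⟨J0, hJ0⟩, hr3⟩ := h
  set b' : (Fin (s + 1) → Fin (n + 1)) → MvPolynomial (Fin (n + 1)) k := fun J =>
    if g ≤ e then homogeneousComponent (e - g) (b J) else 0 with hb'
  have hη : ∀ J, η J = (if n ≤ e then homogeneousComponent (e - n) (a J) else 0) * F +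
      b' J * G := by
    intro J
    have h1 : homogeneousComponent e (η J) = η J := by
      have h2 := homogeneousComponent_of_mem (m := e) (hr1 J)
      rw [if_pos rfl] at h2
      exact h2
    rw [← h1, ← hab J, map_add, T6_hc _ _ hF, T6_hc _ _ hGh]
  have hnd : ¬ F ∣ b' J0 := by
    intro hd
    apply hJ0
    rw [hη J0]
    exact dvd_add (dvd_mul_left _ _) (hd.mul_right _)
  have hge : g ≤ e := by
    by_contra hlt'
    apply hnd
    rw [hb']
    simp only [if_neg hlt']
    exact dvd_zero _
  have hGnd : ¬ F ∣ G := fun hd => hGF (Ideal.mem_span_singleton.2 hd)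
  refine ih (e - g) (by omega) b' ⟨?_, ⟨J0, hnd⟩, ?_⟩
  · intro J
    rw [hb']
    simp only [if_pos hge]
    exact homogeneousComponent_isHomogeneous _ _
  · intro Ω _ _ _ d γ hfree hcor hgen r hplu J J'
    have h1 := hr3 Ω d γ hfree hcor hgen r hplu J J'
    have hF0' : aeval (vc γ 0) F = 0 := (hgen F).2 dvd_rfl
    have hG0' : aeval (vc γ 0) G ≠ 0 := fun h0 => hGnd ((hgen G).1 h0)
    have h2 : ∀ J, aeval (vc γ 0) (η J) = aeval (vc γ 0) (b' J) * aeval (vc γ 0) G := by
      intro J
      rw [hη J, map_add, map_mul, map_mul, hF0', mul_zero, zero_add]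
    rw [h2 J, h2 J'] at h1
    apply mul_right_cancel₀ hG0'
    linear_combination h1

end Q9
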