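import Pool.Agent.LibQ9.T5
import Pool.Agent.LibQ9.T6
import Pool.Agent.LibQ9.B7

/-!
[Q9 T7] (MEDIUM; may cite T5, T6, TG, B2, B3, B7 as stated) The degree of a representation without common divisors is `n - 1 - s`.

PLAN. `Ω`, `γ` from T5 (the free curve over `k` with `Cor s` from `MinC`). (i) for every `t ∈ Ω` some `η J (γ(t)) ≠ 0`: else let `q = γ(t)`, `Q = ` the ideal generated by the homogeneous elements of `ker (aeval q)`, i.e. the set of `f` all of whose components vanish at `q`; it is a homogeneous prime ideal (homogeneous core of a prime: Mathlib `Ideal.homogeneousCore` for the grading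
`MvPolynomial.homogeneousSubmodule`, or directly: `Q = ⋂_{c}` kernels ... ), contains `F` and all `η J`, `≠ span {F}`, so there is `Q₁` between and TG `gen_td_lt` gives `td q + 2 ≤ n`, but `td q ≥ n - 1`. (ii) some `η J (vc γ d) ≠ 0`: `td (vc γ d) ≥ n`, TG `gen_td_lt_one`. (iii) `M` from B7 `minors` for `γ` (`hmin` gives minimality). For `c ∈ k`, `t = algebraMap c`: the curve `tr t γ` is free with `Cor s` (B3),
`vc (tr t γ) 0 = γ(t)` is generic, `Plu (Pos (tr t γ)) (M(t))`: `Rep`: `η J (γ(t)) M J' (t) = η J' (γ(t)) M J (t)`. The polynomials `A J = aeval γ (η J)` satisfy `A J * M J' = A J' * M J` at infinitely many points of `Ω` (`k` infinite), so identically. (iv) both families generate the unit ideal of `Ω[X]` (no common zero in the algebraically closed field), so `A J = a M J` with `a ∈ Ωˣ`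
(`1 = Σ b_J M J`, `a = Σ b_J A J`; symmetric). (v) `A J` has degree `≤ e d` with coefficient `η J (vc γ d)` at `e d`, nonzero for some `J`; `M J` has maximal degree exactly `(n-1-s) d`: `e d = (n-1-s) d`, `d ≥ 1`.
-/

set_option autoImplicit false

namespace Q9

open Polynomial

/-- degree and top coefficient of a form along a curve -/
private theorem T7_top {k : Type} [Field k] {m : ℕ} {Ω : Type} [Field Ω] [Algebra k Ω] (d e : ℕ)
    (γ : Fin m → (Polynomial Ω)) (hγ : ∀ i, (γ i).natDegree ≤ d) (G : MvPolynomial (Fin m) k)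
    (hG : G.IsHomogeneous e) :
    (MvPolynomial.aeval γ G).natDegree ≤ e * d ∧
      (MvPolynomial.aeval γ G).coeff (e * d) = MvPolynomial.aeval (fun i => (γ i).coeff d) G := by
  have hprod : ∀ (a : Fin m →₀ ℕ) (s : Finset (Fin m)),
      (∏ i ∈ s, γ i ^ a i).natDegree ≤ (∑ i ∈ s, a i) * d ∧
        (∏ i ∈ s, γ i ^ a i).coeff ((∑ i ∈ s, a i) * d) = ∏ i ∈ s, (γ i).coeff d ^ a i := by
    intro a s
    induction s using Finset.induction_on with
    | empty => simp
    | insert j s hj ih =>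
      rw [Finset.prod_insert hj, Finset.sum_insert hj, Finset.prod_insert hj, add_mul]
      have h1 : (γ j ^ a j).natDegree ≤ a j * d :=
        (natDegree_pow_le).trans (Nat.mul_le_mul_left _ (hγ j))
      refine ⟨natDegree_mul_le.trans (Nat.add_le_add h1 ih.1), ?_⟩
      rw [coeff_mul_add_eq_of_natDegree_le h1 ih.1, ih.2, coeff_pow_of_natDegree_le (hγ j)]
  have hmon : ∀ a ∈ G.support, (∑ i, a i) = e := by
    intro a ha
    have := hG (MvPolynomial.mem_support_iff.1 ha)
    rw [Finsupp.weight_apply, Finsupp.sum_fintype _ _ (by simp)] at this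
    simpa using this
  rw [MvPolynomial.aeval_def, MvPolynomial.eval₂_eq', MvPolynomial.aeval_def, MvPolynomial.eval₂_eq']
  constructor
  · apply natDegree_sum_le_of_forall_le
    intro a ha
    have h2 := (hprod a Finset.univ).1
    rw [hmon a ha] at h2
    rw [IsScalarTower.algebraMap_apply k Ω (Polynomial Ω), ← Polynomial.C_eq_algebraMap]
    exact (natDegree_C_mul_le _ _).trans h2
  · rw [finsetSum_coeff]
    refine Finset.sum_congr rfl fun a ha => ?_
    have h2 := (hprod a Finset.univ).2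
    rw [hmon a ha] at h2
    rw [IsScalarTower.algebraMap_apply k Ω (Polynomial Ω), ← Polynomial.C_eq_algebraMap, coeff_C_mul, h2]

private theorem T7_eval {k : Type} [Field k] {m : ℕ} {Ω : Type} [Field Ω] [Algebra k Ω]
    (γ : Fin m → (Polynomial Ω)) (G : MvPolynomial (Fin m) k) (t : Ω) :
    (MvPolynomial.aeval γ G).eval t = MvPolynomial.aeval (fun i => (γ i).eval t) G := by
  rw [MvPolynomial.aeval_def, MvPolynomial.aeval_def, ← coe_evalRingHom,
    MvPolynomial.eval₂_comp_left (evalRingHom t)]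
  congr 1
  ext c
  simp [IsScalarTower.algebraMap_apply k Ω (Polynomial Ω)]

attribute [local instance] MvPolynomial.gradedAlgebra in
/-- no common zero: no homogeneous prime argument -/
private theorem T7_core {k : Type} [Field k] {n : ℕ}
    (F : MvPolynomial (Fin (n + 1)) k) (hF : F.IsHomogeneous n) (hF0 : F ≠ 0)
    (hp : (Ideal.span {F}).IsPrime) (s e : ℕ)
    (η : (Fin (s + 1) → Fin (n + 1)) → MvPolynomial (Fin (n + 1)) k)
    (hη : ∀ J, (η J).IsHomogeneous e) (hη' : ∃ J, ¬ F ∣ η J)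
    (hprim : ∀ Q : Ideal (MvPolynomial (Fin (n + 1)) k), Q.IsPrime →
        (∀ f ∈ Q, ∀ i, MvPolynomial.homogeneousComponent i f ∈ Q) → F ∈ Q → Q ≠ Ideal.span {F} →
        (∀ J, η J ∈ Q) →
        ∃ Q₁ : Ideal (MvPolynomial (Fin (n + 1)) k), Q₁.IsPrime ∧ Ideal.span {F} < Q₁ ∧ Q₁ < Q)
    {Ω : Type} [Field Ω] [Algebra k Ω] (q : Fin (n + 1) → Ω) (hqF : MvPolynomial.aeval q F = 0)
    (hq : ∀ J, MvPolynomial.aeval q (η J) = 0) : td k q + 2 ≤ n := by
  classical
  set P : Ideal (MvPolynomial (Fin (n + 1)) k) :=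
    RingHom.ker (MvPolynomial.aeval q : MvPolynomial (Fin (n + 1)) k →ₐ[k] Ω) with hP
  have hPp : P.IsPrime := RingHom.ker_isPrime _
  set Q := (P.homogeneousCore (MvPolynomial.homogeneousSubmodule (Fin (n + 1)) k)).toIdeal with hQ
  have hQp : Q.IsPrime := hPp.homogeneousCore
  have hQP : Q ≤ P := Ideal.toIdeal_homogeneousCore_le _ P
  have hQh : ∀ f ∈ Q, ∀ i, MvPolynomial.homogeneousComponent i f ∈ Q := by
    intro f hf i
    have h1 : Q.IsHomogeneous (MvPolynomial.homogeneousSubmodule (Fin (n + 1)) k) :=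
      (P.homogeneousCore (MvPolynomial.homogeneousSubmodule (Fin (n + 1)) k)).isHomogeneous
    exact MvPolynomial.homogeneousComponent_mem_of_mem h1 hf i
  have hmem : ∀ (G : MvPolynomial (Fin (n + 1)) k) (j : ℕ), G.IsHomogeneous j →
      MvPolynomial.aeval q G = 0 → G ∈ Q := by
    intro G j hG h0
    exact Ideal.mem_homogeneousCore_of_homogeneous_of_mem
      ⟨j, (MvPolynomial.mem_homogeneousSubmodule _ _).2 hG⟩ (by rw [hP, RingHom.mem_ker]; exact h0)
  obtain ⟨J₀, hJ₀⟩ := hη'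
  have hQF : F ∈ Q := hmem F n hF hqF
  have hQη : ∀ J, η J ∈ Q := fun J => hmem _ e (hη J) (hq J)
  have hne : Q ≠ Ideal.span {F} := by
    intro h
    have := hQη J₀
    rw [h, Ideal.mem_span_singleton] at this
    exact hJ₀ this
  obtain ⟨Q₁, h1, h2, h3⟩ := hprim Q hQp hQh hQF hne hQη
  exact gen_td_lt (hp := hp) F hF0 q Q₁ Q h1 hQp h2 h3 hQP

theorem degree_rep {k : Type} [Field k] [Infinite k] {n : ℕ} (hn : 2 ≤ n)
    (F : MvPolynomial (Fin (n + 1)) k) (hF : F.IsHomogeneous n) (hSm : Sm F) (hF0 : F ≠ 0)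
    (hp : (Ideal.span {F}).IsPrime) (s e : ℕ) (hmin : MinC F s)
    (η : (Fin (s + 1) → Fin (n + 1)) → MvPolynomial (Fin (n + 1)) k) (h : Rep F s e η)
    (hprim : ∀ Q : Ideal (MvPolynomial (Fin (n + 1)) k), Q.IsPrime →
        (∀ f ∈ Q, ∀ i, MvPolynomial.homogeneousComponent i f ∈ Q) → F ∈ Q → Q ≠ Ideal.span {F} →
        (∀ J, η J ∈ Q) →
        ∃ Q₁ : Ideal (MvPolynomial (Fin (n + 1)) k), Q₁.IsPrime ∧ Ideal.span {F} < Q₁ ∧ Q₁ < Q) :
    s ≤ n - 1 ∧ e = n - 1 - s := by
  obtain ⟨⟨d, γ₀, h₀, hc₀⟩, hmin'⟩ := hmin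
  obtain ⟨hη, hη', hrep⟩ := h
  obtain ⟨Ω, iF, iA, γ, hΩ, hfree, hcor, hinf, hgen, htd⟩ :=
    exists_generic hn F hF hSm hF0 hp d s γ₀ h₀ hc₀
  have iInf : Infinite Ω := Infinite.of_injective _ (algebraMap k Ω).injective
  obtain ⟨hs, M, hM1, hM2, ⟨J₂, hJ₂⟩, hM4⟩ :=
    minors hn F hF d s γ hfree hcor (hmin' Ω d γ hfree)
  have hd : 1 ≤ d := hfree.1
  have hγd : ∀ i, (γ i).natDegree ≤ d := hfree.2.1.1
  have hγF : MvPolynomial.aeval γ F = 0 := hfree.2.1.2
  refine ⟨hs, ?_⟩
  -- (i)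
  have hA1 : ∀ t : Ω, ∃ J, (MvPolynomial.aeval γ (η J)).eval t ≠ 0 := by
    intro t
    by_contra hcon
    push Not at hcon
    have h1 : td k (fun i => (γ i).eval t) + 2 ≤ n := by
      refine T7_core F hF hF0 hp s e η hη hη' hprim _ ?_ ?_
      · rw [← T7_eval, hγF, eval_zero]
      · intro J
        rw [← T7_eval]
        exact hcon J
    have h2 := htd t
    omega
  -- (ii)
  obtain ⟨J₁, hJ₁⟩ : ∃ J, MvPolynomial.aeval (fun i => (γ i).coeff d) (η J) ≠ 0 := by
    obtain ⟨J₀, hJ₀⟩ := hη'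
    refine ⟨J₀, fun h0 => ?_⟩
    have h1 : td k (vc γ d) + 1 ≤ n := by
      refine gen_td_lt_one (hp := hp) F hF0 (vc γ d) ?_ (η J₀) hJ₀ h0
      have := (T7_top d n γ hγd F hF).2
      rw [hγF, coeff_zero] at this
      exact this.symm
    omega
  -- (iii)
  have hrel : ∀ J J', MvPolynomial.aeval γ (η J) * M J' = MvPolynomial.aeval γ (η J') * M J := by
    intro J J'
    rw [← sub_eq_zero]
    apply eq_zero_of_infinite_isRoot
    apply (Set.infinite_range_of_injective (algebraMap k Ω).injective).mono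
    rintro _ ⟨c, rfl⟩
    have hvc : vc (tr (algebraMap k Ω c) γ) 0 = fun i => (γ i).eval (algebraMap k Ω c) := by
      funext i
      simp [vc, tr, coeff_zero_eq_eval_zero, eval_comp]
    have h1 := hrep Ω d (tr (algebraMap k Ω c) γ) (Free.tr F hfree _) (Cor.tr F hcor _)
      (by rw [hvc]; exact hgen c) _ (hM4 (algebraMap k Ω c)) J J'
    rw [hvc, ← T7_eval, ← T7_eval] at h1
    simp only [Set.mem_ofPred_eq, IsRoot.def, eval_sub, eval_mul]
    rw [h1, sub_self]
  -- (iv)
  have hspan : Ideal.span (Set.range M) = ⊤ := by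
    obtain ⟨g, hg⟩ := (IsPrincipalIdealRing.principal (Ideal.span (Set.range M))).principal
    by_contra hne
    have hg' : g.degree ≠ 0 := by
      intro h0
      apply hne
      rw [hg]
      have : IsUnit g := isUnit_iff_degree_eq_zero.2 h0
      exact Ideal.span_singleton_eq_top.2 this
    obtain ⟨t, ht⟩ := IsAlgClosed.exists_root g hg'
    obtain ⟨J, hJ⟩ := hM1 t
    apply hJ
    have h1 : M J ∈ Ideal.span (Set.range M) := Ideal.subset_span ⟨J, rfl⟩
    rw [hg] at h1
    obtain ⟨u, hu⟩ := Ideal.mem_span_singleton'.1 h1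
    rw [← hu, eval_mul, ht.eq_zero, mul_zero]
  obtain ⟨b, hb⟩ := Ideal.mem_span_range_iff_exists_fun.1 (hspan ▸ Submodule.mem_top : (1 : (Polynomial Ω)) ∈ Ideal.span (Set.range M))
  set a : (Polynomial Ω) := ∑ J, b J * MvPolynomial.aeval γ (η J) with ha
  have haM : ∀ J, MvPolynomial.aeval γ (η J) = a * M J := by
    intro J
    calc MvPolynomial.aeval γ (η J) = MvPolynomial.aeval γ (η J) * ∑ J', b J' * M J' := by
          rw [hb, mul_one]
      _ = ∑ J', b J' * (MvPolynomial.aeval γ (η J) * M J') := by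
          rw [Finset.mul_sum]
          exact Finset.sum_congr rfl fun J' _ => by ring
      _ = ∑ J', b J' * (MvPolynomial.aeval γ (η J') * M J) := by
          exact Finset.sum_congr rfl fun J' _ => by rw [hrel J J']
      _ = a * M J := by
          rw [ha, Finset.sum_mul]
          exact Finset.sum_congr rfl fun J' _ => by ring
  have ha0 : a.degree = 0 := by
    by_contra hne
    obtain ⟨t, ht⟩ := IsAlgClosed.exists_root a hne
    obtain ⟨J, hJ⟩ := hA1 t
    apply hJ
    rw [haM J, eval_mul, ht.eq_zero, zero_mul]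
  obtain ⟨c, hc⟩ : ∃ c, a = C c := ⟨_, eq_C_of_degree_eq_zero ha0⟩
  have hc0 : c ≠ 0 := by
    rintro rfl
    rw [hc] at ha0
    simp at ha0
  -- (v)
  have hdeg : ∀ J, (MvPolynomial.aeval γ (η J)).natDegree = (M J).natDegree := by
    intro J
    rw [haM J, hc, natDegree_C_mul hc0]
  have h1 : e * d ≤ (n - 1 - s) * d := by
    refine le_trans ?_ (hM2 J₁)
    rw [← hdeg J₁]
    apply le_natDegree_of_ne_zero
    rw [(T7_top d e γ hγd (η J₁) (hη J₁)).2]
    exact hJ₁
  have h2 : (n - 1 - s) * d ≤ e * d := by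
    refine le_trans ?_ (T7_top d e γ hγd (η J₂) (hη J₂)).1
    rw [hdeg J₂]
    exact le_natDegree_of_ne_zero hJ₂
  exact Nat.eq_of_mul_eq_mul_right hd (le_antisymm h1 h2)

end Q9
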