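import Pool.Agent.LibQ9.T3
import Pool.Agent.LibQ9.B12
import Pool.Agent.LibQ9.B6
import Pool.Agent.LibQ9.B9

/-!
[Q9 T8] (SHORT/MEDIUM; may cite T3, B2, B6, B9, B12 as stated) `dF ∧ η` is divisible by `F`; the components with repeated indices are divisible by `F`.

PLAN. `Ω`, `γ` from T3, `q = vc γ 0` generic, `r` a Plücker vector of `Pos F d γ` (B6, B12 `exists_plu`), so the vector `(η J (q))_J` is proportional to `r` (`Rep`; `r ≠ 0`: `η J (q) = c r J` for all `J`). B9 `plu_wedge` with `g = ∇F(q)` (B2 `pos_sub`): `wdg F η J` vanishes at `q`, so `F` divides it. If `J` is not injective the minor `r J` has two equal columns, so `r J = 0`, `η J (q) = 0`, `F ∣ η J`.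
-/

set_option autoImplicit false

namespace Q9

open Polynomial

theorem wdg_dvd {k : Type} [Field k] {n : ℕ} (hn : 2 ≤ n) (F : MvPolynomial (Fin (n + 1)) k)
    (hF : F.IsHomogeneous n) (hF0 : F ≠ 0) (hp : (Ideal.span {F}).IsPrime) (s e : ℕ)
    (hmin : MinC F s) (η : (Fin (s + 1) → Fin (n + 1)) → MvPolynomial (Fin (n + 1)) k)
    (h : Rep F s e η) :
    (∀ J, F ∣ wdg F η J) ∧ ∀ J, ¬ Function.Injective J → F ∣ η J := by
  obtain ⟨⟨d, γ₀, h₀, hc₀⟩, hm⟩ := hmin
  obtain ⟨Ω, _, _, γ, hcl, hfree, hcor, hgen, -, -⟩ := exists_sep hn F hF hF0 hp d s γ₀ h₀ hc₀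
  haveI := hcl
  have hdim := finrank_pos hn F hF d s γ hfree hcor (fun c hc => hm Ω d γ hfree c hc)
  obtain ⟨r, hr⟩ := exists_plu (c := s + 1) (Pos F d γ) (by omega)
  have hrep := h.2.2 Ω d γ hfree hcor hgen r hr
  obtain ⟨N, hN1, hN2, J₀, hJ₀⟩ := id hr
  set q : Fin (n + 1) → Ω := vc γ 0 with hq
  have hc : ∃ c : Ω, ∀ J, MvPolynomial.aeval q (η J) = c * r J := by
    refine ⟨MvPolynomial.aeval q (η J₀) / r J₀, fun J => ?_⟩
    have h1 := hrep J J₀
    rw [div_mul_eq_mul_div, eq_div_iff hJ₀]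
    exact h1
  obtain ⟨c, hc⟩ := hc
  refine ⟨fun J => (hgen _).1 ?_, fun J hJ => (hgen _).1 ?_⟩
  · have h1 := plu_wedge (Pos F d γ) r hr (fun i => MvPolynomial.aeval q (MvPolynomial.pderiv i F))
      (fun v hv => pos_sub F v hv) J
    have h2 : MvPolynomial.aeval q (wdg F η J) =
        c * ∑ l : Fin (s + 1 + 1), (-1) ^ (l : ℕ) * MvPolynomial.aeval q (MvPolynomial.pderiv (J l) F) *
          r (fun a => J (l.succAbove a)) := by
      unfold wdg
      rw [map_sum, Finset.mul_sum]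
      refine Finset.sum_congr rfl fun l _ => ?_
      rw [map_mul, map_mul, map_pow, map_neg, map_one, hc]
      ring
    rw [h2, h1, mul_zero]
  · rw [hc, hN2]
    have h3 : ∃ a b, J a = J b ∧ a ≠ b := by
      by_contra hcon
      push Not at hcon
      exact hJ fun a b hab => hcon a b hab
    obtain ⟨a, b, hab, hne⟩ := h3
    rw [Matrix.det_zero_of_column_eq hne, mul_zero]
    intro i
    simp only [Matrix.submatrix_apply, id]
    rw [hab]

end Q9
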