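import Pool.Agent.LibQ9.BDefs

/-!
# LibQ9, block T: definitions
-/

set_option autoImplicit false

namespace Q9

open Polynomial

/-- the vector of polynomials of degree `< d` with coefficients `z` -/
noncomputable def lin {R : Type} [CommRing R] {n : ℕ} (d : ℕ) (z : Fin (n + 1) × Fin d → R) :
    Fin (n + 1) → R[X] := fun i => ∑ j : Fin d, C (z (i, j)) * X ^ (j : ℕ)

section

variable {k : Type} [Field k] {n : ℕ} (F : MvPolynomial (Fin (n + 1)) k)

/-- the equations of the curves of degree at most `d` on `F = 0`, unknowns: all coefficients -/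
noncomputable def eqA (d : ℕ) (j : Fin (n * d + 1)) : MvPolynomial (Fin (n + 1) × Fin (d + 1)) k :=
  (MvPolynomial.aeval (lin (d + 1) (MvPolynomial.X : _ → MvPolynomial (Fin (n + 1) × Fin (d + 1)) k))
    F).coeff j

/-- the equations of the curves `q + X γ`, `γ` of degree `< d`, on `F = 0`, unknowns: the coefficients of `γ` -/
noncomputable def eqB (q : Fin (n + 1) → k) (d : ℕ) (j : Fin (n * d)) :
    MvPolynomial (Fin (n + 1) × Fin d) k :=
  (MvPolynomial.aeval (fun i => C (MvPolynomial.C (q i)) +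
    X * lin d (MvPolynomial.X : _ → MvPolynomial (Fin (n + 1) × Fin d) k) i) F).coeff (j + 1)

/-- `s` is the minimal corank of a free curve, over all extensions of `k` -/
def MinC (s : ℕ) : Prop :=
  (∃ (d : ℕ) (γ : Fin (n + 1) → k[X]), Free F d γ ∧ Cor F d γ s) ∧
    ∀ (κ : Type) [Field κ] [Algebra k κ] (d : ℕ) (γ : Fin (n + 1) → κ[X]), Free F d γ →
      ∀ c < s, ¬ Cor F d γ c

/-- the component `J` of `dF ∧ α` -/
noncomputable def wdg {j : ℕ} (α : (Fin j → Fin (n + 1)) → MvPolynomial (Fin (n + 1)) k)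
    (J : Fin (j + 1) → Fin (n + 1)) : MvPolynomial (Fin (n + 1)) k :=
  ∑ l : Fin (j + 1), (-1) ^ (l : ℕ) * MvPolynomial.pderiv (J l) F * α (fun a => J (l.succAbove a))

/-- the family `η` of forms of degree `e` represents the subspaces `Pos` of the free curves of corank
`s` at all generic points -/
def Rep (s e : ℕ) (η : (Fin (s + 1) → Fin (n + 1)) → MvPolynomial (Fin (n + 1)) k) : Prop :=
  (∀ J, (η J).IsHomogeneous e) ∧ (∃ J, ¬ F ∣ η J) ∧
    ∀ (Ω : Type) [Field Ω] [Algebra k Ω] [IsAlgClosed Ω] (d : ℕ) (γ : Fin (n + 1) → Polynomial Ω),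
      Free F d γ → Cor F d γ s → Gen F (vc γ 0) →
      ∀ r : (Fin (s + 1) → Fin (n + 1)) → Ω, Plu (Pos F d γ) r → ∀ J J',
        MvPolynomial.aeval (vc γ 0) (η J) * r J' = MvPolynomial.aeval (vc γ 0) (η J') * r J

end

end Q9
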