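import Pool.Agent.LibPK60.K3
import Pool.Agent.LibPK60.K4
import Pool.Agent.LibQ9.TDefs

/-!
[Q9 T9] (MEDIUM; LibPK60 K3, K4 are proved and may be used) Syzygies of the partial derivatives in low degree, and the wedge version.
-/

set_option autoImplicit false

namespace Q9

open MvPolynomial

private theorem T9_zero {k : Type} [Field k] {N : ℕ} {d m : ℕ} (hm : m < d)
    {ι : Type} (T : Finset ι) (g : ι → MvPolynomial (Fin N) k) (hg : ∀ i, (g i).IsHomogeneous d)
    (f : ι → MvPolynomial (Fin N) k) (c : MvPolynomial (Fin N) k) (hc : c.IsHomogeneous m)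
    (h : c = ∑ i ∈ T, g i * f i) : c = 0 := by
  classical
  ext α
  rw [coeff_zero]
  by_cases hα : α.degree = m
  · rw [h, coeff_sum]
    refine Finset.sum_eq_zero fun i _ => ?_
    rw [coeff_mul]
    refine Finset.sum_eq_zero fun x hx => ?_
    rw [Finset.HasAntidiagonal.mem_antidiagonal] at hx
    have h1 : x.1.degree ≤ m := by
      rw [← hα, ← hx, map_add]
      exact Nat.le_add_right _ _
    rw [(hg i).coeff_eq_zero (by omega), zero_mul]
  · exact hc.coeff_eq_zero hα

theorem syz {k : Type} [Field k] {n : ℕ} (F : MvPolynomial (Fin (n + 1)) k)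
    (hF : F.IsHomogeneous n) (hSm : Sm F) (m : ℕ) (hm : m < n - 1)
    (c : Fin (n + 1) → MvPolynomial (Fin (n + 1)) k) (hc : ∀ i, (c i).IsHomogeneous m)
    (h : ∑ i, c i * pderiv i F = 0) (i : Fin (n + 1)) : c i = 0 := by
  classical
  obtain ⟨D, hD⟩ := hSm
  have hacy : Pool.Agent.LibPK60.Acy (fun i => pderiv i F) (MvPolynomial (Fin (n + 1)) k) 1 := by
    refine Pool.Agent.LibPK60.acy_reg (fun i => pderiv i F) _ ?_
      (Pool.Agent.LibPK60.xpow_regular k (n + 1) D) 1 ?_
    · intro y hy
      rw [List.mem_map] at hy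
      obtain ⟨j, _, rfl⟩ := hy
      exact hD j
    · rw [List.length_map, List.length_finRange]
      omega
  have hins : ∀ (a i : Fin (n + 1)), insert a (∅ : Finset (Fin (n + 1))) = {i} ↔ a = i := by
    intro a i
    rw [insert_empty_eq, Finset.singleton_inj]
  obtain ⟨f, hf⟩ : ∃ f : Finset (Fin (n + 1)) → MvPolynomial (Fin (n + 1)) k,
      f = fun J => ∑ i, if J = {i} then c i else 0 := ⟨_, rfl⟩
  have hf1 : ∀ i, f {i} = c i := by
    intro i
    rw [hf]
    simp [Finset.singleton_inj]
  have hf2 : ∀ J : Finset (Fin (n + 1)), J.card ≠ 1 → f J = 0 := by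
    intro J hJ
    rw [hf]
    refine Finset.sum_eq_zero fun i _ => if_neg ?_
    intro h1
    rw [h1, Finset.card_singleton] at hJ
    exact hJ rfl
  obtain ⟨f', _, hf'⟩ := hacy f (by
    funext J
    change ∑ j ∈ Jᶜ, Pool.Agent.LibPK60.sg j J • (pderiv j F • f (insert j J)) = 0
    by_cases hJ : J = ∅
    · subst hJ
      rw [← h]
      rw [Finset.compl_empty]
      refine Finset.sum_congr rfl fun j _ => ?_
      rw [insert_empty_eq, hf1]
      simp [Pool.Agent.LibPK60.sg, mul_comm]
    · refine Finset.sum_eq_zero fun j hj => ?_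
      rw [Finset.mem_compl] at hj
      rw [hf2, smul_zero, smul_zero]
      rw [Finset.card_insert_of_notMem hj]
      have := Finset.card_pos.2 (Finset.nonempty_iff_ne_empty.2 hJ)
      omega) (by
    intro J hJ
    exact hf2 J (by omega))
  have h1 : c i = ∑ j ∈ ({i} : Finset (Fin (n + 1)))ᶜ, pderiv j F *
      (Pool.Agent.LibPK60.sg j {i} • f' (insert j {i})) := by
    rw [← hf1 i, ← hf']
    change ∑ j ∈ ({i} : Finset (Fin (n + 1)))ᶜ, Pool.Agent.LibPK60.sg j {i} •
      (pderiv j F • f' (insert j {i})) = _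
    refine Finset.sum_congr rfl fun j _ => ?_
    rw [smul_eq_mul, mul_smul_comm]
  exact T9_zero hm _ (fun j => pderiv j F) (fun j => hF.pderiv) _ (c i) (hc i) h1

theorem wdg_inj {k : Type} [Field k] {n : ℕ} (F : MvPolynomial (Fin (n + 1)) k)
    (hF : F.IsHomogeneous n) (hSm : Sm F) (m j : ℕ) (hm : m < n - 1) (hj : j ≤ n)
    (α : (Fin j → Fin (n + 1)) → MvPolynomial (Fin (n + 1)) k) (hα : ∀ J, (α J).IsHomogeneous m)
    (h : ∀ J, Function.Injective J → wdg F α J = 0) (J : Fin j → Fin (n + 1))
    (hJ : Function.Injective J) : α J = 0 := by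
  classical
  obtain ⟨i, hi⟩ : ∃ i, i ∉ Set.range J := by
    by_contra hcon
    push Not at hcon
    have h1 : Function.Surjective J := hcon
    have h2 := Fintype.card_le_of_surjective J h1
    rw [Fintype.card_fin, Fintype.card_fin] at h2
    omega
  have hinj : Function.Injective (Fin.cons i J : Fin (j + 1) → Fin (n + 1)) :=
    Fin.cons_injective_iff.2 ⟨hi, hJ⟩
  obtain ⟨K, hK⟩ : ∃ K : Fin (j + 1) → Fin (n + 1), K = Fin.cons i J := ⟨_, rfl⟩
  have hinj' : Function.Injective K := by rw [hK]; exact hinj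
  have hK0 : K 0 = i := by rw [hK]; rfl
  have hKs : (fun a => K ((0 : Fin (j + 1)).succAbove a)) = J := by
    funext a
    rw [hK, Fin.zero_succAbove, Fin.cons_succ]
  have hw := h K hinj'
  have key := syz F hF hSm m hm
    (fun a => ∑ l : Fin (j + 1), if K l = a then (-1) ^ (l : ℕ) * α (fun b => K (l.succAbove b))
      else 0) (by
      intro a
      refine IsHomogeneous.sum _ _ _ fun l _ => ?_
      split_ifs
      · have h1 : ((-1 : MvPolynomial (Fin (n + 1)) k) ^ (l : ℕ)).IsHomogeneous 0 := by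
          have h2 : ((-1 : MvPolynomial (Fin (n + 1)) k) ^ (l : ℕ)) = C ((-1) ^ (l : ℕ)) := by
            rw [C_pow, C_neg, C_1]
          rw [h2]
          exact isHomogeneous_C _ _
        have h3 := h1.mul (hα (fun b => K (l.succAbove b)))
        rwa [zero_add] at h3
      · exact isHomogeneous_zero _ _ _) (by
      refine Eq.trans ?_ hw
      unfold wdg
      have hs : ∀ a : Fin (n + 1), (∑ l : Fin (j + 1), if K l = a then (-1) ^ (l : ℕ) *
          α (fun b => K (l.succAbove b)) else 0) * pderiv a F =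
          ∑ l : Fin (j + 1), if K l = a then (-1) ^ (l : ℕ) *
          α (fun b => K (l.succAbove b)) * pderiv a F else 0 := by
        intro a
        rw [Finset.sum_mul]
        refine Finset.sum_congr rfl fun l _ => ?_
        rw [ite_mul, zero_mul]
      rw [Finset.sum_congr rfl fun a _ => hs a]
      rw [Finset.sum_comm]
      refine Finset.sum_congr rfl fun l _ => ?_
      rw [Finset.sum_ite_eq Finset.univ (K l), if_pos (Finset.mem_univ _)]
      ring) i
  have h2 : (∑ l : Fin (j + 1), if K l = i then (-1) ^ (l : ℕ) * α (fun b => K (l.succAbove b))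
      else 0) = α J := by
    rw [Finset.sum_eq_single (0 : Fin (j + 1))]
    · rw [if_pos hK0, hKs]
      simp
    · intro l _ hl
      refine if_neg ?_
      intro h3
      exact hl (hinj' (h3.trans hK0.symm))
    · intro h3
      exact absurd (Finset.mem_univ _) h3
  rw [← h2]
  exact key

theorem wdg_wdg {k : Type} [Field k] {n : ℕ} (F : MvPolynomial (Fin (n + 1)) k) (j : ℕ)
    (α : (Fin j → Fin (n + 1)) → MvPolynomial (Fin (n + 1)) k)
    (J : Fin (j + 2) → Fin (n + 1)) : wdg F (fun J' => wdg F α J') J = 0 := by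
  classical
  unfold wdg
  simp_rw [Finset.mul_sum]
  rw [← Fintype.sum_prod_type']
  have hT : ∀ x : Fin (j + 2) × Fin (j + 1),
      ((-1) ^ (x.1 : ℕ) * pderiv (J x.1) F * ((-1) ^ (x.2 : ℕ) * pderiv (J (x.1.succAbove x.2)) F *
        α (fun a => J (x.1.succAbove (x.2.succAbove a)))) : MvPolynomial (Fin (n + 1)) k) +
      ((-1) ^ ((x.1.succAbove x.2 : Fin (j + 2)) : ℕ) * pderiv (J (x.1.succAbove x.2)) F *
        ((-1) ^ ((x.2.predAbove x.1 : Fin (j + 1)) : ℕ) *
          pderiv (J ((x.1.succAbove x.2).succAbove (x.2.predAbove x.1))) F *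
        α (fun a => J ((x.1.succAbove x.2).succAbove ((x.2.predAbove x.1).succAbove a))))) = 0 := by
    intro x
    have h1 := Fin.neg_one_pow_succAbove_add_predAbove (R := MvPolynomial (Fin (n + 1)) k) x.1 x.2
    rw [Fin.succAbove_succAbove_predAbove]
    simp_rw [Fin.succAbove_succAbove_succAbove_predAbove]
    rw [pow_add, pow_add] at h1
    linear_combination (pderiv (J (x.1.succAbove x.2)) F * pderiv (J x.1) F *
      α (fun a => J (x.1.succAbove (x.2.succAbove a)))) * h1
  refine Finset.sum_involution (fun x _ => (x.1.succAbove x.2, x.2.predAbove x.1)) ?_ ?_ ?_ ?_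
  · intro x _
    exact hT x
  · intro x _ _ h1
    have h2 := congrArg Prod.fst h1
    exact Fin.succAbove_ne _ _ h2
  · intro x _
    exact Finset.mem_univ _
  · intro x _
    refine Prod.ext ?_ ?_
    · exact Fin.succAbove_succAbove_predAbove _ _
    · exact Fin.predAbove_predAbove_succAbove _ _

end Q9
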