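import Pool.Agent.LibQ9.T1a
import Pool.Agent.LibQ9.T4c
import Pool.Agent.LibQ9.T6
import Pool.Agent.LibQ9.T7
import Pool.Agent.LibQ9.T8
import Pool.Agent.LibQ9.T9
import Pool.Agent.LibQ9.P6
import Pool.Agent.LibQ9.P7

/-!
[Q9 TFin] (SHORT/MEDIUM; assembly of block T: may cite P6, P7, T1a, T4c, T6, T7, T8, T9 as stated) Tian: a free curve and HU give a very free curve.

PLAN. `Sm F` (P6), `F ≠ 0`, `span {F}` prime (P7). `s` with `MinC F s` (T1a). If `s = 0` done. Suppose `s ≥ 1`. T4c: `Rep F s e η`; T6: without common divisors; T7: `s ≤ n - 1`, `e = n - 1 - s`. T8: `wdg F η J = F * c J`, and the `η J` with `J` not injective are divisible by `F`, so `0` (degree `e < n`); `wdg F η J` is homogeneous of degree `n - 1 + e`; if `s ≤ n - 2` take `c J`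
homogeneous of degree `e - 1 = n - 2 - s` (`e ≥ 1`), if `s = n - 1` then `e = 0`, `wdg F η J` of degree `n - 1 < n` is `0`, `c = 0`. T9 `wdg_wdg`: `F * wdg F c J = wdg F (wdg F η) J = 0`, so `wdg F c = 0`, and `wdg_inj` (`j = s + 2 ≤ n`, `m = n - 2 - s < n - 1`) gives `c J = 0` for injective `J`, so `wdg F η J = 0` for injective `J`, and `wdg_inj`
(`j = s + 1 ≤ n`, `m = n - 1 - s < n - 1` as `s ≥ 1`) gives `η J = 0` for injective `J`. So all `η J = 0`, contradicting `∃ J, ¬ F ∣ η J`.
-/

set_option autoImplicit false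

namespace Q9

open Polynomial

private theorem TFin_zero {k : Type} [Field k] {m n p : ℕ} {F P : MvPolynomial (Fin m) k}
    (hF : F.IsHomogeneous n) (hF0 : F ≠ 0) (hP : P.IsHomogeneous p) (hpn : p < n) (hd : F ∣ P) :
    P = 0 := by
  by_contra hP0
  have h1 := MvPolynomial.totalDegree_le_of_dvd_of_isDomain hd hP0
  rw [hF.totalDegree hF0, hP.totalDegree hP0] at h1
  omega

private theorem TFin_quot {k : Type} [Field k] {m n p : ℕ} {F P : MvPolynomial (Fin m) k}
    (hF : F.IsHomogeneous n) (hP : P.IsHomogeneous (n + p)) (hd : F ∣ P) :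
    ∃ c : MvPolynomial (Fin m) k, c.IsHomogeneous p ∧ P = F * c := by
  obtain ⟨c, hc⟩ := hd
  refine ⟨MvPolynomial.homogeneousComponent p c,
    MvPolynomial.homogeneousComponent_isHomogeneous _ _, ?_⟩
  have h1 := MvPolynomial.homogeneousComponent_eq_self hP
  rw [← h1]
  nth_rw 1 [hc, ← MvPolynomial.sum_homogeneousComponent c]
  rw [Finset.mul_sum, map_sum]
  have h2 : ∀ i, MvPolynomial.homogeneousComponent (n + p)
      (F * MvPolynomial.homogeneousComponent i c) =
      if i = p then F * MvPolynomial.homogeneousComponent p c else 0 := by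
    intro i
    have h3 : (F * MvPolynomial.homogeneousComponent i c).IsHomogeneous (n + i) :=
      hF.mul (MvPolynomial.homogeneousComponent_isHomogeneous i c)
    rw [MvPolynomial.homogeneousComponent_of_mem h3]
    by_cases h : i = p
    · subst h
      simp
    · rw [if_neg (by omega), if_neg h]
  rw [Finset.sum_congr rfl fun i _ => h2 i, Finset.sum_ite_eq']
  split_ifs with h
  · rfl
  · rw [MvPolynomial.homogeneousComponent_eq_zero, mul_zero]
    simpa using h

private theorem TFin_hom {k : Type} [Field k] {n : ℕ} {F : MvPolynomial (Fin (n + 1)) k}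
    (hF : F.IsHomogeneous n) {j m : ℕ}
    {α : (Fin j → Fin (n + 1)) → MvPolynomial (Fin (n + 1)) k} (hα : ∀ J, (α J).IsHomogeneous m)
    (J : Fin (j + 1) → Fin (n + 1)) : (wdg F α J).IsHomogeneous (n - 1 + m) := by
  unfold wdg
  refine MvPolynomial.IsHomogeneous.sum _ _ _ fun l _ => ?_
  have h1 : ((-1 : MvPolynomial (Fin (n + 1)) k) ^ (l : ℕ)).IsHomogeneous 0 := by
    have h2 : (-1 : MvPolynomial (Fin (n + 1)) k).IsHomogeneous 0 :=
      (MvPolynomial.isHomogeneous_one _ _).neg
    simpa using h2.pow (l : ℕ)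
  have h3 := (h1.mul (hF.pderiv (i := J l))).mul (hα fun a => J (l.succAbove a))
  rwa [zero_add] at h3

private theorem TFin_smul {k : Type} [Field k] {n : ℕ} (F : MvPolynomial (Fin (n + 1)) k) {j : ℕ}
    (G : MvPolynomial (Fin (n + 1)) k)
    (α : (Fin j → Fin (n + 1)) → MvPolynomial (Fin (n + 1)) k)
    (J : Fin (j + 1) → Fin (n + 1)) : wdg F (fun J' => G * α J') J = G * wdg F α J := by
  unfold wdg
  rw [Finset.mul_sum]
  exact Finset.sum_congr rfl fun l _ => by ring

theorem very_free {k : Type} [Field k] [IsAlgClosed k] {n : ℕ} (hn : 4 ≤ n) (hn0 : (n : k) ≠ 0)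
    (F : MvPolynomial (Fin (n + 1)) k) (hF : F.IsHomogeneous n) (hs : Smooth F) (hU : HU F)
    (h : ∃ (d : ℕ) (γ : Fin (n + 1) → k[X]), Free F d γ) :
    ∃ (d : ℕ) (γ : Fin (n + 1) → k[X]), Free F d γ ∧ Cor F d γ 0 := by
  haveI : Infinite k := IsAlgClosed.instInfinite
  have hSm : Sm F := sm_of_smooth F hs
  have hF0 : F ≠ 0 := by
    rintro rfl
    have h1 := hs (fun _ => 1) (fun i => by simp)
    exact one_ne_zero (congrFun h1 0)
  have hp : (Ideal.span {F}).IsPrime := prime_of_smooth (by omega) F hF hs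
  obtain ⟨s, hmin⟩ := exists_minC F h
  rcases Nat.eq_zero_or_pos s with rfl | hs1
  · exact hmin.1
  exfalso
  obtain ⟨e₀, η₀, hη₀⟩ := exists_rep (by omega) F hF hF0 hp s hs1 hmin
  obtain ⟨e, η, hη, hprim⟩ := exists_prim F hF hF0 hp hU s e₀ η₀ hη₀
  obtain ⟨hsn, he⟩ := degree_rep (by omega) F hF hSm hF0 hp s e hmin η hη hprim
  obtain ⟨hd1, hd2⟩ := wdg_dvd (by omega) F hF hF0 hp s e hmin η hη
  have hhom := hη.1
  have hw : ∀ J, (wdg F η J).IsHomogeneous (n - 1 + e) := fun J => TFin_hom hF hhom J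
  -- the wedge vanishes at the injective `J`
  have hw0 : ∀ J, Function.Injective J → wdg F η J = 0 := by
    rcases Nat.lt_or_ge s (n - 1) with hlt | hge
    · have he1 : n - 1 + e = n + (e - 1) := by omega
      have hc : ∀ J, ∃ c : MvPolynomial (Fin (n + 1)) k, c.IsHomogeneous (e - 1) ∧
          wdg F η J = F * c := fun J => TFin_quot hF (he1 ▸ hw J) (hd1 J)
      choose c hc1 hc2 using hc
      have h3 : ∀ J, wdg F c J = 0 := by
        intro J
        have h4 := wdg_wdg F (s + 1) η J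
        have h5 : (fun J' => wdg F η J') = fun J' => F * c J' := funext hc2
        rw [h5, TFin_smul] at h4
        exact (mul_eq_zero.mp h4).resolve_left hF0
      intro J hJ
      rw [hc2 J, wdg_inj F hF hSm (e - 1) (s + 2) (by omega) (by omega) c hc1
        (fun J _ => h3 J) J hJ, mul_zero]
    · intro J _
      exact TFin_zero hF hF0 (hw J) (by omega) (hd1 J)
  obtain ⟨J, hJ⟩ := hη.2.1
  apply hJ
  by_cases hi : Function.Injective J
  · rw [wdg_inj F hF hSm e (s + 1) (by omega) (by omega) η hhom hw0 J hi]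
    exact dvd_zero _
  · exact hd2 J hi

end Q9
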