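import Pool.Agent.LibQ9.U21
import Pool.Agent.LibQ9.P7

/-!
[Q9 UFin] (SHORT/MEDIUM; may cite U21, P7 as stated) Homogeneous primes of height one of the cone over a smooth hypersurface of dimension at least three are principal.

PLAN. `span {F}` is prime (P7) and `F ≠ 0` (`Smooth F` fails for `F = 0`): `Prime F`. Since `Q ≠ span {F}` and `F ∈ Q` there is `f ∈ Q`, `f ∉ span {F}`; a homogeneous component of `f` (in `Q`) is not in `span {F}`: take `f` homogeneous. Let `P ≤ Q` be a minimal prime over `span {F, f}`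
(`Ideal.exists_minimalPrimes_le`). Its height is `≤ 2` (`Ideal.height_le_card_of_mem_minimalPrimes_span`, Krull). `P` is homogeneous: the ideal generated by the homogeneous elements of `P` is prime (`Ideal.IsPrime.homogeneousCore` for the grading `homogeneousSubmodule`,
`MvPolynomial.gradedAlgebra`) and contains `F, f`, so equals `P` by minimality. `prime_principal`: `P = span {F, G}`, and `G ∈ P ≤ Q`.
-/

set_option autoImplicit false

namespace Q9

open MvPolynomial

theorem hu {k : Type} [Field k] [IsAlgClosed k] {n : ℕ} (hn : 4 ≤ n) {N : ℕ} (hN : (N : k) ≠ 0)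
    (F : MvPolynomial (Fin (n + 1)) k) (hF : F.IsHomogeneous N) (hs : Smooth F) : HU F := by
  classical
  intro Q hQ hQh hFQ hQne
  have hprime := prime_of_smooth (by omega : 2 ≤ n) F hF hs
  have hF0 : F ≠ 0 := by
    rintro rfl
    have h0 := hs (fun _ => 1) (by intro i; simp)
    have h1 := congrFun h0 0
    exact one_ne_zero h1
  have hpF : Prime F := (Ideal.span_singleton_prime hF0).1 hprime
  have hex : ∃ f ∈ Q, f ∉ Ideal.span {F} := by
    by_contra hcon
    push Not at hcon
    exact hQne (le_antisymm hcon ((Ideal.span_singleton_le_iff_mem Q).2 hFQ))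
  obtain ⟨f0, hf0Q, hf0F⟩ := hex
  have hex2 : ∃ i, homogeneousComponent i f0 ∉ Ideal.span {F} := by
    by_contra hcon
    push Not at hcon
    apply hf0F
    rw [← sum_homogeneousComponent f0]
    exact Ideal.sum_mem _ fun i _ => hcon i
  obtain ⟨i, hi⟩ := hex2
  obtain ⟨f, hfdef⟩ : ∃ f, f = homogeneousComponent i f0 := ⟨_, rfl⟩
  rw [← hfdef] at hi
  have hfQ : f ∈ Q := by
    rw [hfdef]
    exact hQh f0 hf0Q i
  have hfh : f.IsHomogeneous i := by
    rw [hfdef]
    exact homogeneousComponent_isHomogeneous i f0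
  have hle : Ideal.span {F, f} ≤ Q := by
    rw [Ideal.span_le]
    intro x hx
    rcases hx with rfl | hx
    · exact hFQ
    · rw [Set.mem_singleton_iff] at hx
      rw [hx]
      exact hfQ
  obtain ⟨P, hPmin, hPQ⟩ := Ideal.exists_minimalPrimes_le hle
  haveI hPp : P.IsPrime := hPmin.1.1
  have hht : P.height ≤ 2 := by
    have h1 := Ideal.height_le_card_of_mem_minimalPrimes_span_finset (s := {F, f}) (p := P)
      (by simpa using hPmin)
    refine h1.trans ?_
    have h2 : ({F, f} : Finset (MvPolynomial (Fin (n + 1)) k)).card ≤ 2 := Finset.card_le_two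
    exact_mod_cast h2
  letI hga : GradedAlgebra (homogeneousSubmodule (Fin (n + 1)) k) := MvPolynomial.gradedAlgebra
  have hcp : (Ideal.homogeneousCore (homogeneousSubmodule (Fin (n + 1)) k) P).toIdeal.IsPrime :=
    hPp.homogeneousCore
  have hcle : (Ideal.homogeneousCore (homogeneousSubmodule (Fin (n + 1)) k) P).toIdeal ≤ P :=
    Ideal.toIdeal_homogeneousCore_le _ P
  have hFP : F ∈ P := hPmin.1.2 (Ideal.subset_span (Set.mem_insert _ _))
  have hfP : f ∈ P := hPmin.1.2 (Ideal.subset_span (Set.mem_insert_of_mem _ rfl))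
  have hFc : F ∈ (Ideal.homogeneousCore (homogeneousSubmodule (Fin (n + 1)) k) P).toIdeal :=
    Ideal.mem_homogeneousCore_of_homogeneous_of_mem ⟨N, hF⟩ hFP
  have hfc : f ∈ (Ideal.homogeneousCore (homogeneousSubmodule (Fin (n + 1)) k) P).toIdeal :=
    Ideal.mem_homogeneousCore_of_homogeneous_of_mem ⟨i, hfh⟩ hfP
  have hspan : Ideal.span {F, f} ≤
      (Ideal.homogeneousCore (homogeneousSubmodule (Fin (n + 1)) k) P).toIdeal := by
    rw [Ideal.span_le]
    intro x hx
    rcases hx with rfl | hx
    · exact hFc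
    · rw [Set.mem_singleton_iff] at hx
      rw [hx]
      exact hfc
  have hPle : P ≤ (Ideal.homogeneousCore (homogeneousSubmodule (Fin (n + 1)) k) P).toIdeal :=
    hPmin.2 ⟨hcp, hspan⟩ hcle
  have hPh : ∀ r ∈ P, ∀ j, homogeneousComponent j r ∈ P := by
    intro r hr j
    exact hcle (homogeneousComponent_mem_of_mem
      (Ideal.homogeneousCore (homogeneousSubmodule (Fin (n + 1)) k) P).isHomogeneous (hPle hr) j)
  have hFf : ¬ F ∣ f := fun h => hi (Ideal.mem_span_singleton.2 h)
  obtain ⟨e, G, hG, hFG, hPG⟩ := prime_principal hn hF hs hpF P hPh hht hFP hfP hFf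
  refine ⟨e, G, hG, hPQ ?_, fun h => hFG (Ideal.mem_span_singleton.1 h), hPG ▸ hPp⟩
  rw [hPG]
  exact Ideal.subset_span (Set.mem_insert_of_mem _ rfl)

end Q9
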