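import Pool.Agent.LibQ9.H7
import Pool.Agent.LibQ9.H11
import Pool.Agent.LibQ9.B10
import Pool.Agent.LibQ9.UFin
import Pool.Agent.LibQ9.TFin

/-!
[Q9 HFin] (MEDIUM; may cite H6, H7, H11, H12, W4b `vf_all`, `exists_free`, `hu`, `very_free` as stated) Weak approximation for a model.

PLAN. `(n : k) ≠ 0` (`0 < n < p`). For every smooth form `G` of degree `n` over `k` there is a very free curve (`very_free hn hn0 G hG hs (hu hn hn0 G hG hs) (exists_free p .. )`, see WFin.lean) and `VF G q` at every point `q ≠ 0` of `G = 0` (W4b `vf_all`). `Z₀`: H6 `smooth_almost`, and `M.nz` for a nonzero entry of `P` (so `ev ∘ P ≠ 0`); `eval (ev ∘ P) (map ev F) = ev (eval P F) = 0`. So `hVF` of H11 holds for every `P : Fin (n+1) → O`, `P ≠ 0`, `F(P) = 0`.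
If `r = 0` take `P₀`. Otherwise H12 `normalize`: `P` with `ev j ∘ P ≠ 0`, `P = c P₀`, `F(P) = 0`. For every `j`: `q = ev j ∘ P`, `q' = ev j ∘ x j` are nonzero points of the smooth `G_j = map (ev j) F` (`hx`, `hcg_one_iff` after `hcg_mono`), H7 `join_two`: `z j`, very free curves `q → z j → q'`. First step (H11 with `N = 1`, targets the constant vectors `algebraMap (z j a) ∈ O`): `P'` with `F(P') = 0`, `ev j (P' a) = z j a` (`hcg_one_iff`). `hPe`: `ev j (gd F P a) = eval q (pderiv a G_j)`, not all `0` as `G_j` is `Smooth` and `q ≠ 0`. `P' ≠ 0`. Second step (H11 for `P'`, `N`, targets `x j`). `x' ≠ 0`: `ev j (x' a) = ev j (x j a) ≠ 0` for some `a`.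
-/

set_option autoImplicit false

namespace Q9

open Polynomial

private theorem HFin_eval {k K : Type} [Field k] [Field K] [Algebra k K] {O : Subalgebra k K}
    {m : ℕ} (ev : O →ₐ[k] k) (P : Fin m → O) (G : MvPolynomial (Fin m) O) :
    ev (MvPolynomial.eval P G) =
      MvPolynomial.eval (fun a => ev (P a)) (MvPolynomial.map (ev : O →+* k) G) := by
  rw [MvPolynomial.eval_map]
  exact MvPolynomial.eval₂_comp (ev : O →+* k) P G

private theorem HFin_aeval {k K : Type} [Field k] [Field K] [Algebra k K] {O : Subalgebra k K}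
    {m : ℕ} (ev : O →ₐ[k] k) (P : Fin m → O) (G : MvPolynomial (Fin m) O) :
    MvPolynomial.aeval (fun a => ev (P a)) (MvPolynomial.map (ev : O →+* k) G) =
      ev (MvPolynomial.eval P G) := by
  rw [HFin_eval, MvPolynomial.aeval_eq_eval]

private theorem HFin_hom {k S : Type} [CommRing k] [CommRing S] (f : k →+* S) {m n : ℕ}
    (F : MvPolynomial (Fin m) k) (hF : F.IsHomogeneous n) (g : S) (x : Fin m → S) :
    MvPolynomial.eval₂ f (fun i => g * x i) F = g ^ n * MvPolynomial.eval₂ f x F := by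
  rw [MvPolynomial.eval₂_eq', MvPolynomial.eval₂_eq', Finset.mul_sum]
  refine Finset.sum_congr rfl fun d hd => ?_
  have h1 : ∑ i, d i = n := by
    have h2 := hF (MvPolynomial.mem_support_iff.1 hd)
    rw [← h2, Finsupp.weight_apply, Finsupp.sum_fintype]
    · simp
    · simp
  rw [← h1]
  have h3 : ∏ i, (g * x i) ^ d i = g ^ (∑ i, d i) * ∏ i, x i ^ d i := by
    rw [← Finset.prod_pow_eq_pow_sum, ← Finset.prod_mul_distrib]
    exact Finset.prod_congr rfl fun i _ => mul_pow _ _ _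
  rw [h3]
  ring

private theorem HFin_scale {k K : Type} [Field k] [Field K] [Algebra k K] {O : Subalgebra k K}
    {m n : ℕ} (F : MvPolynomial (Fin m) O) (hF : F.IsHomogeneous n) (P P' : Fin m → O) (c : K)
    (hc : ∀ a, (P' a : K) = c * P a) (hP : MvPolynomial.eval P F = 0) :
    MvPolynomial.eval P' F = 0 := by
  have h1 : ((MvPolynomial.eval P' F : O) : K) =
      MvPolynomial.eval₂ (O.subtype : O →+* K) (fun a => (P' a : K)) F :=
    MvPolynomial.eval₂_comp (O.subtype : O →+* K) P' F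
  have h2 : ((MvPolynomial.eval P F : O) : K) =
      MvPolynomial.eval₂ (O.subtype : O →+* K) (fun a => (P a : K)) F :=
    MvPolynomial.eval₂_comp (O.subtype : O →+* K) P F
  apply Subtype.ext
  rw [h1, funext hc, HFin_hom _ F hF, ← h2, hP]
  simp

private theorem HFin_vf (p : ℕ) [Fact p.Prime] {n : ℕ} (hn : 4 ≤ n) (hp : n < p) {k : Type}
    [Field k] [IsAlgClosed k] [CharP k p] (G : MvPolynomial (Fin (n + 1)) k)
    (hG : G.IsHomogeneous n) (hs : Smooth G) :
    ∃ (d : ℕ) (γ : Fin (n + 1) → k[X]), Free G d γ ∧ Cor G d γ 0 := by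
  have hn0 : (n : k) ≠ 0 := by
    intro h
    rw [CharP.cast_eq_zero_iff k p] at h
    exact absurd (Nat.le_of_dvd (by omega) h) (by omega)
  exact very_free hn hn0 G hG hs (hu hn hn0 G hG hs) (exists_free p (by omega) hp G hG hs)

private theorem HFin_hVF (p : ℕ) [Fact p.Prime] {n : ℕ} (hn : 4 ≤ n) (hp : n < p) {k K : Type}
    [Field k] [IsAlgClosed k] [CharP k p] [Field K] [Algebra k K] (M : Mdl k K)
    (F : MvPolynomial (Fin (n + 1)) M.O) (hF : F.IsHomogeneous n)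
    (hs : Sm (MvPolynomial.map (M.O.subtype : M.O →+* K) F)) (P : Fin (n + 1) → M.O)
    (hP0 : P ≠ 0) (hP : MvPolynomial.eval P F = 0) :
    ∃ Z₀ : Finset k, ∀ ev : M.O →ₐ[k] k, ev M.t ∉ Z₀ →
      VF (MvPolynomial.map (ev : M.O →+* k) F) (fun a => ev (P a)) := by
  classical
  obtain ⟨Z, hZ⟩ := smooth_almost M F hs
  obtain ⟨a₀, ha₀⟩ := Function.ne_iff.1 hP0
  obtain ⟨Z', hZ'⟩ := M.nz (P a₀) ha₀
  refine ⟨Z ∪ Z', fun ev hev => ?_⟩
  rw [Finset.mem_union, not_or] at hev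
  have hG : (MvPolynomial.map (ev : M.O →+* k) F).IsHomogeneous n := hF.map _
  have hsm := hZ ev hev.1
  refine vf_all (by omega) _ hG hsm (HFin_vf p hn hp _ hG hsm) _ ?_ ?_
  · intro h
    exact hZ' ev hev.2 (congrFun h a₀)
  · rw [HFin_aeval, hP, map_zero]

private theorem HFin_gd {k K : Type} [Field k] [Field K] [Algebra k K] {O : Subalgebra k K}
    {n : ℕ} (F : MvPolynomial (Fin (n + 1)) O) (ev : O →ₐ[k] k) (P : Fin (n + 1) → O)
    (hs : Smooth (MvPolynomial.map (ev : O →+* k) F)) (h : ∃ a, ev (P a) ≠ 0) :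
    ∃ a, ev (gd F P a) ≠ 0 := by
  by_contra hcon
  push Not at hcon
  obtain ⟨a, ha⟩ := h
  have h1 := hs (fun a => ev (P a)) (fun i => by
    rw [MvPolynomial.pderiv_map, ← HFin_eval]
    exact hcon i)
  exact ha (congrFun h1 a)

theorem weak_approx_mdl (p : ℕ) [Fact p.Prime] {n : ℕ} (hn : 4 ≤ n) (hp : n < p) {k K : Type}
    [Field k] [IsAlgClosed k] [CharP k p] [Field K] [Algebra k K] (M : Mdl k K)
    (F : MvPolynomial (Fin (n + 1)) M.O) (hF : F.IsHomogeneous n)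
    (hs : Sm (MvPolynomial.map (M.O.subtype : M.O →+* K) F)) (P₀ : Fin (n + 1) → M.O)
    (hP₀ : P₀ ≠ 0) (hP : MvPolynomial.eval P₀ F = 0) {r : ℕ} (ev : Fin r → (M.O →ₐ[k] k))
    (hev : Function.Injective ev) (π : Fin r → K) (hπ : ∀ j, Pole M.O (ev j) (π j))
    (hgood : ∀ j, Smooth (MvPolynomial.map (ev j : M.O →+* k) F)) (N : ℕ) (hN : 1 ≤ N)
    (x : Fin r → Fin (n + 1) → M.O) (hx0 : ∀ j, ∃ a, ev j (x j a) ≠ 0)
    (hx : ∀ j, Cg M.O (ev j) (π j) N ((MvPolynomial.eval (x j) F : M.O) : K) 0) :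
    ∃ x' : Fin (n + 1) → M.O, x' ≠ 0 ∧ MvPolynomial.eval x' F = 0 ∧
      ∀ j a, Cg M.O (ev j) (π j) N (x' a : K) (x j a : K) := by
  rcases Nat.eq_zero_or_pos r with rfl | hr
  · exact ⟨P₀, hP₀, hP, fun j => j.elim0⟩
  obtain ⟨c, P, hc, hPc, hPe⟩ := normalize M ev hev π hπ P₀ hP₀
  have hPF : MvPolynomial.eval P F = 0 := HFin_scale F hF P₀ P c hPc hP
  have hPne : P ≠ 0 := by
    rintro rfl
    obtain ⟨a, ha⟩ := hPe ⟨0, hr⟩
    exact ha (map_zero _)
  have hGh : ∀ j, (MvPolynomial.map (ev j : M.O →+* k) F).IsHomogeneous n := fun j => hF.map _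
  have hvf := fun j => HFin_vf p hn hp _ (hGh j) (hgood j)
  have hx1 : ∀ j, ev j (MvPolynomial.eval (x j) F) = 0 := by
    intro j
    have h1 := hcg_mono (hπ j) hN (hx j)
    have h2 : Cg M.O (ev j) (π j) 1 ((MvPolynomial.eval (x j) F : M.O) : K) ((0 : M.O) : K) := by
      rw [ZeroMemClass.coe_zero]
      exact h1
    rw [(hcg_one_iff (hπ j) _ _).1 h2, map_zero]
  have hjoin := fun j => join_two (by omega) (MvPolynomial.map (ev j : M.O →+* k) F) (hGh j)
    (hgood j) (hvf j) (fun a => ev j (P a)) (fun a => ev j (x j a))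
    (by
      intro h
      obtain ⟨a, ha⟩ := hPe j
      exact ha (congrFun h a))
    (by rw [HFin_aeval, hPF, map_zero])
    (by
      intro h
      obtain ⟨a, ha⟩ := hx0 j
      exact ha (congrFun h a))
    (by rw [HFin_aeval, hx1])
  choose z hz0 hzF hj₁ d₂ γ₂ hγ₂ hγ₂c hγ₂0 hγ₂d using hjoin
  choose d₁ γ₁ hγ₁ hγ₁c hγ₁0 hγ₁d using hj₁
  have hevz : ∀ j a, ev j (algebraMap k M.O (z j a)) = z j a := fun j a => by
    rw [AlgHom.commutes]
    rfl
  -- the first step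
  obtain ⟨Z₁, hZ₁⟩ := HFin_hVF p hn hp M F hF hs P hPne hPF
  obtain ⟨P', hP'F, hP'c⟩ := one_step M (by omega) F hF P hPF Z₁ hZ₁ ev hev π hπ
    (fun j => HFin_gd F (ev j) P (hgood j) (hPe j)) 1 le_rfl
    (fun j a => algebraMap k M.O (z j a))
    (by
      intro j
      have h1 : ev j (MvPolynomial.eval (fun a => algebraMap k M.O (z j a)) F) = ev j 0 := by
        rw [← HFin_aeval, map_zero]
        have h2 : (fun a => ev j (algebraMap k M.O (z j a))) = z j := funext (hevz j)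
        rw [h2]
        exact hzF j
      have h3 := (hcg_one_iff (hπ j) _ _).2 h1
      rw [ZeroMemClass.coe_zero] at h3
      exact h3)
    (by
      intro j
      refine ⟨d₁ j, γ₁ j, hγ₁ j, hγ₁c j, fun a => congrFun (hγ₁0 j) a, fun a => ?_⟩
      rw [hevz]
      exact congrFun (hγ₁d j) a)
  have hP'z : ∀ j a, ev j (P' a) = z j a := by
    intro j a
    rw [(hcg_one_iff (hπ j) _ _).1 (hP'c j a), hevz]
  have hP'e : ∀ j, ∃ a, ev j (P' a) ≠ 0 := by
    intro j
    obtain ⟨a, ha⟩ := Function.ne_iff.1 (hz0 j)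
    exact ⟨a, by rw [hP'z]; exact ha⟩
  have hP'ne : P' ≠ 0 := by
    rintro rfl
    obtain ⟨a, ha⟩ := hP'e ⟨0, hr⟩
    exact ha (map_zero _)
  -- the second step
  obtain ⟨Z₂, hZ₂⟩ := HFin_hVF p hn hp M F hF hs P' hP'ne hP'F
  obtain ⟨x', hx'F, hx'c⟩ := one_step M (by omega) F hF P' hP'F Z₂ hZ₂ ev hev π hπ
    (fun j => HFin_gd F (ev j) P' (hgood j) (hP'e j)) N hN x hx
    (by
      intro j
      refine ⟨d₂ j, γ₂ j, hγ₂ j, hγ₂c j, fun a => ?_, fun a => congrFun (hγ₂d j) a⟩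
      rw [hP'z]
      exact congrFun (hγ₂0 j) a)
  refine ⟨x', ?_, hx'F, hx'c⟩
  rintro rfl
  obtain ⟨a, ha⟩ := hx0 ⟨0, hr⟩
  have h1 := hcg_mono (hπ ⟨0, hr⟩) hN (hx'c ⟨0, hr⟩ a)
  have h2 := (hcg_one_iff (hπ ⟨0, hr⟩) _ _).1 h1
  apply ha
  rw [← h2]
  exact map_zero _

end Q9
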