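import Pool.Agent.LibQ9.HFin
import Pool.Agent.LibQ9.H15

/-!
[Q9 HWA] (SHORT/MEDIUM; may cite H0a, H0b, HFin, H15 as stated) Weak approximation for a model in terms of powers of maximal ideals.

PLAN. `m = RingHom.ker (ev : O →+* k)`, maximal (`ev` is onto `k`). `cg_of_pow`: `f ∈ m^N` implies `f π^N ∈ O` (induction on `N`: `m^(N+1) = m^N * m`, `Submodule.mul_induction_on`; `pole_mul`): `Cg N f 0` with `h = 1`. `pow_of_cg`: `h f = w π^(-N)`, `v = h' π` with `ev h' = 0`, `ev v ≠ 0` (`Pole`), so `v^N h f = w h'^N ∈ m^N` (as elements of `O`); `u = v^N h ∉ m`; `u` is a unit modulo `m^N`: `m` maximal, `IsCoprime (span {u}) (m^N)`: `1 = a u + b`, `b ∈ m^N`, `f = a u f + b f ∈ m^N`. Apply to `f - g`.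
`wa_mdl`: `M.plc` gives the poles `π j`; `Sm` from H15 (`sm_of_closure`); H-Fin `weak_approx_mdl` with `hx` from `cg_of_pow`; result by `pow_of_cg`.
-/

set_option autoImplicit false

namespace Q9

open Polynomial

private theorem pow_mem_aux {k K : Type} [Field k] [Field K] [Algebra k K] {O : Subalgebra k K}
    {ev : O →ₐ[k] k} {π : K} (hπ : Pole O ev π) (N : ℕ) : ∀ x : O,
    x ∈ RingHom.ker (ev : O →+* k) ^ N → (x : K) * π ^ N ∈ O := by
  induction N with
  | zero => intro x _; simp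
  | succ N ih =>
    intro x hx
    rw [pow_succ] at hx
    refine Submodule.mul_induction_on hx ?_ ?_
    · intro a ha b hb
      have h1 := ih a ha
      have h2 : (b : K) * π ∈ O := pole_mul hπ b (by simpa [RingHom.mem_ker] using hb)
      have h3 := O.mul_mem h1 h2
      have e : ((a * b : O) : K) * π ^ (N + 1) = (a : K) * π ^ N * ((b : K) * π) := by
        push_cast; ring
      rw [e]; exact h3
    · intro a b ha hb
      have e : ((a + b : O) : K) * π ^ (N + 1) = (a : K) * π ^ (N + 1) + (b : K) * π ^ (N + 1) := by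
        push_cast; ring
      rw [e]; exact O.add_mem ha hb

theorem cg_of_pow {k K : Type} [Field k] [Field K] [Algebra k K] {O : Subalgebra k K}
    {ev : O →ₐ[k] k} {π : K} (hπ : Pole O ev π) (N : ℕ) (f g : O)
    (h : f - g ∈ RingHom.ker (ev : O →+* k) ^ N) : Cg O ev π N (f : K) (g : K) := by
  have h1 := pow_mem_aux hπ N _ h
  have h0 : π ≠ 0 := hpole_ne hπ
  refine ⟨1, ⟨_, h1⟩, by simp, ?_⟩
  have e : ((f - g : O) : K) = (f : K) - (g : K) := by push_cast; rfl
  simp only [e, OneMemClass.coe_one, one_mul]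
  rw [mul_assoc, ← mul_pow, mul_inv_cancel₀ h0, one_pow, mul_one]

theorem pow_of_cg {k K : Type} [Field k] [Field K] [Algebra k K] {O : Subalgebra k K}
    {ev : O →ₐ[k] k} {π : K} (hπ : Pole O ev π) (N : ℕ) (f g : O)
    (h : Cg O ev π N (f : K) (g : K)) : f - g ∈ RingHom.ker (ev : O →+* k) ^ N := by
  have h0 : π ≠ 0 := hpole_ne hπ
  obtain ⟨a, w, ha, haw⟩ := h
  obtain ⟨h', v, hh', hv, hev⟩ := hπ.2
  -- the multiple of `f - g` in the power
  have key : v ^ N * a * (f - g) = w * h' ^ N := by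
    apply Subtype.ext
    push_cast
    have e1 : (v : K) ^ N * π⁻¹ ^ N = (h' : K) ^ N := by
      rw [← mul_pow, hv, mul_assoc, mul_inv_cancel₀ h0, mul_one]
    calc (v : K) ^ N * a * ((f : K) - g) = (v : K) ^ N * (a * ((f : K) - g)) := by ring
      _ = (w : K) * ((v : K) ^ N * π⁻¹ ^ N) := by rw [haw]; ring
      _ = w * (h' : K) ^ N := by rw [e1]
  set u : O := v ^ N * a with hu
  have hmem : u * (f - g) ∈ RingHom.ker (ev : O →+* k) ^ N := by
    rw [key]
    exact Ideal.mul_mem_left _ _ (Ideal.pow_mem_pow (by simpa [RingHom.mem_ker] using hh') N)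
  have hcu : ev u ≠ 0 := by
    rw [hu, map_mul, map_pow]; exact mul_ne_zero (pow_ne_zero _ hev) ha
  set y : O := 1 - algebraMap k O (ev u)⁻¹ * u with hy
  have hyk : y ∈ RingHom.ker (ev : O →+* k) := by
    have : ev y = 0 := by
      rw [hy, map_sub, map_one, map_mul, AlgHom.commutes]
      simp [inv_mul_cancel₀ hcu]
    simpa [RingHom.mem_ker] using this
  obtain ⟨s, hs⟩ := sub_dvd_pow_sub_pow (1 : O) y N
  have e2 : f - g = algebraMap k O (ev u)⁻¹ * s * (u * (f - g)) + y ^ N * (f - g) := by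
    have e3 : (1 : O) - y ^ N = algebraMap k O (ev u)⁻¹ * u * s := by
      rw [one_pow] at hs
      rw [hs, hy]; ring
    calc f - g = (1 - y ^ N) * (f - g) + y ^ N * (f - g) := by ring
      _ = _ := by rw [e3]; ring
  rw [e2]
  exact Ideal.add_mem _ (Ideal.mul_mem_left _ _ hmem)
    (Ideal.mul_mem_right _ _ (Ideal.pow_mem_pow hyk N))

theorem wa_mdl {k K : Type} {p : ℕ} [Fact p.Prime] [Field k] [IsAlgClosed k] [CharP k p] [Field K]
    [Algebra k K] (M : Mdl k K) {n : ℕ} (hn : 4 ≤ n) (hp : n < p)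
    (F : MvPolynomial (Fin (n + 1)) M.O) (hF : F.IsHomogeneous n)
    (hs : ∀ x : Fin (n + 1) → AlgebraicClosure K, (∀ i, MvPolynomial.aeval x
      (MvPolynomial.pderiv i (MvPolynomial.map (M.O.subtype : M.O →+* K) F)) = 0) → x = 0)
    (P : Fin (n + 1) → M.O) (hP0 : P ≠ 0) (hP : MvPolynomial.eval P F = 0) {r : ℕ}
    (ev : Fin r → (M.O →ₐ[k] k)) (hinj : Function.Injective ev)
    (hgood : ∀ j, Smooth (MvPolynomial.map (ev j : M.O →+* k) F)) (N : ℕ) (hN : 1 ≤ N)
    (y : Fin r → Fin (n + 1) → M.O) (hy : ∀ j, ∃ a, ev j (y j a) ≠ 0)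
    (hyF : ∀ j, MvPolynomial.eval (y j) F ∈ RingHom.ker (ev j : M.O →+* k) ^ N) :
    ∃ x : Fin (n + 1) → M.O, x ≠ 0 ∧ MvPolynomial.eval x F = 0 ∧
      ∀ j a, x a - y j a ∈ RingHom.ker (ev j : M.O →+* k) ^ N := by
  choose π hπ using fun j => M.plc (ev j)
  have hx : ∀ j, Cg M.O (ev j) (π j) N ((MvPolynomial.eval (y j) F : M.O) : K) 0 := by
    intro j
    have h := cg_of_pow (hπ j) N (MvPolynomial.eval (y j) F) 0 (by simpa using hyF j)
    simpa using h
  obtain ⟨x, hx0, hxF, hxc⟩ := weak_approx_mdl p hn hp M F hF (sm_of_closure _ hs) P hP0 hP ev hinj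
    π hπ hgood N hN y hy hx
  exact ⟨x, hx0, hxF, fun j a => pow_of_cg (hπ j) N _ _ (hxc j a)⟩

end Q9
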