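import Pool.Agent.LibQ9.KDefs

/-!
[Q9 K2] (MEDIUM; only KDefs) Functions with a simple pole at good places.

PLAN. Fix `i`, `b = b i`, `ev = ev i`, `θ₀ = ev θ`. `G_b = g.G.map (evalRingHom b) ∈ k[X]` is monic of degree `N = natDegree G` and `G_b(θ₀) = ev (ev2 t θ G) = 0`; `G_b = (X - C θ₀) * h`, `deg h < N`, `h(θ₀) = G_b'(θ₀) ≠ 0` (`hsep`; `derivative` commutes with `map`). `t ≠ b` (`t` transcendental). `π i = aeval θ h / (t - b)`. `h1`: the set of `f ∈ O` with `(f - ev f) π ∈ O` is closed under sums and products (`f g - ev(f) ev(g) = f (g - ev g) + ev(g) (f - ev f)`), contains the constants, `t` (`(t - b) π = aeval θ h ∈ O`)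
and `θ`: `(θ - θ₀) aeval θ h = aeval θ G_b = aeval θ G_b - ev2 t θ G = -(t - b) r` with `r ∈ O`, since the coefficients of `G` satisfy `a(X) - a(b) = (X - b) (..)` in `k[X]`; `Algebra.adjoin_induction`. `h2`: for `i ≠ j`, `b i ≠ b j`: `π i * π j = (b i - b j)⁻¹ * (H_j π i - H_i π j)` where `H_i = aeval θ (h i) = (t - b i) π i ∈ O` (`1/((t - b_i)(t - b_j)) = (1/(b_i - b_j)) (1/(t - b_i) - 1/(t - b_j))`), and `H_j π i - ev_i(H_j) π i ∈ O`,
`H_i π j - ev_j(H_i) π j ∈ O` by `h1`.
-/

set_option autoImplicit false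

namespace Q9

open Polynomial

section

variable {k K : Type} [Field k] [Field K] [Algebra k K]

private noncomputable def K2_e (g : Gn k K) : Polynomial (Polynomial k) →+* g.O :=
  eval₂RingHom ((aeval g.tO : k[X] →ₐ[k] g.O) : k[X] →+* g.O) g.θO

private theorem K2_coe (g : Gn k K) (a : Polynomial (Polynomial k)) :
    ((K2_e g a : g.O) : K) = ev2 g.t g.θ a := by
  have h : (g.O.val : g.O →+* K).comp (K2_e g) = ev2 g.t g.θ := by
    apply Polynomial.ringHom_ext
    · intro p
      have h1 : K2_e g (C p) = aeval g.tO p := by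
        unfold K2_e
        rw [coe_eval₂RingHom, eval₂_C]
        rfl
      have h2 : ev2 g.t g.θ (C p) = aeval g.t p := by
        unfold ev2
        rw [coe_eval₂RingHom, eval₂_C]
        rfl
      rw [h2]
      change ((K2_e g (C p) : g.O) : K) = aeval g.t p
      rw [h1]
      exact aeval_subalgebra_coe p g.O g.tO
    · have h1 : K2_e g X = g.θO := by
        unfold K2_e
        rw [coe_eval₂RingHom, eval₂_X]
      have h2 : ev2 g.t g.θ (X : Polynomial (Polynomial k)) = g.θ := by
        unfold ev2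
        rw [coe_eval₂RingHom, eval₂_X]
      rw [h2]
      change ((K2_e g X : g.O) : K) = g.θ
      rw [h1]
      rfl
  exact congrArg (fun f : Polynomial (Polynomial k) →+* K => f a) h

private theorem K2_ev (g : Gn k K) (b : k) (ev : g.O →ₐ[k] k) (hev : ev g.tO = b)
    (a : Polynomial (Polynomial k)) :
    ev (K2_e g a) = (a.map (evalRingHom b)).eval (ev g.θO) := by
  have h : (ev : g.O →+* k).comp (K2_e g) = eval₂RingHom (evalRingHom b) (ev g.θO) := by
    apply Polynomial.ringHom_ext
    · intro p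
      have h1 : K2_e g (C p) = aeval g.tO p := by
        unfold K2_e
        rw [coe_eval₂RingHom, eval₂_C]
        rfl
      rw [coe_eval₂RingHom, eval₂_C]
      change ev (K2_e g (C p)) = p.eval b
      rw [h1, ← aeval_algHom_apply, hev, aeval_def, eval₂_eq_eval_map]
      simp
    · have h1 : K2_e g X = g.θO := by
        unfold K2_e
        rw [coe_eval₂RingHom, eval₂_X]
      rw [coe_eval₂RingHom, eval₂_X]
      change ev (K2_e g X) = ev g.θO
      rw [h1]
  have h2 := congrArg (fun f : Polynomial (Polynomial k) →+* k => f a) h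
  rw [eval_map]
  exact h2

private theorem K2_div (G : Polynomial (Polynomial k)) (b : k) :
    ∃ Q : Polynomial (Polynomial k), G - (G.map (evalRingHom b)).map C = C (X - C b) * Q := by
  have h : C (X - C b) ∣ G - (G.map (evalRingHom b)).map C := by
    rw [C_dvd_iff_dvd_coeff]
    intro i
    rw [coeff_sub, coeff_map, coeff_map, coe_evalRingHom]
    rw [dvd_iff_isRoot, IsRoot.def, eval_sub, eval_C, sub_self]
  exact h

private theorem K2_ne (g : Gn k K) (b : k) : g.t - algebraMap k K b ≠ 0 := by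
  intro h
  have h1 : g.t = algebraMap k K b := sub_eq_zero.1 h
  apply g.tr
  rw [h1]
  exact isAlgebraic_algebraMap b

private theorem K2_one (g : Gn k K) (b : k) (ev : g.O →ₐ[k] k) (hev : ev g.tO = b)
    (hsep : ((derivative g.G).map (evalRingHom b)).eval (ev g.θO) ≠ 0) :
    ∃ (h : k[X]) (H : g.O) (π : K), h.degree < g.G.degree ∧
      (g.t - algebraMap k K b) * π = aeval g.θ h ∧ (H : K) = aeval g.θ h ∧ ev H ≠ 0 ∧
      ∀ f : g.O, ((f : K) - algebraMap k K (ev f)) * π ∈ g.O := by
  have hne := K2_ne g b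
  set Gb : k[X] := g.G.map (evalRingHom b) with hGb
  have hmon : Gb.Monic := g.monic.map _
  have hroot0 : K2_e g g.G = 0 := by
    apply Subtype.ext
    rw [K2_coe, g.root]
    rfl
  have hroot : Gb.IsRoot (ev g.θO) := by
    rw [IsRoot.def, hGb, ← K2_ev g b ev hev, hroot0, map_zero]
  obtain ⟨h, hh⟩ : ∃ h : k[X], h = Gb /ₘ (X - C (ev g.θO)) := ⟨_, rfl⟩
  have hmul : (X - C (ev g.θO)) * h = Gb := by
    rw [hh]
    exact mul_divByMonic_eq_iff_isRoot.2 hroot
  have hdeg : h.degree < g.G.degree := by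
    have h1 : Gb.degree = g.G.degree := g.monic.degree_map _
    rw [← h1, hh]
    apply degree_divByMonic_lt _ _ hmon.ne_zero
    rw [degree_X_sub_C]
    exact one_pos
  have hder : h.eval (ev g.θO) ≠ 0 := by
    have h1 : derivative Gb = (derivative g.G).map (evalRingHom b) := by
      rw [hGb, derivative_map]
    rw [← h1, ← hmul, derivative_mul, derivative_X_sub_C, one_mul, eval_add, eval_mul, eval_sub, eval_X,
      eval_C, sub_self, zero_mul, add_zero] at hsep
    exact hsep
  have hHcoe : ((aeval g.θO h : g.O) : K) = aeval g.θ h := aeval_subalgebra_coe h g.O g.θO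
  have hpi : (g.t - algebraMap k K b) * (aeval g.θ h / (g.t - algebraMap k K b)) = aeval g.θ h :=
    mul_div_cancel₀ _ hne
  refine ⟨h, aeval g.θO h, aeval g.θ h / (g.t - algebraMap k K b), hdeg, hpi, hHcoe, ?_, ?_⟩
  · rw [← aeval_algHom_apply]
    have h1 : aeval (ev g.θO) h = h.eval (ev g.θO) := by
      rw [aeval_def, eval₂_eq_eval_map]
      simp
    rw [h1]
    exact hder
  · obtain ⟨π, hπ⟩ : ∃ π : K, π = aeval g.θ h / (g.t - algebraMap k K b) := ⟨_, rfl⟩
    rw [← hπ] at hpi ⊢
    -- the case of `θ`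
    have hθ : (g.θ - algebraMap k K (ev g.θO)) * π ∈ g.O := by
      obtain ⟨Q, hQ⟩ := K2_div g.G b
      rw [← hGb] at hQ
      have h1 : ev2 g.t g.θ (g.G - Gb.map C) = -aeval g.θ Gb := by
        rw [map_sub, g.root, zero_sub]
        congr 1
        unfold ev2
        rw [coe_eval₂RingHom, eval₂_map, aeval_def]
        congr 1
        ext x
        simp
      have h2 : ev2 g.t g.θ (C (X - C b) * Q) = (g.t - algebraMap k K b) * ev2 g.t g.θ Q := by
        rw [map_mul]
        congr 1
        unfold ev2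
        rw [coe_eval₂RingHom, eval₂_C]
        simp
      rw [hQ, h2] at h1
      have h3 : aeval g.θ Gb = (g.θ - algebraMap k K (ev g.θO)) * aeval g.θ h := by
        rw [← hmul, map_mul, map_sub, aeval_X, aeval_C]
      have h4 : (g.θ - algebraMap k K (ev g.θO)) * π = -ev2 g.t g.θ Q := by
        apply mul_left_cancel₀ hne
        calc (g.t - algebraMap k K b) * ((g.θ - algebraMap k K (ev g.θO)) * π)
            = (g.θ - algebraMap k K (ev g.θO)) * ((g.t - algebraMap k K b) * π) := by ring
          _ = (g.θ - algebraMap k K (ev g.θO)) * aeval g.θ h := by rw [hpi]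
          _ = aeval g.θ Gb := h3.symm
          _ = (g.t - algebraMap k K b) * -ev2 g.t g.θ Q := by rw [mul_neg, h1, neg_neg]
      rw [h4, ← K2_coe]
      exact neg_mem (K2_e g Q).2
    have key : ∀ (x : K) (hx : x ∈ Algebra.adjoin k {g.t, g.θ}),
        (x - algebraMap k K (ev ⟨x, hx⟩)) * π ∈ g.O := by
      intro x hx
      induction hx using Algebra.adjoin_induction with
      | mem x hx =>
        rcases hx with hx | hx
        · subst hx
          have h1 : ev ⟨g.t, Algebra.subset_adjoin (Or.inl rfl)⟩ = b := hev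
          rw [h1, hpi, ← hHcoe]
          exact (aeval g.θO h : g.O).2
        · have hx' : x = g.θ := hx
          subst hx'
          exact hθ
      | algebraMap r =>
        have h1 : ev ⟨algebraMap k K r, Subalgebra.algebraMap_mem _ r⟩ = r := ev.commutes r
        rw [h1, sub_self, zero_mul]
        exact Subalgebra.zero_mem _
      | add x y hx hy ihx ihy =>
        have h1 : ev ⟨x + y, Subalgebra.add_mem _ hx hy⟩ = ev ⟨x, hx⟩ + ev ⟨y, hy⟩ := by
          rw [← map_add]
          rfl
        rw [h1, map_add]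
        have h2 : (x + y - (algebraMap k K (ev ⟨x, hx⟩) + algebraMap k K (ev ⟨y, hy⟩))) * π =
            (x - algebraMap k K (ev ⟨x, hx⟩)) * π + (y - algebraMap k K (ev ⟨y, hy⟩)) * π := by ring
        rw [h2]
        exact Subalgebra.add_mem _ ihx ihy
      | mul x y hx hy ihx ihy =>
        have h1 : ev ⟨x * y, Subalgebra.mul_mem _ hx hy⟩ = ev ⟨x, hx⟩ * ev ⟨y, hy⟩ := by
          rw [← map_mul]
          rfl
        rw [h1, map_mul]
        have h2 : (x * y - algebraMap k K (ev ⟨x, hx⟩) * algebraMap k K (ev ⟨y, hy⟩)) * π =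
            x * ((y - algebraMap k K (ev ⟨y, hy⟩)) * π) +
              algebraMap k K (ev ⟨y, hy⟩) * ((x - algebraMap k K (ev ⟨x, hx⟩)) * π) := by ring
        rw [h2]
        exact Subalgebra.add_mem _ (Subalgebra.mul_mem _ hx ihy)
          (Subalgebra.mul_mem _ (Subalgebra.algebraMap_mem _ _) ihx)
    intro f
    exact key f.1 f.2

end

theorem exists_poles {k K : Type} [Field k] [Field K] [Algebra k K] (g : Gn k K) {m : ℕ}
    (b : Fin m → k) (hb : Function.Injective b) (ev : Fin m → (g.O →ₐ[k] k))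
    (hev : ∀ i, ev i g.tO = b i)
    (hsep : ∀ i, ((derivative g.G).map (evalRingHom (b i))).eval (ev i g.θO) ≠ 0) :
    ∃ P : Poles k K g.O m, P.ev = ev ∧ ∀ i, ∃ (h : k[X]) (H : g.O), h.degree < g.G.degree ∧
      (g.t - algebraMap k K (b i)) * P.π i = aeval g.θ h ∧ (H : K) = aeval g.θ h ∧ ev i H ≠ 0 := by
  choose h H π hdeg hpi hH hne h1 using fun i => K2_one g (b i) (ev i) (hev i) (hsep i)
  refine ⟨⟨ev, π, h1, ?_⟩, rfl, fun i => ⟨h i, H i, hdeg i, hpi i, hH i, hne i⟩⟩
  intro i j hij
  have hbij : b i - b j ≠ 0 := sub_ne_zero.2 fun he => hij (hb he)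
  have hbij' : algebraMap k K (b i - b j) ≠ 0 := (map_ne_zero (algebraMap k K)).2 hbij
  refine ⟨(b i - b j)⁻¹ * ev i (H j), -((b i - b j)⁻¹ * ev j (H i)), ?_⟩
  have hi := K2_ne g (b i)
  have hj := K2_ne g (b j)
  have hHi : (H i : K) = (g.t - algebraMap k K (b i)) * π i := by rw [hH, hpi]
  have hHj : (H j : K) = (g.t - algebraMap k K (b j)) * π j := by rw [hH, hpi]
  have e1 : π i * π j - algebraMap k K ((b i - b j)⁻¹ * ev i (H j)) * π i -
      algebraMap k K (-((b i - b j)⁻¹ * ev j (H i))) * π j =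
      algebraMap k K (b i - b j)⁻¹ * (((H j : K) - algebraMap k K (ev i (H j))) * π i -
        ((H i : K) - algebraMap k K (ev j (H i))) * π j) := by
    rw [map_mul, map_neg, map_mul, map_inv₀]
    have e2 : (algebraMap k K (b i - b j))⁻¹ * ((H j : K) * π i - (H i : K) * π j) = π i * π j := by
      rw [hHi, hHj]
      have e3 : (g.t - algebraMap k K (b j)) * π j * π i - (g.t - algebraMap k K (b i)) * π i * π j =
          algebraMap k K (b i - b j) * (π i * π j) := by
        rw [map_sub]
        ring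
      rw [e3, ← mul_assoc, inv_mul_cancel₀ hbij', one_mul]
    rw [← e2]
    ring
  rw [e1]
  exact Subalgebra.mul_mem _ (Subalgebra.algebraMap_mem _ _) (Subalgebra.sub_mem _ (h1 i (H j)) (h1 j (H i)))

end Q9
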