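import Pool.Agent.LibQ9.KDefs

/-!
[Q9 K3a] (SHORT/MEDIUM; only KDefs) Representation of the elements of `k[t, θ]` by polynomials of degree `< deg G`.

PLAN. `mem_O`: `ev2 t θ a` is a sum of products `aeval t (a_l) * θ^l`, in the subalgebra. `exists_rep_O`: the elements `ev2 t θ a` form a subalgebra containing `t = ev2 (C X)` and `θ = ev2 X`; so every element of `O` is `ev2 t θ a`; replace `a` by `a %ₘ G` (`Polynomial.modByMonic`, `G` monic, `root`). `li_frac`: clear the denominators: multiply by `aeval t (b)`, `b = ∏_l b_l`: the polynomial over `k[X]` with coefficients `a_l * ∏_{l' ≠ l} b_l'` (of degree `< N`) vanishes, so each coefficient is `0` (`li`).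
-/

set_option autoImplicit false

namespace Q9

open Polynomial

theorem mem_O {k K : Type} [Field k] [Field K] [Algebra k K] (g : Gn k K)
    (a : Polynomial (Polynomial k)) : ev2 g.t g.θ a ∈ g.O := by
  induction a using Polynomial.induction_on' with
  | add p q hp hq =>
    rw [map_add]
    exact add_mem hp hq
  | monomial m c =>
    have h : ev2 g.t g.θ (monomial m c) = aeval g.t c * g.θ ^ m := by
      simp [ev2]
    rw [h]
    have h1 : aeval g.t c ∈ g.O := by
      have hs : ({g.t} : Set K) ⊆ {g.t, g.θ} := by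
        rintro x hx
        exact Or.inl (Set.mem_singleton_iff.1 hx)
      exact Algebra.adjoin_mono hs (aeval_mem_adjoin_singleton k g.t)
    have h2 : g.θ ∈ g.O := Algebra.subset_adjoin (Or.inr rfl)
    exact mul_mem h1 (pow_mem h2 m)

theorem exists_rep_O {k K : Type} [Field k] [Field K] [Algebra k K] (g : Gn k K) (f : K)
    (hf : f ∈ g.O) : ∃ a : Polynomial (Polynomial k), a.degree < g.G.degree ∧ ev2 g.t g.θ a = f := by
  have h : ∃ a : Polynomial (Polynomial k), ev2 g.t g.θ a = f := by
    unfold Gn.O at hf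
    induction hf using Algebra.adjoin_induction with
    | mem x hx =>
      rcases hx with hx | hx
      · refine ⟨C X, ?_⟩
        rw [hx]
        simp [ev2]
      · refine ⟨X, ?_⟩
        rw [Set.mem_singleton_iff.1 hx]
        simp [ev2]
    | algebraMap r => exact ⟨C (C r), by simp [ev2]⟩
    | add x y _ _ hx hy =>
      obtain ⟨a, rfl⟩ := hx
      obtain ⟨b, rfl⟩ := hy
      exact ⟨a + b, map_add _ _ _⟩
    | mul x y _ _ hx hy =>
      obtain ⟨a, rfl⟩ := hx
      obtain ⟨b, rfl⟩ := hy
      exact ⟨a * b, map_mul _ _ _⟩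
  obtain ⟨a, ha⟩ := h
  refine ⟨a %ₘ g.G, degree_modByMonic_lt a g.monic, ?_⟩
  have h1 := congrArg (ev2 g.t g.θ) (modByMonic_add_div a g.G)
  rw [map_add, map_mul, g.root, zero_mul, add_zero] at h1
  rw [h1, ha]

theorem li_frac {k K : Type} [Field k] [Field K] [Algebra k K] (g : Gn k K)
    (a b : Fin g.G.natDegree → k[X]) (hb : ∀ l, b l ≠ 0)
    (h : ∑ l : Fin g.G.natDegree, aeval g.t (a l) / aeval g.t (b l) * g.θ ^ l.val = 0)
    (l : Fin g.G.natDegree) : a l = 0 := by
  classical
  have ht : ∀ p : k[X], aeval g.t p = 0 → p = 0 := transcendental_iff.1 g.tr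
  have hb' : ∀ j, aeval g.t (b j) ≠ 0 := fun j hj => hb j (ht _ hj)
  let c : Fin g.G.natDegree → k[X] := fun j => a j * ∏ i ∈ Finset.univ.erase j, b i
  let A : Polynomial (Polynomial k) := ∑ j : Fin g.G.natDegree, monomial j.val (c j)
  have hA : A.degree < g.G.degree := by
    rw [degree_eq_natDegree g.monic.ne_zero, ← mem_degreeLT]
    refine Submodule.sum_mem _ fun j _ => ?_
    rw [mem_degreeLT]
    exact lt_of_le_of_lt (degree_monomial_le _ _) (by exact_mod_cast j.2)
  have hA0 : ev2 g.t g.θ A = 0 := by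
    have h1 : ev2 g.t g.θ A = ∑ j : Fin g.G.natDegree, aeval g.t (c j) * g.θ ^ j.val := by
      rw [map_sum]
      refine Finset.sum_congr rfl fun j _ => ?_
      simp [ev2]
    rw [h1]
    have h2 : (∏ i, aeval g.t (b i)) *
        ∑ j : Fin g.G.natDegree, aeval g.t (a j) / aeval g.t (b j) * g.θ ^ j.val =
        ∑ j : Fin g.G.natDegree, aeval g.t (c j) * g.θ ^ j.val := by
      rw [Finset.mul_sum]
      refine Finset.sum_congr rfl fun j _ => ?_
      rw [← Finset.mul_prod_erase Finset.univ (fun i => aeval g.t (b i)) (Finset.mem_univ j)]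
      change _ = aeval g.t (a j * ∏ i ∈ Finset.univ.erase j, b i) * g.θ ^ j.val
      rw [map_mul, map_prod]
      field_simp [hb' j]
    rw [← h2, h, mul_zero]
  have h3 := g.li A hA hA0
  have h4 : A.coeff l.val = c l := by
    change (∑ j : Fin g.G.natDegree, monomial j.val (c j)).coeff l.val = c l
    rw [finsetSum_coeff, Finset.sum_eq_single l]
    · simp
    · intro j _ hj
      rw [coeff_monomial, if_neg]
      exact fun e => hj (Fin.ext e)
    · intro hl
      exact absurd (Finset.mem_univ _) hl
  rw [h3, coeff_zero] at h4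
  rcases mul_eq_zero.1 h4.symm with h5 | h5
  · exact h5
  · exact absurd h5 (Finset.prod_ne_zero_iff.2 fun i _ => hb i)

end Q9
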