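import Pool.Agent.LibQ9.K3a

/-!
[Q9 K3b] (MEDIUM/STRONG; may cite K3a as stated) The filtration by the order of the poles at infinity.

`s = t⁻¹`. The ring `R` plays the role of the functions regular at infinity.
PLAN. `V` = set of the elements `aeval t a / aeval t b` with `b ≠ 0`, `natDegree a ≤ natDegree b`: a `k`-subalgebra of `K` (sums, products: `natDegree (a b' + a' b) ≤ natDegree (b b')`), containing `s`, `(t - c)⁻¹`, and `(aeval t b)⁻¹`. Let `N = natDegree G` (`≥ 1`, because a monic polynomial of degree `0` is `1`, not a root), `e` = the maximum of the `natDegree (G.coeff l)`, `θ' = θ s^e`. Multiplying `ev2 t θ G = 0` by `s^(eN)`: `θ'^N = - Σ_{l<N} (aeval t (G.coeff l) s^(e (N-l))) θ'^l` with coefficients in `V`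
(`natDegree (G.coeff l) ≤ e ≤ e (N - l)`). `R` = the set of the `Σ_{l<N} v_l θ'^l`, `v_l ∈ V`: it is a `k`-subalgebra (e.g. as `Algebra.adjoin V {θ'}` restricted to `k`, or: `V[X]` modulo the monic polynomial of `θ'`: every element of `V[θ']` is such a sum by `Polynomial.modByMonic`). Exponents: `exists_pow`: `f = ev2 t θ a * (aeval t b)⁻¹` (`gen`), `ev2 t θ a` is a sum of `aeval t (a_l) θ^l`, `t s = 1`, `θ s^e ∈ R`, `(aeval t b)⁻¹ ∈ V`; so `f s^C ∈ R` for large `C`.
`th_pow`: clear with `C₁ = e N`: `aeval θ h = Σ_{l<N} h_l θ^l`, `θ^l s^(eN) = θ'^l s^(e(N-l)) ∈ R`. Finite dimension: `f ∈ O`: `f = Σ_{l<N} aeval t (a_l) θ^l` (K3a `exists_rep_O`), `f s^C ∈ R`: `f s^C = Σ_{l<N} v_l s^(el) θ^l`; K3a `li_frac` applied to the difference (`v_l` is a quotient `p_l/q_l`, `natDegree p_l ≤ natDegree q_l`): `aeval t (a_l) s^C = v_l s^(el)`, so `a_l q_l X^(el) = p_l X^C`, `natDegree a_l ≤ C`. So `f` is in the span `U` of the `t^j θ^l`, `j ≤ C`, `l < N` (finite-dimensional).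
-/

set_option autoImplicit false

namespace Q9

open Polynomial

private theorem aev_ne {k K : Type} [Field k] [Field K] [Algebra k K] (g : Gn k K) {b : k[X]}
    (hb : b ≠ 0) : aeval g.t b ≠ 0 := by
  intro h
  exact hb ((transcendental_iff.1 g.tr) b h)

private theorem t_ne {k K : Type} [Field k] [Field K] [Algebra k K] (g : Gn k K) : g.t ≠ 0 := by
  have := aev_ne g (b := X) X_ne_zero
  rwa [aeval_X] at this

/-- the fractions of degree at most `0` -/
private def VV {k K : Type} [Field k] [Field K] [Algebra k K] (g : Gn k K) : Subalgebra k K where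
  carrier := {x | ∃ a b : k[X], b ≠ 0 ∧ a.natDegree ≤ b.natDegree ∧
    x * aeval g.t b = aeval g.t a}
  mul_mem' := by
    rintro x y ⟨a, b, hb, hd, hx⟩ ⟨a', b', hb', hd', hy⟩
    refine ⟨a * a', b * b', mul_ne_zero hb hb', ?_, ?_⟩
    · rw [natDegree_mul hb hb']
      exact natDegree_mul_le.trans (add_le_add hd hd')
    · rw [map_mul, map_mul, ← hx, ← hy]; ring
  add_mem' := by
    rintro x y ⟨a, b, hb, hd, hx⟩ ⟨a', b', hb', hd', hy⟩
    refine ⟨a * b' + b * a', b * b', mul_ne_zero hb hb', ?_, ?_⟩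
    · rw [natDegree_mul hb hb']
      refine (natDegree_add_le _ _).trans (max_le ?_ ?_)
      · exact natDegree_mul_le.trans (by omega)
      · exact natDegree_mul_le.trans (by omega)
    · rw [map_add, map_mul, map_mul, map_mul, ← hx, ← hy]; ring
  algebraMap_mem' := by
    intro r
    exact ⟨C r, 1, one_ne_zero, by simp, by simp⟩

private theorem pow_mem_VV {k K : Type} [Field k] [Field K] [Algebra k K] (g : Gn k K)
    (c : k[X]) (m : ℕ) (h : c.natDegree ≤ m) : aeval g.t c * g.t⁻¹ ^ m ∈ VV g := by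
  refine ⟨c, X ^ m, pow_ne_zero _ X_ne_zero, by rwa [natDegree_X_pow], ?_⟩
  rw [map_pow, aeval_X, mul_assoc, ← mul_pow, inv_mul_cancel₀ (t_ne g), one_pow, mul_one]

private theorem inv_mem_VV {k K : Type} [Field k] [Field K] [Algebra k K] (g : Gn k K)
    (b : k[X]) (hb : b ≠ 0) : (aeval g.t b)⁻¹ ∈ VV g :=
  ⟨1, b, hb, by simp, by rw [inv_mul_cancel₀ (aev_ne g hb), map_one]⟩

/-- the span of the powers of `w` below `N` over `V` -/
private def MM {k K : Type} [Field k] [Field K] [Algebra k K] (V : Subalgebra k K) (w : K)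
    (N : ℕ) : Submodule V K := Submodule.span V (Set.range (fun l : Fin N => w ^ l.val))

private theorem mul_mem_MM {k K : Type} [Field k] [Field K] [Algebra k K] (V : Subalgebra k K)
    (w : K) (N : ℕ) (hN : w ^ N ∈ MM V w N) (m : K) (hm : m ∈ MM V w N) : w * m ∈ MM V w N := by
  unfold MM at hm
  induction hm using Submodule.span_induction with
  | mem x hx =>
    obtain ⟨l, rfl⟩ := hx
    dsimp only
    rw [← pow_succ']
    rcases Nat.lt_or_ge (l.val + 1) N with h | h
    · exact Submodule.subset_span ⟨⟨l.val + 1, h⟩, rfl⟩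
    · have : l.val + 1 = N := by have := l.isLt; omega
      rw [this]; exact hN
  | zero => rw [mul_zero]; exact Submodule.zero_mem _
  | add x y _ _ hx hy => rw [mul_add]; exact Submodule.add_mem _ hx hy
  | smul a x _ hx =>
    rw [mul_smul_comm]; exact Submodule.smul_mem _ _ hx

private theorem adjoin_mem_MM {k K : Type} [Field k] [Field K] [Algebra k K]
    (V : Subalgebra k K) (w : K) (N : ℕ) (hN0 : 0 < N) (hN : w ^ N ∈ MM V w N) (x : K)
    (hx : x ∈ Algebra.adjoin k ((V : Set K) ∪ {w})) : x ∈ MM V w N := by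
  have key : ∀ x ∈ Algebra.adjoin k ((V : Set K) ∪ {w}), ∀ m ∈ MM V w N, x * m ∈ MM V w N := by
    intro x hx
    induction hx using Algebra.adjoin_induction with
    | mem x hx =>
      intro m hm
      rcases hx with hx | hx
      · have := Submodule.smul_mem (MM V w N) (⟨x, hx⟩ : V) hm
        rwa [Subalgebra.smul_def, smul_eq_mul] at this
      · rw [Set.mem_singleton_iff] at hx
        rw [hx]
        exact mul_mem_MM V w N hN m hm
    | algebraMap r =>
      intro m hm
      have := Submodule.smul_mem (MM V w N) (algebraMap k V r) hm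
      rwa [Subalgebra.smul_def, smul_eq_mul] at this
    | add x y _ _ hx hy =>
      intro m hm; rw [add_mul]; exact Submodule.add_mem _ (hx m hm) (hy m hm)
    | mul x y _ _ hx hy =>
      intro m hm; rw [mul_assoc]; exact hx _ (hy m hm)
  have h1 : (1 : K) ∈ MM V w N := Submodule.subset_span ⟨⟨0, hN0⟩, by simp⟩
  simpa using key x hx 1 h1

private theorem ev2_sum {k K : Type} [Field k] [Field K] [Algebra k K] (t θ : K)
    (a : Polynomial (Polynomial k)) (n : ℕ) (hn : a.natDegree < n) :
    ev2 t θ a = ∑ l ∈ Finset.range n, aeval t (a.coeff l) * θ ^ l := by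
  show Polynomial.eval₂ _ θ a = _
  rw [Polynomial.eval₂_eq_sum_range' _ hn]; rfl

private theorem N_pos {k K : Type} [Field k] [Field K] [Algebra k K] (g : Gn k K) :
    0 < g.G.natDegree := by
  rcases Nat.eq_zero_or_pos g.G.natDegree with h | h
  · exfalso
    have h1 : g.G = 1 := (g.monic.natDegree_eq_zero).1 h
    have h2 := g.root
    rw [h1, map_one] at h2
    exact one_ne_zero h2
  · exact h

private theorem natDegree_lt' {k K : Type} [Field k] [Field K] [Algebra k K] (g : Gn k K)
    {k' : Type} [Semiring k'] (a : k'[X]) (h : a.degree < g.G.degree) :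
    a.natDegree < g.G.natDegree := by
  rcases eq_or_ne a 0 with h0 | h0
  · rw [h0, natDegree_zero]; exact N_pos g
  · rw [degree_eq_natDegree h0, degree_eq_natDegree g.monic.ne_zero] at h
    exact_mod_cast h

/-- a bound of the degrees of the coefficients -/
private theorem exists_e {k K : Type} [Field k] [Field K] [Algebra k K] (g : Gn k K) :
    ∃ e : ℕ, ∀ l, (g.G.coeff l).natDegree ≤ e := by
  refine ⟨g.G.support.sup (fun l => (g.G.coeff l).natDegree), fun l => ?_⟩
  by_cases h : l ∈ g.G.support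
  · exact Finset.le_sup (f := fun l => (g.G.coeff l).natDegree) h
  · rw [Polynomial.notMem_support_iff.1 h]; simp

private theorem th_mem {k K : Type} [Field k] [Field K] [Algebra k K] (g : Gn k K) (e : ℕ)
    (he : ∀ l, (g.G.coeff l).natDegree ≤ e) :
    (g.θ * g.t⁻¹ ^ e) ^ g.G.natDegree ∈ MM (VV g) (g.θ * g.t⁻¹ ^ e) g.G.natDegree := by
  set N := g.G.natDegree with hN
  set s := g.t⁻¹ with hs
  have h1 := g.root
  rw [ev2_sum g.t g.θ g.G (N + 1) (Nat.lt_succ_self _), Finset.sum_range_succ] at h1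
  have h2 : g.G.coeff N = 1 := g.monic.coeff_natDegree
  rw [h2, map_one, one_mul] at h1
  have h3 : g.θ ^ N = - ∑ l ∈ Finset.range N, aeval g.t (g.G.coeff l) * g.θ ^ l :=
    eq_neg_of_add_eq_zero_right h1
  rw [mul_pow, h3, neg_mul, Finset.sum_mul]
  refine Submodule.neg_mem _ (Submodule.sum_mem _ fun l hl => ?_)
  have hl' : l < N := Finset.mem_range.1 hl
  have h4 : aeval g.t (g.G.coeff l) * s ^ (e * (N - l)) ∈ VV g := by
    apply pow_mem_VV
    calc (g.G.coeff l).natDegree ≤ e := he l
      _ = e * 1 := (mul_one e).symm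
      _ ≤ e * (N - l) := Nat.mul_le_mul_left e (by omega)
  have h5 := Submodule.smul_mem (MM (VV g) (g.θ * s ^ e) N)
    (⟨_, h4⟩ : VV g) (Submodule.subset_span ⟨⟨l, hl'⟩, rfl⟩)
  rw [Subalgebra.smul_def, smul_eq_mul] at h5
  convert h5 using 1
  simp only
  have h6 : (s ^ e) ^ N = s ^ (e * (N - l)) * (s ^ e) ^ l := by
    rw [← pow_mul, ← pow_mul, ← pow_add, ← Nat.mul_add, Nat.sub_add_cancel hl'.le]
  rw [h6, mul_pow]
  ring

theorem exists_filt {k K : Type} [Field k] [Field K] [Algebra k K] (g : Gn k K) :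
    ∃ (R : Subalgebra k K) (C₁ : ℕ), g.t⁻¹ ∈ R ∧
      (∀ (b : k) (h : k[X]), h.degree < g.G.degree →
        (aeval g.θ h / (g.t - algebraMap k K b)) * g.t⁻¹ ^ C₁ ∈ R) ∧
      (∀ f : K, ∃ C : ℕ, f * g.t⁻¹ ^ C ∈ R) ∧
      ∀ C : ℕ, ∃ U : Submodule k K, FiniteDimensional k U ∧
        ∀ f ∈ g.O, f * g.t⁻¹ ^ C ∈ R → f ∈ U := by
  obtain ⟨e, he⟩ := exists_e g
  set N := g.G.natDegree with hN
  have hN0 : 0 < N := N_pos g
  have ht := t_ne g
  set s := g.t⁻¹ with hs
  set w := g.θ * s ^ e with hw
  set R : Subalgebra k K := Algebra.adjoin k ((VV g : Set K) ∪ {w}) with hR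
  have hVR : ∀ x ∈ VV g, x ∈ R := fun x hx => Algebra.subset_adjoin (Or.inl hx)
  have hwR : w ∈ R := Algebra.subset_adjoin (Or.inr rfl)
  have hsR : s ∈ R := by
    apply hVR
    have := pow_mem_VV g 1 1 (by simp)
    rwa [map_one, one_mul, pow_one] at this
  have hts : g.t * s = 1 := mul_inv_cancel₀ ht
  refine ⟨R, e * N, hsR, ?_, ?_, ?_⟩
  · intro b h hd
    have hd' : h.natDegree < N := natDegree_lt' g h hd
    have h1 : (g.t - algebraMap k K b)⁻¹ ∈ R := by
      apply hVR
      have := inv_mem_VV g (X - C b) (X_sub_C_ne_zero b)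
      rwa [map_sub, aeval_X, aeval_C] at this
    have h2 : aeval g.θ h * s ^ (e * N) ∈ R := by
      rw [aeval_eq_sum_range' hd', Finset.sum_mul]
      refine Subalgebra.sum_mem _ fun l hl => ?_
      have hl' : l < N := Finset.mem_range.1 hl
      have h3 : h.coeff l • g.θ ^ l * s ^ (e * N)
          = h.coeff l • (w ^ l * s ^ (e * (N - l))) := by
        have h6 : s ^ (e * N) = (s ^ e) ^ l * s ^ (e * (N - l)) := by
          rw [← pow_mul, ← pow_add, ← Nat.mul_add, Nat.add_sub_cancel' hl'.le]
        rw [hw, mul_pow, h6, smul_mul_assoc, mul_assoc]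
      rw [h3]
      exact R.smul_mem (R.mul_mem (R.pow_mem hwR _) (R.pow_mem hsR _)) _
    have h4 : aeval g.θ h / (g.t - algebraMap k K b) * s ^ (e * N)
        = (g.t - algebraMap k K b)⁻¹ * (aeval g.θ h * s ^ (e * N)) := by
      rw [div_eq_mul_inv]; ring
    rw [h4]
    exact R.mul_mem h1 h2
  · intro f
    have hO : ∀ x ∈ g.O, ∃ C : ℕ, x * s ^ C ∈ R := by
      intro x hx
      unfold Gn.O at hx
      induction hx using Algebra.adjoin_induction with
      | mem x hx =>
        rcases hx with hx | hx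
        · exact ⟨1, by rw [hx, pow_one, hts]; exact R.one_mem⟩
        · rw [Set.mem_singleton_iff] at hx
          exact ⟨e, by rw [hx]; exact hwR⟩
      | algebraMap r => exact ⟨0, by rw [pow_zero, mul_one]; exact R.algebraMap_mem r⟩
      | add x y _ _ hx hy =>
        obtain ⟨C, hC⟩ := hx
        obtain ⟨C', hC'⟩ := hy
        refine ⟨C + C', ?_⟩
        have : (x + y) * s ^ (C + C') = (x * s ^ C) * s ^ C' + (y * s ^ C') * s ^ C := by
          rw [pow_add]; ring
        rw [this]
        exact R.add_mem (R.mul_mem hC (R.pow_mem hsR _)) (R.mul_mem hC' (R.pow_mem hsR _))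
      | mul x y _ _ hx hy =>
        obtain ⟨C, hC⟩ := hx
        obtain ⟨C', hC'⟩ := hy
        refine ⟨C + C', ?_⟩
        have : (x * y) * s ^ (C + C') = (x * s ^ C) * (y * s ^ C') := by
          rw [pow_add]; ring
        rw [this]
        exact R.mul_mem hC hC'
    obtain ⟨a, b, hb, hab⟩ := g.gen f
    obtain ⟨C, hC⟩ := hO _ (mem_O g a)
    refine ⟨C, ?_⟩
    have hbn := aev_ne g hb
    have h1 : f * s ^ C = (aeval g.t b)⁻¹ * (ev2 g.t g.θ a * s ^ C) := by
      rw [← hab]; field_simp
    rw [h1]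
    exact R.mul_mem (hVR _ (inv_mem_VV g b hb)) hC
  · intro C
    refine ⟨Submodule.span k (Set.range (fun q : Fin (C + 1) × Fin N =>
      g.t ^ q.1.val * g.θ ^ q.2.val)), ?_, ?_⟩
    · exact FiniteDimensional.span_of_finite k (Set.finite_range _)
    · intro f hf hfR
      obtain ⟨a, ha, rfl⟩ := exists_rep_O g f hf
      have ha' : a.natDegree < N := natDegree_lt' g a ha
      have hM := adjoin_mem_MM (VV g) w N hN0 (th_mem g e he) _ hfR
      unfold MM at hM
      rw [Submodule.mem_span_range_iff_exists_fun] at hM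
      obtain ⟨v, hv⟩ := hM
      have hv' : ∀ l : Fin N, ∃ p q : k[X], q ≠ 0 ∧ p.natDegree ≤ q.natDegree ∧
        (v l : K) * aeval g.t q = aeval g.t p := fun l => (v l).2
      choose p q hq hpq hvl using hv'
      have hsum : ev2 g.t g.θ a = ∑ l : Fin N, aeval g.t (a.coeff l.val) * g.θ ^ l.val := by
        rw [ev2_sum g.t g.θ a N ha', Finset.sum_range]
      have hX : ∀ m : ℕ, (X : k[X]) ^ m ≠ 0 := fun m => pow_ne_zero m X_ne_zero
      have hkey := li_frac g
        (fun l => a.coeff l.val * (q l * X ^ (e * l.val)) - p l * X ^ C)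
        (fun l => X ^ C * (q l * X ^ (e * l.val)))
        (fun l => mul_ne_zero (hX _) (mul_ne_zero (hq l) (hX _)))
        (by
          have h1 : ∀ l : Fin N,
              aeval g.t (a.coeff l.val * (q l * X ^ (e * l.val)) - p l * X ^ C) /
                aeval g.t (X ^ C * (q l * X ^ (e * l.val))) * g.θ ^ l.val
              = aeval g.t (a.coeff l.val) * g.θ ^ l.val * s ^ C - (v l) • w ^ l.val := by
            intro l
            have hqn := aev_ne g (hq l)
            rw [Subalgebra.smul_def, smul_eq_mul]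
            have h2 : (v l : K) = aeval g.t (p l) / aeval g.t (q l) := by
              rw [eq_div_iff hqn]; exact hvl l
            rw [h2, hw, hs, map_sub, map_mul, map_mul, map_mul, map_mul, map_mul, map_pow,
              map_pow, aeval_X, mul_pow, inv_pow, inv_pow, inv_pow]
            rw [pow_mul]
            field_simp
          rw [Finset.sum_congr rfl fun l _ => h1 l, Finset.sum_sub_distrib, hv, ← Finset.sum_mul,
            ← hsum, sub_self])
      have hdeg : ∀ l : Fin N, (a.coeff l.val).natDegree ≤ C := by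
        intro l
        have h1 := sub_eq_zero.1 (hkey l)
        rcases eq_or_ne (a.coeff l.val) 0 with h0 | h0
        · rw [h0]; simp
        · have hp : p l ≠ 0 := by
            intro hp
            rw [hp, zero_mul] at h1
            exact (mul_ne_zero h0 (mul_ne_zero (hq l) (hX _))) h1
          have h2 := congrArg natDegree h1
          rw [natDegree_mul h0 (mul_ne_zero (hq l) (hX _)), natDegree_mul (hq l) (hX _),
            natDegree_mul hp (hX _), natDegree_X_pow, natDegree_X_pow] at h2
          have h3 := hpq l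
          omega
      rw [hsum]
      refine Submodule.sum_mem _ fun l _ => ?_
      rw [aeval_eq_sum_range' (Nat.lt_succ_of_le (hdeg l)), Finset.sum_mul]
      refine Submodule.sum_mem _ fun j hj => ?_
      rw [smul_mul_assoc]
      exact Submodule.smul_mem _ _ (Submodule.subset_span
        ⟨(⟨j, Finset.mem_range.1 hj⟩, l), rfl⟩)

end Q9
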