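import Pool.Agent.LibQ9.KDefs

/-!
[Q9 K3c] (MEDIUM; only KDefs) The regular part `u` of `F(x)` has bounded poles at infinity, with a bound independent of the number of the teeth.

PLAN. For `f : MvPolynomial I K` say `Bd C f` if all coefficients of `f` times `s^C` are in `R`. `Bd` is monotone in `C` (`s ∈ R`), closed under sums, `Bd C f`, `Bd C' f'` give `Bd (C + C') (f f')`, powers; for `p : MvPolynomial I k`, `Bd 0 (inc k K I p)`. `pol P e (t a)`: a sum of `inc (coefficient j) * (C (π i) * inc (e i))^j`, `j ≤ d`: `(π i)^j s^(d C₁) = (π i s^C₁)^j s^((d-j) C₁) ∈ R`: `Bd (d C₁)`. `map x a = C (Pt a)`: `Bd CP`. So the argument of `F` is `Bd (CP + d C₁)`, and the `eval₂` of the form `F` of degree `N` (each monomial: coefficient `Bd CF` times a product of `N`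
arguments) is `Bd (CF + N (CP + d C₁))`. `pol P e c`: `Bd (N d C₁)`. The difference is `map u`: the coefficients of `map O.subtype u` are the coefficients of `u` in `K`.
-/

set_option autoImplicit false

namespace Q9

open Polynomial

/-- all coefficients of `f` times `s ^ C` are in `R` -/
private def K3c_Bd {k KK : Type} [Field k] [Field KK] [Algebra k KK] {I : Type}
    (R : Subalgebra k KK) (s : KK) (C : ℕ) (f : MvPolynomial I KK) : Prop :=
  ∀ ν, MvPolynomial.coeff ν f * s ^ C ∈ R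

section

variable {k KK : Type} [Field k] [Field KK] [Algebra k KK] {I : Type} {R : Subalgebra k KK} {s : KK}

private theorem K3c_mono (hs : s ∈ R) {C C' : ℕ} (h : C ≤ C') {f : MvPolynomial I KK}
    (hf : K3c_Bd R s C f) : K3c_Bd R s C' f := by
  intro ν
  obtain ⟨D, rfl⟩ := Nat.exists_eq_add_of_le h
  rw [pow_add, ← mul_assoc]
  exact R.mul_mem (hf ν) (R.pow_mem hs D)

private theorem K3c_sum {C : ℕ} {J : Type} (t : Finset J) (f : J → MvPolynomial I KK)
    (hf : ∀ j ∈ t, K3c_Bd R s C (f j)) : K3c_Bd R s C (∑ j ∈ t, f j) := by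
  intro ν
  rw [MvPolynomial.coeff_sum, Finset.sum_mul]
  exact R.sum_mem fun j hj => hf j hj ν

private theorem K3c_add {C : ℕ} {f g : MvPolynomial I KK} (hf : K3c_Bd R s C f)
    (hg : K3c_Bd R s C g) : K3c_Bd R s C (f + g) := by
  intro ν
  rw [MvPolynomial.coeff_add, add_mul]
  exact R.add_mem (hf ν) (hg ν)

private theorem K3c_sub {C : ℕ} {f g : MvPolynomial I KK} (hf : K3c_Bd R s C f)
    (hg : K3c_Bd R s C g) : K3c_Bd R s C (f - g) := by
  intro ν
  rw [MvPolynomial.coeff_sub, sub_mul]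
  exact R.sub_mem (hf ν) (hg ν)

private theorem K3c_mul {C C' : ℕ} {f g : MvPolynomial I KK} (hf : K3c_Bd R s C f)
    (hg : K3c_Bd R s C' g) : K3c_Bd R s (C + C') (f * g) := by
  classical
  intro ν
  rw [MvPolynomial.coeff_mul, Finset.sum_mul]
  refine R.sum_mem fun x _ => ?_
  have e : MvPolynomial.coeff x.1 f * MvPolynomial.coeff x.2 g * s ^ (C + C') =
      (MvPolynomial.coeff x.1 f * s ^ C) * (MvPolynomial.coeff x.2 g * s ^ C') := by
    rw [pow_add]
    ring
  rw [e]
  exact R.mul_mem (hf _) (hg _)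

private theorem K3c_C {C : ℕ} {x : KK} (hx : x * s ^ C ∈ R) :
    K3c_Bd R s C (MvPolynomial.C (σ := I) x) := by
  classical
  intro ν
  rw [MvPolynomial.coeff_C]
  split_ifs
  · exact hx
  · rw [zero_mul]
    exact R.zero_mem

private theorem K3c_one : K3c_Bd R s 0 (1 : MvPolynomial I KK) := by
  have h := K3c_C (I := I) (R := R) (s := s) (C := 0) (x := 1) (by
    rw [pow_zero, mul_one]
    exact R.one_mem)
  rwa [map_one] at h

private theorem K3c_pow {C : ℕ} {f : MvPolynomial I KK} (hf : K3c_Bd R s C f) (n : ℕ) :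
    K3c_Bd R s (n * C) (f ^ n) := by
  induction n with
  | zero =>
    rw [pow_zero, Nat.zero_mul]
    exact K3c_one
  | succ n ih =>
    rw [pow_succ, Nat.succ_mul]
    exact K3c_mul ih hf

private theorem K3c_prod {J : Type} (t : Finset J) (C : J → ℕ) (f : J → MvPolynomial I KK)
    (hf : ∀ j ∈ t, K3c_Bd R s (C j) (f j)) : K3c_Bd R s (∑ j ∈ t, C j) (∏ j ∈ t, f j) := by
  classical
  induction t using Finset.induction_on with
  | empty =>
    rw [Finset.sum_empty, Finset.prod_empty]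
    exact K3c_one
  | insert a t ha ih =>
    rw [Finset.sum_insert ha, Finset.prod_insert ha]
    exact K3c_mul (hf a (Finset.mem_insert_self _ _))
      (ih fun j hj => hf j (Finset.mem_insert_of_mem hj))

private theorem K3c_inc (p : MvPolynomial I k) : K3c_Bd R s 0 (inc k KK I p) := by
  intro ν
  unfold inc
  rw [MvPolynomial.coeff_map, pow_zero, mul_one]
  exact R.algebraMap_mem _

private theorem K3c_pol {O : Subalgebra k KK} {m : ℕ} (P : Poles k KK O m) (hs : s ∈ R) {C₁ D : ℕ}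
    (hπ : ∀ i, P.π i * s ^ C₁ ∈ R) (e : Fin m → MvPolynomial I k)
    (c : Fin m → Polynomial (MvPolynomial I k)) (hc : ∀ i, (c i).natDegree ≤ D) :
    K3c_Bd R s (D * C₁) (pol P e c) := by
  unfold pol
  refine K3c_sum _ _ fun i _ => ?_
  rw [Polynomial.eval₂_eq_sum_range]
  refine K3c_sum _ _ fun j hj => ?_
  have hjD : j ≤ D := (Nat.lt_succ_iff.1 (Finset.mem_range.1 hj)).trans (hc i)
  have h1 : K3c_Bd R s (C₁ + 0) (MvPolynomial.C (P.π i) * inc k KK I (e i)) :=
    K3c_mul (K3c_C (hπ i)) (K3c_inc _)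
  have h2 := K3c_mul (K3c_inc (R := R) (s := s) ((c i).coeff j)) (K3c_pow h1 j)
  refine K3c_mono hs ?_ h2
  rw [Nat.zero_add, Nat.add_zero]
  exact Nat.mul_le_mul_right _ hjD

end

theorem u_bound {k KK : Type} [Field k] [Field KK] [Algebra k KK] {O : Subalgebra k KK} {m : ℕ}
    (P : Poles k KK O m) (R : Subalgebra k KK) (s : KK) (hs : s ∈ R) (C₁ CF CP N d : ℕ)
    (hπ : ∀ i, P.π i * s ^ C₁ ∈ R) {n : ℕ} (F : MvPolynomial (Fin (n + 1)) O)
    (hF : F.IsHomogeneous N) (hFR : ∀ ν, ((MvPolynomial.coeff ν F : O) : KK) * s ^ CF ∈ R)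
    (Pt : Fin (n + 1) → O) (hPR : ∀ a, (Pt a : KK) * s ^ CP ∈ R) {I : Type}
    (e : Fin m → MvPolynomial I k) (t : Fin (n + 1) → Fin m → Polynomial (MvPolynomial I k))
    (htd : ∀ a i, (t a i).natDegree ≤ d) (u : MvPolynomial I O)
    (c : Fin m → Polynomial (MvPolynomial I k)) (hc : ∀ i, (c i).natDegree ≤ N * d)
    (h : MvPolynomial.eval₂ ((MvPolynomial.C (R := KK) (σ := I)).comp (O.subtype : O →+* KK))
        (fun a => MvPolynomial.map (O.subtype : O →+* KK) (MvPolynomial.C (Pt a)) + pol P e (t a))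
        F = MvPolynomial.map (O.subtype : O →+* KK) u + pol P e c) (ν : I →₀ ℕ) :
    ((MvPolynomial.coeff ν u : O) : KK) * s ^ (CF + N * (CP + d * C₁)) ∈ R := by
  have harg : ∀ a, K3c_Bd R s (CP + d * C₁)
      (MvPolynomial.map (O.subtype : O →+* KK) (MvPolynomial.C (Pt a)) + pol P e (t a)) := by
    intro a
    refine K3c_add ?_ ?_
    · rw [MvPolynomial.map_C]
      exact K3c_mono hs (Nat.le_add_right _ _) (K3c_C (hPR a))
    · exact K3c_mono hs (Nat.le_add_left _ _) (K3c_pol P hs hπ e (t a) (htd a))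
  have h1 : K3c_Bd R s (CF + N * (CP + d * C₁))
      (MvPolynomial.eval₂ ((MvPolynomial.C (R := KK) (σ := I)).comp (O.subtype : O →+* KK))
        (fun a => MvPolynomial.map (O.subtype : O →+* KK) (MvPolynomial.C (Pt a)) + pol P e (t a))
        F) := by
    rw [MvPolynomial.eval₂_eq']
    refine K3c_sum _ _ fun μ hμ => ?_
    refine K3c_mul (K3c_C (hFR μ)) ?_
    have h2 := K3c_prod (R := R) (s := s) Finset.univ (fun a => μ a * (CP + d * C₁)) _
      (fun a _ => K3c_pow (harg a) (μ a))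
    have h3 : ∑ a, μ a * (CP + d * C₁) = N * (CP + d * C₁) := by
      rw [← Finset.sum_mul]
      congr 1
      have h4 : μ.degree = N := by
        by_contra hne
        exact MvPolynomial.mem_support_iff.1 hμ (hF.coeff_eq_zero hne)
      rw [← h4, Finsupp.degree_eq_sum]
    rwa [h3] at h2
  have h2 : K3c_Bd R s (CF + N * (CP + d * C₁)) (pol P e c) := by
    refine K3c_mono hs ?_ (K3c_pol P hs hπ e c hc)
    calc N * d * C₁ = N * (d * C₁) := Nat.mul_assoc _ _ _
      _ ≤ N * (CP + d * C₁) := Nat.mul_le_mul_left _ (Nat.le_add_left _ _)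
      _ ≤ CF + N * (CP + d * C₁) := Nat.le_add_left _ _
  have h3 : MvPolynomial.map (O.subtype : O →+* KK) u =
      MvPolynomial.eval₂ ((MvPolynomial.C (R := KK) (σ := I)).comp (O.subtype : O →+* KK))
        (fun a => MvPolynomial.map (O.subtype : O →+* KK) (MvPolynomial.C (Pt a)) + pol P e (t a))
        F - pol P e c := by
    rw [h]
    ring
  have h4 := K3c_sub h1 h2 ν
  rw [← h3, MvPolynomial.coeff_map] at h4
  exact h4

end Q9
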