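import Pool.Agent.LibQ9.CDefs

/-!
[Q9 K4] (SHORT/MEDIUM; only CDefs) The leading coefficient at a pole.

PLAN. Suppose the sum is `0`. Multiply by `(t - b i₀)^d * σ^d`, `σ = ∏_{i ≠ i₀} (t - b i)`. With `η i = (t - b i) π i ∈ O` every term is in `O`: `(t - b i₀)^d σ^d o`; for `i = i₀`: `σ^d f_(i₀,j) (η i₀)^(j+1) (t - b i₀)^(d-1-j)`; for `i ≠ i₀`: `(t - b i₀)^d (∏_{i' ≠ i, i₀} (t - b i'))^d f_(i,j) (η i)^(j+1) (t - b i)^(d-1-j)`. So there is an identity in `O` (`O → K` injective); apply `ev i₀`: all terms with a factor `t - b i₀` vanish (`d ≥ 1`), only `i = i₀`, `j = d - 1` is left: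
`ev(σ)^d * ev(f) * ev(η i₀)^d = 0`, but `ev(σ) = ∏ (b i₀ - b i) ≠ 0`, `ev(f) ≠ 0`, `ev(η i₀) ≠ 0`: contradiction.
-/

set_option autoImplicit false

namespace Q9

theorem lead_ne {k KK : Type} [Field k] [Field KK] [Algebra k KK] {O : Subalgebra k KK} {m : ℕ}
    (P : Poles k KK O m) (t : O) (b : Fin m → k) (hb : Function.Injective b)
    (ht : ∀ i, P.ev i t = b i) (η : Fin m → O)
    (hη : ∀ i, ((t : KK) - algebraMap k KK (b i)) * P.π i = η i) (hη0 : ∀ i, P.ev i (η i) ≠ 0)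
    (d : ℕ) (hd : 0 < d) (o : O) (f : Fin m → Fin d → O) (i₀ : Fin m)
    (hf : P.ev i₀ (f i₀ ⟨d - 1, Nat.sub_lt hd Nat.one_pos⟩) ≠ 0) :
    (o : KK) + ∑ i, ∑ j : Fin d, (f i j : KK) * P.π i ^ (j.val + 1) ≠ 0 := by
  classical
  intro hS
  set τ : Fin m → O := fun i => t - algebraMap k O (b i) with hτ
  have hτη : ∀ i, ((τ i : O) : KK) * P.π i = η i := by
    intro i
    rw [← hη i]
    rfl
  have hevτ : ∀ i i', P.ev i (τ i') = b i - b i' := by
    intro i i'
    simp [hτ, map_sub, ht]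
  set g : Fin m → Fin d → O := fun i j =>
    f i j * (η i) ^ (j.val + 1) * (τ i) ^ (d - 1 - j.val) * (∏ i' ∈ Finset.univ.erase i, τ i') ^ d with hg
  set Sg : O := ∏ i, τ i with hSg
  have hprod : ∀ i, Sg = τ i * ∏ i' ∈ Finset.univ.erase i, τ i' := by
    intro i
    rw [hSg, Finset.mul_prod_erase _ _ (Finset.mem_univ i)]
  have hgcast : ∀ i (j : Fin d), ((g i j : O) : KK) = (f i j : KK) * P.π i ^ (j.val + 1) * (Sg : KK) ^ d := by
    intro i j
    have hj : j.val + 1 + (d - 1 - j.val) = d := by have := j.2; omega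
    have e1 : ((g i j : O) : KK) = (f i j : KK) * (η i : KK) ^ (j.val + 1) * (τ i : KK) ^ (d - 1 - j.val) *
        ((∏ i' ∈ Finset.univ.erase i, τ i' : O) : KK) ^ d := by
      rw [hg]
      simp only [MulMemClass.coe_mul, SubmonoidClass.coe_pow]
    have e2 : (Sg : KK) ^ d = (τ i : KK) ^ (j.val + 1) * (τ i : KK) ^ (d - 1 - j.val) *
        ((∏ i' ∈ Finset.univ.erase i, τ i' : O) : KK) ^ d := by
      rw [← pow_add, hj, hprod i, MulMemClass.coe_mul, mul_pow]
    rw [e1, e2, ← hτη i, mul_pow]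
    ring
  have hzero : o * Sg ^ d + ∑ i, ∑ j : Fin d, g i j = 0 := by
    apply Subtype.coe_injective
    have e3 : ((o * Sg ^ d + ∑ i, ∑ j : Fin d, g i j : O) : KK) =
        ((o : KK) + ∑ i, ∑ j : Fin d, (f i j : KK) * P.π i ^ (j.val + 1)) * (Sg : KK) ^ d := by
      rw [AddMemClass.coe_add, MulMemClass.coe_mul, SubmonoidClass.coe_pow, add_mul, Finset.sum_mul]
      congr 1
      rw [AddSubmonoidClass.coe_finsetSum]
      refine Finset.sum_congr rfl fun i _ => ?_
      rw [AddSubmonoidClass.coe_finsetSum, Finset.sum_mul]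
      exact Finset.sum_congr rfl fun j _ => hgcast i j
    rw [hS, zero_mul] at e3
    exact e3
  have hev := congrArg (P.ev i₀) hzero
  rw [map_add, map_mul, map_pow, map_sum, map_zero] at hev
  have h1 : P.ev i₀ Sg = 0 := by
    rw [hprod i₀, map_mul, hevτ, sub_self, zero_mul]
  rw [h1, zero_pow hd.ne', mul_zero, zero_add] at hev
  have h2 : ∀ i, i ≠ i₀ → P.ev i₀ (∑ j : Fin d, g i j) = 0 := by
    intro i hi
    rw [map_sum]
    refine Finset.sum_eq_zero fun j _ => ?_
    have h3 : P.ev i₀ (∏ i' ∈ Finset.univ.erase i, τ i') = 0 := by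
      rw [map_prod]
      refine Finset.prod_eq_zero (Finset.mem_erase.2 ⟨hi.symm, Finset.mem_univ i₀⟩) ?_
      rw [hevτ, sub_self]
    rw [hg]
    simp only [map_mul, map_pow]
    rw [h3, zero_pow hd.ne', mul_zero]
  rw [Finset.sum_eq_single i₀ (fun i _ hi => h2 i hi) (fun h => absurd (Finset.mem_univ _) h), map_sum] at hev
  set jl : Fin d := ⟨d - 1, Nat.sub_lt hd Nat.one_pos⟩ with hjl
  rw [Finset.sum_eq_single jl] at hev
  · rw [hg] at hev
    simp only [map_mul, map_pow] at hev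
    have h4 : d - 1 - jl.val = 0 := by simp [hjl]
    rw [h4, pow_zero, mul_one, map_prod] at hev
    have h5 : (∏ i' ∈ Finset.univ.erase i₀, P.ev i₀ (τ i')) ≠ 0 := by
      rw [Finset.prod_ne_zero_iff]
      intro i' hi'
      rw [hevτ]
      exact sub_ne_zero.2 fun h => (Finset.mem_erase.1 hi').1 (hb h).symm
    exact mul_ne_zero (mul_ne_zero hf (pow_ne_zero _ (hη0 i₀))) (pow_ne_zero _ h5) hev
  · intro j _ hj
    rw [hg]
    simp only [map_mul, map_pow]
    have h6 : d - 1 - j.val ≠ 0 := by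
      intro h
      apply hj
      apply Fin.ext
      have := j.2
      simp only [hjl]
      omega
    rw [hevτ, sub_self, zero_pow h6, mul_zero, zero_mul]
  · intro h
    exact absurd (Finset.mem_univ _) h

end Q9
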