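import Pool.Agent.LibQ9.C1
import Pool.Agent.LibQ9.K3c

/-!
[Q9 K5a] (MEDIUM; may cite C1 `decomp`, K3c `u_bound` as stated) The polynomial system over `k` of the comb over the curve.

PLAN. `decomp` (C1) with `I = Iv m n d`, `e i = X (inl i)`, `N = n`, `x a = C (Pt a)`, `t a i = tau k a i` (coefficient `0` is `0`, `natDegree ≤ d`), `d i = d`: `u`, `c`. The coefficients of `u` (in `O`, viewed in `KK`) are in `U` (K3c and `hU`). Let `β_r` (`r < finrank k U`) be a basis of `U`; write each coefficient of `u` in it: `map O.subtype u = Σ_r C (β_r) * inc k KK I (A r)`, `A r : MvPolynomial (Iv m n d) k` (finite sum over the support of `u`).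
(i) evaluate the identity of `decomp` at `z : Iv m n d → k` (`MvPolynomial.eval (fun v => algebraMap k KK (z v))` on `MvPolynomial I KK`): left side `F(x(z))` with `x(z) a = Pt a + Σ_i (Σ_j z(i,a,j) w^(j+1))(z(inl i) π i)`; right side `Σ_r (A r)(z) β_r + Σ_i (c i)(z)(z(inl i) π i) = 0`. (ii) if all `z (inl i) = 0`: left side `F(Pt) = 0`, all `c i` contribute `0` (constant term `0`), so `Σ_r (A r)(z) β_r = 0`, `(A r)(z) = 0` by independence. (iii) the congruence of `decomp` for the coefficient `j + 1`:
`C (map (ev i) u)` does not contribute; `eval₂ .. F` of `C (C (ev i (Pt a))) + tau k a i` is the image of the polynomial in the definition of `eqB (map (ev i) F) (ev i ∘ Pt) d` under `rename (fun a => inr (i, a))` (applied to the coefficients): `tau k a i` is `X * lin d X a` renamed. (iv) `natDegree (c i) ≤ n * d`.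
-/

set_option autoImplicit false

namespace Q9

open Polynomial

private theorem K5a_t0 {k : Type} [Field k] {m n d : ℕ} (a : Fin (n + 1)) (i : Fin m) :
    (tau (d := d) k a i).coeff 0 = 0 := by
  unfold tau
  rw [Polynomial.finset_sum_coeff]
  apply Finset.sum_eq_zero
  intro j _
  rw [Polynomial.coeff_C_mul_X_pow]
  rw [if_neg]
  omega

private theorem K5a_td {k : Type} [Field k] {m n d : ℕ} (a : Fin (n + 1)) (i : Fin m) :
    (tau (d := d) k a i).natDegree ≤ d := by
  unfold tau
  apply Polynomial.natDegree_sum_le_of_forall_le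
  intro j _
  refine (Polynomial.natDegree_C_mul_X_pow_le _ _).trans ?_
  have := j.2
  omega

/-- evaluation of the polar part -/
private theorem K5a_pol {k KK : Type} [Field k] [Field KK] [Algebra k KK] {O : Subalgebra k KK}
    {m : ℕ} (P : Poles k KK O m) {I : Type} (e : Fin m → MvPolynomial I k)
    (c : Fin m → Polynomial (MvPolynomial I k)) (z : I → k) :
    MvPolynomial.eval (fun v => algebraMap k KK (z v)) (pol P e c) =
      ∑ i, ((c i).map (MvPolynomial.eval z)).eval₂ (algebraMap k KK)
        (P.π i * algebraMap k KK (MvPolynomial.eval z (e i))) := by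
  have hinc : ∀ p : MvPolynomial I k,
      MvPolynomial.eval (fun v => algebraMap k KK (z v)) (inc k KK I p) =
        algebraMap k KK (MvPolynomial.eval z p) := by
    intro p
    unfold inc
    rw [MvPolynomial.eval_map]
    have := MvPolynomial.eval₂_comp_left (algebraMap k KK) (RingHom.id k) z p
    rw [MvPolynomial.eval₂_id] at this
    rw [this]
    rfl
  unfold pol
  rw [map_sum]
  apply Finset.sum_congr rfl
  intro i _
  rw [Polynomial.hom_eval₂, Polynomial.eval₂_map]
  have h1 : (MvPolynomial.eval (fun v => algebraMap k KK (z v))).comp (inc k KK I) =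
      (algebraMap k KK).comp (MvPolynomial.eval z) := by
    apply MvPolynomial.ringHom_ext
    · intro r
      simp [inc]
    · intro r
      simp [inc]
  rw [h1, map_mul, MvPolynomial.eval_C, hinc]

private theorem K5a_eqB {k KK : Type} [Field k] [Field KK] [Algebra k KK] {O : Subalgebra k KK}
    {m : ℕ} (ev : O →+* k) {n d : ℕ} (F : MvPolynomial (Fin (n + 1)) O)
    (Pt : Fin (n + 1) → O) (i : Fin m) (j : Fin (n * d)) :
    MvPolynomial.rename (fun a => (Sum.inr (i, a) : Iv m n d))
      (eqB (MvPolynomial.map ev F) (fun a => ev (Pt a)) d j) =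
    (MvPolynomial.eval₂
      ((C (R := MvPolynomial (Iv m n d) k)).comp ((MvPolynomial.C (R := k) (σ := Iv m n d)).comp ev))
      (fun a => C (MvPolynomial.map ev (MvPolynomial.C (Pt a))) + tau k a i) F).coeff (j.val + 1) := by
  unfold eqB
  obtain ⟨ρ, hρ⟩ : ∃ ρ : MvPolynomial (Fin (n + 1) × Fin d) k →+* MvPolynomial (Iv m n d) k,
      ρ = (MvPolynomial.rename (fun a => (Sum.inr (i, a) : Iv m n d)) :
        MvPolynomial (Fin (n + 1) × Fin d) k →ₐ[k] MvPolynomial (Iv m n d) k).toRingHom := ⟨_, rfl⟩
  have hρC : ∀ r : k, ρ (MvPolynomial.C r) = MvPolynomial.C r := by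
    intro r
    rw [hρ]
    exact MvPolynomial.rename_C _ r
  have hρX : ∀ a, ρ (MvPolynomial.X a) = MvPolynomial.X (Sum.inr (i, a)) := by
    intro a
    rw [hρ]
    exact MvPolynomial.rename_X _ a
  have h0 : ∀ p : MvPolynomial (Fin (n + 1) × Fin d) k,
      MvPolynomial.rename (fun a => (Sum.inr (i, a) : Iv m n d)) p = ρ p := by
    intro p
    rw [hρ]
    rfl
  rw [h0, ← Polynomial.coeff_map]
  congr 1
  rw [MvPolynomial.aeval_def, MvPolynomial.eval₂_map]
  have h1 := MvPolynomial.eval₂_comp_left (Polynomial.mapRingHom ρ)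
    ((algebraMap k (Polynomial (MvPolynomial (Fin (n + 1) × Fin d) k))).comp ev)
    (fun a => C (MvPolynomial.C (ev (Pt a))) +
      X * lin d (MvPolynomial.X : _ → MvPolynomial (Fin (n + 1) × Fin d) k) a) F
  rw [Polynomial.coe_mapRingHom] at h1
  rw [h1]
  have h2 : (Polynomial.mapRingHom ρ).comp
      ((algebraMap k (Polynomial (MvPolynomial (Fin (n + 1) × Fin d) k))).comp ev) =
      (C (R := MvPolynomial (Iv m n d) k)).comp
        ((MvPolynomial.C (R := k) (σ := Iv m n d)).comp ev) := by
    apply RingHom.ext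
    intro x
    simp only [RingHom.comp_apply, Polynomial.coe_mapRingHom]
    rw [Polynomial.algebraMap_apply, Polynomial.map_C, MvPolynomial.algebraMap_eq, hρC]
  rw [h2]
  congr 1
  funext a
  simp only [Function.comp_apply]
  rw [Polynomial.map_add, Polynomial.map_C, hρC, MvPolynomial.map_C, Polynomial.map_mul,
    Polynomial.map_X]
  congr 1
  unfold lin tau
  rw [Polynomial.map_sum, Finset.mul_sum]
  apply Finset.sum_congr rfl
  intro l _
  rw [Polynomial.map_mul, Polynomial.map_C, Polynomial.map_pow, Polynomial.map_X, hρX]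
  ring

theorem exists_sys {k KK : Type} [Field k] [Field KK] [Algebra k KK] {O : Subalgebra k KK}
    {m : ℕ} (P : Poles k KK O m) (R : Subalgebra k KK) (s : KK) (hs : s ∈ R) (C₁ CF CP d : ℕ)
    (hπ : ∀ i, P.π i * s ^ C₁ ∈ R) {n : ℕ} (F : MvPolynomial (Fin (n + 1)) O)
    (hF : F.IsHomogeneous n) (hFR : ∀ ν, ((MvPolynomial.coeff ν F : O) : KK) * s ^ CF ∈ R)
    (Pt : Fin (n + 1) → O) (hPR : ∀ a, (Pt a : KK) * s ^ CP ∈ R)
    (hPt : MvPolynomial.eval Pt F = 0) (U : Submodule k KK) [FiniteDimensional k U]
    (hU : ∀ f ∈ O, f * s ^ (CF + n * (CP + d * C₁)) ∈ R → f ∈ U) :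
    ∃ (A : Fin (Module.finrank k U) → MvPolynomial (Iv m n d) k)
      (c : Fin m → Polynomial (MvPolynomial (Iv m n d) k)),
      (∀ z : Iv m n d → k, (∀ r, MvPolynomial.eval z (A r) = 0) →
        (∀ i, (c i).map (MvPolynomial.eval z) = 0) →
        MvPolynomial.eval (fun a => (Pt a : KK) + ∑ i, ∑ j : Fin d,
          algebraMap k KK (z (Sum.inr (i, a, j)) * z (Sum.inl i) ^ (j.val + 1)) *
            P.π i ^ (j.val + 1)) (MvPolynomial.map (O.subtype : O →+* KK) F) = 0) ∧
      (∀ z : Iv m n d → k, (∀ i, z (Sum.inl i) = 0) → ∀ r, MvPolynomial.eval z (A r) = 0) ∧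
      (∀ (i : Fin m) (j : Fin (n * d)), (c i).coeff (j.val + 1) -
        MvPolynomial.rename (fun a => (Sum.inr (i, a) : Iv m n d))
          (eqB (MvPolynomial.map (P.ev i : O →+* k) F) (fun a => P.ev i (Pt a)) d j) ∈
          Ideal.span (Set.range fun i => (MvPolynomial.X (Sum.inl i) :
            MvPolynomial (Iv m n d) k))) ∧
      ∀ i, (c i).coeff 0 = 0 ∧ (c i).natDegree ≤ n * d := by
  obtain ⟨u, c, hc, hid, hcong⟩ := decomp P
    (fun i => (MvPolynomial.X (Sum.inl i) : MvPolynomial (Iv m n d) k)) F hF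
    (fun a => MvPolynomial.C (Pt a)) (fun a i => tau k a i) (fun a i => K5a_t0 a i)
    (fun _ => d) (fun a i => K5a_td a i)
  have hu : ∀ ν, ((MvPolynomial.coeff ν u : O) : KK) ∈ U := fun ν =>
    hU _ (MvPolynomial.coeff ν u).2
      (u_bound P R s hs C₁ CF CP n d hπ F hF hFR Pt hPR _ (fun a i => tau k a i)
        (fun a i => K5a_td a i) u c (fun i => (hc i).2) hid ν)
  obtain ⟨β, hβ⟩ : ∃ β : Module.Basis (Fin (Module.finrank k U)) k U, β = Module.finBasis k U :=
    ⟨_, rfl⟩
  obtain ⟨A, hA⟩ : ∃ A : Fin (Module.finrank k U) → MvPolynomial (Iv m n d) k,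
      A = fun r => ∑ ν ∈ u.support, MvPolynomial.monomial ν (β.repr ⟨_, hu ν⟩ r) := ⟨_, rfl⟩
  -- the regular part at `z`
  have hreg : ∀ z : Iv m n d → k,
      MvPolynomial.eval (fun v => algebraMap k KK (z v))
        (MvPolynomial.map (O.subtype : O →+* KK) u) =
      ∑ r, algebraMap k KK (MvPolynomial.eval z (A r)) * (β r : KK) := by
    intro z
    rw [MvPolynomial.eval_map, MvPolynomial.eval₂_eq]
    have h1 : ∀ r, algebraMap k KK (MvPolynomial.eval z (A r)) * (β r : KK) =
        ∑ ν ∈ u.support, (algebraMap k KK (β.repr ⟨_, hu ν⟩ r) * (β r : KK)) *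
          ∏ v ∈ ν.support, algebraMap k KK (z v) ^ ν v := by
      intro r
      rw [hA]
      simp only [map_sum, MvPolynomial.eval_monomial, map_mul]
      rw [Finset.sum_mul]
      apply Finset.sum_congr rfl
      intro ν _
      rw [Finsupp.prod, map_prod]
      simp only [map_pow]
      ring
    rw [Finset.sum_congr rfl fun r _ => h1 r, Finset.sum_comm]
    apply Finset.sum_congr rfl
    intro ν _
    rw [← Finset.sum_mul]
    congr 1
    have h2 := β.sum_repr ⟨_, hu ν⟩
    have h3 := congrArg (fun x : U => (x : KK)) h2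
    simp only [Submodule.coe_sum, Submodule.coe_smul] at h3
    change ((MvPolynomial.coeff ν u : O) : KK) = _
    refine h3.symm.trans ?_
    apply Finset.sum_congr rfl
    intro r _
    rw [Algebra.smul_def]
  -- the left side at `z`
  have hleft : ∀ z : Iv m n d → k,
      MvPolynomial.eval (fun a => (Pt a : KK) + ∑ i, ∑ j : Fin d,
          algebraMap k KK (z (Sum.inr (i, a, j)) * z (Sum.inl i) ^ (j.val + 1)) *
            P.π i ^ (j.val + 1)) (MvPolynomial.map (O.subtype : O →+* KK) F) =
      (∑ r, algebraMap k KK (MvPolynomial.eval z (A r)) * (β r : KK)) +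
        ∑ i, ((c i).map (MvPolynomial.eval z)).eval₂ (algebraMap k KK)
          (P.π i * algebraMap k KK (z (Sum.inl i))) := by
    intro z
    have h1 := congrArg (MvPolynomial.eval (fun v => algebraMap k KK (z v))) hid
    rw [map_add, hreg z, K5a_pol] at h1
    simp only [MvPolynomial.eval_X] at h1
    rw [← h1, MvPolynomial.eval_map]
    have h2 := MvPolynomial.eval₂_comp_left (MvPolynomial.eval (fun v => algebraMap k KK (z v)))
      ((MvPolynomial.C (R := KK) (σ := Iv m n d)).comp (O.subtype : O →+* KK))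
      (fun a => MvPolynomial.map (O.subtype : O →+* KK) (MvPolynomial.C (Pt a)) +
        pol P (fun i => (MvPolynomial.X (Sum.inl i) : MvPolynomial (Iv m n d) k))
          (fun i => tau k a i)) F
    rw [h2]
    have h3 : (MvPolynomial.eval (fun v => algebraMap k KK (z v))).comp
        ((MvPolynomial.C (R := KK) (σ := Iv m n d)).comp (O.subtype : O →+* KK)) =
        (O.subtype : O →+* KK) := by
      apply RingHom.ext
      intro x
      simp only [RingHom.comp_apply, MvPolynomial.eval_C]
    rw [h3]
    congr 1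
    funext a
    simp only [Function.comp_apply]
    rw [map_add, MvPolynomial.map_C, MvPolynomial.eval_C, K5a_pol]
    congr 1
    apply Finset.sum_congr rfl
    intro i _
    simp only [MvPolynomial.eval_X]
    unfold tau
    rw [Polynomial.map_sum, Polynomial.eval₂_finset_sum]
    apply Finset.sum_congr rfl
    intro j _
    rw [Polynomial.map_mul, Polynomial.map_C, Polynomial.map_pow, Polynomial.map_X,
      MvPolynomial.eval_X, Polynomial.eval₂_mul, Polynomial.eval₂_C, Polynomial.eval₂_pow,
      Polynomial.eval₂_X, map_mul, map_pow]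
    ring
  refine ⟨A, c, ?_, ?_, ?_, fun i => hc i⟩
  · intro z h1 h2
    rw [hleft z]
    have e1 : ∑ r, algebraMap k KK (MvPolynomial.eval z (A r)) * (β r : KK) = 0 := by
      apply Finset.sum_eq_zero
      intro r _
      rw [h1 r, map_zero, zero_mul]
    have e2 : ∑ i, ((c i).map (MvPolynomial.eval z)).eval₂ (algebraMap k KK)
          (P.π i * algebraMap k KK (z (Sum.inl i))) = 0 := by
      apply Finset.sum_eq_zero
      intro i _
      rw [h2 i, Polynomial.eval₂_zero]
    rw [e1, e2, add_zero]
  · intro z hz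
    have h1 := hleft z
    have e1 : MvPolynomial.eval (fun a => (Pt a : KK) + ∑ i, ∑ j : Fin d,
          algebraMap k KK (z (Sum.inr (i, a, j)) * z (Sum.inl i) ^ (j.val + 1)) *
            P.π i ^ (j.val + 1)) (MvPolynomial.map (O.subtype : O →+* KK) F) = 0 := by
      have e3 : (fun a => (Pt a : KK) + ∑ i, ∑ j : Fin d,
          algebraMap k KK (z (Sum.inr (i, a, j)) * z (Sum.inl i) ^ (j.val + 1)) *
            P.π i ^ (j.val + 1)) = fun a => (O.subtype : O →+* KK) (Pt a) := by
        funext a
        have : ∑ i, ∑ j : Fin d,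
          algebraMap k KK (z (Sum.inr (i, a, j)) * z (Sum.inl i) ^ (j.val + 1)) *
            P.π i ^ (j.val + 1) = 0 := by
          apply Finset.sum_eq_zero
          intro i _
          apply Finset.sum_eq_zero
          intro j _
          rw [hz i, zero_pow (Nat.succ_ne_zero _), mul_zero, map_zero, zero_mul]
        rw [this, add_zero]
        rfl
      rw [e3, MvPolynomial.eval_map]
      have h2 := MvPolynomial.eval₂_comp_left (O.subtype : O →+* KK) (RingHom.id O) Pt F
      rw [MvPolynomial.eval₂_id, hPt, map_zero] at h2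
      exact h2.symm
    have e2 : ∑ i, ((c i).map (MvPolynomial.eval z)).eval₂ (algebraMap k KK)
          (P.π i * algebraMap k KK (z (Sum.inl i))) = 0 := by
      apply Finset.sum_eq_zero
      intro i _
      rw [hz i, map_zero, mul_zero, Polynomial.eval₂_at_zero, Polynomial.coeff_map, (hc i).1,
        map_zero, map_zero]
    rw [e1, e2, add_zero] at h1
    have hli := Fintype.linearIndependent_iff.1 β.linearIndependent
      (fun r => MvPolynomial.eval z (A r)) (by
        apply Subtype.ext
        simp only [Submodule.coe_sum, Submodule.coe_smul, Submodule.coe_zero]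
        rw [h1]
        apply Finset.sum_congr rfl
        intro r _
        rw [Algebra.smul_def])
    exact hli
  · intro i j
    have h1 := hcong i (j.val + 1)
    rw [Polynomial.coeff_sub, Polynomial.coeff_add, Polynomial.coeff_C_succ, zero_add] at h1
    have h2 : MvPolynomial.rename (fun a => (Sum.inr (i, a) : Iv m n d))
        (eqB (MvPolynomial.map (P.ev i : O →+* k) F) (fun a => P.ev i (Pt a)) d j) = _ :=
      K5a_eqB (P.ev i : O →+* k) F Pt i j
    rw [h2]
    exact h1

end Q9
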