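import Pool.Agent.LibQ9.KDefs
import Pool.Agent.LibQ9.SR
import Pool.Agent.LibQ9.T0
import Pool.Agent.LibQ9.P3
import Pool.Agent.LibQ9.P4
import Pool.Agent.LibQ9.P5

/-!
[Q9 K5b] (MEDIUM/STRONG; may cite SR, T0, P2, P3, P4, P5 as stated) More teeth than `E` conditions: a solution with some `e i ≠ 0` near the comb.

PLAN. `z₀ = kzc d τ`. Linear conditions from SR `rigid` for `τ i`: `lam_i`. Equations (index `J = Fin E ⊕ (Fin m × Fin (n d)) ⊕ (Fin m × Fin d)`): `A r`, `c i j`, `Σ_a lam_i l a (X (inr (i, a)) - C (z₀ (inr (i, a))))`. All vanish at `z₀`: `c i j` is congruent to the renamed `eqB` modulo the `X (inl i)`, which vanish at `z₀`, and `eqB (F i) (vc (τ i) 0) d j` vanishes at the coefficients of `τ i` (T0 `eqB_aeval`: `C (vc (τ i) 0) + X lin(..) = τ i`, `F i (τ i) = 0`). `card J + 1 = E + m n d + m d + 1 ≤ m + m (n+1) d = card (Iv m n d)`. P3 `exists_gen` with `r = 1`: `Ω`, `z`, `1 ≤ td k z`, `Spz z z₀`.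
Suppose all `z (inl i) = 0`. A derivation `D : fld k z → Ω` kills them; `δ = D z`: P5 `der_rel` for the equations `c i j` and the linear ones. The matrix of derivatives of these equations with respect to the variables `inr (i, a)` is injective at `z₀`: the derivative with respect to an `inr` variable of an element of the ideal `(X (inl i))` vanishes at `z₀`, so there it is the derivative of the renamed `eqB`: T0 `eqB_deriv`: `grad (F i) (τ i) (lin d δ_i) = 0` (all coefficients `< n d`; it has degree `< n d`), with the linear conditions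
`δ_i = 0` (`rigid`). So it is injective at `z` (P5 `inj_of_spz`; matrix of polynomials), so `D z = 0` and P4 `td_le_of_der` with the empty family, `M = ⊥`, `r = 0` gives `td k z ≤ td k (empty) = 0` (P2 `td_le_card`): contradiction.
-/

set_option autoImplicit false

namespace Q9

open Polynomial

private theorem K5b_aeval_sum {k : Type} [Field k] {m : ℕ} {G : MvPolynomial (Fin m) k} {S : Type}
    [CommRing S] [Algebra k S] (x : Fin m → S) : MvPolynomial.aeval x G =
      ∑ s ∈ G.support, algebraMap k S (G.coeff s) * ∏ i, x i ^ s i := by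
  rw [MvPolynomial.aeval_def, MvPolynomial.eval₂_eq']

private theorem K5b_hom_sum {k : Type} [Field k] {m N : ℕ} {G : MvPolynomial (Fin m) k}
    (hG : G.IsHomogeneous N) {s : Fin m →₀ ℕ} (hs : s ∈ G.support) : ∑ i, s i = N := by
  have h := hG (MvPolynomial.mem_support_iff.1 hs)
  have h2 := DFunLike.congr_fun (Finsupp.degree_eq_weight_one (R := ℕ) (σ := Fin m)) s
  rw [Finsupp.degree_eq_sum] at h2
  exact h2.trans h

private theorem K5b_natDegree_aeval {k : Type} [Field k] {m N d : ℕ} {G : MvPolynomial (Fin m) k}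
    (hG : G.IsHomogeneous N) {x : Fin m → k[X]} (hx : ∀ i, (x i).natDegree ≤ d) :
    (MvPolynomial.aeval x G).natDegree ≤ N * d := by
  rw [K5b_aeval_sum]
  refine natDegree_sum_le_of_forall_le _ _ fun s hs => ?_
  have e1 : algebraMap k k[X] (G.coeff s) = C (G.coeff s) := rfl
  rw [e1]
  refine (natDegree_C_mul_le _ _).trans ?_
  refine (natDegree_prod_le _ _).trans ?_
  calc ∑ i, (x i ^ s i).natDegree ≤ ∑ i, s i * d :=
        Finset.sum_le_sum fun i _ => natDegree_pow_le.trans (Nat.mul_le_mul_left _ (hx i))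
    _ = N * d := by rw [← Finset.sum_mul, K5b_hom_sum hG hs]

private theorem K5b_deg_mul {k : Type} [Field k] {p q : k[X]} {A M : ℕ} (hp : p.natDegree ≤ A)
    (hq : q.degree < (M : ℕ)) : (p * q).degree < (A + M : ℕ) := by
  by_cases h0 : q = 0
  · subst h0
    rw [mul_zero, degree_zero]
    exact WithBot.bot_lt_coe _
  · rw [degree_eq_natDegree h0] at hq
    have hq' : q.natDegree < M := by exact_mod_cast hq
    refine lt_of_le_of_lt (degree_le_natDegree) ?_
    have h1 := natDegree_mul_le (p := p) (q := q)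
    have h2 : (p * q).natDegree < A + M := by omega
    exact_mod_cast h2

private theorem K5b_deg_grad {k : Type} [Field k] {n D M : ℕ}
    {F : MvPolynomial (Fin (n + 1)) k} (hF : F.IsHomogeneous n) {γ a : Fin (n + 1) → k[X]}
    (hγ : ∀ i, (γ i).natDegree ≤ D) (ha : ∀ i, (a i).degree < (M : ℕ)) :
    (grad F γ a).degree < ((n - 1) * D + M : ℕ) := by
  unfold grad
  rw [← mem_degreeLT]
  refine Submodule.sum_mem _ fun i _ => ?_
  rw [mem_degreeLT]
  exact K5b_deg_mul (K5b_natDegree_aeval hF.pderiv hγ) (ha i)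

private theorem K5b_coeff_sum {R : Type} [CommRing R] {N : ℕ} (u : Fin N → R) (m : ℕ) :
    (∑ l : Fin N, C (u l) * X ^ (l : ℕ)).coeff m = if h : m < N then u ⟨m, h⟩ else 0 := by
  rw [finsetSum_coeff]
  simp only [coeff_C_mul, coeff_X_pow]
  split_ifs with h
  · rw [Finset.sum_eq_single ⟨m, h⟩]
    · simp
    · intro l _ hl
      rw [if_neg, mul_zero]
      rintro rfl
      exact hl rfl
    · intro h'
      exact absurd (Finset.mem_univ _) h'
  · refine Finset.sum_eq_zero fun l _ => ?_
    rw [if_neg, mul_zero]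
    rintro rfl
    exact h l.2

private theorem K5b_lin_deg {k : Type} [Field k] {n d : ℕ} (δ : Fin (n + 1) × Fin d → k)
    (i : Fin (n + 1)) : (lin d δ i).degree < (d : ℕ) := by
  rw [degree_lt_iff_coeff_zero]
  intro m hm
  unfold lin
  rw [K5b_coeff_sum (fun j => δ (i, j)), dif_neg (not_lt.2 hm)]

/-- a tooth is its constant term plus `X` times the vector of the other coefficients -/
private theorem K5b_tooth {k : Type} [Field k] {n d : ℕ} (γ : Fin (n + 1) → k[X])
    (hγ : ∀ i, (γ i).natDegree ≤ d) (i : Fin (n + 1)) :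
    C ((γ i).coeff 0) + X * lin d (fun a : Fin (n + 1) × Fin d => (γ a.1).coeff (a.2.val + 1)) i =
      γ i := by
  ext m
  rw [coeff_add]
  cases m with
  | zero => simp
  | succ m =>
    rw [coeff_C_succ, zero_add, coeff_X_mul]
    unfold lin
    rw [K5b_coeff_sum (fun j : Fin d => (γ i).coeff (j.val + 1))]
    split_ifs with h
    · rfl
    · exact (coeff_eq_zero_of_natDegree_lt (lt_of_le_of_lt (hγ i) (by omega))).symm

private theorem K5b_pderiv_ne {k : Type} [Field k] {m n d : ℕ} {i i' : Fin m} (hi : i' ≠ i)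
    (a : Fin (n + 1) × Fin d) (p : MvPolynomial (Fin (n + 1) × Fin d) k) :
    MvPolynomial.pderiv (Sum.inr (i', a) : Iv m n d)
      (MvPolynomial.rename (fun a => (Sum.inr (i, a) : Iv m n d)) p) = 0 := by
  classical
  induction p using MvPolynomial.induction_on with
  | C c => simp
  | add p q hp hq => rw [map_add, map_add, hp, hq, add_zero]
  | mul_X p v hp =>
    rw [map_mul, MvPolynomial.rename_X, Derivation.leibniz, hp, smul_zero, add_zero,
      MvPolynomial.pderiv_X_of_ne, smul_zero]
    intro h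
    rw [Sum.inr.injEq, Prod.mk.injEq] at h
    exact hi h.1.symm

private theorem K5b_sum {k : Type} [Field k] {m n d : ℕ} {R : Type} [CommRing R] [Algebra k R]
    (w : Iv m n d → R) (i : Fin m) (p : MvPolynomial (Fin (n + 1) × Fin d) k)
    (ε : Fin m × Fin (n + 1) × Fin d → R) :
    ∑ b, MvPolynomial.aeval w (MvPolynomial.pderiv (Sum.inr b)
      (MvPolynomial.rename (fun a => (Sum.inr (i, a) : Iv m n d)) p)) * ε b =
      ∑ a, MvPolynomial.aeval (fun a => w (Sum.inr (i, a))) (MvPolynomial.pderiv a p) *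
        ε (i, a) := by
  rw [Fintype.sum_prod_type]
  rw [Finset.sum_eq_single i]
  · refine Finset.sum_congr rfl fun a _ => ?_
    have hinj : Function.Injective (fun a => (Sum.inr (i, a) : Iv m n d)) := by
      intro a b h
      simpa using h
    have h1 := MvPolynomial.pderiv_rename hinj a p
    rw [h1, MvPolynomial.aeval_rename]
    rfl
  · intro i' _ hi'
    refine Finset.sum_eq_zero fun a _ => ?_
    rw [K5b_pderiv_ne hi', map_zero, zero_mul]
  · intro h
    exact absurd (Finset.mem_univ i) h

/-- the ideal of the parameters is stable under the other partial derivatives -/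
private theorem K5b_ideal {k : Type} [Field k] {m n d : ℕ} (b : Fin m × Fin (n + 1) × Fin d)
    {p : MvPolynomial (Iv m n d) k}
    (hp : p ∈ Ideal.span (Set.range fun i => (MvPolynomial.X (Sum.inl i) :
      MvPolynomial (Iv m n d) k))) :
    MvPolynomial.pderiv (Sum.inr b) p ∈ Ideal.span (Set.range fun i =>
      (MvPolynomial.X (Sum.inl i) : MvPolynomial (Iv m n d) k)) := by
  induction hp using Submodule.span_induction with
  | mem x hx =>
    obtain ⟨i, rfl⟩ := hx
    rw [MvPolynomial.pderiv_X_of_ne (by simp)]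
    exact Ideal.zero_mem _
  | zero => rw [map_zero]; exact Ideal.zero_mem _
  | add x y _ _ hx hy => rw [map_add]; exact Ideal.add_mem _ hx hy
  | smul a x hx' hx =>
    rw [smul_eq_mul, Derivation.leibniz, smul_eq_mul, smul_eq_mul]
    exact Ideal.add_mem _ (Ideal.mul_mem_left _ _ hx) (Ideal.mul_mem_right _ _ hx')

private theorem K5b_ideal_eval {k : Type} [Field k] {m n d : ℕ} {R : Type} [CommRing R]
    [Algebra k R] {w : Iv m n d → R} (hw : ∀ i, w (Sum.inl i) = 0)
    {p : MvPolynomial (Iv m n d) k}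
    (hp : p ∈ Ideal.span (Set.range fun i => (MvPolynomial.X (Sum.inl i) :
      MvPolynomial (Iv m n d) k))) : MvPolynomial.aeval w p = 0 := by
  have h : Ideal.span (Set.range fun i => (MvPolynomial.X (Sum.inl i) :
      MvPolynomial (Iv m n d) k)) ≤
      RingHom.ker (MvPolynomial.aeval w : MvPolynomial (Iv m n d) k →ₐ[k] R) := by
    rw [Ideal.span_le]
    rintro _ ⟨i, rfl⟩
    change MvPolynomial.aeval w (MvPolynomial.X (Sum.inl i)) = 0
    rw [MvPolynomial.aeval_X, hw i]
  exact h hp

private theorem K5b_ev {k I : Type} [Field k] (w : I → k) (p : MvPolynomial I k) :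
    MvPolynomial.aeval w p = MvPolynomial.eval w p :=
  RingHom.congr_fun (MvPolynomial.coe_aeval_eq_eval w) p

/-- the linear condition -/
private noncomputable def K5b_L {k : Type} [Field k] {n d : ℕ} (lam t : Fin (n + 1) × Fin d → k) :
    MvPolynomial (Fin (n + 1) × Fin d) k :=
  ∑ a, MvPolynomial.C (lam a) * (MvPolynomial.X a - MvPolynomial.C (t a))

private theorem K5b_L_pderiv {k : Type} [Field k] {n d : ℕ} (lam t : Fin (n + 1) × Fin d → k)
    (a : Fin (n + 1) × Fin d) : MvPolynomial.pderiv a (K5b_L lam t) = MvPolynomial.C (lam a) := by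
  classical
  unfold K5b_L
  rw [map_sum, Finset.sum_eq_single a]
  · rw [MvPolynomial.pderiv_C_mul, map_sub, MvPolynomial.pderiv_X_self, MvPolynomial.pderiv_C,
      sub_zero, mul_one]
  · intro b _ hb
    rw [MvPolynomial.pderiv_C_mul, map_sub, MvPolynomial.pderiv_X_of_ne hb, MvPolynomial.pderiv_C,
      sub_zero, mul_zero]
  · intro h
    exact absurd (Finset.mem_univ a) h

theorem exists_gen_sol {k : Type} [Field k] {m n d : ℕ} (hn : 2 ≤ n) {E : ℕ} (hE : E < m)
    (A : Fin E → MvPolynomial (Iv m n d) k) (c : Fin m → Fin (n * d) → MvPolynomial (Iv m n d) k)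
    (F : Fin m → MvPolynomial (Fin (n + 1)) k) (hF : ∀ i, (F i).IsHomogeneous n)
    (τ : Fin m → Fin (n + 1) → k[X]) (hτ : ∀ i, Free (F i) d (τ i))
    (hA : ∀ r, MvPolynomial.eval (kzc d τ) (A r) = 0)
    (hc : ∀ i j, c i j - MvPolynomial.rename (fun a => (Sum.inr (i, a) : Iv m n d))
      (eqB (F i) (vc (τ i) 0) d j) ∈ Ideal.span (Set.range fun i => (MvPolynomial.X (Sum.inl i) :
        MvPolynomial (Iv m n d) k))) :
    ∃ (Ω : Type) (_ : Field Ω) (_ : Algebra k Ω) (z : Iv m n d → Ω),
      (∀ r, MvPolynomial.aeval z (A r) = 0) ∧ (∀ i j, MvPolynomial.aeval z (c i j) = 0) ∧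
      Spz z (kzc d τ) ∧ ∃ i, z (Sum.inl i) ≠ 0 := by
  classical
  have hz0l : ∀ i, (kzc d τ : Iv m n d → k) (Sum.inl i) = 0 := fun i => rfl
  have hz0r : ∀ i (a : Fin (n + 1) × Fin d), (kzc d τ : Iv m n d → k) (Sum.inr (i, a)) =
      (τ i a.1).coeff (a.2.val + 1) := fun i a => rfl
  choose lam hlam using fun i => rigid hn (F i) (hF i) d (τ i) (hτ i)
  -- the equations
  let L : Fin m → Fin d → MvPolynomial (Iv m n d) k := fun i l =>
    MvPolynomial.rename (fun a => (Sum.inr (i, a) : Iv m n d))
      (K5b_L (lam i l) (fun a => (kzc d τ : Iv m n d → k) (Sum.inr (i, a))))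
  let Φ : Fin E ⊕ (Fin m × Fin (n * d)) ⊕ (Fin m × Fin d) → MvPolynomial (Iv m n d) k :=
    Sum.elim A (Sum.elim (fun x => c x.1 x.2) (fun x => L x.1 x.2))
  have htooth : ∀ i, (fun a => C (algebraMap k k (vc (τ i) 0 a)) +
      X * lin d (fun a => (kzc d τ : Iv m n d → k) (Sum.inr (i, a))) a) = τ i := by
    intro i
    funext a
    exact K5b_tooth (τ i) (hτ i).2.1.1 a
  have hc0 : ∀ i j, MvPolynomial.eval (kzc d τ) (c i j) = 0 := by
    intro i j
    have h1 := K5b_ideal_eval (w := (kzc d τ : Iv m n d → k)) hz0l (hc i j)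
    rw [map_sub, sub_eq_zero, MvPolynomial.aeval_rename] at h1
    have h2 := eqB_aeval (F i) (R := k) (vc (τ i) 0) d
      (fun a => (kzc d τ : Iv m n d → k) (Sum.inr (i, a))) j
    rw [htooth, (hτ i).2.1.2, coeff_zero] at h2
    rw [← K5b_ev]
    exact h1.trans h2
  have hL0 : ∀ i l, MvPolynomial.eval (kzc d τ) (L i l) = 0 := by
    intro i l
    change MvPolynomial.eval (kzc d τ) (MvPolynomial.rename _ (K5b_L _ _)) = 0
    rw [MvPolynomial.eval_rename]
    unfold K5b_L
    simp
  have h0 : ∀ j, MvPolynomial.eval (kzc d τ) (Φ j) = 0 := by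
    rintro (r | ⟨i, j⟩ | ⟨i, l⟩)
    · exact hA r
    · exact hc0 i j
    · exact hL0 i l
  have hcard : Fintype.card (Fin E ⊕ (Fin m × Fin (n * d)) ⊕ (Fin m × Fin d)) + 1 ≤
      Fintype.card (Iv m n d) := by
    simp only [Fintype.card_sum, Fintype.card_prod, Fintype.card_fin]
    have : m * ((n + 1) * d) = m * (n * d) + m * d := by ring
    omega
  obtain ⟨Ω, _, _, z, -, hz, hsp, htd, -⟩ := exists_gen Φ (kzc d τ) h0 1 hcard
  refine ⟨Ω, _, _, z, fun r => hz (Sum.inl r), fun i j => hz (Sum.inr (Sum.inl (i, j))), hsp, ?_⟩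
  by_contra hcon
  push Not at hcon
  -- the matrix of the derivatives
  let N : Matrix ((Fin m × Fin (n * d)) ⊕ (Fin m × Fin d)) (Fin m × Fin (n + 1) × Fin d)
      (MvPolynomial (Iv m n d) k) :=
    Matrix.of fun x b => MvPolynomial.pderiv (Sum.inr b) (Φ (Sum.inr x))
  have hN0 : Function.Injective (N.map (MvPolynomial.eval (kzc d τ))).mulVec := by
    intro x y hxy
    rw [← sub_eq_zero]
    set ε := x - y with hε
    have h1 : (N.map (MvPolynomial.eval (kzc d τ))).mulVec ε = 0 := by
      rw [hε, Matrix.mulVec_sub, hxy, sub_self]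
    have hrow : ∀ i, (fun a => ε (i, a)) = 0 := by
      intro i
      refine hlam i _ ?_ fun l => ?_
      · -- the equations `c i j`
        have h2 : ∀ j : Fin (n * d),
            (grad (F i) (τ i) (lin d fun a => ε (i, a))).coeff j = 0 := by
          intro j
          have h3 := congrFun h1 (Sum.inl (i, j))
          have h4 := eqB_deriv (F i) (R := k) (vc (τ i) 0) d
            (fun a => (kzc d τ : Iv m n d → k) (Sum.inr (i, a))) (fun a => ε (i, a)) j
          rw [htooth] at h4
          rw [← h4, ← K5b_sum (kzc d τ : Iv m n d → k) i (eqB (F i) (vc (τ i) 0) d j) ε]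
          refine Eq.trans ?_ h3
          change _ = ∑ b, MvPolynomial.eval (kzc d τ)
            (MvPolynomial.pderiv (Sum.inr b) (c i j)) * ε b
          refine Finset.sum_congr rfl fun b _ => ?_
          congr 1
          have h5 := K5b_ideal_eval (w := (kzc d τ : Iv m n d → k)) hz0l (K5b_ideal b (hc i j))
          rw [map_sub, map_sub, sub_eq_zero] at h5
          rw [← h5, K5b_ev]
        ext m'
        rw [coeff_zero]
        by_cases hm : m' < n * d
        · exact h2 ⟨m', hm⟩
        · have h6 := K5b_deg_grad (hF i) (hτ i).2.1.1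
            (K5b_lin_deg (fun a : Fin (n + 1) × Fin d => ε (i, a)))
          have e1 : (n - 1) * d + d = n * d := by
            obtain ⟨n', rfl⟩ : ∃ n', n = n' + 1 := ⟨n - 1, by omega⟩
            rw [Nat.add_sub_cancel, Nat.succ_mul]
          rw [e1] at h6
          exact (degree_lt_iff_coeff_zero _ (n * d)).1 h6 m' (not_lt.1 hm)
      · -- the linear conditions
        have h3 := congrFun h1 (Sum.inr (i, l))
        have h4 : ∑ b, MvPolynomial.aeval (kzc d τ : Iv m n d → k)
            (MvPolynomial.pderiv (Sum.inr b) (L i l)) * ε b = 0 := by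
          simp only [K5b_ev]
          exact h3
        rw [K5b_sum] at h4
        rw [← h4]
        refine Finset.sum_congr rfl fun a _ => ?_
        rw [K5b_L_pderiv, MvPolynomial.aeval_C]
        rfl
    funext b
    obtain ⟨i, a⟩ := b
    exact congrFun (hrow i) a
  have hNz := inj_of_spz z (kzc d τ) hsp N hN0
  have hder : ∀ D : Derivation k (fld k z) Ω, (fun i => D (fz k z i)) = 0 := by
    intro D
    have hDl : ∀ i, D (fz k z (Sum.inl i)) = 0 := by
      intro i
      have h1 : fz k z (Sum.inl i) = 0 := Subtype.ext (hcon i)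
      rw [h1, map_zero]
    have hDr : (fun b => D (fz k z (Sum.inr b))) = 0 := by
      apply hNz
      rw [Matrix.mulVec_zero]
      funext x
      have h1 := der_rel z D (Φ (Sum.inr x)) (hz (Sum.inr x))
      rw [Fintype.sum_sum_type] at h1
      simp only [hDl, mul_zero, Finset.sum_const_zero, zero_add] at h1
      exact h1
    funext v
    rcases v with i | b
    · exact hDl i
    · exact congrFun hDr b
  have h1 := td_le_of_der z (fun j : Fin 0 => (j.elim0 : Ω)) (fun j => j.elim0)
    (⊥ : Submodule Ω (Iv m n d → Ω)) 0 (by rw [finrank_bot]) (fun D _ => by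
      rw [Submodule.mem_bot]
      exact hder D)
  have h2 := td_le_card (k := k) (fun j : Fin 0 => (j.elim0 : Ω))
  rw [Fintype.card_fin] at h2
  omega

end Q9
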