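import Pool.Agent.LibQ9.K5a
import Pool.Agent.LibQ9.K5b
import Pool.Agent.LibQ9.P8

/-!
[Q9 K5c] (MEDIUM; may cite K5a, K5b, P8 `spec` as stated) A solution over `k` with some `e i ≠ 0` and prescribed nonvanishing at infinity of all teeth.

PLAN. K5a gives `A`, `c`. K5b with `E = finrank k U`, `F i = map (P.ev i) F` (homogeneous), `c i j = (c i).coeff (j + 1)` (`vc (τ i) 0 = P.ev i ∘ Pt`): `hA`: `(kzc d τ) (inl i) = 0` (K5a (ii)). `Ω`, `z`. The polynomials `B i` = `Ψ i` in the variables `inr (i, a, d-1)` (`rename`, `d ≥ 1` from `Free`) have value `eval (vc (τ i) d) (Ψ i) ≠ 0` at `kzc d τ` (`coeff (d - 1 + 1) = coeff d`), so `aeval z (B i) ≠ 0` by `Spz` (contraposition). P8 `spec` for the family `Iv m n d ⊕ Fin m → Ω`, `Sum.elim z (fun i => aeval z (B i))`: `φ`; `z' v = φ (z v) : k`.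
`eval z' Q = φ (aeval z Q)` for every polynomial `Q` (`φ` is a `k`-algebra map). So `A r`, `(c i).coeff (j+1)` vanish at `z'`, and `(c i).map (eval z') = 0` (coefficient `0` and the coefficients `> n d` vanish identically), `z' (inl i) ≠ 0` for some `i`, `eval z' (B i) ≠ 0` for all `i`. `e i = z' (inl i)`, `σ i a = Σ_j C (z' (inr (i, a, j))) X^(j+1)`; K5a (i).
-/

set_option autoImplicit false

namespace Q9

open Polynomial

theorem exists_sol {k KK : Type} [Field k] [IsAlgClosed k] [Field KK] [Algebra k KK]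
    {O : Subalgebra k KK} {m : ℕ} (P : Poles k KK O m) (R : Subalgebra k KK) (s : KK) (hs : s ∈ R)
    (C₁ CF CP d : ℕ) (hπ : ∀ i, P.π i * s ^ C₁ ∈ R) {n : ℕ} (hn : 2 ≤ n)
    (F : MvPolynomial (Fin (n + 1)) O) (hF : F.IsHomogeneous n)
    (hFR : ∀ ν, ((MvPolynomial.coeff ν F : O) : KK) * s ^ CF ∈ R)
    (Pt : Fin (n + 1) → O) (hPR : ∀ a, (Pt a : KK) * s ^ CP ∈ R)
    (hPt : MvPolynomial.eval Pt F = 0) (U : Submodule k KK) [FiniteDimensional k U]
    (hU : ∀ f ∈ O, f * s ^ (CF + n * (CP + d * C₁)) ∈ R → f ∈ U) (hUm : Module.finrank k U < m)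
    (τ : Fin m → Fin (n + 1) → k[X])
    (hτ : ∀ i, Free (MvPolynomial.map (P.ev i : O →+* k) F) d (τ i))
    (hτ0 : ∀ i, vc (τ i) 0 = fun a => P.ev i (Pt a))
    (Ψ : Fin m → MvPolynomial (Fin (n + 1)) k) (hΨ : ∀ i, MvPolynomial.eval (vc (τ i) d) (Ψ i) ≠ 0) :
    ∃ (e : Fin m → k) (σ : Fin m → Fin (n + 1) → Fin d → k) (hd : 0 < d), (∃ i, e i ≠ 0) ∧
      (∀ i, MvPolynomial.eval (fun a => σ i a ⟨d - 1, Nat.sub_lt hd Nat.one_pos⟩) (Ψ i) ≠ 0) ∧
      MvPolynomial.eval (fun a => (Pt a : KK) + ∑ i, ∑ j : Fin d,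
          algebraMap k KK (σ i a j * e i ^ (j.val + 1)) * P.π i ^ (j.val + 1))
        (MvPolynomial.map (O.subtype : O →+* KK) F) = 0 := by
  have hm : 0 < m := lt_of_le_of_lt (Nat.zero_le _) hUm
  have hd : 0 < d := (hτ ⟨0, hm⟩).1
  obtain ⟨A, c, hc1, hc2, hc3, hc4⟩ :=
    exists_sys P R s hs C₁ CF CP d hπ F hF hFR Pt hPR hPt U hU
  obtain ⟨Ω, _, _, z, hzA, hzc, hsp, i0, hi0⟩ := exists_gen_sol hn hUm A
    (fun i j => (c i).coeff (j.val + 1)) (fun i => MvPolynomial.map (P.ev i : O →+* k) F)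
    (fun i => hF.map _) τ hτ (hc2 (kzc d τ) (fun i => rfl))
    (fun i j => by rw [hτ0 i]; exact hc3 i j)
  set B : Fin m → MvPolynomial (Iv m n d) k := fun i =>
    MvPolynomial.rename (fun a => (Sum.inr (i, a, ⟨d - 1, Nat.sub_lt hd Nat.one_pos⟩) : Iv m n d)) (Ψ i)
    with hB
  have hB0 : ∀ i, MvPolynomial.aeval z (B i) ≠ 0 := by
    intro i h0
    apply hΨ i
    have h1 := hsp _ h0
    rw [hB, MvPolynomial.eval_rename] at h1
    rw [← h1]
    congr 2
    funext a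
    simp only [vc, Function.comp, kzc, Sum.elim_inr]
    congr 1
    omega
  obtain ⟨φ, hφ⟩ := spec (k := k) (Sum.elim z (fun i => MvPolynomial.aeval z (B i)) :
    (Iv m n d ⊕ Fin m) → Ω)
  set ζ : Iv m n d → Algebra.adjoin k (Set.range (Sum.elim z (fun i => MvPolynomial.aeval z (B i)) :
    (Iv m n d ⊕ Fin m) → Ω)) := fun v =>
      ⟨z v, Algebra.subset_adjoin (Set.mem_range_self (Sum.inl v))⟩ with hζ
  have hcoe : ∀ Q : MvPolynomial (Iv m n d) k,
      ((MvPolynomial.aeval ζ Q : Algebra.adjoin k _) : Ω) = MvPolynomial.aeval z Q := by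
    intro Q
    have h1 := MvPolynomial.map_aeval ζ (algebraMap (Algebra.adjoin k (Set.range (Sum.elim z
      (fun i => MvPolynomial.aeval z (B i)) : (Iv m n d ⊕ Fin m) → Ω))) Ω) Q
    have h2 : ((MvPolynomial.aeval ζ Q : Algebra.adjoin k _) : Ω) =
        algebraMap (Algebra.adjoin k (Set.range (Sum.elim z
      (fun i => MvPolynomial.aeval z (B i)) : (Iv m n d ⊕ Fin m) → Ω))) Ω (MvPolynomial.aeval ζ Q) := rfl
    rw [h2, h1, MvPolynomial.aeval_def]
    rfl
  set z' : Iv m n d → k := fun v => φ (ζ v) with hz'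
  have hev : ∀ Q : MvPolynomial (Iv m n d) k,
      MvPolynomial.eval z' Q = φ (MvPolynomial.aeval ζ Q) := by
    intro Q
    rw [← MvPolynomial.aeval_eq_eval, ← MvPolynomial.comp_aeval_apply]
  have hzero : ∀ Q : MvPolynomial (Iv m n d) k, MvPolynomial.aeval z Q = 0 →
      MvPolynomial.eval z' Q = 0 := by
    intro Q hQ
    have : MvPolynomial.aeval ζ Q = 0 := by
      apply Subtype.ext
      rw [hcoe, hQ]
      rfl
    rw [hev, this, map_zero]
  have hBne : ∀ i, MvPolynomial.eval z' (B i) ≠ 0 := by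
    intro i
    have h1 := hφ (Sum.inr i) (hB0 i)
    have h2 : MvPolynomial.aeval ζ (B i) =
        ⟨_, Algebra.subset_adjoin (Set.mem_range_self (Sum.inr i))⟩ := by
      apply Subtype.ext
      rw [hcoe]
      rfl
    rw [hev, h2]
    exact h1
  refine ⟨fun i => z' (Sum.inl i), fun i a j => z' (Sum.inr (i, a, j)), hd,
    ⟨i0, hφ (Sum.inl (Sum.inl i0)) hi0⟩, fun i => ?_, ?_⟩
  · have h1 := hBne i
    rw [hB, MvPolynomial.eval_rename] at h1
    exact h1
  · refine hc1 z' (fun r => hzero _ (hzA r)) (fun i => ?_)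
    ext j
    rw [coeff_map, coeff_zero]
    rcases Nat.eq_zero_or_pos j with rfl | hj
    · rw [(hc4 i).1, map_zero]
    · by_cases hjn : j ≤ n * d
      · have h1 := hzero _ (hzc i ⟨j - 1, by omega⟩)
        have h2 : j - 1 + 1 = j := by omega
        simp only [h2] at h1
        exact h1
      · rw [coeff_eq_zero_of_natDegree_lt (lt_of_le_of_lt (hc4 i).2 (not_le.1 hjn)), map_zero]

end Q9
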