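import Pool.Agent.LibQ9.KDefs
import Pool.Agent.LibQ9.K3a
import Pool.Agent.LibQ9.P8

/-!
[Q9 K6] (MEDIUM; may cite P8 `spec_all`, K3a as stated) A free curve over the algebraic closure of `K` through `P` specialises to free teeth at almost all places.

PLAN. `L = AlgebraicClosure K`, algebraic over `k(t)`: `θ` is integral over `k[t]` (`root`, `monic`), every `f ∈ K` is `ev2 t θ a / aeval t b` (`gen`), so algebraic over `IntermediateField.adjoin k {t}`, and `L/K` is algebraic. `t` (in `L`) is transcendental over `k`. Choose for each monomial `X^j`, `j < n d`, a vector `a_j` over `L`, degree `< d`, with `grad F γ a_j = X^j`; the family `z`: all coefficients of `γ` and of the `a_j`, the coefficients of `F` (finitely many) and the `Pt a`, the `R i` for `R ∈ S`, `θ`, `t`, the element `ev2 t θ (derivative G) ≠ 0`, and for each `R ∈ S` one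
nonzero element `R i * vc γ d j - R j * vc γ d i` (`hS`). P8 `spec_all` with `β = t`: `T`, and for `b ∉ T` a `k`-algebra homomorphism `φ` on `B = Algebra.adjoin k (range z ∪ {t})`, `φ t = b`, nonzero elements of the family have nonzero image. `O` (mapped to `L`) is contained in `B` (`t, θ ∈ B`), so `ev = φ ∘ (O → B)`: `ev t = b`. `((derivative G).map (evalRingHom b)).eval (ev θ) = φ (ev2 t θ (derivative G)) ≠ 0` (both are the value of the ring homomorphism `k[X][X] → k` with `X ↦ ev θ`, `C X ↦ b`). `τ` = image of `γ` (coefficients): `Free (map ev F) d τ` by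
applying `φ` to the identities `F(γ) = 0`, `grad F γ a_j = X^j` in `B[X]` (same technique as B4, see Q9_B4.lean in the store) and linear combinations; `vc τ 0 = ev ∘ Pt` (`hγ0`); `ev (R i) * vc τ d j - ev (R j) * vc τ d i = φ (..) ≠ 0`.
-/

set_option autoImplicit false

namespace Q9

open Polynomial

private theorem K6_alg {k K : Type} [Field k] [Field K] [Algebra k K] (g : Gn k K)
    (x : AlgebraicClosure K) :
    IsAlgebraic (IntermediateField.adjoin k {algebraMap K (AlgebraicClosure K) g.t}) x := by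
  obtain ⟨β, hβ⟩ : ∃ β, β = algebraMap K (AlgebraicClosure K) g.t := ⟨_, rfl⟩
  rw [← hβ]
  have hβE : β ∈ IntermediateField.adjoin k {β} := IntermediateField.mem_adjoin_simple_self k β
  obtain ⟨b, hb⟩ : ∃ b : IntermediateField.adjoin k {β}, b = ⟨β, hβE⟩ := ⟨_, rfl⟩
  have hco : ∀ p : k[X], algebraMap K (AlgebraicClosure K) (aeval g.t p) =
      algebraMap (IntermediateField.adjoin k {β}) (AlgebraicClosure K) (aeval b p) := by
    intro p
    rw [← aeval_algebraMap_apply, ← aeval_algebraMap_apply, ← hβ, hb]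
    rfl
  have hθ : algebraMap K (AlgebraicClosure K) g.θ ∈
      algebraicClosure (IntermediateField.adjoin k {β}) (AlgebraicClosure K) := by
    rw [mem_algebraicClosure_iff']
    refine ⟨g.G.map ((aeval b : k[X] →ₐ[k] IntermediateField.adjoin k {β}) :
      k[X] →+* IntermediateField.adjoin k {β}), g.monic.map _, ?_⟩
    rw [eval₂_map]
    have h1 : (algebraMap (IntermediateField.adjoin k {β}) (AlgebraicClosure K)).comp
        ((aeval b : k[X] →ₐ[k] IntermediateField.adjoin k {β}) :
          k[X] →+* IntermediateField.adjoin k {β}) =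
        (algebraMap K (AlgebraicClosure K)).comp ((aeval g.t : k[X] →ₐ[k] K) : k[X] →+* K) :=
      RingHom.ext fun p => (hco p).symm
    rw [h1, ← hom_eval₂]
    have h2 : eval₂ ((aeval g.t : k[X] →ₐ[k] K) : k[X] →+* K) g.θ g.G = 0 := g.root
    rw [h2, map_zero]
  have hA : ∀ p : k[X], algebraMap K (AlgebraicClosure K) (aeval g.t p) ∈
      algebraicClosure (IntermediateField.adjoin k {β}) (AlgebraicClosure K) := fun p => by
    rw [hco]
    exact IntermediateField.algebraMap_mem _ _
  have hev : ∀ a : Polynomial (Polynomial k), algebraMap K (AlgebraicClosure K) (ev2 g.t g.θ a) ∈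
      algebraicClosure (IntermediateField.adjoin k {β}) (AlgebraicClosure K) := by
    intro a
    induction a using Polynomial.induction_on' with
    | add p q hp hq =>
      rw [map_add, map_add]
      exact add_mem hp hq
    | monomial m p =>
      have h3 : ev2 g.t g.θ (monomial m p) = aeval g.t p * g.θ ^ m := by
        unfold ev2
        rw [coe_eval₂RingHom, eval₂_monomial]
        rfl
      rw [h3, map_mul, map_pow]
      exact mul_mem (hA p) (pow_mem hθ m)
  have hK : ∀ f : K, algebraMap K (AlgebraicClosure K) f ∈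
      algebraicClosure (IntermediateField.adjoin k {β}) (AlgebraicClosure K) := by
    intro f
    obtain ⟨a, c, hc, h⟩ := g.gen f
    have h4 : aeval g.t c ≠ 0 := fun h5 => hc ((transcendental_iff.1 g.tr) c h5)
    have h5 : f = ev2 g.t g.θ a / aeval g.t c := by
      rw [← h, mul_div_cancel_right₀ _ h4]
    rw [h5, map_div₀]
    exact div_mem (hev a) (hA c)
  obtain ⟨p, hp, hp0⟩ : IsIntegral K x := Algebra.IsIntegral.isIntegral x
  have hxA : IsIntegral (algebraicClosure (IntermediateField.adjoin k {β}) (AlgebraicClosure K)) x := by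
    refine ⟨p.map ((algebraMap K (AlgebraicClosure K)).codRestrict
      (algebraicClosure (IntermediateField.adjoin k {β}) (AlgebraicClosure K)) hK), hp.map _, ?_⟩
    rw [eval₂_map]
    exact hp0
  exact (isIntegral_trans x hxA).isAlgebraic

private theorem K6_lift {k K : Type} [Field k] [IsAlgClosed k] [Field K] [Algebra k K] (g : Gn k K)
    {J I : Type} [Finite J] [Finite I] (P : J → (AlgebraicClosure K)[X])
    (w : I → AlgebraicClosure K) :
    ∃ T : Finset k, ∀ b ∉ T, ∃ (B : Subalgebra k (AlgebraicClosure K)) (φ : B →ₐ[k] k)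
      (P' : J → B[X]) (w' : I → B) (ρ : g.O →ₐ[k] B),
      (∀ j, (P' j).map (B.val : B →+* AlgebraicClosure K) = P j) ∧
      (∀ i, (w' i : AlgebraicClosure K) = w i) ∧
      (∀ x : g.O, ((ρ x : B) : AlgebraicClosure K) = algebraMap K (AlgebraicClosure K) (x : K)) ∧
      φ (ρ g.tO) = b ∧ ∀ i, w i ≠ 0 → φ (w' i) ≠ 0 := by
  classical
  obtain ⟨N, hN⟩ : ∃ N : ℕ, ∀ j, (P j).natDegree < N := by
    obtain ⟨N, hN⟩ := (Set.finite_range (fun j => (P j).natDegree)).bddAbove
    exact ⟨N + 1, fun j => Nat.lt_succ_of_le (hN ⟨j, rfl⟩)⟩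
  obtain ⟨β, hβ⟩ : ∃ β, β = algebraMap K (AlgebraicClosure K) g.t := ⟨_, rfl⟩
  have htr : Transcendental k β := by
    rw [hβ]
    exact (transcendental_algebraMap_iff (algebraMap K (AlgebraicClosure K)).injective).2 g.tr
  obtain ⟨z, hz⟩ : ∃ z : (J × Fin N) ⊕ (I ⊕ Unit) → AlgebraicClosure K,
      z = Sum.elim (fun a => (P a.1).coeff a.2)
        (Sum.elim w fun _ => algebraMap K (AlgebraicClosure K) g.θ) := ⟨_, rfl⟩
  obtain ⟨T, hT⟩ := spec_all (k := k) β htr z (fun i => hβ ▸ K6_alg g (z i))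
  refine ⟨T, fun b hb => ?_⟩
  obtain ⟨φ, hφ, hφz⟩ := hT b hb
  have h : ∀ j m, (P j).coeff m ∈ Algebra.adjoin k (Set.range z ∪ {β}) := by
    intro j m
    by_cases hm : m < N
    · exact Algebra.subset_adjoin (Or.inl ⟨Sum.inl (j, ⟨m, hm⟩), by rw [hz]; rfl⟩)
    · rw [coeff_eq_zero_of_natDegree_lt (lt_of_lt_of_le (hN j) (not_lt.1 hm))]
      exact Subalgebra.zero_mem _
  have h2 : ∀ j, ∃ p : (Algebra.adjoin k (Set.range z ∪ {β}))[X],
      p.map ((Algebra.adjoin k (Set.range z ∪ {β})).val :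
        (Algebra.adjoin k (Set.range z ∪ {β})) →+* AlgebraicClosure K) = P j := by
    intro j
    have h3 : P j ∈ Polynomial.lifts ((Algebra.adjoin k (Set.range z ∪ {β})).val :
        (Algebra.adjoin k (Set.range z ∪ {β})) →+* AlgebraicClosure K) := by
      rw [Polynomial.lifts_iff_coeff_lifts]
      intro m
      exact ⟨⟨_, h j m⟩, rfl⟩
    obtain ⟨p, hp⟩ := (Polynomial.mem_lifts _).1 h3
    exact ⟨p, hp⟩
  choose P' hP' using h2
  have hw : ∀ i, w i ∈ Algebra.adjoin k (Set.range z ∪ {β}) := fun i =>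
    Algebra.subset_adjoin (Or.inl ⟨Sum.inr (Sum.inl i), by rw [hz]; rfl⟩)
  have hO : ∀ x : g.O, ((IsScalarTower.toAlgHom k K (AlgebraicClosure K)).comp g.O.val) x ∈
      Algebra.adjoin k (Set.range z ∪ {β}) := by
    intro x
    have h4 : g.O.map (IsScalarTower.toAlgHom k K (AlgebraicClosure K)) ≤
        Algebra.adjoin k (Set.range z ∪ {β}) := by
      unfold Gn.O
      rw [AlgHom.map_adjoin]
      refine Algebra.adjoin_mono ?_
      rintro _ ⟨y, rfl | rfl, rfl⟩
      · right
        rw [Set.mem_singleton_iff, hβ]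
        rfl
      · left
        exact ⟨Sum.inr (Sum.inr ()), by rw [hz]; rfl⟩
    exact h4 ⟨x, x.2, rfl⟩
  refine ⟨Algebra.adjoin k (Set.range z ∪ {β}), φ, P', fun i => ⟨w i, hw i⟩,
    AlgHom.codRestrict _ _ hO, hP', fun i => rfl, fun x => rfl, ?_, fun i hi => ?_⟩
  · rw [← hφ]
    congr 1
    exact Subtype.ext hβ.symm
  · have hzi : z (Sum.inr (Sum.inl i)) = w i := by rw [hz]; rfl
    have h5 := hφz (Sum.inr (Sum.inl i)) (by rw [hzi]; exact hi)
    have h6 : (⟨z (Sum.inr (Sum.inl i)), Algebra.subset_adjoin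
        (Or.inl (Set.mem_range_self (Sum.inr (Sum.inl i))))⟩ :
        Algebra.adjoin k (Set.range z ∪ {β})) = ⟨w i, hw i⟩ := Subtype.ext hzi
    rwa [h6] at h5

private noncomputable def K6g {R S : Type} [CommRing R] [CommRing S] {m : ℕ}
    (F : MvPolynomial (Fin m) R) (ρ : R →+* S) (x w : Fin m → S) : S :=
  ∑ i, MvPolynomial.eval₂ ρ x (MvPolynomial.pderiv i F) * w i

private theorem K6g_map {R S S' : Type} [CommRing R] [CommRing S] [CommRing S'] {m : ℕ}
    (F : MvPolynomial (Fin m) R) (ρ : R →+* S) (x w : Fin m → S) (σ : S →+* S') :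
    σ (K6g F ρ x w) = K6g F (σ.comp ρ) (fun i => σ (x i)) (fun i => σ (w i)) := by
  unfold K6g
  rw [map_sum]
  refine Finset.sum_congr rfl fun i _ => ?_
  rw [map_mul, MvPolynomial.eval₂_comp_left]
  rfl

private theorem K6g_sum {R S : Type} [CommRing R] [CommRing S] {m : ℕ}
    (F : MvPolynomial (Fin m) R) (ρ : R →+* S) (x : Fin m → S) {J : Type} [Fintype J] (c : J → S)
    (a : J → Fin m → S) :
    K6g F ρ x (fun i => ∑ j, c j * a j i) = ∑ j, c j * K6g F ρ x (a j) := by
  unfold K6g
  simp only [Finset.mul_sum]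
  rw [Finset.sum_comm]
  refine Finset.sum_congr rfl fun j _ => Finset.sum_congr rfl fun i _ => ?_
  ring

private theorem K6_grad_eq {k R : Type} [Field k] [CommRing R] {m : ℕ} (ι : R →+* k)
    (F : MvPolynomial (Fin m) R) {S : Type} [CommRing S] [Algebra k S] (x w : Fin m → S) :
    grad (MvPolynomial.map ι F) x w = K6g F ((algebraMap k S).comp ι) x w := by
  unfold grad K6g
  refine Finset.sum_congr rfl fun i _ => ?_
  rw [MvPolynomial.pderiv_map, MvPolynomial.aeval_def, MvPolynomial.eval₂_map]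

private theorem K6_sum {k : Type} [Field k] (N : ℕ) (f : k[X]) (hf : f.degree < (N : ℕ)) :
    f = ∑ j : Fin N, C (f.coeff j) * X ^ (j : ℕ) := by
  ext m
  rw [Polynomial.finsetSum_coeff]
  simp only [coeff_C_mul, coeff_X_pow]
  by_cases hm : m < N
  · rw [Finset.sum_eq_single (⟨m, hm⟩ : Fin N)]
    · simp
    · intro b _ hb
      rw [if_neg, mul_zero]
      intro h
      exact hb (Fin.ext h.symm)
    · intro h
      exact absurd (Finset.mem_univ _) h
  · rw [coeff_eq_zero_of_degree_lt (lt_of_lt_of_le hf (by exact_mod_cast not_lt.1 hm))]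
    refine (Finset.sum_eq_zero fun b _ => ?_).symm
    rw [if_neg, mul_zero]
    intro h
    exact hm (h ▸ b.2)

private theorem K6_deg {k : Type} [Field k] (N : ℕ) {J : Type} [Fintype J] (c : J → k)
    (a : J → k[X]) (ha : ∀ j, (a j).degree < (N : ℕ)) : (∑ j, C (c j) * a j).degree < (N : ℕ) := by
  rw [← mem_degreeLT]
  refine Submodule.sum_mem _ fun j _ => ?_
  rw [← smul_eq_C_mul]
  exact Submodule.smul_mem _ _ (mem_degreeLT.2 (ha j))

theorem exists_teeth {k K : Type} [Field k] [IsAlgClosed k] [Field K] [Algebra k K] (g : Gn k K)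
    {n : ℕ} (F : MvPolynomial (Fin (n + 1)) g.O) (hF : F.IsHomogeneous n)
    (Pt : Fin (n + 1) → g.O) (d : ℕ) (γ : Fin (n + 1) → (AlgebraicClosure K)[X])
    (hγ : Free (MvPolynomial.map (g.O.subtype : g.O →+* K) F) d γ)
    (hγ0 : vc γ 0 = fun a => algebraMap K (AlgebraicClosure K) (Pt a))
    (S : Finset (Fin (n + 1) → g.O))
    (hS : ∀ R ∈ S, ∃ i j, algebraMap K (AlgebraicClosure K) (R i) * vc γ d j ≠
      algebraMap K (AlgebraicClosure K) (R j) * vc γ d i) :
    ∃ T : Finset k, ∀ b ∉ T, ∃ (ev : g.O →ₐ[k] k) (τ : Fin (n + 1) → k[X]), ev g.tO = b ∧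
      ((derivative g.G).map (evalRingHom b)).eval (ev g.θO) ≠ 0 ∧
      Free (MvPolynomial.map (ev : g.O →+* k) F) d τ ∧ (vc τ 0 = fun a => ev (Pt a)) ∧
      ∀ R ∈ S, ∃ i j, ev (R i) * vc τ d j ≠ ev (R j) * vc τ d i := by
  classical
  obtain ⟨hd, ⟨hγd, hγF⟩, hfree⟩ := hγ
  have hXdeg : ∀ j : Fin (n * d), (X ^ (j : ℕ) : (AlgebraicClosure K)[X]).degree < (n * d : ℕ) := by
    intro j
    rw [degree_X_pow]
    exact_mod_cast j.2
  choose a ha haX using fun j : Fin (n * d) => hfree (X ^ (j : ℕ)) (hXdeg j)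
  choose! ri rj hR using hS
  obtain ⟨w, hwd⟩ : ∃ w : Option S → AlgebraicClosure K, w = fun o => Option.elim o
      (algebraMap K (AlgebraicClosure K) (ev2 g.t g.θ (derivative g.G)))
      (fun R => algebraMap K (AlgebraicClosure K) ((R.1 (ri R.1) : g.O) : K) * vc γ d (rj R.1) -
        algebraMap K (AlgebraicClosure K) ((R.1 (rj R.1) : g.O) : K) * vc γ d (ri R.1)) := ⟨_, rfl⟩
  obtain ⟨P, hPd⟩ : ∃ P : Fin (n + 1) ⊕ (Fin (n * d) × Fin (n + 1)) → (AlgebraicClosure K)[X],
      P = Sum.elim γ (fun x => a x.1 x.2) := ⟨_, rfl⟩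
  obtain ⟨T, hT⟩ := K6_lift g P w
  refine ⟨T, fun b hb => ?_⟩
  obtain ⟨B, φ, P', w', ρ, hP, hw, hρ, hφb, hφw⟩ := hT b hb
  have hval : Function.Injective (B.val : B →+* AlgebraicClosure K) := Subtype.val_injective
  have hinj : Function.Injective (mapRingHom (B.val : B →+* AlgebraicClosure K)) :=
    Polynomial.map_injective _ hval
  have hdegP : ∀ j, (P' j).degree = (P j).degree := by
    intro j
    rw [← hP j]
    exact (Polynomial.degree_map_eq_of_injective hval _).symm
  have hdeg : ∀ j, ((P' j).map (φ : B →+* k)).degree ≤ (P j).degree := by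
    intro j
    rw [← hdegP j]
    exact Polynomial.degree_map_le
  have hγ' : ∀ i, (P' (Sum.inl i)).map (B.val : B →+* AlgebraicClosure K) = γ i := fun i => by
    rw [hP, hPd]
    rfl
  have ha' : ∀ j i, (P' (Sum.inr (j, i))).map (B.val : B →+* AlgebraicClosure K) = a j i :=
    fun j i => by
      rw [hP, hPd]
      rfl
  have r1 : (mapRingHom (B.val : B →+* AlgebraicClosure K)).comp
      ((C : B →+* B[X]).comp (ρ : g.O →+* B)) =
      (algebraMap K (AlgebraicClosure K)[X]).comp (g.O.subtype : g.O →+* K) := by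
    refine RingHom.ext fun x => ?_
    change (C (ρ x)).map (B.val : B →+* AlgebraicClosure K) = C (algebraMap K (AlgebraicClosure K) x)
    rw [Polynomial.map_C]
    exact congrArg C (hρ x)
  have r2 : (mapRingHom (φ : B →+* k)).comp ((C : B →+* B[X]).comp (ρ : g.O →+* B)) =
      (algebraMap k k[X]).comp ((φ.comp ρ : g.O →ₐ[k] k) : g.O →+* k) := by
    refine RingHom.ext fun x => ?_
    change (C (ρ x)).map (φ : B →+* k) = C (φ (ρ x))
    rw [Polynomial.map_C]
    rfl
  -- the identities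
  have e0 : MvPolynomial.eval₂ ((C : B →+* B[X]).comp (ρ : g.O →+* B))
      (fun i => P' (Sum.inl i)) F = 0 := by
    apply hinj
    rw [MvPolynomial.eval₂_comp_left, r1, map_zero]
    have h1 : (mapRingHom (B.val : B →+* AlgebraicClosure K)) ∘ (fun i => P' (Sum.inl i)) = γ :=
      funext fun i => hγ' i
    rw [h1]
    rw [MvPolynomial.aeval_def, MvPolynomial.eval₂_map] at hγF
    exact hγF
  have e1 : ∀ j : Fin (n * d), K6g F ((C : B →+* B[X]).comp (ρ : g.O →+* B))
      (fun i => P' (Sum.inl i)) (fun i => P' (Sum.inr (j, i))) = X ^ (j : ℕ) := by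
    intro j
    apply hinj
    rw [K6g_map, r1, map_pow]
    have h1 : (fun i => (mapRingHom (B.val : B →+* AlgebraicClosure K)) (P' (Sum.inl i))) = γ :=
      funext fun i => hγ' i
    have h2 : (fun i => (mapRingHom (B.val : B →+* AlgebraicClosure K)) (P' (Sum.inr (j, i)))) =
        a j := funext fun i => ha' j i
    rw [h1, h2, ← K6_grad_eq]
    refine (haX j).trans ?_
    congr 1
    exact (Polynomial.map_X _).symm
  have f1 : ∀ j : Fin (n * d), K6g F ((algebraMap k k[X]).comp
      ((φ.comp ρ : g.O →ₐ[k] k) : g.O →+* k)) (fun i => (P' (Sum.inl i)).map (φ : B →+* k))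
      (fun i => (P' (Sum.inr (j, i))).map (φ : B →+* k)) = X ^ (j : ℕ) := by
    intro j
    have h1 := congrArg (mapRingHom (φ : B →+* k)) (e1 j)
    rw [K6g_map, r2, map_pow] at h1
    refine h1.trans ?_
    congr 1
    exact Polynomial.map_X _
  refine ⟨φ.comp ρ, fun i => (P' (Sum.inl i)).map (φ : B →+* k), hφb, ?_,
    ⟨hd, ⟨fun i => ?_, ?_⟩, fun f hf => ?_⟩, ?_, fun R hRS => ⟨ri R, rj R, ?_⟩⟩
  · obtain ⟨y, hy⟩ : ∃ y : g.O, y = eval₂ ((aeval g.tO : k[X] →ₐ[k] g.O) : k[X] →+* g.O) g.θO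
        (derivative g.G) := ⟨_, rfl⟩
    have h1 : (y : K) = ev2 g.t g.θ (derivative g.G) := by
      have h2 : (g.O.val : g.O →+* K) y = eval₂ ((g.O.val : g.O →+* K).comp
          ((aeval g.tO : k[X] →ₐ[k] g.O) : k[X] →+* g.O)) ((g.O.val : g.O →+* K) g.θO)
          (derivative g.G) := by
        rw [hy, hom_eval₂]
      refine h2.trans ?_
      unfold ev2
      rw [coe_eval₂RingHom]
      congr 1
      refine RingHom.ext fun p => ?_
      have h3 : aeval (g.O.val g.tO) p = g.O.val (aeval g.tO p) := aeval_algHom_apply _ _ _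
      exact h3.symm
    have h3 : φ (ρ y) = ((derivative g.G).map (evalRingHom b)).eval ((φ.comp ρ) g.θO) := by
      have h4 : ((φ.comp ρ : g.O →ₐ[k] k) : g.O →+* k) y =
          eval₂ (((φ.comp ρ : g.O →ₐ[k] k) : g.O →+* k).comp
          ((aeval g.tO : k[X] →ₐ[k] g.O) : k[X] →+* g.O)) ((φ.comp ρ) g.θO) (derivative g.G) := by
        rw [hy, hom_eval₂]
        rfl
      refine h4.trans ?_
      rw [eval_map]
      congr 1
      refine RingHom.ext fun p => ?_
      have h5 : aeval ((φ.comp ρ) g.tO) p = (φ.comp ρ) (aeval g.tO p) := aeval_algHom_apply _ _ _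
      have h6 : (φ.comp ρ) g.tO = b := hφb
      rw [h6] at h5
      refine h5.symm.trans ?_
      rw [coe_aeval_eq_eval]
      rfl
    rw [← h3]
    have h5 : ρ y = w' none := by
      apply Subtype.ext
      rw [hρ, hw, hwd, h1]
      rfl
    rw [h5]
    apply hφw
    rw [hwd]
    change algebraMap K (AlgebraicClosure K) (ev2 g.t g.θ (derivative g.G)) ≠ 0
    rw [Ne, FaithfulSMul.algebraMap_eq_zero_iff]
    exact g.sep
  · refine Polynomial.natDegree_le_iff_degree_le.2 ?_
    refine (hdeg (Sum.inl i)).trans ?_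
    rw [hPd]
    exact Polynomial.natDegree_le_iff_degree_le.1 (hγd i)
  · rw [MvPolynomial.aeval_def, MvPolynomial.eval₂_map]
    have h1 := congrArg (mapRingHom (φ : B →+* k)) e0
    rw [MvPolynomial.eval₂_comp_left, r2, map_zero] at h1
    exact h1
  · refine ⟨fun i => ∑ j : Fin (n * d), C (f.coeff j) * (P' (Sum.inr (j, i))).map (φ : B →+* k),
      fun i => ?_, ?_⟩
    · refine K6_deg d (fun j : Fin (n * d) => f.coeff j)
        (fun j => (P' (Sum.inr (j, i))).map (φ : B →+* k)) fun j => lt_of_le_of_lt (hdeg _) ?_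
      rw [hPd]
      exact ha j i
    · rw [K6_grad_eq, K6g_sum F _ _ (fun j : Fin (n * d) => C (f.coeff j))
        (fun j i => (P' (Sum.inr (j, i))).map (φ : B →+* k))]
      conv_rhs => rw [K6_sum (n * d) f hf]
      refine Finset.sum_congr rfl fun j _ => ?_
      rw [f1]
  · funext i
    have h1 : (P' (Sum.inl i)).coeff 0 = ρ (Pt i) := by
      apply Subtype.ext
      rw [hρ]
      have h2 : (γ i).coeff 0 = algebraMap K (AlgebraicClosure K) (Pt i) := congrFun hγ0 i
      rw [← h2, ← hγ' i, Polynomial.coeff_map]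
      rfl
    change ((P' (Sum.inl i)).map (φ : B →+* k)).coeff 0 = φ (ρ (Pt i))
    rw [Polynomial.coeff_map, h1]
    rfl
  · have h1 := hφw (some ⟨R, hRS⟩) (by
      rw [hwd]
      exact sub_ne_zero.2 (hR R hRS))
    have hco : ∀ i, (((P' (Sum.inl i)).coeff d : B) : AlgebraicClosure K) = vc γ d i := fun i => by
      rw [vc, ← hγ' i, Polynomial.coeff_map]
      rfl
    have h2 : w' (some ⟨R, hRS⟩) = ρ (R (ri R)) * (P' (Sum.inl (rj R))).coeff d -
        ρ (R (rj R)) * (P' (Sum.inl (ri R))).coeff d := by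
      apply Subtype.ext
      rw [hw, hwd, Subalgebra.coe_sub, Subalgebra.coe_mul, Subalgebra.coe_mul, hρ, hρ, hco, hco]
      rfl
    rw [h2, map_sub, map_mul, map_mul] at h1
    have h3 : ∀ i, vc (fun i => (P' (Sum.inl i)).map (φ : B →+* k)) d i =
        φ ((P' (Sum.inl i)).coeff d) := fun i => by
      rw [vc, Polynomial.coeff_map]
      rfl
    rw [h3, h3]
    exact sub_ne_zero.1 h1

end Q9
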