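import Pool.Agent.LibQ9.K2
import Pool.Agent.LibQ9.K3b
import Pool.Agent.LibQ9.K4
import Pool.Agent.LibQ9.K5c
import Pool.Agent.LibQ9.K6

/-!
[Q9 K7] (MEDIUM; may cite K2, K3b, K4, K5c, K6 as stated) Another point, everything over the ring `O = k[t, θ]`.

PLAN. K3b: `R`, `C₁`, `s = t⁻¹`; `CF`, `CP` such that all (finitely many) coefficients of `F` times `s^CF` and all `Pt a` times `s^CP` are in `R` (exponents can be raised as `s ∈ R`); `U` for `C = CF + n (CP + d C₁)`; `m = finrank k U + 1`. K6: `T`; choose `b : Fin m → k` injective outside `T` (`k` infinite), `ev i`, `τ i`. K2: `P : Poles`, `P.ev = ev`, `P.π i = aeval θ h / (t - b i)` (`t ≠ b i`), so `P.π i * s^C₁ ∈ R`. For `R' ∈ S` and `i` choose `(a, b)` with `ev_i (R' a) * vc (τ i) d b ≠ ev_i (R' b) * vc (τ i) d a` (K6); `Ψ i = ∏_{R' ∈ S} (C (ev_i (R' a)) * X b - C (ev_i (R' b)) * X a)`.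
K5c: `e`, `σ`, `e i₀ ≠ 0`. `Q a = Pt a + Σ_i Σ_j σ i a j e_i^(j+1) π_i^(j+1)`. Let `R' ∈ S`, `(a, b)` its pair at `i₀`. `R' a * Q b - R' b * Q a = o + Σ_i Σ_j f_ij π_i^(j+1)` with `o = R' a * Pt b - R' b * Pt a ∈ O`, `f_ij = (R' a * σ i b j - R' b * σ i a j) e_i^(j+1) ∈ O`; `ev_i₀ (f_(i₀, d-1)) = (ev (R' a) σ i₀ b (d-1) - ev (R' b) σ i₀ a (d-1)) e_i₀^d ≠ 0` (factor of `Ψ i₀`). K4 `lead_ne` (`t = g.tO`, `η i = H` from K2): it is `≠ 0`.
-/

set_option autoImplicit false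

namespace Q9

open Polynomial

private theorem K7_exp {k K : Type} [Field k] [Field K] [Algebra k K] (R : Subalgebra k K) (s : K)
    (hs : s ∈ R) (hpow : ∀ f : K, ∃ C : ℕ, f * s ^ C ∈ R) {ι : Type} (A : Finset ι) (v : ι → K) :
    ∃ C : ℕ, ∀ x ∈ A, v x * s ^ C ∈ R := by
  classical
  induction A using Finset.induction_on with
  | empty => exact ⟨0, fun x hx => absurd hx (Finset.notMem_empty x)⟩
  | insert a A _ ih =>
    obtain ⟨C, hC⟩ := ih
    obtain ⟨C', hC'⟩ := hpow (v a)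
    refine ⟨C + C', fun x hx => ?_⟩
    rcases Finset.mem_insert.1 hx with rfl | hx
    · rw [add_comm, pow_add, ← mul_assoc]
      exact R.mul_mem hC' (R.pow_mem hs C)
    · rw [pow_add, ← mul_assoc]
      exact R.mul_mem (hC x hx) (R.pow_mem hs C')

private theorem K7_inj {k : Type} [Field k] [IsAlgClosed k] (T : Finset k) (m : ℕ) :
    ∃ b : Fin m → k, Function.Injective b ∧ ∀ i, b i ∉ T := by
  have hk : Infinite k := IsAlgClosed.instInfinite
  have h := (T.finite_toSet).infinite_compl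
  have h' : Infinite ((T : Set k)ᶜ : Set k) := h.to_subtype
  refine ⟨fun i => (Infinite.natEmbedding ((T : Set k)ᶜ : Set k) i.val).1, fun i j hij => ?_,
    fun i => ?_⟩
  · exact Fin.ext ((Infinite.natEmbedding _).injective (Subtype.ext hij))
  · exact (Infinite.natEmbedding ((T : Set k)ᶜ : Set k) i.val).2

theorem exists_other {k K : Type} [Field k] [IsAlgClosed k] [Field K] [Algebra k K] (g : Gn k K)
    {n : ℕ} (hn : 2 ≤ n) (F : MvPolynomial (Fin (n + 1)) g.O) (hF : F.IsHomogeneous n)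
    (Pt : Fin (n + 1) → g.O) (hPt : MvPolynomial.eval Pt F = 0) (d : ℕ)
    (γ : Fin (n + 1) → (AlgebraicClosure K)[X])
    (hγ : Free (MvPolynomial.map (g.O.subtype : g.O →+* K) F) d γ)
    (hγ0 : vc γ 0 = fun a => algebraMap K (AlgebraicClosure K) (Pt a))
    (S : Finset (Fin (n + 1) → g.O))
    (hS : ∀ R ∈ S, ∃ i j, algebraMap K (AlgebraicClosure K) (R i) * vc γ d j ≠
      algebraMap K (AlgebraicClosure K) (R j) * vc γ d i) :
    ∃ Q : Fin (n + 1) → K,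
      MvPolynomial.eval Q (MvPolynomial.map (g.O.subtype : g.O →+* K) F) = 0 ∧
      ∀ R ∈ S, ∃ i j, (R i : K) * Q j ≠ (R j : K) * Q i := by
  classical
  obtain ⟨R, C₁, hs, hpole, hpow, hfin⟩ := exists_filt g
  obtain ⟨CF, hCF⟩ := K7_exp R g.t⁻¹ hs hpow F.support
    (fun ν => ((MvPolynomial.coeff ν F : g.O) : K))
  obtain ⟨CP, hCP⟩ := K7_exp R g.t⁻¹ hs hpow Finset.univ (fun a => ((Pt a : g.O) : K))
  have hFR : ∀ ν, ((MvPolynomial.coeff ν F : g.O) : K) * g.t⁻¹ ^ CF ∈ R := by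
    intro ν
    by_cases hν : ν ∈ F.support
    · exact hCF ν hν
    · rw [MvPolynomial.notMem_support_iff.1 hν]
      have : ((0 : g.O) : K) * g.t⁻¹ ^ CF = 0 := by
        rw [ZeroMemClass.coe_zero, zero_mul]
      rw [this]
      exact R.zero_mem
  have hPR : ∀ a, (Pt a : K) * g.t⁻¹ ^ CP ∈ R := fun a => hCP a (Finset.mem_univ a)
  obtain ⟨U, hUf, hU⟩ := hfin (CF + n * (CP + d * C₁))
  obtain ⟨T, hT⟩ := exists_teeth g F hF Pt d γ hγ hγ0 S hS
  obtain ⟨b, hbinj, hbT⟩ := K7_inj T (Module.finrank k U + 1)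
  choose ev τ hev hsep hfree hvc hR using fun i => hT (b i) (hbT i)
  obtain ⟨P, hPev, hPh⟩ := exists_poles g b hbinj ev hev hsep
  subst hPev
  choose h H hdeg hπ hHe hH0 using hPh
  choose! pa pc hpac using hR
  have htb : ∀ i, g.t - algebraMap k K (b i) ≠ 0 := by
    intro i h0
    apply g.tr
    rw [sub_eq_zero.1 h0]
    exact isAlgebraic_algebraMap _
  have hπR : ∀ i, P.π i * g.t⁻¹ ^ C₁ ∈ R := by
    intro i
    have h1 : P.π i = aeval g.θ (h i) / (g.t - algebraMap k K (b i)) := by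
      rw [eq_div_iff (htb i), mul_comm]
      exact hπ i
    rw [h1]
    exact hpole (b i) (h i) (hdeg i)
  obtain ⟨Ψ, hΨd⟩ : ∃ Ψ : Fin (Module.finrank k U + 1) → MvPolynomial (Fin (n + 1)) k,
      ∀ i, Ψ i = ∏ R' ∈ S, (MvPolynomial.C (P.ev i (R' (pa i R'))) * MvPolynomial.X (pc i R') -
        MvPolynomial.C (P.ev i (R' (pc i R'))) * MvPolynomial.X (pa i R')) :=
    ⟨_, fun _ => rfl⟩
  have hΨe : ∀ i (v : Fin (n + 1) → k), MvPolynomial.eval v (Ψ i) =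
      ∏ R' ∈ S, (P.ev i (R' (pa i R')) * v (pc i R') - P.ev i (R' (pc i R')) * v (pa i R')) := by
    intro i v
    rw [hΨd, map_prod]
    refine Finset.prod_congr rfl fun R' _ => ?_
    simp
  have hΨ : ∀ i, MvPolynomial.eval (vc (τ i) d) (Ψ i) ≠ 0 := by
    intro i
    rw [hΨe, Finset.prod_ne_zero_iff]
    intro R' hR'
    exact sub_ne_zero.2 (hpac i R' hR')
  obtain ⟨e, σ, hd, ⟨i₀, he0⟩, hσ, hQ⟩ := exists_sol P R g.t⁻¹ hs C₁ CF CP d hπR hn F hF hFR Pt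
    hPR hPt U hU (Nat.lt_succ_self _) τ hfree hvc Ψ hΨ
  refine ⟨_, hQ, fun R' hR' => ⟨pa i₀ R', pc i₀ R', fun heq => ?_⟩⟩
  obtain ⟨a, ha⟩ : ∃ a, a = pa i₀ R' := ⟨_, rfl⟩
  obtain ⟨c, hc⟩ : ∃ c, c = pc i₀ R' := ⟨_, rfl⟩
  have hne : P.ev i₀ (R' a) * σ i₀ c ⟨d - 1, Nat.sub_lt hd Nat.one_pos⟩ -
      P.ev i₀ (R' c) * σ i₀ a ⟨d - 1, Nat.sub_lt hd Nat.one_pos⟩ ≠ 0 := by
    have h1 := hσ i₀
    rw [hΨe, Finset.prod_ne_zero_iff] at h1
    rw [ha, hc]
    exact h1 R' hR'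
  rw [← ha, ← hc] at heq
  have hcom : ∀ (x y : k) (r r' : g.O), P.ev i₀ (algebraMap k g.O x * r -
      algebraMap k g.O y * r') = x * P.ev i₀ r - y * P.ev i₀ r' := by
    intro x y r r'
    rw [map_sub, map_mul, map_mul, AlgHom.commutes, AlgHom.commutes, Algebra.algebraMap_self,
      RingHom.id_apply, RingHom.id_apply]
  have h2 := lead_ne P g.tO b hbinj hev H (fun i => (hπ i).trans (hHe i).symm) hH0 d hd
    (R' a * Pt c - R' c * Pt a)
    (fun i j => algebraMap k g.O (σ i c j * e i ^ (j.val + 1)) * R' a -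
      algebraMap k g.O (σ i a j * e i ^ (j.val + 1)) * R' c) i₀ (by
      rw [hcom]
      have h3 : σ i₀ c ⟨d - 1, Nat.sub_lt hd Nat.one_pos⟩ * e i₀ ^ (d - 1 + 1) * P.ev i₀ (R' a) -
          σ i₀ a ⟨d - 1, Nat.sub_lt hd Nat.one_pos⟩ * e i₀ ^ (d - 1 + 1) * P.ev i₀ (R' c) =
          (P.ev i₀ (R' a) * σ i₀ c ⟨d - 1, Nat.sub_lt hd Nat.one_pos⟩ -
            P.ev i₀ (R' c) * σ i₀ a ⟨d - 1, Nat.sub_lt hd Nat.one_pos⟩) * e i₀ ^ (d - 1 + 1) := by
        ring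
      rw [h3]
      exact mul_ne_zero hne (pow_ne_zero _ he0))
  apply h2
  rw [← sub_eq_zero] at heq
  rw [← heq]
  have e1 : ∀ (r : K) (v : Fin (n + 1)), r * ((Pt v : K) + ∑ i, ∑ j : Fin d,
      algebraMap k K (σ i v j * e i ^ (j.val + 1)) * P.π i ^ (j.val + 1)) =
      r * (Pt v : K) + ∑ i, ∑ j : Fin d,
        algebraMap k K (σ i v j * e i ^ (j.val + 1)) * r * P.π i ^ (j.val + 1) := by
    intro r v
    rw [mul_add, Finset.mul_sum]
    refine congrArg _ (Finset.sum_congr rfl fun i _ => ?_)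
    rw [Finset.mul_sum]
    refine Finset.sum_congr rfl fun j _ => ?_
    ring
  rw [e1, e1]
  have e2 : ∑ i, ∑ j : Fin d, (((algebraMap k g.O (σ i c j * e i ^ (j.val + 1)) * R' a -
      algebraMap k g.O (σ i a j * e i ^ (j.val + 1)) * R' c : g.O)) : K) * P.π i ^ (j.val + 1) =
      (∑ i, ∑ j : Fin d,
        algebraMap k K (σ i c j * e i ^ (j.val + 1)) * (R' a : K) * P.π i ^ (j.val + 1)) -
      ∑ i, ∑ j : Fin d,
        algebraMap k K (σ i a j * e i ^ (j.val + 1)) * (R' c : K) * P.π i ^ (j.val + 1) := by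
    rw [← Finset.sum_sub_distrib]
    refine Finset.sum_congr rfl fun i _ => ?_
    rw [← Finset.sum_sub_distrib]
    refine Finset.sum_congr rfl fun j _ => ?_
    rw [← sub_mul]
    rfl
  rw [e2]
  have e3 : ((R' a * Pt c - R' c * Pt a : g.O) : K) =
      (R' a : K) * (Pt c : K) - (R' c : K) * (Pt a : K) := rfl
  rw [e3]
  ring

end Q9
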