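import Pool.Agent.LibQ9.TDefs
import Pool.Agent.LibQ9.CDefs

/-!
# LibQ9, block K: definitions (function fields of one variable)
-/

set_option autoImplicit false

namespace Q9

open Polynomial

/-- evaluation of a polynomial in two variables (outer variable at `θ`, inner variable at `t`) -/
noncomputable def ev2 {k K : Type} [Field k] [Field K] [Algebra k K] (t θ : K) :
    Polynomial (Polynomial k) →+* K :=
  Polynomial.eval₂RingHom ((Polynomial.aeval t : k[X] →ₐ[k] K) : k[X] →+* K) θ

/-- generators of a function field `K` of one variable over `k`: `t` transcendental, `θ` with the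
monic minimal equation `G` over `k[t]`, separable -/
structure Gn (k K : Type) [Field k] [Field K] [Algebra k K] where
  t : K
  θ : K
  G : Polynomial (Polynomial k)
  tr : Transcendental k t
  monic : G.Monic
  root : ev2 t θ G = 0
  sep : ev2 t θ (derivative G) ≠ 0
  li : ∀ a : Polynomial (Polynomial k), a.degree < G.degree → ev2 t θ a = 0 → a = 0
  gen : ∀ f : K, ∃ (a : Polynomial (Polynomial k)) (b : Polynomial k),
    b ≠ 0 ∧ f * aeval t b = ev2 t θ a

variable {k K : Type} [Field k] [Field K] [Algebra k K]

/-- the ring `k[t, θ]` -/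
def Gn.O (g : Gn k K) : Subalgebra k K := Algebra.adjoin k {g.t, g.θ}

/-- `t` as an element of `k[t, θ]` -/
def Gn.tO (g : Gn k K) : g.O := ⟨g.t, Algebra.subset_adjoin (Or.inl rfl)⟩

/-- `θ` as an element of `k[t, θ]` -/
def Gn.θO (g : Gn k K) : g.O := ⟨g.θ, Algebra.subset_adjoin (Or.inr rfl)⟩

/-- the unknowns of the comb over the curve: the parameters `e i` and the coefficients of the teeth
(`(i, a, j)`: coefficient of `w^(j+1)` of the coordinate `a` of the tooth `i`) -/
abbrev Iv (m n d : ℕ) : Type := Fin m ⊕ (Fin m × Fin (n + 1) × Fin d)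

/-- the tooth `i` with indeterminate coefficients, without its constant term -/
noncomputable def tau (k : Type) [Field k] {m n d : ℕ} (a : Fin (n + 1)) (i : Fin m) :
    Polynomial (MvPolynomial (Iv m n d) k) :=
  ∑ j : Fin d, C (MvPolynomial.X (Sum.inr (i, a, j))) * X ^ (j.val + 1)

/-- the solution given by the free teeth, all parameters `0` -/
def kzc {k : Type} [Field k] {m n : ℕ} (d : ℕ) (τ : Fin m → Fin (n + 1) → k[X]) : Iv m n d → k :=
  Sum.elim (fun _ => 0) (fun a => (τ a.1 a.2.1).coeff (a.2.2.val + 1))

end Q9
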