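import Mathlib

/-!
[Q9 KF] (SHORT/MEDIUM; only Mathlib) A finitely generated field extension of transcendence degree `1` of an algebraically closed field `k` is finite separable over a rational function field `k(t)`.

PLAN. `exists_isTranscendenceBasis_and_isSeparable_of_perfectField` (Mathlib/FieldTheory/SeparablyGenerated.lean): a finite transcendence basis `s`, `K` separable over `IntermediateField.adjoin k s`; `s = {t}` because the transcendence degree is `1` (`IsTranscendenceBasis.cardinalMk_eq` or similar). `t` is transcendental, so `Polynomial.aeval t` is injective and extends to `RatFunc k →ₐ[k] K` (`IsFractionRing.lift`, `RatFunc.liftAlgHom`), with range `IntermediateField.adjoin k {t}`; `toAlgebra` gives the algebra structure. Separability: `Algebra.IsSeparable` transfers from the intermediate field to `RatFunc k`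
(minimal polynomials correspond under the isomorphism `RatFunc k ≃ adjoin k {t}`; `Algebra.IsSeparable.of_algebra..` or tower arguments: make `adjoin k {t}` an algebra over `RatFunc k` with surjective structure map, `IsScalarTower`, then `Algebra.IsSeparable.trans`/`of_equiv_equiv`). Finite: `K` is algebraic and essentially of finite type over `RatFunc k` (`Algebra.EssFiniteType.of_comp`, then `Algebra.EssFiniteType` + algebraic field extension gives finite: `Algebra.EssFiniteType.finite..` / `IntermediateField.fg_top` and `IntermediateField.finiteDimensional_adjoin`).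
-/

set_option autoImplicit false

namespace Q9

private theorem KF_one {k K : Type} [Field k] [Field K] [Algebra k K]
    [Algebra.EssFiniteType k K] {t : K} (ht : Transcendental k t)
    [Algebra.IsSeparable (IntermediateField.adjoin k ({t} : Set K)) K] :
    ∃ _ : Algebra (RatFunc k) K, IsScalarTower k (RatFunc k) K ∧
      FiniteDimensional (RatFunc k) K ∧ Algebra.IsSeparable (RatFunc k) K := by
  let e := RatFunc.algEquivOfTranscendental t ht
  let f : RatFunc k →ₐ[k] K := (IntermediateField.val _).comp e.toAlgHom
  let _ : Algebra (RatFunc k) K := f.toRingHom.toAlgebra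
  have h1 : IsScalarTower k (RatFunc k) K :=
    IsScalarTower.of_algebraMap_eq fun x => (f.commutes x).symm
  have h2 : Algebra.IsSeparable (RatFunc k) K := by
    refine Algebra.IsSeparable.of_equiv_equiv (A₁ := IntermediateField.adjoin k ({t} : Set K))
      (B₁ := K) e.symm.toRingEquiv (RingEquiv.refl K) ?_
    ext x
    change ((e (e.symm x) : IntermediateField.adjoin k ({t} : Set K)) : K) = x
    rw [e.apply_symm_apply]
  have h3 : Algebra.EssFiniteType (RatFunc k) K := Algebra.EssFiniteType.of_comp k (RatFunc k) K
  have h4 : Algebra.IsAlgebraic (RatFunc k) K := inferInstance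
  exact ⟨inferInstance, h1, Algebra.finite_of_essFiniteType_of_isAlgebraic, h2⟩

theorem exists_ratfunc {k K : Type} [Field k] [IsAlgClosed k] [Field K] [Algebra k K]
    [Algebra.EssFiniteType k K] (h : Algebra.trdeg k K = 1) :
    ∃ _ : Algebra (RatFunc k) K, IsScalarTower k (RatFunc k) K ∧
      FiniteDimensional (RatFunc k) K ∧ Algebra.IsSeparable (RatFunc k) K := by
  obtain ⟨s, hs, hsep⟩ := exists_isTranscendenceBasis_and_isSeparable_of_perfectField k K
  have hcard : Cardinal.mk s = 1 := by rw [hs.cardinalMk_eq_trdeg, h]
  have h1 : s.card = 1 := by
    rw [Cardinal.mk_coe_finset] at hcard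
    exact_mod_cast hcard
  obtain ⟨t, rfl⟩ := Finset.card_eq_one.1 h1
  have ht : Transcendental k t := hs.1.transcendental ⟨t, Finset.mem_singleton_self t⟩
  rw [Finset.coe_singleton] at hsep
  exact KF_one ht

end Q9
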