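import Pool.Agent.LibQ9.K1
import Pool.Agent.LibQ9.K3a
import Pool.Agent.LibQ9.K7
import Pool.Agent.LibQ9.B8

/-!
[Q9 KFin] (MEDIUM; assembly of block K: may cite K1, K7, K3a, B8 `mobius`, B2 as stated) Infinitely many sections.

`K` is a function field of one variable over the algebraically closed field `k`: finite separable over `k(t)`.

PLAN. `letI : Algebra k K := ((algebraMap (RatFunc k) K).comp (algebraMap k (RatFunc k))).toAlgebra`, `IsScalarTower k (RatFunc k) K`; K1: `g : Gn k K`. `L = AlgebraicClosure K`. Common denominators (`g.gen`: every `f ∈ K` is `ev2 t θ a / aeval t b`; K3a `mem_O`): there is `0 ≠ β ∈ O` such that `β * coeff ν F ∈ O` for all `ν` in the support, `β * P a ∈ O`, `β * R a ∈ O` for all `R ∈ S`. `F_O : MvPolynomial (Fin (n+1)) O` with `map F_O = C β * F` (homogeneous of degree `n`), `Pt a = β P a`, `R_O a = β R a`. `hfree` for the point `Q = β • P` (`≠ 0`, `F(βP) = β^n F(P) = 0`): `d`, `γ` over `L`, `Free F d γ`,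
`vc γ 0 = β P`. `Free (map F_O) d γ`: `map F_O = C β * F` has `aeval = β aeval F`, `grad = β grad F` (the solution vector `a` is divided by `β`). `S' = {P} ∪ (S \ {0})`, scaled by `β`: all nonzero. B8 `mobius` (for the field `K`, `κ = L`) with the finite set of the images of `S'` in `L^(n+1)`: `γ'` free, `vc γ' 0 = vc γ 0`, `∀ R ∈ S', ∃ i j, R i * vc γ' d j ≠ R j * vc γ' d i`. K7: `Q`, `F(Q) = 0` (`β F(Q) = 0`), `∀ R ∈ S', ∃ i j, R_O i * Q j ≠ R_O j * Q i`. So `Q ≠ 0` (take `R = P`), and for `R ∈ S`: if `R = 0` then `Q ≠ c R = 0`; else `Q = c R` would give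
`R_O i * Q j = β R i c R j = R_O j * Q i`.
-/

set_option autoImplicit false

namespace Q9

open Polynomial

private theorem KFin_den {k K : Type} [Field k] [Field K] [Algebra k K] (g : Gn k K) (f : K) :
    ∃ β : g.O, β ≠ 0 ∧ (β : K) * f ∈ g.O := by
  obtain ⟨a, b, hb, h⟩ := g.gen f
  have h1 : aeval g.t b ∈ g.O := by
    have h2 := mem_O g (C b)
    simpa [ev2] using h2
  refine ⟨⟨aeval g.t b, h1⟩, ?_, ?_⟩
  · intro h2
    have h3 : aeval g.t b = 0 := congrArg Subtype.val h2
    exact hb ((transcendental_iff.1 g.tr) b h3)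
  · change aeval g.t b * f ∈ g.O
    rw [mul_comm, h]
    exact mem_O g a

private theorem KFin_dens {k K : Type} [Field k] [Field K] [Algebra k K] (g : Gn k K)
    (s : Finset K) : ∃ β : g.O, β ≠ 0 ∧ ∀ f ∈ s, (β : K) * f ∈ g.O := by
  classical
  induction s using Finset.induction_on with
  | empty => exact ⟨1, one_ne_zero, fun f hf => absurd hf (Finset.notMem_empty f)⟩
  | insert a s _ ih =>
    obtain ⟨β, hβ, h⟩ := ih
    obtain ⟨β', hβ', h'⟩ := KFin_den g a
    refine ⟨β * β', mul_ne_zero hβ hβ', fun f hf => ?_⟩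
    rcases Finset.mem_insert.1 hf with rfl | hf
    · have e : ((β * β' : g.O) : K) * f = (β : K) * ((β' : K) * f) := by
        push_cast
        ring
      rw [e]
      exact g.O.mul_mem β.2 h'
    · have e : ((β * β' : g.O) : K) * f = (β' : K) * ((β : K) * f) := by
        push_cast
        ring
      rw [e]
      exact g.O.mul_mem β'.2 (h f hf)

private theorem KFin_scale {K : Type} [Field K] {n r : ℕ} (Ψ : MvPolynomial (Fin (n + 1)) K)
    (hΨ : Ψ.IsHomogeneous r) (W : K) (u : Fin (n + 1) → K) :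
    MvPolynomial.eval (fun i => W * u i) Ψ = W ^ r * MvPolynomial.eval u Ψ := by
  rw [MvPolynomial.eval_eq, MvPolynomial.eval_eq, Finset.mul_sum]
  refine Finset.sum_congr rfl fun s hs => ?_
  have h1 : ∏ i ∈ s.support, (W * u i) ^ s i = W ^ r * ∏ i ∈ s.support, u i ^ s i := by
    have h2 : ∑ i ∈ s.support, s i = r := by
      have h3 := hΨ (MvPolynomial.mem_support_iff.1 hs)
      rw [← h3]
      simp [Finsupp.weight_apply, Finsupp.sum]
    rw [← h2, ← Finset.prod_pow_eq_pow_sum, ← Finset.prod_mul_distrib]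
    exact Finset.prod_congr rfl fun i _ => mul_pow _ _ _
  rw [h1]
  ring

private theorem KFin_free {K : Type} [Field K] {n : ℕ} (F : MvPolynomial (Fin (n + 1)) K)
    {L : Type} [Field L] [Algebra K L] {d : ℕ} {γ : Fin (n + 1) → L[X]} (h : Free F d γ) {β : K}
    (hβ : β ≠ 0) : Free (MvPolynomial.C β * F) d γ := by
  have hL : algebraMap K L β ≠ 0 := (_root_.map_ne_zero (algebraMap K L)).2 hβ
  obtain ⟨h1, ⟨h2, h3⟩, h4⟩ := h
  have hg : ∀ w : Fin (n + 1) → L[X], grad (MvPolynomial.C β * F) γ w =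
      C (algebraMap K L β) * grad F γ w := by
    intro w
    unfold grad
    rw [Finset.mul_sum]
    refine Finset.sum_congr rfl fun i _ => ?_
    rw [MvPolynomial.pderiv_C_mul, map_mul, MvPolynomial.aeval_C, Polynomial.algebraMap_apply,
      mul_assoc]
  refine ⟨h1, ⟨h2, ?_⟩, fun f hf => ?_⟩
  · rw [map_mul, h3, mul_zero]
  · obtain ⟨a, ha, hag⟩ := h4 (C (algebraMap K L β)⁻¹ * f) (by
      rw [degree_C_mul (inv_ne_zero hL)]
      exact hf)
    refine ⟨a, ha, ?_⟩
    rw [hg, hag, ← mul_assoc, ← C_mul, mul_inv_cancel₀ hL, C_1, one_mul]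

theorem infinite_points {k : Type} [Field k] [IsAlgClosed k] {K : Type} [Field K]
    [Algebra (RatFunc k) K] [FiniteDimensional (RatFunc k) K] [Algebra.IsSeparable (RatFunc k) K]
    {n : ℕ} (hn : 2 ≤ n) (F : MvPolynomial (Fin (n + 1)) K) (hF : F.IsHomogeneous n)
    (P : Fin (n + 1) → K) (hP : P ≠ 0) (hP0 : MvPolynomial.aeval P F = 0)
    (hfree : ∀ Q : Fin (n + 1) → K, Q ≠ 0 → MvPolynomial.aeval Q F = 0 →
      ∃ (d : ℕ) (γ : Fin (n + 1) → (AlgebraicClosure K)[X]), Free F d γ ∧
        vc γ 0 = fun i => algebraMap K (AlgebraicClosure K) (Q i))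
    (S : Finset (Fin (n + 1) → K)) :
    ∃ Q : Fin (n + 1) → K, Q ≠ 0 ∧ MvPolynomial.aeval Q F = 0 ∧
      ∀ R ∈ S, ∀ c : K, Q ≠ fun i => c * R i := by
  classical
  let _ : Algebra k K := ((algebraMap (RatFunc k) K).comp (algebraMap k (RatFunc k))).toAlgebra
  have : IsScalarTower k (RatFunc k) K := IsScalarTower.of_algebraMap_eq fun _ => rfl
  obtain ⟨g⟩ := exists_gn (k := k) (K := K)
  set S1 : Finset (Fin (n + 1) → K) := insert P S with hS1
  obtain ⟨β, hβ, hden⟩ := KFin_dens g (F.support.image (fun ν => F.coeff ν) ∪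
    S1.biUnion fun R => Finset.univ.image R)
  have hβK : (β : K) ≠ 0 := fun h => hβ (Subtype.ext h)
  have hdF : ∀ ν, (β : K) * F.coeff ν ∈ g.O := by
    intro ν
    by_cases h : ν ∈ F.support
    · exact hden _ (Finset.mem_union_left _ (Finset.mem_image_of_mem _ h))
    · rw [MvPolynomial.notMem_support_iff.1 h, mul_zero]
      exact g.O.zero_mem
  have hdR : ∀ R ∈ S1, ∀ a, (β : K) * R a ∈ g.O := fun R hR a =>
    hden _ (Finset.mem_union_right _ (Finset.mem_biUnion.2
      ⟨R, hR, Finset.mem_image_of_mem _ (Finset.mem_univ a)⟩))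
  have hPS : P ∈ S1 := Finset.mem_insert_self _ _
  let FO : MvPolynomial (Fin (n + 1)) g.O :=
    ∑ ν ∈ F.support, MvPolynomial.monomial ν (⟨(β : K) * F.coeff ν, hdF ν⟩ : g.O)
  have hFO : FO.IsHomogeneous n := by
    refine MvPolynomial.IsHomogeneous.sum _ _ _ fun ν hν => ?_
    refine MvPolynomial.isHomogeneous_monomial _ ?_
    have h3 := hF (MvPolynomial.mem_support_iff.1 hν)
    rw [Finsupp.degree_eq_weight_one]
    exact h3
  have hmap : MvPolynomial.map (g.O.subtype : g.O →+* K) FO = MvPolynomial.C (β : K) * F := by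
    have h1 : MvPolynomial.map (g.O.subtype : g.O →+* K) FO =
        ∑ ν ∈ F.support, MvPolynomial.monomial ν ((β : K) * F.coeff ν) := by
      rw [map_sum]
      refine Finset.sum_congr rfl fun ν _ => ?_
      rw [MvPolynomial.map_monomial]
      rfl
    rw [h1]
    conv_rhs => rw [MvPolynomial.as_sum F, Finset.mul_sum]
    refine Finset.sum_congr rfl fun ν _ => ?_
    rw [MvPolynomial.C_mul_monomial]
  have hevP : MvPolynomial.eval P F = 0 := by
    rwa [MvPolynomial.aeval_eq_eval] at hP0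
  let Pt : Fin (n + 1) → g.O := fun a => ⟨(β : K) * P a, hdR P hPS a⟩
  have hPt : MvPolynomial.eval Pt FO = 0 := by
    have h1 : (g.O.subtype : g.O →+* K) (MvPolynomial.eval Pt FO) = 0 := by
      have h2 : (g.O.subtype : g.O →+* K) (MvPolynomial.eval Pt FO) =
          MvPolynomial.eval (fun a => (β : K) * P a)
            (MvPolynomial.map (g.O.subtype : g.O →+* K) FO) := by
        rw [MvPolynomial.eval_map, MvPolynomial.eval, MvPolynomial.coe_eval₂Hom,
          MvPolynomial.eval₂_comp_left]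
        rfl
      rw [h2, hmap, map_mul, KFin_scale F hF, hevP, mul_zero, mul_zero]
    exact Subtype.ext h1
  obtain ⟨d, γ, hγ, hγ0⟩ := hfree (fun a => (β : K) * P a) (by
      intro h
      apply hP
      funext a
      exact (mul_eq_zero.1 (congrFun h a)).resolve_left hβK) (by
      rw [MvPolynomial.aeval_eq_eval, KFin_scale F hF, hevP, mul_zero])
  let toL : (Fin (n + 1) → K) → Fin (n + 1) → AlgebraicClosure K :=
    fun R a => algebraMap K (AlgebraicClosure K) ((β : K) * R a)
  obtain ⟨γ', hγ', hγ'0, hγ'S⟩ := mobius hn F hF d γ hγ ((S1.filter fun R => R ≠ 0).image toL) (by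
    intro R' hR'
    obtain ⟨R, hR, rfl⟩ := Finset.mem_image.1 hR'
    intro h
    apply (Finset.mem_filter.1 hR).2
    funext a
    have h1 : algebraMap K (AlgebraicClosure K) ((β : K) * R a) = 0 := congrFun h a
    rw [map_eq_zero] at h1
    exact (mul_eq_zero.1 h1).resolve_left hβK)
  let toO : (Fin (n + 1) → K) → Fin (n + 1) → g.O :=
    fun R a => if h : (β : K) * R a ∈ g.O then ⟨(β : K) * R a, h⟩ else 0
  have htoO : ∀ R ∈ S1, ∀ a, ((toO R a : g.O) : K) = (β : K) * R a := by
    intro R hR a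
    simp only [toO, dif_pos (hdR R hR a)]
  obtain ⟨Q, hQ, hQS⟩ := exists_other g hn FO hFO Pt hPt d γ' (by
      rw [hmap]
      exact KFin_free F hγ' hβK) (by
      rw [hγ'0, hγ0])
    ((S1.filter fun R => R ≠ 0).image toO) (by
      intro R' hR'
      obtain ⟨R, hR, rfl⟩ := Finset.mem_image.1 hR'
      obtain ⟨i, j, hij⟩ := hγ'S (toL R) (Finset.mem_image_of_mem _ hR)
      refine ⟨i, j, ?_⟩
      rw [htoO R (Finset.mem_filter.1 hR).1, htoO R (Finset.mem_filter.1 hR).1]
      exact hij)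
  have hQ' : ∀ R ∈ S1, R ≠ 0 → ∃ i j, (β : K) * R i * Q j ≠ (β : K) * R j * Q i := by
    intro R hR hR0
    obtain ⟨i, j, hij⟩ := hQS (toO R)
      (Finset.mem_image_of_mem _ (Finset.mem_filter.2 ⟨hR, hR0⟩))
    rw [htoO R hR, htoO R hR] at hij
    exact ⟨i, j, hij⟩
  have hQ0 : Q ≠ 0 := by
    rintro rfl
    obtain ⟨i, j, hij⟩ := hQ' P hPS hP
    exact hij (by simp)
  refine ⟨Q, hQ0, ?_, fun R hR c hc => ?_⟩
  · rw [hmap, map_mul, MvPolynomial.eval_C] at hQ
    rw [MvPolynomial.aeval_eq_eval]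
    exact (mul_eq_zero.1 hQ).resolve_left hβK
  · by_cases hR0 : R = 0
    · apply hQ0
      rw [hc, hR0]
      funext a
      simp
    · obtain ⟨i, j, hij⟩ := hQ' R (Finset.mem_insert_of_mem hR) hR0
      apply hij
      rw [hc]
      ring

end Q9
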