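import Pool.Agent.LibQ9.KDefs
import Pool.Agent.LibQ9.K3a

/-!
[Q9 KT1] (MEDIUM; may cite K3a as stated) Tsen's count, first part: the values of a form at vectors of polynomials of degree at most `δ` in `t` have `deg G * (n δ + c + 1)` coefficients, `c` independent of `δ`.

PLAN. `N = natDegree G`. `li_mono`: put `a = Σ_l (Σ_j C (c (j, l)) X^j) X^l : k[X][X]` of degree `< deg G`; `ev2 t θ a = 0`, so `a = 0` by `g.li`, all `c (j, l) = 0`.
`form_rep`: `F = Σ_ν coeff ν F x^ν`, and `(x_a)` is `Σ_(j,l) x(a,j,l) t^j θ^l`; expanding the product over the `n` factors of a monomial: `F(x)` is a finite sum of `q(x) t^J (f_ν θ^L)` with `q` a monomial (polynomial) in the unknowns over `k`, `J ≤ n δ`, `L ≤ n (N - 1)`, `f_ν` a coefficient of `F`. Let `c` be the maximum of the `natDegree`s of the coefficients of the representatives (`K3a exists_rep_O`) of the finitely many `f_ν θ^L ∈ O` (`ν` in the support of `F`, `L ≤ n N`): `f_ν θ^L = Σ_(j ≤ c, l < N) r t^j θ^l`. So `F(x) = Σ_(j ≤ n δ + c, l <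 N) Y_(j,l)(x) t^j θ^l`.
Suggested: say that `f : MvPolynomial I K` is `D`-representable if `f = Σ_(j ≤ D, l < N) C (t^j θ^l) * map (algebraMap k K) (Y (j, l))`. For `A ≤ 1`: prove by induction on `m` that for every product of `m` linear forms `Σ C (t^j θ^l) X (a, j, l)` and every finite family `f_ν θ^L` there is the representation `Σ_(J ≤ m δ) Σ_(L ≤ m (N - 1)) C (t^J θ^L) * map .. (Y J L)` WITHOUT reduction modulo `G`, and reduce only at the end, after multiplication by the coefficients of `F`.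
-/

set_option autoImplicit false

namespace Q9

open Polynomial

theorem li_mono {k K : Type} [Field k] [Field K] [Algebra k K] (g : Gn k K) {M : ℕ}
    (c : Fin M × Fin g.G.natDegree → k)
    (h : ∑ y, algebraMap k K (c y) * (g.t ^ (y.1 : ℕ) * g.θ ^ (y.2 : ℕ)) = 0)
    (y : Fin M × Fin g.G.natDegree) : c y = 0 := by
  have h1 := li_frac g (fun l => ∑ j : Fin M, monomial j.val (c (j, l))) (fun _ => 1)
    (fun _ => one_ne_zero) ?_ y.2
  · have h2 := congrArg (fun p : k[X] => p.coeff y.1.val) h1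
    change (∑ j : Fin M, monomial j.val (c (j, y.2))).coeff y.1.val = (0 : k[X]).coeff y.1.val at h2
    rw [finsetSum_coeff, Finset.sum_eq_single y.1] at h2
    · simpa using h2
    · intro j _ hj
      rw [coeff_monomial, if_neg]
      exact fun e => hj (Fin.ext e)
    · intro hl
      exact absurd (Finset.mem_univ _) hl
  · rw [← h, Fintype.sum_prod_type_right]
    refine Finset.sum_congr rfl fun l _ => ?_
    rw [map_one, div_one, map_sum, Finset.sum_mul]
    refine Finset.sum_congr rfl fun j _ => ?_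
    rw [aeval_monomial]
    ring

/-- inner degrees at most `D` -/
private def KT1_inn {S : Type} [CommRing S] (D : ℕ) (A : Polynomial (Polynomial S)) : Prop :=
  ∀ l, (A.coeff l).natDegree ≤ D

private theorem KT1_inn_mono {S : Type} [CommRing S] {D E : ℕ} (h : D ≤ E)
    {A : Polynomial (Polynomial S)} (hA : KT1_inn D A) : KT1_inn E A :=
  fun l => (hA l).trans h

private theorem KT1_inn_sum {S : Type} [CommRing S] {ι : Type} (s : Finset ι) {D : ℕ}
    (f : ι → Polynomial (Polynomial S)) (h : ∀ i ∈ s, KT1_inn D (f i)) :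
    KT1_inn D (∑ i ∈ s, f i) := by
  intro l
  rw [finsetSum_coeff]
  exact natDegree_sum_le_of_forall_le s _ fun i hi => h i hi l

private theorem KT1_inn_mul {S : Type} [CommRing S] {D E : ℕ}
    {A B : Polynomial (Polynomial S)} (hA : KT1_inn D A) (hB : KT1_inn E B) :
    KT1_inn (D + E) (A * B) := by
  intro l
  rw [coeff_mul]
  exact natDegree_sum_le_of_forall_le _ _ fun i _ =>
    natDegree_mul_le.trans (Nat.add_le_add (hA _) (hB _))

private theorem KT1_inn_one {S : Type} [CommRing S] :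
    KT1_inn 0 (1 : Polynomial (Polynomial S)) := by
  intro l
  rw [coeff_one]
  split
  · exact natDegree_one.le
  · exact natDegree_zero.le

private theorem KT1_inn_pow {S : Type} [CommRing S] {D : ℕ}
    {A : Polynomial (Polynomial S)} (hA : KT1_inn D A) (m : ℕ) : KT1_inn (m * D) (A ^ m) := by
  induction m with
  | zero =>
    rw [Nat.zero_mul, pow_zero]
    exact KT1_inn_one
  | succ m ih =>
    rw [pow_succ, Nat.succ_mul]
    exact KT1_inn_mul ih hA

private theorem KT1_inn_prod {S : Type} [CommRing S] {ι : Type} (s : Finset ι) (D : ι → ℕ)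
    (f : ι → Polynomial (Polynomial S)) (h : ∀ i ∈ s, KT1_inn (D i) (f i)) :
    KT1_inn (∑ i ∈ s, D i) (∏ i ∈ s, f i) := by
  classical
  induction s using Finset.induction_on with
  | empty =>
    rw [Finset.sum_empty, Finset.prod_empty]
    exact KT1_inn_one
  | insert a s ha ih =>
    rw [Finset.sum_insert ha, Finset.prod_insert ha]
    exact KT1_inn_mul (h a (Finset.mem_insert_self a s))
      (ih fun i hi => h i (Finset.mem_insert_of_mem hi))

private theorem KT1_exb {S : Type} [CommRing S] (A : Polynomial (Polynomial S)) :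
    ∃ D, KT1_inn D A := by
  refine ⟨∑ l ∈ A.support, (A.coeff l).natDegree, fun l => ?_⟩
  by_cases hl : l ∈ A.support
  · exact Finset.single_le_sum (f := fun l => (A.coeff l).natDegree) (fun _ _ => Nat.zero_le _) hl
  · rw [notMem_support_iff.1 hl, natDegree_zero]
    exact Nat.zero_le _

private theorem KT1_inn_map {S T : Type} [CommRing S] [CommRing T] (f : S →+* T) {D : ℕ}
    {A : Polynomial (Polynomial S)} (hA : KT1_inn D A) :
    KT1_inn D (A.map (mapRingHom f)) := by
  intro l
  rw [coeff_map]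
  exact natDegree_map_le.trans (hA l)

private theorem KT1_ev {k K : Type} [Field k] [Field K] [Algebra k K] (t θ : K) {D N : ℕ}
    {A : Polynomial (Polynomial k)} (hA : KT1_inn D A) (hN : A.natDegree < N) :
    ev2 t θ A = ∑ y : Fin (D + 1) × Fin N,
      algebraMap k K ((A.coeff y.2).coeff y.1) * (t ^ (y.1 : ℕ) * θ ^ (y.2 : ℕ)) := by
  have h1 : ev2 t θ A = ∑ l ∈ Finset.range N, aeval t (A.coeff l) * θ ^ l := by
    change eval₂ _ θ A = _
    rw [eval₂_eq_sum_range' _ hN]
    rfl
  rw [h1, Fintype.sum_prod_type_right,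
    ← Fin.sum_univ_eq_sum_range (fun l => aeval t (A.coeff l) * θ ^ l) N]
  refine Finset.sum_congr rfl fun l _ => ?_
  rw [aeval_eq_sum_range' (Nat.lt_succ_of_le (hA l.val)) t, Finset.sum_mul,
    ← Fin.sum_univ_eq_sum_range
      (fun j => (A.coeff l.val).coeff j • t ^ j * θ ^ l.val) (D + 1)]
  refine Finset.sum_congr rfl fun j _ => ?_
  rw [Algebra.smul_def]
  ring

private theorem KT1_mod {S : Type} [CommRing S] {D E L : ℕ}
    (G A : Polynomial (Polynomial S)) (hA : KT1_inn D A) (hL : A.natDegree ≤ L)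
    (hE : ∀ i ∈ Finset.range (L + 1), KT1_inn E (X ^ i %ₘ G)) : KT1_inn (D + E) (A %ₘ G) := by
  have h1 : A %ₘ G = ∑ i ∈ Finset.range (L + 1), C (A.coeff i) * (X ^ i %ₘ G) := by
    conv_lhs => rw [as_sum_range_C_mul_X_pow' A (Nat.lt_succ_of_le hL)]
    change modByMonicHom G _ = _
    rw [map_sum]
    refine Finset.sum_congr rfl fun i _ => ?_
    rw [← smul_eq_C_mul, ← smul_eq_C_mul, map_smul]
    rfl
  rw [h1]
  refine KT1_inn_sum _ _ fun i hi => KT1_inn_mul ?_ (hE i hi)
  intro l
  rw [coeff_C]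
  split
  · exact hA i
  · rw [natDegree_zero]
    exact Nat.zero_le _

theorem form_rep {k K : Type} [Field k] [Field K] [Algebra k K] (g : Gn k K) {n : ℕ}
    (F : MvPolynomial (Fin (n + 1)) g.O) (hF : F.IsHomogeneous n) :
    ∃ c : ℕ, ∀ δ : ℕ, ∃ Y : Fin (n * δ + c + 1) × Fin g.G.natDegree →
        MvPolynomial (Fin (n + 1) × (Fin (δ + 1) × Fin g.G.natDegree)) k,
      ∀ x : Fin (n + 1) × (Fin (δ + 1) × Fin g.G.natDegree) → k,
        MvPolynomial.eval (fun a => ∑ y, algebraMap k K (x (a, y)) *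
            (g.t ^ (y.1 : ℕ) * g.θ ^ (y.2 : ℕ))) (MvPolynomial.map (g.O.subtype : g.O →+* K) F) =
          ∑ y, algebraMap k K (MvPolynomial.eval x (Y y)) * (g.t ^ (y.1 : ℕ) * g.θ ^ (y.2 : ℕ)) := by
  classical
  have hN : 0 < g.G.natDegree := by
    rcases Nat.eq_zero_or_pos g.G.natDegree with h0 | h0
    · exfalso
      have h1 : g.G = 1 := g.monic.natDegree_eq_zero.1 h0
      have h2 := g.root
      rw [h1, map_one] at h2
      exact one_ne_zero h2
    · exact h0
  choose r hr1 hr2 using fun o : g.O => exists_rep_O g o.1 o.2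
  choose bd hbd using fun A : Polynomial (Polynomial k) => KT1_exb A
  let N := g.G.natDegree
  let L := N + n * N
  let c1 := ∑ ν ∈ F.support, bd (r (F.coeff ν))
  let c2 := ∑ i ∈ Finset.range (L + 1), bd (X ^ i %ₘ g.G)
  refine ⟨c1 + c2, fun δ => ?_⟩
  let I := Fin (n + 1) × (Fin (δ + 1) × Fin N)
  let R := MvPolynomial I k
  let io : Polynomial (Polynomial k) →+* Polynomial (Polynomial R) :=
    mapRingHom (mapRingHom (MvPolynomial.C : k →+* R))
  let ξ : Fin (n + 1) → Polynomial (Polynomial R) := fun a =>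
    ∑ y : Fin (δ + 1) × Fin N, monomial y.2.val (monomial y.1.val (MvPolynomial.X (a, y) : R))
  let Φ : Polynomial (Polynomial R) :=
    ∑ ν ∈ F.support, io (r (F.coeff ν)) * ∏ a, ξ a ^ ν a
  let G' : Polynomial (Polynomial R) := io g.G
  have hG' : G'.Monic := g.monic.map _
  have hG'n : G'.natDegree = N := g.monic.natDegree_map _
  let Ψ := Φ %ₘ G'
  have hξ : ∀ a, KT1_inn δ (ξ a) := fun a => by
    refine KT1_inn_sum _ _ fun y _ => ?_
    intro l
    rw [coeff_monomial]
    split
    · exact (natDegree_monomial_le _).trans (Nat.lt_succ_iff.1 y.1.2)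
    · rw [natDegree_zero]
      exact Nat.zero_le _
  have hξN : ∀ a, (ξ a).natDegree ≤ N := fun a => by
    refine natDegree_sum_le_of_forall_le _ _ fun y _ => ?_
    exact (natDegree_monomial_le _).trans y.2.2.le
  have hdeg : ∀ ν ∈ F.support, ∑ a, ν a = n := fun ν hν => by
    have h1 := hF (MvPolynomial.mem_support_iff.1 hν)
    rw [Finsupp.weight_apply, Finsupp.sum_fintype] at h1
    · simpa using h1
    · intro i
      simp
  have hΦ : KT1_inn (n * δ + c1) Φ := by
    refine KT1_inn_sum _ _ fun ν hν => ?_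
    have h1 : KT1_inn (bd (r (F.coeff ν))) (io (r (F.coeff ν))) := KT1_inn_map _ (hbd _)
    have h2 : KT1_inn (∑ a, ν a * δ) (∏ a, ξ a ^ ν a) :=
      KT1_inn_prod _ _ _ fun a _ => KT1_inn_pow (hξ a) _
    rw [← Finset.sum_mul, hdeg ν hν] at h2
    refine KT1_inn_mono ?_ (KT1_inn_mul h1 h2)
    have h3 : bd (r (F.coeff ν)) ≤ c1 :=
      Finset.single_le_sum (f := fun ν => bd (r (F.coeff ν))) (fun _ _ => Nat.zero_le _) hν
    omega
  have hΦN : Φ.natDegree ≤ L := by
    refine natDegree_sum_le_of_forall_le _ _ fun ν hν => ?_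
    refine natDegree_mul_le.trans (Nat.add_le_add ?_ ?_)
    · exact natDegree_map_le.trans (natDegree_le_natDegree (hr1 (F.coeff ν)).le)
    · refine (natDegree_prod_le _ _).trans ?_
      have h5 : ∑ a, (ξ a ^ ν a).natDegree ≤ ∑ a, ν a * N :=
        Finset.sum_le_sum fun a _ => natDegree_pow_le.trans (Nat.mul_le_mul_left _ (hξN a))
      rw [← Finset.sum_mul, hdeg ν hν] at h5
      exact h5
  have hE : ∀ i ∈ Finset.range (L + 1), KT1_inn c2 (X ^ i %ₘ G') := by
    intro i hi
    have h1 : (X ^ i %ₘ G' : Polynomial (Polynomial R)) = io (X ^ i %ₘ g.G) := by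
      change _ = map _ (X ^ i %ₘ g.G)
      rw [map_modByMonic _ g.monic, Polynomial.map_pow, map_X]
      rfl
    rw [h1]
    refine KT1_inn_mono ?_ (KT1_inn_map _ (hbd _))
    exact Finset.single_le_sum (f := fun i => bd (X ^ i %ₘ g.G)) (fun _ _ => Nat.zero_le _) hi
  have hΨ : KT1_inn (n * δ + (c1 + c2)) Ψ := by
    rw [← add_assoc]
    exact KT1_mod G' Φ hΦ hΦN hE
  have hΨN : Ψ.natDegree < N := by
    rw [← hG'n]
    refine natDegree_modByMonic_lt _ hG' ?_
    intro h
    have : G'.natDegree = 0 := by rw [h, natDegree_one]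
    omega
  refine ⟨fun y => (Ψ.coeff y.2.val).coeff y.1.val, fun x => ?_⟩
  let sp : Polynomial (Polynomial R) →+* Polynomial (Polynomial k) :=
    mapRingHom (mapRingHom (MvPolynomial.eval x))
  have hsp : ∀ A : Polynomial (Polynomial k), sp (io A) = A := by
    intro A
    ext l j
    change (((A.map (mapRingHom (MvPolynomial.C : k →+* R))).map
      (mapRingHom (MvPolynomial.eval x))).coeff l).coeff j = _
    rw [coeff_map, coeff_map]
    change (((A.coeff l).map (MvPolynomial.C : k →+* R)).map (MvPolynomial.eval x)).coeff j = _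
    rw [coeff_map, coeff_map, MvPolynomial.eval_C]
  have h1 : ev2 g.t g.θ (sp Ψ) = ev2 g.t g.θ (sp Φ) := by
    have h2 := congrArg (fun A => ev2 g.t g.θ (sp A)) (modByMonic_add_div Φ G')
    change ev2 g.t g.θ (sp (Ψ + G' * (Φ /ₘ G'))) = ev2 g.t g.θ (sp Φ) at h2
    rw [map_add, map_add, map_mul, map_mul, show sp G' = g.G from hsp _, g.root, zero_mul,
      add_zero] at h2
    exact h2
  have h3 : ev2 g.t g.θ (sp Ψ) = ∑ y : Fin (n * δ + (c1 + c2) + 1) × Fin N,
      algebraMap k K (MvPolynomial.eval x ((Ψ.coeff y.2.val).coeff y.1.val)) *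
        (g.t ^ (y.1 : ℕ) * g.θ ^ (y.2 : ℕ)) := by
    change ev2 g.t g.θ (Ψ.map (mapRingHom (MvPolynomial.eval x))) = _
    rw [KT1_ev g.t g.θ (KT1_inn_map (MvPolynomial.eval x) hΨ)
      (lt_of_le_of_lt natDegree_map_le hΨN)]
    refine Finset.sum_congr rfl fun y _ => ?_
    rw [coeff_map]
    change algebraMap k K (((Ψ.coeff y.2.val).map (MvPolynomial.eval x)).coeff y.1.val) * _ = _
    rw [coeff_map]
  have h4 : ∀ a, ev2 g.t g.θ (sp (ξ a)) = ∑ y : Fin (δ + 1) × Fin N,
      algebraMap k K (x (a, y)) * (g.t ^ (y.1 : ℕ) * g.θ ^ (y.2 : ℕ)) := by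
    intro a
    change ev2 g.t g.θ (sp (∑ y : Fin (δ + 1) × Fin N,
      monomial y.2.val (monomial y.1.val (MvPolynomial.X (a, y) : R)))) = _
    rw [map_sum, map_sum]
    refine Finset.sum_congr rfl fun y _ => ?_
    change ev2 g.t g.θ ((monomial y.2.val (monomial y.1.val (MvPolynomial.X (a, y) : R))).map
      (mapRingHom (MvPolynomial.eval x))) = _
    rw [map_monomial]
    change ev2 g.t g.θ (monomial y.2.val ((monomial y.1.val (MvPolynomial.X (a, y) : R)).map
      (MvPolynomial.eval x))) = _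
    rw [map_monomial, MvPolynomial.eval_X]
    change eval₂ _ g.θ (monomial y.2.val (monomial y.1.val (x (a, y)))) = _
    rw [eval₂_monomial]
    change aeval g.t (monomial y.1.val (x (a, y))) * _ = _
    rw [aeval_monomial]
    ring
  refine Eq.trans ?_ h3
  rw [h1]
  change _ = ev2 g.t g.θ (sp (∑ ν ∈ F.support, io (r (F.coeff ν)) * ∏ a, ξ a ^ ν a))
  rw [map_sum, map_sum, MvPolynomial.eval_map, MvPolynomial.eval₂_eq']
  refine Finset.sum_congr rfl fun ν _ => ?_
  rw [map_mul, map_mul, hsp, hr2, map_prod, map_prod]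
  congr 1
  refine Finset.prod_congr rfl fun a _ => ?_
  rw [map_pow, map_pow, h4]

end Q9
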