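import Pool.Agent.LibQ9.P3
import Pool.Agent.LibQ9.P2
import Pool.Agent.LibQ9.P8
import Pool.Agent.LibQ9.K1
import Pool.Agent.LibQ9.KT1

/-!
[Q9 KT2] (MEDIUM; may cite K1 `exists_gn`, P2, P3, P8, KT1 as stated) Tsen's theorem for forms of degree `n` in `n + 1` variables over a function field of one variable.

PLAN. `tsen_O`: `c` from `form_rep`, `δ = c`, `Y`. `N = natDegree G ≥ 1` (a monic polynomial of degree `0` is `1`, not zero at `(t, θ)`). `Y y` vanishes at `0`: `form_rep` at `x = 0`: the left side is `F(0) = 0` (`n ≥ 1`), and `li_mono`. Number of equations `(n c + c + 1) N`, number of unknowns `(n + 1) (c + 1) N ≥ (n c + c + 1) N + 1` (`n N ≥ 1`). P3 `exists_gen` with `r = 1` at `z₀ = 0`: `Ω`, `z`, `1 ≤ td k z`, `Y(z) = 0`. `z ≠ 0`: if all `z i = 0` then `td k z ≤ td k (empty family) ≤ 0` (P2 `td_mono`, `td_le_card`). P8 `spec`: `φ`; `x i = φ (z i)`, some `x i ≠ 0`, `eval x (Y y) = φ (aeval z (Y y)) = 0`.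
`P a = Σ_y x(a,y) t^y.1 θ^y.2`: `F(P) = 0`, and `P a ≠ 0` for some `a` by `li_mono`.
`tsen`: K1 with the algebra structure `k → RatFunc k → K` (`letI := ((algebraMap (RatFunc k) K).comp (algebraMap k (RatFunc k))).toAlgebra`, `IsScalarTower.of_algebraMap_eq`): `g`. Each of the finitely many coefficients of `F` times some nonzero `aeval t b` is in `O` (`g.gen`, K3a `mem_O`); let `f` be the product of these denominators; `C f * F` is the image of a form `F'` over `g.O` (homogeneous), and `F(P) = 0` follows from `f F(P) = 0`.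
-/

set_option autoImplicit false

namespace Q9

open Polynomial

private theorem KT2_pos {k K : Type} [Field k] [Field K] [Algebra k K] (g : Gn k K) :
    0 < g.G.natDegree := by
  rw [Nat.pos_iff_ne_zero]
  intro h
  have h1 : g.G = 1 := g.monic.natDegree_eq_zero.1 h
  have h2 := g.root
  rw [h1, map_one] at h2
  exact one_ne_zero h2

theorem tsen_O {k K : Type} [Field k] [IsAlgClosed k] [Field K] [Algebra k K] (g : Gn k K) {n : ℕ}
    (hn : 1 ≤ n) (F : MvPolynomial (Fin (n + 1)) g.O) (hF : F.IsHomogeneous n) :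
    ∃ P : Fin (n + 1) → K, P ≠ 0 ∧
      MvPolynomial.eval P (MvPolynomial.map (g.O.subtype : g.O →+* K) F) = 0 := by
  classical
  obtain ⟨c, hc⟩ := form_rep g F hF
  obtain ⟨Y, hY⟩ := hc c
  have hN := KT2_pos g
  have h0 : ∀ y, MvPolynomial.eval (0 : Fin (n + 1) × (Fin (c + 1) × Fin g.G.natDegree) → k) (Y y) = 0 := by
    have h1 := hY 0
    have h2 : (fun a : Fin (n + 1) => ∑ y : Fin (c + 1) × Fin g.G.natDegree,
        algebraMap k K ((0 : Fin (n + 1) × (Fin (c + 1) × Fin g.G.natDegree) → k) (a, y)) *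
          (g.t ^ (y.1 : ℕ) * g.θ ^ (y.2 : ℕ))) = 0 := by
      funext a
      simp
    rw [h2] at h1
    have h3 : MvPolynomial.eval (0 : Fin (n + 1) → K)
        (MvPolynomial.map (g.O.subtype : g.O →+* K) F) = 0 := by
      have h4 : (MvPolynomial.map (g.O.subtype : g.O →+* K) F).IsHomogeneous n := hF.map _
      rw [MvPolynomial.eval_zero]
      exact h4.coeff_eq_zero (by rw [map_zero]; omega)
    rw [h3] at h1
    exact li_mono g _ h1.symm
  obtain ⟨Ω, iF, iA, z, hac, hz, hspz, htd, halg⟩ := exists_gen Y 0 h0 1 (by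
    simp only [Fintype.card_prod, Fintype.card_fin]
    nlinarith [Nat.mul_le_mul hn hN])
  have hzne : ∃ i, z i ≠ 0 := by
    by_contra hcon
    push Not at hcon
    have h1 : td k z ≤ td k (fun _ : Fin 0 => (0 : Ω)) := by
      apply td_mono
      intro j
      rw [hcon j]
      exact zero_mem _
    have h2 := td_le_card (k := k) (fun _ : Fin 0 => (0 : Ω))
    rw [Fintype.card_fin] at h2
    omega
  obtain ⟨i, hi⟩ := hzne
  obtain ⟨φ, hφ⟩ := spec (k := k) z
  let z' : Fin (n + 1) × (Fin (c + 1) × Fin g.G.natDegree) → Algebra.adjoin k (Set.range z) :=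
    fun i => ⟨z i, Algebra.subset_adjoin (Set.mem_range_self i)⟩
  let x : Fin (n + 1) × (Fin (c + 1) × Fin g.G.natDegree) → k := fun i => φ (z' i)
  have hx : ∀ y, MvPolynomial.eval x (Y y) = 0 := by
    intro y
    have h1 : MvPolynomial.aeval z' (Y y) = 0 := by
      apply Subtype.ext
      have h2 : (Algebra.adjoin k (Set.range z)).val (MvPolynomial.aeval z' (Y y)) =
          MvPolynomial.aeval z (Y y) := by
        rw [MvPolynomial.comp_aeval_apply]
        rfl
      exact h2.trans (hz y)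
    have h3 : φ (MvPolynomial.aeval z' (Y y)) = MvPolynomial.aeval x (Y y) := by
      rw [MvPolynomial.comp_aeval_apply]
    rw [h1, map_zero] at h3
    rw [← MvPolynomial.coe_aeval_eq_eval]
    exact h3.symm
  refine ⟨fun a => ∑ y, algebraMap k K (x (a, y)) * (g.t ^ (y.1 : ℕ) * g.θ ^ (y.2 : ℕ)), ?_, ?_⟩
  · intro hP
    have h1 := congrFun hP i.1
    have h2 := li_mono g (fun y => x (i.1, y)) h1 i.2
    exact hφ i hi h2
  · rw [hY x]
    apply Finset.sum_eq_zero
    intro y _
    rw [hx y, map_zero, zero_mul]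

theorem tsen {k : Type} [Field k] [IsAlgClosed k] {K : Type} [Field K] [Algebra (RatFunc k) K]
    [FiniteDimensional (RatFunc k) K] [Algebra.IsSeparable (RatFunc k) K] {n : ℕ} (hn : 1 ≤ n)
    (F : MvPolynomial (Fin (n + 1)) K) (hF : F.IsHomogeneous n) :
    ∃ P : Fin (n + 1) → K, P ≠ 0 ∧ MvPolynomial.eval P F = 0 := by
  classical
  letI : Algebra k K := ((algebraMap (RatFunc k) K).comp (algebraMap k (RatFunc k))).toAlgebra
  haveI : IsScalarTower k (RatFunc k) K := IsScalarTower.of_algebraMap_eq (fun _ => rfl)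
  obtain ⟨g⟩ := exists_gn (k := k) (K := K)
  have hgen : ∀ ν : Fin (n + 1) →₀ ℕ, ∃ b : k[X], b ≠ 0 ∧
      MvPolynomial.coeff ν F * aeval g.t b ∈ g.O := by
    intro ν
    obtain ⟨a, b, hb, h⟩ := g.gen (MvPolynomial.coeff ν F)
    exact ⟨b, hb, by rw [h]; exact mem_O g a⟩
  choose b hb hbO using hgen
  let D : k[X] := ∏ ν ∈ F.support, b ν
  have hD : D ≠ 0 := Finset.prod_ne_zero_iff.2 fun ν _ => hb ν
  have ht : ∀ p : k[X], aeval g.t p = 0 → p = 0 := transcendental_iff.1 g.tr
  have htO : ∀ p : k[X], aeval g.t p ∈ g.O := by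
    intro p
    have h := mem_O g (C p)
    have h2 : ev2 g.t g.θ (C p) = aeval g.t p := by simp [ev2]
    rwa [h2] at h
  have hDO : ∀ ν ∈ F.support, MvPolynomial.coeff ν F * aeval g.t D ∈ g.O := by
    intro ν hν
    have h1 : D = b ν * ∏ μ ∈ F.support.erase ν, b μ := (Finset.mul_prod_erase _ _ hν).symm
    rw [h1, map_mul, ← mul_assoc]
    exact mul_mem (hbO ν) (htO _)
  let F' : MvPolynomial (Fin (n + 1)) g.O :=
    ∑ ν ∈ F.support.attach, MvPolynomial.monomial ν.1
      ⟨MvPolynomial.coeff ν.1 F * aeval g.t D, hDO ν.1 ν.2⟩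
  have hF' : F'.IsHomogeneous n := by
    apply MvPolynomial.IsHomogeneous.sum
    intro ν _
    apply MvPolynomial.isHomogeneous_monomial
    have h := hF (MvPolynomial.mem_support_iff.1 ν.2)
    rw [Finsupp.degree_eq_weight_one]
    exact h
  have hmap : MvPolynomial.map (g.O.subtype : g.O →+* K) F' = MvPolynomial.C (aeval g.t D) * F := by
    change MvPolynomial.map (g.O.subtype : g.O →+* K) (∑ ν ∈ F.support.attach, _) = _
    rw [map_sum]
    simp only [MvPolynomial.map_monomial]
    conv_rhs => rw [F.as_sum, Finset.mul_sum]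
    rw [← Finset.sum_attach F.support]
    refine Finset.sum_congr rfl fun ν _ => ?_
    rw [MvPolynomial.C_mul_monomial]
    congr 1
    change MvPolynomial.coeff ν.1 F * aeval g.t D = _
    rw [mul_comm]
  obtain ⟨P, hP, hP0⟩ := tsen_O g hn F' hF'
  refine ⟨P, hP, ?_⟩
  rw [hmap, map_mul, MvPolynomial.eval_C] at hP0
  rcases mul_eq_zero.1 hP0 with h | h
  · exact absurd (ht D h) hD
  · exact h

end Q9
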