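import Pool.Agent.LibQ9.MDefs

/-!
[Q9 M1] (SHORT/MEDIUM; only MDefs) The ring `Ri g`: `s = t⁻¹`, inverses, exhaustion, covering.

K3b.lean contains the proofs of `Ri_s`, of `(t - c)⁻¹ ∈ Vi` and of `Ri_exh` (its private lemmas may be copied, with `VV` replaced by `Vi` and `e = dgG g`, `Finset.le_sup` gives `natDegree (G.coeff l) ≤ dgG g`).
PLAN. `Ri_inv`: `t ≠ c` because `aeval t (X - C c) ≠ 0` (`aeval_ne`), `t (t - c)⁻¹ ∈ Vi g` with `a = X`, `b = X - C c`. `Ri_cover`: `C = dgG g * N`, `N = natDegree G ≥ 1`. `g.gen f`: `f * aeval t b = ev2 t θ a`; replace `a` by `a %ₘ G` (as in K3a `exists_rep_O`: or cite it: `ev2 t θ a ∈ g.O` by `mem_O`, so `a.degree < G.degree` may be assumed). Coefficientwise division by `b`: `a.coeff l = b * (a.coeff l / b) + a.coeff l % b` (`EuclideanDomain.div_add_mod`, `Polynomial.degree_mod_lt`): `f - Σ_{l<N} aeval t (a_l / b) θ^l = Σ_{l<N} (aeval t (a_l % b) / aeval t b) θ^l`,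
the quotient is in `Vi g` (`natDegree (a_l % b) ≤ natDegree b`), `θ^l s^(e N) = (wi g)^l s^(e (N - l)) ∈ Ri g`. The sum `Σ aeval t (a_l / b) θ^l` is in `g.O` (`t`, `θ` are in `Algebra.adjoin k {t, θ}`).
-/

set_option autoImplicit false

namespace Q9

open Polynomial

section

variable {k K : Type} [Field k] [Field K] [Algebra k K]

private theorem M1_pow (g : Gn k K) (c : k[X]) (m : ℕ) (h : c.natDegree ≤ m) :
    aeval g.t c * g.t⁻¹ ^ m ∈ Vi g := by
  refine ⟨c, X ^ m, pow_ne_zero _ X_ne_zero, by rwa [natDegree_X_pow], ?_⟩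
  rw [map_pow, aeval_X, mul_assoc, ← mul_pow, inv_mul_cancel₀ (gt_ne g), one_pow, mul_one]

private theorem M1_inv (g : Gn k K) (b : k[X]) (hb : b ≠ 0) : (aeval g.t b)⁻¹ ∈ Vi g :=
  ⟨1, b, hb, by simp, by rw [inv_mul_cancel₀ (aeval_ne g hb), map_one]⟩

private theorem M1_V (g : Gn k K) {x : K} (hx : x ∈ Vi g) : x ∈ Ri g :=
  Algebra.subset_adjoin (Or.inl hx)

private theorem M1_w (g : Gn k K) : wi g ∈ Ri g := Algebra.subset_adjoin (Or.inr rfl)

private theorem M1_sum (t θ : K) (a : Polynomial (Polynomial k)) (n : ℕ) (hn : a.natDegree < n) :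
    ev2 t θ a = ∑ l ∈ Finset.range n, aeval t (a.coeff l) * θ ^ l := by
  show Polynomial.eval₂ _ θ a = _
  rw [Polynomial.eval₂_eq_sum_range' _ hn]; rfl

private theorem M1_pos (g : Gn k K) : 0 < g.G.natDegree := by
  rcases Nat.eq_zero_or_pos g.G.natDegree with h | h
  · exfalso
    have h1 : g.G = 1 := (g.monic.natDegree_eq_zero).1 h
    have h2 := g.root
    rw [h1, map_one] at h2
    exact one_ne_zero h2
  · exact h

private theorem M1_lt (g : Gn k K) {k' : Type} [Semiring k'] (a : k'[X]) (h : a.degree < g.G.degree) :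
    a.natDegree < g.G.natDegree := by
  rcases eq_or_ne a 0 with h0 | h0
  · rw [h0, natDegree_zero]; exact M1_pos g
  · rw [degree_eq_natDegree h0, degree_eq_natDegree g.monic.ne_zero] at h
    exact_mod_cast h

private theorem M1_aevO (g : Gn k K) (c : k[X]) : aeval g.t c ∈ g.O := by
  have hs : ({g.t} : Set K) ⊆ {g.t, g.θ} := by
    rintro x hx
    exact Or.inl (Set.mem_singleton_iff.1 hx)
  exact Algebra.adjoin_mono hs (aeval_mem_adjoin_singleton k g.t)

end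

theorem Ri_s {k K : Type} [Field k] [Field K] [Algebra k K] (g : Gn k K) : g.t⁻¹ ∈ Ri g := by
  apply M1_V
  have := M1_pow g 1 1 (by simp)
  rwa [map_one, one_mul, pow_one] at this

theorem Ri_inv {k K : Type} [Field k] [Field K] [Algebra k K] (g : Gn k K) (c : k) :
    g.t ≠ algebraMap k K c ∧ g.t * (g.t - algebraMap k K c)⁻¹ ∈ Ri g := by
  have h1 : aeval g.t (X - C c) = g.t - algebraMap k K c := by rw [map_sub, aeval_X, aeval_C]
  have h2 := aeval_ne g (X_sub_C_ne_zero c)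
  rw [h1] at h2
  refine ⟨fun h => h2 (sub_eq_zero.2 h), M1_V g ⟨X, X - C c, X_sub_C_ne_zero c, ?_, ?_⟩⟩
  · rw [natDegree_X_sub_C, natDegree_X]
  · rw [h1, mul_assoc, inv_mul_cancel₀ h2, mul_one, aeval_X]

theorem Ri_exh {k K : Type} [Field k] [Field K] [Algebra k K] (g : Gn k K) (f : K) :
    ∃ C : ℕ, f * g.t⁻¹ ^ C ∈ Ri g := by
  have hsR := Ri_s g
  have hts : g.t * g.t⁻¹ = 1 := mul_inv_cancel₀ (gt_ne g)
  have hO : ∀ x ∈ g.O, ∃ C : ℕ, x * g.t⁻¹ ^ C ∈ Ri g := by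
    intro x hx
    unfold Gn.O at hx
    induction hx using Algebra.adjoin_induction with
    | mem x hx =>
      rcases hx with hx | hx
      · exact ⟨1, by rw [hx, pow_one, hts]; exact (Ri g).one_mem⟩
      · rw [Set.mem_singleton_iff] at hx
        exact ⟨dgG g, by rw [hx]; exact M1_w g⟩
    | algebraMap r => exact ⟨0, by rw [pow_zero, mul_one]; exact (Ri g).algebraMap_mem r⟩
    | add x y _ _ hx hy =>
      obtain ⟨C, hC⟩ := hx
      obtain ⟨C', hC'⟩ := hy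
      refine ⟨C + C', ?_⟩
      have : (x + y) * g.t⁻¹ ^ (C + C') = (x * g.t⁻¹ ^ C) * g.t⁻¹ ^ C' + (y * g.t⁻¹ ^ C') * g.t⁻¹ ^ C := by
        rw [pow_add]; ring
      rw [this]
      exact (Ri g).add_mem ((Ri g).mul_mem hC ((Ri g).pow_mem hsR _))
        ((Ri g).mul_mem hC' ((Ri g).pow_mem hsR _))
    | mul x y _ _ hx hy =>
      obtain ⟨C, hC⟩ := hx
      obtain ⟨C', hC'⟩ := hy
      refine ⟨C + C', ?_⟩
      have : (x * y) * g.t⁻¹ ^ (C + C') = (x * g.t⁻¹ ^ C) * (y * g.t⁻¹ ^ C') := by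
        rw [pow_add]; ring
      rw [this]
      exact (Ri g).mul_mem hC hC'
  obtain ⟨a, b, hb, hab⟩ := g.gen f
  obtain ⟨C, hC⟩ := hO _ (mem_O g a)
  refine ⟨C, ?_⟩
  have hbn := aeval_ne g hb
  have h1 : f * g.t⁻¹ ^ C = (aeval g.t b)⁻¹ * (ev2 g.t g.θ a * g.t⁻¹ ^ C) := by
    rw [← hab]
    field_simp
  rw [h1]
  exact (Ri g).mul_mem (M1_V g (M1_inv g b hb)) hC

theorem Ri_cover {k K : Type} [Field k] [Field K] [Algebra k K] (g : Gn k K) :
    ∃ C : ℕ, ∀ f : K, ∃ a ∈ g.O, (f - a) * g.t⁻¹ ^ C ∈ Ri g := by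
  have hsR := Ri_s g
  refine ⟨dgG g * g.G.natDegree, fun f => ?_⟩
  obtain ⟨a', b, hb, hab⟩ := g.gen f
  obtain ⟨a, ha, ha'⟩ := exists_rep_O g _ (mem_O g a')
  have hbn := aeval_ne g hb
  refine ⟨∑ l ∈ Finset.range g.G.natDegree, aeval g.t (a.coeff l / b) * g.θ ^ l, ?_, ?_⟩
  · refine Subalgebra.sum_mem _ fun l _ => ?_
    exact mul_mem (M1_aevO g _) (pow_mem (Algebra.subset_adjoin (Or.inr rfl) : g.θ ∈ g.O) l)
  · have h1 : f = (aeval g.t b)⁻¹ * ∑ l ∈ Finset.range g.G.natDegree, aeval g.t (a.coeff l) * g.θ ^ l := by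
      rw [← M1_sum g.t g.θ a _ (M1_lt g a ha), ha', ← hab, mul_comm f, ← mul_assoc,
        inv_mul_cancel₀ hbn, one_mul]
    rw [h1, Finset.mul_sum, ← Finset.sum_sub_distrib, Finset.sum_mul]
    refine Subalgebra.sum_mem _ fun l hl => ?_
    have hl' : l < g.G.natDegree := Finset.mem_range.1 hl
    have h2 : b * (a.coeff l / b) + a.coeff l % b = a.coeff l := EuclideanDomain.div_add_mod _ _
    have h3 : aeval g.t (a.coeff l) = aeval g.t b * aeval g.t (a.coeff l / b) + aeval g.t (a.coeff l % b) := by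
      rw [← map_mul, ← map_add, h2]
    have h4 : (aeval g.t b)⁻¹ * aeval g.t (a.coeff l % b) ∈ Vi g := by
      refine ⟨a.coeff l % b, b, hb, natDegree_le_natDegree (degree_mod_lt _ hb).le, ?_⟩
      rw [mul_comm, ← mul_assoc, mul_inv_cancel₀ hbn, one_mul]
    have h6 : g.t⁻¹ ^ (dgG g * g.G.natDegree) =
        (g.t⁻¹ ^ dgG g) ^ l * g.t⁻¹ ^ (dgG g * (g.G.natDegree - l)) := by
      rw [← pow_mul, ← pow_add, ← Nat.mul_add, Nat.add_sub_cancel' hl'.le]
    have h5 : ((aeval g.t b)⁻¹ * (aeval g.t (a.coeff l) * g.θ ^ l) -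
        aeval g.t (a.coeff l / b) * g.θ ^ l) * g.t⁻¹ ^ (dgG g * g.G.natDegree) =
        ((aeval g.t b)⁻¹ * aeval g.t (a.coeff l % b)) * (wi g ^ l *
          g.t⁻¹ ^ (dgG g * (g.G.natDegree - l))) := by
      rw [h6, h3]
      unfold wi
      rw [mul_pow]
      have h7 : (aeval g.t b)⁻¹ * ((aeval g.t b * aeval g.t (a.coeff l / b) + aeval g.t (a.coeff l % b)) *
          g.θ ^ l) - aeval g.t (a.coeff l / b) * g.θ ^ l =
          (aeval g.t b)⁻¹ * aeval g.t (a.coeff l % b) * g.θ ^ l := by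
        field_simp
        ring
      rw [h7]
      ring
    rw [h5]
    exact (Ri g).mul_mem (M1_V g h4) ((Ri g).mul_mem ((Ri g).pow_mem (M1_w g) _)
      ((Ri g).pow_mem hsR _))

end Q9
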