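import Pool.Agent.LibQ9.MDefs

/-!
[Q9 M2a] (SHORT; only MDefs) The elements of `Ri g` in terms of the powers of `wi g`; finite dimension.

K3b.lean contains both proofs (private lemmas `mul_mem_MM`, `adjoin_mem_MM`, `th_mem`, and the last part of `exists_filt`): copy them with `VV` replaced by `Vi`, `e = dgG g`, `w = wi g` (`natDegree (G.coeff l) ≤ dgG g` by `Finset.le_sup`). `Ri_span`: `adjoin_mem_MM` and `Submodule.mem_span_range_iff_exists_fun`.
-/

set_option autoImplicit false

namespace Q9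

open Polynomial

private theorem M2a_aev_ne {k K : Type} [Field k] [Field K] [Algebra k K] (g : Gn k K) {b : k[X]}
    (hb : b ≠ 0) : aeval g.t b ≠ 0 := by
  intro h
  exact hb ((transcendental_iff.1 g.tr) b h)

private theorem M2a_t_ne {k K : Type} [Field k] [Field K] [Algebra k K] (g : Gn k K) : g.t ≠ 0 := by
  have := M2a_aev_ne g (b := X) X_ne_zero
  rwa [aeval_X] at this

private theorem M2a_pow_mem {k K : Type} [Field k] [Field K] [Algebra k K] (g : Gn k K)
    (c : k[X]) (m : ℕ) (h : c.natDegree ≤ m) : aeval g.t c * g.t⁻¹ ^ m ∈ Vi g := by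
  refine ⟨c, X ^ m, pow_ne_zero _ X_ne_zero, by rwa [natDegree_X_pow], ?_⟩
  rw [map_pow, aeval_X, mul_assoc, ← mul_pow, inv_mul_cancel₀ (M2a_t_ne g), one_pow, mul_one]

private theorem M2a_inv_mem {k K : Type} [Field k] [Field K] [Algebra k K] (g : Gn k K)
    (b : k[X]) (hb : b ≠ 0) : (aeval g.t b)⁻¹ ∈ Vi g :=
  ⟨1, b, hb, by simp, by rw [inv_mul_cancel₀ (M2a_aev_ne g hb), map_one]⟩

/-- the span of the powers of `w` below `N` over `V` -/
private def M2a_MM {k K : Type} [Field k] [Field K] [Algebra k K] (V : Subalgebra k K) (w : K)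
    (N : ℕ) : Submodule V K := Submodule.span V (Set.range (fun l : Fin N => w ^ l.val))

private theorem M2a_mul_mem_MM {k K : Type} [Field k] [Field K] [Algebra k K] (V : Subalgebra k K)
    (w : K) (N : ℕ) (hN : w ^ N ∈ M2a_MM V w N) (m : K) (hm : m ∈ M2a_MM V w N) : w * m ∈ M2a_MM V w N := by
  unfold M2a_MM at hm
  induction hm using Submodule.span_induction with
  | mem x hx =>
    obtain ⟨l, rfl⟩ := hx
    dsimp only
    rw [← pow_succ']
    rcases Nat.lt_or_ge (l.val + 1) N with h | h
    · exact Submodule.subset_span ⟨⟨l.val + 1, h⟩, rfl⟩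
    · have : l.val + 1 = N := by have := l.isLt; omega
      rw [this]; exact hN
  | zero => rw [mul_zero]; exact Submodule.zero_mem _
  | add x y _ _ hx hy => rw [mul_add]; exact Submodule.add_mem _ hx hy
  | smul a x _ hx =>
    rw [mul_smul_comm]; exact Submodule.smul_mem _ _ hx

private theorem M2a_adjoin_mem_MM {k K : Type} [Field k] [Field K] [Algebra k K]
    (V : Subalgebra k K) (w : K) (N : ℕ) (hN0 : 0 < N) (hN : w ^ N ∈ M2a_MM V w N) (x : K)
    (hx : x ∈ Algebra.adjoin k ((V : Set K) ∪ {w})) : x ∈ M2a_MM V w N := by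
  have key : ∀ x ∈ Algebra.adjoin k ((V : Set K) ∪ {w}), ∀ m ∈ M2a_MM V w N, x * m ∈ M2a_MM V w N := by
    intro x hx
    induction hx using Algebra.adjoin_induction with
    | mem x hx =>
      intro m hm
      rcases hx with hx | hx
      · have := Submodule.smul_mem (M2a_MM V w N) (⟨x, hx⟩ : V) hm
        rwa [Subalgebra.smul_def, smul_eq_mul] at this
      · rw [Set.mem_singleton_iff] at hx
        rw [hx]
        exact M2a_mul_mem_MM V w N hN m hm
    | algebraMap r =>
      intro m hm
      have := Submodule.smul_mem (M2a_MM V w N) (algebraMap k V r) hm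
      rwa [Subalgebra.smul_def, smul_eq_mul] at this
    | add x y _ _ hx hy =>
      intro m hm; rw [add_mul]; exact Submodule.add_mem _ (hx m hm) (hy m hm)
    | mul x y _ _ hx hy =>
      intro m hm; rw [mul_assoc]; exact hx _ (hy m hm)
  have h1 : (1 : K) ∈ M2a_MM V w N := Submodule.subset_span ⟨⟨0, hN0⟩, by simp⟩
  simpa using key x hx 1 h1

private theorem M2a_ev2_sum {k K : Type} [Field k] [Field K] [Algebra k K] (t θ : K)
    (a : Polynomial (Polynomial k)) (n : ℕ) (hn : a.natDegree < n) :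
    ev2 t θ a = ∑ l ∈ Finset.range n, aeval t (a.coeff l) * θ ^ l := by
  show Polynomial.eval₂ _ θ a = _
  rw [Polynomial.eval₂_eq_sum_range' _ hn]; rfl

private theorem M2a_N_pos {k K : Type} [Field k] [Field K] [Algebra k K] (g : Gn k K) :
    0 < g.G.natDegree := by
  rcases Nat.eq_zero_or_pos g.G.natDegree with h | h
  · exfalso
    have h1 : g.G = 1 := (g.monic.natDegree_eq_zero).1 h
    have h2 := g.root
    rw [h1, map_one] at h2
    exact one_ne_zero h2
  · exact h

private theorem M2a_natDegree_lt' {k K : Type} [Field k] [Field K] [Algebra k K] (g : Gn k K)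
    {k' : Type} [Semiring k'] (a : k'[X]) (h : a.degree < g.G.degree) :
    a.natDegree < g.G.natDegree := by
  rcases eq_or_ne a 0 with h0 | h0
  · rw [h0, natDegree_zero]; exact M2a_N_pos g
  · rw [degree_eq_natDegree h0, degree_eq_natDegree g.monic.ne_zero] at h
    exact_mod_cast h

/-- a bound of the degrees of the coefficients -/
private theorem M2a_exists_e {k K : Type} [Field k] [Field K] [Algebra k K] (g : Gn k K) :
    ∃ e : ℕ, ∀ l, (g.G.coeff l).natDegree ≤ e := by
  refine ⟨g.G.support.sup (fun l => (g.G.coeff l).natDegree), fun l => ?_⟩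
  by_cases h : l ∈ g.G.support
  · exact Finset.le_sup (f := fun l => (g.G.coeff l).natDegree) h
  · rw [Polynomial.notMem_support_iff.1 h]; simp

private theorem M2a_th_mem {k K : Type} [Field k] [Field K] [Algebra k K] (g : Gn k K) (e : ℕ)
    (he : ∀ l, (g.G.coeff l).natDegree ≤ e) :
    (g.θ * g.t⁻¹ ^ e) ^ g.G.natDegree ∈ M2a_MM (Vi g) (g.θ * g.t⁻¹ ^ e) g.G.natDegree := by
  set N := g.G.natDegree with hN
  set s := g.t⁻¹ with hs
  have h1 := g.root
  rw [M2a_ev2_sum g.t g.θ g.G (N + 1) (Nat.lt_succ_self _), Finset.sum_range_succ] at h1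
  have h2 : g.G.coeff N = 1 := g.monic.coeff_natDegree
  rw [h2, map_one, one_mul] at h1
  have h3 : g.θ ^ N = - ∑ l ∈ Finset.range N, aeval g.t (g.G.coeff l) * g.θ ^ l :=
    eq_neg_of_add_eq_zero_right h1
  rw [mul_pow, h3, neg_mul, Finset.sum_mul]
  refine Submodule.neg_mem _ (Submodule.sum_mem _ fun l hl => ?_)
  have hl' : l < N := Finset.mem_range.1 hl
  have h4 : aeval g.t (g.G.coeff l) * s ^ (e * (N - l)) ∈ Vi g := by
    apply M2a_pow_mem
    calc (g.G.coeff l).natDegree ≤ e := he l
      _ = e * 1 := (mul_one e).symm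
      _ ≤ e * (N - l) := Nat.mul_le_mul_left e (by omega)
  have h5 := Submodule.smul_mem (M2a_MM (Vi g) (g.θ * s ^ e) N)
    (⟨_, h4⟩ : Vi g) (Submodule.subset_span ⟨⟨l, hl'⟩, rfl⟩)
  rw [Subalgebra.smul_def, smul_eq_mul] at h5
  convert h5 using 1
  simp only
  have h6 : (s ^ e) ^ N = s ^ (e * (N - l)) * (s ^ e) ^ l := by
    rw [← pow_mul, ← pow_mul, ← pow_add, ← Nat.mul_add, Nat.sub_add_cancel hl'.le]
  rw [h6, mul_pow]
  ring

private theorem M2a_he {k K : Type} [Field k] [Field K] [Algebra k K] (g : Gn k K) (l : ℕ) :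
    (g.G.coeff l).natDegree ≤ dgG g := by
  by_cases h : l ∈ g.G.support
  · exact Finset.le_sup (f := fun l => (g.G.coeff l).natDegree) h
  · rw [Polynomial.notMem_support_iff.1 h]; simp

theorem Ri_span {k K : Type} [Field k] [Field K] [Algebra k K] (g : Gn k K) (f : K)
    (hf : f ∈ Ri g) : ∃ v : Fin g.G.natDegree → K, (∀ l, v l ∈ Vi g) ∧
      f = ∑ l : Fin g.G.natDegree, v l * wi g ^ l.val := by
  have hM := M2a_adjoin_mem_MM (Vi g) (wi g) g.G.natDegree (M2a_N_pos g)
    (M2a_th_mem g (dgG g) (M2a_he g)) _ hf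
  unfold M2a_MM at hM
  rw [Submodule.mem_span_range_iff_exists_fun] at hM
  obtain ⟨v, hv⟩ := hM
  refine ⟨fun l => (v l : K), fun l => (v l).2, ?_⟩
  rw [← hv]
  refine Finset.sum_congr rfl fun l _ => ?_
  rw [Subalgebra.smul_def, smul_eq_mul]

theorem Ri_fin {k K : Type} [Field k] [Field K] [Algebra k K] (g : Gn k K) (C : ℕ) :
    ∃ U : Submodule k K, FiniteDimensional k U ∧ ∀ f ∈ g.O, f * g.t⁻¹ ^ C ∈ Ri g → f ∈ U := by
  set N := g.G.natDegree with hN
  set s := g.t⁻¹ with hs
  set e := dgG g with he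
  set w := wi g with hw0
  have hw : w = g.θ * s ^ e := rfl
  refine ⟨Submodule.span k (Set.range (fun q : Fin (C + 1) × Fin N =>
      g.t ^ q.1.val * g.θ ^ q.2.val)), ?_, ?_⟩
  · exact FiniteDimensional.span_of_finite k (Set.finite_range _)
  · intro f hf hfR
    obtain ⟨a, ha, rfl⟩ := exists_rep_O g f hf
    have ha' : a.natDegree < N := M2a_natDegree_lt' g a ha
    obtain ⟨v, hv1, hv⟩ := Ri_span g _ hfR
    have hv' : ∀ l : Fin N, ∃ p q : k[X], q ≠ 0 ∧ p.natDegree ≤ q.natDegree ∧
      (v l : K) * aeval g.t q = aeval g.t p := fun l => hv1 l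
    choose p q hq hpq hvl using hv'
    have hsum : ev2 g.t g.θ a = ∑ l : Fin N, aeval g.t (a.coeff l.val) * g.θ ^ l.val := by
      rw [M2a_ev2_sum g.t g.θ a N ha', Finset.sum_range]
    have hX : ∀ m : ℕ, (X : k[X]) ^ m ≠ 0 := fun m => pow_ne_zero m X_ne_zero
    have hkey := li_frac g
      (fun l => a.coeff l.val * (q l * X ^ (e * l.val)) - p l * X ^ C)
      (fun l => X ^ C * (q l * X ^ (e * l.val)))
      (fun l => mul_ne_zero (hX _) (mul_ne_zero (hq l) (hX _)))
      (by
        have h1 : ∀ l : Fin N,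
            aeval g.t (a.coeff l.val * (q l * X ^ (e * l.val)) - p l * X ^ C) /
              aeval g.t (X ^ C * (q l * X ^ (e * l.val))) * g.θ ^ l.val
            = aeval g.t (a.coeff l.val) * g.θ ^ l.val * s ^ C - (v l) * w ^ l.val := by
          intro l
          have ht := M2a_t_ne g
          have hqn := M2a_aev_ne g (hq l)
          have h2 : (v l : K) = aeval g.t (p l) / aeval g.t (q l) := by
            rw [eq_div_iff hqn]; exact hvl l
          rw [h2, hw, hs, map_sub, map_mul, map_mul, map_mul, map_mul, map_mul, map_pow,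
            map_pow, aeval_X, mul_pow, inv_pow, inv_pow, inv_pow]
          rw [pow_mul]
          field_simp
        rw [Finset.sum_congr rfl fun l _ => h1 l, Finset.sum_sub_distrib, ← hv, ← Finset.sum_mul,
          ← hsum, sub_self])
    have hdeg : ∀ l : Fin N, (a.coeff l.val).natDegree ≤ C := by
      intro l
      have h1 := sub_eq_zero.1 (hkey l)
      rcases eq_or_ne (a.coeff l.val) 0 with h0 | h0
      · rw [h0]; simp
      · have hp : p l ≠ 0 := by
          intro hp
          rw [hp, zero_mul] at h1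
          exact (mul_ne_zero h0 (mul_ne_zero (hq l) (hX _))) h1
        have h2 := congrArg natDegree h1
        rw [natDegree_mul h0 (mul_ne_zero (hq l) (hX _)), natDegree_mul (hq l) (hX _),
          natDegree_mul hp (hX _), natDegree_X_pow, natDegree_X_pow] at h2
        have h3 := hpq l
        omega
    rw [hsum]
    refine Submodule.sum_mem _ fun l _ => ?_
    rw [aeval_eq_sum_range' (Nat.lt_succ_of_le (hdeg l)), Finset.sum_mul]
    refine Submodule.sum_mem _ fun j hj => ?_
    rw [smul_mul_assoc]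
    exact Submodule.smul_mem _ _ (Submodule.subset_span
      ⟨(⟨j, Finset.mem_range.1 hj⟩, l), rfl⟩)

end Q9
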