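import Pool.Agent.LibQ9.MDefs
import Pool.Agent.LibQ9.M2a

/-!
[Q9 M2b] (SHORT/MEDIUM; may cite M2a as stated) `{f : f s^A ∈ R} / s^B R` is finite-dimensional.

PLAN. `Vi_div`: `v = a(t)/b(t)`, `natDegree a ≤ natDegree b`, `b ≠ 0`. Induction on `M`: it suffices to write `v = c + s v'` with `c ∈ k`, `v' ∈ Vi g`: `c = a.coeff (natDegree b) / b.leadingCoeff`, `a' = a - C c * b` has `degree a' < degree b` (all coefficients `≥ natDegree b` vanish), `v - c = a'(t)/b(t) = s (t a'(t)/b(t))`, and `natDegree (X a') ≤ natDegree b` (if `natDegree b = 0` then `a' = 0`).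
`Ri_finR`: `U = span k {s^m (wi g)^l (s^A)⁻¹ : m < A + B, l < N}`; `f s^A = Σ_l v_l w^l` (`Ri_span`), `v_l = Σ_{m < A+B} c_(l,m) s^m + s^(A+B) v'_l`, so `f = Σ c_(l,m) s^m w^l s^(-A) + s^B Σ v'_l w^l` and `Σ v'_l w^l ∈ Ri g` (`Algebra.subset_adjoin`).
-/

set_option autoImplicit false

namespace Q9

open Polynomial

private theorem M2b_step {k K : Type} [Field k] [Field K] [Algebra k K] (g : Gn k K) (v : K)
    (hv : v ∈ Vi g) : ∃ (c : k) (v' : K), v' ∈ Vi g ∧
      v = algebraMap k K c + v' * g.t⁻¹ := by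
  obtain ⟨a, b, hb, hd, hx⟩ := hv
  have ht := gt_ne g
  have hlc : b.leadingCoeff ≠ 0 := leadingCoeff_ne_zero.2 hb
  let c : k := a.coeff b.natDegree / b.leadingCoeff
  let a' : k[X] := a - C c * b
  have hdeg : a'.degree < (b.natDegree : ℕ) := by
    rw [degree_lt_iff_coeff_zero]
    intro m hm
    simp only [a', coeff_sub, coeff_C_mul]
    rcases Nat.lt_or_ge b.natDegree m with h | h
    · rw [coeff_eq_zero_of_natDegree_lt (lt_of_le_of_lt hd h), coeff_eq_zero_of_natDegree_lt h]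
      simp
    · have h1 : m = b.natDegree := le_antisymm h hm
      rw [h1]
      show a.coeff b.natDegree - a.coeff b.natDegree / b.leadingCoeff * b.leadingCoeff = 0
      rw [div_mul_cancel₀ _ hlc, sub_self]
  refine ⟨c, (v - algebraMap k K c) * g.t, ?_, ?_⟩
  · refine ⟨X * a', b, hb, ?_, ?_⟩
    · by_cases h0 : a' = 0
      · rw [h0]; simp
      · have h1 : a'.natDegree < b.natDegree := by
          rwa [degree_eq_natDegree h0, Nat.cast_lt] at hdeg
        refine natDegree_mul_le.trans ?_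
        rw [natDegree_X]
        omega
    · simp only [a', map_mul, map_sub, aeval_X, aeval_C]
      rw [← hx]
      ring
  · rw [mul_assoc, mul_inv_cancel₀ ht, mul_one]
    ring

theorem Vi_div {k K : Type} [Field k] [Field K] [Algebra k K] (g : Gn k K) (M : ℕ) (v : K)
    (hv : v ∈ Vi g) : ∃ (c : Fin M → k) (v' : K), v' ∈ Vi g ∧
      v = ∑ m : Fin M, algebraMap k K (c m) * g.t⁻¹ ^ m.val + v' * g.t⁻¹ ^ M := by
  induction M with
  | zero => exact ⟨Fin.elim0, v, hv, by simp⟩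
  | succ M ih =>
    obtain ⟨c, v', hv', hc⟩ := ih
    obtain ⟨d, v'', hv'', hd⟩ := M2b_step g v' hv'
    refine ⟨Fin.snoc c d, v'', hv'', ?_⟩
    rw [Fin.sum_univ_castSucc]
    simp only [Fin.snoc_castSucc, Fin.snoc_last, Fin.val_castSucc, Fin.val_last]
    rw [hc]
    conv_lhs => rw [hd]
    ring

theorem Ri_finR {k K : Type} [Field k] [Field K] [Algebra k K] (g : Gn k K) (A B : ℕ) :
    ∃ U : Submodule k K, FiniteDimensional k U ∧ ∀ f : K, f * g.t⁻¹ ^ A ∈ Ri g →
      ∃ u ∈ U, ∃ r ∈ Ri g, f - u = r * g.t⁻¹ ^ B := by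
  have ht := gt_ne g
  have hs : g.t⁻¹ ^ A ≠ 0 := pow_ne_zero _ (inv_ne_zero ht)
  let e : Fin (A + B) × Fin g.G.natDegree → K :=
    fun p => g.t⁻¹ ^ p.1.val * wi g ^ p.2.val * (g.t⁻¹ ^ A)⁻¹
  refine ⟨Submodule.span k (Set.range e), FiniteDimensional.span_of_finite k (Set.finite_range e),
    ?_⟩
  intro f hf
  obtain ⟨v, hv, hfv⟩ := Ri_span g _ hf
  choose c v' hv' hc using fun l => Vi_div g (A + B) (v l) (hv l)
  refine ⟨∑ l, ∑ m, c l m • e (m, l), ?_, ∑ l, v' l * wi g ^ l.val, ?_, ?_⟩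
  · refine Submodule.sum_mem _ fun l _ => Submodule.sum_mem _ fun m _ => ?_
    exact Submodule.smul_mem _ _ (Submodule.subset_span ⟨(m, l), rfl⟩)
  · refine sum_mem fun l _ => mul_mem ?_ (pow_mem ?_ _)
    · exact Algebra.subset_adjoin (Or.inl (hv' l))
    · exact Algebra.subset_adjoin (Or.inr rfl)
  · have h1 : f = (∑ l, v l * wi g ^ l.val) * (g.t⁻¹ ^ A)⁻¹ := by
      rw [← hfv, mul_assoc, mul_inv_cancel₀ hs, mul_one]
    have h2 : ∀ l, v l * wi g ^ l.val * (g.t⁻¹ ^ A)⁻¹ =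
        ∑ m, c l m • e (m, l) + v' l * wi g ^ l.val * g.t⁻¹ ^ B := by
      intro l
      conv_lhs => rw [hc l]
      rw [add_mul, add_mul, Finset.sum_mul, Finset.sum_mul]
      congr 1
      · refine Finset.sum_congr rfl fun m _ => ?_
        rw [Algebra.smul_def]
        simp only [e]
        ring
      · rw [pow_add]
        field_simp
    rw [h1, Finset.sum_mul, Finset.sum_mul, sub_eq_iff_eq_add, ← Finset.sum_add_distrib]
    refine Finset.sum_congr rfl fun l _ => ?_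
    rw [h2 l]
    ring

end Q9
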