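import Pool.Agent.LibQ9.MDefs

/-!
[Q9 M3a] (MEDIUM; only MDefs) `K` is finite and separable over `k(t)`.
-/

set_option autoImplicit false

namespace Q9

open Polynomial

theorem Gn_alg {k K : Type} [Field k] [Field K] [Algebra k K] (g : Gn k K) :
    ∃ _ : Algebra (RatFunc k) K, IsScalarTower k (RatFunc k) K ∧ FiniteDimensional (RatFunc k) K ∧
      Algebra.IsSeparable (RatFunc k) K ∧ algebraMap (RatFunc k) K RatFunc.X = g.t := by
  let e := RatFunc.algEquivOfTranscendental g.t g.tr
  let f : RatFunc k →ₐ[k] K := (IntermediateField.val _).comp e.toAlgHom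
  let _ : Algebra (RatFunc k) K := f.toRingHom.toAlgebra
  have h1 : IsScalarTower k (RatFunc k) K :=
    IsScalarTower.of_algebraMap_eq fun x => (f.commutes x).symm
  have hX : algebraMap (RatFunc k) K RatFunc.X = g.t := by
    change ((e RatFunc.X : IntermediateField.adjoin k ({g.t} : Set K)) : K) = g.t
    rw [RatFunc.algEquivOfTranscendental_X]
  have hp : ∀ b : k[X], algebraMap (RatFunc k) K (algebraMap k[X] (RatFunc k) b) = aeval g.t b := by
    intro b
    change ((e (algebraMap k[X] (RatFunc k) b) :
      IntermediateField.adjoin k ({g.t} : Set K)) : K) = aeval g.t b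
    rw [RatFunc.algEquivOfTranscendental_algebraMap, ← IntermediateField.algebraMap_apply,
      ← aeval_algebraMap_apply, IntermediateField.AdjoinSimple.algebraMap_gen]
  have hpc : (algebraMap (RatFunc k) K).comp (algebraMap k[X] (RatFunc k)) =
      ((Polynomial.aeval g.t : k[X] →ₐ[k] K) : k[X] →+* K) := RingHom.ext hp
  have h2 : ∀ a : k[X][X], ev2 g.t g.θ a = aeval g.θ (a.map (algebraMap k[X] (RatFunc k))) := by
    intro a
    rw [aeval_def, eval₂_map, hpc]
    rfl
  have hG0 : aeval g.θ (g.G.map (algebraMap k[X] (RatFunc k))) = 0 := by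
    rw [← h2]; exact g.root
  have hG1 : aeval g.θ (derivative (g.G.map (algebraMap k[X] (RatFunc k)))) ≠ 0 := by
    rw [derivative_map, ← h2]; exact g.sep
  have hint : IsIntegral (RatFunc k) g.θ := ⟨_, g.monic.map _, hG0⟩
  have hsep : IsSeparable (RatFunc k) g.θ := by
    have hirr := minpoly.irreducible hint
    rw [IsSeparable, separable_iff_derivative_ne_zero hirr]
    intro h0
    obtain ⟨q, hq⟩ := minpoly.dvd (RatFunc k) g.θ hG0
    apply hG1
    rw [hq, derivative_mul, h0, zero_mul, zero_add, map_mul, minpoly.aeval, zero_mul]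
  have htop : IntermediateField.adjoin (RatFunc k) ({g.θ} : Set K) = ⊤ := by
    rw [eq_top_iff]
    rintro x -
    obtain ⟨a, b, hb, hx⟩ := g.gen x
    have hb' := aeval_ne g hb
    have hx' : x = ev2 g.t g.θ a / aeval g.t b := by
      rw [eq_div_iff hb']; exact hx
    rw [hx']
    refine div_mem ?_ ?_
    · rw [h2]
      exact IntermediateField.algebra_adjoin_le_adjoin _ _ (aeval_mem_adjoin_singleton _ _)
    · rw [← hp]
      exact IntermediateField.algebraMap_mem _ _
  have hfin : FiniteDimensional (RatFunc k) K := by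
    have := IntermediateField.adjoin.finiteDimensional hint
    rw [htop] at this
    exact (IntermediateField.topEquiv (F := RatFunc k) (E := K)).toLinearEquiv.finiteDimensional
  have hs : Algebra.IsSeparable (RatFunc k) K := by
    have := (IntermediateField.isSeparable_adjoin_simple_iff_isSeparable (RatFunc k) K).2 hsep
    rw [htop] at this
    exact AlgEquiv.Algebra.isSeparable (IntermediateField.topEquiv (F := RatFunc k) (E := K))
  exact ⟨inferInstance, h1, hfin, hs, hX⟩

end Q9
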