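import Pool.Agent.LibQ9.MDefs
import Pool.Agent.LibQ9.M3a

/-!
[Q9 M3b] (MEDIUM; may cite M3a as stated) The integral closure `OI g` is a Dedekind domain, and `D · OI g ⊆ k[t, θ]` for some `0 ≠ D ∈ k[t]`.

PLAN. `obtain ⟨_, _, _, _, hX⟩ := Gn_alg g`. `letI : Algebra k[X] K := ((algebraMap (RatFunc k) K).comp (algebraMap k[X] (RatFunc k))).toAlgebra`, `IsScalarTower k[X] (RatFunc k) K` (`of_algebraMap_eq fun _ => rfl`); `algebraMap k[X] K b = aeval g.t b`. `f ∈ OI g ↔ IsIntegral k[X] f` (`mem_OI`; the image of `k[X]` is `Algebra.adjoin k {g.t}`: `Algebra.adjoin_singleton_eq_range_aeval`; map the monic polynomials back and forth, `Polynomial.lifts`/surjectivity `k[X] → adjoin`, or `IsIntegral.tower_top`, `IsIntegral.map`).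
`IsIntegralClosure.isDedekindDomain k[X] (RatFunc k) K (integralClosure k[X] K)`, transported along the ring isomorphism with `OI g` (same subset of `K`); or give `OI g` the instances `Algebra k[X] (OI g)` (`C`ompose `k[X] → OI g`, `b ↦ ⟨aeval g.t b, aeval_mem_OI g b⟩`) and `IsIntegralClosure (OI g) k[X] K` and apply `IsIntegralClosure.isDedekindDomain k[X] (RatFunc k) K (OI g)` directly (this is the shortest way).
`OI_cond`: `IsIntegralClosure.finite` / `IsIntegralClosure.isNoetherian k[X] (RatFunc k) K _`: finitely many `f_i ∈ OI g` generate it over `k[X]`; `g.gen f_i`: `f_i * aeval t b_i ∈ g.O` (`mem_O`); `D = ∏ b_i` (every element is `Σ aeval t p_i * f_i`, `aeval t p ∈ g.O`).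
-/

set_option autoImplicit false

namespace Q9

open Polynomial

section

variable {k K : Type} [Field k] [Field K] [Algebra k K]

private theorem M3b_int (g : Gn k K) (f : K) :
    f ∈ OI g ↔ ((aeval g.t : k[X] →ₐ[k] K) : k[X] →+* K).IsIntegralElem f := by
  let φ : k[X] →+* Algebra.adjoin k {g.t} :=
    ((aeval (⟨g.t, Algebra.subset_adjoin (Set.mem_singleton _)⟩ : Algebra.adjoin k {g.t}) :
      k[X] →ₐ[k] Algebra.adjoin k {g.t}) : k[X] →+* Algebra.adjoin k {g.t})
  have h1 : (algebraMap (Algebra.adjoin k {g.t}) K).comp φ =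
      ((Polynomial.aeval g.t : k[X] →ₐ[k] K) : k[X] →+* K) := by
    apply RingHom.ext
    intro p
    exact aeval_subalgebra_coe p (Algebra.adjoin k {g.t}) _
  have hφ : Function.Surjective φ := by
    rintro ⟨x, hx⟩
    have hx' := hx
    rw [Algebra.adjoin_singleton_eq_range_aeval] at hx'
    obtain ⟨p, hp⟩ := hx'
    refine ⟨p, Subtype.ext ?_⟩
    have h2 : algebraMap (Algebra.adjoin k {g.t}) K (φ p) = aeval g.t p := by
      rw [← RingHom.comp_apply, h1]; rfl
    exact h2.trans hp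
  rw [mem_OI]
  constructor
  · rintro ⟨p, hp, hp0⟩
    have hl : p ∈ Polynomial.lifts φ := by
      rw [Polynomial.lifts_iff_coeff_lifts]
      intro n
      exact hφ _
    obtain ⟨q, hq, -, hqm⟩ := Polynomial.lifts_and_natDegree_eq_and_monic hl hp
    refine ⟨q, hqm, ?_⟩
    rw [← h1, ← eval₂_map, hq]
    exact hp0
  · rintro ⟨q, hq, hq0⟩
    refine ⟨q.map φ, hq.map φ, ?_⟩
    rw [eval₂_map, h1]
    exact hq0

private theorem M3b_core (g : Gn k K) :
    ∃ (_ : Algebra (RatFunc k) K) (_ : Algebra k[X] K) (_ : Algebra k[X] (OI g)),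
      (∀ b : k[X], algebraMap k[X] K b = aeval g.t b) ∧
      (∀ b : k[X], (algebraMap k[X] (OI g) b : K) = aeval g.t b) ∧
      IsScalarTower k[X] (RatFunc k) K ∧ FiniteDimensional (RatFunc k) K ∧
      Algebra.IsSeparable (RatFunc k) K ∧ IsIntegralClosure (OI g) k[X] K := by
  obtain ⟨_, hT, hF, hS, hX⟩ := Gn_alg g
  have hb : ∀ b : k[X], algebraMap (RatFunc k) K (algebraMap k[X] (RatFunc k) b) = aeval g.t b := by
    intro b
    have h : ((Algebra.ofId (RatFunc k) K).restrictScalars k).comp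
        (Algebra.algHom k k[X] (RatFunc k)) = (aeval g.t : k[X] →ₐ[k] K) := by
      apply Polynomial.algHom_ext
      rw [aeval_X, ← hX, ← RatFunc.algebraMap_X]
      rfl
    exact congrArg (fun F : k[X] →ₐ[k] K => F b) h
  let i1 : Algebra k[X] K :=
    ((algebraMap (RatFunc k) K).comp (algebraMap k[X] (RatFunc k))).toAlgebra
  let i2 : Algebra k[X] (OI g) :=
    (((aeval g.t : k[X] →ₐ[k] K).codRestrict (OI g) (aeval_mem_OI g) : k[X] →ₐ[k] OI g) :
      k[X] →+* OI g).toAlgebra
  have hb' : ∀ b : k[X], algebraMap k[X] K b = aeval g.t b := hb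
  refine ⟨_, i1, i2, hb', fun b => rfl, IsScalarTower.of_algebraMap_eq fun _ => rfl, hF, hS, ?_⟩
  refine ⟨fun x y h => Subtype.ext h, ?_⟩
  intro x
  have h3 : algebraMap k[X] K = ((aeval g.t : k[X] →ₐ[k] K) : k[X] →+* K) := RingHom.ext hb'
  rw [IsIntegral, h3, ← M3b_int g x]
  exact ⟨fun h => ⟨⟨x, h⟩, rfl⟩, by rintro ⟨y, rfl⟩; exact y.2⟩

private theorem M3b_aevO (g : Gn k K) (c : k[X]) : aeval g.t c ∈ g.O := by
  have hs : ({g.t} : Set K) ⊆ {g.t, g.θ} := by
    rintro x hx
    exact Or.inl (Set.mem_singleton_iff.1 hx)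
  exact Algebra.adjoin_mono hs (aeval_mem_adjoin_singleton k g.t)

end

theorem OI_dedekind {k K : Type} [Field k] [Field K] [Algebra k K] (g : Gn k K) :
    IsDedekindDomain (OI g) := by
  obtain ⟨i0, i1, i2, hb, hb2, hT, hF, hS, hC⟩ := M3b_core g
  have hT2 : IsScalarTower k[X] (OI g) K :=
    IsScalarTower.of_algebraMap_eq fun b => (hb b).trans (hb2 b).symm
  exact IsIntegralClosure.isDedekindDomain k[X] (RatFunc k) K (OI g)

theorem OI_cond {k K : Type} [Field k] [Field K] [Algebra k K] (g : Gn k K) :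
    ∃ D : k[X], D ≠ 0 ∧ ∀ f ∈ OI g, aeval g.t D * f ∈ g.O := by
  classical
  obtain ⟨i0, i1, i2, hb, hb2, hT, hF, hS, hC⟩ := M3b_core g
  have hT2 : IsScalarTower k[X] (OI g) K :=
    IsScalarTower.of_algebraMap_eq fun b => (hb b).trans (hb2 b).symm
  have hfin : Module.Finite k[X] (OI g) := IsIntegralClosure.finite k[X] (RatFunc k) K (OI g)
  obtain ⟨s, hs⟩ := hfin.fg_top
  choose a b hb0 hab using g.gen
  refine ⟨∏ f ∈ s, b (f : K), Finset.prod_ne_zero_iff.2 fun f _ => hb0 _, ?_⟩
  intro f hf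
  have hmem : (⟨f, hf⟩ : OI g) ∈ Submodule.span k[X] (s : Set (OI g)) := by
    rw [hs]; exact Submodule.mem_top
  have key : ∀ x : OI g, x ∈ Submodule.span k[X] (s : Set (OI g)) →
      aeval g.t (∏ f ∈ s, b (f : K)) * (x : K) ∈ g.O := by
    intro x hx
    induction hx using Submodule.span_induction with
    | mem x hx =>
      have hx' : x ∈ s := hx
      rw [← Finset.mul_prod_erase s (fun f : OI g => b (f : K)) hx', map_mul, mul_comm, ← mul_assoc,
        hab]
      exact mul_mem (mem_O g _) (M3b_aevO g _)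
    | zero => rw [ZeroMemClass.coe_zero, mul_zero]; exact zero_mem _
    | add x y _ _ hx hy =>
      rw [AddMemClass.coe_add, mul_add]; exact add_mem hx hy
    | smul c x _ hx =>
      rw [Algebra.smul_def, MulMemClass.coe_mul, hb2, mul_left_comm]
      exact mul_mem (M3b_aevO g _) hx
  exact key ⟨f, hf⟩ hmem

end Q9
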