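import Pool.Agent.LibQ9.MDefs
import Pool.Agent.LibQ9.M1
import Pool.Agent.LibQ9.M2a
import Pool.Agent.LibQ9.M3b

/-!
[Q9 M4] (SHORT; may cite M1, M2a, M3b as stated) Denominators, zeros, finite dimension for the integral closure.

PLAN. `OI_frac`: `g.gen f`: `f * aeval t b = ev2 t θ a`, `b ≠ 0`; the element `⟨aeval t b, aeval_mem_OI g b⟩` is `≠ 0` (`aeval_ne`), and `ev2 t θ a ∈ g.O ≤ OI g` (`mem_O`, `O_le_OI`). `OI_nz`: `OI_frac`-type argument for `f⁻¹`: `f⁻¹ * aeval t b = ev2 t θ a =: a' ∈ OI g`, so `aeval t b = a' * f` in `OI g`; `ev (aeval t b) = b.eval (ev (tI g))` (`Polynomial.aeval_algHom_apply`, `⟨aeval t b, _⟩ = aeval (tI g) b`); `Z = b.roots.toFinset`: `ev f = 0` implies `b.eval (ev (tI g)) = 0`.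
`OI_fin`: `D` from `OI_cond`, `δ = natDegree D`; for `f ∈ OI g`, `f s^C ∈ Ri g`: `aeval t D * f ∈ g.O` and `aeval t D * f * s^(C + δ) = (aeval t D * s^δ) (f s^C) ∈ Ri g` (`aeval t D * s^δ ∈ Vi g`: numerator `D`, denominator `X^δ`; `Algebra.subset_adjoin`). So `aeval t D * f ∈ U'` (M2a `Ri_fin` for `C + δ`), `U = U'.map (multiplication by (aeval t D)⁻¹)` (`LinearMap.mulLeft k`), finite-dimensional.
-/

set_option autoImplicit false

namespace Q9

open Polynomial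

theorem OI_frac {k K : Type} [Field k] [Field K] [Algebra k K] (g : Gn k K) (f : K) :
    ∃ b : OI g, b ≠ 0 ∧ f * b ∈ OI g := by
  obtain ⟨a, b, hb, hab⟩ := g.gen f
  refine ⟨⟨aeval g.t b, aeval_mem_OI g b⟩, ?_, ?_⟩
  · intro h
    exact aeval_ne g hb (congrArg Subtype.val h)
  · show f * aeval g.t b ∈ OI g
    rw [hab]
    exact O_le_OI g (mem_O g a)

private theorem M4_val {k K : Type} [Field k] [Field K] [Algebra k K] (g : Gn k K) (b : k[X]) :
    ((aeval (tI g) b : OI g) : K) = aeval g.t b :=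
  aeval_subalgebra_coe b (OI g) (tI g)

theorem OI_nz {k K : Type} [Field k] [Field K] [Algebra k K] (g : Gn k K) (f : OI g)
    (hf : f ≠ 0) : ∃ Z : Finset k, ∀ ev : OI g →ₐ[k] k, ev (tI g) ∉ Z → ev f ≠ 0 := by
  classical
  have hf' : (f : K) ≠ 0 := fun h => hf (Subtype.ext h)
  obtain ⟨a, b, hb, hab⟩ := g.gen (f : K)⁻¹
  let a' : OI g := ⟨ev2 g.t g.θ a, O_le_OI g (mem_O g a)⟩
  have hmul : aeval (tI g) b = a' * f := by
    apply Subtype.ext
    rw [M4_val]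
    show aeval g.t b = ev2 g.t g.θ a * (f : K)
    rw [← hab, mul_comm (f : K)⁻¹, mul_assoc, inv_mul_cancel₀ hf', mul_one]
  refine ⟨b.roots.toFinset, fun ev hev h0 => hev ?_⟩
  have h1 : ev (aeval (tI g) b) = 0 := by
    rw [hmul, map_mul, h0, mul_zero]
  rw [← aeval_algHom_apply, coe_aeval_eq_eval] at h1
  rw [Multiset.mem_toFinset, mem_roots hb]
  exact h1

theorem OI_fin {k K : Type} [Field k] [Field K] [Algebra k K] (g : Gn k K) (C : ℕ) :
    ∃ U : Submodule k K, FiniteDimensional k U ∧ ∀ f ∈ OI g, f * g.t⁻¹ ^ C ∈ Ri g → f ∈ U := by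
  obtain ⟨D, hD, hDO⟩ := OI_cond g
  obtain ⟨U', hU', h'⟩ := Ri_fin g (C + D.natDegree)
  have hDn := aeval_ne g hD
  refine ⟨U'.map (LinearMap.mulLeft k (aeval g.t D)⁻¹), inferInstance, fun f hf hfR => ?_⟩
  have hV : aeval g.t D * g.t⁻¹ ^ D.natDegree ∈ Vi g := by
    refine ⟨D, X ^ D.natDegree, pow_ne_zero _ X_ne_zero, by rw [natDegree_X_pow], ?_⟩
    rw [map_pow, aeval_X, mul_assoc, ← mul_pow, inv_mul_cancel₀ (gt_ne g), one_pow, mul_one]
  have hy : aeval g.t D * f ∈ U' := by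
    refine h' _ (hDO f hf) ?_
    have e : aeval g.t D * f * g.t⁻¹ ^ (C + D.natDegree)
        = (aeval g.t D * g.t⁻¹ ^ D.natDegree) * (f * g.t⁻¹ ^ C) := by
      rw [pow_add]; ring
    rw [e]
    exact (Ri g).mul_mem (Algebra.subset_adjoin (Or.inl hV)) hfR
  refine ⟨aeval g.t D * f, hy, ?_⟩
  rw [LinearMap.mulLeft_apply, inv_mul_cancel_left₀ hDn]

end Q9
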