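import Pool.Agent.LibQ9.MDefs

/-!
[Q9 M5] (SHORT/MEDIUM; only MDefs) The polynomial `G(c, X)` has distinct roots for all but finitely many `c`.

PLAN. `ev2_ker`: `a %ₘ G` has degree `< degree G` and `ev2 (a %ₘ G) = ev2 a = 0` (`modByMonic_add_div`, `g.root`), so `a %ₘ G = 0` by `g.li`: `modByMonic_eq_zero_iff_dvd`. `good_fibre`: `g.gen (ev2 t θ (derivative G))⁻¹`: `(G'(θ))⁻¹ * aeval t b = ev2 t θ a`, `b ≠ 0`; so `ev2 t θ (a * derivative G - C b) = 0`, `a * derivative G - C b = G * q`. `Z = b.roots.toFinset`. For `b(c) ≠ 0`: `G_c = G.map (evalRingHom c)` is monic of degree `N`, `a_c * derivative G_c - G_c q_c = C (b.eval c)`, so `G_c.Separable` (multiply by the inverse constant; `Polynomial.Separable` is `IsCoprime G_c (derivative G_c)`),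
and it splits (`IsAlgClosed.splits`): `G_c = ∏ over the roots (X - C r)`, `nodup_roots`, `card roots = N`: enumerate the roots by `Fin N` (e.g. `Multiset.toFinset`, `Finset.equivFinOfCardEq`).
-/

set_option autoImplicit false

namespace Q9

open Polynomial

theorem ev2_ker {k K : Type} [Field k] [Field K] [Algebra k K] (g : Gn k K)
    (a : Polynomial (Polynomial k)) (h : ev2 g.t g.θ a = 0) : g.G ∣ a := by
  rw [← modByMonic_eq_zero_iff_dvd g.monic]
  apply g.li _ (degree_modByMonic_lt a g.monic)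
  have h1 := congrArg (ev2 g.t g.θ) (modByMonic_add_div a g.G)
  rw [map_add, map_mul, g.root, zero_mul, add_zero] at h1
  rw [h1, h]

private theorem M5_enum {k : Type} [Field k] [IsAlgClosed k] (p : k[X]) (hp : p.Monic) (hs : p.Separable)
    (N : ℕ) (hN : p.natDegree = N) :
    ∃ r : Fin N → k, Function.Injective r ∧ p = ∏ i, (X - C (r i)) := by
  classical
  have hsp : p.Splits := IsAlgClosed.splits p
  have hnd := nodup_roots hs
  have hcard : p.roots.toFinset.card = N := by
    rw [Multiset.toFinset_card_of_nodup hnd, ← hsp.natDegree_eq_card_roots, hN]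
  let e : Fin N ≃ p.roots.toFinset := (Finset.equivFinOfCardEq hcard).symm
  refine ⟨fun i => (e i).1, fun i j hij => e.injective (Subtype.ext hij), ?_⟩
  have h1 : ∏ i, (X - C ((e i).1)) = ∏ x ∈ p.roots.toFinset, (X - C x) := by
    rw [← Finset.prod_coe_sort p.roots.toFinset (fun x => X - C x)]
    exact Equiv.prod_comp e (fun x : p.roots.toFinset => X - C x.1)
  rw [h1]
  conv_lhs => rw [hsp.eq_prod_roots_of_monic hp]
  rw [Finset.prod, Multiset.toFinset_val, hnd.dedup]

theorem good_fibre {k K : Type} [Field k] [IsAlgClosed k] [Field K] [Algebra k K] (g : Gn k K) :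
    ∃ Z : Finset k, ∀ c ∉ Z, ∃ r : Fin g.G.natDegree → k, Function.Injective r ∧
      g.G.map (evalRingHom c) = ∏ i, (X - C (r i)) := by
  classical
  obtain ⟨a, b, hb, hab⟩ := g.gen (ev2 g.t g.θ (derivative g.G))⁻¹
  have h1 : ev2 g.t g.θ (a * derivative g.G - C b) = 0 := by
    have h2 : ev2 g.t g.θ (C b) = aeval g.t b := by
      show eval₂ _ _ (C b) = _
      rw [eval₂_C]
      rfl
    rw [map_sub, map_mul, h2, ← hab, mul_comm (ev2 g.t g.θ (derivative g.G))⁻¹, mul_assoc,
      inv_mul_cancel₀ g.sep, mul_one, sub_self]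
  obtain ⟨q, hq⟩ := ev2_ker g _ h1
  refine ⟨b.roots.toFinset, fun c hc => ?_⟩
  have hbc : b.eval c ≠ 0 := by
    intro h
    apply hc
    rw [Multiset.mem_toFinset, mem_roots hb]
    exact h
  have h3 := congrArg (Polynomial.map (evalRingHom c)) hq
  rw [Polynomial.map_sub, Polynomial.map_mul, Polynomial.map_mul, Polynomial.map_C, coe_evalRingHom,
    ← derivative_map] at h3
  refine M5_enum _ (g.monic.map _) ?_ _ (g.monic.natDegree_map _)
  refine ⟨-(C (b.eval c)⁻¹ * q.map (evalRingHom c)), C (b.eval c)⁻¹ * a.map (evalRingHom c), ?_⟩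
  have h4 : C (b.eval c)⁻¹ * C (b.eval c) = (1 : k[X]) := by
    rw [← C_mul, inv_mul_cancel₀ hbc, C_1]
  linear_combination C (b.eval c)⁻¹ * h3 + h4

end Q9
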