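import Pool.Agent.LibQ9.MDefs
import Pool.Agent.LibQ9.M5

/-!
[Q9 M6] (MEDIUM; may cite M5 `ev2_ker` as stated) Evaluations of the integral closure at the points `(c, r₀)` of the curve with `D(c) ≠ 0`.

PLAN. `val a := (a.map (evalRingHom c)).eval r₀` (a ring homomorphism `Polynomial (Polynomial k) → k`). If `ev2 t θ a = 0` then `val a = 0` (`ev2_ker`, `h0`). For `f ∈ OI g` choose `a_f` with `ev2 t θ a_f = aeval t D * f` (K3a `exists_rep_O`), `ev f := val a_f / D.eval c`. Additive: `ev2 (a_(f+f') - a_f - a_f') = 0`. Multiplicative: `ev2 (C D * a_(f f') - a_f * a_f') = 0`, so `D(c) val a_(f f') = val a_f val a_f'`. `f = ev2 t θ a`: `ev2 (a_f - C D * a) = 0`, so `ev f = val a`; this gives `ev 1 = 1` and the constants `algebraMap k _ x = ev2 (C (C x))`.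
-/

set_option autoImplicit false

namespace Q9

open Polynomial

theorem exists_evI {k K : Type} [Field k] [Field K] [Algebra k K] (g : Gn k K) (D : k[X])
    (hD : ∀ f ∈ OI g, aeval g.t D * f ∈ g.O) (c r₀ : k) (hc : D.eval c ≠ 0)
    (h0 : (g.G.map (evalRingHom c)).eval r₀ = 0) :
    ∃ ev : OI g →ₐ[k] k, ∀ a : Polynomial (Polynomial k),
      ev ⟨ev2 g.t g.θ a, O_le_OI g (mem_O g a)⟩ = (a.map (evalRingHom c)).eval r₀ := by
  classical
  let val : Polynomial (Polynomial k) →+* k := (evalRingHom r₀).comp (mapRingHom (evalRingHom c))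
  have hG : val g.G = 0 := h0
  have hker : ∀ a, ev2 g.t g.θ a = 0 → val a = 0 := by
    intro a ha
    obtain ⟨b, rfl⟩ := ev2_ker g a ha
    rw [map_mul, hG, zero_mul]
  have key : ∀ a b, ev2 g.t g.θ a = ev2 g.t g.θ b → val a = val b := by
    intro a b hab
    rw [← sub_eq_zero, ← map_sub]
    apply hker
    rw [map_sub, hab, sub_self]
  have evC : ∀ p : k[X], ev2 g.t g.θ (C p) = aeval g.t p := by
    intro p
    simp [ev2]
  have valC : ∀ p : k[X], val (C p) = p.eval c := by
    intro p
    simp [val]
  choose af haf using fun f : OI g => exists_rep_O g _ (hD f.1 f.2)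
  have h1 : ∀ f : OI g, ev2 g.t g.θ (af f) = aeval g.t D * (f : K) := fun f => (haf f).2
  have hstar : ∀ (f : OI g) (a : Polynomial (Polynomial k)), ev2 g.t g.θ a = (f : K) →
      val (af f) = D.eval c * val a := by
    intro f a ha
    rw [← valC D, ← map_mul]
    apply key
    rw [h1, map_mul, evC, ha]
  have hstar' : ∀ (f : OI g) (a : Polynomial (Polynomial k)), ev2 g.t g.θ a = (f : K) →
      val (af f) / D.eval c = val a := by
    intro f a ha
    rw [hstar f a ha, mul_div_cancel_left₀ _ hc]
  refine ⟨{ toFun := fun f => val (af f) / D.eval c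
            map_one' := ?_, map_mul' := ?_, map_zero' := ?_, map_add' := ?_, commutes' := ?_ }, ?_⟩
  · rw [hstar' 1 1 (by rw [map_one]; rfl), map_one]
  · intro f f'
    have h2 : D.eval c * val (af (f * f')) = val (af f) * val (af f') := by
      rw [← valC D, ← map_mul, ← map_mul]
      apply key
      rw [map_mul, map_mul, evC, h1, h1, h1]
      show aeval g.t D * (aeval g.t D * ((f : K) * (f' : K))) = _
      ring
    rw [div_mul_div_comm, ← h2, mul_div_mul_left _ _ hc]
  · show val (af 0) / D.eval c = 0
    rw [hstar' 0 0 (by rw [map_zero]; rfl), map_zero]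
  · intro f f'
    have h2 : val (af (f + f')) = val (af f) + val (af f') := by
      rw [← map_add]
      apply key
      rw [map_add, h1, h1, h1]
      show aeval g.t D * ((f : K) + (f' : K)) = _
      ring
    show val (af (f + f')) / D.eval c = val (af f) / D.eval c + val (af f') / D.eval c
    rw [h2, add_div]
  · intro x
    show val (af (algebraMap k (OI g) x)) / D.eval c = algebraMap k k x
    rw [hstar' (algebraMap k (OI g) x) (C (C x)) (by rw [evC, aeval_C]; rfl), valC, eval_C]
    rfl
  · intro a
    exact hstar' _ a rfl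

end Q9
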