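import Pool.Agent.LibQ9.MDefs

/-!
[Q9 M7a] (SHORT; only MDefs) Divisibility by `t - c`.

PLAN. `div_mem`: `D - C (D.eval c) = (X - C c) * D₁` (`Polynomial.X_sub_C_dvd_sub_C_eval`), so `algebraMap k K (D.eval c) * y = aeval t D * y - aeval t D₁ * (y * (t - c)) ∈ OI g` (`aeval_mem_OI`); divide by the constant. `zero_div`: `a_c = a.map (evalRingHom c)` has degree `< N = natDegree G` (`natDegree_map_le`; `degree G = N`) and the `N` distinct roots `r i`, so `a_c = 0` (`Polynomial.eq_zero_of_natDegree_lt_card_of_eval_eq_zero`); each coefficient of `a` vanishes at `c`: `a.coeff l = (X - C c) * b_l`, `ev2 t θ a = (t - c) Σ_l aeval t (b_l) θ^l` (or: `C (X - C c) ∣ a` by `Polynomial.C_dvd_iff_dvd_coeff`, then `map_mul`), and `ev2 t θ b ∈ g.O` (`mem_O`); `t - c ≠ 0` by `aeval_ne`.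
-/

set_option autoImplicit false

namespace Q9

open Polynomial

theorem div_mem {k K : Type} [Field k] [Field K] [Algebra k K] (g : Gn k K) (D : k[X]) (c : k)
    (hc : D.eval c ≠ 0) (y : K) (h1 : y * (g.t - algebraMap k K c) ∈ OI g)
    (h2 : aeval g.t D * y ∈ OI g) : y ∈ OI g := by
  obtain ⟨D₁, hD⟩ := X_sub_C_dvd_sub_C_eval (a := c) (p := D)
  have h3 : aeval g.t D = (g.t - algebraMap k K c) * aeval g.t D₁ + algebraMap k K (D.eval c) := by
    have h := congrArg (aeval g.t) hD
    rw [map_sub, map_mul, map_sub, aeval_X, aeval_C, aeval_C] at h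
    rw [← h]
    ring
  have h4 : algebraMap k K (D.eval c) * y ∈ OI g := by
    have h : algebraMap k K (D.eval c) * y =
        aeval g.t D * y - aeval g.t D₁ * (y * (g.t - algebraMap k K c)) := by
      rw [h3]
      ring
    rw [h]
    exact sub_mem h2 (mul_mem (aeval_mem_OI g D₁) h1)
  have h5 : y = algebraMap k K (D.eval c)⁻¹ * (algebraMap k K (D.eval c) * y) := by
    rw [← mul_assoc, ← map_mul, inv_mul_cancel₀ hc, map_one, one_mul]
  rw [h5]
  exact mul_mem (algebraMap_mem _ _) h4

theorem zero_div {k K : Type} [Field k] [Field K] [Algebra k K] (g : Gn k K) (c : k)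
    (r : Fin g.G.natDegree → k) (hr : Function.Injective r) (a : Polynomial (Polynomial k))
    (ha : a.degree < g.G.degree) (h : ∀ i, (a.map (evalRingHom c)).eval (r i) = 0) :
    ev2 g.t g.θ a * (g.t - algebraMap k K c)⁻¹ ∈ g.O := by
  by_cases ha0 : a = 0
  · rw [ha0, map_zero, zero_mul]
    exact zero_mem _
  have h1 : a.map (evalRingHom c) = 0 := by
    refine eq_zero_of_natDegree_lt_card_of_eval_eq_zero _ hr h ?_
    rw [Fintype.card_fin]
    exact lt_of_le_of_lt natDegree_map_le (natDegree_lt_natDegree ha0 ha)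
  have h2 : C (X - C c) ∣ a := by
    rw [C_dvd_iff_dvd_coeff]
    intro i
    rw [dvd_iff_isRoot]
    have h3 := congrArg (fun q => coeff q i) h1
    simpa [coeff_map, IsRoot.def] using h3
  obtain ⟨b, hb⟩ := h2
  have h4 : ev2 g.t g.θ a = (g.t - algebraMap k K c) * ev2 g.t g.θ b := by
    rw [hb, map_mul]
    congr 1
    simp [ev2]
  have h5 : g.t - algebraMap k K c ≠ 0 := by
    have := aeval_ne g (b := X - C c) (X_sub_C_ne_zero c)
    simpa using this
  have h6 : ev2 g.t g.θ a * (g.t - algebraMap k K c)⁻¹ = ev2 g.t g.θ b := by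
    rw [h4]
    field_simp
  rw [h6]
  exact mem_O g b

end Q9
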