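import Pool.Agent.LibQ9.MDefs
import Pool.Agent.LibQ9.M5
import Pool.Agent.LibQ9.M6
import Pool.Agent.LibQ9.M7a

/-!
[Q9 M7b] (MEDIUM; may cite M5, M6, M7a as stated) The functions with a simple pole at the points over a good value `c` of `t`; every `f / (t - c)` is a combination of them modulo `OI g`.

PLAN. `N = natDegree G`. M6 `exists_evI` at `(c, r i)` (`hG`: `r i` is a root): `ev i` with `ev i (ev2 a) = a_c(r i)`, `a_c := a.map (evalRingHom c)`; `ev i (tI g) = c` (`a = C X`). `h i = ∏_{j ≠ i} (X - C (r j)) : k[X]`, `degree (h i) < N`, `H i = aeval θ (h i) = ev2 t θ ((h i).map C)`, `ev j (H i) = (h i).eval (r j)`: `0` for `j ≠ i`, `≠ 0` for `j = i`. `π i = H i * (t - c)⁻¹`.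
KEY: (E) if `u ∈ OI g` and `ev j u = 0` for all `j` then `u * (t - c)⁻¹ ∈ OI g`: `aeval t D * u = ev2 t θ a`, `degree a < degree G` (K3a `exists_rep_O`), `a_c(r j) = ev j (aeval t D * u) = 0`, so `aeval t D * (u * (t - c)⁻¹) ∈ g.O` by `zero_div` and `u * (t - c)⁻¹ ∈ OI g` by `div_mem`. `Pole`: for `f ∈ OI g` the element `(f - ev i f) * H i` vanishes at all `ev j`, so `(f - ev i f) π i ∈ OI g` by (E); second part: `h := t - c`, `v := H i`. The expansion: `μ i = ev i f / ev i (H i)`, `f - Σ μ i H i` vanishes at all `ev j`, (E).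
-/

set_option autoImplicit false

namespace Q9

open Polynomial

private theorem M7b_sub_ne {k K : Type} [Field k] [Field K] [Algebra k K] (g : Gn k K) (c : k) :
    g.t - algebraMap k K c ≠ 0 := by
  have h := aeval_ne g (b := X - C c) (X_sub_C_ne_zero c)
  rwa [map_sub, aeval_X, aeval_C] at h

/-- elements vanishing at all points over `c` are divisible by `t - c` -/
private theorem M7b_E {k K : Type} [Field k] [Field K] [Algebra k K] (g : Gn k K) (D : k[X])
    (hD : ∀ f ∈ OI g, aeval g.t D * f ∈ g.O) (c : k) (hc : D.eval c ≠ 0)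
    (r : Fin g.G.natDegree → k) (hr : Function.Injective r)
    (ev : Fin g.G.natDegree → (OI g →ₐ[k] k))
    (hev : ∀ i (a : Polynomial (Polynomial k)),
      ev i ⟨ev2 g.t g.θ a, O_le_OI g (mem_O g a)⟩ = (a.map (evalRingHom c)).eval (r i))
    (u : OI g) (hu : ∀ j, ev j u = 0) :
    (u : K) * (g.t - algebraMap k K c)⁻¹ ∈ OI g := by
  obtain ⟨a, ha, hau⟩ := exists_rep_O g _ (hD u u.2)
  have hval : ∀ i, (a.map (evalRingHom c)).eval (r i) = 0 := by
    intro i
    rw [← hev i a]
    have h1 : (⟨ev2 g.t g.θ a, O_le_OI g (mem_O g a)⟩ : OI g) =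
        (⟨aeval g.t D, aeval_mem_OI g D⟩ : OI g) * u := Subtype.ext hau
    rw [h1, map_mul, hu i, mul_zero]
  have h2 := zero_div g c r hr a ha hval
  rw [hau, mul_assoc] at h2
  refine div_mem g D c hc _ ?_ (O_le_OI g h2)
  rw [mul_assoc, inv_mul_cancel₀ (M7b_sub_ne g c), mul_one]
  exact u.2

theorem gen_at {k K : Type} [Field k] [Field K] [Algebra k K] (g : Gn k K) (D : k[X])
    (hD : ∀ f ∈ OI g, aeval g.t D * f ∈ g.O) (c : k) (hc : D.eval c ≠ 0)
    (r : Fin g.G.natDegree → k) (hr : Function.Injective r)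
    (hG : g.G.map (evalRingHom c) = ∏ i, (X - C (r i))) :
    ∃ (ev : Fin g.G.natDegree → (OI g →ₐ[k] k)) (π : Fin g.G.natDegree → K),
      (∀ i, ev i (tI g) = c ∧ Pole (OI g) (ev i) (π i)) ∧
      ∀ f : OI g, ∃ μ : Fin g.G.natDegree → k,
        (f : K) * (g.t - algebraMap k K c)⁻¹ - ∑ i, algebraMap k K (μ i) * π i ∈ OI g := by
  classical
  have hroot : ∀ i, (g.G.map (evalRingHom c)).eval (r i) = 0 := by
    intro i
    rw [hG, eval_prod]
    exact Finset.prod_eq_zero (Finset.mem_univ i) (by simp)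
  choose ev hev using fun i => exists_evI g D hD c (r i) hc (hroot i)
  let h : Fin g.G.natDegree → k[X] := fun i => ∏ j ∈ Finset.univ.erase i, (X - C (r j))
  let H : Fin g.G.natDegree → OI g := fun i =>
    ⟨ev2 g.t g.θ ((h i).map C), O_le_OI g (mem_O g _)⟩
  have hH : ∀ i j, ev j (H i) = (h i).eval (r j) := by
    intro i j
    change ev j ⟨ev2 g.t g.θ ((h i).map C), O_le_OI g (mem_O g _)⟩ = _
    rw [hev j, Polynomial.map_map]
    have h1 : (evalRingHom c).comp (C : k →+* k[X]) = RingHom.id k := by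
      ext x
      simp
    rw [h1, Polynomial.map_id]
  have hH0 : ∀ i j, j ≠ i → ev j (H i) = 0 := by
    intro i j hji
    rw [hH]
    change (∏ l ∈ Finset.univ.erase i, (X - C (r l))).eval (r j) = 0
    rw [eval_prod]
    exact Finset.prod_eq_zero (Finset.mem_erase.2 ⟨hji, Finset.mem_univ j⟩) (by simp)
  have hH1 : ∀ i, ev i (H i) ≠ 0 := by
    intro i
    rw [hH]
    change (∏ l ∈ Finset.univ.erase i, (X - C (r l))).eval (r i) ≠ 0
    rw [eval_prod]
    refine Finset.prod_ne_zero_iff.2 fun l hl => ?_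
    rw [eval_sub, eval_X, eval_C]
    exact sub_ne_zero.2 fun e => (Finset.mem_erase.1 hl).1 (hr e).symm
  have hev_t : ∀ i, ev i (tI g) = c := by
    intro i
    have h1 : tI g = ⟨ev2 g.t g.θ (C X), O_le_OI g (mem_O g _)⟩ := by
      refine Subtype.ext ?_
      change g.t = ev2 g.t g.θ (C X)
      simp [ev2]
    rw [h1, hev i]
    simp
  have hE := M7b_E g D hD c hc r hr ev hev
  have hne := M7b_sub_ne g c
  have hevc : ∀ j (x : k), ev j (algebraMap k (OI g) x) = x := fun j x => by
    rw [AlgHom.commutes]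
    rfl
  refine ⟨ev, fun i => (H i : K) * (g.t - algebraMap k K c)⁻¹, fun i => ⟨hev_t i, ?_, ?_⟩, ?_⟩
  · intro f
    have h2 := hE ((f - algebraMap k (OI g) (ev i f)) * H i) (fun j => by
      rw [map_mul, map_sub, hevc]
      by_cases hji : j = i
      · rw [hji, sub_self, zero_mul]
      · rw [hH0 i j hji, mul_zero])
    have h3 : (((f - algebraMap k (OI g) (ev i f)) * H i : OI g) : K) *
        (g.t - algebraMap k K c)⁻¹ =
        ((f : K) - algebraMap k K (ev i f)) * ((H i : K) * (g.t - algebraMap k K c)⁻¹) := by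
      rw [← mul_assoc]
      rfl
    rwa [h3] at h2
  · refine ⟨tI g - algebraMap k (OI g) c, H i, ?_, ?_, hH1 i⟩
    · rw [map_sub, hev_t, hevc, sub_self]
    · change (H i : K) = (g.t - algebraMap k K c) * ((H i : K) * (g.t - algebraMap k K c)⁻¹)
      field_simp
  · intro f
    refine ⟨fun i => ev i f / ev i (H i), ?_⟩
    have h2 := hE (f - ∑ i, algebraMap k (OI g) (ev i f / ev i (H i)) * H i) (fun j => by
      rw [map_sub, map_sum, Finset.sum_eq_single j]
      · rw [map_mul, hevc, div_mul_cancel₀ _ (hH1 j), sub_self]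
      · intro i _ hij
        rw [map_mul, hH0 i j (Ne.symm hij), mul_zero]
      · intro hj
        exact absurd (Finset.mem_univ j) hj)
    have h3 : ((f - ∑ i, algebraMap k (OI g) (ev i f / ev i (H i)) * H i : OI g) : K) *
        (g.t - algebraMap k K c)⁻¹ = (f : K) * (g.t - algebraMap k K c)⁻¹ -
        ∑ i, algebraMap k K (ev i f / ev i (H i)) *
          ((H i : K) * (g.t - algebraMap k K c)⁻¹) := by
      have h4 : ((f - ∑ i, algebraMap k (OI g) (ev i f / ev i (H i)) * H i : OI g) : K) =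
          (f : K) - ∑ i, algebraMap k K (ev i f / ev i (H i)) * (H i : K) := by
        push_cast
        rfl
      rw [h4, sub_mul, Finset.sum_mul]
      congr 1
      exact Finset.sum_congr rfl fun i _ => mul_assoc _ _ _
    rwa [h3] at h2

end Q9
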