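import Pool.Agent.LibQ9.MDefs

/-!
[Q9 M8] (MEDIUM; only XDefs) Functions with a simple pole exist at all places of a Dedekind domain; `Cg` is congruence modulo powers of the ideal of the place.

PLAN. `M = RingHom.ker ev` (maximal, as `ev` is surjective). `exists_pole`: `M ≠ M ^ 2` (`M ≠ ⊥`, `M ≠ ⊤`; Dedekind: `Ideal.pow_right_strictAnti` or `IsDedekindDomain`-cancellation), take `f ∈ M`, `f ∉ M ^ 2`. `M ∣ span {f}` (`Ideal.dvd_span_singleton`): `span {f} = M * J`; `¬ J ≤ M` because otherwise `f ∈ M * M`. Take `u ∈ J`, `ev u ≠ 0`; `π = u / f` (in `K`). For `m ∈ M`: `m u ∈ M * J = span {f}`, so `m π ∈ O`. `f - ev f ∈ M` for every `f : O`. Second part of `Pole`: `h := f`, `v := u`.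
`cg_iff`: let `h₀, v` be as in the second part of `Pole` (`ev h₀ = 0`, `v = h₀ π`, `ev v ≠ 0`, so `π ≠ 0`, `π⁻¹ = h₀ / v`). (→) `h (f - g) = w π⁻¹^N`: `v^N h (f - g) = w h₀^N ∈ M^N` in `O`, and `ev (v^N h) ≠ 0`: `v^N h` is invertible modulo `M^N` (`M` maximal; e.g. `Ideal.IsPrimary`-type lemma, or `IsCoprime (span {x}) (M^N)` from `IsCoprime (span {x}) M`, `IsCoprime.pow_right`), so `f - g ∈ M^N`. (←) for `y ∈ M^N`: `y π^N ∈ O`, by induction on `N` (`Submodule.smul_induction_on`/`Submodule.mul_induction_on` for `M * M^N`: products `m y'` with `m π ∈ O` and `y' π^N ∈ O`); `h = 1`, `w = (f - g) π^N`.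
-/

set_option autoImplicit false

namespace Q9

private theorem ker_max {k K : Type} [Field k] [Field K] [Algebra k K] (O : Subalgebra k K)
    (ev : O →ₐ[k] k) : (RingHom.ker ev).IsMaximal :=
  RingHom.ker_isMaximal_of_surjective ev (fun c => ⟨algebraMap k O c, by simp⟩)

theorem exists_pole {k K : Type} [Field k] [Field K] [Algebra k K] (O : Subalgebra k K)
    [IsDedekindDomain O] (ev : O →ₐ[k] k) (h : RingHom.ker ev ≠ ⊥) : ∃ π : K, Pole O ev π := by
  have hmax := ker_max O ev
  have hlt : RingHom.ker ev ^ 2 < RingHom.ker ev ^ 1 :=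
    Ideal.pow_right_strictAnti _ h hmax.ne_top (by norm_num)
  rw [pow_one] at hlt
  obtain ⟨f, hf, hf2⟩ := SetLike.exists_of_lt hlt
  have hf0 : f ≠ 0 := by
    rintro rfl
    exact hf2 (Ideal.zero_mem _)
  have hfK : (f : K) ≠ 0 := by
    intro h0
    exact hf0 (Subtype.ext h0)
  obtain ⟨J, hJ⟩ := Ideal.dvd_span_singleton.2 hf
  have hJM : ¬ J ≤ RingHom.ker ev := by
    intro hle
    apply hf2
    have h1 : f ∈ RingHom.ker ev * J := by
      rw [← hJ]
      exact Ideal.mem_span_singleton_self f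
    rw [pow_two]
    exact Ideal.mul_mono_right hle h1
  obtain ⟨u, hu, huM⟩ := SetLike.not_le_iff_exists.1 hJM
  refine ⟨(u : K) / f, ?_, f, u, ?_, ?_, ?_⟩
  · intro g
    have h1 : g - algebraMap k O (ev g) ∈ RingHom.ker ev := by
      rw [RingHom.mem_ker, map_sub]
      simp
    have h2 : (g - algebraMap k O (ev g)) * u ∈ Ideal.span {f} := by
      rw [hJ]
      exact Ideal.mul_mem_mul h1 hu
    obtain ⟨w, hw⟩ := Ideal.mem_span_singleton'.1 h2
    have h3 : ((g : K) - algebraMap k K (ev g)) * ((u : K) / f) = w := by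
      rw [← mul_div_assoc, div_eq_iff hfK]
      have h4 := congrArg (fun x : O => (x : K)) hw
      simp only [Subalgebra.coe_mul, Subalgebra.coe_sub, Subalgebra.coe_algebraMap] at h4
      exact h4.symm
    rw [h3]
    exact w.2
  · exact hf
  · rw [mul_div_cancel₀ _ hfK]
  · intro h0
    exact huM h0

private theorem pow_pole {k K : Type} [Field k] [Field K] [Algebra k K] (O : Subalgebra k K)
    (ev : O →ₐ[k] k) (π : K) (hπ : Pole O ev π) (N : ℕ) :
    ∀ y ∈ RingHom.ker ev ^ N, (y : K) * π ^ N ∈ O := by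
  induction N with
  | zero =>
    intro y _
    rw [pow_zero, mul_one]
    exact y.2
  | succ N ih =>
    intro y hy
    rw [pow_succ] at hy
    refine Submodule.mul_induction_on hy ?_ ?_
    · intro a ha b hb
      have h1 := ih a ha
      have h2 := hπ.1 b
      have hb0 : ev b = 0 := hb
      rw [hb0, map_zero, sub_zero] at h2
      have h3 : ((a * b : O) : K) * π ^ (N + 1) = ((a : K) * π ^ N) * ((b : K) * π) := by
        rw [Subalgebra.coe_mul]
        ring
      rw [h3]
      exact O.mul_mem h1 h2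
    · intro a b ha hb
      have h3 : ((a + b : O) : K) * π ^ (N + 1) = (a : K) * π ^ (N + 1) + (b : K) * π ^ (N + 1) := by
        rw [Subalgebra.coe_add]
        ring
      rw [h3]
      exact O.add_mem ha hb

theorem cg_iff {k K : Type} [Field k] [Field K] [Algebra k K] (O : Subalgebra k K)
    (ev : O →ₐ[k] k) (π : K) (hπ : Pole O ev π) (N : ℕ) (f g : O) :
    Cg O ev π N f g ↔ f - g ∈ RingHom.ker ev ^ N := by
  obtain ⟨h₀, v, hh₀, hv, hv0⟩ := hπ.2
  have hvK : (v : K) ≠ 0 := by
    intro h0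
    apply hv0
    have : v = 0 := Subtype.ext h0
    rw [this, map_zero]
  have hπ0 : π ≠ 0 := by
    rintro rfl
    rw [mul_zero] at hv
    exact hvK hv
  have hmax := ker_max O ev
  constructor
  · rintro ⟨h, w, hh, he⟩
    have h1 : v ^ N * h * (f - g) = w * h₀ ^ N := by
      apply Subtype.ext
      simp only [Subalgebra.coe_mul, Subalgebra.coe_sub, Subalgebra.coe_pow]
      calc (v : K) ^ N * h * (f - g) = (v : K) ^ N * ((h : K) * (f - g)) := by ring
        _ = (v : K) ^ N * (w * π⁻¹ ^ N) := by rw [he]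
        _ = w * ((v : K) * π⁻¹) ^ N := by rw [mul_pow]; ring
        _ = w * (h₀ : K) ^ N := by rw [hv, mul_assoc, mul_inv_cancel₀ hπ0, mul_one]
    have h2 : v ^ N * h * (f - g) ∈ RingHom.ker ev ^ N := by
      rw [h1]
      exact Ideal.mul_mem_left _ _ (Ideal.pow_mem_pow hh₀ N)
    have h3 : v ^ N * h ∉ RingHom.ker ev := by
      intro h4
      have h5 : ev (v ^ N * h) = 0 := h4
      rw [map_mul, map_pow] at h5
      exact mul_ne_zero (pow_ne_zero N hv0) hh h5
    obtain ⟨y, i, hi, hyi⟩ := hmax.exists_inv h3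
    obtain ⟨c, hc⟩ := sub_dvd_pow_sub_pow (1 : O) i N
    have h4 : f - g = y * c * (v ^ N * h * (f - g)) + i ^ N * (f - g) := by
      have h5 : y * (v ^ N * h) = 1 - i := by
        rw [← hyi]; ring
      calc f - g = (1 ^ N - i ^ N) * (f - g) + i ^ N * (f - g) := by ring
        _ = (1 - i) * c * (f - g) + i ^ N * (f - g) := by rw [hc]
        _ = y * (v ^ N * h) * c * (f - g) + i ^ N * (f - g) := by rw [h5]
        _ = _ := by ring
    rw [h4]
    exact Ideal.add_mem _ (Ideal.mul_mem_left _ _ h2)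
      (Ideal.mul_mem_right _ _ (Ideal.pow_mem_pow hi N))
  · intro hfg
    have h1 := pow_pole O ev π hπ N (f - g) hfg
    refine ⟨1, ⟨_, h1⟩, by rw [map_one]; exact one_ne_zero, ?_⟩
    show ((1 : O) : K) * ((f : K) - g) = ((f - g : O) : K) * π ^ N * π⁻¹ ^ N
    rw [Subalgebra.coe_one, one_mul, mul_assoc, ← mul_pow, mul_inv_cancel₀ hπ0, one_pow, mul_one,
      Subalgebra.coe_sub]

end Q9
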