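import Pool.Agent.LibQ9.MDefs

/-!
[Q9 M9] (SHORT/MEDIUM; only XDefs) Every nonzero function is a unit times a power of `π` at a place.

PLAN. `M = RingHom.ker ev`, `h₀, v` from the second part of `Pole` (`ev h₀ = 0`, `v = h₀ π`, `ev v ≠ 0`; so `π ≠ 0`). (A) `f ∈ O`, `f ≠ 0`: there are `m : ℕ` and `a : O` with `ev a ≠ 0`, `f = a π⁻¹^m`. Suppose not; then by induction on `m` there is `a_m ∈ O` with `f = a_m π⁻¹^m`: `a_0 = f`; `ev a_m = 0` by assumption, so `a_(m+1) = a_m π = (a_m - ev a_m) π ∈ O` (first part of `Pole`). Then `v^m f = h₀^m a_m ∈ M^m` and `v^m ∉ M`: `f ∈ M^m` for all `m` (`v^m` is invertible modulo `M^m`, `M` is maximal), so `f = 0` by Krull (`Ideal.iInf_pow_eq_bot_of_isDomain`), contradiction. (B) general `f`: `f * b ∈ O`, `b ≠ 0` (`hfrac`); (A) for `f b` and for `b`: `f b = a π^(-m)`, `b = a' π^(-m')`, so `f π^m a' = a π^m'`.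
-/

set_option autoImplicit false

namespace Q9

private theorem M9_A {k K : Type} [Field k] [Field K] [Algebra k K] (O : Subalgebra k K)
    [IsNoetherianRing O] (ev : O →ₐ[k] k) (π : K)
    (hπ : Pole O ev π) (hπ0 : π ≠ 0) (f : O) (hf : f ≠ 0) :
    ∃ (m : ℕ) (a : O), ev a ≠ 0 ∧ (f : K) = a * π⁻¹ ^ m := by
  by_contra hcon
  push Not at hcon
  obtain ⟨h1, h, v, hh, hv, hv0⟩ := hπ
  have hseq : ∀ m : ℕ, ∃ a : O, (f : K) = a * π⁻¹ ^ m := by
    intro m
    induction m with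
    | zero => exact ⟨f, by simp⟩
    | succ m ih =>
      obtain ⟨a, ha⟩ := ih
      have hev : ev a = 0 := by
        by_contra hne
        exact hcon m a hne ha
      have h2 := h1 a
      rw [hev, map_zero, sub_zero] at h2
      refine ⟨⟨(a : K) * π, h2⟩, ?_⟩
      show (f : K) = (a : K) * π * π⁻¹ ^ (m + 1)
      rw [pow_succ, ha]
      field_simp
  set M : Ideal O := RingHom.ker ev with hM
  have hMtop : M ≠ ⊤ := by
    intro hT
    have h3 : (1 : O) ∈ M := by rw [hT]; exact Submodule.mem_top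
    rw [hM, RingHom.mem_ker, map_one] at h3
    exact one_ne_zero h3
  have hmem : ∀ m : ℕ, f ∈ M ^ m := by
    intro m
    obtain ⟨a, ha⟩ := hseq m
    have h4 : v ^ m * f = h ^ m * a := by
      apply Subtype.ext
      show (v : K) ^ m * (f : K) = (h : K) ^ m * (a : K)
      rw [hv, ha, mul_pow]
      have h5 : π ^ m * π⁻¹ ^ m = 1 := by
        rw [← mul_pow, mul_inv_cancel₀ hπ0, one_pow]
      calc (h : K) ^ m * π ^ m * ((a : K) * π⁻¹ ^ m)
          = (h : K) ^ m * (a : K) * (π ^ m * π⁻¹ ^ m) := by ring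
        _ = (h : K) ^ m * (a : K) := by rw [h5, mul_one]
    have h6 : h ^ m * a ∈ M ^ m := by
      apply Ideal.mul_mem_right
      apply Ideal.pow_mem_pow
      rw [hM, RingHom.mem_ker]
      exact hh
    let u : O := algebraMap k O (ev v)⁻¹
    let y : O := 1 - u * v
    have hy : y ∈ M := by
      rw [hM, RingHom.mem_ker]
      show ev (1 - u * v) = 0
      rw [map_sub, map_one, map_mul]
      have h7 : ev u = (ev v)⁻¹ := by
        show ev (algebraMap k O (ev v)⁻¹) = (ev v)⁻¹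
        rw [AlgHom.commutes]
        rfl
      rw [h7, inv_mul_cancel₀ hv0, sub_self]
    have hco : IsCoprime v y := ⟨u, 1, by
      show u * v + 1 * (1 - u * v) = 1
      ring⟩
    obtain ⟨p, q, hpq⟩ := hco.pow (m := m) (n := m)
    have h8 : f = p * (v ^ m * f) + q * y ^ m * f := by
      calc f = (p * v ^ m + q * y ^ m) * f := by rw [hpq, one_mul]
        _ = p * (v ^ m * f) + q * y ^ m * f := by ring
    rw [h8, h4]
    apply Ideal.add_mem
    · exact Ideal.mul_mem_left _ _ h6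
    · apply Ideal.mul_mem_right
      apply Ideal.mul_mem_left
      exact Ideal.pow_mem_pow hy m
  have h9 : f ∈ ⨅ m : ℕ, M ^ m := by
    rw [Ideal.mem_iInf]
    exact hmem
  rw [Ideal.iInf_pow_eq_bot_of_isDomain M hMtop] at h9
  exact hf h9

theorem pole_val {k K : Type} [Field k] [Field K] [Algebra k K] (O : Subalgebra k K)
    [IsNoetherianRing O] (hfrac : ∀ f : K, ∃ b : O, b ≠ 0 ∧ f * b ∈ O) (ev : O →ₐ[k] k) (π : K)
    (hπ : Pole O ev π) (f : K) (hf : f ≠ 0) :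
    ∃ (a b : O) (i j : ℕ), ev a ≠ 0 ∧ ev b ≠ 0 ∧ f * π ^ i * b = a * π ^ j := by
  have hπ0 : π ≠ 0 := by
    rintro rfl
    obtain ⟨h1, h, v, hh, hv, hv0⟩ := hπ
    apply hv0
    have : v = 0 := Subtype.ext (by rw [hv, mul_zero]; rfl)
    rw [this, map_zero]
  obtain ⟨b, hb, hfb⟩ := hfrac f
  have hbK : (b : K) ≠ 0 := fun h => hb (Subtype.ext h)
  obtain ⟨m, a, ha, ha2⟩ := M9_A O ev π hπ hπ0 ⟨f * b, hfb⟩ (fun h => by
    have := congrArg Subtype.val h
    exact mul_ne_zero hf hbK this)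
  obtain ⟨m', a', ha', ha2'⟩ := M9_A O ev π hπ hπ0 b hb
  refine ⟨a, a', m, m', ha, ha', ?_⟩
  have h1 : f * (b : K) = a * π⁻¹ ^ m := ha2
  rw [ha2'] at h1
  have h2 : π⁻¹ ^ m * π ^ m = 1 := by rw [← mul_pow, inv_mul_cancel₀ hπ0, one_pow]
  have h3 : π⁻¹ ^ m' * π ^ m' = 1 := by rw [← mul_pow, inv_mul_cancel₀ hπ0, one_pow]
  calc f * π ^ m * (a' : K) = f * (a' * π⁻¹ ^ m') * π ^ m * π ^ m' := by
        calc f * π ^ m * (a' : K) = f * a' * π ^ m * 1 := by ring
          _ = f * a' * π ^ m * (π⁻¹ ^ m' * π ^ m') := by rw [h3]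
          _ = f * (a' * π⁻¹ ^ m') * π ^ m * π ^ m' := by ring
    _ = a * π⁻¹ ^ m * π ^ m * π ^ m' := by rw [h1]
    _ = a * (π⁻¹ ^ m * π ^ m) * π ^ m' := by ring
    _ = a * π ^ m' := by rw [h2, mul_one]

end Q9
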