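import Pool.Agent.LibQ9.MDefs
import Pool.Agent.LibQ9.M1
import Pool.Agent.LibQ9.M2a
import Pool.Agent.LibQ9.M2b
import Pool.Agent.LibQ9.M3b
import Pool.Agent.LibQ9.M4
import Pool.Agent.LibQ9.M5
import Pool.Agent.LibQ9.M7b
import Pool.Agent.LibQ9.M8
import Pool.Agent.LibQ9.M9

/-!
LibQ9, block M: the affine model of a function field.
-/

set_option autoImplicit false

namespace Q9

open Polynomial

theorem ker_ne {k K : Type} [Field k] [Field K] [Algebra k K] (g : Gn k K)
    (ev : OI g →ₐ[k] k) : RingHom.ker ev ≠ ⊥ := by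
  intro h
  have h1 : tI g - algebraMap k (OI g) (ev (tI g)) ∈ RingHom.ker ev := by
    rw [RingHom.mem_ker, map_sub, AlgHom.commutes, Algebra.algebraMap_self_apply, sub_self]
  rw [h, Ideal.mem_bot] at h1
  have h2 : g.t - algebraMap k K (ev (tI g)) = 0 := congrArg Subtype.val h1
  refine aeval_ne g (b := X - C (ev (tI g))) (X_sub_C_ne_zero _) ?_
  rw [map_sub, aeval_X, aeval_C]
  exact h2

/-- the affine model of `K` given by generators -/
noncomputable def mdlG {k K : Type} [Field k] [IsAlgClosed k] [Field K] [Algebra k K]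
    (g : Gn k K) : Mdl k K where
  O := OI g
  R := Ri g
  t := tI g
  s_mem := Ri_s g
  inv := Ri_inv g
  exh := Ri_exh g
  fin := OI_fin g
  cover := by
    obtain ⟨C, hC⟩ := Ri_cover g
    refine ⟨C, fun f => ?_⟩
    obtain ⟨a, ha, h⟩ := hC f
    exact ⟨a, O_le_OI g ha, h⟩
  finR := Ri_finR g
  frac := OI_frac g
  nz := OI_nz g
  gen := by
    classical
    obtain ⟨Z, hZ⟩ := good_fibre g
    obtain ⟨D, hD0, hD⟩ := OI_cond g
    refine ⟨Z ∪ D.roots.toFinset, fun c hc => ?_⟩
    rw [Finset.mem_union, not_or] at hc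
    obtain ⟨r, hr, hG⟩ := hZ c hc.1
    have hDc : D.eval c ≠ 0 := by
      intro h0
      exact hc.2 (Multiset.mem_toFinset.2 ((mem_roots hD0).2 h0))
    exact ⟨g.G.natDegree, gen_at g D hD c hDc r hr hG⟩
  plc := by
    intro ev
    have := OI_dedekind g
    exact exists_pole (OI g) ev (ker_ne g ev)
  val := by
    intro ev π hπ f hf
    have := OI_dedekind g
    exact pole_val (OI g) (OI_frac g) ev π hπ f hf

end Q9
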