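import Pool.Agent.LibQ9.XDefs
import Pool.Agent.LibQ9.KDefs
import Pool.Agent.LibQ9.K3a

/-!
# LibQ9, block M: affine models of function fields of one variable, definitions

`OI g` is the integral closure of `k[t]` in `K`, `Ri g` the ring of functions regular at infinity used in K3b.
-/

set_option autoImplicit false

namespace Q9

open Polynomial

section

variable {k K : Type} [Field k] [Field K] [Algebra k K]

/-- the integral closure of `k[t]` in `K` -/
noncomputable def OI (g : Gn k K) : Subalgebra k K :=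
  (integralClosure (Algebra.adjoin k {g.t}) K).restrictScalars k

theorem mem_OI (g : Gn k K) (f : K) : f ∈ OI g ↔ IsIntegral (Algebra.adjoin k {g.t}) f := Iff.rfl

theorem aeval_ne (g : Gn k K) {b : k[X]} (hb : b ≠ 0) : aeval g.t b ≠ 0 :=
  fun h => hb ((transcendental_iff.1 g.tr) b h)

theorem gt_ne (g : Gn k K) : g.t ≠ 0 := by
  have := aeval_ne g (b := X) X_ne_zero
  rwa [aeval_X] at this

theorem aeval_mem_OI (g : Gn k K) (b : k[X]) : aeval g.t b ∈ OI g := by
  rw [mem_OI]
  exact isIntegral_algebraMap (R := Algebra.adjoin k {g.t})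
    (x := ⟨aeval g.t b, aeval_mem_adjoin_singleton k g.t⟩)

theorem t_mem_OI (g : Gn k K) : g.t ∈ OI g := by
  have := aeval_mem_OI g X
  rwa [aeval_X] at this

/-- `t` as an element of the integral closure -/
noncomputable def tI (g : Gn k K) : OI g := ⟨g.t, t_mem_OI g⟩

theorem θ_mem_OI (g : Gn k K) : g.θ ∈ OI g := by
  rw [mem_OI]
  let φ : k[X] →+* Algebra.adjoin k {g.t} :=
    ((aeval (⟨g.t, Algebra.subset_adjoin (Set.mem_singleton _)⟩ : Algebra.adjoin k {g.t}) :
      k[X] →ₐ[k] Algebra.adjoin k {g.t}) : k[X] →+* Algebra.adjoin k {g.t})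
  refine ⟨g.G.map φ, g.monic.map φ, ?_⟩
  rw [eval₂_map]
  have h1 : (algebraMap (Algebra.adjoin k {g.t}) K).comp φ =
      ((Polynomial.aeval g.t : k[X] →ₐ[k] K) : k[X] →+* K) := by
    apply RingHom.ext
    intro p
    exact aeval_subalgebra_coe p (Algebra.adjoin k {g.t}) _
  rw [h1]
  exact g.root

theorem O_le_OI (g : Gn k K) : g.O ≤ OI g := by
  refine Algebra.adjoin_le ?_
  rintro x (rfl | hx)
  · exact t_mem_OI g
  · rw [Set.mem_singleton_iff.1 hx]
    exact θ_mem_OI g

/-- the functions `a(t)/b(t)` with `deg a ≤ deg b` -/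
def Vi (g : Gn k K) : Subalgebra k K where
  carrier := {x | ∃ a b : k[X], b ≠ 0 ∧ a.natDegree ≤ b.natDegree ∧
    x * aeval g.t b = aeval g.t a}
  mul_mem' := by
    rintro x y ⟨a, b, hb, hd, hx⟩ ⟨a', b', hb', hd', hy⟩
    refine ⟨a * a', b * b', mul_ne_zero hb hb', ?_, ?_⟩
    · rw [natDegree_mul hb hb']
      exact natDegree_mul_le.trans (add_le_add hd hd')
    · rw [map_mul, map_mul, ← hx, ← hy]; ring
  add_mem' := by
    rintro x y ⟨a, b, hb, hd, hx⟩ ⟨a', b', hb', hd', hy⟩
    refine ⟨a * b' + b * a', b * b', mul_ne_zero hb hb', ?_, ?_⟩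
    · rw [natDegree_mul hb hb']
      refine (natDegree_add_le _ _).trans (max_le ?_ ?_)
      · exact natDegree_mul_le.trans (by omega)
      · exact natDegree_mul_le.trans (by omega)
    · rw [map_add, map_mul, map_mul, map_mul, ← hx, ← hy]; ring
  algebraMap_mem' := by
    intro r
    exact ⟨C r, 1, one_ne_zero, by simp, by simp⟩

/-- the maximum of the degrees of the coefficients of `G` -/
noncomputable def dgG (g : Gn k K) : ℕ := g.G.support.sup (fun l => (g.G.coeff l).natDegree)

/-- `θ s^e`, integral over `Vi g` -/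
noncomputable def wi (g : Gn k K) : K := g.θ * g.t⁻¹ ^ dgG g

/-- a ring of functions regular at infinity -/
noncomputable def Ri (g : Gn k K) : Subalgebra k K := Algebra.adjoin k ((Vi g : Set K) ∪ {wi g})

end

end Q9
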