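import Pool.Agent.LibQ9.KDefs

/-!
[Q9 MF1] As K1, remembering `t`: a finite separable extension of `k(t)` has generators in the sense of `Gn` with first generator `t`.

PLAN. `t = algebraMap (RatFunc k) K RatFunc.X`; transcendental over `k` (`RatFunc.X` is transcendental / `algebraMap k[X] (RatFunc k)` is injective and `RatFunc k → K` is injective). The map `ι : k[X] → K`, `b ↦ aeval t b` is `algebraMap (RatFunc k) K ∘ algebraMap k[X] (RatFunc k)`; use `let : Algebra k[X] K := ι.toAlgebra`-type instances (`IsScalarTower k[X] (RatFunc k) K`). `Field.exists_primitive_element`: `α` with `(RatFunc k)⟮α⟯ = ⊤`; some nonzero multiple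
`θ = ι(c) α` is integral over `k[X]` (`exists_integral_multiple`, as `K` is algebraic over `k[X]`), still primitive. `G = minpoly k[X] θ`: monic, `aeval θ G = 0`, and mapped to `RatFunc k` it is `minpoly (RatFunc k) θ` (`minpoly.isIntegrallyClosed_eq_field_fractions`). `sep`: `θ` is separable over `RatFunc k`, so the derivative of the minimal polynomial does not vanish at `θ` (`Polynomial.Separable.aeval_derivative_ne_zero`). `li`: a polynomial over `k[X]`
of smaller degree vanishing at `θ` is `0` (map it to `RatFunc k`, degree `<` degree of the minimal polynomial: `minpoly.degree_le_of_ne_zero` or `minpoly.dvd`). `gen`: `f ∈ K = RatFunc k[θ]` (`Algebra.adjoin = ⊤` as `θ` is algebraic) is a polynomial in `θ` over `RatFunc k`; multiply by a common denominator (`IsLocalization.integerNormalization` or induction on the polynomial).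
-/

set_option autoImplicit false

namespace Q9

open Polynomial

theorem exists_gn_t {k : Type} [Field k] {K : Type} [Field K] [Algebra (RatFunc k) K]
    [FiniteDimensional (RatFunc k) K] [Algebra.IsSeparable (RatFunc k) K] [Algebra k K]
    [IsScalarTower k (RatFunc k) K] :
    ∃ g : Gn k K, g.t = algebraMap (RatFunc k) K RatFunc.X := by
  classical
  let : Algebra k[X] K :=
    ((algebraMap (RatFunc k) K).comp (algebraMap k[X] (RatFunc k))).toAlgebra
  have : IsScalarTower k[X] (RatFunc k) K := IsScalarTower.of_algebraMap_eq (fun _ => rfl)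
  have hinj : Function.Injective (algebraMap k[X] K) :=
    (algebraMap (RatFunc k) K).injective.comp (IsFractionRing.injective k[X] (RatFunc k))
  have : Module.IsTorsionFree k[X] K :=
    Module.isTorsionFree_iff_algebraMap_injective.mpr hinj
  -- evaluation at `t`
  have ht : ∀ b : k[X], aeval (algebraMap (RatFunc k) K RatFunc.X) b = algebraMap k[X] K b := by
    intro b
    rw [Polynomial.aeval_algebraMap_apply, ← RatFunc.algebraMap_X, Polynomial.aeval_algebraMap_apply,
      Polynomial.aeval_X_left, AlgHom.id_apply]
    rfl
  have htr : Transcendental k (algebraMap (RatFunc k) K RatFunc.X) := by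
    rw [transcendental_iff]
    intro p hp
    rw [ht] at hp
    exact hinj (hp.trans (map_zero _).symm)
  -- primitive element, integral
  obtain ⟨α, hα⟩ := Field.exists_primitive_element (RatFunc k) K
  have : Algebra.IsAlgebraic k[X] (RatFunc k) :=
    IsLocalization.isAlgebraic (RatFunc k) (nonZeroDivisors k[X])
  have : Algebra.IsAlgebraic k[X] K := Algebra.IsAlgebraic.trans k[X] (RatFunc k) K
  obtain ⟨c, hc, hint⟩ := (Algebra.IsAlgebraic.isAlgebraic (R := k[X]) α).exists_integral_multiple
  set θ : K := c • α with hθ
  have hθtop : IntermediateField.adjoin (RatFunc k) {θ} = ⊤ := by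
    rw [← top_le_iff, ← hα, IntermediateField.adjoin_simple_le_iff]
    have h1 : θ ∈ IntermediateField.adjoin (RatFunc k) {θ} :=
      IntermediateField.mem_adjoin_simple_self _ _
    have h2 : algebraMap k[X] K c ≠ 0 := fun h => hc (hinj (h.trans (map_zero _).symm))
    have h3 : α = algebraMap (RatFunc k) K ((algebraMap k[X] (RatFunc k) c)⁻¹) * θ := by
      rw [hθ, Algebra.smul_def, map_inv₀]
      change α = (algebraMap k[X] K c)⁻¹ * _
      rw [← mul_assoc, inv_mul_cancel₀ h2, one_mul]
    rw [h3]
    exact mul_mem (IntermediateField.algebraMap_mem _ _) h1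
  -- evaluation in two variables
  have hev : ∀ a : Polynomial (Polynomial k),
      ev2 (algebraMap (RatFunc k) K RatFunc.X) θ a = aeval θ a := by
    intro a
    have h1 : ((Polynomial.aeval (algebraMap (RatFunc k) K RatFunc.X) : k[X] →ₐ[k] K) : k[X] →+* K) =
        algebraMap k[X] K := RingHom.ext ht
    rw [ev2, h1]
    rfl
  have hmin : minpoly (RatFunc k) θ = (minpoly k[X] θ).map (algebraMap k[X] (RatFunc k)) :=
    minpoly.isIntegrallyClosed_eq_field_fractions' (RatFunc k) hint
  refine ⟨⟨algebraMap (RatFunc k) K RatFunc.X, θ, minpoly k[X] θ, htr, minpoly.monic hint, ?_, ?_,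
    ?_, ?_⟩, rfl⟩
  · rw [hev, minpoly.aeval]
  · rw [hev]
    have h1 : (minpoly (RatFunc k) θ).Separable := Algebra.IsSeparable.isSeparable (RatFunc k) θ
    have h2 := h1.aeval_derivative_ne_zero (minpoly.aeval (RatFunc k) θ)
    rw [hmin, derivative_map, aeval_map_algebraMap] at h2
    exact h2
  · intro a ha h0
    rw [hev] at h0
    by_contra hne
    exact absurd (minpoly.IsIntegrallyClosed.degree_le_of_ne_zero hne h0) (not_le.mpr ha)
  · intro f
    have h1 : f ∈ Algebra.adjoin (RatFunc k) {θ} := by
      rw [← IntermediateField.adjoin_simple_toSubalgebra_of_isAlgebraic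
        (Algebra.IsAlgebraic.isAlgebraic (R := RatFunc k) θ), hθtop]
      exact IntermediateField.mem_top
    rw [Algebra.adjoin_singleton_eq_range_aeval] at h1
    obtain ⟨p, hp⟩ := h1
    obtain ⟨b, hb⟩ := IsLocalization.integerNormalization_map_to_map (nonZeroDivisors k[X]) p
    refine ⟨IsLocalization.integerNormalization (nonZeroDivisors k[X]) p, b,
      nonZeroDivisors.ne_zero b.2, ?_⟩
    rw [hev, ht, ← aeval_map_algebraMap (RatFunc k), hb]
    have h2 : ((b : k[X]) • p : Polynomial (RatFunc k)) =
        C (algebraMap k[X] (RatFunc k) b) * p := by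
      rw [← Polynomial.smul_eq_C_mul, algebraMap_smul]
    rw [h2, map_mul, aeval_C, mul_comm f]
    congr 1
    exact hp.symm

end Q9
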