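import Pool.Agent.LibQ9.MDefs
import Pool.Agent.LibQ9.MF1

/-!
[Q9 MF2] (MEDIUM; may cite MF1 as stated, see also KF.lean) A separating element which is regular at finitely many given places.

PLAN. As in KF.lean (`exists_sep`, `KF_one`): `exists_isTranscendenceBasis_and_isSeparable_of_perfectField k K` and `trdeg = 1` give `t₀` transcendental over `k` with `K` separable over `IntermediateField.adjoin k {t₀}`. For a place `j` with `t₀ ∉ A j`: `(t₀ - c)⁻¹ ∈ A j` for every `c : k` (`ValuationSubring.mem_or_inv_mem`, `t₀ - c ∈ A j` would give `t₀ ∈ A j`). For a place `j` with `t₀ ∈ A j` there is at most one `c : k` with `(t₀ - c)⁻¹ ∉ A j`: if `t₀ - c` and `t₀ - c'` both have `valuation < 1`, then so has `c - c'`, but a nonzero constant `x` has `valuation = 1` (`x, x⁻¹ ∈ A j`).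
So (`k` infinite) there is `c : k` with `t := (t₀ - algebraMap k K c)⁻¹ ∈ A j` for all `j` (a finite set of bad `c`: `Set.Finite` union of subsingletons; `Set.Infinite`/`Set.Finite.infinite_compl`, `Infinite k` from `IsAlgClosed.instInfinite..`). `t₀ = c + t⁻¹`, so `adjoin k {t} = adjoin k {t₀}` (`IntermediateField.adjoin_simple_le_iff` both ways), `t` is transcendental (otherwise `t₀` is algebraic: `IsAlgebraic.inv`, `add`) and `K` is separable over `adjoin k {t}` (rewrite). Then as in `KF_one` (`RatFunc.algEquivOfTranscendental t ht`, algebra structure, finite by `Algebra.finite_of_essFiniteType_of_isAlgebraic`) with `algebraMap (RatFunc k) K RatFunc.X = t`, and MF1 `exists_gn_t`.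
-/

set_option autoImplicit false

namespace Q9

private theorem MF2_one {k K : Type} [Field k] [Field K] [Algebra k K]
    [Algebra.EssFiniteType k K] {t : K} (ht : Transcendental k t)
    [Algebra.IsSeparable (IntermediateField.adjoin k ({t} : Set K)) K] :
    ∃ g : Gn k K, g.t = t := by
  let e := RatFunc.algEquivOfTranscendental t ht
  let f : RatFunc k →ₐ[k] K := (IntermediateField.val _).comp e.toAlgHom
  let _ : Algebra (RatFunc k) K := f.toRingHom.toAlgebra
  have h1 : IsScalarTower k (RatFunc k) K :=
    IsScalarTower.of_algebraMap_eq fun x => (f.commutes x).symm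
  have h2 : Algebra.IsSeparable (RatFunc k) K := by
    refine Algebra.IsSeparable.of_equiv_equiv (A₁ := IntermediateField.adjoin k ({t} : Set K))
      (B₁ := K) e.symm.toRingEquiv (RingEquiv.refl K) ?_
    ext x
    change ((e (e.symm x) : IntermediateField.adjoin k ({t} : Set K)) : K) = x
    rw [e.apply_symm_apply]
  have h3 : Algebra.EssFiniteType (RatFunc k) K := Algebra.EssFiniteType.of_comp k (RatFunc k) K
  have h4 : Algebra.IsAlgebraic (RatFunc k) K := inferInstance
  have h5 : FiniteDimensional (RatFunc k) K := Algebra.finite_of_essFiniteType_of_isAlgebraic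
  obtain ⟨g, hg⟩ := exists_gn_t (k := k) (K := K)
  refine ⟨g, hg.trans ?_⟩
  change ((e RatFunc.X : IntermediateField.adjoin k ({t} : Set K)) : K) = t
  simp [e]

private theorem MF2_sub {k K : Type} [Field k] [Field K] [Algebra k K] (A : ValuationSubring K)
    (hk : ∀ c : k, algebraMap k K c ∈ A) (t : K) :
    {c : k | (t - algebraMap k K c)⁻¹ ∉ A}.Subsingleton := by
  intro c hc c' hc'
  by_contra hne
  have h1 : ∀ x : K, x⁻¹ ∉ A → A.valuation x < 1 := by
    intro x hx
    rw [← A.valuation_le_one_iff, map_inv₀] at hx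
    by_contra h
    push Not at h
    exact hx (inv_le_one_of_one_le₀ h)
  have h2 := h1 _ hc
  have h3 := h1 _ hc'
  have h4 : A.valuation (algebraMap k K (c - c')) < 1 := by
    have h6 : algebraMap k K (c - c') = (t - algebraMap k K c') - (t - algebraMap k K c) := by
      rw [map_sub]; ring
    rw [h6]
    exact A.valuation.map_sub_lt h3 h2
  have h5 : A.valuation (algebraMap k K (c - c')⁻¹) ≤ 1 := by
    rw [A.valuation_le_one_iff]
    exact hk _
  have h7 : A.valuation (algebraMap k K (c - c')) * A.valuation (algebraMap k K (c - c')⁻¹) = 1 := by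
    rw [← map_mul, ← map_mul, mul_inv_cancel₀ (sub_ne_zero.2 hne), map_one, map_one]
  have h8 : A.valuation (algebraMap k K (c - c')) * A.valuation (algebraMap k K (c - c')⁻¹) < 1 := by
    calc _ ≤ A.valuation (algebraMap k K (c - c')) * 1 := mul_le_mul_right h5 _
      _ < 1 := by rwa [mul_one]
  exact absurd h7 h8.ne

theorem exists_gn_pl {k K : Type} [Field k] [IsAlgClosed k] [Field K] [Algebra k K]
    [Algebra.EssFiniteType k K] (h : Algebra.trdeg k K = 1) {r : ℕ}
    (A : Fin r → ValuationSubring K) (hk : ∀ j (c : k), algebraMap k K c ∈ A j) :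
    ∃ g : Gn k K, ∀ j, g.t ∈ A j := by
  classical
  obtain ⟨s, hs, hsep⟩ := exists_isTranscendenceBasis_and_isSeparable_of_perfectField k K
  have hcard : Cardinal.mk s = 1 := by rw [hs.cardinalMk_eq_trdeg, h]
  have h1 : s.card = 1 := by
    rw [Cardinal.mk_coe_finset] at hcard
    exact_mod_cast hcard
  obtain ⟨t₀, rfl⟩ := Finset.card_eq_one.1 h1
  have ht₀ : Transcendental k t₀ := hs.1.transcendental ⟨t₀, Finset.mem_singleton_self t₀⟩
  rw [Finset.coe_singleton] at hsep
  -- a good constant
  have hfin : (⋃ j, {c : k | (t₀ - algebraMap k K c)⁻¹ ∉ A j}).Finite :=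
    Set.finite_iUnion fun j => (MF2_sub (A j) (hk j) t₀).finite
  have hinf : Infinite k := IsAlgClosed.instInfinite
  obtain ⟨c, hc⟩ := hfin.infinite_compl.nonempty
  have hc' : ∀ j, (t₀ - algebraMap k K c)⁻¹ ∈ A j := by
    intro j
    by_contra hj
    exact hc (Set.mem_iUnion.2 ⟨j, hj⟩)
  set t : K := (t₀ - algebraMap k K c)⁻¹ with ht
  have e0 : t₀ = t⁻¹ + algebraMap k K c := by rw [ht, inv_inv]; ring
  have ht' : Transcendental k t := by
    intro halg
    apply ht₀
    rw [e0]
    exact halg.inv.add (isAlgebraic_algebraMap c)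
  have hadj : IntermediateField.adjoin k ({t₀} : Set K) = IntermediateField.adjoin k ({t} : Set K) := by
    apply le_antisymm
    · rw [IntermediateField.adjoin_simple_le_iff, e0]
      exact add_mem (inv_mem (IntermediateField.mem_adjoin_simple_self _ _))
        (IntermediateField.algebraMap_mem _ _)
    · rw [IntermediateField.adjoin_simple_le_iff, ht]
      exact inv_mem (sub_mem (IntermediateField.mem_adjoin_simple_self _ _)
        (IntermediateField.algebraMap_mem _ _))
  rw [hadj] at hsep
  obtain ⟨g, hg⟩ := MF2_one ht'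
  refine ⟨g, fun j => ?_⟩
  rw [hg]
  exact hc' j

end Q9
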