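import Pool.Agent.LibQ9.MDefs
import Pool.Agent.LibQ9.M3b
import Pool.Agent.LibQ9.M4

/-!
[Q9 MF3] A valuation ring `A ≠ K` containing `k` and `t` gives a `k`-point of the integral closure `OI g`.
-/

set_option autoImplicit false

namespace Q9

open Polynomial

private theorem MF3_adj {k K : Type} [Field k] [Field K] [Algebra k K] (g : Gn k K)
    (A : ValuationSubring K) (hk : ∀ c : k, algebraMap k K c ∈ A) (ht : g.t ∈ A) :
    ∀ x ∈ Algebra.adjoin k {g.t}, x ∈ A := by
  intro x hx
  induction hx using Algebra.adjoin_induction with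
  | mem x hx =>
    rw [Set.mem_singleton_iff.1 hx]
    exact ht
  | algebraMap r => exact hk r
  | add x y _ _ hx hy => exact add_mem hx hy
  | mul x y _ _ hx hy => exact mul_mem hx hy

private theorem MF3_OI {k K : Type} [Field k] [Field K] [Algebra k K] (g : Gn k K)
    (A : ValuationSubring K) (hk : ∀ c : k, algebraMap k K c ∈ A) (ht : g.t ∈ A) :
    ∀ f ∈ OI g, f ∈ A := by
  intro f hf
  rw [mem_OI] at hf
  obtain ⟨p, hp, hpf⟩ := hf
  let φ : Algebra.adjoin k {g.t} →+* A :=
    (algebraMap (Algebra.adjoin k {g.t}) K).codRestrict A (fun x => MF3_adj g A hk ht x x.2)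
  have hφ : (algebraMap A K).comp φ = algebraMap (Algebra.adjoin k {g.t}) K := RingHom.ext fun _ => rfl
  have h1 : IsIntegral A f := by
    refine ⟨p.map φ, hp.map φ, ?_⟩
    rw [eval₂_map, hφ]
    exact hpf
  obtain ⟨y, hy⟩ := IsIntegrallyClosed.isIntegral_iff.1 h1
  rw [← hy]
  exact y.2

private theorem MF3_alg {k κ : Type} [Field k] [IsAlgClosed k] [Field κ] [Algebra k κ] (x : κ)
    (hx : IsIntegral k x) : ∃ c : k, algebraMap k κ c = x :=
  minpoly.mem_range_of_degree_eq_one k x
    (IsAlgClosed.degree_eq_one_of_irreducible k (minpoly.irreducible hx))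

theorem exists_ev_val {k K : Type} [Field k] [IsAlgClosed k] [Field K] [Algebra k K]
    (g : Gn k K) (A : ValuationSubring K) (hk : ∀ c : k, algebraMap k K c ∈ A) (ht : g.t ∈ A)
    (hA : A ≠ ⊤) :
    (∀ f ∈ OI g, f ∈ A) ∧ ∃ ev : OI g →ₐ[k] k, ∀ f : OI g, ev f = 0 ↔ A.valuation (f : K) < 1 := by
  have hOI := MF3_OI g A hk ht
  refine ⟨hOI, ?_⟩
  let ι : k →+* IsLocalRing.ResidueField A :=
    (IsLocalRing.residue A).comp ((algebraMap k K).codRestrict A hk)
  let : Algebra k (IsLocalRing.ResidueField A) := ι.toAlgebra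
  let ρ : OI g →ₐ[k] IsLocalRing.ResidueField A :=
    { toRingHom := (IsLocalRing.residue A).comp
        (((OI g).val : OI g →ₐ[k] K).toRingHom.codRestrict A (fun x => hOI x x.2))
      commutes' := fun c => rfl }
  have hρ : ∀ f : OI g, ρ f = 0 ↔ A.valuation (f : K) < 1 := by
    intro f
    have h1 : ρ f = IsLocalRing.residue A ⟨f, hOI f f.2⟩ := rfl
    rw [h1, IsLocalRing.residue_eq_zero_iff, A.valuation_lt_one_iff]
  -- a nonzero element of the ideal
  obtain ⟨x, hx⟩ : ∃ x : K, x ∉ A := by
    by_contra hcon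
    push Not at hcon
    apply hA
    ext y
    exact ⟨fun _ => ValuationSubring.mem_top y, fun _ => hcon y⟩
  obtain ⟨b, hb0, hxb⟩ := OI_frac g x
  have hb1 : A.valuation (b : K) < 1 := by
    have h1 : A.valuation (b : K) ≤ 1 := (A.valuation_le_one_iff _).2 (hOI b b.2)
    rcases h1.lt_or_eq with h2 | h2
    · exact h2
    · exfalso
      apply hx
      rw [← A.valuation_le_one_iff]
      have h3 : A.valuation (x * b) ≤ 1 := (A.valuation_le_one_iff _).2 (hOI _ hxb)
      rwa [map_mul, h2, mul_one] at h3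
  have hbK : (b : K) ≠ 0 := fun h => hb0 (Subtype.ext h)
  obtain ⟨a, b', hb', hab⟩ := g.gen ((b : K)⁻¹)
  have hab' : aeval g.t b' = ev2 g.t g.θ a * b := by
    rw [← hab, mul_comm ((b : K)⁻¹), mul_assoc, inv_mul_cancel₀ hbK, mul_one]
  have hval : A.valuation (aeval g.t b') < 1 := by
    rw [hab', map_mul]
    have h1 : A.valuation (ev2 g.t g.θ a) ≤ 1 :=
      (A.valuation_le_one_iff _).2 (hOI _ (O_le_OI g (mem_O g a)))
    exact lt_of_le_of_lt (mul_le_of_le_one_left' h1) hb1
  have hcoe : ∀ q : k[X], ((aeval (tI g) q : OI g) : K) = aeval g.t q := fun q =>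
    aeval_subalgebra_coe q (OI g) (tI g)
  have hroot : aeval (ρ (tI g)) b' = 0 := by
    rw [aeval_algHom_apply, hρ, hcoe]
    exact hval
  have hτ : IsIntegral k (ρ (tI g)) := by
    have : IsAlgebraic k (ρ (tI g)) := ⟨b', hb', hroot⟩
    exact this.isIntegral
  obtain ⟨c, hc⟩ := MF3_alg _ hτ
  -- all elements
  have hall : ∀ f : OI g, ∃ c : k, algebraMap k (IsLocalRing.ResidueField A) c = ρ f := by
    intro f
    apply MF3_alg
    have hf : IsIntegral (Algebra.adjoin k {g.t}) (f : K) := (mem_OI g f).1 f.2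
    obtain ⟨p, hp, hpf⟩ := hf
    have hle : ∀ x ∈ Algebra.adjoin k {g.t}, x ∈ OI g := by
      intro x hx
      rw [Algebra.adjoin_singleton_eq_range_aeval] at hx
      obtain ⟨q, rfl⟩ := hx
      exact aeval_mem_OI g q
    let j : Algebra.adjoin k {g.t} →+* OI g :=
      (algebraMap (Algebra.adjoin k {g.t}) K).codRestrict (OI g) (fun x => hle x x.2)
    have hj : ((OI g).val : OI g →ₐ[k] K).toRingHom.comp j = algebraMap (Algebra.adjoin k {g.t}) K :=
      RingHom.ext fun _ => rfl
    have hpj : eval₂ j f p = 0 := by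
      apply Subtype.ext
      have h1 := hom_eval₂ p j ((OI g).val : OI g →ₐ[k] K).toRingHom f
      rw [hj] at h1
      exact h1.trans hpf
    have hq : p.map (ρ.toRingHom.comp j) ∈ lifts (algebraMap k (IsLocalRing.ResidueField A)) := by
      rw [lifts_iff_coeff_lifts]
      intro n
      rw [coeff_map]
      obtain ⟨q, hq⟩ : ∃ q : k[X], aeval g.t q = ((p.coeff n : Algebra.adjoin k {g.t}) : K) := by
        have h0 : ∀ y ∈ Algebra.adjoin k {g.t}, ∃ q : k[X], aeval g.t q = y := by
          intro y hy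
          rw [Algebra.adjoin_singleton_eq_range_aeval] at hy
          exact hy
        exact h0 _ (p.coeff n).2
      refine ⟨aeval c q, ?_⟩
      rw [← aeval_algebraMap_apply, hc, aeval_algHom_apply]
      have h1 : (aeval (tI g) q : OI g) = j (p.coeff n) := by
        apply Subtype.ext
        rw [hcoe, hq]
        rfl
      rw [h1]
      rfl
    obtain ⟨q, hq1, -, hq2⟩ := lifts_and_natDegree_eq_and_monic hq (hp.map _)
    refine ⟨q, hq2, ?_⟩
    rw [← eval_map, hq1, eval_map]
    have h1 := hom_eval₂ p j ρ.toRingHom f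
    rw [hpj, map_zero] at h1
    exact h1.symm
  choose ev0 hev0 using hall
  have hinj : Function.Injective (algebraMap k (IsLocalRing.ResidueField A)) :=
    (algebraMap k (IsLocalRing.ResidueField A)).injective
  refine ⟨{ toFun := ev0
            map_one' := hinj (by rw [hev0, map_one, map_one])
            map_mul' := fun x y => hinj (by rw [hev0, map_mul, map_mul, hev0, hev0])
            map_zero' := hinj (by rw [hev0, map_zero, map_zero])
            map_add' := fun x y => hinj (by rw [hev0, map_add, map_add, hev0, hev0])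
            commutes' := fun r => hinj (by rw [hev0, ρ.commutes]; rfl) }, ?_⟩
  intro f
  rw [← hρ]
  constructor
  · intro h
    have h' : ev0 f = 0 := h
    have h1 := hev0 f
    rw [h', map_zero] at h1
    exact h1.symm
  · intro h
    show ev0 f = 0
    have h1 := hev0 f
    rw [h] at h1
    exact hinj (h1.trans (map_zero _).symm)

end Q9
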