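import Pool.Agent.LibQ9.MDefs
import Pool.Agent.LibQ9.M8
import Pool.Agent.LibQ9.M9

/-!
[Q9 MF4] (MEDIUM; may cite M8, M9 as stated) The valuation ring of a place, in terms of the Dedekind domain `O ⊆ A`: localisation, powers of the maximal ideal, approximation.

`O ⊆ A` is a subalgebra with field of fractions `K` (`hfrac`), `ev : O →ₐ[k] k` with `ev f = 0 ↔ valuation f < 1`, `π` a simple pole at `ev`.
PLAN. For `f : O`: `valuation f ≤ 1`, `= 1` iff `ev f ≠ 0`. `h, v` from the second part of `Pole`: `ev h = 0`, `v = h π`, `ev v ≠ 0`, so `π ≠ 0`, `π⁻¹ = h / v` and `valuation π⁻¹ < 1`. `pl_loc`: `a = 0`: `b = 1`. `a ≠ 0`: M9 `pole_val`: `a π^i b = a' π^j`, `ev a' ≠ 0`, `ev b ≠ 0`: valuations: `val(a) val(π)^i = val(π)^j`, `val a ≤ 1`, `val π > 1`, so `j ≤ i`, `a b = a' (π⁻¹)^(i-j)`, `a (b v^(i-j)) = a' h^(i-j) ∈ O`, `ev (b v^(i-j)) ≠ 0`.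
`pl_pow`: (←) the inclusion `O → A` is a ring homomorphism mapping `ker ev` into the maximal ideal (`ValuationSubring.valuation_lt_one_iff`), `Ideal.pow_mem_pow`-type: `Ideal.map_pow`/`Ideal.map_le_iff_le_comap`, `Ideal.mem_map_of_mem`. (→) (a) for `x ∈ maximalIdeal A`: `x π ∈ A`: `b` from `pl_loc`, `x b ∈ O` and `valuation (x b) < 1`, so `ev (x b) = 0`, `x b π ∈ O ⊆ A` (first part of `Pole`), and `b` is a unit of `A`. (b) so `x π^N ∈ A` for `x ∈ maximalIdeal A ^ N` (induction on `N`, `Submodule.mul_induction_on`, or the maximal ideal is generated by `π⁻¹`). (c) `f ∈ O`, `f π^N ∈ A`: `pl_loc`: `b f π^N ∈ O`, `ev b ≠ 0`: `Cg O ev π N f 0` with `h = b`, `w = b f π^N`; M8 `cg_iff`.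
`pl_approx`: `a b = c ∈ O`, `ev b ≠ 0` (`pl_loc`); `b` is invertible modulo `(ker ev) ^ N` (`ker ev` is maximal; `IsCoprime (span {b}) (ker ev)`, `IsCoprime.pow_right`, or: `u = 1 - (ev b)⁻¹ b ∈ ker ev`, `b' = (ev b)⁻¹ Σ_{i<N} u^i`, `1 - b b' = u^N`): `y = c b'`, `a - y = a (1 - b b')`, and `1 - b b' ∈ maximalIdeal A ^ N`.
-/

set_option autoImplicit false

namespace Q9

section MF4

variable {k K : Type} [Field k] [Field K] [Algebra k K]

private theorem MF4_one (O : Subalgebra k K) (A : ValuationSubring K) (hOA : ∀ f ∈ O, f ∈ A)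
    (ev : O →ₐ[k] k) (hev : ∀ f : O, ev f = 0 ↔ A.valuation (f : K) < 1) (f : O) (hf : ev f ≠ 0) :
    A.valuation (f : K) = 1 :=
  le_antisymm ((A.valuation_le_one_iff _).2 (hOA f f.2)) (not_lt.1 fun h => hf ((hev f).2 h))

private theorem MF4_pi (O : Subalgebra k K) (ev : O →ₐ[k] k) (π : K) (hπ : Pole O ev π) : π ≠ 0 := by
  obtain ⟨_, h, v, _, hv, hv0⟩ := hπ
  intro h0
  rw [h0, mul_zero] at hv
  exact hv0 (by rw [show v = 0 from Subtype.ext hv, map_zero])

/-- the inclusion of `O` into the valuation ring -/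
private def MF4_i (O : Subalgebra k K) (A : ValuationSubring K) (hOA : ∀ f ∈ O, f ∈ A) : O →+* A where
  toFun f := ⟨(f : K), hOA f f.2⟩
  map_one' := rfl
  map_mul' _ _ := rfl
  map_zero' := rfl
  map_add' _ _ := rfl

private theorem MF4_max (O : Subalgebra k K) (A : ValuationSubring K) (hOA : ∀ f ∈ O, f ∈ A)
    (ev : O →ₐ[k] k) (hev : ∀ f : O, ev f = 0 ↔ A.valuation (f : K) < 1) (f : O) (hf : ev f = 0) :
    MF4_i O A hOA f ∈ IsLocalRing.maximalIdeal A :=
  (A.valuation_lt_one_iff _).2 ((hev f).1 hf)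

end MF4

theorem pl_loc {k K : Type} [Field k] [Field K] [Algebra k K] (O : Subalgebra k K)
    [IsNoetherianRing O] (hfrac : ∀ f : K, ∃ b : O, b ≠ 0 ∧ f * b ∈ O) (A : ValuationSubring K)
    (hOA : ∀ f ∈ O, f ∈ A) (ev : O →ₐ[k] k) (hev : ∀ f : O, ev f = 0 ↔ A.valuation (f : K) < 1)
    (π : K) (hπ : Pole O ev π) (a : K) (ha : a ∈ A) : ∃ b : O, ev b ≠ 0 ∧ a * b ∈ O := by
  by_cases ha0 : a = 0
  · refine ⟨1, ?_, ?_⟩
    · rw [map_one]; exact one_ne_zero
    · rw [ha0, zero_mul]; exact O.zero_mem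
  have hπ0 : π ≠ 0 := MF4_pi O ev π hπ
  obtain ⟨a', b, i, j, ha', hb, hab⟩ := pole_val O hfrac ev π hπ a ha0
  obtain ⟨_, h, v, hh, hv, hv0⟩ := hπ
  have va' := MF4_one O A hOA ev hev a' ha'
  have vb := MF4_one O A hOA ev hev b hb
  have vv := MF4_one O A hOA ev hev v hv0
  have vh : A.valuation (h : K) < 1 := (hev h).1 hh
  have va : A.valuation a ≤ 1 := (A.valuation_le_one_iff a).2 ha
  have hji : j ≤ i := by
    by_contra hlt
    push Not at hlt
    have h1 : a * v ^ i * (h : K) ^ (j - i) * b = a' * (v : K) ^ j := by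
      have h2 : (v : K) ^ j = (h : K) ^ (j - i) * (h : K) ^ i * π ^ j := by
        rw [← pow_add, Nat.sub_add_cancel hlt.le, hv, mul_pow]
      rw [h2, hv, mul_pow]
      linear_combination (h : K) ^ i * (h : K) ^ (j - i) * hab
    have h3 := congrArg A.valuation h1
    rw [map_mul, map_mul, map_mul, map_mul, map_pow, map_pow, map_pow, va', vb, vv, one_pow, one_pow,
      mul_one, mul_one, mul_one] at h3
    have h4 : A.valuation (h : K) ^ (j - i) < 1 := pow_lt_one₀ zero_le vh (by omega)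
    have h5 : A.valuation a * A.valuation (h : K) ^ (j - i) < 1 :=
      lt_of_le_of_lt (mul_le_of_le_one_left' va) h4
    rw [h3] at h5
    exact lt_irrefl _ h5
  refine ⟨b * v ^ i, ?_, ?_⟩
  · rw [map_mul, map_pow]
    exact mul_ne_zero hb (pow_ne_zero i hv0)
  · have h1 : a * ((b * v ^ i : O) : K) = ((a' * v ^ j * h ^ (i - j) : O) : K) := by
      push_cast
      have h2 : (h : K) ^ i = (h : K) ^ (i - j) * (h : K) ^ j := by
        rw [← pow_add, Nat.sub_add_cancel hji]
      rw [hv, mul_pow, mul_pow, h2]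
      linear_combination (h : K) ^ (i - j) * (h : K) ^ j * hab
    rw [h1]
    exact Subtype.property _

theorem pl_pow {k K : Type} [Field k] [Field K] [Algebra k K] (O : Subalgebra k K)
    [IsNoetherianRing O] (hfrac : ∀ f : K, ∃ b : O, b ≠ 0 ∧ f * b ∈ O) (A : ValuationSubring K)
    (hOA : ∀ f ∈ O, f ∈ A) (ev : O →ₐ[k] k) (hev : ∀ f : O, ev f = 0 ↔ A.valuation (f : K) < 1)
    (π : K) (hπ : Pole O ev π) (N : ℕ) (f : O) :
    (⟨(f : K), hOA f f.2⟩ : A) ∈ IsLocalRing.maximalIdeal A ^ N ↔ f ∈ RingHom.ker ev ^ N := by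
  have hπ0 : π ≠ 0 := MF4_pi O ev π hπ
  constructor
  · intro hf
    have step : ∀ x : A, x ∈ IsLocalRing.maximalIdeal A → (x : K) * π ∈ A := by
      intro x hx
      obtain ⟨b, hb, hxb⟩ := pl_loc O hfrac A hOA ev hev π hπ x x.2
      have vb := MF4_one O A hOA ev hev b hb
      have vx : A.valuation (x : K) < 1 := (A.valuation_lt_one_iff x).1 hx
      have h1 : ev ⟨(x : K) * b, hxb⟩ = 0 := by
        rw [hev]
        show A.valuation ((x : K) * b) < 1
        rw [map_mul, vb, mul_one]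
        exact vx
      have h2 := hπ.1 ⟨(x : K) * b, hxb⟩
      rw [h1, map_zero, sub_zero] at h2
      have h3 : A.valuation ((x : K) * b * π) ≤ 1 := (A.valuation_le_one_iff _).2 (hOA _ h2)
      rw [← A.valuation_le_one_iff]
      rw [map_mul, map_mul, vb, mul_one, ← map_mul] at h3
      exact h3
    have step2 : ∀ (M : ℕ) (x : A), x ∈ IsLocalRing.maximalIdeal A ^ M → (x : K) * π ^ M ∈ A := by
      intro M
      induction M with
      | zero =>
        intro x _
        rw [pow_zero, mul_one]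
        exact x.2
      | succ M ih =>
        intro x hx
        rw [pow_succ] at hx
        refine Submodule.mul_induction_on hx ?_ ?_
        · intro m hm n hn
          have h4 : ((m * n : A) : K) * π ^ (M + 1) = ((m : K) * π ^ M) * ((n : K) * π) := by
            push_cast
            ring
          rw [h4]
          exact A.mul_mem _ _ (ih m hm) (step n hn)
        · intro y z hy hz
          have h5 : ((y + z : A) : K) * π ^ (M + 1) = (y : K) * π ^ (M + 1) + (z : K) * π ^ (M + 1) := by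
            push_cast
            ring
          rw [h5]
          exact A.add_mem _ _ hy hz
    have h6 : (f : K) * π ^ N ∈ A := step2 N _ hf
    obtain ⟨b, hb, hfb⟩ := pl_loc O hfrac A hOA ev hev π hπ _ h6
    have h7 : Cg O ev π N f ((0 : O) : K) := by
      refine ⟨b, ⟨_, hfb⟩, hb, ?_⟩
      show (b : K) * ((f : K) - ((0 : O) : K)) = (f : K) * π ^ N * b * π⁻¹ ^ N
      have h8 : π ^ N * π⁻¹ ^ N = 1 := by rw [← mul_pow, mul_inv_cancel₀ hπ0, one_pow]
      have h9 : ((0 : O) : K) = 0 := rfl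
      rw [h9, sub_zero]
      linear_combination (-(f : K) * b) * h8
    have h10 := (cg_iff O ev π hπ N f 0).1 h7
    rwa [sub_zero] at h10
  · intro hf
    have h1 : (RingHom.ker ev).map (MF4_i O A hOA) ≤ IsLocalRing.maximalIdeal A := by
      rw [Ideal.map_le_iff_le_comap]
      intro x hx
      exact MF4_max O A hOA ev hev x hx
    have h2 : MF4_i O A hOA f ∈ ((RingHom.ker ev) ^ N).map (MF4_i O A hOA) :=
      Ideal.mem_map_of_mem _ hf
    rw [Ideal.map_pow] at h2
    exact Ideal.pow_right_mono h1 N h2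

theorem pl_approx {k K : Type} [Field k] [Field K] [Algebra k K] (O : Subalgebra k K)
    [IsNoetherianRing O] (hfrac : ∀ f : K, ∃ b : O, b ≠ 0 ∧ f * b ∈ O) (A : ValuationSubring K)
    (hOA : ∀ f ∈ O, f ∈ A) (ev : O →ₐ[k] k) (hev : ∀ f : O, ev f = 0 ↔ A.valuation (f : K) < 1)
    (π : K) (hπ : Pole O ev π) (N : ℕ) (a : A) :
    ∃ y : O, a - ⟨(y : K), hOA y y.2⟩ ∈ IsLocalRing.maximalIdeal A ^ N := by
  obtain ⟨b, hb, hab⟩ := pl_loc O hfrac A hOA ev hev π hπ a a.2
  set u : O := 1 - (ev b)⁻¹ • b with hu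
  have hu0 : ev u = 0 := by
    rw [hu, map_sub, map_one, map_smul, smul_eq_mul, inv_mul_cancel₀ hb, sub_self]
  set b' : O := (ev b)⁻¹ • ∑ i ∈ Finset.range N, u ^ i with hb'
  have h1 : b * b' = 1 - u ^ N := by
    have h2 : (1 - u) * ∑ i ∈ Finset.range N, u ^ i = 1 - u ^ N := mul_neg_geom_sum u N
    rw [← h2, hb', mul_smul_comm, ← smul_mul_assoc, hu, sub_sub_cancel]
  refine ⟨⟨(a : K) * b, hab⟩ * b', ?_⟩
  have h3 : a - ⟨((⟨(a : K) * b, hab⟩ * b' : O) : K), hOA _ (Subtype.property _)⟩ =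
      a * (MF4_i O A hOA u) ^ N := by
    apply Subtype.ext
    have h4 : ((b : K)) * (b' : K) = 1 - (u : K) ^ N := by
      have h5 := congrArg (Subtype.val : O → K) h1
      exact h5
    show (a : K) - ((a : K) * b) * (b' : K) = (a : K) * (u : K) ^ N
    linear_combination (-(a : K)) * h4
  rw [h3]
  exact Ideal.mul_mem_left _ _ (Ideal.pow_mem_pow (MF4_max O A hOA ev hev u hu0) N)

end Q9
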