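import Pool.Agent.LibQ9.MDefs
import Pool.Agent.LibQ9.M8
import Pool.Agent.LibQ9.M9
import Pool.Agent.LibQ9.MF4

/-!
[Q9 MF5] (MEDIUM; may cite M8, M9, MF4 as stated) A function with given orders at finitely many places which clears given denominators elsewhere.

PLAN. `M j = RingHom.ker (ev j)`: distinct maximal ideals (`ev j` is determined by its kernel, because `f - ev j f ∈ ker`). Second part of `Pole`: `h_j, v_j : O` with `ev j h_j = 0`, `v_j = h_j π_j`, `ev j v_j ≠ 0`. (1) Chinese remainder theorem (`IsDedekindDomain.exists_forall_sub_mem_ideal`, or `Ideal.quotientInfRingEquivPiQuotient`-type) for the pairwise coprime `M j ^ 2` and `M i`, `i ≠ j`: `u j : O` with `u j - h_j ∈ M j ^ 2` and `u j - 1 ∈ M i` for `i ≠ j`.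
Then `(A i).valuation (u j) = 1` for `i ≠ j` and `(A j).valuation (u j) = (A j).valuation (π j)⁻¹`: `y = u j - h_j ∈ M j ^ 2`, `y π_j ^ 2 ∈ O` up to a factor of valuation `1` (`cg_iff` for `N = 2`), so `valuation (y π_j) ≤ valuation (π_j⁻¹) < 1 = valuation v_j` and `u_j π_j = v_j + y π_j` has valuation `1`.
(2) `c j ≠ 0`: M9 `pole_val`: `c_j π_j^i b = a π_j^l` with `ev a, ev b ≠ 0`, so `valuation (c_j) = valuation (π_j)^(l - i)` (integers); `d₀ = ∏_j (u j)^(i_j - l_j)` (`zpow`) has `(A j).valuation d₀ = (A j).valuation (c j)` for all `j`. (3) for `f ∈ S`: `(A j).valuation (d₀ f) = (A j).valuation (c_j f) ≤ 1`, so MF4 `pl_loc` gives `b_(j,f) : O` with `ev j b ≠ 0`, `d₀ f b ∈ O`; `b_j = ∏_{f ∈ S} b_(j,f)`: `ev j (b_j) ≠ 0`, `d₀ f b_j ∈ O` for all `f ∈ S`. The `b` with `d₀ f b ∈ O` for all `f ∈ S` form an ideal `I` of `O`; `I ⊄ M j` for all `j`, so there is `b ∈ I` with `ev j b ≠ 0` for all `j` (prime avoidance `Ideal.subset_union_prime`). `d = b d₀`.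
-/

set_option autoImplicit false

namespace Q9

section

variable {k K : Type} [Field k] [Field K] [Algebra k K]

private theorem MF5_one (O : Subalgebra k K) (A : ValuationSubring K) (hOA : ∀ f ∈ O, f ∈ A)
    (ev : O →ₐ[k] k) (hev : ∀ f : O, ev f = 0 ↔ A.valuation (f : K) < 1) (b : O)
    (hb : ev b ≠ 0) : A.valuation (b : K) = 1 := by
  have h1 : A.valuation (b : K) ≤ 1 := (A.valuation_le_one_iff _).2 (hOA b b.2)
  rcases h1.lt_or_eq with h | h
  · exact absurd ((hev b).2 h) hb
  · exact h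

private theorem MF5_pole (O : Subalgebra k K) (A : ValuationSubring K) (hOA : ∀ f ∈ O, f ∈ A)
    (ev : O →ₐ[k] k) (hev : ∀ f : O, ev f = 0 ↔ A.valuation (f : K) < 1) (π : K)
    (hπ : Pole O ev π) :
    ∃ h : O, ev h = 0 ∧ (h : K) ≠ 0 ∧ A.valuation (h : K) * A.valuation π = 1 ∧
      ∀ y ∈ RingHom.ker ev ^ 2, A.valuation ((h + y : O) : K) = A.valuation (h : K) := by
  obtain ⟨hπ1, h, v, h0, hv, hev1⟩ := hπ
  have e1 : A.valuation (h : K) * A.valuation π = 1 := by
    rw [← map_mul, ← hv]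
    exact MF5_one O A hOA ev hev v hev1
  have hne : A.valuation (h : K) ≠ 0 := left_ne_zero_of_mul_eq_one e1
  have hK : (h : K) ≠ 0 := (A.valuation.ne_zero_iff).1 hne
  refine ⟨h, h0, hK, e1, ?_⟩
  have hlt : A.valuation (h : K) < 1 := (hev h).1 h0
  have hm : ∀ m ∈ RingHom.ker ev, A.valuation (m : K) ≤ A.valuation (h : K) := by
    intro m hm
    have hm0 : ev m = 0 := hm
    have h2 := hπ1 m
    rw [hm0, map_zero, sub_zero] at h2
    have h3 : A.valuation ((m : K) * π) ≤ 1 := (A.valuation_le_one_iff _).2 (hOA _ h2)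
    rw [map_mul, ← e1] at h3
    exact le_of_mul_le_mul_right h3 (zero_lt_iff.2 (right_ne_zero_of_mul_eq_one e1))
  have hy : ∀ y ∈ RingHom.ker ev ^ 2,
      A.valuation (y : K) ≤ A.valuation (h : K) * A.valuation (h : K) := by
    intro y hy
    rw [pow_two] at hy
    refine Submodule.mul_induction_on hy ?_ ?_
    · intro a ha b hb
      show A.valuation ((a * b : O) : K) ≤ _
      rw [MulMemClass.coe_mul, map_mul]
      exact mul_le_mul' (hm a ha) (hm b hb)
    · intro a b ha hb
      show A.valuation ((a + b : O) : K) ≤ _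
      rw [AddMemClass.coe_add]
      exact A.valuation.map_add_le ha hb
  intro y hyy
  rw [AddMemClass.coe_add]
  refine A.valuation.map_add_eq_of_lt_left ?_
  refine (hy y hyy).trans_lt ?_
  calc A.valuation (h : K) * A.valuation (h : K) < A.valuation (h : K) * 1 :=
        mul_lt_mul_of_pos_left hlt (zero_lt_iff.2 hne)
    _ = A.valuation (h : K) := mul_one _

private theorem MF5_crt (O : Subalgebra k K) {r : ℕ} (ev : Fin r → (O →ₐ[k] k))
    (hinj : Function.Injective ev) (x : Fin r → O) :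
    ∃ y : O, ∀ i, y - x i ∈ RingHom.ker (ev i) ^ 2 := by
  refine Ideal.exists_forall_sub_mem_ideal ?_ x
  intro i j hij
  show IsCoprime (RingHom.ker (ev i) ^ 2) (RingHom.ker (ev j) ^ 2)
  apply IsCoprime.pow
  have hsurj : ∀ i, Function.Surjective (ev i) := fun i c => ⟨algebraMap k O c, by
    rw [AlgHom.commutes]
    rfl⟩
  have hmax : ∀ i, (RingHom.ker (ev i)).IsMaximal := fun i =>
    RingHom.ker_isMaximal_of_surjective (ev i) (hsurj i)
  have hne : RingHom.ker (ev i) ≠ RingHom.ker (ev j) := by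
    intro he
    apply hij
    apply hinj
    apply AlgHom.ext
    intro f
    have h1 : f - algebraMap k O (ev i f) ∈ RingHom.ker (ev i) := by
      rw [RingHom.mem_ker, map_sub, AlgHom.commutes]
      exact sub_self _
    rw [he, RingHom.mem_ker, map_sub, AlgHom.commutes] at h1
    exact (sub_eq_zero.1 h1).symm
  exact Ideal.isCoprime_iff_sup_eq.2 ((hmax i).coprime_of_ne (hmax j) hne)

end

theorem exists_scale {k K : Type} [Field k] [Field K] [Algebra k K] (O : Subalgebra k K)
    [IsDedekindDomain O] (hfrac : ∀ f : K, ∃ b : O, b ≠ 0 ∧ f * b ∈ O) {r : ℕ}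
    (A : Fin r → ValuationSubring K) (hOA : ∀ j, ∀ f ∈ O, f ∈ A j) (ev : Fin r → (O →ₐ[k] k))
    (hinj : Function.Injective ev) (hev : ∀ j (f : O), ev j f = 0 ↔ (A j).valuation (f : K) < 1)
    (π : Fin r → K) (hπ : ∀ j, Pole O (ev j) (π j)) (c : Fin r → K) (hc : ∀ j, c j ≠ 0)
    (S : Finset K) (hS : ∀ j, ∀ f ∈ S, c j * f ∈ A j) :
    ∃ d : K, (∀ f ∈ S, d * f ∈ O) ∧ ∀ j, (A j).valuation d = (A j).valuation (c j) := by
  classical
  have hone : ∀ j (b : O), ev j b ≠ 0 → (A j).valuation (b : K) = 1 := fun j b hb =>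
    MF5_one O (A j) (hOA j) (ev j) (hev j) b hb
  choose h h0 hK e1 hadd using fun j => MF5_pole O (A j) (hOA j) (ev j) (hev j) (π j) (hπ j)
  -- the functions `u j`
  have hu : ∀ j, ∃ u : O, (A j).valuation (u : K) = (A j).valuation (h j : K) ∧
      ∀ i, i ≠ j → (A i).valuation (u : K) = 1 := by
    intro j
    obtain ⟨u, hu⟩ := MF5_crt O ev hinj (fun i => if i = j then h j else 1)
    refine ⟨u, ?_, ?_⟩
    · have h1 := hu j
      rw [if_pos rfl] at h1
      have h2 := hadd j _ h1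
      rwa [add_sub_cancel] at h2
    · intro i hij
      have h1 := hu i
      rw [if_neg hij] at h1
      have h2 : u - 1 ∈ RingHom.ker (ev i) := Ideal.pow_le_self two_ne_zero h1
      apply hone
      rw [RingHom.mem_ker, map_sub, map_one, sub_eq_zero] at h2
      rw [h2]
      exact one_ne_zero
  choose u hu1 hu2 using hu
  -- the orders of the `c j`
  have hn : ∀ j, ∃ n : ℤ, (A j).valuation (c j) = (A j).valuation (h j : K) ^ n := by
    intro j
    obtain ⟨a, b, i, l, ha, hb, hab⟩ := pole_val O hfrac (ev j) (π j) (hπ j) (c j) (hc j)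
    have h1 := congrArg (A j).valuation hab
    rw [map_mul, map_mul, map_mul, map_pow, map_pow, hone j a ha, hone j b hb, mul_one,
      one_mul] at h1
    have hhne : (A j).valuation (h j : K) ≠ 0 := left_ne_zero_of_mul_eq_one (e1 j)
    have hπne : (A j).valuation (π j) ≠ 0 := right_ne_zero_of_mul_eq_one (e1 j)
    have h2 : (A j).valuation (h j : K) = ((A j).valuation (π j))⁻¹ := eq_inv_of_mul_eq_one_left (e1 j)
    refine ⟨(i : ℤ) - l, ?_⟩
    rw [h2, inv_zpow', neg_sub, zpow_sub₀ hπne, zpow_natCast, zpow_natCast, ← h1]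
    rw [mul_div_assoc, div_self (pow_ne_zero _ hπne), mul_one]
  choose n hn using hn
  have hd0 : ∀ j, (A j).valuation (∏ i, (u i : K) ^ n i) = (A j).valuation (c j) := by
    intro j
    rw [map_prod, Finset.prod_eq_single j]
    · rw [map_zpow₀, hu1, hn]
    · intro i _ hij
      rw [map_zpow₀, hu2 i j (Ne.symm hij), one_zpow]
    · intro hj
      exact absurd (Finset.mem_univ j) hj
  obtain ⟨d0, hd0'⟩ : ∃ d0 : K, d0 = ∏ i, (u i : K) ^ n i := ⟨_, rfl⟩
  rw [← hd0'] at hd0
  -- denominators at one place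
  have hb : ∀ j, ∃ b : O, ev j b ≠ 0 ∧ ∀ f ∈ S, d0 * f * b ∈ O := by
    intro j
    have hb1 : ∀ f ∈ S, ∃ b : O, ev j b ≠ 0 ∧ d0 * f * b ∈ O := by
      intro f hf
      refine pl_loc O hfrac (A j) (hOA j) (ev j) (hev j) (π j) (hπ j) _ ?_
      rw [← (A j).valuation_le_one_iff, map_mul, hd0 j, ← map_mul, (A j).valuation_le_one_iff]
      exact hS j f hf
    choose! bf hbf1 hbf2 using hb1
    refine ⟨∏ f ∈ S, bf f, ?_, ?_⟩
    · rw [map_prod]
      exact Finset.prod_ne_zero_iff.2 fun f hf => hbf1 f hf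
    · intro f hf
      obtain ⟨q, hq⟩ := Finset.dvd_prod_of_mem bf hf
      rw [hq, MulMemClass.coe_mul, ← mul_assoc]
      exact O.mul_mem (hbf2 f hf) q.2
  choose b hb1 hb2 using hb
  have he : ∀ j, ∃ e : O, ev j e = 1 ∧ ∀ i, i ≠ j → ev i e = 0 := by
    intro j
    obtain ⟨e, he⟩ := MF5_crt O ev hinj (fun i => if i = j then 1 else 0)
    refine ⟨e, ?_, ?_⟩
    · have h1 := Ideal.pow_le_self two_ne_zero (he j)
      rw [if_pos rfl, RingHom.mem_ker, map_sub, map_one, sub_eq_zero] at h1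
      exact h1
    · intro i hij
      have h1 := Ideal.pow_le_self two_ne_zero (he i)
      rw [if_neg hij, RingHom.mem_ker, sub_zero] at h1
      exact h1
  choose e he1 he2 using he
  refine ⟨(∑ j, e j * b j : O) * d0, ?_, ?_⟩
  · intro f hf
    have h1 : ((∑ j, e j * b j : O) : K) * d0 * f = ∑ j, (e j : K) * (d0 * f * b j) := by
      rw [AddSubmonoidClass.coe_finsetSum, Finset.sum_mul, Finset.sum_mul]
      refine Finset.sum_congr rfl fun j _ => ?_
      rw [MulMemClass.coe_mul]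
      ring
    rw [h1]
    exact O.sum_mem fun j _ => O.mul_mem (e j).2 (hb2 j f hf)
  · intro j
    rw [map_mul, hd0 j, hone j, one_mul]
    rw [map_sum, Finset.sum_eq_single j]
    · rw [map_mul, he1, one_mul]
      exact hb1 j
    · intro i _ hij
      rw [map_mul, he2 i j (Ne.symm hij), zero_mul]
    · intro hj
      exact absurd (Finset.mem_univ j) hj

end Q9
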