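import Pool.Agent.LibQ9.M10
import Pool.Agent.LibQ9.MF2
import Pool.Agent.LibQ9.MF3
import Pool.Agent.LibQ9.MF4
import Pool.Agent.LibQ9.MF5
import Pool.Agent.LibQ9.KT2
import Pool.Agent.LibQ9.KF
import Pool.Agent.LibQ9.HWA

/-!
LibQ9, block M: weak approximation at the places of good reduction, all function fields.
-/

set_option autoImplicit false

namespace Q9

open MvPolynomial

section

variable {k K : Type} [Field k] [Field K] [Algebra k K]

private theorem MFin_lift (O : Subalgebra k K) {σ : Type} (H : MvPolynomial σ K)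
    (h : ∀ m, coeff m H ∈ O) : ∃ H' : MvPolynomial σ O, map (O.subtype : O →+* K) H' = H := by
  refine ⟨∑ m ∈ H.support, monomial m ⟨coeff m H, h m⟩, ?_⟩
  rw [map_sum]
  conv_rhs => rw [H.as_sum]
  refine Finset.sum_congr rfl fun m _ => ?_
  rw [map_monomial]
  rfl

private theorem MFin_den (O : Subalgebra k K) (hfrac : ∀ f : K, ∃ b : O, b ≠ 0 ∧ f * b ∈ O)
    {m : ℕ} (P : Fin m → K) : ∃ b : O, b ≠ 0 ∧ ∀ a, P a * b ∈ O := by
  choose b hb hbP using fun a => hfrac (P a)
  refine ⟨∏ a, b a, Finset.prod_ne_zero_iff.2 fun a _ => hb a, fun a => ?_⟩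
  rw [← Finset.mul_prod_erase _ _ (Finset.mem_univ a), MulMemClass.coe_mul, ← mul_assoc]
  exact O.mul_mem (hbP a) (Subtype.mem _)

/-- the inclusion of `O` in a valuation ring -/
private def MFin_inc (O : Subalgebra k K) (A : ValuationSubring K) (h : ∀ f ∈ O, f ∈ A) : O →+* A where
  toFun f := ⟨(f : K), h f f.2⟩
  map_one' := rfl
  map_mul' _ _ := rfl
  map_zero' := rfl
  map_add' _ _ := rfl

private theorem MFin_ev {R S : Type} [CommRing R] [CommRing S] {σ : Type} (φ : R →+* S)
    (x : σ → R) (p : MvPolynomial σ R) :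
    eval (fun a => φ (x a)) (map φ p) = φ (eval x p) := by
  induction p using MvPolynomial.induction_on with
  | C a => simp
  | add p q hp hq => simp [hp, hq]
  | mul_X p i hp => simp [hp]

private theorem MFin_res (O : Subalgebra k K) (A : ValuationSubring K) (h : ∀ f ∈ O, f ∈ A)
    (ev : O →ₐ[k] k) (hev : ∀ f : O, ev f = 0 ↔ A.valuation (f : K) < 1) (f : O) :
    IsLocalRing.residue A (MFin_inc O A h f) =
      IsLocalRing.residue A (MFin_inc O A h (algebraMap k O (ev f))) := by
  rw [← sub_eq_zero, ← map_sub, ← map_sub, IsLocalRing.residue_eq_zero_iff,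
    ValuationSubring.valuation_lt_one_iff]
  change A.valuation ((f - algebraMap k O (ev f) : O) : K) < 1
  rw [← hev, map_sub, AlgHom.commutes, Algebra.algebraMap_self_apply, sub_self]

private theorem MFin_smooth (O : Subalgebra k K) (A : ValuationSubring K) (h : ∀ f ∈ O, f ∈ A)
    (ev : O →ₐ[k] k) (hev : ∀ f : O, ev f = 0 ↔ A.valuation (f : K) < 1) {n : ℕ}
    (F : MvPolynomial (Fin (n + 1)) O) (G : MvPolynomial (Fin (n + 1)) A) (u : A)
    (hFG : map (MFin_inc O A h) F = C u * G)
    (hgood : ∀ x : Fin (n + 1) → AlgebraicClosure (IsLocalRing.ResidueField A),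
      (∀ i, aeval x (pderiv i (map (IsLocalRing.residue A) G)) = 0) → x = 0)
    (hu : IsUnit u) : Smooth (map (ev : O →+* k) F) := by
  intro x hx
  let ψ : k →+* IsLocalRing.ResidueField A :=
    ((IsLocalRing.residue A).comp (MFin_inc O A h)).comp (algebraMap k O)
  have h0 : ψ.comp (ev : O →+* k) = (IsLocalRing.residue A).comp (MFin_inc O A h) :=
    RingHom.ext fun f => (MFin_res O A h ev hev f).symm
  have h1 : map ψ (map (ev : O →+* k) F) =
      C (IsLocalRing.residue A u) * map (IsLocalRing.residue A) G := by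
    rw [map_map, h0, ← map_map, hFG, map_mul, map_C]
  have hu' : IsLocalRing.residue A u ≠ 0 := (hu.map (IsLocalRing.residue A)).ne_zero
  have h2 : ∀ i, eval (fun a => ψ (x a)) (pderiv i (map (IsLocalRing.residue A) G)) = 0 := by
    intro i
    have h3 : eval (fun a => ψ (x a)) (pderiv i (map ψ (map (ev : O →+* k) F))) = 0 := by
      rw [pderiv_map, MFin_ev, hx i, map_zero]
    rw [h1, pderiv_C_mul, map_mul, eval_C] at h3
    exact (mul_eq_zero.1 h3).resolve_left hu'
  have h4 := hgood (fun a => algebraMap _ (AlgebraicClosure (IsLocalRing.ResidueField A)) (ψ (x a)))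
    (fun i => by
      have h5 := MFin_ev (algebraMap (IsLocalRing.ResidueField A)
        (AlgebraicClosure (IsLocalRing.ResidueField A))) (fun a => ψ (x a))
        (pderiv i (map (IsLocalRing.residue A) G))
      rw [h2 i, map_zero, eval_map] at h5
      exact h5)
  funext a
  have h6 := congrFun h4 a
  have h7 : ψ (x a) = 0 := (map_eq_zero (algebraMap (IsLocalRing.ResidueField A)
    (AlgebraicClosure (IsLocalRing.ResidueField A)))).1 h6
  exact (map_eq_zero ψ).1 h7

private theorem MFin_hom {R : Type} [CommRing R] {m n : ℕ} {F : MvPolynomial (Fin m) R}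
    (hF : F.IsHomogeneous n) (c : R) (x : Fin m → R) :
    eval (fun a => x a * c) F = c ^ n * eval x F := by
  rw [eval_eq', eval_eq', Finset.mul_sum]
  refine Finset.sum_congr rfl fun d hd => ?_
  have h : ∑ i, d i = n := by
    rw [← hF (mem_support_iff.1 hd)]
    simp [Finsupp.weight_apply, Finsupp.sum_fintype]
  simp_rw [mul_pow]
  rw [Finset.prod_mul_distrib, Finset.prod_pow_eq_pow_sum, h]
  ring

/-- values of congruent vectors are congruent -/
private theorem MFin_congr {R : Type} [CommRing R] (I : Ideal R) {m : ℕ}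
    (G : MvPolynomial (Fin m) R) (x y : Fin m → R) (h : ∀ a, x a - y a ∈ I) :
    eval x G - eval y G ∈ I := by
  rw [← Ideal.Quotient.eq_zero_iff_mem, map_sub, sub_eq_zero, ← MFin_ev, ← MFin_ev]
  congr 1
  have h1 : (fun a => Ideal.Quotient.mk I (x a)) = fun a => Ideal.Quotient.mk I (y a) := by
    funext a
    rw [← sub_eq_zero, ← map_sub]
    exact Ideal.Quotient.eq_zero_iff_mem.2 (h a)
  rw [h1]

end

/-- weak approximation at the places of good reduction -/
theorem weak_approx {p : ℕ} [Fact p.Prime] {n : ℕ} (hn : 4 ≤ n) (hp : n < p) {k K : Type}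
    [Field k] [IsAlgClosed k] [CharP k p] [Field K] [Algebra k K] [Algebra.EssFiniteType k K]
    (htr : Algebra.trdeg k K = 1) (F : MvPolynomial (Fin (n + 1)) K) (hF : F.IsHomogeneous n)
    (hs : ∀ x : Fin (n + 1) → AlgebraicClosure K, (∀ i, aeval x (pderiv i F) = 0) → x = 0)
    {r : ℕ} (A : Fin r → ValuationSubring K) (hA : Function.Injective A)
    (hk : ∀ j (c : k), algebraMap k K c ∈ A j) (hA1 : ∀ j, A j ≠ ⊤) (c : Fin r → K)
    (hc : ∀ j, c j ≠ 0) (G : ∀ j, MvPolynomial (Fin (n + 1)) (A j))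
    (hG : ∀ j, map (algebraMap (A j) K) (G j) = C (c j) * F)
    (hgood : ∀ j, ∀ x : Fin (n + 1) → AlgebraicClosure (IsLocalRing.ResidueField (A j)),
      (∀ i, aeval x (pderiv i (map (IsLocalRing.residue (A j)) (G j))) = 0) → x = 0)
    (N : ℕ) (x : ∀ j, Fin (n + 1) → A j) (hx : ∀ j, ∃ i, x j i ∉ IsLocalRing.maximalIdeal (A j))
    (hxG : ∀ j, eval (x j) (G j) ∈ IsLocalRing.maximalIdeal (A j) ^ N) :
    ∃ X : Fin (n + 1) → K, X ≠ 0 ∧ eval X F = 0 ∧ ∀ j, ∃ Y : Fin (n + 1) → A j,
      (∀ i, (Y i : K) = X i) ∧ ∀ i, Y i - x j i ∈ IsLocalRing.maximalIdeal (A j) ^ N := by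
  classical
  obtain ⟨g, hg⟩ := exists_gn_pl htr A hk
  have hded := OI_dedekind g
  have hfrac := OI_frac g
  choose hOA ev hev using fun j => exists_ev_val g (A j) (hk j) (hg j) (hA1 j)
  choose π hπ using fun j => (mdlG g).plc (ev j)
  -- a point over `K`
  obtain ⟨P, hP0, hP⟩ : ∃ P : Fin (n + 1) → OI g, P ≠ 0 ∧ eval (fun a => (P a : K)) F = 0 := by
    obtain ⟨_, h1, h2, h3⟩ := exists_ratfunc (k := k) (K := K) htr
    obtain ⟨P₀, hP₀, hP₀F⟩ := tsen (k := k) (K := K) (n := n) (by omega) F hF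
    obtain ⟨b, hb, hbP⟩ := MFin_den (OI g) hfrac P₀
    refine ⟨fun a => ⟨P₀ a * b, hbP a⟩, ?_, ?_⟩
    · intro h
      apply hP₀
      funext a
      have h4 := congrArg Subtype.val (congrFun h a)
      have h5 : P₀ a * b = 0 := h4
      rcases mul_eq_zero.1 h5 with h6 | h6
      · exact h6
      · exact absurd (Subtype.ext h6) hb
    · change eval (fun a => P₀ a * (b : K)) F = 0
      rw [MFin_hom hF, hP₀F, mul_zero]
  -- the trivial cases
  rcases Nat.eq_zero_or_pos r with hr | hr
  · subst hr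
    refine ⟨fun a => (P a : K), ?_, hP, fun j => j.elim0⟩
    intro h
    exact hP0 (funext fun a => Subtype.ext (congrFun h a))
  rcases Nat.eq_zero_or_pos N with hN | hN
  · subst hN
    refine ⟨fun a => (P a : K), ?_, hP, fun j => ⟨fun a => ⟨P a, hOA j _ (P a).2⟩, fun i => rfl,
      fun i => by rw [pow_zero, Ideal.one_eq_top]; exact Submodule.mem_top⟩⟩
    intro h
    exact hP0 (funext fun a => Subtype.ext (congrFun h a))
  -- the points are distinct
  have hinj : Function.Injective ev := by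
    intro i j hij
    apply hA
    have key : ∀ i j, ev i = ev j → A i ≤ A j := by
      intro i j hij a ha
      obtain ⟨b, hb, hab⟩ := pl_loc (OI g) hfrac (A i) (hOA i) (ev i) (hev i) (π i) (hπ i) a ha
      rw [hij] at hb
      have h1 : (A j).valuation (b : K) = 1 := by
        refine le_antisymm ((ValuationSubring.valuation_le_one_iff _ _).2 (hOA j _ b.2)) ?_
        exact not_lt.1 fun h => hb ((hev j b).2 h)
      have h2 : (A j).valuation (a * b) ≤ 1 := (ValuationSubring.valuation_le_one_iff _ _).2 (hOA j _ hab)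
      rw [map_mul, h1, mul_one] at h2
      exact (ValuationSubring.valuation_le_one_iff _ _).1 h2
    exact le_antisymm (key i j hij) (key j i hij.symm)
  -- scaling
  have hcoef : ∀ j m, ((coeff m (G j) : A j) : K) = c j * coeff m F := by
    intro j m
    have h := congrArg (coeff m) (hG j)
    rw [coeff_map, coeff_C_mul] at h
    exact h
  obtain ⟨d, hdO, hd⟩ := exists_scale (OI g) hfrac A hOA ev hinj hev π hπ c hc
    (F.support.image fun m => coeff m F) (by
      intro j f hf
      obtain ⟨m, _, rfl⟩ := Finset.mem_image.1 hf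
      rw [← hcoef]
      exact (coeff m (G j)).2)
  have hd0 : d ≠ 0 := by
    intro h
    have h1 := hd ⟨0, hr⟩
    rw [h, map_zero] at h1
    exact hc _ (((A ⟨0, hr⟩).valuation.zero_iff).1 h1.symm)
  obtain ⟨F', hF'⟩ := MFin_lift (OI g) (C d * F) (by
    intro m
    rw [coeff_C_mul]
    by_cases hm : m ∈ F.support
    · exact hdO _ (Finset.mem_image.2 ⟨m, hm, rfl⟩)
    · rw [notMem_support_iff.1 hm, mul_zero]
      exact (OI g).zero_mem)
  have hsub : Function.Injective ((OI g).subtype : OI g →+* K) := Subtype.val_injective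
  have hF'h : F'.IsHomogeneous n := by
    intro m hm
    apply hF
    intro h0
    apply hm
    apply hsub
    rw [map_zero, ← coeff_map, hF', coeff_C_mul, h0, mul_zero]
  have hs' : ∀ x : Fin (n + 1) → AlgebraicClosure K,
      (∀ i, aeval x (pderiv i (map ((OI g).subtype : OI g →+* K) F')) = 0) → x = 0 := by
    intro x hx
    apply hs
    intro i
    have h := hx i
    rw [hF', pderiv_C_mul, map_mul, aeval_C] at h
    exact (mul_eq_zero.1 h).resolve_left fun h1 => hd0 ((map_eq_zero _).1 h1)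
  have hval : ∀ Q : Fin (n + 1) → OI g, ((eval Q F' : OI g) : K) = d * eval (fun a => (Q a : K)) F := by
    intro Q
    have h := MFin_ev ((OI g).subtype : OI g →+* K) Q F'
    rw [hF', map_mul, eval_C] at h
    exact h.symm
  have hP' : eval P F' = 0 := by
    apply hsub
    exact (hval P).trans (mul_eq_zero_of_right _ hP)
  -- the units `d / c j`
  have hu : ∀ j, ∃ u : A j, IsUnit u ∧ (u : K) * c j = d := by
    intro j
    have h1 : (A j).valuation (d / c j) = 1 := by
      rw [map_div₀, hd j, div_self]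
      exact ((A j).valuation.ne_zero_iff).2 (hc j)
    refine ⟨⟨d / c j, (ValuationSubring.valuation_le_one_iff _ _).1 h1.le⟩, ?_, ?_⟩
    · exact (ValuationSubring.valuation_eq_one_iff _ _).2 h1
    · exact div_mul_cancel₀ d (hc j)
  choose u hu hud using hu
  have hFG : ∀ j, map (MFin_inc (OI g) (A j) (hOA j)) F' = C (u j) * G j := by
    intro j
    have h1 : Function.Injective (algebraMap (A j) K) := Subtype.val_injective
    apply map_injective _ h1
    rw [map_map, map_mul, map_C, hG j, ← mul_assoc, ← C_mul]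
    have h2 : algebraMap (A j) K (u j) * c j = d := hud j
    rw [h2, ← hF']
    rfl
  have hgood' : ∀ j, Smooth (map (ev j : OI g →+* k) F') := fun j =>
    MFin_smooth (OI g) (A j) (hOA j) (ev j) (hev j) F' (G j) (u j) (hFG j) (hgood j) (hu j)
  -- approximation of the jets
  choose y hy using fun j a => pl_approx (OI g) hfrac (A j) (hOA j) (ev j) (hev j) (π j) (hπ j) N (x j a)
  have hpow : ∀ j (f : OI g), MFin_inc (OI g) (A j) (hOA j) f ∈
      IsLocalRing.maximalIdeal (A j) ^ N ↔ f ∈ RingHom.ker (ev j) ^ N := fun j f =>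
    pl_pow (OI g) hfrac (A j) (hOA j) (ev j) (hev j) (π j) (hπ j) N f
  have hmax : ∀ j (z : A j), z ∈ IsLocalRing.maximalIdeal (A j) ^ N →
      z ∈ IsLocalRing.maximalIdeal (A j) := fun j z hz => Ideal.pow_le_self (by omega) hz
  have hy0 : ∀ j, ∃ a, ev j (y j a) ≠ 0 := by
    intro j
    obtain ⟨a, ha⟩ := hx j
    refine ⟨a, fun h => ha ?_⟩
    have h1 : MFin_inc (OI g) (A j) (hOA j) (y j a) ∈ IsLocalRing.maximalIdeal (A j) :=
      (ValuationSubring.valuation_lt_one_iff _ _).2 ((hev j _).1 h)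
    have h2 := (IsLocalRing.maximalIdeal (A j)).add_mem (hmax j _ (hy j a)) h1
    have h3 : x j a - ⟨(y j a : K), hOA j _ (y j a).2⟩ + MFin_inc (OI g) (A j) (hOA j) (y j a) =
        x j a := sub_add_cancel _ _
    rwa [h3] at h2
  have hyF : ∀ j, eval (y j) F' ∈ RingHom.ker (ev j) ^ N := by
    intro j
    rw [← hpow, ← MFin_ev, hFG, map_mul, eval_C]
    refine Ideal.mul_mem_left _ _ ?_
    have h1 := MFin_congr (IsLocalRing.maximalIdeal (A j) ^ N) (G j) (x j)
      (fun a => MFin_inc (OI g) (A j) (hOA j) (y j a)) (hy j)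
    have h2 := Ideal.sub_mem _ (hxG j) h1
    rwa [sub_sub_cancel] at h2
  obtain ⟨X, hX0, hXF, hXy⟩ : ∃ X : Fin (n + 1) → OI g, X ≠ 0 ∧ eval X F' = 0 ∧
      ∀ j a, X a - y j a ∈ RingHom.ker (ev j) ^ N := wa_mdl (mdlG g) hn hp F' hF'h hs' P hP0 hP' ev hinj hgood' N hN y hy0 hyF
  refine ⟨fun a => (X a : K), ?_, ?_, fun j => ⟨fun a => MFin_inc (OI g) (A j) (hOA j) (X a),
    fun a => rfl, fun a => ?_⟩⟩
  · intro h
    exact hX0 (funext fun a => Subtype.ext (congrFun h a))
  · have h1 : ((eval X F' : OI g) : K) = 0 := congrArg Subtype.val hXF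
    rw [hval] at h1
    exact (mul_eq_zero.1 h1).resolve_left hd0
  · have h1 := (hpow j _).2 (hXy j a)
    have h2 := Ideal.sub_mem _ h1 (hy j a)
    have h3 : MFin_inc (OI g) (A j) (hOA j) (X a - y j a) - (x j a - ⟨(y j a : K), hOA j _ (y j a).2⟩) =
        MFin_inc (OI g) (A j) (hOA j) (X a) - x j a := by
      rw [map_sub]
      exact sub_sub_sub_cancel_right _ _ _
    rwa [h3] at h2

end Q9
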