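import Pool.Agent.LibQ9.PDefs

/-!
[Q9 P1] (SHORT/MEDIUM) The maximal ideal of a rational point has height (at least) the number of variables.

PLAN. `I` is finite; transport to `Fin N` by an equivalence (or induct on a `Finset`). The primes `Q_j` = kernel of the map `k[X] → k[X]` (or to `MvPolynomial` over the remaining
variables) `X_i ↦ z₀ i` for `i < j`, `X_i ↦ X_i` for `i ≥ j` form a strictly increasing chain `Q_0 < Q_1 < ... < Q_N = ker (eval z₀)` (`X_j - z₀ j` is in `Q_{j+1}`, not in `Q_j`); each is
prime as kernel of a map to a domain. So there is an `LTSeries (PrimeSpectrum _)` of length `N` ending in `ker (eval z₀)` and `Order.length_le_height` / `Ideal.height` (see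
`Mathlib/RingTheory/Ideal/Height.lean`) gives the claim. Alternatives: `Polynomial.height_eq_height_add_one` type lemmas of `Mathlib/RingTheory/KrullDimension/Polynomial.lean`, or regularity
(`MvPolynomial.isRegularRing_of_isRegularRing`).
-/

set_option autoImplicit false

namespace Q9

open MvPolynomial

open Classical in
private theorem P1_aux {k : Type} [Field k] {I : Type} (z₀ : I → k) (S : Finset I) :
    (S.card : ℕ∞) ≤ (RingHom.ker (aeval (fun i => if i ∈ S then C (z₀ i) else X i) :
      MvPolynomial I k →ₐ[k] MvPolynomial I k)).height := by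
  induction S using Finset.induction_on with
  | empty => simp
  | insert a S ha ih =>
    rw [Finset.card_insert_of_notMem ha, Nat.cast_add, Nat.cast_one]
    set f : MvPolynomial I k →ₐ[k] MvPolynomial I k :=
      aeval (fun i => if i ∈ S then C (z₀ i) else X i) with hf
    set g : MvPolynomial I k →ₐ[k] MvPolynomial I k :=
      aeval (fun i => if i ∈ insert a S then C (z₀ i) else X i) with hg
    have hfp : (RingHom.ker f).IsPrime := RingHom.ker_isPrime f
    have hgp : (RingHom.ker g).IsPrime := RingHom.ker_isPrime g
    have hgf : ∀ P, g (f P) = g P := by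
      intro P
      have h1 : g.comp f = g := by
        refine MvPolynomial.algHom_ext fun i => ?_
        rw [AlgHom.comp_apply, hf, aeval_X]
        by_cases hi : i ∈ S
        · rw [if_pos hi, hg, aeval_X, if_pos (Finset.mem_insert_of_mem hi)]
          exact (aeval_C _ _)
        · rw [if_neg hi]
      exact DFunLike.congr_fun h1 P
    have hlt : RingHom.ker f < RingHom.ker g := by
      refine lt_of_le_of_ne ?_ ?_
      · intro P hP
        rw [RingHom.mem_ker] at hP ⊢
        rw [← hgf, hP, map_zero]
      · intro h
        have h1 : (X a - C (z₀ a) : MvPolynomial I k) ∈ RingHom.ker g := by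
          rw [RingHom.mem_ker, map_sub, hg, aeval_X, if_pos (Finset.mem_insert_self a S), aeval_C]
          exact sub_self _
        rw [← h, RingHom.mem_ker, map_sub, hf, aeval_X, if_neg ha, aeval_C] at h1
        have h2 := congrArg (MvPolynomial.coeff (Finsupp.single a 1)) h1
        rw [coeff_sub, coeff_X, coeff_zero, MvPolynomial.algebraMap_eq, coeff_C] at h2
        rw [if_pos rfl, if_neg (by
          intro h3
          have h4 := DFunLike.congr_fun h3 a
          simp at h4)] at h2
        simp at h2
    have h1 : (RingHom.ker f).height + 1 ≤ (RingHom.ker g).height := by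
      exact Ideal.height_add_one_le_of_lt_of_isPrime hlt
    exact (add_le_add_left ih 1).trans h1

theorem height_ker_eval {k : Type} [Field k] {I : Type} [Fintype I] (z₀ : I → k) :
    (Fintype.card I : ℕ∞) ≤ (RingHom.ker (eval z₀ : MvPolynomial I k →+* k)).height := by
  classical
  have h := P1_aux z₀ (Finset.univ : Finset I)
  rw [Finset.card_univ] at h
  refine h.trans (Ideal.height_mono ?_)
  intro P hP
  rw [RingHom.mem_ker] at hP ⊢
  have h1 : (aeval z₀ : MvPolynomial I k →ₐ[k] k).comp (aeval (fun i => if i ∈ (Finset.univ : Finset I)
      then C (z₀ i) else X i) : MvPolynomial I k →ₐ[k] MvPolynomial I k) = aeval z₀ := by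
    refine MvPolynomial.algHom_ext fun i => ?_
    rw [AlgHom.comp_apply, aeval_X, if_pos (Finset.mem_univ i), aeval_C, aeval_X]
    rfl
  have h2 := DFunLike.congr_fun h1 P
  rw [AlgHom.comp_apply, hP, map_zero] at h2
  rw [MvPolynomial.aeval_eq_eval] at h2
  exact h2.symm

end Q9
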