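import Pool.Agent.LibQ9.S5
import Pool.Agent.LibQ9.S6
import Pool.Agent.LibQ9.S7b
import Pool.Agent.LibQ9.TG
import Pool.Agent.LibQ9.B4
import Pool.Agent.LibQ9.P7

/-!
[Q9 SFin] (SHORT/MEDIUM; assembly of block S: may cite S0, S1, S5, S6, S7b, TG, T0, B2, B3, B4, P6, P7 as stated) A very free curve gives a free curve through every point.

PLAN. `F ≠ 0` (`Smooth`: otherwise all partials vanish at `(1,..,1)`), `span {F}` prime (P7). Let `d`, `γ₀` be very free, `q = vc γ₀ 0 ≠ 0` (B2 `Free.zero_ne`). S6: `Ω`, `γ`, `n ≤ td k (vc γ d)`; `F(vc γ d) = 0` (coefficient of `X^(nd)` of `F(γ) = 0`), so `Gen F (vc γ d)` (TG `gen_of_td`). S7b: `κ`, `p₁`, `p₂`, `c₁`, `c₂`. `F' = map (algebraMap k κ) F` is a form of degree `n`, `Smooth F'` (P6 `sm_of_smooth`, T0 `sm_bc`, `Sm.zero`).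
`VF F' (q over κ)`: the curve `mp (algebraMap k κ) γ₀` is free and `Cor 0` for `F` over `κ` (B3 `Free.map`, `Cor.map` with `Algebra.ofId k κ`), so for `F'` (T0 `free_bc`, `cor_bc`), S1 `vf_of_very_free` over `κ`. `vf_smul`: `VF F' (c₁ q)`; S5 `chain_vf`, `curve_vf`, `chain_vf`: `VF F' (c₂ x)`, so `VF F' x` (`vf_smul` with `c₂⁻¹`). S0 `vf_exists_free`: a free curve for `F'` over `κ` with value `x` at `0`; T0 `free_bc`: free for `F`;
B4 `free_transfer`: a free curve over `k` with value `x` at `0`.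
-/

set_option autoImplicit false

namespace Q9

open Polynomial

private theorem SFin_prod {κ : Type} [Field κ] {n : ℕ} (d : ℕ) (γ : Fin (n + 1) → κ[X])
    (hγ : ∀ i, (γ i).natDegree ≤ d) (m : Fin (n + 1) → ℕ) (s : Finset (Fin (n + 1))) :
    (∏ i ∈ s, γ i ^ m i).natDegree ≤ (∑ i ∈ s, m i) * d ∧
      (∏ i ∈ s, γ i ^ m i).coeff ((∑ i ∈ s, m i) * d) = ∏ i ∈ s, (γ i).coeff d ^ m i := by
  classical
  induction s using Finset.induction_on with
  | empty => simp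
  | insert a s ha ih =>
    have h1 : (γ a ^ m a).natDegree ≤ m a * d :=
      natDegree_pow_le.trans (Nat.mul_le_mul_left _ (hγ a))
    rw [Finset.prod_insert ha, Finset.sum_insert ha, Finset.prod_insert ha, add_mul]
    refine ⟨natDegree_mul_le.trans (add_le_add h1 ih.1), ?_⟩
    rw [coeff_mul_add_eq_of_natDegree_le h1 ih.1, ih.2, coeff_pow_of_natDegree_le (hγ a)]

private theorem SFin_top {k : Type} [Field k] {n : ℕ} (F : MvPolynomial (Fin (n + 1)) k)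
    (hF : F.IsHomogeneous n) {κ : Type} [Field κ] [Algebra k κ] (d : ℕ) (γ : Fin (n + 1) → κ[X])
    (hγ : ∀ i, (γ i).natDegree ≤ d) :
    (MvPolynomial.aeval γ F).coeff (n * d) = MvPolynomial.aeval (vc γ d) F := by
  rw [MvPolynomial.aeval_def, MvPolynomial.aeval_def, MvPolynomial.eval₂_eq', MvPolynomial.eval₂_eq',
    finsetSum_coeff]
  refine Finset.sum_congr rfl fun m hm => ?_
  have hdeg : ∑ i, m i = n := by
    have h1 : Finsupp.weight (fun _ : Fin (n + 1) => 1) m = n := hF (MvPolynomial.mem_support_iff.1 hm)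
    rw [← Finsupp.degree_eq_weight_one, Finsupp.degree_eq_sum] at h1
    exact h1
  have h2 := (SFin_prod d γ hγ m Finset.univ).2
  rw [hdeg] at h2
  rw [show algebraMap k κ[X] (MvPolynomial.coeff m F) = C (algebraMap k κ (MvPolynomial.coeff m F)) from rfl,
    coeff_C_mul, h2]
  rfl

theorem free_through {k : Type} [Field k] [IsAlgClosed k] {n : ℕ} (hn : 2 ≤ n)
    (F : MvPolynomial (Fin (n + 1)) k) (hF : F.IsHomogeneous n) (hs : Smooth F)
    (h : ∃ (d : ℕ) (γ : Fin (n + 1) → k[X]), Free F d γ ∧ Cor F d γ 0)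
    (x : Fin (n + 1) → k) (hx : x ≠ 0) (hx0 : MvPolynomial.aeval x F = 0) :
    ∃ (d : ℕ) (γ : Fin (n + 1) → k[X]), Free F d γ ∧ vc γ 0 = x := by
  have hF0 : F ≠ 0 := by
    rintro rfl
    have h1 : (fun _ : Fin (n + 1) => (1 : k)) = 0 := hs _ fun i => by simp
    exact one_ne_zero (congrFun h1 0)
  have hp : (Ideal.span {F}).IsPrime := prime_of_smooth hn F hF hs
  obtain ⟨d, γ₀, h₀, hc₀⟩ := h
  have hq : vc γ₀ 0 ≠ 0 := Free.zero_ne F hn hF h₀
  obtain ⟨Ω, _, _, γ, hcl, hγ, h0, htd⟩ := generic_far hn F hF d γ₀ h₀ hc₀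
  have htop : MvPolynomial.aeval (vc γ d) F = 0 := by
    rw [← SFin_top F hF d γ hγ.1, hγ.2, coeff_zero]
  have hgen : Gen F (vc γ d) := gen_of_td F hF0 _ htop htd
  obtain ⟨κ, _, _, m₁, m₂, m₃, p₁, p₂, c₁, c₂, hclκ, hc₁, hc₂, hp₁, hp₂, hch₁, hcur, hch₃⟩ :=
    chain_to F hF d γ hγ (vc γ₀ 0) x hq hx hx0 h0 hgen
  have hF' : (MvPolynomial.map (algebraMap k κ) F).IsHomogeneous n := hF.map _
  have hs' : Smooth (MvPolynomial.map (algebraMap k κ) F) := by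
    intro y hy
    refine (sm_bc F (κ := κ) (sm_of_smooth F hs)).zero y fun i => ?_
    exact hy i
  have hf1 : Free F d (mp ((Algebra.ofId k κ : k →ₐ[k] κ) : k →+* κ) γ₀) := Free.map F _ h₀
  have hc1 : Cor F d (mp ((Algebra.ofId k κ : k →ₐ[k] κ) : k →+* κ) γ₀) 0 := Cor.map F _ hc₀
  have hv0 := vf_of_very_free hn (MvPolynomial.map (algebraMap k κ) F) hF' d _
    ((free_bc F (κ := κ) (Ω := κ) d _).2 hf1) ((cor_bc F (κ := κ) (Ω := κ) d 0 _).2 hc1)
  have hvq : vc (mp ((Algebra.ofId k κ : k →ₐ[k] κ) : k →+* κ) γ₀) 0 =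
      fun i => algebraMap k κ (vc γ₀ 0 i) := by
    funext i
    show ((γ₀ i).map _).coeff 0 = _
    rw [coeff_map]
    rfl
  rw [hvq] at hv0
  have hv1 : VF (MvPolynomial.map (algebraMap k κ) F) (fun i => c₁ * algebraMap k κ (vc γ₀ 0 i)) :=
    vf_smul _ hF' _ hv0 c₁ hc₁
  have hv2 := (chain_vf hn _ hF' hs' m₁ p₁ _ hch₁).2 hv1
  have hv3 := (curve_vf hn _ hF' hs' m₂ p₂ p₁ hp₂ hp₁ hcur).2 hv2
  have hv4 := (chain_vf hn _ hF' hs' m₃ p₂ _ hch₃).1 hv3
  have hv5 := vf_smul _ hF' _ hv4 c₂⁻¹ (inv_ne_zero hc₂)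
  have hxx : (c₂⁻¹ • fun i => c₂ * algebraMap k κ (x i)) = fun i => algebraMap k κ (x i) := by
    funext i
    show c₂⁻¹ * (c₂ * algebraMap k κ (x i)) = _
    rw [← mul_assoc, inv_mul_cancel₀ hc₂, one_mul]
  rw [hxx] at hv5
  obtain ⟨e, δ, hδ, hδ0⟩ := vf_exists_free hn _ _ hv5
  obtain ⟨γ', hγ', hcoef⟩ := free_transfer F e δ ((free_bc F (κ := κ) (Ω := κ) e δ).1 hδ)
  refine ⟨e, γ', hγ', ?_⟩
  funext i
  exact hcoef i 0 (x i) (congrFun hδ0 i)

end Q9
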