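import Pool.Agent.LibQ9.UFin
import Pool.Agent.LibQ9.TFin
import Pool.Agent.LibQ9.B10
import Pool.Agent.LibQ9.SFin
import Pool.Agent.LibQ9.KFin
import Pool.Agent.LibQ9.KT2
import Pool.Agent.LibQ9.KF
import Pool.Agent.LibQ9.T0

/-!
# LibQ9: smooth hypersurfaces of degree `n` in `P^n` over function fields, `4 ≤ n < p`, have infinitely many points
-/

set_option autoImplicit false

namespace Q9

open Polynomial

/-- a smooth hypersurface of degree `n` in `P^n` over an algebraically closed field of characteristic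
`p`, `4 ≤ n < p`, contains a free and very free curve -/
theorem exists_very_free (p : ℕ) [Fact p.Prime] {n : ℕ} (hn : 4 ≤ n) (hp : n < p) {k : Type}
    [Field k] [IsAlgClosed k] [CharP k p] (F : MvPolynomial (Fin (n + 1)) k)
    (hF : F.IsHomogeneous n) (hs : Smooth F) :
    ∃ (d : ℕ) (γ : Fin (n + 1) → k[X]), Free F d γ ∧ Cor F d γ 0 := by
  have hn0 : (n : k) ≠ 0 := by
    rw [Ne, CharP.cast_eq_zero_iff k p]
    intro h
    exact absurd (Nat.le_of_dvd (by omega) h) (by omega)
  exact very_free hn hn0 F hF hs (hu hn hn0 F hF hs) (exists_free p (by omega) hp F hF hs)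

/-- the form over the function field -/
theorem points_of_sep (p : ℕ) [Fact p.Prime] {n : ℕ} (hn : 4 ≤ n) (hp : n < p) {k : Type}
    [Field k] [IsAlgClosed k] [CharP k p] {K : Type} [Field K] [Algebra (RatFunc k) K]
    [FiniteDimensional (RatFunc k) K] [Algebra.IsSeparable (RatFunc k) K]
    (F : MvPolynomial (Fin (n + 1)) K) (hF : F.IsHomogeneous n)
    (hs : ∀ x : Fin (n + 1) → AlgebraicClosure K,
      (∀ i, MvPolynomial.aeval x (MvPolynomial.pderiv i F) = 0) → x = 0)
    (S : Finset (Fin (n + 1) → K)) :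
    ∃ Q : Fin (n + 1) → K, Q ≠ 0 ∧ MvPolynomial.aeval Q F = 0 ∧
      ∀ R ∈ S, ∀ c : K, Q ≠ fun i => c * R i := by
  obtain ⟨P, hP, hP0⟩ := tsen (k := k) (by omega) F hF
  have hK : CharP K p :=
    charP_of_injective_ringHom (f := (algebraMap (RatFunc k) K).comp
      (algebraMap k (RatFunc k))) (RingHom.injective _) p
  have hL : CharP (AlgebraicClosure K) p :=
    charP_of_injective_ringHom (f := algebraMap K (AlgebraicClosure K)) (RingHom.injective _) p
  let F' : MvPolynomial (Fin (n + 1)) (AlgebraicClosure K) :=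
    MvPolynomial.map (algebraMap K (AlgebraicClosure K)) F
  have hF' : F'.IsHomogeneous n := hF.map _
  have hs' : Smooth F' := by
    intro x hx
    refine hs x fun i => ?_
    have h1 := hx i
    rw [MvPolynomial.pderiv_map, MvPolynomial.eval_map] at h1
    exact h1
  have hv := exists_very_free p hn hp F' hF' hs'
  refine infinite_points (k := k) (by omega) F hF P hP (by rw [← MvPolynomial.coe_aeval_eq_eval] at hP0; exact hP0) ?_ S
  intro Q hQ hQ0
  have hQ' : (fun i => algebraMap K (AlgebraicClosure K) (Q i)) ≠ 0 := by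
    intro h
    apply hQ
    funext i
    have h1 := congrFun h i
    simpa using h1
  have hQ0' : MvPolynomial.aeval (fun i => algebraMap K (AlgebraicClosure K) (Q i)) F' = 0 := by
    have h1 : MvPolynomial.aeval (fun i => algebraMap K (AlgebraicClosure K) (Q i)) F' =
        algebraMap K (AlgebraicClosure K) (MvPolynomial.aeval Q F) := by
      change MvPolynomial.aeval _ (MvPolynomial.map _ F) = _
      rw [MvPolynomial.aeval_map_algebraMap]
      exact MvPolynomial.aeval_algebraMap_apply (AlgebraicClosure K) Q F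
    rw [h1, hQ0, map_zero]
  obtain ⟨d, γ, hγ, hγ0⟩ := free_through (by omega) F' hF' hs' hv _ hQ' hQ0'
  exact ⟨d, γ, (free_bc F d γ).1 hγ, hγ0⟩

/-- the statement for a function field of one variable -/
theorem infinitely_many (p : ℕ) [Fact p.Prime] {n : ℕ} (hn : 4 ≤ n) (hp : n < p) {k K : Type}
    [Field k] [IsAlgClosed k] [CharP k p] [Field K] [Algebra k K] [Algebra.EssFiniteType k K]
    (htr : Algebra.trdeg k K = 1)
    (F : MvPolynomial (Fin (n + 1)) K) (hF : F.IsHomogeneous n)
    (hs : ∀ x : Fin (n + 1) → AlgebraicClosure K,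
      (∀ i, MvPolynomial.aeval x (MvPolynomial.pderiv i F) = 0) → x = 0)
    (S : Finset (Fin (n + 1) → K)) :
    ∃ Q : Fin (n + 1) → K, Q ≠ 0 ∧ MvPolynomial.aeval Q F = 0 ∧
      ∀ R ∈ S, ∀ c : K, Q ≠ fun i => c * R i := by
  obtain ⟨_, _, _, _⟩ := exists_ratfunc htr
  exact points_of_sep (k := k) p hn hp F hF hs S

end Q9
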