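import Pool.Agent.LibQ9.S0
import Pool.Agent.LibQ9.T0
import Pool.Agent.LibQ9.P9

/-!
[Q9 S1] (MEDIUM; may cite S0, T0, P9 `tangent`, B2, B5 as stated) Directions of free curves through a point of a very free curve span the tangent space.

PLAN. `q = vc γ 0`. Let `v` with `grad F q v = 0` and suppose `v` is not in `W = span (Dir F q)`; there is a linear form `λ` on `k^(n+1)` (coefficients `λ_i`) with `λ(W) = 0`, `λ(v) ≠ 0` (`Submodule.exists_le_ker_of_notMem` or similar). System `eqB F q d` (T0) with unknowns `I = Fin (n+1) × Fin d`, `z₀ (i, j) = (γ i).coeff (j + 1)`; `C q + X lin d z₀ = γ`; its Jacobian at `z₀` is `δ ↦` coefficients of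
`grad F γ (lin d δ)` (T0 `eqB_deriv`), onto as `γ` is free. `Ψ = Σ_i C λ_i * X_(i,0)` (`d ≥ 1`). Hypothesis `hΨ` of P9 `tangent`: for `Ω` algebraically closed over `k` and a zero `z` of the system with `Spz z z₀` the curve `γ' = C q + X lin d z` is on `F` (`On F d γ'`: T0 `eqB_aeval` for the coefficients `1..nd`, coefficient `0` is `F(q) = 0`, degree `≤ nd`), and `Spz (cf d γ') (cf d γ)`
(the coefficients `(i, 0)` are in `k`), so `γ'` is free (B5 `Free.of_spz`). If `Ψ(z) ≠ 0`, S0 `spec_free` with the polynomial `Σ_i C λ_i * X_(i,1)` gives a free curve `γ''` over `k` with `vc γ'' 0 = q` (`Spz`, polynomial `X_(i,0) - C (q i)`) and `λ(vc γ'' 1) ≠ 0`: contradiction with `λ(W) = 0`. So `tangent` gives `λ(a(0)) = 0` for every `a` with `deg a_i < d`,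
`grad F γ a = 0`. Finally `v` is such an `a(0)`: `grad F γ (C v)` has degree `≤ (n-1) d` and vanishes at `0`, so it is `X h`, `deg h < nd - 1`; `Cor 0`: `h = grad F γ a'`, `deg a'_i < d - 1`; `a = C v - X a'` (degree `< d`; if `d = 1` then `a' = 0`). So `λ(v) = 0`, contradiction.
-/

set_option autoImplicit false

namespace Q9

open Polynomial

private theorem S1_deg {k : Type} [Field k] {N m : ℕ} (G : MvPolynomial (Fin N) k)
    (hG : G.IsHomogeneous m) {κ : Type} [Field κ] [Algebra k κ] (d : ℕ) (γ : Fin N → κ[X])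
    (hγ : ∀ i, (γ i).natDegree ≤ d) : (MvPolynomial.aeval γ G).natDegree ≤ m * d := by
  rw [MvPolynomial.aeval_def, MvPolynomial.eval₂_eq]
  apply natDegree_sum_le_of_forall_le
  intro e he
  have h1 : m = ∑ i ∈ e.support, e i := hG.degree_eq_sum_deg_support he
  rw [h1, Finset.sum_mul, Polynomial.algebraMap_apply]
  refine (natDegree_C_mul_le _ _).trans ((natDegree_prod_le _ _).trans (Finset.sum_le_sum ?_))
  intro i _
  exact natDegree_pow_le_of_le (e i) (hγ i)

/-- the curve `C q + X lin d z` has degree at most `d` -/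
private theorem S1_nat {κ : Type} [Field κ] {n : ℕ} (q : Fin (n + 1) → κ) (d : ℕ) (hd : 1 ≤ d)
    (z : Fin (n + 1) × Fin d → κ) (i : Fin (n + 1)) :
    (C (q i) + X * lin d z i).natDegree ≤ d := by
  apply natDegree_add_le_of_degree_le
  · rw [natDegree_C]; omega
  · have h1 : (lin d z i).natDegree ≤ d - 1 := by
      unfold lin
      apply natDegree_sum_le_of_forall_le
      intro j _
      refine (natDegree_C_mul_X_pow_le _ _).trans ?_
      have := j.2
      omega
    refine natDegree_mul_le.trans ?_
    rw [natDegree_X]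
    omega

private theorem S1_lin {R : Type} [CommRing R] {n : ℕ} (d : ℕ) (z : Fin (n + 1) × Fin d → R)
    (i : Fin (n + 1)) (j : ℕ) :
    (lin d z i).coeff j = if h : j < d then z (i, ⟨j, h⟩) else 0 := by
  unfold lin
  simp only [finsetSum_coeff, coeff_C_mul_X_pow]
  split_ifs with h
  · rw [Finset.sum_eq_single (⟨j, h⟩ : Fin d)]
    · simp
    · intro b _ hb
      rw [if_neg]
      intro hc
      exact hb (Fin.ext hc.symm)
    · intro hc
      exact absurd (Finset.mem_univ _) hc
  · apply Finset.sum_eq_zero
    intro b _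
    rw [if_neg]
    intro hc
    exact h (hc ▸ b.2)

/-- a vector of polynomials of degree `< d` is `lin d` of its coefficients -/
private theorem S1_lin_eq {R : Type} [CommRing R] {n : ℕ} (d : ℕ) (a : Fin (n + 1) → R[X])
    (ha : ∀ i, (a i).degree < (d : ℕ)) :
    lin d (fun b : Fin (n + 1) × Fin d => (a b.1).coeff b.2) = a := by
  funext i
  ext j
  rw [S1_lin]
  split_ifs with h
  · rfl
  · exact (coeff_eq_zero_of_degree_lt (lt_of_lt_of_le (ha i) (by exact_mod_cast not_lt.1 h))).symm

theorem vf_of_very_free {k : Type} [Field k] [IsAlgClosed k] {n : ℕ} (hn : 2 ≤ n)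
    (F : MvPolynomial (Fin (n + 1)) k) (hF : F.IsHomogeneous n) (d : ℕ) (γ : Fin (n + 1) → k[X])
    (h : Free F d γ) (hc : Cor F d γ 0) : VF F (vc γ 0) := by
  intro v hv
  by_contra hvW
  obtain ⟨f, hfv, hfW⟩ := Submodule.exists_le_ker_of_notMem hvW
  obtain ⟨hd, ⟨hdeg, hzero⟩, hfree⟩ := id h
  -- coefficients of the linear form
  obtain ⟨lam, hlam⟩ : ∃ lam : Fin (n + 1) → k, ∀ w, f w = ∑ i, lam i * w i := by
    refine ⟨fun i => f (Pi.single i 1), fun w => ?_⟩
    rw [LinearMap.pi_apply_eq_sum_univ f w]
    apply Finset.sum_congr rfl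
    intro i _
    rw [smul_eq_mul, mul_comm]
    congr 2
    funext j
    rw [Pi.single_apply]
    simp only [eq_comm]
  let q : Fin (n + 1) → k := vc γ 0
  let z₀ : Fin (n + 1) × Fin d → k := fun a => (γ a.1).coeff (a.2 + 1)
  have hq : ∀ i, q i = (γ i).coeff 0 := fun i => rfl
  have hγ : (fun i => C (algebraMap k k (q i)) + X * lin d z₀ i) = γ := by
    funext i
    ext j
    cases j with
    | zero => simp [hq]
    | succ j =>
      rw [coeff_add, coeff_C_succ, coeff_X_mul, zero_add, S1_lin]
      split_ifs with hj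
      · rfl
      · exact (coeff_eq_zero_of_natDegree_lt (by have := hdeg i; omega)).symm
  have hFq : MvPolynomial.eval q F = 0 := by
    have e1 : (MvPolynomial.aeval γ F).eval 0 = 0 := by rw [hzero, eval_zero]
    have e2 : (MvPolynomial.aeval γ F).eval 0 = MvPolynomial.aeval (fun i => (γ i).eval 0) F := by
      have : (MvPolynomial.aeval (fun i => (γ i).eval 0) : MvPolynomial (Fin (n + 1)) k →ₐ[k] k) =
          (Polynomial.aeval (0 : k)).comp (MvPolynomial.aeval γ) := by
        apply MvPolynomial.algHom_ext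
        intro i
        simp
      rw [this, AlgHom.comp_apply, Polynomial.coe_aeval_eq_eval]
    rw [e2] at e1
    have e3 : (fun i => (γ i).eval 0) = q := by
      funext i
      rw [hq, coeff_zero_eq_eval_zero]
    rw [e3] at e1
    exact e1
  have h0 : ∀ j, MvPolynomial.eval z₀ (eqB F q d j) = 0 := by
    intro j
    have := eqB_aeval F q d z₀ j
    rw [hγ, hzero, coeff_zero] at this
    exact this
  have hjac : ∀ δ : Fin (n + 1) × Fin d → k, ∀ j, (Jac (eqB F q d) z₀).mulVec δ j =
      (grad F γ (lin d δ)).coeff j := by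
    intro δ j
    have := eqB_deriv F q d z₀ δ j
    rw [hγ] at this
    exact this
  have hJ : Function.Surjective (Jac (eqB F q d) z₀).mulVec := by
    intro g
    obtain ⟨a, ha, hag⟩ := hfree (∑ j : Fin (n * d), C (g j) * X ^ (j : ℕ)) (by
      refine lt_of_le_of_lt (degree_sum_le _ _) ?_
      rw [Finset.sup_lt_iff (by exact WithBot.bot_lt_coe _)]
      intro j _
      exact lt_of_le_of_lt (degree_C_mul_X_pow_le _ _) (by exact_mod_cast j.2))
    refine ⟨fun b => (a b.1).coeff b.2, ?_⟩
    funext j
    rw [hjac, S1_lin_eq d a ha, hag]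
    simp only [finsetSum_coeff, coeff_C_mul_X_pow]
    rw [Finset.sum_eq_single j]
    · simp
    · intro b _ hb
      rw [if_neg]
      intro hc
      exact hb (Fin.ext hc.symm)
    · intro hc
      exact absurd (Finset.mem_univ _) hc
  let Ψ : MvPolynomial (Fin (n + 1) × Fin d) k :=
    ∑ i, MvPolynomial.C (lam i) * MvPolynomial.X (i, ⟨0, hd⟩)
  have hΨ : ∀ (Ω : Type) [Field Ω] [Algebra k Ω] [IsAlgClosed Ω] (z : Fin (n + 1) × Fin d → Ω),
      (∀ j, MvPolynomial.aeval z (eqB F q d j) = 0) → Spz z z₀ → MvPolynomial.aeval z Ψ = 0 := by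
    intro Ω _ _ _ z hz hs
    by_contra hne
    let γ' : Fin (n + 1) → Polynomial Ω := fun i => C (algebraMap k Ω (q i)) + X * lin d z i
    have hdeg' : ∀ i, (γ' i).natDegree ≤ d := fun i => S1_nat (fun i => algebraMap k Ω (q i)) d hd z i
    have c0 : ∀ i, (γ' i).coeff 0 = algebraMap k Ω (q i) := by
      intro i
      simp [γ']
    have c1 : ∀ i (j : Fin d), (γ' i).coeff (j + 1) = z (i, j) := by
      intro i j
      simp only [γ']
      rw [coeff_add, coeff_C_succ, coeff_X_mul, zero_add, S1_lin, dif_pos j.2]
    have hon : On F d γ' := by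
      refine ⟨hdeg', ?_⟩
      ext j
      rw [coeff_zero]
      cases j with
      | zero =>
        have e2 : (MvPolynomial.aeval γ' F).coeff 0 =
            MvPolynomial.aeval (fun i => (γ' i).coeff 0) F := by
          have : (MvPolynomial.aeval (fun i => (γ' i).coeff 0) :
              MvPolynomial (Fin (n + 1)) k →ₐ[k] Ω) =
              ((Polynomial.aeval (0 : Ω)).restrictScalars k).comp (MvPolynomial.aeval γ') := by
            apply MvPolynomial.algHom_ext
            intro i
            simp [coeff_zero_eq_eval_zero]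
          rw [this, AlgHom.comp_apply, AlgHom.restrictScalars_apply, coeff_zero_eq_eval_zero,
            Polynomial.coe_aeval_eq_eval]
        rw [e2]
        have e3 : (fun i => (γ' i).coeff 0) = fun i => algebraMap k Ω (q i) := funext c0
        rw [e3]
        have e4 := MvPolynomial.aeval_algebraMap_apply Ω q F
        have e5 : MvPolynomial.aeval q F = 0 := hFq
        rw [e5, map_zero] at e4
        exact e4
      | succ j =>
        by_cases hj : j < n * d
        · have := eqB_aeval F q d z ⟨j, hj⟩
          rw [hz] at this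
          exact this.symm
        · apply coeff_eq_zero_of_natDegree_lt
          have := S1_deg F hF d γ' hdeg'
          omega
    have hspz : Spz (cf d γ') (cf d γ) := by
      intro P hP
      let s : Fin (n + 1) × Fin (d + 1) → MvPolynomial (Fin (n + 1) × Fin d) k := fun a =>
        Fin.cases (MvPolynomial.C (q a.1)) (fun j => MvPolynomial.X (a.1, j)) a.2
      have e1 : MvPolynomial.aeval z (MvPolynomial.aeval s P) = MvPolynomial.aeval (cf d γ') P := by
        rw [← AlgHom.comp_apply]
        congr 1
        apply MvPolynomial.algHom_ext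
        rintro ⟨i, j⟩
        rw [AlgHom.comp_apply, MvPolynomial.aeval_X, MvPolynomial.aeval_X]
        refine Fin.cases ?_ (fun j => ?_) j
        · simp only [s, Fin.cases_zero, cf]
          rw [MvPolynomial.aeval_C]
          exact (c0 i).symm
        · simp only [s, Fin.cases_succ, cf]
          rw [MvPolynomial.aeval_X, Fin.val_succ]
          exact (c1 i j).symm
      have e2 : MvPolynomial.eval z₀ (MvPolynomial.aeval s P) = MvPolynomial.eval (cf d γ) P := by
        rw [← MvPolynomial.coe_aeval_eq_eval, ← MvPolynomial.coe_aeval_eq_eval]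
        change MvPolynomial.aeval z₀ (MvPolynomial.aeval s P) = MvPolynomial.aeval (cf d γ) P
        rw [← AlgHom.comp_apply]
        congr 1
        apply MvPolynomial.algHom_ext
        rintro ⟨i, j⟩
        rw [AlgHom.comp_apply, MvPolynomial.aeval_X, MvPolynomial.aeval_X]
        refine Fin.cases ?_ (fun j => ?_) j
        · simp only [s, Fin.cases_zero, cf]
          rw [MvPolynomial.aeval_C]
          rfl
        · simp only [s, Fin.cases_succ, cf]
          rw [MvPolynomial.aeval_X, Fin.val_succ]
      rw [← e2]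
      exact hs _ (e1.trans hP)
    have hfree' : Free F d γ' := Free.of_spz F hF d γ' γ hon h hspz
    let Ψ' : MvPolynomial (Fin (n + 1) × Fin (d + 1)) k :=
      ∑ i, MvPolynomial.C (lam i) * MvPolynomial.X (i, ⟨1, by omega⟩)
    have hΨ' : MvPolynomial.aeval (cf d γ') Ψ' ≠ 0 := by
      have e1 : MvPolynomial.aeval (cf d γ') Ψ' = MvPolynomial.aeval z Ψ := by
        simp only [Ψ', Ψ, map_sum, map_mul, MvPolynomial.aeval_C, MvPolynomial.aeval_X]
        apply Finset.sum_congr rfl
        intro i _
        congr 1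
        exact c1 i ⟨0, hd⟩
      rw [e1]
      exact hne
    obtain ⟨γ'', hf'', hs'', hn''⟩ := spec_free F d γ' hfree' Ψ' hΨ'
    have hq'' : vc γ'' 0 = q := by
      funext i
      have := hs'' (MvPolynomial.X (i, ⟨0, by omega⟩) - MvPolynomial.C (q i)) (by
        rw [map_sub, MvPolynomial.aeval_X, MvPolynomial.aeval_C]
        change (γ' i).coeff 0 - _ = 0
        rw [c0, sub_self])
      rw [map_sub, MvPolynomial.eval_X, MvPolynomial.eval_C] at this
      exact sub_eq_zero.1 this
    have hmem : vc γ'' 1 ∈ Submodule.span k (Dir F q) :=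
      Submodule.subset_span ⟨d, γ'', hf'', hq'', rfl⟩
    have hker : f (vc γ'' 1) = 0 := LinearMap.mem_ker.1 (hfW hmem)
    apply hn''
    rw [hlam] at hker
    simp only [Ψ', map_sum, map_mul, MvPolynomial.eval_C, MvPolynomial.eval_X]
    exact hker
  have htan := tangent (eqB F q d) z₀ h0 hJ Ψ hΨ
  -- the vector `v`
  have hhom : ∀ i, (MvPolynomial.pderiv i F).IsHomogeneous (n - 1) := fun i => hF.pderiv
  obtain ⟨hh, hhX⟩ : ∃ hh : k[X], grad F γ (fun i => C (v i)) = X * hh := by
    have : (grad F γ (fun i => C (v i))).coeff 0 = 0 := by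
      have e1 : (grad F γ (fun i => C (v i))).coeff 0 = grad F q v := by
        unfold grad
        rw [finsetSum_coeff]
        apply Finset.sum_congr rfl
        intro i _
        rw [coeff_mul_C]
        congr 1
        rw [coeff_zero_eq_eval_zero]
        have : (MvPolynomial.aeval q : MvPolynomial (Fin (n + 1)) k →ₐ[k] k) =
            (Polynomial.aeval (0 : k)).comp (MvPolynomial.aeval γ) := by
          apply MvPolynomial.algHom_ext
          intro i
          simp [hq, coeff_zero_eq_eval_zero]
        rw [this, AlgHom.comp_apply, Polynomial.coe_aeval_eq_eval]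
      rw [e1]
      exact hv
    obtain ⟨g, hg⟩ := X_dvd_iff.2 this
    exact ⟨g, hg⟩
  have hdegh : hh.degree < (n * d - 1 : ℕ) := by
    have e1 : (grad F γ (fun i => C (v i))).natDegree ≤ (n - 1) * d := by
      unfold grad
      apply natDegree_sum_le_of_forall_le
      intro i _
      exact (natDegree_mul_C_le _ _).trans (S1_deg _ (hhom i) d γ hdeg)
    have hnd : (n - 1) * d + d = n * d := by
      obtain ⟨m, rfl⟩ : ∃ m, n = m + 1 := ⟨n - 1, by omega⟩
      simp only [Nat.add_sub_cancel]
      ring
    have hnd2 : 1 ≤ (n - 1) * d := Nat.one_le_iff_ne_zero.2 (Nat.mul_ne_zero (by omega) (by omega))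
    by_cases hz : hh = 0
    · rw [hz, degree_zero]
      exact WithBot.bot_lt_coe _
    · rw [hhX, natDegree_X_mul hz] at e1
      rw [degree_eq_natDegree hz]
      exact_mod_cast (by omega : hh.natDegree < n * d - 1)
  obtain ⟨θ, -, hcor⟩ := hc
  obtain ⟨a', μ, ha', hgrad⟩ := hcor hh hdegh
  rw [Finset.univ_eq_empty, Finset.sum_empty, add_zero] at hgrad
  let a : Fin (n + 1) → k[X] := fun i => C (v i) - X * a' i
  have hdega : ∀ i, (a i).degree < (d : ℕ) := by
    intro i
    refine lt_of_le_of_lt (degree_sub_le _ _) (max_lt ?_ ?_)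
    · exact lt_of_le_of_lt degree_C_le (by exact_mod_cast hd)
    · by_cases hz : a' i = 0
      · rw [hz, mul_zero, degree_zero]
        exact WithBot.bot_lt_coe _
      · have h1 := ha' i
        rw [degree_eq_natDegree hz] at h1
        have h2 : (a' i).natDegree < d - 1 := by exact_mod_cast h1
        rw [degree_eq_natDegree (mul_ne_zero X_ne_zero hz), natDegree_X_mul hz]
        exact_mod_cast (by omega : (a' i).natDegree + 1 < d)
  have hga : grad F γ a = 0 := by
    have e1 : grad F γ a = grad F γ (fun i => C (v i)) - X * grad F γ a' := by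
      unfold grad
      rw [Finset.mul_sum, ← Finset.sum_sub_distrib]
      apply Finset.sum_congr rfl
      intro i _
      simp only [a]
      ring
    rw [e1, hhX, ← hgrad, sub_self]
  have hker := htan (fun b => (a b.1).coeff b.2) (by
    funext j
    rw [hjac, S1_lin_eq d a hdega, hga, coeff_zero]
    rfl)
  apply hfv
  rw [hlam, ← hker]
  have hpd : ∀ b : Fin (n + 1) × Fin d, MvPolynomial.eval z₀ (MvPolynomial.pderiv b Ψ) =
      if b.2 = ⟨0, hd⟩ then lam b.1 else 0 := by
    rintro ⟨i, j⟩
    simp only [Ψ, map_sum, MvPolynomial.pderiv_C_mul, MvPolynomial.pderiv_X, map_mul,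
      MvPolynomial.eval_C]
    split_ifs with hj
    · subst hj
      rw [Finset.sum_eq_single i]
      · simp
      · intro b _ hb
        rw [Pi.single_eq_of_ne]
        · simp
        · intro hcc
          exact hb (Prod.ext_iff.1 hcc).1
      · intro hcc
        exact absurd (Finset.mem_univ _) hcc
    · apply Finset.sum_eq_zero
      intro b _
      rw [Pi.single_eq_of_ne]
      · simp
      · intro hcc
        exact hj (Prod.ext_iff.1 hcc).2.symm
  rw [Fintype.sum_prod_type]
  apply Finset.sum_congr rfl
  intro i _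
  rw [Finset.sum_eq_single (⟨0, hd⟩ : Fin d)]
  · rw [hpd]
    simp [a]
  · intro b _ hb
    rw [hpd]
    simp [hb]
  · intro hcc
    exact absurd (Finset.mem_univ _) hcc

end Q9
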