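import Pool.Agent.LibQ9.SDefs
import Pool.Agent.LibQ9.B0

/-!
[Q9 S3] (MEDIUM; may cite B0 as stated) A functional of the cokernel is detected at almost all points of a primitive curve.

PLAN. `G_i = aeval g (pderiv i F)`, `natDegree ≤ N = (n-1) D`; the `G_i` generate the unit ideal (`Sm F`: powers of the `g_j` are in their ideal, the `g_j` generate the unit ideal, `Ideal.span_pow_eq_top`), and some `G_j` has coefficient `≠ 0` at `N` (it is the value of `pderiv j F` at `vc g D ≠ 0`; `Sm.zero`). `A_i = dq l G_i`, degree `< N` (B0 `dq_degree`). Call `b` bad if `pr l h = 0` for all `v`, `h` with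
`(X - C b) * h = grad F g (C v)`. For `v` with `Σ G_i(b) v_i = 0` there is such an `h = (Σ_i G_i C (v i)) /ₘ (X - C b)` and `pr l h = Σ_i (A_i).eval b * v_i` (B0 `dq_eval`, linearity). So for bad `b`: `A(b)` kills the kernel of the nonzero linear form `G(b)`, so `A_i(b) G_j(b) = A_j(b) G_i(b)` for all `i, j` (take `v = G_j(b) e_i - G_i(b) e_j`). If infinitely many `b` were bad then `A_i G_j = A_j G_i` in `k[X]`
(`Polynomial.eq_of_infinite_eval_eq`), `1 = Σ b_i G_i`, `c = Σ b_i A_i`: `A_j = c G_j`; by degrees `c = 0` (if `c ≠ 0` then `deg (c G_j) ≥ N > deg A_j` for the `j` above), so `A = 0`, and B0 `l_zero` (`N`, `e = D - 1`, `N + e = n D - 1`; `hl` with the vector `X^a` at the place `i`) gives `l j = 0` for `j < n D - 1`. Contradiction with `hl0`. So the bad set is finite: `T`.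
-/

set_option autoImplicit false

namespace Q9

open Polynomial

private theorem S3_prod {k ι : Type} [Field k] (s : Finset ι) (f : ι → k[X]) (d : ι → ℕ)
    (h : ∀ i ∈ s, (f i).natDegree ≤ d i) :
    (∏ i ∈ s, f i).natDegree ≤ ∑ i ∈ s, d i ∧
      (∏ i ∈ s, f i).coeff (∑ i ∈ s, d i) = ∏ i ∈ s, (f i).coeff (d i) := by
  classical
  induction s using Finset.induction_on with
  | empty => simp
  | insert a s ha ih =>
    obtain ⟨h1, h2⟩ := ih fun i hi => h i (Finset.mem_insert_of_mem hi)
    have h3 := h a (Finset.mem_insert_self a s)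
    rw [Finset.prod_insert ha, Finset.sum_insert ha, Finset.prod_insert ha]
    refine ⟨natDegree_mul_le.trans (add_le_add h3 h1), ?_⟩
    rw [coeff_mul_add_eq_of_natDegree_le h3 h1, h2]

private theorem S3_aeval {k : Type} [Field k] {m : ℕ} (P : MvPolynomial (Fin m) k) (e D : ℕ)
    (hP : P.IsHomogeneous e) (g : Fin m → k[X]) (hg : ∀ i, (g i).natDegree ≤ D) :
    (MvPolynomial.aeval g P).natDegree ≤ e * D ∧
      (MvPolynomial.aeval g P).coeff (e * D) =
        MvPolynomial.aeval (fun i => (g i).coeff D) P := by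
  have hdeg : ∀ d ∈ P.support, ∑ i, d i * D = e * D := by
    intro d hd
    have h1 := hP (MvPolynomial.mem_support_iff.1 hd)
    rw [← Finset.sum_mul, ← Finsupp.degree_eq_sum, Finsupp.degree_eq_weight_one]
    congr 1
  have hprod : ∀ d ∈ P.support, (∏ i, g i ^ d i).natDegree ≤ e * D ∧
      (∏ i, g i ^ d i).coeff (e * D) = ∏ i, (g i).coeff D ^ d i := by
    intro d hd
    have h1 := S3_prod Finset.univ (fun i => g i ^ d i) (fun i => d i * D) fun i _ =>
      natDegree_pow_le_of_le (d i) (hg i)
    rw [hdeg d hd] at h1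
    refine ⟨h1.1, h1.2.trans (Finset.prod_congr rfl fun i _ => ?_)⟩
    exact coeff_pow_of_natDegree_le (hg i)
  have hl : MvPolynomial.aeval g P =
      ∑ d ∈ P.support, C (P.coeff d) * ∏ i, g i ^ d i := by
    rw [MvPolynomial.aeval_def, MvPolynomial.eval₂_eq']
    rfl
  have hr : MvPolynomial.aeval (fun i => (g i).coeff D) P =
      ∑ d ∈ P.support, P.coeff d * ∏ i, (g i).coeff D ^ d i := by
    rw [MvPolynomial.aeval_def, MvPolynomial.eval₂_eq']
    rfl
  rw [hl, hr]
  constructor
  · refine natDegree_sum_le_of_forall_le _ _ fun d hd => ?_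
    exact (natDegree_C_mul_le _ _).trans (hprod d hd).1
  · rw [finsetSum_coeff]
    refine Finset.sum_congr rfl fun d hd => ?_
    rw [coeff_C_mul, (hprod d hd).2]

private theorem S3_grad_single {k : Type} [Field k] {n : ℕ}
    (F : MvPolynomial (Fin (n + 1)) k) (g : Fin (n + 1) → k[X]) (i : Fin (n + 1)) (c : k[X]) :
    grad F g (Pi.single i c) = MvPolynomial.aeval g (MvPolynomial.pderiv i F) * c := by
  unfold grad
  rw [Finset.sum_eq_single i]
  · rw [Pi.single_eq_same]
  · intro j _ hj
    rw [Pi.single_eq_of_ne hj, mul_zero]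
  · intro h
    exact absurd (Finset.mem_univ i) h

theorem detect {k : Type} [Field k] [Infinite k] {n : ℕ} (hn : 2 ≤ n)
    (F : MvPolynomial (Fin (n + 1)) k) (hF : F.IsHomogeneous n) (hSm : Sm F) (D : ℕ) (hD : 1 ≤ D)
    (g : Fin (n + 1) → k[X]) (hg : On F D g) (hprim : Ideal.span (Set.range g) = ⊤)
    (hlead : vc g D ≠ 0) (l : ℕ → k)
    (hl : ∀ a : Fin (n + 1) → k[X], (∀ i, (a i).degree < (D - 1 : ℕ)) → pr l (grad F g a) = 0)
    (hl0 : ∃ j < n * D - 1, l j ≠ 0) :
    ∃ T : Finset k, ∀ b ∉ T, ∃ (v : Fin (n + 1) → k) (h : k[X]),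
      (X - C b) * h = grad F g (fun i => C (v i)) ∧ pr l h ≠ 0 := by
  set G : Fin (n + 1) → k[X] := fun i => MvPolynomial.aeval g (MvPolynomial.pderiv i F) with hG
  have hgd : ∀ i, (g i).natDegree ≤ D := hg.1
  have hGd : ∀ i, (G i).natDegree ≤ (n - 1) * D := fun i =>
    (S3_aeval (MvPolynomial.pderiv i F) (n - 1) D hF.pderiv g hgd).1
  have hGc : ∀ i, (G i).coeff ((n - 1) * D) =
      MvPolynomial.aeval (vc g D) (MvPolynomial.pderiv i F) := fun i =>
    (S3_aeval (MvPolynomial.pderiv i F) (n - 1) D hF.pderiv g hgd).2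
  obtain ⟨j₀, hj₀⟩ : ∃ j, (G j).coeff ((n - 1) * D) ≠ 0 := by
    by_contra hcon
    push Not at hcon
    refine hlead (hSm.zero (vc g D) fun i => ?_)
    rw [← hGc i]
    exact hcon i
  have hspan : Ideal.span (Set.range G) = ⊤ := by
    obtain ⟨M, hM⟩ := hSm
    rw [← top_le_iff, ← Ideal.span_pow_eq_top (Set.range g) hprim M, Ideal.span_le]
    rintro _ ⟨_, ⟨j, rfl⟩, rfl⟩
    have h1 : MvPolynomial.aeval g ((MvPolynomial.X j : MvPolynomial (Fin (n + 1)) k) ^ M) ∈
        Ideal.map (MvPolynomial.aeval g : MvPolynomial (Fin (n + 1)) k →ₐ[k] k[X])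
          (Ideal.span (Set.range fun i => MvPolynomial.pderiv i F)) :=
      Ideal.mem_map_of_mem _ (hM j)
    rw [Ideal.map_span, ← Set.range_comp, map_pow, MvPolynomial.aeval_X] at h1
    exact h1
  obtain ⟨β, hβ⟩ : ∃ β : Fin (n + 1) → k[X], ∑ i, β i * G i = 1 := by
    have h1 : (1 : k[X]) ∈ Ideal.span (Set.range G) := by
      rw [hspan]
      exact Submodule.mem_top
    exact Ideal.mem_span_range_iff_exists_fun.1 h1
  -- the bad points
  set B : Set k := {b | ∀ (v : Fin (n + 1) → k) (h : k[X]),
    (X - C b) * h = grad F g (fun i => C (v i)) → pr l h = 0} with hB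
  have hBfin : B.Finite := by
    by_contra hinf
    have hbad : ∀ b ∈ B, ∀ i j, (dq l (G i)).eval b * (G j).eval b =
        (dq l (G j)).eval b * (G i).eval b := by
      intro b hb i j
      set R : k[X] := G i * C ((G j).eval b) + G j * C (-(G i).eval b) with hR
      have hRroot : R.IsRoot b := by
        rw [IsRoot.def, hR, eval_add, eval_mul, eval_mul, eval_C, eval_C]
        ring
      have hRg : grad F g (fun r => C ((Pi.single (M := fun _ => k) i ((G j).eval b) +
          Pi.single (M := fun _ => k) j (-(G i).eval b)) r)) = R := by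
        have h1 : (fun r => C ((Pi.single (M := fun _ => k) i ((G j).eval b) +
            Pi.single (M := fun _ => k) j (-(G i).eval b)) r)) =
            (Pi.single i (C ((G j).eval b)) : Fin (n + 1) → k[X]) +
              Pi.single j (C (-(G i).eval b)) := by
          funext r
          rw [Pi.add_apply, Pi.add_apply, C_add]
          congr 1
          · by_cases hr : r = i
            · subst hr; rw [Pi.single_eq_same, Pi.single_eq_same]
            · rw [Pi.single_eq_of_ne hr, Pi.single_eq_of_ne hr, C_0]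
          · by_cases hr : r = j
            · subst hr; rw [Pi.single_eq_same, Pi.single_eq_same]
            · rw [Pi.single_eq_of_ne hr, Pi.single_eq_of_ne hr, C_0]
        have h2 : ∀ a a' : Fin (n + 1) → k[X],
            grad F g (a + a') = grad F g a + grad F g a' := by
          intro a a'
          unfold grad
          rw [← Finset.sum_add_distrib]
          exact Finset.sum_congr rfl fun r _ => by rw [Pi.add_apply, mul_add]
        rw [h1, h2, S3_grad_single, S3_grad_single]
      have h3 := hb _ (R /ₘ (X - C b)) ((mul_divByMonic_eq_iff_isRoot.2 hRroot).trans hRg.symm)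
      rw [← dq_eval, hR, dq_add, dq_mul l (G i) (C _) (by
          intro a ha; rw [natDegree_C] at ha; omega),
        dq_mul l (G j) (C _) (by intro a ha; rw [natDegree_C] at ha; omega),
        eval_add, eval_mul, eval_mul, eval_C, eval_C] at h3
      linear_combination h3
    have hpoly : ∀ i j, dq l (G i) * G j = dq l (G j) * G i := by
      intro i j
      refine eq_of_infinite_eval_eq _ _ (Set.Infinite.mono ?_ hinf)
      intro b hb
      rw [Set.mem_ofPred_eq, eval_mul, eval_mul]
      exact hbad b hb i j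
    set c : k[X] := ∑ i, β i * dq l (G i) with hc
    have hA : ∀ j, dq l (G j) = c * G j := by
      intro j
      calc dq l (G j) = (∑ i, β i * G i) * dq l (G j) := by rw [hβ, one_mul]
        _ = ∑ i, β i * dq l (G i) * G j := by
          rw [Finset.sum_mul]
          refine Finset.sum_congr rfl fun i _ => ?_
          have := hpoly i j
          linear_combination -(β i) * this
        _ = c * G j := by rw [hc, Finset.sum_mul]
    have hc0 : c = 0 := by
      by_contra hne
      have h1 : (dq l (G j₀)).degree < (((n - 1) * D : ℕ) : WithBot ℕ) :=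
        dq_degree l (G j₀) ((n - 1) * D) (hGd j₀)
      have h2 : (((n - 1) * D : ℕ) : WithBot ℕ) ≤ (G j₀).degree := le_degree_of_ne_zero hj₀
      rw [hA j₀, degree_mul] at h1
      have h3 : (0 : WithBot ℕ) ≤ c.degree := zero_le_degree_iff.2 hne
      have h4 : (G j₀).degree ≤ c.degree + (G j₀).degree := le_add_of_nonneg_left h3
      exact absurd (h2.trans h4) (not_le.2 h1)
    obtain ⟨j, hj, hlj⟩ := hl0
    refine hlj (l_zero l G ((n - 1) * D) (D - 1) hGd ⟨j₀, hj₀⟩ ?_ ?_ j ?_)
    · intro i a ha
      have h1 := hl (Pi.single i (X ^ a)) (by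
        intro r
        by_cases hr : r = i
        · subst hr
          rw [Pi.single_eq_same, degree_X_pow]
          exact_mod_cast ha
        · rw [Pi.single_eq_of_ne hr, degree_zero]
          exact WithBot.bot_lt_coe _)
      rw [S3_grad_single] at h1
      rw [mul_comm]
      exact h1
    · intro i
      rw [hA i, hc0, zero_mul]
    · have h1 : (n - 1) * D + (D - 1) = n * D - 1 := by
        obtain ⟨n', rfl⟩ : ∃ n', n = n' + 1 := ⟨n - 1, by omega⟩
        rw [Nat.add_sub_cancel, Nat.succ_mul]
        omega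
      rw [h1]
      exact hj
  refine ⟨hBfin.toFinset, fun b hb => ?_⟩
  rw [Set.Finite.mem_toFinset] at hb
  by_contra hcon
  push Not at hcon
  exact hb fun v h hvh => hcon v h hvh

end Q9
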