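import Pool.Agent.LibQ9.S0
import Pool.Agent.LibQ9.S3
import Pool.Agent.LibQ9.B0

/-!
[Q9 S4a] (MEDIUM; may cite S3, B0 as stated) Finitely many free teeth on a primitive curve whose classes span the cokernel.

PLAN. Let `V = Polynomial.degreeLT k (n D - 1)` and `W₀` its subspace of the `grad F g a`, `deg a_i < D - 1` (these have degree `< nD - 1`: the partials have degree `≤ (n-1) D`). Prove by induction on `r` (codimension in `V` of the current span): given finitely many teeth as in the statement (`m`, `b`, `d`, `τ`, `h`) whose classes together with `W₀` span a subspace `W` of codimension `r`, there are more teeth such that everything is spanned.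
(`deg h i < nD - 1`: `(X - C b) h i` has degree `≤ (n-1) D`.) If `W ≠ V` there is a functional `≠ 0` on `V` killing `W`, i.e. `l : ℕ → k`, `l j` its value at `X^j` for `j < nD - 1`, `0` otherwise; `pr l f` is its value for `f ∈ V` (B0). S3 `detect` gives `T₁`, `hV` gives `T₂`; choose `b ∉ T₁ ∪ T₂ ∪ T' ∪ {b_i}` (`k` infinite): `v`, `h₀` with `(X - C b) h₀ = grad F g (C v)`, `pr l h₀ ≠ 0`. Evaluating at `b`: `grad F (ve g b) v = 0`, so
`v ∈ span (Dir F (ve g b))` (`VF`). The map `w ↦ pr l ((grad F g (C w)) /ₘ (X - C b))` is linear in `w` and `≠ 0` at `v`, so it is `≠ 0` at some `w = vc γ 1 ∈ Dir F (ve g b)`; `(X - C b) * h = grad F g (C w)` for `h = (..) /ₘ (X - C b)` (S0 `dir_sub`: the evaluation at `b` is `0`). Add the tooth `γ` at `b` (`Fin.snoc` or `Fin.cons`): the codimension drops. Start with `m = 0`.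
-/

set_option autoImplicit false

namespace Q9

open Polynomial

private theorem S4a_natDeg {k : Type} [Field k] {m e D : ℕ} (H : MvPolynomial (Fin m) k)
    (hH : H.IsHomogeneous e) (g : Fin m → k[X]) (hg : ∀ i, (g i).natDegree ≤ D) :
    (MvPolynomial.aeval g H).natDegree ≤ e * D := by
  rw [MvPolynomial.aeval_def, MvPolynomial.eval₂_eq']
  apply natDegree_sum_le_of_forall_le
  intro d hd
  have hd' : MvPolynomial.coeff d H ≠ 0 := MvPolynomial.mem_support_iff.1 hd
  have hdeg : ∑ i, d i = e := by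
    have h1 := hH hd'
    have h2 : d.degree = Finsupp.weight (1 : Fin m → ℕ) d := by
      rw [Finsupp.degree_eq_weight_one]
      rfl
    rw [← Finsupp.degree_eq_sum, h2]
    exact h1
  refine (natDegree_C_mul_le _ _).trans ?_
  refine (natDegree_prod_le _ _).trans ?_
  calc ∑ i, (g i ^ d i).natDegree ≤ ∑ i, d i * D := by
        apply Finset.sum_le_sum
        intro i _
        exact (natDegree_pow_le).trans (Nat.mul_le_mul_left _ (hg i))
    _ = e * D := by rw [← Finset.sum_mul, hdeg]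

private theorem S4a_gradadd {k : Type} [Field k] {n : ℕ} (F : MvPolynomial (Fin (n + 1)) k)
    (g a b : Fin (n + 1) → k[X]) :
    grad F g (fun i => a i + b i) = grad F g a + grad F g b := by
  unfold grad
  rw [← Finset.sum_add_distrib]
  exact Finset.sum_congr rfl fun i _ => mul_add _ _ _

private theorem S4a_gradC {k : Type} [Field k] {n : ℕ} (F : MvPolynomial (Fin (n + 1)) k)
    (g a : Fin (n + 1) → k[X]) (c : k) :
    grad F g (fun i => C c * a i) = C c * grad F g a := by
  unfold grad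
  rw [Finset.mul_sum]
  exact Finset.sum_congr rfl fun i _ => by ring

private theorem S4a_grad0 {k : Type} [Field k] {n : ℕ} (F : MvPolynomial (Fin (n + 1)) k)
    (g : Fin (n + 1) → k[X]) : grad F g (fun _ => 0) = 0 := by
  unfold grad
  simp

/-- the span of the teeth -/
private noncomputable def S4a_W {k : Type} [Field k] {n m : ℕ} (F : MvPolynomial (Fin (n + 1)) k)
    (D : ℕ) (g : Fin (n + 1) → k[X]) (h : Fin m → k[X]) : Submodule k k[X] where
  carrier := {f | ∃ (a : Fin (n + 1) → k[X]) (μ : Fin m → k),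
    (∀ i, (a i).degree < (D - 1 : ℕ)) ∧ f = grad F g a + ∑ i, C (μ i) * h i}
  add_mem' := by
    rintro x y ⟨a, μ, ha, rfl⟩ ⟨b, ν, hb, rfl⟩
    refine ⟨fun i => a i + b i, fun i => μ i + ν i,
      fun i => lt_of_le_of_lt (degree_add_le _ _) (max_lt (ha i) (hb i)), ?_⟩
    rw [S4a_gradadd]
    simp only [C_add, add_mul, Finset.sum_add_distrib]
    ring
  zero_mem' := by
    refine ⟨fun _ => 0, fun _ => 0, fun i => ?_, ?_⟩
    · rw [degree_zero]
      exact WithBot.bot_lt_coe _
    · rw [S4a_grad0]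
      simp
  smul_mem' := by
    rintro c x ⟨a, μ, ha, rfl⟩
    refine ⟨fun i => C c * a i, fun i => c * μ i, fun i => ?_, ?_⟩
    · show (C c * a i).degree < _
      rw [← smul_eq_C_mul]
      exact lt_of_le_of_lt (degree_smul_le _ _) (ha i)
    · rw [S4a_gradC, smul_eq_C_mul, mul_add, Finset.mul_sum]
      congr 1
      exact Finset.sum_congr rfl fun i _ => by rw [C_mul]; ring

private theorem S4a_mem {k : Type} [Field k] {n m : ℕ} (F : MvPolynomial (Fin (n + 1)) k)
    (D : ℕ) (g : Fin (n + 1) → k[X]) (h : Fin m → k[X]) (f : k[X]) :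
    f ∈ S4a_W F D g h ↔ ∃ (a : Fin (n + 1) → k[X]) (μ : Fin m → k),
    (∀ i, (a i).degree < (D - 1 : ℕ)) ∧ f = grad F g a + ∑ i, C (μ i) * h i := Iff.rfl

private theorem S4a_le_cons {k : Type} [Field k] {n m : ℕ} (F : MvPolynomial (Fin (n + 1)) k)
    (D : ℕ) (g : Fin (n + 1) → k[X]) (h : Fin m → k[X]) (h0 : k[X]) :
    S4a_W F D g h ≤ S4a_W F D g (Fin.cons h0 h : Fin (m + 1) → k[X]) := by
  rintro f ⟨a, μ, ha, rfl⟩
  refine ⟨a, Fin.cons 0 μ, ha, ?_⟩
  rw [Fin.sum_univ_succ]
  simp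

private theorem S4a_cons_mem {k : Type} [Field k] {n m : ℕ} (F : MvPolynomial (Fin (n + 1)) k)
    (D : ℕ) (g : Fin (n + 1) → k[X]) (h : Fin m → k[X]) (h0 : k[X]) :
    h0 ∈ S4a_W F D g (Fin.cons h0 h : Fin (m + 1) → k[X]) := by
  refine ⟨fun _ => 0, Fin.cons 1 0, fun i => ?_, ?_⟩
  · rw [degree_zero]
    exact WithBot.bot_lt_coe _
  · rw [S4a_grad0, Fin.sum_univ_succ]
    simp

private theorem S4a_le_lt {k : Type} [Field k] {n m : ℕ} (hn : 2 ≤ n)
    (F : MvPolynomial (Fin (n + 1)) k) (hF : F.IsHomogeneous n)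
    (D : ℕ) (hD : 1 ≤ D) (g : Fin (n + 1) → k[X]) (hg : On F D g) (h : Fin m → k[X])
    (hh : ∀ i, (h i).degree < (n * D - 1 : ℕ)) :
    S4a_W F D g h ≤ degreeLT k (n * D - 1) := by
  rintro f ⟨a, μ, ha, rfl⟩
  refine Submodule.add_mem _ ?_ (Submodule.sum_mem _ fun i _ => ?_)
  · unfold grad
    refine Submodule.sum_mem _ fun i _ => ?_
    rw [mem_degreeLT]
    rcases eq_or_ne (a i) 0 with h0 | h0
    · rw [h0, mul_zero, degree_zero]
      exact WithBot.bot_lt_coe _
    · have h1 : (a i).natDegree < D - 1 := by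
        have := ha i
        rw [degree_eq_natDegree h0] at this
        exact_mod_cast this
      have h2 : (MvPolynomial.aeval g (MvPolynomial.pderiv i F)).natDegree ≤ (n - 1) * D :=
        S4a_natDeg _ hF.pderiv g hg.1
      have h3 : (MvPolynomial.aeval g (MvPolynomial.pderiv i F) * a i).natDegree < n * D - 1 := by
        refine lt_of_le_of_lt natDegree_mul_le ?_
        have e : n * D = (n - 1) * D + D := by
          obtain ⟨n', rfl⟩ : ∃ n', n = n' + 1 := ⟨n - 1, by omega⟩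
          rw [Nat.add_sub_cancel]; ring
        omega
      exact lt_of_le_of_lt degree_le_natDegree (by exact_mod_cast h3)
  · rw [mem_degreeLT, ← smul_eq_C_mul]
    exact lt_of_le_of_lt (degree_smul_le _ _) (hh i)

private theorem S4a_pr {k : Type} [Field k] (f : k[X] →ₗ[k] k) (p : k[X]) :
    pr (fun j => f (X ^ j)) p = f p := by
  unfold pr
  conv_rhs => rw [← sum_monomial_eq p]
  rw [Polynomial.sum, Polynomial.sum, map_sum]
  refine Finset.sum_congr rfl fun j _ => ?_
  rw [← C_mul_X_pow_eq_monomial, ← smul_eq_C_mul, map_smul, smul_eq_mul]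

private theorem S4a_evalgrad {k : Type} [Field k] {n : ℕ} (F : MvPolynomial (Fin (n + 1)) k)
    (g : Fin (n + 1) → k[X]) (b : k) (w : Fin (n + 1) → k) :
    (grad F g (fun i => C (w i))).eval b = grad F (ve g b) w := by
  unfold grad
  rw [eval_finsetSum]
  refine Finset.sum_congr rfl fun i _ => ?_
  rw [eval_mul, eval_C]
  congr 1
  have h1 := MvPolynomial.comp_aeval_apply (R := k) g (Polynomial.aeval b : k[X] →ₐ[k] k)
    (MvPolynomial.pderiv i F)
  rw [Polynomial.coe_aeval_eq_eval] at h1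
  rw [h1]
  rfl

private theorem S4a_lam {k : Type} [Field k] {n : ℕ} (F : MvPolynomial (Fin (n + 1)) k)
    (g : Fin (n + 1) → k[X]) (b : k) (l : ℕ → k) (w : Fin (n + 1) → k) (h : k[X])
    (hh : (X - C b) * h = grad F g (fun i => C (w i))) :
    pr l h = ∑ i, (dq l (MvPolynomial.aeval g (MvPolynomial.pderiv i F))).eval b * w i := by
  have h1 : h = grad F g (fun i => C (w i)) /ₘ (X - C b) := by
    rw [← hh, mul_divByMonic_cancel_left _ (monic_X_sub_C b)]
  rw [h1, ← dq_eval]
  unfold grad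
  rw [dq_sum, eval_finsetSum]
  refine Finset.sum_congr rfl fun i _ => ?_
  rw [dq_mul _ _ _ (by intro a ha; rw [natDegree_C] at ha; exact absurd ha (Nat.not_lt_zero _)),
    eval_mul, eval_C]

private theorem S4a_hdeg {k : Type} [Field k] {n : ℕ} (hn : 2 ≤ n)
    (F : MvPolynomial (Fin (n + 1)) k) (hF : F.IsHomogeneous n)
    (D : ℕ) (hD : 1 ≤ D) (g : Fin (n + 1) → k[X]) (hg : On F D g) (b : k)
    (w : Fin (n + 1) → k) (h : k[X])
    (hh : (X - C b) * h = grad F g (fun i => C (w i))) : h.degree < (n * D - 1 : ℕ) := by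
  rcases eq_or_ne h 0 with h0 | h0
  · rw [h0, degree_zero]
    exact WithBot.bot_lt_coe _
  · have h1 : ((X - C b) * h).natDegree ≤ (n - 1) * D := by
      rw [hh]
      unfold grad
      apply natDegree_sum_le_of_forall_le
      intro i _
      refine (natDegree_mul_C_le _ _).trans ?_
      exact S4a_natDeg _ hF.pderiv g hg.1
    rw [natDegree_mul (X_sub_C_ne_zero b) h0, natDegree_X_sub_C] at h1
    have e : n * D = (n - 1) * D + D := by
      obtain ⟨n', rfl⟩ : ∃ n', n = n' + 1 := ⟨n - 1, by omega⟩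
      rw [Nat.add_sub_cancel]; ring
    rw [degree_eq_natDegree h0]
    have : h.natDegree < n * D - 1 := by omega
    exact_mod_cast this

private theorem S4a_main {k : Type} [Field k] [IsAlgClosed k] {n : ℕ} (hn : 2 ≤ n)
    (F : MvPolynomial (Fin (n + 1)) k) (hF : F.IsHomogeneous n) (hSm : Sm F) (D : ℕ) (hD : 1 ≤ D)
    (g : Fin (n + 1) → k[X]) (hg : On F D g) (hprim : Ideal.span (Set.range g) = ⊤)
    (hlead : vc g D ≠ 0) (hV : ∃ T : Finset k, ∀ b ∉ T, VF F (ve g b)) (T' : Finset k) (r : ℕ) :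
    ∀ (m : ℕ) (b : Fin m → k) (d : Fin m → ℕ) (τ : Fin m → Fin (n + 1) → k[X]) (h : Fin m → k[X]),
      Function.Injective b → (∀ i, b i ∉ T') → (∀ i, Free F (d i) (τ i)) →
      (∀ i a, (τ i a).coeff 0 = (g a).eval (b i)) →
      (∀ i, (X - C (b i)) * h i = grad F g (fun a => C ((τ i a).coeff 1))) →
      Module.finrank k (degreeLT k (n * D - 1)) - Module.finrank k (S4a_W F D g h) = r →
    ∃ (m : ℕ) (b : Fin m → k) (d : Fin m → ℕ) (τ : Fin m → Fin (n + 1) → k[X]) (h : Fin m → k[X]),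
      Function.Injective b ∧ (∀ i, b i ∉ T') ∧ (∀ i, Free F (d i) (τ i)) ∧
      (∀ i a, (τ i a).coeff 0 = (g a).eval (b i)) ∧
      (∀ i, (X - C (b i)) * h i = grad F g (fun a => C ((τ i a).coeff 1))) ∧
      ∀ f : k[X], f.degree < (n * D - 1 : ℕ) → ∃ (a : Fin (n + 1) → k[X]) (μ : Fin m → k),
        (∀ i, (a i).degree < (D - 1 : ℕ)) ∧ f = grad F g a + ∑ i, C (μ i) * h i := by
  classical
  induction r using Nat.strong_induction_on with
  | _ r ih =>
  intro m b d τ h hb hbT hfree hval heq hr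
  have hdeg : ∀ i, (h i).degree < (n * D - 1 : ℕ) := fun i =>
    S4a_hdeg hn F hF D hD g hg (b i) _ (h i) (heq i)
  have hWle : S4a_W F D g h ≤ degreeLT k (n * D - 1) := S4a_le_lt hn F hF D hD g hg h hdeg
  by_cases hall : degreeLT k (n * D - 1) ≤ S4a_W F D g h
  · exact ⟨m, b, d, τ, h, hb, hbT, hfree, hval, heq, fun f hf => hall (mem_degreeLT.2 hf)⟩
  obtain ⟨x, hx1, hx2⟩ := SetLike.not_le_iff_exists.1 hall
  obtain ⟨f, hfx, hfW⟩ := Submodule.exists_dual_map_eq_bot_of_notMem hx2 inferInstance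
  have hfW' : ∀ y ∈ S4a_W F D g h, f y = 0 := by
    intro y hy
    have h1 : f y ∈ (S4a_W F D g h).map f := Submodule.mem_map_of_mem hy
    rw [hfW] at h1
    exact (Submodule.mem_bot k).1 h1
  set l : ℕ → k := fun j => f (X ^ j) with hl
  have hprl : ∀ p, pr l p = f p := S4a_pr f
  obtain ⟨T1, hT1⟩ := detect hn F hF hSm D hD g hg hprim hlead l
    (by
      intro a ha
      rw [hprl]
      apply hfW'
      exact ⟨a, fun _ => 0, ha, by simp⟩)
    (by
      by_contra hno
      push Not at hno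
      apply hfx
      rw [← hprl]
      unfold pr
      rw [Polynomial.sum]
      apply Finset.sum_eq_zero
      intro j hj
      rw [mem_degreeLT] at hx1
      have h1 : j < n * D - 1 := by
        have h2 : (j : WithBot ℕ) ≤ x.degree := le_degree_of_ne_zero (mem_support_iff.1 hj)
        exact_mod_cast lt_of_le_of_lt h2 hx1
      rw [hno j h1, mul_zero])
  obtain ⟨T2, hT2⟩ := hV
  have hinf : Infinite k := IsAlgClosed.instInfinite
  obtain ⟨b0, hb0⟩ := Infinite.exists_notMem_finset (T1 ∪ T2 ∪ T' ∪ Finset.univ.image b)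
  simp only [Finset.mem_union, not_or, Finset.mem_image, Finset.mem_univ, true_and] at hb0
  obtain ⟨⟨⟨hbT1, hbT2⟩, hbT'⟩, hbim⟩ := hb0
  obtain ⟨v, h0, hv1, hv2⟩ := hT1 b0 hbT1
  have hVF := hT2 b0 hbT2
  have hv3 : grad F (ve g b0) v = 0 := by
    rw [← S4a_evalgrad, ← hv1, eval_mul, eval_sub, eval_X, eval_C, sub_self, zero_mul]
  have hv4 := hVF v hv3
  have hexw : ∃ w ∈ Dir F (ve g b0),
      ∑ i, (dq l (MvPolynomial.aeval g (MvPolynomial.pderiv i F))).eval b0 * w i ≠ 0 := by
    by_contra hno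
    push Not at hno
    apply hv2
    rw [S4a_lam F g b0 l v h0 hv1]
    refine Submodule.span_induction (p := fun v _ =>
      ∑ i, (dq l (MvPolynomial.aeval g (MvPolynomial.pderiv i F))).eval b0 * v i = 0)
      hno ?_ ?_ ?_ hv4
    · simp
    · intro x y _ _ hx hy
      simp only [Pi.add_apply, mul_add, Finset.sum_add_distrib]
      rw [hx, hy, add_zero]
    · intro c x _ hx
      calc ∑ i, (dq l (MvPolynomial.aeval g (MvPolynomial.pderiv i F))).eval b0 * (c • x) i
          = c * ∑ i, (dq l (MvPolynomial.aeval g (MvPolynomial.pderiv i F))).eval b0 * x i := by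
            rw [Finset.mul_sum]
            exact Finset.sum_congr rfl fun i _ => by rw [Pi.smul_apply, smul_eq_mul]; ring
        _ = 0 := by rw [hx, mul_zero]
  obtain ⟨w, hw, hwne⟩ := hexw
  have hw0 := dir_sub F _ w hw
  obtain ⟨d0, γ, hγ, hγ0, hγ1⟩ := hw
  have hroot : IsRoot (grad F g (fun i => C (w i))) b0 := by
    rw [IsRoot.def, S4a_evalgrad, hw0]
  obtain ⟨h1, hh1⟩ := dvd_iff_isRoot.2 hroot
  have hne1 : f h1 ≠ 0 := by
    rw [← hprl, S4a_lam F g b0 l w h1 hh1.symm]
    exact hwne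
  have hnot : h1 ∉ S4a_W F D g h := fun hmem => hne1 (hfW' h1 hmem)
  have hheq : (X - C b0) * h1 = grad F g (fun a => C ((γ a).coeff 1)) := by
    rw [← hh1, ← hγ1]
    rfl
  have hd1 := S4a_hdeg hn F hF D hD g hg b0 w h1 hh1.symm
  have hlt : S4a_W F D g h < S4a_W F D g (Fin.cons h1 h : Fin (m + 1) → k[X]) := by
    refine lt_of_le_of_ne (S4a_le_cons F D g h h1) ?_
    intro he
    apply hnot
    rw [he]
    exact S4a_cons_mem F D g h h1
  have hle2 : S4a_W F D g (Fin.cons h1 h : Fin (m + 1) → k[X]) ≤ degreeLT k (n * D - 1) := by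
    apply S4a_le_lt hn F hF D hD g hg
    intro i
    refine Fin.cases ?_ ?_ i
    · exact hd1
    · exact hdeg
  have hfd : FiniteDimensional k (degreeLT k (n * D - 1)) := by
    exact Module.Finite.equiv (degreeLTEquiv k (n * D - 1)).symm
  have hfd2 : FiniteDimensional k (S4a_W F D g (Fin.cons h1 h : Fin (m + 1) → k[X])) :=
    Submodule.finiteDimensional_of_le hle2
  have hf1 := Submodule.finrank_lt_finrank_of_lt hlt
  have hf2 := Submodule.finrank_mono hle2
  refine ih _ (by omega) (m + 1) (Fin.cons b0 b : Fin (m + 1) → k)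
    (Fin.cons d0 d : Fin (m + 1) → ℕ) (Fin.cons γ τ : Fin (m + 1) → Fin (n + 1) → k[X])
    (Fin.cons h1 h : Fin (m + 1) → k[X]) ?_ ?_ ?_ ?_ ?_ rfl
  · rw [Fin.cons_injective_iff]
    refine ⟨?_, hb⟩
    rintro ⟨i, hi⟩
    exact hbim ⟨i, hi⟩
  · intro i
    refine Fin.cases ?_ ?_ i
    · exact hbT'
    · exact hbT
  · intro i
    refine Fin.cases ?_ ?_ i
    · exact hγ
    · exact hfree
  · intro i
    refine Fin.cases ?_ ?_ i
    · intro a
      exact congrFun hγ0 a
    · exact hval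
  · intro i
    refine Fin.cases ?_ ?_ i
    · exact hheq
    · exact heq

theorem batch {k : Type} [Field k] [IsAlgClosed k] {n : ℕ} (hn : 2 ≤ n)
    (F : MvPolynomial (Fin (n + 1)) k) (hF : F.IsHomogeneous n) (hSm : Sm F) (D : ℕ) (hD : 1 ≤ D)
    (g : Fin (n + 1) → k[X]) (hg : On F D g) (hprim : Ideal.span (Set.range g) = ⊤)
    (hlead : vc g D ≠ 0) (hV : ∃ T : Finset k, ∀ b ∉ T, VF F (ve g b)) (T' : Finset k) :
    ∃ (m : ℕ) (b : Fin m → k) (d : Fin m → ℕ) (τ : Fin m → Fin (n + 1) → k[X]) (h : Fin m → k[X]),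
      Function.Injective b ∧ (∀ i, b i ∉ T') ∧ (∀ i, Free F (d i) (τ i)) ∧
      (∀ i a, (τ i a).coeff 0 = (g a).eval (b i)) ∧
      (∀ i, (X - C (b i)) * h i = grad F g (fun a => C ((τ i a).coeff 1))) ∧
      ∀ f : k[X], f.degree < (n * D - 1 : ℕ) → ∃ (a : Fin (n + 1) → k[X]) (μ : Fin m → k),
        (∀ i, (a i).degree < (D - 1 : ℕ)) ∧ f = grad F g a + ∑ i, C (μ i) * h i := by
  exact S4a_main hn F hF hSm D hD g hg hprim hlead hV T' _ 0 Fin.elim0 Fin.elim0 Fin.elim0
    Fin.elim0 (fun i => Fin.elim0 i) (fun i => Fin.elim0 i) (fun i => Fin.elim0 i)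
    (fun i => Fin.elim0 i) (fun i => Fin.elim0 i) rfl

end Q9
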