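import Pool.Agent.LibQ9.SDefs

/-!
[Q9 S7a] (MEDIUM; only definitions) A valuation ring of `Ω` in which the generic point `y` of the cone specialises to the point `x`.

PLAN. `A = Algebra.adjoin k (range y)` (as a subring of `Ω`); the ideal `I` of `A` = image of `ker (aeval x : MvPolynomial (Fin (n+1)) k →ₐ[k] k)` under the surjection `MvPolynomial → A`, `G ↦ aeval y G`. `I ≠ ⊤`: if `1 = aeval y G` with `aeval x G = 0` then `F ∣ 1 - G` (`Gen F y`), so `0 = aeval x (1 - G) = 1`. `Ideal.image_subset_nonunits_valuationSubring` (used in the same way in `Pool/Agent/LibUniqPt67/V.lean`, `v_exists`) gives a valuation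
subring `B ⊇ A` of `Ω` with `I ⊆ B.nonunits`. `κ` = algebraic closure of the residue field `IsLocalRing.ResidueField B`, `red` = residue map followed by the embedding; `Algebra k κ` via `k → B → κ`. `IsUnit a ↔ red a ≠ 0`: residue map of a local ring. Roots: `Ω` is algebraically closed and `B` is integrally closed in `Ω` (or: for `π ∈ Ω` with `π^N = y ∈ B`, `π ∈ B` or `π⁻¹ ∈ B`; in the second case `π = π⁻¹^(N-1) * y ∈ B`).
`y i - x i ∈ I`, so it is a nonunit and `red (y i) = algebraMap (x i)`.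
-/

set_option autoImplicit false

namespace Q9

theorem exists_val {k : Type} [Field k] {n : ℕ} (F : MvPolynomial (Fin (n + 1)) k) {Ω : Type}
    [Field Ω] [Algebra k Ω] [IsAlgClosed Ω] (y : Fin (n + 1) → Ω) (hy : Gen F y)
    (x : Fin (n + 1) → k) (hx : MvPolynomial.aeval x F = 0) :
    ∃ (κ : Type) (_ : Field κ) (_ : Algebra k κ) (B : ValuationSubring Ω) (red : B →+* κ),
      IsAlgClosed κ ∧ (∀ a : B, IsUnit a ↔ red a ≠ 0) ∧
      (∀ (y : B) (N : ℕ), 0 < N → ∃ π : B, π ^ N = y) ∧
      (∀ c : k, ∃ h : algebraMap k Ω c ∈ B, red ⟨algebraMap k Ω c, h⟩ = algebraMap k κ c) ∧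
      ∀ i, ∃ h : y i ∈ B, red ⟨y i, h⟩ = algebraMap k κ (x i) := by
  let φ : MvPolynomial (Fin (n + 1)) k →+* Ω := (MvPolynomial.aeval y : MvPolynomial (Fin (n + 1)) k →ₐ[k] Ω).toRingHom
  have hφ : ∀ G, φ G = MvPolynomial.aeval y G := fun G => rfl
  let J : Ideal (MvPolynomial (Fin (n + 1)) k) :=
    RingHom.ker (MvPolynomial.aeval x : MvPolynomial (Fin (n + 1)) k →ₐ[k] k).toRingHom
  have hJ : ∀ G, G ∈ J ↔ MvPolynomial.aeval x G = 0 := fun G => RingHom.mem_ker
  have hsurj : Function.Surjective φ.rangeRestrict := φ.rangeRestrict_surjective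
  obtain ⟨B, hB1, hB2⟩ := Ideal.image_subset_nonunits_valuationSubring
    (A := φ.range) (J.map φ.rangeRestrict) (by
      intro h
      have h1 : (1 : φ.range) ∈ J.map φ.rangeRestrict := by
        rw [h]
        exact Submodule.mem_top
      obtain ⟨G, hG, hG1⟩ := (Ideal.mem_map_iff_of_surjective _ hsurj).1 h1
      have h2 : MvPolynomial.aeval y G = 1 := congrArg Subtype.val hG1
      have h3 : MvPolynomial.aeval y (G - 1) = 0 := by
        rw [map_sub, map_one, h2, sub_self]
      obtain ⟨H, hH⟩ := (hy _).1 h3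
      have h4 : MvPolynomial.aeval x (G - 1) = 0 := by
        rw [hH, map_mul, hx, zero_mul]
      rw [map_sub, map_one, (hJ G).1 hG, zero_sub] at h4
      exact one_ne_zero (neg_eq_zero.1 h4))
  have hmem : ∀ G, MvPolynomial.aeval y G ∈ B := fun G => hB1 ⟨G, rfl⟩
  have hnon : ∀ G, MvPolynomial.aeval x G = 0 → MvPolynomial.aeval y G ∈ B.nonunits := fun G hG =>
    hB2 ⟨φ.rangeRestrict G, Ideal.mem_map_of_mem _ ((hJ G).2 hG), rfl⟩
  have hC : ∀ c : k, algebraMap k Ω c ∈ B := fun c => by
    have h := hmem (MvPolynomial.C c)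
    rwa [MvPolynomial.aeval_C] at h
  have hX : ∀ i, y i ∈ B := fun i => by
    have h := hmem (MvPolynomial.X i)
    rwa [MvPolynomial.aeval_X] at h
  let ψ : k →+* B := (algebraMap k Ω).codRestrict B.toSubring hC
  let κ : Type := AlgebraicClosure (IsLocalRing.ResidueField B)
  let ι : IsLocalRing.ResidueField B →+* κ := algebraMap (IsLocalRing.ResidueField B) (AlgebraicClosure (IsLocalRing.ResidueField B))
  let red : B →+* κ := ι.comp (IsLocalRing.residue B)
  have hι : Function.Injective ι := ι.injective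
  refine ⟨κ, inferInstanceAs (Field (AlgebraicClosure (IsLocalRing.ResidueField B))),
    (red.comp ψ).toAlgebra, B, red, ?_, fun a => ?_, fun z N hN => ?_, fun c => ⟨hC c, rfl⟩,
    fun i => ⟨hX i, ?_⟩⟩
  · exact inferInstanceAs (IsAlgClosed (AlgebraicClosure (IsLocalRing.ResidueField B)))
  · rw [← IsLocalRing.residue_ne_zero_iff_isUnit]
    show IsLocalRing.residue B a ≠ 0 ↔ ι (IsLocalRing.residue B a) ≠ 0
    rw [Ne, Ne, map_eq_zero_iff ι hι]
  · obtain ⟨w, hw⟩ := IsAlgClosed.exists_pow_nat_eq (z : Ω) hN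
    have hwB : w ∈ B := by
      rcases B.mem_or_inv_mem w with h | h
      · exact h
      · by_cases h0 : w = 0
        · rw [h0]
          exact B.zero_mem
        · have h1 : w = w⁻¹ ^ (N - 1) * (z : Ω) := by
            rw [← hw]
            obtain ⟨M, rfl⟩ : ∃ M, N = M + 1 := ⟨N - 1, by omega⟩
            rw [Nat.add_sub_cancel, pow_succ w, ← mul_assoc, ← mul_pow, inv_mul_cancel₀ h0, one_pow,
              one_mul]
          rw [h1]
          exact B.mul_mem _ _ (pow_mem h _) z.2
    exact ⟨⟨w, hwB⟩, Subtype.ext hw⟩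
  · have h1 := hnon (MvPolynomial.X i - MvPolynomial.C (x i)) (by
      rw [map_sub, MvPolynomial.aeval_X, MvPolynomial.aeval_C]
      exact sub_self _)
    have h2 : (((⟨y i, hX i⟩ : B) - ψ (x i) : B) : Ω) =
        MvPolynomial.aeval y (MvPolynomial.X i - MvPolynomial.C (x i)) := by
      rw [map_sub, MvPolynomial.aeval_X, MvPolynomial.aeval_C]
      rfl
    rw [← h2, ValuationSubring.coe_mem_nonunits_iff] at h1
    have h3 : IsLocalRing.residue B ((⟨y i, hX i⟩ : B) - ψ (x i)) = 0 :=
      (IsLocalRing.residue_eq_zero_iff _).2 h1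
    rw [map_sub, sub_eq_zero] at h3
    show ι (IsLocalRing.residue B ⟨y i, hX i⟩) = ι (IsLocalRing.residue B (ψ (x i)))
    rw [h3]

end Q9
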