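import Pool.Agent.LibQ9.T0
import Pool.Agent.LibQ9.C7
import Pool.Agent.LibQ9.B2

/-!
[Q9 T1] (MEDIUM; may cite `comb` (C7), T0, B2 as stated) Directions of free curves are in `Pos` of a free curve of minimal corank.

PLAN. Suppose `v = vc γ₂ 1 ∉ Pos F d₁ γ₁`. `grad F (γ₁(0)) v = 0` (coefficient of `X` in `F(γ₂) = 0`, `γ₁(0) = γ₂(0)`), so `grad F γ₁ (C v) = X * h`, `deg h < n d₁ - 1`. Apply `comb` with base field `κ`, the form `F' = map (algebraMap k κ) F` (T0), `g = γ₁`, `D = d₁`, `c0 = 1`, `m = 1`, `b = 0`, tooth `γ₂`, `h`: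
`hspan`: `γ₁` is free (`μ = 0`); `hrel`: `- h = grad F γ₁ a` with `deg a < d₁` and `μ = 1`; `hcor` with `r = s - 1`: the image of `{deg < d₁ - 1}` together with the `s` elements of `Cor s` spans `{deg < n d₁ - 1}`; `h` is not in the image `I` (if `h = grad F γ₁ a'`, `deg a' < d₁ - 1`, then
`C v - X a'` is in the kernel, of degree `< d₁` (note `d₁ ≥ 2` or `a' = 0`), with value `v` at `0`, so `v ∈ Pos`). So `{deg < nd₁-1}/(I + κ h)` is spanned by `s - 1` elements (dimension of `{..}/I` is `≤ s`): choose `θ`. `comb` gives a free curve over `κ` with `Cor (s - 1)`, contradicting `MinC`.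
-/

set_option autoImplicit false

namespace Q9

open Polynomial

private theorem T1_coeff_zero {k : Type} [Field k] {n : ℕ} {κ : Type} [Field κ] [Algebra k κ]
    (γ : Fin (n + 1) → κ[X]) (P : MvPolynomial (Fin (n + 1)) k) :
    (MvPolynomial.aeval γ P).coeff 0 = MvPolynomial.aeval (vc γ 0) P := by
  induction P using MvPolynomial.induction_on with
  | C c =>
    rw [MvPolynomial.algHom_C, MvPolynomial.algHom_C, IsScalarTower.algebraMap_apply k κ κ[X],
      algebraMap_eq, coeff_C_zero]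
  | add P Q hP hQ => rw [map_add, map_add, coeff_add, hP, hQ]
  | mul_X P i hP =>
    rw [map_mul, map_mul, mul_coeff_zero, hP, MvPolynomial.aeval_X, MvPolynomial.aeval_X]
    rfl

private theorem T1_prod {n : ℕ} {κ : Type} [Field κ] {d : ℕ} {γ : Fin (n + 1) → κ[X]}
    (h : ∀ i, (γ i).natDegree ≤ d) (s : Fin (n + 1) →₀ ℕ) (T : Finset (Fin (n + 1))) :
    (∏ i ∈ T, γ i ^ s i).natDegree ≤ (∑ i ∈ T, s i) * d := by
  classical
  induction T using Finset.induction_on with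
  | empty => simp
  | insert j T hj ih =>
    rw [Finset.prod_insert hj, Finset.sum_insert hj, add_mul]
    exact natDegree_mul_le.trans
      (Nat.add_le_add (natDegree_pow_le.trans (Nat.mul_le_mul_left _ (h j))) ih)

private theorem T1_form {k : Type} [Field k] {n : ℕ} {κ : Type} [Field κ] [Algebra k κ] {d m : ℕ}
    {P : MvPolynomial (Fin (n + 1)) k} (hP : P.IsHomogeneous m) {γ : Fin (n + 1) → κ[X]}
    (h : ∀ i, (γ i).natDegree ≤ d) : (MvPolynomial.aeval γ P).natDegree ≤ m * d := by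
  rw [MvPolynomial.aeval_def, MvPolynomial.eval₂_eq']
  refine natDegree_sum_le_of_forall_le _ _ fun s hs => ?_
  have h1 := T1_prod h s Finset.univ
  have h2 : ∑ i, s i = m := by
    have h3 := hP (MvPolynomial.mem_support_iff.1 hs)
    rw [← h3, Finsupp.weight_apply, Finsupp.sum_fintype _ _ (fun i => by simp)]
    simp
  rw [h2] at h1
  refine natDegree_mul_le.trans ?_
  rw [IsScalarTower.algebraMap_apply k κ κ[X], algebraMap_eq, natDegree_C, zero_add]
  exact h1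

private theorem T1_grad_add {k : Type} [Field k] {n : ℕ} (F : MvPolynomial (Fin (n + 1)) k)
    {S : Type} [CommRing S] [Algebra k S] (x a b : Fin (n + 1) → S) :
    grad F x (fun i => a i + b i) = grad F x a + grad F x b := by
  unfold grad
  rw [← Finset.sum_add_distrib]
  exact Finset.sum_congr rfl fun i _ => mul_add _ _ _

private theorem T1_grad_mul {k : Type} [Field k] {n : ℕ} (F : MvPolynomial (Fin (n + 1)) k)
    {S : Type} [CommRing S] [Algebra k S] (x a : Fin (n + 1) → S) (c : S) :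
    grad F x (fun i => c * a i) = c * grad F x a := by
  unfold grad
  rw [Finset.mul_sum]
  exact Finset.sum_congr rfl fun i _ => by ring

private theorem T1_grad_sub {k : Type} [Field k] {n : ℕ} (F : MvPolynomial (Fin (n + 1)) k)
    {S : Type} [CommRing S] [Algebra k S] (x a b : Fin (n + 1) → S) (c : S) :
    grad F x (fun i => a i - c * b i) = grad F x a - c * grad F x b := by
  have h1 : (fun i => a i - c * b i) = fun i => a i + (-c) * b i := by
    funext i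
    ring
  rw [h1, T1_grad_add F x a (fun i => (-c) * b i), T1_grad_mul]
  ring

private theorem T1_grad_map {k : Type} [Field k] {n : ℕ} (F : MvPolynomial (Fin (n + 1)) k)
    {κ : Type} [Field κ] [Algebra k κ] (x a : Fin (n + 1) → κ[X]) :
    grad (MvPolynomial.map (algebraMap k κ) F) x a = grad F x a := by
  unfold grad
  refine Finset.sum_congr rfl fun i _ => ?_
  rw [MvPolynomial.pderiv_map, MvPolynomial.aeval_map_algebraMap]

/-- exchange: if `H` is not in the image, it replaces one of the generators of the cokernel -/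
private theorem T1_exchange {k : Type} [Field k] {n : ℕ} (F : MvPolynomial (Fin (n + 1)) k)
    {κ : Type} [Field κ] [Algebra k κ] (d t : ℕ) (γ : Fin (n + 1) → κ[X]) (H : κ[X])
    (hH : H.degree < (n * d - 1 : ℕ)) (hc : Cor F d γ (t + 1))
    (hn : ¬ ∃ a : Fin (n + 1) → κ[X], (∀ i, (a i).degree < (d - 1 : ℕ)) ∧ H = grad F γ a) :
    ∃ θ : Fin t → κ[X], (∀ j, (θ j).degree < (n * d - 1 : ℕ)) ∧
      ∀ f : κ[X], f.degree < (n * d - 1 : ℕ) → ∃ (a : Fin (n + 1) → κ[X]) (μ : κ) (ν : Fin t → κ),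
        (∀ i, (a i).degree < (d - 1 : ℕ)) ∧ f = grad F γ a + C μ * H + ∑ j, C (ν j) * θ j := by
  obtain ⟨θ', hθ', hc'⟩ := hc
  obtain ⟨a₀, μ₀, ha₀, hH₀⟩ := hc' H hH
  obtain ⟨j₀, hj₀⟩ : ∃ j, μ₀ j ≠ 0 := by
    by_contra hcon
    push Not at hcon
    refine hn ⟨a₀, ha₀, ?_⟩
    rw [hH₀, Finset.sum_eq_zero fun j _ => by rw [hcon j, C_0, zero_mul], add_zero]
  rw [Fin.sum_univ_succAbove _ j₀] at hH₀
  refine ⟨fun j => θ' (j₀.succAbove j), fun j => hθ' _, fun f hf => ?_⟩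
  obtain ⟨a, μ, ha, hfa⟩ := hc' f hf
  rw [Fin.sum_univ_succAbove _ j₀] at hfa
  refine ⟨fun i => a i - C (μ j₀ / μ₀ j₀) * a₀ i, μ j₀ / μ₀ j₀,
    fun j => μ (j₀.succAbove j) - μ j₀ / μ₀ j₀ * μ₀ (j₀.succAbove j), fun i => ?_, ?_⟩
  · refine lt_of_le_of_lt (degree_sub_le _ _) (max_lt (ha i) ?_)
    rw [← smul_eq_C_mul]
    exact lt_of_le_of_lt (degree_smul_le _ _) (ha₀ i)
  · have h1 : C (μ j₀ / μ₀ j₀) * C (μ₀ j₀) = C (μ j₀) := by
      rw [← C_mul, div_mul_cancel₀ _ hj₀]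
    have h2 : ∑ j : Fin t, C (μ (j₀.succAbove j) - μ j₀ / μ₀ j₀ * μ₀ (j₀.succAbove j)) *
        θ' (j₀.succAbove j) = ∑ j : Fin t, C (μ (j₀.succAbove j)) * θ' (j₀.succAbove j) -
          C (μ j₀ / μ₀ j₀) * ∑ j : Fin t, C (μ₀ (j₀.succAbove j)) * θ' (j₀.succAbove j) := by
      rw [Finset.mul_sum, ← Finset.sum_sub_distrib]
      refine Finset.sum_congr rfl fun j _ => ?_
      rw [C_sub, C_mul]
      ring
    rw [T1_grad_sub, h2, hfa]
    conv_rhs => rw [hH₀]
    rw [← h1]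
    ring

theorem dir_mem {k : Type} [Field k] {n : ℕ} (hn : 2 ≤ n) (F : MvPolynomial (Fin (n + 1)) k)
    (hF : F.IsHomogeneous n) (s : ℕ) (hs : 1 ≤ s) (hmin : MinC F s) {κ : Type} [Field κ]
    [IsAlgClosed κ] [Algebra k κ] (d₁ d₂ : ℕ) (γ₁ γ₂ : Fin (n + 1) → κ[X]) (h₁ : Free F d₁ γ₁)
    (hc₁ : Cor F d₁ γ₁ s) (h₂ : Free F d₂ γ₂) (h0 : vc γ₁ 0 = vc γ₂ 0) :
    vc γ₂ 1 ∈ Pos F d₁ γ₁ := by
  classical
  by_contra hv
  obtain ⟨v, hvd⟩ : ∃ v, v = vc γ₂ 1 := ⟨_, rfl⟩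
  rw [← hvd] at hv
  have hd₁ : 1 ≤ d₁ := h₁.1
  -- the class of the tooth
  have hz : grad F (vc γ₁ 0) v = 0 := by
    rw [h0, hvd]
    exact pos_sub F _ (pos_deriv F h₂.1 h₂.2.1)
  have hG0 : (grad F γ₁ (fun i => C (v i))).coeff 0 = 0 := by
    rw [← hz]
    unfold grad
    rw [finsetSum_coeff]
    refine Finset.sum_congr rfl fun i _ => ?_
    rw [mul_coeff_zero, T1_coeff_zero, coeff_C_zero]
  obtain ⟨H, hHX⟩ : ∃ H : κ[X], grad F γ₁ (fun i => C (v i)) = X * H :=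
    X_dvd_iff.2 hG0
  have hGd : (grad F γ₁ (fun i => C (v i))).natDegree ≤ (n - 1) * d₁ := by
    unfold grad
    refine natDegree_sum_le_of_forall_le _ _ fun i _ => ?_
    refine natDegree_mul_le.trans ?_
    rw [natDegree_C, add_zero]
    exact T1_form (hF.pderiv (i := i)) h₁.2.1.1
  have e1 : n * d₁ = (n - 1) * d₁ + d₁ := by
    obtain ⟨m, rfl⟩ : ∃ m, n = m + 1 := ⟨n - 1, by omega⟩
    simp only [Nat.add_sub_cancel]
    ring
  have hHc : ∀ N, (n - 1) * d₁ ≤ N → H.coeff N = 0 := by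
    intro N hN
    have h3 : (X * H).coeff (N + 1) = 0 := by
      rw [← hHX]
      exact coeff_eq_zero_of_natDegree_lt (by omega)
    rwa [coeff_X_mul] at h3
  have hHd : H.degree < (n * d₁ - 1 : ℕ) := by
    rw [degree_lt_iff_coeff_zero]
    intro N hN
    exact hHc N (by omega)
  have hHd' : (-H).degree < (n * d₁ : ℕ) := by
    rw [degree_neg, degree_lt_iff_coeff_zero]
    intro N hN
    exact hHc N (by omega)
  -- it is not in the image
  have hni : ¬ ∃ a : Fin (n + 1) → κ[X], (∀ i, (a i).degree < (d₁ - 1 : ℕ)) ∧ H = grad F γ₁ a := by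
    rintro ⟨a, ha, hHa⟩
    refine hv ⟨fun i => C (v i) - X * a i, fun i => ?_, ?_, fun i => ?_⟩
    · rw [degree_lt_iff_coeff_zero]
      intro N hN
      obtain ⟨M, rfl⟩ : ∃ M, N = M + 1 := ⟨N - 1, by omega⟩
      rw [coeff_sub, coeff_X_mul, (degree_lt_iff_coeff_zero _ _).1 (ha i) M (by omega), sub_zero,
        coeff_C, if_neg (by omega)]
    · rw [T1_grad_sub F γ₁ (fun i => C (v i)) a X, hHX, ← hHa, sub_self]
    · rw [coeff_sub, mul_coeff_zero, coeff_X_zero, zero_mul, sub_zero, coeff_C_zero]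
  obtain ⟨t, rfl⟩ : ∃ t, s = t + 1 := ⟨s - 1, by omega⟩
  obtain ⟨θ, hθ, hcor⟩ := T1_exchange F d₁ t γ₁ H hHd hc₁ hni
  obtain ⟨a₁, ha₁, hga₁⟩ := h₁.2.2 _ hHd'
  have hon : On (MvPolynomial.map (algebraMap k κ) F) d₁ γ₁ := (on_bc F d₁ γ₁).2 h₁.2.1
  have hfr : Free (MvPolynomial.map (algebraMap k κ) F) d₂ γ₂ := (free_bc F d₂ γ₂).2 h₂
  obtain ⟨γ, hγ, hγc, -⟩ := comb hn (MvPolynomial.map (algebraMap k κ) F) (hF.map _) d₁ 1 hd₁
    (Or.inl rfl) γ₁ hon (m := 1) (fun _ => (0 : κ)) (fun a b _ => Subsingleton.elim a b)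
    (fun _ => d₂) (fun _ => γ₂) (fun _ => hfr)
    (fun _ a => by
      rw [← coeff_zero_eq_eval_zero]
      exact (congrFun h0 a).symm)
    (fun _ => H)
    (fun _ => by
      rw [C_0, sub_zero, T1_grad_map, ← hHX, hvd]
      rfl)
    (fun f hf => by
      rw [Nat.add_sub_cancel] at hf
      obtain ⟨a, ha, hga⟩ := h₁.2.2 f hf
      refine ⟨a, fun _ => 0, fun i => ?_, ?_⟩
      · rw [Nat.add_sub_cancel]
        exact ha i
      · rw [T1_grad_map, hga, Finset.sum_eq_zero fun j _ => by rw [C_0, zero_mul], add_zero])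
    ⟨a₁, fun _ => 1, fun i => by
      rw [Nat.add_sub_cancel]
      exact ha₁ i, by
      rw [T1_grad_map, hga₁, Fin.sum_univ_one, C_1, one_mul, neg_add_cancel],
      fun _ => one_ne_zero⟩
    t θ hθ
    (fun f hf => by
      obtain ⟨a, μ, ν, ha, hfa⟩ := hcor f hf
      refine ⟨a, fun _ => μ, ν, ha, ?_⟩
      rw [T1_grad_map, Fin.sum_univ_one]
      exact hfa)
  exact hmin.2 κ _ γ ((free_bc F _ γ).1 hγ) t (Nat.lt_succ_self t) ((cor_bc F _ t γ).1 hγc)

end Q9
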