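import Pool.Agent.LibQ9.TDefs
import Pool.Agent.LibQ9.B4

/-!
[Q9 T1a] (SHORT; may cite B4 `transfer` as stated) The minimal corank exists.

PLAN. `Cor F d γ (n * d - 1)` always holds (`θ j = X ^ j`). Let `s` be the least natural number for which there is a free curve over `k` with `Cor s` (`Nat.find`). If a free curve over `κ` has `Cor c` with `c < s`, `transfer` gives one over `k`.
-/

set_option autoImplicit false

namespace Q9

open Polynomial

theorem exists_minC {k : Type} [Field k] [IsAlgClosed k] {n : ℕ} (F : MvPolynomial (Fin (n + 1)) k)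
    (h : ∃ (d : ℕ) (γ : Fin (n + 1) → k[X]), Free F d γ) : ∃ s, MinC F s := by
  classical
  obtain ⟨d0, γ0, h0⟩ := h
  have hex : ∃ s, ∃ (d : ℕ) (γ : Fin (n + 1) → k[X]), Free F d γ ∧ Cor F d γ s := by
    refine ⟨n * d0 - 1, d0, γ0, h0, fun j => X ^ (j : ℕ), ?_, ?_⟩
    · intro j
      rw [degree_X_pow]
      exact_mod_cast j.2
    · intro f hf
      refine ⟨fun _ => 0, fun j => f.coeff j, ?_, ?_⟩
      · intro i
        rw [degree_zero]
        exact WithBot.bot_lt_coe _
      · have hg : grad F γ0 (fun _ => 0) = 0 := by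
          simp [grad]
        rw [hg, zero_add]
        rcases eq_or_ne f 0 with hf0 | hf0
        · rw [hf0]
          simp
        · conv_lhs => rw [f.as_sum_range' (n * d0 - 1) ((natDegree_lt_iff_degree_lt hf0).2 hf)]
          rw [Finset.sum_range]
          refine Finset.sum_congr rfl fun j _ => ?_
          rw [C_mul_X_pow_eq_monomial]
  obtain ⟨d1, γ1, h1, h2⟩ := Nat.find_spec hex
  refine ⟨Nat.find hex, ⟨d1, γ1, h1, h2⟩, ?_⟩
  intro κ _ _ d γ hγ c hc hcor
  obtain ⟨γ', h3, h4, -⟩ := transfer F d c γ hγ hcor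
  exact Nat.find_min hex hc ⟨d, γ', h3, h4⟩

end Q9
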