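import Pool.Agent.LibQ9.T1
import Pool.Agent.LibQ9.P9
import Pool.Agent.LibQ9.B3
import Pool.Agent.LibQ9.B5
import Pool.Agent.LibQ9.B6

/-!
[Q9 T2] `Pos` of a free curve is contained in `Pos` of a free curve of minimal corank through the same point.
-/

set_option autoImplicit false

namespace Q9

open Polynomial

/-- coefficients of `lin` -/
private theorem T2_lin_coeff {R : Type} [CommRing R] {n d : ℕ} (z : Fin (n + 1) × Fin d → R)
    (i : Fin (n + 1)) (m : ℕ) : (lin d z i).coeff m = if h : m < d then z (i, ⟨m, h⟩) else 0 := by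
  unfold lin
  rw [Polynomial.finsetSum_coeff]
  simp only [Polynomial.coeff_C_mul, Polynomial.coeff_X_pow]
  by_cases h : m < d
  · rw [dif_pos h, Finset.sum_eq_single ⟨m, h⟩]
    · simp
    · intro b _ hb
      have : m ≠ (b : ℕ) := fun h' => hb (Fin.ext h'.symm)
      simp [this]
    · intro h'
      exact absurd (Finset.mem_univ _) h'
  · rw [dif_neg h]
    refine Finset.sum_eq_zero fun b _ => ?_
    have : m ≠ (b : ℕ) := fun h' => h (h' ▸ b.2)
    simp [this]

private theorem T2_lin_of {κ : Type} [Field κ] {n d : ℕ} (a : Fin (n + 1) → κ[X])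
    (ha : ∀ i, (a i).degree < (d : ℕ)) :
    lin d (fun w : Fin (n + 1) × Fin d => (a w.1).coeff w.2) = a := by
  funext i
  ext m
  rw [T2_lin_coeff]
  by_cases h : m < d
  · rw [dif_pos h]
  · rw [dif_neg h]
    exact ((Polynomial.degree_lt_iff_coeff_zero _ _).1 (ha i) m (by omega)).symm

/-- `γ = q + X lin z` -/
private theorem T2_split {κ : Type} [Field κ] {n d : ℕ} (γ : Fin (n + 1) → κ[X])
    (h : ∀ i, (γ i).natDegree ≤ d) (i : Fin (n + 1)) :
    C (vc γ 0 i) + X * lin d (fun w : Fin (n + 1) × Fin d => (γ w.1).coeff (w.2 + 1)) i = γ i := by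
  ext m
  rcases m with _ | m
  · rw [coeff_add, coeff_C_zero, Polynomial.mul_coeff_zero, coeff_X_zero, zero_mul, add_zero]
    rfl
  · rw [coeff_add, coeff_C_succ, coeff_X_mul, T2_lin_coeff, zero_add]
    by_cases hm : m < d
    · rw [dif_pos hm]
    · rw [dif_neg hm]
      exact (Polynomial.coeff_eq_zero_of_natDegree_lt (by have := h i; omega)).symm

private theorem T2_grad_bc {k : Type} [Field k] {n : ℕ} (F : MvPolynomial (Fin (n + 1)) k)
    {κ : Type} [Field κ] [Algebra k κ] {S : Type} [CommRing S] [Algebra k S] [Algebra κ S]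
    [IsScalarTower k κ S] (x w : Fin (n + 1) → S) :
    grad (MvPolynomial.map (algebraMap k κ) F) x w = grad F x w := by
  unfold grad
  refine Finset.sum_congr rfl fun i _ => ?_
  rw [MvPolynomial.pderiv_map, MvPolynomial.aeval_map_algebraMap]

/-- a linear map applied to the coefficients -/
private noncomputable def T2_mp {κ Ω : Type} [Field κ] [Field Ω] [Algebra κ Ω] (τ : Ω →ₗ[κ] κ)
    (a : Polynomial Ω) : κ[X] := ∑ j ∈ a.support, monomial j (τ (a.coeff j))

private theorem T2_mp_coeff {κ Ω : Type} [Field κ] [Field Ω] [Algebra κ Ω] (τ : Ω →ₗ[κ] κ)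
    (a : Polynomial Ω) (m : ℕ) : (T2_mp τ a).coeff m = τ (a.coeff m) := by
  unfold T2_mp
  rw [Polynomial.finsetSum_coeff]
  simp only [Polynomial.coeff_monomial]
  rw [Finset.sum_ite_eq' a.support m fun j => τ (a.coeff j)]
  by_cases h : m ∈ a.support
  · rw [if_pos h]
  · rw [if_neg h, Polynomial.notMem_support_iff.1 h, map_zero]

private theorem T2_aeval_mp {k : Type} [Field k] {n : ℕ} {κ Ω : Type} [Field κ] [Algebra k κ]
    [Field Ω] [Algebra k Ω] (σ : κ →ₐ[k] Ω) (γ : Fin (n + 1) → κ[X])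
    (G : MvPolynomial (Fin (n + 1)) k) :
    MvPolynomial.aeval (mp (σ : κ →+* Ω) γ) G = (MvPolynomial.aeval γ G).map (σ : κ →+* Ω) := by
  have h := MvPolynomial.comp_aeval_apply γ (Polynomial.mapAlgHom σ) G
  rw [Polynomial.coe_mapAlgHom] at h
  rw [h]
  rfl

/-- linear forms over `κ` killing `Pos` kill `Pos` over `Ω` -/
private theorem T2_pos_ext {k : Type} [Field k] {n : ℕ} (F : MvPolynomial (Fin (n + 1)) k)
    {κ Ω : Type} [Field κ] [Algebra k κ] [Field Ω] [Algebra k Ω] [Algebra κ Ω]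
    [IsScalarTower k κ Ω] (σ : κ →ₐ[k] Ω) (hσ : ∀ x, σ x = algebraMap κ Ω x) (d : ℕ)
    (γ : Fin (n + 1) → κ[X]) (c : Fin (n + 1) → κ)
    (hc : ∀ v ∈ Pos F d γ, ∑ i, c i * v i = 0) (w : Fin (n + 1) → Ω)
    (hw : w ∈ Pos F d (mp (σ : κ →+* Ω) γ)) : ∑ i, algebraMap κ Ω (c i) * w i = 0 := by
  obtain ⟨a, ha, ha0, haw⟩ := hw
  rw [← Module.forall_dual_apply_eq_zero_iff κ]
  intro τ
  have h1 : (fun i => τ (w i)) ∈ Pos F d γ := by
    refine ⟨fun i => T2_mp τ (a i), fun i => ?_, ?_, fun i => ?_⟩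
    · rw [Polynomial.degree_lt_iff_coeff_zero]
      intro m hm
      rw [T2_mp_coeff, (Polynomial.degree_lt_iff_coeff_zero _ _).1 (ha i) m hm, map_zero]
    · ext m
      rw [coeff_zero]
      have h2 := congrArg (fun p => τ (coeff p m)) ha0
      simp only [coeff_zero, map_zero] at h2
      rw [← h2]
      unfold grad
      rw [Polynomial.finsetSum_coeff, Polynomial.finsetSum_coeff, map_sum]
      refine Finset.sum_congr rfl fun i _ => ?_
      rw [T2_aeval_mp, coeff_mul, coeff_mul, map_sum]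
      refine Finset.sum_congr rfl fun x _ => ?_
      rw [T2_mp_coeff, coeff_map]
      change _ = τ (σ _ * _)
      rw [hσ, ← Algebra.smul_def, map_smul, smul_eq_mul]
    · rw [T2_mp_coeff, haw i]
  have h2 := hc _ h1
  rw [map_sum, ← h2]
  refine Finset.sum_congr rfl fun i _ => ?_
  rw [← Algebra.smul_def, map_smul, smul_eq_mul]

theorem pos_le {k : Type} [Field k] {n : ℕ} (hn : 2 ≤ n) (F : MvPolynomial (Fin (n + 1)) k)
    (hF : F.IsHomogeneous n) (s : ℕ) (hs : 1 ≤ s) (hmin : MinC F s) {κ : Type} [Field κ]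
    [IsAlgClosed κ] [Algebra k κ] (d₁ d₂ : ℕ) (γ₁ γ₂ : Fin (n + 1) → κ[X]) (h₁ : Free F d₁ γ₁)
    (hc₁ : Cor F d₁ γ₁ s) (h₂ : Free F d₂ γ₂) (h0 : vc γ₁ 0 = vc γ₂ 0) :
    Pos F d₂ γ₂ ≤ Pos F d₁ γ₁ := by
  intro v' hv'
  by_contra hnot
  obtain ⟨f, hf, hfk⟩ := Submodule.exists_le_ker_of_notMem hnot
  set c : Fin (n + 1) → κ := fun i => f (Pi.single i 1) with hcdef
  have hfc : ∀ v, f v = ∑ i, c i * v i := by
    intro v
    rw [LinearMap.pi_apply_eq_sum_univ f v]
    refine Finset.sum_congr rfl fun i _ => ?_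
    rw [smul_eq_mul, mul_comm]
    congr 2
    funext j
    simp [Pi.single_apply, eq_comm]
  have hck : ∀ v ∈ Pos F d₁ γ₁, ∑ i, c i * v i = 0 := by
    intro v hv
    rw [← hfc]
    exact hfk hv
  set F' : MvPolynomial (Fin (n + 1)) κ := MvPolynomial.map (algebraMap k κ) F with hF'
  have hFh : F'.IsHomogeneous n := hF.map _
  have hd : 1 ≤ d₂ := h₂.1
  have hdeg : ∀ i, (γ₂ i).natDegree ≤ d₂ := h₂.2.1.1
  have hon : MvPolynomial.aeval γ₂ F' = 0 := by
    rw [hF', MvPolynomial.aeval_map_algebraMap]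
    exact h₂.2.1.2
  set q : Fin (n + 1) → κ := vc γ₂ 0 with hq
  set z₀ : Fin (n + 1) × Fin d₂ → κ := fun w => (γ₂ w.1).coeff (w.2 + 1) with hz₀
  have hsplit : (fun i => C (q i) + X * lin d₂ z₀ i) = γ₂ := funext fun i => T2_split γ₂ hdeg i
  have hsplit' : (fun i => C (algebraMap κ κ (q i)) + X * lin d₂ z₀ i) = γ₂ := hsplit
  set Φ : Fin (n * d₂) → MvPolynomial (Fin (n + 1) × Fin d₂) κ := eqB F' q d₂ with hΦ
  have g0 : ∀ j, MvPolynomial.eval z₀ (Φ j) = 0 := by
    intro j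
    have h := eqB_aeval F' q d₂ z₀ j
    rw [hsplit', hon, coeff_zero, MvPolynomial.aeval_eq_eval] at h
    exact h
  have hjac : ∀ (δ : Fin (n + 1) × Fin d₂ → κ) (j : Fin (n * d₂)),
      (Jac Φ z₀).mulVec δ j = (grad F γ₂ (lin d₂ δ)).coeff j := by
    intro δ j
    have h := eqB_deriv F' q d₂ z₀ δ j
    rw [hsplit', T2_grad_bc] at h
    rw [← h]
    rfl
  have hJ : Function.Surjective (Jac Φ z₀).mulVec := by
    intro g
    obtain ⟨a, ha, hag⟩ := h₂.2.2 (∑ j : Fin (n * d₂), C (g j) * X ^ (j : ℕ)) (by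
      rw [Polynomial.degree_lt_iff_coeff_zero]
      intro m hm
      rw [Polynomial.finsetSum_coeff]
      refine Finset.sum_eq_zero fun j _ => ?_
      rw [coeff_C_mul, coeff_X_pow, if_neg (by have := j.2; omega), mul_zero])
    refine ⟨fun w => (a w.1).coeff w.2, funext fun j => ?_⟩
    rw [hjac, T2_lin_of a ha, hag, Polynomial.finsetSum_coeff, Finset.sum_eq_single j]
    · simp
    · intro b _ hb
      rw [coeff_C_mul, coeff_X_pow, if_neg (fun h => hb (Fin.ext h.symm)), mul_zero]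
    · intro h
      exact absurd (Finset.mem_univ _) h
  set Ψ : MvPolynomial (Fin (n + 1) × Fin d₂) κ :=
    ∑ i, MvPolynomial.C (c i) * MvPolynomial.X (i, (⟨0, hd⟩ : Fin d₂)) with hΨd
  have hΨ : ∀ (Ω : Type) [Field Ω] [Algebra κ Ω] [IsAlgClosed Ω]
      (z : Fin (n + 1) × Fin d₂ → Ω), (∀ j, MvPolynomial.aeval z (Φ j) = 0) → Spz z z₀ →
      MvPolynomial.aeval z Ψ = 0 := by
    intro Ω _ _ _ z hz hsp
    let _ : Algebra k Ω := ((algebraMap κ Ω).comp (algebraMap k κ)).toAlgebra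
    have _ : IsScalarTower k κ Ω := IsScalarTower.of_algebraMap_eq fun _ => rfl
    set σ : κ →ₐ[k] Ω := IsScalarTower.toAlgHom k κ Ω with hσ
    have hσ' : ∀ x, σ x = algebraMap κ Ω x := fun x => rfl
    set γ : Fin (n + 1) → Polynomial Ω := fun i => C (algebraMap κ Ω (q i)) + X * lin d₂ z i with hγ
    -- coefficients of `γ`
    have hγ0 : ∀ i, (γ i).coeff 0 = algebraMap κ Ω (q i) := by
      intro i
      rw [hγ]
      simp
    have hγs : ∀ i m, (γ i).coeff (m + 1) = if h : m < d₂ then z (i, ⟨m, h⟩) else 0 := by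
      intro i m
      rw [hγ]
      change (C (algebraMap κ Ω (q i)) + X * lin d₂ z i).coeff (m + 1) = _
      rw [coeff_add, coeff_C_succ, coeff_X_mul, T2_lin_coeff, zero_add]
    have hγd : ∀ i, (γ i).natDegree ≤ d₂ := by
      intro i
      rw [Polynomial.natDegree_le_iff_coeff_eq_zero]
      intro m hm
      obtain ⟨m, rfl⟩ : ∃ m', m = m' + 1 := ⟨m - 1, by omega⟩
      rw [hγs, dif_neg (by omega)]
    -- `γ` is on `F'`
    have hγF : On F' d₂ γ := by
      have h1 := eqA_zero F' hFh d₂ (cf d₂ γ)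
      rw [lin_cf d₂ γ hγd] at h1
      refine h1.1 fun j => ?_
      rw [eqA_aeval, lin_cf d₂ γ hγd]
      obtain ⟨j, hj⟩ := j
      rcases j with _ | j
      · -- the constant coefficient
        have e1 : (MvPolynomial.aeval γ F').coeff 0 =
            MvPolynomial.aeval (fun i => algebraMap κ Ω (q i)) F' := by
          have h3 := MvPolynomial.comp_aeval_apply γ
            ((Polynomial.aeval (0 : Ω)).restrictScalars κ) F'
          rw [AlgHom.restrictScalars_apply, ← Polynomial.coeff_zero_eq_aeval_zero] at h3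
          rw [h3]
          congr 2
          funext i
          rw [AlgHom.restrictScalars_apply, ← Polynomial.coeff_zero_eq_aeval_zero, hγ0]
        have e2 : MvPolynomial.aeval q F' = 0 := by
          have h3 := MvPolynomial.comp_aeval_apply γ₂ (Polynomial.aeval (0 : κ)) F'
          rw [hon, map_zero] at h3
          rw [h3]
          congr 2
          funext i
          rw [← Polynomial.coeff_zero_eq_aeval_zero]
          rfl
        change (MvPolynomial.aeval γ F').coeff 0 = 0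
        rw [e1]
        have h4 := MvPolynomial.aeval_algebraMap_apply Ω q F'
        rw [e2, map_zero] at h4
        exact h4
      · have h2 := hz ⟨j, by omega⟩
        rw [hΦ, eqB_aeval] at h2
        exact h2
    have hsp' : Spz (cf d₂ γ) (cf d₂ γ₂) := by
      intro Ψ' hΨ'
      set ρ : Fin (n + 1) × Fin (d₂ + 1) → MvPolynomial (Fin (n + 1) × Fin d₂) κ :=
        fun w => Fin.cases (MvPolynomial.C (q w.1)) (fun j => MvPolynomial.X (w.1, j)) w.2 with hρ
      have e1 : ∀ w, MvPolynomial.aeval z (ρ w) = cf d₂ γ w := by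
        rintro ⟨i, j⟩
        refine Fin.cases ?_ (fun j => ?_) j
        · change MvPolynomial.aeval z (MvPolynomial.C (q i)) = (γ i).coeff 0
          rw [MvPolynomial.aeval_C, hγ0]
        · change MvPolynomial.aeval z (MvPolynomial.X (i, j)) = (γ i).coeff ((j : ℕ) + 1)
          rw [MvPolynomial.aeval_X, hγs, dif_pos j.2]
      have e2 : ∀ w, MvPolynomial.aeval z₀ (ρ w) = cf d₂ γ₂ w := by
        rintro ⟨i, j⟩
        refine Fin.cases ?_ (fun j => ?_) j
        · change MvPolynomial.aeval z₀ (MvPolynomial.C (q i)) = (γ₂ i).coeff 0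
          rw [MvPolynomial.aeval_C]
          rfl
        · change MvPolynomial.aeval z₀ (MvPolynomial.X (i, j)) = (γ₂ i).coeff ((j : ℕ) + 1)
          rw [MvPolynomial.aeval_X]
      have h3 := hsp (MvPolynomial.bind₁ ρ Ψ') (by
        rw [MvPolynomial.aeval_bind₁, funext e1]
        exact hΨ')
      rw [← MvPolynomial.aeval_eq_eval, MvPolynomial.aeval_bind₁, funext e2] at h3
      rw [← MvPolynomial.aeval_eq_eval]
      exact h3
    have hfree' : Free F' d₂ γ := by
      refine Free.of_spz F' hFh d₂ γ γ₂ hγF ?_ hsp'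
      exact (free_bc F d₂ γ₂).2 h₂
    have hfree : Free F d₂ γ := (free_bc F d₂ γ).1 hfree'
    have hdir := dir_mem hn F hF s hs hmin d₁ d₂ (mp (σ : κ →+* Ω) γ₁) γ (h₁.map F σ)
      (hc₁.map F σ) hfree (by
        funext i
        have h3 : (mp (σ : κ →+* Ω) γ₁ i).coeff 0 = algebraMap κ Ω ((γ₁ i).coeff 0) := by
          unfold mp
          rw [coeff_map]
          rfl
        have h4 : (γ₁ i).coeff 0 = q i := congrFun h0 i
        change (mp (σ : κ →+* Ω) γ₁ i).coeff 0 = (γ i).coeff 0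
        rw [h3, h4, hγ0])
    have h5 := T2_pos_ext F σ hσ' d₁ γ₁ c hck _ hdir
    rw [hΨd, map_sum, ← h5]
    refine Finset.sum_congr rfl fun i _ => ?_
    rw [map_mul, MvPolynomial.aeval_C, MvPolynomial.aeval_X]
    congr 1
    change _ = (γ i).coeff 1
    rw [hγs, dif_pos (by omega)]
  obtain ⟨a, ha, ha0, hav⟩ := hv'
  have key := tangent Φ z₀ g0 hJ Ψ hΨ (fun w => (a w.1).coeff w.2) (by
    funext j
    rw [hjac, T2_lin_of a ha, ha0, coeff_zero]
    rfl)
  apply hf
  rw [hfc, ← key]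
  have hpd : ∀ w, MvPolynomial.eval z₀ (MvPolynomial.pderiv w Ψ) =
      ∑ i, c i * (if w = (i, (⟨0, hd⟩ : Fin d₂)) then 1 else 0) := by
    intro w
    rw [hΨd, map_sum, map_sum]
    refine Finset.sum_congr rfl fun i _ => ?_
    rw [MvPolynomial.pderiv_C_mul, MvPolynomial.pderiv_X, map_mul, MvPolynomial.eval_C,
      Pi.single_apply]
    by_cases h : w = (i, (⟨0, hd⟩ : Fin d₂))
    · rw [if_pos h.symm, if_pos h, map_one]
    · rw [if_neg (fun h' => h h'.symm), if_neg h, map_zero]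
  simp only [hpd, Finset.sum_mul]
  rw [Finset.sum_comm]
  refine Finset.sum_congr rfl fun i _ => ?_
  rw [Finset.sum_eq_single (i, (⟨0, hd⟩ : Fin d₂))]
  · rw [if_pos rfl, mul_one, hav]
  · intro b _ hb
    rw [if_neg hb, mul_zero, zero_mul]
  · intro h
    exact absurd (Finset.mem_univ _) h

theorem pos_eq {k : Type} [Field k] {n : ℕ} (hn : 2 ≤ n) (F : MvPolynomial (Fin (n + 1)) k)
    (hF : F.IsHomogeneous n) (s : ℕ) (hs : 1 ≤ s) (hmin : MinC F s) {κ : Type} [Field κ]
    [IsAlgClosed κ] [Algebra k κ] (d₁ d₂ : ℕ) (γ₁ γ₂ : Fin (n + 1) → κ[X]) (h₁ : Free F d₁ γ₁)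
    (hc₁ : Cor F d₁ γ₁ s) (h₂ : Free F d₂ γ₂) (hc₂ : Cor F d₂ γ₂ s) (h0 : vc γ₁ 0 = vc γ₂ 0) :
    Pos F d₂ γ₂ = Pos F d₁ γ₁ :=
  le_antisymm (pos_le hn F hF s hs hmin d₁ d₂ γ₁ γ₂ h₁ hc₁ h₂ h0)
    (pos_le hn F hF s hs hmin d₂ d₁ γ₂ γ₁ h₂ hc₂ h₁ h0.symm)

end Q9
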