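import Pool.Agent.LibQ9.T0
import Pool.Agent.LibQ9.TG
import Pool.Agent.LibQ9.P3
import Pool.Agent.LibQ9.P4
import Pool.Agent.LibQ9.P5
import Pool.Agent.LibQ9.B2
import Pool.Agent.LibQ9.B5

/-!
[Q9 T3] (MEDIUM; may cite T0, TG, P3, P4, P5, B2, B5 as stated) A curve through a generic point, separable algebraic over the field of the point.

PLAN. `z₀ = cf d γ₀`, system `eqA F d` (`nd + 1` equations, `(n+1)(d+1)` unknowns). Its Jacobian at `z₀` is `δ ↦` coefficients of `grad F γ₀ (lin δ)` (T0 `eqA_deriv`), onto by B2 `span_le`; kernel of dimension `n + d`. The subspace `{δ in the kernel, δ_(i,0) = 0}` has dimension `d`: it is `X a`, `deg a < d`, `grad F γ₀ a = 0`, kernel of a map onto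
`{deg < nd}`: `(n+1) d - n d = d`. Choose `d` linear forms `λ_l` on the space of all `δ` which are independent on that subspace (`⋂ ker λ_l` meets it in `0`). P3 `exists_gen` with the equations `eqA` and `λ_l(z) - λ_l(z₀)`: `nd + 1 + d` equations, so `r = n`: `Ω`, `z`, `td z ≥ n`, `Spz z z₀`. `γ = lin (d+1) z` is on `F` (T0 `eqA_zero`),
free with `Cor s` (B5). A derivation `D : fld k z → Ω` killing the `z_(i,0)` gives `δ = D z` with (P5 `der_rel`) `Jac δ = 0`, `λ_l(δ) = 0`, `δ_(i,0) = 0`; this matrix of polynomials is injective at `z₀`, so at `z` (P5 `inj_of_spz`): `D z = 0`. P4 `sep_of_der` (with `q i = z_(i,0)`): all `z_a` are separable over `fld k (vc γ 0)`;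
P4 `td_le_of_der` with `M = ⊥`: `td (vc γ 0) ≥ td z ≥ n`, so `Gen F (vc γ 0)` by TG. Every `x : Ω` is algebraic over `fld k z`, so over `fld k (vc γ 0)`.
-/

set_option autoImplicit false

namespace Q9

open Polynomial

private theorem T3_coeff {R : Type} [CommRing R] {n : ℕ} (d : ℕ) (z : Fin (n + 1) × Fin d → R)
    (i : Fin (n + 1)) (j : ℕ) :
    (lin d z i).coeff j = if h : j < d then z (i, ⟨j, h⟩) else 0 := by
  unfold lin
  rw [finsetSum_coeff]
  split_ifs with h
  · rw [Finset.sum_eq_single (⟨j, h⟩ : Fin d)]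
    · rw [coeff_C_mul_X_pow, if_pos rfl]
    · intro l _ hl
      rw [coeff_C_mul_X_pow, if_neg]
      intro hjl
      exact hl (Fin.ext hjl.symm)
    · intro h'
      exact absurd (Finset.mem_univ _) h'
  · refine Finset.sum_eq_zero fun l _ => ?_
    rw [coeff_C_mul_X_pow, if_neg]
    intro hjl
    exact h (hjl ▸ l.2)

private theorem T3_lin_add {R : Type} [CommRing R] {n : ℕ} (d : ℕ)
    (z w : Fin (n + 1) × Fin d → R) : lin d (z + w) = fun i => lin d z i + lin d w i := by
  funext i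
  ext j
  rw [coeff_add, T3_coeff, T3_coeff, T3_coeff]
  split_ifs
  · rfl
  · rw [add_zero]

private theorem T3_lin_smul {R : Type} [CommRing R] {n : ℕ} (d : ℕ) (c : R)
    (z : Fin (n + 1) × Fin d → R) : lin d (c • z) = fun i => C c * lin d z i := by
  funext i
  ext j
  rw [coeff_C_mul, T3_coeff, T3_coeff]
  split_ifs
  · rfl
  · rw [mul_zero]

private theorem T3_lin_eq {R : Type} [CommRing R] {n : ℕ} (d : ℕ) (a : Fin (n + 1) → R[X])
    (ha : ∀ i, (a i).degree < (d : ℕ)) : lin d (fun p => (a p.1).coeff p.2) = a := by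
  funext i
  ext j
  rw [T3_coeff]
  split_ifs with h
  · rfl
  · exact ((degree_lt_iff_coeff_zero (a i) d).1 (ha i) j (not_lt.1 h)).symm

private theorem T3_shift {R : Type} [CommRing R] {n : ℕ} (d : ℕ)
    (z : Fin (n + 1) × Fin (d + 1) → R) (hz : ∀ i, z (i, 0) = 0) :
    lin (d + 1) z = fun i => X * lin d (fun p => z (p.1, p.2.succ)) i := by
  funext i
  ext j
  rcases j with _ | j
  · rw [coeff_X_mul_zero, T3_coeff, dif_pos (Nat.succ_pos d)]
    exact hz i
  · rw [coeff_X_mul, T3_coeff, T3_coeff]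
    by_cases h : j < d
    · rw [dif_pos h, dif_pos (Nat.succ_lt_succ h)]
      rfl
    · rw [dif_neg h, dif_neg (fun h' => h (Nat.lt_of_succ_lt_succ h'))]

section

variable {k : Type} [Field k] {n : ℕ} (F : MvPolynomial (Fin (n + 1)) k)

private theorem T3_grad_add (γ : Fin (n + 1) → k[X]) (a b : Fin (n + 1) → k[X]) :
    grad F γ (fun i => a i + b i) = grad F γ a + grad F γ b := by
  unfold grad
  rw [← Finset.sum_add_distrib]
  exact Finset.sum_congr rfl fun i _ => mul_add _ _ _

private theorem T3_grad_mul (γ : Fin (n + 1) → k[X]) (c : k[X]) (a : Fin (n + 1) → k[X]) :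
    grad F γ (fun i => c * a i) = c * grad F γ a := by
  unfold grad
  rw [Finset.mul_sum]
  exact Finset.sum_congr rfl fun i _ => by ring

/-- the map `a ↦ ∇F(γ)·a` in coordinates -/
private noncomputable def T3_G (d : ℕ) (γ : Fin (n + 1) → k[X]) :
    (Fin (n + 1) × Fin d → k) →ₗ[k] (Fin (n * d) → k) where
  toFun z j := (grad F γ (lin d z)).coeff j
  map_add' z w := by
    funext j
    show (grad F γ (lin d (z + w))).coeff j = _
    rw [T3_lin_add, T3_grad_add, coeff_add]
    rfl
  map_smul' c z := by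
    funext j
    show (grad F γ (lin d (c • z))).coeff j = _
    rw [T3_lin_smul, T3_grad_mul, coeff_C_mul]
    rfl

private theorem T3_G_surj (d : ℕ) (γ : Fin (n + 1) → k[X]) (h : Free F d γ) :
    Function.Surjective (T3_G F d γ) := by
  intro f
  obtain ⟨a, ha, hga⟩ := h.2.2 (∑ j : Fin (n * d), C (f j) * X ^ (j : ℕ)) (by
    rw [degree_lt_iff_coeff_zero]
    intro m hm
    rw [finsetSum_coeff]
    refine Finset.sum_eq_zero fun l _ => ?_
    rw [coeff_C_mul_X_pow, if_neg]
    intro hml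
    have h1 := l.2
    omega)
  refine ⟨fun p => (a p.1).coeff p.2, ?_⟩
  funext j
  show (grad F γ (lin d fun p => (a p.1).coeff p.2)).coeff j = f j
  rw [T3_lin_eq d a ha, hga, finsetSum_coeff, Finset.sum_eq_single j]
  · rw [coeff_C_mul_X_pow, if_pos rfl]
  · intro l _ hl
    rw [coeff_C_mul_X_pow, if_neg]
    intro hjl
    exact hl (Fin.ext hjl.symm)
  · intro h'
    exact absurd (Finset.mem_univ _) h'

private theorem T3_G_ker (d : ℕ) (γ : Fin (n + 1) → k[X]) (h : Free F d γ) :
    Module.finrank k (LinearMap.ker (T3_G F d γ)) = d := by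
  have h1 := LinearMap.finrank_range_add_finrank_ker (T3_G F d γ)
  rw [LinearMap.range_eq_top.2 (T3_G_surj F d γ h), finrank_top, Module.finrank_fin_fun,
    Module.finrank_pi, Fintype.card_prod, Fintype.card_fin, Fintype.card_fin, add_mul,
    one_mul] at h1
  omega

/-- linear forms which are independent on the kernel -/
private theorem T3_lam (d : ℕ) (γ : Fin (n + 1) → k[X]) (h : Free F d γ) :
    ∃ lam : Fin d → Fin (n + 1) × Fin (d + 1) → k, ∀ δ : Fin (n + 1) × Fin (d + 1) → k,
      (∀ i, δ (i, 0) = 0) → (∀ j : Fin (n * d + 1), (grad F γ (lin (d + 1) δ)).coeff j = 0) →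
      (∀ l, ∑ a, lam l a * δ a = 0) → δ = 0 := by
  classical
  have hfr : Module.finrank k (LinearMap.ker (T3_G F d γ)) = Module.finrank k (Fin d → k) := by
    rw [T3_G_ker F d γ h, Module.finrank_fin_fun]
  let e : LinearMap.ker (T3_G F d γ) ≃ₗ[k] (Fin d → k) := LinearEquiv.ofFinrankEq _ _ hfr
  obtain ⟨g, hg⟩ := LinearMap.exists_extend e.toLinearMap
  let sh : (Fin (n + 1) × Fin (d + 1) → k) →ₗ[k] (Fin (n + 1) × Fin d → k) :=
    { toFun := fun z p => z (p.1, p.2.succ)
      map_add' := fun _ _ => rfl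
      map_smul' := fun _ _ => rfl }
  refine ⟨fun l a => (g ∘ₗ sh) (Pi.single a 1) l, fun δ h0 h1 h2 => ?_⟩
  have h3 : (g ∘ₗ sh) δ = 0 := by
    funext l
    have h4 : (g ∘ₗ sh) δ = ∑ a, δ a • (g ∘ₗ sh) (Pi.single a 1) := by
      conv_lhs => rw [pi_eq_sum_univ' δ, map_sum]
      refine Finset.sum_congr rfl fun a _ => ?_
      rw [map_smul]
    rw [h4, Finset.sum_apply]
    refine Eq.trans ?_ (h2 l)
    refine Finset.sum_congr rfl fun a _ => ?_
    rw [Pi.smul_apply, smul_eq_mul, mul_comm]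
  have h5 : sh δ ∈ LinearMap.ker (T3_G F d γ) := by
    rw [LinearMap.mem_ker]
    funext j
    have h6 := h1 ⟨(j : ℕ) + 1, Nat.succ_lt_succ j.2⟩
    rw [T3_shift d δ h0, T3_grad_mul] at h6
    have h7 : (X * grad F γ (lin d (sh δ))).coeff ((j : ℕ) + 1) = 0 := h6
    rw [coeff_X_mul] at h7
    exact h7
  have h8 : e ⟨sh δ, h5⟩ = 0 := by
    have h9 := LinearMap.congr_fun hg ⟨sh δ, h5⟩
    have h10 : g (sh δ) = e ⟨sh δ, h5⟩ := h9
    rw [← h10]
    exact h3
  have h11 : sh δ = 0 := by
    rw [LinearEquiv.map_eq_zero_iff] at h8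
    exact congrArg Subtype.val h8
  funext p
  obtain ⟨i, j⟩ := p
  refine Fin.cases ?_ (fun j => ?_) j
  · exact h0 i
  · exact congrFun h11 (i, j)

end

/-- the matrix of all conditions -/
private noncomputable def T3_M {k : Type} [Field k] {n : ℕ} (F : MvPolynomial (Fin (n + 1)) k)
    (d : ℕ) (lam : Fin d → Fin (n + 1) × Fin (d + 1) → k) :
    Matrix ((Fin (n * d + 1) ⊕ Fin d) ⊕ Fin (n + 1)) (Fin (n + 1) × Fin (d + 1))
      (MvPolynomial (Fin (n + 1) × Fin (d + 1)) k) :=
  Matrix.of (Sum.elim (Sum.elim (fun j a => MvPolynomial.pderiv a (eqA F d j))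
    (fun l a => MvPolynomial.C (lam l a))) (fun i a => if a = (i, 0) then 1 else 0))

private theorem T3_M_zero {k : Type} [Field k] {n : ℕ} (F : MvPolynomial (Fin (n + 1)) k)
    (d : ℕ) (lam : Fin d → Fin (n + 1) × Fin (d + 1) → k) {R : Type} [Field R] [Algebra k R]
    (z δ : Fin (n + 1) × Fin (d + 1) → R) :
    ((T3_M F d lam).map (MvPolynomial.aeval z)).mulVec δ = 0 ↔
      (∀ j : Fin (n * d + 1), ∑ a, MvPolynomial.aeval z (MvPolynomial.pderiv a (eqA F d j)) * δ a = 0) ∧
      (∀ l, ∑ a, algebraMap k R (lam l a) * δ a = 0) ∧ ∀ i, δ (i, 0) = 0 := by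
  classical
  have h1 : ∀ j : Fin (n * d + 1), ((T3_M F d lam).map (MvPolynomial.aeval z)).mulVec δ
      (Sum.inl (Sum.inl j)) =
      ∑ a, MvPolynomial.aeval z (MvPolynomial.pderiv a (eqA F d j)) * δ a := fun j => rfl
  have h2 : ∀ l : Fin d, ((T3_M F d lam).map (MvPolynomial.aeval z)).mulVec δ
      (Sum.inl (Sum.inr l)) = ∑ a, algebraMap k R (lam l a) * δ a := by
    intro l
    have h : ((T3_M F d lam).map (MvPolynomial.aeval z)).mulVec δ (Sum.inl (Sum.inr l)) =
      ∑ a, MvPolynomial.aeval z (MvPolynomial.C (lam l a)) * δ a := rfl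
    rw [h]
    refine Finset.sum_congr rfl fun a _ => ?_
    rw [MvPolynomial.aeval_C]
  have h3 : ∀ i : Fin (n + 1), ((T3_M F d lam).map (MvPolynomial.aeval z)).mulVec δ
      (Sum.inr i) = δ (i, 0) := by
    intro i
    have h : ((T3_M F d lam).map (MvPolynomial.aeval z)).mulVec δ (Sum.inr i) =
      ∑ a, MvPolynomial.aeval z (if a = (i, 0) then
        (1 : MvPolynomial (Fin (n + 1) × Fin (d + 1)) k) else 0) * δ a := rfl
    rw [h, Finset.sum_eq_single (i, 0)]
    · rw [if_pos rfl, map_one, one_mul]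
    · intro a _ ha
      rw [if_neg ha, map_zero, zero_mul]
    · intro h'
      exact absurd (Finset.mem_univ _) h'
  constructor
  · intro h
    exact ⟨fun j => (h1 j).symm.trans (congrFun h _), fun l => (h2 l).symm.trans (congrFun h _),
      fun i => (h3 i).symm.trans (congrFun h _)⟩
  · rintro ⟨e1, e2, e3⟩
    funext r
    rcases r with (j | l) | i
    · exact (h1 j).trans (e1 j)
    · exact (h2 l).trans (e2 l)
    · exact (h3 i).trans (e3 i)

private theorem T3_alg {k Ω : Type} [Field k] [Field Ω] [Algebra k Ω] (K : IntermediateField k Ω)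
    {I : Type} (z : I → Ω) (hz : ∀ i, IsSeparable K (z i)) (x : Ω)
    (hx : IsAlgebraic (fld k z) x) : IsAlgebraic K x := by
  have h1 : Algebra.IsAlgebraic K (IntermediateField.adjoin K (Set.range z)) :=
    IntermediateField.isAlgebraic_adjoin (by
      rintro _ ⟨i, rfl⟩
      exact (hz i).isIntegral)
  have hle : fld k z ≤ (IntermediateField.adjoin K (Set.range z)).restrictScalars k := by
    rw [IntermediateField.adjoin_le_iff]
    rintro _ ⟨i, rfl⟩
    exact IntermediateField.subset_adjoin K (Set.range z) (Set.mem_range_self i)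
  let f : fld k z →+* IntermediateField.adjoin K (Set.range z) :=
    (IntermediateField.inclusion hle).toRingHom
  have h2 : IsAlgebraic (IntermediateField.adjoin K (Set.range z)) x :=
    hx.ringHom_of_comp_eq f (RingHom.id Ω) f.injective rfl
  exact h2.restrictScalars K

theorem exists_sep {k : Type} [Field k] {n : ℕ} (hn : 2 ≤ n) (F : MvPolynomial (Fin (n + 1)) k)
    (hF : F.IsHomogeneous n) (hF0 : F ≠ 0) (hp : (Ideal.span {F}).IsPrime) (d s : ℕ)
    (γ₀ : Fin (n + 1) → k[X]) (h₀ : Free F d γ₀) (hc₀ : Cor F d γ₀ s) :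
    ∃ (Ω : Type) (_ : Field Ω) (_ : Algebra k Ω) (γ : Fin (n + 1) → Polynomial Ω), IsAlgClosed Ω ∧
      Free F d γ ∧ Cor F d γ s ∧ Gen F (vc γ 0) ∧
      (∀ i j, IsSeparable (fld k (vc γ 0)) ((γ i).coeff j)) ∧
      ∀ x : Ω, IsAlgebraic (fld k (vc γ 0)) x := by
  classical
  obtain ⟨lam, hlam⟩ := T3_lam F d γ₀ h₀
  have hon₀ : On F d γ₀ := h₀.2.1
  have hlc : lin (d + 1) (cf d γ₀) = γ₀ := lin_cf d γ₀ hon₀.1
  -- the equations
  let Φ : Fin (n * d + 1) ⊕ Fin d → MvPolynomial (Fin (n + 1) × Fin (d + 1)) k :=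
    Sum.elim (fun j => eqA F d j) (fun l => (∑ a, MvPolynomial.C (lam l a) * MvPolynomial.X a) -
      MvPolynomial.C (∑ a, lam l a * cf d γ₀ a))
  have hΦ0 : ∀ j, MvPolynomial.eval (cf d γ₀) (Φ j) = 0 := by
    rintro (j | l)
    · have h1 := (eqA_zero F hF d (cf d γ₀)).2 (by rw [hlc]; exact hon₀) j
      exact h1
    · show MvPolynomial.eval (cf d γ₀) ((∑ a, MvPolynomial.C (lam l a) * MvPolynomial.X a) -
        MvPolynomial.C (∑ a, lam l a * cf d γ₀ a)) = 0
      rw [map_sub, map_sum, MvPolynomial.eval_C, sub_eq_zero]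
      refine Finset.sum_congr rfl fun a _ => ?_
      rw [map_mul, MvPolynomial.eval_C, MvPolynomial.eval_X]
  obtain ⟨Ω, iF, iA, z, hac, hΦ, hspz, htd, halg⟩ := exists_gen Φ (cf d γ₀) hΦ0 n (by
    rw [Fintype.card_sum, Fintype.card_fin, Fintype.card_fin, Fintype.card_prod, Fintype.card_fin,
      Fintype.card_fin]
    have : (n + 1) * (d + 1) = n * d + n + d + 1 := by ring
    omega)
  obtain ⟨γ, hγdef⟩ : ∃ γ : Fin (n + 1) → Polynomial Ω, γ = lin (d + 1) z := ⟨_, rfl⟩
  have hcf : cf d γ = z := by rw [hγdef, cf_lin]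
  have hon : On F d γ := by
    rw [hγdef]
    exact (eqA_zero F hF d z).1 fun j => hΦ (Sum.inl j)
  have hs : Spz (cf d γ) (cf d γ₀) := by rw [hcf]; exact hspz
  have hfree : Free F d γ := Free.of_spz F hF d γ γ₀ hon h₀ hs
  have hcor : Cor F d γ s := Cor.of_spz F hF d s h₀.1 γ γ₀ hon hon₀ hc₀ hs
  -- the point
  have hvc : vc γ 0 = fun i => z (i, 0) := by
    funext i
    show (γ i).coeff 0 = z (i, 0)
    rw [hγdef, T3_coeff, dif_pos (Nat.succ_pos d)]
    rfl
  have hq : ∀ j : Fin (n + 1), (fun i => z (i, 0)) j ∈ fld k z := fun j =>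
    IntermediateField.subset_adjoin k _ (Set.mem_range_self _)
  -- injectivity of the matrix
  have hinj₀ : Function.Injective ((T3_M F d lam).map (MvPolynomial.eval (cf d γ₀))).mulVec := by
    have h1 : Function.Injective
        ((T3_M F d lam).map (MvPolynomial.eval (cf d γ₀))).mulVecLin := by
      rw [injective_iff_map_eq_zero]
      intro δ hδ
      rw [Matrix.mulVecLin_apply] at hδ
      have h2 := (T3_M_zero F d lam (cf d γ₀) δ).1 hδ
      refine hlam δ h2.2.2 (fun j => ?_) fun l => h2.2.1 l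
      have h3 := eqA_deriv F d (cf d γ₀) δ j
      rw [h2.1 j, hlc] at h3
      exact h3.symm
    exact h1
  have hinj := inj_of_spz z (cf d γ₀) hspz (T3_M F d lam) hinj₀
  have hD : ∀ D : Derivation k (fld k z) Ω, (∀ j, D ⟨(fun i => z (i, 0)) j, hq j⟩ = 0) →
      ∀ a, D (fz k z a) = 0 := by
    intro D hD0
    have h1 : ((T3_M F d lam).map (MvPolynomial.aeval z)).mulVec (fun a => D (fz k z a)) = 0 := by
      rw [T3_M_zero]
      refine ⟨fun j => der_rel z D _ (hΦ (Sum.inl j)), fun l => ?_, fun i => hD0 i⟩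
      have h2 := der_rel z D _ (hΦ (Sum.inr l))
      rw [← h2]
      refine Finset.sum_congr rfl fun a _ => ?_
      congr 1
      show _ = MvPolynomial.aeval z (MvPolynomial.pderiv a
        ((∑ b, MvPolynomial.C (lam l b) * MvPolynomial.X b) -
        MvPolynomial.C (∑ b, lam l b * cf d γ₀ b)))
      have h3 : MvPolynomial.pderiv a ((∑ b, MvPolynomial.C (lam l b) * MvPolynomial.X b) -
          MvPolynomial.C (∑ b, lam l b * cf d γ₀ b)) =
          (MvPolynomial.C (lam l a) : MvPolynomial (Fin (n + 1) × Fin (d + 1)) k) := by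
        rw [map_sub, MvPolynomial.pderiv_C, sub_zero, map_sum, Finset.sum_eq_single a]
        · rw [MvPolynomial.pderiv_C_mul, MvPolynomial.pderiv_X_self, mul_one]
        · intro b _ hb
          rw [MvPolynomial.pderiv_C_mul, MvPolynomial.pderiv_X_of_ne hb, mul_zero]
        · intro h'
          exact absurd (Finset.mem_univ _) h'
      rw [h3, MvPolynomial.aeval_C]
    have h2 : ((T3_M F d lam).map (MvPolynomial.aeval z)).mulVec (fun a => D (fz k z a)) =
        ((T3_M F d lam).map (MvPolynomial.aeval z)).mulVec 0 := by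
      rw [h1, Matrix.mulVec_zero]
    exact fun a => congrFun (hinj h2) a
  have hsep := sep_of_der z (fun i => z (i, 0)) hq hD
  have htd' : n ≤ td k (fun i => z (i, 0)) := by
    have h1 := td_le_of_der z (fun i => z (i, 0)) hq (⊥ : Submodule Ω _) 0
      (by rw [finrank_bot]) (fun D hD0 => by
        rw [Submodule.mem_bot]
        funext a
        exact hD D hD0 a)
    exact htd.trans h1
  refine ⟨Ω, iF, iA, γ, hac, hfree, hcor, ?_⟩
  rw [hvc]
  have hF0' : MvPolynomial.aeval (fun i => z (i, 0)) F = 0 := by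
    have h1 := MvPolynomial.comp_aeval_apply (f := γ)
      (φ := (Polynomial.aeval (0 : Ω)).restrictScalars k) F
    rw [hon.2, map_zero] at h1
    rw [← hvc]
    refine Eq.trans ?_ h1.symm
    congr 1
    congr 1
    funext i
    show (γ i).coeff 0 = Polynomial.aeval (0 : Ω) (γ i)
    rw [Polynomial.coeff_zero_eq_aeval_zero]
  have := hp
  refine ⟨gen_of_td F hF0 _ hF0' htd', fun i j => ?_, fun x => T3_alg _ z hsep x (halg x)⟩
  rw [hγdef, T3_coeff]
  split_ifs with h
  · exact hsep _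
  · have h1 := isSeparable_algebraMap (F := fld k fun i => z (i, 0)) (K := Ω) 0
    rwa [map_zero] at h1

end Q9
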