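import Pool.Agent.LibQ9.T2
import Pool.Agent.LibQ9.T3
import Pool.Agent.LibQ9.B12

/-!
[Q9 T4a] (MEDIUM; may cite T2, T3, B3, B6, B9, B12 as stated) Descent: the Plücker quotients of `Pos` at a generic point `q` are in `k(q)`.

PLAN. `q = vc γ 0`, `K₁ = fld k q`. Let `x = r J / r J₀`. By B12 `plu_field` with `L = ` the field generated over `K₁` (as intermediate field over `k`) by the coefficients of `γ`, `x ∈ L`, and all elements of `L` are separable over `K₁` (`IntermediateField.isSeparable_adjoin_iff_isSeparable` or similar; `L` = `IntermediateField.restrictScalars` of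
`IntermediateField.adjoin K₁ (coefficients)`). Every `K₁`-automorphism `σ` of `Ω` fixes `q`, so `mp σ γ` is free with `Cor s` through the same point (B3), and `Pos (mp σ γ) = Pos γ` by T2 `pos_eq`; B9 `plu_map` (`pos_map`, equal dimensions) and `plu_unique`: `σ (r J) = a r J` for all `J`, so `σ x = x`. `Ω` is an algebraic closure of `K₁` (algebraically closed, algebraic), and
an element which is separable over `K₁` and fixed by all automorphisms of `Ω/K₁` is in `K₁` (all roots of its minimal polynomial are conjugate: `minpoly` of degree `1`; e.g. `IsConjRoot`, `Normal`, `IsAlgClosure`). `finrank`: `Pos` has dimension `n - s` (B6 `finrank_pos`), `c = s + 1`.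
-/

set_option autoImplicit false

namespace Q9

open Polynomial

private theorem T4a_fix {K Ω : Type} [Field K] [Field Ω] [Algebra K Ω] [IsAlgClosed Ω]
    (halg : ∀ x : Ω, IsAlgebraic K x) (x : Ω) (hsep : IsSeparable K x)
    (hfix : ∀ σ : Ω ≃ₐ[K] Ω, σ x = x) : ∃ c : K, algebraMap K Ω c = x := by
  have h1 : Algebra.IsAlgebraic K Ω := ⟨halg⟩
  have h2 : IsAlgClosure K Ω := ⟨inferInstance, h1⟩
  by_contra hcon
  have h3 : x ∉ (⊥ : Subalgebra K Ω) := fun h => hcon (Algebra.mem_bot.1 h)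
  rw [notMem_iff_exists_ne_and_isConjRoot hsep (IsAlgClosed.splits _)] at h3
  obtain ⟨y, hne, hy⟩ := h3
  obtain ⟨σ, hσ⟩ := isConjRoot_iff_exists_algEquiv.1 hy.symm
  rw [hfix] at hσ
  exact hne hσ

theorem plu_descend {k : Type} [Field k] {n : ℕ} (hn : 2 ≤ n) (F : MvPolynomial (Fin (n + 1)) k)
    (hF : F.IsHomogeneous n) (s : ℕ) (hs : 1 ≤ s) (hmin : MinC F s) {Ω : Type} [Field Ω]
    [Algebra k Ω] [IsAlgClosed Ω] (d : ℕ) (γ : Fin (n + 1) → Polynomial Ω) (hf : Free F d γ)
    (hc : Cor F d γ s) (hsep : ∀ i j, IsSeparable (fld k (vc γ 0)) ((γ i).coeff j))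
    (halg : ∀ x : Ω, IsAlgebraic (fld k (vc γ 0)) x) (r : (Fin (s + 1) → Fin (n + 1)) → Ω)
    (hr : Plu (Pos F d γ) r) (J J₀ : Fin (s + 1) → Fin (n + 1)) (h0 : r J₀ ≠ 0) :
    r J / r J₀ ∈ fld k (vc γ 0) := by
  -- separability
  have hdim : Module.finrank Ω (Pos F d γ) + (s + 1) = n + 1 := by
    have h1 := finrank_pos hn F hF d s γ hf hc (hmin.2 Ω d γ hf)
    omega
  have hx : IsSeparable (fld k (vc γ 0)) (r J / r J₀) := by
    have h1 := plu_field F ((separableClosure (fld k (vc γ 0)) Ω).restrictScalars k) d (s + 1) γ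
      (fun i j => hsep i j) hdim r hr J J₀ h0
    exact h1
  -- fixed by the automorphisms
  have hfix : ∀ σ : Ω ≃ₐ[fld k (vc γ 0)] Ω, σ (r J / r J₀) = r J / r J₀ := by
    intro σ
    let τ : Ω →ₐ[k] Ω := (σ.toAlgHom).restrictScalars k
    have hτ : ∀ x, τ x = σ x := fun x => rfl
    have h00 : vc γ 0 = vc (mp (τ : Ω →+* Ω) γ) 0 := by
      funext i
      show (γ i).coeff 0 = ((γ i).map (τ : Ω →+* Ω)).coeff 0
      rw [coeff_map]
      have h1 : (γ i).coeff 0 = algebraMap (fld k (vc γ 0)) Ω (fz k (vc γ 0) i) := rfl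
      have h2 : (τ : Ω →+* Ω) ((γ i).coeff 0) = σ ((γ i).coeff 0) := rfl
      rw [h2, h1, AlgEquiv.commutes]
    have hpos : Pos F d (mp (τ : Ω →+* Ω) γ) = Pos F d γ :=
      pos_eq hn F hF s hs hmin d d γ (mp (τ : Ω →+* Ω) γ) hf hc (Free.map F τ hf) (Cor.map F τ hc)
        h00
    have hplu : Plu (Pos F d γ) (fun J => (τ : Ω →+* Ω) (r J)) := by
      refine plu_map (τ : Ω →+* Ω) (Pos F d γ) (Pos F d γ) r hr (fun v hv => ?_) rfl
      have h1 := pos_map F τ v hv
      rw [hpos] at h1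
      exact h1
    obtain ⟨a, ha, hra⟩ := plu_unique (Pos F d γ) r _ hr hplu
    have e1 : σ (r J) = a * r J := hra J
    have e2 : σ (r J₀) = a * r J₀ := hra J₀
    rw [map_div₀, e1, e2, mul_div_mul_left _ _ ha]
  obtain ⟨c, hc'⟩ := T4a_fix halg _ hx hfix
  rw [← hc']
  exact c.2

end Q9
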