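import Pool.Agent.LibQ9.T4a

/-!
[Q9 T4b] (MEDIUM; may cite T2, T3, T4a, B3, B6, B9, B12 as stated) Polynomials representing `Pos` at all generic points (not yet homogeneous).

PLAN. Take `Ω₃`, `γ₃` from T3 (`MinC` gives the free curve over `k`), `q = vc γ₃ 0`, a Plücker vector `r` (B12 `exists_plu`, B6 `finrank_pos`), `r J₀ ≠ 0`. By T4a `r J / r J₀ ∈ fld k q`, so it is a quotient of values at `q` of polynomials over `k`; common denominator: `P J`, with `P J₀ (q) ≠ 0` and `r J / r J₀ = P J (q) / P J₀ (q)` for all `J`.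
`¬ F ∣ P J₀` as `q` is on `F = 0`. Universality: let `Ω`, `γ` be as in the statement, `q' = vc γ 0`, `Gen F q'`. As `ker (aeval q) = ker (aeval q')` there is a field isomorphism `fld k q ≅ fld k q'`, `q ↦ q'` (over `k`; `Algebra.adjoin k (range q) ≅ R/ker`, fraction fields), and a map `ψ : Ω₃ →ₐ[k] Ω` extending `fld k q → Ω` (`Ω₃` algebraic over `fld k q`, `Ω` algebraically
closed: `IsAlgClosed.lift`). `mp ψ γ₃` is free with `Cor s` through `q'` (B3), so its `Pos` is `Pos F d γ` (T2 `pos_eq`) and `ψ (r J)` is a Plücker vector of it (B9 `plu_map`): `ψ (r J) = a r' J` (`plu_unique`), and `ψ (P J (q)) = P J (q')`. So `P J (q') r' J' = P J' (q') r' J`.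
-/

set_option autoImplicit false

namespace Q9

open Polynomial

private theorem T4b_emb {k : Type} [Field k] {m : ℕ} {Ω₃ Ω : Type} [Field Ω₃] [Algebra k Ω₃]
    [Field Ω] [Algebra k Ω] [IsAlgClosed Ω] (q : Fin m → Ω₃) (q' : Fin m → Ω)
    (hker : ∀ G : MvPolynomial (Fin m) k, MvPolynomial.aeval q G = 0 ↔ MvPolynomial.aeval q' G = 0)
    (halg : ∀ x : Ω₃, IsAlgebraic (fld k q) x) :
    ∃ ψ : Ω₃ →ₐ[k] Ω, ∀ i, ψ (q i) = q' i := by
  have hmem : ∀ P : MvPolynomial (Fin m) k,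
      MvPolynomial.aeval q P ∈ Algebra.adjoin k (Set.range q) := by
    intro P
    rw [Algebra.adjoin_range_eq_range_aeval]
    exact ⟨P, rfl⟩
  let f : MvPolynomial (Fin m) k →ₐ[k] Algebra.adjoin k (Set.range q) :=
    (MvPolynomial.aeval q).codRestrict _ hmem
  have hf : Function.Surjective (f : MvPolynomial (Fin m) k →+* Algebra.adjoin k (Set.range q)) := by
    rintro ⟨y, hy⟩
    have h1 := hy
    rw [Algebra.adjoin_range_eq_range_aeval] at h1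
    obtain ⟨P, hP⟩ := h1
    exact ⟨P, Subtype.ext hP⟩
  have hk : RingHom.ker (f : MvPolynomial (Fin m) k →+* Algebra.adjoin k (Set.range q)) ≤
      RingHom.ker ((MvPolynomial.aeval q' : MvPolynomial (Fin m) k →ₐ[k] Ω) :
        MvPolynomial (Fin m) k →+* Ω) := by
    intro P hP
    have h1 : f P = 0 := hP
    have h2 : MvPolynomial.aeval q P = 0 := congrArg Subtype.val h1
    exact (hker P).1 h2
  let h : Algebra.adjoin k (Set.range q) →+* Ω := RingHom.liftOfSurjective _ hf ⟨_, hk⟩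
  have hh : ∀ P, h (f P) = MvPolynomial.aeval q' P := fun P =>
    RingHom.liftOfRightInverse_comp_apply _ _ (Function.rightInverse_surjInv hf) ⟨_, hk⟩ P
  have hinj : Function.Injective h := by
    rw [injective_iff_map_eq_zero]
    intro y hy
    obtain ⟨P, rfl⟩ := hf y
    have h1 : MvPolynomial.aeval q' P = 0 := by
      rw [← hh P]
      exact hy
    exact Subtype.ext ((hker P).2 h1)
  let _ : Algebra (Algebra.adjoin k (Set.range q)) Ω := h.toAlgebra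
  have : FaithfulSMul (Algebra.adjoin k (Set.range q)) Ω :=
    (faithfulSMul_iff_algebraMap_injective _ _).2 hinj
  have : Algebra.IsAlgebraic (Algebra.adjoin k (Set.range q)) Ω₃ := by
    refine ⟨fun x => ?_⟩
    open scoped IntermediateField.algebraAdjoinAdjoin in
    exact (IsFractionRing.isAlgebraic_iff (Algebra.adjoin k (Set.range q)) (fld k q) Ω₃).2 (halg x)
  let ψ : Ω₃ →ₐ[Algebra.adjoin k (Set.range q)] Ω := IsAlgClosed.lift
  have hψ : ∀ P : MvPolynomial (Fin m) k,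
      ψ (MvPolynomial.aeval q P) = MvPolynomial.aeval q' P := by
    intro P
    rw [← hh P]
    exact ψ.commutes (f P)
  refine ⟨{ (ψ : Ω₃ →+* Ω) with commutes' := fun c => ?_ }, fun i => ?_⟩
  · have h1 := hψ (MvPolynomial.C c)
    rw [MvPolynomial.aeval_C, MvPolynomial.aeval_C] at h1
    exact h1
  · have h1 := hψ (MvPolynomial.X i)
    rw [MvPolynomial.aeval_X, MvPolynomial.aeval_X] at h1
    exact h1

/-- common denominators -/
private theorem T4b_den {k : Type} [Field k] {m : ℕ} {Ω : Type} [Field Ω] [Algebra k Ω]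
    (q : Fin m → Ω) {J : Type} [Fintype J] (x : J → Ω) (hx : ∀ j, x j ∈ fld k q) :
    ∃ (P : J → MvPolynomial (Fin m) k) (a : Ω), a ≠ 0 ∧ ∀ j, MvPolynomial.aeval q (P j) = a * x j := by
  classical
  have h1 : ∀ j, ∃ A B : MvPolynomial (Fin m) k, MvPolynomial.aeval q B ≠ 0 ∧
      MvPolynomial.aeval q A = MvPolynomial.aeval q B * x j := by
    intro j
    obtain ⟨A, B, h⟩ := (IntermediateField.mem_adjoin_range_iff k q (x j)).1 (hx j)
    by_cases hB : MvPolynomial.aeval q B = 0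
    · refine ⟨0, 1, ?_, ?_⟩
      · rw [map_one]
        exact one_ne_zero
      · rw [h, hB, div_zero, mul_zero, map_zero]
    · refine ⟨A, B, hB, ?_⟩
      rw [h]
      field_simp
  choose A B hB hA using h1
  refine ⟨fun j => A j * ∏ l ∈ Finset.univ.erase j, B l, ∏ l, MvPolynomial.aeval q (B l),
    Finset.prod_ne_zero_iff.2 fun l _ => hB l, fun j => ?_⟩
  rw [map_mul, hA, map_prod, ← Finset.mul_prod_erase Finset.univ _ (Finset.mem_univ j)]
  ring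

theorem exists_rep0 {k : Type} [Field k] {n : ℕ} (hn : 2 ≤ n) (F : MvPolynomial (Fin (n + 1)) k)
    (hF : F.IsHomogeneous n) (hF0 : F ≠ 0) (hp : (Ideal.span {F}).IsPrime) (s : ℕ) (hs : 1 ≤ s)
    (hmin : MinC F s) :
    ∃ P : (Fin (s + 1) → Fin (n + 1)) → MvPolynomial (Fin (n + 1)) k, (∃ J, ¬ F ∣ P J) ∧
      ∀ (Ω : Type) [Field Ω] [Algebra k Ω] [IsAlgClosed Ω] (d : ℕ)
        (γ : Fin (n + 1) → Polynomial Ω), Free F d γ → Cor F d γ s → Gen F (vc γ 0) →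
        ∀ r : (Fin (s + 1) → Fin (n + 1)) → Ω, Plu (Pos F d γ) r → ∀ J J',
          MvPolynomial.aeval (vc γ 0) (P J) * r J' = MvPolynomial.aeval (vc γ 0) (P J') * r J := by
  obtain ⟨⟨d₀, γ₀, h₀, hc₀⟩, hmin2⟩ := hmin
  obtain ⟨Ω₃, _, _, γ₃, _, h₃, hc₃, hg₃, hsep, halg⟩ :=
    exists_sep hn F hF hF0 hp d₀ s γ₀ h₀ hc₀
  have hdim₃ := finrank_pos hn F hF d₀ s γ₃ h₃ hc₃ (hmin2 Ω₃ d₀ γ₃ h₃)
  obtain ⟨r₃, hr₃⟩ := exists_plu (c := s + 1) (Pos F d₀ γ₃) (by omega)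
  obtain ⟨J₀, hJ₀⟩ : ∃ J, r₃ J ≠ 0 := by
    obtain ⟨_, _, _, h⟩ := hr₃
    exact h
  have hx : ∀ J, r₃ J / r₃ J₀ ∈ fld k (vc γ₃ 0) := fun J =>
    plu_descend hn F hF s hs ⟨⟨d₀, γ₀, h₀, hc₀⟩, hmin2⟩ d₀ γ₃ h₃ hc₃ hsep halg r₃ hr₃ J J₀ hJ₀
  obtain ⟨P, a, ha, hP⟩ := T4b_den (vc γ₃ 0) (fun J => r₃ J / r₃ J₀) hx
  refine ⟨P, ⟨J₀, fun hF => ?_⟩, ?_⟩
  · have h1 := (hg₃ (P J₀)).2 hF
    rw [hP J₀] at h1
    simp only [div_self hJ₀, mul_one] at h1
    exact ha h1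
  · intro Ω _ _ _ d γ hf hc hg r hr J J'
    obtain ⟨ψ, hψ⟩ := T4b_emb (vc γ₃ 0) (vc γ 0) (fun G => (hg₃ G).trans (hg G).symm) halg
    have hfψ : Free F d₀ (mp (ψ : Ω₃ →+* Ω) γ₃) := Free.map F ψ h₃
    have hcψ : Cor F d₀ (mp (ψ : Ω₃ →+* Ω) γ₃) s := Cor.map F ψ hc₃
    have h0 : vc (mp (ψ : Ω₃ →+* Ω) γ₃) 0 = vc γ 0 := by
      funext i
      show ((γ₃ i).map (ψ : Ω₃ →+* Ω)).coeff 0 = _
      rw [Polynomial.coeff_map]
      exact hψ i
    have hpos := pos_eq hn F hF s hs ⟨⟨d₀, γ₀, h₀, hc₀⟩, hmin2⟩ d₀ d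
      (mp (ψ : Ω₃ →+* Ω) γ₃) γ hfψ hcψ hf hc h0
    have hdimψ := finrank_pos hn F hF d₀ s _ hfψ hcψ (hmin2 Ω d₀ _ hfψ)
    have hplu := plu_map (ψ : Ω₃ →+* Ω) (Pos F d₀ γ₃) (Pos F d₀ (mp (ψ : Ω₃ →+* Ω) γ₃)) r₃ hr₃
      (fun v hv => pos_map F ψ v hv) (by omega)
    rw [hpos] at hr
    obtain ⟨b, _, hb⟩ := plu_unique _ _ _ hplu hr
    have hPψ : ∀ J, MvPolynomial.aeval (vc γ 0) (P J) = ψ a * (ψ (r₃ J) / ψ (r₃ J₀)) := by
      intro J
      have h1 : MvPolynomial.aeval (vc γ 0) (P J) = ψ (MvPolynomial.aeval (vc γ₃ 0) (P J)) := by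
        rw [← AlgHom.comp_apply, MvPolynomial.comp_aeval]
        congr 2
        funext i
        exact (hψ i).symm
      rw [h1, hP J, map_mul, map_div₀]
    rw [hPψ, hPψ, hb J, hb J']
    show ψ a * (ψ (r₃ J) / ψ (r₃ J₀)) * (b * ψ (r₃ J')) = ψ a * (ψ (r₃ J') / ψ (r₃ J₀)) * (b * ψ (r₃ J))
    ring

end Q9
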