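import Mathlib

/-!
[Q9 U9] (SHORT/MEDIUM, ONLY MATHLIB) An Artin - Rees lemma.

PLAN. Artin - Rees (`Ideal.exists_pow_inf_eq_pow_smul`) for the ideal `span {F}`, the module `R ⧸ span {p}` and its submodule `q • ⊤`: there is `c` with `F ^ m • ⊤ ⊓ q • ⊤ = F ^ (m - c) • (F ^ c • ⊤ ⊓ q • ⊤)` for `m ≥ c`. If `r q ∈ (p, F ^ (K + c))`
then the class of `r q` is in `F ^ (K + c) • ⊤ ⊓ q • ⊤ ≤ F ^ K • (q • ⊤)`, so `r q - F ^ K q z ∈ (p)`, `p ∣ q (r - F ^ K z)`, `p ∣ r - F ^ K z` (`IsRelPrime.dvd_of_dvd_mul_left` or the right version).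
-/

set_option autoImplicit false

namespace Q9

theorem artin_rees {R : Type} [CommRing R] [IsDomain R] [IsNoetherianRing R]
    [UniqueFactorizationMonoid R] (F p q : R) (hpq : IsRelPrime p q) :
    ∃ c : ℕ, ∀ (K : ℕ) (r : R), r * q ∈ Ideal.span {p, F ^ (K + c)} →
      r ∈ Ideal.span {p, F ^ K} := by
  obtain ⟨c, hc⟩ := Ideal.exists_pow_inf_eq_pow_smul (Ideal.span {F})
    (M := R ⧸ Ideal.span {p}) (Submodule.span R {(Ideal.Quotient.mk (Ideal.span {p}) q)})
  refine ⟨c, fun K r hr => ?_⟩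
  obtain ⟨a, b, hab⟩ := Ideal.mem_span_pair.1 hr
  have h1 : (Ideal.Quotient.mk (Ideal.span {p}) (r * q)) ∈
      (Ideal.span {F} ^ (K + c) • ⊤ : Submodule R (R ⧸ Ideal.span {p})) ⊓
        Submodule.span R {(Ideal.Quotient.mk (Ideal.span {p}) q)} := by
    refine ⟨?_, ?_⟩
    · have h2 : (Ideal.Quotient.mk (Ideal.span {p}) (r * q)) =
          (F ^ (K + c)) • (Ideal.Quotient.mk (Ideal.span {p}) b) := by
        rw [← hab, Algebra.smul_def, map_add, map_mul, map_mul]
        have : (Ideal.Quotient.mk (Ideal.span {p})) p = 0 :=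
          Ideal.Quotient.eq_zero_iff_mem.2 (Ideal.mem_span_singleton_self p)
        rw [this, mul_zero, zero_add, mul_comm]
        rfl
      rw [h2]
      exact Submodule.smul_mem_smul (Ideal.pow_mem_pow (Ideal.mem_span_singleton_self F) _) trivial
    · have h2 : (Ideal.Quotient.mk (Ideal.span {p}) (r * q)) =
          r • (Ideal.Quotient.mk (Ideal.span {p}) q) := by
        rw [Algebra.smul_def, map_mul]; rfl
      rw [h2]
      exact Submodule.smul_mem _ _ (Submodule.mem_span_singleton_self _)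
  rw [hc (K + c) (Nat.le_add_left c K), Nat.add_sub_cancel] at h1
  have h3 : (Ideal.Quotient.mk (Ideal.span {p}) (r * q)) ∈
      (Ideal.span {F} ^ K • Submodule.span R {(Ideal.Quotient.mk (Ideal.span {p}) q)} :
        Submodule R (R ⧸ Ideal.span {p})) :=
    Submodule.smul_mono le_rfl inf_le_right h1
  rw [Ideal.span_singleton_pow, Submodule.span_smul_span] at h3
  simp only [Set.singleton_smul_singleton] at h3
  obtain ⟨z, hz⟩ := Submodule.mem_span_singleton.1 h3
  have h4 : p ∣ q * (r - F ^ K * z) := by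
    rw [← Ideal.mem_span_singleton, ← Ideal.Quotient.eq_zero_iff_mem]
    have h5 : (Ideal.Quotient.mk (Ideal.span {p})) (z * (F ^ K * q)) =
        (Ideal.Quotient.mk (Ideal.span {p})) (r * q) := by
      rw [← hz, Algebra.smul_def, Algebra.smul_def, map_mul, map_mul]; rfl
    have h6 : q * (r - F ^ K * z) = r * q - z * (F ^ K * q) := by ring
    rw [h6, map_sub, h5, sub_self]
  obtain ⟨w, hw⟩ := hpq.dvd_of_dvd_mul_left h4
  rw [Ideal.mem_span_pair]
  exact ⟨w, z, by linear_combination -hw⟩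

end Q9
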