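import Pool.Agent.LibQ9.U4
import Pool.Agent.LibQ9.U9

/-!
[Q9 U10a] (MEDIUM; may cite U1a, U1b, U1c, U4, U9 as stated) Division of compatible systems of sections by a polynomial.

PLAN. `c` from `artin_rees F p q`. Fix `K ≥ 1`, `a`. With `L = K + c`: `em p * σ₂ L a - em q * σ₁ L a ∈ FV hp L`, an element of `Lo (h a)`, so `= em (F ^ L) * w` with `w ∈ Lo (h a)` (`fv_div`). Multiply by a power `h a ^ s` clearing all
denominators: `em (h a ^ s) * σ₁ L a = em r`, and `r q ∈ span {p, F ^ L}`, so `r ∈ span {p, F ^ K}`: `σ₁ L a ∈ LoI (span {p, F ^ K}) (h a)`; `σ₁ K a - σ₁ L a ∈ FV hp K` (sum of the differences) so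
`σ₁ K a ∈ LoI (span {F ^ K} ⊔ span {p}) (h a)` (`fv_loI`). `hg_split` (with `I = span {F ^ K}`, homogeneous by `hom_span`, `w = p`): `σ₁ K a = v₁ + em p * v₂`, `v₁ ∈ LoI (span {F ^ K}) (h a)` i.e. `v₁ ∈ FV hp K`, `v₂ ∈ Lo (h a)` of degree
`m₁ + d a - e`. Choose `ς K a = v₂` (`ς 0 = 0`). Then `em p * (ς K a - U K a b * ς K b) ∈ FV hp K`, `em p * (ς (K+1) a - ς K a) ∈ FV hp K`; cancel `p` (`fv_cancel`, `fv_em`: `¬ F ∣ p`). `U K a b ∈ FV hp 0` by `fv_lo`.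
-/

set_option autoImplicit false

namespace Q9

open MvPolynomial

variable {k : Type} [Field k] [Infinite k] {n : ℕ} {ι : Type} [Fintype ι] {F : PR k n}
  {hp : Prime F} {N : ℕ} {h : ι → PR k n} {φ : ι → ℕ} {d : ι → ℤ}

omit [Infinite k] [Fintype ι] in
private theorem U10a_diff {U : ℕ → ι → ι → KR k n} {m : ℤ} {σ : ℕ → ι → KR k n}
    (h₁ : Sec hp h d U m σ) {K : ℕ} (hK : 1 ≤ K) (a : ι) (c : ℕ) :
    σ (K + c) a - σ K a ∈ FV hp K := by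
  induction c with
  | zero => rw [add_zero, sub_self]; exact zero_mem _
  | succ c ih =>
    have h2 : σ (K + c + 1) a - σ (K + c) a ∈ FV hp K :=
      fv_mono hp (Nat.le_add_right K c) ((h₁ (K + c) (by omega)).2 a)
    have h3 := add_mem h2 ih
    rwa [sub_add_sub_cancel] at h3

omit [Infinite k] [Fintype ι] in
private theorem U10a_mem (hC : Cov F N h φ) {U : ℕ → ι → ι → KR k n}
    {m₁ m₂ : ℤ} {σ₁ σ₂ : ℕ → ι → KR k n} (h₁ : Sec hp h d U m₁ σ₁) (h₂ : Sec hp h d U m₂ σ₂)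
    {p q : PR k n} {c : ℕ}
    (hc : ∀ (K : ℕ) (r : PR k n), r * q ∈ Ideal.span {p, F ^ (K + c)} → r ∈ Ideal.span {p, F ^ K})
    (hrel : ∀ K, 1 ≤ K → ∀ a, em p * σ₂ K a - em q * σ₁ K a ∈ FV hp K) {K : ℕ} (hK : 1 ≤ K)
    (a : ι) : σ₁ K a ∈ LoI (Ideal.span {F ^ K} ⊔ Ideal.span {p}) (h a) := by
  have hna : ¬ F ∣ h a := hC.nd a
  have hL : 1 ≤ K + c := by omega
  have hs1 : σ₁ (K + c) a ∈ Lo (h a) := (h₁ (K + c) hL).1.1 a
  have hs2 : σ₂ (K + c) a ∈ Lo (h a) := (h₂ (K + c) hL).1.1 a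
  have hx := hrel (K + c) hL a
  have hxl : em p * σ₂ (K + c) a - em q * σ₁ (K + c) a ∈ Lo (h a) :=
    sub_mem (lo_mul (em_mem_lo _ _) hs2) (lo_mul (em_mem_lo _ _) hs1)
  have hw := fv_div hp hna hxl hx
  have hFne : em (F ^ (K + c)) ≠ 0 := em_ne (pow_ne_zero _ hp.ne_zero)
  obtain ⟨w, hwd⟩ : ∃ w, w = (em p * σ₂ (K + c) a - em q * σ₁ (K + c) a) / em (F ^ (K + c)) :=
    ⟨_, rfl⟩
  rw [← hwd] at hw
  have hwx : em (F ^ (K + c)) * w = em p * σ₂ (K + c) a - em q * σ₁ (K + c) a := by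
    rw [hwd, mul_div_cancel₀ _ hFne]
  obtain ⟨s1, hr1⟩ := loI_clear hs1
  obtain ⟨s2, hr2⟩ := loI_clear hs2
  obtain ⟨s3, hr3⟩ := loI_clear hw
  obtain ⟨r1, -, e1⟩ := hr1 (s1 + s2 + s3) (by omega)
  obtain ⟨r2, -, e2⟩ := hr2 (s1 + s2 + s3) (by omega)
  obtain ⟨r3, -, e3⟩ := hr3 (s1 + s2 + s3) (by omega)
  have hrq : r1 * q = p * r2 - F ^ (K + c) * r3 := by
    apply em_inj
    rw [map_sub, map_mul, map_mul, map_mul, ← e1, ← e2, ← e3]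
    have h5 : em (F ^ (K + c)) * (em (h a ^ (s1 + s2 + s3)) * w) =
        em (h a ^ (s1 + s2 + s3)) * (em (F ^ (K + c)) * w) := by ring
    rw [h5, hwx]
    ring
  have hr1m : r1 ∈ Ideal.span {p, F ^ K} := by
    apply hc K r1
    rw [hrq]
    refine sub_mem (Ideal.mul_mem_right _ _ (Ideal.subset_span (by simp)))
      (Ideal.mul_mem_right _ _ (Ideal.subset_span (by simp)))
  have hle : Ideal.span {p, F ^ K} ≤ Ideal.span {F ^ K} ⊔ Ideal.span {p} := by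
    rw [Ideal.span_insert, sup_comm]
  have hm1 : σ₁ (K + c) a ∈ LoI (Ideal.span {F ^ K} ⊔ Ideal.span {p}) (h a) :=
    ⟨s1 + s2 + s3, r1, hle hr1m, e1⟩
  have hd1 : σ₁ (K + c) a - σ₁ K a ∈ LoI (Ideal.span {F ^ K} ⊔ Ideal.span {p}) (h a) :=
    loI_mono le_sup_left _ ((fv_loI hp hna).2 ⟨sub_mem hs1 ((h₁ K hK).1.1 a), U10a_diff h₁ hK a c⟩)
  have h6 := sub_mem hm1 hd1
  rwa [sub_sub_cancel] at h6

theorem sec_div (hC : Cov F N h φ) {U : ℕ → ι → ι → KR k n} (hU : Sys hp h d U)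
    {m₁ m₂ : ℤ} {σ₁ σ₂ : ℕ → ι → KR k n} (h₁ : Sec hp h d U m₁ σ₁) (h₂ : Sec hp h d U m₂ σ₂)
    {p q : PR k n} {e : ℕ} (hpe : p.IsHomogeneous e) (hpF : ¬ F ∣ p) (hpq : IsRelPrime p q)
    (hrel : ∀ K, 1 ≤ K → ∀ a, em p * σ₂ K a - em q * σ₁ K a ∈ FV hp K) :
    ∃ ς : ℕ → ι → KR k n, Sec hp h d U (m₁ - e) ς ∧
      ∀ K, 1 ≤ K → ∀ a, σ₁ K a - em p * ς K a ∈ FV hp K := by
  obtain ⟨c, hc⟩ := artin_rees F p q hpq
  have key : ∀ (K : ℕ) (a : ι), 1 ≤ K → ∃ v : KR k n, v ∈ Lo (h a) ∧ v ∈ Hg (m₁ + d a - e) ∧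
      σ₁ K a - em p * v ∈ FV hp K := by
    intro K a hK
    have hna : ¬ F ∣ h a := hC.nd a
    obtain ⟨v₁, hv1, v₂, hv2, -, hv2h, hv⟩ := hg_split (I := Ideal.span {F ^ K}) (w := p)
      (hom_span (by
        rintro r hr
        rw [Set.mem_singleton_iff] at hr
        exact ⟨_, hr ▸ hC.hom.pow K⟩))
      (fun h0 => hna (by rw [h0]; exact dvd_zero F)) (hC.hh a) hpe ((h₁ K hK).1.2.1 a)
      (U10a_mem hC h₁ h₂ hc hrel hK a)
    refine ⟨v₂, hv2, hv2h, ?_⟩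
    rw [hv, add_sub_cancel_right]
    exact ((fv_loI hp hna).1 hv1).2
  choose! ς hς using key
  have hp0 : em p ∈ FV hp 0 := (fv_em hp).2 (by rw [pow_zero]; exact one_dvd _)
  have hp1 : em p ∉ FV hp 1 := fun h1 => hpF (by
    have := (fv_em hp).1 h1
    rwa [pow_one] at this)
  refine ⟨ς, fun K hK => ⟨⟨fun a => (hς K a hK).1, fun a => ?_, fun a b => ?_⟩, fun a => ?_⟩,
    fun K hK a => (hς K a hK).2.2⟩
  · have h3 := (hς K a hK).2.1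
    rwa [show m₁ + d a - (e : ℤ) = m₁ - e + d a by ring] at h3
  · apply fv_cancel hp hp0 hp1
    have h3 := (h₁ K hK).1.2.2 a b
    have h4 := (hς K a hK).2.2
    have h5 := fv_mul_lo hp (not_dvd_mul hp (hC.nd a) (hC.nd b)) ((hU K hK).1.1 a b)
      (hς K b hK).2.2
    have h6 : em p * (ς K a - U K a b * ς K b) = (σ₁ K a - U K a b * σ₁ K b) -
        (σ₁ K a - em p * ς K a) + U K a b * (σ₁ K b - em p * ς K b) := by ring
    rw [h6]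
    exact add_mem (sub_mem h3 h4) h5
  · apply fv_cancel hp hp0 hp1
    have h3 := (h₁ K hK).2 a
    have h4 := (hς K a hK).2.2
    have h5 := fv_mono hp (Nat.le_succ K) (hς (K + 1) a (by omega)).2.2
    have h6 : em p * (ς (K + 1) a - ς K a) = (σ₁ (K + 1) a - σ₁ K a) -
        (σ₁ (K + 1) a - em p * ς (K + 1) a) + (σ₁ K a - em p * ς K a) := by ring
    rw [h6]
    exact add_mem (sub_mem h3 h5) h4

end Q9
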