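import Pool.Agent.LibQ9.Defs

/-!
# LibQ9, block U: rational functions with bounded denominators, degrees, divisibility by `F`

`PR k n` is the polynomial ring in `n + 1` variables, `KR k n` its field of fractions, `em` the inclusion.
-/

set_option autoImplicit false

namespace Q9

open MvPolynomial

/-- polynomials in `n + 1` variables -/
abbrev PR (k : Type) [Field k] (n : ℕ) : Type := MvPolynomial (Fin (n + 1)) k

/-- rational functions in `n + 1` variables -/
abbrev KR (k : Type) [Field k] (n : ℕ) : Type := FractionRing (MvPolynomial (Fin (n + 1)) k)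

section

variable {k : Type} [Field k] {n : ℕ}

/-- the inclusion of the polynomials in the rational functions -/
noncomputable abbrev em : PR k n →+* KR k n := algebraMap (PR k n) (KR k n)

theorem em_inj : Function.Injective (em : PR k n →+* KR k n) :=
  IsFractionRing.injective (PR k n) (KR k n)

theorem em_ne {f : PR k n} (hf : f ≠ 0) : em f ≠ 0 := by
  intro h
  exact hf (em_inj (by rw [h, map_zero]))

/-- the quotients `r / f ^ s` with `r ∈ I` (the localisation at `f` of the ideal `I`) -/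
noncomputable def LoI (I : Ideal (PR k n)) (f : PR k n) : Submodule (PR k n) (KR k n) where
  carrier := {v | ∃ s : ℕ, ∃ r ∈ I, em (f ^ s) * v = em r}
  add_mem' := by
    rintro v w ⟨s, r, hr, hv⟩ ⟨t, q, hq, hw⟩
    refine ⟨s + t, f ^ t * r + f ^ s * q, I.add_mem (I.mul_mem_left _ hr) (I.mul_mem_left _ hq), ?_⟩
    rw [map_add, map_mul, map_mul, ← hv, ← hw, pow_add, map_mul]
    ring
  zero_mem' := ⟨0, 0, I.zero_mem, by simp⟩
  smul_mem' := by
    rintro c v ⟨s, r, hr, hv⟩
    refine ⟨s, c * r, I.mul_mem_left _ hr, ?_⟩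
    rw [Algebra.smul_def, map_mul, ← hv]
    ring

/-- the quotients `r / f ^ s` -/
noncomputable def Lo (f : PR k n) : Submodule (PR k n) (KR k n) := LoI ⊤ f

/-- the homogeneous rational functions of degree `d` -/
noncomputable def Hg (d : ℤ) : Submodule k (KR k n) where
  carrier := {v | ∃ (f r : PR k n) (a b : ℕ), f ≠ 0 ∧ f.IsHomogeneous a ∧ r.IsHomogeneous b ∧
    (b : ℤ) = a + d ∧ em f * v = em r}
  add_mem' := by
    rintro v w ⟨f, r, a, b, hf, hfa, hrb, hab, hv⟩ ⟨g, q, a', b', hg, hga, hqb, hab', hw⟩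
    refine ⟨f * g, g * r + f * q, a + a', a' + b, mul_ne_zero hf hg, hfa.mul hga, ?_, ?_, ?_⟩
    · refine (hga.mul hrb).add ?_
      have h1 : a' + b = a + b' := by omega
      rw [h1]
      exact hfa.mul hqb
    · push_cast
      omega
    · rw [map_add, map_mul, map_mul, map_mul, ← hv, ← hw]
      ring
  zero_mem' := by
    refine ⟨X 0 ^ d.natAbs, 0, d.natAbs, (d.natAbs + d).toNat, pow_ne_zero _ (X_ne_zero _), ?_,
      isHomogeneous_zero _ _ _, ?_, by simp⟩
    · have h1 := (isHomogeneous_X k (0 : Fin (n + 1))).pow d.natAbs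
      rwa [one_mul] at h1
    · omega
  smul_mem' := by
    rintro c v ⟨f, r, a, b, hf, hfa, hrb, hab, hv⟩
    refine ⟨f, C c * r, a, b, hf, hfa, ?_, hab, ?_⟩
    · have h1 := (isHomogeneous_C (Fin (n + 1)) c).mul hrb
      rwa [zero_add] at h1
    · rw [map_mul, ← hv]
      have h2 : c • v = em (C c) * v := by
        rw [Algebra.smul_def, IsScalarTower.algebraMap_apply k (PR k n) (KR k n)]
        rfl
      rw [h2]
      ring

/-- the rational functions `F ^ K * r / q` with `q` not divisible by the prime form `F` -/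
noncomputable def FV {F : PR k n} (hp : Prime F) (K : ℕ) : Submodule (PR k n) (KR k n) where
  carrier := {v | ∃ q r : PR k n, ¬ F ∣ q ∧ em q * v = em (F ^ K * r)}
  add_mem' := by
    rintro v w ⟨q, r, hq, hv⟩ ⟨q', r', hq', hw⟩
    refine ⟨q * q', q' * r + q * r', fun h => (hp.dvd_or_dvd h).elim hq hq', ?_⟩
    have h1 : em (q * q') * (v + w) = em q' * (em q * v) + em q * (em q' * w) := by
      rw [map_mul]
      ring
    rw [h1, hv, hw, ← map_mul, ← map_mul, ← map_add]
    congr 1
    ring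
  zero_mem' := ⟨1, 0, fun h => hp.not_isUnit (isUnit_of_dvd_one h), by simp⟩
  smul_mem' := by
    rintro c v ⟨q, r, hq, hv⟩
    refine ⟨q, c * r, hq, ?_⟩
    rw [Algebra.smul_def]
    have h1 : em q * (algebraMap (PR k n) (KR k n) c * v) = em c * (em q * v) := by ring
    rw [h1, hv, ← map_mul]
    congr 1
    ring

variable {ι : Type}

/-- `I` is saturated with respect to `h` -/
def CM (I : Ideal (PR k n)) (h : ι → PR k n) : Prop := ∀ r, (∀ a, em r ∈ LoI I (h a)) → r ∈ I

/-- the homogeneous Cech cocycles of degree `0` modulo `I` for the covering `h` are global -/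
def C0 (I : Ideal (PR k n)) (h : ι → PR k n) : Prop :=
  ∀ (δ : ℤ) (c : ι → KR k n), (∀ a, c a ∈ Lo (h a)) → (∀ a, c a ∈ Hg δ) →
    (∀ a b, c a - c b ∈ LoI I (h a * h b)) →
    ∃ e : PR k n, em e ∈ Hg δ ∧ ∀ a, c a - em e ∈ LoI I (h a)

/-- the homogeneous Cech cocycles of degree `1` modulo `I` for the covering `h` are boundaries -/
def C1 (I : Ideal (PR k n)) (h : ι → PR k n) : Prop :=
  ∀ (δ : ℤ) (c : ι → ι → KR k n), (∀ a b, c a b ∈ Lo (h a * h b)) → (∀ a b, c a b ∈ Hg δ) →
    (∀ a b e, c a b + c b e - c a e ∈ LoI I (h a * h b * h e)) →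
    ∃ b : ι → KR k n, (∀ a, b a ∈ Lo (h a)) ∧ (∀ a, b a ∈ Hg δ) ∧
      ∀ a a', c a a' - (b a - b a') ∈ LoI I (h a * h a')

/-- the homogeneous Cech cocycles of degree `2` modulo `I` for the covering `h` are boundaries -/
def C2 (I : Ideal (PR k n)) (h : ι → PR k n) : Prop :=
  ∀ (δ : ℤ) (c : ι → ι → ι → KR k n), (∀ a b e, c a b e ∈ Lo (h a * h b * h e)) →
    (∀ a b e, c a b e ∈ Hg δ) →
    (∀ a b e f, c b e f - c a e f + c a b f - c a b e ∈ LoI I (h a * h b * h e * h f)) →
    ∃ b : ι → ι → KR k n, (∀ a a', b a a' ∈ Lo (h a * h a')) ∧ (∀ a a', b a a' ∈ Hg δ) ∧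
      ∀ a a' e, c a a' e - (b a' e - b a e + b a a') ∈ LoI I (h a * h a' * h e)

/-- `F` is a prime form of degree `N`; the forms `h a` of positive degree `φ a` are not divisible by `F`
and have no common zero on `F = 0` except the origin -/
structure Cov (F : PR k n) (N : ℕ) (h : ι → PR k n) (φ : ι → ℕ) : Prop where
  hom : F.IsHomogeneous N
  prime : Prime F
  hh : ∀ a, (h a).IsHomogeneous (φ a)
  pos : ∀ a, 1 ≤ φ a
  nd : ∀ a, ¬ F ∣ h a
  rad : ∀ j, ∃ M : ℕ, (X j : PR k n) ^ M ∈ Ideal.span (Set.range h) ⊔ Ideal.span {F}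

section

variable {F : PR k n} (hp : Prime F) (h : ι → PR k n) (d : ι → ℤ)

/-- `u` is a multiplicative cocycle modulo `F ^ K`, `u a b` of degree `d a - d b` -/
def Coc (K : ℕ) (u : ι → ι → KR k n) : Prop :=
  (∀ a b, u a b ∈ Lo (h a * h b)) ∧ (∀ a b, u a b ∈ Hg (d a - d b)) ∧
    (∀ a b c, u a b * u b c - u a c ∈ FV hp K) ∧ ∀ a, u a a - 1 ∈ FV hp 1

/-- `U` is a compatible system of cocycles `U K` modulo `F ^ K`, `K ≥ 1` -/
def Sys (U : ℕ → ι → ι → KR k n) : Prop :=
  ∀ K, 1 ≤ K → Coc hp h d K (U K) ∧ ∀ a b, U (K + 1) a b - U K a b ∈ FV hp K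

/-- the sections of degree `m` modulo `F ^ K` of the line bundle with cocycle `u` -/
noncomputable def Mt (u : ι → ι → KR k n) (K : ℕ) (m : ℤ) : Submodule k (ι → KR k n) where
  carrier := {σ | (∀ a, σ a ∈ Lo (h a)) ∧ (∀ a, σ a ∈ Hg (m + d a)) ∧
    ∀ a b, σ a - u a b * σ b ∈ FV hp K}
  add_mem' := by
    rintro σ τ ⟨h1, h2, h3⟩ ⟨h1', h2', h3'⟩
    refine ⟨fun a => add_mem (h1 a) (h1' a), fun a => add_mem (h2 a) (h2' a), fun a b => ?_⟩
    have := add_mem (h3 a b) (h3' a b)
    have h4 : (σ + τ) a - u a b * (σ + τ) b = σ a - u a b * σ b + (τ a - u a b * τ b) := by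
      simp only [Pi.add_apply]
      ring
    rw [h4]
    exact this
  zero_mem' := by
    refine ⟨fun a => zero_mem _, fun a => zero_mem _, fun a b => ?_⟩
    simp only [Pi.zero_apply, mul_zero, sub_zero]
    exact zero_mem _
  smul_mem' := by
    rintro c σ ⟨h1, h2, h3⟩
    have h5 : ∀ v : KR k n, c • v = (C c : PR k n) • v := by
      intro v
      rw [Algebra.smul_def, Algebra.smul_def, IsScalarTower.algebraMap_apply k (PR k n) (KR k n)]
      rfl
    refine ⟨fun a => ?_, fun a => Submodule.smul_mem _ _ (h2 a), fun a b => ?_⟩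
    · change c • σ a ∈ _
      rw [h5]
      exact Submodule.smul_mem _ _ (h1 a)
    · have h4 : (c • σ) a - u a b * (c • σ) b = (C c : PR k n) • (σ a - u a b * σ b) := by
        simp only [Pi.smul_apply]
        rw [h5, h5, smul_sub, mul_smul_comm]
      rw [h4]
      exact Submodule.smul_mem _ _ (h3 a b)

/-- the systems of degree `m` divisible by `F ^ K` -/
noncomputable def Nt (K : ℕ) (m : ℤ) : Submodule k (ι → KR k n) where
  carrier := {σ | (∀ a, σ a ∈ Lo (h a)) ∧ (∀ a, σ a ∈ Hg (m + d a)) ∧ ∀ a, σ a ∈ FV hp K}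
  add_mem' := by
    rintro σ τ ⟨h1, h2, h3⟩ ⟨h1', h2', h3'⟩
    exact ⟨fun a => add_mem (h1 a) (h1' a), fun a => add_mem (h2 a) (h2' a),
      fun a => add_mem (h3 a) (h3' a)⟩
  zero_mem' := ⟨fun a => zero_mem _, fun a => zero_mem _, fun a => zero_mem _⟩
  smul_mem' := by
    rintro c σ ⟨h1, h2, h3⟩
    have h5 : ∀ v : KR k n, c • v = (C c : PR k n) • v := by
      intro v
      rw [Algebra.smul_def, Algebra.smul_def, IsScalarTower.algebraMap_apply k (PR k n) (KR k n)]
      rfl
    refine ⟨fun a => ?_, fun a => Submodule.smul_mem _ _ (h2 a), fun a => ?_⟩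
    · change c • σ a ∈ _
      rw [h5]
      exact Submodule.smul_mem _ _ (h1 a)
    · change c • σ a ∈ _
      rw [h5]
      exact Submodule.smul_mem _ _ (h3 a)

/-- a compatible system of sections of degree `m` for the system `U` -/
def Sec (U : ℕ → ι → ι → KR k n) (m : ℤ) (σ : ℕ → ι → KR k n) : Prop :=
  ∀ K, 1 ≤ K → σ K ∈ Mt hp h d (U K) K m ∧ ∀ a, σ (K + 1) a - σ K a ∈ FV hp K

/-- the additive cocycles of degree `j` with values in the line bundle with cocycle `u`, modulo `F` -/
noncomputable def Zt (u : ι → ι → KR k n) (j : ℤ) : Submodule k (ι → ι → KR k n) where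
  carrier := {c | (∀ a b, c a b ∈ Lo (h a * h b)) ∧ (∀ a b, c a b ∈ Hg (j + d a)) ∧
    ∀ a b e, c a e - c a b - u a b * c b e ∈ FV hp 1}
  add_mem' := by
    rintro σ τ ⟨h1, h2, h3⟩ ⟨h1', h2', h3'⟩
    refine ⟨fun a b => add_mem (h1 a b) (h1' a b), fun a b => add_mem (h2 a b) (h2' a b),
      fun a b e => ?_⟩
    have := add_mem (h3 a b e) (h3' a b e)
    have h4 : (σ + τ) a e - (σ + τ) a b - u a b * (σ + τ) b e =
        σ a e - σ a b - u a b * σ b e + (τ a e - τ a b - u a b * τ b e) := by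
      simp only [Pi.add_apply]
      ring
    rw [h4]
    exact this
  zero_mem' := by
    refine ⟨fun a b => zero_mem _, fun a b => zero_mem _, fun a b e => ?_⟩
    simp only [Pi.zero_apply, mul_zero, sub_zero]
    exact zero_mem _
  smul_mem' := by
    rintro c σ ⟨h1, h2, h3⟩
    have h5 : ∀ v : KR k n, c • v = (C c : PR k n) • v := by
      intro v
      rw [Algebra.smul_def, Algebra.smul_def, IsScalarTower.algebraMap_apply k (PR k n) (KR k n)]
      rfl
    refine ⟨fun a b => ?_, fun a b => Submodule.smul_mem _ _ (h2 a b), fun a b e => ?_⟩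
    · change c • σ a b ∈ _
      rw [h5]
      exact Submodule.smul_mem _ _ (h1 a b)
    · have h4 : (c • σ) a e - (c • σ) a b - u a b * (c • σ) b e =
          (C c : PR k n) • (σ a e - σ a b - u a b * σ b e) := by
        simp only [Pi.smul_apply]
        rw [h5, h5, h5, smul_sub, smul_sub, mul_smul_comm]
      rw [h4]
      exact Submodule.smul_mem _ _ (h3 a b e)

/-- `c` is a boundary modulo `F` of a cochain of degree `j` with values in the line bundle -/
def Bt (u : ι → ι → KR k n) (j : ℤ) (c : ι → ι → KR k n) : Prop :=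
  ∃ b : ι → KR k n, (∀ a, b a ∈ Lo (h a)) ∧ (∀ a, b a ∈ Hg (j + d a)) ∧
    ∀ a a', c a a' - (b a - u a a' * b a') ∈ FV hp 1

end

/-- the rational function `v` is regular at `x` and vanishes there -/
def Van (x : Fin (n + 1) → k) (v : KR k n) : Prop :=
  ∃ q r : PR k n, eval x q ≠ 0 ∧ eval x r = 0 ∧ em q * v = em r

end

end Q9
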