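import Pool.Agent.LibQ9.P1
import Pool.Agent.LibQ9.UDefs

/-!
[Q9 U11a] (MEDIUM; may cite P1 as stated) Few equations do not have isolated zeros; many points.

PLAN. `other_zero`: suppose `x` is the only common zero of `f 0, f 1, f 2` with `eval y H ≠ 0`. Let `m = ker (eval x)`, `I = span (range f) ≤ m`. For `g ∈ m` the polynomial `g * H` vanishes on all common zeros of the `f i`, so by the Nullstellensatz
(`MvPolynomial.vanishingIdeal_zeroLocus_eq_radical`) it is in `radical I`. Let `q` be a minimal prime over `I` with `q ≤ m` (`Ideal.exists_minimalPrimes_le`). `H ∉ m ≥ q`, `g H ∈ q`, so `g ∈ q`: `m = q` is minimal over an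
ideal with three generators, so its height is `≤ 3` (`Ideal.height_le_card_of_mem_minimalPrimes_span`, Krull), but P1 gives height `≥ n + 1 ≥ 4`. Contradiction.
`many_points`: a linear form `ℓ` with `eval x ℓ = 1` exists (`x ≠ 0`). By induction on `C` construct points `y 0, .., y C` distinct, with `eval ℓ = 1`, `F = r = 0`, `H ≠ 0` (first `y 0 = x`): given a finite set of them, for each `y j ≠ x` choose a
coordinate polynomial `X i - C (y j i)` vanishing at `y j` and not at `x`, let `H'` be the product of `H` and these polynomials; `other_zero` for `F, r, ℓ - 1` and `H'` at `x` gives a point different from `x` and all `y j`. (Or: show the set is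
infinite, then `Set.Infinite.exists_subset_card_eq` and an enumeration.) Two different points with `ℓ = 1` are not proportional: `y i = c • y j` gives `1 = c`.
-/

set_option autoImplicit false

namespace Q9

open MvPolynomial

variable {k : Type} [Field k] [IsAlgClosed k] {n : ℕ}

theorem other_zero (hn : 3 ≤ n) (f : Fin 3 → PR k n) (H : PR k n) (x : Fin (n + 1) → k)
    (hf : ∀ i, eval x (f i) = 0) (hH : eval x H ≠ 0) :
    ∃ y, y ≠ x ∧ (∀ i, eval y (f i) = 0) ∧ eval y H ≠ 0 := by
  by_contra hcon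
  have hcon' : ∀ y, y ≠ x → (∀ i, eval y (f i) = 0) → eval y H = 0 := by
    intro y h1 h2
    by_contra h3
    exact hcon ⟨y, h1, h2, h3⟩
  set I : Ideal (PR k n) := Ideal.span (Set.range f) with hI
  set m : Ideal (PR k n) := RingHom.ker (eval x : PR k n →+* k) with hm
  haveI hmp : m.IsPrime := RingHom.ker_isPrime _
  have hIm : I ≤ m := by
    rw [hI, Ideal.span_le]
    rintro _ ⟨i, rfl⟩
    exact hf i
  have hev : ∀ (y : Fin (n + 1) → k) (p : PR k n), aeval y p = eval y p := by
    intro y p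
    have h1 := congrArg (fun φ : PR k n →+* k => φ p) (coe_aeval_eq_eval y)
    exact h1
  have key : ∀ g ∈ m, g * H ∈ I.radical := by
    intro g hg
    rw [← vanishingIdeal_zeroLocus_eq_radical (K := k), mem_vanishingIdeal_iff]
    intro y hy
    rw [hev, map_mul]
    by_cases hyx : y = x
    · rw [hyx]
      have h1 : eval x g = 0 := hg
      rw [h1, zero_mul]
    · rw [hcon' y hyx fun i => ?_, mul_zero]
      rw [← hev]
      exact hy (f i) (Ideal.subset_span ⟨i, rfl⟩)
  obtain ⟨q, hq, hqm⟩ := Ideal.exists_minimalPrimes_le hIm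
  haveI hqp : q.IsPrime := hq.1.1
  have hrad : I.radical ≤ q := hqp.radical_le_iff.2 hq.1.2
  have hmq : m ≤ q := by
    intro g hg
    rcases hqp.mem_or_mem (hrad (key g hg)) with h1 | h1
    · exact h1
    · exact absurd (show eval x H = 0 from hqm h1) hH
  have heq : q = m := le_antisymm hqm hmq
  have h1 : m.height ≤ ((Set.range f).ncard : ℕ∞) := by
    rw [← heq]
    exact Ideal.height_le_card_of_mem_minimalPrimes_span (Set.finite_range f) hq
  have h2 : (Set.range f).ncard ≤ 3 := by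
    rw [← Set.image_univ]
    refine (Set.ncard_image_le Set.finite_univ).trans ?_
    rw [Set.ncard_univ, Nat.card_eq_fintype_card, Fintype.card_fin]
  have h3 := height_ker_eval x
  rw [Fintype.card_fin] at h3
  have h4 : ((n + 1 : ℕ) : ℕ∞) ≤ ((3 : ℕ) : ℕ∞) := h3.trans (h1.trans (by exact_mod_cast h2))
  have h5 : n + 1 ≤ 3 := by exact_mod_cast h4
  omega

private theorem U11a_inf (hn : 3 ≤ n) (F r H : PR k n) (x : Fin (n + 1) → k)
    (hF : eval x F = 0) (hr : eval x r = 0) (hH : eval x H ≠ 0) {i₀ : Fin (n + 1)}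
    (hi₀ : x i₀ ≠ 0) :
    {y : Fin (n + 1) → k | eval y F = 0 ∧ eval y r = 0 ∧ eval y H ≠ 0 ∧
      (x i₀)⁻¹ * y i₀ = 1}.Infinite := by
  classical
  intro hfin
  have hne : ∀ y : Fin (n + 1) → k, y ≠ x → ∃ i, y i ≠ x i := fun y hy => Function.ne_iff.1 hy
  choose! c hc using hne
  let S : Finset (Fin (n + 1) → k) := hfin.toFinset.erase x
  let H' : PR k n := H * ∏ y ∈ S, (X (c y) - C (y (c y)))
  have hH' : eval x H' ≠ 0 := by
    simp only [H', map_mul, map_prod, map_sub, eval_X, eval_C]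
    refine mul_ne_zero hH (Finset.prod_ne_zero_iff.2 fun y hy => ?_)
    rw [sub_ne_zero]
    exact (hc y (Finset.ne_of_mem_erase hy)).symm
  obtain ⟨y, hyx, hy, hyH⟩ := other_zero hn ![F, r, C (x i₀)⁻¹ * X i₀ - 1] H' x (by
    intro i
    fin_cases i
    · exact hF
    · exact hr
    · simp [hi₀]) hH'
  have hy0 : eval y F = 0 := hy 0
  have hy1 : eval y r = 0 := hy 1
  have hy2 : (x i₀)⁻¹ * y i₀ = 1 := by
    have h1 : eval y (C (x i₀)⁻¹ * X i₀ - 1) = 0 := hy 2
    simp only [map_sub, map_mul, eval_C, eval_X, map_one] at h1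
    exact sub_eq_zero.1 h1
  have hyH1 : eval y H ≠ 0 := by
    intro h1
    apply hyH
    simp only [H', map_mul, h1, zero_mul]
  have hyS : y ∈ S := by
    rw [Finset.mem_erase]
    exact ⟨hyx, hfin.mem_toFinset.2 ⟨hy0, hy1, hyH1, hy2⟩⟩
  apply hyH
  simp only [H', map_mul, map_prod, map_sub, eval_X, eval_C]
  rw [Finset.prod_eq_zero hyS (sub_self (y (c y))), mul_zero]

theorem many_points (hn : 3 ≤ n) (F r H : PR k n) (x : Fin (n + 1) → k) (hx : x ≠ 0)
    (hF : eval x F = 0) (hr : eval x r = 0) (hH : eval x H ≠ 0) (C : ℕ) :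
    ∃ y : Fin (C + 1) → (Fin (n + 1) → k), (∀ i j, i ≠ j → ∀ c : k, y i ≠ c • y j) ∧
      ∀ i, eval (y i) F = 0 ∧ eval (y i) r = 0 ∧ eval (y i) H ≠ 0 := by
  obtain ⟨i₀, hi₀⟩ := Function.ne_iff.1 hx
  have hinf := U11a_inf hn F r H x hF hr hH hi₀
  let e := hinf.natEmbedding
  refine ⟨fun i => (e (i : ℕ)).1, fun i j hij c hc => ?_, fun i => ?_⟩
  · have h1 : (x i₀)⁻¹ * (e (i : ℕ)).1 i₀ = 1 := (e (i : ℕ)).2.2.2.2
    have h2 : (x i₀)⁻¹ * (e (j : ℕ)).1 i₀ = 1 := (e (j : ℕ)).2.2.2.2
    have h3 : (e (i : ℕ)).1 i₀ = c * (e (j : ℕ)).1 i₀ := congrFun hc i₀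
    have h4 : c = 1 := by
      rw [h3] at h1
      calc c = c * ((x i₀)⁻¹ * (e (j : ℕ)).1 i₀) := by rw [h2, mul_one]
        _ = (x i₀)⁻¹ * (c * (e (j : ℕ)).1 i₀) := by ring
        _ = 1 := h1
    apply hij
    have h5 : (e (i : ℕ)).1 = (e (j : ℕ)).1 := by
      rw [h4, one_smul] at hc
      exact hc
    exact Fin.ext (e.injective (Subtype.ext h5))
  · exact ⟨(e (i : ℕ)).2.1, (e (i : ℕ)).2.2.1, (e (i : ℕ)).2.2.2.1⟩

end Q9
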