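import Pool.Agent.LibQ9.U4

/-!
[Q9 U12a] (MEDIUM; may cite U1a, U1b, U1c, U4 as stated) Sections separating points.

PLAN. For an index `e` and `κ` large (finitely many conditions; `loI_mul_left`, as in `clear_coc` of U5a, which may be reproved in three lines) `t e b = em (h e ^ κ) * u b e` is in `Lo (h b)` for all `b`, and `t e ∈ Mt hp h d u 1 (κ φ e - d e)`:
`t e a - u a b * t e b = em (h e ^ κ) * (u a e - u a b * u b e) ∈ FV hp 1`; degree of `t e b`: `κ φ e + d b - d e`. At a point `y` with `F = 0`, `h e ≠ 0` : `t e e` does not vanish: `u e e - 1 ∈ FV hp 1`, so `Van y (u e e - 1)` (`fv_van`), and if `Van y (t e e)`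
then `Van y (u e e)` (`van_prime`, `van_em`), `Van y 1`, contradiction (`van_em`). For two nonproportional vectors `y i`, `y j`, there is a linear form `ℓ i j` with `eval (y j) (ℓ i j) = 0`, `eval (y i) (ℓ i j) ≠ 0`; also a linear form `ℓ i` with
`eval (y i) (ℓ i) ≠ 0` (`y i ≠ 0` because `h (a i)` has positive degree, `Cov.pos`, and does not vanish at `y i`). `f i = (∏_{j ≠ i} ℓ i j) * ℓ i ^ (s i)`, homogeneous of degree `C + s i`; choose `s i` such that `m = C + s i + κ φ (a i) - d (a i)` is the same for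
all `i`. `σ i = em (f i) • t (a i)`: in `Mt .. 1 m`; `¬ Van (y i) (σ i (a i))` (`van_prime`); for `j ≠ i`: `Van (y j) (em (f i))` and `t (a i) (a j) ∈ Lo (h (a j))`, `van_mul`.
-/

set_option autoImplicit false

namespace Q9

open MvPolynomial

variable {k : Type} [Field k] [Infinite k] {n : ℕ} {ι : Type} [Fintype ι] {F : PR k n}
  {hp : Prime F} {N : ℕ} {h : ι → PR k n} {φ : ι → ℕ} {d : ι → ℤ}

omit [Infinite k] in
private theorem U12a_clear {u : ι → ι → KR k n} (hu : ∀ a b, u a b ∈ Lo (h a * h b)) :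
    ∃ κ : ℕ, ∀ e b, em (h e ^ κ) * u b e ∈ Lo (h b) := by
  have h1 : ∀ e b, ∃ s₀ : ℕ, ∀ s, s₀ ≤ s → em (h e ^ s) * u b e ∈ Lo (h b) :=
    fun e b => loI_mul_left (hu b e)
  choose s₀ hs₀ using h1
  refine ⟨∑ e, ∑ b, s₀ e b, fun e b => hs₀ e b _ ?_⟩
  exact (Finset.single_le_sum (f := fun b => s₀ e b) (fun _ _ => Nat.zero_le _)
    (Finset.mem_univ b)).trans (Finset.single_le_sum (f := fun e => ∑ b, s₀ e b)
    (fun _ _ => Nat.zero_le _) (Finset.mem_univ e))

omit [Infinite k] [Fintype ι] in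
private theorem U12a_van {u : ι → ι → KR k n} (hu : Coc hp h d 1 u) (κ : ℕ) (e : ι)
    (y : Fin (n + 1) → k) (hF : eval y F = 0) (he : eval y (h e) ≠ 0) :
    ¬ Van y (em (h e ^ κ) * u e e) := by
  intro hv
  have hee : eval y (h e * h e) ≠ 0 := by
    rw [map_mul]
    exact mul_ne_zero he he
  rcases van_prime hee (em_mem_lo _ _) (hu.1 e e) hv with h1 | h1
  · rw [van_em, map_pow] at h1
    exact pow_ne_zero _ he h1
  · have h2 : (1 : KR k n) - u e e ∈ FV hp 1 := by
      have := neg_mem (hu.2.2.2 e)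
      rwa [neg_sub] at this
    have h3 : (1 : KR k n) - u e e ∈ Lo (h e * h e) := by
      have h4 := em_mem_lo (h e * h e) (1 : PR k n)
      rw [map_one] at h4
      exact sub_mem h4 (hu.1 e e)
    have h5 := van_add h1 (fv_van hp hee hF h3 h2)
    rw [add_sub_cancel, ← map_one em, van_em, map_one] at h5
    exact one_ne_zero h5

omit [Infinite k] in
private theorem U12a_lin (v w : Fin (n + 1) → k) (h1 : ∀ c : k, v ≠ c • w)
    (h2 : ∀ c : k, w ≠ c • v) :
    ∃ l : PR k n, l.IsHomogeneous 1 ∧ eval w l = 0 ∧ eval v l ≠ 0 := by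
  have hw : ∃ q, w q ≠ 0 := by
    by_contra hc
    push Not at hc
    apply h2 0
    rw [zero_smul]
    exact funext hc
  obtain ⟨q, hq⟩ := hw
  have hp' : ∃ p, v p * w q ≠ v q * w p := by
    by_contra hc
    push Not at hc
    apply h1 (v q / w q)
    funext p
    rw [Pi.smul_apply, smul_eq_mul, div_mul_eq_mul_div, ← hc p, mul_div_assoc, div_self hq, mul_one]
  obtain ⟨p, hp'⟩ := hp'
  refine ⟨C (w q) * X p - C (w p) * X q, ?_, ?_, ?_⟩
  · have h3 : ∀ (c : k) (i : Fin (n + 1)), (C c * X i : PR k n).IsHomogeneous 1 := by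
      intro c i
      have := (isHomogeneous_C (Fin (n + 1)) c).mul (isHomogeneous_X k i)
      rwa [zero_add] at this
    exact (h3 _ _).sub (h3 _ _)
  · simp only [map_sub, map_mul, eval_C, eval_X]
    ring
  · simp only [map_sub, map_mul, eval_C, eval_X]
    intro h3
    apply hp'
    linear_combination h3

omit [Infinite k] in
private theorem U12a_scale (f : PR k n) (s : ℕ) (hf : f.IsHomogeneous s) (c : k)
    (v : Fin (n + 1) → k) : eval (c • v) f = c ^ s * eval v f := by
  rw [eval_eq, eval_eq, Finset.mul_sum]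
  refine Finset.sum_congr rfl fun m hm => ?_
  have h1 : ∑ i, m i = s := by
    have h2 := hf (mem_support_iff.1 hm)
    rw [← h2, Finsupp.weight_apply, Finsupp.sum_fintype]
    · simp
    · simp
  have h3 : ∀ i, (c • v) i ^ m i = c ^ m i * v i ^ m i := by
    intro i
    rw [Pi.smul_apply, smul_eq_mul, mul_pow]
  have h4 : ∏ i ∈ m.support, (c • v) i ^ m i = c ^ s * ∏ i ∈ m.support, v i ^ m i := by
    rw [Finset.prod_congr rfl fun i _ => h3 i, Finset.prod_mul_distrib, Finset.prod_pow_eq_pow_sum,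
      ← h1]
    congr 2
    exact Finset.sum_subset (Finset.subset_univ _) (fun i _ hi => Finsupp.notMem_support_iff.1 hi)
  rw [h4]
  ring

omit [Infinite k] in
private theorem U12a_ne (f : PR k n) (s : ℕ) (hf : f.IsHomogeneous s) (hs : 1 ≤ s)
    (v : Fin (n + 1) → k) (hv : eval v f ≠ 0) :
    ∃ l : PR k n, l.IsHomogeneous 1 ∧ eval v l ≠ 0 := by
  have h1 : ∃ p, v p ≠ 0 := by
    by_contra hc
    push Not at hc
    apply hv
    have h2 : v = (0 : k) • v := by
      funext p
      rw [hc p, Pi.smul_apply, hc p, smul_zero]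
    rw [h2]
    have h4 : eval ((0 : k) • v) f = (0 : k) ^ s * eval v f := by
      exact U12a_scale f s hf 0 v
    rw [h4, zero_pow (by omega), zero_mul]
  obtain ⟨p, hp'⟩ := h1
  exact ⟨X p, isHomogeneous_X k p, by rwa [eval_X]⟩

theorem separate (hC : Cov F N h φ) {u : ι → ι → KR k n} (hu : Coc hp h d 1 u) (C : ℕ)
    (y : Fin (C + 1) → (Fin (n + 1) → k)) (hy : ∀ i j, i ≠ j → ∀ c : k, y i ≠ c • y j)
    (hF : ∀ i, eval (y i) F = 0) (a : Fin (C + 1) → ι) (ha : ∀ i, eval (y i) (h (a i)) ≠ 0) :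
    ∃ (m : ℤ) (σ : Fin (C + 1) → ι → KR k n), (∀ i, σ i ∈ Mt hp h d u 1 m) ∧
      (∀ i, ¬ Van (y i) (σ i (a i))) ∧ ∀ i j, i ≠ j → Van (y j) (σ i (a j)) := by
  classical
  obtain ⟨κ, hκ⟩ := U12a_clear hu.1
  have tH : ∀ e b, em (h e ^ κ) * u b e ∈ Hg ((κ : ℤ) * φ e + (d b - d e)) := by
    intro e b
    have h1 := hg_em ((hC.hh e).pow κ)
    have h2 := hg_mul h1 (hu.2.1 b e)
    have h3 : (((φ e * κ : ℕ) : ℤ)) = (κ : ℤ) * φ e := by
      push_cast
      ring
    rwa [h3] at h2
  have hmul : ∀ (r : PR k n) (v : KR k n) (K : ℕ), v ∈ FV hp K → em r * v ∈ FV hp K := by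
    intro r v K hv
    have h1 := (FV hp K).smul_mem r hv
    rwa [Algebra.smul_def] at h1
  have tF : ∀ e a b, em (h e ^ κ) * u a e - u a b * (em (h e ^ κ) * u b e) ∈ FV hp 1 := by
    intro e a b
    have h1 := hmul (h e ^ κ) _ 1 (neg_mem (hu.2.2.1 a b e))
    have h2 : em (h e ^ κ) * u a e - u a b * (em (h e ^ κ) * u b e) =
        em (h e ^ κ) * -(u a b * u b e - u a e) := by ring
    rwa [h2]
  have hl : ∀ i j, ∃ l : PR k n, i ≠ j → l.IsHomogeneous 1 ∧ eval (y j) l = 0 ∧
      eval (y i) l ≠ 0 := by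
    intro i j
    by_cases hij : i = j
    · exact ⟨0, fun h' => absurd hij h'⟩
    · obtain ⟨l, hl⟩ := U12a_lin (y i) (y j) (hy i j hij) (hy j i (fun h' => hij h'.symm))
      exact ⟨l, fun _ => hl⟩
  choose l hl using hl
  have hl1 : ∀ i, ∃ l : PR k n, l.IsHomogeneous 1 ∧ eval (y i) l ≠ 0 := fun i =>
    U12a_ne (h (a i)) (φ (a i)) (hC.hh _) (hC.pos _) (y i) (ha i)
  choose l1 hl1 using hl1
  set D : Fin (C + 1) → ℤ := fun i => (κ : ℤ) * φ (a i) - d (a i) with hD
  set M0 : ℕ := ∑ i, (D i).natAbs with hM0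
  have hDM : ∀ i, D i ≤ M0 := by
    intro i
    have h1 : (D i).natAbs ≤ M0 := Finset.single_le_sum (f := fun i => (D i).natAbs)
      (fun _ _ => Nat.zero_le _) (Finset.mem_univ i)
    omega
  set s : Fin (C + 1) → ℕ := fun i => ((M0 : ℤ) - D i).toNat with hs
  have hs1 : ∀ i, (s i : ℤ) = M0 - D i := fun i =>
    Int.toNat_of_nonneg (by have := hDM i; omega)
  set f : Fin (C + 1) → PR k n := fun i => (∏ j ∈ Finset.univ.erase i, l i j) * l1 i ^ s i with hf
  have hfH : ∀ i, (f i).IsHomogeneous (C + s i) := by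
    intro i
    have h1 : (∏ j ∈ Finset.univ.erase i, l i j).IsHomogeneous
        (∑ j ∈ (Finset.univ.erase i : Finset (Fin (C + 1))), 1) :=
      IsHomogeneous.prod _ _ _ (fun j hj => (hl i j (Finset.ne_of_mem_erase hj).symm).1)
    have h2 : ∑ j ∈ (Finset.univ.erase i : Finset (Fin (C + 1))), 1 = C := by
      rw [Finset.sum_const, Finset.card_erase_of_mem (Finset.mem_univ i), Finset.card_univ,
        Fintype.card_fin]
      simp
    rw [h2] at h1
    have h3 := ((hl1 i).1).pow (s i)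
    rw [one_mul] at h3
    exact h1.mul h3
  have hf0 : ∀ i, eval (y i) (f i) ≠ 0 := by
    intro i
    simp only [hf, map_mul, map_prod, map_pow]
    refine mul_ne_zero (Finset.prod_ne_zero_iff.2 fun j hj => ?_) (pow_ne_zero _ (hl1 i).2)
    exact (hl i j (Finset.ne_of_mem_erase hj).symm).2.2
  have hf1 : ∀ i j, i ≠ j → eval (y j) (f i) = 0 := by
    intro i j hij
    simp only [hf, map_mul, map_prod, map_pow]
    rw [Finset.prod_eq_zero (Finset.mem_erase.2 ⟨hij.symm, Finset.mem_univ j⟩) (hl i j hij).2.1,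
      zero_mul]
  refine ⟨(C : ℤ) + M0, fun i b => em (f i) * (em (h (a i) ^ κ) * u b (a i)), fun i => ?_,
    fun i => ?_, fun i j hij => ?_⟩
  · refine ⟨fun b => lo_mul (em_mem_lo _ _) (hκ (a i) b), fun b => ?_, fun b b' => ?_⟩
    · have h1 := hg_mul (hg_em (hfH i)) (tH (a i) b)
      have h2 : ((C + s i : ℕ) : ℤ) + ((κ : ℤ) * φ (a i) + (d b - d (a i))) =
          (C : ℤ) + M0 + d b := by
        rw [Nat.cast_add, hs1 i]
        simp only [hD]
        ring
      rwa [h2] at h1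
    · have h1 := hmul (f i) _ 1 (tF (a i) b b')
      have h2 : em (f i) * (em (h (a i) ^ κ) * u b (a i)) -
          u b b' * (em (f i) * (em (h (a i) ^ κ) * u b' (a i))) =
          em (f i) * (em (h (a i) ^ κ) * u b (a i) - u b b' * (em (h (a i) ^ κ) * u b' (a i))) := by
        ring
      beta_reduce
      rwa [h2]
  · intro hv
    rcases van_prime (ha i) (em_mem_lo _ _) (hκ (a i) (a i)) hv with h1 | h1
    · rw [van_em] at h1
      exact hf0 i h1
    · exact U12a_van hu κ (a i) (y i) (hF i) (ha i) h1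
  · have h1 : Van (y j) (em (f i)) := van_em.2 (hf1 i j hij)
    have h2 := van_mul (ha j) (hκ (a i) (a j)) h1
    beta_reduce
    rwa [mul_comm] at h2

end Q9
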