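import Pool.Agent.LibQ9.U7
import Pool.Agent.LibQ9.U11a
import Pool.Agent.LibQ9.U12a

/-!
[Q9 U10b] (MEDIUM; may cite U1a, U1b, U1c, U4, U7, U11a, U12a as stated) There is a nonzero compatible system of sections.

PLAN. `exists_pt`: `ι` is nonempty (otherwise `F` divides powers of all variables by `Cov.rad`, hence two different variables, impossible for a prime). For `a : ι`, `¬ F ∣ h a`, `span {F}` is prime, hence radical, so by the Nullstellensatz
(`MvPolynomial.vanishingIdeal_zeroLocus_eq_radical`) there is `x` with `eval x F = 0`, `eval x (h a) ≠ 0`; `x ≠ 0` because `h a` is homogeneous of positive degree. `exists_sec`: `C` from `many_sections`; `many_points` for `F`, `r = 0`, `H = h a` at `x` gives `C + 1` points,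
`separate` (all indices `a`) gives `σ i`, and `many_sections` a nontrivial combination `ω 1 = Σ x i • σ i` with `Sec hp h d U m ω`. If `x i ≠ 0` then `ω 1 a` does not vanish at `y i` (the terms `j ≠ i` vanish, `van_add`, `van_mul` with a constant), so `ω 1 a ∉ FV hp 1`
(`fv_van`). For another index `b`: `ω 1 a - U 1 a b * ω 1 b ∈ FV hp 1`, `U 1 a b ∈ FV hp 0`, so `ω 1 b ∈ FV hp 1` would give `ω 1 a ∈ FV hp 1`.
-/

set_option autoImplicit false

namespace Q9

open MvPolynomial

variable {k : Type} [Field k] [IsAlgClosed k] {n : ℕ} {ι : Type} [Fintype ι] {F : PR k n}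
  {hp : Prime F} {N : ℕ} {h : ι → PR k n} {φ : ι → ℕ} {d : ι → ℤ}

theorem cov_nonempty (hn : 4 ≤ n) (hC : Cov F N h φ) : Nonempty ι := by
  by_contra hne
  rw [not_nonempty_iff] at hne
  have h1 : ∀ j, F ∣ (X j : PR k n) := by
    intro j
    obtain ⟨M, hM⟩ := hC.rad j
    rw [Set.range_eq_empty, Ideal.span_empty, bot_sup_eq, Ideal.mem_span_singleton] at hM
    exact hC.prime.dvd_of_dvd_pow hM
  have h01 : (0 : Fin (n + 1)) ≠ 1 := by
    intro h
    have := congrArg Fin.val h
    rw [Fin.val_zero, Fin.val_one'] at this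
    rw [Nat.mod_eq_of_lt (by omega)] at this
    omega
  have h2 : (X 0 : PR k n) ∣ F := by
    have ha : Associated F (X 0 : PR k n) :=
      hC.prime.associated_of_dvd (X_prime (i := (0 : Fin (n + 1)))) (h1 0)
    exact ha.symm.dvd
  obtain ⟨g, hg⟩ := h2.trans (h1 1)
  have h3 := congrArg (eval (Pi.single (1 : Fin (n + 1)) (1 : k))) hg
  rw [map_mul, eval_X, eval_X, Pi.single_eq_same, Pi.single_eq_of_ne h01, zero_mul] at h3
  exact one_ne_zero h3

theorem exists_pt (hn : 4 ≤ n) (hC : Cov F N h φ) (a : ι) :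
    ∃ x : Fin (n + 1) → k, x ≠ 0 ∧ eval x F = 0 ∧ eval x (h a) ≠ 0 := by
  have hprime : (Ideal.span {F} : Ideal (PR k n)).IsPrime :=
    (Ideal.span_singleton_prime hC.prime.ne_zero).2 hC.prime
  have hnull := MvPolynomial.IsPrime.vanishingIdeal_zeroLocus (k := k) (K := k)
    (Ideal.span {F} : Ideal (PR k n))
  have h1 : h a ∉ vanishingIdeal k (zeroLocus k (Ideal.span {F} : Ideal (PR k n))) := by
    rw [hnull, Ideal.mem_span_singleton]
    exact hC.nd a
  rw [mem_vanishingIdeal_iff] at h1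
  push Not at h1
  obtain ⟨x, hx, hxa⟩ := h1
  have hxF : eval x F = 0 := by
    have := hx F (Ideal.mem_span_singleton_self F)
    exact this
  have hxh : eval x (h a) ≠ 0 := by
    exact hxa
  refine ⟨x, ?_, hxF, hxh⟩
  rintro rfl
  apply hxh
  have h2 : eval (0 : Fin (n + 1) → k) (h a) = coeff 0 (h a) := by
    rw [← constantCoeff_eq, ← eval_zero]
  rw [h2]
  by_contra hne
  have h3 := (hC.hh a) hne
  rw [map_zero] at h3
  have := hC.pos a
  omega

private theorem U10b_van_smul {y : Fin (n + 1) → k} {v : KR k n} (c : k) (hv : Van y v) :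
    Van y (c • v) := by
  have h5 : c • v = em (C c : PR k n) * v := by
    rw [Algebra.smul_def, IsScalarTower.algebraMap_apply k (PR k n) (KR k n)]
    rfl
  rw [h5]
  exact van_mul (f := 1) (by simp) (em_mem_lo 1 _) hv

private theorem U10b_van_sum {J : Type} (s : Finset J) {y : Fin (n + 1) → k} (v : J → KR k n)
    (hv : ∀ i ∈ s, Van y (v i)) : Van y (∑ i ∈ s, v i) := by
  classical
  induction s using Finset.induction_on with
  | empty =>
    rw [Finset.sum_empty]
    have h0 : Van y (em (0 : PR k n)) := van_em.2 (by simp)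
    rwa [map_zero] at h0
  | insert a s ha ih =>
    rw [Finset.sum_insert ha]
    exact van_add (hv a (Finset.mem_insert_self a s))
      (ih fun i hi => hv i (Finset.mem_insert_of_mem hi))

theorem exists_sec (hn : 4 ≤ n) (hC : Cov F N h φ) {U : ℕ → ι → ι → KR k n}
    (hU : Sys hp h d U) :
    ∃ (m : ℤ) (ω : ℕ → ι → KR k n), Sec hp h d U m ω ∧ ∀ a, ω 1 a ∉ FV hp 1 := by
  classical
  obtain ⟨a0⟩ := cov_nonempty hn hC
  obtain ⟨K0, hK0⟩ := many_sections hn hC hU
  obtain ⟨x, hx0, hxF, hxh⟩ := exists_pt hn hC a0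
  obtain ⟨y, hy, hy'⟩ := many_points (by omega : 3 ≤ n) F 0 (h a0) x hx0 hxF (by simp) hxh K0
  obtain ⟨m, σ, hσM, hσne, hσvan⟩ := separate hC (hU 1 le_rfl).1 K0 y hy (fun i => (hy' i).1)
    (fun _ => a0) (fun i => (hy' i).2.2)
  obtain ⟨c, hc, ω, hSec, hω⟩ := hK0 m σ hσM
  obtain ⟨i, hi⟩ : ∃ i, c i ≠ 0 := by
    by_contra hcon
    push Not at hcon
    exact hc (funext hcon)
  have hM1 := (hSec 1 le_rfl).1
  have hmem : (∀ a, ω 1 a ∈ Lo (h a)) ∧ (∀ a, ω 1 a ∈ Hg (m + d a)) ∧
      ∀ a b, ω 1 a - U 1 a b * ω 1 b ∈ FV hp 1 := hM1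
  have hval : ω 1 a0 = ∑ j, c j • σ j a0 := by
    rw [hω, Finset.sum_apply]
    rfl
  have hnot : ¬ Van (y i) (ω 1 a0) := by
    intro hv
    apply hσne i
    have h1 : Van (y i) (∑ j ∈ Finset.univ.erase i, c j • σ j a0) := by
      apply U10b_van_sum
      intro j hj
      exact U10b_van_smul _ (hσvan j i (Finset.ne_of_mem_erase hj))
    have h2 : c i • σ i a0 = ω 1 a0 + (-1 : k) • ∑ j ∈ Finset.univ.erase i, c j • σ j a0 := by
      rw [hval, ← Finset.add_sum_erase Finset.univ _ (Finset.mem_univ i), neg_one_smul]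
      ring
    have h3 : Van (y i) (c i • σ i a0) := by
      rw [h2]
      exact van_add hv (U10b_van_smul _ h1)
    have h4 := U10b_van_smul (c i)⁻¹ h3
    rwa [inv_smul_smul₀ hi] at h4
  have ha0 : ω 1 a0 ∉ FV hp 1 := by
    intro hfv
    exact hnot (fv_van hp (hy' i).2.2 (hy' i).1 (hmem.1 a0) hfv)
  refine ⟨m, ω, hSec, ?_⟩
  intro b hb
  apply ha0
  have hUab := (hU 1 le_rfl).1.1 a0 b
  have h1 : U 1 a0 b * ω 1 b ∈ FV hp 1 :=
    fv_mul_lo hp (not_dvd_mul hp (hC.nd a0) (hC.nd b)) hUab hb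
  have h2 := add_mem (hmem.2.2 a0 b) h1
  rwa [sub_add_cancel] at h2

end Q9
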