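import Pool.Agent.LibQ9.U8
import Pool.Agent.LibQ9.U10a
import Pool.Agent.LibQ9.U10b

/-!
[Q9 U10] (MEDIUM; may cite U1a, U1b, U1c, U4, U8, U10a, U10b as stated) All compatible systems of sections are multiples of one of them.

PLAN. `τ` from `exists_sec` for the dual system (`sys_symm`), of degree `m'`, `τ 1 a ∉ FV hp 1` for all `a`. A compatible system `σ` of degree `m` with `σ 1 a ∉ FV hp 1` for some `a` has `θ` (`theta`) with `em θ - σ 1 a * τ 1 a ∈ FV hp 1`, so `¬ F ∣ θ` (`fv_em`,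
`fv_cancel`), `θ ≠ 0`, and `m + m' ≥ 0` (`hg_em_iff`). So there is `σ₁` with `σ₁ 1 a ∉ FV hp 1` for some (hence every, as in U10b) `a`, of minimal degree `m₁` (`Int` well founded from below: e.g. `Nat.find` on `m + m'`). Claim: for every `Sec` `ω` of degree `m₂`:
`ω 1 a - em r * σ₁ 1 a ∈ FV hp 1`. Let `θ₁, θ₂` be the polynomials of `σ₁`, `ω`: `em θ₁ * ω K a - em θ₂ * σ₁ K a ∈ FV hp K`: multiplied by `τ K a` it is in `FV hp K` (both terms are `θ₁ θ₂` modulo `FV hp K`), and `τ K a ∉ FV hp 1`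
(`τ K a - τ 1 a ∈ FV hp 1`), `fv_cancel`. `exists_reduced_factors` (`UniqueFactorizationMonoid`): `θ₁ = D p`, `θ₂ = D q`, `IsRelPrime p q`; `¬ F ∣ D`, `¬ F ∣ p`, cancel `D` (`fv_cancel`). `p` is homogeneous (`factor_hom`, `hg_em_iff`, `θ₁ ≠ 0`) of
degree `e`. `sec_div` gives `ς` of degree `m₁ - e` with `σ₁ K a - em p * ς K a ∈ FV hp K`; so `ς 1 a ∉ FV hp 1`, by minimality `e = 0`, `p = C x`, `x ≠ 0`, and `ω K a - em (C x⁻¹ * q) * σ₁ K a ∈ FV hp K`.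
-/

set_option autoImplicit false

namespace Q9

open MvPolynomial

variable {k : Type} [Field k] [IsAlgClosed k] {n : ℕ} {ι : Type} [Fintype ι] {F : PR k n}
  {hp : Prime F} {N : ℕ} {h : ι → PR k n} {φ : ι → ℕ} {d : ι → ℤ}

theorem gen_section (hn : 4 ≤ n) (hC : Cov F N h φ) {U : ℕ → ι → ι → KR k n}
    (hU : Sys hp h d U) :
    ∃ (m₁ : ℤ) (s : ι → KR k n), s ∈ Mt hp h d (U 1) 1 m₁ ∧ (∀ a, s a ∉ FV hp 1) ∧
      ∀ (m : ℤ) (ω : ℕ → ι → KR k n), Sec hp h d U m ω →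
        ∃ r : PR k n, ∀ a, ω 1 a - em r * s a ∈ FV hp 1 := by
  classical
  obtain ⟨a₀⟩ := cov_nonempty hn hC
  obtain ⟨m', τ, hτ, hτ1⟩ := exists_sec hn hC (sys_symm hU)
  obtain ⟨m₀, σ₀, hσ₀, hσ₀1⟩ := exists_sec hn hC hU
  have hτL : ∀ K, 1 ≤ K → ∀ a, τ K a ∈ FV hp 0 := fun K hK a =>
    fv_lo hp (hC.nd a) ((hτ K hK).1.1 a)
  have hτN : ∀ K, 1 ≤ K → ∀ a, τ K a ∉ FV hp 1 := by
    intro K hK a
    have h1 : τ K a - τ 1 a ∈ FV hp 1 := by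
      induction K, hK using Nat.le_induction with
      | base => rw [sub_self]; exact zero_mem _
      | succ L hL ih =>
        have h2 := fv_mono hp hL ((hτ L hL).2 a)
        have h3 := add_mem h2 ih
        rwa [sub_add_sub_cancel] at h3
    intro h2
    have h3 := sub_mem h2 h1
    rw [sub_sub_cancel] at h3
    exact hτ1 a h3
  -- the polynomial of a section
  have hpos : ∀ (m : ℤ) (σ : ℕ → ι → KR k n), Sec hp h d U m σ → ∀ a, σ 1 a ∉ FV hp 1 →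
      ∀ θ : PR k n, em θ ∈ Hg (m + m') → (∀ K, 1 ≤ K → ∀ a, σ K a * τ K a - em θ ∈ FV hp K) →
      ¬ F ∣ θ ∧ θ ≠ 0 ∧ ∃ j : ℕ, (j : ℤ) = m + m' ∧ θ.IsHomogeneous j := by
    intro m σ hσ a ha θ hθ1 hθ2
    have h1 : ¬ F ∣ θ := by
      intro h2
      have h3 : em θ ∈ FV hp 1 := (fv_em hp).2 (by rwa [pow_one])
      have h4 := add_mem (hθ2 1 le_rfl a) h3
      rw [sub_add_cancel, mul_comm] at h4
      exact ha (fv_cancel hp (hτL 1 le_rfl a) (hτN 1 le_rfl a) h4)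
    have h2 : θ ≠ 0 := by
      rintro rfl
      exact h1 (dvd_zero F)
    exact ⟨h1, h2, (hg_em_iff hθ1).resolve_left h2⟩
  have hge : ∀ (m : ℤ) (σ : ℕ → ι → KR k n), Sec hp h d U m σ → ∀ a, σ 1 a ∉ FV hp 1 →
      ∃ j : ℕ, (j : ℤ) = m + m' := by
    intro m σ hσ a ha
    obtain ⟨θ, hθ1, hθ2⟩ := theta hn hC hU hσ hτ
    obtain ⟨-, -, j, hj, -⟩ := hpos m σ hσ a ha θ hθ1 hθ2
    exact ⟨j, hj⟩
  have hex : ∃ j : ℕ, ∃ (m : ℤ) (σ : ℕ → ι → KR k n), (j : ℤ) = m + m' ∧ Sec hp h d U m σ ∧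
      ∃ a, σ 1 a ∉ FV hp 1 := by
    obtain ⟨j, hj⟩ := hge m₀ σ₀ hσ₀ a₀ (hσ₀1 a₀)
    exact ⟨j, m₀, σ₀, hj, hσ₀, a₀, hσ₀1 a₀⟩
  obtain ⟨m₁, σ₁, hj₁, hσ₁, a₁, ha₁⟩ := Nat.find_spec hex
  have hall : ∀ a, σ₁ 1 a ∉ FV hp 1 := by
    intro b hb
    have h1 := (hσ₁ 1 le_rfl).1.2.2 a₁ b
    have h2 := (coc_unit hC (hU 1 le_rfl).1 a₁ b).1
    have h3 := fv_mul hp h2 hb
    rw [zero_add] at h3
    have h4 := add_mem h1 h3
    rw [sub_add_cancel] at h4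
    exact ha₁ h4
  refine ⟨m₁, σ₁ 1, (hσ₁ 1 le_rfl).1, hall, ?_⟩
  intro m₂ ω hω
  obtain ⟨θ₁, hθ₁, hθ₁'⟩ := theta hn hC hU hσ₁ hτ
  obtain ⟨θ₂, hθ₂, hθ₂'⟩ := theta hn hC hU hω hτ
  obtain ⟨hF₁, h0₁, j₁, hjj, hhom⟩ := hpos m₁ σ₁ hσ₁ a₁ ha₁ θ₁ hθ₁ hθ₁'
  have hem : ∀ (r : PR k n) {K : ℕ} {v : KR k n}, v ∈ FV hp K → em r * v ∈ FV hp K := by
    intro r K v hv
    have h1 := Submodule.smul_mem (FV hp K) r hv
    rwa [Algebra.smul_def] at h1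
  have hkey : ∀ K, 1 ≤ K → ∀ a, em θ₁ * ω K a - em θ₂ * σ₁ K a ∈ FV hp K := by
    intro K hK a
    refine fv_cancel hp (hτL K hK a) (hτN K hK a) ?_
    have h1 := sub_mem (hem θ₁ (hθ₂' K hK a)) (hem θ₂ (hθ₁' K hK a))
    have h2 : em θ₁ * (ω K a * τ K a - em θ₂) - em θ₂ * (σ₁ K a * τ K a - em θ₁) =
        τ K a * (em θ₁ * ω K a - em θ₂ * σ₁ K a) := by ring
    rwa [h2] at h1
  obtain ⟨p, q, D, hpq, hDp, hDq⟩ := UniqueFactorizationMonoid.exists_reduced_factors θ₁ h0₁ θ₂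
  have hFD : ¬ F ∣ D := fun h1 => hF₁ (hDp ▸ h1.mul_right p)
  have hFp : ¬ F ∣ p := fun h1 => hF₁ (hDp ▸ h1.mul_left D)
  have hD0 : D ≠ 0 := by
    rintro rfl
    exact hFD (dvd_zero F)
  have hp0 : p ≠ 0 := by
    rintro rfl
    exact hFp (dvd_zero F)
  have hrel : ∀ K, 1 ≤ K → ∀ a, em p * ω K a - em q * σ₁ K a ∈ FV hp K := by
    intro K hK a
    have h1 : em D ∈ FV hp 0 := (fv_em hp).2 (by rw [pow_zero]; exact one_dvd _)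
    have h2 : em D ∉ FV hp 1 := fun h3 => hFD (by have := (fv_em hp).1 h3; rwa [pow_one] at this)
    refine fv_cancel hp h1 h2 ?_
    have h3 := hkey K hK a
    rw [← hDp, ← hDq, map_mul, map_mul] at h3
    have h4 : em D * em p * ω K a - em D * em q * σ₁ K a =
        em D * (em p * ω K a - em q * σ₁ K a) := by ring
    rwa [h4] at h3
  obtain ⟨eD, e, -, hpe, -⟩ := factor_hom (hDp.symm ▸ hhom : (D * p).IsHomogeneous j₁) hD0 hp0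
  obtain ⟨ς, hς, hς'⟩ := sec_div hC hU hσ₁ hω hpe hFp hpq hrel
  have hς1 : ς 1 a₀ ∉ FV hp 1 := by
    intro h1
    have h2 := add_mem (hς' 1 le_rfl a₀) (hem p h1)
    rw [sub_add_cancel] at h2
    exact hall a₀ h2
  obtain ⟨j', hj'⟩ := hge _ ς hς a₀ hς1
  have hmin := Nat.find_min' hex ⟨_, ς, hj', hς, a₀, hς1⟩
  have he : e = 0 := by omega
  subst he
  obtain ⟨x, rfl⟩ : ∃ x : k, p = C x :=
    ⟨coeff 0 p, totalDegree_eq_zero_iff_eq_C.1 (hpe.totalDegree hp0)⟩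
  have hx : x ≠ 0 := by
    rintro rfl
    exact hp0 C_0
  refine ⟨C x⁻¹ * q, fun a => ?_⟩
  have h1 := hem (C x⁻¹) (hrel 1 le_rfl a)
  have h2 : em (C x⁻¹ : PR k n) * em (C x : PR k n) = 1 := by
    rw [← map_mul, ← C_mul, inv_mul_cancel₀ hx, C_1, map_one]
  have h3 : em (C x⁻¹) * (em (C x) * ω 1 a - em q * σ₁ 1 a) =
      ω 1 a - em (C x⁻¹ * q) * σ₁ 1 a := by
    rw [mul_sub, ← mul_assoc, h2, one_mul, map_mul, mul_assoc]
  rwa [h3] at h1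

end Q9
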