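import Pool.Agent.LibQ9.U10

/-!
[Q9 U12b] (MEDIUM; may cite U1a, U1b, U1c, U4, U7, U10, U11a, U12a as stated) The generating section has no zeros on the punctured cone; the line bundle is trivial.

PLAN. `no_zero`: suppose `Van x (s a)`, `eval x F = 0`, `eval x (h a) ≠ 0`; `x ≠ 0` (`h a` has positive degree). `s a ∈ Lo (h a)`: `em (h a ^ e) * s a = em r`; `Van y (s a) ↔ eval y r = 0` when `eval y (h a) ≠ 0` (`van_em`, `van_prime`, `van_mul`).
`C` from `many_sections`; `many_points` for `F, r, H = h a` gives `y 0, .., y C` with `Van (y i) (s a)`. `separate` (all indices `a`) gives `σ i` and `many_sections` a combination `ω 1 = Σ x i • σ i`, `x ≠ 0`, `Sec .. ω`. By `hgen` `ω 1 a - em r' * s a ∈ FV hp 1`,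
so `Van (y i) (ω 1 a)` for all `i` (`fv_van`, `van_mul`, `van_add`). But `ω 1 a = x i • σ i a + (terms vanishing at y i)`, so `x i = 0` for all `i` (`¬ Van (y i) (σ i a)`). Contradiction.
`unit_sec`: fix `a`, `em (h a ^ e) * s a = em r`. Every `y` with `eval y F = 0`, `eval y r = 0` has `eval y (h a) = 0` (`no_zero`). Nullstellensatz: `h a ^ M = α r + β F`. `s' a = em (α h a ^ e) / em (h a ^ M)`: `s a * s' a - 1 = - em (β F) / em (h a ^ M) ∈ FV hp 1`.
Homogeneous: `r` is homogeneous of degree `b = m₁ + d a + e φ a` (`hg_em_iff`; `r ≠ 0` as `s a ∉ FV hp 1`); replace `α` by its component of degree `M φ a - b` (take the component of degree `M φ a` of `h a ^ M = α r + β F`; if `M φ a < b` this would give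
`h a ^ M ∈ span {F}`, impossible, so it is fine). `pic_trivial`: `coc_sys`, `gen_section`, `unit_sec`.
-/

set_option autoImplicit false

namespace Q9

open MvPolynomial

variable {k : Type} [Field k] [IsAlgClosed k] {n : ℕ} {ι : Type} [Fintype ι] {F : PR k n}
  {hp : Prime F} {N : ℕ} {h : ι → PR k n} {φ : ι → ℕ} {d : ι → ℤ}

omit [IsAlgClosed k] [Fintype ι] in
private theorem U12b_comp {g H : PR k n} {m D : ℕ} (hH : H.IsHomogeneous m) :
    homogeneousComponent D (g * H) =
      (if m ≤ D then homogeneousComponent (D - m) g else 0) * H := by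
  letI := MvPolynomial.gradedAlgebra (σ := Fin (n + 1)) (R := k)
  have hm : H ∈ homogeneousSubmodule (Fin (n + 1)) k m := hH
  have key : ∀ (p : PR k n) (i : ℕ),
      (DirectSum.decompose (homogeneousSubmodule (Fin (n + 1)) k) p i : PR k n) =
        homogeneousComponent i p := decomposition.decompose'_apply
  split_ifs with h
  · have h1 := DirectSum.coe_decompose_mul_of_right_mem_of_le
      (homogeneousSubmodule (Fin (n + 1)) k) (a := g) hm h
    rwa [key, key] at h1
  · have h1 := DirectSum.coe_decompose_mul_of_right_mem_of_not_le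
      (homogeneousSubmodule (Fin (n + 1)) k) (a := g) hm h
    rw [key] at h1
    rw [h1, zero_mul]

omit [IsAlgClosed k] [Fintype ι] in
private theorem U12b_van_smul {x : Fin (n + 1) → k} {v : KR k n} (hv : Van x v) (c : k) :
    Van x (c • v) := by
  have h2 : c • v = em (C c) * v := by
    rw [Algebra.smul_def, IsScalarTower.algebraMap_apply k (PR k n) (KR k n)]
    rfl
  rw [h2]
  exact van_mul (f := 1) (by simp) (em_mem_lo 1 (C c)) hv

omit [IsAlgClosed k] [Fintype ι] in
private theorem U12b_van_sum {x : Fin (n + 1) → k} {α : Type} (S : Finset α) (v : α → KR k n)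
    (hv : ∀ i ∈ S, Van x (v i)) : Van x (∑ i ∈ S, v i) := by
  classical
  induction S using Finset.induction_on with
  | empty =>
    rw [Finset.sum_empty]
    have := (van_em (x := x) (r := (0 : PR k n))).2 (map_zero _)
    rwa [map_zero] at this
  | insert a S ha ih =>
    rw [Finset.sum_insert ha]
    exact van_add (hv a (Finset.mem_insert_self _ _))
      (ih fun i hi => hv i (Finset.mem_insert_of_mem hi))

theorem no_zero (hn : 4 ≤ n) (hC : Cov F N h φ) {U : ℕ → ι → ι → KR k n} (hU : Sys hp h d U)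
    {m₁ : ℤ} {s : ι → KR k n} (hs : s ∈ Mt hp h d (U 1) 1 m₁)
    (hgen : ∀ (m : ℤ) (ω : ℕ → ι → KR k n), Sec hp h d U m ω →
        ∃ r : PR k n, ∀ a, ω 1 a - em r * s a ∈ FV hp 1)
    (x : Fin (n + 1) → k) (hx : eval x F = 0) (a : ι) (ha : eval x (h a) ≠ 0) :
    ¬ Van x (s a) := by
  intro hv
  obtain ⟨hs1, hs2, hs3⟩ := hs
  have hx0 : x ≠ 0 := by
    rintro rfl
    apply ha
    have h1 : (h a).coeff 0 = 0 := by
      by_contra hcon
      have := (hC.hh a) hcon
      have h2 := hC.pos a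
      simp at this
      omega
    rw [MvPolynomial.eval_zero, MvPolynomial.constantCoeff_eq, h1]
  obtain ⟨e, r, hr⟩ := mem_lo.1 (hs1 a)
  have hrx : eval x r = 0 := by
    rw [← van_em, ← hr]
    exact van_mul ha (em_mem_lo (h a) (h a ^ e)) hv
  obtain ⟨C₀, hC₀⟩ := many_sections hn hC hU
  obtain ⟨y, hy, hy'⟩ := many_points (by omega) F r (h a) x hx0 hx hrx ha C₀
  have hvy : ∀ i, Van (y i) (s a) := by
    intro i
    have h1 : Van (y i) (em (h a ^ e) * s a) := by
      rw [hr]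
      exact van_em.2 (hy' i).2.1
    rcases van_prime (hy' i).2.2 (em_mem_lo (h a) (h a ^ e)) (hs1 a) h1 with h2 | h2
    · rw [van_em, map_pow] at h2
      exact absurd h2 (pow_ne_zero _ (hy' i).2.2)
    · exact h2
  obtain ⟨m, σ, hσ, hnon, hvan⟩ := separate hC (hU 1 le_rfl).1 C₀ y hy (fun i => (hy' i).1)
    (fun _ => a) (fun i => (hy' i).2.2)
  obtain ⟨c, hc0, ω, hSec, hω⟩ := hC₀ m σ hσ
  obtain ⟨r', hr'⟩ := hgen m ω hSec
  have hω1 : ∀ a, ω 1 a ∈ Lo (h a) := (hSec 1 le_rfl).1.1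
  have hvω : ∀ i, Van (y i) (ω 1 a) := by
    intro i
    have h1 : Van (y i) (ω 1 a - em r' * s a) :=
      fv_van hp (hy' i).2.2 (hy' i).1
        (sub_mem (hω1 a) (lo_mul (em_mem_lo (h a) r') (hs1 a))) (hr' a)
    have h2 := van_add h1 (van_mul (hy' i).2.2 (em_mem_lo (h a) r') (hvy i))
    rwa [sub_add_cancel] at h2
  apply hc0
  ext i
  by_contra hci
  have h1 : ω 1 a = ∑ j, c j • σ j a := by
    rw [hω, Finset.sum_apply]
    rfl
  have h2 : c i • σ i a = ω 1 a + (-1 : k) • ∑ j ∈ Finset.univ.erase i, c j • σ j a := by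
    rw [h1, ← Finset.add_sum_erase _ _ (Finset.mem_univ i), neg_one_smul]
    ring
  have h3 : Van (y i) (c i • σ i a) := by
    rw [h2]
    apply van_add (hvω i)
    apply U12b_van_smul
    apply U12b_van_sum
    intro j hj
    apply U12b_van_smul
    exact hvan j i (Finset.ne_of_mem_erase hj)
  have h4 := U12b_van_smul h3 (c i)⁻¹
  rw [smul_smul, inv_mul_cancel₀ hci, one_smul] at h4
  exact hnon i h4

theorem unit_sec (hC : Cov F N h φ) {m₁ : ℤ} {s : ι → KR k n}
    (hs1 : ∀ a, s a ∈ Lo (h a)) (hs2 : ∀ a, s a ∈ Hg (m₁ + d a)) (hs3 : ∀ a, s a ∉ FV hp 1)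
    (hno : ∀ x : Fin (n + 1) → k, eval x F = 0 → ∀ a, eval x (h a) ≠ 0 → ¬ Van x (s a)) :
    ∃ s' : ι → KR k n, (∀ a, s' a ∈ Lo (h a)) ∧ (∀ a, s' a ∈ Hg (-(m₁ + d a))) ∧
      ∀ a, s a * s' a - 1 ∈ FV hp 1 := by
  have hh0 : ∀ a, h a ≠ 0 := by
    intro a h0
    exact hC.nd a (h0 ▸ dvd_zero F)
  have key : ∀ a, ∃ v : KR k n, v ∈ Lo (h a) ∧ v ∈ Hg (-(m₁ + d a)) ∧ s a * v - 1 ∈ FV hp 1 := by
    intro a
    obtain ⟨e, r, hr⟩ := mem_lo.1 (hs1 a)
    have hre : em r ∈ Hg ((φ a * e : ℕ) + (m₁ + d a) : ℤ) := by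
      rw [← hr]
      exact hg_mul (hg_em ((hC.hh a).pow e)) (hs2 a)
    have hr0 : r ≠ 0 := by
      rintro rfl
      rw [map_zero] at hr
      have h1 := (mul_eq_zero.1 hr).resolve_left (em_ne (pow_ne_zero _ (hh0 a)))
      apply hs3 a
      rw [h1]
      exact zero_mem _
    obtain ⟨b, hb, hrb⟩ := (hg_em_iff hre).resolve_left hr0
    have hnull : h a ∈ (Ideal.span {r, F}).radical := by
      rw [← MvPolynomial.vanishingIdeal_zeroLocus_eq_radical (K := k)]
      rw [MvPolynomial.mem_vanishingIdeal_iff]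
      intro y hy
      rw [MvPolynomial.mem_zeroLocus_iff] at hy
      have hyr : eval y r = 0 := by
        have := hy r (Ideal.subset_span (by simp))
        rwa [MvPolynomial.aeval_eq_eval] at this
      have hyF : eval y F = 0 := by
        have := hy F (Ideal.subset_span (by simp))
        rwa [MvPolynomial.aeval_eq_eval] at this
      rw [MvPolynomial.aeval_eq_eval]
      change eval y (h a) = 0
      by_contra hne
      have h1 : Van y (em (h a ^ e) * s a) := by
        rw [hr]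
        exact van_em.2 hyr
      rcases van_prime hne (em_mem_lo (h a) (h a ^ e)) (hs1 a) h1 with h2 | h2
      · rw [van_em, map_pow] at h2
        exact absurd h2 (pow_ne_zero _ hne)
      · exact hno y hyF a hne h2
    obtain ⟨M, hM⟩ := hnull
    obtain ⟨α, β, hαβ⟩ := Ideal.mem_span_pair.1 hM
    have hhM : (h a ^ M).IsHomogeneous (φ a * M) := (hC.hh a).pow M
    have h3 := congrArg (homogeneousComponent (φ a * M)) hαβ
    rw [map_add, U12b_comp hrb, U12b_comp hC.hom, homogeneousComponent_of_mem hhM,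
      if_pos rfl] at h3
    have hFM : ¬ F ∣ h a ^ M := fun hd => hC.nd a (hp.dvd_of_dvd_pow hd)
    have hbM : b ≤ φ a * M := by
      by_contra hcon
      rw [if_neg hcon, zero_mul, zero_add] at h3
      exact hFM (h3 ▸ dvd_mul_left _ _)
    rw [if_pos hbM] at h3
    set α' := homogeneousComponent (φ a * M - b) α with hα'
    set β' := (if N ≤ φ a * M then homogeneousComponent (φ a * M - N) β else 0) with hβ'
    have hα'h : α'.IsHomogeneous (φ a * M - b) := homogeneousComponent_isHomogeneous _ _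
    have hM0 : em (h a ^ M) ≠ 0 := em_ne (pow_ne_zero _ (hh0 a))
    refine ⟨em (α' * h a ^ e) / em (h a ^ M), lo_div (hh0 a) _ _, ?_, ?_⟩
    · have h4 := hg_mul (hg_em (hα'h.mul ((hC.hh a).pow e))) (hg_inv (hg_em hhM))
      have h5 : ((φ a * M - b + φ a * e : ℕ) : ℤ) + -((φ a * M : ℕ) : ℤ) = -(m₁ + d a) := by
        push_cast [Nat.cast_sub hbM] at hb ⊢
        linarith
      rw [h5] at h4
      rwa [div_eq_mul_inv]
    · refine ⟨h a ^ M, -β', hFM, ?_⟩
      have h6 : em (h a ^ M) = em α' * em r + em β' * em F := by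
        rw [← map_mul, ← map_mul, ← map_add, h3]
      have h7 : em (h a ^ M) * (s a * (em (α' * h a ^ e) / em (h a ^ M)) - 1) =
          em α' * (em (h a ^ e) * s a) - em (h a ^ M) := by
        rw [map_mul]
        field_simp
      rw [h7, hr, h6, pow_one, map_mul, map_neg]
      ring
  choose s' h1 h2 h3 using key
  exact ⟨s', h1, h2, h3⟩

theorem pic_trivial (hn : 4 ≤ n) (hC : Cov F N h φ) {u : ι → ι → KR k n}
    (hu : Coc hp h d 1 u) :
    ∃ (m : ℤ) (s s' : ι → KR k n), (∀ a, s a ∈ Lo (h a)) ∧ (∀ a, s' a ∈ Lo (h a)) ∧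
      (∀ a, s a ∈ Hg (m + d a)) ∧ (∀ a, s' a ∈ Hg (-(m + d a))) ∧
      (∀ a b, s a - u a b * s b ∈ FV hp 1) ∧ ∀ a, s a * s' a - 1 ∈ FV hp 1 := by
  obtain ⟨U, hU1, hU⟩ := coc_sys hn hC hu
  obtain ⟨m₁, s, hs, hs3, hgen⟩ := gen_section hn hC hU
  have hno := fun (x : Fin (n + 1) → k) (hx : eval x F = 0) (a : ι) (ha : eval x (h a) ≠ 0) =>
    no_zero hn hC hU hs hgen x hx a ha
  obtain ⟨hs1, hs2, hs4⟩ := hs
  obtain ⟨s', h1, h2, h3⟩ := unit_sec (hp := hp) hC hs1 hs2 hs3 hno
  rw [hU1] at hs4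
  exact ⟨m₁, s, s', hs1, h1, hs2, h2, hs4, h3⟩

end Q9
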