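import Mathlib

/-!
[Q9 U14] (MEDIUM, ONLY MATHLIB) Elimination, and contraction of a height two prime containing a monic polynomial.

PLAN. `elim`: if `F = C b`: `Ψ = b`. Otherwise `F` has positive degree, it is primitive and irreducible (prime in a UFD polynomial ring), so its image in `Frac(B)[X]` is irreducible (`Polynomial.IsPrimitive.irreducible_iff_irreducible_map_fraction_map`) and
does not divide the image of `f` (`Polynomial.IsPrimitive.dvd_iff_fraction_map_dvd_fraction_map`, Gauss); so `u F + v f = 1` over `Frac(B)`; clear denominators.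
`comap_principal`: if `P.comap C = ⊥` take `g = 0`. Otherwise the prime `P.comap C` of the UFD `B` contains a prime element `g`. Suppose `g ∤ q`, `C q ∈ P`. Let `𝔮 ≤ P` be a minimal prime over `span {C g, F}`. `B[X] ⧸ (C g, F)` is the quotient of `(B/g)[X]` by
the monic `F` so it is a free module over the domain `B/g`, hence the image of `q` is not a zero divisor in it and is not in a minimal prime (`Ideal.disjoint_nonZeroDivisors_of_mem_minimalPrimes` or
`Ideal.mem_minimalPrimes..`): `C q ∉ 𝔮`. So `⊥ < span {C g} < 𝔮 < P` is a chain of primes (`F ∈ 𝔮` is monic, so `F ∉ span {C g}`; `g` prime in `B` gives `C g` prime in `B[X]`): the height of `P` is at least `3`. Contradiction (`Order.length_le_height`, or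
`Ideal.height_strict_mono_of_is_prime` three times). (Alternatively: `Algebra.HasGoingDown` for the flat extension `B → B[X]/F`, the height of `P/F` is `≤ 1`, so that of `P.comap C` too, and height one primes of a UFD are principal.)
-/

set_option autoImplicit false

namespace Q9

open Polynomial

private theorem U14_clear {B : Type} [CommRing B] [IsDomain B] (u : (FractionRing B)[X]) :
    ∃ b : B, b ≠ 0 ∧ ∃ u' : B[X], u'.map (algebraMap B (FractionRing B)) =
      C (algebraMap B (FractionRing B) b) * u := by
  obtain ⟨b, hb, h⟩ := IsLocalization.integerNormalization_spec (nonZeroDivisors B) u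
  refine ⟨b, nonZeroDivisors.ne_zero hb,
    IsLocalization.integerNormalization (nonZeroDivisors B) u, ?_⟩
  rw [h, Algebra.smul_def, Polynomial.algebraMap_apply]

theorem elim {B : Type} [CommRing B] [IsDomain B] [UniqueFactorizationMonoid B] {F f : B[X]}
    (hF : Prime F) (hf : ¬ F ∣ f) : ∃ Ψ : B, Ψ ≠ 0 ∧ C Ψ ∈ Ideal.span {F, f} := by
  by_cases h0 : F.natDegree = 0
  · have h1 : F = C (F.coeff 0) := Polynomial.eq_C_of_natDegree_eq_zero h0
    refine ⟨F.coeff 0, ?_, ?_⟩
    · intro h
      apply hF.ne_zero
      rw [h1, h, C_0]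
    · rw [← h1]
      exact Ideal.subset_span (by simp)
  · have hprim : F.IsPrimitive := hF.irreducible.isPrimitive h0
    have hinj : Function.Injective (Polynomial.map (algebraMap B (FractionRing B))) :=
      Polynomial.map_injective _ (IsFractionRing.injective B (FractionRing B))
    have hirr : Irreducible (F.map (algebraMap B (FractionRing B))) :=
      (hprim.irreducible_iff_irreducible_map_fraction_map).1 hF.irreducible
    have hnd : ¬ F.map (algebraMap B (FractionRing B)) ∣ f.map (algebraMap B (FractionRing B)) :=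
      fun h => hf (hprim.dvd_of_fraction_map_dvd_fraction_map h)
    obtain ⟨u, v, huv⟩ := (hirr.coprime_iff_not_dvd).2 hnd
    obtain ⟨b, hb, u', hu⟩ := U14_clear u
    obtain ⟨c, hc, v', hv⟩ := U14_clear v
    refine ⟨b * c, mul_ne_zero hb hc, ?_⟩
    have key : C (b * c) = (C c * u') * F + (C b * v') * f := by
      apply hinj
      simp only [Polynomial.map_add, Polynomial.map_mul, Polynomial.map_C, hu, hv, map_mul]
      linear_combination (-(C (algebraMap B (FractionRing B) b) * C (algebraMap B (FractionRing B) c))) * huv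
    rw [key]
    exact Ideal.add_mem _ (Ideal.mul_mem_left _ _ (Ideal.subset_span (by simp)))
      (Ideal.mul_mem_left _ _ (Ideal.subset_span (by simp)))

private theorem U14_mem {B : Type} [CommRing B] {g : B} {y : B[X]}
    (h : y.map (Ideal.Quotient.mk (Ideal.span {g})) = 0) : C g ∣ y := by
  rw [Polynomial.C_dvd_iff_dvd_coeff]
  intro i
  have h1 : (y.map (Ideal.Quotient.mk (Ideal.span {g}))).coeff i = 0 := by rw [h]; simp
  rw [Polynomial.coeff_map, Ideal.Quotient.eq_zero_iff_mem, Ideal.mem_span_singleton] at h1
  exact h1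

private theorem U14_reg {B : Type} [CommRing B] [IsDomain B] {g q : B} (hg : Prime g)
    (hq : ¬ g ∣ q) {F : B[X]} (hF : F.Monic) {y : B[X]}
    (hy : C q * y ∈ Ideal.span {C g, F}) : y ∈ Ideal.span {C g, F} := by
  have hgp : (Ideal.span {g}).IsPrime := (Ideal.span_singleton_prime hg.ne_zero).2 hg
  set φ := Ideal.Quotient.mk (Ideal.span {g}) with hφ
  rw [Ideal.mem_span_pair] at hy
  obtain ⟨a, b, hab⟩ := hy
  have h1 : C (φ q) * y.map φ = b.map φ * F.map φ := by
    have h2 := congrArg (Polynomial.map φ) hab
    simp only [Polynomial.map_add, Polynomial.map_mul, Polynomial.map_C] at h2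
    have h3 : φ g = 0 := by
      rw [hφ, Ideal.Quotient.eq_zero_iff_mem]
      exact Ideal.mem_span_singleton_self g
    rw [h3, C_0, mul_zero, zero_add] at h2
    exact h2.symm
  have hFm : (F.map φ).Monic := hF.map φ
  have hq0 : φ q ≠ 0 := by
    intro h
    rw [hφ, Ideal.Quotient.eq_zero_iff_mem, Ideal.mem_span_singleton] at h
    exact hq h
  set r := y.map φ %ₘ F.map φ with hr
  have h4 : y.map φ = r + F.map φ * (y.map φ /ₘ F.map φ) :=
    (Polynomial.modByMonic_add_div (y.map φ) (F.map φ)).symm
  have h5 : F.map φ ∣ C (φ q) * r := by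
    have : C (φ q) * r = F.map φ * (b.map φ - C (φ q) * (y.map φ /ₘ F.map φ)) := by
      linear_combination h1 - C (φ q) * h4
    rw [this]
    exact dvd_mul_right _ _
  have h6 : C (φ q) * r = 0 := by
    by_contra hne
    refine hFm.not_dvd_of_degree_lt hne ?_ h5
    rw [Polynomial.degree_C_mul hq0]
    exact Polynomial.degree_modByMonic_lt _ hFm
  have h7 : r = 0 := by
    rcases mul_eq_zero.1 h6 with h | h
    · rw [C_eq_zero] at h
      exact absurd h hq0
    · exact h
  rw [h7, zero_add] at h4
  obtain ⟨t, ht⟩ := Polynomial.map_surjective φ Ideal.Quotient.mk_surjective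
    (y.map φ /ₘ F.map φ)
  have h8 : (y - F * t).map φ = 0 := by
    rw [Polynomial.map_sub, Polynomial.map_mul, ht, ← h4, sub_self]
  obtain ⟨s, hs⟩ := U14_mem h8
  rw [Ideal.mem_span_pair]
  exact ⟨s, t, by linear_combination (-1 : B[X]) * hs⟩

theorem comap_principal {B : Type} [CommRing B] [IsDomain B] [IsNoetherianRing B]
    [UniqueFactorizationMonoid B] (P : Ideal B[X]) [P.IsPrime] (hP : P.height ≤ 2) {F : B[X]}
    (hF : F.Monic) (hFP : F ∈ P) : ∃ g : B, P.comap (C : B →+* B[X]) = Ideal.span {g} := by
  by_cases h0 : P.comap (C : B →+* B[X]) = ⊥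
  · exact ⟨0, by rw [h0]; simp⟩
  have hpc : (P.comap (C : B →+* B[X])).IsPrime := Ideal.comap_isPrime _ _
  obtain ⟨g, hgP, hg⟩ := hpc.exists_mem_prime_of_ne_bot h0
  refine ⟨g, le_antisymm ?_ ?_⟩
  · intro q hqP
    rw [Ideal.mem_span_singleton]
    by_contra hq
    rw [Ideal.mem_comap] at hgP hqP
    have hle : Ideal.span {C g, F} ≤ P := by
      rw [Ideal.span_le]
      intro x hx
      simp only [Set.mem_insert_iff, Set.mem_singleton_iff] at hx
      rcases hx with rfl | rfl
      · exact hgP
      · exact hFP
    obtain ⟨Q, hQ, hQP⟩ := Ideal.exists_minimalPrimes_le hle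
    have hQp : Q.IsPrime := hQ.isPrime
    have hqQ : C q ∉ Q := by
      intro h
      obtain ⟨y, hy, hxy⟩ := Ideal.exists_mul_mem_of_mem_minimalPrimes hQ h
      exact hy (U14_reg hg hq hF hxy)
    have hCg : Prime (C g : B[X]) := Polynomial.prime_C_iff.2 hg
    have hGp : (Ideal.span {(C g : B[X])}).IsPrime :=
      (Ideal.span_singleton_prime hCg.ne_zero).2 hCg
    have l1 : (⊥ : Ideal B[X]) < Ideal.span {(C g : B[X])} := by
      rw [bot_lt_iff_ne_bot, Ne, Ideal.span_singleton_eq_bot]
      exact hCg.ne_zero
    have hspanQ : Ideal.span {C g, F} ≤ Q := hQ.le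
    have hgQ : C g ∈ Q := hspanQ (Ideal.subset_span (by simp))
    have hFQ : F ∈ Q := hspanQ (Ideal.subset_span (by simp))
    have l2 : Ideal.span {(C g : B[X])} < Q := by
      refine lt_of_le_of_ne ?_ ?_
      · rw [Ideal.span_le]
        intro x hx
        rw [Set.mem_singleton_iff] at hx
        rw [hx]
        exact hgQ
      · intro h
        rw [← h, Ideal.mem_span_singleton, Polynomial.C_dvd_iff_dvd_coeff] at hFQ
        have h2 := hFQ F.natDegree
        rw [hF.coeff_natDegree] at h2
        exact hg.not_isUnit (isUnit_of_dvd_one h2)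
    have l3 : Q < P := by
      refine lt_of_le_of_ne hQP ?_
      intro h
      rw [h] at hqQ
      exact hqQ hqP
    have e1 := Ideal.height_strict_mono_of_isPrime l1
    have e2 := Ideal.height_strict_mono_of_isPrime l2
    have e3 := Ideal.height_strict_mono_of_isPrime l3
    have f1 : 1 ≤ (Ideal.span {(C g : B[X])}).height := by
      have := Order.add_one_le_of_lt e1
      exact le_trans (by simp) this
    have f2 : 2 ≤ Q.height := by
      have h1 := Order.add_one_le_of_lt e2
      refine le_trans ?_ h1
      calc (2 : ℕ∞) = 1 + 1 := by norm_num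
        _ ≤ _ := by gcongr
    exact absurd (lt_of_le_of_lt f2 e3) (not_lt.2 hP)
  · rw [Ideal.span_le]
    intro x hx
    rw [Set.mem_singleton_iff] at hx
    rw [hx]
    exact hgP

end Q9
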