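import Mathlib

/-!
[Q9 U15] (MEDIUM, ONLY MATHLIB) A prime containing a monic polynomial is locally `(F, g)` at a point where the projection is etale and injective.

PLAN. 1. The image `P̄` of `P` under `Polynomial.mapRingHom ev` (surjective) is an ideal of the PID `k[X]`, `P̄ = span {δ}`, `δ ≠ 0` because the image of `F` is monic; `δ(y₀) = 0`, every root of `δ` is `y₀` (`huniq`), and `δ ∣ F.map ev` where `y₀` is a simple root (`hF'`),
`k` algebraically closed: `δ` is associated to `X - C y₀`. So there is `q ∈ P` with `q.map ev = X - C y₀`. 2. `B[X] ⧸ P` is a finite `B`-module (`F` monic). Let `N` be the submodule generated by `1`, `m = ker ev`. The coefficients of `q - (X - C y₀')` (`y₀'` = `algebraMap k B y₀`) are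
in `m`, so `X ∈ N + m (B[X]/P)` and the same for all powers: `⊤ = N ⊔ m • ⊤`. Nakayama (`Submodule.exists_sub_one_mem_and_smul_eq_zero_of_fg_of_le_smul` for `(B[X]/P) / N`): `s ∈ B`, `ev s = 1`, `s • ⊤ ≤ N`: so `C s * X - C t ∈ P` for some `t ∈ B`.
3. For `p ∈ B[X]` with `p.natDegree ≤ e`: `C s ^ e * p = (C s * X - C t) * p₁ + C p₀` (induction, or `Polynomial` division with remainder by a linear polynomial after homogenising). If `p ∈ P` then `p₀ ∈ P.comap C = span {g}`. So `C s ^ e * p ∈ span {C s * X - C t, C g}`; `P` is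
finitely generated: one `e` for generators. For `F`: `C s ^ e * F = (C s * X - C t) * F₁ + C F₀`, `g ∣ F₀`; so `F₁ * (C s * X - C t) ∈ span {F, C g}`. 4. `h = F₁ * C s ^ e` : `h * p ∈ span {F, C g}` for `p ∈ P` (first for the generators, so for all). Value: differentiate:
`C s ^ e * F' = C s * F₁ + (C s * X - C t) * F₁'`; evaluate (`map ev`, at `y₀`, where `C s * X - C t ∈ P` vanishes): `ev(s)^e F'(y₀) = ev(s) F₁(y₀)`, so `F₁(y₀) ≠ 0`.
-/

set_option autoImplicit false

namespace Q9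

open Polynomial

/-- step 1: an element of `P` with image `X - C y₀` -/
private theorem U15_step1 {k : Type} [Field k] [IsAlgClosed k] {B : Type} [CommRing B]
    (P : Ideal B[X]) {F : B[X]} (hF : F.Monic) (hFP : F ∈ P) (e : B →+* k)
    (he : Function.Surjective e) (y₀ : k) (hP : ∀ p ∈ P, (p.map e).eval y₀ = 0)
    (hF' : (F.derivative.map e).eval y₀ ≠ 0)
    (huniq : ∀ y : k, (∀ p ∈ P, (p.map e).eval y = 0) → y = y₀) :
    ∃ q ∈ P, q.map e = X - C y₀ := by
  classical
  have hsurj : Function.Surjective (mapRingHom e) := Polynomial.map_surjective e he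
  have hmem : ∀ z, z ∈ P.map (mapRingHom e) ↔ ∃ p ∈ P, p.map e = z := by
    intro z
    rw [Ideal.mem_map_iff_of_surjective _ hsurj]
    rfl
  obtain ⟨δ, hδ⟩ := (IsPrincipalIdealRing.principal (P.map (mapRingHom e))).principal
  have hδ' : ∀ z, z ∈ P.map (mapRingHom e) ↔ δ ∣ z := by
    intro z
    rw [hδ]
    exact Ideal.mem_span_singleton
  have hFm : (F.map e).Monic := hF.map e
  have hFd : δ ∣ F.map e := (hδ' _).1 ((hmem _).2 ⟨F, hFP, rfl⟩)
  have hδ0 : δ ≠ 0 := by
    rintro rfl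
    exact hFm.ne_zero (zero_dvd_iff.1 hFd)
  have hroot : δ.IsRoot y₀ := by
    obtain ⟨p, hp, hpe⟩ := (hmem δ).1 ((hδ' δ).2 dvd_rfl)
    rw [IsRoot.def, ← hpe]
    exact hP p hp
  have honly : ∀ y ∈ δ.roots, y = y₀ := by
    intro y hy
    apply huniq
    intro p hp
    obtain ⟨c, hc⟩ := (hδ' _).1 ((hmem (p.map e)).2 ⟨p, hp, rfl⟩)
    rw [hc, eval_mul, (mem_roots'.1 hy).2, zero_mul]
  have hrep : δ.roots = Multiset.replicate (Multiset.card δ.roots) y₀ :=
    Multiset.eq_replicate.2 ⟨rfl, honly⟩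
  have hmult : δ.rootMultiplicity y₀ ≤ 1 := by
    refine le_trans (rootMultiplicity_le_rootMultiplicity_of_dvd hFm.ne_zero hFd y₀) ?_
    by_contra hcon
    have h2 := (one_lt_rootMultiplicity_iff_isRoot hFm.ne_zero).1 (not_le.1 hcon)
    apply hF'
    rw [← derivative_map]
    exact h2.2
  have hcard : Multiset.card δ.roots = 1 := by
    have h1 : Multiset.card δ.roots ≤ 1 := by
      rw [← count_roots, hrep, Multiset.count_replicate_self] at hmult
      exact hmult
    have h2 : 0 < Multiset.card δ.roots := Multiset.card_pos_iff_exists_mem.2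
      ⟨y₀, (mem_roots hδ0).2 hroot⟩
    omega
  have hprod := (IsAlgClosed.splits δ).eq_prod_roots
  rw [hrep, hcard, Multiset.replicate_one, Multiset.map_singleton, Multiset.prod_singleton]
    at hprod
  have hlc : δ.leadingCoeff ≠ 0 := leadingCoeff_ne_zero.2 hδ0
  apply (hmem _).1
  rw [hδ']
  refine ⟨C δ.leadingCoeff⁻¹, ?_⟩
  have h3 : C δ.leadingCoeff⁻¹ * δ = C δ.leadingCoeff⁻¹ * (C δ.leadingCoeff * (X - C y₀)) :=
    congrArg _ hprod
  rw [mul_comm, h3, ← mul_assoc, ← C_mul, inv_mul_cancel₀ hlc, C_1, one_mul]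

/-- step 2 (Nakayama): a linear polynomial in `P` -/
private theorem U15_step2 {k : Type} [Field k] {B : Type} [CommRing B] [Algebra k B]
    (P : Ideal B[X]) {F : B[X]} (hF : F.Monic) (hFP : F ∈ P) (ev : B →ₐ[k] k) (y₀ : k)
    (q : B[X]) (hq : q ∈ P) (hqe : q.map ev.toRingHom = X - C y₀) :
    ∃ s t : B, ev s = 1 ∧ C s * X - C t ∈ P := by
  have hfin : Module.Finite B (B[X] ⧸ P) := by
    have h1 : Module.Finite B (B[X] ⧸ Ideal.span {F}) := hF.finite_quotient
    have hle : Ideal.span {F} ≤ P := (Ideal.span_singleton_le_iff_mem _).2 hFP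
    exact Module.Finite.of_surjective (Ideal.Quotient.factorₐ B hle).toLinearMap
      (Ideal.Quotient.factor_surjective hle)
  let m : Ideal B := RingHom.ker ev.toRingHom
  let N : Submodule B (B[X] ⧸ P) := LinearMap.range (Algebra.linearMap B (B[X] ⧸ P))
  -- the class of a polynomial with coefficients in `m`
  have hm : ∀ r : B[X], (∀ i, r.coeff i ∈ m) → Ideal.Quotient.mk P r ∈
      (m • ⊤ : Submodule B (B[X] ⧸ P)) := by
    intro r hr
    rw [r.as_sum_range_C_mul_X_pow, map_sum]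
    apply Submodule.sum_mem
    intro i _
    have : Ideal.Quotient.mk P (C (r.coeff i) * X ^ i) = r.coeff i • Ideal.Quotient.mk P (X ^ i) := by
      rw [← Polynomial.smul_eq_C_mul]
      rfl
    rw [this]
    exact Submodule.smul_mem_smul (hr i) trivial
  have hx : Ideal.Quotient.mk P (X - C (algebraMap k B y₀)) ∈
      (m • ⊤ : Submodule B (B[X] ⧸ P)) := by
    have h1 := hm (X - C (algebraMap k B y₀) - q) (by
      intro i
      have h2 : ((X - C (algebraMap k B y₀) - q).map ev.toRingHom).coeff i = 0 := by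
        rw [Polynomial.map_sub, Polynomial.map_sub, hqe, map_X, map_C]
        have : ev.toRingHom (algebraMap k B y₀) = y₀ := by
          change ev (algebraMap k B y₀) = y₀
          rw [AlgHom.commutes]
          rfl
        rw [this, sub_self, coeff_zero]
      rw [coeff_map] at h2
      exact RingHom.mem_ker.2 h2)
    rw [map_sub _ _ q, Ideal.Quotient.eq_zero_iff_mem.2 hq, sub_zero] at h1
    exact h1
  have hideal : ∀ a b : B[X] ⧸ P, a ∈ (m • ⊤ : Submodule B (B[X] ⧸ P)) →
      a * b ∈ (m • ⊤ : Submodule B (B[X] ⧸ P)) := by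
    intro a b ha
    rw [Ideal.smul_top_eq_map] at ha ⊢
    exact Ideal.mul_mem_right b _ ha
  have hall : ∀ a : B[X] ⧸ P, ∃ b : B, a - algebraMap B _ b ∈ (m • ⊤ : Submodule B (B[X] ⧸ P)) := by
    intro a
    obtain ⟨p, rfl⟩ := Ideal.Quotient.mk_surjective a
    refine ⟨p.eval (algebraMap k B y₀), ?_⟩
    obtain ⟨c, hc⟩ := X_sub_C_dvd_sub_C_eval (a := algebraMap k B y₀) (p := p)
    have h1 : Ideal.Quotient.mk P p - algebraMap B (B[X] ⧸ P) (p.eval (algebraMap k B y₀)) =
        Ideal.Quotient.mk P (X - C (algebraMap k B y₀)) * Ideal.Quotient.mk P c := by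
      rw [← map_mul, ← hc, map_sub]
      rfl
    rw [h1]
    exact hideal _ _ hx
  have hfin2 : Module.Finite B ((B[X] ⧸ P) ⧸ N) := inferInstance
  have htop : (⊤ : Submodule B ((B[X] ⧸ P) ⧸ N)) ≤ m • ⊤ := by
    intro z _
    obtain ⟨a, rfl⟩ := N.mkQ_surjective z
    obtain ⟨b, hb⟩ := hall a
    have h1 : N.mkQ a = N.mkQ (a - algebraMap B _ b) := by
      rw [map_sub]
      have : N.mkQ (algebraMap B (B[X] ⧸ P) b) = 0 := by
        rw [Submodule.mkQ_apply, Submodule.Quotient.mk_eq_zero]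
        exact ⟨b, rfl⟩
      rw [this, sub_zero]
    rw [h1]
    have h2 := Submodule.mem_map_of_mem (f := N.mkQ) hb
    rw [Submodule.map_smul''] at h2
    exact Submodule.smul_mono le_rfl le_top h2
  obtain ⟨s, hs1, hs2⟩ := Submodule.exists_sub_one_mem_and_smul_eq_zero_of_fg_of_le_smul m ⊤
    hfin2.1 htop
  have hsX := hs2 (N.mkQ (Ideal.Quotient.mk P X)) trivial
  rw [← map_smul, Submodule.mkQ_apply, Submodule.Quotient.mk_eq_zero] at hsX
  obtain ⟨t, ht⟩ := hsX
  refine ⟨s, t, ?_, ?_⟩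
  · have h3 : ev.toRingHom (s - 1) = 0 := RingHom.mem_ker.1 hs1
    rw [map_sub, map_one] at h3
    exact sub_eq_zero.1 h3
  · rw [← Ideal.Quotient.eq_zero_iff_mem, map_sub, sub_eq_zero]
    have h4 : Ideal.Quotient.mk P (C s * X) = s • Ideal.Quotient.mk P X := by
      rw [← Polynomial.smul_eq_C_mul]
      rfl
    rw [h4, ← ht]
    rfl

/-- step 3: division by `C s * X - C t` -/
private theorem U15_div {B : Type} [CommRing B] (s t : B) (p : B[X]) :
    ∃ (N : ℕ) (p₁ : B[X]) (p₀ : B), C s ^ N * p = (C s * X - C t) * p₁ + C p₀ := by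
  induction p using Polynomial.induction_on with
  | C a => exact ⟨0, 0, a, by simp⟩
  | add p r hp hr =>
    obtain ⟨N, p₁, p₀, h⟩ := hp
    obtain ⟨N', r₁, r₀, h'⟩ := hr
    refine ⟨N + N', C s ^ N' * p₁ + C s ^ N * r₁, s ^ N' * p₀ + s ^ N * r₀, ?_⟩
    simp only [C_add, C_mul, C_pow]
    linear_combination C s ^ N' * h + C s ^ N * h'
  | monomial n a hn =>
    obtain ⟨N, p₁, p₀, h⟩ := hn
    refine ⟨N + 1, (C s * X) * p₁ + C p₀, t * p₀, ?_⟩
    simp only [C_mul]
    linear_combination C s * X * h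

theorem local_core {k : Type} [Field k] [IsAlgClosed k] {B : Type} [CommRing B] [IsDomain B]
    [IsNoetherianRing B] [Algebra k B] (P : Ideal B[X]) [P.IsPrime] {F : B[X]} (hF : F.Monic)
    (hFP : F ∈ P) {g : B} (hg : P.comap (C : B →+* B[X]) = Ideal.span {g}) (ev : B →ₐ[k] k)
    (y₀ : k) (hP : ∀ p ∈ P, (p.map ev.toRingHom).eval y₀ = 0)
    (hF' : (F.derivative.map ev.toRingHom).eval y₀ ≠ 0)
    (huniq : ∀ y : k, (∀ p ∈ P, (p.map ev.toRingHom).eval y = 0) → y = y₀) :
    ∃ h : B[X], (h.map ev.toRingHom).eval y₀ ≠ 0 ∧ ∀ p ∈ P, h * p ∈ Ideal.span {F, C g} := by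
  have hsurj : Function.Surjective ev.toRingHom := by
    intro c
    refine ⟨algebraMap k B c, ?_⟩
    change ev (algebraMap k B c) = c
    rw [AlgHom.commutes]
    rfl
  obtain ⟨q, hq, hqe⟩ := U15_step1 P hF hFP ev.toRingHom hsurj y₀ hP hF' huniq
  obtain ⟨s, t, hs, hst⟩ := U15_step2 P hF hFP ev y₀ q hq hqe
  have hLt : ev t = y₀ := by
    have h1 := hP _ hst
    rw [Polynomial.map_sub, Polynomial.map_mul, map_C, map_C, map_X, eval_sub, eval_mul, eval_C,
      eval_C, eval_X] at h1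
    have h2 : ev.toRingHom s = 1 := hs
    rw [h2, one_mul] at h1
    exact (sub_eq_zero.1 h1).symm
  have hdiv : ∀ p ∈ P, ∃ N : ℕ, C s ^ N * p ∈ Ideal.span {C s * X - C t, C g} := by
    intro p hp
    obtain ⟨N, p₁, p₀, h⟩ := U15_div s t p
    refine ⟨N, ?_⟩
    have h1 : C p₀ ∈ P := by
      have : C p₀ = C s ^ N * p - (C s * X - C t) * p₁ := by rw [h]; ring
      rw [this]
      exact Ideal.sub_mem _ (Ideal.mul_mem_left _ _ hp) (Ideal.mul_mem_right _ _ hst)
    have h2 : p₀ ∈ P.comap (C : B →+* B[X]) := h1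
    rw [hg, Ideal.mem_span_singleton] at h2
    obtain ⟨c, rfl⟩ := h2
    rw [h]
    apply Ideal.mem_span_pair.2
    exact ⟨p₁, C c, by rw [C_mul]; ring⟩
  obtain ⟨N, hN⟩ : ∃ N : ℕ, ∀ p ∈ P, C s ^ N * p ∈ Ideal.span {C s * X - C t, C g} := by
    obtain ⟨S, hS⟩ := (isNoetherianRing_iff_ideal_fg B[X]).1 inferInstance P
    have h1 : ∀ p ∈ S, ∃ N : ℕ, C s ^ N * p ∈ Ideal.span {C s * X - C t, C g} := fun p hp =>
      hdiv p (by rw [← hS]; exact Ideal.subset_span hp)
    choose! f hf using h1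
    refine ⟨S.sup f, fun p hp => ?_⟩
    rw [← hS] at hp
    refine Submodule.span_induction (p := fun p _ => C s ^ S.sup f * p ∈
      Ideal.span {C s * X - C t, C g}) ?_ ?_ ?_ ?_ hp
    · intro p hp
      have h2 : f p ≤ S.sup f := Finset.le_sup (f := f) hp
      obtain ⟨j, hj⟩ := Nat.exists_eq_add_of_le h2
      rw [hj, add_comm, pow_add, mul_assoc]
      exact Ideal.mul_mem_left _ _ (hf p hp)
    · rw [mul_zero]
      exact Ideal.zero_mem _
    · intro a b _ _ ha hb
      rw [mul_add]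
      exact Ideal.add_mem _ ha hb
    · intro a b _ hb
      rw [smul_eq_mul, mul_left_comm]
      exact Ideal.mul_mem_left _ _ hb
  obtain ⟨M, F₁, F₀, hM⟩ := U15_div s t F
  have hF₀ : ∃ c, F₀ = g * c := by
    have h1 : C F₀ ∈ P := by
      have : C F₀ = C s ^ M * F - (C s * X - C t) * F₁ := by rw [hM]; ring
      rw [this]
      exact Ideal.sub_mem _ (Ideal.mul_mem_left _ _ hFP) (Ideal.mul_mem_right _ _ hst)
    have h2 : F₀ ∈ P.comap (C : B →+* B[X]) := h1
    rw [hg, Ideal.mem_span_singleton] at h2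
    exact h2
  obtain ⟨c, hc⟩ := hF₀
  refine ⟨F₁ * C s ^ N, ?_, ?_⟩
  · have e1 : ev.toRingHom s = 1 := hs
    have e2 : ev.toRingHom t = y₀ := hLt
    have h1 := congrArg (fun p => (Polynomial.derivative (p.map ev.toRingHom)).eval y₀) hM
    simp only [Polynomial.map_mul, Polynomial.map_pow, map_C, e1, C_1, one_pow, one_mul,
      Polynomial.map_add, Polynomial.map_sub, map_X, e2, derivative_add, derivative_mul,
      derivative_sub, derivative_X, derivative_C, sub_zero, add_zero, eval_add, eval_mul,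
      eval_sub, eval_X, eval_C, sub_self, zero_mul] at h1
    rw [Polynomial.map_mul, Polynomial.map_pow, map_C, e1, C_1, one_pow, mul_one, ← h1,
      derivative_map]
    exact hF'
  · intro p hp
    obtain ⟨a, b, hab⟩ := Ideal.mem_span_pair.1 (hN p hp)
    apply Ideal.mem_span_pair.2
    refine ⟨a * C s ^ M, b * F₁ - a * C c, ?_⟩
    rw [hc, C_mul] at hM
    linear_combination a * hM + F₁ * hab

end Q9
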