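import Pool.Agent.LibQ9.UDefs

/-!
[Q9 U17] (SHORT/MEDIUM, ONLY UDefs) Linear changes of coordinates.

PLAN. Choose a linear automorphism `A` of `Fin (n+1) → k` with `A (Pi.single 0 1) = c` (extend `c ≠ 0` to a basis: `Basis.equiv`, or `Module.Basis` with `basisOfLinearIndependentOfCardEqFinrank`, or an explicit one: choose `j` with `c j ≠ 0`). `ψ = aeval (fun i => Σ_l A_{i l} X_l)` with
`A_{i l} = A (Pi.single l 1) i`; inverse the same for `A.symm`. `eval x (ψ p) = eval (A x) p` (`eval₂`/`aeval` composition, `A x = Σ x_l A (single l 1)`). Homogeneity: `MvPolynomial.IsHomogeneous.aeval` (linear forms). `chain_zero`: chain rule: the derivative in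
direction `e₀` of `ψ p` at `x` is the derivative of `p` in the direction `A e₀ = c` at `A x` (`MvPolynomial.induction_on`, or `Derivation` uniqueness: both sides are derivations in `p`).
-/

set_option autoImplicit false

namespace Q9

open MvPolynomial

private noncomputable def U17_lin {k : Type} [Field k] {n : ℕ}
    (A : (Fin (n + 1) → k) →ₗ[k] (Fin (n + 1) → k)) : PR k n →ₐ[k] PR k n :=
  aeval fun i => ∑ l, C (A (Pi.single l 1) i) * X l

private theorem U17_sum {k : Type} [Field k] {n : ℕ}
    (A : (Fin (n + 1) → k) →ₗ[k] (Fin (n + 1) → k)) (x : Fin (n + 1) → k) (i : Fin (n + 1)) :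
    A x i = ∑ l, A (Pi.single l 1) i * x l := by
  have h : x = ∑ l, x l • (Pi.single l 1 : Fin (n + 1) → k) := by
    funext m
    rw [Finset.sum_apply]
    simp [Pi.single_apply]
  conv_lhs => rw [h]
  rw [map_sum, Finset.sum_apply]
  refine Finset.sum_congr rfl fun l _ => ?_
  rw [map_smul, Pi.smul_apply, smul_eq_mul, mul_comm]

private theorem U17_comp {k : Type} [Field k] {n : ℕ}
    (A B : (Fin (n + 1) → k) →ₗ[k] (Fin (n + 1) → k)) (h : ∀ x, B (A x) = x) :
    (U17_lin A).comp (U17_lin B) = AlgHom.id k (PR k n) := by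
  refine MvPolynomial.algHom_ext fun i => ?_
  rw [AlgHom.comp_apply, AlgHom.id_apply]
  unfold U17_lin
  rw [aeval_X, map_sum]
  have h1 : ∀ l : Fin (n + 1), (aeval fun i => ∑ l, C (A (Pi.single l 1) i) * X l)
      (C (B (Pi.single l 1) i) * X l : PR k n) =
      ∑ m, C (B (Pi.single l 1) i * A (Pi.single m 1) l) * X m := by
    intro l
    rw [map_mul, aeval_X, ← MvPolynomial.algebraMap_eq, AlgHom.commutes, MvPolynomial.algebraMap_eq,
      Finset.mul_sum]
    refine Finset.sum_congr rfl fun m _ => ?_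
    rw [C_mul]
    ring
  rw [Finset.sum_congr rfl fun l _ => h1 l, Finset.sum_comm]
  have h2 : ∀ m : Fin (n + 1), ∑ l, (C (B (Pi.single l 1) i * A (Pi.single m 1) l) * X m : PR k n) =
      C ((Pi.single m 1 : Fin (n + 1) → k) i) * X m := by
    intro m
    rw [← Finset.sum_mul, ← map_sum]
    congr 2
    rw [← U17_sum B (A (Pi.single m 1)) i, h]
  rw [Finset.sum_congr rfl fun m _ => h2 m, Finset.sum_eq_single i]
  · rw [Pi.single_eq_same, C_1, one_mul]
  · intro m _ hm
    rw [Pi.single_eq_of_ne (Ne.symm hm), C_0, zero_mul]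
  · intro h
    exact absurd (Finset.mem_univ i) h

private theorem U17_eval {k : Type} [Field k] {n : ℕ}
    (A : (Fin (n + 1) → k) →ₗ[k] (Fin (n + 1) → k)) (p : PR k n) (x : Fin (n + 1) → k) :
    eval x (U17_lin A p) = eval (A x) p := by
  have h : (aeval x : PR k n →ₐ[k] k).comp (U17_lin A) = aeval (A x) := by
    refine MvPolynomial.algHom_ext fun i => ?_
    rw [AlgHom.comp_apply, aeval_X]
    unfold U17_lin
    rw [aeval_X, map_sum, U17_sum A x i]
    refine Finset.sum_congr rfl fun l _ => ?_
    rw [map_mul, aeval_X, ← MvPolynomial.algebraMap_eq, AlgHom.commutes]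
    rfl
  have h2 := DFunLike.congr_fun h p
  rw [AlgHom.comp_apply, MvPolynomial.aeval_eq_eval, MvPolynomial.aeval_eq_eval] at h2
  exact h2

private theorem U17_hom {k : Type} [Field k] {n : ℕ}
    (A : (Fin (n + 1) → k) →ₗ[k] (Fin (n + 1) → k)) (p : PR k n) (N : ℕ)
    (hp : p.IsHomogeneous N) : (U17_lin A p).IsHomogeneous N := by
  have h := hp.aeval (S := k) (n := 1) (fun i => ∑ l, C (A (Pi.single l 1) i) * X l) (by
    intro i
    refine IsHomogeneous.sum _ _ _ fun l _ => ?_
    have := (isHomogeneous_C (Fin (n + 1)) (A (Pi.single l 1) i)).mul (isHomogeneous_X k l)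
    rwa [zero_add] at this)
  rwa [one_mul] at h

private theorem U17_chain {k : Type} [Field k] {n : ℕ}
    (A : (Fin (n + 1) → k) →ₗ[k] (Fin (n + 1) → k)) (p : PR k n) (x : Fin (n + 1) → k) :
    eval x (pderiv 0 (U17_lin A p)) = ∑ i, A (Pi.single 0 1) i * eval (A x) (pderiv i p) := by
  induction p using MvPolynomial.induction_on with
  | C a =>
    have : U17_lin A (C a) = C a := by
      rw [← MvPolynomial.algebraMap_eq, AlgHom.commutes]
    rw [this, pderiv_C, map_zero]
    refine (Finset.sum_eq_zero fun i _ => ?_).symm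
    rw [pderiv_C, map_zero, mul_zero]
  | add p q hp hq =>
    rw [map_add, map_add, map_add, hp, hq, ← Finset.sum_add_distrib]
    refine Finset.sum_congr rfl fun i _ => ?_
    rw [map_add, map_add, mul_add]
  | mul_X p i hp =>
    have h1 : pderiv 0 (U17_lin A (X i)) = (C (A (Pi.single 0 1) i) : PR k n) := by
      unfold U17_lin
      rw [aeval_X, map_sum, Finset.sum_eq_single 0]
      · rw [pderiv_C_mul, pderiv_X_self, mul_one]
      · intro l _ hl
        rw [pderiv_C_mul, pderiv_X_of_ne hl, mul_zero]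
      · intro h
        exact absurd (Finset.mem_univ _) h
    rw [map_mul, Derivation.leibniz, smul_eq_mul, smul_eq_mul, map_add, map_mul, map_mul, h1,
      eval_C, hp, U17_eval, U17_eval, eval_X]
    have h2 : ∀ j : Fin (n + 1), A (Pi.single 0 1) j * eval (A x) (pderiv j (p * X i)) =
        A (Pi.single 0 1) j * eval (A x) (pderiv j p) * A x i +
        (if j = i then A (Pi.single 0 1) j * eval (A x) p else 0) := by
      intro j
      rw [Derivation.leibniz, smul_eq_mul, smul_eq_mul, map_add, map_mul, map_mul, eval_X]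
      by_cases hj : j = i
      · subst hj
        rw [pderiv_X_self, map_one, if_pos rfl]
        ring
      · rw [pderiv_X_of_ne (Ne.symm hj), map_zero, if_neg hj]
        ring
    rw [Finset.sum_congr rfl fun j _ => h2 j, Finset.sum_add_distrib, ← Finset.sum_mul,
      Finset.sum_ite_eq' Finset.univ i, if_pos (Finset.mem_univ i)]
    ring

private theorem U17_ss {α : Type} [DecidableEq α] (a b m : α) :
    Equiv.swap a b (Equiv.swap a b m) = m := by
  have h := Equiv.swap_mul_self a b
  have h2 := DFunLike.congr_fun h m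
  exact h2

private theorem U17_auto {k : Type} [Field k] {n : ℕ} (c : Fin (n + 1) → k) (hc : c ≠ 0) :
    ∃ A : (Fin (n + 1) → k) ≃ₗ[k] (Fin (n + 1) → k), A (Pi.single 0 1) = c := by
  obtain ⟨j, hj⟩ := Function.ne_iff.1 hc
  have hj' : c j ≠ 0 := hj
  let σ : Equiv.Perm (Fin (n + 1)) := Equiv.swap 0 j
  have hσ : ∀ i, i ≠ j → σ i ≠ 0 := by
    intro i hi h
    have h2 : σ i = σ j := by
      rw [h]
      exact (Equiv.swap_apply_right 0 j).symm
    exact hi (σ.injective h2)
  let L : (Fin (n + 1) → k) →ₗ[k] (Fin (n + 1) → k) :=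
    { toFun := fun x i => c i * x 0 + (if i = j then 0 else x (σ i))
      map_add' := by
        intro x y
        funext i
        simp only [Pi.add_apply]
        split_ifs <;> ring
      map_smul' := by
        intro a x
        funext i
        simp only [Pi.smul_apply, smul_eq_mul, RingHom.id_apply]
        split_ifs <;> ring }
  have hL : ∀ x i, L x i = c i * x 0 + (if i = j then 0 else x (σ i)) := fun _ _ => rfl
  have hinj : Function.Injective L := by
    rw [injective_iff_map_eq_zero]
    intro x hx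
    have h0 : x 0 = 0 := by
      have h := congrFun hx j
      rw [hL, if_pos rfl, add_zero, Pi.zero_apply] at h
      exact (mul_eq_zero.1 h).resolve_left hj'
    funext m
    by_cases hm : m = 0
    · rw [hm, h0]
      rfl
    · have h := congrFun hx (σ m)
      have h3 : σ m ≠ j := by
        intro h4
        have h5 : σ m = σ 0 := by
          rw [h4]
          exact (Equiv.swap_apply_left 0 j).symm
        exact hm (σ.injective h5)
      rw [hL, if_neg h3, h0, mul_zero, zero_add, Pi.zero_apply,
        show σ (σ m) = m from U17_ss 0 j m] at h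
      exact h
  refine ⟨LinearEquiv.ofInjectiveEndo L hinj, ?_⟩
  funext i
  show L (Pi.single 0 1) i = c i
  rw [hL, Pi.single_eq_same, mul_one]
  by_cases hi : i = j
  · rw [if_pos hi, add_zero]
  · rw [if_neg hi, Pi.single_eq_of_ne (hσ i hi), add_zero]

theorem lin_change {k : Type} [Field k] {n : ℕ} (c : Fin (n + 1) → k) (hc : c ≠ 0) :
    ∃ (A : (Fin (n + 1) → k) ≃ₗ[k] (Fin (n + 1) → k)) (ψ : PR k n ≃ₐ[k] PR k n),
      A (Pi.single 0 1) = c ∧ (∀ (p : PR k n) (x : Fin (n + 1) → k), eval x (ψ p) = eval (A x) p) ∧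
      (∀ (p : PR k n) (x : Fin (n + 1) → k), eval x (ψ.symm p) = eval (A.symm x) p) ∧
      (∀ (p : PR k n) (N : ℕ), p.IsHomogeneous N → (ψ p).IsHomogeneous N) ∧
      (∀ (p : PR k n) (N : ℕ), p.IsHomogeneous N → (ψ.symm p).IsHomogeneous N) ∧
      ∀ (p : PR k n) (x : Fin (n + 1) → k),
        eval x (pderiv 0 (ψ p)) = ∑ i, c i * eval (A x) (pderiv i p) := by
  obtain ⟨A, hA⟩ := U17_auto c hc
  refine ⟨A, AlgEquiv.ofAlgHom (U17_lin (A : (Fin (n + 1) → k) →ₗ[k] (Fin (n + 1) → k)))
    (U17_lin (A.symm : (Fin (n + 1) → k) →ₗ[k] (Fin (n + 1) → k)))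
    (U17_comp _ _ fun x => A.symm_apply_apply x) (U17_comp _ _ fun x => A.apply_symm_apply x),
    hA, ?_, ?_, ?_, ?_, ?_⟩
  · intro p x
    exact U17_eval _ p x
  · intro p x
    exact U17_eval _ p x
  · intro p N hp
    exact U17_hom _ p N hp
  · intro p N hp
    exact U17_hom _ p N hp
  · intro p x
    have h := U17_chain (A : (Fin (n + 1) → k) →ₗ[k] (Fin (n + 1) → k)) p x
    rw [← hA]
    exact h

end Q9
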