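import Pool.Agent.LibQ9.U14
import Pool.Agent.LibQ9.U17

/-!
[Q9 U18] (MEDIUM; may cite U14, U17 as stated) A good direction of projection.

PLAN. `lin_change` with `c = x`: `A e₀ = x`. Transport `ψ F`, `ψ f` to `(MvPolynomial (Fin n) k)[X]` by `MvPolynomial.finSuccEquiv` (`X 0 ↦ X`): prime, not dividing. `elim`: `Ψ₀ ≠ 0` in `MvPolynomial (Fin n) k` with `C Ψ₀ ∈ span {..}`. Its image `Ψ₁ = rename Fin.succ Ψ₀` in `PR k n` does not
depend on `X 0`: `eval (z + μ e₀) Ψ₁ = eval z Ψ₁`. `Ψ = ψ.symm Ψ₁ ∈ span {F, f} ≤ P`, `Ψ ≠ 0`, `eval (z + μ • x) Ψ = eval z Ψ`. The polynomial `F * Ψ * (Σ_i C (eval x (pderiv i F)) * X i)` is not `0` (`hs`), so (`k` infinite, `MvPolynomial.funext`) there is `c` where it does not vanish.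
If `λ ≠ 0` and all `p ∈ P` vanish at `x + λ • c`, then all `p ∈ P` vanish at `λ⁻¹ • (x + λ • c) = c + λ⁻¹ • x` (`P` homogeneous: `hcone`), in particular `Ψ`: `eval c Ψ = 0`, contradiction. (`hcone` from homogeneity: `p = Σ` homogeneous components, all in `P`.)
-/

set_option autoImplicit false

namespace Q9

open MvPolynomial

variable {k : Type} [Field k] [IsAlgClosed k] {n : ℕ}

private theorem U18_eval_smul {φ : PR k n} {N : ℕ} (h : φ.IsHomogeneous N) (c : k)
    (x : Fin (n + 1) → k) : eval (c • x) φ = c ^ N * eval x φ := by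
  rw [eval_eq', eval_eq', Finset.mul_sum]
  refine Finset.sum_congr rfl fun d hd => ?_
  have h1 : ∑ i, d i = N := by
    have h2 := h (mem_support_iff.mp hd)
    rw [← h2, Finsupp.weight_apply, Finsupp.sum_fintype _ _ (by simp)]
    simp
  have h3 : ∏ i, (c • x) i ^ d i = c ^ N * ∏ i, x i ^ d i := by
    rw [← h1, ← Finset.prod_pow_eq_pow_sum, ← Finset.prod_mul_distrib]
    refine Finset.prod_congr rfl fun i _ => ?_
    rw [Pi.smul_apply, smul_eq_mul, mul_pow]
  rw [h3]
  ring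

/-- the zero set of a homogeneous ideal is a cone -/
theorem cone_zero {P : Ideal (PR k n)} (hP : ∀ r ∈ P, ∀ i, homogeneousComponent i r ∈ P)
    {x : Fin (n + 1) → k} (hx : ∀ p ∈ P, eval x p = 0) (c : k) (hc : c ≠ 0) :
    ∀ p ∈ P, eval (c • x) p = 0 := by
  intro p hp
  rw [← sum_homogeneousComponent p, map_sum]
  refine Finset.sum_eq_zero fun i _ => ?_
  rw [U18_eval_smul (homogeneousComponent_isHomogeneous i p), hx _ (hP p hp i), mul_zero]

private theorem U18_fse (q : MvPolynomial (Fin n) k) :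
    finSuccEquiv k n (rename Fin.succ q) = Polynomial.C q := by
  induction q using MvPolynomial.induction_on with
  | C a =>
    rw [rename_C]
    have h := congrArg (fun f : k →+* _ => f a) (finSuccEquiv_comp_C_eq_C (R := k) n)
    simp only [RingHom.comp_apply] at h
    have h' : (MvPolynomial.finSuccEquiv k n).symm (Polynomial.C (C a)) = C a := h
    rw [← h', AlgEquiv.apply_symm_apply]
  | add p q hp hq => rw [map_add, map_add, map_add, hp, hq]
  | mul_X p i hp => rw [map_mul, map_mul, map_mul, hp, rename_X, finSuccEquiv_X_succ]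

theorem exists_dir {P : Ideal (PR k n)} (hP : ∀ r ∈ P, ∀ i, homogeneousComponent i r ∈ P)
    {F f : PR k n} (hp : Prime F) (hFP : F ∈ P) (hfP : f ∈ P) (hFf : ¬ F ∣ f)
    (x : Fin (n + 1) → k) (hx0 : x ≠ 0) (hs : ∃ i, eval x (pderiv i F) ≠ 0) :
    ∃ c : Fin (n + 1) → k, c ≠ 0 ∧ eval c F ≠ 0 ∧ (∑ i, c i * eval x (pderiv i F)) ≠ 0 ∧
      ∀ t : k, t ≠ 0 → ∃ p ∈ P, eval (x + t • c) p ≠ 0 := by
  obtain ⟨A, ψ, hA, hψ, hψs, -, -, -⟩ := lin_change (k := k) x hx0
  have hF' : Prime (finSuccEquiv k n (ψ F)) :=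
    (MulEquiv.prime_iff (finSuccEquiv k n)).mpr ((MulEquiv.prime_iff ψ).mpr hp)
  have hf' : ¬ finSuccEquiv k n (ψ F) ∣ finSuccEquiv k n (ψ f) := by
    rw [map_dvd_iff (finSuccEquiv k n), map_dvd_iff ψ]
    exact hFf
  obtain ⟨Ψ0, hΨ0, hmem⟩ := elim hF' hf'
  rw [Ideal.mem_span_pair] at hmem
  obtain ⟨a, b, hab⟩ := hmem
  have h1 : (finSuccEquiv k n).symm a * ψ F + (finSuccEquiv k n).symm b * ψ f =
      rename Fin.succ Ψ0 := by
    apply (finSuccEquiv k n).injective
    rw [map_add, map_mul, map_mul, AlgEquiv.apply_symm_apply, AlgEquiv.apply_symm_apply, hab,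
      U18_fse]
  have hΨ1 : rename Fin.succ Ψ0 ≠ (0 : PR k n) := by
    intro h
    exact hΨ0 ((rename_injective _ (Fin.succ_injective n)) (by rw [h, map_zero]))
  set Ψ : PR k n := ψ.symm (rename Fin.succ Ψ0) with hΨdef
  have hΨ : Ψ ≠ 0 := by
    intro h
    apply hΨ1
    have h2 := congrArg ψ h
    rwa [hΨdef, AlgEquiv.apply_symm_apply, map_zero] at h2
  have hΨP : Ψ ∈ P := by
    have h2 : Ψ = ψ.symm ((finSuccEquiv k n).symm a) * F + ψ.symm ((finSuccEquiv k n).symm b) * f := by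
      rw [hΨdef, ← h1, map_add, map_mul, map_mul, AlgEquiv.symm_apply_apply,
        AlgEquiv.symm_apply_apply]
    rw [h2]
    exact P.add_mem (P.mul_mem_left _ hFP) (P.mul_mem_left _ hfP)
  have hinv : ∀ (z : Fin (n + 1) → k) (μ : k), eval (z + μ • x) Ψ = eval z Ψ := by
    intro z μ
    rw [hΨdef, hψs, hψs, eval_rename, eval_rename]
    congr 1
    congr 1
    funext i
    have h2 : A.symm x = Pi.single 0 1 := by
      rw [← hA, LinearEquiv.symm_apply_apply]
    simp only [Function.comp_apply, map_add, map_smul, h2, Pi.add_apply, Pi.smul_apply,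
      smul_eq_mul]
    rw [Pi.single_eq_of_ne (Fin.succ_ne_zero i)]
    ring
  obtain ⟨i0, hi0⟩ := hs
  have hL : (∑ i, C (eval x (pderiv i F)) * X i : PR k n) ≠ 0 := by
    intro h
    have h2 := congrArg (eval (Pi.single i0 (1 : k))) h
    rw [map_zero, map_sum, Finset.sum_eq_single i0] at h2
    · simp only [map_mul, eval_C, eval_X, Pi.single_eq_same, mul_one] at h2
      exact hi0 h2
    · intro j _ hj
      rw [map_mul, eval_X, Pi.single_eq_of_ne hj, mul_zero]
    · intro h3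
      exact absurd (Finset.mem_univ _) h3
  have hG : F * Ψ * (∑ i, C (eval x (pderiv i F)) * X i : PR k n) ≠ 0 :=
    mul_ne_zero (mul_ne_zero hp.ne_zero hΨ) hL
  have hex : ∃ c : Fin (n + 1) → k,
      eval c (F * Ψ * (∑ i, C (eval x (pderiv i F)) * X i : PR k n)) ≠ 0 := by
    by_contra hcon
    push Not at hcon
    apply hG
    haveI : Infinite k := IsAlgClosed.instInfinite
    apply MvPolynomial.funext
    intro c
    rw [hcon c, map_zero]
  obtain ⟨c, hc⟩ := hex
  rw [map_mul, map_mul] at hc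
  have hcF : eval c F ≠ 0 := fun h => hc (by rw [h]; ring)
  have hcΨ : eval c Ψ ≠ 0 := fun h => hc (by rw [h]; ring)
  have hcL : (∑ i, c i * eval x (pderiv i F)) ≠ 0 := by
    intro h
    apply hc
    have h3 : eval c (∑ i, C (eval x (pderiv i F)) * X i : PR k n) = 0 := by
      rw [map_sum, ← h]
      refine Finset.sum_congr rfl fun i _ => ?_
      rw [map_mul, eval_C, eval_X]
      ring
    rw [h3, mul_zero]
  refine ⟨c, ?_, hcF, hcL, ?_⟩
  · rintro rfl
    apply hcL
    simp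
  · intro t ht
    by_contra hcon
    push Not at hcon
    have h4 := cone_zero hP hcon t⁻¹ (inv_ne_zero ht) Ψ hΨP
    have h5 : t⁻¹ • (x + t • c) = c + t⁻¹ • x := by
      rw [smul_add, smul_smul, inv_mul_cancel₀ ht, one_smul]
      exact add_comm _ _
    rw [h5, hinv] at h4
    exact hcΨ h4

end Q9
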