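import Pool.Agent.LibQ9.UDefs

/-!
[Q9 U1b] (MEDIUM, ONLY UDefs; you may also cite U1a by importing it) Homogeneous rational functions; homogeneous splittings.

PLAN. `hg_mul`, `hg_em`, `hg_inv`, `hg_pow`: from the definition (`v⁻¹ = f / r`; for `v = 0` use `zero_mem`). `hg_em_iff`: `em f * em r = em q` with `f ≠ 0`, `q` homogeneous: `f r = q`; a factor of a nonzero
homogeneous polynomial is homogeneous (`factor_hom`: compare the lowest and highest homogeneous components, `MvPolynomial` over a field is a domain; e.g. via `MvPolynomial.totalDegree_mul_of_isDomain`, `MvPolynomial.homogeneousComponent`,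
or the weighted version of `order`/`lowest degree`; another proof: for `f` homogeneous `f r = q` take the homogeneous component `b` of both sides: `f * (component of r) = q`, cancel `f`). For `factor_hom` (both factors unknown)
use the substitution `X i ↦ X i * T` into `(MvPolynomial _ k)[T]`: the image of a polynomial `p` is `Σ p_i T^i`, homogeneous iff a monomial in `T`; a product of two polynomials over a domain is a monomial only if both are.
`hg_split`: from the definition `f^s v = em (i + w r)`; `f^s v` is `em` of a homogeneous element (`hg_em_iff`) or `0`; take the homogeneous component of degree `D = d + s φ`: `i` and `w r` are replaced by their components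
(`I` homogeneous; the component of `w r` is `w` times the component of `r` of degree `D - ω`, or `0`), divide by `f^s`.
-/

set_option autoImplicit false

namespace Q9

open MvPolynomial

variable {k : Type} [Field k] {n : ℕ}

private noncomputable def U1b_phi : PR k n →ₐ[k] Polynomial (PR k n) :=
  aeval fun i => Polynomial.C (X i) * Polynomial.X

private theorem U1b_mono (d : Fin (n + 1) →₀ ℕ) (c : k) :
    U1b_phi (monomial d c : PR k n) = Polynomial.C (monomial d c) * Polynomial.X ^ d.degree := by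
  unfold U1b_phi
  rw [aeval_monomial, monomial_eq, map_mul, Finsupp.prod, Finsupp.prod, map_prod]
  have h1 : ∀ i ∈ d.support, (Polynomial.C (X i : PR k n) * Polynomial.X) ^ (d i) =
      Polynomial.C ((X i : PR k n) ^ (d i)) * Polynomial.X ^ (d i) := by
    intro i _
    rw [mul_pow, map_pow]
  rw [Finset.prod_congr rfl h1, Finset.prod_mul_distrib, Finset.prod_pow_eq_pow_sum, mul_assoc]
  congr 1

private theorem U1b_coeff (p : PR k n) (i : ℕ) :
    (U1b_phi p).coeff i = homogeneousComponent i p := by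
  induction p using MvPolynomial.induction_on' with
  | monomial d c =>
    rw [U1b_mono, Polynomial.coeff_C_mul, Polynomial.coeff_X_pow,
      homogeneousComponent_of_mem (isHomogeneous_monomial c rfl)]
    split_ifs <;> simp
  | add p q hp hq => rw [map_add, Polynomial.coeff_add, hp, hq, map_add]

private theorem U1b_ne {p : PR k n} (hp : p ≠ 0) : U1b_phi p ≠ 0 := by
  intro h
  apply hp
  rw [← sum_homogeneousComponent p]
  refine Finset.sum_eq_zero fun i _ => ?_
  rw [← U1b_coeff, h, Polynomial.coeff_zero]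

private theorem U1b_hom {p : PR k n} {a : ℕ} (h : ∀ i, i ≠ a → (U1b_phi p).coeff i = 0) :
    p.IsHomogeneous a := by
  have h1 : p = homogeneousComponent a p := by
    conv_lhs => rw [← sum_homogeneousComponent p]
    have h2 : ∀ i, homogeneousComponent i p = if i = a then homogeneousComponent a p else 0 := by
      intro i
      split_ifs with h3
      · rw [h3]
      · rw [← U1b_coeff, h i h3]
    rw [Finset.sum_congr rfl fun i _ => h2 i, Finset.sum_ite_eq']
    split_ifs with h4
    · rfl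
    · symm
      apply homogeneousComponent_eq_zero
      simpa using h4
  rw [h1]
  exact homogeneousComponent_isHomogeneous a p

/-- factors of homogeneous polynomials are homogeneous -/
theorem factor_hom {f g : PR k n} {N : ℕ} (h : (f * g).IsHomogeneous N) (hf : f ≠ 0) (hg : g ≠ 0) :
    ∃ a b : ℕ, f.IsHomogeneous a ∧ g.IsHomogeneous b ∧ a + b = N := by
  have hf' := U1b_ne hf
  have hg' := U1b_ne hg
  have hfg : f * g ≠ 0 := mul_ne_zero hf hg
  have hfg' := U1b_ne hfg
  have hN : ∀ i, (U1b_phi (f * g)).coeff i ≠ 0 → i = N := by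
    intro i hi
    rw [U1b_coeff, homogeneousComponent_of_mem h] at hi
    by_contra hc
    rw [if_neg hc] at hi
    exact hi rfl
  have h1 : (U1b_phi (f * g)).natDegree = N := by
    apply hN
    rw [Polynomial.coeff_natDegree]
    exact Polynomial.leadingCoeff_ne_zero.2 hfg'
  have h2 : (U1b_phi (f * g)).natTrailingDegree = N := by
    apply hN
    exact Polynomial.trailingCoeff_nonzero_iff_nonzero.2 hfg'
  rw [map_mul, Polynomial.natDegree_mul hf' hg'] at h1
  rw [map_mul, Polynomial.natTrailingDegree_mul hf' hg'] at h2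
  have h3 := Polynomial.natTrailingDegree_le_natDegree (U1b_phi f)
  have h4 := Polynomial.natTrailingDegree_le_natDegree (U1b_phi g)
  refine ⟨(U1b_phi f).natDegree, (U1b_phi g).natDegree, U1b_hom fun i hi => ?_,
    U1b_hom fun i hi => ?_, h1⟩
  · rcases lt_or_gt_of_ne hi with h5 | h5
    · exact Polynomial.coeff_eq_zero_of_lt_natTrailingDegree (by omega)
    · exact Polynomial.coeff_eq_zero_of_natDegree_lt h5
  · rcases lt_or_gt_of_ne hi with h5 | h5
    · exact Polynomial.coeff_eq_zero_of_lt_natTrailingDegree (by omega)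
    · exact Polynomial.coeff_eq_zero_of_natDegree_lt h5

theorem hg_em {r : PR k n} {a : ℕ} (hr : r.IsHomogeneous a) : em r ∈ Hg (a : ℤ) := by
  refine ⟨1, r, 0, a, one_ne_zero, isHomogeneous_one _ _, hr, by simp, ?_⟩
  rw [map_one, one_mul]

theorem hg_em_iff {r : PR k n} {d : ℤ} (h : em r ∈ Hg d) :
    r = 0 ∨ ∃ a : ℕ, (a : ℤ) = d ∧ r.IsHomogeneous a := by
  obtain ⟨f, q, a, b, hf, hfa, hqb, hab, hv⟩ := h
  by_cases hr : r = 0
  · exact Or.inl hr
  right
  rw [← map_mul] at hv
  have h1 : f * r = q := em_inj hv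
  rw [← h1] at hqb
  obtain ⟨a', c, ha', hc, hac⟩ := factor_hom hqb hf hr
  have h2 : a' = a := ha'.inj_right hfa hf
  exact ⟨c, by omega, hc⟩

theorem hg_mul {v w : KR k n} {d e : ℤ} (hv : v ∈ Hg d) (hw : w ∈ Hg e) : v * w ∈ Hg (d + e) := by
  obtain ⟨f, r, a, b, hf, hfa, hrb, hab, hv⟩ := hv
  obtain ⟨g, q, a', b', hg, hga, hqb, hab', hw⟩ := hw
  refine ⟨f * g, r * q, a + a', b + b', mul_ne_zero hf hg, hfa.mul hga, hrb.mul hqb, ?_, ?_⟩
  · push_cast
    omega
  · rw [map_mul, map_mul, ← hv, ← hw]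
    ring

theorem hg_inv {v : KR k n} {d : ℤ} (hv : v ∈ Hg d) : v⁻¹ ∈ Hg (-d) := by
  by_cases h0 : v = 0
  · rw [h0, inv_zero]
    exact zero_mem _
  obtain ⟨f, r, a, b, hf, hfa, hrb, hab, hv⟩ := hv
  refine ⟨r, f, b, a, ?_, hrb, hfa, by omega, ?_⟩
  · rintro rfl
    rw [map_zero] at hv
    exact (mul_ne_zero (em_ne hf) h0) hv
  · rw [← hv, mul_assoc, mul_inv_cancel₀ h0, mul_one]

theorem hg_one : (1 : KR k n) ∈ Hg (0 : ℤ) := by
  have h1 := hg_em (k := k) (n := n) (isHomogeneous_one (Fin (n + 1)) k)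
  rwa [map_one] at h1

theorem hg_pow {v : KR k n} {d : ℤ} (hv : v ∈ Hg d) (s : ℕ) : v ^ s ∈ Hg (s * d) := by
  induction s with
  | zero =>
    rw [pow_zero]
    simpa using hg_one (k := k) (n := n)
  | succ s ih =>
    have h1 := hg_mul ih hv
    rw [pow_succ]
    have h2 : ((s + 1 : ℕ) : ℤ) * d = s * d + d := by
      push_cast
      ring
    rwa [h2]

/-- the degree of a nonzero homogeneous rational function is unique -/
theorem hg_unique {v : KR k n} {d e : ℤ} (hv : v ∈ Hg d) (hw : v ∈ Hg e) (h0 : v ≠ 0) : d = e := by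
  obtain ⟨f, r, a, b, hf, hfa, hrb, hab, hv⟩ := hv
  obtain ⟨g, q, a', b', hg, hga, hqb, hab', hw⟩ := hw
  have hq : q ≠ 0 := by
    rintro rfl
    rw [map_zero] at hw
    exact (mul_ne_zero (em_ne hg) h0) hw
  have h1 : f * q = g * r := by
    apply em_inj
    rw [map_mul, map_mul, ← hv, ← hw]
    ring
  have h2 : (f * q).IsHomogeneous (a + b') := hfa.mul hqb
  have h3 : (f * q).IsHomogeneous (a' + b) := by
    rw [h1]
    exact hga.mul hrb
  have h4 := h2.inj_right h3 (mul_ne_zero hf hq)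
  omega

/-- homogeneous form of `v ∈ LoI I f` for a homogeneous ideal -/
theorem hg_loI {I : Ideal (PR k n)} {f : PR k n} {φ : ℕ} (hf : f.IsHomogeneous φ)
    {v : KR k n} {d : ℤ} (hd : v ∈ Hg d) (hv : v ∈ LoI I f) :
    ∃ (s : ℕ), ∃ r ∈ I, em (f ^ s) * v = em r ∧ em r ∈ Hg (d + s * φ) := by
  obtain ⟨s, r, hr, hv⟩ := hv
  refine ⟨s, r, hr, hv, ?_⟩
  rw [← hv]
  have h1 := hg_mul (hg_em (hf.pow s)) hd
  have h2 : d + s * φ = ((φ * s : ℕ) : ℤ) + d := by
    push_cast
    ring
  rwa [h2]

private theorem U1b_mulc {w r : PR k n} {ω : ℕ} (hw : w.IsHomogeneous ω) (a : ℕ) :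
    ∃ r' : PR k n, homogeneousComponent a (w * r) = w * r' ∧ em r' ∈ Hg ((a : ℤ) - ω) := by
  have h1 : ∀ i, homogeneousComponent a (w * homogeneousComponent i r) =
      if ω + i = a then w * homogeneousComponent i r else 0 := by
    intro i
    have h2 : (w * homogeneousComponent i r).IsHomogeneous (ω + i) :=
      hw.mul (homogeneousComponent_isHomogeneous i r)
    rw [homogeneousComponent_of_mem h2]
    simp only [eq_comm]
  by_cases h : ω ≤ a
  · refine ⟨homogeneousComponent (a - ω) r, ?_, ?_⟩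
    · conv_lhs => rw [← sum_homogeneousComponent r]
      rw [Finset.mul_sum, map_sum]
      have h2 : ∀ i, homogeneousComponent a (w * homogeneousComponent i r) =
          if i = a - ω then w * homogeneousComponent (a - ω) r else 0 := by
        intro i
        rw [h1]
        by_cases h3 : i = a - ω
        · rw [if_pos (by omega), if_pos h3, h3]
        · rw [if_neg (by omega), if_neg h3]
      rw [Finset.sum_congr rfl fun i _ => h2 i, Finset.sum_ite_eq']
      split_ifs with h4
      · rfl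
      · rw [Finset.mem_range] at h4
        rw [homogeneousComponent_eq_zero _ _ (by omega), mul_zero]
    · have h5 := hg_em (homogeneousComponent_isHomogeneous (a - ω) r)
      have h6 : ((a - ω : ℕ) : ℤ) = (a : ℤ) - ω := by omega
      rwa [h6] at h5
  · refine ⟨0, ?_, ?_⟩
    · conv_lhs => rw [← sum_homogeneousComponent r]
      rw [Finset.mul_sum, map_sum, mul_zero]
      refine Finset.sum_eq_zero fun i _ => ?_
      rw [h1, if_neg (by omega)]
    · rw [map_zero]
      exact zero_mem _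

private theorem U1b_split {I : Ideal (PR k n)} (hI : ∀ r ∈ I, ∀ i, homogeneousComponent i r ∈ I)
    {w : PR k n} {ω : ℕ} (hw : w.IsHomogeneous ω) {r : PR k n} {d : ℤ} (hd : em r ∈ Hg d)
    (hr : r ∈ I ⊔ Ideal.span {w}) :
    ∃ i ∈ I, ∃ r' : PR k n, em i ∈ Hg d ∧ em r' ∈ Hg (d - ω) ∧ r = i + w * r' := by
  rcases hg_em_iff hd with h0 | ⟨a, ha, hra⟩
  · refine ⟨0, I.zero_mem, 0, ?_, ?_, by rw [h0]; simp⟩
    · rw [map_zero]
      exact zero_mem _
    · rw [map_zero]
      exact zero_mem _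
  · obtain ⟨i, hi, q, hq, hiq⟩ := Submodule.mem_sup.1 hr
    obtain ⟨c, rfl⟩ := Ideal.mem_span_singleton.1 hq
    obtain ⟨r', hr', hr'd⟩ := U1b_mulc (r := c) hw a
    refine ⟨homogeneousComponent a i, hI i hi a, r', ?_, ?_, ?_⟩
    · rw [← ha]
      exact hg_em (homogeneousComponent_isHomogeneous a i)
    · rw [← ha]
      exact hr'd
    · rw [← hr', ← map_add, hiq, homogeneousComponent_eq_self hra]

theorem hg_split {I : Ideal (PR k n)} (hI : ∀ r ∈ I, ∀ i, homogeneousComponent i r ∈ I)
    {f w : PR k n} {φ ω : ℕ} (hf0 : f ≠ 0) (hf : f.IsHomogeneous φ) (hw : w.IsHomogeneous ω)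
    {v : KR k n} {d : ℤ} (hd : v ∈ Hg d) (hv : v ∈ LoI (I ⊔ Ideal.span {w}) f) :
    ∃ v₁ ∈ LoI I f, ∃ v₂ ∈ Lo f, v₁ ∈ Hg d ∧ v₂ ∈ Hg (d - ω) ∧ v = v₁ + em w * v₂ := by
  obtain ⟨s, r, hr, hv, hrd⟩ := hg_loI hf hd hv
  obtain ⟨i, hi, r', hid, hr'd, hir⟩ := U1b_split hI hw hrd hr
  have hfs : em (f ^ s) ≠ 0 := em_ne (pow_ne_zero s hf0)
  have hinv : (em (f ^ s))⁻¹ ∈ Hg (-((s : ℤ) * φ)) := by
    have h1 := hg_inv (hg_em (hf.pow s))
    have h2 : ((φ * s : ℕ) : ℤ) = (s : ℤ) * φ := by
      push_cast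
      ring
    rwa [h2] at h1
  refine ⟨em i * (em (f ^ s))⁻¹, ⟨s, i, hi, ?_⟩, em r' * (em (f ^ s))⁻¹, ⟨s, r', trivial, ?_⟩,
    ?_, ?_, ?_⟩
  · rw [mul_comm (em i), ← mul_assoc, mul_inv_cancel₀ hfs, one_mul]
  · rw [mul_comm (em r'), ← mul_assoc, mul_inv_cancel₀ hfs, one_mul]
  · have h1 := hg_mul hid hinv
    have h2 : d + (s : ℤ) * φ + -((s : ℤ) * φ) = d := by ring
    rwa [h2] at h1
  · have h1 := hg_mul hr'd hinv
    have h2 : d + (s : ℤ) * φ - ω + -((s : ℤ) * φ) = d - ω := by ring
    rwa [h2] at h1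
  · have h1 : v = em r * (em (f ^ s))⁻¹ := by
      rw [← hv, mul_comm (em (f ^ s)) v, mul_assoc, mul_inv_cancel₀ hfs, mul_one]
    rw [h1, hir, map_add, map_mul]
    ring

/-- the same for polynomials -/
theorem hom_split {I : Ideal (PR k n)} (hI : ∀ r ∈ I, ∀ i, homogeneousComponent i r ∈ I)
    {w : PR k n} {ω : ℕ} (hw : w.IsHomogeneous ω) {r : PR k n} {d : ℤ} (hd : em r ∈ Hg d)
    (hr : r ∈ I ⊔ Ideal.span {w}) :
    ∃ i ∈ I, ∃ r' : PR k n, em i ∈ Hg d ∧ em r' ∈ Hg (d - ω) ∧ r = i + w * r' :=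
  U1b_split hI hw hd hr

/-- ideals generated by homogeneous polynomials are homogeneous -/
theorem hom_span {S : Set (PR k n)} (hS : ∀ r ∈ S, ∃ a : ℕ, r.IsHomogeneous a) :
    ∀ r ∈ Ideal.span S, ∀ i, homogeneousComponent i r ∈ Ideal.span S := by
  intro r hr i
  letI := MvPolynomial.gradedAlgebra (σ := Fin (n + 1)) (R := k)
  have h1 : (Ideal.span S).IsHomogeneous (homogeneousSubmodule (Fin (n + 1)) k) := by
    apply Ideal.homogeneous_span
    intro x hx
    obtain ⟨a, ha⟩ := hS x hx
    exact ⟨a, ha⟩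
  exact homogeneousComponent_mem_of_mem h1 hr i

end Q9
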