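import Pool.Agent.LibQ9.U15
import Pool.Agent.LibQ9.U18
import Pool.Agent.LibQ9.U1b

/-!
[Q9 U19] (MEDIUM/STRONG; may cite U14, U15, U17, U18, U1b as stated) A homogeneous height two prime containing a smooth form is locally `(F, g)` on the punctured cone.

PLAN. Case 1: some `p ∈ P` does not vanish at `x`: a homogeneous component `p'` of `p` (in `P`) does not vanish at `x`, of degree `φ ≥ 1` (degree `0`: a nonzero constant in the prime `P`); `h = g = p'`; `¬ F ∣ p'` as `eval x F = 0`.
Case 2: all of `P` vanishes at `x`. `exists_dir` gives `c`; `lin_change` gives `A e₀ = c`, `ψ`. Let `E = finSuccEquiv k n` : `PR k n ≃ (MvPolynomial (Fin n) k)[X]`, `Ê = ψ` then `E`, `P̂` = the image of `P` (prime, height `≤ 2`: heights are preserved by ring isomorphisms), `F̂` = the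
image of `F`. `F̂` has leading coefficient the constant `eval c F ≠ 0` at `X ^ N` and degree `N` (`F` homogeneous of degree `N`, `eval e₀ (ψ F) = eval c F`): so `F̃ = (eval c F)⁻¹ F̂` is monic. With `x' = A.symm x`, `ev = eval (x' ∘ Fin.succ)`, `y₀ = x' 0`: `(E (ψ p)).map ev` evaluated at `y`
is `eval (x' + (y - y₀) • e₀) (ψ p) = eval (x + (y - y₀) • c) p` (`MvPolynomial.eval_eq_eval_mv_eval'` / `finSuccEquiv` lemmas). Hypotheses of `local_core`: `hP`; `hF'`: derivative in the variable `X` is `pderiv 0` (`finSuccEquiv` and `pderiv`; or compute on the line),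
`Σ c i * eval x (pderiv i F) ≠ 0`; `huniq` by the last property of `c`. `comap_principal`: `ĝ`. `local_core`: `ĥ`. Pull back: `g = ψ.symm (rename Fin.succ ĝ) ∈ P`, `h₀`, with `h₀ * p ∈ span {F, g}` for `p ∈ P`, `eval x h₀ ≠ 0`.
`g ≠ 0`: `P.comap ≠ ⊥` by `elim` for `F̂`, `f̂`. `¬ F ∣ g`: else the monic `F̃` of degree `N ≥ 1` divides the nonzero constant polynomial `C ĝ`. `g` homogeneous: `ĝ` generates the homogeneous ideal `P̂.comap C`; the components of `g` are in that ideal, i.e. multiples of `g`, the lowest and highest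
homogeneous components are multiples of `g` by nonzero elements, compare degrees (`totalDegree`). `h`: the set `{r | ∀ p ∈ P, r * p ∈ span {F, g}}` is a homogeneous ideal (`P`, `span {F, g}` homogeneous; enough to test on homogeneous `p`), so a homogeneous component of `h₀` in it does not
vanish at `x`; multiply by a linear form not vanishing at `x` to have positive degree.
-/

set_option autoImplicit false

namespace Q9

open MvPolynomial

variable {k : Type} [Field k] [IsAlgClosed k] {n : ℕ}

/-- the derivative in the first variable -/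
private theorem U19_pderiv {k : Type} [Field k] {n : ℕ} (p : PR k n) :
    finSuccEquiv k n (pderiv 0 p) = Polynomial.derivative (finSuccEquiv k n p) := by
  induction p using MvPolynomial.induction_on with
  | C a =>
    have h1 : finSuccEquiv k n (C a) = Polynomial.C (C a) := by
      have := RingHom.congr_fun (finSuccEquiv_comp_C_eq_C (R := k) n) a
      apply (finSuccEquiv k n).symm.injective
      rw [AlgEquiv.symm_apply_apply]
      exact this.symm
    rw [h1, pderiv_C, map_zero, Polynomial.derivative_C]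
  | add p q hp hq => rw [map_add, map_add, hp, hq, map_add, map_add]
  | mul_X p i hp =>
    rw [pderiv_mul, map_add, map_mul, map_mul, map_mul, hp, Polynomial.derivative_mul]
    congr 1
    refine Fin.cases ?_ (fun j => ?_) i
    · rw [pderiv_X_self, map_one, finSuccEquiv_X_zero, Polynomial.derivative_X]
    · rw [pderiv_X_of_ne (Fin.succ_ne_zero j), map_zero, finSuccEquiv_X_succ,
        Polynomial.derivative_C]

/-- an additive map that preserves degrees commutes with the homogeneous components -/
private theorem U19_comp {k : Type} [Field k] {n : ℕ} (T : PR k n →+ PR k n) (e : ℕ)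
    (hT : ∀ (p : PR k n) (N : ℕ), p.IsHomogeneous N → (T p).IsHomogeneous (N + e))
    (p : PR k n) (i : ℕ) :
    homogeneousComponent (i + e) (T p) = T (homogeneousComponent i p) := by
  have h1 : T p = ∑ j ∈ Finset.range (p.totalDegree + 1), T (homogeneousComponent j p) := by
    conv_lhs => rw [← sum_homogeneousComponent p]
    rw [map_sum]
  rw [h1, map_sum]
  have h2 : ∀ j ∈ Finset.range (p.totalDegree + 1),
      homogeneousComponent (i + e) (T (homogeneousComponent j p)) =
        if i = j then T (homogeneousComponent j p) else 0 := by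
    intro j _
    rw [homogeneousComponent_of_mem (hT _ j (homogeneousComponent_isHomogeneous j p))]
    by_cases hij : i = j
    · rw [if_pos hij, if_pos (by omega)]
    · rw [if_neg hij, if_neg (by omega)]
  rw [Finset.sum_congr rfl h2, Finset.sum_ite_eq]
  by_cases hi : i ∈ Finset.range (p.totalDegree + 1)
  · rw [if_pos hi]
  · rw [if_neg hi, homogeneousComponent_eq_zero, map_zero]
    rw [Finset.mem_range] at hi
    omega

/-- a polynomial that divides its components is homogeneous -/
private theorem U19_hom {k : Type} [Field k] {m : ℕ} {g : MvPolynomial (Fin m) k}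
    (h : ∀ i, g ∣ homogeneousComponent i g) : g.IsHomogeneous g.totalDegree := by
  have h1 : homogeneousComponent g.totalDegree g = g := by
    conv_rhs => rw [← sum_homogeneousComponent g]
    rw [Finset.sum_range_succ, Finset.sum_eq_zero, zero_add]
    intro i hi
    by_contra h0
    have h2 := totalDegree_le_of_dvd_of_isDomain (h i) h0
    have h3 := (homogeneousComponent_isHomogeneous i g).totalDegree_le
    rw [Finset.mem_range] at hi
    omega
  rw [← h1]
  have h2 := homogeneousComponent_isHomogeneous g.totalDegree g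
  rwa [h1] at h2 ⊢

theorem local_principal {N : ℕ} {F f : PR k n} (hF : F.IsHomogeneous N) (hp : Prime F)
    (P : Ideal (PR k n)) [P.IsPrime] (hP : ∀ r ∈ P, ∀ i, homogeneousComponent i r ∈ P)
    (hht : P.height ≤ 2) (hFP : F ∈ P) (hfP : f ∈ P) (hFf : ¬ F ∣ f)
    (x : Fin (n + 1) → k) (hx0 : x ≠ 0) (hxF : eval x F = 0)
    (hs : ∃ i, eval x (pderiv i F) ≠ 0) :
    ∃ (φ γ : ℕ) (h g : PR k n), 1 ≤ φ ∧ h.IsHomogeneous φ ∧ g.IsHomogeneous γ ∧ eval x h ≠ 0 ∧
      g ∈ P ∧ ¬ F ∣ g ∧ ∀ p ∈ P, h * p ∈ Ideal.span {F, g} := by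
  classical
  by_cases hcase : ∃ p ∈ P, eval x p ≠ 0
  · obtain ⟨p, hpP, hpx⟩ := hcase
    have h1 : ∃ i, eval x (homogeneousComponent i p) ≠ 0 := by
      by_contra hcon
      push Not at hcon
      apply hpx
      rw [← sum_homogeneousComponent p, map_sum]
      exact Finset.sum_eq_zero fun i _ => hcon i
    obtain ⟨i, hi⟩ := h1
    have hi1 : 1 ≤ i := by
      by_contra h0
      have h00 : i = 0 := by omega
      subst h00
      have h2 := hP p hpP 0
      rw [homogeneousComponent_zero] at h2 hi
      rw [eval_C] at hi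
      have h3 : (1 : PR k n) ∈ P := by
        have h4 := P.mul_mem_left (C (coeff 0 p)⁻¹) h2
        rwa [← C_mul, inv_mul_cancel₀ hi, C_1] at h4
      exact (Ideal.IsPrime.ne_top inferInstance) ((Ideal.eq_top_iff_one P).2 h3)
    refine ⟨i, i, homogeneousComponent i p, homogeneousComponent i p, hi1,
      homogeneousComponent_isHomogeneous i p, homogeneousComponent_isHomogeneous i p, hi,
      hP p hpP i, ?_, ?_⟩
    · rintro ⟨q, hq⟩
      apply hi
      rw [hq, map_mul, hxF, zero_mul]
    · intro q _
      exact Ideal.mul_mem_right _ _ (Ideal.subset_span (by simp))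
  push Not at hcase
  obtain ⟨c, hc0, hcF, hcs, hcu⟩ := exists_dir hP hp hFP hfP hFf x hx0 hs
  obtain ⟨A, ψ, hA, hψ, hψ', hψh, hψh', hψd⟩ := lin_change c hc0
  set E : PR k n ≃ₐ[k] Polynomial (MvPolynomial (Fin n) k) := ψ.trans (finSuccEquiv k n) with hE
  have hEp : ∀ p, E p = finSuccEquiv k n (ψ p) := fun p => rfl
  set Q : Ideal (Polynomial (MvPolynomial (Fin n) k)) := P.comap E.symm.toRingEquiv with hQ
  have hQm : ∀ q, q ∈ Q ↔ E.symm q ∈ P := fun q => Iff.rfl
  have hQE : ∀ p, E p ∈ Q ↔ p ∈ P := fun p => by rw [hQm, AlgEquiv.symm_apply_apply]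
  have hQht : Q.height ≤ 2 := by
    rw [hQ, RingEquiv.height_comap]
    exact hht
  set x' : Fin (n + 1) → k := A.symm x with hx'
  set s : Fin n → k := fun i => x' i.succ with hsdef
  set y₀ : k := x' 0 with hy0
  have hcons : ∀ y, A (Fin.cons y s : Fin (n + 1) → k) = x + (y - y₀) • c := by
    intro y
    have h1 : (Fin.cons y s : Fin (n + 1) → k) = x' + (y - y₀) • Pi.single 0 1 := by
      funext i
      refine Fin.cases ?_ (fun j => ?_) i
      · simp [hy0]
      · simp [hsdef]
    rw [h1, map_add, map_smul, hA, hx', LinearEquiv.apply_symm_apply]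
  have hcons0 : (Fin.cons y₀ s : Fin (n + 1) → k) = x' := by
    funext i
    refine Fin.cases ?_ (fun j => ?_) i
    · simp [hy0]
    · simp [hsdef]
  set ev : MvPolynomial (Fin n) k →ₐ[k] k := aeval s with hev
  have hevr : ev.toRingHom = eval s := by
    rw [hev]
    ext <;> simp
  have hval : ∀ (p : PR k n) (y : k),
      ((E p).map ev.toRingHom).eval y = eval (x + (y - y₀) • c) p := by
    intro p y
    rw [hevr, hEp, ← eval_eq_eval_mv_eval', hψ, hcons]
  have hval0 : ∀ (p : PR k n), ((E p).map ev.toRingHom).eval y₀ = eval x p := by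
    intro p
    rw [hval, sub_self, zero_smul, add_zero]
  -- the leading coefficient
  have hψF := hψh F N hF
  have hdeg : (E F).natDegree ≤ N := by
    rw [hEp, natDegree_finSuccEquiv]
    exact (degreeOf_le_totalDegree _ _).trans hψF.totalDegree_le
  obtain ⟨a, ha⟩ : ∃ a, (E F).coeff N = C a := by
    have h1 := hψF.finSuccEquiv_coeff_isHomogeneous N 0 (by omega)
    have h2 := h1.totalDegree_le
    exact ⟨_, totalDegree_eq_zero_iff_eq_C.1 (Nat.le_zero.1 h2)⟩
  have haF : a = eval c F := by
    have h1 : eval (Fin.cons 1 0 : Fin (n + 1) → k) (ψ F) = eval c F := by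
      rw [hψ]
      have h2 : (Fin.cons 1 0 : Fin (n + 1) → k) = Pi.single 0 1 := by
        funext i
        refine Fin.cases ?_ (fun j => ?_) i
        · simp
        · simp
      rw [h2, hA]
    rw [← h1, eval_eq_eval_mv_eval', ← hEp, Polynomial.eval_eq_sum_range'
      (n := N + 1) (lt_of_le_of_lt (Polynomial.natDegree_map_le) (by omega)),
      Finset.sum_range_succ, Finset.sum_eq_zero, zero_add]
    · rw [Polynomial.coeff_map, ha]
      simp
    · intro i hi
      rw [Finset.mem_range] at hi
      have h3 := hψF.finSuccEquiv_coeff_isHomogeneous i (N - i) (by omega)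
      have h4 : eval (0 : Fin n → k) ((finSuccEquiv k n (ψ F)).coeff i) = 0 := by
        have h5 := h3.coeff_eq_zero (d := 0) (by simp; omega)
        rw [← constantCoeff_eq] at h5
        rw [eval_zero]
        exact h5
      rw [Polynomial.coeff_map, hEp, h4, zero_mul]
  have ha0 : a ≠ 0 := by rw [haF]; exact hcF
  set F₁ : Polynomial (MvPolynomial (Fin n) k) := Polynomial.C (C a⁻¹) * E F with hF₁
  have hCC : (C a⁻¹ : MvPolynomial (Fin n) k) * C a = 1 := by
    rw [← C_mul, inv_mul_cancel₀ ha0, C_1]
  have hmonic : F₁.Monic := by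
    refine Polynomial.monic_of_natDegree_le_of_coeff_eq_one N ?_ ?_
    · exact (Polynomial.natDegree_C_mul_le _ _).trans hdeg
    · rw [hF₁, Polynomial.coeff_C_mul, ha, hCC]
  have hF₁d : F₁.natDegree = N := by
    refine le_antisymm ((Polynomial.natDegree_C_mul_le _ _).trans hdeg) ?_
    refine Polynomial.le_natDegree_of_ne_zero ?_
    rw [hF₁, Polynomial.coeff_C_mul, ha, hCC]
    exact one_ne_zero
  have hEF : E F = Polynomial.C (C a) * F₁ := by
    rw [hF₁, ← mul_assoc, ← Polynomial.C_mul, mul_comm (C a), hCC, Polynomial.C_1, one_mul]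
  have hF₁Q : F₁ ∈ Q := Q.mul_mem_left _ ((hQE F).2 hFP)
  have hN : 1 ≤ N := by
    by_contra h0
    have h00 : N = 0 := by omega
    subst h00
    obtain ⟨b, hb⟩ : ∃ b, F = C b := ⟨_, totalDegree_eq_zero_iff_eq_C.1
      (Nat.le_zero.1 hF.totalDegree_le)⟩
    have hb0 : b ≠ 0 := by
      rintro rfl
      exact hp.ne_zero (by rw [hb, C_0])
    exact hp.not_isUnit (by rw [hb]; exact (isUnit_iff_ne_zero.2 hb0).map C)
  have hFprime : Prime (E F) := (MulEquiv.prime_iff E.toRingEquiv.toMulEquiv).2 hp
  have hFfE : ¬ E F ∣ E f := by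
    rintro ⟨q, hq⟩
    apply hFf
    refine ⟨E.symm q, ?_⟩
    apply E.injective
    rw [map_mul, AlgEquiv.apply_symm_apply, hq]
  obtain ⟨Ψ, hΨ0, hΨ⟩ := elim hFprime hFfE
  obtain ⟨g₀, hg₀⟩ := comap_principal Q hQht hmonic hF₁Q
  have hg₀0 : g₀ ≠ 0 := by
    rintro rfl
    have h1 : Polynomial.C Ψ ∈ Q := by
      refine (Ideal.span_le.2 ?_) hΨ
      rintro q (rfl | rfl)
      · exact (hQE F).2 hFP
      · exact (hQE f).2 hfP
    have h2 : Ψ ∈ Q.comap (Polynomial.C : _ →+* Polynomial (MvPolynomial (Fin n) k)) := h1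
    rw [hg₀, Ideal.mem_span_singleton] at h2
    exact hΨ0 (zero_dvd_iff.1 h2)
  have hg₀Q : Polynomial.C g₀ ∈ Q := by
    have h2 : g₀ ∈ Q.comap (Polynomial.C : _ →+* Polynomial (MvPolynomial (Fin n) k)) := by
      rw [hg₀]
      exact Ideal.mem_span_singleton_self g₀
    exact h2
  obtain ⟨h₁, hh₁, hspan⟩ := local_core Q hmonic hF₁Q hg₀ ev y₀
    (by
      intro q hq
      have h1 := hval0 (E.symm q)
      rw [AlgEquiv.apply_symm_apply] at h1
      rw [h1]
      exact hcase _ ((hQm q).1 hq))
    (by
      have h1 : (Polynomial.derivative (E F)).map ev.toRingHom = (finSuccEquiv k n (pderiv 0 (ψ F))).map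
          (eval s) := by
        rw [hevr, hEp, U19_pderiv]
      have h2 : ((Polynomial.derivative (E F)).map ev.toRingHom).eval y₀ =
          ∑ i, c i * eval x (pderiv i F) := by
        rw [h1, ← eval_eq_eval_mv_eval', hcons0, hψd, hx', LinearEquiv.apply_symm_apply]
      rw [hF₁, Polynomial.derivative_C_mul, Polynomial.map_mul, Polynomial.eval_mul, h2,
        Polynomial.map_C, Polynomial.eval_C, hevr, eval_C]
      exact mul_ne_zero (inv_ne_zero ha0) hcs)
    (by
      intro y hy
      by_contra hne
      obtain ⟨p, hpP, hpx⟩ := hcu (y - y₀) (sub_ne_zero.2 hne)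
      apply hpx
      rw [← hval]
      exact hy _ ((hQE p).2 hpP))
  -- pull back
  have hEsC : ∀ r : MvPolynomial (Fin n) k, E.symm (Polynomial.C r) = ψ.symm (rename Fin.succ r) := by
    intro r
    apply E.injective
    rw [AlgEquiv.apply_symm_apply, hEp, AlgEquiv.apply_symm_apply]
    induction r using MvPolynomial.induction_on with
    | C b =>
      have h1 : finSuccEquiv k n (C b) = Polynomial.C (C b) := by
        have := RingHom.congr_fun (finSuccEquiv_comp_C_eq_C (R := k) n) b
        apply (finSuccEquiv k n).symm.injective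
        rw [AlgEquiv.symm_apply_apply]
        exact this.symm
      rw [rename_C, h1]
    | add p q hp hq => rw [map_add, map_add, map_add, hp, hq]
    | mul_X p i hp => rw [map_mul, map_mul, map_mul, ← hp, rename_X, finSuccEquiv_X_succ]
  set g : PR k n := E.symm (Polynomial.C g₀) with hg
  set h₀ : PR k n := E.symm h₁ with hh₀
  have hgP : g ∈ P := (hQm _).1 hg₀Q
  have hspan₀ : ∀ p ∈ P, h₀ * p ∈ Ideal.span {F, g} := by
    intro p hpP
    have h1 := hspan (E p) ((hQE p).2 hpP)
    obtain ⟨u, v, huv⟩ := Ideal.mem_span_pair.1 h1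
    refine Ideal.mem_span_pair.2 ⟨E.symm u * C a⁻¹, E.symm v, ?_⟩
    apply E.injective
    have h2 : E (C a⁻¹) = Polynomial.C (C a⁻¹) := by
      have h3 := E.commutes a⁻¹
      exact h3
    rw [map_add, map_mul, map_mul, map_mul, map_mul, AlgEquiv.apply_symm_apply,
      AlgEquiv.apply_symm_apply, hg, AlgEquiv.apply_symm_apply, hh₀, AlgEquiv.apply_symm_apply,
      h2, ← huv, hF₁]
    ring
  have hFg : ¬ F ∣ g := by
    rintro ⟨q, hq⟩
    have h1 : F₁ ∣ Polynomial.C g₀ := by
      refine ⟨Polynomial.C (C a) * E q, ?_⟩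
      have h2 : Polynomial.C g₀ = E g := by rw [hg, AlgEquiv.apply_symm_apply]
      rw [h2, hq, map_mul, hEF]
      ring
    have h3 := Polynomial.natDegree_le_of_dvd h1 (by rwa [Ne, Polynomial.C_eq_zero])
    rw [Polynomial.natDegree_C, hF₁d] at h3
    omega
  have hψsc : ∀ (p : PR k n) (i : ℕ),
      homogeneousComponent i (ψ.symm p) = ψ.symm (homogeneousComponent i p) := by
    intro p i
    exact U19_comp (ψ.symm.toRingEquiv.toRingHom.toAddMonoidHom) 0
      (fun q M hq => by rw [add_zero]; exact hψh' q M hq) p i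
  have hg₀hom : g₀.IsHomogeneous g₀.totalDegree := by
    apply U19_hom
    intro i
    rw [← Ideal.mem_span_singleton, ← hg₀]
    change Polynomial.C (homogeneousComponent i g₀) ∈ Q
    rw [hQm, hEsC, rename_homogeneousComponent, ← hψsc, ← hEsC]
    exact hP _ hgP i
  have hghom : g.IsHomogeneous g₀.totalDegree := by
    rw [hg, hEsC]
    exact hψh' _ _ hg₀hom.rename_isHomogeneous
  have hsph := hom_span (S := {F, g}) (by
    rintro r (rfl | rfl)
    · exact ⟨N, hF⟩
    · exact ⟨_, hghom⟩)
  have hcompspan : ∀ i, ∀ p ∈ P, homogeneousComponent i h₀ * p ∈ Ideal.span {F, g} := by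
    intro i p hpP
    rw [← sum_homogeneousComponent p, Finset.mul_sum]
    refine Ideal.sum_mem _ fun e _ => ?_
    have h1 := U19_comp (AddMonoidHom.mulRight (homogeneousComponent e p)) e
      (fun q M hq => hq.mul (homogeneousComponent_isHomogeneous e p)) h₀ i
    have h2 := hsph _ (hspan₀ _ (hP p hpP e)) (i + e)
    simp only [AddMonoidHom.coe_mulRight] at h1
    rwa [h1] at h2
  have hh₀x : eval x h₀ ≠ 0 := by
    rw [← hval0, hh₀, AlgEquiv.apply_symm_apply]
    exact hh₁
  obtain ⟨i, hi⟩ : ∃ i, eval x (homogeneousComponent i h₀) ≠ 0 := by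
    by_contra hcon
    push Not at hcon
    apply hh₀x
    rw [← sum_homogeneousComponent h₀, map_sum]
    exact Finset.sum_eq_zero fun i _ => hcon i
  obtain ⟨j, hj⟩ : ∃ j, x j ≠ 0 := by
    by_contra hcon
    push Not at hcon
    exact hx0 (funext hcon)
  refine ⟨1 + i, g₀.totalDegree, X j * homogeneousComponent i h₀, g, by omega,
    (isHomogeneous_X k j).mul (homogeneousComponent_isHomogeneous i h₀), hghom, ?_, hgP, hFg, ?_⟩
  · rw [map_mul, eval_X]
    exact mul_ne_zero hj hi
  · intro p hpP
    rw [mul_assoc]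
    exact Ideal.mul_mem_left _ _ (hcompspan i p hpP)

end Q9
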