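import Pool.Agent.LibQ9.UDefs

/-!
[Q9 U1a] (SHORT/MEDIUM, ONLY UDefs) Calculus of the submodules `LoI I f`, `Lo f`.

PLAN. All statements are direct from the definition `v ∈ LoI I f ↔ ∃ s, ∃ r ∈ I, em (f ^ s) * v = em r` (`em` is injective: `em_inj`, `em_ne`; `KR k n` is a field).
`loI_clear`: multiply by a further power of `f`. `loI_mul_left`: `(f g)^s v = em r` gives `f^s (g^s v) = em r`. `loI_split`: `f^s v = em (i + w r)`, so `v = i / f^s + w r / f^s` (`f ≠ 0`).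
`loI_reg`: `f^s w v = em r`, `f^t v = em r'`, so `w (f^s r') = f^t r ∈ I`, hence `f^s r' ∈ I` and `f^(s+t) v ∈ I`.
-/

set_option autoImplicit false

namespace Q9

open MvPolynomial

variable {k : Type} [Field k] {n : ℕ}

theorem mem_lo {f : PR k n} {v : KR k n} :
    v ∈ Lo f ↔ ∃ (s : ℕ) (r : PR k n), em (f ^ s) * v = em r := by
  constructor
  · rintro ⟨s, r, -, h⟩
    exact ⟨s, r, h⟩
  · rintro ⟨s, r, h⟩
    exact ⟨s, r, Submodule.mem_top, h⟩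

theorem loI_le_lo (I : Ideal (PR k n)) (f : PR k n) : LoI I f ≤ Lo f := by
  rintro v ⟨s, r, -, h⟩
  exact ⟨s, r, Submodule.mem_top, h⟩

theorem loI_mono {I J : Ideal (PR k n)} (hIJ : I ≤ J) (f : PR k n) : LoI I f ≤ LoI J f := by
  rintro v ⟨s, r, hr, h⟩
  exact ⟨s, r, hIJ hr, h⟩

theorem em_mem_lo (f r : PR k n) : em r ∈ Lo f := by
  exact mem_lo.2 ⟨0, r, by simp⟩

theorem em_mem_loI {I : Ideal (PR k n)} (f : PR k n) {r : PR k n} (hr : r ∈ I) :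
    em r ∈ LoI I f := by
  exact ⟨0, r, hr, by simp⟩

theorem lo_mul {f : PR k n} {v w : KR k n} (hv : v ∈ Lo f) (hw : w ∈ Lo f) : v * w ∈ Lo f := by
  obtain ⟨s, r, h1⟩ := mem_lo.1 hv
  obtain ⟨t, q, h2⟩ := mem_lo.1 hw
  refine mem_lo.2 ⟨s + t, r * q, ?_⟩
  rw [map_mul, ← h1, ← h2, pow_add, map_mul]
  ring

theorem loI_mul {I : Ideal (PR k n)} {f : PR k n} {v w : KR k n} (hv : v ∈ Lo f)
    (hw : w ∈ LoI I f) : v * w ∈ LoI I f := by
  obtain ⟨s, r, h1⟩ := mem_lo.1 hv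
  obtain ⟨t, q, hq, h2⟩ := hw
  refine ⟨s + t, r * q, I.mul_mem_left _ hq, ?_⟩
  rw [map_mul, ← h1, ← h2, pow_add, map_mul]
  ring

/-- denominators: bigger denominators are allowed -/
theorem loI_of_dvd {I : Ideal (PR k n)} {f g : PR k n} (hfg : f ∣ g) {v : KR k n}
    (hv : v ∈ LoI I f) : v ∈ LoI I g := by
  obtain ⟨e, rfl⟩ := hfg
  obtain ⟨s, r, hr, h⟩ := hv
  refine ⟨s, e ^ s * r, I.mul_mem_left _ hr, ?_⟩
  rw [mul_pow, map_mul, map_mul, ← h]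
  ring

theorem lo_of_dvd {f g : PR k n} (hfg : f ∣ g) {v : KR k n} (hv : v ∈ Lo f) : v ∈ Lo g := by
  exact loI_of_dvd hfg hv

/-- clearing denominators -/
theorem loI_clear {I : Ideal (PR k n)} {f : PR k n} {v : KR k n} (hv : v ∈ LoI I f) :
    ∃ s₀ : ℕ, ∀ s, s₀ ≤ s → ∃ r ∈ I, em (f ^ s) * v = em r := by
  obtain ⟨s₀, r, hr, h⟩ := hv
  refine ⟨s₀, fun s hs => ⟨f ^ (s - s₀) * r, I.mul_mem_left _ hr, ?_⟩⟩
  rw [map_mul, ← h, ← mul_assoc, ← map_mul, ← pow_add, Nat.sub_add_cancel hs]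

/-- clearing the denominators of one factor -/
theorem loI_mul_left {I : Ideal (PR k n)} {f g : PR k n} {v : KR k n} (hv : v ∈ LoI I (f * g)) :
    ∃ s₀ : ℕ, ∀ s, s₀ ≤ s → em (g ^ s) * v ∈ LoI I f := by
  obtain ⟨s₀, h⟩ := loI_clear hv
  refine ⟨s₀, fun s hs => ?_⟩
  obtain ⟨r, hr, h1⟩ := h s hs
  refine ⟨s, r, hr, ?_⟩
  rw [← h1, mul_pow, map_mul]
  ring

theorem lo_div {f : PR k n} (hf : f ≠ 0) (r : PR k n) (s : ℕ) : em r / em (f ^ s) ∈ Lo f := by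
  refine mem_lo.2 ⟨s, r, ?_⟩
  exact mul_div_cancel₀ _ (em_ne (pow_ne_zero s hf))

theorem loI_of_pow_mul {I : Ideal (PR k n)} {f : PR k n} {v : KR k n} (s : ℕ)
    (hv : em (f ^ s) * v ∈ LoI I f) : v ∈ LoI I f := by
  obtain ⟨t, r, hr, h⟩ := hv
  refine ⟨t + s, r, hr, ?_⟩
  rw [← h, pow_add, map_mul]
  ring

theorem loI_split {I : Ideal (PR k n)} {f w : PR k n} (hf : f ≠ 0) {v : KR k n}
    (hv : v ∈ LoI (I ⊔ Ideal.span {w}) f) :
    ∃ v₁ ∈ LoI I f, ∃ v₂ ∈ Lo f, v = v₁ + em w * v₂ := by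
  obtain ⟨s, r, hr, h⟩ := hv
  obtain ⟨i, hi, j, hj, rfl⟩ := Submodule.mem_sup.1 hr
  obtain ⟨c, rfl⟩ := Ideal.mem_span_singleton'.1 hj
  have hne := em_ne (pow_ne_zero s hf)
  refine ⟨em i / em (f ^ s), ⟨s, i, hi, mul_div_cancel₀ _ hne⟩, em c / em (f ^ s),
    lo_div hf c s, ?_⟩
  have h2 : v = em (i + c * w) / em (f ^ s) := by
    rw [← h, mul_div_cancel_left₀ _ hne]
  rw [h2, map_add, map_mul]
  ring

/-- a regular element modulo `I` is regular in the localisation -/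
theorem loI_reg {I : Ideal (PR k n)} {f w : PR k n} (hw : ∀ r, w * r ∈ I → r ∈ I) {v : KR k n}
    (hv : v ∈ Lo f) (h : em w * v ∈ LoI I f) : v ∈ LoI I f := by
  obtain ⟨s, r, hr, h1⟩ := h
  obtain ⟨t, r', h2⟩ := mem_lo.1 hv
  refine ⟨s + t, f ^ s * r', ?_, ?_⟩
  · refine hw _ ?_
    have h3 : w * (f ^ s * r') = f ^ t * r := by
      apply em_inj
      rw [map_mul, map_mul, map_mul, ← h1, ← h2]
      ring
    rw [h3]
    exact I.mul_mem_left _ hr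
  · rw [map_mul, ← h2, pow_add, map_mul]
    ring

end Q9
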