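import Pool.Agent.LibQ9.UDefs

/-!
[Q9 U1c] (MEDIUM, ONLY UDefs; you may also cite U1a by importing it) Calculus of the submodules `FV hp K` (divisibility by `F ^ K` in the local ring of the prime `(F)`).

PLAN. All from the definition `v ∈ FV hp K ↔ ∃ q r, ¬ F ∣ q ∧ em q * v = em (F ^ K * r)`. `fv_em`: `q r₀ = F ^ K r`, `F` prime, `¬ F ∣ q`: `F ^ K ∣ r₀` (`Prime.pow_dvd_of_dvd_mul_left`). `fv_cancel`: `v = p / q` with `¬ F ∣ p`
(as `v ∉ FV hp 1`) so `v⁻¹ ∈ FV hp 0`. `fv_loI`: `f^s v = em r`, and `r` is divisible by `F ^ K` by `fv_em`. `fv_van`: `v = F r / f^s`, and `f^s v = em r'` with `F ∣ r'`; `eval x F = 0`, `eval x f ≠ 0`.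
-/

set_option autoImplicit false

namespace Q9

open MvPolynomial

variable {k : Type} [Field k] {n : ℕ} {F : PR k n} (hp : Prime F)

include hp

theorem fv_em {K : ℕ} {r : PR k n} : em r ∈ FV hp K ↔ F ^ K ∣ r := by
  constructor
  · rintro ⟨q, r', hq, h⟩
    have h1 : q * r = F ^ K * r' := by
      apply em_inj
      rw [map_mul]
      exact h
    exact hp.pow_dvd_of_dvd_mul_left K hq ⟨r', h1⟩
  · rintro ⟨r', rfl⟩
    exact ⟨1, r', fun h => hp.not_isUnit (isUnit_of_dvd_one h), by rw [map_one, one_mul]⟩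

theorem fv_mono {K L : ℕ} (h : K ≤ L) : FV hp L ≤ FV hp K := by
  rintro v ⟨q, r, hq, hv⟩
  refine ⟨q, F ^ (L - K) * r, hq, ?_⟩
  rw [hv, ← mul_assoc, ← pow_add, Nat.add_sub_cancel' h]

theorem fv_mul {K L : ℕ} {v w : KR k n} (hv : v ∈ FV hp K) (hw : w ∈ FV hp L) :
    v * w ∈ FV hp (K + L) := by
  obtain ⟨q, r, hq, hv⟩ := hv
  obtain ⟨q', r', hq', hw⟩ := hw
  refine ⟨q * q', r * r', fun h => (hp.dvd_or_dvd h).elim hq hq', ?_⟩
  have h1 : em (q * q') * (v * w) = (em q * v) * (em q' * w) := by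
    rw [map_mul]
    ring
  rw [h1, hv, hw, ← map_mul]
  congr 1
  ring

theorem fv_lo {f : PR k n} (hf : ¬ F ∣ f) {v : KR k n} (hv : v ∈ Lo f) : v ∈ FV hp 0 := by
  obtain ⟨s, r, -, h⟩ := hv
  exact ⟨f ^ s, r, fun h' => hf (hp.dvd_of_dvd_pow h'), by rw [h, pow_zero, one_mul]⟩

theorem fv_mul_lo {f : PR k n} (hf : ¬ F ∣ f) {K : ℕ} {v w : KR k n} (hv : v ∈ Lo f)
    (hw : w ∈ FV hp K) : v * w ∈ FV hp K := by
  have h := fv_mul hp (fv_lo hp hf hv) hw
  rwa [Nat.zero_add] at h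

theorem fv_one : (1 : KR k n) ∉ FV hp 1 := by
  intro h
  have h1 : em (1 : PR k n) ∈ FV hp 1 := by rwa [map_one]
  rw [fv_em hp, pow_one] at h1
  exact hp.not_isUnit (isUnit_of_dvd_one h1)

/-- elements not divisible by `F` can be cancelled -/
theorem fv_cancel {K : ℕ} {v w : KR k n} (hv : v ∈ FV hp 0) (hv1 : v ∉ FV hp 1)
    (h : v * w ∈ FV hp K) : w ∈ FV hp K := by
  obtain ⟨q, r, hq, h0⟩ := hv
  obtain ⟨q2, r2, hq2, h2⟩ := h
  rw [pow_zero, one_mul] at h0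
  have hr : ¬ F ∣ r := by
    rintro ⟨r', rfl⟩
    exact hv1 ⟨q, r', hq, by rw [h0, pow_one]⟩
  refine ⟨r * q2, q * r2, fun h => (hp.dvd_or_dvd h).elim hr hq2, ?_⟩
  have h1 : em (r * q2) * w = em q * (em q2 * (v * w)) := by
    rw [map_mul, ← h0]
    ring
  rw [h1, h2, ← map_mul]
  congr 1
  ring

theorem fv_pow_mul {K L : ℕ} {v : KR k n} : em (F ^ K) * v ∈ FV hp (K + L) ↔ v ∈ FV hp L := by
  have hF : em (F ^ K) ≠ (0 : KR k n) := em_ne (pow_ne_zero _ hp.ne_zero)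
  constructor
  · rintro ⟨q, r, hq, h⟩
    refine ⟨q, r, hq, ?_⟩
    apply mul_left_cancel₀ hF
    have h1 : em (F ^ K) * (em q * v) = em q * (em (F ^ K) * v) := by ring
    rw [h1, h, ← map_mul, pow_add, mul_assoc]
  · rintro ⟨q, r, hq, h⟩
    refine ⟨q, r, hq, ?_⟩
    have h1 : em q * (em (F ^ K) * v) = em (F ^ K) * (em q * v) := by ring
    rw [h1, h, ← map_mul, pow_add, mul_assoc]

/-- division by `F ^ K` -/
theorem fv_div {K : ℕ} {f : PR k n} (hf : ¬ F ∣ f) {v : KR k n} (hv : v ∈ Lo f)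
    (hK : v ∈ FV hp K) : v / em (F ^ K) ∈ Lo f := by
  have hF : em (F ^ K) ≠ (0 : KR k n) := em_ne (pow_ne_zero _ hp.ne_zero)
  obtain ⟨s, r, -, h⟩ := hv
  have h1 : em r ∈ FV hp K := by
    rw [← h, ← Algebra.smul_def]
    exact Submodule.smul_mem _ _ hK
  rw [fv_em hp] at h1
  obtain ⟨r', rfl⟩ := h1
  refine ⟨s, r', Submodule.mem_top, ?_⟩
  rw [← mul_div_assoc, h, map_mul, mul_div_assoc, mul_comm, div_mul_cancel₀ _ hF]

theorem fv_loI {K : ℕ} {f : PR k n} (hf : ¬ F ∣ f) {v : KR k n} :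
    v ∈ LoI (Ideal.span {F ^ K}) f ↔ v ∈ Lo f ∧ v ∈ FV hp K := by
  constructor
  · rintro ⟨s, r, hr, h⟩
    obtain ⟨r', rfl⟩ := Ideal.mem_span_singleton.1 hr
    exact ⟨⟨s, _, Submodule.mem_top, h⟩, ⟨f ^ s, r', fun h' => hf (hp.dvd_of_dvd_pow h'), h⟩⟩
  · rintro ⟨⟨s, r, -, h⟩, hK⟩
    have h1 : em r ∈ FV hp K := by
      rw [← h, ← Algebra.smul_def]
      exact Submodule.smul_mem _ _ hK
    rw [fv_em hp] at h1
    exact ⟨s, r, Ideal.mem_span_singleton.2 h1, h⟩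

theorem not_dvd_mul {f g : PR k n} (hf : ¬ F ∣ f) (hg : ¬ F ∣ g) : ¬ F ∣ f * g := by
  exact fun h => (hp.dvd_or_dvd h).elim hf hg

omit hp in
/-- values at points -/
theorem lo_reg {f : PR k n} {x : Fin (n + 1) → k} (hx : eval x f ≠ 0) {v : KR k n}
    (hv : v ∈ Lo f) : ∃ q r : PR k n, eval x q ≠ 0 ∧ em q * v = em r := by
  obtain ⟨s, r, -, h⟩ := hv
  exact ⟨f ^ s, r, by rw [map_pow]; exact pow_ne_zero _ hx, h⟩

theorem fv_van {f : PR k n} {x : Fin (n + 1) → k} (hx : eval x f ≠ 0) (hF : eval x F = 0)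
    {v : KR k n} (hv : v ∈ Lo f) (h : v ∈ FV hp 1) : Van x v := by
  have hf : ¬ F ∣ f := by
    rintro ⟨g, rfl⟩
    rw [map_mul, hF, zero_mul] at hx
    exact hx rfl
  obtain ⟨s, r, hr, h1⟩ := (fv_loI hp hf).2 ⟨hv, h⟩
  obtain ⟨r', rfl⟩ := Ideal.mem_span_singleton.1 hr
  refine ⟨f ^ s, _, by rw [map_pow]; exact pow_ne_zero _ hx, ?_, h1⟩
  rw [pow_one, map_mul, hF, zero_mul]

omit hp in
theorem van_add {x : Fin (n + 1) → k} {v w : KR k n} (hv : Van x v) (hw : Van x w) :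
    Van x (v + w) := by
  obtain ⟨q, r, hq, hr, h⟩ := hv
  obtain ⟨q', r', hq', hr', h'⟩ := hw
  refine ⟨q * q', q' * r + q * r', by rw [map_mul]; exact mul_ne_zero hq hq', ?_, ?_⟩
  · rw [map_add, map_mul, map_mul, hr, hr', mul_zero, mul_zero, add_zero]
  · have h1 : em (q * q') * (v + w) = em q' * (em q * v) + em q * (em q' * w) := by
      rw [map_mul]
      ring
    rw [h1, h, h', ← map_mul, ← map_mul, ← map_add]

omit hp in
theorem van_mul {f : PR k n} {x : Fin (n + 1) → k} (hx : eval x f ≠ 0) {v w : KR k n}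
    (hv : v ∈ Lo f) (hw : Van x w) : Van x (v * w) := by
  obtain ⟨s, r0, -, h0⟩ := hv
  obtain ⟨q, r, hq, hr, h⟩ := hw
  refine ⟨f ^ s * q, r0 * r, by rw [map_mul, map_pow]; exact mul_ne_zero (pow_ne_zero _ hx) hq, ?_, ?_⟩
  · rw [map_mul, hr, mul_zero]
  · have h1 : em (f ^ s * q) * (v * w) = (em (f ^ s) * v) * (em q * w) := by
      rw [map_mul]
      ring
    rw [h1, h0, h, ← map_mul]

omit hp in
/-- if a product of regular functions vanishes then one of them vanishes -/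
theorem van_prime {f : PR k n} {x : Fin (n + 1) → k} (hx : eval x f ≠ 0) {v w : KR k n}
    (hv : v ∈ Lo f) (hw : w ∈ Lo f) (h : Van x (v * w)) : Van x v ∨ Van x w := by
  obtain ⟨s, a, -, ha⟩ := hv
  obtain ⟨t, b, -, hb⟩ := hw
  obtain ⟨q, r, hq, hr, h⟩ := h
  have h1 : q * (a * b) = f ^ s * f ^ t * r := by
    apply em_inj
    rw [map_mul, map_mul, map_mul, map_mul, ← ha, ← hb, ← h]
    ring
  have h2 : eval x q * (eval x a * eval x b) = 0 := by
    rw [← map_mul, ← map_mul, h1, map_mul, hr, mul_zero]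
  rcases mul_eq_zero.1 h2 with h3 | h3
  · exact absurd h3 hq
  · rcases mul_eq_zero.1 h3 with h4 | h4
    · exact Or.inl ⟨f ^ s, a, by rw [map_pow]; exact pow_ne_zero _ hx, h4, ha⟩
    · exact Or.inr ⟨f ^ t, b, by rw [map_pow]; exact pow_ne_zero _ hx, h4, hb⟩

omit hp in
theorem van_em {x : Fin (n + 1) → k} {r : PR k n} : Van x (em r) ↔ eval x r = 0 := by
  constructor
  · rintro ⟨q, r', hq, hr', h⟩
    have h1 : q * r = r' := by
      apply em_inj
      rw [map_mul]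
      exact h
    have h2 : eval x q * eval x r = 0 := by
      rw [← map_mul, h1, hr']
    rcases mul_eq_zero.1 h2 with h3 | h3
    · exact absurd h3 hq
    · exact h3
  · intro h
    exact ⟨1, r, by rw [map_one]; exact one_ne_zero, h, by rw [map_one, one_mul]⟩

end Q9
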