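import Pool.Agent.LibQ9.U19
import Pool.Agent.LibQ9.P1

/-!
[Q9 U20] (MEDIUM; may cite U19 as stated) Finite coverings.

PLAN. For every `x ≠ 0` with `eval x F = 0` choose `φ x, γ x, h x, g x` from `local_principal` (`hs` from `Smooth F`). The ideal generated by all `h x` and `F` has no zero except possibly the origin; it is finitely generated (noetherian), so finitely many points
`x_1, .., x_r` give `span {h x_i} ⊔ span {F}` with the same zero set (`Submodule.fg_span_iff..`, or: `Ideal.span` of a set is the span of a finite subset: `Submodule.fg_span`/`exists_finset_subset`), and the Nullstellensatz gives a power of every `X j` in it (`Cov.rad`).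
`ι` = the finite subtype of points (`Type` level: `{x // x ∈ (s : Finset _)}`), `Fintype`. `nd`: `eval x (h x) ≠ 0 = eval x F`. The last statement: if all `h a ∈ P` then all `X j ∈ P` (`rad`, `F ∈ P`, `P` prime), so `P` contains the maximal ideal `ker (eval 0)` = `span (range X)`, of height
`≥ n + 1 ≥ 3` (P1) by monotonicity of the height (`Ideal.height_mono`); contradiction with `hht`.
-/

set_option autoImplicit false

namespace Q9

open MvPolynomial

variable {k : Type} [Field k] [IsAlgClosed k] {n : ℕ}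

omit [IsAlgClosed k] in
/-- an ideal which contains all variables contains the kernel of the evaluation at the origin -/
private theorem U20_ker_le (P : Ideal (PR k n)) (hX : ∀ j, (X j : PR k n) ∈ P) :
    RingHom.ker (eval (0 : Fin (n + 1) → k) : PR k n →+* k) ≤ P := by
  have h1 : Ideal.span (X '' Set.univ : Set (PR k n)) ≤ P := by
    rw [Ideal.span_le]
    rintro _ ⟨j, -, rfl⟩
    exact hX j
  refine le_trans ?_ h1
  intro p hp
  rw [mem_ideal_span_X_image]
  intro m hm
  have h2 : coeff 0 p = 0 := by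
    have h3 : eval (0 : Fin (n + 1) → k) p = 0 := hp
    rw [← constantCoeff_eq, ← h3]
    simp [eval_zero]
  by_contra h4
  push Not at h4
  have h5 : m = 0 := by
    ext i
    exact h4 i (Set.mem_univ i)
  rw [h5, mem_support_iff] at hm
  exact hm h2

theorem exists_cov (hn : 4 ≤ n) {N : ℕ} {F f : PR k n} (hF : F.IsHomogeneous N) (hs : Smooth F)
    (hp : Prime F) (P : Ideal (PR k n)) [P.IsPrime]
    (hP : ∀ r ∈ P, ∀ i, homogeneousComponent i r ∈ P) (hht : P.height ≤ 2) (hFP : F ∈ P)
    (hfP : f ∈ P) (hFf : ¬ F ∣ f) :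
    ∃ (ι : Type) (_ : Fintype ι) (h g : ι → PR k n) (φ γ : ι → ℕ), Cov F N h φ ∧
      (∀ a, (g a).IsHomogeneous (γ a)) ∧ (∀ a, g a ∈ P) ∧ (∀ a, ¬ F ∣ g a) ∧
      (∀ a, ∀ p ∈ P, h a * p ∈ Ideal.span {F, g a}) ∧ ∃ a, h a ∉ P := by
  classical
  have hs' : ∀ x : {x : Fin (n + 1) → k // x ≠ 0 ∧ eval x F = 0},
      ∃ (φ γ : ℕ) (h g : PR k n), 1 ≤ φ ∧ h.IsHomogeneous φ ∧ g.IsHomogeneous γ ∧
        eval x.1 h ≠ 0 ∧ g ∈ P ∧ ¬ F ∣ g ∧ ∀ p ∈ P, h * p ∈ Ideal.span {F, g} := by
    rintro ⟨x, hx0, hxF⟩
    refine local_principal hF hp P hP hht hFP hfP hFf x hx0 hxF ?_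
    by_contra hcon
    push Not at hcon
    exact hx0 (hs x hcon)
  choose φ γ h g hφ hh hg hhx hgP hFg hloc using hs'
  have hfg : (Ideal.span (Set.range h)).FG := (isNoetherianRing_iff_ideal_fg _).1 inferInstance _
  obtain ⟨s, hsub, hspan⟩ := (Submodule.fg_span_iff_fg_span_finset_subset _).1 hfg
  have hz : ∀ a : s, ∃ z, h z = a.1 := fun a => hsub a.2
  choose z hz using hz
  have hnd : ∀ x, ¬ F ∣ h x := by
    rintro x ⟨q, hq⟩
    refine hhx x ?_
    rw [hq, map_mul, x.2.2, zero_mul]
  have hrange : Ideal.span (Set.range fun a : s => h (z a)) = Ideal.span (Set.range h) := by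
    have h1 : (Set.range fun a : s => h (z a)) = (s : Set (PR k n)) := by
      ext p
      constructor
      · rintro ⟨a, rfl⟩
        change h (z a) ∈ _
        rw [hz a]
        exact a.2
      · intro hp
        exact ⟨⟨p, hp⟩, hz ⟨p, hp⟩⟩
    rw [h1]
    exact hspan.symm
  have hrad : ∀ j, ∃ M : ℕ, (X j : PR k n) ^ M ∈
      Ideal.span (Set.range fun a : s => h (z a)) ⊔ Ideal.span {F} := by
    intro j
    rw [hrange]
    have h2 : (X j : PR k n) ∈ (Ideal.span (Set.range h) ⊔ Ideal.span {F}).radical := by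
      rw [← vanishingIdeal_zeroLocus_eq_radical (K := k), mem_vanishingIdeal_iff]
      intro x hx
      rw [mem_zeroLocus_iff] at hx
      have hxF : eval x F = 0 := by
        have h3 := hx F (Ideal.mem_sup_right (Ideal.subset_span rfl))
        rwa [aeval_eq_eval] at h3
      have hx0 : x = 0 := by
        by_contra hx0
        have h3 := hx (h ⟨x, hx0, hxF⟩)
          (Ideal.mem_sup_left (Ideal.subset_span (Set.mem_range_self _)))
        rw [aeval_eq_eval] at h3
        exact hhx ⟨x, hx0, hxF⟩ h3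
      rw [aeval_X, hx0]
      rfl
    exact h2
  refine ⟨s, inferInstance, fun a => h (z a), fun a => g (z a), fun a => φ (z a),
    fun a => γ (z a), ⟨hF, hp, fun a => hh _, fun a => hφ _, fun a => hnd _, hrad⟩,
    fun a => hg _, fun a => hgP _, fun a => hFg _, fun a => hloc _, ?_⟩
  by_contra hcon
  push Not at hcon
  have hle : Ideal.span (Set.range fun a : s => h (z a)) ⊔ Ideal.span {F} ≤ P := by
    refine sup_le ?_ ?_
    · rw [Ideal.span_le]
      rintro _ ⟨a, rfl⟩
      exact hcon a
    · rw [Ideal.span_le]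
      rintro _ rfl
      exact hFP
  have hX : ∀ j, (X j : PR k n) ∈ P := by
    intro j
    obtain ⟨M, hM⟩ := hrad j
    exact Ideal.IsPrime.mem_of_pow_mem inferInstance M (hle hM)
  have h1 := Ideal.height_mono (U20_ker_le P hX)
  have h2 := (height_ker_eval (0 : Fin (n + 1) → k)).trans (h1.trans hht)
  rw [Fintype.card_fin] at h2
  have h3 : n + 1 ≤ 2 := by exact_mod_cast h2
  omega

end Q9
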