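import Pool.Agent.LibQ9.U12b
import Pool.Agent.LibQ9.U20

/-!
[Q9 U21] (MEDIUM; may cite U1a, U1b, U1c, U3, U12b, U20 as stated) A homogeneous height two prime containing the smooth form `F` is `(F, G)`.

PLAN. Covering from `exists_cov`. `h b * g a ∈ span {F, g b}`: `h b * g a = α a b * g b + β * F`; taking components of degree `φ b + γ a` we may take `α a b` homogeneous of degree `φ b + γ a - γ b` (`0` if this is negative, impossible since `F` does not divide `h b * g a`). Put
`u a b = em (α a b) / em (h b)` : in `Lo (h a * h b)`, degree `γ a - γ b = d a - d b` with `d a = γ a`, and `u a b - em (g a) / em (g b) ∈ FV hp 1` (`g b ∉ (F)`). So `Coc hp h d 1 u` : `(g a / g b) (g b / g c) = g a / g c`. `pic_trivial`: `m`, `s`, `s'`.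
`c a = em (g a) * s' a`: in `Lo (h a)`, degree `γ a - (m + γ a) = - m`, `c a - c b ∈ FV hp 1` (multiply by the unit `s a * s b`: `s a * em (g b) - s b * em (g a) ∈ FV hp 1` from `s a - u a b * s b ∈ FV hp 1`). `cech0` with `K = 1`: `G` with `c a - em G ∈ FV hp 1`, `em G ∈ Hg (-m)`;
`G ≠ 0` modulo `F`: `em G * s a - em (g a) ∈ FV hp 1` and `¬ F ∣ g a`. So `G` is homogeneous of some degree `e` (`hg_em_iff`). `G ∈ P`: take `a` with `h a ∉ P`, `em (h a ^ t) * s' a = em r`: `h a ^ t * G - g a * r` is divisible by `F` (`fv_em`), so in `P`. `P ≤ span {F, G}`: for `p ∈ P`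
homogeneous of degree `δ` (enough, `hP`): `h a * p = α g a + β F` (homogeneous `α`), `c a = em α * s a / em (h a)`, in `Lo (h a)`, degree `δ + m`; `c a * em G - em p ∈ FV hp 1` so `c a - c b ∈ FV hp 1` (`fv_cancel` with `G`), `cech0`: `em e' - c a ∈ FV hp 1`, so `F ∣ p - e' * G`
(`fv_em`). (One index `a` is enough at the end; `ι` is nonempty.)
-/

set_option autoImplicit false

namespace Q9

open MvPolynomial

variable {k : Type} [Field k] [IsAlgClosed k] {n : ℕ}

private theorem U21_mul0 {F : PR k n} (hp : Prime F) {v w : KR k n} (hv : v ∈ FV hp 0)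
    (hw : w ∈ FV hp 1) : v * w ∈ FV hp 1 := by
  have h1 := fv_mul hp hv hw
  rwa [Nat.zero_add] at h1

private theorem U21_em0 {F : PR k n} (hp : Prime F) (r : PR k n) : em r ∈ FV hp 0 :=
  (fv_em hp).2 (by rw [pow_zero]; exact one_dvd _)

private theorem U21_em1 {F : PR k n} (hp : Prime F) {r : PR k n} (hr : ¬ F ∣ r) :
    em r ∉ FV hp 1 := by
  intro h
  exact hr (by simpa using (fv_em hp).1 h)

private theorem U21_of_dvd {F : PR k n} (hp : Prime F) {r : PR k n} (hr : F ∣ r) :
    em r ∈ FV hp 1 := (fv_em hp).2 (by simpa using hr)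

/-- homogeneous division of an element of `span {F, w}` -/
private theorem U21_split {F w r : PR k n} {N ω δ : ℕ} (hF : F.IsHomogeneous N)
    (hw : w.IsHomogeneous ω) (hr : r.IsHomogeneous δ) (h : r ∈ Ideal.span {F, w}) :
    ∃ α : PR k n, em α ∈ Hg ((δ : ℤ) - ω) ∧ F ∣ r - w * α := by
  have hI : ∀ q ∈ Ideal.span {F}, ∀ i, homogeneousComponent i q ∈ Ideal.span {F} :=
    hom_span (S := {F}) (by
      intro q hq
      rw [Set.mem_singleton_iff] at hq
      exact ⟨N, hq ▸ hF⟩)
  have h' : r ∈ Ideal.span {F} ⊔ Ideal.span {w} := by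
    rwa [Ideal.span_insert] at h
  obtain ⟨i, hi, α, -, hα, he⟩ := hom_split hI hw (hg_em hr) h'
  refine ⟨α, hα, ?_⟩
  have h1 : r - w * α = i := by rw [he]; ring
  rw [h1]
  exact Ideal.mem_span_singleton.1 hi

/-- the transition functions -/
private theorem U21_trans {F : PR k n} (hp : Prime F) {N : ℕ} (hF : F.IsHomogeneous N)
    {ι : Type} {h g : ι → PR k n} {φ γ : ι → ℕ}
    (hh : ∀ a, (h a).IsHomogeneous (φ a)) (hnd : ∀ a, ¬ F ∣ h a)
    (hg : ∀ a, (g a).IsHomogeneous (γ a)) (hFg : ∀ a, ¬ F ∣ g a)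
    (hloc : ∀ a b, h b * g a ∈ Ideal.span {F, g b}) :
    ∃ u : ι → ι → KR k n, Coc hp h (fun a => (γ a : ℤ)) 1 u ∧
      ∀ a b, em (g b) * u a b - em (g a) ∈ FV hp 1 := by
  have h1 : ∀ a b, ∃ α : PR k n, em α ∈ Hg (((φ b + γ a : ℕ) : ℤ) - γ b) ∧
      F ∣ h b * g a - g b * α := fun a b =>
    U21_split hF (hg b) ((hh b).mul (hg a)) (hloc a b)
  choose α hα hαd using h1
  have hh0 : ∀ a, h a ≠ 0 := fun a h0 => hnd a (h0 ▸ dvd_zero F)
  have hLo : ∀ a b, em (α a b) / em (h b) ∈ Lo (h a * h b) := by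
    intro a b
    refine lo_of_dvd (Dvd.intro_left (h a) rfl) ?_
    have h2 := lo_div (hh0 b) (α a b) 1
    rwa [pow_one] at h2
  have hE : ∀ a b, em (g b) * (em (α a b) / em (h b)) - em (g a) ∈ FV hp 1 := by
    intro a b
    have h3 : em (h b) * (em (g b) * (em (α a b) / em (h b)) - em (g a)) ∈ FV hp 1 := by
      have h4 : em (h b) * (em (g b) * (em (α a b) / em (h b)) - em (g a))
          = - em (h b * g a - g b * α a b) := by
        have h5 : em (h b) ≠ 0 := em_ne (hh0 b)
        rw [map_sub, map_mul, map_mul]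
        field_simp
        ring
      rw [h4]
      exact neg_mem (U21_of_dvd hp (hαd a b))
    exact fv_cancel hp (U21_em0 hp _) (U21_em1 hp (hnd b)) h3
  refine ⟨fun a b => em (α a b) / em (h b), ⟨hLo, ?_, ?_, ?_⟩, hE⟩
  · intro a b
    have h6 := hg_mul (hα a b) (hg_inv (hg_em (hh b)))
    rw [← div_eq_mul_inv] at h6
    have h7 : ((φ b + γ a : ℕ) : ℤ) - γ b + -(φ b : ℤ) = (γ a : ℤ) - γ b := by
      push_cast
      ring
    rwa [h7] at h6
  · intro a b c
    set uab := em (α a b) / em (h b) with huab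
    set ubc := em (α b c) / em (h c) with hubc
    set uac := em (α a c) / em (h c) with huac
    have h8 : uab ∈ FV hp 0 := fv_lo hp (not_dvd_mul hp (hnd a) (hnd b)) (hLo a b)
    have h9 : em (g c) * (uab * ubc - uac) ∈ FV hp 1 := by
      have h10 : em (g c) * (uab * ubc - uac) = uab * (em (g c) * ubc - em (g b))
          + (em (g b) * uab - em (g a)) - (em (g c) * uac - em (g a)) := by ring
      rw [h10]
      exact sub_mem (add_mem (U21_mul0 hp h8 (hE b c)) (hE a b)) (hE a c)
    exact fv_cancel hp (U21_em0 hp _) (U21_em1 hp (hFg c)) h9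
  · intro a
    have h11 : em (g a) * (em (α a a) / em (h a) - 1) ∈ FV hp 1 := by
      have h12 := hE a a
      rwa [show em (g a) * (em (α a a) / em (h a) - 1)
        = em (g a) * (em (α a a) / em (h a)) - em (g a) by ring]
    exact fv_cancel hp (U21_em0 hp _) (U21_em1 hp (hFg a)) h11

theorem prime_principal (hn : 4 ≤ n) {N : ℕ} {F f : PR k n} (hF : F.IsHomogeneous N)
    (hs : Smooth F) (hp : Prime F) (P : Ideal (PR k n)) [P.IsPrime]
    (hP : ∀ r ∈ P, ∀ i, homogeneousComponent i r ∈ P) (hht : P.height ≤ 2) (hFP : F ∈ P)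
    (hfP : f ∈ P) (hFf : ¬ F ∣ f) :
    ∃ (e : ℕ) (G : PR k n), G.IsHomogeneous e ∧ ¬ F ∣ G ∧ P = Ideal.span {F, G} := by
  haveI : Infinite k := IsAlgClosed.instInfinite
  obtain ⟨ι, hι, h, g, φ, γ, hC, hg, hgP, hFg, hloc, a₀, ha₀⟩ :=
    exists_cov hn hF hs hp P hP hht hFP hfP hFf
  have hh0 : ∀ a, h a ≠ 0 := fun a h0 => hC.nd a (h0 ▸ dvd_zero F)
  obtain ⟨u, hu, hE⟩ := U21_trans hp hF hC.hh hC.nd hg hFg fun a b => hloc b (g a) (hgP a)
  obtain ⟨m, s, s', hs1, hs1', hs2, hs2', hsu, hss⟩ := pic_trivial hn hC hu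
  have hs0 : ∀ a, s a ∈ FV hp 0 := fun a => fv_lo hp (hC.nd a) (hs1 a)
  have hs0' : ∀ a, s' a ∈ FV hp 0 := fun a => fv_lo hp (hC.nd a) (hs1' a)
  have hsn : ∀ a, s a ∉ FV hp 1 := by
    intro a ha
    refine fv_one hp ?_
    have h1 : (1 : KR k n) = s' a * s a - (s a * s' a - 1) := by ring
    rw [h1]
    exact sub_mem (U21_mul0 hp (hs0' a) ha) (hss a)
  -- the form `G`
  have hcG : ∀ a b, em (g a) * s' a - em (g b) * s' b ∈ FV hp 1 := by
    intro a b
    have h1 : s a * (s b * (em (g a) * s' a - em (g b) * s' b)) ∈ FV hp 1 := by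
      have h2 : s a * (s b * (em (g a) * s' a - em (g b) * s' b)) =
          (s b * em (g a)) * (s a * s' a - 1) - (s a * em (g b)) * (s b * s' b - 1)
          - (em (g b) * (s a - u a b * s b) + s b * (em (g b) * u a b - em (g a))) := by ring
      rw [h2]
      have h3 : s b * em (g a) ∈ FV hp 0 := by
        have := fv_mul hp (hs0 b) (U21_em0 hp (g a))
        rwa [Nat.zero_add] at this
      have h4 : s a * em (g b) ∈ FV hp 0 := by
        have := fv_mul hp (hs0 a) (U21_em0 hp (g b))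
        rwa [Nat.zero_add] at this
      exact sub_mem (sub_mem (U21_mul0 hp h3 (hss a)) (U21_mul0 hp h4 (hss b)))
        (add_mem (U21_mul0 hp (U21_em0 hp _) (hsu a b)) (U21_mul0 hp (hs0 b) (hE a b)))
    exact fv_cancel hp (hs0 b) (hsn b) (fv_cancel hp (hs0 a) (hsn a) h1)
  obtain ⟨G, hGd, hG⟩ := cech0 hp hn hC 1 (-m) (fun a => em (g a) * s' a)
    (fun a => lo_mul (em_mem_lo (h a) (g a)) (hs1' a))
    (fun a => by
      have h1 := hg_mul (hg_em (hg a)) (hs2' a)
      have h2 : (γ a : ℤ) + -(m + (γ a : ℤ)) = -m := by ring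
      rwa [h2] at h1) hcG
  have hGs : ∀ a, em G * s a - em (g a) ∈ FV hp 1 := by
    intro a
    have h1 : em G * s a - em (g a) = em (g a) * (s a * s' a - 1)
        - s a * (em (g a) * s' a - em G) := by ring
    rw [h1]
    exact sub_mem (U21_mul0 hp (U21_em0 hp _) (hss a)) (U21_mul0 hp (hs0 a) (hG a))
  have hFG : ¬ F ∣ G := by
    intro hd
    refine hFg a₀ ?_
    have h1 : em (g a₀) ∈ FV hp 1 := by
      have h2 : em (g a₀) = s a₀ * em G - (em G * s a₀ - em (g a₀)) := by ring
      rw [h2]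
      exact sub_mem (U21_mul0 hp (hs0 a₀) (U21_of_dvd hp hd)) (hGs a₀)
    simpa using (fv_em hp).1 h1
  have hG0 : G ≠ 0 := fun h0 => hFG (h0 ▸ dvd_zero F)
  obtain ⟨e, he, hGe⟩ : ∃ e : ℕ, (e : ℤ) = -m ∧ G.IsHomogeneous e := by
    rcases hg_em_iff hGd with h0 | h0
    · exact absurd h0 hG0
    · exact h0
  have hGP : G ∈ P := by
    obtain ⟨t, r, hr⟩ := mem_lo.1 (hs1' a₀)
    have h1 : em (g a₀ * r - h a₀ ^ t * G) ∈ FV hp 1 := by
      have h2 : em (g a₀ * r - h a₀ ^ t * G) = em (h a₀ ^ t) * (em (g a₀) * s' a₀ - em G) := by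
        rw [map_sub, map_mul, map_mul, ← hr]
        ring
      rw [h2]
      exact U21_mul0 hp (U21_em0 hp _) (hG a₀)
    have h3 : F ∣ g a₀ * r - h a₀ ^ t * G := by simpa using (fv_em hp).1 h1
    have h4 : g a₀ * r - h a₀ ^ t * G ∈ P := P.mem_of_dvd h3 hFP
    have h5 : h a₀ ^ t * G ∈ P := by
      have h6 : h a₀ ^ t * G = g a₀ * r - (g a₀ * r - h a₀ ^ t * G) := by ring
      rw [h6]
      exact P.sub_mem (P.mul_mem_right _ (hgP a₀)) h4
    rcases (inferInstance : P.IsPrime).mem_or_mem h5 with h7 | h7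
    · exact absurd ((inferInstance : P.IsPrime).mem_of_pow_mem t h7) ha₀
    · exact h7
  -- `P` is generated by `F` and `G`
  have hmain : ∀ (δ : ℕ) (p : PR k n), p.IsHomogeneous δ → p ∈ P → p ∈ Ideal.span {F, G} := by
    intro δ p hpd hpP
    have h1 : ∀ a, ∃ α : PR k n, em α ∈ Hg (((φ a + δ : ℕ) : ℤ) - γ a) ∧
        F ∣ h a * p - g a * α := fun a =>
      U21_split hF (hg a) ((hC.hh a).mul hpd) (hloc a p hpP)
    choose α hα hαd using h1
    have hcm : ∀ a, em (α a) / em (h a) * s a * em G - em p ∈ FV hp 1 := by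
      intro a
      have h2 : em (h a) * (em (α a) / em (h a) * s a * em G - em p) ∈ FV hp 1 := by
        have h3 : em (h a) * (em (α a) / em (h a) * s a * em G - em p) =
            em (α a) * (em G * s a - em (g a)) - em (h a * p - g a * α a) := by
          have h5 : em (h a) ≠ 0 := em_ne (hh0 a)
          rw [map_sub, map_mul, map_mul]
          field_simp
          ring
        rw [h3]
        exact sub_mem (U21_mul0 hp (U21_em0 hp _) (hGs a)) (U21_of_dvd hp (hαd a))
      exact fv_cancel hp (U21_em0 hp _) (U21_em1 hp (hC.nd a)) h2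
    obtain ⟨e', -, he'⟩ := cech0 hp hn hC 1 ((δ : ℤ) + m)
      (fun a => em (α a) / em (h a) * s a)
      (fun a => lo_mul (by
        have h2 := lo_div (hh0 a) (α a) 1
        rwa [pow_one] at h2) (hs1 a))
      (fun a => by
        have h2 := hg_mul (hg_mul (hα a) (hg_inv (hg_em (hC.hh a)))) (hs2 a)
        rw [← div_eq_mul_inv] at h2
        have h3 : ((φ a + δ : ℕ) : ℤ) - γ a + -(φ a : ℤ) + (m + (γ a : ℤ)) = (δ : ℤ) + m := by
          push_cast
          ring
        rwa [h3] at h2)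
      (fun a b => by
        have h2 : em G * (em (α a) / em (h a) * s a - em (α b) / em (h b) * s b) ∈ FV hp 1 := by
          have h3 : em G * (em (α a) / em (h a) * s a - em (α b) / em (h b) * s b) =
              (em (α a) / em (h a) * s a * em G - em p)
              - (em (α b) / em (h b) * s b * em G - em p) := by ring
          rw [h3]
          exact sub_mem (hcm a) (hcm b)
        exact fv_cancel hp (U21_em0 hp _) (U21_em1 hp hFG) h2)
    have h6 : em (p - e' * G) ∈ FV hp 1 := by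
      have h7 : em (p - e' * G) = em G * (em (α a₀) / em (h a₀) * s a₀ - em e')
          - (em (α a₀) / em (h a₀) * s a₀ * em G - em p) := by
        rw [map_sub, map_mul]
        ring
      rw [h7]
      exact sub_mem (U21_mul0 hp (U21_em0 hp _) (he' a₀)) (hcm a₀)
    have h8 : F ∣ p - e' * G := by simpa using (fv_em hp).1 h6
    have h9 : p = (p - e' * G) + e' * G := by ring
    rw [h9]
    refine Ideal.add_mem _ (Ideal.mem_of_dvd _ h8 (Ideal.subset_span (by simp)))
      (Ideal.mul_mem_left _ _ (Ideal.subset_span (by simp)))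
  refine ⟨e, G, hGe, hFG, le_antisymm ?_ ?_⟩
  · intro p hpP
    rw [← sum_homogeneousComponent p]
    exact Ideal.sum_mem _ fun i _ =>
      hmain i _ (homogeneousComponent_isHomogeneous i p) (hP p hpP i)
  · rw [Ideal.span_le]
    intro q hq
    rcases hq with hq | hq
    · rw [hq]
      exact hFP
    · rw [Set.mem_singleton_iff] at hq
      rw [hq]
      exact hGP

end Q9
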