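import Pool.Agent.LibQ9.U2p

/-!
[Q9 U2a] (MEDIUM; may cite U1a, U1b, U2p as stated) Cech cohomology in degree 0: global sections of the quotient, induction step of the depth.

PLAN. Let `c` be a homogeneous 0-cocycle modulo `I`. Choose `K` such that `em (h e ^ K) * c e = em (r e)` (all `e`) and `em (h e ^ K) * (c a - c e) ∈ LoI I (h a)` (all `a, e`; `loI_mul_left`). Partition of unity:
`w ^ S = Σ_e g e * h e ^ K + i`. With `E = Σ_e g e * r e ∈ PR`: `em (w ^ S) * c a - em E = Σ_e em (g e) * em (h e ^ K) * (c a - c e) + em i * c a ∈ LoI I (h a)`, and `E` is homogeneous of degree `δ + S ω` (as a rational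
function: `em (h e ^ K) * c e` has degree `K φ e + δ`). Now descend: claim for every `S` : if `em (w ^ S) * c a - em E ∈ LoI I (h a)` for all `a`, `em E ∈ Hg (δ + S ω)`, then there is such an `E` for `S = 0`. If `S ≥ 1`:
`em E ∈ LoI (I ⊔ span {w}) (h a)` for all `a`, so `E ∈ I ⊔ span {w}` (`CM`), `E = i + w E'` homogeneous (`hom_split`), `em w * (em (w ^ (S-1)) * c a - em E') ∈ LoI I (h a)`, `loI_reg`, induction.
-/

set_option autoImplicit false

namespace Q9

open MvPolynomial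

variable {k : Type} [Field k] {n : ℕ} {ι : Type} [Fintype ι]

omit [Fintype ι] in
private theorem U2a_desc {I : Ideal (PR k n)} (hI : ∀ r ∈ I, ∀ i, homogeneousComponent i r ∈ I)
    {h : ι → PR k n} {w : PR k n} {ω : ℕ} (hw : w.IsHomogeneous ω)
    (hreg : ∀ r, w * r ∈ I → r ∈ I) (H : CM (I ⊔ Ideal.span {w}) h) (δ : ℤ) (c : ι → KR k n)
    (hc : ∀ a, c a ∈ Lo (h a)) (S : ℕ) : ∀ E : PR k n, em E ∈ Hg (δ + S * ω) →
    (∀ a, em (w ^ S) * c a - em E ∈ LoI I (h a)) →
    ∃ e : PR k n, em e ∈ Hg δ ∧ ∀ a, c a - em e ∈ LoI I (h a) := by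
  induction S with
  | zero =>
    intro E hE h1
    refine ⟨E, ?_, fun a => ?_⟩
    · simpa using hE
    · have := h1 a
      rwa [pow_zero, map_one, one_mul] at this
  | succ S ih =>
    intro E hE h1
    have hws : w ^ (S + 1) ∈ I ⊔ Ideal.span {w} := by
      rw [pow_succ]
      exact Ideal.mul_mem_left _ _ (Ideal.mem_sup_right (Ideal.mem_span_singleton_self w))
    have hE2 : E ∈ I ⊔ Ideal.span {w} := by
      refine H E fun a => ?_
      have a1 : c a * em (w ^ (S + 1)) ∈ LoI (I ⊔ Ideal.span {w}) (h a) :=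
        loI_mul (hc a) (em_mem_loI (h a) hws)
      have a2 := loI_mono (le_sup_left : I ≤ I ⊔ Ideal.span {w}) (h a) (h1 a)
      have a3 := Submodule.sub_mem _ a1 a2
      have e : c a * em (w ^ (S + 1)) - (em (w ^ (S + 1)) * c a - em E) = em E := by ring
      rwa [e] at a3
    obtain ⟨i, hi, E', _, hE', rfl⟩ := hom_split hI hw hE hE2
    refine ih E' ?_ fun a => ?_
    · have e : δ + ((S + 1 : ℕ) : ℤ) * ω - ω = δ + S * ω := by push_cast; ring
      rwa [e] at hE'
    · refine loI_reg hreg ?_ ?_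
      · exact Submodule.sub_mem _ (lo_mul (em_mem_lo _ _) (hc a)) (em_mem_lo _ _)
      · have b1 := Submodule.add_mem _ (h1 a) (em_mem_loI (h a) hi)
        have e : em (w ^ (S + 1)) * c a - em (i + w * E') + em i =
            em w * (em (w ^ S) * c a - em E') := by
          rw [pow_succ, map_mul, map_add, map_mul]
          ring
        rwa [e] at b1

theorem c0_step {I : Ideal (PR k n)} (hI : ∀ r ∈ I, ∀ i, homogeneousComponent i r ∈ I)
    {h : ι → PR k n} {φ : ι → ℕ} (hh : ∀ a, (h a).IsHomogeneous (φ a)) (hh0 : ∀ a, h a ≠ 0)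
    {w : PR k n} {ω : ℕ} (hw : w.IsHomogeneous ω) (hreg : ∀ r, w * r ∈ I → r ∈ I)
    (hr : w ∈ (Ideal.span (Set.range h) ⊔ I).radical) (H : CM (I ⊔ Ideal.span {w}) h) :
    C0 I h := by
  classical
  intro δ c hc hd hcc
  have h1 : ∀ e, ∃ s₀ : ℕ, ∀ s, s₀ ≤ s → ∃ r, em (h e ^ s) * c e = em r := by
    intro e
    obtain ⟨s, r, hr⟩ := mem_lo.1 (hc e)
    refine ⟨s, fun t ht => ⟨h e ^ (t - s) * r, ?_⟩⟩
    have ht' : t = (t - s) + s := by omega
    rw [map_mul, ← hr, ← mul_assoc, ← map_mul, ← pow_add, ← ht']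
  choose s1 hs1 using h1
  have h2 : ∀ a e, ∃ s₀ : ℕ, ∀ s, s₀ ≤ s → em (h e ^ s) * (c a - c e) ∈ LoI I (h a) :=
    fun a e => loI_mul_left (hcc a e)
  choose s2 hs2 using h2
  set K : ℕ := (Finset.univ.sup s1) + Finset.univ.sup (fun p : ι × ι => s2 p.1 p.2) with hK
  have hK1 : ∀ e, s1 e ≤ K := fun e =>
    le_trans (Finset.le_sup (f := s1) (Finset.mem_univ e)) (Nat.le_add_right _ _)
  have hK2 : ∀ a e, s2 a e ≤ K := fun a e =>
    le_trans (Finset.le_sup (f := fun p : ι × ι => s2 p.1 p.2) (Finset.mem_univ (a, e)))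
      (Nat.le_add_left _ _)
  have h3 : ∀ e, ∃ r, em (h e ^ K) * c e = em r := fun e => hs1 e K (hK1 e)
  choose r hr1 using h3
  obtain ⟨S, g, hg, hS⟩ := part_unity hI hh hw hr K
  refine U2a_desc hI hw hreg H δ c hc S (∑ e, g e * r e) ?_ fun a => ?_
  · rw [map_sum]
    refine Submodule.sum_mem _ fun e _ => ?_
    rw [map_mul, ← hr1 e]
    have b1 : em (h e ^ K) * c e ∈ Hg (((φ e * K : ℕ) : ℤ) + δ) := hg_mul (hg_em ((hh e).pow K)) (hd e)
    have b2 := hg_mul (hg e) b1
    have e1 : ((S : ℤ) * ω - K * φ e + (((φ e * K : ℕ) : ℤ) + δ)) = δ + S * ω := by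
      push_cast
      ring
    rwa [e1] at b2
  · have b1 : ∑ e, em (g e) * (em (h e ^ K) * (c a - c e)) ∈ LoI I (h a) := by
      refine Submodule.sum_mem _ fun e _ => ?_
      have := (LoI I (h a)).smul_mem (g e) (hs2 a e K (hK2 a e))
      rwa [Algebra.smul_def] at this
    have b2 : c a * em (w ^ S - ∑ e, g e * h e ^ K) ∈ LoI I (h a) :=
      loI_mul (hc a) (em_mem_loI (h a) hS)
    have b3 := Submodule.add_mem _ b1 b2
    have e1 : ∑ e, em (g e) * (em (h e ^ K) * (c a - c e)) + c a * em (w ^ S - ∑ e, g e * h e ^ K) =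
        em (w ^ S) * c a - em (∑ e, g e * r e) := by
      have e2 : ∑ e, em (g e) * (em (h e ^ K) * (c a - c e)) =
          (∑ e, em (g e) * em (h e ^ K)) * c a - ∑ e, em (g e) * em (r e) := by
        rw [Finset.sum_mul, ← Finset.sum_sub_distrib]
        refine Finset.sum_congr rfl fun e _ => ?_
        rw [← hr1 e]
        ring
      rw [e2, map_sub, map_sum, map_sum]
      simp only [map_mul]
      ring
    rwa [e1] at b3

end Q9
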