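import Pool.Agent.LibQ9.U2p

/-!
[Q9 U2b] (MEDIUM; may cite U1a, U1b, U2p as stated) Cech cohomology in degree 1, induction step of the depth.

PLAN. Let `c a b` be a homogeneous 1-cocycle modulo `I`. Choose `K` such that for all `a, b, e`: `em (h e ^ K) * c a e ∈ Lo (h a)` and `em (h e ^ K) * (c a b + c b e - c a e) ∈ LoI I (h a * h b)` (`loI_mul_left`; finitely many
conditions). Partition of unity `w ^ S = Σ_e g e * h e ^ K + i`. With `b a = Σ_e em (g e * h e ^ K) * c a e`: `em (w ^ S) * c a a' - (b a - b a') ∈ LoI I (h a * h a')`, `b a ∈ Lo (h a)` homogeneous of degree `δ + S ω`.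
Descend on `S`: if `S ≥ 1` then `b a - b a' ∈ LoI (I ⊔ span {w}) (h a * h a')`, so by `C0 (I ⊔ span {w}) h` there is `e ∈ PR` homogeneous of degree `δ + S ω` with `b a - em e ∈ LoI (I ⊔ span {w}) (h a)`, i.e. (`hg_split`)
`b a - em e = i a + em w * b' a`, `i a ∈ LoI I (h a)`, `b' a ∈ Lo (h a)` of degree `δ + (S-1) ω`. Then `em w * (em (w ^ (S-1)) * c a a' - (b' a - b' a')) ∈ LoI I (h a * h a')`; `loI_reg`; induction. At `S = 0` we have
the claim. (The statement to be proved by induction on `S`: `∀ S b, [b a ∈ Lo (h a), b a ∈ Hg (δ + S ω), em (w ^ S) * c a a' - (b a - b a') ∈ LoI I (h a * h a')] → conclusion`.)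
-/

set_option autoImplicit false

namespace Q9

open MvPolynomial

variable {k : Type} [Field k] {n : ℕ} {ι : Type} [Fintype ι]

private theorem U2b_em {I : Ideal (PR k n)} {f : PR k n} {v : KR k n} (c : PR k n) (hv : v ∈ LoI I f) :
    em c * v ∈ LoI I f := by
  have h := (LoI I f).smul_mem c hv
  rwa [Algebra.smul_def] at h

private theorem U2b_desc {I : Ideal (PR k n)} (hI : ∀ r ∈ I, ∀ i, homogeneousComponent i r ∈ I)
    {h : ι → PR k n} {φ : ι → ℕ} (hh : ∀ a, (h a).IsHomogeneous (φ a)) (hh0 : ∀ a, h a ≠ 0)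
    {w : PR k n} {ω : ℕ} (hw : w.IsHomogeneous ω) (hreg : ∀ r, w * r ∈ I → r ∈ I)
    (H : C0 (I ⊔ Ideal.span {w}) h) (δ : ℤ) (c : ι → ι → KR k n) (hc1 : ∀ a b, c a b ∈ Lo (h a * h b))
    (S : ℕ) : ∀ b : ι → KR k n, (∀ a, b a ∈ Lo (h a)) → (∀ a, b a ∈ Hg (δ + S * ω)) →
      (∀ a a', em (w ^ S) * c a a' - (b a - b a') ∈ LoI I (h a * h a')) →
    ∃ b : ι → KR k n, (∀ a, b a ∈ Lo (h a)) ∧ (∀ a, b a ∈ Hg δ) ∧
      ∀ a a', c a a' - (b a - b a') ∈ LoI I (h a * h a') := by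
  induction S with
  | zero =>
    intro b h1 h2 h3
    refine ⟨b, h1, fun a => ?_, fun a a' => ?_⟩
    · have h4 := h2 a
      rwa [Nat.cast_zero, zero_mul, add_zero] at h4
    · have h4 := h3 a a'
      rwa [pow_zero, map_one, one_mul] at h4
  | succ S ih =>
    intro b h1 h2 h3
    have hwmem : w ^ (S + 1) ∈ I ⊔ Ideal.span {w} := by
      apply Ideal.mem_sup_right
      rw [Ideal.mem_span_singleton]
      exact dvd_pow_self w (Nat.succ_ne_zero S)
    have hcoc : ∀ a a', b a - b a' ∈ LoI (I ⊔ Ideal.span {w}) (h a * h a') := by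
      intro a a'
      have h4 := loI_mono (le_sup_left : I ≤ I ⊔ Ideal.span {w}) (h a * h a') (h3 a a')
      have h5 : em (w ^ (S + 1)) * c a a' ∈ LoI (I ⊔ Ideal.span {w}) (h a * h a') := by
        rw [mul_comm (em (w ^ (S + 1)))]
        exact loI_mul (hc1 a a') (em_mem_loI _ hwmem)
      have h6 := (LoI (I ⊔ Ideal.span {w}) (h a * h a')).sub_mem h5 h4
      rwa [sub_sub_cancel] at h6
    obtain ⟨e, he, hbe⟩ := H (δ + (S + 1 : ℕ) * ω) b h1 h2 hcoc
    have hsplit : ∀ a, ∃ v₁ ∈ LoI I (h a), ∃ v₂ ∈ Lo (h a), v₁ ∈ Hg (δ + (S + 1 : ℕ) * ω) ∧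
        v₂ ∈ Hg (δ + (S + 1 : ℕ) * ω - ω) ∧ b a - em e = v₁ + em w * v₂ := fun a =>
      hg_split hI (hh0 a) (hh a) hw (Submodule.sub_mem _ (h2 a) he) (hbe a)
    choose v₁ hv₁ v₂ hv₂ _ hd₂ hbv using hsplit
    apply ih v₂ hv₂
    · intro a
      have h4 := hd₂ a
      have h5 : δ + ((S + 1 : ℕ) : ℤ) * ω - ω = δ + (S : ℤ) * ω := by
        push_cast
        ring
      rwa [h5] at h4
    · intro a a'
      apply loI_reg hreg
      · refine Submodule.sub_mem _ (U2b_em _ (hc1 a a')) (Submodule.sub_mem _ ?_ ?_)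
        · exact lo_of_dvd (dvd_mul_right _ _) (hv₂ a)
        · exact lo_of_dvd (dvd_mul_left _ _) (hv₂ a')
      · have h4 : em w * (em (w ^ S) * c a a' - (v₂ a - v₂ a')) =
            (em (w ^ (S + 1)) * c a a' - (b a - b a')) + (v₁ a - v₁ a') := by
          have e1 := hbv a
          have e2 := hbv a'
          rw [pow_succ, map_mul]
          linear_combination e1 - e2
        rw [h4]
        exact Submodule.add_mem _ (h3 a a') (Submodule.sub_mem _
          (loI_of_dvd (dvd_mul_right _ _) (hv₁ a)) (loI_of_dvd (dvd_mul_left _ _) (hv₁ a')))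

theorem c1_step {I : Ideal (PR k n)} (hI : ∀ r ∈ I, ∀ i, homogeneousComponent i r ∈ I)
    {h : ι → PR k n} {φ : ι → ℕ} (hh : ∀ a, (h a).IsHomogeneous (φ a)) (hh0 : ∀ a, h a ≠ 0)
    {w : PR k n} {ω : ℕ} (hw : w.IsHomogeneous ω) (hreg : ∀ r, w * r ∈ I → r ∈ I)
    (hr : w ∈ (Ideal.span (Set.range h) ⊔ I).radical) (H : C0 (I ⊔ Ideal.span {w}) h) :
    C1 I h := by
  intro δ c hc1 hc2 hc3
  choose s0 hs0 using fun a e => loI_mul_left (I := (⊤ : Ideal (PR k n))) (hc1 a e)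
  choose s1 hs1 using fun a b e => loI_mul_left (hc3 a b e)
  obtain ⟨K0, hK0⟩ := Finite.exists_le (fun p : ι × ι => s0 p.1 p.2)
  obtain ⟨K1, hK1⟩ := Finite.exists_le (fun p : ι × ι × ι => s1 p.1 p.2.1 p.2.2)
  obtain ⟨K, hKa, hKb⟩ : ∃ K, K0 ≤ K ∧ K1 ≤ K := ⟨max K0 K1, le_max_left _ _, le_max_right _ _⟩
  have hA : ∀ a e, em (h e ^ K) * c a e ∈ Lo (h a) := fun a e =>
    hs0 a e K (le_trans (hK0 (a, e)) hKa)
  have hB : ∀ a b e, em (h e ^ K) * (c a b + c b e - c a e) ∈ LoI I (h a * h b) := fun a b e =>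
    hs1 a b e K (le_trans (hK1 (a, b, e)) hKb)
  obtain ⟨S, g, hg, hgS⟩ := part_unity hI hh hw hr K
  obtain ⟨i, hi, hiS⟩ : ∃ i ∈ I, w ^ S = ∑ e, g e * h e ^ K + i :=
    ⟨_, hgS, by ring⟩
  apply U2b_desc hI hh hh0 hw hreg H δ c hc1 S (fun a => ∑ e, em (g e * h e ^ K) * c a e)
  · intro a
    refine Submodule.sum_mem _ fun e _ => ?_
    rw [map_mul, mul_assoc]
    exact U2b_em _ (hA a e)
  · intro a
    refine Submodule.sum_mem _ fun e _ => ?_
    have h1 : em (h e ^ K) ∈ Hg ((K : ℤ) * φ e) := by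
      have h2 := hg_em ((hh e).pow K)
      have h3 : ((φ e * K : ℕ) : ℤ) = (K : ℤ) * φ e := by
        push_cast
        ring
      rwa [h3] at h2
    have h4 := hg_mul (hg_mul (hg e) h1) (hc2 a e)
    rw [← map_mul] at h4
    have h5 : (S : ℤ) * ω - K * φ e + K * φ e + δ = δ + S * ω := by ring
    rwa [h5] at h4
  · intro a a'
    have h1 : em (w ^ S) * c a a' - (∑ e, em (g e * h e ^ K) * c a e - ∑ e, em (g e * h e ^ K) * c a' e) =
        c a a' * em i + ∑ e, em (g e) * (em (h e ^ K) * (c a a' + c a' e - c a e)) := by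
      rw [hiS, map_add, map_sum, add_mul, Finset.sum_mul, ← Finset.sum_sub_distrib]
      have h2 : ∑ e, em (g e) * (em (h e ^ K) * (c a a' + c a' e - c a e)) =
          ∑ e, em (g e * h e ^ K) * c a a' -
            ∑ e, (em (g e * h e ^ K) * c a e - em (g e * h e ^ K) * c a' e) := by
        rw [← Finset.sum_sub_distrib]
        refine Finset.sum_congr rfl fun e _ => ?_
        rw [map_mul]
        ring
      rw [h2]
      ring
    rw [h1]
    refine Submodule.add_mem _ (loI_mul (hc1 a a') (em_mem_loI _ hi)) (Submodule.sum_mem _ fun e _ => ?_)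
    exact U2b_em _ (hB a a' e)

end Q9
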