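import Pool.Agent.LibQ9.U2p

/-!
[Q9 U2c] (MEDIUM; may cite U1a, U1b, U2p as stated) Cech cohomology in degree 2, induction step of the depth.

PLAN. Let `c a b e` be a homogeneous 2-cocycle modulo `I`. Choose `K` such that for all indices `em (h f ^ K) * c a b f ∈ Lo (h a * h b)` and
`em (h f ^ K) * (c b e f - c a e f + c a b f - c a b e) ∈ LoI I (h a * h b * h e)` (`loI_mul_left`). Partition of unity `w ^ S = Σ_f g f * h f ^ K + i`. With `b a a' = Σ_f em (g f * h f ^ K) * c a a' f`: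
`em (w ^ S) * c a a' e - (b a' e - b a e + b a a') ∈ LoI I (h a * h a' * h e)`, `b a a' ∈ Lo (h a * h a')` homogeneous of degree `δ + S ω`. Descend on `S`: if `S ≥ 1` then
`b a a' + b a' e - b a e ∈ LoI (I ⊔ span {w}) (h a * h a' * h e)`, so by `C1 (I ⊔ span {w}) h` there are `g a ∈ Lo (h a)` homogeneous of degree `δ + S ω` with `b a a' - (g a - g a') ∈ LoI (I ⊔ span {w}) (h a * h a')`,
i.e. (`hg_split`) `b a a' - (g a - g a') = i a a' + em w * b' a a'`; the contributions of `g` cancel in `b a' e - b a e + b a a'`, so `em w * (em (w ^ (S-1)) * c a a' e - (b' a' e - b' a e + b' a a')) ∈ LoI I (..)`;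
`loI_reg`; induction on `S` as in U2b.
-/

set_option autoImplicit false

namespace Q9

open MvPolynomial

variable {k : Type} [Field k] {n : ℕ} {ι : Type} [Fintype ι]

/-- clearing the denominators of finitely many elements -/
private theorem U2c_clear {κ : Type} [Fintype κ] {I : Ideal (PR k n)} (F G : κ → PR k n)
    (v : κ → KR k n) (hv : ∀ x, v x ∈ LoI I (F x * G x)) :
    ∃ K₀ : ℕ, ∀ K, K₀ ≤ K → ∀ x, em (G x ^ K) * v x ∈ LoI I (F x) := by
  classical
  choose s hs using fun x => loI_mul_left (hv x)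
  exact ⟨Finset.univ.sup s, fun K hK x =>
    hs x K (le_trans (Finset.le_sup (f := s) (Finset.mem_univ x)) hK)⟩

private theorem U2c_emul {I : Ideal (PR k n)} {f : PR k n} (r : PR k n) {v : KR k n}
    (hv : v ∈ LoI I f) : em r * v ∈ LoI I f := by
  have := Submodule.smul_mem (LoI I f) r hv
  rwa [Algebra.smul_def] at this

private theorem U2c_emul' {f : PR k n} (r : PR k n) {v : KR k n}
    (hv : v ∈ Lo f) : em r * v ∈ Lo f := U2c_emul r hv

omit [Fintype ι] in
/-- the descent on the exponent of `w` -/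
private theorem U2c_descend {I : Ideal (PR k n)}
    (hI : ∀ r ∈ I, ∀ i, homogeneousComponent i r ∈ I)
    {h : ι → PR k n} {φ : ι → ℕ} (hh : ∀ a, (h a).IsHomogeneous (φ a)) (hh0 : ∀ a, h a ≠ 0)
    {w : PR k n} {ω : ℕ} (hw : w.IsHomogeneous ω) (hreg : ∀ r, w * r ∈ I → r ∈ I)
    (H : C1 (I ⊔ Ideal.span {w}) h) (δ : ℤ) (c : ι → ι → ι → KR k n)
    (hc1 : ∀ a b e, c a b e ∈ Lo (h a * h b * h e)) (S : ℕ) :
    ∀ b : ι → ι → KR k n, (∀ a a', b a a' ∈ Lo (h a * h a')) →
      (∀ a a', b a a' ∈ Hg (δ + S * ω)) →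
      (∀ a a' e, em (w ^ S) * c a a' e - (b a' e - b a e + b a a') ∈ LoI I (h a * h a' * h e)) →
      ∃ b : ι → ι → KR k n, (∀ a a', b a a' ∈ Lo (h a * h a')) ∧ (∀ a a', b a a' ∈ Hg δ) ∧
        ∀ a a' e, c a a' e - (b a' e - b a e + b a a') ∈ LoI I (h a * h a' * h e) := by
  induction S with
  | zero =>
    intro b hb1 hb2 hb3
    refine ⟨b, hb1, fun a a' => ?_, fun a a' e => ?_⟩
    · have := hb2 a a'
      simpa using this
    · have := hb3 a a' e
      rwa [pow_zero, map_one, one_mul] at this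
  | succ S ih =>
    intro b hb1 hb2 hb3
    have hcoc : ∀ a a' e, b a a' + b a' e - b a e ∈
        LoI (I ⊔ Ideal.span {w}) (h a * h a' * h e) := by
      intro a a' e
      have h1 : em (w ^ (S + 1)) * c a a' e ∈ LoI (I ⊔ Ideal.span {w}) (h a * h a' * h e) := by
        rw [mul_comm (em (w ^ (S + 1))) (c a a' e)]
        refine loI_mul (hc1 a a' e) (em_mem_loI _ ?_)
        rw [pow_succ]
        exact Ideal.mul_mem_left _ _ (Ideal.mem_sup_right (Ideal.mem_span_singleton_self w))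
      have h2 := sub_mem h1 (loI_mono (le_sup_left : I ≤ I ⊔ Ideal.span {w}) _ (hb3 a a' e))
      have h3 : b a a' + b a' e - b a e = em (w ^ (S + 1)) * c a a' e -
          (em (w ^ (S + 1)) * c a a' e - (b a' e - b a e + b a a')) := by ring
      rw [h3]
      exact h2
    obtain ⟨g, hg1, hg2, hg3⟩ := H _ b hb1 hb2 hcoc
    have hsp : ∀ a a', ∃ v₁ ∈ LoI I (h a * h a'), ∃ v₂ ∈ Lo (h a * h a'),
        v₁ ∈ Hg (δ + ((S + 1 : ℕ) : ℤ) * ω) ∧ v₂ ∈ Hg (δ + ((S + 1 : ℕ) : ℤ) * ω - ω) ∧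
        b a a' - (g a - g a') = v₁ + em w * v₂ := by
      intro a a'
      refine hg_split hI (mul_ne_zero (hh0 a) (hh0 a')) ((hh a).mul (hh a')) hw ?_ (hg3 a a')
      exact sub_mem (hb2 a a') (sub_mem (hg2 a) (hg2 a'))
    choose v₁ hv₁ v₂ hv₂ hv₁g hv₂g hv using hsp
    refine ih v₂ hv₂ (fun a a' => ?_) (fun a a' e => ?_)
    · have h1 := hv₂g a a'
      have h2 : δ + ((S + 1 : ℕ) : ℤ) * ω - ω = δ + (S : ℤ) * ω := by
        push_cast
        ring
      rwa [h2] at h1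
    · refine loI_reg hreg ?_ ?_
      · refine sub_mem (U2c_emul' _ (hc1 a a' e)) (add_mem (sub_mem ?_ ?_) ?_)
        · exact lo_of_dvd (Dvd.intro_left (h a) (by ring)) (hv₂ a' e)
        · exact lo_of_dvd (Dvd.intro_left (h a') (by ring)) (hv₂ a e)
        · exact lo_of_dvd (Dvd.intro _ rfl) (hv₂ a a')
      · have h1 : em w * (em (w ^ S) * c a a' e - (v₂ a' e - v₂ a e + v₂ a a')) =
            (em (w ^ (S + 1)) * c a a' e - (b a' e - b a e + b a a')) +
              (v₁ a' e - v₁ a e + v₁ a a') := by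
          have e1 := hv a' e
          have e2 := hv a e
          have e3 := hv a a'
          rw [pow_succ, map_mul]
          linear_combination e1 - e2 + e3
        rw [h1]
        refine add_mem (hb3 a a' e) (add_mem (sub_mem ?_ ?_) ?_)
        · exact loI_of_dvd (Dvd.intro_left (h a) (by ring)) (hv₁ a' e)
        · exact loI_of_dvd (Dvd.intro_left (h a') (by ring)) (hv₁ a e)
        · exact loI_of_dvd (Dvd.intro _ rfl) (hv₁ a a')

theorem c2_step {I : Ideal (PR k n)} (hI : ∀ r ∈ I, ∀ i, homogeneousComponent i r ∈ I)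
    {h : ι → PR k n} {φ : ι → ℕ} (hh : ∀ a, (h a).IsHomogeneous (φ a)) (hh0 : ∀ a, h a ≠ 0)
    {w : PR k n} {ω : ℕ} (hw : w.IsHomogeneous ω) (hreg : ∀ r, w * r ∈ I → r ∈ I)
    (hr : w ∈ (Ideal.span (Set.range h) ⊔ I).radical) (H : C1 (I ⊔ Ideal.span {w}) h) :
    C2 I h := by
  intro δ c hc1 hc2 hc3
  obtain ⟨K₁, hK₁⟩ := U2c_clear (I := (⊤ : Ideal (PR k n)))
    (fun x : ι × ι × ι => h x.1 * h x.2.1) (fun x => h x.2.2)
    (fun x => c x.1 x.2.1 x.2.2) (fun x => hc1 x.1 x.2.1 x.2.2)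
  obtain ⟨K₂, hK₂⟩ := U2c_clear (I := I)
    (fun x : ι × ι × ι × ι => h x.1 * h x.2.1 * h x.2.2.1) (fun x => h x.2.2.2)
    (fun x => c x.2.1 x.2.2.1 x.2.2.2 - c x.1 x.2.2.1 x.2.2.2 + c x.1 x.2.1 x.2.2.2 -
      c x.1 x.2.1 x.2.2.1) (fun x => hc3 x.1 x.2.1 x.2.2.1 x.2.2.2)
  obtain ⟨S, g, hgd, hsum⟩ := part_unity hI hh hw hr (max K₁ K₂)
  set K := max K₁ K₂ with hK
  refine U2c_descend hI hh hh0 hw hreg H δ c hc1 S
    (fun a a' => ∑ f, em (g f) * (em (h f ^ K) * c a a' f)) ?_ ?_ ?_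
  · intro a a'
    refine sum_mem fun f _ => U2c_emul' _ ?_
    exact hK₁ K (le_max_left _ _) (a, a', f)
  · intro a a'
    refine sum_mem fun f _ => ?_
    have h1 : em (h f ^ K) ∈ Hg (((φ f * K : ℕ)) : ℤ) := hg_em ((hh f).pow K)
    have h2 := hg_mul (hgd f) (hg_mul h1 (hc2 a a' f))
    have h3 : (S : ℤ) * ω - K * φ f + (((φ f * K : ℕ) : ℤ) + δ) = δ + S * ω := by
      push_cast
      ring
    rwa [h3] at h2
  · intro a a' e
    have h1 : em (w ^ S) * c a a' e -
        ((∑ f, em (g f) * (em (h f ^ K) * c a' e f)) - (∑ f, em (g f) * (em (h f ^ K) * c a e f)) +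
          ∑ f, em (g f) * (em (h f ^ K) * c a a' f)) =
        c a a' e * em (w ^ S - ∑ f, g f * h f ^ K) -
          ∑ f, em (g f) * (em (h f ^ K) * (c a' e f - c a e f + c a a' f - c a a' e)) := by
      rw [map_sub, map_sum, mul_sub, Finset.mul_sum, ← Finset.sum_sub_distrib,
        ← Finset.sum_add_distrib, sub_sub, ← Finset.sum_add_distrib, mul_comm (c a a' e)]
      congr 1
      refine Finset.sum_congr rfl fun f _ => ?_
      rw [map_mul]
      ring
    rw [h1]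
    refine sub_mem (loI_mul (hc1 a a' e) (em_mem_loI _ hsum)) (sum_mem fun f _ => U2c_emul _ ?_)
    exact hK₂ K (le_max_right _ _) (a, a', e, f)

end Q9
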