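import Pool.Agent.LibQ9.U1a
import Pool.Agent.LibQ9.U1b

/-!
[Q9 U2p] (SHORT/MEDIUM; may cite U1a, U1b as stated) Homogeneous partitions of unity.

PLAN. `h e ∈ (span (range fun e => h e ^ K) ⊔ I).radical` for every `e`, so `span (range h) ⊔ I ≤` this radical and `w ^ S = Σ g' e * h e ^ K + i` for some `S`, `i ∈ I` (`Ideal.mem_span_range_iff_exists_fun`,
`Submodule.mem_sup`). Take homogeneous components of degree `S ω`: `w ^ S` is homogeneous; the component of `g' e * h e ^ K` is `g e * h e ^ K` with `g e` = the component of `g' e` of degree `S ω - K φ e`,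
or `g e = 0` if `S ω < K φ e`; the component of `i` is in `I`. `cm_of_reg`: `em r ∈ LoI I (h a)` for all `a`, so there is one `s` with `h a ^ s * r ∈ I` for all `a`; `w ^ S * r ∈ I` by the partition (only `w` in the
radical is used), and `w` is regular modulo `I`.
-/

set_option autoImplicit false

namespace Q9

open MvPolynomial

variable {k : Type} [Field k] {n : ℕ} {ι : Type} [Fintype ι]

private theorem U2p_comp {g H : PR k n} {m d : ℕ} (hH : H.IsHomogeneous m) :
    homogeneousComponent d (g * H) =
      if m ≤ d then homogeneousComponent (d - m) g * H else 0 := by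
  letI := MvPolynomial.gradedAlgebra (σ := Fin (n + 1)) (R := k)
  have hm : H ∈ homogeneousSubmodule (Fin (n + 1)) k m := hH
  have key : ∀ (p : PR k n) (i : ℕ),
      (DirectSum.decompose (homogeneousSubmodule (Fin (n + 1)) k) p i : PR k n) =
        homogeneousComponent i p := decomposition.decompose'_apply
  split_ifs with h
  · have h1 := DirectSum.coe_decompose_mul_of_right_mem_of_le
      (homogeneousSubmodule (Fin (n + 1)) k) (a := g) hm h
    rwa [key, key] at h1
  · have h1 := DirectSum.coe_decompose_mul_of_right_mem_of_not_le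
      (homogeneousSubmodule (Fin (n + 1)) k) (a := g) hm h
    rwa [key] at h1

theorem part_unity {I : Ideal (PR k n)} (hI : ∀ r ∈ I, ∀ i, homogeneousComponent i r ∈ I)
    {h : ι → PR k n} {φ : ι → ℕ} (hh : ∀ a, (h a).IsHomogeneous (φ a)) {w : PR k n} {ω : ℕ}
    (hw : w.IsHomogeneous ω) (hr : w ∈ (Ideal.span (Set.range h) ⊔ I).radical) (K : ℕ) :
    ∃ (S : ℕ) (g : ι → PR k n), (∀ e, em (g e) ∈ Hg ((S : ℤ) * ω - K * φ e)) ∧
      w ^ S - ∑ e, g e * h e ^ K ∈ I := by
  have h1 : Ideal.span (Set.range h) ⊔ I ≤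
      (Ideal.span (Set.range fun e => h e ^ K) ⊔ I).radical := by
    refine sup_le (Ideal.span_le.2 ?_) (le_sup_right.trans Ideal.le_radical)
    rintro _ ⟨e, rfl⟩
    exact ⟨K, Ideal.mem_sup_left (Ideal.subset_span ⟨e, rfl⟩)⟩
  have h2 : w ∈ (Ideal.span (Set.range fun e => h e ^ K) ⊔ I).radical := by
    have := Ideal.radical_mono h1 hr
    rwa [Ideal.radical_idem] at this
  obtain ⟨S, hS⟩ := h2
  obtain ⟨y, hy, i, hi, hyi⟩ := Submodule.mem_sup.1 hS
  obtain ⟨g', hg'⟩ := Ideal.mem_span_range_iff_exists_fun.1 hy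
  refine ⟨S, fun e => if K * φ e ≤ S * ω then homogeneousComponent (S * ω - K * φ e) (g' e) else 0,
    fun e => ?_, ?_⟩
  · change em (if K * φ e ≤ S * ω then homogeneousComponent (S * ω - K * φ e) (g' e) else 0) ∈ _
    split_ifs with hle
    · have h3 := hg_em (homogeneousComponent_isHomogeneous (S * ω - K * φ e) (g' e))
      have h4 : ((S * ω - K * φ e : ℕ) : ℤ) = (S : ℤ) * ω - K * φ e := by
        rw [Nat.cast_sub hle]
        push_cast
        ring
      rwa [h4] at h3
    · rw [map_zero]
      exact zero_mem _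
  · have h5 : w ^ S - ∑ e, g' e * h e ^ K ∈ I := by
      have : w ^ S - ∑ e, g' e * h e ^ K = i := by
        rw [← hyi, ← hg']
        ring
      rw [this]
      exact hi
    have h6 := hI _ h5 (S * ω)
    rw [map_sub, map_sum] at h6
    have h7 : homogeneousComponent (S * ω) (w ^ S) = w ^ S := by
      have hwS : (w ^ S).IsHomogeneous (S * ω) := by
        have := hw.pow S
        rwa [mul_comm] at this
      rw [homogeneousComponent_of_mem hwS, if_pos rfl]
    rw [h7] at h6
    have h8 : ∀ e, homogeneousComponent (S * ω) (g' e * h e ^ K) =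
        (if K * φ e ≤ S * ω then homogeneousComponent (S * ω - K * φ e) (g' e) else 0) *
          h e ^ K := by
      intro e
      have hhK : (h e ^ K).IsHomogeneous (K * φ e) := by
        have := (hh e).pow K
        rwa [mul_comm] at this
      rw [U2p_comp hhK]
      split_ifs
      · rfl
      · rw [zero_mul]
    rw [Finset.sum_congr rfl fun e _ => h8 e] at h6
    exact h6

theorem cm_of_reg {I : Ideal (PR k n)} {h : ι → PR k n} {w : PR k n}
    (hw : ∀ r, w * r ∈ I → r ∈ I) (hr : w ∈ (Ideal.span (Set.range h) ⊔ I).radical) : CM I h := by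
  intro r hr'
  let J : Ideal (PR k n) := Submodule.comap (LinearMap.mulRight (PR k n) r) I
  have hJ : ∀ x, x ∈ J ↔ x * r ∈ I := fun x => Iff.rfl
  have h1 : Ideal.span (Set.range h) ⊔ I ≤ J.radical := by
    refine sup_le (Ideal.span_le.2 ?_) (le_trans (fun x hx => ?_) Ideal.le_radical)
    · rintro _ ⟨e, rfl⟩
      obtain ⟨s, q, hq, hs⟩ := hr' e
      refine ⟨s, ?_⟩
      rw [hJ]
      rw [← map_mul] at hs
      rw [em_inj hs]
      exact hq
    · rw [hJ]
      exact I.mul_mem_right _ hx
  have h2 : w ∈ J.radical := by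
    have := Ideal.radical_mono h1 hr
    rwa [Ideal.radical_idem] at this
  obtain ⟨S, hS⟩ := h2
  rw [hJ] at hS
  have h3 : ∀ S : ℕ, w ^ S * r ∈ I → r ∈ I := by
    intro S
    induction S with
    | zero => intro h; simpa using h
    | succ S ih =>
      intro h
      apply ih
      apply hw
      rwa [← mul_assoc, ← pow_succ']
  exact h3 S hS

end Q9
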