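import Pool.Agent.LibQ9.UDefs

/-!
[Q9 U3r] (MEDIUM, ONLY UDefs) Four linear forms which are a regular sequence modulo `F ^ K`.

PLAN. `F ≠ 0` and `k` infinite: `c` with `eval c F ≠ 0` (`MvPolynomial.funext`), `c ≠ 0` if `N > 0`; if `F` is a nonzero constant everything modulo `F ^ K` is trivial (`⊤`): then take `w i = X i.succ`, any element is in the
ideal; (or exclude it: `F` prime is not a unit, so `N ≥ 1`). A linear automorphism `ψ : PR k n ≃ₐ[k] PR k n` (from an invertible matrix with a column proportional to `c`; e.g. `X i ↦ X i + (c i / c j) X j` for `i ≠ j`,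
`X j ↦ c_j X_j`, composed with a renaming exchanging `j` and `0`) preserves degrees and has `eval e₀ (ψ F) ≠ 0`, `e₀ = (1,0,..,0)`. It is enough to prove the claim for `F' = ψ F` and `w i = X (i+1)`, then pull back
(`I = span ({F ^ K} ∪ {w j | j < i})` is mapped onto the corresponding ideal). For `F'`: let `ρ i : PR →ₐ PR` set `X 1, .., X i` to `0`; `r ∈ span ({F' ^ K} ∪ {X 1, .., X i})` iff `(ρ r) ∈ span {(ρ F') ^ K}` for `r` in the
image of `ρ` plus multiples of the variables; `X (i+1) * r` in the ideal gives `(ρ F') ^ K ∣ X (i+1) * ρ r` and `X (i+1)` is prime and does not divide `ρ F'` (its value at `e₀` is not `0`), so `(ρ F') ^ K ∣ ρ r`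
(`Prime` / `IsRelPrime` in a UFD: `IsRelPrime.dvd_of_dvd_mul_left`), and `r - ρ r ∈ span {X 1, .., X i}`.
-/

set_option autoImplicit false

namespace Q9

open MvPolynomial

variable {k : Type} [Field k] [Infinite k] {n : ℕ}

omit [Infinite k] in
private theorem U3r_sub (s : Fin (n + 1) → MvPolynomial (Fin (n + 1)) k)
    (I : Ideal (MvPolynomial (Fin (n + 1)) k)) (hs : ∀ j, X j - s j ∈ I)
    (p : MvPolynomial (Fin (n + 1)) k) : p - aeval s p ∈ I := by
  induction p using MvPolynomial.induction_on with
  | C a => simp [MvPolynomial.algebraMap_eq]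
  | add p q hp hq =>
    rw [map_add]
    have := I.add_mem hp hq
    convert this using 1
    ring
  | mul_X p j hp =>
    rw [map_mul, aeval_X]
    have h1 := I.mul_mem_left (aeval s p) (hs j)
    have h2 := I.mul_mem_right (X j) hp
    have := I.add_mem h1 h2
    convert this using 1
    ring

omit [Infinite k] in
private theorem U3r_prime (a b : Fin (n + 1)) (hab : a ≠ b) (γ : k) :
    Prime (X a - C γ * X b : MvPolynomial (Fin (n + 1)) k) := by
  classical
  let s : Fin (n + 1) → MvPolynomial (Fin (n + 1)) k := fun j => if j = a then C γ * X b else X j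
  have hsa : s a = C γ * X b := if_pos rfl
  have hsb : s b = X b := if_neg (Ne.symm hab)
  have hw : aeval s (X a - C γ * X b : MvPolynomial (Fin (n + 1)) k) = 0 := by
    rw [map_sub, map_mul, aeval_X, aeval_X, hsa, hsb, algHom_C]
    simp [MvPolynomial.algebraMap_eq]
  have hdvd : ∀ p : MvPolynomial (Fin (n + 1)) k, aeval s p = 0 → X a - C γ * X b ∣ p := by
    intro p hp
    have h1 := U3r_sub s (Ideal.span {X a - C γ * X b}) (by
      intro j
      by_cases hj : j = a
      · subst hj
        rw [hsa]
        exact Ideal.mem_span_singleton_self _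
      · have : s j = X j := if_neg hj
        rw [this, sub_self]
        exact Ideal.zero_mem _) p
    rw [hp, sub_zero] at h1
    exact Ideal.mem_span_singleton.1 h1
  refine ⟨?_, ?_, ?_⟩
  · intro h0
    have h1 := congrArg (eval (Pi.single a (1 : k))) h0
    simp [Pi.single_eq_of_ne (Ne.symm hab)] at h1
  · intro hu
    have h1 := hu.map (eval (0 : Fin (n + 1) → k))
    simp at h1
  · intro p q hpq
    obtain ⟨r, hr⟩ := hpq
    have h1 : aeval s p * aeval s q = 0 := by
      rw [← map_mul, hr, map_mul, hw, zero_mul]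
    rcases mul_eq_zero.1 h1 with h | h
    · exact Or.inl (hdvd p h)
    · exact Or.inr (hdvd q h)

theorem reg_forms (hn : 4 ≤ n) {N : ℕ} {F : PR k n} (hF : F.IsHomogeneous N) (hp : Prime F) :
    ∃ w : Fin 4 → PR k n, (∀ i, (w i).IsHomogeneous 1) ∧
      ∀ (K : ℕ) (i : Fin 4) (r : PR k n),
        w i * r ∈ Ideal.span ({F ^ K} ∪ (w '' {j | j < i})) →
        r ∈ Ideal.span ({F ^ K} ∪ (w '' {j | j < i})) := by
  classical
  obtain ⟨c, hc⟩ : ∃ c : Fin (n + 1) → k, eval c F ≠ 0 := by
    by_contra hcon
    push Not at hcon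
    apply hp.ne_zero
    apply MvPolynomial.funext
    intro c
    rw [hcon c, map_zero]
  have hc0 : ∃ j, c j ≠ 0 := by
    by_contra hcon
    push Not at hcon
    have hcz : c = 0 := funext hcon
    subst hcz
    have hN : N = 0 := by
      by_contra hN
      apply hc
      rw [MvPolynomial.eval_zero]
      exact hF.coeff_eq_zero (by rw [map_zero]; exact fun h => hN h.symm)
    subst hN
    have h1 : F = C (coeff 0 F) := by
      rw [← MvPolynomial.totalDegree_eq_zero_iff_eq_C]
      exact Nat.le_zero.1 hF.totalDegree_le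
    apply hp.not_isUnit
    rw [h1]
    refine IsUnit.map C (isUnit_iff_ne_zero.2 ?_)
    intro h2
    apply hp.ne_zero
    rw [h1, h2, map_zero]
  obtain ⟨j0, hj0⟩ := hc0
  let a : Fin 4 → Fin (n + 1) := fun i => j0.succAbove (Fin.castLE hn i)
  have ha : Function.Injective a :=
    Fin.succAbove_right_injective.comp (Fin.castLE_injective hn)
  have ha0 : ∀ i, a i ≠ j0 := fun i => Fin.succAbove_ne _ _
  let w : Fin 4 → PR k n := fun i => X (a i) - C (c (a i) / c j0) * X j0
  refine ⟨w, fun i => ?_, fun K i r hr => ?_⟩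
  · apply MvPolynomial.IsHomogeneous.sub
    · exact isHomogeneous_X k _
    · have := (isHomogeneous_C (Fin (n + 1)) (c (a i) / c j0)).mul (isHomogeneous_X k j0)
      rwa [zero_add] at this
  · let s : Fin (n + 1) → MvPolynomial (Fin (n + 1)) k := fun j =>
      if ∃ l, l < i ∧ a l = j then C (c j / c j0) * X j0 else X j
    have hs0 : s j0 = X j0 := by
      apply if_neg
      rintro ⟨l, _, hl⟩
      exact ha0 l hl
    have hsl : ∀ l, l < i → s (a l) = C (c (a l) / c j0) * X j0 := fun l hl => if_pos ⟨l, hl, rfl⟩
    have hsi : s (a i) = X (a i) := by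
      apply if_neg
      rintro ⟨l, hl, hli⟩
      exact absurd (ha hli) (ne_of_lt hl)
    have hρw : ∀ l, l < i → aeval s (w l) = 0 := by
      intro l hl
      change aeval s (X (a l) - C (c (a l) / c j0) * X j0) = 0
      rw [map_sub, map_mul, aeval_X, aeval_X, hsl l hl, hs0, algHom_C]
      simp [MvPolynomial.algebraMap_eq]
    have hρi : aeval s (w i) = w i := by
      change aeval s (X (a i) - C (c (a i) / c j0) * X j0) = X (a i) - C (c (a i) / c j0) * X j0
      rw [map_sub, map_mul, aeval_X, aeval_X, hsi, hs0, algHom_C]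
      simp [MvPolynomial.algebraMap_eq]
    have hker : ∀ v ∈ Ideal.span (w '' {j | j < i}), aeval s v = 0 := by
      intro v hv
      have h1 : Ideal.span (w '' {j | j < i}) ≤
          RingHom.ker (aeval s : MvPolynomial (Fin (n + 1)) k →ₐ[k] _) := by
        rw [Ideal.span_le]
        rintro _ ⟨l, hl, rfl⟩
        exact hρw l hl
      exact h1 hv
    have hsub : ∀ p : MvPolynomial (Fin (n + 1)) k,
        p - aeval s p ∈ Ideal.span (w '' {j | j < i}) := by
      intro p
      apply U3r_sub
      intro j
      by_cases hj : ∃ l, l < i ∧ a l = j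
      · obtain ⟨l, hl, rfl⟩ := hj
        rw [hsl l hl]
        exact Ideal.subset_span ⟨l, hl, rfl⟩
      · have : s j = X j := if_neg hj
        rw [this, sub_self]
        exact Ideal.zero_mem _
    have heval : ∀ p : MvPolynomial (Fin (n + 1)) k, eval c (aeval s p) = eval c p := by
      intro p
      have h1 : (eval c).comp (aeval s : MvPolynomial (Fin (n + 1)) k →ₐ[k] _).toRingHom = eval c := by
        apply MvPolynomial.ringHom_ext
        · intro t
          simp [MvPolynomial.algebraMap_eq]
        · intro j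
          change eval c (aeval s (X j)) = eval c (X j)
          rw [aeval_X, eval_X]
          by_cases hj : ∃ l, l < i ∧ a l = j
          · have : s j = C (c j / c j0) * X j0 := if_pos hj
            rw [this]
            simp [div_mul_cancel₀ _ hj0]
          · have : s j = X j := if_neg hj
            rw [this, eval_X]
      exact congrArg (fun f : MvPolynomial (Fin (n + 1)) k →+* k => f p) h1
    rw [Ideal.span_union] at hr ⊢
    obtain ⟨u, hu, v, hv, huv⟩ := Submodule.mem_sup.1 hr
    obtain ⟨g, hg⟩ := Ideal.mem_span_singleton.1 hu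
    have h1 : (aeval s F) ^ K ∣ w i * aeval s r := by
      refine ⟨aeval s g, ?_⟩
      have h2 : aeval s (w i * r) = aeval s (u + v) := by rw [huv]
      rw [map_mul, map_add, hker v hv, add_zero, hρi, hg, map_mul, map_pow] at h2
      exact h2
    have hwp : Prime (w i) := U3r_prime (a i) j0 (ha0 i) _
    have hnd : ¬ w i ∣ (aeval s F) ^ K := by
      intro h2
      have h3 := hwp.dvd_of_dvd_pow h2
      obtain ⟨t, ht⟩ := h3
      have h4 := heval F
      rw [ht, map_mul] at h4
      have h5 : eval c (w i) = 0 := by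
        change eval c (X (a i) - C (c (a i) / c j0) * X j0) = 0
        simp [div_mul_cancel₀ _ hj0]
      rw [h5, zero_mul] at h4
      exact hc h4.symm
    have hrp : IsRelPrime ((aeval s F) ^ K) (w i) :=
      ((hwp.irreducible.isRelPrime_iff_not_dvd).2 hnd).symm
    obtain ⟨h, hh⟩ := hrp.dvd_of_dvd_mul_left h1
    have h6 : r = F ^ K * h + ((r - aeval s r) - (F ^ K - aeval s (F ^ K)) * h) := by
      rw [map_pow, hh]
      ring
    rw [h6]
    refine Submodule.add_mem_sup ?_ ?_
    · exact Ideal.mul_mem_right _ _ (Ideal.mem_span_singleton_self _)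
    · exact Ideal.sub_mem _ (hsub r) (Ideal.mul_mem_right _ _ (hsub _))

end Q9
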