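import Pool.Agent.LibQ9.U2a
import Pool.Agent.LibQ9.U2b
import Pool.Agent.LibQ9.U2c
import Pool.Agent.LibQ9.U3r
import Pool.Agent.LibQ9.U1c

/-!
[Q9 U3] (SHORT/MEDIUM; may cite U1a, U1b, U1c, U2p, U2a, U2b, U2c, U3r as stated) The vanishing theorems for the covering of the punctured cone.

PLAN. Let `w` be from `reg_forms`, `J i = span ({F ^ K} ∪ w '' {j | j < i})` (homogeneous ideals: `hom_span`), `J (i+1) = J i ⊔ span {w i}` (set algebra: `Ideal.span_union`). `w i` is a linear form, so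
`w i ∈ span (range X)`, and `X j ∈ radical (span (range h) ⊔ span {F ^ K})` by `Cov.rad` (`F` is in the radical of `span {F ^ K}` for `K ≥ 1`; for `K = 0` the ideal is `⊤`), hence `w i ∈ (span (range h) ⊔ J i).radical`.
`CM (J i) h` for `i ≤ 3` (`cm_of_reg` with `w i`); `C0 (J i) h` for `i ≤ 2` (`c0_step` with `w i` and `CM (J (i+1)) h`); `C1 (J i) h` for `i ≤ 1`; `C2 (J 0) h`. Translate `LoI (span {F ^ K}) f` into
`Lo f` and `FV hp K` (`fv_loI`, `not_dvd_mul`; for the cocycle conditions: an element of `FV hp K` which is in `Lo (h a * h b * h e)` is in `LoI`). `cech1`, `cech2` are the case `K = 1` (`F ^ 1`).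
-/

set_option autoImplicit false

namespace Q9

open MvPolynomial

variable {k : Type} [Field k] [Infinite k] {n : ℕ} {ι : Type} [Fintype ι] {F : PR k n}
  (hp : Prime F) {N : ℕ} {h : ι → PR k n} {φ : ι → ℕ}

omit [Infinite k] [Fintype ι] in
private theorem U3_rad (hC : Cov F N h φ) (K : ℕ) {w : PR k n} (hw : w.IsHomogeneous 1)
    {I : Ideal (PR k n)} (hI : F ^ K ∈ I) : w ∈ (Ideal.span (Set.range h) ⊔ I).radical := by
  have hX : ∀ j : Fin (n + 1), (X j : PR k n) ∈ (Ideal.span (Set.range h) ⊔ I).radical := by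
    intro j
    obtain ⟨M, hM⟩ := hC.rad j
    have h1 : Ideal.span (Set.range h) ⊔ Ideal.span {F} ≤
        (Ideal.span (Set.range h) ⊔ I).radical := by
      refine sup_le (le_trans le_sup_left Ideal.le_radical) ?_
      rw [Ideal.span_singleton_le_iff_mem]
      exact ⟨K, Ideal.mem_sup_right hI⟩
    exact Ideal.radical_isRadical _ ⟨M, h1 hM⟩
  have h2 : Ideal.span ((X : Fin (n + 1) → PR k n) '' Set.univ) ≤
      (Ideal.span (Set.range h) ⊔ I).radical := by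
    rw [Ideal.span_le]
    rintro _ ⟨j, -, rfl⟩
    exact hX j
  refine h2 ?_
  rw [MvPolynomial.mem_ideal_span_X_image]
  intro m hm
  have h3 := hw (MvPolynomial.mem_support_iff.1 hm)
  by_contra hcon
  push Not at hcon
  have h4 : m = 0 := by
    ext i
    exact hcon i (Set.mem_univ i)
  rw [h4] at h3
  simp at h3

private noncomputable def U3_J (F : PR k n) (K : ℕ) (w : Fin 4 → PR k n) (i : ℕ) :
    Ideal (PR k n) :=
  Ideal.span ({F ^ K} ∪ (w '' {j | j.val < i}))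

omit [Infinite k] in
private theorem U3_zero (K : ℕ) (w : Fin 4 → PR k n) :
    U3_J F K w 0 = Ideal.span {F ^ K} := by
  unfold U3_J
  have h1 : {j : Fin 4 | j.val < 0} = ∅ := by
    ext j
    simp
  rw [h1, Set.image_empty, Set.union_empty]

omit [Infinite k] in
private theorem U3_succ (K : ℕ) (w : Fin 4 → PR k n) (i : Fin 4) :
    U3_J F K w i.val ⊔ Ideal.span {w i} = U3_J F K w (i.val + 1) := by
  unfold U3_J
  rw [← Ideal.span_union, Set.union_assoc]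
  congr 2
  ext x
  constructor
  · rintro (⟨j, hj, rfl⟩ | hx)
    · exact ⟨j, Nat.lt_succ_of_lt hj, rfl⟩
    · exact ⟨i, Nat.lt_succ_self _, (Set.mem_singleton_iff.1 hx).symm⟩
  · rintro ⟨j, hj, rfl⟩
    rcases Nat.lt_succ_iff_lt_or_eq.1 hj with h1 | h1
    · exact Or.inl ⟨j, h1, rfl⟩
    · refine Or.inr ?_
      rw [Fin.ext h1]
      exact rfl

omit [Infinite k] [Fintype ι] in
private theorem U3_mem (K : ℕ) (w : Fin 4 → PR k n) (i : ℕ) : F ^ K ∈ U3_J F K w i :=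
  Ideal.subset_span (Or.inl rfl)

omit [Infinite k] in
private theorem U3_hom (hF : F.IsHomogeneous N) (K : ℕ) {w : Fin 4 → PR k n}
    (hw : ∀ i, (w i).IsHomogeneous 1) (i : ℕ) :
    ∀ r ∈ U3_J F K w i, ∀ m, homogeneousComponent m r ∈ U3_J F K w i := by
  refine hom_span ?_
  rintro r (hr | ⟨j, -, rfl⟩)
  · rw [Set.mem_singleton_iff.1 hr]
    exact ⟨_, hF.pow K⟩
  · exact ⟨1, hw j⟩

private theorem U3_main (hn : 4 ≤ n) (hC : Cov F N h φ) (K : ℕ) :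
    C0 (Ideal.span {F ^ K}) h ∧ C1 (Ideal.span {F ^ K}) h ∧ C2 (Ideal.span {F ^ K}) h := by
  obtain ⟨w, hw, hreg⟩ := reg_forms hn hC.hom hC.prime
  have hh0 : ∀ a, h a ≠ 0 := fun a h0 => hC.nd a (h0 ▸ dvd_zero F)
  have hreg' : ∀ i : Fin 4, ∀ r, w i * r ∈ U3_J F K w i.val → r ∈ U3_J F K w i.val :=
    fun i r hr => hreg K i r hr
  have hrad : ∀ (i : Fin 4) (m : ℕ), w i ∈ (Ideal.span (Set.range h) ⊔ U3_J F K w m).radical :=
    fun i m => U3_rad hC K (hw i) (U3_mem K w m)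
  have hcm : ∀ i : Fin 4, CM (U3_J F K w i.val) h := fun i => cm_of_reg (hreg' i) (hrad i i.val)
  have hc0 : ∀ i : Fin 4, i.val + 1 < 4 → C0 (U3_J F K w i.val) h := by
    intro i hi
    refine c0_step (U3_hom hC.hom K hw i.val) hC.hh hh0 (hw i) (hreg' i) (hrad i i.val) ?_
    rw [U3_succ]
    exact hcm ⟨i.val + 1, hi⟩
  have hc1 : ∀ i : Fin 4, i.val + 1 + 1 < 4 → C1 (U3_J F K w i.val) h := by
    intro i hi
    refine c1_step (U3_hom hC.hom K hw i.val) hC.hh hh0 (hw i) (hreg' i) (hrad i i.val) ?_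
    rw [U3_succ]
    exact hc0 ⟨i.val + 1, by omega⟩ hi
  have hc2 : ∀ i : Fin 4, i.val + 1 + 1 + 1 < 4 → C2 (U3_J F K w i.val) h := by
    intro i hi
    refine c2_step (U3_hom hC.hom K hw i.val) hC.hh hh0 (hw i) (hreg' i) (hrad i i.val) ?_
    rw [U3_succ]
    exact hc1 ⟨i.val + 1, by omega⟩ hi
  have h0 := hc0 (0 : Fin 4) (by simp)
  have h1 := hc1 (0 : Fin 4) (by simp)
  have h2 := hc2 (0 : Fin 4) (by simp)
  have hz : U3_J F K w (0 : Fin 4).val = Ideal.span {F ^ K} := U3_zero K w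
  rw [hz] at h0 h1 h2
  exact ⟨h0, h1, h2⟩

/-- a polynomial which is locally divisible by `F ^ K` is divisible; and global sections -/
theorem cech0 (hn : 4 ≤ n) (hC : Cov F N h φ) (K : ℕ) (δ : ℤ) (c : ι → KR k n)
    (hc : ∀ a, c a ∈ Lo (h a)) (hd : ∀ a, c a ∈ Hg δ) (hcc : ∀ a b, c a - c b ∈ FV hp K) :
    ∃ e : PR k n, em e ∈ Hg δ ∧ ∀ a, c a - em e ∈ FV hp K := by
  obtain ⟨e, he, h1⟩ := (U3_main hn hC K).1 δ c hc hd fun a b =>
    (fv_loI hp (not_dvd_mul hp (hC.nd a) (hC.nd b))).2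
      ⟨sub_mem (lo_of_dvd (dvd_mul_right _ _) (hc a)) (lo_of_dvd (dvd_mul_left _ _) (hc b)),
        hcc a b⟩
  exact ⟨e, he, fun a => ((fv_loI hp (hC.nd a)).1 (h1 a)).2⟩

theorem cech1 (hn : 4 ≤ n) (hC : Cov F N h φ) (δ : ℤ) (c : ι → ι → KR k n)
    (hc : ∀ a b, c a b ∈ Lo (h a * h b)) (hd : ∀ a b, c a b ∈ Hg δ)
    (hcc : ∀ a b e, c a b + c b e - c a e ∈ FV hp 1) :
    ∃ b : ι → KR k n, (∀ a, b a ∈ Lo (h a)) ∧ (∀ a, b a ∈ Hg δ) ∧
      ∀ a a', c a a' - (b a - b a') ∈ FV hp 1 := by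
  have hI := (U3_main hn hC 1).2.1
  obtain ⟨b, hb1, hb2, hb3⟩ := hI δ c hc hd fun a b e =>
    (fv_loI hp (not_dvd_mul hp (not_dvd_mul hp (hC.nd a) (hC.nd b)) (hC.nd e))).2
      ⟨sub_mem (add_mem (lo_of_dvd (dvd_mul_right _ _) (hc a b))
        (lo_of_dvd ⟨h a, by ring⟩ (hc b e))) (lo_of_dvd ⟨h b, by ring⟩ (hc a e)), hcc a b e⟩
  exact ⟨b, hb1, hb2, fun a a' =>
    ((fv_loI hp (not_dvd_mul hp (hC.nd a) (hC.nd a'))).1 (hb3 a a')).2⟩

theorem cech2 (hn : 4 ≤ n) (hC : Cov F N h φ) (δ : ℤ) (c : ι → ι → ι → KR k n)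
    (hc : ∀ a b e, c a b e ∈ Lo (h a * h b * h e)) (hd : ∀ a b e, c a b e ∈ Hg δ)
    (hcc : ∀ a b e f, c b e f - c a e f + c a b f - c a b e ∈ FV hp 1) :
    ∃ b : ι → ι → KR k n, (∀ a a', b a a' ∈ Lo (h a * h a')) ∧ (∀ a a', b a a' ∈ Hg δ) ∧
      ∀ a a' e, c a a' e - (b a' e - b a e + b a a') ∈ FV hp 1 := by
  have hI := (U3_main hn hC 1).2.2
  obtain ⟨b, hb1, hb2, hb3⟩ := hI δ c hc hd fun a b e f =>
    (fv_loI hp (not_dvd_mul hp (not_dvd_mul hp (not_dvd_mul hp (hC.nd a) (hC.nd b)) (hC.nd e))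
      (hC.nd f))).2
      ⟨sub_mem (add_mem (sub_mem (lo_of_dvd ⟨h a, by ring⟩ (hc b e f))
        (lo_of_dvd ⟨h b, by ring⟩ (hc a e f))) (lo_of_dvd ⟨h e, by ring⟩ (hc a b f)))
        (lo_of_dvd ⟨h f, by ring⟩ (hc a b e)), hcc a b e f⟩
  exact ⟨b, hb1, hb2, fun a a' e =>
    ((fv_loI hp (not_dvd_mul hp (not_dvd_mul hp (hC.nd a) (hC.nd a')) (hC.nd e))).1
      (hb3 a a' e)).2⟩

end Q9
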