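import Pool.Agent.LibQ9.U3

/-!
[Q9 U4] (MEDIUM; may cite U1a, U1b, U1c, U3 as stated) Lifting cocycles from `F ^ K` to `F ^ (K + 1)`, compatible systems.

PLAN. `coc_lift`: `c' a b e = (u a b * u b e - u a e) / em (F ^ K)` is in `Lo (h a * h b * h e)` (`fv_div`, `not_dvd_mul`), homogeneous of degree `d a - d e - K N`. Put `c a b e = c' a b e * u e a`, degree `- K N`. Associativity gives the exact
identity `c' a e f + c' a b e * u e f = c' a b f + u a b * c' b e f`; multiply by `u f a` and reduce modulo `FV hp 1` (cocycle conditions of `u`, which hold modulo `F ^ K`, hence modulo `F`):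
`c b e f - c a e f + c a b f - c a b e ∈ FV hp 1`. `cech2` with `δ = - K N` gives `b a a'` with `c a a' e - (b a' e - b a e + b a a') ∈ FV hp 1`. `u' a b = u a b * (1 - em (F ^ K) * b a b)`. Check
`u' a b * u' b e - u' a e = em (F ^ K) * u a e * (c a b e - (b a b + b b e - b a e)) + (terms divisible by F ^ (K + 1))`, using `c' a b e - c a b e * u a e ∈ FV hp 1` (as `u e a * u a e - 1 ∈ FV hp 1`: it is `u e a * u a e - u e e` plus
`u e e - 1`), `u a b * u b e - u a e ∈ FV hp K`, and `2 K ≥ K + 1`. `u' a a - 1 = (u a a - 1) - em (F ^ K) * ..`, `K ≥ 1`. `coc_sys`: recursion on `K` (`Nat.rec` on the subtype, or `exists_seq`-style choice).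
`coc_symm`: `u b a` is a cocycle with degrees `- d`. `sys_symm` the same for systems. `coc_mono`: a cocycle modulo `F ^ L` is one modulo `F ^ K`, `K ≤ L`. `coc_congr` : change modulo `F ^ K` (with the right degrees and denominators).
`coc_inv`: `u a b * u b a - 1 ∈ FV hp 1`.
-/

set_option autoImplicit false

namespace Q9

open MvPolynomial

variable {k : Type} [Field k] [Infinite k] {n : ℕ} {ι : Type} [Fintype ι] {F : PR k n}
  {hp : Prime F} {N : ℕ} {h : ι → PR k n} {φ : ι → ℕ} {d : ι → ℤ}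

theorem coc_symm {K : ℕ} {u : ι → ι → KR k n} (hu : Coc hp h d K u) :
    Coc hp h (fun a => - d a) K (fun a b => u b a) := by
  obtain ⟨h1, h2, h3, h4⟩ := hu
  refine ⟨fun a b => ?_, fun a b => ?_, fun a b c => ?_, h4⟩
  · have := h1 b a
    rwa [mul_comm] at this
  · have := h2 b a
    have e : d b - d a = - d a - - d b := by ring
    rwa [e] at this
  · have := h3 c b a
    have e : u b a * u c b - u c a = u c b * u b a - u c a := by ring
    change u b a * u c b - u c a ∈ _
    rwa [e]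

theorem sys_symm {U : ℕ → ι → ι → KR k n} (hU : Sys hp h d U) :
    Sys hp h (fun a => - d a) (fun K a b => U K b a) :=
  fun K hK => ⟨coc_symm (hU K hK).1, fun a b => (hU K hK).2 b a⟩

theorem coc_mono {K L : ℕ} (hKL : K ≤ L) {u : ι → ι → KR k n} (hu : Coc hp h d L u) :
    Coc hp h d K u :=
  ⟨hu.1, hu.2.1, fun a b c => fv_mono hp hKL (hu.2.2.1 a b c), hu.2.2.2⟩

/-- the members of a compatible system agree -/
theorem sys_congr {U : ℕ → ι → ι → KR k n} (hU : Sys hp h d U) {K L : ℕ} (hK : 1 ≤ K)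
    (hKL : K ≤ L) (a b : ι) : U L a b - U K a b ∈ FV hp K := by
  induction L, hKL using Nat.le_induction with
  | base =>
    rw [sub_self]
    exact zero_mem _
  | succ L hKL ih =>
    have h1 := fv_mono hp hKL ((hU L (hK.trans hKL)).2 a b)
    have e : U (L + 1) a b - U K a b = (U (L + 1) a b - U L a b) + (U L a b - U K a b) := by ring
    rw [e]
    exact add_mem h1 ih

theorem coc_inv {u : ι → ι → KR k n} (hu : Coc hp h d 1 u) (a b : ι) :
    u a b * u b a - 1 ∈ FV hp 1 := by
  have e : u a b * u b a - 1 = (u a b * u b a - u a a) + (u a a - 1) := by ring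
  rw [e]
  exact add_mem (hu.2.2.1 a b a) (hu.2.2.2 a)

/-- the entries of a cocycle are units modulo `F` -/
theorem coc_unit (hC : Cov F N h φ) {u : ι → ι → KR k n} (hu : Coc hp h d 1 u) (a b : ι) :
    u a b ∈ FV hp 0 ∧ u a b ∉ FV hp 1 := by
  have h0 : ∀ a b, u a b ∈ FV hp 0 := fun a b =>
    fv_lo hp (not_dvd_mul hp (hC.nd a) (hC.nd b)) (hu.1 a b)
  refine ⟨h0 a b, fun h1 => fv_one hp ?_⟩
  have h2 := fv_mul hp h1 (h0 b a)
  have e : (1 : KR k n) = u a b * u b a - (u a b * u b a - 1) := by ring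
  rw [e]
  exact sub_mem h2 (coc_inv hu a b)

theorem coc_lift (hn : 4 ≤ n) (hC : Cov F N h φ) {K : ℕ} (hK : 1 ≤ K) {u : ι → ι → KR k n}
    (hu : Coc hp h d K u) :
    ∃ u' : ι → ι → KR k n, Coc hp h d (K + 1) u' ∧ ∀ a b, u' a b - u a b ∈ FV hp K := by
  classical
  have hu1 : Coc hp h d 1 u := coc_mono hK hu
  obtain ⟨hL, hH, hc, hd⟩ := hu
  have hF0 : em (F ^ K) ≠ 0 := em_ne (pow_ne_zero _ hp.ne_zero)
  have nd2 : ∀ a b, ¬ F ∣ h a * h b := fun a b => not_dvd_mul hp (hC.nd a) (hC.nd b)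
  have nd3 : ∀ a b e, ¬ F ∣ h a * h b * h e := fun a b e => not_dvd_mul hp (nd2 a b) (hC.nd e)
  have hu0 : ∀ a b, u a b ∈ FV hp 0 := fun a b => fv_lo hp (nd2 a b) (hL a b)
  have hPH : em (F ^ K) ∈ Hg (k := k) (n := n) ((K : ℤ) * N) := by
    have h1 := hg_em (hC.hom.pow K)
    have e : ((N * K : ℕ) : ℤ) = (K : ℤ) * N := by push_cast; ring
    rwa [e] at h1
  have hPV : em (F ^ K) ∈ FV hp K := (fv_em hp).2 dvd_rfl
  have hPV1 : em (F ^ K) ∈ FV hp 1 := fv_mono hp hK hPV
  -- the defect of the cocycle condition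
  set c' : ι → ι → ι → KR k n := fun a b e => (u a b * u b e - u a e) / em (F ^ K) with hc'
  have hPc : ∀ a b e, u a b * u b e = u a e + em (F ^ K) * c' a b e := by
    intro a b e
    have h1 : em (F ^ K) * c' a b e = u a b * u b e - u a e := by
      simp only [hc']
      rw [mul_div_cancel₀ _ hF0]
    rw [h1]
    ring
  have dv1 : ∀ a b e, h a * h b ∣ h a * h b * h e := fun a b e => ⟨h e, rfl⟩
  have dv2 : ∀ a b e, h b * h e ∣ h a * h b * h e := fun a b e => ⟨h a, by ring⟩
  have dv3 : ∀ a b e, h a * h e ∣ h a * h b * h e := fun a b e => ⟨h b, by ring⟩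
  have dv4 : ∀ a b e, h e * h a ∣ h a * h b * h e := fun a b e => ⟨h b, by ring⟩
  have hcL' : ∀ a b e, c' a b e ∈ Lo (h a * h b * h e) := by
    intro a b e
    refine fv_div hp (nd3 a b e) ?_ (hc a b e)
    exact sub_mem (lo_mul (lo_of_dvd (dv1 a b e) (hL a b)) (lo_of_dvd (dv2 a b e) (hL b e)))
      (lo_of_dvd (dv3 a b e) (hL a e))
  have hcH' : ∀ a b e, c' a b e ∈ Hg (d a - d e - (K : ℤ) * N) := by
    intro a b e
    have h1 := hg_mul (hH a b) (hH b e)
    have e1 : d a - d b + (d b - d e) = d a - d e := by ring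
    rw [e1] at h1
    have h2 := hg_mul (sub_mem h1 (hH a e)) (hg_inv hPH)
    have e2 : d a - d e + -((K : ℤ) * N) = d a - d e - (K : ℤ) * N := by ring
    rw [e2, ← div_eq_mul_inv] at h2
    exact h2
  have hc0 : ∀ a b e, c' a b e ∈ FV hp 0 := fun a b e => fv_lo hp (nd3 a b e) (hcL' a b e)
  -- the additive cocycle
  obtain ⟨b, hb1, hb2, hb3⟩ := cech2 hp hn hC (-((K : ℤ) * N)) (fun a b e => c' a b e * u e a)
    (fun a b e => lo_mul (hcL' a b e) (lo_of_dvd (dv4 a b e) (hL e a)))
    (fun a b e => by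
      have h1 := hg_mul (hcH' a b e) (hH e a)
      have e1 : d a - d e - (K : ℤ) * N + (d e - d a) = -((K : ℤ) * N) := by ring
      rwa [e1] at h1)
    (fun a b e f => by
      have i1 : c' a e f + c' a b e * u e f = c' a b f + u a b * c' b e f := by
        apply mul_left_cancel₀ hF0
        linear_combination (- hPc a e f) - u e f * hPc a b e + hPc a b f + u a b * hPc b e f
      have i2 : c' b e f * u f b - c' a e f * u f a + c' a b f * u f a - c' a b e * u e a =
          c' a b e * (u e f * u f a - u e a) - c' b e f * (u f a * u a b - u f b) := by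
        linear_combination (- u f a) * i1
      change c' b e f * u f b - c' a e f * u f a + c' a b f * u f a - c' a b e * u e a ∈ _
      rw [i2]
      have h1 := fv_mul hp (hc0 a b e) (hu1.2.2.1 e f a)
      have h2 := fv_mul hp (hc0 b e f) (hu1.2.2.1 f a b)
      rw [zero_add] at h1 h2
      exact sub_mem h1 h2)
  have hb0 : ∀ a a', b a a' ∈ FV hp 0 := fun a a' => fv_lo hp (nd2 a a') (hb1 a a')
  refine ⟨fun a a' => u a a' * (1 - em (F ^ K) * b a a'), ⟨fun a a' => ?_, fun a a' => ?_,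
    fun a a' e => ?_, fun a => ?_⟩, fun a a' => ?_⟩
  · refine lo_mul (hL a a') (sub_mem ?_ (lo_mul (em_mem_lo _ _) (hb1 a a')))
    have h1 := em_mem_lo (h a * h a') (1 : PR k n)
    rwa [map_one] at h1
  · have h1 := hg_mul hPH (hb2 a a')
    have e1 : (K : ℤ) * N + -((K : ℤ) * N) = 0 := by ring
    rw [e1] at h1
    have h2 := hg_mul (hH a a') (sub_mem hg_one h1)
    rwa [add_zero] at h2
  · have i1 : u a a' * (1 - em (F ^ K) * b a a') * (u a' e * (1 - em (F ^ K) * b a' e)) -
        u a e * (1 - em (F ^ K) * b a e) =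
        em (F ^ K) * ((c' a a' e * (-(u e a * u a e - 1)) +
          u a e * (c' a a' e * u e a - (b a' e - b a e + b a a'))) +
          em (F ^ K) * (u a a' * u a' e * (b a a' * b a' e) - c' a a' e * (b a a' + b a' e))) := by
      linear_combination (1 - em (F ^ K) * b a a' - em (F ^ K) * b a' e) * hPc a a' e
    change u a a' * (1 - em (F ^ K) * b a a') * (u a' e * (1 - em (F ^ K) * b a' e)) -
        u a e * (1 - em (F ^ K) * b a e) ∈ _
    rw [i1, fv_pow_mul hp]
    have h1 := fv_mul hp (hc0 a a' e) (neg_mem (coc_inv hu1 e a))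
    have h2 := fv_mul hp (hu0 a e) (hb3 a a' e)
    have h3 : u a a' * u a' e * (b a a' * b a' e) - c' a a' e * (b a a' + b a' e) ∈ FV hp 0 := by
      have j1 := fv_mul hp (fv_mul hp (hu0 a a') (hu0 a' e)) (fv_mul hp (hb0 a a') (hb0 a' e))
      have j2 := fv_mul hp (hc0 a a' e) (add_mem (hb0 a a') (hb0 a' e))
      exact sub_mem j1 j2
    have h4 := fv_mul hp hPV1 h3
    rw [zero_add] at h1 h2
    rw [add_zero] at h4
    exact add_mem (add_mem h1 h2) h4
  · have i1 : u a a * (1 - em (F ^ K) * b a a) - 1 =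
        (u a a - 1) - em (F ^ K) * (u a a * b a a) := by ring
    change u a a * (1 - em (F ^ K) * b a a) - 1 ∈ _
    rw [i1]
    have h1 := fv_mul hp hPV1 (fv_mul hp (hu0 a a) (hb0 a a))
    exact sub_mem (hd a) h1
  · have i1 : u a a' * (1 - em (F ^ K) * b a a') - u a a' =
        - (em (F ^ K) * (u a a' * b a a')) := by ring
    change u a a' * (1 - em (F ^ K) * b a a') - u a a' ∈ _
    rw [i1]
    have h1 := fv_mul hp hPV (fv_mul hp (hu0 a a') (hb0 a a'))
    exact neg_mem h1

theorem coc_sys (hn : 4 ≤ n) (hC : Cov F N h φ) {u : ι → ι → KR k n} (hu : Coc hp h d 1 u) :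
    ∃ U : ℕ → ι → ι → KR k n, U 1 = u ∧ Sys hp h d U := by
  classical
  have step : ∀ (m : ℕ) (v : {v : ι → ι → KR k n // Coc hp h d (m + 1) v}),
      ∃ v' : {v : ι → ι → KR k n // Coc hp h d (m + 1 + 1) v},
        ∀ a b, v'.1 a b - v.1 a b ∈ FV hp (m + 1) := by
    intro m v
    obtain ⟨v', h1, h2⟩ := coc_lift hn hC (Nat.le_add_left 1 m) v.2
    exact ⟨⟨v', h1⟩, h2⟩
  choose g hg using step
  let s : ∀ m : ℕ, {v : ι → ι → KR k n // Coc hp h d (m + 1) v} :=
    fun m => Nat.rec ⟨u, hu⟩ (fun m v => g m v) m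
  refine ⟨fun K => (s (K - 1)).1, rfl, fun K hK => ?_⟩
  obtain ⟨j, rfl⟩ : ∃ j, K = j + 1 := ⟨K - 1, by omega⟩
  exact ⟨(s j).2, fun a b => hg j (s j) a b⟩

end Q9
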