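import Pool.Agent.LibQ9.U5Defs

/-!
[Q9 U5b] (MEDIUM, ONLY U5Defs) The torsion part of the obstruction module is finite dimensional.

PLAN. `fin_of_nil`: `Q` is finitely generated over `PR k n` (noetherian); by finiteness one `M` with `X j ^ M • v = 0` for all generators, hence (commutativity) for all `v`, and monomials with an exponent `≥ M` kill `Q`;
so `Q` is spanned over `k` by `X^s • generator`, all exponents `< M`. `s1_fin`: let `Q = (S1 F h ψ).map (S0 F ψ).mkQ`, a submodule of the noetherian module `(ι → ι → PR k n) ⧸ S0 F ψ` (`ι` finite), every element is killed by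
a power of each `h a` (definition of `S1`) and by `F` (`F • E ∈ S0` with `β = 0`), so by the elements of a power of the ideal `span (range h) ⊔ span {F}`, hence by a power of each `X j` (`hrad`).
(For `v` in the quotient the annihilator contains `h a ^ M_a` and `F`; its radical contains `span (range h) ⊔ span {F}`, so `X j`.) `T` = `Q` with scalars restricted to `k`.
-/

set_option autoImplicit false

namespace Q9

open MvPolynomial

variable {k : Type} [Field k] {n : ℕ} {ι : Type} [Fintype ι]

theorem fin_of_nil (Q : Type) [AddCommGroup Q] [Module (PR k n) Q] [Module k Q]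
    [IsScalarTower k (PR k n) Q] [Module.Finite (PR k n) Q]
    (hQ : ∀ (v : Q) (j : Fin (n + 1)), ∃ M : ℕ, ((X j : PR k n) ^ M) • v = 0) :
    Module.Finite k Q := by
  classical
  obtain ⟨s, hs⟩ := (Module.Finite.fg_top : (⊤ : Submodule (PR k n) Q).FG)
  choose M hM using hQ
  set M0 : ℕ := s.sup fun v => Finset.univ.sup fun j => M v j with hM0
  have hle : ∀ v ∈ s, ∀ j, M v j ≤ M0 := fun v hv j =>
    (Finset.le_sup (f := fun j => M v j) (Finset.mem_univ j)).trans
      (Finset.le_sup (f := fun v => Finset.univ.sup fun j => M v j) hv)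
  have hkill : ∀ v ∈ s, ∀ j, ((X j : PR k n) ^ M0) • v = 0 := by
    intro v hv j
    have h1 : M0 = (M0 - M v j) + M v j := (Nat.sub_add_cancel (hle v hv j)).symm
    rw [h1, pow_add, mul_smul, hM v j, smul_zero]
  -- the finite generating set
  let T : Set Q := Set.range fun p : (Fin (n + 1) → Fin M0) × s =>
    (monomial (Finsupp.equivFunOnFinite.symm fun j => (p.1 j : ℕ)) (1 : k) : PR k n) • (p.2 : Q)
  have hTfin : T.Finite := Set.finite_range _
  have hmono : ∀ (σ : Fin (n + 1) →₀ ℕ), ∀ v ∈ s,
      (monomial σ (1 : k) : PR k n) • v ∈ Submodule.span k T := by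
    intro σ v hv
    by_cases h : ∀ j, σ j < M0
    · apply Submodule.subset_span
      refine ⟨(fun j => ⟨σ j, h j⟩, ⟨v, hv⟩), ?_⟩
      have h1 : (Finsupp.equivFunOnFinite.symm fun j => σ j) = σ := by
        ext j
        simp
      simp only [h1]
    · push Not at h
      obtain ⟨j, hj⟩ := h
      have h1 : (monomial σ (1 : k) : PR k n) =
          monomial (σ - Finsupp.single j M0) 1 * (X j : PR k n) ^ M0 := by
        rw [X_pow_eq_monomial, monomial_mul, one_mul]
        congr 1
        rw [tsub_add_cancel_of_le]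
        exact Finsupp.single_le_iff.2 hj
      rw [h1, mul_smul, hkill v hv j, smul_zero]
      exact Submodule.zero_mem _
  have hall : ∀ (r : PR k n), ∀ v ∈ s, r • v ∈ Submodule.span k T := by
    intro r v hv
    rw [r.as_sum, Finset.sum_smul]
    refine Submodule.sum_mem _ fun σ _ => ?_
    have h1 : (monomial σ (coeff σ r) : PR k n) = coeff σ r • (monomial σ (1 : k) : PR k n) := by
      rw [smul_monomial, smul_eq_mul, mul_one]
    rw [h1, smul_assoc]
    exact Submodule.smul_mem _ _ (hmono σ v hv)
  -- stability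
  have hstab : ∀ (r : PR k n), ∀ x ∈ Submodule.span k T, r • x ∈ Submodule.span k T := by
    intro r x hx
    induction hx using Submodule.span_induction with
    | mem x hx =>
      obtain ⟨p, rfl⟩ := hx
      show r • ((monomial (Finsupp.equivFunOnFinite.symm fun j => (p.1 j : ℕ)) (1 : k) : PR k n) •
        (p.2 : Q)) ∈ _
      rw [← mul_smul]
      exact hall _ _ p.2.2
    | zero =>
      rw [smul_zero]
      exact Submodule.zero_mem _
    | add x y _ _ hx hy =>
      rw [smul_add]
      exact Submodule.add_mem _ hx hy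
    | smul c x _ hx =>
      have h1 : r • c • x = c • r • x := by
        rw [← algebraMap_smul (PR k n) c x, ← algebraMap_smul (PR k n) c (r • x), ← mul_smul,
          ← mul_smul, mul_comm]
      rw [h1]
      exact Submodule.smul_mem _ _ hx
  let N : Submodule (PR k n) Q :=
    { carrier := Submodule.span k T
      add_mem' := fun {a b} ha hb => Submodule.add_mem _ ha hb
      zero_mem' := Submodule.zero_mem _
      smul_mem' := fun r x hx => hstab r x hx }
  have hN : (⊤ : Submodule (PR k n) Q) ≤ N := by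
    rw [← hs, Submodule.span_le]
    intro v hv
    have h1 := hall 1 v hv
    rw [one_smul] at h1
    exact h1
  refine ⟨Submodule.fg_def.2 ⟨T, hTfin, ?_⟩⟩
  rw [eq_top_iff]
  intro x _
  exact hN (Submodule.mem_top (x := x))

theorem s1_fin (F : PR k n) (h ψ : ι → PR k n)
    (hrad : ∀ j, ∃ M : ℕ, (X j : PR k n) ^ M ∈ Ideal.span (Set.range h) ⊔ Ideal.span {F}) :
    ∃ T : Submodule k ((ι → ι → PR k n) ⧸ S0 F ψ), Module.Finite k T ∧
      ∀ E ∈ S1 F h ψ, (S0 F ψ).mkQ E ∈ T := by
  classical
  let A := (ι → ι → PR k n) ⧸ S0 F ψ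
  let Q : Submodule (PR k n) ((ι → ι → PR k n) ⧸ S0 F ψ) := (S1 F h ψ).map (S0 F ψ).mkQ
  have hfin : Module.Finite k Q := by
    refine fin_of_nil (n := n) Q ?_
    rintro ⟨v, hv⟩ j
    obtain ⟨E, hE, rfl⟩ := hv
    let I : Ideal (PR k n) := LinearMap.ker (LinearMap.toSpanSingleton (PR k n)
      ((ι → ι → PR k n) ⧸ S0 F ψ) ((S0 F ψ).mkQ E))
    have hI : ∀ r : PR k n, r ∈ I ↔ r • E ∈ S0 F ψ := by
      intro r
      rw [LinearMap.mem_ker, LinearMap.toSpanSingleton_apply, ← map_smul, Submodule.mkQ_apply,
        Submodule.Quotient.mk_eq_zero]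
    have hrange : Ideal.span (Set.range h) ⊔ Ideal.span {F} ≤ I.radical := by
      refine sup_le ?_ ?_
      · rw [Ideal.span_le]
        rintro _ ⟨a, rfl⟩
        obtain ⟨M, hM⟩ := hE a
        exact ⟨M, (hI _).2 hM⟩
      · rw [Ideal.span_le]
        rintro _ rfl
        refine ⟨1, ?_⟩
        rw [pow_one]
        refine (hI _).2 ⟨0, fun e f => ?_⟩
        simp
    obtain ⟨M, hM⟩ := hrad j
    obtain ⟨K, hK⟩ := hrange hM
    refine ⟨M * K, ?_⟩
    rw [← pow_mul] at hK
    apply Subtype.ext
    show (X j : PR k n) ^ (M * K) • (S0 F ψ).mkQ E = 0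
    rw [← map_smul, Submodule.mkQ_apply, Submodule.Quotient.mk_eq_zero]
    exact (hI _).1 hK
  refine ⟨Q.restrictScalars k, hfin, fun E hE => ?_⟩
  exact Submodule.mem_map_of_mem hE

end Q9
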