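import Pool.Agent.LibQ9.U5Defs
import Pool.Agent.LibQ9.U1b

/-!
[Q9 U5c] (MEDIUM; may cite U1b as stated) The homogeneous pieces of the obstruction module are independent; homogeneous coefficients.

PLAN. `s0_hom`: `E e f - (β e * ψ f - β f * ψ e) = F * γ e f`. Let `β' e` = the homogeneous component of `β e` of degree `j + D e` (`0` if this is negative). Taking in the equation the component of degree `j + D e + D f + c₀` (all of
`E e f`, `ψ f`, `ψ e`, `F` are homogeneous, `ψ f` of degree `D f + c₀`) gives `E e f - (β' e * ψ f - β' f * ψ e) = F * (..)`. More generally, component by component: if a finite sum `Σ_j E_j` of families `E_j ∈ Gd j` is in `S0` then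
every `E_j` is in `S0` (`s0_comp`): take the component of degree `j + D e + D f + c₀` in position `(e, f)`, with `β` replaced by the components of degree `j + D e`. `gd_indep`: `iSupIndep` of the images: use
`iSupIndep_def` or `iSupIndep_iff_forall_dfinsupp` / `iSupIndep_of_dfinsupp_lsum_injective`: a finite sum of elements of the pieces which is `0` in the quotient has all terms `0`.
-/

set_option autoImplicit false

namespace Q9

open MvPolynomial

variable {k : Type} [Field k] {n : ℕ} {ι : Type} [Fintype ι]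

private noncomputable def U5c_h (d : ℤ) : PR k n →ₗ[k] PR k n :=
  if 0 ≤ d then homogeneousComponent d.toNat else 0

private theorem U5c_hom {a : ℕ} (d : ℤ) {r : PR k n} (hr : r.IsHomogeneous a) :
    U5c_h d r = if d = a then r else 0 := by
  unfold U5c_h
  by_cases hd : 0 ≤ d
  · rw [if_pos hd, homogeneousComponent_of_mem ((mem_homogeneousSubmodule _ _).2 hr)]
    by_cases h : d = a
    · rw [if_pos h, if_pos (by omega)]
    · rw [if_neg h, if_neg (by omega)]
  · rw [if_neg hd, if_neg (by omega)]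
    rfl

private theorem U5c_mem (d : ℤ) (r : PR k n) : em (U5c_h d r) ∈ Hg (k := k) (n := n) d := by
  unfold U5c_h
  by_cases hd : 0 ≤ d
  · rw [if_pos hd]
    have h := hg_em (homogeneousComponent_isHomogeneous d.toNat r)
    rwa [Int.toNat_of_nonneg hd] at h
  · rw [if_neg hd]
    change em (0 : PR k n) ∈ _
    rw [map_zero]
    exact zero_mem _

private theorem U5c_self {d : ℤ} {r : PR k n} (hr : em r ∈ Hg d) (d' : ℤ) :
    U5c_h d' r = if d' = d then r else 0 := by
  rcases hg_em_iff hr with rfl | ⟨a, ha, hra⟩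
  · rw [map_zero, ite_self]
  · rw [U5c_hom d' hra, ha]

private theorem U5c_mul (d δ : ℤ) (r : PR k n) {s : PR k n} (hs : em s ∈ Hg δ) :
    U5c_h (d + δ) (r * s) = U5c_h d r * s := by
  rcases hg_em_iff hs with rfl | ⟨a, ha, hsa⟩
  · rw [mul_zero, mul_zero, map_zero]
  · have hsum := sum_homogeneousComponent r
    have h1 : U5c_h (d + δ) (r * s) =
        ∑ i ∈ Finset.range (r.totalDegree + 1), U5c_h (d + δ) (homogeneousComponent i r * s) := by
      rw [← map_sum, ← Finset.sum_mul, hsum]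
    have h2 : U5c_h d r * s =
        ∑ i ∈ Finset.range (r.totalDegree + 1), U5c_h d (homogeneousComponent i r) * s := by
      rw [← Finset.sum_mul, ← map_sum, hsum]
    rw [h1, h2]
    refine Finset.sum_congr rfl fun i _ => ?_
    have h3 := homogeneousComponent_isHomogeneous i r
    rw [U5c_hom _ h3, U5c_hom _ (h3.mul hsa), ← ha]
    push_cast
    by_cases h : d = i
    · rw [if_pos h, if_pos (by omega)]
    · rw [if_neg h, if_neg (by omega), zero_mul]

private theorem U5c_main {F : PR k n} {N : ℕ} (hF : F.IsHomogeneous N) {ψ : ι → PR k n} {D : ι → ℤ}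
    {c₀ : ℤ} (hψ : ∀ e, em (ψ e) ∈ Hg (D e + c₀)) (j : ℤ) (E E0 : ι → ι → PR k n) (β : ι → PR k n)
    (hE : ∀ e f, U5c_h (j + D e + D f + c₀) (E e f) = E0 e f)
    (h : ∀ e f, F ∣ E e f - (β e * ψ f - β f * ψ e)) (e f : ι) :
    F ∣ E0 e f - (U5c_h (j + D e) (β e) * ψ f - U5c_h (j + D f) (β f) * ψ e) := by
  obtain ⟨γ, hγ⟩ := h e f
  have h1 := congrArg (U5c_h (j + D e + D f + c₀)) hγ
  rw [map_sub, map_sub, hE] at h1
  have h2 : U5c_h (j + D e + D f + c₀) (β e * ψ f) = U5c_h (j + D e) (β e) * ψ f := by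
    rw [← U5c_mul (j + D e) (D f + c₀) (β e) (hψ f)]
    congr 2
    ring
  have h3 : U5c_h (j + D e + D f + c₀) (β f * ψ e) = U5c_h (j + D f) (β f) * ψ e := by
    rw [← U5c_mul (j + D f) (D e + c₀) (β f) (hψ e)]
    congr 2
    ring
  have h4 : U5c_h (j + D e + D f + c₀) (F * γ) = U5c_h (j + D e + D f + c₀ - N) γ * F := by
    have h5 := U5c_mul (j + D e + D f + c₀ - N) (N : ℤ) γ (hg_em hF)
    rw [sub_add_cancel] at h5
    rw [mul_comm F γ, h5]
  rw [h2, h3, h4] at h1
  rw [h1]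
  exact dvd_mul_left _ _

theorem s0_comp {F : PR k n} {N : ℕ} (hF : F.IsHomogeneous N) {ψ : ι → PR k n} {D : ι → ℤ}
    {c₀ : ℤ} (hψ : ∀ e, em (ψ e) ∈ Hg (D e + c₀)) (J : Finset ℤ) (E : ℤ → ι → ι → PR k n)
    (hE : ∀ j ∈ J, E j ∈ Gd D c₀ j) (h0 : ∑ j ∈ J, E j ∈ S0 F ψ) : ∀ j ∈ J, E j ∈ S0 F ψ := by
  intro j hj
  obtain ⟨β, hβ⟩ := h0
  refine ⟨fun e => U5c_h (j + D e) (β e), U5c_main hF hψ j _ (E j) β ?_ hβ⟩
  intro e f
  rw [Finset.sum_apply, Finset.sum_apply, map_sum, Finset.sum_eq_single j]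
  · rw [U5c_self (hE j hj e f), if_pos rfl]
  · intro j' hj' hne
    rw [U5c_self (hE j' hj' e f), if_neg]
    intro h
    exact hne (by omega)
  · intro h
    exact absurd hj h

/-- homogeneous coefficients -/
theorem s0_hom {F : PR k n} {N : ℕ} (hF : F.IsHomogeneous N) {ψ : ι → PR k n} {D : ι → ℤ}
    {c₀ : ℤ} (hψ : ∀ e, em (ψ e) ∈ Hg (D e + c₀)) {j : ℤ} {E : ι → ι → PR k n}
    (hE : E ∈ Gd D c₀ j) (h0 : E ∈ S0 F ψ) :
    ∃ β : ι → PR k n, (∀ e, em (β e) ∈ Hg (j + D e)) ∧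
      ∀ e f, F ∣ E e f - (β e * ψ f - β f * ψ e) := by
  obtain ⟨β, hβ⟩ := h0
  refine ⟨fun e => U5c_h (j + D e) (β e), fun e => U5c_mem _ _, U5c_main hF hψ j E E β ?_ hβ⟩
  intro e f
  rw [U5c_self (hE e f), if_pos rfl]

theorem gd_indep {F : PR k n} {N : ℕ} (hF : F.IsHomogeneous N) {ψ : ι → PR k n} {D : ι → ℤ}
    {c₀ : ℤ} (hψ : ∀ e, em (ψ e) ∈ Hg (D e + c₀)) :
    iSupIndep fun j : ℤ => (Gd D c₀ j).map ((S0 F ψ).mkQ.restrictScalars k) := by
  rw [iSupIndep_iff_finsetSum_eq_zero_imp_eq_zero]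
  intro J v hv hv0
  have h1 : ∀ j, ∃ E : ι → ι → PR k n, j ∈ J → E ∈ Gd D c₀ j ∧ (S0 F ψ).mkQ E = v j := by
    intro j
    by_cases hj : j ∈ J
    · obtain ⟨E, hE, hEv⟩ := hv j hj
      exact ⟨E, fun _ => ⟨hE, hEv⟩⟩
    · exact ⟨0, fun h => absurd h hj⟩
  choose E hE using h1
  have h2 : ∑ j ∈ J, E j ∈ S0 F ψ := by
    rw [← Submodule.Quotient.mk_eq_zero (S0 F ψ), ← Submodule.mkQ_apply, map_sum, ← hv0]
    exact Finset.sum_congr rfl fun j hj => (hE j hj).2
  intro j hj
  have h3 := s0_comp hF hψ J E (fun j hj => (hE j hj).1) h2 j hj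
  rw [← (hE j hj).2, Submodule.mkQ_apply, Submodule.Quotient.mk_eq_zero]
  exact h3

end Q9
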