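import Pool.Agent.LibQ9.U5a
import Pool.Agent.LibQ9.U5b
import Pool.Agent.LibQ9.U5c

/-!
[Q9 U5] (MEDIUM; may cite U5a, U5b, U5c, U4 as stated) The obstruction maps: the first cohomology of a line bundle on the punctured cone is finite dimensional.

PLAN. `ι` is nonempty: otherwise `X j ^ M ∈ span {F}` for all `j` by `Cov.rad`, so the prime `F` divides `X 0` and `X 1`, impossible (`F` would be associated to both). Take `g₀ : ι`, `κ ≥ κ₀` of `clear_coc`, `ψ e` with
`em (ψ e) = em (h g₀ ^ κ * h e ^ κ) * u e g₀` (third part of `clear_coc`, commute the factors), `T` the space of `s1_fin`. `ob j c` = class of `E`, where `E` is chosen by `rel_exists` (`E ∈ S1` by `rel_s1`, so the class is in `T`);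
additive and `k`-linear by `rel_add`, `rel_smul`, `rel_unique`. `S j` = the preimage in `T` of `(Gd D c₀ j).map ((S0 F ψ).mkQ.restrictScalars k)` (`Submodule.comap T.subtype`); independence from `gd_indep` (comap along an injective map:
`iSupIndep` can be checked after `map`, e.g. `iSupIndep.map_orderIso`-style or directly from the definition with dfinsupp). `ob j c = 0` means `E ∈ S0`, then `rel_ker`.
-/

set_option autoImplicit false

namespace Q9

open MvPolynomial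

variable {k : Type} [Field k] [Infinite k] {n : ℕ} {ι : Type} [Fintype ι] {F : PR k n}
  {hp : Prime F} {N : ℕ} {h : ι → PR k n} {φ : ι → ℕ} {d : ι → ℤ}

omit [Infinite k] [Fintype ι] in
private theorem U5_nonempty (hp : Prime F) (hn : 4 ≤ n) (hC : Cov F N h φ) : Nonempty ι := by
  by_contra hne
  rw [not_nonempty_iff] at hne
  have h1 : ∀ j : Fin (n + 1), F ∣ (X j : PR k n) := by
    intro j
    obtain ⟨M, hM⟩ := hC.rad j
    rw [Set.range_eq_empty, Ideal.span_empty, bot_sup_eq, Ideal.mem_span_singleton] at hM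
    exact hp.dvd_of_dvd_pow hM
  have h2 : (⟨0, by omega⟩ : Fin (n + 1)) ≠ ⟨1, by omega⟩ := by
    intro h
    simp at h
  have hX : ∀ j : Fin (n + 1), Prime (X j : PR k n) := fun j => X_prime
  have h3 : (X ⟨0, by omega⟩ : PR k n) ∣ (X ⟨1, by omega⟩ : PR k n) :=
    ((hp.associated_of_dvd (hX _) (h1 _)).symm.dvd).trans (h1 _)
  exact h2 (X_dvd_X.mp h3)

omit [Infinite k] in
private theorem U5_indep {Q : Type} [AddCommGroup Q] [Module k Q] (T : Submodule k Q)
    (P : ℤ → Submodule k Q) (hP : iSupIndep P) :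
    iSupIndep fun j => (P j).comap T.subtype := by
  intro j
  rw [disjoint_iff, eq_bot_iff]
  rintro x ⟨hx1, hx2⟩
  rw [Submodule.mem_bot]
  apply Subtype.ext
  have h1 : (x : Q) ∈ P j := hx1
  have h2 : (x : Q) ∈ ⨆ i, ⨆ (_ : i ≠ j), P i := by
    have h3 : (x : Q) ∈ (⨆ i, ⨆ (_ : i ≠ j), (P i).comap T.subtype).map T.subtype :=
      ⟨x, hx2, rfl⟩
    rw [Submodule.map_iSup] at h3
    have h6 : (⨆ i, (⨆ (_ : i ≠ j), (P i).comap T.subtype).map T.subtype) ≤
        ⨆ i, ⨆ (_ : i ≠ j), P i := by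
      refine iSup_mono fun i => ?_
      rw [Submodule.map_iSup]
      exact iSup_mono fun _ => Submodule.map_comap_le _ _
    exact h6 h3
  have h4 := (disjoint_iff.mp (hP j))
  have h5 : (x : Q) ∈ P j ⊓ ⨆ i, ⨆ (_ : i ≠ j), P i := ⟨h1, h2⟩
  rw [h4, Submodule.mem_bot] at h5
  exact h5

theorem obstruct (hn : 4 ≤ n) (hC : Cov F N h φ) {u : ι → ι → KR k n} (hu : Coc hp h d 1 u) :
    ∃ (T : Type) (_ : AddCommGroup T) (_ : Module k T) (_ : Module.Finite k T)
      (S : ℤ → Submodule k T) (ob : ∀ j, Zt hp h d u j →ₗ[k] T),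
      iSupIndep S ∧ (∀ j, LinearMap.range (ob j) ≤ S j) ∧
        ∀ j (c : Zt hp h d u j), ob j c = 0 → Bt hp h d u j c := by
  classical
  obtain ⟨g₀⟩ := U5_nonempty hp hn hC
  obtain ⟨κ, hκ⟩ := clear_coc (h := h) hu.1
  obtain ⟨h1, h2, h3⟩ := hκ κ le_rfl
  choose ψ hψ' using fun e => h3 e g₀
  have hψ : ∀ e, em (ψ e) = em (h g₀ ^ κ * h e ^ κ) * u e g₀ := by
    intro e
    rw [← hψ' e, mul_comm (h e ^ κ)]
  obtain ⟨T, hTf, hT⟩ := s1_fin F h ψ hC.rad
  have hdeg := psi_hg hn hC hu g₀ κ h1 h2 ψ hψ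
  have hex : ∀ (j : ℤ) (c : Zt hp h d u j),
      ∃ E ∈ Gd (fun e => (κ : ℤ) * φ e + d e) ((κ : ℤ) * φ g₀ - d g₀) j,
      Rel hp h (fun e a => em (h e ^ κ) * u e a) ψ (fun e => (κ : ℤ) * φ e + d e) j
        (c : ι → ι → KR k n) E :=
    fun j c => rel_exists hn hC hu g₀ κ h1 h2 ψ hψ c.2
  choose E hEG hER using hex
  have hES : ∀ j c, E j c ∈ S1 F h ψ := fun j c => rel_s1 hn hC hu g₀ κ h1 h2 ψ hψ (hER j c)
  have huni : ∀ {j : ℤ} {c : ι → ι → KR k n} {E E' : ι → ι → PR k n},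
      Rel hp h (fun e a => em (h e ^ κ) * u e a) ψ (fun e => (κ : ℤ) * φ e + d e) j c E →
      Rel hp h (fun e a => em (h e ^ κ) * u e a) ψ (fun e => (κ : ℤ) * φ e + d e) j c E' →
      (S0 F ψ).mkQ E = (S0 F ψ).mkQ E' := by
    intro j c E E' hE hE'
    have := rel_unique hn hC hu g₀ κ h1 h2 ψ hψ hE hE'
    rw [← sub_eq_zero, ← map_sub]
    exact (Submodule.Quotient.mk_eq_zero _).mpr this
  refine ⟨T, inferInstance, inferInstance, hTf,
    fun j => ((Gd (fun e => (κ : ℤ) * φ e + d e) ((κ : ℤ) * φ g₀ - d g₀) j).map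
      ((S0 F ψ).mkQ.restrictScalars k)).comap T.subtype,
    fun j =>
      { toFun := fun c => ⟨(S0 F ψ).mkQ (E j c), hT _ (hES j c)⟩
        map_add' := ?_
        map_smul' := ?_ }, ?_, ?_, ?_⟩
  · intro c c'
    apply Subtype.ext
    change (S0 F ψ).mkQ (E j (c + c')) = (S0 F ψ).mkQ (E j c) + (S0 F ψ).mkQ (E j c')
    rw [← map_add]
    exact huni (hER j (c + c')) (rel_add (hER j c) (hER j c'))
  · intro x c
    apply Subtype.ext
    change (S0 F ψ).mkQ (E j (x • c)) = x • (S0 F ψ).mkQ (E j c)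
    have h4 : x • (S0 F ψ).mkQ (E j c) = (S0 F ψ).mkQ (x • E j c) := rfl
    rw [h4]
    exact huni (hER j (x • c)) (rel_smul x (hER j c))
  · exact U5_indep T _ (gd_indep hC.hom hdeg)
  · rintro j _ ⟨c, rfl⟩
    exact ⟨E j c, hEG j c, rfl⟩
  · intro j c hc
    have h4 : (S0 F ψ).mkQ (E j c) = 0 := congrArg Subtype.val hc
    have h5 : E j c ∈ S0 F ψ := (Submodule.Quotient.mk_eq_zero _).mp h4
    exact rel_ker hn hC hu g₀ κ h1 h2 ψ hψ c.2 (hEG j c) (hER j c) h5

end Q9
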