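import Pool.Agent.LibQ9.UDefs

/-!
# LibQ9, block U: the obstruction module

`ψ e` are polynomials, homogeneous of degree `D e + c₀`. `S0` is the submodule of the families `β e * ψ f - β f * ψ e` modulo `F`, `S1` the
families some power of every `h a` multiplies into `S0`, `Gd j` the homogeneous families of type `j`.
-/

set_option autoImplicit false

namespace Q9

open MvPolynomial

variable {k : Type} [Field k] {n : ℕ} {ι : Type}

/-- the families `β e * ψ f - β f * ψ e` modulo `F` -/
noncomputable def S0 (F : PR k n) (ψ : ι → PR k n) : Submodule (PR k n) (ι → ι → PR k n) where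
  carrier := {E | ∃ β : ι → PR k n, ∀ e f, F ∣ E e f - (β e * ψ f - β f * ψ e)}
  add_mem' := by
    rintro E E' ⟨β, h⟩ ⟨β', h'⟩
    refine ⟨β + β', fun e f => ?_⟩
    have := dvd_add (h e f) (h' e f)
    convert this using 1
    simp only [Pi.add_apply]
    ring
  zero_mem' := ⟨0, fun e f => by simp⟩
  smul_mem' := by
    rintro c E ⟨β, h⟩
    refine ⟨c • β, fun e f => ?_⟩
    have := Dvd.dvd.mul_left (h e f) c
    convert this using 1
    simp only [Pi.smul_apply, smul_eq_mul]
    ring

/-- the families which are locally in `S0` -/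
noncomputable def S1 (F : PR k n) (h ψ : ι → PR k n) : Submodule (PR k n) (ι → ι → PR k n) where
  carrier := {E | ∀ a, ∃ M : ℕ, h a ^ M • E ∈ S0 F ψ}
  add_mem' := by
    intro E E' hE hE' a
    obtain ⟨M, hM⟩ := hE a
    obtain ⟨M', hM'⟩ := hE' a
    refine ⟨M + M', ?_⟩
    rw [smul_add]
    refine add_mem ?_ ?_
    · rw [pow_add, mul_comm, mul_smul]
      exact Submodule.smul_mem _ _ hM
    · rw [pow_add, mul_smul]
      exact Submodule.smul_mem _ _ hM'
  zero_mem' := fun a => ⟨0, by simp⟩
  smul_mem' := by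
    intro c E hE a
    obtain ⟨M, hM⟩ := hE a
    refine ⟨M, ?_⟩
    rw [smul_comm]
    exact Submodule.smul_mem _ _ hM

/-- the homogeneous families of type `j` -/
noncomputable def Gd (D : ι → ℤ) (c₀ j : ℤ) : Submodule k (ι → ι → PR k n) where
  carrier := {E | ∀ e f, em (E e f) ∈ Hg (k := k) (n := n) (j + D e + D f + c₀)}
  add_mem' := by
    intro E E' h h' e f
    change em (E e f + E' e f) ∈ _
    rw [map_add]
    exact add_mem (h e f) (h' e f)
  zero_mem' := by
    intro e f
    change em (0 : PR k n) ∈ _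
    rw [map_zero]
    exact zero_mem _
  smul_mem' := by
    intro c E h e f
    change em (c • E e f) ∈ _
    have h2 : em (c • E e f) = c • em (E e f) := by
      rw [Algebra.smul_def, Algebra.smul_def, map_mul,
        IsScalarTower.algebraMap_apply k (PR k n) (KR k n)]
    rw [h2]
    exact Submodule.smul_mem _ _ (h e f)

/-- `E` represents the obstruction of the cocycle `c` -/
def Rel {F : PR k n} (hp : Prime F) (h : ι → PR k n) (t : ι → ι → KR k n) (ψ : ι → PR k n)
    (D : ι → ℤ) (j : ℤ) (c : ι → ι → KR k n) (E : ι → ι → PR k n) : Prop :=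
  ∃ b : ι → ι → KR k n, (∀ e a, b e a ∈ Lo (h a)) ∧ (∀ e a, b e a ∈ Hg (j + D e)) ∧
    (∀ e a a', t e a * c a a' - (b e a - b e a') ∈ FV hp 1) ∧
    ∀ e f a, em (E e f) - (b e a * em (ψ f) - b f a * em (ψ e)) ∈ FV hp 1

end Q9
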