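import Pool.Agent.LibQ9.U4
import Pool.Agent.LibQ9.U5c

/-!
[Q9 U5a] (MEDIUM/STRONG; may cite U1a, U1b, U1c, U3, U4, U5c as stated) The obstruction class of an additive cocycle with values in a line bundle.

NOTATION. `t e a = em (h e ^ κ) * u e a`, `em (ψ e) = em (h g₀ ^ κ * h e ^ κ) * u e g₀`, `D e = κ φ e + d e`, `c₀ = κ φ g₀ - d g₀`. So `t e a` is homogeneous of degree `D e - d a`, `ψ e` of degree `D e + c₀`, and modulo `F`:
`t e a * u a a' = t e a'`, `em (ψ e) = s a * t e a` with `s a = em (h g₀ ^ κ) * u a g₀ ∈ Lo (h a)`, so `t e a * em (ψ f) = t f a * em (ψ e)`.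

PLAN. `clear_coc`: `mem_lo` / `loI_clear`, `loI_mul_left`, finitely many conditions. `rel_exists`: `t e a * c a a'` is an additive cocycle modulo `FV hp 1`: `t e a * c a f - t e a * c a b - t e b * c b f =
t e a * (c a f - c a b - u a b * c b f) + (t e a * u a b - t e b) * c b f`. `cech1` gives `b e a` of degree `j + D e`. `b e a * em (ψ f) - b f a * em (ψ e)` is in `Lo (h a)`, of degree `j + D e + D f + c₀` and independent of `a` modulo
`FV hp 1` (the difference is `c a a' * (t e a * em (ψ f) - t f a * em (ψ e))` modulo `FV hp 1`); `cech0` with `K = 1` gives `E e f`. `rel_s1`: choose `M` with `em (h a ^ M) * b e a = em (β e)`; then `h a ^ M • E ∈ S0` with this `β`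
(`fv_em`). `rel_unique`: for two choices `b`, `b'` the difference `b e a - b' e a` is independent of `a` modulo `FV hp 1`, so `= em (β e)` by `cech0`; then `E - E' ∈ S0` (`fv_em`). `rel_ker`: `E ∈ S0` with `β`; (homogeneous) (`s0_hom` of U5c) take `β e`
of degree `j + D e`. `b' e a = b e a - em (β e)`, `ρ a = b' a a / em (h a ^ κ)`. From `b' e a * em (ψ a) - b' a a * em (ψ e) ∈ FV hp 1`, `em (ψ a) = s a * t a a`, `em (ψ e) = s a * t e a`
(modulo `F`), cancel `s a ∉ FV hp 1` (`coc_unit`) : `b' e a * t a a - b' a a * t e a ∈ FV hp 1`, `t a a - em (h a ^ κ) ∈ FV hp 1`, so `b' e a - ρ a * t e a ∈ FV hp 1`. Then `t e a * (c a a' - (ρ a - u a a' * ρ a')) ∈ FV hp 1`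
for all `e`; take `e = a`. `ρ a` has degree `j + D a - κ φ a = j + d a`. `rel_add`, `rel_smul`: direct.
-/

set_option autoImplicit false

namespace Q9

open MvPolynomial

variable {k : Type} [Field k] [Infinite k] {n : ℕ} {ι : Type} [Fintype ι] {F : PR k n}
  {hp : Prime F} {N : ℕ} {h : ι → PR k n} {φ : ι → ℕ} {d : ι → ℤ}

omit [Infinite k] [Fintype ι] in
private theorem U5a_t2 {u : ι → ι → KR k n} (hu : Coc hp h d 1 u) (κ : ℕ) (e a a' : ι) :
    (em (h e ^ κ) * u e a) * u a a' - em (h e ^ κ) * u e a' ∈ FV hp 1 := by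
  have h1 := hu.2.2.1 e a a'
  have h2 := Submodule.smul_mem _ (h e ^ κ) h1
  rw [Algebra.smul_def] at h2
  convert h2 using 1
  ring

omit [Infinite k] [Fintype ι] in
private theorem U5a_p2 {u : ι → ι → KR k n} (hu : Coc hp h d 1 u) (g₀ : ι) (κ : ℕ)
    (ψ : ι → PR k n) (hψ : ∀ e, em (ψ e) = em (h g₀ ^ κ * h e ^ κ) * u e g₀) (e a : ι) :
    em (ψ e) - (em (h g₀ ^ κ) * u a g₀) * (em (h e ^ κ) * u e a) ∈ FV hp 1 := by
  have h1 := hu.2.2.1 e a g₀
  have h2 := Submodule.smul_mem _ (-(h g₀ ^ κ * h e ^ κ)) h1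
  rw [Algebra.smul_def] at h2
  rw [hψ e]
  convert h2 using 1
  rw [map_neg, map_mul]
  ring

omit [Infinite k] [Fintype ι] in
private theorem U5a_lo_mul (hC : Cov F N h φ) {a : ι} {v w : KR k n} (hv : v ∈ Lo (h a))
    (hw : w ∈ FV hp 1) : v * w ∈ FV hp 1 := fv_mul_lo hp (hC.nd a) hv hw

omit [Infinite k] [Fintype ι] in
private theorem U5a_lo2_mul (hC : Cov F N h φ) {a b : ι} {v w : KR k n}
    (hv : v ∈ Lo (h a * h b)) (hw : w ∈ FV hp 1) : v * w ∈ FV hp 1 :=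
  fv_mul_lo hp (not_dvd_mul hp (hC.nd a) (hC.nd b)) hv hw

omit [Infinite k] [Fintype ι] in
private theorem U5a_em_mul (r : PR k n) {w : KR k n} (hw : w ∈ FV hp 1) :
    em r * w ∈ FV hp 1 := by
  have h2 := Submodule.smul_mem _ r hw
  rwa [Algebra.smul_def] at h2

omit [Infinite k] [Fintype ι] in
private theorem U5a_p3 (hC : Cov F N h φ) {u : ι → ι → KR k n} (hu : Coc hp h d 1 u) (g₀ : ι)
    (κ : ℕ) (h1 : ∀ e a, em (h e ^ κ) * u e a ∈ Lo (h a))
    (ψ : ι → PR k n) (hψ : ∀ e, em (ψ e) = em (h g₀ ^ κ * h e ^ κ) * u e g₀) (e f a : ι) :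
    (em (h e ^ κ) * u e a) * em (ψ f) - (em (h f ^ κ) * u f a) * em (ψ e) ∈ FV hp 1 := by
  have e1 := U5a_lo_mul hC (h1 e a) (U5a_p2 hu g₀ κ ψ hψ f a)
  have e2 := U5a_lo_mul hC (h1 f a) (U5a_p2 hu g₀ κ ψ hψ e a)
  have e3 := sub_mem e1 e2
  convert e3 using 1
  ring

omit [Infinite k] [Fintype ι] in
private theorem U5a_hpow (hC : Cov F N h φ) (κ : ℕ) (e : ι) :
    em (h e ^ κ) ∈ Hg (k := k) (n := n) ((κ : ℤ) * φ e) := by
  have h1 := hg_em ((hC.hh e).pow κ)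
  have h2 : ((φ e * κ : ℕ) : ℤ) = (κ : ℤ) * φ e := by
    push_cast
    ring
  rwa [h2] at h1

omit [Infinite k] [Fintype ι] in
private theorem U5a_thg (hC : Cov F N h φ) {u : ι → ι → KR k n} (hu : Coc hp h d 1 u) (κ : ℕ)
    (e a : ι) : em (h e ^ κ) * u e a ∈ Hg (((κ : ℤ) * φ e + d e) - d a) := by
  have h1 := hg_mul (U5a_hpow hC κ e) (hu.2.1 e a)
  have h2 : (κ : ℤ) * φ e + (d e - d a) = ((κ : ℤ) * φ e + d e) - d a := by ring
  rwa [h2] at h1

omit [Infinite k] [Fintype ι] in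
private theorem U5a_pow_unit (hC : Cov F N h φ) (κ : ℕ) (a : ι) :
    em (h a ^ κ) ∈ FV hp 0 ∧ em (h a ^ κ) ∉ FV hp 1 := by
  constructor
  · rw [fv_em]
    simp
  · rw [fv_em, pow_one]
    intro h1
    exact hC.nd a (hp.dvd_of_dvd_pow h1)

theorem clear_coc {u : ι → ι → KR k n} (hu : ∀ a b, u a b ∈ Lo (h a * h b)) :
    ∃ κ₀ : ℕ, ∀ κ, κ₀ ≤ κ → (∀ e a, em (h e ^ κ) * u e a ∈ Lo (h a)) ∧
      (∀ e a, em (h e ^ κ) * u a e ∈ Lo (h a)) ∧
      ∀ e f, ∃ r : PR k n, em (h e ^ κ * h f ^ κ) * u e f = em r := by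
  have e1 : ∀ e a, ∃ s₀ : ℕ, ∀ s, s₀ ≤ s → em (h e ^ s) * u e a ∈ Lo (h a) := by
    intro e a
    have h0 : u e a ∈ LoI ⊤ (h a * h e) := by
      rw [mul_comm]
      exact hu e a
    exact loI_mul_left h0
  have e2 : ∀ e a, ∃ s₀ : ℕ, ∀ s, s₀ ≤ s → em (h e ^ s) * u a e ∈ Lo (h a) := by
    intro e a
    have h0 : u a e ∈ LoI ⊤ (h a * h e) := hu a e
    exact loI_mul_left h0
  have e3 : ∀ e f, ∃ s₀ : ℕ, ∀ s, s₀ ≤ s →
      ∃ r : PR k n, em (h e ^ s * h f ^ s) * u e f = em r := by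
    intro e f
    have h0 : u e f ∈ LoI ⊤ (h e * h f) := hu e f
    obtain ⟨s₀, hs⟩ := loI_clear h0
    refine ⟨s₀, fun s h1 => ?_⟩
    obtain ⟨r, -, hr⟩ := hs s h1
    refine ⟨r, ?_⟩
    rw [← mul_pow]
    exact hr
  choose s1 hs1 using e1
  choose s2 hs2 using e2
  choose s3 hs3 using e3
  have hle : ∀ (s : ι → ι → ℕ) (a b : ι), s a b ≤ ∑ a, ∑ b, s a b := by
    intro s a b
    have h3 : s a b ≤ ∑ b, s a b :=
      Finset.single_le_sum (f := fun b => s a b) (fun _ _ => Nat.zero_le _) (Finset.mem_univ b)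
    have h4 : ∑ b, s a b ≤ ∑ a, ∑ b, s a b :=
      Finset.single_le_sum (f := fun a => ∑ b, s a b) (fun _ _ => Nat.zero_le _)
        (Finset.mem_univ a)
    exact h3.trans h4
  refine ⟨(∑ a, ∑ b, s1 a b) + (∑ a, ∑ b, s2 a b) + (∑ a, ∑ b, s3 a b), fun κ hκ => ?_⟩
  refine ⟨fun e a => hs1 e a κ ?_, fun e a => hs2 e a κ ?_, fun e f => hs3 e f κ ?_⟩
  · have := hle s1 e a
    omega
  · have := hle s2 e a
    omega
  · have := hle s3 e f
    omega

section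

variable (hn : 4 ≤ n) (hC : Cov F N h φ) {u : ι → ι → KR k n} (hu : Coc hp h d 1 u) (g₀ : ι)
  (κ : ℕ) (h1 : ∀ e a, em (h e ^ κ) * u e a ∈ Lo (h a))
  (h2 : ∀ e a, em (h e ^ κ) * u a e ∈ Lo (h a)) (ψ : ι → PR k n)
  (hψ : ∀ e, em (ψ e) = em (h g₀ ^ κ * h e ^ κ) * u e g₀)

include hn hC hu h1 h2 hψ

theorem psi_hg (e : ι) : em (ψ e) ∈ Hg (((κ : ℤ) * φ e + d e) + ((κ : ℤ) * φ g₀ - d g₀)) := by
  have e1 := hg_mul (hg_mul (U5a_hpow hC κ g₀) (U5a_hpow hC κ e)) (hu.2.1 e g₀)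
  rw [hψ e, map_mul]
  have e2 : (κ : ℤ) * φ g₀ + (κ : ℤ) * φ e + (d e - d g₀) =
      ((κ : ℤ) * φ e + d e) + ((κ : ℤ) * φ g₀ - d g₀) := by ring
  rwa [e2] at e1

theorem rel_exists {j : ℤ} {c : ι → ι → KR k n} (hc : c ∈ Zt hp h d u j) :
    ∃ E ∈ Gd (fun e => (κ : ℤ) * φ e + d e) ((κ : ℤ) * φ g₀ - d g₀) j,
      Rel hp h (fun e a => em (h e ^ κ) * u e a) ψ (fun e => (κ : ℤ) * φ e + d e) j c E := by
  obtain ⟨hc1, hc2, hc3⟩ := hc
  have key : ∀ e, ∃ b : ι → KR k n, (∀ a, b a ∈ Lo (h a)) ∧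
      (∀ a, b a ∈ Hg (j + ((κ : ℤ) * φ e + d e))) ∧
      ∀ a a', em (h e ^ κ) * u e a * c a a' - (b a - b a') ∈ FV hp 1 := by
    intro e
    refine cech1 hp hn hC (j + ((κ : ℤ) * φ e + d e))
      (fun a a' => em (h e ^ κ) * u e a * c a a') (fun a b => ?_) (fun a b => ?_)
      (fun a b f => ?_)
    · exact lo_mul (lo_of_dvd (dvd_mul_right _ _) (h1 e a)) (hc1 a b)
    · have e1 := hg_mul (U5a_thg hC hu κ e a) (hc2 a b)
      have e2 : (((κ : ℤ) * φ e + d e) - d a) + (j + d a) = j + ((κ : ℤ) * φ e + d e) := by ring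
      rwa [e2] at e1
    · have e1 := U5a_lo_mul hC (h1 e a) (hc3 a b f)
      have e2 := U5a_lo2_mul hC (hc1 b f) (U5a_t2 hu κ e a b)
      have e3 := neg_mem (add_mem e1 e2)
      convert e3 using 1
      ring
  choose b hb1 hb2 hb3 using key
  have key2 : ∀ e f, ∃ E : PR k n, em E ∈ Hg (j + ((κ : ℤ) * φ e + d e) +
      ((κ : ℤ) * φ f + d f) + ((κ : ℤ) * φ g₀ - d g₀)) ∧
      ∀ a, (b e a * em (ψ f) - b f a * em (ψ e)) - em E ∈ FV hp 1 := by
    intro e f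
    refine cech0 hp hn hC 1 _ (fun a => b e a * em (ψ f) - b f a * em (ψ e)) (fun a => ?_)
      (fun a => ?_) (fun a a' => ?_)
    · exact sub_mem (lo_mul (hb1 e a) (em_mem_lo _ _)) (lo_mul (hb1 f a) (em_mem_lo _ _))
    · have e1 := hg_mul (hb2 e a) (psi_hg hn hC hu g₀ κ h1 h2 ψ hψ f)
      have e2 := hg_mul (hb2 f a) (psi_hg hn hC hu g₀ κ h1 h2 ψ hψ e)
      have e3 : j + ((κ : ℤ) * φ e + d e) + ((κ : ℤ) * φ f + d f + ((κ : ℤ) * φ g₀ - d g₀)) =
        j + ((κ : ℤ) * φ e + d e) + ((κ : ℤ) * φ f + d f) + ((κ : ℤ) * φ g₀ - d g₀) := by ring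
      have e4 : j + ((κ : ℤ) * φ f + d f) + ((κ : ℤ) * φ e + d e + ((κ : ℤ) * φ g₀ - d g₀)) =
        j + ((κ : ℤ) * φ e + d e) + ((κ : ℤ) * φ f + d f) + ((κ : ℤ) * φ g₀ - d g₀) := by ring
      rw [e3] at e1
      rw [e4] at e2
      exact sub_mem e1 e2
    · have e1 := U5a_em_mul (ψ f) (hb3 e a a')
      have e2 := U5a_em_mul (ψ e) (hb3 f a a')
      have e3 := U5a_lo2_mul hC (hc1 a a') (U5a_p3 hC hu g₀ κ h1 ψ hψ e f a)
      have e4 := add_mem (sub_mem e2 e1) e3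
      convert e4 using 1
      ring
  choose E hE1 hE2 using key2
  refine ⟨E, hE1, b, hb1, hb2, hb3, fun e f a => ?_⟩
  have e1 := neg_mem (hE2 e f a)
  convert e1 using 1
  ring

theorem rel_s1 {j : ℤ} {c : ι → ι → KR k n} {E : ι → ι → PR k n}
    (hE : Rel hp h (fun e a => em (h e ^ κ) * u e a) ψ (fun e => (κ : ℤ) * φ e + d e) j c E) :
    E ∈ S1 F h ψ := by
  obtain ⟨b, hb1, hb2, hb3, hb4⟩ := hE
  intro a
  have key : ∀ e, ∃ s₀ : ℕ, ∀ s, s₀ ≤ s → ∃ r : PR k n, em (h a ^ s) * b e a = em r := by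
    intro e
    have h0 : b e a ∈ LoI ⊤ (h a) := hb1 e a
    obtain ⟨s₀, hs⟩ := loI_clear h0
    refine ⟨s₀, fun s h3 => ?_⟩
    obtain ⟨r, -, hr⟩ := hs s h3
    exact ⟨r, hr⟩
  choose s hs using key
  have hle : ∀ e, s e ≤ ∑ e, s e := fun e =>
    Finset.single_le_sum (f := fun e => s e) (fun _ _ => Nat.zero_le _) (Finset.mem_univ e)
  have key2 : ∀ e, ∃ r : PR k n, em (h a ^ (∑ e, s e)) * b e a = em r := fun e =>
    hs e _ (hle e)
  choose β hβ using key2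
  refine ⟨∑ e, s e, β, fun e f => ?_⟩
  rw [← pow_one F, ← fv_em hp]
  have e1 := U5a_em_mul (h a ^ (∑ e, s e)) (hb4 e f a)
  have e2 : em ((h a ^ (∑ e, s e) • E) e f - (β e * ψ f - β f * ψ e)) =
      em (h a ^ (∑ e, s e)) * em (E e f) - (em (β e) * em (ψ f) - em (β f) * em (ψ e)) := by
    simp only [Pi.smul_apply, smul_eq_mul, map_sub, map_mul]
  rw [e2, ← hβ e, ← hβ f]
  convert e1 using 1
  ring

theorem rel_unique {j : ℤ} {c : ι → ι → KR k n} {E E' : ι → ι → PR k n}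
    (hE : Rel hp h (fun e a => em (h e ^ κ) * u e a) ψ (fun e => (κ : ℤ) * φ e + d e) j c E)
    (hE' : Rel hp h (fun e a => em (h e ^ κ) * u e a) ψ (fun e => (κ : ℤ) * φ e + d e) j c E') :
    E - E' ∈ S0 F ψ := by
  obtain ⟨b, hb1, hb2, hb3, hb4⟩ := hE
  obtain ⟨b', hb1', hb2', hb3', hb4'⟩ := hE'
  have key : ∀ e, ∃ β : PR k n, em β ∈ Hg (j + ((κ : ℤ) * φ e + d e)) ∧
      ∀ a, (b e a - b' e a) - em β ∈ FV hp 1 := by
    intro e
    refine cech0 hp hn hC 1 _ (fun a => b e a - b' e a) (fun a => ?_) (fun a => ?_)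
      (fun a a' => ?_)
    · exact sub_mem (hb1 e a) (hb1' e a)
    · exact sub_mem (hb2 e a) (hb2' e a)
    · have e1 := sub_mem (hb3' e a a') (hb3 e a a')
      convert e1 using 1
      ring
  choose β hβ1 hβ2 using key
  refine ⟨β, fun e f => ?_⟩
  rw [← pow_one F, ← fv_em hp]
  have e1 := sub_mem (hb4 e f e) (hb4' e f e)
  have e2 := sub_mem (U5a_em_mul (ψ f) (hβ2 e e)) (U5a_em_mul (ψ e) (hβ2 f e))
  have e3 := add_mem e1 e2
  have e4 : em ((E - E') e f - (β e * ψ f - β f * ψ e)) =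
      em (E e f) - em (E' e f) - (em (β e) * em (ψ f) - em (β f) * em (ψ e)) := by
    simp only [Pi.sub_apply, map_sub, map_mul]
  rw [e4]
  convert e3 using 1
  ring

theorem rel_ker {j : ℤ} {c : ι → ι → KR k n} (hc : c ∈ Zt hp h d u j) {E : ι → ι → PR k n}
    (hG : E ∈ Gd (fun e => (κ : ℤ) * φ e + d e) ((κ : ℤ) * φ g₀ - d g₀) j)
    (hE : Rel hp h (fun e a => em (h e ^ κ) * u e a) ψ (fun e => (κ : ℤ) * φ e + d e) j c E)
    (hE0 : E ∈ S0 F ψ) : Bt hp h d u j c := by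
  obtain ⟨b, hb1, hb2, hb3, hb4⟩ := hE
  obtain ⟨hc1, hc2, hc3⟩ := hc
  obtain ⟨β, hβ1, hβ2⟩ := s0_hom hC.hom (psi_hg hn hC hu g₀ κ h1 h2 ψ hψ) hG hE0
  have g1 : ∀ e a, b e a - em (β e) ∈ Lo (h a) := fun e a =>
    sub_mem (hb1 e a) (em_mem_lo _ _)
  have g2 : ∀ e f a, (b e a - em (β e)) * em (ψ f) - (b f a - em (β f)) * em (ψ e) ∈
      FV hp 1 := by
    intro e f a
    have e1 := hβ2 e f
    rw [← pow_one F, ← fv_em hp] at e1
    have e2 := sub_mem e1 (hb4 e f a)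
    have e4 : em (E e f - (β e * ψ f - β f * ψ e)) =
        em (E e f) - (em (β e) * em (ψ f) - em (β f) * em (ψ e)) := by
      simp only [map_sub, map_mul]
    rw [e4] at e2
    convert e2 using 1
    ring
  have hs1 : ∀ a, em (h g₀ ^ κ) * u a g₀ ∈ FV hp 0 := fun a =>
    fv_lo hp (hC.nd a) (h2 g₀ a)
  have hs2 : ∀ a, em (h g₀ ^ κ) * u a g₀ ∉ FV hp 1 := by
    intro a e1
    have e2 := U5a_pow_unit (hp := hp) hC κ g₀
    exact (coc_unit hC hu a g₀).2 (fv_cancel hp e2.1 e2.2 e1)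
  have hta : ∀ a, em (h a ^ κ) * u a a - em (h a ^ κ) ∈ FV hp 1 := by
    intro a
    have e1 := U5a_em_mul (h a ^ κ) (hu.2.2.2 a)
    convert e1 using 1
    ring
  have g3 : ∀ e a, (b e a - em (β e)) * (em (h a ^ κ) * u a a) -
      (b a a - em (β a)) * (em (h e ^ κ) * u e a) ∈ FV hp 1 := by
    intro e a
    refine fv_cancel hp (hs1 a) (hs2 a) ?_
    have e1 := g2 e a a
    have e2 := U5a_lo_mul hC (g1 e a) (U5a_p2 hu g₀ κ ψ hψ a a)
    have e3 := U5a_lo_mul hC (g1 a a) (U5a_p2 hu g₀ κ ψ hψ e a)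
    have e4 := add_mem (sub_mem e1 e2) e3
    convert e4 using 1
    ring
  have hne : ∀ a, em (h a ^ κ) ≠ 0 := by
    intro a
    refine em_ne (pow_ne_zero _ ?_)
    intro h0
    exact hC.nd a (by rw [h0]; exact dvd_zero _)
  have g4 : ∀ e a, (b e a - em (β e)) -
      (b a a - em (β a)) / em (h a ^ κ) * (em (h e ^ κ) * u e a) ∈ FV hp 1 := by
    intro e a
    have e0 := U5a_pow_unit (hp := hp) hC κ a
    refine fv_cancel hp e0.1 e0.2 ?_
    have e1 := U5a_lo_mul hC (g1 e a) (hta a)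
    have e2 := sub_mem (g3 e a) e1
    have e3 : em (h a ^ κ) * ((b a a - em (β a)) / em (h a ^ κ)) = b a a - em (β a) :=
      mul_div_cancel₀ _ (hne a)
    convert e2 using 1
    rw [mul_sub, ← mul_assoc, e3]
    ring
  have g5 : ∀ a, (b a a - em (β a)) / em (h a ^ κ) ∈ Lo (h a) := by
    intro a
    refine loI_of_pow_mul κ ?_
    rw [mul_div_cancel₀ _ (hne a)]
    exact g1 a a
  refine ⟨fun a => (b a a - em (β a)) / em (h a ^ κ), g5, fun a => ?_, fun a a' => ?_⟩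
  · have e1 := hg_mul (sub_mem (hb2 a a) (hβ1 a)) (hg_inv (U5a_hpow hC κ a))
    have e2 : (j + ((κ : ℤ) * φ a + d a)) + -((κ : ℤ) * φ a) = j + d a := by ring
    rw [e2, ← div_eq_mul_inv] at e1
    exact e1
  · have e0 := U5a_pow_unit (hp := hp) hC κ a
    have t1 : em (h a ^ κ) * u a a ∈ FV hp 0 := fv_lo hp (hC.nd a) (h1 a a)
    have t2 : em (h a ^ κ) * u a a ∉ FV hp 1 := by
      intro e1
      apply e0.2
      have e2 := sub_mem e1 (hta a)
      convert e2 using 1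
      ring
    refine fv_cancel hp t1 t2 ?_
    have e1 := hb3 a a a'
    have e2 := g4 a a
    have e3 := g4 a a'
    have e4 := U5a_lo_mul hC (g5 a') (U5a_t2 hu κ a a a')
    have e5 := add_mem (add_mem (sub_mem e1 e3) e4) e2
    convert e5 using 1
    ring

end

theorem rel_add {t : ι → ι → KR k n} {ψ : ι → PR k n} {D : ι → ℤ} {j : ℤ}
    {c c' : ι → ι → KR k n} {E E' : ι → ι → PR k n} (hE : Rel hp h t ψ D j c E)
    (hE' : Rel hp h t ψ D j c' E') : Rel hp h t ψ D j (c + c') (E + E') := by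
  obtain ⟨b, hb1, hb2, hb3, hb4⟩ := hE
  obtain ⟨b', hb1', hb2', hb3', hb4'⟩ := hE'
  refine ⟨b + b', fun e a => add_mem (hb1 e a) (hb1' e a),
    fun e a => add_mem (hb2 e a) (hb2' e a), fun e a a' => ?_, fun e f a => ?_⟩
  · have e1 := add_mem (hb3 e a a') (hb3' e a a')
    convert e1 using 1
    simp only [Pi.add_apply]
    ring
  · have e1 := add_mem (hb4 e f a) (hb4' e f a)
    convert e1 using 1
    simp only [Pi.add_apply, map_add]
    ring

theorem rel_smul {t : ι → ι → KR k n} {ψ : ι → PR k n} {D : ι → ℤ} {j : ℤ} (x : k)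
    {c : ι → ι → KR k n} {E : ι → ι → PR k n} (hE : Rel hp h t ψ D j c E) :
    Rel hp h t ψ D j (x • c) (x • E) := by
  obtain ⟨b, hb1, hb2, hb3, hb4⟩ := hE
  have h5 : ∀ v : KR k n, x • v = (C x : PR k n) • v := by
    intro v
    rw [Algebra.smul_def, Algebra.smul_def, IsScalarTower.algebraMap_apply k (PR k n) (KR k n)]
    rfl
  have h6 : ∀ r : PR k n, em (x • r) = em (C x) * em r := by
    intro r
    rw [← map_mul, MvPolynomial.smul_eq_C_mul]
  refine ⟨x • b, fun e a => ?_, fun e a => Submodule.smul_mem _ _ (hb2 e a),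
    fun e a a' => ?_, fun e f a => ?_⟩
  · change x • b e a ∈ _
    rw [h5]
    exact Submodule.smul_mem _ _ (hb1 e a)
  · have e1 := U5a_em_mul (C x) (hb3 e a a')
    convert e1 using 1
    simp only [Pi.smul_apply]
    rw [h5, h5, h5, Algebra.smul_def, Algebra.smul_def, Algebra.smul_def]
    ring
  · have e1 := U5a_em_mul (C x) (hb4 e f a)
    convert e1 using 1
    simp only [Pi.smul_apply]
    rw [h5, h5, h6, Algebra.smul_def, Algebra.smul_def]
    ring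

end Q9
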