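import Mathlib

/-!
[Q9 U6] (MEDIUM, ONLY MATHLIB, pure linear algebra) Successive obstructions in independent subspaces of a finite dimensional space.

PLAN. `W K = M K ⊔ N 1` (`K ≥ 1`), `W 1 = M 1`, decreasing. `W K / W (K + 1)` has dimension `≤ finrank (range (ob K)) ≤ finrank T`, and is `0` if `S K = ⊥`: `M K / ker (ob K) ≃ range (ob K)`, and `ker (ob K) ⊆ M (K+1) ⊔ N K ⊆ W (K+1)`
(`N K ≤ N 1`). Only finitely many `S K` are nonzero, at most `finrank T` (`iSupIndep.subtype_ne_bot_le_finrank`, `iSupIndep.finite_ne_bot_of_wellFoundedGT` or similar). So for all `K` the quotient `M 1 / W K` has dimension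
`≤ (finrank T)^2 ≤ C`; hence among `C + 1` vectors of `M 1` a nontrivial combination `v = Σ x i • v i` is in `W K₀`, where `K₀ ≥ 1` is so large that `S K = ⊥` for all `K ≥ K₀`. (For example: the map `M 1 → M 1 / W K₀` has rank `≤ C`, or:
prove by induction on `K` that the space `{x : Fin (C+1) → k | Σ x i • v i ∈ W K}` has codimension at most the number of `i < K` with `S i ≠ ⊥` times `finrank T`.) Write `v = w' + ν`, `w' ∈ M K₀`, `ν ∈ N 1`. Put
`w 1 = v`, `w K = w'` for `2 ≤ K ≤ K₀` (if `K₀ = 1`, `v` itself), and for `K ≥ K₀` choose recursively `w (K+1) ∈ M (K+1)` with `w (K+1) - w K ∈ N K` (`ob K (w K) ∈ S K = ⊥`, so `hker` applies). `M`, `N` decreasing for indices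
`≥ 1` makes all conditions true for `1 ≤ K < K₀`.
-/

set_option autoImplicit false

namespace Q9

private theorem U6_anti {k : Type} [Field k] {V : Type} [AddCommGroup V] [Module k V]
    (M : ℕ → Submodule k V) (hM : ∀ K, 1 ≤ K → M (K + 1) ≤ M K) (a b : ℕ) (ha : 1 ≤ a)
    (hab : a ≤ b) : M b ≤ M a := by
  induction b, hab using Nat.le_induction with
  | base => exact le_rfl
  | succ n hn ih => exact (hM n (le_trans ha hn)).trans ih

private theorem U6_step {k : Type} [Field k] {V T : Type} [AddCommGroup V] [Module k V]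
    [AddCommGroup T] [Module k T] [Module.Finite k T] (A B N' : Submodule k V) (hNB : N' ≤ B)
    (S : Submodule k T) (ob : A →ₗ[k] T) (hob : LinearMap.range ob ≤ S)
    (hker : ∀ v : A, ob v = 0 → (v : V) ∈ B) {E : Type} [AddCommGroup E] [Module k E]
    [Module.Finite k E] (L : E →ₗ[k] V) :
    Module.finrank k (Submodule.comap L (A ⊔ N')) ≤
      Module.finrank k (Submodule.comap L B) + Module.finrank k S := by
  -- the map `A → V ⧸ B`
  let f : A →ₗ[k] (V ⧸ B) := B.mkQ ∘ₗ A.subtype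
  have hf : LinearMap.ker ob ≤ LinearMap.ker f := by
    intro v hv
    rw [LinearMap.mem_ker] at hv ⊢
    change B.mkQ (v : V) = 0
    rw [Submodule.mkQ_apply, Submodule.Quotient.mk_eq_zero]
    exact hker v hv
  let g : LinearMap.range ob →ₗ[k] (V ⧸ B) :=
    ((LinearMap.ker ob).liftQ f hf) ∘ₗ (ob.quotKerEquivRange.symm : _ →ₗ[k] _)
  have hg : ∀ v : A, g ⟨ob v, LinearMap.mem_range_self ob v⟩ = f v := by
    intro v
    change ((LinearMap.ker ob).liftQ f hf) (ob.quotKerEquivRange.symm ⟨ob v, _⟩) = f v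
    have : ob.quotKerEquivRange.symm ⟨ob v, LinearMap.mem_range_self ob v⟩ =
        Submodule.Quotient.mk v := by
      rw [LinearEquiv.symm_apply_eq]
      rfl
    rw [this]
    rfl
  let h : Submodule.comap L (A ⊔ N') →ₗ[k] (V ⧸ B) :=
    B.mkQ ∘ₗ L ∘ₗ (Submodule.comap L (A ⊔ N')).subtype
  have hh : LinearMap.range h ≤ LinearMap.range g := by
    rintro _ ⟨⟨x, hx⟩, rfl⟩
    rw [Submodule.mem_comap, Submodule.mem_sup] at hx
    obtain ⟨m, hm, n, hn, hmn⟩ := hx
    refine ⟨⟨ob ⟨m, hm⟩, LinearMap.mem_range_self ob _⟩, ?_⟩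
    rw [hg]
    change B.mkQ m = B.mkQ (L x)
    rw [← hmn, map_add]
    have : B.mkQ n = 0 := by
      rw [Submodule.mkQ_apply, Submodule.Quotient.mk_eq_zero]
      exact hNB hn
    rw [this, add_zero]
  have h1 : Module.finrank k (LinearMap.range h) ≤ Module.finrank k S :=
    (Submodule.finrank_mono hh).trans ((LinearMap.finrank_range_le g).trans
      (Submodule.finrank_mono hob))
  have h2 := LinearMap.finrank_range_add_finrank_ker h
  have h3 : Module.finrank k (LinearMap.ker h) ≤ Module.finrank k (Submodule.comap L B) := by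
    let j : LinearMap.ker h →ₗ[k] Submodule.comap L B :=
      LinearMap.codRestrict _ ((Submodule.comap L (A ⊔ N')).subtype ∘ₗ (LinearMap.ker h).subtype)
        (by
          rintro ⟨⟨x, hx⟩, hxk⟩
          rw [LinearMap.mem_ker] at hxk
          change B.mkQ (L x) = 0 at hxk
          rw [Submodule.mkQ_apply, Submodule.Quotient.mk_eq_zero] at hxk
          exact hxk)
    refine LinearMap.finrank_le_finrank_of_injective (f := j) ?_
    rintro ⟨⟨x, hx⟩, hxk⟩ ⟨⟨y, hy⟩, hyk⟩ hxy
    have : x = y := congrArg (fun z : Submodule.comap L B => (z : E)) hxy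
    subst this
    rfl
  omega

private theorem U6_sum {k : Type} [Field k] {T : Type} [AddCommGroup T]
    [Module k T] [Module.Finite k T] (S : ℕ → Submodule k T) (hS : iSupIndep S) (s : Finset ℕ) :
    ∑ i ∈ s, Module.finrank k (S i) ≤ Module.finrank k T ^ 2 := by
  classical
  have hfin : {i | S i ≠ ⊥}.Finite := WellFoundedGT.finite_ne_bot_of_iSupIndep hS
  have : Fintype {i // S i ≠ ⊥} := hfin.fintype
  have hcard : Fintype.card {i // S i ≠ ⊥} ≤ Module.finrank k T := hS.subtype_ne_bot_le_finrank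
  have h1 : ∑ i ∈ s, Module.finrank k (S i) =
      ∑ i ∈ s.filter (fun i => S i ≠ ⊥), Module.finrank k (S i) := by
    rw [Finset.sum_filter]
    refine Finset.sum_congr rfl ?_
    intro i _
    split_ifs with hi
    · rfl
    · rw [not_not] at hi
      rw [hi, finrank_bot]
  have h2 : (s.filter (fun i => S i ≠ ⊥)).card ≤ Fintype.card {i // S i ≠ ⊥} := by
    rw [← Finset.card_univ, ← Finset.card_map (Function.Embedding.subtype _)]
    refine Finset.card_le_card ?_
    intro i hi
    rw [Finset.mem_filter] at hi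
    rw [Finset.mem_map]
    exact ⟨⟨i, hi.2⟩, Finset.mem_univ _, rfl⟩
  rw [h1, pow_two]
  calc ∑ i ∈ s.filter (fun i => S i ≠ ⊥), Module.finrank k (S i)
      ≤ ∑ i ∈ s.filter (fun i => S i ≠ ⊥), Module.finrank k T :=
        Finset.sum_le_sum (fun i _ => Submodule.finrank_le _)
    _ = (s.filter (fun i => S i ≠ ⊥)).card * Module.finrank k T := by
        rw [Finset.sum_const, smul_eq_mul]
    _ ≤ Module.finrank k T * Module.finrank k T := Nat.mul_le_mul_right _ (h2.trans hcard)

theorem lin_alg {k : Type} [Field k] {V T : Type} [AddCommGroup V] [Module k V] [AddCommGroup T]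
    [Module k T] [Module.Finite k T] (M N : ℕ → Submodule k V)
    (hM : ∀ K, 1 ≤ K → M (K + 1) ≤ M K) (hN : ∀ K, 1 ≤ K → N (K + 1) ≤ N K)
    (hNM : ∀ K, 1 ≤ K → N K ≤ M K) (S : ℕ → Submodule k T) (hS : iSupIndep S)
    (ob : ∀ K, M K →ₗ[k] T) (hob : ∀ K, 1 ≤ K → LinearMap.range (ob K) ≤ S K)
    (hker : ∀ K, 1 ≤ K → ∀ v : M K, ob K v = 0 → (v : V) ∈ M (K + 1) ⊔ N K)
    (C : ℕ) (hC : Module.finrank k T ^ 2 ≤ C) (v : Fin (C + 1) → V) (hv : ∀ i, v i ∈ M 1) :
    ∃ x : Fin (C + 1) → k, x ≠ 0 ∧ ∃ w : ℕ → V, w 1 = ∑ i, x i • v i ∧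
      ∀ K, 1 ≤ K → w K ∈ M K ∧ w (K + 1) - w K ∈ N K := by
  classical
  let L : (Fin (C + 1) → k) →ₗ[k] V := Fintype.linearCombination k v
  have hL : ∀ x, L x = ∑ i, x i • v i := fun x => Fintype.linearCombination_apply k v x
  have hN1 : ∀ K, 1 ≤ K → N K ≤ N 1 := fun K hK => U6_anti N hN 1 K le_rfl hK
  -- the codimension estimate
  have hdim : ∀ K, 1 ≤ K → C + 1 ≤ Module.finrank k (Submodule.comap L (M K ⊔ N 1)) +
      ∑ i ∈ Finset.Ico 1 K, Module.finrank k (S i) := by
    intro K hK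
    induction K, hK using Nat.le_induction with
    | base =>
      have htop : Submodule.comap L (M 1 ⊔ N 1) = ⊤ := by
        rw [eq_top_iff]
        intro x _
        rw [Submodule.mem_comap, hL]
        exact Submodule.mem_sup_left (Submodule.sum_mem _ fun i _ =>
          Submodule.smul_mem _ _ (hv i))
      rw [htop, finrank_top, Module.finrank_fin_fun]
      omega
    | succ K hK ih =>
      have h1 := U6_step (M K) (M (K + 1) ⊔ N 1) (N 1) le_sup_right (S K) (ob K) (hob K hK)
        (fun u hu => (sup_le_sup le_rfl (hN1 K hK)) (hker K hK u hu)) L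
      rw [Finset.sum_Ico_succ_top hK]
      omega
  -- all but finitely many `S K` vanish
  have hfin : {i | S i ≠ ⊥}.Finite := WellFoundedGT.finite_ne_bot_of_iSupIndep hS
  obtain ⟨K₀, hK₀2, hK₀⟩ : ∃ K₀, 2 ≤ K₀ ∧ ∀ K, K₀ ≤ K → S K = ⊥ := by
    obtain ⟨B, hB⟩ := hfin.bddAbove
    refine ⟨B + 2, by omega, fun K hK => ?_⟩
    by_contra hne
    have := hB (show K ∈ {i | S i ≠ ⊥} from hne)
    omega
  have hpos : 0 < Module.finrank k (Submodule.comap L (M K₀ ⊔ N 1)) := by
    have h1 := hdim K₀ (by omega)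
    have h2 := U6_sum S hS (Finset.Ico 1 K₀)
    omega
  obtain ⟨⟨x, hx⟩, hx0⟩ := (Module.finrank_pos_iff_exists_ne_zero
    (R := k) (M := Submodule.comap L (M K₀ ⊔ N 1))).1 hpos
  have hxne : x ≠ 0 := fun h => hx0 (Subtype.ext h)
  rw [Submodule.mem_comap, Submodule.mem_sup] at hx
  obtain ⟨w', hw', ν, hν, hsum⟩ := hx
  -- the recursion beyond `K₀`
  have hstep : ∀ K, K₀ ≤ K → ∀ u : V, u ∈ M K → ∃ u', u' ∈ M (K + 1) ∧ u' - u ∈ N K := by
    intro K hK u hu
    have h0 : ob K ⟨u, hu⟩ = 0 := by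
      have h1 : ob K ⟨u, hu⟩ ∈ S K := hob K (by omega) (LinearMap.mem_range_self _ _)
      rw [hK₀ K hK] at h1
      exact (Submodule.mem_bot k).1 h1
    have h2 := hker K (by omega) ⟨u, hu⟩ h0
    rw [Submodule.mem_sup] at h2
    obtain ⟨m, hm, n, hn, hmn⟩ := h2
    refine ⟨m, hm, ?_⟩
    have : m - u = -n := by
      rw [← show m + n = u from hmn]
      abel
    rw [this]
    exact Submodule.neg_mem _ hn
  choose! next hnext1 hnext2 using hstep
  let u : ℕ → V := fun j => Nat.rec w' (fun j y => next (K₀ + j) y) j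
  have hu0 : u 0 = w' := rfl
  have hus : ∀ j, u (j + 1) = next (K₀ + j) (u j) := fun j => rfl
  have huM : ∀ j, u j ∈ M (K₀ + j) := by
    intro j
    induction j with
    | zero => exact hw'
    | succ j ih =>
      rw [hus]
      exact hnext1 (K₀ + j) (by omega) (u j) ih
  have huN : ∀ j, u (j + 1) - u j ∈ N (K₀ + j) := by
    intro j
    rw [hus]
    exact hnext2 (K₀ + j) (by omega) (u j) (huM j)
  refine ⟨x, hxne, fun K => if K ≤ 1 then L x else u (K - K₀), ?_, ?_⟩
  · rw [← hL]
    rfl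
  · intro K hK
    have e1 : ∀ J, J ≤ K₀ → u (J - K₀) = w' := by
      intro J hJ
      rw [Nat.sub_eq_zero_of_le hJ, hu0]
    rcases Nat.lt_or_ge 1 K with h1 | h1
    · have n1 : ¬ K ≤ 1 := by omega
      have n2 : ¬ K + 1 ≤ 1 := by omega
      simp only [if_neg n1, if_neg n2]
      rcases Nat.lt_or_ge K K₀ with h2 | h2
      · rw [e1 K (by omega), e1 (K + 1) (by omega), sub_self]
        exact ⟨U6_anti M hM K K₀ hK (by omega) hw', Submodule.zero_mem _⟩
      · obtain ⟨j, rfl⟩ := Nat.exists_eq_add_of_le h2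
        have e2 : K₀ + j - K₀ = j := by omega
        have e3 : K₀ + j + 1 - K₀ = j + 1 := by omega
        rw [e2, e3]
        exact ⟨huM j, huN j⟩
    · have hK1 : K = 1 := by omega
      subst hK1
      have n2 : ¬ 1 + 1 ≤ 1 := by omega
      simp only [le_refl, if_true, if_neg n2]
      refine ⟨?_, ?_⟩
      · rw [hL]
        exact Submodule.sum_mem _ fun i _ => Submodule.smul_mem _ _ (hv i)
      · rw [e1 (1 + 1) (by omega), ← hsum]
        have : w' - (w' + ν) = -ν := by abel
        rw [this]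
        exact Submodule.neg_mem _ hν

end Q9
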