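import Pool.Agent.LibQ9.U5
import Pool.Agent.LibQ9.U6

/-!
[Q9 U7] (MEDIUM; may cite U1a, U1b, U1c, U4, U5, U6 as stated) Sections lift to compatible systems up to finite codimension, uniformly in the degree.

PLAN. `obstruct` for `u = U 1`: `T`, `S`, `ob`. `C = (finrank T)^2`. Fix `m`. Apply `lin_alg` in `V = ι → KR k n` with `M K = Mt hp h d (U K) K m` , `N K = Nt hp h d K m` (`K ≥ 1`), `S' K = S (m - N * K)` (`N ≥ 1` as the prime `F` is not
constant: `F` homogeneous of degree `0` is a constant, so a unit or `0`; `K ↦ m - N K` is injective: `iSupIndep.comp`). `M (K+1) ≤ M K`: `σ a - U K a b * σ b = (σ a - U (K+1) a b * σ b) + (U (K+1) a b - U K a b) * σ b`. `N K ≤ M K` : `u a b * σ b ∈ FV hp K`.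
The map `M K → Zt (U 1) (m - N K)`, `σ ↦ c`, `c a b = (σ a - U (K+1) a b * σ b) / em (F ^ K)`: linear; in `Lo (h a * h b)` (`fv_div`, the numerator is in `FV hp K`); degree `m + d a - K N`; cocycle: with `u = U (K+1)`:
`(σ a - u a e * σ e) - (σ a - u a b * σ b) - u a b * (σ b - u b e * σ e) = (u a b * u b e - u a e) * σ e ∈ FV hp (K+1)`, divide by `F ^ K` (`fv_pow_mul`), and replace `U (K+1) a b` by `U 1 a b` modulo `FV hp 1` (`sys_congr`).
`ob' K` = composition with `ob (m - N K)` (for `K = 0` take the zero map). `hker`: `Bt` gives `b` with `c a a' - (b a - U 1 a a' * b a') ∈ FV hp 1`; `σ' a = σ a - em (F ^ K) * b a` is in `Mt hp h d (U (K+1)) (K+1) m` and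
`em (F ^ K) * b a` in `Nt hp h d K m`. The result of `lin_alg` is the claim (`w (K+1) - w K ∈ Nt` contains `∈ FV hp K`).
-/

set_option autoImplicit false

namespace Q9

open MvPolynomial

variable {k : Type} [Field k] [Infinite k] {n : ℕ} {ι : Type} [Fintype ι] {F : PR k n}
  {hp : Prime F} {N : ℕ} {h : ι → PR k n} {φ : ι → ℕ} {d : ι → ℤ}

private theorem U7_num_lo {K : ℕ} (hK : 1 ≤ K) {U : ℕ → ι → ι → KR k n} (hU : Sys hp h d U) {m : ℤ}
    {σ : ι → KR k n} (hσ : σ ∈ Mt hp h d (U K) K m) (a b : ι) :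
    σ a - U (K + 1) a b * σ b ∈ Lo (h a * h b) := by
  have h1 : σ a ∈ Lo (h a * h b) := lo_of_dvd (Dvd.intro _ rfl) (hσ.1 a)
  have h2 : σ b ∈ Lo (h a * h b) := lo_of_dvd (Dvd.intro_left _ rfl) (hσ.1 b)
  exact Submodule.sub_mem _ h1 (lo_mul ((hU (K + 1) (by omega)).1.1 a b) h2)

private theorem U7_num_fv (hC : Cov F N h φ) {K : ℕ} (hK : 1 ≤ K) {U : ℕ → ι → ι → KR k n}
    (hU : Sys hp h d U) {m : ℤ} {σ : ι → KR k n} (hσ : σ ∈ Mt hp h d (U K) K m) (a b : ι) :
    σ a - U (K + 1) a b * σ b ∈ FV hp K := by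
  have h1 : σ a - U K a b * σ b ∈ FV hp K := hσ.2.2 a b
  have h2 : σ b * (U (K + 1) a b - U K a b) ∈ FV hp K :=
    fv_mul_lo hp (hC.nd b) (hσ.1 b) ((hU K hK).2 a b)
  have h3 : σ a - U (K + 1) a b * σ b =
      (σ a - U K a b * σ b) - σ b * (U (K + 1) a b - U K a b) := by ring
  rw [h3]
  exact Submodule.sub_mem _ h1 h2

private theorem U7_num_hg {K : ℕ} {U : ℕ → ι → ι → KR k n}
    (hU : Sys hp h d U) {m : ℤ} {σ : ι → KR k n} (hσ : σ ∈ Mt hp h d (U K) K m) (a b : ι) :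
    σ a - U (K + 1) a b * σ b ∈ Hg (m + d a) := by
  have h1 := hg_mul ((hU (K + 1) (by omega)).1.2.1 a b) (hσ.2.1 b)
  have h2 : d a - d b + (m + d b) = m + d a := by ring
  rw [h2] at h1
  exact Submodule.sub_mem _ (hσ.2.1 a) h1

private theorem U7_F_hg (hC : Cov F N h φ) (K : ℕ) : em (F ^ K) ∈ Hg (((N : ℤ)) * K) := by
  have h1 := hg_em (hC.hom.pow K)
  have h2 : (((N * K : ℕ)) : ℤ) = (N : ℤ) * K := by push_cast; ring
  rwa [h2] at h1

private theorem U7_coc (hC : Cov F N h φ) {K : ℕ} (hK : 1 ≤ K) {U : ℕ → ι → ι → KR k n}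
    (hU : Sys hp h d U) {m : ℤ} {σ : ι → KR k n} (hσ : σ ∈ Mt hp h d (U K) K m) :
    (fun a b => (σ a - U (K + 1) a b * σ b) / em (F ^ K)) ∈ Zt hp h d (U 1) (m - N * K) := by
  have hF0 : em (F ^ K) ≠ 0 := em_ne (pow_ne_zero _ hp.ne_zero)
  have hlo : ∀ a b, (σ a - U (K + 1) a b * σ b) / em (F ^ K) ∈ Lo (h a * h b) := fun a b =>
    fv_div hp (not_dvd_mul hp (hC.nd a) (hC.nd b)) (U7_num_lo hK hU hσ a b)
      (U7_num_fv hC hK hU hσ a b)
  refine ⟨hlo, fun a b => ?_, fun a b e => ?_⟩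
  · have h1 := hg_mul (U7_num_hg hU hσ a b) (hg_inv (U7_F_hg hC K))
    have h2 : m + d a + -((N : ℤ) * K) = m - N * K + d a := by ring
    rw [h2] at h1
    exact h1
  · change (σ a - U (K + 1) a e * σ e) / em (F ^ K) - (σ a - U (K + 1) a b * σ b) / em (F ^ K) -
      U 1 a b * ((σ b - U (K + 1) b e * σ e) / em (F ^ K)) ∈ FV hp 1
    have h1 : (σ a - U (K + 1) a e * σ e) / em (F ^ K) -
        (σ a - U (K + 1) a b * σ b) / em (F ^ K) -
        U (K + 1) a b * ((σ b - U (K + 1) b e * σ e) / em (F ^ K)) ∈ FV hp 1 := by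
      rw [← fv_pow_mul hp (K := K)]
      have h2 : em (F ^ K) * ((σ a - U (K + 1) a e * σ e) / em (F ^ K) -
          (σ a - U (K + 1) a b * σ b) / em (F ^ K) -
          U (K + 1) a b * ((σ b - U (K + 1) b e * σ e) / em (F ^ K))) =
          σ e * (U (K + 1) a b * U (K + 1) b e - U (K + 1) a e) := by
        field_simp
        ring
      rw [h2]
      exact fv_mul_lo hp (hC.nd e) (hσ.1 e) ((hU (K + 1) (by omega)).1.2.2.1 a b e)
    have h3 : (σ b - U (K + 1) b e * σ e) / em (F ^ K) * (U (K + 1) a b - U 1 a b) ∈ FV hp 1 :=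
      fv_mul_lo hp (not_dvd_mul hp (hC.nd b) (hC.nd e)) (hlo b e)
        (sys_congr hU le_rfl (by omega) a b)
    have h4 := Submodule.add_mem _ h1 h3
    have h5 : (σ a - U (K + 1) a e * σ e) / em (F ^ K) -
        (σ a - U (K + 1) a b * σ b) / em (F ^ K) -
        U (K + 1) a b * ((σ b - U (K + 1) b e * σ e) / em (F ^ K)) +
        (σ b - U (K + 1) b e * σ e) / em (F ^ K) * (U (K + 1) a b - U 1 a b) =
        (σ a - U (K + 1) a e * σ e) / em (F ^ K) - (σ a - U (K + 1) a b * σ b) / em (F ^ K) -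
      U 1 a b * ((σ b - U (K + 1) b e * σ e) / em (F ^ K)) := by ring
    rwa [h5] at h4

/-- the obstruction cocycle -/
private noncomputable def U7_dm (hC : Cov F N h φ) {K : ℕ} (hK : 1 ≤ K) {U : ℕ → ι → ι → KR k n}
    (hU : Sys hp h d U) (m : ℤ) :
    Mt hp h d (U K) K m →ₗ[k] Zt hp h d (U 1) (m - N * K) where
  toFun σ := ⟨fun a b => ((σ : ι → KR k n) a - U (K + 1) a b * (σ : ι → KR k n) b) / em (F ^ K),
    U7_coc hC hK hU σ.2⟩
  map_add' σ τ := by
    apply Subtype.ext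
    funext a b
    change ((σ : ι → KR k n) a + (τ : ι → KR k n) a -
      U (K + 1) a b * ((σ : ι → KR k n) b + (τ : ι → KR k n) b)) / em (F ^ K) =
      ((σ : ι → KR k n) a - U (K + 1) a b * (σ : ι → KR k n) b) / em (F ^ K) +
      ((τ : ι → KR k n) a - U (K + 1) a b * (τ : ι → KR k n) b) / em (F ^ K)
    ring
  map_smul' c σ := by
    apply Subtype.ext
    funext a b
    change (c • (σ : ι → KR k n) a - U (K + 1) a b * (c • (σ : ι → KR k n) b)) / em (F ^ K) =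
      c • (((σ : ι → KR k n) a - U (K + 1) a b * (σ : ι → KR k n) b) / em (F ^ K))
    rw [mul_smul_comm, ← smul_sub, smul_div_assoc]

private theorem U7_ker (hC : Cov F N h φ) {K : ℕ} (hK : 1 ≤ K) {U : ℕ → ι → ι → KR k n}
    (hU : Sys hp h d U) {m : ℤ} {σ : ι → KR k n} (hσ : σ ∈ Mt hp h d (U K) K m)
    (hB : Bt hp h d (U 1) (m - N * K)
      (fun a b => (σ a - U (K + 1) a b * σ b) / em (F ^ K))) :
    σ ∈ Mt hp h d (U (K + 1)) (K + 1) m ⊔ Nt hp h d K m := by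
  have hF0 : em (F ^ K) ≠ 0 := em_ne (pow_ne_zero _ hp.ne_zero)
  obtain ⟨b, hb1, hb2, hb3⟩ := hB
  have hτ : (fun a => em (F ^ K) * b a) ∈ Nt hp h d K m := by
    refine ⟨fun a => lo_mul (em_mem_lo _ _) (hb1 a), fun a => ?_, fun a => ?_⟩
    · have h1 := hg_mul (U7_F_hg hC K) (hb2 a)
      have h2 : (N : ℤ) * K + (m - N * K + d a) = m + d a := by ring
      rwa [h2] at h1
    · have h1 := (fv_pow_mul hp (K := K) (L := 0)).2 (fv_lo hp (hC.nd a) (hb1 a))
      exact h1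
  have hσ' : σ - (fun a => em (F ^ K) * b a) ∈ Mt hp h d (U (K + 1)) (K + 1) m := by
    refine ⟨fun a => Submodule.sub_mem _ (hσ.1 a) (hτ.1 a),
      fun a => Submodule.sub_mem _ (hσ.2.1 a) (hτ.2.1 a), fun a a' => ?_⟩
    change (σ a - em (F ^ K) * b a) - U (K + 1) a a' * (σ a' - em (F ^ K) * b a') ∈ FV hp (K + 1)
    have h1 : (σ a - U (K + 1) a a' * σ a') / em (F ^ K) - (b a - U 1 a a' * b a') ∈ FV hp 1 :=
      hb3 a a'
    have h2 : b a' * (U (K + 1) a a' - U 1 a a') ∈ FV hp 1 :=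
      fv_mul_lo hp (hC.nd a') (hb1 a') (sys_congr hU le_rfl (by omega) a a')
    have h3 := (fv_pow_mul hp (K := K) (L := 1)).2 (Submodule.add_mem _ h1 h2)
    have h4 : em (F ^ K) * ((σ a - U (K + 1) a a' * σ a') / em (F ^ K) - (b a - U 1 a a' * b a') +
        b a' * (U (K + 1) a a' - U 1 a a')) =
        (σ a - em (F ^ K) * b a) - U (K + 1) a a' * (σ a' - em (F ^ K) * b a') := by
      field_simp
      ring
    rwa [h4] at h3
  have h1 := Submodule.add_mem_sup hσ' hτ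
  rwa [sub_add_cancel] at h1

private theorem U7_pos (hC : Cov F N h φ) : 1 ≤ N := by
  rcases Nat.eq_zero_or_pos N with h0 | h0
  · exfalso
    have h1 : F.totalDegree = 0 := by
      rw [hC.hom.totalDegree hC.prime.ne_zero, h0]
    rw [totalDegree_eq_zero_iff_eq_C] at h1
    have h2 : coeff 0 F ≠ 0 := by
      intro h3
      rw [h3, map_zero] at h1
      exact hC.prime.ne_zero h1
    apply hC.prime.not_isUnit
    rw [h1]
    exact (IsUnit.mk0 _ h2).map C
  · exact h0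

theorem many_sections (hn : 4 ≤ n) (hC : Cov F N h φ) {U : ℕ → ι → ι → KR k n}
    (hU : Sys hp h d U) :
    ∃ C : ℕ, ∀ (m : ℤ) (σ : Fin (C + 1) → ι → KR k n), (∀ i, σ i ∈ Mt hp h d (U 1) 1 m) →
      ∃ x : Fin (C + 1) → k, x ≠ 0 ∧ ∃ ω : ℕ → ι → KR k n, Sec hp h d U m ω ∧
        ω 1 = ∑ i, x i • σ i := by
  classical
  obtain ⟨T, _, _, _, S, ob, hS, hob, hker⟩ := obstruct hn hC (hU 1 le_rfl).1
  refine ⟨Module.finrank k T ^ 2, fun m σ hσ => ?_⟩
  have hN := U7_pos hC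
  obtain ⟨x, hx, w, hw1, hw2⟩ := lin_alg (k := k) (V := ι → KR k n) (T := T)
    (fun K => Mt hp h d (U K) K m) (fun K => Nt hp h d K m)
    (by
      intro K hK σ hσ
      refine ⟨hσ.1, hσ.2.1, fun a b => ?_⟩
      have h1 : σ a - U (K + 1) a b * σ b ∈ FV hp K := fv_mono hp (by omega) (hσ.2.2 a b)
      have h2 : σ b * (U (K + 1) a b - U K a b) ∈ FV hp K :=
        fv_mul_lo hp (hC.nd b) (hσ.1 b) ((hU K hK).2 a b)
      have h3 : σ a - U K a b * σ b =
          (σ a - U (K + 1) a b * σ b) + σ b * (U (K + 1) a b - U K a b) := by ring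
      rw [h3]
      exact Submodule.add_mem _ h1 h2)
    (fun K _ σ hσ => ⟨hσ.1, hσ.2.1, fun a => fv_mono hp (by omega) (hσ.2.2 a)⟩)
    (fun K hK σ hσ => ⟨hσ.1, hσ.2.1, fun a b => Submodule.sub_mem _ (hσ.2.2 a)
      (fv_mul_lo hp (not_dvd_mul hp (hC.nd a) (hC.nd b)) ((hU K hK).1.1 a b) (hσ.2.2 b))⟩)
    (fun K => S (m - N * K))
    (by
      refine hS.comp (f := fun K : ℕ => m - (N : ℤ) * K) ?_
      intro K L hKL
      have h1 : (N : ℤ) * K = N * L := by
        have h2 : m - (N : ℤ) * K = m - N * L := hKL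
        linarith
      have h3 : ((N : ℤ)) ≠ 0 := by positivity
      exact_mod_cast mul_left_cancel₀ h3 h1)
    (fun K => if hK : 1 ≤ K then (ob (m - N * K)).comp (U7_dm hC hK hU m) else 0)
    (by
      intro K hK
      simp only [dif_pos hK]
      exact (LinearMap.range_comp_le_range _ _).trans (hob _))
    (by
      intro K hK v hv
      simp only [dif_pos hK] at hv
      exact U7_ker hC hK hU v.2 (hker _ _ hv))
    (Module.finrank k T ^ 2) le_rfl σ hσ
  refine ⟨x, hx, w, fun K hK => ⟨(hw2 K hK).1, fun a => (hw2 K hK).2.2.2 a⟩, hw1⟩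

end Q9
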