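import Pool.Agent.LibQ9.U4

/-!
[Q9 U8] (MEDIUM; may cite U1a, U1b, U1c, U3, U4 as stated) The product of a compatible system of sections and a compatible system of sections of the dual is a polynomial.

PLAN. `c a = σ K a * τ K a` is in `Lo (h a)`, of degree `(m + d a) + (m' - d a)`, and `c a - c b ∈ FV hp K`: `σ K a = U K a b * σ K b`, `τ K a = U K b a * τ K b` modulo `FV hp K`, and `U K a b * U K b a - 1 ∈ FV hp K`
(from the cocycle condition and `U K a a - 1 ∈ FV hp 1`: `(U K a a) ^ 2 - U K a a ∈ FV hp K` and `U K a a ∉ FV hp 1`, `fv_cancel`, give `U K a a - 1 ∈ FV hp K`). `cech0` gives `θ K` for every `K ≥ 1`. `θ (K+1) - θ K`: for one `a` (`ι` is nonempty, see below;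
if `ι` is empty take `θ = 0`) it is in `FV hp K`, so `F ^ K ∣ θ (K+1) - θ K` (`fv_em`); it is homogeneous of degree `m + m'` (or zero: `hg_em_iff`), so it is `0` as soon as `K N > m + m'` (`N ≥ 1`: the prime `F` is not constant;
degrees of a nonzero multiple of `F ^ K` are `≥ K N`). So `θ = θ K₀` for large `K₀` works for all `K ≥ 1` (for `K ≤ K₀` by `F ^ K ∣ θ K₀ - θ K`, sum of the differences; `FV hp` is decreasing).
-/

set_option autoImplicit false

namespace Q9

open MvPolynomial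

variable {k : Type} [Field k] [Infinite k] {n : ℕ} {ι : Type} [Fintype ι] {F : PR k n}
  {hp : Prime F} {N : ℕ} {h : ι → PR k n} {φ : ι → ℕ} {d : ι → ℤ}

omit [Infinite k] [Fintype ι] in
private theorem U8_pos (hC : Cov F N h φ) : 1 ≤ N := by
  by_contra hN
  have hN0 : N = 0 := by omega
  have h1 : F.IsHomogeneous 0 := by
    rw [← hN0]
    exact hC.hom
  have hF0 : F ≠ 0 := hC.prime.ne_zero
  have h2 : F.totalDegree = 0 := h1.totalDegree hF0
  rw [totalDegree_eq_zero_iff_eq_C] at h2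
  apply hC.prime.not_isUnit
  rw [h2]
  apply IsUnit.map
  rw [isUnit_iff_ne_zero]
  intro h3
  apply hF0
  rw [h2, h3, C_0]

omit [Infinite k] [Fintype ι] in
private theorem U8_zero (hC : Cov F N h φ) {e : ℤ} {r : PR k n} (hr : em r ∈ Hg e) {K : ℕ} (hK : e < K)
    (hd : F ^ K ∣ r) : r = 0 := by
  by_contra h0
  rcases hg_em_iff hr with h1 | ⟨a, ha, hra⟩
  · exact h0 h1
  · obtain ⟨s, hs⟩ := hd
    have hs0 : s ≠ 0 := by
      rintro rfl
      rw [mul_zero] at hs
      exact h0 hs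
    have hFK : F ^ K ≠ 0 := pow_ne_zero _ hC.prime.ne_zero
    have h2 : r.totalDegree = (F ^ K).totalDegree + s.totalDegree := by
      rw [hs]
      exact totalDegree_mul_of_isDomain hFK hs0
    rw [hra.totalDegree h0, (hC.hom.pow K).totalDegree hFK] at h2
    have h3 := U8_pos hC
    have h4 : K ≤ N * K := Nat.le_mul_of_pos_left K h3
    omega

omit [Infinite k] [Fintype ι] in
private theorem U8_one (hC : Cov F N h φ) {K : ℕ} {u : ι → ι → KR k n} (hu : Coc hp h d K u) (a b : ι) :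
    u a b * u b a - 1 ∈ FV hp K := by
  obtain ⟨h1, h2, h3, h4⟩ := hu
  have h5 : u a a * (u a a - 1) ∈ FV hp K := by
    have h6 := h3 a a a
    have h7 : u a a * (u a a - 1) = u a a * u a a - u a a := by ring
    rw [h7]
    exact h6
  have h8 : u a a ∈ FV hp 0 := fv_lo hp (not_dvd_mul hp (hC.nd a) (hC.nd a)) (h1 a a)
  have h9 : u a a ∉ FV hp 1 := by
    intro h10
    apply fv_one hp
    have h11 := Submodule.sub_mem _ h10 (h4 a)
    rwa [sub_sub_cancel] at h11
  have h12 : u a a - 1 ∈ FV hp K := fv_cancel hp h8 h9 h5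
  have h13 := Submodule.add_mem _ (h3 a b a) h12
  rwa [sub_add_sub_cancel] at h13

theorem theta (hn : 4 ≤ n) (hC : Cov F N h φ) {U : ℕ → ι → ι → KR k n} (hU : Sys hp h d U)
    {m m' : ℤ} {σ τ : ℕ → ι → KR k n} (hσ : Sec hp h d U m σ)
    (hτ : Sec hp h (fun a => - d a) (fun K a b => U K b a) m' τ) :
    ∃ θ : PR k n, em θ ∈ Hg (m + m') ∧ ∀ K, 1 ≤ K → ∀ a, σ K a * τ K a - em θ ∈ FV hp K := by
  rcases isEmpty_or_nonempty ι with hι | hι
  · refine ⟨0, ?_, fun K _ a => isEmptyElim a⟩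
    rw [map_zero]
    exact zero_mem _
  have hσl : ∀ K, 1 ≤ K → ∀ a, σ K a ∈ Lo (h a) := fun K hK => (hσ K hK).1.1
  have hσh : ∀ K, 1 ≤ K → ∀ a, σ K a ∈ Hg (m + d a) := fun K hK => (hσ K hK).1.2.1
  have hσc : ∀ K, 1 ≤ K → ∀ a b, σ K a - U K a b * σ K b ∈ FV hp K := fun K hK => (hσ K hK).1.2.2
  have hτl : ∀ K, 1 ≤ K → ∀ a, τ K a ∈ Lo (h a) := fun K hK => (hτ K hK).1.1
  have hτh : ∀ K, 1 ≤ K → ∀ a, τ K a ∈ Hg (m' + -d a) := fun K hK => (hτ K hK).1.2.1
  have hτc : ∀ K, 1 ≤ K → ∀ a b, τ K a - U K b a * τ K b ∈ FV hp K := fun K hK => (hτ K hK).1.2.2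
  have hσ0 : ∀ K, 1 ≤ K → ∀ a, σ K a ∈ FV hp 0 := fun K hK a => fv_lo hp (hC.nd a) (hσl K hK a)
  have hτ0 : ∀ K, 1 ≤ K → ∀ a, τ K a ∈ FV hp 0 := fun K hK a => fv_lo hp (hC.nd a) (hτl K hK a)
  -- the global sections modulo `F ^ K`
  have hglob : ∀ K, ∃ θ : PR k n, 1 ≤ K → em θ ∈ Hg (m + m') ∧
      ∀ a, σ K a * τ K a - em θ ∈ FV hp K := by
    intro K
    by_cases hK : 1 ≤ K
    · obtain ⟨θ, h1, h2⟩ := cech0 hp hn hC K (m + m') (fun a => σ K a * τ K a)
        (fun a => lo_mul (hσl K hK a) (hτl K hK a))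
        (fun a => by
          have h3 := hg_mul (hσh K hK a) (hτh K hK a)
          have h4 : m + d a + (m' + -d a) = m + m' := by ring
          rwa [h4] at h3)
        (fun a b => by
          have hUab : U K a b ∈ FV hp 0 :=
            fv_lo hp (not_dvd_mul hp (hC.nd a) (hC.nd b)) ((hU K hK).1.1 a b)
          have e1 : σ K a * τ K a - σ K b * τ K b =
              (σ K a - U K a b * σ K b) * τ K a + (U K a b * σ K b) * (τ K a - U K b a * τ K b) +
                (U K a b * U K b a - 1) * (σ K b * τ K b) := by ring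
          rw [e1]
          refine add_mem (add_mem ?_ ?_) ?_
          · have h5 := fv_mul hp (hσc K hK a b) (hτ0 K hK a)
            rwa [add_zero] at h5
          · have h5 := fv_mul hp (fv_mul hp hUab (hσ0 K hK b)) (hτc K hK a b)
            rwa [zero_add, zero_add] at h5
          · have h5 := fv_mul hp (U8_one hC (hU K hK).1 a b) (fv_mul hp (hσ0 K hK b) (hτ0 K hK b))
            rwa [add_zero, add_zero] at h5)
      exact ⟨θ, fun _ => ⟨h1, h2⟩⟩
    · exact ⟨0, fun h => absurd h hK⟩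
  choose θ hθ using hglob
  -- consecutive differences
  have hdiff : ∀ K, 1 ≤ K → em (θ (K + 1) - θ K) ∈ FV hp K := by
    intro K hK
    obtain ⟨a⟩ := hι
    have h1 := fv_mono hp (Nat.le_succ K) ((hθ (K + 1) (by omega)).2 a)
    have h2 := (hθ K hK).2 a
    have h3 : σ (K + 1) a * τ (K + 1) a - σ K a * τ K a ∈ FV hp K := by
      have e1 : σ (K + 1) a * τ (K + 1) a - σ K a * τ K a =
          (σ (K + 1) a - σ K a) * τ (K + 1) a + σ K a * (τ (K + 1) a - τ K a) := by ring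
      rw [e1]
      refine add_mem ?_ ?_
      · have h5 := fv_mul hp ((hσ K hK).2 a) (hτ0 (K + 1) (by omega) a)
        rwa [add_zero] at h5
      · have h5 := fv_mul hp (hσ0 K hK a) ((hτ K hK).2 a)
        rwa [zero_add] at h5
    have h4 : em (θ (K + 1) - θ K) = (σ (K + 1) a * τ (K + 1) a - σ K a * τ K a) -
        (σ (K + 1) a * τ (K + 1) a - em (θ (K + 1))) + (σ K a * τ K a - em (θ K)) := by
      rw [map_sub]
      ring
    rw [h4]
    exact add_mem (sub_mem h3 h1) h2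
  have hdiff2 : ∀ K, 1 ≤ K → ∀ j, em (θ (K + j) - θ K) ∈ FV hp K := by
    intro K hK j
    induction j with
    | zero =>
      rw [add_zero, sub_self, map_zero]
      exact zero_mem _
    | succ j ih =>
      have h1 := fv_mono hp (Nat.le_add_right K j) (hdiff (K + j) (by omega))
      have h2 := add_mem h1 ih
      rw [← map_add, sub_add_sub_cancel] at h2
      exact h2
  obtain ⟨K0, hK1, hK0⟩ : ∃ K0 : ℕ, 1 ≤ K0 ∧ m + m' < K0 := ⟨(m + m').toNat + 1, by omega, by omega⟩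
  refine ⟨θ K0, (hθ K0 hK1).1, ?_⟩
  intro K hK a
  rcases le_total K K0 with hle | hle
  · obtain ⟨j, rfl⟩ := Nat.exists_eq_add_of_le hle
    have h1 := sub_mem ((hθ K hK).2 a) (hdiff2 K hK j)
    rw [map_sub, sub_sub, add_sub_cancel] at h1
    exact h1
  · obtain ⟨j, rfl⟩ := Nat.exists_eq_add_of_le hle
    have h1 := (fv_em hp).1 (hdiff2 K0 hK1 j)
    have h2 : em (θ (K0 + j) - θ K0) ∈ Hg (m + m') := by
      rw [map_sub]
      exact sub_mem (hθ (K0 + j) hK).1 (hθ K0 hK1).1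
    have h3 : θ (K0 + j) - θ K0 = 0 := U8_zero hC h2 hK0 h1
    rw [← sub_eq_zero.1 h3]
    exact (hθ (K0 + j) hK).2 a

end Q9
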