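import Pool.Agent.LibQ9.W1c

/-!
[Q9 W1a] (MEDIUM; may cite W1c as stated) After prescribing the top coefficients of the teeth the top equations vanish identically.

PLAN. It is enough to treat `R = S := MvPolynomial (CI n D 1 (fun i => d i - N)) k` (a domain), `z = MvPolynomial.X`: the general case follows by `MvPolynomial.aeval z : S →ₐ[k] R` (`aeval (sg N (..) z) (Φ j) = aeval z (aeval (sg N (..) X) (Φ j))`: `sg` commutes with algebra homomorphisms; `MvPolynomial.comp_aeval`/`algHom_ext`). In `S[X]`, with `β_l = C (b l)` (algebraMap), `e_i = X (inl i)`, `yy i a = (y i a).map (algebraMap k S)`: `hΦ S (sg ..)`: `F(xh) = yh β e (Φ(sg ..))`. Modulo `(X - β_i)^N`: by W1c `xh ≡ c * yy i` with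
`c = C (e_i^(d i)) ∏_{l≠i} (X - β_l)^(d l)` (as vectors), so `F(xh) ≡ F(c yy i) = c^n F(yy i) ≡ 0` (congruent arguments give congruent values: `MvPolynomial.aeval` and `Ideal.Quotient.mk`; `hF` homogeneous, `hy` mapped to `S`). In `yh`: the first summand and the terms `i' ≠ i` are divisible by `(X - β_i)^(n d i)`, `n d_i ≥ N`; for `i' = i` the terms with `j + 1 ≤ n d_i - N` as well. So `Σ_{j ≥ n d_i - N} C (Φ_(i,j) e_i^(j+1)) (X - β_i)^(n d_i - (j+1)) * P ≡ 0` with `P = ∏_{l≠i} (X - β_l)^(n d l)`; `P` is prime to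
`X - β_i` in the following sense: if `(X - β_i)^N ∣ P * Q` then `(X - β_i)^N ∣ Q` (`X - β_i` is a prime element of `S[X]`, `P(β_i) = ∏ (β_i - β_l)^.. ≠ 0`; `Prime.pow_dvd_of_dvd_mul_left`). So `(X - β_i)^N ∣ Σ_{l<N} C (Φ_(i, nd_i - 1 - l) e_i^(n d_i - l)) (X - β_i)^l`, a polynomial of degree `< N`: all coefficients vanish (translate by `X + β_i`), and `e_i ≠ 0` in the domain `S`.
-/

set_option autoImplicit false

namespace Q9

open Polynomial

private theorem W1a_aeval_sum {k : Type} [Field k] {m : ℕ} {G : MvPolynomial (Fin m) k} {S : Type}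
    [CommRing S] [Algebra k S] (x : Fin m → S) : MvPolynomial.aeval x G =
      ∑ s ∈ G.support, algebraMap k S (G.coeff s) * ∏ i, x i ^ s i := by
  rw [MvPolynomial.aeval_def, MvPolynomial.eval₂_eq']

private theorem W1a_hom_sum {k : Type} [Field k] {m N : ℕ} {G : MvPolynomial (Fin m) k}
    (hG : G.IsHomogeneous N) {s : Fin m →₀ ℕ} (hs : s ∈ G.support) : ∑ i, s i = N := by
  have h := hG (MvPolynomial.mem_support_iff.1 hs)
  have h2 := DFunLike.congr_fun (Finsupp.degree_eq_weight_one (R := ℕ) (σ := Fin m)) s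
  rw [Finsupp.degree_eq_sum] at h2
  exact h2.trans h

private theorem W1a_aeval_sc {k : Type} [Field k] {m N : ℕ} {G : MvPolynomial (Fin m) k}
    (hG : G.IsHomogeneous N) {S : Type} [CommRing S] [Algebra k S] (x : Fin m → S) (c : S) :
    MvPolynomial.aeval (fun i => c * x i) G = c ^ N * MvPolynomial.aeval x G := by
  rw [W1a_aeval_sum, W1a_aeval_sum, Finset.mul_sum]
  refine Finset.sum_congr rfl fun s hs => ?_
  have h1 : ∏ i, (c * x i) ^ s i = c ^ N * ∏ i, x i ^ s i := by
    simp only [mul_pow, Finset.prod_mul_distrib]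
    rw [Finset.prod_pow_eq_pow_sum, W1a_hom_sum hG hs]
  rw [h1]
  ring

private theorem W1a_congr {k : Type} [Field k] {m : ℕ} (G : MvPolynomial (Fin m) k) {S : Type}
    [CommRing S] [Algebra k S] (x y : Fin m → S) (q : S) (h : ∀ i, q ∣ x i - y i) :
    q ∣ MvPolynomial.aeval x G - MvPolynomial.aeval y G := by
  rw [← Ideal.mem_span_singleton, ← Ideal.Quotient.eq_zero_iff_mem, map_sub, sub_eq_zero]
  have h1 : ∀ x : Fin m → S, Ideal.Quotient.mk (Ideal.span {q}) (MvPolynomial.aeval x G) =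
      MvPolynomial.aeval (fun i => Ideal.Quotient.mkₐ k (Ideal.span {q}) (x i)) G := by
    intro x
    rw [← MvPolynomial.comp_aeval_apply]
    rfl
  rw [h1, h1]
  congr 2
  funext i
  change Ideal.Quotient.mk (Ideal.span {q}) (x i) = Ideal.Quotient.mk (Ideal.span {q}) (y i)
  rw [Ideal.Quotient.eq, Ideal.mem_span_singleton]
  exact h i

/-- the coefficients of a sum of distinct powers of `X - c` below `N` vanish -/
private theorem W1a_coeff {S : Type} [CommRing S] (M N : ℕ) (c : S) (u : Fin M → S)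
    (h : (X - C c) ^ N ∣ ∑ j : Fin M, C (u j) * (X - C c) ^ (M - ((j : ℕ) + 1))) (j : Fin M)
    (hj : M - N ≤ j) : u j = 0 := by
  obtain ⟨r, hr⟩ := h
  have h1 := congrArg (fun p : S[X] => p.comp (X + C c)) hr
  simp only [mul_comp, pow_comp, sub_comp, X_comp, C_comp, add_sub_cancel_right,
    Polynomial.sum_comp] at h1
  have h2 := congrArg (fun p : S[X] => p.coeff (M - ((j : ℕ) + 1))) h1
  rw [Polynomial.coeff_X_pow_mul', if_neg (by have := j.2; omega), Polynomial.finsetSum_coeff,
    Finset.sum_eq_single j] at h2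
  · rw [Polynomial.coeff_C_mul, Polynomial.coeff_X_pow, if_pos rfl, mul_one] at h2
    exact h2
  · intro l _ hl
    rw [Polynomial.coeff_C_mul, Polynomial.coeff_X_pow, if_neg, mul_zero]
    intro hh
    apply hl
    apply Fin.ext
    have := j.2
    have := l.2
    omega
  · intro h3
    exact absurd (Finset.mem_univ j) h3

private theorem W1a_tc {k S : Type} [Field k] [CommRing S] [Algebra k S] (c : k) (p : k[X]) (l : ℕ) :
    tc (algebraMap k S c) (p.map (algebraMap k S)) l = algebraMap k S (tc c p l) := by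
  unfold tc
  rw [← Polynomial.coeff_map, Polynomial.map_comp, Polynomial.map_add, Polynomial.map_X,
    Polynomial.map_C]

private theorem W1a_dom {k : Type} [Field k] {n D m : ℕ} {d : Fin m → ℕ} (hn : 2 ≤ n)
    (F : MvPolynomial (Fin (n + 1)) k) (hF : F.IsHomogeneous n) (b : Fin m → k)
    (hb : Function.Injective b) (g : Fin (n + 1) → k[X]) (Φ : CJ n D 1 d → MvPolynomial (CI n D 1 d) k)
    (hΦ : CEq F b g Φ) (N : ℕ) (hN : ∀ i, N ≤ d i) (y : Fin m → Fin (n + 1) → k[X])
    (hy : ∀ i, (X - C (b i)) ^ N ∣ MvPolynomial.aeval (y i) F) {S : Type} [CommRing S] [IsDomain S]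
    [Algebra k S] (z : CI n D 1 (fun i => d i - N) → S) (i : Fin m) (hz : z (Sum.inl i) ≠ 0)
    (j : Fin (n * d i)) (hj : n * d i - N ≤ j) :
    MvPolynomial.aeval (sg (d := d) N (fun i a l => algebraMap k S (tc (b i) (y i a) l)) z)
      (Φ (Sum.inr ⟨i, j⟩)) = 0 := by
  have hinj : Function.Injective (algebraMap k S) := (algebraMap k S).injective
  set β : Fin m → S := fun i => algebraMap k S (b i) with hβ
  set Y : Fin m → Fin (n + 1) → S[X] := fun i a => (y i a).map (algebraMap k S) with hY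
  have h0 : (fun (i : Fin m) (a : Fin (n + 1)) (l : ℕ) => algebraMap k S (tc (b i) (y i a) l)) =
      fun i a l => tc (β i) (Y i a) l := by
    funext i a l
    exact (W1a_tc (b i) (y i a) l).symm
  rw [h0]
  set zz : CI n D 1 d → S := sg (d := d) N (fun i a l => tc (β i) (Y i a) l) z with hzz
  set w : S[X] := X - C (β i) with hw
  have hzi : ∀ l, zz (Sum.inl l) = z (Sum.inl l) := fun l => rfl
  -- the curve has the prescribed jet
  have h1 : ∀ a, w ^ N ∣ xh β (fun a => (g a).map (algebraMap k S)) zz a -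
      (C (z (Sum.inl i) ^ d i) * ∏ l ∈ Finset.univ.erase i, (X - C (β l)) ^ d l) * Y i a :=
    fun a => xh_jet N hN β (fun a => (g a).map (algebraMap k S)) Y z i a
  have h2 := W1a_congr F _ _ (w ^ N) h1
  rw [W1a_aeval_sc hF] at h2
  have h3 : w ^ N ∣ MvPolynomial.aeval (Y i) F := by
    have h4 : MvPolynomial.aeval (Y i) F = (MvPolynomial.aeval (y i) F).map (algebraMap k S) := by
      have h5 := MvPolynomial.comp_aeval_apply (f := y i)
        (Polynomial.mapAlgHom (Algebra.ofId k S)) F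
      exact h5.symm
    rw [h4]
    have h6 := Polynomial.map_dvd (algebraMap k S) (hy i)
    rw [Polynomial.map_pow, Polynomial.map_sub, Polynomial.map_X, Polynomial.map_C] at h6
    exact h6
  have h4 : w ^ N ∣ MvPolynomial.aeval (xh β (fun a => (g a).map (algebraMap k S)) zz) F := by
    have h5 := dvd_add h2 (Dvd.dvd.mul_left h3 ((C (z (Sum.inl i) ^ d i) *
      ∏ l ∈ Finset.univ.erase i, (X - C (β l)) ^ d l) ^ n))
    rwa [sub_add_cancel] at h5
  rw [(hΦ S zz).1] at h4
  -- the polar parts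
  set v : CJ n D 1 d → S := fun j => MvPolynomial.aeval zz (Φ j) with hv
  change v (Sum.inr ⟨i, j⟩) = 0
  have hNd : ∀ l, N ≤ n * d l := fun l =>
    (hN l).trans (Nat.le_mul_of_pos_left _ (by omega))
  have h5 : w ^ N ∣ Wp β (fun l => n * d l) := by
    refine (pow_dvd_pow w (hNd i)).trans ?_
    exact Finset.dvd_prod_of_mem (fun l => (X - C (β l)) ^ (n * d l)) (Finset.mem_univ i)
  unfold yh at h4
  rw [dvd_add_right (Dvd.dvd.mul_right h5 _), ← Finset.add_sum_erase _ _ (Finset.mem_univ i),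
    dvd_add_left] at h4
  · set P : S[X] := ∏ l ∈ Finset.univ.erase i, (X - C (β l)) ^ (n * d l) with hP
    have h6 : ∑ j : Fin (n * d i), C (v (Sum.inr ⟨i, j⟩) * zz (Sum.inl i) ^ ((j : ℕ) + 1)) *
        Wq β (fun l => n * d l) i ((j : ℕ) + 1) =
        P * ∑ j : Fin (n * d i), C (v (Sum.inr ⟨i, j⟩) * zz (Sum.inl i) ^ ((j : ℕ) + 1)) *
          (X - C (β i)) ^ (n * d i - ((j : ℕ) + 1)) := by
      rw [Finset.mul_sum]
      refine Finset.sum_congr rfl fun j _ => ?_
      unfold Wq
      ring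
    rw [h6] at h4
    have hprime : Prime w := Polynomial.prime_X_sub_C (β i)
    have h7 : ¬ w ∣ P := by
      intro h8
      rw [hP] at h8
      obtain ⟨l, hl, h9⟩ := (hprime.dvd_finsetProd_iff _).1 h8
      have h10 := hprime.dvd_of_dvd_pow h9
      rw [hw, Polynomial.dvd_iff_isRoot] at h10
      rw [Polynomial.IsRoot.def, Polynomial.eval_sub, Polynomial.eval_X, Polynomial.eval_C,
        sub_eq_zero] at h10
      exact (Finset.ne_of_mem_erase hl) (hb (hinj h10)).symm
    have h8 := hprime.pow_dvd_of_dvd_mul_left N h7 h4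
    have h9 := W1a_coeff (n * d i) N (β i)
      (fun j => v (Sum.inr ⟨i, j⟩) * zz (Sum.inl i) ^ ((j : ℕ) + 1)) h8 j hj
    rcases mul_eq_zero.1 h9 with h10 | h10
    · exact h10
    · exact absurd (pow_eq_zero_iff (Nat.succ_ne_zero _) |>.1 h10) hz
  · refine Finset.dvd_sum fun l hl => Finset.dvd_sum fun j _ => ?_
    refine Dvd.dvd.mul_left ?_ _
    unfold Wq
    refine Dvd.dvd.mul_right ?_ _
    refine (pow_dvd_pow w (hNd i)).trans ?_
    exact Finset.dvd_prod_of_mem (fun l => (X - C (β l)) ^ (n * d l))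
      (Finset.mem_erase.2 ⟨(Finset.ne_of_mem_erase hl).symm, Finset.mem_univ i⟩)

theorem top_zero {k : Type} [Field k] {n D m : ℕ} {d : Fin m → ℕ} (hn : 2 ≤ n)
    (F : MvPolynomial (Fin (n + 1)) k) (hF : F.IsHomogeneous n) (b : Fin m → k)
    (hb : Function.Injective b) (g : Fin (n + 1) → k[X]) (Φ : CJ n D 1 d → MvPolynomial (CI n D 1 d) k)
    (hΦ : CEq F b g Φ) (N : ℕ) (hN : ∀ i, N ≤ d i) (y : Fin m → Fin (n + 1) → k[X])
    (hy : ∀ i, (X - C (b i)) ^ N ∣ MvPolynomial.aeval (y i) F) {R : Type} [CommRing R] [Algebra k R]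
    (z : CI n D 1 (fun i => d i - N) → R) (i : Fin m) (j : Fin (n * d i)) (hj : n * d i - N ≤ j) :
    MvPolynomial.aeval (sg (d := d) N (fun i a l => algebraMap k R (tc (b i) (y i a) l)) z)
      (Φ (Sum.inr ⟨i, j⟩)) = 0 := by
  have h1 := W1a_dom hn F hF b hb g Φ hΦ N hN y hy
    (S := MvPolynomial (CI n D 1 (fun i => d i - N)) k) MvPolynomial.X i
    (MvPolynomial.X_ne_zero _) j hj
  have h2 := congrArg (MvPolynomial.aeval z) h1
  rw [map_zero, MvPolynomial.comp_aeval_apply] at h2
  rw [← h2]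
  congr 2
  funext x
  rcases x with l | x | ⟨l, a, t⟩
  · exact (MvPolynomial.aeval_X z _).symm
  · exact (MvPolynomial.aeval_X z _).symm
  · unfold sg
    by_cases h : (t : ℕ) < d l - N
    · simp only [dif_pos h]
      exact (MvPolynomial.aeval_X z _).symm
    · simp only [dif_neg h]
      rw [map_mul, map_pow, MvPolynomial.aeval_X]
      congr 1
      exact (MvPolynomial.aeval_C z _).symm

end Q9
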