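import Pool.Agent.LibQ9.W1a
import Pool.Agent.LibQ9.C2
import Pool.Agent.LibQ9.C3
import Pool.Agent.LibQ9.P8
import Pool.Agent.LibQ9.P9

/-!
[Q9 W1b] (MEDIUM/STRONG; may cite W1a, W1c, C2 `exists_ceq`, C3, P8 `spec`, P9 `smooth_curve` as stated) Combs with prescribed ends.

PLAN. `Φ` from C2 `exists_ceq` (`c0 = 1`, `hg : Free F D g` gives `1 ≤ D`, `On F D g`). `Y i a l = tc (b i) (y i a) l`. `σ = sg N (C ∘ Y) X : CI n D 1 d → MvPolynomial CI' k`, `CI' = CI n D 1 (fun i => d i - N)`. New equations `Ψ : CJ' n D d N → MvPolynomial CI' k`: `Ψ (inl l) = aeval σ (Φ (inl l))` (`Fin (n D)` and `Fin (n D + 1 - 1)` by `Fin.cast`), `Ψ (inr ⟨i, j⟩) = aeval σ (Φ (inr ⟨i, j⟩))` (`j : Fin (n d_i - N)` cast to `Fin (n d_i)`). Point `z₀'`: `0` on `inl`, `inr (inl _)`, `(τ i a).coeff (j + 1)` on `inr (inr ⟨i, (a, j)⟩)`: then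
`sg N Y z₀' = zc τ` (for `j ≥ d_i - N`, `l = d_i - 1 - j`: `0^l Y_l` is `y i a` at `b i` = `(τ i a).coeff (d i)` for `l = 0` (`hytop`), and `0 = (τ i a).coeff (d i - l)` for `l ≥ 1` (`hy0`)). So `Ψ` vanishes at `z₀'` (C3 `ceq_zero`). Jacobian (chain rule: `pderiv` of `aeval σ`, or dual numbers): `Jac Ψ z₀' δ' = ` the components of `Jac Φ (zc τ) δ`, where `δ` is `δ'` completed by `δ (inr (inr ⟨i,(a,j)⟩)) = Y i a 1 * δ' (inl i)` if `d_i - 1 - j = 1`, `0` if `d_i - 1 - j ∉ {1}` (`j ≥ d_i - N`; derivative of `e^l Y_l` at `e = 0`).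
SURJECTIVE: given a target, take `δ'(inl) = 0`; `δ'ξ` with `inl`-part right (C3 `jac_inl` with `h i` from `(X - C (b i)) h i = grad F g (C τ_i1)` (the right side vanishes at `b i`: coefficient of `X` in `F(τ i) = 0`); `g` is free, degree `< n D`); then `δ'τ` to correct the `inr`-part: by linearity and C3 `jac_inr` it is `(grad F (τ i) (Σ_{j < d_i - N} δ_j X^j)).coeff j`, `j < n d_i - N`: `hS`. KERNEL: `δ'(inl i) = 1` for all `i`, `δ'ξ` with `grad F g δξ = - Σ h i` (degree `< n D`), then `δ'τ` correcting the `inr`-part (`hS`).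
P9 `smooth_curve` with `E` = the indices `inl i`: `Ω`, `z'` with `Ψ(z') = 0`, `z' (inl i) ≠ 0`. P8 `spec`: `z'' : CI' → k` with `Ψ(z'') = 0`, `z'' (inl i) ≠ 0`. All `Φ` vanish at `sg N Y z''` (W1a for the remaining ones), so `G = xh b g (sg N Y z'')` has `F(G) = yh .. 0 = 0` (`CEq` with `R = k`). W1c: `u = C (z''(inl i)^(d i)) * ∏_{l ≠ i} (X - b_l)^(d l)`, `u(b i) ≠ 0`.
-/

set_option autoImplicit false

namespace Q9

open Polynomial

section aux

variable {k : Type} [Field k]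

/-- directional derivative -/
private noncomputable def W1b_dd {I S : Type} [Fintype I] [CommRing S] [Algebra k S] (u v : I → S)
    (p : MvPolynomial I k) : S :=
  ∑ i, MvPolynomial.aeval u (MvPolynomial.pderiv i p) * v i

section dd

variable {I S : Type} [Fintype I] [CommRing S] [Algebra k S] (u v : I → S)

private theorem W1b_dd_C (c : k) : W1b_dd u v (MvPolynomial.C c) = 0 := by
  simp [W1b_dd]

private theorem W1b_dd_add (p q : MvPolynomial I k) :
    W1b_dd u v (p + q) = W1b_dd u v p + W1b_dd u v q := by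
  simp [W1b_dd, add_mul, Finset.sum_add_distrib]

private theorem W1b_dd_mul (p q : MvPolynomial I k) :
    W1b_dd u v (p * q) = MvPolynomial.aeval u p * W1b_dd u v q +
      MvPolynomial.aeval u q * W1b_dd u v p := by
  unfold W1b_dd
  rw [Finset.mul_sum, Finset.mul_sum, ← Finset.sum_add_distrib]
  refine Finset.sum_congr rfl fun i _ => ?_
  rw [MvPolynomial.pderiv_mul, map_add, map_mul, map_mul]
  ring

private theorem W1b_dd_X (x : I) : W1b_dd u v (MvPolynomial.X x : MvPolynomial I k) = v x := by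
  classical
  unfold W1b_dd
  rw [Finset.sum_eq_single x]
  · simp
  · intro j _ hj
    rw [MvPolynomial.pderiv_X, Pi.single_apply, if_neg (fun h => hj h.symm)]
    simp
  · intro h
    exact absurd (Finset.mem_univ x) h

private theorem W1b_dd_vadd (w : I → S) (p : MvPolynomial I k) :
    W1b_dd u (v + w) p = W1b_dd u v p + W1b_dd u w p := by
  simp [W1b_dd, mul_add, Finset.sum_add_distrib]

private theorem W1b_dd_pow (p : MvPolynomial I k) (hp : W1b_dd u v p = 0) (l : ℕ) :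
    W1b_dd u v (p ^ l) = 0 := by
  induction l with
  | zero =>
    have := W1b_dd_C (k := k) u v 1
    simpa using this
  | succ l ih => rw [pow_succ, W1b_dd_mul, ih, hp, mul_zero, mul_zero, add_zero]

private theorem W1b_chain {I' : Type} [Fintype I'] (σ : I' → MvPolynomial I k)
    (Ψ : MvPolynomial I' k) :
    W1b_dd u v (MvPolynomial.aeval σ Ψ) =
      W1b_dd (fun x => MvPolynomial.aeval u (σ x)) (fun x => W1b_dd u v (σ x)) Ψ := by
  induction Ψ using MvPolynomial.induction_on with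
  | C a =>
    rw [W1b_dd_C, MvPolynomial.aeval_C]
    exact W1b_dd_C u v a
  | add p q hp hq => rw [map_add, W1b_dd_add, W1b_dd_add, hp, hq]
  | mul_X p x hp =>
    have h1 : MvPolynomial.aeval u (MvPolynomial.aeval σ p) =
        MvPolynomial.aeval (fun x => MvPolynomial.aeval u (σ x)) p := by
      rw [← MvPolynomial.comp_aeval_apply]
    rw [map_mul, MvPolynomial.aeval_X, W1b_dd_mul, W1b_dd_mul, hp, h1, W1b_dd_X,
      MvPolynomial.aeval_X]

end dd

private theorem W1b_der {I : Type} [Fintype I] (x : I → k[X]) (Ψ : MvPolynomial I k) :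
    derivative (MvPolynomial.aeval x Ψ) =
      ∑ i, MvPolynomial.aeval x (MvPolynomial.pderiv i Ψ) * derivative (x i) := by
  change _ = W1b_dd x (fun i => derivative (x i)) Ψ
  induction Ψ using MvPolynomial.induction_on with
  | C a => simp [W1b_dd_C]
  | add p q hp hq => rw [map_add, W1b_dd_add, derivative_add, hp, hq]
  | mul_X p i hp =>
    rw [map_mul, MvPolynomial.aeval_X, W1b_dd_mul, W1b_dd_X, derivative_mul, hp,
      MvPolynomial.aeval_X]
    ring

private theorem W1b_coeff {l : ℕ} (y : Fin l → k) (r : ℕ) :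
    (∑ i : Fin l, C (y i) * X ^ (i : ℕ) : k[X]).coeff r =
      if h : r < l then y ⟨r, h⟩ else 0 := by
  classical
  simp only [finsetSum_coeff, coeff_C_mul, coeff_X_pow]
  split_ifs with h
  · rw [Finset.sum_eq_single (⟨r, h⟩ : Fin l)]
    · simp
    · intro j _ hj
      rw [if_neg, mul_zero]
      exact fun h2 => hj (Fin.ext h2.symm)
    · intro h2
      exact absurd (Finset.mem_univ _) h2
  · refine Finset.sum_eq_zero fun i _ => ?_
    rw [if_neg, mul_zero]
    have := i.2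
    omega

private theorem W1b_deg {l : ℕ} (y : Fin l → k) :
    (∑ i : Fin l, C (y i) * X ^ (i : ℕ) : k[X]).degree < (l : ℕ) := by
  rw [degree_lt_iff_coeff_zero]
  intro r hr
  rw [W1b_coeff, dif_neg (by omega)]

private theorem W1b_eq {l : ℕ} {p : k[X]} (hp : p.degree < (l : ℕ)) :
    ∑ i : Fin l, C (p.coeff i) * X ^ (i : ℕ) = p := by
  ext r
  rw [W1b_coeff]
  split_ifs with h
  · rfl
  · rw [degree_lt_iff_coeff_zero] at hp
    rw [hp r (by omega)]

variable {n D m : ℕ} {d : Fin m → ℕ}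

private noncomputable def W1b_sig (N : ℕ) (Y : Fin m → Fin (n + 1) → ℕ → k) :
    CI n D 1 d → MvPolynomial (CI n D 1 (fun i => d i - N)) k :=
  sg N (fun i a l => MvPolynomial.C (Y i a l)) MvPolynomial.X

private theorem W1b_sig_aeval {R : Type} [CommRing R] [Algebra k R] (N : ℕ)
    (Y : Fin m → Fin (n + 1) → ℕ → k) (z : CI n D 1 (fun i => d i - N) → R) (x : CI n D 1 d) :
    MvPolynomial.aeval z (W1b_sig N Y x) = sg N (fun i a l => algebraMap k R (Y i a l)) z x := by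
  rcases x with i | x | ⟨i, a, j⟩
  · simp [W1b_sig, sg]
  · simp [W1b_sig, sg]
  · simp only [W1b_sig, sg]
    split_ifs <;> simp

private theorem W1b_L_inr (N : ℕ) (Y : Fin m → Fin (n + 1) → ℕ → k)
    (z δ : CI n D 1 (fun i => d i - N) → k) (h1 : ∀ i, δ (Sum.inl i) = 0) (i : Fin m)
    (a : Fin (n + 1)) (j : Fin (d i)) :
    W1b_dd z δ (W1b_sig (d := d) N Y (Sum.inr (Sum.inr ⟨i, (a, j)⟩))) =
      if h : (j : ℕ) < d i - N then δ (Sum.inr (Sum.inr ⟨i, (a, ⟨j, h⟩)⟩)) else 0 := by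
  simp only [W1b_sig, sg]
  split_ifs with h
  · rw [W1b_dd_X]
  · rw [W1b_dd_mul, W1b_dd_C, W1b_dd_pow, mul_zero, mul_zero, add_zero]
    rw [W1b_dd_X, h1]

end aux

section surj

variable {k : Type} [Field k] {n D m : ℕ} {d : Fin m → ℕ} (F : MvPolynomial (Fin (n + 1)) k)
  (hF : F.IsHomogeneous n) (b : Fin m → k) (g : Fin (n + 1) → k[X]) (hg : Free F D g)
  (τ : Fin m → Fin (n + 1) → k[X]) (hτ : ∀ i, Free F (d i) (τ i))
  (hτ0 : ∀ i a, (τ i a).coeff 0 = (g a).eval (b i))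
  (Φ : CJ n D 1 d → MvPolynomial (CI n D 1 d) k) (hΦ : CEq F b g Φ) (N : ℕ)
  (hS : ∀ i, ∀ f : k[X], f.degree < (n * d i - N : ℕ) → ∃ a : Fin (n + 1) → k[X],
      (∀ j, (a j).degree < (d i - N : ℕ)) ∧ grad F (τ i) a = f)
  (Y : Fin m → Fin (n + 1) → ℕ → k)

include hτ hτ0 in
private theorem W1b_h : ∃ h : Fin m → k[X], ∀ i, (X - C (b i)) * h i =
    grad F g (fun a => C ((τ i a).coeff 1)) := by
  have key : ∀ i, ∃ h : k[X], (X - C (b i)) * h = grad F g (fun a => C ((τ i a).coeff 1)) := by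
    intro i
    have h1 : (grad F g (fun a => C ((τ i a).coeff 1))).IsRoot (b i) := by
      have h2 := W1b_der (τ i) F
      rw [(hτ i).2.1.2, derivative_zero] at h2
      have h3 := congrArg (eval 0) h2
      rw [eval_zero, eval_finsetSum] at h3
      rw [IsRoot.def]
      unfold grad
      rw [eval_finsetSum, h3]
      refine Finset.sum_congr rfl fun a _ => ?_
      rw [eval_mul, eval_mul, eval_C]
      congr 1
      · have h4 : ∀ (c : k) (x : Fin (n + 1) → k[X]) (Ψ : MvPolynomial (Fin (n + 1)) k),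
            eval c (MvPolynomial.aeval x Ψ) = MvPolynomial.aeval (fun i => eval c (x i)) Ψ := by
          intro c x Ψ
          induction Ψ using MvPolynomial.induction_on with
          | C a => simp
          | add p q hp hq => simp only [map_add, eval_add, hp, hq]
          | mul_X p i hp => simp only [map_mul, eval_mul, hp, MvPolynomial.aeval_X]
        rw [h4, h4]
        congr 2
        funext a
        rw [← coeff_zero_eq_eval_zero, hτ0]
      · rw [← coeff_zero_eq_eval_zero, coeff_derivative]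
        simp
    obtain ⟨h, hh⟩ := dvd_iff_isRoot.2 h1
    exact ⟨h, hh.symm⟩
  choose h hh using key
  exact ⟨h, hh⟩

private def W1b_emb (n D N : ℕ) {m : ℕ} (d : Fin m → ℕ) :
    Fin (n * D + 1 - 1) ⊕ (Σ i : Fin m, Fin (n * d i - N)) → CJ n D 1 d :=
  Sum.elim (fun l => Sum.inl l)
    (fun x => Sum.inr ⟨x.1, Fin.castLE (Nat.sub_le _ _) x.2⟩)

include hF hg hτ hτ0 hΦ hS in
private theorem W1b_surj
    (hz : ∀ x, MvPolynomial.aeval (zc τ : CI n D 1 (fun i => d i - N) → k) (W1b_sig N Y x) =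
      (zc τ : CI n D 1 d → k) x)
    (w : Fin (n * D + 1 - 1) ⊕ (Σ i : Fin m, Fin (n * d i - N)) → k) :
    ∃ δ : CI n D 1 (fun i => d i - N) → k, (∀ i, δ (Sum.inl i) = 0) ∧
      ∀ j, W1b_dd (zc τ) δ (MvPolynomial.aeval (W1b_sig N Y) (Φ (W1b_emb n D N d j))) = w j := by
  obtain ⟨h, hh⟩ := W1b_h F b g τ hτ hτ0
  have hch : ∀ (δ : CI n D 1 (fun i => d i - N) → k) (j : CJ n D 1 d),
      W1b_dd (zc τ) δ (MvPolynomial.aeval (W1b_sig N Y) (Φ j)) =
        (Jac Φ (zc τ : CI n D 1 d → k)).mulVec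
          (fun x => W1b_dd (zc τ) δ (W1b_sig (d := d) N Y x)) j := by
    intro δ j
    rw [W1b_chain, funext hz]
    rfl
  have hinl : ∀ (δ : CI n D 1 (fun i => d i - N) → k) (i : Fin m),
      W1b_dd (zc τ) δ (W1b_sig (d := d) N Y (Sum.inl i)) = δ (Sum.inl i) := by
    intro δ i
    exact W1b_dd_X _ _ _
  have hinr : ∀ (δ : CI n D 1 (fun i => d i - N) → k) x,
      W1b_dd (zc τ) δ (W1b_sig (d := d) N Y (Sum.inr (Sum.inl x))) = δ (Sum.inr (Sum.inl x)) := by
    intro δ i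
    exact W1b_dd_X _ _ _
  -- the handle
  obtain ⟨ξ, hξ1, hξ2⟩ := hg.2.2 (∑ l : Fin (n * D + 1 - 1), C (w (Sum.inl l)) * X ^ (l : ℕ))
    (W1b_deg _)
  let δ₁ : CI n D 1 (fun i => d i - N) → k :=
    Sum.elim (fun _ => 0) (Sum.elim (fun x => (ξ x.1).coeff x.2) (fun _ => 0))
  have hj1 := jac_inl F hF b g hg.2.1 τ hτ hτ0 Φ hΦ h hh
    (fun x => W1b_dd (zc τ) δ₁ (W1b_sig (d := d) N Y x))
  have hj1' : ∀ l : Fin (n * D + 1 - 1), W1b_dd (zc τ) δ₁
      (MvPolynomial.aeval (W1b_sig N Y) (Φ (Sum.inl l))) = w (Sum.inl l) := by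
    intro l
    have e1 : (fun a => ∑ l : Fin (D + 1 - 1), C (W1b_dd (zc τ) δ₁
        (W1b_sig (d := d) N Y (Sum.inr (Sum.inl (a, l))))) * X ^ (l : ℕ)) = ξ := by
      funext a
      simp only [hinr]
      exact W1b_eq (l := D + 1 - 1) (p := ξ a) (hξ1 a)
    have e2 : ∀ i, W1b_dd (zc τ) δ₁ (W1b_sig (d := d) N Y (Sum.inl i)) = 0 := by
      intro i
      rw [hinl]
      rfl
    rw [e1, hξ2] at hj1
    simp only [e2, C_0, zero_mul, Finset.sum_const_zero, add_zero] at hj1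
    have e3 := congrArg (fun p => coeff p (l : ℕ)) hj1
    simp only [W1b_coeff] at e3
    rw [dif_pos l.2, dif_pos l.2] at e3
    rw [hch]
    exact e3
  -- the teeth
  have key : ∀ i, ∃ a : Fin (n + 1) → k[X], (∀ j, (a j).degree < (d i - N : ℕ)) ∧
      grad F (τ i) a = ∑ j : Fin (n * d i - N), C (w (Sum.inr ⟨i, j⟩) -
        W1b_dd (zc τ) δ₁ (MvPolynomial.aeval (W1b_sig N Y)
          (Φ (W1b_emb n D N d (Sum.inr ⟨i, j⟩))))) * X ^ (j : ℕ) := by
    intro i
    exact hS i _ (W1b_deg _)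
  choose a ha1 ha2 using key
  let δ₂ : CI n D 1 (fun i => d i - N) → k :=
    Sum.elim (fun _ => 0) (Sum.elim (fun _ => 0) (fun x => (a x.1 x.2.1).coeff x.2.2))
  have g1 : ∀ i, W1b_dd (zc τ) δ₂ (W1b_sig (d := d) N Y (Sum.inl i)) = 0 := by
    intro i
    rw [hinl]
    rfl
  have g2 : ∀ x, W1b_dd (zc τ) δ₂ (W1b_sig (d := d) N Y (Sum.inr (Sum.inl x))) = 0 := by
    intro x
    rw [hinr]
    rfl
  have hj2 := jac_inl F hF b g hg.2.1 τ hτ hτ0 Φ hΦ h hh
    (fun x => W1b_dd (zc τ) δ₂ (W1b_sig (d := d) N Y x))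
  have hj2' : ∀ l : Fin (n * D + 1 - 1), W1b_dd (zc τ) δ₂
      (MvPolynomial.aeval (W1b_sig N Y) (Φ (Sum.inl l))) = 0 := by
    intro l
    have e1 : grad F g (fun _ => (0 : k[X])) = 0 := by simp [grad]
    simp only [g1, g2, C_0, zero_mul, Finset.sum_const_zero, add_zero] at hj2
    rw [e1] at hj2
    have e3 := congrArg (fun p => coeff p (l : ℕ)) hj2
    simp only [W1b_coeff, coeff_zero] at e3
    rw [dif_pos l.2] at e3
    rw [hch]
    exact e3
  have hj3 : ∀ (i : Fin m) (j : Fin (n * d i - N)), W1b_dd (zc τ) δ₂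
      (MvPolynomial.aeval (W1b_sig N Y) (Φ (W1b_emb n D N d (Sum.inr ⟨i, j⟩)))) =
        w (Sum.inr ⟨i, j⟩) - W1b_dd (zc τ) δ₁ (MvPolynomial.aeval (W1b_sig N Y)
          (Φ (W1b_emb n D N d (Sum.inr ⟨i, j⟩)))) := by
    intro i j
    rw [hch]
    have e1 := jac_inr F hF b g hg.2.1 τ hτ hτ0 Φ hΦ
      (fun x => W1b_dd (zc τ) δ₂ (W1b_sig (d := d) N Y x)) g1 g2 i
      (Fin.castLE (Nat.sub_le _ _) j)
    have e2 : (fun c => ∑ l : Fin (d i), C (W1b_dd (zc τ) δ₂
        (W1b_sig (d := d) N Y (Sum.inr (Sum.inr ⟨i, (c, l)⟩)))) * X ^ (l : ℕ)) = a i := by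
      funext c
      ext r
      rw [W1b_coeff]
      have e3 := (degree_lt_iff_coeff_zero _ _).1 (ha1 i c)
      split_ifs with hr
      · rw [W1b_L_inr N Y _ δ₂ (fun i => rfl)]
        split_ifs with hr2
        · rfl
        · exact (e3 r (by simpa using hr2)).symm
      · exact (e3 r (by omega)).symm
    rw [e2, ha2] at e1
    have e4 : (j : ℕ) < n * d i - N := j.2
    rw [Fin.val_castLE, W1b_coeff, dif_pos e4] at e1
    exact e1
  refine ⟨δ₁ + δ₂, fun i => ?_, fun j => ?_⟩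
  · change (0 : k) + 0 = 0
    rw [add_zero]
  · rw [W1b_dd_vadd]
    rcases j with l | ⟨i, j⟩
    · change W1b_dd (zc τ) δ₁ (MvPolynomial.aeval (W1b_sig N Y) (Φ (Sum.inl l))) +
        W1b_dd (zc τ) δ₂ (MvPolynomial.aeval (W1b_sig N Y) (Φ (Sum.inl l))) = _
      rw [hj1', hj2', add_zero]
    · rw [hj3]
      ring

end surj

theorem comb_special {k : Type} [Field k] [IsAlgClosed k] {n : ℕ} (hn : 2 ≤ n)
    (F : MvPolynomial (Fin (n + 1)) k) (hF : F.IsHomogeneous n) (D : ℕ) (g : Fin (n + 1) → k[X])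
    (hg : Free F D g) {m : ℕ} (b : Fin m → k) (hb : Function.Injective b) (d : Fin m → ℕ)
    (τ : Fin m → Fin (n + 1) → k[X]) (hτ : ∀ i, Free F (d i) (τ i))
    (hτ0 : ∀ i a, (τ i a).coeff 0 = (g a).eval (b i)) (N : ℕ) (hN : 1 ≤ N) (hNd : ∀ i, N ≤ d i)
    (hS : ∀ i, ∀ f : k[X], f.degree < (n * d i - N : ℕ) → ∃ a : Fin (n + 1) → k[X],
      (∀ j, (a j).degree < (d i - N : ℕ)) ∧ grad F (τ i) a = f)
    (y : Fin m → Fin (n + 1) → k[X]) (hy : ∀ i, (X - C (b i)) ^ N ∣ MvPolynomial.aeval (y i) F)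
    (hytop : ∀ i a, (τ i a).coeff (d i) = (y i a).eval (b i))
    (hy0 : ∀ i a l, 1 ≤ l → l < N → (τ i a).coeff (d i - l) = 0) :
    ∃ G : Fin (n + 1) → k[X], MvPolynomial.aeval G F = 0 ∧
      ∀ i, ∃ u : k[X], u.eval (b i) ≠ 0 ∧ ∀ a, (X - C (b i)) ^ N ∣ G a - u * y i a := by
  have hD : 1 ≤ D := hg.1
  obtain ⟨Φ, hΦ⟩ := exists_ceq hn F hF hD (Or.inl rfl) b hb d g hg.2.1 (c0 := 1)
  have hz : ∀ x, MvPolynomial.aeval (zc τ : CI n D 1 (fun i => d i - N) → k)
      (W1b_sig N (fun i a l => tc (b i) (y i a) l) x) = (zc τ : CI n D 1 d → k) x := by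
    intro x
    rw [W1b_sig_aeval]
    rcases x with i | x | ⟨i, a, j⟩
    · rfl
    · rfl
    · simp only [sg]
      split_ifs with h
      · rfl
      · simp only [zc, Algebra.algebraMap_self, RingHom.id_apply]
        have hj := j.2
        rcases Nat.eq_zero_or_pos (d i - 1 - j) with h0 | h0
        · rw [h0, pow_zero, one_mul]
          have h2 : (j : ℕ) + 1 = d i := by omega
          rw [h2, hytop]
          unfold tc
          rw [coeff_zero_eq_eval_zero, eval_comp]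
          simp
        · rw [zero_pow (by omega), zero_mul]
          have h2 : (j : ℕ) + 1 = d i - (d i - 1 - j) := by omega
          rw [h2]
          exact (hy0 i a _ h0 (by omega)).symm
  have h0 : ∀ j, MvPolynomial.eval (zc τ : CI n D 1 (fun i => d i - N) → k)
      (MvPolynomial.aeval (W1b_sig N (fun i a l => tc (b i) (y i a) l))
        (Φ (W1b_emb n D N d j))) = 0 := by
    intro j
    have e1 := ceq_zero F hF b g hg.2.1 τ hτ hτ0 Φ hΦ (W1b_emb n D N d j)
    rw [← MvPolynomial.aeval_eq_eval] at e1 ⊢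
    rw [MvPolynomial.comp_aeval_apply, funext hz]
    exact e1
  have hs := W1b_surj F hF b g hg τ hτ hτ0 Φ hΦ N hS (fun i a l => tc (b i) (y i a) l) hz
  let Ψ : Fin (n * D + 1 - 1) ⊕ (Σ i : Fin m, Fin (n * d i - N)) →
      MvPolynomial (CI n D 1 (fun i => d i - N)) k := fun j =>
    MvPolynomial.aeval (W1b_sig N (fun i a l => tc (b i) (y i a) l)) (Φ (W1b_emb n D N d j))
  have hJ : ∀ δ j, (Jac Ψ (zc τ : CI n D 1 (fun i => d i - N) → k)).mulVec δ j =
      W1b_dd (zc τ) δ (Ψ j) := fun δ j => rfl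
  have hsurj : Function.Surjective
      (Jac Ψ (zc τ : CI n D 1 (fun i => d i - N) → k)).mulVec := by
    intro w
    obtain ⟨δ, -, hδ⟩ := hs w
    exact ⟨δ, funext fun j => by rw [hJ]; exact hδ j⟩
  obtain ⟨v, hv1, hv2⟩ : ∃ v : CI n D 1 (fun i => d i - N) → k,
      (∀ i, v (Sum.inl i) = 1) ∧
        (Jac Ψ (zc τ : CI n D 1 (fun i => d i - N) → k)).mulVec v = 0 := by
    let δ₀ : CI n D 1 (fun i => d i - N) → k := Sum.elim (fun _ => 1) (fun _ => 0)
    obtain ⟨δ, hδ1, hδ2⟩ := hs (fun j => - W1b_dd (zc τ) δ₀ (Ψ j))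
    refine ⟨δ₀ + δ, fun i => ?_, funext fun j => ?_⟩
    · rw [Pi.add_apply, hδ1, add_zero]
      rfl
    · rw [hJ, W1b_dd_vadd]
      have := hδ2 j
      change _ + W1b_dd (zc τ) δ (Ψ j) = 0
      rw [show W1b_dd (zc τ) δ (Ψ j) = - W1b_dd (zc τ) δ₀ (Ψ j) from this, add_neg_cancel]
  classical
  obtain ⟨Ω, _, _, z, _, hz1, -, hz2⟩ := smooth_curve Ψ _ h0 hsurj
    (Finset.univ.image fun i : Fin m => (Sum.inl i : CI n D 1 (fun i => d i - N))) v hv2
    (by
      intro x hx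
      obtain ⟨i, -, rfl⟩ := Finset.mem_image.1 hx
      rw [hv1]
      exact one_ne_zero)
  obtain ⟨φ, hφ⟩ := spec (k := k) z
  let z' : CI n D 1 (fun i => d i - N) → k := fun x =>
    φ ⟨z x, Algebra.subset_adjoin (Set.mem_range_self x)⟩
  have hz1' : ∀ j, MvPolynomial.aeval z' (Ψ j) = 0 := by
    intro j
    have e1 : MvPolynomial.aeval z' (Ψ j) = φ (MvPolynomial.aeval (fun x =>
        (⟨z x, Algebra.subset_adjoin (Set.mem_range_self x)⟩ :
          Algebra.adjoin k (Set.range z))) (Ψ j)) := by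
      rw [← MvPolynomial.comp_aeval_apply]
    have e2 : (MvPolynomial.aeval (fun x =>
        (⟨z x, Algebra.subset_adjoin (Set.mem_range_self x)⟩ :
          Algebra.adjoin k (Set.range z))) (Ψ j)) = 0 := by
      apply Subtype.ext
      have e4 := MvPolynomial.comp_aeval_apply (Algebra.adjoin k (Set.range z)).val
        (f := fun x => (⟨z x, Algebra.subset_adjoin (Set.mem_range_self x)⟩ :
          Algebra.adjoin k (Set.range z))) (p := Ψ j)
      exact e4.trans (hz1 j)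
    rw [e1, e2, map_zero]
  have hz2' : ∀ i, z' (Sum.inl i) ≠ 0 := by
    intro i
    exact hφ _ (hz2 _ (Finset.mem_image.2 ⟨i, Finset.mem_univ i, rfl⟩))
  have hall : ∀ j, MvPolynomial.aeval (sg (d := d) N (fun i a l => tc (b i) (y i a) l) z')
      (Φ j) = 0 := by
    have hsig : (fun x => MvPolynomial.aeval z'
        (W1b_sig (d := d) N (fun i a l => tc (b i) (y i a) l) x)) =
        sg (d := d) N (fun i a l => tc (b i) (y i a) l) z' := by
      funext x
      rw [W1b_sig_aeval]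
      rfl
    have hlow : ∀ j, MvPolynomial.aeval (sg (d := d) N (fun i a l => tc (b i) (y i a) l) z')
        (Φ (W1b_emb n D N d j)) = 0 := by
      intro j
      rw [← hsig, ← MvPolynomial.comp_aeval_apply]
      exact hz1' j
    intro j
    rcases j with l | ⟨i, j⟩
    · exact hlow (Sum.inl l)
    · by_cases hj : (j : ℕ) < n * d i - N
      · exact hlow (Sum.inr ⟨i, ⟨j, hj⟩⟩)
      · have e1 := top_zero hn F hF b hb g Φ hΦ N hNd y hy z' i j (by omega)
        exact e1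
  refine ⟨xh b g (sg (d := d) N (fun i a l => tc (b i) (y i a) l) z'), ?_, fun i => ?_⟩
  · have e1 := (hΦ k (sg (d := d) N (fun i a l => tc (b i) (y i a) l) z')).1
    simp only [Algebra.algebraMap_self, RingHom.id_apply, Polynomial.map_id, hall] at e1
    rw [e1]
    simp [yh]
  · refine ⟨C (z' (Sum.inl i) ^ d i) * ∏ l ∈ Finset.univ.erase i, (X - C (b l)) ^ d l, ?_,
      fun a => xh_jet N hNd b g y z' i a⟩
    rw [eval_mul, eval_C, eval_prod]
    refine mul_ne_zero (pow_ne_zero _ (hz2' i)) (Finset.prod_ne_zero_iff.2 fun l hl => ?_)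
    rw [eval_pow, eval_sub, eval_X, eval_C]
    refine pow_ne_zero _ (sub_ne_zero.2 fun hbl => ?_)
    exact (Finset.mem_erase.1 hl).1 (hb hbl.symm)

end Q9
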