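import Pool.Agent.LibQ9.WDefs

/-!
[Q9 W1c] (SHORT/MEDIUM; only WDefs) The curve of the comb with prescribed top coefficients has the prescribed jets.

PLAN. Everything modulo `(X - C (b i))^N`, `N ≤ d i'` for all `i'`. `xh b g (sg N Y z) a = Wp b d * hdl .. + Σ_i' Σ_j C(..) * Wq b d i' (j+1)`. `Wp b d` is divisible by `(X - b_i)^(d i)`. For `i' ≠ i` every `Wq b d i' (j+1)` contains the factor `(X - b_i)^(d i)` (`i ∈ univ.erase i'`). For `i' = i`: `Wq b d i (j+1) = (∏_{l ≠ i} (X - b_l)^(d l)) * (X - b_i)^(d i - (j+1))`: for `j < d i - N` the exponent is `≥ N`; for `j ≥ d i - N`, with `l = d i - 1 - j < N`, the coefficient is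
`e^l Y_l e^(j+1) = e^(d i) Y_l` (`e = z (inl i)`, `l + j + 1 = d i`). So the sum is `C (e^(d i)) * ∏_{l ≠ i}(..) * Σ_{l<N} C (Y_l) (X - b_i)^l` (reindex `j ↔ l`, `Finset.sum_nbij` or `Fin.sum_univ_eq_sum_range`, `Finset.sum_range_reflect`), and `y - Σ_{l<N} C (tc (b i) y l) (X - C (b i))^l` is divisible by `(X - b_i)^N` (Taylor expansion: compose with `X + C b`, `Polynomial.X_pow_dvd_iff`).
-/

set_option autoImplicit false

namespace Q9

open Polynomial

private theorem W1c_taylor {R : Type} [CommRing R] (c : R) (y : R[X]) (N : ℕ) :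
    (X - C c) ^ N ∣ y - ∑ l ∈ Finset.range N, C (tc c y l) * (X - C c) ^ l := by
  have h1 : y = ∑ l ∈ Finset.range (N + ((taylor c y).natDegree + 1)),
      C (tc c y l) * (X - C c) ^ l := by
    conv_lhs => rw [← sum_taylor_eq y c]
    rw [Polynomial.sum_over_range' (taylor c y) (by intro; simp)
      (N + ((taylor c y).natDegree + 1)) (by omega)]
    rfl
  rw [Finset.sum_range_add] at h1
  have h4 : y - ∑ l ∈ Finset.range N, C (tc c y l) * (X - C c) ^ l =
      ∑ l ∈ Finset.range ((taylor c y).natDegree + 1),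
        C (tc c y (N + l)) * (X - C c) ^ (N + l) := by
    rw [sub_eq_iff_eq_add']
    exact h1
  rw [h4]
  apply Finset.dvd_sum
  intro l _
  exact Dvd.dvd.mul_left (pow_dvd_pow _ (by omega)) _

theorem xh_jet {R : Type} [CommRing R] {n D m : ℕ} {d : Fin m → ℕ} (N : ℕ) (hN : ∀ i, N ≤ d i)
    (b : Fin m → R) (g : Fin (n + 1) → R[X]) (y : Fin m → Fin (n + 1) → R[X])
    (z : CI n D 1 (fun i => d i - N) → R) (i : Fin m) (a : Fin (n + 1)) :
    (X - C (b i)) ^ N ∣ xh b g (sg (d := d) N (fun i a l => tc (b i) (y i a) l) z) a -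
      C (z (Sum.inl i) ^ d i) * (∏ l ∈ Finset.univ.erase i, (X - C (b l)) ^ d l) * y i a := by
  set w : R[X] := X - C (b i) with hw
  set P : R[X] := ∏ l ∈ Finset.univ.erase i, (X - C (b l)) ^ d l with hP
  set Y : Fin m → Fin (n + 1) → ℕ → R := fun i a l => tc (b i) (y i a) l with hY
  set z' := sg (d := d) N Y z with hz'
  have hW : w ^ N ∣ Wp b d := by
    refine (pow_dvd_pow w (hN i)).trans ?_
    exact Finset.dvd_prod_of_mem (fun l => (X - C (b l)) ^ d l) (Finset.mem_univ i)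
  have hWq : ∀ i', i' ≠ i → ∀ j, w ^ N ∣ Wq b d i' j := by
    intro i' hi' j
    refine Dvd.dvd.mul_right ((pow_dvd_pow w (hN i)).trans ?_) _
    exact Finset.dvd_prod_of_mem (fun l => (X - C (b l)) ^ d l)
      (Finset.mem_erase.2 ⟨hi'.symm, Finset.mem_univ i⟩)
  have hx : xh b g z' a = Wp b d * hdl g z' a + (∑ i' ∈ Finset.univ.erase i, ∑ j : Fin (d i'),
      C (z' (Sum.inr (Sum.inr ⟨i', (a, j)⟩)) * z' (Sum.inl i') ^ ((j : ℕ) + 1)) *
        Wq b d i' ((j : ℕ) + 1)) + ∑ j : Fin (d i),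
      C (z' (Sum.inr (Sum.inr ⟨i, (a, j)⟩)) * z' (Sum.inl i) ^ ((j : ℕ) + 1)) *
        Wq b d i ((j : ℕ) + 1) := by
    rw [add_assoc, Finset.sum_erase_add _ _ (Finset.mem_univ i)]
    rfl
  have hA : w ^ N ∣ Wp b d * hdl g z' a + (∑ i' ∈ Finset.univ.erase i, ∑ j : Fin (d i'),
      C (z' (Sum.inr (Sum.inr ⟨i', (a, j)⟩)) * z' (Sum.inl i') ^ ((j : ℕ) + 1)) *
        Wq b d i' ((j : ℕ) + 1)) := by
    refine dvd_add (Dvd.dvd.mul_right hW _) (Finset.dvd_sum fun i' hi' => Finset.dvd_sum fun j _ =>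
      Dvd.dvd.mul_left (hWq i' (Finset.ne_of_mem_erase hi') _) _)
  have he : z' (Sum.inl i) = z (Sum.inl i) := rfl
  -- the tooth
  let G : ℕ → R[X] := fun j => if j < d i - N then 0 else
    C (z (Sum.inl i) ^ d i * Y i a (d i - 1 - j)) * w ^ (d i - 1 - j)
  have hB : w ^ N ∣ (∑ j : Fin (d i),
      C (z' (Sum.inr (Sum.inr ⟨i, (a, j)⟩)) * z' (Sum.inl i) ^ ((j : ℕ) + 1)) *
        Wq b d i ((j : ℕ) + 1)) - P * ∑ j : Fin (d i), G j := by
    rw [Finset.mul_sum, ← Finset.sum_sub_distrib]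
    apply Finset.dvd_sum
    intro j _
    have hj := j.2
    have hq : Wq b d i ((j : ℕ) + 1) = P * w ^ (d i - 1 - j) := by
      have : d i - ((j : ℕ) + 1) = d i - 1 - j := by omega
      rw [Wq, this]
    rw [hq, he]
    by_cases hjN : (j : ℕ) < d i - N
    · have hG : G j = 0 := if_pos hjN
      rw [hG, mul_zero, sub_zero]
      refine Dvd.dvd.mul_left (Dvd.dvd.mul_left (pow_dvd_pow _ (by omega)) _) _
    · have hG : G j = C (z (Sum.inl i) ^ d i * Y i a (d i - 1 - j)) * w ^ (d i - 1 - j) :=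
        if_neg hjN
      have hz1 : z' (Sum.inr (Sum.inr ⟨i, (a, j)⟩)) =
          z (Sum.inl i) ^ (d i - 1 - j) * Y i a (d i - 1 - j) := dif_neg hjN
      have h5 : z (Sum.inl i) ^ (d i - 1 - (j : ℕ)) * Y i a (d i - 1 - j) *
          z (Sum.inl i) ^ ((j : ℕ) + 1) = z (Sum.inl i) ^ d i * Y i a (d i - 1 - j) := by
        have h6 : z (Sum.inl i) ^ d i =
            z (Sum.inl i) ^ (d i - 1 - (j : ℕ)) * z (Sum.inl i) ^ ((j : ℕ) + 1) := by
          rw [← pow_add]
          congr 1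
          omega
        rw [h6]
        ring
      rw [hG, hz1, h5]
      have h7 : C (z (Sum.inl i) ^ d i * Y i a (d i - 1 - j)) * (P * w ^ (d i - 1 - (j : ℕ))) -
          P * (C (z (Sum.inl i) ^ d i * Y i a (d i - 1 - j)) * w ^ (d i - 1 - (j : ℕ))) = 0 := by
        ring
      rw [h7]
      exact dvd_zero _
  have hGs : ∑ j : Fin (d i), G j = C (z (Sum.inl i) ^ d i) *
      ∑ l ∈ Finset.range N, C (tc (b i) (y i a) l) * w ^ l := by
    rw [← Finset.sum_range (fun j => G j), ← Finset.sum_range_reflect, Finset.mul_sum]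
    have h8 : ∀ l ∈ Finset.range (d i), G (d i - 1 - l) =
        if l < N then C (z (Sum.inl i) ^ d i) * (C (tc (b i) (y i a) l) * w ^ l) else 0 := by
      intro l hl
      rw [Finset.mem_range] at hl
      have hNi := hN i
      by_cases hlN : l < N
      · rw [if_pos hlN]
        have h9 : ¬ (d i - 1 - l < d i - N) := by omega
        have h10 : d i - 1 - (d i - 1 - l) = l := by omega
        change (if d i - 1 - l < d i - N then 0 else _) = _
        rw [if_neg h9, h10, C_mul, mul_assoc]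
      · rw [if_neg hlN]
        exact if_pos (by omega)
    rw [Finset.sum_congr rfl h8, ← Finset.sum_filter]
    apply Finset.sum_congr _ fun _ _ => rfl
    ext l
    have hNi := hN i
    simp only [Finset.mem_filter, Finset.mem_range]
    omega
  have hC : w ^ N ∣ P * (C (z (Sum.inl i) ^ d i) *
      ∑ l ∈ Finset.range N, C (tc (b i) (y i a) l) * w ^ l) -
      C (z (Sum.inl i) ^ d i) * P * y i a := by
    have h11 : P * (C (z (Sum.inl i) ^ d i) *
      ∑ l ∈ Finset.range N, C (tc (b i) (y i a) l) * w ^ l) -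
      C (z (Sum.inl i) ^ d i) * P * y i a = - (C (z (Sum.inl i) ^ d i) * P) *
        (y i a - ∑ l ∈ Finset.range N, C (tc (b i) (y i a) l) * w ^ l) := by ring
    rw [h11]
    exact Dvd.dvd.mul_left (W1c_taylor (b i) (y i a) N) _
  rw [← hGs] at hC
  rw [hx]
  have h12 := dvd_add hA (dvd_add hB hC)
  refine h12.trans (dvd_of_eq ?_)
  ring

end Q9
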