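import Pool.Agent.LibQ9.SR
import Pool.Agent.LibQ9.S6

/-!
[Q9 W3] (MEDIUM; may cite SR, T0, P2, P3, P4, P5, B5 as stated; variant of S6, see Q9_S6.lean in the store) A very free curve from a fixed point to a generic point, algebraic over the field of the generic point.

PLAN. As S6 (`q = vc γ₀ 0`, system `eqB F q d`, `z₀ (i, j) = (γ₀ i).coeff (j + 1)`) with `d - n` additional linear equations `Σ_a lam l a (X_a - C (z₀ a))`, where `lam` (SR `exists_forms`, `r = d - n`) is injective on `M₀ = {δ : grad F γ₀ (lin d δ) = 0, δ (i, d-1) = 0 for all i}`, a space isomorphic to the kernel in SR `finrank_ker_cor` (dimension `d - n`, `n ≤ d`). P3 `exists_gen` with `r = n` (`n d + (d - n) + n = (n+1) d`): `Ω`, `z`, `n ≤ td k z`, `Spz z z₀`, everything algebraic over `fld k z`. `γ = C q + X lin d z` is free and `Cor 0` (B5). `y = vc γ d`, `y i = z (i, d - 1)`. A derivation `D : fld k z → Ω` with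
`D (y i) = 0`: `δ = D z` satisfies the derivatives of all equations (P5 `der_rel`) and `δ (i, d-1) = 0`; the matrix (derivatives of `eqB`, `lam`, the coordinates `(i, d-1)`) is injective at `z₀` (T0 `eqB_deriv`), so at `z` (P5 `inj_of_spz`): `D z = 0`. P4 `sep_of_der`: every `z a` is algebraic over `fld k y`, so every `x : Ω` is algebraic over `fld k y` (transitivity; `fld k y ≤ fld k z`). P4 `td_le_of_der` with `M = ⊥`, `r = 0`: `n ≤ td k z ≤ td k y`.
-/

set_option autoImplicit false

namespace Q9

open Polynomial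

private theorem W3_lin_coeff {R : Type} [CommRing R] {n : ℕ} (d : ℕ) (z : Fin (n + 1) × Fin d → R)
    (i : Fin (n + 1)) (m : ℕ) : (lin d z i).coeff m = if h : m < d then z (i, ⟨m, h⟩) else 0 := by
  unfold lin
  rw [finsetSum_coeff]
  simp only [coeff_C_mul, coeff_X_pow]
  split_ifs with h
  · rw [Finset.sum_eq_single (⟨m, h⟩ : Fin d)]
    · simp
    · intro b _ hb
      rw [if_neg, mul_zero]
      intro h1
      exact hb (Fin.ext h1.symm)
    · intro h1
      exact absurd (Finset.mem_univ _) h1
  · apply Finset.sum_eq_zero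
    intro b _
    rw [if_neg, mul_zero]
    intro h1
    exact h (h1 ▸ b.2)

private theorem W3_natDegree_lin {R : Type} [CommRing R] {n : ℕ} (d : ℕ) (hd : 1 ≤ d)
    (z : Fin (n + 1) × Fin d → R) (i : Fin (n + 1)) : (lin d z i).natDegree ≤ d - 1 := by
  rw [natDegree_le_iff_coeff_eq_zero]
  intro m hm
  rw [W3_lin_coeff, dif_neg (by omega)]

/-- degree of the value of a form -/
private theorem W3_deg {k : Type} [Field k] {m : ℕ} (G : MvPolynomial (Fin m) k) {e : ℕ}
    (hG : G.IsHomogeneous e) {κ : Type} [Field κ] [Algebra k κ] (d : ℕ) (γ : Fin m → κ[X])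
    (hγ : ∀ i, (γ i).natDegree ≤ d) : (MvPolynomial.aeval γ G).natDegree ≤ e * d := by
  rw [MvPolynomial.aeval_def, MvPolynomial.eval₂_eq']
  apply natDegree_sum_le_of_forall_le
  intro s hs
  have h1 : ∑ i, s i = e := by
    have h2 := hG (MvPolynomial.mem_support_iff.1 hs)
    rw [← h2]
    rw [Finsupp.weight_apply, Finsupp.sum_fintype _ _ (by simp)]
    simp
  have h0 : (algebraMap k κ[X] (MvPolynomial.coeff s G)).natDegree = 0 := by
    rw [IsScalarTower.algebraMap_apply k κ κ[X], ← C_eq_algebraMap]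
    exact natDegree_C _
  calc (algebraMap k κ[X] (MvPolynomial.coeff s G) * ∏ i, γ i ^ s i).natDegree
      ≤ (algebraMap k κ[X] (MvPolynomial.coeff s G)).natDegree + (∏ i, γ i ^ s i).natDegree :=
        natDegree_mul_le
    _ ≤ 0 + ∑ i, (γ i ^ s i).natDegree := by
        rw [h0]
        exact Nat.add_le_add_left (natDegree_prod_le _ _) _
    _ ≤ 0 + ∑ i, s i * d := by
        refine Nat.add_le_add_left (Finset.sum_le_sum fun i _ => ?_) _
        exact natDegree_pow_le.trans (Nat.mul_le_mul_left _ (hγ i))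
    _ = e * d := by rw [zero_add, ← Finset.sum_mul, h1]

private theorem W3_lin_add {R : Type} [CommRing R] {n : ℕ} (d : ℕ)
    (z z' : Fin (n + 1) × Fin d → R) : lin d (z + z') = fun i => lin d z i + lin d z' i := by
  funext i
  ext m
  simp only [coeff_add, W3_lin_coeff, Pi.add_apply]
  split_ifs
  · rfl
  · rw [add_zero]

private theorem W3_lin_smul {R : Type} [CommRing R] {n : ℕ} (d : ℕ) (c : R)
    (z : Fin (n + 1) × Fin d → R) : lin d (c • z) = fun i => C c * lin d z i := by
  funext i
  ext m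
  simp only [coeff_C_mul, W3_lin_coeff, Pi.smul_apply, smul_eq_mul]
  split_ifs
  · rfl
  · rw [mul_zero]

private theorem W3_lin_zero {R : Type} [CommRing R] {n : ℕ} (d : ℕ) :
    lin d (0 : Fin (n + 1) × Fin d → R) = fun _ => 0 := by
  funext i
  ext m
  rw [W3_lin_coeff]
  simp

section W3

variable {k : Type} [Field k] {n : ℕ} (F : MvPolynomial (Fin (n + 1)) k) {Ω : Type} [Field Ω]
  [Algebra k Ω]

private theorem W3_grad_add (γ a b : Fin (n + 1) → (Polynomial Ω)) :
    grad F γ (fun i => a i + b i) = grad F γ a + grad F γ b := by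
  unfold grad
  simp only [mul_add, Finset.sum_add_distrib]

private theorem W3_grad_smul (γ a : Fin (n + 1) → (Polynomial Ω)) (c : Ω) :
    grad F γ (fun i => C c * a i) = C c * grad F γ a := by
  unfold grad
  rw [Finset.mul_sum]
  exact Finset.sum_congr rfl fun i _ => by ring

/-- the kernel -/
private noncomputable def W3_M (e : ℕ) (γ : Fin (n + 1) → (Polynomial Ω)) :
    Submodule Ω (Fin (n + 1) × Fin e → Ω) where
  carrier := {δ | grad F γ (lin e δ) = 0}
  add_mem' := by
    intro a b ha hb
    show grad F γ (lin e (a + b)) = 0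
    rw [W3_lin_add, W3_grad_add, show grad F γ (lin e a) = 0 from ha,
      show grad F γ (lin e b) = 0 from hb, add_zero]
  zero_mem' := by
    show grad F γ (lin e 0) = 0
    rw [W3_lin_zero]
    simp [grad]
  smul_mem' := by
    intro c a ha
    show grad F γ (lin e (c • a)) = 0
    rw [W3_lin_smul, W3_grad_smul, show grad F γ (lin e a) = 0 from ha, mul_zero]

/-- extension by zero -/
private noncomputable def W3_ext (d : ℕ) :
    (Fin (n + 1) × Fin (d - 1) → Ω) →ₗ[Ω] (Fin (n + 1) × Fin d → Ω) where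
  toFun δ a := if h : (a.2 : ℕ) < d - 1 then δ (a.1, ⟨a.2, h⟩) else 0
  map_add' δ δ' := by
    funext a
    simp only [Pi.add_apply]
    split_ifs
    · rfl
    · rw [add_zero]
  map_smul' c δ := by
    funext a
    simp only [Pi.smul_apply, smul_eq_mul, RingHom.id_apply]
    split_ifs
    · rfl
    · rw [mul_zero]

end W3

theorem generic_far_alg {k : Type} [Field k] {n : ℕ} (hn : 2 ≤ n) (F : MvPolynomial (Fin (n + 1)) k)
    (hF : F.IsHomogeneous n) (d : ℕ) (γ₀ : Fin (n + 1) → k[X]) (h₀ : Free F d γ₀)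
    (hc₀ : Cor F d γ₀ 0) :
    ∃ (Ω : Type) (_ : Field Ω) (_ : Algebra k Ω) (γ : Fin (n + 1) → Polynomial Ω), IsAlgClosed Ω ∧
      Free F d γ ∧ Cor F d γ 0 ∧ (∀ i, (γ i).coeff 0 = algebraMap k Ω ((γ₀ i).coeff 0)) ∧
      n ≤ td k (vc γ d) ∧ ∀ x : Ω, IsAlgebraic (fld k (vc γ d)) x := by
  classical
  have hd : 1 ≤ d := h₀.1
  obtain ⟨hdeg₀, hF₀⟩ := h₀.2.1
  let q : Fin (n + 1) → k := fun i => (γ₀ i).coeff 0
  let z₀ : Fin (n + 1) × Fin d → k := fun a => (γ₀ a.1).coeff (a.2 + 1)
  have hγ₀ : (fun i => C (algebraMap k k (q i)) + X * lin d z₀ i) = γ₀ := by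
    funext i
    ext m
    rcases m with _ | m
    · simp [q]
    · rw [coeff_add, coeff_C_succ, zero_add, coeff_X_mul, W3_lin_coeff]
      split_ifs with h
      · rfl
      · rw [coeff_eq_zero_of_natDegree_lt]
        have := hdeg₀ i
        omega
  -- the kernel at `γ₀` and the linear forms
  have hfr := finrank_ker_cor hn F hF d hd γ₀ h₀.2.1 hc₀ (W3_M F (d - 1) γ₀) (fun δ => Iff.rfl)
  have hnd : n ≤ d := by omega
  obtain ⟨lam, hlam⟩ := exists_forms ((W3_M F (d - 1) γ₀).map (W3_ext d)) (d - n)
    ((Submodule.finrank_map_le _ _).trans (by omega))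
  let Φ : Fin (n * d) ⊕ Fin (d - n) → MvPolynomial (Fin (n + 1) × Fin d) k :=
    Sum.elim (fun j => eqB F q d j)
      (fun l => ∑ a, MvPolynomial.C (lam l a) * (MvPolynomial.X a - MvPolynomial.C (z₀ a)))
  obtain ⟨Ω, iΩ, jΩ, z, hac, hz, hsp, htd, halg⟩ := exists_gen Φ z₀ (by
    rintro (j | l)
    · have h1 := eqB_aeval F q d z₀ j
      rw [hγ₀, hF₀, coeff_zero] at h1
      rw [← MvPolynomial.coe_aeval_eq_eval]
      exact h1
    · simp [Φ]) n (by
    simp only [Fintype.card_sum, Fintype.card_prod, Fintype.card_fin]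
    have h1 : (n + 1) * d = n * d + d := by ring
    rw [h1]
    omega)
  let γ : Fin (n + 1) → (Polynomial Ω) := fun i => C (algebraMap k Ω (q i)) + X * lin d z i
  have hγ : γ = fun i => C (algebraMap k Ω (q i)) + X * lin d z i := rfl
  have hc0 : ∀ i, (γ i).coeff 0 = algebraMap k Ω (q i) := by
    intro i
    simp [hγ]
  have hcs : ∀ i m, (γ i).coeff (m + 1) = if h : m < d then z (i, ⟨m, h⟩) else 0 := by
    intro i m
    rw [hγ]
    simp only
    rw [coeff_add, coeff_C_succ, zero_add, coeff_X_mul, W3_lin_coeff]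
  have hdeg : ∀ i, (γ i).natDegree ≤ d := by
    intro i
    rw [natDegree_le_iff_coeff_eq_zero]
    intro m hm
    obtain ⟨m, rfl⟩ : ∃ m', m = m' + 1 := ⟨m - 1, by omega⟩
    rw [hcs, dif_neg (by omega)]
  have hon : On F d γ := by
    refine ⟨hdeg, ?_⟩
    ext m
    rw [coeff_zero]
    rcases m with _ | m
    · have h1 : (MvPolynomial.aeval γ F).coeff 0 = MvPolynomial.aeval (fun i => (γ i).coeff 0) F := by
        have h2 : (MvPolynomial.aeval γ F).coeff 0 =
            (Polynomial.constantCoeff : (Polynomial Ω) →+* Ω) (MvPolynomial.aeval γ F) := rfl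
        rw [h2, MvPolynomial.aeval_def, MvPolynomial.aeval_def, MvPolynomial.hom_eval₂]
        congr 1
        ext x
        rw [RingHom.comp_apply, IsScalarTower.algebraMap_apply k Ω (Polynomial Ω), ← C_eq_algebraMap]
        simp
      have h3 : (MvPolynomial.aeval γ₀ F).coeff 0 = MvPolynomial.aeval q F := by
        have h2 : (MvPolynomial.aeval γ₀ F).coeff 0 =
            (Polynomial.constantCoeff : k[X] →+* k) (MvPolynomial.aeval γ₀ F) := rfl
        rw [h2, MvPolynomial.aeval_def, MvPolynomial.aeval_def, MvPolynomial.hom_eval₂]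
        congr 1
        ext x
        simp
      rw [h1]
      have h4 : (fun i => (γ i).coeff 0) = fun i => algebraMap k Ω (q i) := funext hc0
      rw [h4]
      have h5 : MvPolynomial.aeval (fun i => algebraMap k Ω (q i)) F =
          algebraMap k Ω (MvPolynomial.aeval q F) := by
        rw [MvPolynomial.aeval_def, MvPolynomial.aeval_def, MvPolynomial.hom_eval₂]
        congr 1
      rw [h5, ← h3, hF₀, coeff_zero, map_zero]
    · by_cases hm : m < n * d
      · rw [← eqB_aeval F q d z ⟨m, hm⟩]
        exact hz (Sum.inl _)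
      · exact coeff_eq_zero_of_natDegree_lt (lt_of_le_of_lt (W3_deg F hF d γ hdeg) (by omega))
  have hspz : Spz (cf d γ) (cf d γ₀) := by
    intro Ψ hΨ
    let s : Fin (n + 1) × Fin (d + 1) → MvPolynomial (Fin (n + 1) × Fin d) k := fun a =>
      if h : (a.2 : ℕ) = 0 then MvPolynomial.C (q a.1) else
        MvPolynomial.X (a.1, ⟨a.2 - 1, by omega⟩)
    have h1 : (MvPolynomial.aeval z).comp (MvPolynomial.aeval s) = MvPolynomial.aeval (cf d γ) := by
      apply MvPolynomial.algHom_ext
      rintro ⟨i, j⟩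
      rw [AlgHom.comp_apply, MvPolynomial.aeval_X, MvPolynomial.aeval_X]
      simp only [s, cf]
      split_ifs with h
      · rw [h, hc0]
        exact MvPolynomial.aeval_C z _
      · rw [MvPolynomial.aeval_X]
        obtain ⟨m, hm⟩ : ∃ m, (j : ℕ) = m + 1 := ⟨j - 1, by omega⟩
        have h5 : (γ i).coeff (j : ℕ) = z (i, ⟨m, by omega⟩) := by
          rw [hm, hcs, dif_pos (by omega)]
        refine Eq.trans ?_ h5.symm
        congr 2
        apply Fin.ext
        show (j : ℕ) - 1 = m
        omega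
    have h2 : (MvPolynomial.aeval z₀).comp (MvPolynomial.aeval s) =
        MvPolynomial.aeval (cf d γ₀) := by
      apply MvPolynomial.algHom_ext
      rintro ⟨i, j⟩
      rw [AlgHom.comp_apply, MvPolynomial.aeval_X, MvPolynomial.aeval_X]
      simp only [s, cf]
      split_ifs with h
      · rw [h]
        exact MvPolynomial.aeval_C z₀ _
      · rw [MvPolynomial.aeval_X]
        simp only [z₀]
        congr 1
        omega
    have h3 := hsp (MvPolynomial.aeval s Ψ) (by
      rw [← AlgHom.comp_apply, h1]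
      exact hΨ)
    rw [← MvPolynomial.coe_aeval_eq_eval] at h3 ⊢
    rw [← h2]
    exact h3
  have hfree : Free F d γ := Free.of_spz F hF d γ γ₀ hon h₀ hspz
  have hcor : Cor F d γ 0 := Cor.of_spz F hF d 0 hd γ γ₀ hon h₀.2.1 hc₀ hspz
  have hy : ∀ i, vc γ d i = z (i, ⟨d - 1, by omega⟩) := by
    intro i
    obtain ⟨e, rfl⟩ : ∃ e, d = e + 1 := ⟨d - 1, by omega⟩
    show (γ i).coeff (e + 1) = _
    rw [hcs, dif_pos (by omega)]
    rfl
  have hyf : ∀ i, vc γ d i ∈ fld k z := by
    intro i
    rw [hy]
    exact (fz k z (i, ⟨d - 1, by omega⟩)).2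
  -- the matrix
  let Mx : Matrix ((Fin (n * d) ⊕ Fin (d - n)) ⊕ Fin (n + 1)) (Fin (n + 1) × Fin d)
      (MvPolynomial (Fin (n + 1) × Fin d) k) :=
    Sum.elim (fun j a => MvPolynomial.pderiv a (Φ j))
      (fun i a => if a = (i, ⟨d - 1, by omega⟩) then 1 else 0)
  have hinj₀ : Function.Injective (Mx.map (MvPolynomial.eval z₀)).mulVec := by
    intro u v huv
    rw [← sub_eq_zero, ← Matrix.mulVec_sub] at huv
    rw [← sub_eq_zero]
    set δ : Fin (n + 1) × Fin d → k := u - v with hδ
    have hA : ∀ j : Fin (n * d), (grad F γ₀ (lin d δ)).coeff j = 0 := by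
      intro j
      have h1 := congrFun huv (Sum.inl (Sum.inl j))
      have h2 := eqB_deriv F q d z₀ δ j
      rw [hγ₀] at h2
      rw [← h2]
      exact h1
    have hB : ∀ l, ∑ a, lam l a * δ a = 0 := by
      intro l
      have h1 := congrFun huv (Sum.inl (Sum.inr l))
      have h2 : ∀ a, (Mx.map (MvPolynomial.eval z₀)) (Sum.inl (Sum.inr l)) a = lam l a := by
        intro a
        show MvPolynomial.eval z₀ (MvPolynomial.pderiv a (∑ b, MvPolynomial.C (lam l b) *
          (MvPolynomial.X b - MvPolynomial.C (z₀ b)))) = lam l a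
        simp [map_sum, Derivation.leibniz, MvPolynomial.pderiv_X, Pi.single_apply]
      rw [← show ((Mx.map (MvPolynomial.eval z₀)).mulVec δ) (Sum.inl (Sum.inr l)) =
        ∑ a, lam l a * δ a from Finset.sum_congr rfl fun a _ => congrArg (· * δ a) (h2 a)]
      exact h1
    have hC : ∀ i, δ (i, ⟨d - 1, by omega⟩) = 0 := by
      intro i
      have h1 := congrFun huv (Sum.inr i)
      have h2 : ((Mx.map (MvPolynomial.eval z₀)).mulVec δ) (Sum.inr i) =
          δ (i, ⟨d - 1, by omega⟩) := by
        show ∑ a, MvPolynomial.eval z₀ (if a = (i, ⟨d - 1, by omega⟩) then 1 else 0) * δ a = _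
        rw [Finset.sum_eq_single (i, (⟨d - 1, by omega⟩ : Fin d))]
        · rw [if_pos rfl, map_one, one_mul]
        · intro b _ hb
          rw [if_neg hb, map_zero, zero_mul]
        · intro h
          exact absurd (Finset.mem_univ _) h
      rw [← h2]
      exact h1
    refine hlam δ ?_ hB
    let δ' : Fin (n + 1) × Fin (d - 1) → k := fun a => δ (a.1, ⟨a.2, by omega⟩)
    have hlin : lin (d - 1) δ' = lin d δ := by
      funext i
      ext m
      rw [W3_lin_coeff, W3_lin_coeff]
      by_cases h1 : m < d - 1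
      · rw [dif_pos h1, dif_pos (by omega)]
      · rw [dif_neg h1]
        by_cases h2 : m < d
        · rw [dif_pos h2]
          obtain rfl : m = d - 1 := by omega
          exact (hC i).symm
        · rw [dif_neg h2]
    refine ⟨δ', ?_, ?_⟩
    · show grad F γ₀ (lin (d - 1) δ') = 0
      rw [hlin]
      ext m
      rw [coeff_zero]
      by_cases hm : m < n * d
      · exact hA ⟨m, hm⟩
      · apply coeff_eq_zero_of_natDegree_lt
        have h3 : (grad F γ₀ (lin d δ)).natDegree ≤ (n - 1) * d + (d - 1) := by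
          unfold grad
          apply natDegree_sum_le_of_forall_le
          intro i _
          refine natDegree_mul_le.trans (Nat.add_le_add ?_ (W3_natDegree_lin d hd δ i))
          exact W3_deg _ hF.pderiv d γ₀ hdeg₀
        obtain ⟨c, rfl⟩ : ∃ c, n = c + 1 := ⟨n - 1, by omega⟩
        have h4 : (c + 1) * d = c * d + d := by ring
        rw [Nat.add_sub_cancel] at h3
        omega
    · funext a
      obtain ⟨i, j⟩ := a
      show (if h : (j : ℕ) < d - 1 then δ' (i, ⟨j, h⟩) else 0) = δ (i, j)
      split_ifs with h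
      · rfl
      · have h1 : j = ⟨d - 1, by omega⟩ := Fin.ext (by
          have := j.2
          simp only
          omega)
        rw [h1]
        exact (hC i).symm
  have hinj := inj_of_spz z z₀ hsp Mx hinj₀
  have hD : ∀ D : Derivation k (fld k z) Ω, (∀ j, D ⟨vc γ d j, hyf j⟩ = 0) →
      ∀ a, D (fz k z a) = 0 := by
    intro D hD a
    set δ : Fin (n + 1) × Fin d → Ω := fun a => D (fz k z a) with hδ
    have hC : ∀ i, δ (i, ⟨d - 1, by omega⟩) = 0 := by
      intro i
      have h1 : fz k z (i, ⟨d - 1, by omega⟩) = ⟨vc γ d i, hyf i⟩ := Subtype.ext (hy i).symm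
      rw [hδ]
      simp only
      rw [h1]
      exact hD i
    have h0 : (Mx.map (MvPolynomial.aeval z)).mulVec δ = 0 := by
      funext j
      rcases j with j | i
      · exact der_rel z D (Φ j) (hz j)
      · have h2 : ((Mx.map (MvPolynomial.aeval z)).mulVec δ) (Sum.inr i) =
            δ (i, ⟨d - 1, by omega⟩) := by
          show ∑ a, MvPolynomial.aeval z (if a = (i, ⟨d - 1, by omega⟩) then
            (1 : MvPolynomial (Fin (n + 1) × Fin d) k) else 0) * δ a = _
          rw [Finset.sum_eq_single (i, (⟨d - 1, by omega⟩ : Fin d))]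
          · rw [if_pos rfl, map_one, one_mul]
          · intro b _ hb
            rw [if_neg hb, map_zero, zero_mul]
          · intro h
            exact absurd (Finset.mem_univ _) h
        rw [h2]
        exact hC i
    have h1 : δ = 0 := hinj (by
      rw [h0]
      exact (Matrix.mulVec_zero _).symm)
    exact congrFun h1 a
  have hle := td_le_of_der z (vc γ d) hyf ⊥ 0 (by simp) (fun D h => by
    rw [Submodule.mem_bot]
    funext a
    exact hD D h a)
  have hsep := sep_of_der z (vc γ d) hyf hD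
  refine ⟨Ω, iΩ, jΩ, γ, hac, hfree, hcor, hc0, by omega, fun x => ?_⟩
  obtain ⟨p, hp0, hp⟩ := halg x
  have hmem : ∀ u : fld k z, (u : Ω) ∈ algebraicClosure (fld k (vc γ d)) Ω := by
    have h1 : fld k z ≤ (algebraicClosure (fld k (vc γ d)) Ω).restrictScalars k := by
      rw [IntermediateField.adjoin_le_iff]
      rintro _ ⟨a, rfl⟩
      show z a ∈ algebraicClosure (fld k (vc γ d)) Ω
      rw [mem_algebraicClosure_iff]
      exact (hsep a).isIntegral.isAlgebraic
    exact fun u => h1 u.2
  let φ : fld k z →+* algebraicClosure (fld k (vc γ d)) Ω :=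
    { toFun := fun u => ⟨u, hmem u⟩
      map_one' := rfl
      map_mul' := fun _ _ => rfl
      map_zero' := rfl
      map_add' := fun _ _ => rfl }
  have hx : IsAlgebraic (algebraicClosure (fld k (vc γ d)) Ω) x := by
    refine ⟨p.map φ, (Polynomial.map_ne_zero_iff φ.injective).2 hp0, ?_⟩
    rw [aeval_def, eval₂_map]
    exact hp
  exact hx.restrictScalars (fld k (vc γ d))

end Q9
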