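import Pool.Agent.LibQ9.W1b
import Pool.Agent.LibQ9.W2
import Pool.Agent.LibQ9.W5
import Pool.Agent.LibQ9.T0
import Pool.Agent.LibQ9.P8

/-!
[Q9 W6] (MEDIUM; may cite W1b, W2, W5, T0, P8 `spec` as stated) Curves with prescribed jets at finitely many points of the line.

PLAN. If `N = 0` take any curve, e.g. `G = 0` (`F` homogeneous of degree `n ≥ 2`); let `N ≥ 1`. `q i = ve (y i) (b i) ≠ 0`, on `F = 0` (`(X - b i)^N ∣ F(y i)`, `N ≥ 1`). W5: `Ω`, `g`, `δ i`. W2 for `δ i`: `τ i`, degree `N * d i`, free, with surjectivity in degrees `< n (N d_i) - N`. W1b `comb_special` over the field `Ω` for the form `F' = map (algebraMap k Ω) F` (T0 `free_bc`, `grad` of a mapped polynomial), points `algebraMap (b i)`, `y i` mapped to `Ω[X]` (`N ≤ N * d i` as `d i ≥ 1`): `G₁ : Fin (n+1) → Ω[X]`, `F(G₁) = 0`, `u i` with `u_i(b_i) ≠ 0` and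
`G₁ a - u i * y i a = (X - b_i)^N * v i a`. Descent: P8 `spec` for the finite family of all coefficients of the `G₁ a`, `u i`, `v i a` and of the elements `(u i).eval (b i)`: applying `φ` to the coefficients gives the same over `k` (`φ` fixes `k`; polynomials over the subalgebra `Algebra.adjoin k (range z)`, see Q9_B4.lean in the store for the technique). Finally CRT: `h : k[X]` with `(X - b_i)^N ∣ h * u i - 1` for all `i` (`u i` is a unit modulo `(X - b_i)^N`; the moduli are pairwise coprime: `Ideal.quotientInfRingEquivPiQuotient` or explicit Lagrange-type sum, or `exists` by induction on `m`).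
`G a = h * G₁ a`: `F(G) = h^n F(G₁) = 0`, `G a - y i a = h (G₁ a - u i y i a) + (h u i - 1) y i a`.
-/

set_option autoImplicit false

namespace Q9

open Polynomial

private theorem W6_sc {k : Type} [Field k] {m N : ℕ} {G : MvPolynomial (Fin m) k} (hG : G.IsHomogeneous N)
    {S : Type} [CommRing S] [Algebra k S] (x : Fin m → S) (c : S) :
    MvPolynomial.aeval (fun i => c * x i) G = c ^ N * MvPolynomial.aeval x G := by
  rw [MvPolynomial.aeval_def, MvPolynomial.aeval_def, MvPolynomial.eval₂_eq', MvPolynomial.eval₂_eq', Finset.mul_sum]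
  refine Finset.sum_congr rfl fun s hs => ?_
  have h := hG (MvPolynomial.mem_support_iff.1 hs)
  have h2 := DFunLike.congr_fun (Finsupp.degree_eq_weight_one (R := ℕ) (σ := Fin m)) s
  rw [Finsupp.degree_eq_sum] at h2
  have h3 : ∑ i, s i = N := h2.trans h
  have h1 : ∏ i, (c * x i) ^ s i = c ^ N * ∏ i, x i ^ s i := by
    simp only [mul_pow, Finset.prod_mul_distrib]
    rw [Finset.prod_pow_eq_pow_sum, h3]
  rw [h1]
  ring

private theorem W6_lift {k : Type} [Field k] [IsAlgClosed k] {κ : Type} [Field κ] [Algebra k κ]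
    {J I : Type} [Finite J] [Finite I] (P : J → κ[X]) (w : I → κ) (hw : ∀ i, w i ≠ 0) :
    ∃ (B : Subalgebra k κ) (φ : B →ₐ[k] k) (P' : J → B[X]), (∀ j, mapAlgHom B.val (P' j) = P j) ∧
      ∀ i (x : B), (x : κ) = w i → φ x ≠ 0 := by
  classical
  obtain ⟨N, hN⟩ : ∃ N : ℕ, ∀ j, (P j).natDegree < N := by
    obtain ⟨N, hN⟩ := (Set.finite_range (fun j => (P j).natDegree)).bddAbove
    exact ⟨N + 1, fun j => Nat.lt_succ_of_le (hN ⟨j, rfl⟩)⟩
  let z : (J × Fin N) ⊕ I → κ := Sum.elim (fun a => (P a.1).coeff a.2) w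
  obtain ⟨φ, hφ⟩ := spec (k := k) z
  have h : ∀ j m, (P j).coeff m ∈ Algebra.adjoin k (Set.range z) := by
    intro j m
    by_cases hm : m < N
    · exact Algebra.subset_adjoin ⟨Sum.inl (j, ⟨m, hm⟩), rfl⟩
    · rw [coeff_eq_zero_of_natDegree_lt (lt_of_lt_of_le (hN j) (not_lt.1 hm))]
      exact Subalgebra.zero_mem _
  have h2 : ∀ j, ∃ p : (Algebra.adjoin k (Set.range z))[X],
      mapAlgHom (Algebra.adjoin k (Set.range z)).val p = P j := by
    intro j
    have h3 : P j ∈ Polynomial.lifts ((Algebra.adjoin k (Set.range z)).val :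
        (Algebra.adjoin k (Set.range z)) →+* κ) := by
      rw [Polynomial.lifts_iff_coeff_lifts]
      intro m
      exact ⟨⟨_, h j m⟩, rfl⟩
    obtain ⟨p, hp⟩ := (Polynomial.mem_lifts _).1 h3
    exact ⟨p, hp⟩
  choose P' hP' using h2
  refine ⟨_, φ, P', hP', fun i x hx => ?_⟩
  have h4 := hφ (Sum.inr i) (hw i)
  have h5 : x = ⟨z (Sum.inr i), Algebra.subset_adjoin (Set.mem_range_self (Sum.inr i))⟩ := Subtype.ext hx
  rw [h5]
  exact h4

private theorem W6_grad {k : Type} [Field k] {m : ℕ} (F : MvPolynomial (Fin m) k) {Ω : Type} [Field Ω]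
    [Algebra k Ω] (γ w : Fin m → Polynomial Ω) :
    grad (MvPolynomial.map (algebraMap k Ω) F) γ w = grad F γ w := by
  unfold grad
  refine Finset.sum_congr rfl fun i _ => ?_
  rw [MvPolynomial.pderiv_map, MvPolynomial.aeval_map_algebraMap]

private theorem W6_crt {k : Type} [Field k] {m : ℕ} (b : Fin m → k) (hb : Function.Injective b) (N : ℕ)
    (U : Fin m → k[X]) (hU : ∀ i, (U i).eval (b i) ≠ 0) : ∃ h : k[X], ∀ i, (X - C (b i)) ^ N ∣ h * U i - 1 := by
  have h1 : ∀ i, ∃ e : k[X], (X - C (b i)) ^ N ∣ e * U i - 1 := by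
    intro i
    have h2 : IsCoprime (X - C (b i)) (U i) := by
      rw [(irreducible_X_sub_C (b i)).coprime_iff_not_dvd, dvd_iff_isRoot]
      exact hU i
    obtain ⟨s, t, hst⟩ := h2.pow_left (m := N)
    refine ⟨t, -s, ?_⟩
    linear_combination hst
  choose e he using h1
  have hI : Pairwise (Function.onFun IsCoprime fun i => Ideal.span {(X - C (b i)) ^ N}) := by
    intro i j hij
    show IsCoprime (Ideal.span {(X - C (b i)) ^ N}) (Ideal.span {(X - C (b j)) ^ N})
    rw [Ideal.isCoprime_span_singleton_iff]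
    exact (isCoprime_X_sub_C_of_isUnit_sub (sub_ne_zero.2 fun h => hij (hb h)).isUnit).pow
  obtain ⟨h, hh⟩ := Ideal.exists_forall_sub_mem_ideal hI e
  refine ⟨h, fun i => ?_⟩
  have h3 := Ideal.mem_span_singleton.1 (hh i)
  have h4 : h * U i - 1 = (h - e i) * U i + (e i * U i - 1) := by ring
  rw [h4]
  exact dvd_add (Dvd.dvd.mul_right h3 _) (he i)

theorem jets_line {k : Type} [Field k] [IsAlgClosed k] {n : ℕ} (hn : 2 ≤ n)
    (F : MvPolynomial (Fin (n + 1)) k) (hF : F.IsHomogeneous n) (hSm : Sm F) (hF0 : F ≠ 0)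
    (hp : (Ideal.span {F}).IsPrime) (hfree : ∃ (d : ℕ) (γ : Fin (n + 1) → k[X]), Free F d γ)
    (hq : ∀ x : Fin (n + 1) → k, x ≠ 0 → MvPolynomial.aeval x F = 0 →
      ∃ (d : ℕ) (γ : Fin (n + 1) → k[X]), Free F d γ ∧ Cor F d γ 0 ∧ vc γ 0 = x)
    {m : ℕ} (b : Fin m → k) (hb : Function.Injective b) (N : ℕ) (y : Fin m → Fin (n + 1) → k[X])
    (hy0 : ∀ i, ve (y i) (b i) ≠ 0) (hy : ∀ i, (X - C (b i)) ^ N ∣ MvPolynomial.aeval (y i) F) :
    ∃ G : Fin (n + 1) → k[X], MvPolynomial.aeval G F = 0 ∧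
      ∀ i a, (X - C (b i)) ^ N ∣ G a - y i a := by
  classical
  rcases Nat.eq_zero_or_pos N with rfl | hN
  · refine ⟨fun _ => 0 * 0, ?_, fun i a => ?_⟩
    · rw [W6_sc hF (fun _ => (0 : k[X])) 0, zero_pow (by omega), zero_mul]
    · rw [pow_zero]
      exact one_dvd _
  have hqz : ∀ i, MvPolynomial.aeval (ve (y i) (b i)) F = 0 := by
    intro i
    have h1 : (aeval (b i)) (MvPolynomial.aeval (y i) F) = MvPolynomial.aeval (ve (y i) (b i)) F := by
      rw [MvPolynomial.comp_aeval_apply]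
      rfl
    rw [← h1]
    obtain ⟨r, hr⟩ := hy i
    rw [hr, map_mul, map_pow, map_sub, aeval_X, aeval_C, Algebra.algebraMap_self, RingHom.id_apply, sub_self,
      zero_pow (by omega), zero_mul]
  obtain ⟨Ω, _, _, D, g, d, δ, hΩ, hg, hδ⟩ := exists_config hn F hF hSm hF0 hp hfree b (fun i => ve (y i) (b i))
    (fun i => hq _ (hy0 i) (hqz i))
  have htooth := fun i => pow_tooth F (d i) N hN (δ i) (hδ i).1 (hδ i).2.1
  choose τ hτ1 hτ2 hτ3 hτ4 hτ5 using htooth
  set F' := MvPolynomial.map (algebraMap k Ω) F with hF'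
  have hF'h : F'.IsHomogeneous n := hF.map _
  have hmap : ∀ p : k[X], mapAlgHom (Algebra.ofId k Ω) p = p.map (algebraMap k Ω) := fun p => rfl
  have hbinj : Function.Injective fun i => algebraMap k Ω (b i) := fun i j h =>
    hb ((algebraMap k Ω).injective h)
  have hdvd : ∀ i, (X - C (algebraMap k Ω (b i))) ^ N ∣
      MvPolynomial.aeval (fun a => (y i a).map (algebraMap k Ω)) F' := by
    intro i
    rw [hF', MvPolynomial.aeval_map_algebraMap]
    obtain ⟨r, hr⟩ := hy i
    refine ⟨r.map (algebraMap k Ω), ?_⟩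
    have h1 := congrArg (mapAlgHom (Algebra.ofId k Ω)) hr
    rw [MvPolynomial.comp_aeval_apply, hmap] at h1
    rw [Polynomial.map_mul, Polynomial.map_pow, Polynomial.map_sub, Polynomial.map_X, Polynomial.map_C] at h1
    exact h1
  obtain ⟨G₁, hG₁, hcomb⟩ := comb_special hn F' hF'h D g ((free_bc F D g).2 hg) (fun i => algebraMap k Ω (b i))
    hbinj (fun i => N * d i) τ (fun i => (free_bc F (N * d i) (τ i)).2 (hτ1 i))
    (fun i a => by
      rw [hτ3]
      exact congrFun (hδ i).2.2.1 a)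
    N hN (fun i => Nat.le_mul_of_pos_right N (hδ i).1.1)
    (fun i f hf => by
      obtain ⟨a, ha1, ha2⟩ := hτ2 i f hf
      exact ⟨a, ha1, by rw [W6_grad]; exact ha2⟩)
    (fun i a => (y i a).map (algebraMap k Ω)) hdvd
    (fun i a => by
      rw [hτ4, eval_map_algebraMap, aeval_algebraMap_apply]
      exact congrFun (hδ i).2.2.2 a)
    (fun i a l h1 h2 => hτ5 i a l h1 h2)
  choose u hu hv using hcomb
  choose v hv using hv
  rw [hF', MvPolynomial.aeval_map_algebraMap] at hG₁
  let J : Type := Fin (n + 1) ⊕ (Fin m ⊕ (Fin m × Fin (n + 1)))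
  let P : J → Polynomial Ω := Sum.elim G₁ (Sum.elim u (fun x => v x.1 x.2))
  obtain ⟨B, φ, P', hP', hφ⟩ := W6_lift (k := k) P (fun i => (u i).eval (algebraMap k Ω (b i))) hu
  have hinj : Function.Injective (mapAlgHom (R := k) B.val) :=
    Polynomial.map_injective (B.val : B →+* Ω) Subtype.val_injective
  have hPG : ∀ a, mapAlgHom B.val (P' (Sum.inl a)) = G₁ a := fun a => hP' (Sum.inl a)
  have hPu : ∀ i, mapAlgHom B.val (P' (Sum.inr (Sum.inl i))) = u i := fun i => hP' (Sum.inr (Sum.inl i))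
  have hPv : ∀ i a, mapAlgHom B.val (P' (Sum.inr (Sum.inr (i, a)))) = v i a :=
    fun i a => hP' (Sum.inr (Sum.inr (i, a)))
  have hcomp : ∀ p : k[X], mapAlgHom B.val (p.map (algebraMap k B)) = p.map (algebraMap k Ω) := by
    intro p
    show (p.map (algebraMap k B)).map (B.val : B →+* Ω) = p.map (algebraMap k Ω)
    rw [Polynomial.map_map]
    rfl
  have hback : ∀ p : k[X], mapAlgHom φ (p.map (algebraMap k B)) = p := by
    intro p
    show (p.map (algebraMap k B)).map (φ : B →+* k) = p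
    rw [Polynomial.map_map, AlgHom.comp_algebraMap, Algebra.algebraMap_self, Polynomial.map_id]
  have e1 : MvPolynomial.aeval (fun a => P' (Sum.inl a)) F = 0 := by
    apply hinj
    rw [MvPolynomial.comp_aeval_apply, map_zero]
    simp only [hPG]
    exact hG₁
  have e2 : ∀ i a, P' (Sum.inl a) - P' (Sum.inr (Sum.inl i)) * (y i a).map (algebraMap k B) =
      ((X - C (b i)) ^ N : k[X]).map (algebraMap k B) * P' (Sum.inr (Sum.inr (i, a))) := by
    intro i a
    apply hinj
    rw [map_sub, map_mul, map_mul, hPG, hPu, hPv, hcomp, hcomp, Polynomial.map_pow, Polynomial.map_sub,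
      Polynomial.map_X, Polynomial.map_C]
    exact hv i a
  set G₀ : Fin (n + 1) → k[X] := fun a => mapAlgHom φ (P' (Sum.inl a)) with hG₀
  set U : Fin m → k[X] := fun i => mapAlgHom φ (P' (Sum.inr (Sum.inl i))) with hUdef
  have f1 : MvPolynomial.aeval G₀ F = 0 := by
    have h1 := congrArg (mapAlgHom φ) e1
    rw [MvPolynomial.comp_aeval_apply, map_zero] at h1
    exact h1
  have f2 : ∀ i a, G₀ a - U i * y i a = (X - C (b i)) ^ N * mapAlgHom φ (P' (Sum.inr (Sum.inr (i, a)))) := by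
    intro i a
    have h1 := congrArg (mapAlgHom φ) (e2 i a)
    rw [map_sub, map_mul, map_mul, hback, hback] at h1
    exact h1
  have f3 : ∀ i, (U i).eval (b i) ≠ 0 := by
    intro i
    have h1 : (U i).eval (b i) = φ ((P' (Sum.inr (Sum.inl i))).eval (algebraMap k B (b i))) := by
      show ((P' (Sum.inr (Sum.inl i))).map (φ : B →+* k)).eval (b i) = _
      have h2 : b i = (φ : B →+* k) (algebraMap k B (b i)) := (φ.commutes (b i)).symm
      conv_lhs => rw [h2]
      rw [eval_map, eval₂_at_apply]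
      rfl
    rw [h1]
    apply hφ i
    rw [← hPu i]
    show B.val ((P' (Sum.inr (Sum.inl i))).eval (algebraMap k B (b i))) =
      ((P' (Sum.inr (Sum.inl i))).map (B.val : B →+* Ω)).eval (algebraMap k Ω (b i))
    have h2 : algebraMap k Ω (b i) = (B.val : B →+* Ω) (algebraMap k B (b i)) := rfl
    rw [h2, eval_map, eval₂_at_apply]
    rfl
  obtain ⟨h, hh⟩ := W6_crt b hb N U f3
  refine ⟨fun a => h * G₀ a, ?_, fun i a => ?_⟩
  · rw [W6_sc hF G₀ h, f1, mul_zero]
  · have h4 : h * G₀ a - y i a = h * (G₀ a - U i * y i a) + (h * U i - 1) * y i a := by ring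
    rw [h4, f2]
    exact dvd_add (Dvd.dvd.mul_left (dvd_mul_right _ _) _) (Dvd.dvd.mul_right (hh i) _)

end Q9
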