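import Mathlib

/-!
[Q9 W7] (MEDIUM; only Mathlib) Weak approximation for discrete valuation rings of a field.

PLAN. `A i ≠ A j` for `i ≠ j`, both discrete valuation rings with fraction field `K`: a valuation ring between `A i` and `K` is `A i` or `K` (`ValuationSubring`, rank one: `IsDiscreteValuationRing`, prime ideals `⊥` and the maximal ideal), so `A i ≰ A j` (and `A j ≠ ⊤`, a field is not a discrete valuation ring). Let `v i : K → ℤ ∪ {∞}` be the normalised valuations (`(A i).valuation`, or the additive valuation; `x ∈ A i ↔ v i x ≥ 0`). (1) For `i ≠ j` there is `a` with `v_i(a) > 0 > v_j(a)`: take `a₁ ∈ A i \ A j`, `a₂ ∈ A j \ A i`, `a = a₁ / a₂`. (2) For given `i` there is `a` with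
`v_i(a) < 0` and `v_j(a) > 0` for all `j ≠ i` (induction on the set of the `j`; as in `Pool/Agent/LibRR/G01.lean`, `exists_sep_finset`, where the same is proved for function fields over `ℂ`: if `c` with `v_i(c) < 0 < v_q(c)` for the new `q` and `a` for the old ones: if `v_q(a) > 0` take `a`; if `v_q(a) = 0` take `a^n c`; if `v_q(a) < 0` take `a^n/(1 + a^n) c`, `n` large). (3) `w = a^M/(1 + a^M)`: `v_i(w - 1) ≥ M`, `v_j(w) ≥ M` for `j ≠ i`. So `w_i` with `v_i(w_i - 1) ≥ M`, `v_j(w_i) ≥ M`, `M` large. (4) `φ = Σ_i w_i x_i`, `M` large compared with `N` and all `v_j(x_i)`: `v_j(φ - x_j) ≥ N`.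
In the statement: `x i ∈ A i`, and `v_j(φ - x_j) ≥ N` is `φ - x j ∈ 𝔪_j^N`. (Uniformiser `ϖ j`: `y ∈ 𝔪_j^N` iff `y / ϖ_j^N ∈ A j`.) You may also use Mathlib results on independent valuations / `AbsoluteValue` weak approximation if convenient.
-/

set_option autoImplicit false

namespace Q9

open IsDedekindDomain in
private theorem W7_key {K : Type} [Field K] (A : ValuationSubring K) [hA : IsDiscreteValuationRing A] :
    ∃ w : AbsoluteValue K ℝ, w.IsNontrivial ∧ (∀ x, w x ≤ 1 ↔ x ∈ A) ∧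
      ∀ N : ℕ, ∃ ε : ℝ, 0 < ε ∧ ∀ y : A, w (y : K) < ε → y ∈ IsLocalRing.maximalIdeal A ^ N := by
  have hb : (1 : NNReal) < 2 := one_lt_two
  let v : HeightOneSpectrum A := ⟨IsLocalRing.maximalIdeal A, inferInstance, IsDiscreteValuationRing.not_a_field A⟩
  let w : AbsoluteValue K ℝ := v.adicAbv hb
  have h1 : ∀ r : A, w (r : K) ≤ 1 := fun r => v.adicAbv_coe_le_one hb r
  have h2 : ∀ r : A, w (r : K) < 1 ↔ r ∈ IsLocalRing.maximalIdeal A := fun r => v.adicAbv_coe_lt_one_iff hb r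
  have h3 : ∀ x, w x ≤ 1 ↔ x ∈ A := by
    intro x
    constructor
    · intro hx
      by_contra hxA
      have hx0 : x ≠ 0 := by
        rintro rfl
        exact hxA A.zero_mem
      have h4 : x⁻¹ ∈ A := (A.mem_or_inv_mem x).resolve_left hxA
      have h5 : (⟨x⁻¹, h4⟩ : A) ∈ IsLocalRing.maximalIdeal A := by
        rw [IsLocalRing.mem_maximalIdeal, mem_nonunits_iff]
        intro hu
        obtain ⟨y, hy⟩ := hu.exists_right_inv
        have h6 : x⁻¹ * (y : K) = 1 := congrArg Subtype.val hy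
        have h7 : x = (y : K) := (inv_mul_eq_one₀ hx0).1 h6
        apply hxA
        rw [h7]
        exact y.2
      have h8 : w (x⁻¹) < 1 := (h2 ⟨x⁻¹, h4⟩).2 h5
      rw [map_inv₀] at h8
      have h9 : 0 < w x := w.pos hx0
      have h10 : 1 < w x := by
        rw [inv_lt_one₀ h9] at h8
        exact h8
      linarith
    · intro hx
      exact h1 ⟨x, hx⟩
  obtain ⟨ϖ, hϖ⟩ := IsDiscreteValuationRing.exists_irreducible A
  have hϖm : IsLocalRing.maximalIdeal A = Ideal.span {ϖ} := (IsDiscreteValuationRing.irreducible_iff_uniformizer ϖ).1 hϖ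
  have hϖ0 : (ϖ : K) ≠ 0 := by
    intro h
    exact hϖ.ne_zero (Subtype.ext h)
  have hϖ1 : w (ϖ : K) < 1 := by
    rw [h2, hϖm]
    exact Ideal.mem_span_singleton_self ϖ
  refine ⟨w, ?_, h3, fun N => ⟨w (ϖ : K) ^ N, pow_pos (w.pos hϖ0) N, ?_⟩⟩
  · exact ⟨(ϖ : K), hϖ0, hϖ1.ne⟩
  · intro y hy
    have h4 : w ((y : K) / (ϖ : K) ^ N) ≤ 1 := by
      rw [map_div₀, map_pow, div_le_one (pow_pos (w.pos hϖ0) N)]
      exact hy.le
    rw [h3] at h4
    have h5 : y = ϖ ^ N * ⟨(y : K) / (ϖ : K) ^ N, h4⟩ := by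
      apply Subtype.ext
      show (y : K) = (ϖ : K) ^ N * ((y : K) / (ϖ : K) ^ N)
      rw [← mul_div_assoc, mul_div_cancel_left₀ _ (pow_ne_zero N hϖ0)]
    rw [h5]
    apply Ideal.mul_mem_right
    rw [hϖm]
    exact Ideal.pow_mem_pow (Ideal.mem_span_singleton_self ϖ) N

theorem approx_dvr {K : Type} [Field K] {m : ℕ} (A : Fin m → ValuationSubring K)
    (hA : ∀ i, IsDiscreteValuationRing (A i)) (hinj : Function.Injective A) (x : ∀ i, A i) (N : ℕ) :
    ∃ φ : K, ∀ i, ∃ h : φ ∈ A i, (⟨φ, h⟩ : A i) - x i ∈ IsLocalRing.maximalIdeal (A i) ^ N := by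
  classical
  have hk := fun i => @W7_key K _ (A i) (hA i)
  choose w hw1 hw2 hw3 using hk
  choose ε hε hε2 using fun i => hw3 i N
  have hne : Pairwise fun i j => ¬ (w i).IsEquiv (w j) := by
    intro i j hij he
    apply hij
    apply hinj
    ext z
    rw [← hw2 i, ← hw2 j]
    exact he.le_one_iff
  have hd := AbsoluteValue.denseRange_algebraMap_pi hw1 hne
  have hmin : ∃ δ : ℝ, 0 < δ ∧ δ ≤ 1 ∧ ∀ i, δ ≤ ε i := by
    refine ⟨Finset.univ.inf' Finset.univ_nonempty (fun i : Option (Fin m) => i.elim (1 : ℝ) ε), ?_, ?_, ?_⟩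
    · rw [Finset.lt_inf'_iff]
      rintro (_ | i) _
      · exact zero_lt_one
      · exact hε i
    · exact Finset.inf'_le (fun i : Option (Fin m) => i.elim (1 : ℝ) ε) (Finset.mem_univ none)
    · intro i
      exact Finset.inf'_le (fun i : Option (Fin m) => i.elim (1 : ℝ) ε) (Finset.mem_univ (some i))
  obtain ⟨δ, hδ, hδ1, hδ2⟩ := hmin
  obtain ⟨φ, hφ⟩ := (Metric.denseRange_iff.1 hd) (fun i => (WithAbs.equiv (w i)).symm (x i : K)) δ hδ
  have h1 : ∀ i, w i (φ - (x i : K)) < δ := by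
    intro i
    have h2 := (dist_pi_lt_iff hδ).1 hφ i
    rw [dist_comm, dist_eq_norm] at h2
    exact h2
  refine ⟨φ, fun i => ?_⟩
  have h2 : φ - (x i : K) ∈ A i := (hw2 i _).1 ((h1 i).le.trans hδ1)
  have h3 : φ ∈ A i := by
    have := (A i).add_mem _ _ h2 (x i).2
    rwa [sub_add_cancel] at this
  refine ⟨h3, ?_⟩
  exact hε2 i _ ((h1 i).trans_le (hδ2 i))

end Q9
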