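import Pool.Agent.LibQ9.W6
import Pool.Agent.LibQ9.W7

/-!
[Q9 W8] (MEDIUM; may cite W6, W7 as stated) From the line to an arbitrary field with discrete valuations.

PLAN. We may assume `1 ≤ N` (replace `N` by `N + 1`? no: for `N = 0` the ideal is `⊤`, so only `x a ∈ A i` is needed: take `x = 0`). Choose `b : Fin m → k` injective (`k` infinite). Let `ϖ i` be a uniformiser of `A i`. W7 with the elements `b i + ϖ i` and the exponent `N + 1`: `φ`, `φ - b i - ϖ i ∈ 𝔪_i^(N+1) ⊆ 𝔪_i^2`, so `φ ∈ A i` and `φ - b i` is a uniformiser of `A i`. CLAIM: every `c ∈ A i` is congruent modulo `𝔪_i^N` to `P(φ)` for some `P : k[X]` (induction on `N`: `c - c_0 ∈ 𝔪_i` for some `c_0 ∈ k` (`hres`), `c - c_0 = (φ - b i) c'`, ...). So there are `yy i : Fin (n+1) → k[X]` with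
`yy i a (φ) ≡ y i a` modulo `𝔪_i^N`. `ve (yy i) (b i) ≠ 0`: `yy i a (φ) ≡ yy i a (b i)` modulo `𝔪_i`, and some `y i a ∉ 𝔪_i`. `(X - b i)^N ∣ F(yy i)`: `F(yy i)(φ) ≡ F(y i) ≡ 0` modulo `𝔪_i^N`; write `F(yy i) = (X - b i)^M Q` with `Q(b i) ≠ 0` (if `F(yy i) ≠ 0`): `Q(φ)` is a unit of `A i`, so `(φ - b i)^M ∈ 𝔪_i^N` forces `N ≤ M`. W6: `G`. `x a = (G a)(φ) = aeval φ (G a)`: `F(x) = (F(G))(φ) = 0`; `G a - yy i a = (X - b i)^N * Q`: `x a - yy i a (φ) ∈ 𝔪_i^N`.
-/

set_option autoImplicit false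

namespace Q9

open Polynomial

section
variable {k K : Type} [Field k] [Field K] [Algebra k K]

/-- the constants as elements of the valuation ring -/
private noncomputable abbrev io (A : ValuationSubring K)
    (hk : ∀ c : k, algebraMap k K c ∈ A) : k →+* A :=
  (algebraMap k K).codRestrict A.toSubring hk

private theorem w8_io (A : ValuationSubring K) (hk : ∀ c : k, algebraMap k K c ∈ A) (φ : A)
    (P : k[X]) : ((Polynomial.eval₂ (io A hk) φ P : A) : K) = aeval (φ : K) P := by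
  have h := Polynomial.hom_eval₂ P (io A hk) A.subtype φ
  exact h

private theorem w8_unif (A : ValuationSubring K)
    (hk : ∀ c : k, algebraMap k K c ∈ A) (b : k) (ϖ φ : A)
    (hϖ : IsLocalRing.maximalIdeal A = Ideal.span {ϖ})
    (h : φ - (io A hk b + ϖ) ∈ IsLocalRing.maximalIdeal A ^ 2) :
    IsLocalRing.maximalIdeal A = Ideal.span {φ - io A hk b} := by
  have hm : ϖ ∈ IsLocalRing.maximalIdeal A := by
    rw [hϖ]; exact Ideal.mem_span_singleton_self ϖ
  have h2 := h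
  rw [hϖ, Ideal.span_singleton_pow, Ideal.mem_span_singleton'] at h2
  obtain ⟨c, hc⟩ := h2
  have hu : IsUnit (1 + c * ϖ) := by
    by_contra hn
    have h1 : 1 + c * ϖ ∈ IsLocalRing.maximalIdeal A := by
      rwa [IsLocalRing.mem_maximalIdeal, mem_nonunits_iff]
    have h3 : (1 : A) ∈ IsLocalRing.maximalIdeal A := by
      have h4 := Ideal.sub_mem _ h1 (Ideal.mul_mem_left _ c hm)
      rwa [add_sub_cancel_right] at h4
    exact (Ideal.ne_top_iff_one _).1 (IsLocalRing.maximalIdeal.isMaximal A).ne_top h3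
  have he : φ - io A hk b = ϖ * (1 + c * ϖ) := by
    have : φ - io A hk b = φ - (io A hk b + ϖ) + ϖ := by ring
    rw [this, ← hc]; ring
  rw [he, hϖ, Ideal.span_singleton_mul_right_unit hu]

private theorem w8_digits (A : ValuationSubring K)
    (hk : ∀ c : k, algebraMap k K c ∈ A)
    (hres : ∀ a : A, ∃ c : k, a - io A hk c ∈ IsLocalRing.maximalIdeal A)
    (b : k) (φ : A) (hφ : IsLocalRing.maximalIdeal A = Ideal.span {φ - io A hk b}) (N : ℕ) :
    ∀ c : A, ∃ P : k[X], c - Polynomial.eval₂ (io A hk) φ P ∈ IsLocalRing.maximalIdeal A ^ N := by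
  induction N with
  | zero => intro c; exact ⟨0, by simp⟩
  | succ N ih =>
    intro c
    obtain ⟨c0, hc0⟩ := hres c
    rw [hφ, Ideal.mem_span_singleton'] at hc0
    obtain ⟨c', hc'⟩ := hc0
    obtain ⟨P, hP⟩ := ih c'
    refine ⟨C c0 + (X - C b) * P, ?_⟩
    have he : c - Polynomial.eval₂ (io A hk) φ (C c0 + (X - C b) * P) =
        (c' - Polynomial.eval₂ (io A hk) φ P) * (φ - io A hk b) := by
      rw [Polynomial.eval₂_add, Polynomial.eval₂_mul, Polynomial.eval₂_sub, Polynomial.eval₂_C,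
        Polynomial.eval₂_C, Polynomial.eval₂_X]
      have : c = c' * (φ - io A hk b) + io A hk c0 := by rw [hc']; ring
      rw [this]; ring
    rw [he, pow_succ]
    refine Ideal.mul_mem_mul hP ?_
    rw [hφ]; exact Ideal.mem_span_singleton_self _

private theorem w8_dvd (A : ValuationSubring K) (hA : IsDiscreteValuationRing A)
    (hk : ∀ c : k, algebraMap k K c ∈ A)
    (b : k) (φ : A) (hφ : IsLocalRing.maximalIdeal A = Ideal.span {φ - io A hk b}) (N : ℕ) :
    ∀ Q : k[X], Polynomial.eval₂ (io A hk) φ Q ∈ IsLocalRing.maximalIdeal A ^ N →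
      (X - C b) ^ N ∣ Q := by
  have hπ : φ - io A hk b ≠ 0 := by
    intro h0
    rw [h0, Ideal.span_singleton_eq_bot.2 rfl] at hφ
    exact IsDiscreteValuationRing.not_a_field A hφ
  induction N with
  | zero => intro Q _; simp
  | succ N ih =>
    intro Q hQ
    obtain ⟨Q1, hQ1⟩ : (X - C b) ∣ Q - C (Q.eval b) := Polynomial.X_sub_C_dvd_sub_C_eval
    have hQe : Q = C (Q.eval b) + (X - C b) * Q1 := by rw [← hQ1]; ring
    have hev : Polynomial.eval₂ (io A hk) φ Q =
        io A hk (Q.eval b) + (φ - io A hk b) * Polynomial.eval₂ (io A hk) φ Q1 := by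
      conv_lhs => rw [hQe]
      rw [Polynomial.eval₂_add, Polynomial.eval₂_mul, Polynomial.eval₂_sub, Polynomial.eval₂_C,
        Polynomial.eval₂_C, Polynomial.eval₂_X]
    have hb0 : Q.eval b = 0 := by
      by_contra hne
      have hu : IsUnit (io A hk (Q.eval b)) := (isUnit_iff_ne_zero.2 hne).map (io A hk)
      have h1 : io A hk (Q.eval b) ∈ IsLocalRing.maximalIdeal A := by
        have h2 : io A hk (Q.eval b) = Polynomial.eval₂ (io A hk) φ Q -
            (φ - io A hk b) * Polynomial.eval₂ (io A hk) φ Q1 := by rw [hev]; ring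
        rw [h2]
        refine Ideal.sub_mem _ (Ideal.pow_le_self (Nat.succ_ne_zero N) hQ)
          (Ideal.mul_mem_right _ _ ?_)
        rw [hφ]; exact Ideal.mem_span_singleton_self _
      exact (IsLocalRing.mem_maximalIdeal _).1 h1 hu
    rw [hb0, map_zero, zero_add] at hev
    rw [hev, hφ, Ideal.span_singleton_pow, Ideal.mem_span_singleton', ] at hQ
    obtain ⟨d, hd⟩ := hQ
    have h3 : Polynomial.eval₂ (io A hk) φ Q1 ∈ IsLocalRing.maximalIdeal A ^ N := by
      rw [hφ, Ideal.span_singleton_pow, Ideal.mem_span_singleton']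
      refine ⟨d, mul_left_cancel₀ hπ ?_⟩
      rw [← hd, pow_succ]; ring
    have h4 := ih Q1 h3
    rw [hQe, hb0, C_0, zero_add, pow_succ, mul_comm]
    exact mul_dvd_mul_left _ h4

private theorem w8_cong {B : Type} [CommRing B] (f : k →+* B) (I : Ideal B) {s : ℕ}
    (u v : Fin s → B) (h : ∀ a, u a - v a ∈ I) (F : MvPolynomial (Fin s) k) :
    MvPolynomial.eval₂ f u F - MvPolynomial.eval₂ f v F ∈ I := by
  rw [← Ideal.Quotient.eq, MvPolynomial.eval₂_comp_left, MvPolynomial.eval₂_comp_left]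
  congr 1
  funext a
  exact (Ideal.Quotient.eq).2 (h a)

private theorem w8_sub (A : ValuationSubring K) (hk : ∀ c : k, algebraMap k K c ∈ A) (φ : A)
    {s : ℕ} (F : MvPolynomial (Fin s) k) (y : Fin s → k[X]) :
    Polynomial.eval₂ (io A hk) φ (MvPolynomial.aeval y F) =
      MvPolynomial.eval₂ (io A hk) (fun a => Polynomial.eval₂ (io A hk) φ (y a)) F := by
  have h := MvPolynomial.eval₂_comp_left (Polynomial.eval₂RingHom (io A hk) φ)
    (algebraMap k k[X]) y F
  have h2 : (Polynomial.eval₂RingHom (io A hk) φ).comp (algebraMap k k[X]) = io A hk := by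
    ext c
    simp
  rw [h2] at h
  exact h

end

theorem weak_approx_of_line {k : Type} [Field k] [IsAlgClosed k] {n : ℕ}
    (F : MvPolynomial (Fin (n + 1)) k) (hF : F.IsHomogeneous n) (hn : 2 ≤ n)
    (hline : ∀ (m : ℕ) (b : Fin m → k), Function.Injective b → ∀ (N : ℕ)
      (y : Fin m → Fin (n + 1) → k[X]), (∀ i, ve (y i) (b i) ≠ 0) →
      (∀ i, (X - C (b i)) ^ N ∣ MvPolynomial.aeval (y i) F) →
      ∃ G : Fin (n + 1) → k[X], MvPolynomial.aeval G F = 0 ∧
        ∀ i a, (X - C (b i)) ^ N ∣ G a - y i a)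
    {K : Type} [Field K] [Algebra k K] {m : ℕ} (A : Fin m → ValuationSubring K)
    (hA : ∀ i, IsDiscreteValuationRing (A i)) (hinj : Function.Injective A)
    (hkA : ∀ i (c : k), algebraMap k K c ∈ A i)
    (hres : ∀ i (a : A i), ∃ c : k,
      a - ⟨algebraMap k K c, hkA i c⟩ ∈ IsLocalRing.maximalIdeal (A i))
    (N : ℕ) (y : ∀ i, Fin (n + 1) → A i)
    (hy0 : ∀ i, ∃ a, y i a ∉ IsLocalRing.maximalIdeal (A i))
    (hy : ∀ i, MvPolynomial.eval₂ ((algebraMap k K).codRestrict (A i).toSubring (hkA i)) (y i) F ∈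
      IsLocalRing.maximalIdeal (A i) ^ N) :
    ∃ x : Fin (n + 1) → K, MvPolynomial.aeval x F = 0 ∧
      ∀ i a, ∃ h : x a ∈ A i, (⟨x a, h⟩ : A i) - y i a ∈ IsLocalRing.maximalIdeal (A i) ^ N := by
  obtain rfl | hN := Nat.eq_zero_or_pos N
  · refine ⟨0, ?_, fun i a => ⟨?_, ?_⟩⟩
    · rw [MvPolynomial.aeval_zero]
      have h0 : MvPolynomial.constantCoeff F = 0 := by
        rw [MvPolynomial.constantCoeff_eq]
        refine hF.coeff_eq_zero ?_
        rw [map_zero]; omega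
      rw [h0, map_zero]
    · exact (A i).zero_mem
    · rw [pow_zero, Ideal.one_eq_top]; exact Submodule.mem_top
  obtain ⟨b, hb⟩ : ∃ b : Fin m → k, Function.Injective b := by
    have : Infinite k := IsAlgClosed.instInfinite
    exact ⟨fun i => Infinite.natEmbedding k i,
      fun i j h => Fin.ext ((Infinite.natEmbedding k).injective h)⟩
  have hunif : ∀ i, ∃ ϖ : A i, IsLocalRing.maximalIdeal (A i) = Ideal.span {ϖ} := by
    intro i
    have := hA i
    obtain ⟨ϖ, hϖ⟩ := IsDiscreteValuationRing.exists_irreducible (A i)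
    exact ⟨ϖ, hϖ.maximalIdeal_eq⟩
  choose ϖ hϖ using hunif
  obtain ⟨φ, hφ⟩ := approx_dvr A hA hinj (fun i => io (A i) (hkA i) (b i) + ϖ i) (N + 1)
  choose hφA hφ using hφ
  have hpi : ∀ i, IsLocalRing.maximalIdeal (A i) =
      Ideal.span {(⟨φ, hφA i⟩ : A i) - io (A i) (hkA i) (b i)} := fun i =>
    w8_unif (A i) (hkA i) (b i) (ϖ i) ⟨φ, hφA i⟩ (hϖ i)
      (Ideal.pow_le_pow_right (by omega) (hφ i))
  have hdig : ∀ i a, ∃ P : k[X], y i a - Polynomial.eval₂ (io (A i) (hkA i)) ⟨φ, hφA i⟩ P ∈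
      IsLocalRing.maximalIdeal (A i) ^ N := fun i a =>
    w8_digits (A i) (hkA i) (hres i) (b i) ⟨φ, hφA i⟩ (hpi i) N (y i a)
  choose yy hyy using hdig
  have h1 : ∀ i, ve (yy i) (b i) ≠ 0 := by
    intro i hv
    obtain ⟨a, ha⟩ := hy0 i
    apply ha
    have h0 : (yy i a).eval (b i) = 0 := congrFun hv a
    obtain ⟨R, hR⟩ : (X - C (b i)) ∣ yy i a := Polynomial.dvd_iff_isRoot.2 h0
    have h1 := Ideal.pow_le_self (by omega) (hyy i a)
    have h2 : y i a = (y i a - Polynomial.eval₂ (io (A i) (hkA i)) ⟨φ, hφA i⟩ (yy i a)) +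
        ((⟨φ, hφA i⟩ : A i) - io (A i) (hkA i) (b i)) *
          Polynomial.eval₂ (io (A i) (hkA i)) ⟨φ, hφA i⟩ R := by
      rw [hR, Polynomial.eval₂_mul, Polynomial.eval₂_sub, Polynomial.eval₂_X,
        Polynomial.eval₂_C]; ring
    rw [h2]
    refine Ideal.add_mem _ h1 (Ideal.mul_mem_right _ _ ?_)
    rw [hpi i]; exact Ideal.mem_span_singleton_self _
  have h2 : ∀ i, (X - C (b i)) ^ N ∣ MvPolynomial.aeval (yy i) F := by
    intro i
    refine w8_dvd (A i) (hA i) (hkA i) (b i) ⟨φ, hφA i⟩ (hpi i) N _ ?_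
    rw [w8_sub]
    have h1 := w8_cong (io (A i) (hkA i)) (IsLocalRing.maximalIdeal (A i) ^ N) (y i)
      (fun a => Polynomial.eval₂ (io (A i) (hkA i)) ⟨φ, hφA i⟩ (yy i a)) (fun a => hyy i a) F
    have h2 := Ideal.sub_mem _ (hy i) h1
    rwa [sub_sub_cancel] at h2
  obtain ⟨G, hG0, hG⟩ := hline m b hb N yy h1 h2
  refine ⟨fun a => aeval φ (G a), ?_, fun i a => ?_⟩
  · have h := MvPolynomial.comp_aeval_apply (aeval φ : k[X] →ₐ[k] K) (f := G) F
    rw [hG0, map_zero] at h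
    exact h.symm
  · have hx := w8_io (A i) (hkA i) ⟨φ, hφA i⟩ (G a)
    have hmem : aeval φ (G a) ∈ A i := by
      rw [← show ((Polynomial.eval₂ (io (A i) (hkA i)) ⟨φ, hφA i⟩ (G a) : A i) : K) =
        aeval φ (G a) from hx]
      exact Subtype.property _
    refine ⟨hmem, ?_⟩
    have hxe : (⟨aeval φ (G a), hmem⟩ : A i) =
        Polynomial.eval₂ (io (A i) (hkA i)) ⟨φ, hφA i⟩ (G a) := Subtype.ext hx.symm
    rw [hxe]
    obtain ⟨R, hR⟩ := hG i a
    have h1 : Polynomial.eval₂ (io (A i) (hkA i)) ⟨φ, hφA i⟩ (G a) - y i a =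
        Polynomial.eval₂ (io (A i) (hkA i)) ⟨φ, hφA i⟩ ((X - C (b i)) ^ N * R) -
        (y i a - Polynomial.eval₂ (io (A i) (hkA i)) ⟨φ, hφA i⟩ (yy i a)) := by
      rw [← hR, Polynomial.eval₂_sub]; ring
    rw [h1]
    refine Ideal.sub_mem _ ?_ (hyy i a)
    rw [Polynomial.eval₂_mul, Polynomial.eval₂_pow, Polynomial.eval₂_sub, Polynomial.eval₂_X,
      Polynomial.eval₂_C]
    refine Ideal.mul_mem_right _ _ (Ideal.pow_mem_pow ?_ N)
    rw [hpi i]; exact Ideal.mem_span_singleton_self _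

end Q9
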