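import Pool.Agent.LibQ9.B10
import Pool.Agent.LibQ9.UFin
import Pool.Agent.LibQ9.TFin
import Pool.Agent.LibQ9.W4b
import Pool.Agent.LibQ9.W6
import Pool.Agent.LibQ9.W8

/-!
# LibQ9, block W, final theorem: weak approximation for constant families
-/

set_option autoImplicit false

namespace Q9

open Polynomial

theorem weak_approx_const (p : ℕ) [Fact p.Prime] {n : ℕ} (hn : 4 ≤ n) (hp : n < p) {k : Type} [Field k]
    [IsAlgClosed k] [CharP k p] (F : MvPolynomial (Fin (n + 1)) k) (hF : F.IsHomogeneous n)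
    (hs : Smooth F) {K : Type} [Field K] [Algebra k K] {m : ℕ} (A : Fin m → ValuationSubring K)
    (hA : ∀ i, IsDiscreteValuationRing (A i)) (hinj : Function.Injective A)
    (hkA : ∀ i (c : k), algebraMap k K c ∈ A i)
    (hres : ∀ i (a : A i), ∃ c : k, a - ⟨algebraMap k K c, hkA i c⟩ ∈ IsLocalRing.maximalIdeal (A i))
    (N : ℕ) (hN : 1 ≤ N) (y : (i : Fin m) → Fin (n + 1) → A i)
    (hy : ∀ i, ∃ a, y i a ∉ IsLocalRing.maximalIdeal (A i))
    (hFy : ∀ i, MvPolynomial.eval₂ ((algebraMap k K).codRestrict (A i).toSubring (hkA i)) (y i) F ∈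
      IsLocalRing.maximalIdeal (A i) ^ N) :
    ∃ x : Fin (n + 1) → K, x ≠ 0 ∧ MvPolynomial.aeval x F = 0 ∧
      ∀ i a, ∃ h : x a ∈ A i, (⟨x a, h⟩ - y i a : A i) ∈ IsLocalRing.maximalIdeal (A i) ^ N := by
  have hn0 : (n : k) ≠ 0 := by
    intro h
    rw [CharP.cast_eq_zero_iff k p] at h
    exact absurd (Nat.le_of_dvd (by omega) h) (by omega)
  have hSm : Sm F := sm_of_smooth F hs
  have hF0 : F ≠ 0 := by
    rintro rfl
    have h1 := hs (fun _ => 1) (fun i => by simp)
    exact one_ne_zero (congrFun h1 0)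
  have hpr : (Ideal.span {F}).IsPrime := prime_of_smooth (by omega) F hF hs
  have hfree := exists_free p (by omega) hp F hF hs
  have hvf := very_free hn hn0 F hF hs (hu hn hn0 F hF hs) hfree
  have hthr : ∀ x : Fin (n + 1) → k, x ≠ 0 → MvPolynomial.aeval x F = 0 →
      ∃ (d : ℕ) (γ : Fin (n + 1) → k[X]), Free F d γ ∧ Cor F d γ 0 ∧ vc γ 0 = x :=
    fun x hx hx0 => very_free_through (by omega) F hF hs hvf x hx hx0
  have hline := fun {m : ℕ} (b : Fin m → k) (hb : Function.Injective b) (N : ℕ) (y : Fin m → Fin (n + 1) → k[X]) h1 h2 =>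
    jets_line (by omega) F hF hSm hF0 hpr hfree hthr b hb N y h1 h2
  rcases Nat.eq_zero_or_pos m with rfl | hm
  · -- no conditions: a point of the hypersurface over `k`
    obtain ⟨d, γ, hγ⟩ := hfree
    refine ⟨fun a => algebraMap k K (vc γ 0 a), ?_, ?_, fun i => i.elim0⟩
    · intro h0
      apply hγ.zero_ne F (by omega) hF
      funext a
      have h1 : algebraMap k K (vc γ 0 a) = 0 := congrFun h0 a
      exact (map_eq_zero _).1 h1
    · have h1 : MvPolynomial.aeval (fun a => vc γ 0 a) F = (0 : k) := by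
        have h2 := congrArg (Polynomial.aeval (0 : k)) hγ.2.1.2
        rw [map_zero, ← AlgHom.comp_apply, MvPolynomial.comp_aeval] at h2
        have h3 : (fun i => Polynomial.aeval (0 : k) (γ i)) = fun a => vc γ 0 a := by
          funext a
          rw [Polynomial.coe_aeval_eq_eval, ← Polynomial.coeff_zero_eq_eval_zero]
          rfl
        rwa [h3] at h2
      have h4 := congrArg (algebraMap k K) h1
      rw [map_zero] at h4
      rw [← h4]
      exact (MvPolynomial.aeval_algebraMap_apply K (fun a => vc γ 0 a) F)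
  · obtain ⟨x, hx, hxi⟩ := weak_approx_of_line F hF (by omega) (fun m b hb N y h1 h2 => hline b hb N y h1 h2) A hA hinj hkA
      hres N y hy hFy
    refine ⟨x, ?_, hx, hxi⟩
    rintro rfl
    obtain ⟨a, ha⟩ := hy ⟨0, hm⟩
    obtain ⟨h, hh⟩ := hxi ⟨0, hm⟩ a
    apply ha
    have h1 : (⟨(0 : Fin (n + 1) → K) a, h⟩ : A ⟨0, hm⟩) = 0 := rfl
    rw [h1, zero_sub] at hh
    have h2 := Ideal.pow_le_self (by omega : N ≠ 0) hh
    rwa [Ideal.neg_mem_iff] at h2

end Q9
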