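import Pool.Agent.LibQ9.X2Defs

/-!
[Q9 X1] (MEDIUM; only X2Defs) Taylor expansion of a form at a zero `P`: the form `Ψ` with `F(P Y_0 + ρ Y) = ρ Ψ(Y_0, Y)`.

PLAN. `exists_lam`: first with `ρ = 1`: for a form `F` of degree `n` there are `Λ'_ab`, homogeneous of degree `n - 2` in `Y_0, .., Y_(n+1)`, with `F(P_a Y_0 + Y_(a+1)) = F(P) Y_0^n + Y_0^(n-1) Σ_a (∂_a F)(P) Y_(a+1) + Σ_ab Y_(a+1) Y_(b+1) Λ'_ab`. By linearity (sum over the support of `F`) it is enough to treat monomials of degree `n` (`∏ (P_a Y_0 + Y_(a+1))^(ν a)`): induction on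
the degree, multiplying by one more factor `P_c Y_0 + Y_(c+1)`; (the statement for products: if `f = f_0 Y_0^m + Y_0^(m-1) Σ f_a Y_(a+1) + Σ Y Y Λ` then `(P_c Y_0 + Y_(c+1)) f = P_c f_0 Y_0^(m+1) + Y_0^m (Σ P_c f_a Y_(a+1) + f_0 Y_(c+1)) + ..`; for `m = 0` the sum with `Y_0^(m-1)` is absent: all `f_a = 0`); or: the coefficients of `F(P Y_0 + Y)` of degree `0` and `1` in `Y_1, ..` are `F(P)` and
`(∂_a F)(P)` (`F(P Y_0 + Y)` is homogeneous of degree `n`; every monomial with degree `≥ 2` in `Y_1..` is divisible by some `Y_(a+1) Y_(b+1)`: choose one pair for each monomial). Then substitute `Y_a ↦ ρ Y_a` (`a ≥ 1`): `Λ_ab = Λ'_ab(Y_0, ρ Y)`, and `F(P) = 0`.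
`pv_psi`: expand `eval₂` (`Fin.cons 1 v 0 = 1`, `Fin.cons 1 v a.succ = v a`). `rho_pv`: apply `eval₂ φ (Fin.cons 1 v)` to the second component of `PsiEq`.
-/

set_option autoImplicit false

namespace Q9

section X1

variable {A : Type} [CommRing A] {n : ℕ} (P : Fin (n + 1) → A) (ρ : A)

/-- the substitution -/
private noncomputable def X1_s : MvPolynomial (Fin (n + 1)) A →ₐ[A] MvPolynomial (Fin (n + 2)) A :=
  MvPolynomial.aeval (fun a : Fin (n + 1) => MvPolynomial.C (P a) * MvPolynomial.X 0 +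
      MvPolynomial.C ρ * MvPolynomial.X a.succ)

/-- Taylor expansion for polynomials of degree `m` -/
private def X1_Q (m : ℕ) (f : MvPolynomial (Fin (n + 1)) A) : Prop :=
  (m = 0 → ∀ a, gd f P a = 0) ∧
  ∃ Λ : Fin (n + 1) → Fin (n + 1) → MvPolynomial (Fin (n + 2)) A,
    (∀ a b, (Λ a b).IsHomogeneous (m - 2)) ∧ (m < 2 → ∀ a b, Λ a b = 0) ∧
    X1_s P ρ f = MvPolynomial.C (MvPolynomial.eval P f) * MvPolynomial.X 0 ^ m +
      MvPolynomial.C ρ * (MvPolynomial.X 0 ^ (m - 1) *
        ∑ a, MvPolynomial.C (gd f P a) * MvPolynomial.X a.succ) +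
      MvPolynomial.C ρ * (MvPolynomial.C ρ *
        ∑ a, ∑ b, MvPolynomial.X a.succ * MvPolynomial.X b.succ * Λ a b)

private theorem X1_zero (m : ℕ) : X1_Q P ρ m (0 : MvPolynomial (Fin (n + 1)) A) := by
  refine ⟨fun _ a => by simp [gd], fun _ _ => 0, fun _ _ => MvPolynomial.isHomogeneous_zero _ _ _,
    fun _ _ _ => rfl, ?_⟩
  simp [gd]

private theorem X1_add (m : ℕ) (f g : MvPolynomial (Fin (n + 1)) A) (hf : X1_Q P ρ m f)
    (hg : X1_Q P ρ m g) : X1_Q P ρ m (f + g) := by
  obtain ⟨h1, Λ, h2, h3, h4⟩ := hf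
  obtain ⟨k1, M, k2, k3, k4⟩ := hg
  have hgd : ∀ a, gd (f + g) P a = gd f P a + gd g P a := fun a => by
    unfold gd
    rw [map_add, map_add]
  refine ⟨fun hm a => by rw [hgd, h1 hm, k1 hm, add_zero], fun a b => Λ a b + M a b,
    fun a b => (h2 a b).add (k2 a b), fun hm a b => by
      show Λ a b + M a b = 0
      rw [h3 hm, k3 hm, add_zero], ?_⟩
  rw [map_add, h4, k4]
  simp only [hgd, map_add, add_mul, mul_add, Finset.sum_add_distrib]
  ring

private theorem X1_const (r : A) : X1_Q P ρ 0 (MvPolynomial.C r : MvPolynomial (Fin (n + 1)) A) := by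
  refine ⟨fun _ a => by simp [gd], fun _ _ => 0, fun _ _ => MvPolynomial.isHomogeneous_zero _ _ _,
    fun _ _ _ => rfl, ?_⟩
  simp [gd, X1_s]

private theorem X1_mul (m : ℕ) (f : MvPolynomial (Fin (n + 1)) A) (c : Fin (n + 1)) (hf : X1_Q P ρ m f) :
    X1_Q P ρ (m + 1) (f * MvPolynomial.X c) := by
  classical
  obtain ⟨h1, Λ, h2, h3, h4⟩ := hf
  have hgd : ∀ a, gd (f * MvPolynomial.X c) P a =
      gd f P a * P c + MvPolynomial.eval P f * (if c = a then 1 else 0) := fun a => by
    unfold gd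
    rw [Derivation.leibniz, MvPolynomial.pderiv_X]
    simp only [smul_eq_mul, map_add, map_mul, MvPolynomial.eval_X, Pi.single_apply]
    by_cases h : c = a
    · rw [if_pos h, if_pos h, map_one]
      ring
    · rw [if_neg h, if_neg h, map_zero]
      ring
  -- the linear part
  have hlin : ∑ a, MvPolynomial.C (gd (f * MvPolynomial.X c) P a) * MvPolynomial.X a.succ =
      MvPolynomial.C (P c) * ∑ a, MvPolynomial.C (gd f P a) * MvPolynomial.X a.succ +
      (MvPolynomial.C (MvPolynomial.eval P f) * MvPolynomial.X c.succ : MvPolynomial (Fin (n + 2)) A) := by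
    have h5 : (MvPolynomial.C (MvPolynomial.eval P f) * MvPolynomial.X c.succ : MvPolynomial (Fin (n + 2)) A) =
        ∑ a, if c = a then MvPolynomial.C (MvPolynomial.eval P f) * MvPolynomial.X a.succ else 0 := by
      rw [Finset.sum_ite_eq, if_pos (Finset.mem_univ _)]
    rw [h5, Finset.mul_sum, ← Finset.sum_add_distrib]
    refine Finset.sum_congr rfl fun a _ => ?_
    rw [hgd]
    by_cases h : c = a
    · rw [if_pos h, if_pos h, mul_one, map_add, map_mul]
      ring
    · rw [if_neg h, if_neg h, mul_zero, add_zero, map_mul]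
      ring
  have hX : ∀ (S : MvPolynomial (Fin (n + 2)) A),
      MvPolynomial.X 0 * (MvPolynomial.X 0 ^ (m - 1) *
        ∑ a, MvPolynomial.C (gd f P a) * MvPolynomial.X a.succ) =
      MvPolynomial.X 0 ^ m * ∑ a, MvPolynomial.C (gd f P a) * MvPolynomial.X (R := A) (Fin.succ a) := by
    intro _
    by_cases hm : m = 0
    · have h6 : ∑ a, MvPolynomial.C (gd f P a) * MvPolynomial.X (R := A) (Fin.succ a) = 0 :=
        Finset.sum_eq_zero fun a _ => by rw [h1 hm, map_zero, zero_mul]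
      rw [h6]
      ring
    · obtain ⟨m', rfl⟩ := Nat.exists_eq_succ_of_ne_zero hm
      rw [Nat.succ_eq_add_one, Nat.add_sub_cancel, pow_succ]
      ring
  refine ⟨fun h => absurd h (Nat.succ_ne_zero m), fun a b =>
    MvPolynomial.C (P c) * MvPolynomial.X 0 * Λ a b + MvPolynomial.C ρ * MvPolynomial.X c.succ * Λ a b +
      (if c = a then MvPolynomial.X 0 ^ (m - 1) * MvPolynomial.C (gd f P b) else 0), ?_, ?_, ?_⟩
  · intro a b
    refine MvPolynomial.IsHomogeneous.add (MvPolynomial.IsHomogeneous.add ?_ ?_) ?_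
    · by_cases hm : m < 2
      · rw [h3 hm, mul_zero]
        exact MvPolynomial.isHomogeneous_zero _ _ _
      · have := ((MvPolynomial.isHomogeneous_C (Fin (n + 2)) (P c)).mul
          (MvPolynomial.isHomogeneous_X A (0 : Fin (n + 2)))).mul (h2 a b)
        rwa [show 0 + 1 + (m - 2) = m + 1 - 2 by omega] at this
    · by_cases hm : m < 2
      · rw [h3 hm, mul_zero]
        exact MvPolynomial.isHomogeneous_zero _ _ _
      · have := ((MvPolynomial.isHomogeneous_C (Fin (n + 2)) ρ).mul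
          (MvPolynomial.isHomogeneous_X A c.succ)).mul (h2 a b)
        rwa [show 0 + 1 + (m - 2) = m + 1 - 2 by omega] at this
    · by_cases h : c = a
      · rw [if_pos h]
        have := (MvPolynomial.isHomogeneous_X_pow (R := A) (0 : Fin (n + 2)) (m - 1)).mul
          (MvPolynomial.isHomogeneous_C (Fin (n + 2)) (gd f P b))
        rwa [show m - 1 + 0 = m + 1 - 2 by omega] at this
      · rw [if_neg h]
        exact MvPolynomial.isHomogeneous_zero _ _ _
  · intro hm a b
    have hm0 : m = 0 := by omega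
    show MvPolynomial.C (P c) * MvPolynomial.X 0 * Λ a b + MvPolynomial.C ρ * MvPolynomial.X c.succ * Λ a b +
      (if c = a then MvPolynomial.X 0 ^ (m - 1) * MvPolynomial.C (gd f P b) else 0) = 0
    rw [h3 (by omega), h1 hm0]
    simp
  · have hXc : X1_s P ρ (MvPolynomial.X c) =
        MvPolynomial.C (P c) * MvPolynomial.X 0 + MvPolynomial.C ρ * MvPolynomial.X c.succ := by
      unfold X1_s
      rw [MvPolynomial.aeval_X]
    have hs : ∑ a, ∑ b, MvPolynomial.X a.succ * MvPolynomial.X b.succ *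
        (MvPolynomial.C (P c) * MvPolynomial.X 0 * Λ a b + MvPolynomial.C ρ * MvPolynomial.X c.succ * Λ a b +
          (if c = a then MvPolynomial.X 0 ^ (m - 1) * MvPolynomial.C (gd f P b) else 0)) =
        MvPolynomial.C (P c) * MvPolynomial.X 0 *
          ∑ a, ∑ b, MvPolynomial.X a.succ * MvPolynomial.X b.succ * Λ a b +
        MvPolynomial.C ρ * MvPolynomial.X c.succ *
          ∑ a, ∑ b, MvPolynomial.X a.succ * MvPolynomial.X b.succ * Λ a b +
        MvPolynomial.X c.succ * (MvPolynomial.X 0 ^ (m - 1) *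
          ∑ a, MvPolynomial.C (gd f P a) * MvPolynomial.X (R := A) (Fin.succ a)) := by
      have h7 : MvPolynomial.X c.succ * (MvPolynomial.X 0 ^ (m - 1) *
          ∑ a, MvPolynomial.C (gd f P a) * MvPolynomial.X (R := A) (Fin.succ a)) =
          ∑ a, if c = a then ∑ b, MvPolynomial.X a.succ * MvPolynomial.X b.succ *
            (MvPolynomial.X 0 ^ (m - 1) * MvPolynomial.C (gd f P b)) else 0 := by
        rw [Finset.sum_ite_eq, if_pos (Finset.mem_univ _), Finset.mul_sum, Finset.mul_sum]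
        refine Finset.sum_congr rfl fun b _ => ?_
        ring
      rw [h7, Finset.mul_sum, Finset.mul_sum, ← Finset.sum_add_distrib, ← Finset.sum_add_distrib]
      refine Finset.sum_congr rfl fun a _ => ?_
      by_cases h : c = a
      · simp only [if_pos h]
        rw [Finset.mul_sum, Finset.mul_sum, ← Finset.sum_add_distrib, ← Finset.sum_add_distrib]
        refine Finset.sum_congr rfl fun b _ => ?_
        ring
      · simp only [if_neg h]
        rw [Finset.mul_sum, Finset.mul_sum, ← Finset.sum_add_distrib, add_zero]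
        refine Finset.sum_congr rfl fun b _ => ?_
        ring
    rw [map_mul, h4, hXc, hs, hlin, Nat.add_sub_cancel, map_mul, MvPolynomial.eval_X, map_mul]
    have h8 := hX 0
    generalize (∑ a, ∑ b, MvPolynomial.X a.succ * MvPolynomial.X b.succ * Λ a b) = S2
    generalize hS1 : (∑ a, MvPolynomial.C (gd f P a) * MvPolynomial.X (R := A) (Fin.succ a)) = S1 at h8 ⊢
    rw [← sub_eq_zero]
    rw [← sub_eq_zero] at h8
    linear_combination (MvPolynomial.C ρ * MvPolynomial.C (P c)) * h8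

private theorem X1_hom (m : ℕ) (F : MvPolynomial (Fin (n + 1)) A) (hF : F.IsHomogeneous m) :
    X1_Q P ρ m F := by
  classical
  have hmon : ∀ (ν : Fin (n + 1) →₀ ℕ) (r : A), ∃ m, (MvPolynomial.monomial ν r).IsHomogeneous m ∧
      X1_Q P ρ m (MvPolynomial.monomial ν r) := by
    refine MvPolynomial.induction_on_monomial (fun r => ⟨0, MvPolynomial.isHomogeneous_C _ r, X1_const P ρ r⟩)
      fun p c ⟨m, h1, h2⟩ => ⟨m + 1, h1.mul (MvPolynomial.isHomogeneous_X _ _), X1_mul P ρ m p c h2⟩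
  rw [F.as_sum]
  refine Finset.sum_induction _ (X1_Q P ρ m) (X1_add P ρ m) (X1_zero P ρ m) fun ν hν => ?_
  obtain ⟨m', h1, h2⟩ := hmon ν (MvPolynomial.coeff ν F)
  have hne : MvPolynomial.coeff ν F ≠ 0 := MvPolynomial.mem_support_iff.1 hν
  have hm : m' = m := by
    refine h1.inj_right (MvPolynomial.isHomogeneous_monomial _ ?_) ?_
    · have := hF hne
      rwa [Finsupp.degree_eq_weight_one]
    · rw [Ne, MvPolynomial.monomial_eq_zero]
      exact hne
  rw [← hm]
  exact h2

end X1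

theorem exists_lam {A : Type} [CommRing A] {n : ℕ} (hn : 2 ≤ n) (F : MvPolynomial (Fin (n + 1)) A)
    (hF : F.IsHomogeneous n) (P : Fin (n + 1) → A) (hP : MvPolynomial.eval P F = 0) (ρ : A) :
    ∃ Λ : Fin (n + 1) → Fin (n + 1) → MvPolynomial (Fin (n + 2)) A, PsiEq F P ρ Λ := by
  obtain ⟨-, Λ, h2, -, h4⟩ := X1_hom P ρ n F hF
  refine ⟨Λ, h2, ?_⟩
  rw [hP, map_zero, zero_mul, zero_add] at h4
  refine h4.trans ?_
  unfold psi
  ring

theorem psi_hom {A : Type} [CommRing A] {n : ℕ} (hn : 2 ≤ n) (F : MvPolynomial (Fin (n + 1)) A)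
    (P : Fin (n + 1) → A) (ρ : A) (Λ : Fin (n + 1) → Fin (n + 1) → MvPolynomial (Fin (n + 2)) A)
    (h : PsiEq F P ρ Λ) : (psi F P ρ Λ).IsHomogeneous n := by
  unfold psi
  refine MvPolynomial.IsHomogeneous.add ?_ ?_
  · have h1 : (∑ a, MvPolynomial.C (gd F P a) * MvPolynomial.X (R := A) (Fin.succ a)).IsHomogeneous 1 := by
      refine MvPolynomial.IsHomogeneous.sum _ _ _ fun a _ => ?_
      have := (MvPolynomial.isHomogeneous_C (Fin (n + 2)) (gd F P a)).mul
        (MvPolynomial.isHomogeneous_X A a.succ)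
      rwa [zero_add] at this
    have h2 := (MvPolynomial.isHomogeneous_X_pow (R := A) (0 : Fin (n + 2)) (n - 1)).mul h1
    rwa [show n - 1 + 1 = n by omega] at h2
  · have h1 : (∑ a : Fin (n + 1), ∑ b : Fin (n + 1), MvPolynomial.X a.succ * MvPolynomial.X b.succ * Λ a b :
        MvPolynomial (Fin (n + 2)) A).IsHomogeneous n := by
      refine MvPolynomial.IsHomogeneous.sum _ _ _ fun a _ => MvPolynomial.IsHomogeneous.sum _ _ _ fun b _ => ?_
      have := ((MvPolynomial.isHomogeneous_X A a.succ).mul (MvPolynomial.isHomogeneous_X A b.succ)).mul (h.1 a b)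
      rwa [show 1 + 1 + (n - 2) = n by omega] at this
    have h2 := (MvPolynomial.isHomogeneous_C (Fin (n + 2)) ρ).mul h1
    rwa [zero_add] at h2

theorem pv_psi {A S : Type} [CommRing A] [CommRing S] {n : ℕ} (F : MvPolynomial (Fin (n + 1)) A)
    (P : Fin (n + 1) → A) (ρ : A) (Λ : Fin (n + 1) → Fin (n + 1) → MvPolynomial (Fin (n + 2)) A)
    (φ : A →+* S) (v : Fin (n + 1) → S) :
    pv φ (psi F P ρ Λ) v =
      ∑ a, φ (gd F P a) * v a + φ ρ * ∑ a, ∑ b, v a * v b * pv φ (Λ a b) v := by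
  unfold pv psi
  simp only [MvPolynomial.eval₂_add, MvPolynomial.eval₂_mul, MvPolynomial.eval₂_pow,
    MvPolynomial.eval₂_X, MvPolynomial.eval₂_sum, MvPolynomial.eval₂_C, Fin.cons_zero, Fin.cons_succ,
    one_pow, one_mul]

theorem rho_pv {A S : Type} [CommRing A] [CommRing S] {n : ℕ} (F : MvPolynomial (Fin (n + 1)) A)
    (P : Fin (n + 1) → A) (ρ : A) (Λ : Fin (n + 1) → Fin (n + 1) → MvPolynomial (Fin (n + 2)) A)
    (h : PsiEq F P ρ Λ) (φ : A →+* S) (v : Fin (n + 1) → S) :
    φ ρ * pv φ (psi F P ρ Λ) v = MvPolynomial.eval₂ φ (fun a => φ (P a) + φ ρ * v a) F := by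
  have h1 := congrArg (MvPolynomial.eval₂Hom φ (Fin.cons 1 v : Fin (n + 2) → S)) h.2
  have h2 : (MvPolynomial.eval₂Hom φ (Fin.cons 1 v : Fin (n + 2) → S)).comp
      ((MvPolynomial.aeval (fun a : Fin (n + 1) => MvPolynomial.C (P a) * MvPolynomial.X 0 +
        MvPolynomial.C ρ * MvPolynomial.X a.succ) :
          MvPolynomial (Fin (n + 1)) A →ₐ[A] MvPolynomial (Fin (n + 2)) A) :
        MvPolynomial (Fin (n + 1)) A →+* MvPolynomial (Fin (n + 2)) A) =
      MvPolynomial.eval₂Hom φ (fun a => φ (P a) + φ ρ * v a) := by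
    apply MvPolynomial.ringHom_ext
    · intro r
      simp
    · intro a
      simp
  have h3 := congrArg (fun f : MvPolynomial (Fin (n + 1)) A →+* S => f F) h2
  have h4 : MvPolynomial.eval₂Hom φ (Fin.cons 1 v : Fin (n + 2) → S)
      (MvPolynomial.C ρ * psi F P ρ Λ) = φ ρ * pv φ (psi F P ρ Λ) v := by
    rw [map_mul]
    congr 1
    exact MvPolynomial.eval₂_C _ _ _
  rw [← h4, ← h1]
  exact h3

end Q9
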