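import Pool.Agent.LibQ9.X1

/-!
[Q9 X10a] (MEDIUM; may cite X1 `pv_psi` as stated) The regular part `u` is in the gradient ideal modulo the equations of the teeth.

PLAN. `ρ = Σ_a Fd a * β a` (`hρ`, `Fd = gd F P`). For each `i` put `ρ_i = C(1/ev_i ρ) ρ ∈ IN`, `ev_i ρ_i = 1`, so `(1 - ρ_i) π_i ∈ O` (first half of `Pole` applied to `f = 1 - ρ_i`, `ev_i f = 0`). `L = n * max d_i` (or `Σ d_i`), `h = ∏_i (1 - ρ_i)^L ∈ O`: `1 - h ∈ IN` (product of elements `1 - (element of the ideal)`), and `h * ∏_i π_i^(j_i) ∈ O` for all `j_i ≤ L`. `kk i j = h π_i^j ∈ O` for `j ≤ n d_i` (`≤ L`), `0` else.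
`map u + Σ_i Σ_j C(kk i j) inc(c_ij e_i^j) = C(1 - h) map u + C h (map u + Σ_i Σ_j C(π_i^j) inc(..)) = C(1 - h) map u + C h * pv (..) psi yy` (second clause of `UC`; `eval₂` of `c i` as the sum over `range (n d_i + 1)`). The first term has coefficients in `(1 - h) O ⊂ IN` (`IN` is closed under multiplication by `O` and sums). The second: X1 `pv_psi`: `C h * (Σ_a C(Fd a) yy_a + C ρ Σ_ab yy_a yy_b pv (Λ a b) yy)`; every coefficient of
`h yy_a` is in `O`, so the first sum is in `IN`; and every coefficient of `h yy_a yy_b pv(Λ a b)(yy)` is in `O`: it is a sum of products of at most `n` coefficients of the `yy`, each a `k`-combination of elements `x_b`, `π_i^j` (`j ≤ d_i`), i.e. of monomials in the `π_i` with exponents `≤ n d_i ≤ L` with coefficients in `O`; times `ρ ∈ IN`.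
Suggested: call `f : MvPolynomial I K` of type `N` if `C (∏_i (1 - ρ_i)^(N d_i)) * f` has coefficients in `O`; this is monotone in `N`, additive, multiplicative (`N + N'`), contains `map O.subtype` of everything (type `0`) and `yy_a` (type `1`); so `pv (Λ a b) yy` is of type `n - 2` (needs the homogeneity of `Λ a b` in `PsiEq`).
-/

set_option autoImplicit false

namespace Q9

section aux

variable {k K : Type} [Field k] [Field K] [Algebra k K] {O : Subalgebra k K} {I : Type}

/-- coefficients in `O` after multiplication by `w ^ N` -/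
private def X10a_Ty (O : Subalgebra k K) (w : K) (N : ℕ) (f : MvPolynomial I K) : Prop :=
  ∀ ν, w ^ N * MvPolynomial.coeff ν f ∈ O

private theorem X10a_mono {w : K} (hw : w ∈ O) {N N' : ℕ} (h : N ≤ N') {f : MvPolynomial I K}
    (hf : X10a_Ty O w N f) : X10a_Ty O w N' f := by
  intro ν
  have h1 : w ^ N' * MvPolynomial.coeff ν f = w ^ (N' - N) * (w ^ N * MvPolynomial.coeff ν f) := by
    rw [← mul_assoc, ← pow_add, Nat.sub_add_cancel h]
  rw [h1]
  exact O.mul_mem (O.pow_mem hw _) (hf ν)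

private theorem X10a_sum {w : K} {N : ℕ} {ι : Type} (s : Finset ι) (f : ι → MvPolynomial I K)
    (hf : ∀ i ∈ s, X10a_Ty O w N (f i)) : X10a_Ty O w N (∑ i ∈ s, f i) := by
  intro ν
  rw [MvPolynomial.coeff_sum, Finset.mul_sum]
  exact O.sum_mem fun i hi => hf i hi ν

private theorem X10a_add {w : K} {N : ℕ} {f g : MvPolynomial I K}
    (hf : X10a_Ty O w N f) (hg : X10a_Ty O w N g) : X10a_Ty O w N (f + g) := by
  intro ν
  rw [MvPolynomial.coeff_add, mul_add]
  exact O.add_mem (hf ν) (hg ν)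

private theorem X10a_mul {w : K} {N N' : ℕ} {f g : MvPolynomial I K}
    (hf : X10a_Ty O w N f) (hg : X10a_Ty O w N' g) : X10a_Ty O w (N + N') (f * g) := by
  classical
  intro ν
  rw [MvPolynomial.coeff_mul, Finset.mul_sum]
  refine O.sum_mem fun x _ => ?_
  have h1 : w ^ (N + N') * (MvPolynomial.coeff x.1 f * MvPolynomial.coeff x.2 g) =
      (w ^ N * MvPolynomial.coeff x.1 f) * (w ^ N' * MvPolynomial.coeff x.2 g) := by
    rw [pow_add]
    ring
  rw [h1]
  exact O.mul_mem (hf _) (hg _)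

private theorem X10a_C {w : K} {a : K} (ha : a ∈ O) :
    X10a_Ty O w 0 (MvPolynomial.C a : MvPolynomial I K) := by
  classical
  intro ν
  rw [MvPolynomial.coeff_C, pow_zero, one_mul]
  split_ifs
  · exact ha
  · exact O.zero_mem

private theorem X10a_X {w : K} (i : I) : X10a_Ty O w 0 (MvPolynomial.X i : MvPolynomial I K) := by
  classical
  intro ν
  rw [MvPolynomial.coeff_X, pow_zero, one_mul]
  split_ifs
  · exact O.one_mem
  · exact O.zero_mem

private theorem X10a_inc {w : K} (f : MvPolynomial I k) : X10a_Ty O w 0 (inc k K I f) := by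
  intro ν
  unfold inc
  rw [MvPolynomial.coeff_map, pow_zero, one_mul]
  exact O.algebraMap_mem _

private theorem X10a_pow {w : K} {N : ℕ} {f : MvPolynomial I K} (hf : X10a_Ty O w N f) (j : ℕ) :
    X10a_Ty O w (j * N) (f ^ j) := by
  induction j with
  | zero =>
    rw [pow_zero, zero_mul]
    have := X10a_C (I := I) (w := w) O.one_mem
    rwa [map_one] at this
  | succ j ih =>
    rw [pow_succ, Nat.succ_mul]
    exact X10a_mul ih hf

private theorem X10a_prod {w : K} {ι : Type} (s : Finset ι) (f : ι → MvPolynomial I K)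
    (N : ι → ℕ) (hf : ∀ i ∈ s, X10a_Ty O w (N i) (f i)) :
    X10a_Ty O w (∑ i ∈ s, N i) (∏ i ∈ s, f i) := by
  classical
  induction s using Finset.induction_on with
  | empty =>
    rw [Finset.sum_empty, Finset.prod_empty]
    have := X10a_C (I := I) (w := w) O.one_mem
    rwa [map_one] at this
  | insert i s hi ih =>
    rw [Finset.sum_insert hi, Finset.prod_insert hi]
    exact X10a_mul (hf i (Finset.mem_insert_self i s))
      (ih fun j hj => hf j (Finset.mem_insert_of_mem hj))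

private theorem X10a_wpi {m : ℕ} (a π : Fin m → K) (ha : ∀ i, a i ∈ O)
    (hπ : ∀ i, a i * π i ∈ O) (d : Fin m → ℕ) (N : ℕ) (i : Fin m) (j : ℕ) (hj : j ≤ N * d i) :
    (∏ i, a i ^ d i) ^ N * π i ^ j ∈ O := by
  classical
  rw [← Finset.prod_pow, ← Finset.mul_prod_erase Finset.univ _ (Finset.mem_univ i)]
  have h1 : (a i ^ d i) ^ N = a i ^ (N * d i - j) * a i ^ j := by
    rw [← pow_mul, ← pow_add, Nat.sub_add_cancel hj, Nat.mul_comm]
  have h2 : (a i ^ d i) ^ N * (∏ x ∈ Finset.univ.erase i, (a x ^ d x) ^ N) * π i ^ j =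
      (∏ x ∈ Finset.univ.erase i, (a x ^ d x) ^ N) * (a i ^ (N * d i - j) * (a i * π i) ^ j) := by
    rw [h1, mul_pow]
    ring
  rw [h2]
  exact O.mul_mem (O.prod_mem fun x _ => O.pow_mem (O.pow_mem (ha x) _) _)
    (O.mul_mem (O.pow_mem (ha i) _) (O.pow_mem (hπ i) _))

/-- the value of a homogeneous form at elements of type 1 -/
private theorem X10a_eval {w : K} {ι : Type} {N : ℕ} {L : MvPolynomial ι O}
    (hL : L.IsHomogeneous N) (v : ι → MvPolynomial I K) (hv : ∀ i, X10a_Ty O w 1 (v i)) :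
    X10a_Ty O w N (MvPolynomial.eval₂
      ((MvPolynomial.C (R := K) (σ := I)).comp (O.subtype : O →+* K)) v L) := by
  rw [MvPolynomial.eval₂_eq]
  refine X10a_sum _ _ fun ν hν => ?_
  have h1 : N = 0 + ∑ i ∈ ν.support, ν i := by
    have h2 : Finsupp.weight (fun _ : ι => (1 : ℕ)) ν = N :=
      hL (MvPolynomial.mem_support_iff.1 hν)
    rw [← Finsupp.degree_eq_weight_one, Finsupp.degree_apply] at h2
    rw [h2, zero_add]
  rw [h1]
  refine X10a_mul (X10a_C (L.coeff ν).2) (X10a_prod _ _ _ fun i _ => ?_)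
  have h3 := X10a_pow (hv i) (ν i)
  rwa [mul_one] at h3

private theorem X10a_yy {m n q : ℕ} {d N : Fin m → ℕ} {w : K} (hw : w ∈ O)
    (π : Fin m → K) (hwπ : ∀ i j, j ≤ d i → w * π i ^ j ∈ O) (x : Fin q → O)
    (y : Fin m → Fin (n + 1) → ℕ → k) (a : Fin (n + 1)) :
    X10a_Ty O w 1 (yy (d := d) (N := N) π x y a) := by
  unfold yy
  refine X10a_add (X10a_sum _ _ fun b _ => ?_) (X10a_sum _ _ fun i _ => ?_)
  · exact X10a_mono hw (Nat.zero_le 1) (X10a_mul (X10a_C (x b).2) (X10a_X _))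
  · have hdeg : (tp (q := q) (d := d) (N := N) y a i).natDegree < d i + 1 := by
      apply Nat.lt_succ_of_le
      unfold tp
      refine (Polynomial.natDegree_add_le _ _).trans (max_le ?_ ?_)
      · refine Polynomial.natDegree_sum_le_of_forall_le _ _ fun l _ => ?_
        refine (Polynomial.natDegree_monomial_le _).trans ?_
        have := l.2
        omega
      · refine Polynomial.natDegree_sum_le_of_forall_le _ _ fun l _ => ?_
        refine (Polynomial.natDegree_monomial_le _).trans ?_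
        omega
    rw [Polynomial.eval₂_eq_sum_range' _ hdeg]
    refine X10a_sum _ _ fun j hj => ?_
    have hj' : j ≤ d i := Nat.lt_succ_iff.1 (Finset.mem_range.1 hj)
    rw [mul_pow]
    have h1 : X10a_Ty O w 1
        ((MvPolynomial.C (π i) : MvPolynomial (XI n q d N) K) ^ j) := by
      classical
      intro ν
      rw [← map_pow, MvPolynomial.coeff_C, pow_one]
      split_ifs
      · exact hwπ i j hj'
      · rw [mul_zero]
        exact O.zero_mem
    have h2 : X10a_Ty O w 0 ((MvPolynomial.X (Sum.inl i) :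
        MvPolynomial (XI n q d N) K) ^ j) := by
      have := X10a_pow (X10a_X (O := O) (w := w) (Sum.inl i : XI n q d N)) j
      rwa [mul_zero] at this
    have h3 := X10a_mul (X10a_inc (O := O) (w := w)
      ((tp (q := q) (d := d) (N := N) y a i).coeff j)) (X10a_mul h1 h2)
    exact h3

end aux

theorem u_mem {k K : Type} [Field k] [Field K] [Algebra k K] {O : Subalgebra k K} {n m q : ℕ}
    (hn : 2 ≤ n) {F : MvPolynomial (Fin (n + 1)) O} {P : Fin (n + 1) → O} {ρ : O}
    (hρ : IN (gd F P) (ρ : K)) (T : Cmb O F P ρ m) (x : Fin q → O)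
    (Λ : Fin (n + 1) → Fin (n + 1) → MvPolynomial (Fin (n + 2)) O) (hΛ : PsiEq F P ρ Λ)
    (u : MvPolynomial (XI n q T.d T.N) O)
    (c : Fin m → Polynomial (MvPolynomial (XI n q T.d T.N) k)) (h : UC T x (psi F P ρ Λ) u c) :
    ∃ kk : Fin m → ℕ → O, ∀ ν, IN (gd F P) (MvPolynomial.coeff ν
      (MvPolynomial.map (O.subtype : O →+* K) u + ∑ i, ∑ j ∈ Finset.range (n * T.d i + 1),
        MvPolynomial.C ((kk i j : O) : K) * inc k K (XI n q T.d T.N)
          ((c i).coeff j * MvPolynomial.X (Sum.inl i) ^ j))) := by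
  classical
  obtain ⟨β, hβ⟩ := hρ
  obtain ⟨a, ha⟩ : ∃ a : Fin m → O, ∀ i, a i = 1 - algebraMap k O (T.ev i ρ)⁻¹ * ρ :=
    ⟨_, fun _ => rfl⟩
  have hev : ∀ i, T.ev i (a i) = 0 := by
    intro i
    rw [ha, map_sub, map_one, map_mul, AlgHom.commutes]
    show 1 - (T.ev i ρ)⁻¹ * T.ev i ρ = 0
    rw [inv_mul_cancel₀ (T.ρ0 i), sub_self]
  have haπ : ∀ i, (a i : K) * T.π i ∈ O := by
    intro i
    have h1 := (T.pole i).1 (a i)
    rw [hev, map_zero, sub_zero] at h1
    exact h1
  obtain ⟨J, hJ⟩ : ∃ J : Ideal O, J = Ideal.span (Set.range (gd F P)) := ⟨_, rfl⟩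
  have hIN : ∀ z : O, z ∈ J → IN (gd F P) (z : K) := by
    intro z hz
    rw [hJ] at hz
    obtain ⟨b, hb⟩ := (Submodule.mem_span_range_iff_exists_fun O).1 hz
    refine ⟨b, ?_⟩
    rw [← hb, AddSubmonoidClass.coe_finsetSum]
    refine Finset.sum_congr rfl fun i _ => ?_
    rw [smul_eq_mul, mul_comm, MulMemClass.coe_mul]
  have hgJ : ∀ i, gd F P i ∈ J := by
    intro i
    rw [hJ]
    exact Ideal.subset_span ⟨i, rfl⟩
  have hρJ : ρ ∈ J := by
    have h1 : ρ = ∑ i, gd F P i * β i := by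
      apply Subtype.ext
      rw [hβ, AddSubmonoidClass.coe_finsetSum]
      refine Finset.sum_congr rfl fun i _ => ?_
      rw [MulMemClass.coe_mul]
    rw [h1]
    exact J.sum_mem fun i _ => J.mul_mem_right _ (hgJ i)
  obtain ⟨w, hw⟩ : ∃ w : O, w = ∏ i, a i ^ T.d i := ⟨_, rfl⟩
  have hwJ : 1 - w ^ n ∈ J := by
    rw [← Ideal.Quotient.eq, map_one, map_pow, hw, map_prod]
    have h1 : ∀ i, Ideal.Quotient.mk J (a i ^ T.d i) = 1 := by
      intro i
      have h2 : Ideal.Quotient.mk J 1 = Ideal.Quotient.mk J (a i) := by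
        rw [Ideal.Quotient.eq, ha, sub_sub_cancel]
        exact J.mul_mem_left _ hρJ
      rw [map_pow, ← h2, map_one, one_pow]
    rw [Finset.prod_congr rfl fun i _ => h1 i, Finset.prod_const_one, one_pow]
  have hwK : (w : K) = ∏ i, (a i : K) ^ T.d i := by
    rw [hw, SubmonoidClass.coe_finsetProd]
    refine Finset.prod_congr rfl fun i _ => ?_
    rw [SubmonoidClass.coe_pow]
  have hwpi : ∀ (N : ℕ) (i : Fin m) (j : ℕ), j ≤ N * T.d i → (w : K) ^ N * T.π i ^ j ∈ O := by
    intro N i j hj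
    rw [hwK]
    exact X10a_wpi (fun i => (a i : K)) T.π (fun i => (a i).2) haπ T.d N i j hj
  have hy : ∀ b, X10a_Ty O (w : K) 1 (yy (d := T.d) (N := T.N) T.π x T.y b) := by
    intro b
    refine X10a_yy w.2 T.π (fun i j hj => ?_) x T.y b
    have h1 := hwpi 1 i j (by rw [one_mul]; exact hj)
    rwa [pow_one] at h1
  have hΛty : ∀ b b', X10a_Ty O (w : K) (n - 2)
      (pv ((MvPolynomial.C (R := K) (σ := XI n q T.d T.N)).comp (O.subtype : O →+* K)) (Λ b b')
        (yy T.π x T.y)) := by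
    intro b b'
    refine X10a_eval (hΛ.1 b b') _ fun i => ?_
    refine Fin.cases ?_ (fun i => ?_) i
    · rw [Fin.cons_zero]
      have h1 := X10a_C (I := XI n q T.d T.N) (w := (w : K)) O.one_mem
      rw [map_one] at h1
      exact X10a_mono w.2 (Nat.zero_le 1) h1
    · rw [Fin.cons_succ]
      exact hy i
  have hGty : X10a_Ty O (w : K) n (∑ b, ∑ b', yy (d := T.d) (N := T.N) T.π x T.y b *
      yy T.π x T.y b' *
      pv ((MvPolynomial.C (R := K) (σ := XI n q T.d T.N)).comp (O.subtype : O →+* K)) (Λ b b')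
        (yy T.π x T.y)) := by
    refine X10a_sum _ _ fun b _ => X10a_sum _ _ fun b' _ => ?_
    have h1 := X10a_mul (X10a_mul (hy b) (hy b')) (hΛty b b')
    have h2 : 1 + 1 + (n - 2) = n := by omega
    rwa [h2] at h1
  obtain ⟨hc, hpv, -⟩ := h
  rw [pv_psi] at hpv
  obtain ⟨G, hG⟩ : ∃ G, G = ∑ b, ∑ b', yy (d := T.d) (N := T.N) T.π x T.y b *
      yy T.π x T.y b' *
      pv ((MvPolynomial.C (R := K) (σ := XI n q T.d T.N)).comp (O.subtype : O →+* K)) (Λ b b')
        (yy T.π x T.y) := ⟨_, rfl⟩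
  rw [← hG] at hpv hGty
  refine ⟨fun i j => if hj : j ≤ n * T.d i then
    ⟨(w : K) ^ n * T.π i ^ j, hwpi n i j hj⟩ else 0, fun ν => ?_⟩
  have hS : ∑ i, ∑ j ∈ Finset.range (n * T.d i + 1),
      MvPolynomial.C (((if hj : j ≤ n * T.d i then
        (⟨(w : K) ^ n * T.π i ^ j, hwpi n i j hj⟩ : O) else 0 : O) : K)) *
        inc k K (XI n q T.d T.N) ((c i).coeff j * MvPolynomial.X (Sum.inl i) ^ j) =
      MvPolynomial.C ((w : K) ^ n) * ∑ i, (c i).eval₂ (inc k K (XI n q T.d T.N))
          (MvPolynomial.C (T.π i) * MvPolynomial.X (Sum.inl i)) := by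
    rw [Finset.mul_sum]
    refine Finset.sum_congr rfl fun i _ => ?_
    rw [Polynomial.eval₂_eq_sum_range' _ (Nat.lt_succ_of_le (hc i).2), Finset.mul_sum]
    refine Finset.sum_congr rfl fun j hj => ?_
    rw [dif_pos (Nat.lt_succ_iff.1 (Finset.mem_range.1 hj))]
    have h1 : inc k K (XI n q T.d T.N) (MvPolynomial.X (Sum.inl i)) =
        MvPolynomial.X (Sum.inl i) := MvPolynomial.map_X _ _
    have h2 : inc k K (XI n q T.d T.N) ((c i).coeff j * MvPolynomial.X (Sum.inl i) ^ j) =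
        inc k K (XI n q T.d T.N) ((c i).coeff j) * MvPolynomial.X (Sum.inl i) ^ j := by
      rw [map_mul, map_pow, h1]
    have h3 : (MvPolynomial.C ((w : K) ^ n * T.π i ^ j) : MvPolynomial (XI n q T.d T.N) K) =
        MvPolynomial.C ((w : K) ^ n) * MvPolynomial.C (T.π i) ^ j := by
      rw [MvPolynomial.C_mul, MvPolynomial.C_pow (T.π i) j]
    rw [h2, h3, mul_pow]
    ring
  rw [hS]
  have hS2 : ∑ i, (c i).eval₂ (inc k K (XI n q T.d T.N))
          (MvPolynomial.C (T.π i) * MvPolynomial.X (Sum.inl i)) =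
      (∑ b, MvPolynomial.C ((gd F P b : O) : K) * yy T.π x T.y b + MvPolynomial.C (ρ : K) * G) -
        MvPolynomial.map (O.subtype : O →+* K) u := by
    rw [eq_sub_iff_add_eq, add_comm, ← hpv]
    rfl
  rw [hS2, MvPolynomial.coeff_add, MvPolynomial.coeff_C_mul, MvPolynomial.coeff_sub,
    MvPolynomial.coeff_add, MvPolynomial.coeff_C_mul, MvPolynomial.coeff_sum,
    MvPolynomial.coeff_map]
  have hmem : (1 - w ^ n) * MvPolynomial.coeff ν u +
      (∑ b, gd F P b * (⟨(w : K) ^ n * MvPolynomial.coeff ν (yy T.π x T.y b),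
        X10a_mono w.2 (by omega : 1 ≤ n) (hy b) ν⟩ : O) +
        ρ * (⟨(w : K) ^ n * MvPolynomial.coeff ν G, hGty ν⟩ : O)) ∈ J :=
    J.add_mem (J.mul_mem_right _ hwJ)
      (J.add_mem (J.sum_mem fun b _ => J.mul_mem_right _ (hgJ b)) (J.mul_mem_right _ hρJ))
  have hfin := hIN _ hmem
  convert hfin using 1
  rw [AddMemClass.coe_add, AddMemClass.coe_add, MulMemClass.coe_mul, MulMemClass.coe_mul,
    AddSubgroupClass.coe_sub, OneMemClass.coe_one, SubmonoidClass.coe_pow,
    AddSubmonoidClass.coe_finsetSum]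
  have h1 : ∀ b, ((gd F P b * (⟨(w : K) ^ n * MvPolynomial.coeff ν (yy T.π x T.y b),
        X10a_mono w.2 (by omega : 1 ≤ n) (hy b) ν⟩ : O) : O) : K) =
      (w : K) ^ n * MvPolynomial.coeff ν (MvPolynomial.C ((gd F P b : O) : K) *
        yy T.π x T.y b) := by
    intro b
    rw [MvPolynomial.coeff_C_mul, MulMemClass.coe_mul]
    ring
  rw [Finset.sum_congr rfl fun b _ => h1 b, ← Finset.mul_sum]
  have h9 : (O.subtype : O →+* K) (MvPolynomial.coeff ν u) =
    ((MvPolynomial.coeff ν u : O) : K) := rfl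
  rw [h9]
  ring

end Q9
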