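import Pool.Agent.LibQ9.X1
import Pool.Agent.LibQ9.X8

/-!
[Q9 X13a] (MEDIUM/STRONG; may cite X1, X8 as stated) Values and first derivatives at the base point.

PLAN. `xz` has `e = 0`, `ξ = 0`. `yy_xz`: all terms of `tp` have exponent `≥ 1` (`l < N i ≤ d i`). `c_xz`: third clause of `UC` with `R = k`, `z = xz`: `tz T x xz i = T.τ i` (`T.τ0`, `T.top`, `T.mid`, `ρ_i (ρ_i)⁻¹ = 1`, degree `≤ d i`: `T.on`), `F_(b_i)(τ_i) = 0` (`T.on`), `ev_i ρ ≠ 0`. `u_xz`: second clause of `UC` at `xz`: `pv φ Ψ 0 = 0` (X1 `pv_psi`), the `c i` contribute their coefficient `0`, `= 0`.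
Derivatives: use dual numbers or the derivation `D f = Σ_v eval(xz) (pderiv v f) δ v` of `MvPolynomial I K → K` over evaluation at `xz`: `D (f g) = f(xz) D g + g(xz) D f`, `D (inc g) = Σ ..`, `D (C x) = 0`, `D (X v) = δ v`. `d_yy`: by X8 `pderiv_lm`, `eval_lm` it is `λ (D yy_a)`; `D` of `(tp y a i).eval₂ inc (C π_i X(inl i))` = `Σ_j D(inc (tp_j) (C π_i X_i)^j)`: only `j = 1`: `tp_1(xz) π_i δ(inl i)` (`X_i(xz) = 0`), and `tp_1(xz) = ρ_i⁻¹ (τ i a).coeff 1`
(coefficient `1` of `tp`: the unknown `l = 0` if `N i < d i`; if `N i = d i` the term `l = d i - 1`: `y_0` if `d i = 1` (`T.top`), otherwise `y_l e^l` with `l ≥ 1`, value `0`, and `T.mid` gives `(τ i a).coeff 1 = 0`; if `0 < N i < d i` only the first sum contributes unless `d i - l = 1`, excluded). `d_u`: apply `D` to the second clause of `UC`: the left side: X1 `pv_psi`, `yy(xz) = 0`: `Σ_a Fd a * D yy_a`; the right side `D (map u) + Σ_i (c i)_1(xz) π_i δ(inl i)` and `(c i)_1 (xz) = 0`.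
-/

set_option autoImplicit false

namespace Q9

section

variable {k K I : Type} [Field k] [Field K] [Algebra k K]

private theorem X13a_ev_inc (z : I → k) (g : MvPolynomial I k) :
    MvPolynomial.eval (fun v => algebraMap k K (z v)) (inc k K I g) =
      algebraMap k K (MvPolynomial.eval z g) := by
  have h1 : (MvPolynomial.eval (fun v => algebraMap k K (z v))).comp (inc k K I) =
      (algebraMap k K).comp (MvPolynomial.eval z) := by
    apply MvPolynomial.ringHom_ext
    · intro r
      simp [inc]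
    · intro i
      simp [inc]
  exact RingHom.congr_fun h1 g

variable [Fintype I]

private noncomputable def X13a_D (z δ : I → K) (f : MvPolynomial I K) : K :=
  ∑ v, MvPolynomial.eval z (MvPolynomial.pderiv v f) * δ v

private theorem X13a_D_add (z δ : I → K) (f g : MvPolynomial I K) :
    X13a_D z δ (f + g) = X13a_D z δ f + X13a_D z δ g := by
  unfold X13a_D
  rw [← Finset.sum_add_distrib]
  refine Finset.sum_congr rfl fun v _ => ?_
  rw [map_add, map_add, add_mul]

private theorem X13a_D_zero (z δ : I → K) : X13a_D z δ 0 = 0 := by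
  unfold X13a_D
  simp

private theorem X13a_D_sum {ι : Type} (z δ : I → K) (s : Finset ι) (f : ι → MvPolynomial I K) :
    X13a_D z δ (∑ i ∈ s, f i) = ∑ i ∈ s, X13a_D z δ (f i) := by
  classical
  induction s using Finset.induction_on with
  | empty => simp [X13a_D_zero]
  | insert a s ha ih => rw [Finset.sum_insert ha, Finset.sum_insert ha, X13a_D_add, ih]

private theorem X13a_D_mul (z δ : I → K) (f g : MvPolynomial I K) :
    X13a_D z δ (f * g) = MvPolynomial.eval z f * X13a_D z δ g +
      MvPolynomial.eval z g * X13a_D z δ f := by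
  unfold X13a_D
  rw [Finset.mul_sum, Finset.mul_sum, ← Finset.sum_add_distrib]
  refine Finset.sum_congr rfl fun v _ => ?_
  rw [Derivation.leibniz, map_add, smul_eq_mul, smul_eq_mul, map_mul, map_mul]
  ring

private theorem X13a_D_C (z δ : I → K) (c : K) : X13a_D z δ (MvPolynomial.C c) = 0 := by
  unfold X13a_D
  simp

private theorem X13a_D_X (z δ : I → K) (i : I) : X13a_D z δ (MvPolynomial.X i) = δ i := by
  classical
  unfold X13a_D
  rw [Finset.sum_eq_single i]
  · rw [MvPolynomial.pderiv_X_self, map_one, one_mul]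
  · intro b _ hb
    rw [MvPolynomial.pderiv_X_of_ne (Ne.symm hb), map_zero, zero_mul]
  · intro h
    exact absurd (Finset.mem_univ i) h

private theorem X13a_D_CX (z δ : I → K) (c : K) (i : I) :
    X13a_D z δ (MvPolynomial.C c * MvPolynomial.X i) = c * δ i := by
  rw [X13a_D_mul, X13a_D_X, X13a_D_C, MvPolynomial.eval_C, mul_zero, add_zero]

private theorem X13a_D_Cmul (z δ : I → K) (c : K) (f : MvPolynomial I K) :
    X13a_D z δ (MvPolynomial.C c * f) = c * X13a_D z δ f := by
  rw [X13a_D_mul, X13a_D_C, MvPolynomial.eval_C, mul_zero, add_zero]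

private theorem X13a_ev_eval₂ (z : I → K) (p : Polynomial (MvPolynomial I k))
    (Z : MvPolynomial I K) (hZ : MvPolynomial.eval z Z = 0) :
    MvPolynomial.eval z (p.eval₂ (inc k K I) Z) =
      MvPolynomial.eval z (inc k K I (p.coeff 0)) := by
  rw [Polynomial.hom_eval₂, hZ, Polynomial.eval₂_at_zero]
  rfl

private theorem X13a_D_eval₂ (z δ : I → K) (p : Polynomial (MvPolynomial I k))
    (Z : MvPolynomial I K) (hZ : MvPolynomial.eval z Z = 0) :
    X13a_D z δ (p.eval₂ (inc k K I) Z) = X13a_D z δ (inc k K I (p.coeff 0)) +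
      MvPolynomial.eval z (inc k K I (p.coeff 1)) * X13a_D z δ Z := by
  have h1 : p.eval₂ (inc k K I) Z =
      (p.divX).eval₂ (inc k K I) Z * Z + inc k K I (p.coeff 0) := by
    conv_lhs => rw [← Polynomial.divX_mul_X_add p]
    rw [Polynomial.eval₂_add, Polynomial.eval₂_mul, Polynomial.eval₂_X, Polynomial.eval₂_C]
  rw [h1, X13a_D_add, X13a_D_mul, hZ, zero_mul, add_zero, X13a_ev_eval₂ z p.divX Z hZ,
    Polynomial.coeff_divX, zero_add]
  ring

private theorem X13a_lam (lam : K →ₗ[k] k) (z δ : I → k) (f : MvPolynomial I K) :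
    ∑ v, MvPolynomial.eval z (MvPolynomial.pderiv v (lm lam f)) * δ v =
      lam (X13a_D (fun v => algebraMap k K (z v)) (fun v => algebraMap k K (δ v)) f) := by
  unfold X13a_D
  rw [map_sum]
  refine Finset.sum_congr rfl fun v _ => ?_
  rw [pderiv_lm, eval_lm, mul_comm _ (algebraMap k K (δ v)), ← Algebra.smul_def, map_smul,
    smul_eq_mul, mul_comm]

end

section

variable {k : Type} [Field k] {m n q : ℕ} {d N : Fin m → ℕ}

private theorem X13a_tp_coeff (y : Fin m → Fin (n + 1) → ℕ → k) (a : Fin (n + 1)) (i : Fin m)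
    (j : ℕ) :
    (tp (q := q) (d := d) (N := N) y a i).coeff j =
      ∑ l : Fin (d i - N i), (if (l : ℕ) + 1 = j then
        MvPolynomial.X (Sum.inr (Sum.inr ⟨i, (a, l)⟩)) else 0) +
      ∑ l ∈ Finset.range (N i), (if d i - l = j then
        MvPolynomial.C (y i a l) * MvPolynomial.X (Sum.inl i) ^ l else 0) := by
  unfold tp
  rw [Polynomial.coeff_add, Polynomial.finset_sum_coeff, Polynomial.finset_sum_coeff]
  congr 1
  · exact Finset.sum_congr rfl fun l _ => Polynomial.coeff_monomial
  · exact Finset.sum_congr rfl fun l _ => Polynomial.coeff_monomial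

private theorem X13a_tp_zero (y : Fin m → Fin (n + 1) → ℕ → k) (a : Fin (n + 1)) (i : Fin m)
    (h : N i ≤ d i) : (tp (q := q) (d := d) (N := N) y a i).coeff 0 = 0 := by
  rw [X13a_tp_coeff, Finset.sum_eq_zero, Finset.sum_eq_zero, add_zero]
  · intro l hl
    rw [Finset.mem_range] at hl
    rw [if_neg (by omega)]
  · intro l _
    rw [if_neg (by omega)]

end

section

variable {k K : Type} [Field k] [Field K] [Algebra k K] {O : Subalgebra k K} {n m q : ℕ}
  {F : MvPolynomial (Fin (n + 1)) O} {P : Fin (n + 1) → O} {ρ : O} (T : Cmb O F P ρ m)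
  (x : Fin q → O)

omit x in
private theorem X13a_Z (i : Fin m) :
    MvPolynomial.eval (fun v => algebraMap k K (xz q T v))
      (MvPolynomial.C (T.π i) * MvPolynomial.X (Sum.inl i)) = 0 := by
  rw [map_mul, MvPolynomial.eval_X]
  show _ * algebraMap k K 0 = 0
  rw [map_zero, mul_zero]

omit x in
private theorem X13a_tp_one (a : Fin (n + 1)) (i : Fin m) :
    MvPolynomial.eval (xz q T) ((tp (q := q) (d := T.d) (N := T.N) T.y a i).coeff 1) =
      (T.ev i ρ)⁻¹ * (T.τ i a).coeff 1 := by
  have hN := T.hN i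
  have hd := T.hd i
  have hρ := T.ρ0 i
  rw [X13a_tp_coeff, map_add, map_sum, map_sum]
  rcases Nat.lt_or_ge (T.N i) (T.d i) with h | h
  · rw [Finset.sum_eq_single (⟨0, by omega⟩ : Fin (T.d i - T.N i)), Finset.sum_eq_zero, add_zero]
    · rw [if_pos rfl, MvPolynomial.eval_X]
      rfl
    · intro l hl
      rw [Finset.mem_range] at hl
      rw [if_neg (by omega), map_zero]
    · intro l _ hl
      have h1 : (l : ℕ) ≠ 0 := fun h2 => hl (Fin.ext h2)
      rw [if_neg (by omega), map_zero]
    · intro h1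
      exact absurd (Finset.mem_univ _) h1
  · have hNd : T.N i = T.d i := le_antisymm hN h
    rw [Finset.sum_eq_zero, zero_add, Finset.sum_eq_single (T.d i - 1)]
    · rw [if_pos (by omega), map_mul, map_pow, MvPolynomial.eval_X, MvPolynomial.eval_C]
      show _ * (0 : k) ^ (T.d i - 1) = _
      rcases Nat.lt_or_ge 1 (T.d i) with h1 | h1
      · rw [zero_pow (by omega), mul_zero]
        have h2 := T.mid i a (T.d i - 1) (by omega) (by omega)
        rw [show T.d i - (T.d i - 1) = 1 by omega] at h2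
        rw [h2, mul_zero]
      · have h2 : T.d i = 1 := by omega
        have h3 := T.top i a (by omega)
        rw [h2] at h3
        rw [h2, h3, Nat.sub_self, pow_zero, mul_one, inv_mul_cancel_left₀ hρ]
    · intro l hl hl2
      rw [Finset.mem_range] at hl
      rw [if_neg (by omega), map_zero]
    · intro h1
      exact absurd (Finset.mem_range.2 (by omega)) h1
    · intro l _
      have := l.2
      omega

theorem yy_xz (a : Fin (n + 1)) :
    MvPolynomial.eval (fun v => algebraMap k K (xz q T v)) (yy T.π x T.y a) = 0 := by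
  unfold yy
  rw [map_add, map_sum, map_sum, Finset.sum_eq_zero, Finset.sum_eq_zero, add_zero]
  · intro i _
    rw [X13a_ev_eval₂ _ _ _ (X13a_Z T i), X13a_tp_zero _ _ _ (T.hN i), map_zero, map_zero]
  · intro b _
    rw [map_mul, MvPolynomial.eval_X]
    show _ * algebraMap k K 0 = 0
    rw [map_zero, mul_zero]

private theorem X13a_D_yy (δ : XI n q T.d T.N → k) (a : Fin (n + 1)) :
    X13a_D (fun v => algebraMap k K (xz q T v)) (fun v => algebraMap k K (δ v))
      (yy T.π x T.y a) = dy T x δ a := by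
  unfold yy dy
  rw [X13a_D_add, X13a_D_sum, X13a_D_sum]
  congr 1
  · refine Finset.sum_congr rfl fun b _ => ?_
    rw [X13a_D_CX, mul_comm]
  · refine Finset.sum_congr rfl fun i _ => ?_
    rw [X13a_D_eval₂ _ _ _ _ (X13a_Z T i), X13a_tp_zero _ _ _ (T.hN i), map_zero, X13a_D_zero,
      zero_add, X13a_ev_inc, X13a_tp_one, X13a_D_CX, map_mul (algebraMap k K) (δ (Sum.inl i))]
    ring

theorem d_yy (lam : K →ₗ[k] k) (δ : XI n q T.d T.N → k) (a : Fin (n + 1)) :
    ∑ v, MvPolynomial.eval (xz q T) (MvPolynomial.pderiv v (lm lam (yy T.π x T.y a))) * δ v =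
      lam (dy T x δ a) := by
  rw [X13a_lam, X13a_D_yy]

variable (Λ : Fin (n + 1) → Fin (n + 1) → MvPolynomial (Fin (n + 2)) O)
  (u : MvPolynomial (XI n q T.d T.N) O)
  (c : Fin m → Polynomial (MvPolynomial (XI n q T.d T.N) k)) (h : UC T x (psi F P ρ Λ) u c)

include h

omit h in
private theorem X13a_tz (i : Fin m) (a : Fin (n + 1)) :
    tz T x (R := k) (xz q T) i a = T.τ i a := by
  have hN := T.hN i
  have hd := T.hd i
  have hρ := T.ρ0 i
  have hdeg := (T.on i).1 a
  have hs0 : ∑ b, algebraMap k k (T.ev i (x b)) * xz q T (Sum.inr (Sum.inl (a, b))) = 0 := by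
    refine Finset.sum_eq_zero fun b _ => ?_
    show _ * (0 : k) = 0
    rw [mul_zero]
  have hsum : ∀ j : ℕ, (∑ l : Fin (T.d i - T.N i),
      Polynomial.C (xz q T (Sum.inr (Sum.inr ⟨i, (a, l)⟩))) *
        (Polynomial.X : Polynomial k) ^ ((l : ℕ) + 1)).coeff j =
      if 1 ≤ j ∧ j ≤ T.d i - T.N i then (T.ev i ρ)⁻¹ * (T.τ i a).coeff j else 0 := by
    intro j
    rw [Polynomial.finset_sum_coeff]
    have h1 : ∀ l : Fin (T.d i - T.N i),
        (Polynomial.C (xz q T (Sum.inr (Sum.inr ⟨i, (a, l)⟩))) *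
          (Polynomial.X : Polynomial k) ^ ((l : ℕ) + 1)).coeff j =
        if (l : ℕ) + 1 = j then (T.ev i ρ)⁻¹ * (T.τ i a).coeff j else 0 := by
      intro l
      rw [Polynomial.coeff_C_mul_X_pow]
      by_cases hl : (l : ℕ) + 1 = j
      · rw [if_pos hl.symm, if_pos hl, ← hl]
        rfl
      · rw [if_neg (fun h2 => hl h2.symm), if_neg hl]
    rw [Finset.sum_congr rfl fun l _ => h1 l]
    split_ifs with hj
    · rw [Finset.sum_eq_single (⟨j - 1, by omega⟩ : Fin (T.d i - T.N i))]
      · rw [if_pos (by show j - 1 + 1 = j; omega)]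
      · intro l _ hl
        have h2 : (l : ℕ) ≠ j - 1 := fun h3 => hl (Fin.ext h3)
        rw [if_neg (by omega)]
      · intro h2
        exact absurd (Finset.mem_univ _) h2
    · refine Finset.sum_eq_zero fun l _ => ?_
      have := l.2
      rw [if_neg (by omega)]
  unfold tz
  rw [hs0, Polynomial.C_0, zero_add]
  ext j
  rw [Polynomial.coeff_add, Polynomial.coeff_C_mul, Polynomial.coeff_add, hsum j]
  have htop : (if 1 ≤ T.N i then Polynomial.C (algebraMap k k (T.y i a 0)) *
      (Polynomial.X : Polynomial k) ^ T.d i else 0).coeff j =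
      if 1 ≤ T.N i ∧ j = T.d i then T.y i a 0 else 0 := by
    by_cases h1 : 1 ≤ T.N i
    · rw [if_pos h1, Polynomial.coeff_C_mul_X_pow]
      by_cases h2 : j = T.d i
      · rw [if_pos h2, if_pos ⟨h1, h2⟩]
        rfl
      · rw [if_neg h2, if_neg (fun h3 => h2 h3.2)]
    · rw [if_neg h1, if_neg (fun h3 => h1 h3.1), Polynomial.coeff_zero]
  rw [htop, Polynomial.coeff_C]
  show (if j = 0 then T.ev i (P a) else 0) + T.ev i ρ * _ = _
  rcases Nat.eq_zero_or_pos j with hj0 | hj1
  · rw [if_pos hj0, if_neg (by omega), if_neg (by omega), add_zero, mul_zero, add_zero, hj0,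
      T.τ0]
  · rw [if_neg (by omega), zero_add]
    rcases Nat.lt_or_ge (T.d i - T.N i) j with h1 | h1
    · rw [if_neg (by omega), zero_add]
      rcases lt_trichotomy j (T.d i) with h2 | h2 | h2
      · rw [if_neg (by omega), mul_zero]
        have h3 := T.mid i a (T.d i - j) (by omega) (by omega)
        rw [show T.d i - (T.d i - j) = j by omega] at h3
        exact h3.symm
      · rw [if_pos ⟨by omega, h2⟩, h2]
        exact (T.top i a (by omega)).symm
      · rw [if_neg (by omega), mul_zero]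
        exact (Polynomial.coeff_eq_zero_of_natDegree_lt (by omega)).symm
    · rw [if_pos ⟨hj1, h1⟩, if_neg (by omega), add_zero, mul_inv_cancel_left₀ hρ]

theorem c_xz (i : Fin m) (j : ℕ) : MvPolynomial.eval (xz q T) ((c i).coeff j) = 0 := by
  rcases Nat.eq_zero_or_pos j with hj | hj
  · rw [hj, (h.1 i).1, map_zero]
  · have h1 := h.2.2 k (xz q T) (fun _ => rfl) i j hj
    have h2 : tz T x (R := k) (xz q T) i = T.τ i := funext fun a => X13a_tz T x i a
    rw [h2, (T.on i).2, Polynomial.coeff_zero] at h1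
    rcases mul_eq_zero.1 h1 with h3 | h3
    · exact absurd h3 (T.ρ0 i)
    · exact h3

theorem u_xz : MvPolynomial.eval (fun v => algebraMap k K (xz q T v))
    (MvPolynomial.map (O.subtype : O →+* K) u) = 0 := by
  have h2 := congrArg (MvPolynomial.eval (fun v => algebraMap k K (xz q T v))) h.2.1
  rw [pv_psi, map_add, map_add, map_sum, map_sum, map_mul, map_sum] at h2
  rw [Finset.sum_eq_zero, Finset.sum_eq_zero (s := Finset.univ) (f := fun a =>
    MvPolynomial.eval (fun v => algebraMap k K (xz q T v)) (∑ b, yy T.π x T.y a *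
      yy T.π x T.y b * pv ((MvPolynomial.C (R := K) (σ := XI n q T.d T.N)).comp
        (O.subtype : O →+* K)) (Λ a b) (yy T.π x T.y))), mul_zero, add_zero,
    Finset.sum_eq_zero (s := Finset.univ) (f := fun i =>
      MvPolynomial.eval (fun v => algebraMap k K (xz q T v)) ((c i).eval₂ (inc k K (XI n q T.d T.N))
          (MvPolynomial.C (T.π i) * MvPolynomial.X (Sum.inl i)))), add_zero] at h2
  · exact h2.symm
  · intro i _
    rw [X13a_ev_eval₂ _ _ _ (X13a_Z T i), (h.1 i).1, map_zero, map_zero]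
  · intro a _
    rw [map_sum]
    refine Finset.sum_eq_zero fun b _ => ?_
    rw [map_mul, map_mul, yy_xz, zero_mul, zero_mul]
  · intro a _
    rw [map_mul, yy_xz, mul_zero]

theorem d_u (hn : 2 ≤ n) (lam : K →ₗ[k] k) (δ : XI n q T.d T.N → k) :
    ∑ v, MvPolynomial.eval (xz q T) (MvPolynomial.pderiv v
        (lm lam (MvPolynomial.map (O.subtype : O →+* K) u))) * δ v =
      lam (∑ a, ((gd F P a : O) : K) * dy T x δ a) := by
  rw [X13a_lam]
  congr 1
  have h2 := congrArg (X13a_D (fun v => algebraMap k K (xz q T v))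
    (fun v => algebraMap k K (δ v))) h.2.1
  rw [pv_psi, X13a_D_add, X13a_D_add, X13a_D_sum, X13a_D_sum] at h2
  have h3 : ∀ i : Fin m, X13a_D (fun v => algebraMap k K (xz q T v))
      (fun v => algebraMap k K (δ v)) ((c i).eval₂ (inc k K (XI n q T.d T.N))
          (MvPolynomial.C (T.π i) * MvPolynomial.X (Sum.inl i))) = 0 := by
    intro i
    rw [X13a_D_eval₂ _ _ _ _ (X13a_Z T i), (h.1 i).1, map_zero, X13a_D_zero, zero_add,
      X13a_ev_inc, c_xz T x Λ u c h i 1, map_zero, zero_mul]
  rw [Finset.sum_eq_zero (fun i _ => h3 i), add_zero] at h2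
  rw [← h2]
  have h4 : X13a_D (fun v => algebraMap k K (xz q T v)) (fun v => algebraMap k K (δ v))
      (((MvPolynomial.C (R := K) (σ := XI n q T.d T.N)).comp (O.subtype : O →+* K)) ρ *
        ∑ a, ∑ b, yy T.π x T.y a * yy T.π x T.y b *
          pv ((MvPolynomial.C (R := K) (σ := XI n q T.d T.N)).comp (O.subtype : O →+* K))
            (Λ a b) (yy T.π x T.y)) = 0 := by
    rw [RingHom.comp_apply, X13a_D_Cmul, X13a_D_sum, Finset.sum_eq_zero, mul_zero]
    intro a _
    rw [X13a_D_sum]
    refine Finset.sum_eq_zero fun b _ => ?_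
    rw [X13a_D_mul, X13a_D_mul, map_mul, yy_xz, yy_xz]
    ring
  rw [h4, add_zero]
  refine Finset.sum_congr rfl fun a _ => ?_
  rw [RingHom.comp_apply, X13a_D_Cmul, X13a_D_yy]
  rfl

end

end Q9
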