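import Mathlib

/-!
[Q9 X9] (SHORT/MEDIUM; only Mathlib) Difference quotients of a polynomial.

PLAN. Induction on `G` (`MvPolynomial.induction_on`): constants: `D = 0`; sums: add; `G * X c`: `(G X_c)(v + w) - (G X_c)(v) = (G(v+w) - G(v)) (v_c + w_c) + G(v) w_c`: `D'_a = D_a * (X (inl c) + X (inr c)) + (if a = c then rename inl G else 0)`. The value at `w = 0`: by the same induction, or: `pderiv a (G X_c) = pderiv a G * X_c + G * δ_ac`.
-/

set_option autoImplicit false

namespace Q9

theorem exists_dif {A : Type} [CommRing A] {N : ℕ} (G : MvPolynomial (Fin N) A) :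
    ∃ D : Fin N → MvPolynomial (Fin N ⊕ Fin N) A,
      (∀ (S : Type) [CommRing S] (φ : A →+* S) (v w : Fin N → S),
        MvPolynomial.eval₂ φ (v + w) G - MvPolynomial.eval₂ φ v G =
          ∑ a, MvPolynomial.eval₂ φ (Sum.elim v w) (D a) * w a) ∧
      ∀ (S : Type) [CommRing S] (φ : A →+* S) (v : Fin N → S) (a : Fin N),
        MvPolynomial.eval₂ φ (Sum.elim v 0) (D a) =
          MvPolynomial.eval₂ φ v (MvPolynomial.pderiv a G) := by
  classical
  induction G using MvPolynomial.induction_on with
  | C a =>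
    refine ⟨fun _ => 0, ?_, ?_⟩
    · intro S _ φ v w
      simp
    · intro S _ φ v b
      simp
  | add p q hp hq =>
    obtain ⟨Dp, hp1, hp2⟩ := hp
    obtain ⟨Dq, hq1, hq2⟩ := hq
    refine ⟨fun a => Dp a + Dq a, ?_, ?_⟩
    · intro S _ φ v w
      have h1 := hp1 S φ v w
      have h2 := hq1 S φ v w
      rw [MvPolynomial.eval₂_add, MvPolynomial.eval₂_add, add_sub_add_comm, h1, h2,
        ← Finset.sum_add_distrib]
      refine Finset.sum_congr rfl fun a _ => ?_
      rw [MvPolynomial.eval₂_add, add_mul]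
    · intro S _ φ v b
      rw [MvPolynomial.eval₂_add, hp2 S φ v b, hq2 S φ v b, map_add, MvPolynomial.eval₂_add]
  | mul_X p c hp =>
    obtain ⟨D, h1, h2⟩ := hp
    refine ⟨fun a => D a * (MvPolynomial.X (Sum.inl c) + MvPolynomial.X (Sum.inr c)) +
      (if a = c then MvPolynomial.rename Sum.inl p else 0), ?_, ?_⟩
    · intro S _ φ v w
      have e1 := h1 S φ v w
      rw [MvPolynomial.eval₂_mul, MvPolynomial.eval₂_mul, MvPolynomial.eval₂_X,
        MvPolynomial.eval₂_X, Pi.add_apply]
      have e2 : ∀ a, MvPolynomial.eval₂ φ (Sum.elim v w)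
          (D a * (MvPolynomial.X (Sum.inl c) + MvPolynomial.X (Sum.inr c)) +
            (if a = c then MvPolynomial.rename Sum.inl p else 0)) * w a =
          (MvPolynomial.eval₂ φ (Sum.elim v w) (D a) * w a) * (v c + w c) +
            (if a = c then MvPolynomial.eval₂ φ v p * w a else 0) := by
        intro a
        rw [MvPolynomial.eval₂_add, MvPolynomial.eval₂_mul, MvPolynomial.eval₂_add,
          MvPolynomial.eval₂_X, MvPolynomial.eval₂_X, Sum.elim_inl, Sum.elim_inr]
        split_ifs with h
        · rw [MvPolynomial.eval₂_rename, Sum.elim_comp_inl]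
          ring
        · rw [MvPolynomial.eval₂_zero]
          ring
      rw [Finset.sum_congr rfl fun a _ => e2 a, Finset.sum_add_distrib, ← Finset.sum_mul, ← e1,
        Finset.sum_ite_eq' Finset.univ c, if_pos (Finset.mem_univ c)]
      ring
    · intro S _ φ v b
      rw [MvPolynomial.eval₂_add, MvPolynomial.eval₂_mul, MvPolynomial.eval₂_add,
        MvPolynomial.eval₂_X, MvPolynomial.eval₂_X, Sum.elim_inl, Sum.elim_inr, Pi.zero_apply,
        add_zero, h2 S φ v b, Derivation.leibniz, MvPolynomial.pderiv_X, smul_eq_mul, smul_eq_mul,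
        MvPolynomial.eval₂_add, MvPolynomial.eval₂_mul, MvPolynomial.eval₂_mul,
        MvPolynomial.eval₂_X]
      by_cases h : b = c
      · subst h
        rw [if_pos rfl, Pi.single_eq_same, MvPolynomial.eval₂_rename, Sum.elim_comp_inl,
          MvPolynomial.eval₂_one]
        ring
      · rw [if_neg h, Pi.single_eq_of_ne (fun h' => h h'.symm), MvPolynomial.eval₂_zero,
          MvPolynomial.eval₂_zero]
        ring

end Q9
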