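import Pool.Agent.LibQ9.X8
import Pool.Agent.LibQ9.X9
import Pool.Agent.LibQ9.X10a
import Pool.Agent.LibQ9.X13a

/-!
[Q9 X10] (MEDIUM; may cite X8, X9, X10a, X13a as stated) The redundancy of the equations: the matrix `E`.

PLAN. `Ψ = psi F P ρ Λ`, `I = XI n q T.d T.N`, `A j = eA T x κ j`, `w_a = Σ_p C(β p) * inc (A (a, p))`, `v_a = yy_a - w_a` (coefficients in `s^B R` by `hκ`). X9 `exists_dif` for `G = Ψ` (`N = n + 2`): `D`. With `V = Fin.cons 1 v`, `W = Fin.cons 0 w`: `V + W = Fin.cons 1 yy`, so `pv φ Ψ yy = pv φ Ψ v + Σ_a G_a * w_a`, `G_a = eval₂ φ (Sum.elim V W) (D a.succ)` (the index `0` has `W 0 = 0`), `φ = C.comp O.subtype`.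
`E r (a, p) = lm (lam r) (C (β p) * G_a)`. Apply `lm (lam r)`: `lm (pv φ Ψ v) = 0` (`hB`, `hl2`, X8 `lm_zero_of`); `lm (G_a * w_a) = Σ_p E r (a, p) * A (a, p)` (X8 `lm_mul_inc`). Second clause of `UC`: `lm (pv φ Ψ yy) = lm (map u) + Σ_i Σ_j C(lam r (π_i^j)) * (c i).coeff j * X(inl i)^j`. X10a `u_mem`: `lm (map u) = - Σ_i Σ_j C(lam r (kk i j)) (c i).coeff j X(inl i)^j` (`hl1`). So at a point `z` with all `(c i).coeff j` zero: `Σ E A = 0`.
Value at the base point: `eval (xz) (E r (a, p)) = lam r (β p * G_a(xz))` (X8 `eval_lm`); at `xz`: `yy(xz) = 0` (X13a `yy_xz`), `A (xz) = 0` (X8 `eval_lm`), so `w = 0`, `v = 0`, and by the second property of X9 `G_a(xz)` = value of `pderiv a.succ Ψ` at `(1, 0, .., 0)` = `Fd a` (from the definition of `psi`).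
-/

set_option autoImplicit false

namespace Q9

private theorem X10_cinc {k K I : Type} [Field k] [Field K] [Algebra k K] (lam : K →ₗ[k] k) (x : K)
    (g : MvPolynomial I k) :
    lm lam (MvPolynomial.C x * inc k K I g) = MvPolynomial.C (lam x) * g := by
  rw [lm_mul_inc, lm_C]

private theorem X10_eval2 {k K I : Type} [Field k] [Field K] [Algebra k K] (lam : K →ₗ[k] k) (π : K)
    (g : MvPolynomial I k) (c : Polynomial (MvPolynomial I k)) {Ω : Type} [Field Ω] [Algebra k Ω]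
    (z : I → Ω) (hz : ∀ j, MvPolynomial.aeval z (c.coeff j) = 0) :
    MvPolynomial.aeval z (lm lam (c.eval₂ (inc k K I) (MvPolynomial.C π * inc k K I g))) = 0 := by
  rw [Polynomial.eval₂_eq_sum_range, lm_sum, map_sum]
  refine Finset.sum_eq_zero fun j _ => ?_
  have h : inc k K I (c.coeff j) * (MvPolynomial.C π * inc k K I g) ^ j =
      MvPolynomial.C (π ^ j) * inc k K I (c.coeff j * g ^ j) := by
    rw [map_mul, map_pow, map_pow]
    ring
  rw [h, X10_cinc, map_mul, map_mul, hz j]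
  ring

private theorem X10_incX {k K I : Type} [Field k] [Field K] [Algebra k K] (v : I) :
    inc k K I (MvPolynomial.X v) = MvPolynomial.X v := by
  unfold inc
  exact MvPolynomial.map_X _ _

/-- a functional killing the gradient ideal -/
private theorem X10_u1 {k K : Type} [Field k] [Field K] [Algebra k K] (M : Mdl k K) {n m q : ℕ}
    (hn : 2 ≤ n) {F : MvPolynomial (Fin (n + 1)) M.O} {P : Fin (n + 1) → M.O} {ρ : M.O}
    (hρ : IN (gd F P) (ρ : K)) (T : Cmb M.O F P ρ m) (x : Fin q → M.O)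
    (Λ : Fin (n + 1) → Fin (n + 1) → MvPolynomial (Fin (n + 2)) M.O) (hΛ : PsiEq F P ρ Λ)
    (u : MvPolynomial (XI n q T.d T.N) M.O)
    (c : Fin m → Polynomial (MvPolynomial (XI n q T.d T.N) k)) (h : UC T x (psi F P ρ Λ) u c)
    (lam : K →ₗ[k] k) (hl : ∀ f, IN (gd F P) f → lam f = 0)
    {Ω : Type} [Field Ω] [Algebra k Ω] (z : XI n q T.d T.N → Ω)
    (hz : ∀ i j, MvPolynomial.aeval z ((c i).coeff j) = 0) :
    MvPolynomial.aeval z (lm lam (MvPolynomial.map (M.O.subtype : M.O →+* K) u)) = 0 := by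
  obtain ⟨kk, hkk⟩ := u_mem hn hρ T x Λ hΛ u c h
  have h1 := lm_zero_of lam _ (fun ν => hl _ (hkk ν))
  rw [lm_add, lm_sum] at h1
  have h2 := congrArg (MvPolynomial.aeval z) h1
  rw [map_zero, map_add, map_sum, Finset.sum_eq_zero, add_zero] at h2
  · exact h2
  · intro i _
    rw [lm_sum, map_sum]
    refine Finset.sum_eq_zero fun j _ => ?_
    rw [X10_cinc, map_mul, map_mul, hz i j]
    ring

/-- the values of `lm lam` of the whole form and of its regular part agree -/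
private theorem X10_uc {k K : Type} [Field k] [Field K] [Algebra k K] {O : Subalgebra k K} {n m q : ℕ}
    {F : MvPolynomial (Fin (n + 1)) O} {P : Fin (n + 1) → O} {ρ : O}
    (T : Cmb O F P ρ m) (x : Fin q → O) (Ψ : MvPolynomial (Fin (n + 2)) O)
    (u : MvPolynomial (XI n q T.d T.N) O)
    (c : Fin m → Polynomial (MvPolynomial (XI n q T.d T.N) k)) (h : UC T x Ψ u c)
    (lam : K →ₗ[k] k) {Ω : Type} [Field Ω] [Algebra k Ω] (z : XI n q T.d T.N → Ω)
    (hz : ∀ i j, MvPolynomial.aeval z ((c i).coeff j) = 0) :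
    MvPolynomial.aeval z (lm lam (pv ((MvPolynomial.C (R := K) (σ := XI n q T.d T.N)).comp
      (O.subtype : O →+* K)) Ψ (yy T.π x T.y))) =
      MvPolynomial.aeval z (lm lam (MvPolynomial.map (O.subtype : O →+* K) u)) := by
  rw [h.2.1, lm_add, map_add, lm_sum, map_sum, Finset.sum_eq_zero, add_zero]
  intro i _
  have h1 := X10_eval2 lam (T.π i) (MvPolynomial.X (Sum.inl i)) (c i) z (hz i)
  rw [X10_incX] at h1
  exact h1

/-- the partial derivatives of `psi` at `(1, 0, .., 0)` -/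
private theorem X10_pd {A S : Type} [CommRing A] [CommRing S] {n : ℕ}
    (F : MvPolynomial (Fin (n + 1)) A) (P : Fin (n + 1) → A) (ρ : A)
    (Λ : Fin (n + 1) → Fin (n + 1) → MvPolynomial (Fin (n + 2)) A) (φ : A →+* S)
    (a : Fin (n + 1)) :
    MvPolynomial.eval₂ φ (Fin.cons 1 0 : Fin (n + 2) → S)
      (MvPolynomial.pderiv a.succ (psi F P ρ Λ)) = φ (gd F P a) := by
  have hs : ∀ b : Fin (n + 1), (MvPolynomial.eval₂Hom φ (Fin.cons 1 0 : Fin (n + 2) → S))
      (MvPolynomial.X b.succ) = 0 := by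
    intro b
    rw [MvPolynomial.coe_eval₂Hom, MvPolynomial.eval₂_X, Fin.cons_succ]
    rfl
  have h0 : (MvPolynomial.eval₂Hom φ (Fin.cons 1 0 : Fin (n + 2) → S))
      (MvPolynomial.X 0) = 1 := by
    rw [MvPolynomial.coe_eval₂Hom, MvPolynomial.eval₂_X, Fin.cons_zero]
  have hC : ∀ b : A, (MvPolynomial.eval₂Hom φ (Fin.cons 1 0 : Fin (n + 2) → S))
      (MvPolynomial.C b) = φ b := by
    intro b
    rw [MvPolynomial.coe_eval₂Hom, MvPolynomial.eval₂_C]
  have hm : ∀ p q : MvPolynomial (Fin (n + 2)) A,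
      (MvPolynomial.eval₂Hom φ (Fin.cons 1 0 : Fin (n + 2) → S))
        (MvPolynomial.pderiv a.succ (p * q)) =
      (MvPolynomial.eval₂Hom φ (Fin.cons 1 0 : Fin (n + 2) → S)) (MvPolynomial.pderiv a.succ p) *
        (MvPolynomial.eval₂Hom φ (Fin.cons 1 0 : Fin (n + 2) → S)) q +
      (MvPolynomial.eval₂Hom φ (Fin.cons 1 0 : Fin (n + 2) → S)) p *
        (MvPolynomial.eval₂Hom φ (Fin.cons 1 0 : Fin (n + 2) → S))
          (MvPolynomial.pderiv a.succ q) := by
    intro p q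
    rw [MvPolynomial.pderiv_mul, map_add, map_mul, map_mul]
  rw [← MvPolynomial.coe_eval₂Hom]
  have hl : (MvPolynomial.eval₂Hom φ (Fin.cons 1 0 : Fin (n + 2) → S))
      (∑ b, MvPolynomial.C (gd F P b) * MvPolynomial.X b.succ) = 0 := by
    rw [map_sum]
    exact Finset.sum_eq_zero fun b _ => by rw [map_mul, hs, mul_zero]
  have hq : (MvPolynomial.eval₂Hom φ (Fin.cons 1 0 : Fin (n + 2) → S))
      (∑ b, ∑ c, MvPolynomial.X b.succ * MvPolynomial.X c.succ * Λ b c) = 0 := by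
    rw [map_sum]
    refine Finset.sum_eq_zero fun b _ => ?_
    rw [map_sum]
    exact Finset.sum_eq_zero fun c _ => by rw [map_mul, map_mul, hs, zero_mul, zero_mul]
  have hq' : (MvPolynomial.eval₂Hom φ (Fin.cons 1 0 : Fin (n + 2) → S))
      (MvPolynomial.pderiv a.succ
        (∑ b, ∑ c, MvPolynomial.X b.succ * MvPolynomial.X c.succ * Λ b c)) = 0 := by
    rw [map_sum, map_sum]
    refine Finset.sum_eq_zero fun b _ => ?_
    rw [map_sum, map_sum]
    refine Finset.sum_eq_zero fun c _ => ?_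
    rw [hm, hm, map_mul, hs, hs]
    ring
  have hl' : (MvPolynomial.eval₂Hom φ (Fin.cons 1 0 : Fin (n + 2) → S))
      (MvPolynomial.pderiv a.succ
        (∑ b, MvPolynomial.C (gd F P b) * MvPolynomial.X b.succ)) = φ (gd F P a) := by
    rw [map_sum, map_sum, Finset.sum_eq_single a]
    · rw [hm, MvPolynomial.pderiv_C, map_zero, zero_mul, zero_add, hC, MvPolynomial.pderiv_X_self,
        map_one, mul_one]
    · intro b _ hb
      rw [hm, MvPolynomial.pderiv_C, map_zero, zero_mul, zero_add, hC,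
        MvPolynomial.pderiv_X_of_ne (fun h => hb (Fin.succ_injective _ h)), map_zero, mul_zero]
    · intro h
      exact absurd (Finset.mem_univ a) h
  have hX : (MvPolynomial.eval₂Hom φ (Fin.cons 1 0 : Fin (n + 2) → S))
      (MvPolynomial.X 0 ^ (n - 1)) = 1 := by
    rw [map_pow, h0, one_pow]
  unfold psi
  rw [map_add, map_add, hm, hm, hl, hl', hq, hq', hX, mul_zero, mul_zero, mul_zero, zero_add,
    one_mul, zero_add, add_zero]

/-- the difference of the values of the form at `yy` and at `yy - w` -/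
private theorem X10_dif {k K : Type} [Field k] [Field K] [Algebra k K] {O : Subalgebra k K}
    {n m q : ℕ} {F : MvPolynomial (Fin (n + 1)) O} {P : Fin (n + 1) → O} {ρ : O}
    (T : Cmb O F P ρ m) (x : Fin q → O)
    (Λ : Fin (n + 1) → Fin (n + 1) → MvPolynomial (Fin (n + 2)) O)
    {q₁ : ℕ} (β : Fin q₁ → K) (κ : Fin q₁ → K →ₗ[k] k) :
    ∃ G : Fin (n + 1) → MvPolynomial (XI n q T.d T.N) K,
      (∀ a, MvPolynomial.eval (fun v => algebraMap k K (xz q T v)) (G a) = ((gd F P a : O) : K)) ∧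
      pv ((MvPolynomial.C (R := K) (σ := XI n q T.d T.N)).comp (O.subtype : O →+* K))
          (psi F P ρ Λ) (yy T.π x T.y) =
        pv ((MvPolynomial.C (R := K) (σ := XI n q T.d T.N)).comp (O.subtype : O →+* K))
          (psi F P ρ Λ) (fun a => yy T.π x T.y a -
            ∑ p, MvPolynomial.C (β p) * inc k K (XI n q T.d T.N) (eA T x κ (a, p))) +
        ∑ a, G a * ∑ p, MvPolynomial.C (β p) * inc k K (XI n q T.d T.N) (eA T x κ (a, p)) := by
  obtain ⟨D, hD1, hD2⟩ := exists_dif (psi F P ρ Λ)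
  set φ := (MvPolynomial.C (R := K) (σ := XI n q T.d T.N)).comp (O.subtype : O →+* K) with hφ
  set w : Fin (n + 1) → MvPolynomial (XI n q T.d T.N) K := fun a =>
    ∑ p, MvPolynomial.C (β p) * inc k K (XI n q T.d T.N) (eA T x κ (a, p)) with hw
  set v : Fin (n + 1) → MvPolynomial (XI n q T.d T.N) K := fun a => yy T.π x T.y a - w a with hv
  set V : Fin (n + 2) → MvPolynomial (XI n q T.d T.N) K := Fin.cons 1 v with hV
  set W : Fin (n + 2) → MvPolynomial (XI n q T.d T.N) K := Fin.cons 0 w with hW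
  refine ⟨fun a => MvPolynomial.eval₂ φ (Sum.elim V W) (D a.succ), ?_, ?_⟩
  · intro a
    set e : MvPolynomial (XI n q T.d T.N) K →+* K :=
      MvPolynomial.eval (fun v => algebraMap k K (xz q T v)) with he
    have hyy : ∀ a, e (yy T.π x T.y a) = 0 := fun a => yy_xz T x a
    have hinc : ∀ g : MvPolynomial (XI n q T.d T.N) k,
        e (inc k K (XI n q T.d T.N) g) = algebraMap k K (MvPolynomial.eval (xz q T) g) := by
      intro g
      rw [he]
      unfold inc
      rw [MvPolynomial.eval_map, ← MvPolynomial.eval₂_id, MvPolynomial.hom_eval₂]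
      rfl
    have hA : ∀ a p, MvPolynomial.eval (xz q T) (eA T x κ (a, p)) = 0 := by
      intro a p
      unfold eA
      rw [eval_lm, yy_xz, map_zero]
    have hwe : ∀ a, e (w a) = 0 := by
      intro a
      rw [hw]
      simp only
      rw [map_sum]
      exact Finset.sum_eq_zero fun p _ => by rw [map_mul, hinc, hA, map_zero, mul_zero]
    have hve : ∀ a, e (v a) = 0 := by
      intro a
      rw [hv]
      simp only
      rw [map_sub, hyy, hwe, sub_zero]
    have h1 : e (MvPolynomial.eval₂ φ (Sum.elim V W) (D a.succ)) =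
        MvPolynomial.eval₂ (O.subtype : O →+* K) (Sum.elim (Fin.cons 1 0 : Fin (n + 2) → K) 0)
          (D a.succ) := by
      rw [MvPolynomial.hom_eval₂]
      congr 1
      · rw [hφ]
        ext r
        simp [he]
      · funext s
        rcases s with s | s
        · refine Fin.cases ?_ (fun b => ?_) s
          · simp [hV]
          · simp only [Sum.elim_inl, hV, Fin.cons_succ]
            exact hve b
        · refine Fin.cases ?_ (fun b => ?_) s
          · simp [hW]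
          · simp only [Sum.elim_inr, hW, Fin.cons_succ]
            exact hwe b
    rw [h1, hD2, X10_pd]
    rfl
  · have h1 := hD1 _ φ V W
    have h2 : V + W = Fin.cons 1 (yy T.π x T.y) := by
      funext s
      refine Fin.cases ?_ (fun b => ?_) s
      · simp [hV, hW]
      · simp [hV, hW, hv]
    rw [h2, Fin.sum_univ_succ] at h1
    have h3 : W 0 = 0 := by rw [hW, Fin.cons_zero]
    rw [h3, mul_zero, zero_add, sub_eq_iff_eq_add] at h1
    unfold pv
    rw [h1, add_comm]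
    congr 1

/-- a functional killing `II` -/
private theorem X10_l2 {k K : Type} [Field k] [Field K] [Algebra k K] (M : Mdl k K) {n m q : ℕ}
    {F : MvPolynomial (Fin (n + 1)) M.O} {P : Fin (n + 1) → M.O} {ρ : M.O}
    (T : Cmb M.O F P ρ m) (x : Fin q → M.O)
    (Λ : Fin (n + 1) → Fin (n + 1) → MvPolynomial (Fin (n + 2)) M.O)
    (B : ℕ) (hB : ∀ v : Fin (n + 1) → MvPolynomial (XI n q T.d T.N) K,
      (∀ a ν, Inf M B (MvPolynomial.coeff ν (v a))) → ∀ ν, II M (gd F P) B (MvPolynomial.coeff ν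
        (pv ((MvPolynomial.C (R := K) (σ := XI n q T.d T.N)).comp (M.O.subtype : M.O →+* K))
          (psi F P ρ Λ) v)))
    {q₁ : ℕ} (β : Fin q₁ → K) (κ : Fin q₁ → K →ₗ[k] k)
    (hκ : ∀ a ν, Inf M B (MvPolynomial.coeff ν (yy (d := T.d) (N := T.N) T.π x T.y a -
      ∑ p, MvPolynomial.C (β p) * inc k K (XI n q T.d T.N) (eA T x κ (a, p)))))
    (G : Fin (n + 1) → MvPolynomial (XI n q T.d T.N) K)
    (hG : pv ((MvPolynomial.C (R := K) (σ := XI n q T.d T.N)).comp (M.O.subtype : M.O →+* K))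
          (psi F P ρ Λ) (yy T.π x T.y) =
        pv ((MvPolynomial.C (R := K) (σ := XI n q T.d T.N)).comp (M.O.subtype : M.O →+* K))
          (psi F P ρ Λ) (fun a => yy T.π x T.y a -
            ∑ p, MvPolynomial.C (β p) * inc k K (XI n q T.d T.N) (eA T x κ (a, p))) +
        ∑ a, G a * ∑ p, MvPolynomial.C (β p) * inc k K (XI n q T.d T.N) (eA T x κ (a, p)))
    (lam : K →ₗ[k] k) (hl : ∀ f, II M (gd F P) B f → lam f = 0) :
    lm lam (pv ((MvPolynomial.C (R := K) (σ := XI n q T.d T.N)).comp (M.O.subtype : M.O →+* K))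
          (psi F P ρ Λ) (yy T.π x T.y)) =
      ∑ j : Fin (n + 1) × Fin q₁, lm lam (MvPolynomial.C (β j.2) * G j.1) * eA T x κ j := by
  rw [hG, lm_add, lm_zero_of lam _ (fun ν => hl _ (hB _ hκ ν)), zero_add, lm_sum,
    Fintype.sum_prod_type]
  refine Finset.sum_congr rfl fun a _ => ?_
  rw [Finset.mul_sum, lm_sum]
  refine Finset.sum_congr rfl fun p _ => ?_
  rw [← lm_mul_inc]
  congr 1
  ring

theorem xsyz {k K : Type} [Field k] [Field K] [Algebra k K] (M : Mdl k K) {n m q : ℕ} (hn : 2 ≤ n)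
    {F : MvPolynomial (Fin (n + 1)) M.O} {P : Fin (n + 1) → M.O} {ρ : M.O}
    (hρ : IN (gd F P) (ρ : K)) (T : Cmb M.O F P ρ m) (x : Fin q → M.O)
    (Λ : Fin (n + 1) → Fin (n + 1) → MvPolynomial (Fin (n + 2)) M.O) (hΛ : PsiEq F P ρ Λ)
    (u : MvPolynomial (XI n q T.d T.N) M.O)
    (c : Fin m → Polynomial (MvPolynomial (XI n q T.d T.N) k)) (h : UC T x (psi F P ρ Λ) u c)
    (B : ℕ) (hB : ∀ v : Fin (n + 1) → MvPolynomial (XI n q T.d T.N) K,
      (∀ a ν, Inf M B (MvPolynomial.coeff ν (v a))) → ∀ ν, II M (gd F P) B (MvPolynomial.coeff ν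
        (pv ((MvPolynomial.C (R := K) (σ := XI n q T.d T.N)).comp (M.O.subtype : M.O →+* K))
          (psi F P ρ Λ) v)))
    {q₁ : ℕ} (β : Fin q₁ → K) (κ : Fin q₁ → K →ₗ[k] k)
    (hκ : ∀ a ν, Inf M B (MvPolynomial.coeff ν (yy (d := T.d) (N := T.N) T.π x T.y a -
      ∑ p, MvPolynomial.C (β p) * inc k K (XI n q T.d T.N) (eA T x κ (a, p)))))
    {q₃ : ℕ} (lam : Fin q₃ → K →ₗ[k] k) (hl1 : ∀ r f, IN (gd F P) f → lam r f = 0)
    (hl2 : ∀ r f, II M (gd F P) B f → lam r f = 0) :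
    ∃ E : Matrix (Fin q₃) (Fin (n + 1) × Fin q₁) (MvPolynomial (XI n q T.d T.N) k),
      (∀ r j, MvPolynomial.eval (xz q T) (E r j) = lam r (((gd F P j.1 : M.O) : K) * β j.2)) ∧
      ∀ (Ω : Type) [Field Ω] [Algebra k Ω] (z : XI n q T.d T.N → Ω),
        (∀ i j, MvPolynomial.aeval z ((c i).coeff j) = 0) →
        ∀ r, ∑ j, MvPolynomial.aeval z (E r j) * MvPolynomial.aeval z (eA T x κ j) = 0 := by
  obtain ⟨G, hG1, hG2⟩ := X10_dif T x Λ β κ
  refine ⟨fun r j => lm (lam r) (MvPolynomial.C (β j.2) * G j.1), ?_, ?_⟩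
  · intro r j
    rw [eval_lm, map_mul, MvPolynomial.eval_C, hG1, mul_comm]
  · intro Ω _ _ z hz r
    have h1 := X10_l2 M T x Λ B hB β κ hκ G hG2 (lam r) (hl2 r)
    have h2 := congrArg (MvPolynomial.aeval z) h1
    rw [X10_uc T x (psi F P ρ Λ) u c h (lam r) z hz,
      X10_u1 M hn hρ T x Λ hΛ u c h (lam r) (hl1 r) z hz, map_sum] at h2
    rw [h2]
    exact Finset.sum_congr rfl fun j _ => (map_mul _ _ _).symm

/-- all functionals vanish on the regular part at a common zero -/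
theorem u_zero {k K : Type} [Field k] [Field K] [Algebra k K] (M : Mdl k K) {n m q : ℕ}
    (hn : 2 ≤ n) {F : MvPolynomial (Fin (n + 1)) M.O} {P : Fin (n + 1) → M.O} {ρ : M.O}
    (hρ : IN (gd F P) (ρ : K)) (T : Cmb M.O F P ρ m) (x : Fin q → M.O)
    (Λ : Fin (n + 1) → Fin (n + 1) → MvPolynomial (Fin (n + 2)) M.O) (hΛ : PsiEq F P ρ Λ)
    (u : MvPolynomial (XI n q T.d T.N) M.O)
    (c : Fin m → Polynomial (MvPolynomial (XI n q T.d T.N) k)) (h : UC T x (psi F P ρ Λ) u c)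
    (B : ℕ) (hB : ∀ v : Fin (n + 1) → MvPolynomial (XI n q T.d T.N) K,
      (∀ a ν, Inf M B (MvPolynomial.coeff ν (v a))) → ∀ ν, II M (gd F P) B (MvPolynomial.coeff ν
        (pv ((MvPolynomial.C (R := K) (σ := XI n q T.d T.N)).comp (M.O.subtype : M.O →+* K))
          (psi F P ρ Λ) v)))
    {q₁ : ℕ} (β : Fin q₁ → K) (κ : Fin q₁ → K →ₗ[k] k)
    (hκ : ∀ a ν, Inf M B (MvPolynomial.coeff ν (yy (d := T.d) (N := T.N) T.π x T.y a -
      ∑ p, MvPolynomial.C (β p) * inc k K (XI n q T.d T.N) (eA T x κ (a, p)))))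
    {s₀ : ℕ} (μ : Fin s₀ → K →ₗ[k] k)
    (hμ : ∀ lam : K →ₗ[k] k, ∃ (c : Fin s₀ → k) (l₁ l₂ : K →ₗ[k] k),
      (∀ f, IN (gd F P) f → l₁ f = 0) ∧ (∀ f, II M (gd F P) B f → l₂ f = 0) ∧
        lam = ∑ i, c i • μ i + l₁ + l₂)
    {Ω : Type} [Field Ω] [Algebra k Ω] (z : XI n q T.d T.N → Ω)
    (hz : ∀ i j, MvPolynomial.aeval z ((c i).coeff j) = 0)
    (hzA : ∀ j, MvPolynomial.aeval z (eA T x κ j) = 0)
    (hzμ : ∀ r, MvPolynomial.aeval z (lm (μ r) (MvPolynomial.map (M.O.subtype : M.O →+* K) u)) = 0)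
    (lam : K →ₗ[k] k) :
    MvPolynomial.aeval z (lm lam (MvPolynomial.map (M.O.subtype : M.O →+* K) u)) = 0 := by
  obtain ⟨c', l₁, l₂, hl₁, hl₂, hlam⟩ := hμ lam
  obtain ⟨G, -, hG2⟩ := X10_dif T x Λ β κ
  have h1 := X10_u1 M hn hρ T x Λ hΛ u c h l₁ hl₁ z hz
  have h2 : MvPolynomial.aeval z (lm l₂ (MvPolynomial.map (M.O.subtype : M.O →+* K) u)) = 0 := by
    rw [← X10_uc T x (psi F P ρ Λ) u c h l₂ z hz, X10_l2 M T x Λ B hB β κ hκ G hG2 l₂ hl₂, map_sum]
    exact Finset.sum_eq_zero fun j _ => by rw [map_mul, hzA, mul_zero]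
  have h3 : ∀ s : Finset (Fin s₀), MvPolynomial.aeval z (lm (∑ i ∈ s, c' i • μ i)
      (MvPolynomial.map (M.O.subtype : M.O →+* K) u)) = 0 := by
    intro s
    induction s using Finset.induction_on with
    | empty =>
      rw [Finset.sum_empty, lm_zero_of _ _ (fun ν => rfl), map_zero]
    | insert i s hi ih =>
      rw [Finset.sum_insert hi, lm_add_left, map_add, ih, add_zero, lm_smul_left, map_mul, hzμ,
        mul_zero]
  rw [hlam, lm_add_left, lm_add_left, map_add, map_add, h3, h1, h2, add_zero, add_zero]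

end Q9
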