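import Pool.Agent.LibQ9.X1

/-!
[Q9 X10b] (MEDIUM; may cite X1 `pv_psi` as stated) At infinity the linear part of `Ψ` dominates.

PLAN. `s = t⁻¹ ∈ R`. Choose `a₀` with `Fd a₀ ≠ 0` (`Fd = gd F P`); `M.exh` for `(Fd a₀)⁻¹`: `(Fd a₀)⁻¹ s^c = r₀ ∈ R`, so `s^c = Fd a₀ r₀`. Choose `C₁` with `ρ s^(C₁)` and all coefficients of all `Λ a b` times `s^(C₁)` in `R` (finitely many; `s ∈ R`). `B = c + 2 C₁`. Let the coefficients of `v a` be in `s^B R`. X1 `pv_psi`: `pv = Σ_a C(Fd a) v_a + C ρ Σ_ab v_a v_b pv(Λ a b)(v)`.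
The coefficients of `pv (Λ a b) v` times `s^(C₁)` are in `R` (values of polynomials with coefficients in `s^(-C₁) R` at elements with coefficients in `R`, and `1`). So the coefficients of `g = C ρ Σ_ab v_a v_b pv(Λ a b)(v)` are in `s^(2B - 2 C₁) R = s^(B + c) R` i.e. `s^B (Fd a₀) r₀ R`: `Fd a₀ *` (element of `s^B R`). Together: coefficient `ν` of `pv` is `Σ_a Fd a * (coeff ν (v a) + [a = a₀] g')`.
-/

set_option autoImplicit false

namespace Q9

private def X10b_CR {k K : Type} [Field k] [Field K] [Algebra k K] (R : Subalgebra k K) {I : Type}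
    (g : MvPolynomial I K) : Prop := ∀ ν, MvPolynomial.coeff ν g ∈ R

private theorem X10b_C {k K : Type} [Field k] [Field K] [Algebra k K] (R : Subalgebra k K) {I : Type}
    (r : K) (hr : r ∈ R) : X10b_CR R (MvPolynomial.C r : MvPolynomial I K) := by
  classical
  intro ν
  rw [MvPolynomial.coeff_C]
  split_ifs
  · exact hr
  · exact R.zero_mem

private theorem X10b_mul {k K : Type} [Field k] [Field K] [Algebra k K] (R : Subalgebra k K)
    {I : Type} (f g : MvPolynomial I K) (hf : X10b_CR R f) (hg : X10b_CR R g) :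
    X10b_CR R (f * g) := by
  classical
  intro ν
  rw [MvPolynomial.coeff_mul]
  exact R.sum_mem fun x _ => R.mul_mem (hf _) (hg _)

private theorem X10b_pow {k K : Type} [Field k] [Field K] [Algebra k K] (R : Subalgebra k K)
    {I : Type} (f : MvPolynomial I K) (hf : X10b_CR R f) (m : ℕ) : X10b_CR R (f ^ m) := by
  induction m with
  | zero =>
    rw [pow_zero, ← MvPolynomial.C_1]
    exact X10b_C R 1 R.one_mem
  | succ m ih =>
    rw [pow_succ]
    exact X10b_mul R _ _ ih hf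

private theorem X10b_sum {k K : Type} [Field k] [Field K] [Algebra k K] (R : Subalgebra k K)
    {I J : Type} (S : Finset J) (f : J → MvPolynomial I K) (hf : ∀ j ∈ S, X10b_CR R (f j)) :
    X10b_CR R (∑ j ∈ S, f j) := by
  intro ν
  rw [MvPolynomial.coeff_sum]
  exact R.sum_mem fun j hj => hf j hj ν

private theorem X10b_prod {k K : Type} [Field k] [Field K] [Algebra k K] (R : Subalgebra k K)
    {I J : Type} (S : Finset J) (f : J → MvPolynomial I K) (hf : ∀ j ∈ S, X10b_CR R (f j)) :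
    X10b_CR R (∏ j ∈ S, f j) := by
  classical
  induction S using Finset.induction_on with
  | empty =>
    rw [Finset.prod_empty, ← MvPolynomial.C_1]
    exact X10b_C R 1 R.one_mem
  | insert j S hj ih =>
    rw [Finset.prod_insert hj]
    exact X10b_mul R _ _ (hf j (Finset.mem_insert_self _ _))
      (ih fun i hi => hf i (Finset.mem_insert_of_mem hi))

private theorem X10b_exh {k K : Type} [Field k] [Field K] [Algebra k K] (M : Mdl k K)
    (S : Finset K) : ∃ C : ℕ, ∀ f ∈ S, f * (M.t : K)⁻¹ ^ C ∈ M.R := by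
  classical
  induction S using Finset.induction_on with
  | empty => exact ⟨0, fun f hf => absurd hf (Finset.notMem_empty f)⟩
  | insert a S ha ih =>
    obtain ⟨C, hC⟩ := ih
    obtain ⟨D, hD⟩ := M.exh a
    refine ⟨C + D, fun f hf => ?_⟩
    rcases Finset.mem_insert.mp hf with rfl | hf
    · have h : f * (M.t : K)⁻¹ ^ (C + D) = f * (M.t : K)⁻¹ ^ D * (M.t : K)⁻¹ ^ C := by ring
      rw [h]
      exact M.R.mul_mem hD (M.R.pow_mem M.s_mem C)
    · have h : f * (M.t : K)⁻¹ ^ (C + D) = f * (M.t : K)⁻¹ ^ C * (M.t : K)⁻¹ ^ D := by ring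
      rw [h]
      exact M.R.mul_mem (hC f hf) (M.R.pow_mem M.s_mem D)

private theorem X10b_pv {k K : Type} [Field k] [Field K] [Algebra k K] (O R : Subalgebra k K)
    {n : ℕ} {I : Type} (Λ : MvPolynomial (Fin (n + 2)) O) (s : K)
    (hs : ∀ μ ∈ Λ.support, ((MvPolynomial.coeff μ Λ : O) : K) * s ∈ R)
    (v : Fin (n + 1) → MvPolynomial I K) (hv : ∀ a, X10b_CR R (v a)) :
    X10b_CR R (MvPolynomial.C s *
      pv ((MvPolynomial.C (R := K) (σ := I)).comp (O.subtype : O →+* K)) Λ v) := by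
  unfold pv
  rw [MvPolynomial.eval₂_eq', Finset.mul_sum]
  refine X10b_sum R _ _ fun μ hμ => ?_
  have h1 : MvPolynomial.C s * (((MvPolynomial.C (R := K) (σ := I)).comp (O.subtype : O →+* K))
      (MvPolynomial.coeff μ Λ) * ∏ i, (Fin.cons 1 v : Fin (n + 2) → MvPolynomial I K) i ^ μ i) =
      MvPolynomial.C (((MvPolynomial.coeff μ Λ : O) : K) * s) *
        ∏ i, (Fin.cons 1 v : Fin (n + 2) → MvPolynomial I K) i ^ μ i := by
    rw [MvPolynomial.C_mul]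
    change MvPolynomial.C s * (MvPolynomial.C ((MvPolynomial.coeff μ Λ : O) : K) * _) = _
    ring
  rw [h1]
  refine X10b_mul R _ _ (X10b_C R _ (hs μ hμ)) (X10b_prod R _ _ fun i _ => X10b_pow R _ ?_ _)
  refine Fin.cases ?_ (fun a => ?_) i
  · rw [Fin.cons_zero, ← MvPolynomial.C_1]
    exact X10b_C R 1 R.one_mem
  · rw [Fin.cons_succ]
    exact hv a

theorem psi_inf {k K : Type} [Field k] [Field K] [Algebra k K] (M : Mdl k K) {n : ℕ}
    (F : MvPolynomial (Fin (n + 1)) M.O) (P : Fin (n + 1) → M.O) (ρ : M.O)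
    (Λ : Fin (n + 1) → Fin (n + 1) → MvPolynomial (Fin (n + 2)) M.O) (h0 : ∃ a, gd F P a ≠ 0) :
    ∃ B : ℕ, ∀ (I : Type) (v : Fin (n + 1) → MvPolynomial I K),
      (∀ a ν, Inf M B (MvPolynomial.coeff ν (v a))) →
      ∀ ν, II M (gd F P) B (MvPolynomial.coeff ν
        (pv ((MvPolynomial.C (R := K) (σ := I)).comp (M.O.subtype : M.O →+* K))
          (psi F P ρ Λ) v)) := by
  classical
  obtain ⟨a₀, ha₀⟩ := h0
  have ha₀' : ((gd F P a₀ : M.O) : K) ≠ 0 := fun h => ha₀ (Subtype.ext h)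
  have ht : (M.t : K) ≠ 0 := by
    have := (M.inv 0).1
    rwa [map_zero] at this
  obtain ⟨c, hc⟩ := M.exh ((gd F P a₀ : M.O) : K)⁻¹
  obtain ⟨C₁, hC₁⟩ := X10b_exh M (insert (ρ : K) (Finset.univ.biUnion fun ab : Fin (n + 1) ×
    Fin (n + 1) => (Λ ab.1 ab.2).support.image fun μ => ((MvPolynomial.coeff μ (Λ ab.1 ab.2) : M.O) : K)))
  have hρ : (ρ : K) * (M.t : K)⁻¹ ^ C₁ ∈ M.R := hC₁ _ (Finset.mem_insert_self _ _)
  have hΛ : ∀ a b, ∀ μ ∈ (Λ a b).support,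
      ((MvPolynomial.coeff μ (Λ a b) : M.O) : K) * (M.t : K)⁻¹ ^ C₁ ∈ M.R := by
    intro a b μ hμ
    refine hC₁ _ (Finset.mem_insert_of_mem (Finset.mem_biUnion.mpr ⟨(a, b), Finset.mem_univ _, ?_⟩))
    exact Finset.mem_image.mpr ⟨μ, hμ, rfl⟩
  refine ⟨c + 2 * C₁, fun I v hv ν => ?_⟩
  set B : ℕ := c + 2 * C₁ with hB
  have hts : ∀ m : ℕ, (M.t : K) ^ m * (M.t : K)⁻¹ ^ m = 1 := fun m => by
    rw [← mul_pow, mul_inv_cancel₀ ht, one_pow]
  have hvR : ∀ a, X10b_CR M.R (v a) := by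
    intro a ν
    obtain ⟨r, hr, h⟩ := hv a ν
    rw [h]
    exact M.R.mul_mem hr (M.R.pow_mem M.s_mem B)
  have hv' : ∀ a, X10b_CR M.R (MvPolynomial.C ((M.t : K) ^ B) * v a) := by
    intro a ν
    obtain ⟨r, hr, h⟩ := hv a ν
    rw [MvPolynomial.coeff_C_mul, h]
    have h1 : (M.t : K) ^ B * (r * (M.t : K)⁻¹ ^ B) = r * ((M.t : K) ^ B * (M.t : K)⁻¹ ^ B) := by
      ring
    rw [h1, hts, mul_one]
    exact hr
  have hG : ∀ a b, X10b_CR M.R (MvPolynomial.C ((M.t : K)⁻¹ ^ C₁) *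
      pv ((MvPolynomial.C (R := K) (σ := I)).comp (M.O.subtype : M.O →+* K)) (Λ a b) v) :=
    fun a b => X10b_pv M.O M.R (Λ a b) _ (hΛ a b) v hvR
  rw [pv_psi]
  have hφ : ∀ f : M.O, ((MvPolynomial.C (R := K) (σ := I)).comp (M.O.subtype : M.O →+* K)) f =
      MvPolynomial.C (f : K) := fun f => rfl
  rw [hφ, MvPolynomial.coeff_add, MvPolynomial.coeff_sum]
  set g : MvPolynomial I K := MvPolynomial.C (ρ : K) * ∑ a, ∑ b, v a * v b *
    pv ((MvPolynomial.C (R := K) (σ := I)).comp (M.O.subtype : M.O →+* K)) (Λ a b) v with hg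
  have h1 : MvPolynomial.C ((M.t : K) ^ B * (M.t : K) ^ B * ((M.t : K)⁻¹ ^ C₁ * (M.t : K)⁻¹ ^ C₁)) *
      g = MvPolynomial.C ((ρ : K) * (M.t : K)⁻¹ ^ C₁) * ∑ a, ∑ b,
        (MvPolynomial.C ((M.t : K) ^ B) * v a) * (MvPolynomial.C ((M.t : K) ^ B) * v b) *
        (MvPolynomial.C ((M.t : K)⁻¹ ^ C₁) *
          pv ((MvPolynomial.C (R := K) (σ := I)).comp (M.O.subtype : M.O →+* K)) (Λ a b) v) := by
    rw [hg]
    simp only [Finset.mul_sum, MvPolynomial.C_mul]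
    refine Finset.sum_congr rfl fun a _ => Finset.sum_congr rfl fun b _ => ?_
    ring
  have h2 : X10b_CR M.R (MvPolynomial.C ((M.t : K) ^ B * (M.t : K) ^ B *
      ((M.t : K)⁻¹ ^ C₁ * (M.t : K)⁻¹ ^ C₁)) * g) := by
    rw [h1]
    exact X10b_mul _ _ _ (X10b_C _ _ hρ) (X10b_sum _ _ _ fun a _ => X10b_sum _ _ _ fun b _ =>
      X10b_mul _ _ _ (X10b_mul _ _ _ (hv' a) (hv' b)) (hG a b))
  have h3 := h2 ν
  rw [MvPolynomial.coeff_C_mul] at h3
  set r : K := (M.t : K) ^ B * (M.t : K) ^ B * ((M.t : K)⁻¹ ^ C₁ * (M.t : K)⁻¹ ^ C₁) *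
    MvPolynomial.coeff ν g with hr
  have h4 : MvPolynomial.coeff ν g = ((gd F P a₀ : M.O) : K) *
      (((gd F P a₀ : M.O) : K)⁻¹ * (M.t : K)⁻¹ ^ c * r * (M.t : K)⁻¹ ^ B) := by
    have h5 : (M.t : K)⁻¹ ^ B = (M.t : K)⁻¹ ^ c * ((M.t : K)⁻¹ ^ C₁ * (M.t : K)⁻¹ ^ C₁) := by
      rw [hB, pow_add, two_mul, pow_add]
    have h6 : ((gd F P a₀ : M.O) : K) * (((gd F P a₀ : M.O) : K)⁻¹ * (M.t : K)⁻¹ ^ c * r * (M.t : K)⁻¹ ^ B) =
        (((gd F P a₀ : M.O) : K) * ((gd F P a₀ : M.O) : K)⁻¹) * ((M.t : K) ^ B * (M.t : K)⁻¹ ^ B) * ((M.t : K) ^ B *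
          ((M.t : K)⁻¹ ^ c * ((M.t : K)⁻¹ ^ C₁ * (M.t : K)⁻¹ ^ C₁))) * MvPolynomial.coeff ν g := by
      rw [hr]
      ring
    rw [h6, mul_inv_cancel₀ ha₀', hts, ← h5, hts, one_mul, one_mul, one_mul]
  choose ra hra using fun a => hv a ν
  refine ⟨fun a => MvPolynomial.coeff ν (v a) + if a = a₀ then
    ((gd F P a₀ : M.O) : K)⁻¹ * (M.t : K)⁻¹ ^ c * r * (M.t : K)⁻¹ ^ B else 0, fun a => ?_, ?_⟩
  · refine ⟨ra a + if a = a₀ then ((gd F P a₀ : M.O) : K)⁻¹ * (M.t : K)⁻¹ ^ c * r else 0, ?_, ?_⟩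
    · refine M.R.add_mem (hra a).1 ?_
      split_ifs
      · exact M.R.mul_mem hc h3
      · exact M.R.zero_mem
    · beta_reduce
      rw [(hra a).2, add_mul]
      split_ifs
      · rfl
      · rw [zero_mul]
  · have h7 : ∑ a, ((gd F P a : M.O) : K) * (MvPolynomial.coeff ν (v a) + if a = a₀ then
        ((gd F P a₀ : M.O) : K)⁻¹ * (M.t : K)⁻¹ ^ c * r * (M.t : K)⁻¹ ^ B else 0) =
        ∑ a, ((gd F P a : M.O) : K) * MvPolynomial.coeff ν (v a) + ((gd F P a₀ : M.O) : K) *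
          (((gd F P a₀ : M.O) : K)⁻¹ * (M.t : K)⁻¹ ^ c * r * (M.t : K)⁻¹ ^ B) := by
      simp only [mul_add, Finset.sum_add_distrib, mul_ite, mul_zero]
      rw [Finset.sum_ite_eq' Finset.univ a₀, if_pos (Finset.mem_univ _)]
    rw [h7, ← h4]
    congr 1
    exact Finset.sum_congr rfl fun a _ => by rw [hφ, MvPolynomial.coeff_C_mul]

end Q9
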