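import Pool.Agent.LibQ9.X2Defs

/-!
[Q9 X13b] (MEDIUM; only X2Defs) The derivative of the equations of a tooth with respect to the unknowns of the tooth.

PLAN. Third clause of `UC` with `R = k[ε]`, `ε² = 0` (`DualNumber k` or `TrivSqZeroExt k k`), `z v = xz v + ε δ v` (`z (inl i) = 0` as `δ (inl i) = 0`): `ev_i ρ * aeval z ((c i).coeff j) = (aeval (tz T x z i) F_i).coeff j`. `tz T x z i = τ_i + ε ρ_i Σ_l δ(i,a,l) X^(l+1)` (`δ (inr (inl _)) = 0`; `tz` at `xz` is `τ_i` by `T.τ0`, `T.top`, `T.mid`, `T.on`). Taylor: `F_i(τ + ε w) = F_i(τ) + ε grad F_i τ w`; compare the coefficients of `ε` and divide by `ev_i ρ`.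
(`aeval (xz + ε δ) f = eval xz f + ε Σ_v eval xz (pderiv v f) δ v`.) Dual numbers over `k` for the coefficients, polynomials over them for `tz`; or avoid dual numbers: take `R = k[X]`, `z = xz + X δ`, and compare the coefficients of `X^1` on both sides.
-/

set_option autoImplicit false

namespace Q9

open Polynomial

private theorem X13b_taylor {k : Type} [Field k] {I : Type} [Fintype I] {B : Type} [CommRing B]
    [Algebra k B] (f : MvPolynomial I k) (p w : I → B) (ε : B) :
    ∃ r : B, MvPolynomial.aeval (fun v => p v + ε * w v) f = MvPolynomial.aeval p f +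
      ε * ∑ v, MvPolynomial.aeval p (MvPolynomial.pderiv v f) * w v + ε ^ 2 * r := by
  classical
  induction f using MvPolynomial.induction_on with
  | C a => exact ⟨0, by simp⟩
  | add f g hf hg =>
    obtain ⟨r, hr⟩ := hf
    obtain ⟨s, hs⟩ := hg
    refine ⟨r + s, ?_⟩
    simp only [map_add, add_mul, Finset.sum_add_distrib, hr, hs]
    ring
  | mul_X f i hf =>
    obtain ⟨r, hr⟩ := hf
    have h1 : ∑ v, MvPolynomial.aeval p (MvPolynomial.pderiv v (f * MvPolynomial.X i)) * w v =
        (∑ v, MvPolynomial.aeval p (MvPolynomial.pderiv v f) * w v) * p i +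
          MvPolynomial.aeval p f * w i := by
      have h2 : ∀ v, MvPolynomial.aeval p (MvPolynomial.pderiv v (f * MvPolynomial.X i)) * w v =
          MvPolynomial.aeval p (MvPolynomial.pderiv v f) * w v * p i +
            (if v = i then MvPolynomial.aeval p f * w i else 0) := by
        intro v
        rw [Derivation.leibniz, MvPolynomial.pderiv_X]
        by_cases hv : v = i
        · subst hv
          simp only [Pi.single_eq_same, smul_eq_mul, map_add, map_mul, map_one,
            MvPolynomial.aeval_X, if_true]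
          ring
        · have hv' : (Pi.single v (1 : MvPolynomial I k) : I → MvPolynomial I k) i = 0 := by
            rw [Pi.single_eq_of_ne (fun h => hv h.symm)]
          rw [if_neg hv]
          simp only [hv', smul_eq_mul, map_add, map_mul, map_zero, MvPolynomial.aeval_X]
          ring
      rw [Finset.sum_congr rfl fun v _ => h2 v, Finset.sum_add_distrib, Finset.sum_mul]
      simp
    refine ⟨r * (p i + ε * w i) +
      (∑ v, MvPolynomial.aeval p (MvPolynomial.pderiv v f) * w v) * w i, ?_⟩
    rw [h1, map_mul, map_mul, hr, MvPolynomial.aeval_X, MvPolynomial.aeval_X]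
    ring

private theorem X13b_coeff1 (k : Type) [Field k] (I : Type) [Fintype I] (f : MvPolynomial I k)
    (w δ : I → k) :
    (MvPolynomial.aeval (fun v => (C (w v) : k[X]) + X * C (δ v)) f).coeff 1 =
      ∑ v, MvPolynomial.eval w (MvPolynomial.pderiv v f) * δ v := by
  obtain ⟨r, hr⟩ := X13b_taylor f (fun v => (C (w v) : k[X])) (fun v => C (δ v)) X
  have h1 : ∀ g : MvPolynomial I k, MvPolynomial.aeval (fun v => (C (w v) : k[X])) g =
      C (MvPolynomial.eval w g) := by
    intro g
    induction g using MvPolynomial.induction_on with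
    | C a => simp [Polynomial.algebraMap_eq]
    | add f g hf hg => simp [hf, hg]
    | mul_X f i hf => simp [hf]
  have h2 : ∑ v, MvPolynomial.aeval (fun v => (C (w v) : k[X])) (MvPolynomial.pderiv v f) * C (δ v) =
      (C (∑ v, MvPolynomial.eval w (MvPolynomial.pderiv v f) * δ v) : k[X]) := by
    rw [map_sum]
    exact Finset.sum_congr rfl fun v _ => by rw [h1, C_mul]
  rw [hr, h1, h2, coeff_add, coeff_add, coeff_C, if_neg one_ne_zero, zero_add, coeff_X_mul,
    coeff_C_zero, pow_two, mul_assoc, coeff_X_mul, coeff_X_mul_zero, add_zero]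

private theorem X13b_map {k : Type} [Field k] {n : ℕ} (F : MvPolynomial (Fin (n + 1)) k)
    (τ w : Fin (n + 1) → k[X]) (j : ℕ) :
    ((MvPolynomial.aeval (fun a => (τ a).map (C : k →+* k[X]) + C X * (w a).map (C : k →+* k[X]))
      F).coeff j).coeff 1 = (grad F τ w).coeff j := by
  obtain ⟨r, hr⟩ := X13b_taylor F (fun a => (τ a).map (C : k →+* k[X]))
    (fun a => (w a).map (C : k →+* k[X])) (C X : k[X][X])
  have h1 : ∀ g : MvPolynomial (Fin (n + 1)) k,
      MvPolynomial.aeval (fun a => (τ a).map (C : k →+* k[X])) g =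
      (MvPolynomial.aeval τ g).map (C : k →+* k[X]) := by
    intro g
    induction g using MvPolynomial.induction_on with
    | C a => simp [IsScalarTower.algebraMap_apply k k[X] k[X][X], Polynomial.algebraMap_eq]
    | add f g hf hg => simp [hf, hg]
    | mul_X f i hf => simp [hf]
  have h2 : ∑ v, MvPolynomial.aeval (fun a => (τ a).map (C : k →+* k[X]))
      (MvPolynomial.pderiv v F) * (w v).map (C : k →+* k[X]) =
      (grad F τ w).map (C : k →+* k[X]) := by
    unfold grad
    rw [Polynomial.map_sum]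
    exact Finset.sum_congr rfl fun v _ => by rw [h1, Polynomial.map_mul]
  have h3 : (Polynomial.map (C : k →+* k[X]) (MvPolynomial.aeval τ F) + C X *
      (grad F τ w).map (C : k →+* k[X]) + C X ^ 2 * r).coeff j =
      C ((MvPolynomial.aeval τ F).coeff j) + X * C ((grad F τ w).coeff j) + X ^ 2 * r.coeff j := by
    rw [← C_pow, coeff_add, coeff_add, coeff_C_mul, coeff_C_mul, coeff_map, coeff_map]
  rw [hr, h1, h2, h3, coeff_add, coeff_add, coeff_C, if_neg one_ne_zero, zero_add, coeff_X_mul,
    coeff_C_zero, pow_two, mul_assoc, coeff_X_mul, coeff_X_mul_zero, add_zero]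

private theorem X13b_tau {k : Type} [Field k] (d N : ℕ) (hN : N ≤ d) (τ : k[X])
    (hτ : τ.natDegree ≤ d) (p r y : k) (hr : r ≠ 0) (h0 : τ.coeff 0 = p)
    (ht : 1 ≤ N → τ.coeff d = r * y) (hm : ∀ l, 1 ≤ l → l < N → τ.coeff (d - l) = 0) :
    τ = C p + C r * (∑ l : Fin (d - N), C (r⁻¹ * τ.coeff ((l : ℕ) + 1)) * X ^ ((l : ℕ) + 1) +
      if 1 ≤ N then C y * X ^ d else 0) := by
  ext m
  have hs : (∑ l : Fin (d - N), C (r⁻¹ * τ.coeff ((l : ℕ) + 1)) * X ^ ((l : ℕ) + 1)).coeff m =
      if 1 ≤ m ∧ m ≤ d - N then r⁻¹ * τ.coeff m else 0 := by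
    rw [finsetSum_coeff]
    simp only [coeff_C_mul, coeff_X_pow]
    split_ifs with hc
    · rw [Finset.sum_eq_single (⟨m - 1, by omega⟩ : Fin (d - N))]
      · have : m - 1 + 1 = m := by omega
        simp [this]
      · intro l _ hl
        rw [if_neg, mul_zero]
        intro h
        apply hl
        ext
        simp only
        omega
      · intro h
        exact absurd (Finset.mem_univ _) h
    · apply Finset.sum_eq_zero
      intro l _
      rw [if_neg, mul_zero]
      intro h
      apply hc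
      have := l.2
      omega
  rw [coeff_add, coeff_C, coeff_C_mul, coeff_add, hs]
  rcases Nat.eq_zero_or_pos m with rfl | hm0
  · rw [if_pos rfl, if_neg (by omega), h0, zero_add]
    split_ifs with h1
    · rw [coeff_C_mul, coeff_X_pow, if_neg (by omega), mul_zero, mul_zero, add_zero]
    · simp
  · rw [if_neg (by omega), zero_add]
    by_cases h1 : m ≤ d - N
    · rw [if_pos ⟨hm0, h1⟩]
      have h2 : (if 1 ≤ N then C y * X ^ d else (0 : k[X])).coeff m = 0 := by
        split_ifs with h3
        · rw [coeff_C_mul, coeff_X_pow, if_neg (by omega), mul_zero]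
        · simp
      rw [h2, add_zero, mul_inv_cancel_left₀ hr]
    · rw [if_neg (fun h => h1 h.2), zero_add]
      by_cases h3 : 1 ≤ N
      · rw [if_pos h3, coeff_C_mul, coeff_X_pow]
        rcases lt_trichotomy m d with h4 | h4 | h4
        · rw [if_neg (by omega), mul_zero, mul_zero]
          have h5 := hm (d - m) (by omega) (by omega)
          rwa [show d - (d - m) = m by omega] at h5
        · rw [if_pos h4, mul_one, h4, ht h3]
        · rw [if_neg (by omega), mul_zero, mul_zero]
          exact coeff_eq_zero_of_natDegree_lt (by omega)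
      · rw [if_neg h3]
        simp only [coeff_zero, mul_zero]
        exact coeff_eq_zero_of_natDegree_lt (by omega)

theorem d_c {k K : Type} [Field k] [Field K] [Algebra k K] {O : Subalgebra k K} {n m q : ℕ}
    {F : MvPolynomial (Fin (n + 1)) O} {P : Fin (n + 1) → O} {ρ : O} (T : Cmb O F P ρ m)
    (x : Fin q → O) (Ψ : MvPolynomial (Fin (n + 2)) O) (u : MvPolynomial (XI n q T.d T.N) O)
    (c : Fin m → Polynomial (MvPolynomial (XI n q T.d T.N) k)) (h : UC T x Ψ u c)
    (δ : XI n q T.d T.N → k) (he : ∀ i, δ (Sum.inl i) = 0) (hξ : ∀ b, δ (Sum.inr (Sum.inl b)) = 0)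
    (i : Fin m) (j : ℕ) (hj : 1 ≤ j) :
    ∑ v, MvPolynomial.eval (xz q T) (MvPolynomial.pderiv v ((c i).coeff j)) * δ v =
      (grad (MvPolynomial.map (T.ev i : O →+* k) F) (T.τ i) (fun a =>
        ∑ l : Fin (T.d i - T.N i), C (δ (Sum.inr (Sum.inr ⟨i, (a, l)⟩))) *
          X ^ ((l : ℕ) + 1))).coeff j := by
  classical
  have hρ := T.ρ0 i
  have h3 := h.2.2 k[X] (fun v => (C (xz q T v) : k[X]) + X * C (δ v)) (by
    intro i'
    rw [he i']
    simp [xz]) i j hj
  have h4 : tz T x (fun v => (C (xz q T v) : k[X]) + X * C (δ v)) i =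
      fun a => (T.τ i a).map (C : k →+* k[X]) + C X * ((C (T.ev i ρ) *
        ∑ l : Fin (T.d i - T.N i), C (δ (Sum.inr (Sum.inr ⟨i, (a, l)⟩))) *
          X ^ ((l : ℕ) + 1)).map (C : k →+* k[X])) := by
    funext a
    have h5 := X13b_tau (T.d i) (T.N i) (T.hN i) (T.τ i a) ((T.on i).1 a) (T.ev i (P a)) (T.ev i ρ)
      (T.y i a 0) hρ (T.τ0 i a) (T.top i a) (T.mid i a)
    have h6 : (T.τ i a).map (C : k →+* k[X]) = C (C (T.ev i (P a))) + C (C (T.ev i ρ)) *
        (∑ l : Fin (T.d i - T.N i), C (C ((T.ev i ρ)⁻¹ * (T.τ i a).coeff ((l : ℕ) + 1))) *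
          X ^ ((l : ℕ) + 1) + if 1 ≤ T.N i then C (C (T.y i a 0)) * X ^ T.d i else 0) := by
      conv_lhs => rw [h5]
      rw [Polynomial.map_add, Polynomial.map_mul, Polynomial.map_add, Polynomial.map_sum,
        Polynomial.map_C, Polynomial.map_C]
      congr 3
      · exact Finset.sum_congr rfl fun l _ => by
          rw [Polynomial.map_mul, Polynomial.map_C, Polynomial.map_pow, Polynomial.map_X]
      · split_ifs
        · rw [Polynomial.map_mul, Polynomial.map_C, Polynomial.map_pow, Polynomial.map_X]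
        · rw [Polynomial.map_zero]
    have h7 : ∑ b, algebraMap k k[X] (T.ev i (x b)) *
        ((C (xz q T (Sum.inr (Sum.inl (a, b)))) : k[X]) + X * C (δ (Sum.inr (Sum.inl (a, b))))) =
        0 := by
      apply Finset.sum_eq_zero
      intro b _
      rw [hξ (a, b)]
      simp [xz]
    unfold tz
    rw [h6, h7, Polynomial.map_mul, Polynomial.map_sum, Polynomial.map_C]
    simp only [Polynomial.algebraMap_eq, map_zero, zero_add, Polynomial.map_mul, Polynomial.map_C,
      Polynomial.map_pow, Polynomial.map_X, xz, map_add, add_mul, Finset.sum_add_distrib, map_mul]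
    have h8 : ∑ l : Fin (T.d i - T.N i), (C X : k[X][X]) *
          C (C (δ (Sum.inr (Sum.inr ⟨i, (a, l)⟩)))) * X ^ ((l : ℕ) + 1) =
        C X * ∑ l : Fin (T.d i - T.N i), C (C (δ (Sum.inr (Sum.inr ⟨i, (a, l)⟩)))) *
          X ^ ((l : ℕ) + 1) := by
      rw [Finset.mul_sum]
      exact Finset.sum_congr rfl fun l _ => by ring
    rw [h8]
    ring
  rw [h4] at h3
  have h9 := congrArg (fun g : k[X] => g.coeff 1) h3
  change (_ : k[X]).coeff 1 = (_ : k[X]).coeff 1 at h9
  rw [X13b_map, Polynomial.algebraMap_eq, coeff_C_mul, X13b_coeff1] at h9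
  have h10 : grad (MvPolynomial.map (T.ev i : O →+* k) F) (T.τ i) (fun a => C (T.ev i ρ) *
        ∑ l : Fin (T.d i - T.N i), C (δ (Sum.inr (Sum.inr ⟨i, (a, l)⟩))) *
          X ^ ((l : ℕ) + 1)) = C (T.ev i ρ) *
      grad (MvPolynomial.map (T.ev i : O →+* k) F) (T.τ i) (fun a =>
        ∑ l : Fin (T.d i - T.N i), C (δ (Sum.inr (Sum.inr ⟨i, (a, l)⟩))) *
          X ^ ((l : ℕ) + 1)) := by
    unfold grad
    rw [Finset.mul_sum]
    exact Finset.sum_congr rfl fun a _ => by ring
  rw [h10, coeff_C_mul] at h9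
  exact mul_left_cancel₀ hρ h9

end Q9
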