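import Pool.Agent.LibQ9.XDefs

/-!
[Q9 X14a] (MEDIUM; only XDefs; linear algebra) Teeth in `S` realise every class at infinity and every value of `μ`.

PLAN. `s = t⁻¹ ∈ R`. `g = Σ_j C(γ j - μ_j(f₁)) r_j`: in `IN` and in `II` (`hr`; both are closed under sums and constants: `algebraMap k K c ∈ O`, `∈ R`). `f₁' = f₁ + g = Σ_a Fd a β'_a` (`β'_a ∈ O`), `f₂' = f₂ - g = Σ_a Fd a v_a` (`v_a ∈ s^B R`); `μ_j(f₁') = γ j` (`hμ`).
`w_a = Σ_p α(a,p) β_p - v_a - β'_a`: `Σ_a Fd a w_a = f₁ + f₂ - f₂' - f₁' = 0` (`hα`: split `Σ_j` over `Fin (n+1) × Fin q₁`, `Fintype.sum_prod_type`). `hS w`: `w_a = α'_a + r'_a + Σ_i (e_i σ_ia) π_i`, `e_i = 0` for `i ∉ S`, `r'_a ∈ s^B R`, `Σ Fd_a r'_a = 0`.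
`D_a = β'_a + α'_a + Σ_i (e_i σ_ia) π_i = Σ_p α(a,p) β_p - v_a - r'_a`. `κ_p(D_a) = α(a,p)` (`hκβ`, `hκ0`). `Σ_a Fd a D_a = Σ_a Fd a β'_a + Σ_a Fd a (w_a - r'_a) = f₁'`, so `μ_j` of it is `γ j`. `(β'_a + α'_a) s^C ∈ R`: it is `D_a - Σ_i (e_i σ_ia) π_i` times `s^C` (`hβ`, `hπ`, `v_a s^C = r s^B s^C ∈ R`). So `hx` gives `ξ a`.
-/

set_option autoImplicit false

namespace Q9

private theorem X14a_sub {k K : Type} [Field k] [Field K] [Algebra k K] (M : Mdl k K) (B : ℕ)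
    {f g : K} (hf : Inf M B f) (hg : Inf M B g) : Inf M B (f - g) := by
  obtain ⟨r, hr, rfl⟩ := hf
  obtain ⟨r', hr', rfl⟩ := hg
  exact ⟨r - r', M.R.sub_mem hr hr', by ring⟩

private theorem X14a_smul {k K : Type} [Field k] [Field K] [Algebra k K] (M : Mdl k K) (B : ℕ)
    (c : k) {f : K} (hf : Inf M B f) : Inf M B (algebraMap k K c * f) := by
  obtain ⟨r, hr, rfl⟩ := hf
  exact ⟨algebraMap k K c * r, M.R.mul_mem (M.R.algebraMap_mem c) hr, by ring⟩

private theorem X14a_sum {k K : Type} [Field k] [Field K] [Algebra k K] (M : Mdl k K) (B : ℕ)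
    {ι : Type} (s : Finset ι) (f : ι → K) (hf : ∀ i, Inf M B (f i)) : Inf M B (∑ i ∈ s, f i) := by
  choose r hr hr' using hf
  refine ⟨∑ i ∈ s, r i, M.R.sum_mem (fun i _ => hr i), ?_⟩
  rw [Finset.sum_mul]
  exact Finset.sum_congr rfl fun i _ => hr' i

private theorem X14a_R {k K : Type} [Field k] [Field K] [Algebra k K] (M : Mdl k K) (B C : ℕ)
    {f : K} (hf : Inf M B f) : f * (M.t : K)⁻¹ ^ C ∈ M.R := by
  obtain ⟨r, hr, rfl⟩ := hf
  exact M.R.mul_mem (M.R.mul_mem hr (M.R.pow_mem M.s_mem B)) (M.R.pow_mem M.s_mem C)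

private theorem X14a_map {k K : Type} [Field k] [Field K] [Algebra k K] (l : K →ₗ[k] k)
    (c : k) (f : K) : l (algebraMap k K c * f) = c * l f := by
  rw [← Algebra.smul_def, map_smul, smul_eq_mul]

theorem onto_lin {k K : Type} [Field k] [Field K] [Algebra k K] (M : Mdl k K) {n m q q₁ s₀ : ℕ}
    (Fd : Fin (n + 1) → M.O) (B C : ℕ) (π : Fin m → K) (σ : Fin m → Fin (n + 1) → k)
    (S : Finset (Fin m)) (hS : Spn M Fd B π σ S) (hπ : ∀ i, π i * (M.t : K)⁻¹ ^ C ∈ M.R)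
    (x : Fin q → M.O)
    (hx : ∀ f ∈ M.O, f * (M.t : K)⁻¹ ^ C ∈ M.R →
      ∃ ξ : Fin q → k, f = ∑ b, algebraMap k K (ξ b) * x b)
    (β : Fin q₁ → K) (κ : Fin q₁ → K →ₗ[k] k) (hκ0 : ∀ p f, Inf M B f → κ p f = 0)
    (hκβ : ∀ p p', κ p (β p') = if p = p' then 1 else 0)
    (hβ : ∀ p, β p * (M.t : K)⁻¹ ^ C ∈ M.R) (μ : Fin s₀ → K →ₗ[k] k) (r : Fin s₀ → K)
    (hr : ∀ i, IN Fd (r i) ∧ II M Fd B (r i)) (hμ : ∀ i j, μ i (r j) = if i = j then 1 else 0)
    (α : Fin (n + 1) × Fin q₁ → k) (f₁ f₂ : K) (h₁ : IN Fd f₁) (h₂ : II M Fd B f₂)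
    (hα : ∑ j, algebraMap k K (α j) * ((Fd j.1 : K) * β j.2) = f₁ + f₂) (γ : Fin s₀ → k) :
    ∃ (e : Fin m → k) (ξ : Fin (n + 1) → Fin q → k), (∀ i, i ∉ S → e i = 0) ∧
      (∀ a p, κ p (∑ b, algebraMap k K (ξ a b) * x b +
        ∑ i, algebraMap k K (e i * σ i a) * π i) = α (a, p)) ∧
      ∀ j, μ j (∑ a, (Fd a : K) * (∑ b, algebraMap k K (ξ a b) * x b +
        ∑ i, algebraMap k K (e i * σ i a) * π i)) = γ j := by
  classical
  obtain ⟨b1, hb1⟩ := h₁
  obtain ⟨v0, hv0, hv0'⟩ := h₂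
  have hrI := fun i => (hr i).1
  have hrII := fun i => (hr i).2
  choose bj hbj using hrI
  choose vj hvj hvj' using hrII
  set c : Fin s₀ → k := fun j => γ j - μ j f₁ with hc
  set g : K := ∑ j, algebraMap k K (c j) * r j with hg
  set β' : Fin (n + 1) → M.O := fun a => b1 a + ∑ j, algebraMap k M.O (c j) * bj j a with hβ'
  set v : Fin (n + 1) → K := fun a => v0 a - ∑ j, algebraMap k K (c j) * vj j a with hv
  have hβ'c : ∀ a, ((β' a : M.O) : K) = b1 a + ∑ j, algebraMap k K (c j) * (bj j a : K) := by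
    intro a
    simp only [hβ']
    push_cast
    rfl
  have hg1 : g = ∑ a, (Fd a : K) * ∑ j, algebraMap k K (c j) * (bj j a : K) := by
    rw [hg]
    simp only [Finset.mul_sum]
    rw [Finset.sum_comm]
    refine Finset.sum_congr rfl fun j _ => ?_
    rw [hbj j, Finset.mul_sum]
    exact Finset.sum_congr rfl fun a _ => by ring
  have hg2 : g = ∑ a, (Fd a : K) * ∑ j, algebraMap k K (c j) * vj j a := by
    rw [hg]
    simp only [Finset.mul_sum]
    rw [Finset.sum_comm]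
    refine Finset.sum_congr rfl fun j _ => ?_
    rw [hvj' j, Finset.mul_sum]
    exact Finset.sum_congr rfl fun a _ => by ring
  have h1 : f₁ + g = ∑ a, (Fd a : K) * (β' a : K) := by
    simp only [hβ'c, mul_add, Finset.sum_add_distrib]
    rw [← hg1, ← hb1]
  have h2 : f₂ - g = ∑ a, (Fd a : K) * v a := by
    simp only [hv, mul_sub, Finset.sum_sub_distrib]
    rw [← hg2, ← hv0']
  have hvI : ∀ a, Inf M B (v a) := fun a =>
    X14a_sub M B (hv0 a) (X14a_sum M B _ _ fun j => X14a_smul M B (c j) (hvj j a))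
  have hμ1 : ∀ j, μ j (f₁ + g) = γ j := by
    intro j
    rw [map_add, hg, map_sum]
    simp only [X14a_map, hμ, mul_ite, mul_one, mul_zero]
    rw [Finset.sum_ite_eq Finset.univ j, if_pos (Finset.mem_univ j)]
    simp only [hc]
    ring
  set w : Fin (n + 1) → K := fun a => ∑ p, algebraMap k K (α (a, p)) * β p - v a - (β' a : K) with hw
  have hw0 : ∑ a, (Fd a : K) * w a = 0 := by
    have e1 : ∑ a, (Fd a : K) * w a = ∑ a, (Fd a : K) * ∑ p, algebraMap k K (α (a, p)) * β p -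
        ∑ a, (Fd a : K) * v a - ∑ a, (Fd a : K) * (β' a : K) := by
      simp only [hw, mul_sub, Finset.sum_sub_distrib]
    have e2 : ∑ a, (Fd a : K) * ∑ p, algebraMap k K (α (a, p)) * β p = f₁ + f₂ := by
      rw [← hα, Fintype.sum_prod_type]
      refine Finset.sum_congr rfl fun a _ => ?_
      rw [Finset.mul_sum]
      exact Finset.sum_congr rfl fun p _ => by ring
    rw [e1, e2, ← h1, ← h2]
    ring
  obtain ⟨e, α', r', he, hr'I, hr'0, hw'⟩ := hS w hw0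
  have hD : ∀ a, (β' a : K) + (α' a : K) + ∑ i, algebraMap k K (e i * σ i a) * π i =
      ∑ p, algebraMap k K (α (a, p)) * β p - v a - r' a := by
    intro a
    have := hw' a
    simp only [hw] at this
    linear_combination -this
  have hmem : ∀ a, ((β' a : K) + (α' a : K)) * (M.t : K)⁻¹ ^ C ∈ M.R := by
    intro a
    have e1 : ((β' a : K) + (α' a : K)) * (M.t : K)⁻¹ ^ C =
        ∑ p, algebraMap k K (α (a, p)) * (β p * (M.t : K)⁻¹ ^ C) - v a * (M.t : K)⁻¹ ^ C -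
          r' a * (M.t : K)⁻¹ ^ C -
          ∑ i, algebraMap k K (e i * σ i a) * (π i * (M.t : K)⁻¹ ^ C) := by
      have e2 : ∑ p, algebraMap k K (α (a, p)) * (β p * (M.t : K)⁻¹ ^ C) =
          (∑ p, algebraMap k K (α (a, p)) * β p) * (M.t : K)⁻¹ ^ C := by
        rw [Finset.sum_mul]
        exact Finset.sum_congr rfl fun p _ => by ring
      have e3 : ∑ i, algebraMap k K (e i * σ i a) * (π i * (M.t : K)⁻¹ ^ C) =
          (∑ i, algebraMap k K (e i * σ i a) * π i) * (M.t : K)⁻¹ ^ C := by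
        rw [Finset.sum_mul]
        exact Finset.sum_congr rfl fun p _ => by ring
      rw [e2, e3]
      linear_combination (M.t : K)⁻¹ ^ C * hD a
    rw [e1]
    refine M.R.sub_mem (M.R.sub_mem (M.R.sub_mem ?_ (X14a_R M B C (hvI a)))
      (X14a_R M B C (hr'I a))) ?_
    · exact M.R.sum_mem fun p _ => M.R.mul_mem (M.R.algebraMap_mem _) (hβ p)
    · exact M.R.sum_mem fun i _ => M.R.mul_mem (M.R.algebraMap_mem _) (hπ i)
  have hξ := fun a => hx ((β' a : K) + (α' a : K))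
    (M.O.add_mem (β' a).2 (α' a).2) (hmem a)
  choose ξ hξ using hξ
  refine ⟨e, ξ, he, fun a p => ?_, fun j => ?_⟩
  · rw [← hξ a, hD a, map_sub, map_sub, hκ0 p _ (hvI a), hκ0 p _ (hr'I a), map_sum]
    simp only [X14a_map, hκβ, mul_ite, mul_one, mul_zero]
    rw [Finset.sum_ite_eq Finset.univ p, if_pos (Finset.mem_univ p)]
    ring
  · have e1 : ∑ a, (Fd a : K) * (∑ b, algebraMap k K (ξ a b) * x b +
        ∑ i, algebraMap k K (e i * σ i a) * π i) = f₁ + g := by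
      have e2 : ∀ a, ∑ b, algebraMap k K (ξ a b) * (x b : K) +
        ∑ i, algebraMap k K (e i * σ i a) * π i = (β' a : K) + (w a - r' a) := by
        intro a
        rw [← hξ a, hw' a]
        ring
      simp only [e2, mul_add, mul_sub, Finset.sum_add_distrib, Finset.sum_sub_distrib]
      rw [hw0, hr'0, ← h1]
      ring
    rw [e1, hμ1]

end Q9
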