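import Pool.Agent.LibQ9.X13a
import Pool.Agent.LibQ9.X13b
import Pool.Agent.LibQ9.X14a
import Pool.Agent.LibQ9.P9

/-!
[Q9 X14b] The Jacobian of the system at the base point is onto (the compatible classes at infinity) x (everything).
-/

set_option autoImplicit false

namespace Q9

private theorem X14b_jac {k : Type} [Field k] {I J : Type} [Fintype I]
    (Φ : J → MvPolynomial I k) (z₀ δ : I → k) (j : J) :
    (Jac Φ z₀).mulVec δ j = ∑ v, MvPolynomial.eval z₀ (MvPolynomial.pderiv v (Φ j)) * δ v := by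
  simp only [Jac, Matrix.mulVec, dotProduct, Matrix.of_apply]
  refine Finset.sum_congr rfl fun v _ => ?_
  rw [MvPolynomial.aeval_eq_eval]

private theorem X14b_poly {k : Type} [Field k] {N : ℕ} (A : Polynomial k) (hA : A.degree < (N : ℕ)) :
    ∑ l : Fin N, Polynomial.C (A.coeff (l : ℕ)) * Polynomial.X ^ ((l : ℕ) + 1) =
      Polynomial.X * A := by
  have h1 : A = ∑ l : Fin N, Polynomial.C (A.coeff (l : ℕ)) * Polynomial.X ^ (l : ℕ) := by
    rw [Fin.sum_univ_eq_sum_range (fun j => Polynomial.C (A.coeff j) * Polynomial.X ^ j) N]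
    ext m
    simp only [Polynomial.finsetSum_coeff, Polynomial.coeff_C_mul_X_pow]
    by_cases hm : m < N
    · rw [Finset.sum_eq_single m]
      · simp
      · intro b _ hb
        rw [if_neg (Ne.symm hb)]
      · intro h
        exact absurd (Finset.mem_range.2 hm) h
    · rw [Finset.sum_eq_zero]
      · exact Polynomial.coeff_eq_zero_of_degree_lt
          (lt_of_lt_of_le hA (by exact_mod_cast not_lt.1 hm))
      · intro b hb
        rw [if_neg]
        have := Finset.mem_range.1 hb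
        omega
  conv_rhs => rw [h1]
  rw [Finset.mul_sum]
  refine Finset.sum_congr rfl fun l _ => ?_
  rw [pow_succ]
  ring

private theorem X14b_grad {k : Type} [Field k] {n : ℕ} (F : MvPolynomial (Fin (n + 1)) k)
    (γ A : Fin (n + 1) → Polynomial k) :
    grad F γ (fun a => Polynomial.X * A a) = Polynomial.X * grad F γ A := by
  simp only [grad, Finset.mul_sum]
  refine Finset.sum_congr rfl fun a _ => ?_
  ring

theorem onto_sys {k K : Type} [Field k] [Field K] [Algebra k K] (M : Mdl k K) {n m q : ℕ}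
    (hn : 2 ≤ n) {F : MvPolynomial (Fin (n + 1)) M.O} {P : Fin (n + 1) → M.O} {ρ : M.O}
    (T : Cmb M.O F P ρ m) (x : Fin q → M.O)
    (Λ : Fin (n + 1) → Fin (n + 1) → MvPolynomial (Fin (n + 2)) M.O)
    (u : MvPolynomial (XI n q T.d T.N) M.O)
    (c : Fin m → Polynomial (MvPolynomial (XI n q T.d T.N) k)) (h : UC T x (psi F P ρ Λ) u c)
    (B C : ℕ) (S : Finset (Fin m))
    (hS : Spn M (gd F P) B T.π (fun i a => (T.ev i ρ)⁻¹ * (T.τ i a).coeff 1) S)
    (hπ : ∀ i, T.π i * (M.t : K)⁻¹ ^ C ∈ M.R)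
    (hx : ∀ f ∈ M.O, f * (M.t : K)⁻¹ ^ C ∈ M.R →
      ∃ ξ : Fin q → k, f = ∑ b, algebraMap k K (ξ b) * x b)
    {q₁ : ℕ} (β : Fin q₁ → K) (κ : Fin q₁ → K →ₗ[k] k) (hκ0 : ∀ p f, Inf M B f → κ p f = 0)
    (hκβ : ∀ p p', κ p (β p') = if p = p' then 1 else 0)
    (hβ : ∀ p, β p * (M.t : K)⁻¹ ^ C ∈ M.R) {s₀ : ℕ} (μ : Fin s₀ → K →ₗ[k] k) (r : Fin s₀ → K)
    (hr : ∀ i, IN (gd F P) (r i) ∧ II M (gd F P) B (r i))
    (hμ : ∀ i j, μ i (r j) = if i = j then 1 else 0)
    (α : Fin (n + 1) × Fin q₁ → k) (f₁ f₂ : K) (h₁ : IN (gd F P) f₁) (h₂ : II M (gd F P) B f₂)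
    (hα : ∑ j, algebraMap k K (α j) * (((gd F P j.1 : M.O) : K) * β j.2) = f₁ + f₂)
    (η : ((Σ i : Fin m, Fin (n * T.d i - T.N i)) ⊕ Fin s₀) → k) :
    ∃ δ : XI n q T.d T.N → k, (∀ i, i ∉ S → δ (Sum.inl i) = 0) ∧
      (Jac (eA T x κ) (xz q T)).mulVec δ = α ∧ (Jac (eB T u c μ) (xz q T)).mulVec δ = η := by
  obtain ⟨e, ξ, he, hκ', hμ'⟩ := onto_lin M (gd F P) B C T.π
    (fun i a => (T.ev i ρ)⁻¹ * (T.τ i a).coeff 1) S hS hπ x hx β κ hκ0 hκβ hβ μ r hr hμ α f₁ f₂
    h₁ h₂ hα (fun j => η (Sum.inr j))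
  let δ₀ : XI n q T.d T.N → k := fun v => match v with
    | Sum.inl i => e i
    | Sum.inr (Sum.inl (a, b)) => ξ a b
    | Sum.inr (Sum.inr _) => 0
  have hdy0 : ∀ a, dy T x δ₀ a = ∑ b, algebraMap k K (ξ a b) * x b +
      ∑ i, algebraMap k K (e i * ((T.ev i ρ)⁻¹ * (T.τ i a).coeff 1)) * T.π i := fun a => rfl
  let J₀ := (Jac (eB T u c μ) (xz q T)).mulVec δ₀
  have hA : ∀ i : Fin m, ∃ A : Fin (n + 1) → Polynomial k,
      (∀ j, (A j).degree < (T.d i - T.N i : ℕ)) ∧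
      grad (MvPolynomial.map (T.ev i : M.O →+* k) F) (T.τ i) A =
        ∑ j : Fin (n * T.d i - T.N i), Polynomial.monomial (j : ℕ)
          (η (Sum.inl ⟨i, j⟩) - J₀ (Sum.inl ⟨i, j⟩)) := by
    intro i
    refine T.surj i _ ?_
    rw [← Polynomial.mem_degreeLT]
    refine Submodule.sum_mem _ fun j _ => ?_
    rw [Polynomial.mem_degreeLT]
    refine lt_of_le_of_lt (Polynomial.degree_monomial_le _ _) ?_
    exact_mod_cast j.2
  choose A hA1 hA2 using hA
  let δ₁ : XI n q T.d T.N → k := fun v => match v with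
    | Sum.inl _ => 0
    | Sum.inr (Sum.inl _) => 0
    | Sum.inr (Sum.inr ⟨i, (a, l)⟩) => (A i a).coeff (l : ℕ)
  have hdy1 : ∀ a, dy T x δ₁ a = 0 := by
    intro a
    have h1 : dy T x δ₁ a = ∑ b, algebraMap k K 0 * x b +
        ∑ i, algebraMap k K (0 * ((T.ev i ρ)⁻¹ * (T.τ i a).coeff 1)) * T.π i := rfl
    rw [h1]
    simp
  refine ⟨δ₀ + δ₁, ?_, ?_, ?_⟩
  · intro i hi
    change e i + 0 = 0
    rw [he i hi, add_zero]
  · rw [Matrix.mulVec_add]
    funext j
    rw [Pi.add_apply, X14b_jac, X14b_jac]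
    have h1 := d_yy T x (κ j.2) δ₀ j.1
    have h2 := d_yy T x (κ j.2) δ₁ j.1
    rw [hdy0, hκ'] at h1
    rw [hdy1, map_zero] at h2
    change (∑ v, MvPolynomial.eval (xz q T) (MvPolynomial.pderiv v
      (lm (κ j.2) (yy T.π x T.y j.1))) * δ₀ v) + (∑ v, MvPolynomial.eval (xz q T)
      (MvPolynomial.pderiv v (lm (κ j.2) (yy T.π x T.y j.1))) * δ₁ v) = α j
    rw [h1, h2, add_zero]
  · rw [Matrix.mulVec_add]
    funext j
    rw [Pi.add_apply]
    rcases j with ⟨i, j⟩ | j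
    · have h1 : (Jac (eB T u c μ) (xz q T)).mulVec δ₁ (Sum.inl ⟨i, j⟩) =
          η (Sum.inl ⟨i, j⟩) - J₀ (Sum.inl ⟨i, j⟩) := by
        rw [X14b_jac]
        have h2 := d_c T x (psi F P ρ Λ) u c h δ₁ (fun _ => rfl) (fun _ => rfl) i ((j : ℕ) + 1)
          (by omega)
        change (∑ v, MvPolynomial.eval (xz q T) (MvPolynomial.pderiv v
          ((c i).coeff ((j : ℕ) + 1))) * δ₁ v) = _
        rw [h2]
        have h3 : (fun a => ∑ l : Fin (T.d i - T.N i),
            Polynomial.C (δ₁ (Sum.inr (Sum.inr ⟨i, (a, l)⟩))) * Polynomial.X ^ ((l : ℕ) + 1)) =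
            fun a => Polynomial.X * A i a := by
          funext a
          exact X14b_poly (A i a) (hA1 i a)
        rw [h3, X14b_grad, Polynomial.coeff_X_mul, hA2, Polynomial.finsetSum_coeff]
        rw [Finset.sum_eq_single j]
        · rw [Polynomial.coeff_monomial, if_pos rfl]
        · intro b _ hb
          rw [Polynomial.coeff_monomial, if_neg]
          intro hbj
          exact hb (Fin.ext hbj)
        · intro hj
          exact absurd (Finset.mem_univ j) hj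
      rw [h1]
      change J₀ (Sum.inl ⟨i, j⟩) + (η (Sum.inl ⟨i, j⟩) - J₀ (Sum.inl ⟨i, j⟩)) = _
      ring
    · rw [X14b_jac, X14b_jac]
      have h1 := d_u T x Λ u c h hn (μ j) δ₀
      have h2 := d_u T x Λ u c h hn (μ j) δ₁
      have h3 : (∑ a, ((gd F P a : M.O) : K) * dy T x δ₁ a) = 0 := by
        refine Finset.sum_eq_zero fun a _ => ?_
        rw [hdy1, mul_zero]
      rw [h3, map_zero] at h2
      simp only [hdy0] at h1
      rw [hμ' j] at h1
      change (∑ v, MvPolynomial.eval (xz q T) (MvPolynomial.pderiv v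
        (lm (μ j) (MvPolynomial.map (M.O.subtype : M.O →+* K) u))) * δ₀ v) +
        (∑ v, MvPolynomial.eval (xz q T) (MvPolynomial.pderiv v
        (lm (μ j) (MvPolynomial.map (M.O.subtype : M.O →+* K) u))) * δ₁ v) = _
      rw [h1, h2, add_zero]

end Q9
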