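import Pool.Agent.LibQ9.X14b
import Pool.Agent.LibQ9.S4b

/-!
[Q9 X15] (MEDIUM; may cite X13a, X14b, S4b `rel_all_ne` as stated) A kernel vector of the Jacobian at the base point which moves all the teeth.

PLAN. `dir_in`: `f = Σ_a Fd_a σ_ia ∈ O`, `σ_ia = (ev_i ρ)⁻¹ (τ i a).coeff 1` (`Fd = gd F P`). `ev_i f = 0`: coefficient `1` of `aeval (τ i) F_i = 0` (`T.on`), `τ i ≡ ev_i P` modulo `X` (`T.τ0`): `Σ_a (∂_a F_i)(ev_i P) (τ i a).coeff 1 = 0` (`ev_i (gd F P a) = (∂_a F_i)(ev_i P)`). `ρ' = C(1/ev_i ρ) ρ ∈ IN`, `ev_i ρ' = 1`. `f π = ρ' (f π) + f ((1 - ρ') π)`, with `f π ∈ O` and `(1 - ρ') π ∈ O` (`T.pole i`, first half) and `ρ' ∈ IN`, `f ∈ IN`: so `f π ∈ IN`.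
`kernel_vec`: for each `i` let `S` be the one of `S₁`, `S₂` not containing `i`, `δ₀ = Pi.single (inl i) 1`, `α = Jac (eA) δ₀ = (κ_p(σ_ia π_i))` (X13a `d_yy`, `dy T x δ₀ a = σ_ia π_i`). `Σ_p κ_p(σ_ia π_i) β_p = σ_ia π_i - r_a`, `r_a ∈ s^B R` (`hκ`, `hπ`), so `Σ_j α_j (Fd j.1 β j.2) = Σ_a Fd_a σ_ia π_i - Σ_a Fd_a r_a = f₁ + f₂` (`dir_in`). X14b `onto_sys` with `η = Jac (eB) δ₀`: `δ`, `δ (inl i) = 0`; `v = δ₀ - δ` is in both kernels, `v (inl i) = 1`.
Combine: as in S4b `rel_all_ne` (its statement: `h : Fin m → V`, `W`: relations): e.g. `V = (XI → k) × ..` is not needed: reindex the relation; or directly: the kernel `N` of both Jacobians is a subspace of `XI → k`, the functionals `v ↦ v (inl i)` are nonzero on `N`; there is `v ∈ N` with all `v (inl i) ≠ 0` (`k` infinite; to use `rel_all_ne`: `V = ((J₁ → k) × (J₂ → k)) ⧸ (image of the vectors supported outside `inl`)`, `h i` = class of the image of the unit vector `inl i`, `W = ⊥`; or copy the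 proof of `rel_all_ne`, the covering lemma `Subspace.biUnion_ne_univ_of_top_notMem`).
-/

set_option autoImplicit false

namespace Q9

private theorem X15_coeff0 {k : Type} [Field k] {N : ℕ} (τ : Fin N → Polynomial k)
    (G : MvPolynomial (Fin N) k) :
    (MvPolynomial.aeval τ G).coeff 0 = MvPolynomial.eval (fun b => (τ b).coeff 0) G := by
  induction G using MvPolynomial.induction_on with
  | C a =>
    rw [MvPolynomial.aeval_C, MvPolynomial.eval_C, ← Polynomial.C_eq_algebraMap,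
      Polynomial.coeff_C_zero]
  | add p q hp hq => rw [map_add, Polynomial.coeff_add, hp, hq, map_add]
  | mul_X p c hp =>
    rw [map_mul, MvPolynomial.aeval_X, Polynomial.mul_coeff_zero, hp, map_mul,
      MvPolynomial.eval_X]

private theorem X15_coeff1 {k : Type} [Field k] {N : ℕ} (τ : Fin N → Polynomial k)
    (G : MvPolynomial (Fin N) k) :
    (MvPolynomial.aeval τ G).coeff 1 =
      ∑ a, MvPolynomial.eval (fun b => (τ b).coeff 0) (MvPolynomial.pderiv a G) *
        (τ a).coeff 1 := by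
  classical
  induction G using MvPolynomial.induction_on with
  | C a =>
    rw [MvPolynomial.aeval_C, ← Polynomial.C_eq_algebraMap, Polynomial.coeff_C,
      if_neg one_ne_zero]
    symm
    refine Finset.sum_eq_zero fun b _ => ?_
    rw [MvPolynomial.pderiv_C, map_zero, zero_mul]
  | add p q hp hq =>
    rw [map_add, Polynomial.coeff_add, hp, hq, ← Finset.sum_add_distrib]
    refine Finset.sum_congr rfl fun a _ => ?_
    rw [map_add, map_add, add_mul]
  | mul_X p c hp =>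
    rw [map_mul, MvPolynomial.aeval_X, Polynomial.mul_coeff_one, hp, X15_coeff0]
    have e1 : ∀ a, MvPolynomial.eval (fun b => (τ b).coeff 0)
        (MvPolynomial.pderiv a (p * MvPolynomial.X c)) * (τ a).coeff 1 =
        (if a = c then MvPolynomial.eval (fun b => (τ b).coeff 0) p * (τ a).coeff 1 else 0) +
          MvPolynomial.eval (fun b => (τ b).coeff 0) (MvPolynomial.pderiv a p) *
            (τ a).coeff 1 * (τ c).coeff 0 := by
      intro a
      rw [Derivation.leibniz, MvPolynomial.pderiv_X, smul_eq_mul, smul_eq_mul, map_add, map_mul,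
        map_mul, MvPolynomial.eval_X]
      split_ifs with h
      · subst h
        rw [Pi.single_eq_same, map_one]
        ring
      · rw [Pi.single_eq_of_ne (fun h' => h h'.symm), map_zero]
        ring
    rw [Finset.sum_congr rfl fun a _ => e1 a, Finset.sum_add_distrib,
      Finset.sum_ite_eq' Finset.univ c, if_pos (Finset.mem_univ c), ← Finset.sum_mul]

theorem dir_in {k K : Type} [Field k] [Field K] [Algebra k K] {O : Subalgebra k K} {n m : ℕ}
    {F : MvPolynomial (Fin (n + 1)) O} {P : Fin (n + 1) → O} {ρ : O}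
    (hρ : IN (gd F P) (ρ : K)) (T : Cmb O F P ρ m) (i : Fin m) :
    IN (gd F P) (∑ a, ((gd F P a : O) : K) *
      (algebraMap k K ((T.ev i ρ)⁻¹ * (T.τ i a).coeff 1) * T.π i)) := by
  classical
  obtain ⟨βρ, hβρ⟩ := hρ
  set e := T.ev i with he
  set σ : Fin (n + 1) → k := fun a => (T.ev i ρ)⁻¹ * (T.τ i a).coeff 1 with hσ
  let f : O := ∑ a, gd F P a * algebraMap k O (σ a)
  have hρ0 : e ρ ≠ 0 := T.ρ0 i
  have hef : e f = 0 := by
    have h1 := X15_coeff1 (T.τ i) (MvPolynomial.map (e : O →+* k) F)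
    rw [(T.on i).2, Polynomial.coeff_zero] at h1
    have h2 : ∀ a, MvPolynomial.eval (fun b => (T.τ i b).coeff 0)
        (MvPolynomial.pderiv a (MvPolynomial.map (e : O →+* k) F)) = e (gd F P a) := by
      intro a
      have h3 : (fun b => (T.τ i b).coeff 0) = fun b => e (P b) := funext fun b => T.τ0 i b
      rw [h3, MvPolynomial.pderiv_map, gd]
      have h4 := MvPolynomial.map_eval (e : O →+* k) P (MvPolynomial.pderiv a F)
      exact h4.symm
    show e (∑ a, gd F P a * algebraMap k O (σ a)) = 0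
    rw [map_sum]
    have h5 : ∀ a, e (gd F P a * algebraMap k O (σ a)) =
        (e ρ)⁻¹ * (MvPolynomial.eval (fun b => (T.τ i b).coeff 0)
          (MvPolynomial.pderiv a (MvPolynomial.map (e : O →+* k) F)) * (T.τ i a).coeff 1) := by
      intro a
      rw [h2, map_mul, AlgHom.commutes]
      show e (gd F P a) * ((e ρ)⁻¹ * (T.τ i a).coeff 1) = _
      ring
    rw [Finset.sum_congr rfl fun a _ => h5 a, ← Finset.mul_sum, ← h1, mul_zero]
  have hpole := (T.pole i).1
  have hg : (f : K) * T.π i ∈ O := by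
    have h1 := hpole f
    rw [show (T.ev i) f = 0 from hef, map_zero, sub_zero] at h1
    exact h1
  let ρ' : O := algebraMap k O (e ρ)⁻¹ * ρ
  have heρ' : e ρ' = 1 := by
    show e (algebraMap k O (e ρ)⁻¹ * ρ) = 1
    rw [map_mul, AlgHom.commutes]
    exact inv_mul_cancel₀ hρ0
  have hh : (1 - (ρ' : K)) * T.π i ∈ O := by
    have h1 := hpole ρ'
    rw [show (T.ev i) ρ' = 1 from heρ', map_one] at h1
    have h2 := O.neg_mem h1
    have h3 : -(((ρ' : K) - 1) * T.π i) = (1 - (ρ' : K)) * T.π i := by ring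
    rwa [h3] at h2
  have hff : (f : K) = ∑ a, ((gd F P a : O) : K) * algebraMap k K (σ a) := by
    show ((∑ a, gd F P a * algebraMap k O (σ a) : O) : K) = _
    rw [AddSubmonoidClass.coe_finsetSum]
    rfl
  have hρ'' : (ρ' : K) = ∑ a, ((gd F P a : O) : K) * (algebraMap k K (e ρ)⁻¹ * βρ a) := by
    show algebraMap k K (e ρ)⁻¹ * (ρ : K) = _
    rw [hβρ, Finset.mul_sum]
    exact Finset.sum_congr rfl fun a _ => by ring
  refine ⟨fun a => algebraMap k O (e ρ)⁻¹ * βρ a * ⟨_, hg⟩ + algebraMap k O (σ a) * ⟨_, hh⟩, ?_⟩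
  have hL : ∑ a, ((gd F P a : O) : K) *
      (algebraMap k K ((T.ev i ρ)⁻¹ * (T.τ i a).coeff 1) * T.π i) = (f : K) * T.π i := by
    rw [hff, Finset.sum_mul]
    exact Finset.sum_congr rfl fun a _ => by
      show _ * (algebraMap k K (σ a) * _) = _
      ring
  rw [hL]
  have hR : ∀ a, ((gd F P a : O) : K) * ((algebraMap k O (e ρ)⁻¹ * βρ a * ⟨_, hg⟩ +
      algebraMap k O (σ a) * ⟨_, hh⟩ : O) : K) =
      ((gd F P a : O) : K) * (algebraMap k K (e ρ)⁻¹ * βρ a) * ((f : K) * T.π i) +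
        ((gd F P a : O) : K) * algebraMap k K (σ a) * ((1 - (ρ' : K)) * T.π i) := by
    intro a
    show ((gd F P a : O) : K) * (algebraMap k K (e ρ)⁻¹ * (βρ a : K) * ((f : K) * T.π i) +
      algebraMap k K (σ a) * ((1 - (ρ' : K)) * T.π i)) = _
    ring
  rw [Finset.sum_congr rfl fun a _ => hR a, Finset.sum_add_distrib, ← Finset.sum_mul,
    ← Finset.sum_mul, ← hff, ← hρ'']
  ring

theorem kernel_vec {k K : Type} [Field k] [Infinite k] [Field K] [Algebra k K] (M : Mdl k K)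
    {n m q : ℕ} (hn : 2 ≤ n) {F : MvPolynomial (Fin (n + 1)) M.O} {P : Fin (n + 1) → M.O}
    {ρ : M.O} (hρ : IN (gd F P) (ρ : K)) (T : Cmb M.O F P ρ m) (x : Fin q → M.O)
    (Λ : Fin (n + 1) → Fin (n + 1) → MvPolynomial (Fin (n + 2)) M.O)
    (u : MvPolynomial (XI n q T.d T.N) M.O)
    (c : Fin m → Polynomial (MvPolynomial (XI n q T.d T.N) k)) (h : UC T x (psi F P ρ Λ) u c)
    (B C : ℕ) (S₁ S₂ : Finset (Fin m)) (hd : Disjoint S₁ S₂)
    (hS₁ : Spn M (gd F P) B T.π (fun i a => (T.ev i ρ)⁻¹ * (T.τ i a).coeff 1) S₁)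
    (hS₂ : Spn M (gd F P) B T.π (fun i a => (T.ev i ρ)⁻¹ * (T.τ i a).coeff 1) S₂)
    (hπ : ∀ i, T.π i * (M.t : K)⁻¹ ^ C ∈ M.R)
    (hx : ∀ f ∈ M.O, f * (M.t : K)⁻¹ ^ C ∈ M.R →
      ∃ ξ : Fin q → k, f = ∑ b, algebraMap k K (ξ b) * x b)
    {q₁ : ℕ} (β : Fin q₁ → K) (κ : Fin q₁ → K →ₗ[k] k) (hκ0 : ∀ p f, Inf M B f → κ p f = 0)
    (hκβ : ∀ p p', κ p (β p') = if p = p' then 1 else 0)
    (hβ : ∀ p, β p * (M.t : K)⁻¹ ^ C ∈ M.R)
    (hκ : ∀ f : K, f * (M.t : K)⁻¹ ^ C ∈ M.R → Inf M B (f - ∑ p, algebraMap k K (κ p f) * β p))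
    {s₀ : ℕ} (μ : Fin s₀ → K →ₗ[k] k) (r : Fin s₀ → K)
    (hr : ∀ i, IN (gd F P) (r i) ∧ II M (gd F P) B (r i))
    (hμ : ∀ i j, μ i (r j) = if i = j then 1 else 0) :
    ∃ v : XI n q T.d T.N → k, (Jac (eA T x κ) (xz q T)).mulVec v = 0 ∧
      (Jac (eB T u c μ) (xz q T)).mulVec v = 0 ∧ ∀ i, v (Sum.inl i) ≠ 0 := by
  classical
  -- the two Jacobians
  set JA := Jac (eA T x κ) (xz q T) with hJA
  set JB := Jac (eB T u c μ) (xz q T) with hJB
  have hkey : ∀ i : Fin m, ∃ v : XI n q T.d T.N → k, JA.mulVec v = 0 ∧ JB.mulVec v = 0 ∧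
      v (Sum.inl i) = 1 := by
    intro i
    have main : ∀ S : Finset (Fin m), i ∉ S →
        Spn M (gd F P) B T.π (fun i a => (T.ev i ρ)⁻¹ * (T.τ i a).coeff 1) S →
        ∃ v : XI n q T.d T.N → k, JA.mulVec v = 0 ∧ JB.mulVec v = 0 ∧ v (Sum.inl i) = 1 := by
      intro S hiS hS
      let δ₀ : XI n q T.d T.N → k := Pi.single (Sum.inl i) 1
      let w : Fin (n + 1) → K := fun a =>
        algebraMap k K ((T.ev i ρ)⁻¹ * (T.τ i a).coeff 1) * T.π i
      have hdy : ∀ a, dy T x δ₀ a = w a := by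
        intro a
        unfold dy
        have h1 : ∑ b, algebraMap k K (δ₀ (Sum.inr (Sum.inl (a, b)))) * (x b : K) = 0 := by
          refine Finset.sum_eq_zero fun b _ => ?_
          have : δ₀ (Sum.inr (Sum.inl (a, b))) = 0 := Pi.single_eq_of_ne (by simp) _
          rw [this, map_zero, zero_mul]
        rw [h1, zero_add, Finset.sum_eq_single i]
        · have : δ₀ (Sum.inl i) = 1 := Pi.single_eq_same _ _
          rw [this, one_mul]
        · intro i' _ hi'
          have : δ₀ (Sum.inl i') = 0 := Pi.single_eq_of_ne (fun h => hi' (Sum.inl.inj h)) _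
          rw [this, zero_mul, map_zero, zero_mul]
        · intro h
          exact absurd (Finset.mem_univ _) h
      have hα0 : ∀ j, JA.mulVec δ₀ j = κ j.2 (w j.1) := by
        intro j
        rw [← hdy]
        exact d_yy T x (κ j.2) δ₀ j.1
      have hwR : ∀ a, w a * (M.t : K)⁻¹ ^ C ∈ M.R := by
        intro a
        have h1 : w a * (M.t : K)⁻¹ ^ C =
            algebraMap k K ((T.ev i ρ)⁻¹ * (T.τ i a).coeff 1) * (T.π i * (M.t : K)⁻¹ ^ C) := by
          show algebraMap k K _ * T.π i * _ = _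
          ring
        rw [h1]
        exact M.R.mul_mem (M.R.algebraMap_mem _) (hπ i)
      let rr : Fin (n + 1) → K := fun a => w a - ∑ p, algebraMap k K (κ p (w a)) * β p
      have hrr : ∀ a, Inf M B (rr a) := fun a => hκ (w a) (hwR a)
      have hrn : ∀ a, Inf M B (-rr a) := by
        intro a
        obtain ⟨s, hs, hs'⟩ := hrr a
        exact ⟨-s, M.R.neg_mem hs, by rw [hs']; ring⟩
      obtain ⟨δ, hδS, hδA, hδB⟩ := onto_sys M hn T x Λ u c h B C S hS hπ hx β κ hκ0 hκβ hβ μ r hr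
        hμ (JA.mulVec δ₀) (∑ a, ((gd F P a : M.O) : K) * w a)
        (∑ a, ((gd F P a : M.O) : K) * (-rr a)) (dir_in hρ T i) ⟨fun a => -rr a, hrn, rfl⟩
        (by
          rw [Fintype.sum_prod_type, ← Finset.sum_add_distrib]
          refine Finset.sum_congr rfl fun a _ => ?_
          have h1 : ∑ p, algebraMap k K (JA.mulVec δ₀ (a, p)) *
              (((gd F P (a, p).1 : M.O) : K) * β (a, p).2) =
              ((gd F P a : M.O) : K) * ∑ p, algebraMap k K (κ p (w a)) * β p := by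
            rw [Finset.mul_sum]
            refine Finset.sum_congr rfl fun p _ => ?_
            rw [hα0]
            ring
          rw [h1]
          show _ = _ + _ * -(w a - ∑ p, algebraMap k K (κ p (w a)) * β p)
          ring)
        (JB.mulVec δ₀)
      refine ⟨δ₀ - δ, ?_, ?_, ?_⟩
      · rw [Matrix.mulVec_sub, hδA, sub_self]
      · rw [Matrix.mulVec_sub, hδB, sub_self]
      · have h1 : δ₀ (Sum.inl i) = 1 := Pi.single_eq_same _ _
        rw [Pi.sub_apply, h1, hδS i hiS, sub_zero]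
    by_cases hi : i ∈ S₁
    · exact main S₂ (Finset.disjoint_left.1 hd hi) hS₂
    · exact main S₁ hi hS₁
  let N : Submodule k (XI n q T.d T.N → k) :=
    LinearMap.ker JA.mulVecLin ⊓ LinearMap.ker JB.mulVecLin
  have hN : ∀ v, v ∈ N ↔ JA.mulVec v = 0 ∧ JB.mulVec v = 0 := fun v => Iff.rfl
  let p : Fin m → Subspace k N := fun i =>
    LinearMap.ker ((LinearMap.proj (Sum.inl i) : (XI n q T.d T.N → k) →ₗ[k] k).comp N.subtype)
  by_contra hcon
  push Not at hcon
  have hcov : ⋃ i, (p i : Set N) = Set.univ := by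
    ext ⟨v, hv⟩
    simp only [Set.mem_iUnion, Set.mem_univ, iff_true]
    obtain ⟨i, hi⟩ := hcon v ((hN v).1 hv).1 ((hN v).1 hv).2
    exact ⟨i, hi⟩
  obtain ⟨i, hi⟩ := Subspace.exists_eq_top_of_iUnion_eq_univ hcov
  obtain ⟨v, hvA, hvB, hvi⟩ := hkey i
  have h1 : (⟨v, (hN v).2 ⟨hvA, hvB⟩⟩ : N) ∈ p i := by
    rw [hi]
    exact Submodule.mem_top
  have h2 : v (Sum.inl i) = 0 := h1
  rw [hvi] at h2
  exact one_ne_zero h2

end Q9
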