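import Pool.Agent.LibQ9.XDefs

/-!
[Q9 X2] (SHORT/MEDIUM; only XDefs) Simple poles at distinct places give the structure `Poles`.

PLAN. `h1` of `Poles` is the first half of `Pole`. `h2` for `i ≠ j`: `ev i ≠ ev j`, so there is `f : O` with `ev i f ≠ ev j f`. `(f - ev_i f) π_i ∈ O`, so `(f - ev_i f) π_i π_j ∈ O + k π_j` (for `g ∈ O`: `g π_j = ev_j(g) π_j + (g - ev_j g) π_j`); similarly `(f - ev_j f) π_i π_j ∈ O + k π_i`; the difference is `(ev_j f - ev_i f) π_i π_j`; divide by the nonzero constant.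
`pole_ne`: `(v : K) = h * π` with `ev v ≠ 0`, so `v ≠ 0`.
-/

set_option autoImplicit false

namespace Q9

private theorem X2_h2 {k K : Type} [Field k] [Field K] [Algebra k K] {O : Subalgebra k K} {e₁ e₂ : O →ₐ[k] k}
    (hne : e₁ ≠ e₂) {p₁ p₂ : K} (h₁ : ∀ f : O, ((f : K) - algebraMap k K (e₁ f)) * p₁ ∈ O)
    (h₂ : ∀ f : O, ((f : K) - algebraMap k K (e₂ f)) * p₂ ∈ O) :
    ∃ a b : k, p₁ * p₂ - algebraMap k K a * p₁ - algebraMap k K b * p₂ ∈ O := by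
  obtain ⟨f, hf⟩ := DFunLike.ne_iff.1 hne
  have hc : e₂ f - e₁ f ≠ 0 := sub_ne_zero.2 (Ne.symm hf)
  have hA := h₂ ⟨_, h₁ f⟩
  have hB := h₁ ⟨_, h₂ f⟩
  obtain ⟨α, hα⟩ : ∃ α, α = e₂ ⟨_, h₁ f⟩ := ⟨_, rfl⟩
  obtain ⟨β, hβ⟩ : ∃ β, β = e₁ ⟨_, h₂ f⟩ := ⟨_, rfl⟩
  rw [← hα] at hA
  rw [← hβ] at hB
  refine ⟨-(β * (e₂ f - e₁ f)⁻¹), α * (e₂ f - e₁ f)⁻¹, ?_⟩
  have h := O.mul_mem (O.algebraMap_mem (e₂ f - e₁ f)⁻¹) (O.sub_mem hA hB)
  have h1 : algebraMap k K (e₂ f - e₁ f)⁻¹ * (algebraMap k K (e₂ f) - algebraMap k K (e₁ f)) = 1 := by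
    rw [← map_sub, ← map_mul, inv_mul_cancel₀ hc, map_one]
  have h2 : p₁ * p₂ - algebraMap k K (-(β * (e₂ f - e₁ f)⁻¹)) * p₁ - algebraMap k K (α * (e₂ f - e₁ f)⁻¹) * p₂ =
      algebraMap k K (e₂ f - e₁ f)⁻¹ * ((((f : K) - algebraMap k K (e₁ f)) * p₁ - algebraMap k K α) * p₂ -
        (((f : K) - algebraMap k K (e₂ f)) * p₂ - algebraMap k K β) * p₁) := by
    rw [map_neg, map_mul, map_mul]
    linear_combination (-(p₁ * p₂)) * h1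
  rw [h2]
  exact h

theorem poles_of_pole {k K : Type} [Field k] [Field K] [Algebra k K] {O : Subalgebra k K} {m : ℕ}
    (ev : Fin m → (O →ₐ[k] k)) (hinj : Function.Injective ev) (π : Fin m → K)
    (hp : ∀ i, Pole O (ev i) (π i)) : ∃ Q : Poles k K O m, Q.ev = ev ∧ Q.π = π :=
  ⟨⟨ev, π, fun i => (hp i).1, fun i j hij => X2_h2 (hinj.ne hij) (hp i).1 (hp j).1⟩, rfl, rfl⟩

theorem pole_ne {k K : Type} [Field k] [Field K] [Algebra k K] {O : Subalgebra k K}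
    {ev : O →ₐ[k] k} {π : K} (hp : Pole O ev π) : π ≠ 0 := by
  obtain ⟨_, h, v, _, hv, hv0⟩ := hp
  intro hπ
  apply hv0
  have h1 : v = 0 := by
    apply Subtype.ext
    rw [hv, hπ, mul_zero]
    rfl
  rw [h1, map_zero]

end Q9
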