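import Pool.Agent.LibQ9.X1
import Pool.Agent.LibQ9.X2
import Pool.Agent.LibQ9.C1

/-!
[Q9 X5] (MEDIUM; may cite C1 `decomp`, X1, X2 as stated) The decomposition `Ψ(1, yy) = u + Σ c_i(e_i π_i)` and its reduction modulo `(e)`.

PLAN. X2 `poles_of_pole`: `Q : Poles`, `Q.ev = T.ev`, `Q.π = T.π` (`subst`/rewrite). `decomp Q` (C1) with `n + 1` instead of `n`, `N = n`, `F = psi F P ρ Λ` (`psi_hom`), `I = XI n q T.d T.N`, `e i = X (inl i)`, `x 0 = 1`, `x a.succ = Σ_b C (x b) * X (inr (inl (a, b)))`, `t 0 i = 0`, `t a.succ i = tp T.y a i` (use `Fin.cons`), `d = T.d`: coefficient `0` of `tp` is `0`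
(`l < N i ≤ d i`, so `d i - l ≥ 1`), `natDegree ≤ d i`. The argument of `psi` is `Fin.cons 1 (yy ..)` (`map O.subtype` of `x a.succ`, `pol`): second clause of `UC`. Third clause: for `j ≥ 1` the difference of `(c i).coeff j` and the coefficient `j` of the value of `psi` (coefficients mapped by `ev i`) is in the ideal of the `X (inl i)`; apply `aeval z` (`z (inl i) = 0`): `aeval z ((c i).coeff j)` is the coefficient `j` of
`pv φ (psi F P ρ Λ) v` with `φ = C ∘ algebraMap k R ∘ T.ev i : O → R[X]`, `v a = C (Σ_b ..) + Σ_l C (z ..) X^(l+1) + (if 1 ≤ N i then C (y i a 0) X^(d i) else 0)` (in `tp` at `e_i = 0` only `l = 0` survives in the second sum). Multiply by `φ ρ` (constant) and use X1 `rho_pv`: `φ ρ * pv φ psi v = eval₂ φ (φ (P a) + φ ρ * v a) F = aeval (tz ..) (map ev F)`.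
-/

set_option autoImplicit false

namespace Q9

open Polynomial

/-- the regular part of the argument of `psi` -/
private noncomputable def X5_x {k K : Type} [Field k] [Field K] [Algebra k K] {O : Subalgebra k K}
    {n m q : ℕ} (d N : Fin m → ℕ) (x : Fin q → O) : Fin (n + 2) → MvPolynomial (XI n q d N) O :=
  Fin.cons 1 fun a => ∑ b, MvPolynomial.C (x b) * MvPolynomial.X (Sum.inr (Sum.inl (a, b)))

/-- the polar part of the argument of `psi` -/
private noncomputable def X5_t {k : Type} [Field k] {n m q : ℕ} (d N : Fin m → ℕ)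
    (y : Fin m → Fin (n + 1) → ℕ → k) :
    Fin (n + 2) → Fin m → Polynomial (MvPolynomial (XI n q d N) k) :=
  Fin.cons (fun _ => 0) fun a i => tp y a i

private theorem X5_tp_coeff_zero {k : Type} [Field k] {n m q : ℕ} {d N : Fin m → ℕ}
    (hN : ∀ i, N i ≤ d i) (y : Fin m → Fin (n + 1) → ℕ → k) (a : Fin (n + 1)) (i : Fin m) :
    (tp (q := q) (d := d) (N := N) y a i).coeff 0 = 0 := by
  unfold tp
  rw [Polynomial.coeff_add, Polynomial.finsetSum_coeff, Polynomial.finsetSum_coeff]
  have h1 : ∑ l : Fin (d i - N i), (monomial ((l : ℕ) + 1)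
      (MvPolynomial.X (Sum.inr (Sum.inr ⟨i, (a, l)⟩)) : MvPolynomial (XI n q d N) k)).coeff 0 = 0 := by
    refine Finset.sum_eq_zero fun l _ => ?_
    rw [Polynomial.coeff_monomial, if_neg (by omega)]
  have h2 : ∑ l ∈ Finset.range (N i), (monomial (d i - l)
      (MvPolynomial.C (y i a l) * MvPolynomial.X (Sum.inl i) ^ l : MvPolynomial (XI n q d N) k)).coeff 0
      = 0 := by
    refine Finset.sum_eq_zero fun l hl => ?_
    rw [Finset.mem_range] at hl
    have := hN i
    rw [Polynomial.coeff_monomial, if_neg (by omega)]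
  rw [h1, h2, add_zero]

private theorem X5_tp_natDegree {k : Type} [Field k] {n m q : ℕ} {d N : Fin m → ℕ}
    (y : Fin m → Fin (n + 1) → ℕ → k) (a : Fin (n + 1)) (i : Fin m) :
    (tp (q := q) (d := d) (N := N) y a i).natDegree ≤ d i := by
  unfold tp
  refine (Polynomial.natDegree_add_le _ _).trans (max_le ?_ ?_)
  · refine Polynomial.natDegree_sum_le_of_forall_le _ _ fun l _ => ?_
    refine (Polynomial.natDegree_monomial_le _).trans ?_
    have := l.2
    omega
  · refine Polynomial.natDegree_sum_le_of_forall_le _ _ fun l _ => ?_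
    exact (Polynomial.natDegree_monomial_le _).trans (Nat.sub_le _ _)

/-- the value of `tp` at a point with `e = 0` -/
private theorem X5_tp_map {k : Type} [Field k] {n m q : ℕ} {d N : Fin m → ℕ}
    (y : Fin m → Fin (n + 1) → ℕ → k) (a : Fin (n + 1)) (i : Fin m) {R : Type} [CommRing R]
    [Algebra k R] (z : XI n q d N → R) (hz : z (Sum.inl i) = 0) :
    Polynomial.map (MvPolynomial.aeval z : MvPolynomial (XI n q d N) k →ₐ[k] R).toRingHom (tp y a i) =
      ∑ l : Fin (d i - N i), C (z (Sum.inr (Sum.inr ⟨i, (a, l)⟩))) * X ^ ((l : ℕ) + 1) +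
      if 1 ≤ N i then C (algebraMap k R (y i a 0)) * X ^ d i else 0 := by
  unfold tp
  rw [Polynomial.map_add, Polynomial.map_sum, Polynomial.map_sum]
  congr 1
  · refine Finset.sum_congr rfl fun l _ => ?_
    rw [Polynomial.map_monomial, ← Polynomial.C_mul_X_pow_eq_monomial]
    congr 2
    exact MvPolynomial.aeval_X z _
  · have hterm : ∀ l, Polynomial.map (MvPolynomial.aeval z : MvPolynomial (XI n q d N) k →ₐ[k] R).toRingHom
        (monomial (d i - l) (MvPolynomial.C (y i a l) * MvPolynomial.X (Sum.inl i) ^ l)) =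
        C (algebraMap k R (y i a l) * 0 ^ l) * X ^ (d i - l) := by
      intro l
      rw [Polynomial.map_monomial, ← Polynomial.C_mul_X_pow_eq_monomial]
      congr 2
      show MvPolynomial.aeval z _ = _
      rw [map_mul, map_pow, MvPolynomial.aeval_C, MvPolynomial.aeval_X, hz]
    simp only [hterm]
    split_ifs with h
    · obtain ⟨N', hN'⟩ : ∃ N', N i = N' + 1 := ⟨N i - 1, by omega⟩
      rw [hN', Finset.sum_range_succ', pow_zero, mul_one, Nat.sub_zero]
      rw [Finset.sum_eq_zero, zero_add]
      intro l _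
      rw [zero_pow (Nat.succ_ne_zero l), mul_zero, Polynomial.C_0, zero_mul]
    · have h0 : N i = 0 := by omega
      rw [h0, Finset.range_zero, Finset.sum_empty]

theorem exists_uc {k K : Type} [Field k] [Field K] [Algebra k K] {O : Subalgebra k K} {n m q : ℕ}
    (hn : 2 ≤ n) {F : MvPolynomial (Fin (n + 1)) O} {P : Fin (n + 1) → O} {ρ : O}
    (T : Cmb O F P ρ m) (x : Fin q → O)
    (Λ : Fin (n + 1) → Fin (n + 1) → MvPolynomial (Fin (n + 2)) O) (hΛ : PsiEq F P ρ Λ) :
    ∃ (u : MvPolynomial (XI n q T.d T.N) O)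
      (c : Fin m → Polynomial (MvPolynomial (XI n q T.d T.N) k)), UC T x (psi F P ρ Λ) u c := by
  obtain ⟨Q, hQev, hQπ⟩ := poles_of_pole T.ev T.inj T.π T.pole
  let e : Fin m → MvPolynomial (XI n q T.d T.N) k := fun i => MvPolynomial.X (Sum.inl i)
  obtain ⟨u, c, hc, h1, h2⟩ := decomp Q e (psi F P ρ Λ) (psi_hom hn F P ρ Λ hΛ)
    (X5_x T.d T.N x) (X5_t T.d T.N T.y)
    (by
      intro a i
      refine Fin.cases ?_ (fun a => ?_) a
      · exact Polynomial.coeff_zero 0
      · exact X5_tp_coeff_zero T.hN T.y a i)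
    T.d
    (by
      intro a i
      refine Fin.cases ?_ (fun a => ?_) a
      · show Polynomial.natDegree (0 : Polynomial (MvPolynomial (XI n q T.d T.N) k)) ≤ _
        rw [Polynomial.natDegree_zero]
        exact Nat.zero_le _
      · exact X5_tp_natDegree T.y a i)
  have hpol : ∀ c' : Fin m → Polynomial (MvPolynomial (XI n q T.d T.N) k), pol Q e c' =
      ∑ i, (c' i).eval₂ (inc k K (XI n q T.d T.N))
        (MvPolynomial.C (T.π i) * MvPolynomial.X (Sum.inl i)) := by
    intro c'
    unfold pol
    refine Finset.sum_congr rfl fun i _ => ?_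
    rw [hQπ]
    congr 2
    show inc k K _ (MvPolynomial.X (Sum.inl i)) = _
    unfold inc
    rw [MvPolynomial.map_X]
  refine ⟨u, c, hc, ?_, ?_⟩
  · rw [← hpol c, ← h1]
    unfold pv
    congr 1
    funext a
    refine Fin.cases ?_ (fun a => ?_) a
    · rw [Fin.cons_zero, hpol]
      show (1 : MvPolynomial (XI n q T.d T.N) K) = MvPolynomial.map (O.subtype : O →+* K) 1 +
        ∑ i, (0 : Polynomial (MvPolynomial (XI n q T.d T.N) k)).eval₂ _ _
      rw [map_one]
      simp only [Polynomial.eval₂_zero, Finset.sum_const_zero, add_zero]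
    · rw [Fin.cons_succ, hpol]
      show yy T.π x T.y a = MvPolynomial.map (O.subtype : O →+* K)
        (∑ b, MvPolynomial.C (x b) * MvPolynomial.X (Sum.inr (Sum.inl (a, b)))) +
          ∑ i, (tp T.y a i).eval₂ _ _
      unfold yy
      congr 1
      rw [map_sum]
      refine Finset.sum_congr rfl fun b _ => ?_
      rw [map_mul, MvPolynomial.map_C, MvPolynomial.map_X]
      rfl
  · intro R _ _ z hz i j hj
    let g : MvPolynomial (XI n q T.d T.N) k →+* R :=
      (MvPolynomial.aeval z : MvPolynomial (XI n q T.d T.N) k →ₐ[k] R).toRingHom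
    have hg : ∀ f, g f = MvPolynomial.aeval z f := fun _ => rfl
    have h3 := h2 i j
    -- the ideal goes to zero
    have h4 : g ((C (MvPolynomial.map (Q.ev i : O →+* k) u) + c i -
          MvPolynomial.eval₂
            ((C (R := MvPolynomial (XI n q T.d T.N) k)).comp
              ((MvPolynomial.C (R := k) (σ := XI n q T.d T.N)).comp (Q.ev i : O →+* k)))
            (fun a => C (MvPolynomial.map (Q.ev i : O →+* k) (X5_x T.d T.N x a)) +
              X5_t T.d T.N T.y a i) (psi F P ρ Λ)).coeff j) = 0 := by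
      have h5 : Ideal.span (Set.range e) ≤ RingHom.ker g := by
        rw [Ideal.span_le]
        rintro _ ⟨i', rfl⟩
        show g (MvPolynomial.X (Sum.inl i')) = 0
        rw [hg, MvPolynomial.aeval_X, hz]
      exact h5 h3
    rw [Polynomial.coeff_sub, Polynomial.coeff_add, Polynomial.coeff_C, if_neg (by omega), zero_add,
      map_sub, sub_eq_zero] at h4
    -- the value of the polynomial
    set φ : O →+* R[X] := (C : R →+* R[X]).comp ((algebraMap k R).comp (T.ev i : O →+* k)) with hφ
    let v : Fin (n + 1) → R[X] := fun a =>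
      C (∑ b, algebraMap k R (T.ev i (x b)) * z (Sum.inr (Sum.inl (a, b)))) +
        (∑ l : Fin (T.d i - T.N i), C (z (Sum.inr (Sum.inr ⟨i, (a, l)⟩))) * X ^ ((l : ℕ) + 1) +
        if 1 ≤ T.N i then C (algebraMap k R (T.y i a 0)) * X ^ T.d i else 0)
    have h6 : Polynomial.map g (MvPolynomial.eval₂
            ((C (R := MvPolynomial (XI n q T.d T.N) k)).comp
              ((MvPolynomial.C (R := k) (σ := XI n q T.d T.N)).comp (Q.ev i : O →+* k)))
            (fun a => C (MvPolynomial.map (Q.ev i : O →+* k) (X5_x T.d T.N x a)) +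
              X5_t T.d T.N T.y a i) (psi F P ρ Λ)) = pv φ (psi F P ρ Λ) v := by
      rw [← Polynomial.coe_mapRingHom, MvPolynomial.eval₂_comp_left]
      unfold pv
      congr 1
      · ext f : 1
        show Polynomial.map g (C (MvPolynomial.C (Q.ev i f))) = C (algebraMap k R (T.ev i f))
        rw [Polynomial.map_C, hg, MvPolynomial.aeval_C, hQev]
      · funext a
        show Polynomial.map g (C (MvPolynomial.map (Q.ev i : O →+* k) (X5_x T.d T.N x a)) +
              X5_t T.d T.N T.y a i) = _
        rw [hQev]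
        refine Fin.cases ?_ (fun a => ?_) a
        · rw [Fin.cons_zero]
          show Polynomial.map g (C (MvPolynomial.map (T.ev i : O →+* k) 1) + 0) = 1
          rw [map_one, Polynomial.C_1, add_zero, Polynomial.map_one]
        · rw [Fin.cons_succ]
          show Polynomial.map g (C (MvPolynomial.map (T.ev i : O →+* k)
            (∑ b, MvPolynomial.C (x b) * MvPolynomial.X (Sum.inr (Sum.inl (a, b))))) +
              tp T.y a i) = _
          rw [Polynomial.map_add, Polynomial.map_C, X5_tp_map T.y a i z (hz i)]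
          show _ = v a
          congr 2
          rw [map_sum, map_sum]
          refine Finset.sum_congr rfl fun b _ => ?_
          rw [map_mul, MvPolynomial.map_C, MvPolynomial.map_X, hg, map_mul, MvPolynomial.aeval_C,
            MvPolynomial.aeval_X]
          rfl
    have h4' : MvPolynomial.aeval z ((c i).coeff j) = (pv φ (psi F P ρ Λ) v).coeff j := by
      rw [← h6, Polynomial.coeff_map, ← h4]
      rfl
    have h7 := rho_pv F P ρ Λ hΛ φ v
    have h8 : MvPolynomial.aeval (tz T x z i) (MvPolynomial.map (T.ev i : O →+* k) F) =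
        MvPolynomial.eval₂ φ (fun a => φ (P a) + φ ρ * v a) F := by
      rw [MvPolynomial.aeval_def, MvPolynomial.eval₂_map]
      congr 1
      funext a
      show C _ + C _ * _ = C _ + C _ * v a
      congr 2
      exact add_assoc _ _ _
    rw [h8, ← h7]
    show _ = (C (algebraMap k R (T.ev i ρ)) * pv φ (psi F P ρ Λ) v).coeff j
    rw [Polynomial.coeff_C_mul, ← h4']

end Q9
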