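import Pool.Agent.LibQ9.X3

/-!
[Q9 X6a] (MEDIUM; may cite X3 as stated) The last coefficients vanish: local computation at one place.

PLAN. `W = (e π)⁻¹ = e⁻¹ π⁻¹`, local (`loc_inv`, `loc_O`, `cg_mul`), `W ^ l ≡ 0` modulo `N` for `l ≥ N` (`cg_pow`). Multiply `h` by `W ^ (n d)`; `F` is a form of degree `n`: `F(W^d g + ρ Σ_j t_j W^(d-j)) = W^(n d) r + ρ Σ_j c_j W^(n d - j)` (`aeval (e π) p = Σ_j p_j (e π)^j`, `W (e π) = 1`). Modulo `N`: `W^d g_a ≡ 0` (`N ≤ d`), `ρ Σ_j (t a)_j W^(d-j) ≡ ρ Σ_(l<N) (t a)_(d-l) W^l = ρ Σ_(l<N) y_l π^(-l) = jt`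
(`ht`). By `cg_eval` the left side is `≡ F(jt) ≡ 0` (`hy`). The right side is `≡ ρ Σ_(l<N) c_(n d - l) e^(-l) π^(-l)` (`W^(nd) r ≡ 0`). So `h₀ ρ Σ_(l<N) (c_(nd-l) e^(-l)) π^(-l) = w π^(-N)` with `ev (h₀ ρ) ≠ 0`; `pole_indep`.
-/

set_option autoImplicit false

namespace Q9

open Polynomial

section X6a

variable {k K : Type} [Field k] [Field K] [Algebra k K] {O : Subalgebra k K}
  {ev : O →ₐ[k] k} {π : K}

private lemma X6a_pole_ne (hp : Pole O ev π) : π ≠ 0 := by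
  obtain ⟨_, h, v, _, hv, hv0⟩ := hp
  rintro rfl
  rw [mul_zero] at hv
  have h1 : v = 0 := Subtype.ext hv
  rw [h1, map_zero] at hv0
  exact hv0 rfl

private lemma X6a_scale {K : Type} [Field K] {m n : ℕ} (F : MvPolynomial (Fin m) K)
    (hF : F.IsHomogeneous n) (w : K) (x : Fin m → K) :
    MvPolynomial.eval (fun a => w * x a) F = w ^ n * MvPolynomial.eval x F := by
  rw [MvPolynomial.eval_eq', MvPolynomial.eval_eq', Finset.mul_sum]
  refine Finset.sum_congr rfl fun s hs => ?_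
  have h1 : ∑ i, s i = n := by
    have h2 := hF (MvPolynomial.mem_support_iff.1 hs)
    rw [Finsupp.weight_apply] at h2
    simpa [Finsupp.sum_fintype] using h2
  simp only [mul_pow, Finset.prod_mul_distrib, Finset.prod_pow_eq_pow_sum, h1]
  ring

private lemma X6a_aeval (p : k[X]) (D : ℕ) (hD : p.natDegree ≤ D) (z : K) (hz : z ≠ 0) :
    z⁻¹ ^ D * aeval z p =
      ∑ l ∈ Finset.range (D + 1), algebraMap k K (p.coeff (D - l)) * z⁻¹ ^ l := by
  rw [aeval_eq_sum_range' (Nat.lt_succ_of_le hD), Finset.mul_sum, ← Finset.sum_range_reflect]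
  refine Finset.sum_congr rfl fun l hl => ?_
  rw [Finset.mem_range] at hl
  have h1 : D.succ - 1 - l = D - l := by omega
  rw [h1, Algebra.smul_def]
  have h2 : z⁻¹ ^ D = z⁻¹ ^ l * z⁻¹ ^ (D - l) := by
    rw [← pow_add]
    congr 1
    omega
  rw [h2]
  have h3 : z⁻¹ ^ (D - l) * z ^ (D - l) = 1 := by
    rw [← mul_pow, inv_mul_cancel₀ hz, one_pow]
  linear_combination (algebraMap k K (p.coeff (D - l)) * z⁻¹ ^ l) * h3

private lemma X6a_loc_c (x : k) : Cg O ev π 0 (algebraMap k K x) 0 :=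
  loc_O (algebraMap k O x)

private lemma X6a_loc_mul {f f' : K} (h : Cg O ev π 0 f 0) (h' : Cg O ev π 0 f' 0) :
    Cg O ev π 0 (f * f') 0 := by
  have h1 := cg_mul h h' h' (cg_refl 0 0)
  rwa [mul_zero] at h1

private lemma X6a_term (hp : Pole O ev π) {N l : ℕ} (hl : N ≤ l) (x : k) :
    Cg O ev π N (algebraMap k K x * π⁻¹ ^ l) 0 :=
  cg_pow hp hl (X6a_loc_c x)

private lemma X6a_sum_loc (hp : Pole O ev π) (D : ℕ) (q : ℕ → k) :
    Cg O ev π 0 (∑ l ∈ Finset.range D, algebraMap k K (q l) * π⁻¹ ^ l) 0 := by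
  have h1 := cg_sum (O := O) (ev := ev) (π := π) (Finset.range D) (N := 0)
    (f := fun l => algebraMap k K (q l) * π⁻¹ ^ l) (g := fun _ => (0 : K))
    fun l _ => X6a_term hp (Nat.zero_le l) (q l)
  rwa [Finset.sum_const_zero] at h1

private lemma X6a_conv (e : k) (q : ℕ → k) (l : ℕ) :
    algebraMap k K (q l) * (algebraMap k K e * π)⁻¹ ^ l =
      algebraMap k K (q l * e⁻¹ ^ l) * π⁻¹ ^ l := by
  rw [mul_inv, mul_pow, map_mul, map_pow, map_inv₀]
  ring

private lemma X6a_trunc (hp : Pole O ev π) {N D : ℕ} (hN : N ≤ D) (e : k) (q : ℕ → k) :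
    Cg O ev π N (∑ l ∈ Finset.range (D + 1), algebraMap k K (q l) *
        (algebraMap k K e * π)⁻¹ ^ l)
      (∑ l ∈ Finset.range N, algebraMap k K (q l * e⁻¹ ^ l) * π⁻¹ ^ l) := by
  rw [Finset.sum_congr rfl fun l _ => X6a_conv (K := K) (π := π) e q l,
    ← Finset.sum_range_add_sum_Ico _ (show N ≤ D + 1 by omega)]
  have h1 := cg_sum (O := O) (ev := ev) (π := π) (Finset.Ico N (D + 1)) (N := N)
    (f := fun l => algebraMap k K (q l * e⁻¹ ^ l) * π⁻¹ ^ l) (g := fun _ => (0 : K))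
    fun l hl => X6a_term hp (Finset.mem_Ico.1 hl).1 _
  rw [Finset.sum_const_zero] at h1
  have h2 := cg_add (cg_refl (O := O) (ev := ev) (π := π) N
    (∑ l ∈ Finset.range N, algebraMap k K (q l * e⁻¹ ^ l) * π⁻¹ ^ l)) h1
  rwa [add_zero] at h2

private lemma X6a_full_loc (hp : Pole O ev π) (D : ℕ) (e : k) (q : ℕ → k) :
    Cg O ev π 0 (∑ l ∈ Finset.range D, algebraMap k K (q l) *
        (algebraMap k K e * π)⁻¹ ^ l) 0 := by
  rw [Finset.sum_congr rfl fun l _ => X6a_conv (K := K) (π := π) e q l]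
  exact X6a_sum_loc hp D fun l => q l * e⁻¹ ^ l

/-- `W ^ D (f + ρ p(e π))` is congruent to `ρ` times the last terms of `p` -/
private lemma X6a_main (hp : Pole O ev π) {N D : ℕ} (hN : N ≤ D) (ρ : O) (e : k) (he : e ≠ 0)
    (p : k[X]) (hD : p.natDegree ≤ D) (f : K) (hf : Cg O ev π 0 f 0) :
    Cg O ev π N ((algebraMap k K e * π)⁻¹ ^ D *
        (f + (ρ : K) * aeval (algebraMap k K e * π) p))
      ((ρ : K) * ∑ l ∈ Finset.range N,
        algebraMap k K (p.coeff (D - l) * e⁻¹ ^ l) * π⁻¹ ^ l) := by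
  have hz : algebraMap k K e * π ≠ 0 :=
    mul_ne_zero ((_root_.map_ne_zero _).2 he) (X6a_pole_ne hp)
  have h1 : (algebraMap k K e * π)⁻¹ ^ D * (f + (ρ : K) * aeval (algebraMap k K e * π) p) =
      (f * algebraMap k K (e⁻¹ ^ D)) * π⁻¹ ^ D + (ρ : K) *
        ∑ l ∈ Finset.range (D + 1), algebraMap k K (p.coeff (D - l)) *
          (algebraMap k K e * π)⁻¹ ^ l := by
    rw [← X6a_aeval p D hD _ hz, mul_add]
    have h2 : (algebraMap k K e * π)⁻¹ ^ D = algebraMap k K (e⁻¹ ^ D) * π⁻¹ ^ D := by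
      rw [mul_inv, mul_pow, map_pow, map_inv₀]
    have h3 : (algebraMap k K e * π)⁻¹ ^ D * f = f * algebraMap k K (e⁻¹ ^ D) * π⁻¹ ^ D := by
      rw [h2]
      ring
    rw [h3]
    ring
  rw [h1]
  have h4 : Cg O ev π N ((f * algebraMap k K (e⁻¹ ^ D)) * π⁻¹ ^ D) 0 :=
    cg_pow hp hN (X6a_loc_mul hf (X6a_loc_c _))
  have h5 := cg_mul (cg_refl (O := O) (ev := ev) (π := π) N (ρ : K))
    (X6a_trunc hp hN e fun l => p.coeff (D - l))
    (X6a_full_loc hp (D + 1) e fun l => p.coeff (D - l)) (loc_O ρ)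
  have h6 := cg_add h4 h5
  rwa [zero_add] at h6

end X6a

theorem top_local {k K : Type} [Field k] [Field K] [Algebra k K] {O : Subalgebra k K}
    {ev : O →ₐ[k] k} {π : K} (hp : Pole O ev π) {n d N : ℕ} (hn : 1 ≤ n) (hN : N ≤ d)
    (F : MvPolynomial (Fin (n + 1)) O) (hF : F.IsHomogeneous n) (ρ : O) (hρ : ev ρ ≠ 0)
    (y : Fin (n + 1) → ℕ → k)
    (hy : Cg O ev π N (MvPolynomial.eval (jt π (ρ : K) N y)
      (MvPolynomial.map (O.subtype : O →+* K) F)) 0)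
    (e : k) (he : e ≠ 0) (t : Fin (n + 1) → k[X]) (htd : ∀ a, (t a).natDegree ≤ d)
    (ht : ∀ a l, l < N → (t a).coeff (d - l) = y a l * e ^ l)
    (g : Fin (n + 1) → K) (hg : ∀ a, Cg O ev π 0 (g a) 0) (c : k[X]) (hc : c.natDegree ≤ n * d)
    (r : K) (hr : Cg O ev π 0 r 0)
    (h : MvPolynomial.eval (fun a => g a + (ρ : K) * aeval (algebraMap k K e * π) (t a))
        (MvPolynomial.map (O.subtype : O →+* K) F) =
      r + (ρ : K) * aeval (algebraMap k K e * π) c) (l : ℕ) (hl : l < N) :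
    c.coeff (n * d - l) = 0 := by
  have hX : ∀ a, Cg O ev π N ((algebraMap k K e * π)⁻¹ ^ d *
      (g a + (ρ : K) * aeval (algebraMap k K e * π) (t a))) (jt π (ρ : K) N y a) := by
    intro a
    have h1 := X6a_main hp hN ρ e he (t a) (htd a) (g a) (hg a)
    have h2 : jt π (ρ : K) N y a = (ρ : K) * ∑ l ∈ Finset.range N,
        algebraMap k K ((t a).coeff (d - l) * e⁻¹ ^ l) * π⁻¹ ^ l := by
      rw [jt]
      congr 1
      refine Finset.sum_congr rfl fun l hl => ?_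
      rw [ht a l (Finset.mem_range.1 hl), mul_assoc, ← mul_pow, mul_inv_cancel₀ he, one_pow,
        mul_one]
    rw [h2]
    exact h1
  have hJ : ∀ a, Cg O ev π 0 (jt π (ρ : K) N y a) 0 := by
    intro a
    rw [jt]
    exact X6a_loc_mul (loc_O ρ) (X6a_sum_loc hp N _)
  have hE := cg_trans (cg_eval F _ _
    (fun a => cg_trans (cg_le hp (Nat.zero_le N) (hX a)) (hJ a)) hJ hX) hy
  rw [X6a_scale _ (hF.map _), h, ← pow_mul, mul_comm d n] at hE
  have hNn : N ≤ n * d := hN.trans (Nat.le_mul_of_pos_left d hn)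
  have hR := cg_trans (cg_symm (X6a_main hp hNn ρ e he c hc r hr)) hE
  obtain ⟨h₀, w, hh₀, hw⟩ := hR
  have h7 := pole_indep hp N (fun l => c.coeff (n * d - l) * e⁻¹ ^ l) (h₀ * ρ) w
    (by rw [map_mul]; exact mul_ne_zero hh₀ hρ)
    (by rw [← hw]; push_cast; ring) l hl
  exact (mul_eq_zero.1 h7).resolve_right (pow_ne_zero _ (inv_ne_zero he))

end Q9
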