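import Pool.Agent.LibQ9.X1
import Pool.Agent.LibQ9.X6a

/-!
[Q9 X6b] The last `N i` equations of the tooth `i` are `0`.
-/

set_option autoImplicit false

namespace Q9

section

variable {k K : Type} [Field k] [Field K] [Algebra k K]

private theorem X6b_inc {I : Type} (z : I → k) (p : MvPolynomial I k) :
    MvPolynomial.eval (fun v => algebraMap k K (z v)) (inc k K I p) =
      algebraMap k K (MvPolynomial.eval z p) := by
  unfold inc
  rw [MvPolynomial.eval_map]
  induction p using MvPolynomial.induction_on with
  | C a => simp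
  | add p q hp hq => simp only [MvPolynomial.eval₂_add, map_add, hp, hq]
  | mul_X p v hp => simp only [MvPolynomial.eval₂_mul, map_mul, hp, MvPolynomial.eval₂_X,
      MvPolynomial.eval_X]

private theorem X6b_poly {I : Type} (z : I → k) (p : Polynomial (MvPolynomial I k)) (π : K) (v : I) :
    MvPolynomial.eval (fun v => algebraMap k K (z v))
      (p.eval₂ (inc k K I) (MvPolynomial.C π * MvPolynomial.X v)) =
      Polynomial.aeval (algebraMap k K (z v) * π) (p.map (MvPolynomial.eval z)) := by
  rw [Polynomial.hom_eval₂, Polynomial.aeval_def, Polynomial.eval₂_map]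
  have h1 : (MvPolynomial.eval (fun v => algebraMap k K (z v))).comp (inc k K I) =
      (algebraMap k K).comp (MvPolynomial.eval z) := by
    refine RingHom.ext fun q => ?_
    rw [RingHom.comp_apply, RingHom.comp_apply, X6b_inc]
  have h2 : MvPolynomial.eval (fun v => algebraMap k K (z v))
      (MvPolynomial.C π * MvPolynomial.X v) = algebraMap k K (z v) * π := by
    rw [map_mul, MvPolynomial.eval_C, MvPolynomial.eval_X, mul_comm]
  rw [h1, h2]

private theorem X6b_reg {I : Type} (O : Subalgebra k K) (z : I → k) (u : MvPolynomial I O) :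
    MvPolynomial.eval (fun v => algebraMap k K (z v)) (MvPolynomial.map (O.subtype : O →+* K) u) =
      ((MvPolynomial.eval (fun v => algebraMap k O (z v)) u : O) : K) := by
  rw [MvPolynomial.eval_map]
  induction u using MvPolynomial.induction_on with
  | C a => rw [MvPolynomial.eval₂_C, MvPolynomial.eval_C]; rfl
  | add p q hp hq => simp only [MvPolynomial.eval₂_add, map_add, hp, hq, Subalgebra.coe_add]
  | mul_X p v hp =>
    simp only [MvPolynomial.eval₂_mul, map_mul, hp, MvPolynomial.eval₂_X, MvPolynomial.eval_X,
      Subalgebra.coe_mul, Subalgebra.coe_algebraMap]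

private theorem X6b_pv {I : Type} (O : Subalgebra k K) (z : I → k) {n : ℕ}
    (Ψ : MvPolynomial (Fin (n + 2)) O) (v : Fin (n + 1) → MvPolynomial I K) :
    MvPolynomial.eval (fun v => algebraMap k K (z v))
      (pv ((MvPolynomial.C (R := K) (σ := I)).comp (O.subtype : O →+* K)) Ψ v) =
      pv (O.subtype : O →+* K) Ψ
        (fun a => MvPolynomial.eval (fun v => algebraMap k K (z v)) (v a)) := by
  unfold pv
  rw [MvPolynomial.eval₂_comp_left]
  have h1 : (MvPolynomial.eval (fun v => algebraMap k K (z v))).comp
      ((MvPolynomial.C (R := K) (σ := I)).comp (O.subtype : O →+* K)) = (O.subtype : O →+* K) := by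
    refine RingHom.ext fun q => ?_
    rw [RingHom.comp_apply, RingHom.comp_apply, MvPolynomial.eval_C]
  have h2 : (MvPolynomial.eval (fun v => algebraMap k K (z v))) ∘
      (Fin.cons 1 v : Fin (n + 2) → MvPolynomial I K) =
      (Fin.cons 1 (fun a => MvPolynomial.eval (fun v => algebraMap k K (z v)) (v a)) :
        Fin (n + 2) → K) := by
    funext j
    refine Fin.cases ?_ (fun a => ?_) j
    · rw [Function.comp_apply, Fin.cons_zero, Fin.cons_zero, map_one]
    · rw [Function.comp_apply, Fin.cons_succ, Fin.cons_succ]
  rw [h1, h2]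

variable {O : Subalgebra k K} {ev : O →ₐ[k] k} {π : K}

private theorem X6b_add {f g : K} (hf : Cg O ev π 0 f 0) (hg : Cg O ev π 0 g 0) :
    Cg O ev π 0 (f + g) 0 := by
  have := cg_add hf hg
  rwa [add_zero] at this

private theorem X6b_mul {f g : K} (hf : Cg O ev π 0 f 0) (hg : Cg O ev π 0 g 0) :
    Cg O ev π 0 (f * g) 0 := by
  have := cg_mul hf hg hg (cg_refl 0 0)
  rwa [mul_zero] at this

private theorem X6b_sum {ι : Type} (s : Finset ι) {f : ι → K} (h : ∀ i ∈ s, Cg O ev π 0 (f i) 0) :
    Cg O ev π 0 (∑ i ∈ s, f i) 0 := by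
  have := cg_sum (O := O) (ev := ev) (π := π) s (N := 0) (f := f) (g := fun _ => 0) h
  rwa [Finset.sum_const_zero] at this

private theorem X6b_alg (a : k) : Cg O ev π 0 (algebraMap k K a) 0 := loc_O (algebraMap k O a)

private theorem X6b_aeval {f : K} (hf : Cg O ev π 0 f 0) (p : Polynomial k) :
    Cg O ev π 0 (Polynomial.aeval f p) 0 := by
  induction p using Polynomial.induction_on with
  | C a => rw [Polynomial.aeval_C]; exact X6b_alg a
  | add p q hp hq => rw [map_add]; exact X6b_add hp hq
  | monomial m a h =>
    rw [pow_succ, ← mul_assoc, map_mul, Polynomial.aeval_X]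
    exact X6b_mul h hf

private theorem X6b_other {ev' : O →ₐ[k] k} {π' : K} (hp : Pole O ev' π') (hne : ev' ≠ ev) :
    Cg O ev π 0 π' 0 := by
  obtain ⟨f₀, hf₀⟩ : ∃ f : O, ev' f ≠ ev f := by
    by_contra hcon
    push Not at hcon
    exact hne (AlgHom.ext hcon)
  refine ⟨f₀ - algebraMap k O (ev' f₀), ⟨_, hp.1 f₀⟩, ?_, ?_⟩
  · rw [map_sub, AlgHom.commutes]
    intro h
    apply hf₀
    have := sub_eq_zero.mp h
    rw [this]; rfl
  · rw [sub_zero, pow_zero, mul_one, Subalgebra.coe_sub, Subalgebra.coe_algebraMap]

end

private theorem X6b_deg {k : Type} [Field k] {m n q : ℕ} {d N : Fin m → ℕ} (_hN : ∀ i, N i ≤ d i)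
    (y : Fin m → Fin (n + 1) → ℕ → k) (a : Fin (n + 1)) (i : Fin m) :
    (tp (q := q) (d := d) (N := N) y a i).natDegree ≤ d i := by
  unfold tp
  refine (Polynomial.natDegree_add_le _ _).trans (max_le ?_ ?_)
  · refine Polynomial.natDegree_sum_le_of_forall_le _ _ fun l _ => ?_
    refine (Polynomial.natDegree_monomial_le _).trans ?_
    have := l.2
    omega
  · refine Polynomial.natDegree_sum_le_of_forall_le _ _ fun l _ => ?_
    refine (Polynomial.natDegree_monomial_le _).trans ?_
    omega

private theorem X6b_coeff {k : Type} [Field k] {m n q : ℕ} {d N : Fin m → ℕ} (hN : ∀ i, N i ≤ d i)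
    (y : Fin m → Fin (n + 1) → ℕ → k) (a : Fin (n + 1)) (i : Fin m) (l : ℕ) (hl : l < N i) :
    (tp (q := q) (d := d) (N := N) y a i).coeff (d i - l) =
      MvPolynomial.C (y i a l) * MvPolynomial.X (Sum.inl i) ^ l := by
  unfold tp
  have hNi := hN i
  rw [Polynomial.coeff_add, Polynomial.finsetSum_coeff, Polynomial.finsetSum_coeff]
  rw [Finset.sum_eq_zero, zero_add, Finset.sum_eq_single l]
  · rw [Polynomial.coeff_monomial, if_pos rfl]
  · intro l' hl' hne
    rw [Polynomial.coeff_monomial, if_neg]
    have := Finset.mem_range.mp hl'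
    omega
  · intro hcon
    exact absurd (Finset.mem_range.mpr hl) hcon
  · intro l' _
    rw [Polynomial.coeff_monomial, if_neg]
    have := l'.2
    omega

theorem tops {k K : Type} [Field k] [Infinite k] [Field K] [Algebra k K] {O : Subalgebra k K}
    {n m q : ℕ} (hn : 2 ≤ n) {F : MvPolynomial (Fin (n + 1)) O} (hF : F.IsHomogeneous n)
    {P : Fin (n + 1) → O} {ρ : O} (T : Cmb O F P ρ m) (x : Fin q → O)
    (Λ : Fin (n + 1) → Fin (n + 1) → MvPolynomial (Fin (n + 2)) O) (hΛ : PsiEq F P ρ Λ)
    (u : MvPolynomial (XI n q T.d T.N) O)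
    (c : Fin m → Polynomial (MvPolynomial (XI n q T.d T.N) k)) (h : UC T x (psi F P ρ Λ) u c)
    (i : Fin m) (l : ℕ) (hl : l < T.N i) : (c i).coeff (n * T.d i - l) = 0 := by
  classical
  have key : (c i).coeff (n * T.d i - l) * MvPolynomial.X (Sum.inl i) = 0 := by
    refine MvPolynomial.funext fun z => ?_
    rw [map_mul, MvPolynomial.eval_X, map_zero]
    by_cases he : z (Sum.inl i) = 0
    · rw [he, mul_zero]
    · have hz : MvPolynomial.eval z ((c i).coeff (n * T.d i - l)) = 0 := by
        obtain ⟨hdeg, heq, -⟩ := h
        have hev := congrArg (MvPolynomial.eval (fun v => algebraMap k K (z v))) heq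
        rw [X6b_pv, map_add, map_sum, X6b_reg] at hev
        simp only [X6b_poly] at hev
        set E : K := ((MvPolynomial.eval (fun v => algebraMap k O (z v)) u : O) : K) with hE
        set V : Fin (n + 1) → K := fun a => MvPolynomial.eval (fun v => algebraMap k K (z v))
          (yy T.π x T.y a) with hV
        have hVa : ∀ a, V a = (∑ b, (x b : K) * algebraMap k K (z (Sum.inr (Sum.inl (a, b))))) +
            ∑ i', Polynomial.aeval (algebraMap k K (z (Sum.inl i')) * T.π i')
              ((tp T.y a i').map (MvPolynomial.eval z)) := by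
          intro a
          simp only [hV, yy, map_add, map_sum, map_mul, MvPolynomial.eval_C, MvPolynomial.eval_X,
            X6b_poly]
        have hrho := rho_pv F P ρ Λ hΛ (O.subtype : O →+* K) V
        rw [hev] at hrho
        have hloc : ∀ i', i' ≠ i → Cg O (T.ev i) (T.π i) 0
            (algebraMap k K (z (Sum.inl i')) * T.π i') 0 := by
          intro i' hi'
          refine X6b_mul (X6b_alg _) (X6b_other (T.pole i') fun hcon => hi' (T.inj hcon))
        have hmain := top_local (T.pole i) (n := n) (d := T.d i) (N := T.N i) (by omega) (T.hN i)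
          F hF ρ (T.ρ0 i) (T.y i) (T.jet i) (z (Sum.inl i)) he
          (fun a => (tp T.y a i).map (MvPolynomial.eval z))
          (fun a => (Polynomial.natDegree_map_le).trans (X6b_deg T.hN T.y a i))
          (fun a l' hl' => by
            rw [Polynomial.coeff_map, X6b_coeff T.hN T.y a i l' hl', map_mul, map_pow,
              MvPolynomial.eval_C, MvPolynomial.eval_X])
          (fun a => (P a : K) + (ρ : K) *
            ((∑ b, (x b : K) * algebraMap k K (z (Sum.inr (Sum.inl (a, b))))) +
            ∑ i' ∈ Finset.univ.erase i,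
              Polynomial.aeval (algebraMap k K (z (Sum.inl i')) * T.π i')
              ((tp T.y a i').map (MvPolynomial.eval z))))
          (fun a => by
            refine X6b_add (loc_O _) (X6b_mul (loc_O _) (X6b_add ?_ ?_))
            · exact X6b_sum _ fun b _ => X6b_mul (loc_O _) (X6b_alg _)
            · exact X6b_sum _ fun i' hi' => X6b_aeval (hloc i' (Finset.ne_of_mem_erase hi')) _)
          ((c i).map (MvPolynomial.eval z))
          ((Polynomial.natDegree_map_le).trans (hdeg i).2)
          ((ρ : K) * (E + ∑ i' ∈ Finset.univ.erase i,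
              Polynomial.aeval (algebraMap k K (z (Sum.inl i')) * T.π i')
              ((c i').map (MvPolynomial.eval z))))
          (by
            refine X6b_mul (loc_O _) (X6b_add (loc_O _) ?_)
            exact X6b_sum _ fun i' hi' => X6b_aeval (hloc i' (Finset.ne_of_mem_erase hi')) _)
          (by
            rw [← Finset.add_sum_erase Finset.univ _ (Finset.mem_univ i)] at hrho
            have hfun : (fun a => (O.subtype : O →+* K) (P a) + (O.subtype : O →+* K) ρ * V a) =
                fun a => ((P a : K) + (ρ : K) *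
            ((∑ b, (x b : K) * algebraMap k K (z (Sum.inr (Sum.inl (a, b))))) +
            ∑ i' ∈ Finset.univ.erase i,
              Polynomial.aeval (algebraMap k K (z (Sum.inl i')) * T.π i')
              ((tp T.y a i').map (MvPolynomial.eval z)))) +
              (ρ : K) * Polynomial.aeval (algebraMap k K (z (Sum.inl i)) * T.π i)
                ((tp T.y a i).map (MvPolynomial.eval z)) := by
              funext a
              rw [hVa a, ← Finset.add_sum_erase Finset.univ
                (fun i' => Polynomial.aeval (algebraMap k K (z (Sum.inl i')) * T.π i')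
              ((tp T.y a i').map (MvPolynomial.eval z))) (Finset.mem_univ i)]
              have h1 : (O.subtype : O →+* K) (P a) = (P a : K) := rfl
              have h2 : (O.subtype : O →+* K) ρ = (ρ : K) := rfl
              rw [h1, h2]
              ring
            rw [hfun] at hrho
            rw [MvPolynomial.eval_map]
            rw [← hrho]
            have h2 : (O.subtype : O →+* K) ρ = (ρ : K) := rfl
            rw [h2]
            ring)
          l hl
        rwa [Polynomial.coeff_map] at hmain
      rw [hz, zero_mul]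
  rcases mul_eq_zero.mp key with h0 | h0
  · exact h0
  · exact absurd h0 (MvPolynomial.X_ne_zero _)

end Q9
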