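import Pool.Agent.LibQ9.XDefs

/-!
[Q9 X7a] (MEDIUM; only XDefs) Coordinates of the functions with bounded poles modulo `s^B R`.

PLAN. `V = {f | f s^C ∈ R}`, `W = {f | Inf M B f}` are `k`-subspaces of `K`, `W ≤ V` (`r s^B s^C ∈ R`, `s ∈ R`). `M.finR C B`: `U` finite-dimensional with `V ≤ U + W`, so `V / W` is finite-dimensional (`V/W` embeds in `(U + W)/W`, a quotient of `U`). Let `β_p ∈ V` represent a basis of `V / W`, `κ_p` functionals on `K` which are `0` on `W` and coordinates on `V/W` (the linear map `V → V/W → k` extended to `K`: `LinearMap.exists_extend`; or: extend functionals of `V/W ≤ K/W` to `K/W`).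
`f - Σ κ_p(f) β_p ∈ W` for `f ∈ V`.
-/

set_option autoImplicit false

namespace Q9

theorem exists_kappa {k K : Type} [Field k] [Field K] [Algebra k K] (M : Mdl k K) (C B : ℕ) :
    ∃ (q : ℕ) (β : Fin q → K) (κ : Fin q → K →ₗ[k] k), (∀ p f, Inf M B f → κ p f = 0) ∧
      (∀ p p', κ p (β p') = if p = p' then 1 else 0) ∧
      (∀ p, β p * (M.t : K)⁻¹ ^ C ∈ M.R) ∧
      ∀ f : K, f * (M.t : K)⁻¹ ^ C ∈ M.R →
        Inf M B (f - ∑ p, algebraMap k K (κ p f) * β p) := by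
  classical
  let W : Submodule k K :=
    Submodule.map (LinearMap.mulRight k ((M.t : K)⁻¹ ^ B)) (Subalgebra.toSubmodule M.R)
  let V : Submodule k K :=
    Submodule.comap (LinearMap.mulRight k ((M.t : K)⁻¹ ^ C)) (Subalgebra.toSubmodule M.R)
  have hW : ∀ f, f ∈ W ↔ Inf M B f := by
    intro f
    constructor
    · rintro ⟨r, hr, rfl⟩
      exact ⟨r, hr, rfl⟩
    · rintro ⟨r, hr, rfl⟩
      exact ⟨r, hr, rfl⟩
  have hV : ∀ f, f ∈ V ↔ f * (M.t : K)⁻¹ ^ C ∈ M.R := fun f => Iff.rfl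
  obtain ⟨U, hU, hUV⟩ := M.finR C B
  have hle : V.map W.mkQ ≤ U.map W.mkQ := by
    rintro _ ⟨f, hf, rfl⟩
    obtain ⟨u, hu, r, hr, h⟩ := hUV f ((hV f).1 hf)
    refine ⟨u, hu, ?_⟩
    rw [Submodule.mkQ_apply, Submodule.mkQ_apply, eq_comm, Submodule.Quotient.eq, hW]
    exact ⟨r, hr, h⟩
  have hfd : FiniteDimensional k (V.map W.mkQ) := Submodule.finiteDimensional_of_le hle
  let bs := Module.finBasis k (V.map W.mkQ)
  have hβ : ∀ p, ∃ f ∈ V, W.mkQ f = (bs p : K ⧸ W) := by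
    intro p
    obtain ⟨f, hf, h⟩ := (bs p).2
    exact ⟨f, hf, h⟩
  choose β hβV hβ using hβ
  have hκ : ∀ p, ∃ g : (K ⧸ W) →ₗ[k] k, g ∘ₗ (V.map W.mkQ).subtype = bs.coord p :=
    fun p => LinearMap.exists_extend (bs.coord p)
  choose g hg using hκ
  have hg' : ∀ p (v : V.map W.mkQ), g p (v : K ⧸ W) = bs.coord p v := by
    intro p v
    rw [← hg p]
    rfl
  refine ⟨_, β, fun p => g p ∘ₗ W.mkQ, ?_, ?_, ?_, ?_⟩
  · intro p f hf
    have h1 : W.mkQ f = 0 := by
      rw [Submodule.mkQ_apply, Submodule.Quotient.mk_eq_zero]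
      exact (hW f).2 hf
    rw [LinearMap.comp_apply, h1, map_zero]
  · intro p p'
    rw [LinearMap.comp_apply, hβ p', hg' p (bs p'), Module.Basis.coord_apply,
      Module.Basis.repr_self, Finsupp.single_apply]
    by_cases h : p = p'
    · simp [h]
    · rw [if_neg h, if_neg (fun h' => h h'.symm)]
  · intro p
    exact (hV _).1 (hβV p)
  · intro f hf
    have hfV : W.mkQ f ∈ V.map W.mkQ := ⟨f, (hV f).2 hf, rfl⟩
    rw [← hW, ← Submodule.Quotient.mk_eq_zero, ← Submodule.mkQ_apply, map_sub, map_sum, sub_eq_zero]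
    have h1 := congrArg (Subtype.val) (bs.sum_repr ⟨W.mkQ f, hfV⟩)
    rw [Submodule.coe_sum] at h1
    refine h1.symm.trans (Finset.sum_congr rfl fun p _ => ?_)
    rw [← Algebra.smul_def, map_smul, hβ p, Submodule.coe_smul]
    congr 1
    rw [LinearMap.comp_apply, hg' p ⟨W.mkQ f, hfV⟩, Module.Basis.coord_apply]

end Q9
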