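import Mathlib

/-!
[Q9 X7b] (SHORT/MEDIUM; only Mathlib, linear algebra) Functionals vanishing on a subspace.

PLAN. `exists_lambda`: let `G` = span of the `g j`, finite-dimensional; its image in `V ⧸ W` is finite-dimensional; take the coordinate functionals of a basis of the image, extend them to `V ⧸ W` (`LinearMap.exists_extend`) and compose with `V → V ⧸ W`.
`exists_mu`: `D = W₁ ⊓ W₂`, basis `r`, `μ` = coordinates extended to `V`. Given `lam`, `c i = lam (r i)`, `lam' = lam - Σ c i • μ i` vanishes on `D`. Define `l₁` on `W₁ ⊔ W₂` with `l₁ = 0` on `W₁` and `l₁ = lam'` on `W₂`: consistent because `lam' = 0` on `D`; e.g.: the quotient map `V → V ⧸ W₁` restricted to `W₂` has kernel `D` (inside `W₂`), so `lam'` on `W₂` factors through its image in `V ⧸ W₁`; extend to `V ⧸ W₁` and compose. `l₂ = lam' - l₁` vanishes on `W₂`.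
-/

set_option autoImplicit false

namespace Q9

theorem exists_lambda {k V : Type} [Field k] [AddCommGroup V] [Module k V] (W : Submodule k V)
    {J : Type} [Fintype J] (g : J → V) :
    ∃ (q : ℕ) (lam : Fin q → V →ₗ[k] k), (∀ r, ∀ f ∈ W, lam r f = 0) ∧
      ∀ α : J → k, (∀ r, lam r (∑ j, α j • g j) = 0) → ∑ j, α j • g j ∈ W := by
  classical
  set R : Submodule k (V ⧸ W) := Submodule.span k (Set.range fun j => W.mkQ (g j)) with hR
  haveI : FiniteDimensional k R := FiniteDimensional.span_of_finite k (Set.finite_range _)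
  let b := Module.finBasis k R
  have hext : ∀ i, ∃ ψ : (V ⧸ W) →ₗ[k] k, ψ ∘ₗ R.subtype = b.coord i := fun i =>
    LinearMap.exists_extend (b.coord i)
  choose ψ hψ using hext
  refine ⟨Module.finrank k R, fun i => (ψ i) ∘ₗ W.mkQ, ?_, ?_⟩
  · intro r f hf
    have : W.mkQ f = 0 := by simpa using hf
    simp only [LinearMap.comp_apply, this, map_zero]
  · intro α hα
    have hmem : W.mkQ (∑ j, α j • g j) ∈ R := by
      rw [map_sum]
      refine Submodule.sum_mem _ fun j _ => ?_
      rw [map_smul]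
      exact Submodule.smul_mem _ _ (Submodule.subset_span ⟨j, rfl⟩)
    have h0 : (⟨W.mkQ (∑ j, α j • g j), hmem⟩ : R) = 0 := by
      apply b.ext_elem
      intro i
      have h1 := LinearMap.congr_fun (hψ i) ⟨W.mkQ (∑ j, α j • g j), hmem⟩
      have h2 := hα i
      simp only [LinearMap.comp_apply] at h1 h2
      simp only [map_zero, Finsupp.coe_zero, Pi.zero_apply]
      rw [Module.Basis.coord_apply] at h1
      rw [← h1]
      exact h2
    have h3 : W.mkQ (∑ j, α j • g j) = 0 := congrArg Subtype.val h0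
    rw [Submodule.mkQ_apply] at h3
    exact (Submodule.Quotient.mk_eq_zero W).mp h3

theorem exists_mu {k V : Type} [Field k] [AddCommGroup V] [Module k V] (W₁ W₂ : Submodule k V)
    (h : FiniteDimensional k ↥(W₁ ⊓ W₂)) :
    ∃ (s : ℕ) (μ : Fin s → V →ₗ[k] k) (r : Fin s → V), (∀ i, r i ∈ W₁ ∧ r i ∈ W₂) ∧
      (∀ i j, μ i (r j) = if i = j then 1 else 0) ∧
      ∀ lam : V →ₗ[k] k, ∃ (c : Fin s → k) (l₁ l₂ : V →ₗ[k] k), (∀ f ∈ W₁, l₁ f = 0) ∧
        (∀ f ∈ W₂, l₂ f = 0) ∧ lam = ∑ i, c i • μ i + l₁ + l₂ := by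
  classical
  let b := Module.finBasis k ↥(W₁ ⊓ W₂)
  have hext : ∀ i, ∃ ψ : V →ₗ[k] k, ψ ∘ₗ (W₁ ⊓ W₂).subtype = b.coord i := fun i =>
    LinearMap.exists_extend (b.coord i)
  choose μ hμ using hext
  have hμr : ∀ i j, μ i ((b j : ↥(W₁ ⊓ W₂)) : V) = if i = j then 1 else 0 := by
    intro i j
    have h1 := LinearMap.congr_fun (hμ i) (b j)
    simp only [LinearMap.comp_apply, Submodule.subtype_apply, Module.Basis.coord_apply,
      Module.Basis.repr_self] at h1
    rw [h1, Finsupp.single_apply]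
    by_cases hij : i = j
    · subst hij; simp
    · rw [if_neg (fun h => hij h.symm), if_neg hij]
  refine ⟨Module.finrank k ↥(W₁ ⊓ W₂), μ, fun i => ((b i : ↥(W₁ ⊓ W₂)) : V), ?_, hμr, ?_⟩
  · intro i
    exact ⟨(b i).2.1, (b i).2.2⟩
  · intro lam
    set lam' : V →ₗ[k] k := lam - ∑ i, lam ((b i : ↥(W₁ ⊓ W₂)) : V) • μ i with hlam'
    have hvan : ∀ f : ↥(W₁ ⊓ W₂), lam' (f : V) = 0 := by
      have : lam' ∘ₗ (W₁ ⊓ W₂).subtype = 0 := by
        apply b.ext
        intro j
        simp only [LinearMap.comp_apply, Submodule.subtype_apply, LinearMap.zero_apply, hlam',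
          LinearMap.sub_apply, LinearMap.sum_apply, LinearMap.smul_apply, hμr, smul_eq_mul,
          mul_ite, mul_one, mul_zero, Finset.sum_ite_eq', Finset.mem_univ, if_true, sub_self]
      intro f
      exact LinearMap.congr_fun this f
    set φ : ↥W₂ →ₗ[k] (V ⧸ W₁) := W₁.mkQ ∘ₗ W₂.subtype with hφ
    have hmem : (lam' ∘ₗ W₂.subtype : Module.Dual k ↥W₂) ∈ (LinearMap.ker φ).dualAnnihilator := by
      rw [Submodule.mem_dualAnnihilator]
      intro w hw
      have hw1 : (w : V) ∈ W₁ := by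
        simpa [hφ] using hw
      exact hvan ⟨(w : V), hw1, w.2⟩
    rw [← LinearMap.range_dualMap_eq_dualAnnihilator_ker] at hmem
    obtain ⟨ψ, hψ⟩ := hmem
    refine ⟨fun i => lam ((b i : ↥(W₁ ⊓ W₂)) : V), ψ ∘ₗ W₁.mkQ, lam' - ψ ∘ₗ W₁.mkQ, ?_, ?_, ?_⟩
    · intro f hf
      have : W₁.mkQ f = 0 := by simpa using hf
      simp only [LinearMap.comp_apply, this, map_zero]
    · intro f hf
      have h1 := LinearMap.congr_fun hψ ⟨f, hf⟩
      simp only [LinearMap.dualMap_apply, LinearMap.comp_apply, Submodule.subtype_apply, hφ] at h1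
      simp only [LinearMap.sub_apply, LinearMap.comp_apply]
      rw [h1, sub_self]
    · rw [hlam']
      abel

end Q9
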