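import Pool.Agent.LibQ9.X2Defs

/-!
[Q9 X7c] Subspaces of `K`: `IN`, `II`, bounded functions; bounds at infinity of `yy`.
-/

set_option autoImplicit false

namespace Q9

private theorem X7c_alg {k K : Type} [Field k] [Field K] [Algebra k K] (M : Mdl k K) (c : k) {f : K}
    (hf : f ∈ M.R) : algebraMap k K c * f ∈ M.R :=
  M.R.mul_mem (M.R.algebraMap_mem c) hf

private theorem X7c_mono {k K : Type} [Field k] [Field K] [Algebra k K] (M : Mdl k K) {f : K}
    {C C' : ℕ} (h : C ≤ C') (hf : f * (M.t : K)⁻¹ ^ C ∈ M.R) : f * (M.t : K)⁻¹ ^ C' ∈ M.R := by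
  obtain ⟨e, rfl⟩ := Nat.exists_eq_add_of_le h
  rw [pow_add, ← mul_assoc]
  exact M.R.mul_mem hf (M.R.pow_mem M.s_mem e)

private theorem X7c_inf_add {k K : Type} [Field k] [Field K] [Algebra k K] (M : Mdl k K) {B : ℕ}
    {f g : K} (hf : Inf M B f) (hg : Inf M B g) : Inf M B (f + g) := by
  obtain ⟨r, hr, rfl⟩ := hf
  obtain ⟨r', hr', rfl⟩ := hg
  exact ⟨r + r', M.R.add_mem hr hr', by ring⟩

private theorem X7c_inf_smul {k K : Type} [Field k] [Field K] [Algebra k K] (M : Mdl k K) {B : ℕ}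
    (c : k) {f : K} (hf : Inf M B f) : Inf M B (algebraMap k K c * f) := by
  obtain ⟨r, hr, rfl⟩ := hf
  exact ⟨algebraMap k K c * r, X7c_alg M c hr, by ring⟩

theorem in_sub {k K : Type} [Field k] [Field K] [Algebra k K] {O : Subalgebra k K} {n : ℕ}
    (Fd : Fin (n + 1) → O) : ∃ W : Submodule k K, ∀ f : K, f ∈ W ↔ IN Fd f := by
  refine ⟨{ carrier := {f | IN Fd f}, add_mem' := ?_, zero_mem' := ?_, smul_mem' := ?_ },
    fun f => Iff.rfl⟩
  · rintro f g ⟨β, rfl⟩ ⟨β', rfl⟩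
    refine ⟨fun a => β a + β' a, ?_⟩
    rw [← Finset.sum_add_distrib]
    refine Finset.sum_congr rfl fun a _ => ?_
    rw [Subalgebra.coe_add]
    ring
  · exact ⟨fun _ => 0, by simp⟩
  · rintro c f ⟨β, rfl⟩
    refine ⟨fun a => c • β a, ?_⟩
    rw [Finset.smul_sum]
    refine Finset.sum_congr rfl fun a _ => ?_
    rw [Subalgebra.coe_smul, mul_smul_comm]

theorem ii_sub {k K : Type} [Field k] [Field K] [Algebra k K] (M : Mdl k K) {n : ℕ}
    (Fd : Fin (n + 1) → M.O) (B : ℕ) : ∃ W : Submodule k K, ∀ f : K, f ∈ W ↔ II M Fd B f := by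
  refine ⟨{ carrier := {f | II M Fd B f}, add_mem' := ?_, zero_mem' := ?_, smul_mem' := ?_ },
    fun f => Iff.rfl⟩
  · rintro f g ⟨v, hv, rfl⟩ ⟨v', hv', rfl⟩
    refine ⟨fun a => v a + v' a, fun a => X7c_inf_add M (hv a) (hv' a), ?_⟩
    rw [← Finset.sum_add_distrib]
    refine Finset.sum_congr rfl fun a _ => ?_
    ring
  · exact ⟨fun _ => 0, fun _ => ⟨0, M.R.zero_mem, by simp⟩, by simp⟩
  · rintro c f ⟨v, hv, rfl⟩
    refine ⟨fun a => algebraMap k K c * v a, fun a => X7c_inf_smul M c (hv a), ?_⟩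
    rw [Finset.smul_sum]
    refine Finset.sum_congr rfl fun a _ => ?_
    rw [Algebra.smul_def]
    ring

private theorem X7c_bound_all {k K : Type} [Field k] [Field K] [Algebra k K] (M : Mdl k K)
    {ι : Type} [Finite ι] (f : ι → K) : ∃ C : ℕ, ∀ i, f i * (M.t : K)⁻¹ ^ C ∈ M.R := by
  choose c hc using fun i => M.exh (f i)
  obtain ⟨C, hC⟩ := Finite.exists_le c
  exact ⟨C, fun i => X7c_mono M (hC i) (hc i)⟩

theorem in_ii_fin {k K : Type} [Field k] [Field K] [Algebra k K] (M : Mdl k K) {n : ℕ}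
    (Fd : Fin (n + 1) → M.O) (B : ℕ) :
    ∃ U : Submodule k K, FiniteDimensional k U ∧ ∀ f : K, IN Fd f → II M Fd B f → f ∈ U := by
  obtain ⟨C, hC⟩ := X7c_bound_all M (fun a => (Fd a : K))
  obtain ⟨U, hU, h⟩ := M.fin C
  refine ⟨U, hU, fun f hf hf' => h f ?_ ?_⟩
  · obtain ⟨β, rfl⟩ := hf
    exact M.O.sum_mem fun a _ => M.O.mul_mem (Fd a).2 (β a).2
  · obtain ⟨v, hv, rfl⟩ := hf'
    rw [Finset.sum_mul]
    refine M.R.sum_mem fun a _ => ?_
    obtain ⟨r, hr, hra⟩ := hv a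
    have h1 : (Fd a : K) * v a * (M.t : K)⁻¹ ^ C =
        ((Fd a : K) * (M.t : K)⁻¹ ^ C) * (r * (M.t : K)⁻¹ ^ B) := by
      rw [hra]
      ring
    rw [h1]
    exact M.R.mul_mem (hC a) (M.R.mul_mem hr (M.R.pow_mem M.s_mem B))

theorem exists_x {k K : Type} [Field k] [Field K] [Algebra k K] (M : Mdl k K) (C : ℕ) :
    ∃ (q : ℕ) (x : Fin q → M.O), (∀ b, (x b : K) * (M.t : K)⁻¹ ^ C ∈ M.R) ∧
      ∀ f ∈ M.O, f * (M.t : K)⁻¹ ^ C ∈ M.R →
        ∃ ξ : Fin q → k, f = ∑ b, algebraMap k K (ξ b) * x b := by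
  let W : Submodule k K :=
    { carrier := {f | f ∈ M.O ∧ f * (M.t : K)⁻¹ ^ C ∈ M.R}
      add_mem' := by
        rintro f g ⟨h1, h2⟩ ⟨h3, h4⟩
        refine ⟨M.O.add_mem h1 h3, ?_⟩
        rw [add_mul]
        exact M.R.add_mem h2 h4
      zero_mem' := ⟨M.O.zero_mem, by rw [zero_mul]; exact M.R.zero_mem⟩
      smul_mem' := by
        rintro c f ⟨h1, h2⟩
        refine ⟨M.O.smul_mem h1 c, ?_⟩
        rw [smul_mul_assoc]
        exact M.R.smul_mem h2 c }
  obtain ⟨U, hU, h⟩ := M.fin C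
  have hWU : W ≤ U := fun f hf => h f hf.1 hf.2
  have hW : FiniteDimensional k W := Submodule.finiteDimensional_of_le hWU
  let b := Module.finBasis k W
  refine ⟨Module.finrank k W, fun i => ⟨(b i : K), (b i).2.1⟩, fun i => (b i).2.2, ?_⟩
  intro f hf hf'
  refine ⟨fun i => b.repr ⟨f, hf, hf'⟩ i, ?_⟩
  have h1 := congrArg (Subtype.val : W → K) (b.sum_repr ⟨f, hf, hf'⟩)
  rw [Submodule.coe_sum] at h1
  refine h1.symm.trans (Finset.sum_congr rfl fun i _ => ?_)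
  rw [Submodule.coe_smul, Algebra.smul_def]

theorem bound_all {k K : Type} [Field k] [Field K] [Algebra k K] (M : Mdl k K) {ι : Type}
    [Finite ι] (f : ι → K) : ∃ C : ℕ, ∀ i, f i * (M.t : K)⁻¹ ^ C ∈ M.R :=
  X7c_bound_all M f

/-- all coefficients are bounded -/
private def X7c_S {k K : Type} [Field k] [Field K] [Algebra k K] (M : Mdl k K) (C : ℕ) {I : Type}
    (f : MvPolynomial I K) : Prop :=
  ∀ ν, MvPolynomial.coeff ν f * (M.t : K)⁻¹ ^ C ∈ M.R

private theorem X7c_S_add {k K : Type} [Field k] [Field K] [Algebra k K] {M : Mdl k K} {C : ℕ}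
    {I : Type} {f g : MvPolynomial I K} (hf : X7c_S M C f) (hg : X7c_S M C g) :
    X7c_S M C (f + g) := by
  intro ν
  rw [MvPolynomial.coeff_add, add_mul]
  exact M.R.add_mem (hf ν) (hg ν)

private theorem X7c_S_sum {k K : Type} [Field k] [Field K] [Algebra k K] {M : Mdl k K} {C : ℕ}
    {I J : Type} (s : Finset J) {f : J → MvPolynomial I K} (hf : ∀ j ∈ s, X7c_S M C (f j)) :
    X7c_S M C (∑ j ∈ s, f j) := by
  intro ν
  rw [MvPolynomial.coeff_sum, Finset.sum_mul]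
  exact M.R.sum_mem fun j hj => hf j hj ν

private theorem X7c_S_inc {k K : Type} [Field k] [Field K] [Algebra k K] {M : Mdl k K} {C : ℕ}
    {I : Type} (g : MvPolynomial I k) {c : K} (hc : c * (M.t : K)⁻¹ ^ C ∈ M.R) :
    X7c_S M C (MvPolynomial.C c * inc k K I g) := by
  intro ν
  rw [MvPolynomial.coeff_C_mul, inc, MvPolynomial.coeff_map]
  have : c * algebraMap k K (MvPolynomial.coeff ν g) * (M.t : K)⁻¹ ^ C =
      algebraMap k K (MvPolynomial.coeff ν g) * (c * (M.t : K)⁻¹ ^ C) := by ring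
  rw [this]
  exact X7c_alg M _ hc

theorem yy_bound {k K : Type} [Field k] [Field K] [Algebra k K] (M : Mdl k K) {n m q : ℕ}
    {F : MvPolynomial (Fin (n + 1)) M.O} {P : Fin (n + 1) → M.O} {ρ : M.O} (T : Cmb M.O F P ρ m)
    (x : Fin q → M.O) (C : ℕ) (hx : ∀ b, (x b : K) * (M.t : K)⁻¹ ^ C ∈ M.R)
    (hπ : ∀ i j, j ≤ T.d i → T.π i ^ j * (M.t : K)⁻¹ ^ C ∈ M.R) (a : Fin (n + 1))
    (ν : XI n q T.d T.N →₀ ℕ) :
    MvPolynomial.coeff ν (yy (d := T.d) (N := T.N) T.π x T.y a) * (M.t : K)⁻¹ ^ C ∈ M.R := by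
  revert ν
  change X7c_S M C (yy (d := T.d) (N := T.N) T.π x T.y a)
  have hX : ∀ v : XI n q T.d T.N, (MvPolynomial.X v : MvPolynomial (XI n q T.d T.N) K) =
      inc k K _ (MvPolynomial.X v) := by
    intro v
    rw [inc, MvPolynomial.map_X]
  have hmon : ∀ (i : Fin m) (j : ℕ) (g : MvPolynomial (XI n q T.d T.N) k), j ≤ T.d i →
      X7c_S M C ((Polynomial.monomial j g).eval₂ (inc k K (XI n q T.d T.N))
        (MvPolynomial.C (T.π i) * MvPolynomial.X (Sum.inl i))) := by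
    intro i j g hj
    rw [Polynomial.eval₂_monomial, mul_pow, ← map_pow, hX, ← map_pow]
    have : inc k K (XI n q T.d T.N) g * (MvPolynomial.C (T.π i ^ j) *
        inc k K (XI n q T.d T.N) (MvPolynomial.X (Sum.inl i) ^ j)) =
        MvPolynomial.C (T.π i ^ j) * inc k K (XI n q T.d T.N)
          (g * MvPolynomial.X (Sum.inl i) ^ j) := by
      rw [map_mul]
      ring
    rw [this]
    exact X7c_S_inc _ (hπ i j hj)
  unfold yy
  refine X7c_S_add ?_ ?_
  · refine X7c_S_sum _ fun b _ => ?_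
    rw [hX]
    exact X7c_S_inc _ (hx b)
  · refine X7c_S_sum _ fun i _ => ?_
    unfold tp
    rw [Polynomial.eval₂_add, Polynomial.eval₂_finsetSum, Polynomial.eval₂_finsetSum]
    refine X7c_S_add ?_ ?_
    · refine X7c_S_sum _ fun l _ => hmon i _ _ ?_
      have := l.2
      omega
    · refine X7c_S_sum _ fun l _ => hmon i _ _ ?_
      omega

end Q9
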