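import Pool.Agent.LibQ9.X4
import Pool.Agent.LibQ9.X5
import Pool.Agent.LibQ9.X6b
import Pool.Agent.LibQ9.X7a
import Pool.Agent.LibQ9.X7b
import Pool.Agent.LibQ9.X7c
import Pool.Agent.LibQ9.X10
import Pool.Agent.LibQ9.X10b
import Pool.Agent.LibQ9.X15

/-!
[Q9 X16] (MEDIUM/STRONG, assembly; may cite all imported rows as stated) A general solution of the system.

PLAN. `Fd = gd F P`; `ρ ≠ 0` is in `IN`, so some `Fd a ≠ 0`; `Λ` from X1 `exists_lam`; `B` from X10b `psi_inf`. Given `m`, `T`, `S₁`, `S₂`: `C` with all `π_i^j s^C ∈ R` (`j ≤ d_i`, in particular `j = 0, 1`; X7c `bound_all`, index `Σ i, Fin (d i + 1)`). `x` from X7c `exists_x M C`. `u`, `c` from X5 `exists_uc`. `β`, `κ` from X7a `exists_kappa M C B`; the coefficients of `yy_a` times `s^C` are in `R` (X7c `yy_bound`), so `hκ` of X10 holds coefficientwise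
(`coeff ν (Σ_p C(β p) * inc (eA (a,p))) = Σ_p κ_p(coeff ν yy_a) β_p`, X8 `coeff_lm`). `W₁`, `W₂` from X7c `in_sub`, `ii_sub`; `exists_lambda (W₁ ⊔ W₂)` with `g (a, p) = Fd a * β p`: `lam`; `exists_mu W₁ W₂` (finite-dimensional by X7c `in_ii_fin`): `μ`, `r`. X10 `xsyz`: `E`. X4 `smooth_red` with `A = eA T x κ`, `B = eB T u c μ`, `z₀ = xz q T`:
`hA`: X8 `eval_lm`, X13a `yy_xz`; `hB`: X13a `c_xz`, `u_xz` with `eval_lm`. `hE`: if all `eB` vanish at `z` then ALL `(c i).coeff j` vanish: `j = 0` (`UC`), `1 ≤ j ≤ n d_i - N_i` (`eB`), `n d_i - N_i < j ≤ n d_i` (X6b `tops`, `j = n d_i - l`, `l < N_i`), `j > n d_i` (`natDegree`). `hJ`: `E(z₀) α = 0` means `lam r (Σ_j α_j (Fd β)) = 0` for all `r`, so `Σ α_j Fd β ∈ W₁ ⊔ W₂` (`Submodule.mem_sup`): X14b `onto_sys` with `S = S₁`.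
`v` from X15. `S = image of inl`. The result: `Ω`, `z`. Finally X10 `u_zero` (all `eA`, `(c i).coeff j`, `lm (μ r) (map u)` vanish at `z`).
-/

set_option autoImplicit false

namespace Q9

theorem sol_gen {k K : Type} [Field k] [IsAlgClosed k] [Field K] [Algebra k K] (M : Mdl k K)
    {n : ℕ} (hn : 2 ≤ n) (F : MvPolynomial (Fin (n + 1)) M.O) (hF : F.IsHomogeneous n)
    (P : Fin (n + 1) → M.O) (hP : MvPolynomial.eval P F = 0) (ρ : M.O) (hρ : IN (gd F P) (ρ : K))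
    (hρ0 : ρ ≠ 0) :
    ∃ B : ℕ, ∀ (m : ℕ) (T : Cmb M.O F P ρ m) (S₁ S₂ : Finset (Fin m)), Disjoint S₁ S₂ →
      Spn M (gd F P) B T.π (fun i a => (T.ev i ρ)⁻¹ * (T.τ i a).coeff 1) S₁ →
      Spn M (gd F P) B T.π (fun i a => (T.ev i ρ)⁻¹ * (T.τ i a).coeff 1) S₂ →
      ∃ (q : ℕ) (x : Fin q → M.O)
        (Λ : Fin (n + 1) → Fin (n + 1) → MvPolynomial (Fin (n + 2)) M.O)
        (u : MvPolynomial (XI n q T.d T.N) M.O)
        (c : Fin m → Polynomial (MvPolynomial (XI n q T.d T.N) k)),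
        PsiEq F P ρ Λ ∧ UC T x (psi F P ρ Λ) u c ∧
        ∃ (Ω : Type) (_ : Field Ω) (_ : Algebra k Ω) (z : XI n q T.d T.N → Ω),
          (∀ i, z (Sum.inl i) ≠ 0) ∧ (∀ i j, MvPolynomial.aeval z ((c i).coeff j) = 0) ∧
          ∀ lam : K →ₗ[k] k,
            MvPolynomial.aeval z (lm lam (MvPolynomial.map (M.O.subtype : M.O →+* K) u)) = 0 := by
  classical
  haveI hinf : Infinite k := inferInstance
  have h0 : ∃ a, gd F P a ≠ 0 := by
    by_contra hc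
    push Not at hc
    obtain ⟨b, hb⟩ := hρ
    apply hρ0
    apply Subtype.ext
    rw [hb]
    show _ = (0 : K)
    refine Finset.sum_eq_zero fun a _ => ?_
    rw [hc a]
    show (0 : K) * _ = 0
    rw [zero_mul]
  obtain ⟨Λ, hΛ⟩ := exists_lam hn F hF P hP ρ
  obtain ⟨B, hB⟩ := psi_inf M F P ρ Λ h0
  refine ⟨B, fun m T S₁ S₂ hd hS₁ hS₂ => ?_⟩
  obtain ⟨C, hC⟩ := bound_all M (ι := Σ i : Fin m, Fin (T.d i + 1)) (fun p => T.π p.1 ^ (p.2 : ℕ))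
  have hπj : ∀ i j, j ≤ T.d i → T.π i ^ j * (M.t : K)⁻¹ ^ C ∈ M.R := fun i j hj =>
    hC ⟨i, ⟨j, Nat.lt_succ_of_le hj⟩⟩
  have hπ : ∀ i, T.π i * (M.t : K)⁻¹ ^ C ∈ M.R := by
    intro i
    have h1 := hπj i 1 (T.hd i)
    rwa [pow_one] at h1
  obtain ⟨q, x, hx, hx'⟩ := exists_x M C
  obtain ⟨u, c, h⟩ := exists_uc hn T x Λ hΛ
  obtain ⟨q₁, β, κ, hκ0, hκβ, hβ, hκ⟩ := exists_kappa M C B
  have hκy : ∀ a ν, Inf M B (MvPolynomial.coeff ν (yy (d := T.d) (N := T.N) T.π x T.y a -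
      ∑ p, MvPolynomial.C (β p) * inc k K (XI n q T.d T.N) (eA T x κ (a, p)))) := by
    intro a ν
    have h1 := hκ _ (yy_bound M T x C hx hπj a ν)
    rw [MvPolynomial.coeff_sub, MvPolynomial.coeff_sum]
    have h2 : ∑ p, MvPolynomial.coeff ν (MvPolynomial.C (β p) * inc k K (XI n q T.d T.N) (eA T x κ (a, p))) =
        ∑ p, algebraMap k K (κ p (MvPolynomial.coeff ν (yy (d := T.d) (N := T.N) T.π x T.y a))) * β p := by
      refine Finset.sum_congr rfl fun p _ => ?_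
      rw [MvPolynomial.coeff_C_mul]
      unfold inc
      rw [MvPolynomial.coeff_map, mul_comm]
      unfold eA
      rw [coeff_lm]
    rw [h2]
    exact h1
  obtain ⟨W₁, hW₁⟩ := in_sub (gd F P)
  obtain ⟨W₂, hW₂⟩ := ii_sub M (gd F P) B
  obtain ⟨q₃, lam, hl, hl'⟩ := exists_lambda (W₁ ⊔ W₂)
    (fun j : Fin (n + 1) × Fin q₁ => ((gd F P j.1 : M.O) : K) * β j.2)
  have hl1 : ∀ r f, IN (gd F P) f → lam r f = 0 := fun r f hf =>
    hl r f (Submodule.mem_sup_left ((hW₁ f).2 hf))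
  have hl2 : ∀ r f, II M (gd F P) B f → lam r f = 0 := fun r f hf =>
    hl r f (Submodule.mem_sup_right ((hW₂ f).2 hf))
  have hfin : FiniteDimensional k ↥(W₁ ⊓ W₂) := by
    obtain ⟨U, hU, hU'⟩ := in_ii_fin M (gd F P) B
    haveI := hU
    exact Submodule.finiteDimensional_of_le (fun f hf => hU' f ((hW₁ f).1 hf.1) ((hW₂ f).1 hf.2))
  obtain ⟨s₀, μ, r, hr, hμ, hdec⟩ := exists_mu W₁ W₂ hfin
  have hr' : ∀ i, IN (gd F P) (r i) ∧ II M (gd F P) B (r i) := fun i =>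
    ⟨(hW₁ _).1 (hr i).1, (hW₂ _).1 (hr i).2⟩
  obtain ⟨E, hE1, hE2⟩ := xsyz M hn hρ T x Λ hΛ u c h B (fun v hv => hB _ v hv) β κ hκy lam hl1 hl2
  obtain ⟨v, hvA, hvB, hv⟩ := kernel_vec M hn hρ T x Λ u c h B C S₁ S₂ hd hS₁ hS₂ hπ hx' β κ hκ0 hκβ hβ hκ
    μ r hr' hμ
  have hall : ∀ (Ω : Type) [Field Ω] [Algebra k Ω] (z : XI n q T.d T.N → Ω),
      (∀ j, MvPolynomial.aeval z (eB T u c μ j) = 0) → ∀ i j, MvPolynomial.aeval z ((c i).coeff j) = 0 := by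
    intro Ω _ _ z hz i j
    rcases Nat.eq_zero_or_pos j with rfl | hj
    · rw [(h.1 i).1, map_zero]
    · by_cases hj1 : j ≤ n * T.d i - T.N i
      · have h1 := hz (Sum.inl ⟨i, ⟨j - 1, by omega⟩⟩)
        have h2 : eB T u c μ (Sum.inl ⟨i, ⟨j - 1, by omega⟩⟩) = (c i).coeff (j - 1 + 1) := rfl
        rw [h2, Nat.sub_add_cancel hj] at h1
        exact h1
      · by_cases hj2 : n * T.d i < j
        · rw [Polynomial.coeff_eq_zero_of_natDegree_lt (lt_of_le_of_lt (h.1 i).2 hj2), map_zero]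
        · have h1 := tops hn hF T x Λ hΛ u c h i (n * T.d i - j) (by omega)
          rw [show n * T.d i - (n * T.d i - j) = j by omega] at h1
          rw [h1, map_zero]
  have hA : ∀ j, MvPolynomial.eval (xz q T) (eA T x κ j) = 0 := by
    intro j
    unfold eA
    rw [eval_lm, yy_xz, map_zero]
  have hB' : ∀ j, MvPolynomial.eval (xz q T) (eB T u c μ j) = 0 := by
    rintro (⟨i, j⟩ | j)
    · exact c_xz T x Λ u c h i ((j : ℕ) + 1)
    · show MvPolynomial.eval (xz q T) (lm (μ j) (MvPolynomial.map (M.O.subtype : M.O →+* K) u)) = 0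
      rw [eval_lm, u_xz T x Λ u c h, map_zero]
  have hE : ∀ (Ω : Type) [Field Ω] [Algebra k Ω] (z : XI n q T.d T.N → Ω),
      (∀ j, MvPolynomial.aeval z (eB T u c μ j) = 0) →
      ∀ r, ∑ j, MvPolynomial.aeval z (E r j) * MvPolynomial.aeval z (eA T x κ j) = 0 :=
    fun Ω _ _ z hz => hE2 Ω z (hall Ω z hz)
  have hJ : ∀ (α : Fin (n + 1) × Fin q₁ → k) (η : ((Σ i : Fin m, Fin (n * T.d i - T.N i)) ⊕ Fin s₀) → k),
      (E.map (MvPolynomial.eval (xz q T))).mulVec α = 0 →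
      ∃ δ : XI n q T.d T.N → k, (Jac (eA T x κ) (xz q T)).mulVec δ = α ∧
        (Jac (eB T u c μ) (xz q T)).mulVec δ = η := by
    intro α η hα
    have h1 : ∑ j, α j • (((gd F P j.1 : M.O) : K) * β j.2) ∈ W₁ ⊔ W₂ := by
      apply hl'
      intro r
      have h2 := congrFun hα r
      simp only [Matrix.mulVec, dotProduct, Matrix.map_apply, Pi.zero_apply] at h2
      rw [map_sum, ← h2]
      refine Finset.sum_congr rfl fun j _ => ?_
      rw [map_smul, hE1, smul_eq_mul, mul_comm]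
    obtain ⟨f₁, hf₁, f₂, hf₂, hf⟩ := Submodule.mem_sup.1 h1
    have h3 : ∑ j, algebraMap k K (α j) * (((gd F P j.1 : M.O) : K) * β j.2) = f₁ + f₂ := by
      rw [hf]
      exact Finset.sum_congr rfl fun j _ => (Algebra.smul_def _ _).symm
    obtain ⟨δ, -, h4, h5⟩ := onto_sys M hn T x Λ u c h B C S₁ hS₁ hπ hx' β κ hκ0 hκβ hβ μ r hr' hμ α f₁ f₂
      ((hW₁ _).1 hf₁) ((hW₂ _).1 hf₂) h3 η
    exact ⟨δ, h4, h5⟩
  obtain ⟨Ω, iΩ, aΩ, z, -, hzA, hzB, -, hzS⟩ := smooth_red (eA T x κ) (eB T u c μ) E (xz q T) hA hB' hE hJ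
    (Finset.univ.image (Sum.inl : Fin m → XI n q T.d T.N)) v hvA hvB (by
      intro i hi
      obtain ⟨i', -, rfl⟩ := Finset.mem_image.1 hi
      exact hv i')
  refine ⟨q, x, Λ, u, c, hΛ, h, Ω, iΩ, aΩ, z, fun i => hzS _ (Finset.mem_image.2 ⟨i, Finset.mem_univ _, rfl⟩),
    hall Ω z hzB, fun lam' => ?_⟩
  refine u_zero M hn hρ T x Λ hΛ u c h B (fun v hv => hB _ v hv) β κ hκy μ ?_ z (hall Ω z hzB) hzA ?_ lam'
  · intro l
    obtain ⟨cc, l₁, l₂, h1, h2, h3⟩ := hdec l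
    exact ⟨cc, l₁, l₂, fun f hf => h1 f ((hW₁ f).2 hf), fun f hf => h2 f ((hW₂ f).2 hf), h3⟩
  · intro j
    exact hzB (Sum.inr j)

end Q9
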