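import Pool.Agent.LibQ9.XDefs

/-!
[Q9 X3] (MEDIUM; only XDefs; X2 `pole_ne` may be reproved privately) Local expansions in powers of `π⁻¹`, and the congruences `Cg`.

PLAN. `π ≠ 0`. `pole_exp`: `f = f(b) + π⁻¹ f₁` with `f₁ = (f - f(b)) π ∈ O`; iterate. `loc_inv`: `π⁻¹ = h v⁻¹`: `v π⁻¹ = h` (`v = h π`). `pole_indep`: by induction on `l`: multiply by a power of `v` (`v π⁻¹ = h`): `h₀ v^N Σ c_l π^(-l) = Σ c_l h₀ v^(N-l) h^l` and `w v^N π^(-N) = w h^N`: an identity in `O`; apply `ev`: `c_0 ev(h₀) ev(v)^N = 0` if `N ≥ 1` (`ev h = 0`), so `c_0 = 0`;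
then multiply the original identity by `π` (the right side is `w π^(-(N-1))`, the left side `h₀ Σ c_(l+1) π^(-l)`) and use the induction hypothesis for `N - 1`.
Congruences: `h (f - g) = w π^(-N)`: products of the two `h`s. `cg_mul`: `f f' - g g' = (f - g) f' + g (f' - g')`, `f'` and `g` local. `cg_eval`: a polynomial over `O` at congruent local vectors: induction on the polynomial (`MvPolynomial.induction_on`), also the values of a polynomial over `O` at local vectors are local. `cg_le`: `π^(-N) = π^(-(N-N')) π^(-N')` and `v π⁻¹ = h`.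
-/

set_option autoImplicit false

namespace Q9

section

variable {k K : Type} [Field k] [Field K] [Algebra k K] {O : Subalgebra k K} {ev : O →ₐ[k] k}
  {π : K}

private theorem X3_ne (hp : Pole O ev π) : π ≠ 0 := by
  obtain ⟨-, h, v, -, hv, hv0⟩ := hp
  rintro rfl
  rw [mul_zero] at hv
  have : v = 0 := Subtype.ext hv
  exact hv0 (by rw [this, map_zero])

theorem pole_exp (hp : Pole O ev π) (f : O) (N : ℕ) : ∃ (c : ℕ → k) (w : O), c 0 = ev f ∧
    (f : K) = ∑ l ∈ Finset.range N, algebraMap k K (c l) * π⁻¹ ^ l + w * π⁻¹ ^ N := by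
  have hπ := X3_ne hp
  induction N generalizing f with
  | zero => exact ⟨fun _ => ev f, f, rfl, by simp⟩
  | succ N ih =>
    obtain ⟨c, w, -, hc⟩ := ih ⟨((f : K) - algebraMap k K (ev f)) * π, hp.1 f⟩
    refine ⟨fun l => Nat.casesOn l (ev f) c, w, rfl, ?_⟩
    rw [Finset.sum_range_succ']
    have h1 : (f : K) = algebraMap k K (ev f) +
        (((f : K) - algebraMap k K (ev f)) * π) * π⁻¹ := by
      rw [mul_assoc, mul_inv_cancel₀ hπ]; ring
    have h2 : (((f : K) - algebraMap k K (ev f)) * π) =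
        ∑ l ∈ Finset.range N, algebraMap k K (c l) * π⁻¹ ^ l + w * π⁻¹ ^ N := hc
    rw [h2] at h1
    refine h1.trans ?_
    have h3 : (∑ l ∈ Finset.range N, algebraMap k K (c l) * π⁻¹ ^ (l + 1)) =
        (∑ l ∈ Finset.range N, algebraMap k K (c l) * π⁻¹ ^ l) * π⁻¹ := by
      rw [Finset.sum_mul]
      refine Finset.sum_congr rfl fun l _ => ?_
      rw [pow_succ]; ring
    show _ = (∑ l ∈ Finset.range N, algebraMap k K (c l) * π⁻¹ ^ (l + 1)) +
      algebraMap k K (ev f) * π⁻¹ ^ 0 + w * π⁻¹ ^ (N + 1)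
    rw [h3, pow_succ]
    ring

theorem loc_inv (hp : Pole O ev π) : Cg O ev π 0 π⁻¹ 0 := by
  have hπ := X3_ne hp
  obtain ⟨-, h, v, -, hv, hv0⟩ := hp
  refine ⟨v, h, hv0, ?_⟩
  rw [hv, sub_zero, pow_zero, mul_one, mul_assoc, mul_inv_cancel₀ hπ, mul_one]

theorem pole_indep (hp : Pole O ev π) (N : ℕ) (c : ℕ → k) (h w : O) (hh : ev h ≠ 0)
    (hw : (h : K) * ∑ l ∈ Finset.range N, algebraMap k K (c l) * π⁻¹ ^ l = w * π⁻¹ ^ N) (l : ℕ)
    (hl : l < N) : c l = 0 := by
  have hπ := X3_ne hp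
  obtain ⟨-, u, v, hu, hv, hv0⟩ := hp
  have hvu : (v : K) * π⁻¹ = u := by rw [hv, mul_assoc, mul_inv_cancel₀ hπ, mul_one]
  induction N generalizing c w l with
  | zero => exact absurd hl (Nat.not_lt_zero _)
  | succ N ih =>
    have h0 : c 0 = 0 := by
      have e1 : h * ∑ l ∈ Finset.range (N + 1), algebraMap k O (c l) * (v ^ (N + 1 - l) * u ^ l) =
          w * u ^ (N + 1) := by
        apply Subtype.ext
        have e2 : ((h * ∑ l ∈ Finset.range (N + 1),
            algebraMap k O (c l) * (v ^ (N + 1 - l) * u ^ l) : O) : K) =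
            ((h : K) * ∑ l ∈ Finset.range (N + 1), algebraMap k K (c l) * π⁻¹ ^ l) *
              (v : K) ^ (N + 1) := by
          rw [MulMemClass.coe_mul, AddSubmonoidClass.coe_finsetSum, mul_assoc, Finset.sum_mul]
          congr 1
          refine Finset.sum_congr rfl fun l hl => ?_
          have hl' : l ≤ N + 1 := (Finset.mem_range.1 hl).le
          obtain ⟨m, hm⟩ := Nat.exists_eq_add_of_le hl'
          rw [hm, Nat.add_sub_cancel_left, MulMemClass.coe_mul, MulMemClass.coe_mul,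
            SubmonoidClass.coe_pow, SubmonoidClass.coe_pow, ← hvu, mul_pow, pow_add]
          show algebraMap k K (c l) * _ = _
          ring
        rw [e2, hw, MulMemClass.coe_mul, SubmonoidClass.coe_pow, ← hvu, mul_pow]
        ring
      have e3 := congrArg ev e1
      rw [map_mul, map_mul, map_pow, hu, zero_pow (Nat.succ_ne_zero N), mul_zero, map_sum,
        Finset.sum_range_succ'] at e3
      have e4 : ∑ l ∈ Finset.range N,
          ev (algebraMap k O (c (l + 1)) * (v ^ (N + 1 - (l + 1)) * u ^ (l + 1))) = 0 := by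
        refine Finset.sum_eq_zero fun l _ => ?_
        rw [map_mul, map_mul, map_pow ev u, hu, zero_pow (Nat.succ_ne_zero l), mul_zero, mul_zero]
      rw [e4, zero_add, map_mul, map_mul, pow_zero, map_one, mul_one, map_pow, AlgHom.commutes] at e3
      rcases mul_eq_zero.1 e3 with e5 | e5
      · exact absurd e5 hh
      · rcases mul_eq_zero.1 e5 with e6 | e6
        · simpa using e6
        · exact absurd e6 (pow_ne_zero _ hv0)
    cases l with
    | zero => exact h0
    | succ l =>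
      refine ih (fun l => c (l + 1)) w ?_ l (Nat.lt_of_succ_lt_succ hl)
      rw [Finset.sum_range_succ', h0, map_zero, zero_mul, add_zero] at hw
      have h3 : (∑ l ∈ Finset.range N, algebraMap k K (c (l + 1)) * π⁻¹ ^ (l + 1)) =
          (∑ l ∈ Finset.range N, algebraMap k K (c (l + 1)) * π⁻¹ ^ l) * π⁻¹ := by
        rw [Finset.sum_mul]
        refine Finset.sum_congr rfl fun l _ => ?_
        rw [pow_succ]; ring
      rw [h3, pow_succ, ← mul_assoc, ← mul_assoc] at hw
      exact mul_right_cancel₀ (inv_ne_zero hπ) hw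

theorem loc_O (f : O) : Cg O ev π 0 f 0 :=
  ⟨1, f, by rw [map_one]; exact one_ne_zero, by simp⟩

theorem cg_refl (N : ℕ) (f : K) : Cg O ev π N f f :=
  ⟨1, 0, by rw [map_one]; exact one_ne_zero, by simp⟩

theorem cg_symm {N : ℕ} {f g : K} (h : Cg O ev π N f g) : Cg O ev π N g f := by
  obtain ⟨h, w, hh, hw⟩ := h
  refine ⟨h, -w, hh, ?_⟩
  rw [NegMemClass.coe_neg, neg_mul, ← hw]
  ring

theorem cg_trans {N : ℕ} {f g g' : K} (h : Cg O ev π N f g) (h' : Cg O ev π N g g') :
    Cg O ev π N f g' := by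
  obtain ⟨h, w, hh, hw⟩ := h
  obtain ⟨h', w', hh', hw'⟩ := h'
  refine ⟨h * h', h' * w + h * w', by rw [map_mul]; exact mul_ne_zero hh hh', ?_⟩
  rw [AddMemClass.coe_add, MulMemClass.coe_mul, MulMemClass.coe_mul, MulMemClass.coe_mul]
  linear_combination (h' : K) * hw + (h : K) * hw'

theorem cg_add {N : ℕ} {f g f' g' : K} (h : Cg O ev π N f g) (h' : Cg O ev π N f' g') :
    Cg O ev π N (f + f') (g + g') := by
  obtain ⟨h, w, hh, hw⟩ := h
  obtain ⟨h', w', hh', hw'⟩ := h'
  refine ⟨h * h', h' * w + h * w', by rw [map_mul]; exact mul_ne_zero hh hh', ?_⟩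
  rw [AddMemClass.coe_add, MulMemClass.coe_mul, MulMemClass.coe_mul, MulMemClass.coe_mul]
  linear_combination (h' : K) * hw + (h : K) * hw'

theorem cg_sum {ι : Type} (s : Finset ι) {N : ℕ} {f g : ι → K} (h : ∀ i ∈ s, Cg O ev π N (f i) (g i)) :
    Cg O ev π N (∑ i ∈ s, f i) (∑ i ∈ s, g i) := by
  classical
  induction s using Finset.induction_on with
  | empty => simpa using cg_refl (O := O) (ev := ev) (π := π) N 0
  | insert a s ha ih =>
    rw [Finset.sum_insert ha, Finset.sum_insert ha]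
    exact cg_add (h a (Finset.mem_insert_self a s))
      (ih fun i hi => h i (Finset.mem_insert_of_mem hi))

theorem cg_mul {N : ℕ} {f g f' g' : K} (h : Cg O ev π N f g) (h' : Cg O ev π N f' g')
    (hf : Cg O ev π 0 f' 0) (hg : Cg O ev π 0 g 0) : Cg O ev π N (f * f') (g * g') := by
  obtain ⟨h1, w1, hh1, hw1⟩ := h
  obtain ⟨h2, w2, hh2, hw2⟩ := h'
  obtain ⟨h3, w3, hh3, hw3⟩ := hf
  obtain ⟨h4, w4, hh4, hw4⟩ := hg
  rw [sub_zero, pow_zero, mul_one] at hw3 hw4
  refine ⟨h1 * h2 * (h3 * h4), w1 * w3 * (h2 * h4) + w4 * w2 * (h1 * h3), ?_, ?_⟩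
  · rw [map_mul, map_mul, map_mul]
    exact mul_ne_zero (mul_ne_zero hh1 hh2) (mul_ne_zero hh3 hh4)
  · simp only [AddMemClass.coe_add, MulMemClass.coe_mul]
    linear_combination (h2 * h3 * h4 * f' : K) * hw1 + (w1 * π⁻¹ ^ N * h2 * h4 : K) * hw3 +
      (h1 * h3 * h4 * g : K) * hw2 + (h1 * h3 * w2 * π⁻¹ ^ N : K) * hw4

theorem cg_le (hp : Pole O ev π) {N N' : ℕ} (hN : N' ≤ N) {f g : K} (h : Cg O ev π N f g) :
    Cg O ev π N' f g := by
  have hπ := X3_ne hp
  obtain ⟨-, u, v, hu, hv, hv0⟩ := hp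
  have hvu : (v : K) * π⁻¹ = u := by rw [hv, mul_assoc, mul_inv_cancel₀ hπ, mul_one]
  obtain ⟨j, rfl⟩ := Nat.exists_eq_add_of_le hN
  obtain ⟨h, w, hh, hw⟩ := h
  refine ⟨h * v ^ j, w * u ^ j, ?_, ?_⟩
  · rw [map_mul, map_pow]
    exact mul_ne_zero hh (pow_ne_zero _ hv0)
  · rw [MulMemClass.coe_mul, MulMemClass.coe_mul, SubmonoidClass.coe_pow, SubmonoidClass.coe_pow,
      ← hvu, mul_pow]
    rw [pow_add] at hw
    linear_combination (v : K) ^ j * hw

theorem cg_pow (hp : Pole O ev π) {N l : ℕ} (hl : N ≤ l) {f : K} (hf : Cg O ev π 0 f 0) :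
    Cg O ev π N (f * π⁻¹ ^ l) 0 := by
  refine cg_le hp hl ?_
  obtain ⟨h, w, hh, hw⟩ := hf
  rw [sub_zero, pow_zero, mul_one] at hw
  refine ⟨h, w, hh, ?_⟩
  rw [sub_zero, ← hw]
  ring

theorem cg_eval {n : ℕ} (F : MvPolynomial (Fin n) O) {N : ℕ} (x y : Fin n → K)
    (hx : ∀ a, Cg O ev π 0 (x a) 0) (hy : ∀ a, Cg O ev π 0 (y a) 0)
    (h : ∀ a, Cg O ev π N (x a) (y a)) :
    Cg O ev π N (MvPolynomial.eval x (MvPolynomial.map (O.subtype : O →+* K) F))
      (MvPolynomial.eval y (MvPolynomial.map (O.subtype : O →+* K) F)) := by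
  suffices H : Cg O ev π 0 (MvPolynomial.eval y (MvPolynomial.map (O.subtype : O →+* K) F)) 0 ∧
      Cg O ev π N (MvPolynomial.eval x (MvPolynomial.map (O.subtype : O →+* K) F))
      (MvPolynomial.eval y (MvPolynomial.map (O.subtype : O →+* K) F)) from H.2
  induction F using MvPolynomial.induction_on with
  | C a =>
    rw [MvPolynomial.map_C, MvPolynomial.eval_C, MvPolynomial.eval_C]
    exact ⟨loc_O a, cg_refl _ _⟩
  | add p q hp hq =>
    rw [map_add, map_add, map_add]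
    refine ⟨?_, cg_add hp.2 hq.2⟩
    have := cg_add hp.1 hq.1
    rwa [add_zero] at this
  | mul_X p i hp =>
    rw [map_mul, map_mul, map_mul, MvPolynomial.map_X, MvPolynomial.eval_X, MvPolynomial.eval_X]
    refine ⟨?_, cg_mul hp.2 (h i) (hx i) hp.1⟩
    have := cg_mul hp.1 (hy i) (hy i) (cg_refl 0 0)
    rwa [mul_zero] at this

end

end Q9
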