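import Pool.Agent.LibQ9.P5
import Pool.Agent.LibQ9.P9

/-!
[Q9 X4] (MEDIUM; may cite P5 `inj_of_spz`, P9 `smooth_curve`) A polynomial system with redundant equations.

PLAN. `E₀ = E.map (eval z₀)`, `N = ker E₀ ⊂ k^(J₁)` of dimension `q`; choose a matrix `Q : Matrix (Fin q) J₁ k` whose restriction to `N` is bijective (a linear retraction onto `N` composed with coordinates of a basis of `N`). System `Φ : Fin q ⊕ J₂ → MvPolynomial I k`: `Φ (inl r) = Σ_j C (Q r j) * A j`, `Φ (inr j) = B j`. `Φ(z₀) = 0`, the Jacobian at `z₀` is onto: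
given `(γ, β)` choose `α ∈ N` with `Q α = γ` and `δ` from `hJ`; the rows `inl r` give `Q (Jac A z₀ δ) = Q α`. `v` is in the kernel. P9 `smooth_curve`: `Ω`, `z`. Then `B(z) = 0`, `Q A(z) = 0`, and `E(z) A(z) = 0` by `hE`. The stacked matrix `(E; C Q)` over `MvPolynomial I k` is injective at `z₀` (a vector killed by `E₀` is in `N`, and `Q` is injective on `N`), so by P5 `inj_of_spz` it is injective at `z`: `A(z) = 0`.
-/

set_option autoImplicit false

namespace Q9

open MvPolynomial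

private theorem X4_retract {k : Type} [Field k] {J₁ : Type} [Fintype J₁]
    (N : Submodule k (J₁ → k)) :
    ∃ (q : ℕ) (Q : Matrix (Fin q) J₁ k),
      (∀ γ : Fin q → k, ∃ α ∈ N, Q.mulVec α = γ) ∧ (∀ α ∈ N, Q.mulVec α = 0 → α = 0) := by
  classical
  obtain ⟨g, hg⟩ := LinearMap.exists_leftInverse_of_injective N.subtype N.ker_subtype
  let b := Module.finBasis k N
  let L : (J₁ → k) →ₗ[k] (Fin (Module.finrank k N) → k) :=
    (b.equivFun : N →ₗ[k] (Fin (Module.finrank k N) → k)) ∘ₗ g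
  have hL : ∀ α : J₁ → k, (LinearMap.toMatrix' L).mulVec α = L α := by
    intro α
    rw [LinearMap.toMatrix'_mulVec]
  have hgN : ∀ x : N, g (x : J₁ → k) = x := by
    intro x
    have := congrArg (fun f : N →ₗ[k] N => f x) hg
    simpa using this
  refine ⟨_, LinearMap.toMatrix' L, ?_, ?_⟩
  · intro γ
    refine ⟨(b.equivFun.symm γ : N), (b.equivFun.symm γ).2, ?_⟩
    rw [hL]
    show b.equivFun (g _) = γ
    rw [hgN, LinearEquiv.apply_symm_apply]
  · intro α hα h0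
    rw [hL] at h0
    have h1 : b.equivFun (g ((⟨α, hα⟩ : N) : J₁ → k)) = 0 := h0
    rw [hgN] at h1
    have h2 : (⟨α, hα⟩ : N) = 0 := by
      rwa [LinearEquiv.map_eq_zero_iff] at h1
    exact congrArg Subtype.val h2

theorem smooth_red {k : Type} [Field k] {I J₁ J₂ J₃ : Type} [Fintype I] [Fintype J₁] [Fintype J₂]
    [Fintype J₃] (A : J₁ → MvPolynomial I k) (B : J₂ → MvPolynomial I k)
    (E : Matrix J₃ J₁ (MvPolynomial I k)) (z₀ : I → k) (hA : ∀ j, eval z₀ (A j) = 0)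
    (hB : ∀ j, eval z₀ (B j) = 0)
    (hE : ∀ (Ω : Type) [Field Ω] [Algebra k Ω] (z : I → Ω), (∀ j, aeval z (B j) = 0) →
      ∀ r, ∑ j, aeval z (E r j) * aeval z (A j) = 0)
    (hJ : ∀ (α : J₁ → k) (β : J₂ → k), (E.map (eval z₀)).mulVec α = 0 →
      ∃ δ : I → k, (Jac A z₀).mulVec δ = α ∧ (Jac B z₀).mulVec δ = β)
    (S : Finset I) (v : I → k) (hvA : (Jac A z₀).mulVec v = 0) (hvB : (Jac B z₀).mulVec v = 0)
    (hvS : ∀ i ∈ S, v i ≠ 0) :
    ∃ (Ω : Type) (_ : Field Ω) (_ : Algebra k Ω) (z : I → Ω), IsAlgClosed Ω ∧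
      (∀ j, aeval z (A j) = 0) ∧ (∀ j, aeval z (B j) = 0) ∧ Spz z z₀ ∧ ∀ i ∈ S, z i ≠ 0 := by
  classical
  obtain ⟨q, Q, hQ1, hQ2⟩ := X4_retract (LinearMap.ker (E.map (eval z₀)).mulVecLin)
  let Φ : Fin q ⊕ J₂ → MvPolynomial I k := Sum.elim (fun r => ∑ j, C (Q r j) * A j) B
  have hjac1 : ∀ (δ : I → k) (r : Fin q),
      (Jac Φ z₀).mulVec δ (Sum.inl r) = Q.mulVec ((Jac A z₀).mulVec δ) r := by
    intro δ r
    have h1 : ∀ i, Jac Φ z₀ (Sum.inl r) i = ∑ j, Q r j * Jac A z₀ j i := by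
      intro i
      show aeval z₀ (pderiv i (∑ j, C (Q r j) * A j)) = ∑ j, Q r j * aeval z₀ (pderiv i (A j))
      rw [map_sum, map_sum]
      refine Finset.sum_congr rfl fun j _ => ?_
      rw [pderiv_C_mul, map_mul, aeval_C]
      rfl
    show ∑ i, Jac Φ z₀ (Sum.inl r) i * δ i = ∑ j, Q r j * ∑ i, Jac A z₀ j i * δ i
    calc ∑ i, Jac Φ z₀ (Sum.inl r) i * δ i = ∑ i, ∑ j, Q r j * (Jac A z₀ j i * δ i) := by
          refine Finset.sum_congr rfl fun i _ => ?_
          rw [h1, Finset.sum_mul]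
          exact Finset.sum_congr rfl fun j _ => by ring
      _ = ∑ j, ∑ i, Q r j * (Jac A z₀ j i * δ i) := Finset.sum_comm
      _ = ∑ j, Q r j * ∑ i, Jac A z₀ j i * δ i :=
          Finset.sum_congr rfl fun j _ => by rw [Finset.mul_sum]
  have hjac2 : ∀ (δ : I → k) (j : J₂),
      (Jac Φ z₀).mulVec δ (Sum.inr j) = (Jac B z₀).mulVec δ j := fun δ j => rfl
  have h0 : ∀ j, eval z₀ (Φ j) = 0 := by
    rintro (r | j)
    · show eval z₀ (∑ j, C (Q r j) * A j) = 0
      rw [map_sum]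
      exact Finset.sum_eq_zero fun j _ => by rw [map_mul, hA, mul_zero]
    · exact hB j
  have hsurj : Function.Surjective (Jac Φ z₀).mulVec := by
    intro y
    obtain ⟨α, hα, hQα⟩ := hQ1 (fun r => y (Sum.inl r))
    obtain ⟨δ, hδ1, hδ2⟩ := hJ α (fun j => y (Sum.inr j)) hα
    refine ⟨δ, ?_⟩
    funext x
    rcases x with r | j
    · rw [hjac1, hδ1, hQα]
    · rw [hjac2, hδ2]
  have hv : (Jac Φ z₀).mulVec v = 0 := by
    funext x
    rcases x with r | j
    · rw [hjac1, hvA, Matrix.mulVec_zero]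
      rfl
    · rw [hjac2, hvB]
      rfl
  obtain ⟨Ω, fΩ, aΩ, z, hac, hΦ, hspz, hS⟩ := smooth_curve Φ z₀ h0 hsurj S v hv hvS
  have hzB : ∀ j, aeval z (B j) = 0 := fun j => hΦ (Sum.inr j)
  have hzQ : ∀ r, ∑ j, algebraMap k Ω (Q r j) * aeval z (A j) = 0 := by
    intro r
    have h1 : aeval z (∑ j, C (Q r j) * A j) = 0 := hΦ (Sum.inl r)
    rw [map_sum] at h1
    rw [← h1]
    refine Finset.sum_congr rfl fun j _ => ?_
    rw [map_mul, aeval_C]
  let M : Matrix (J₃ ⊕ Fin q) J₁ (MvPolynomial I k) :=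
    Matrix.of (Sum.elim (fun r j => E r j) (fun r j => C (Q r j)))
  have hM0 : Function.Injective (M.map (eval z₀)).mulVec := by
    intro x y hxy
    have h1 : (M.map (eval z₀)).mulVec (x - y) = 0 := by
      rw [Matrix.mulVec_sub, hxy, sub_self]
    have h2 : x - y ∈ LinearMap.ker (E.map (eval z₀)).mulVecLin := by
      rw [LinearMap.mem_ker, Matrix.mulVecLin_apply]
      funext r
      exact congrFun h1 (Sum.inl r)
    have h3 : Q.mulVec (x - y) = 0 := by
      funext r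
      have h4 : ∑ j, eval z₀ (C (Q r j)) * (x - y) j = 0 := congrFun h1 (Sum.inr r)
      show ∑ j, Q r j * (x - y) j = 0
      rw [← h4]
      exact Finset.sum_congr rfl fun j _ => by rw [eval_C]
    exact sub_eq_zero.1 (hQ2 _ h2 h3)
  have hM := inj_of_spz z z₀ hspz M hM0
  have hAz : (fun j => aeval z (A j)) = (0 : J₁ → Ω) := by
    apply hM
    rw [Matrix.mulVec_zero]
    funext x
    rcases x with r | r
    · exact hE Ω z hzB r
    · show ∑ j, aeval z (C (Q r j)) * aeval z (A j) = 0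
      rw [← hzQ r]
      exact Finset.sum_congr rfl fun j _ => by rw [aeval_C]
  exact ⟨Ω, fΩ, aΩ, z, hac, fun j => congrFun hAz j, hzB, hspz, hS⟩

end Q9
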