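import Pool.Agent.LibQ9.CDefs
import Pool.Agent.LibQ9.SDefs

/-!
# LibQ9, block X: weak approximation over function fields, definitions

`O` is the ring of the functions regular on an affine curve with function field `K`, `R` a ring of functions regular at infinity (outside the affine curve), `s = 1/t ∈ R`.
-/

set_option autoImplicit false

namespace Q9

open Polynomial

/-- `π` is a function with a simple pole at the place `ev` of the affine curve and regular elsewhere on it -/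
def Pole {k K : Type} [Field k] [Field K] [Algebra k K] (O : Subalgebra k K) (ev : O →ₐ[k] k) (π : K) :
    Prop :=
  (∀ f : O, ((f : K) - algebraMap k K (ev f)) * π ∈ O) ∧
    ∃ h v : O, ev h = 0 ∧ (v : K) = h * π ∧ ev v ≠ 0

/-- an affine curve with a function `t` whose poles are all the places at infinity -/
structure Mdl (k K : Type) [Field k] [Field K] [Algebra k K] where
  O : Subalgebra k K
  R : Subalgebra k K
  t : O
  s_mem : (t : K)⁻¹ ∈ R
  inv : ∀ c : k, (t : K) ≠ algebraMap k K c ∧ (t : K) * ((t : K) - algebraMap k K c)⁻¹ ∈ R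
  exh : ∀ f : K, ∃ C : ℕ, f * (t : K)⁻¹ ^ C ∈ R
  fin : ∀ C : ℕ, ∃ U : Submodule k K, FiniteDimensional k U ∧ ∀ f ∈ O, f * (t : K)⁻¹ ^ C ∈ R → f ∈ U
  cover : ∃ C : ℕ, ∀ f : K, ∃ a ∈ O, (f - a) * (t : K)⁻¹ ^ C ∈ R
  finR : ∀ A B : ℕ, ∃ U : Submodule k K, FiniteDimensional k U ∧
    ∀ f : K, f * (t : K)⁻¹ ^ A ∈ R → ∃ u ∈ U, ∃ r ∈ R, f - u = r * (t : K)⁻¹ ^ B
  frac : ∀ f : K, ∃ b : O, b ≠ 0 ∧ f * b ∈ O
  nz : ∀ f : O, f ≠ 0 → ∃ Z : Finset k, ∀ ev : O →ₐ[k] k, ev t ∉ Z → ev f ≠ 0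
  gen : ∃ Z : Finset k, ∀ c ∉ Z, ∃ (q : ℕ) (ev : Fin q → (O →ₐ[k] k)) (π : Fin q → K),
    (∀ i, ev i t = c ∧ Pole O (ev i) (π i)) ∧
    ∀ f : O, ∃ μ : Fin q → k,
      (f : K) * ((t : K) - algebraMap k K c)⁻¹ - ∑ i, algebraMap k K (μ i) * π i ∈ O
  plc : ∀ ev : O →ₐ[k] k, ∃ π : K, Pole O ev π
  val : ∀ (ev : O →ₐ[k] k) (π : K), Pole O ev π → ∀ f : K, f ≠ 0 →
    ∃ (a b : O) (i j : ℕ), ev a ≠ 0 ∧ ev b ≠ 0 ∧ f * π ^ i * b = a * π ^ j

section

variable {k K : Type} [Field k] [Field K] [Algebra k K]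

/-- the gradient of `F` at `P` -/
noncomputable def gd {A : Type} [CommRing A] {n : ℕ} (F : MvPolynomial (Fin (n + 1)) A)
    (P : Fin (n + 1) → A) (a : Fin (n + 1)) : A := MvPolynomial.eval P (MvPolynomial.pderiv a F)

/-- `f ∈ s^B R` -/
def Inf (M : Mdl k K) (B : ℕ) (f : K) : Prop := ∃ r ∈ M.R, f = r * (M.t : K)⁻¹ ^ B

/-- congruence modulo the `N`-th power of the ideal of the place `ev` (local, `π` a simple pole) -/
def Cg (O : Subalgebra k K) (ev : O →ₐ[k] k) (π : K) (N : ℕ) (f g : K) : Prop :=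
  ∃ h w : O, ev h ≠ 0 ∧ (h : K) * (f - g) = w * π⁻¹ ^ N

/-- the point `Σ_(l < N) y_l π^(-l)` (the jet of order `N` with coefficients `y`), times `ρ` -/
noncomputable def jt {n : ℕ} (π : K) (ρ : K) (N : ℕ) (y : Fin (n + 1) → ℕ → k) (a : Fin (n + 1)) : K :=
  ρ * ∑ l ∈ Finset.range N, algebraMap k K (y a l) * π⁻¹ ^ l

/-- `m` places with teeth: curves `τ i` of degree at most `d i` on the reductions of `F` through the values of
`P`, the last `N i` coefficients prescribed by the jets `y i` (`N i = 0`: a free curve, no condition) -/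
structure Cmb (O : Subalgebra k K) {n : ℕ} (F : MvPolynomial (Fin (n + 1)) O)
    (P : Fin (n + 1) → O) (ρ : O) (m : ℕ) where
  ev : Fin m → (O →ₐ[k] k)
  inj : Function.Injective ev
  π : Fin m → K
  pole : ∀ i, Pole O (ev i) (π i)
  ρ0 : ∀ i, ev i ρ ≠ 0
  d : Fin m → ℕ
  N : Fin m → ℕ
  hN : ∀ i, N i ≤ d i
  hd : ∀ i, 1 ≤ d i
  τ : Fin m → Fin (n + 1) → k[X]
  on : ∀ i, On (MvPolynomial.map (ev i : O →+* k) F) (d i) (τ i)
  τ0 : ∀ i a, (τ i a).coeff 0 = ev i (P a)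
  surj : ∀ i, ∀ f : k[X], f.degree < (n * d i - N i : ℕ) → ∃ a : Fin (n + 1) → k[X],
    (∀ j, (a j).degree < (d i - N i : ℕ)) ∧ grad (MvPolynomial.map (ev i : O →+* k) F) (τ i) a = f
  y : Fin m → Fin (n + 1) → ℕ → k
  top : ∀ i a, 1 ≤ N i → (τ i a).coeff (d i) = ev i ρ * y i a 0
  mid : ∀ i a l, 1 ≤ l → l < N i → (τ i a).coeff (d i - l) = 0
  jet : ∀ i, Cg O (ev i) (π i) (N i)
    (MvPolynomial.eval (jt (π i) ρ (N i) (y i)) (MvPolynomial.map (O.subtype : O →+* K) F)) 0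

/-- the directions `w_i` of the teeth in `S` span the deformations at infinity -/
def Spn (M : Mdl k K) {n : ℕ} (Fd : Fin (n + 1) → M.O) (B : ℕ) {m : ℕ} (π : Fin m → K)
    (σ : Fin m → Fin (n + 1) → k) (S : Finset (Fin m)) : Prop :=
  ∀ w : Fin (n + 1) → K, ∑ a, (Fd a : K) * w a = 0 →
    ∃ (μ : Fin m → k) (α : Fin (n + 1) → M.O) (r : Fin (n + 1) → K),
      (∀ i, i ∉ S → μ i = 0) ∧ (∀ a, Inf M B (r a)) ∧ ∑ a, (Fd a : K) * r a = 0 ∧
      ∀ a, w a = α a + r a + ∑ i, algebraMap k K (μ i * σ i a) * π i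

/-- the multiples of the gradient by regular functions -/
def IN {O : Subalgebra k K} {n : ℕ} (Fd : Fin (n + 1) → O) (f : K) : Prop :=
  ∃ β : Fin (n + 1) → O, f = ∑ a, (Fd a : K) * β a

/-- the multiples of the gradient by functions in `s^B R` -/
def II (M : Mdl k K) {n : ℕ} (Fd : Fin (n + 1) → M.O) (B : ℕ) (f : K) : Prop :=
  ∃ v : Fin (n + 1) → K, (∀ a, Inf M B (v a)) ∧ f = ∑ a, (Fd a : K) * v a

end

end Q9
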